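import Mathlib
import Pool.Agent.MP_48b1c3_nt.H91.Defs

-- part MP_48b1c3_nt.H48.Geo
section

/-! Balls of algebraic integers and the number of points in a residue class. -/

namespace Pool.Agent.MP_48b1c3_nt.H48

open Finset NumberField MeasureTheory
open scoped Classical

variable {K : Type} [Field K] [NumberField K]

/-- the point of the mixed space attached to an algebraic integer -/
noncomputable def emb (K : Type) [Field K] : 𝓞 K →+* mixedEmbedding.mixedSpace K :=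
  (mixedEmbedding K).comp (algebraMap (𝓞 K) K)

/-- the largest absolute value of a conjugate -/
noncomputable def sz (a : 𝓞 K) : ℝ := ‖emb K a‖

theorem sz_nonneg (a : 𝓞 K) : 0 ≤ sz a := norm_nonneg _

theorem sz_zero : sz (0 : 𝓞 K) = 0 := by simp [sz]

theorem sz_neg (a : 𝓞 K) : sz (-a) = sz a := by simp [sz]

theorem sz_add_le (a b : 𝓞 K) : sz (a + b) ≤ sz a + sz b := by
  simp only [sz, map_add]; exact norm_add_le _ _

theorem sz_sub_le (a b : 𝓞 K) : sz (a - b) ≤ sz a + sz b := by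
  simp only [sz, map_sub]; exact norm_sub_le _ _

theorem sz_mul_le (a b : 𝓞 K) : sz (a * b) ≤ sz a * sz b := by
  simp only [sz, map_mul]; exact norm_mul_le _ _

theorem sz_sum_le {ι : Type} (s : Finset ι) (f : ι → 𝓞 K) :
    sz (∑ i ∈ s, f i) ≤ ∑ i ∈ s, sz (f i) := by
  simp only [sz, map_sum]; exact norm_sum_le _ _

theorem sz_intCast_mul (m : ℤ) (a : 𝓞 K) : sz ((m : 𝓞 K) * a) = |(m : ℝ)| * sz a := by
  rw [sz, sz, ← zsmul_eq_mul, map_zsmul, ← Int.cast_smul_eq_zsmul ℝ, norm_smul, Real.norm_eq_abs]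

theorem sz_natCast_mul (m : ℕ) (a : 𝓞 K) : sz ((m : 𝓞 K) * a) = m * sz a := by
  simpa using sz_intCast_mul m a

theorem le_sz (w : InfinitePlace K) (a : 𝓞 K) : w (a : K) ≤ sz a := by
  rw [sz, mixedEmbedding.norm_eq_sup'_normAtPlace, ← mixedEmbedding.normAtPlace_apply]
  exact Finset.le_sup' (fun w => mixedEmbedding.normAtPlace w (emb K a)) (mem_univ w)

theorem norm_emb (a : 𝓞 K) : mixedEmbedding.norm (emb K a) = |(Algebra.norm ℤ a : ℝ)| := by
  rw [← Rat.cast_intCast (α := ℝ), ← Rat.cast_abs, Algebra.coe_norm_int]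
  exact mixedEmbedding.norm_eq_norm (a : K)

theorem abs_norm_eq (a : 𝓞 K) :
    |(Algebra.norm ℤ a : ℝ)| = ∏ w : InfinitePlace K, w (a : K) ^ w.mult := by
  rw [InfinitePlace.prod_eq_abs_norm, ← Algebra.coe_norm_int, Rat.cast_abs, Rat.cast_intCast]

theorem abs_norm_le (a : 𝓞 K) : |(Algebra.norm ℤ a : ℝ)| ≤ sz a ^ Module.finrank ℚ K := by
  rw [abs_norm_eq, ← InfinitePlace.sum_mult_eq, ← prod_pow_eq_pow_sum]
  exact prod_le_prod (fun w _ => by positivity)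
    fun w _ => pow_le_pow_left₀ (apply_nonneg w _) (le_sz w a) _

theorem le_abs_norm {A : ℝ} {m : ℕ} {u : 𝓞 K} (hA : 0 ≤ A) (h : A + sz u ≤ m) :
    A ^ Module.finrank ℚ K ≤ |(Algebra.norm ℤ (m + u : 𝓞 K) : ℝ)| := by
  rw [abs_norm_eq, ← InfinitePlace.sum_mult_eq, ← prod_pow_eq_pow_sum]
  refine prod_le_prod (fun w _ => by positivity) fun w _ => pow_le_pow_left₀ hA ?_ _
  have h1 := le_sz w u
  have h2 : w (((m + u : 𝓞 K) : K) - u) ≤ w ((m + u : 𝓞 K) : K) + w (u : K) :=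
    w.1.sub_le_add _ _
  have h3 : ((m + u : 𝓞 K) : K) - u = m := by simp
  rw [h3, InfinitePlace.map_natCast] at h2
  linarith

theorem absNorm_le_of_mem {I : Ideal (𝓞 K)} {a : 𝓞 K} (ha : a ∈ I) (h0 : a ≠ 0) :
    (Ideal.absNorm I : ℝ) ≤ sz a ^ Module.finrank ℚ K := by
  refine le_trans ?_ (abs_norm_le a)
  have h1 := Ideal.absNorm_dvd_norm_of_mem ha
  have h2 := Int.le_of_dvd (abs_pos.2 (Algebra.norm_ne_zero_iff.2 h0)) ((dvd_abs _ _).2 h1)
  exact_mod_cast h2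

theorem one_le_sz {a : 𝓞 K} (h0 : a ≠ 0) : 1 ≤ sz a := by
  have := absNorm_le_of_mem (I := ⊤) trivial h0
  rw [Ideal.absNorm_top, Nat.cast_one] at this
  exact (one_le_pow_iff_of_nonneg (sz_nonneg a) Module.finrank_pos.ne').1 this

theorem finite_sz (K : Type) [Field K] [NumberField K] (T : ℝ) : {a : 𝓞 K | sz a ≤ T}.Finite :=
  (Set.Finite.preimage RingOfIntegers.coe_injective.injOn
    (Embeddings.finite_of_norm_le K ℂ T)).subset fun a ha =>
      ⟨a.isIntegral_coe, fun φ => (le_sz (InfinitePlace.mk φ) a).trans ha⟩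

/-- the ball of radius `T` -/
noncomputable def Bl (K : Type) [Field K] [NumberField K] (T : ℝ) : Finset (𝓞 K) :=
  (finite_sz K T).toFinset

theorem mem_Bl {T : ℝ} {a : 𝓞 K} : a ∈ Bl K T ↔ sz a ≤ T := by simp [Bl]

theorem zero_mem_Bl {T : ℝ} (hT : 0 ≤ T) : (0 : 𝓞 K) ∈ Bl K T := mem_Bl.2 (sz_zero.trans_le hT)

theorem card_sep {E : Type} [NormedAddCommGroup E] [NormedSpace ℝ E] [FiniteDimensional ℝ E]
    (A : Finset E) {T ρ : ℝ} (hT : 0 ≤ T) (hρ : 0 < ρ) (x : E) (h1 : ∀ a ∈ A, ‖a - x‖ ≤ T)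
    (h2 : ∀ a ∈ A, ∀ b ∈ A, a ≠ b → ρ ≤ ‖a - b‖) :
    (#A : ℝ) ≤ (1 + 2 * T / ρ) ^ Module.finrank ℝ E := by
  borelize E
  let μ : Measure E := Measure.addHaar
  have hd : Set.Pairwise (A : Set E) (Function.onFun Disjoint fun c => Metric.ball c (ρ / 2)) := by
    intro a ha b hb hab
    exact Metric.ball_disjoint_ball (by rw [dist_eq_norm]; linarith [h2 a ha b hb hab])
  have hs : ⋃ c ∈ A, Metric.ball c (ρ / 2) ⊆ Metric.ball x (T + ρ / 2) := by
    refine Set.iUnion₂_subset fun c hc => Metric.ball_subset ?_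
    rw [dist_eq_norm]
    linarith [h1 c hc]
  have h3 := measure_mono (μ := μ) hs
  rw [measure_biUnion_finset hd fun c _ => Metric.isOpen_ball.measurableSet] at h3
  simp only [μ.addHaar_ball_of_pos _ (half_pos hρ),
    μ.addHaar_ball_of_pos _ (show 0 < T + ρ / 2 by positivity), sum_const, nsmul_eq_mul] at h3
  rw [← mul_assoc, ENNReal.mul_le_mul_iff_left (Metric.measure_ball_pos _ _ one_pos).ne'
    measure_ball_lt_top.ne, ← ENNReal.ofReal_natCast, ← ENNReal.ofReal_mul (by positivity),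
    ENNReal.ofReal_le_ofReal_iff (by positivity), ← le_div_iff₀ (by positivity), ← div_pow] at h3
  refine h3.trans (le_of_eq ?_)
  congr 1
  field_simp
  ring

theorem emb_injective : Function.Injective (emb K) :=
  (mixedEmbedding_injective K).comp RingOfIntegers.coe_injective

/-- points of a residue class in a ball -/
theorem card_coset {I : Ideal (𝓞 K)} (hI : I ≠ ⊥) (A : Finset (𝓞 K)) {T : ℝ} (hT : 0 ≤ T)
    (x : 𝓞 K) (h1 : ∀ a ∈ A, sz (a - x) ≤ T) (h2 : ∀ a ∈ A, ∀ b ∈ A, a - b ∈ I) :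
    (#A : ℝ) ≤ 4 ^ Module.finrank ℚ K * (1 + T ^ Module.finrank ℚ K / Ideal.absNorm I) := by
  have hn : Module.finrank ℚ K ≠ 0 := Module.finrank_pos.ne'
  have hN : (0 : ℝ) < Ideal.absNorm I := by
    exact_mod_cast Nat.pos_of_ne_zero fun h => hI (Ideal.absNorm_eq_zero_iff.1 h)
  obtain ⟨ρ, hρ, hρn⟩ : ∃ ρ : ℝ, 0 < ρ ∧ ρ ^ Module.finrank ℚ K = Ideal.absNorm I :=
    ⟨_, Real.rpow_pos_of_pos hN _, Real.rpow_inv_natCast_pow hN.le hn⟩
  have h3 := card_sep (A.image (emb K)) hT hρ (emb K x)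
    (fun a ha => by
      obtain ⟨a, ha', rfl⟩ := mem_image.1 ha
      rw [← map_sub]
      exact h1 a ha')
    (fun a ha b hb hab => by
      obtain ⟨a, ha', rfl⟩ := mem_image.1 ha
      obtain ⟨b, hb', rfl⟩ := mem_image.1 hb
      rw [← map_sub]
      refine (pow_le_pow_iff_left₀ hρ.le (norm_nonneg _) hn).1 ?_
      rw [hρn]
      exact absNorm_le_of_mem (h2 a ha' b hb') fun h => hab (by rw [sub_eq_zero.1 h]))
  rw [card_image_of_injective _ emb_injective, mixedEmbedding.finrank] at h3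
  refine h3.trans ?_
  rw [← hρn, ← div_pow, mul_div_assoc]
  have h4 : 0 ≤ T / ρ := by positivity
  generalize T / ρ = y at *
  rcases le_total y 1 with h | h
  · exact (pow_le_pow_left₀ (by positivity) (by linarith) _).trans
      (le_mul_of_one_le_right (by positivity) (le_add_of_nonneg_right (by positivity)))
  · refine (pow_le_pow_left₀ (by positivity) (show _ ≤ 4 * y by linarith) _).trans ?_
    rw [mul_pow]
    gcongr
    linarith

theorem card_Bl_le {T : ℝ} (hT : 1 ≤ T) : (#(Bl K T) : ℝ) ≤ (8 * T) ^ Module.finrank ℚ K := by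
  have h := card_coset (I := ⊤) top_ne_bot (Bl K T) (T := T) (by linarith) 0
    (fun a ha => by rw [sub_zero]; exact mem_Bl.1 ha) fun _ _ _ _ => trivial
  rw [Ideal.absNorm_top, Nat.cast_one, div_one] at h
  refine h.trans ?_
  rw [show 8 * T = 4 * (2 * T) by ring, mul_pow, mul_pow]
  gcongr
  have h1 := one_le_pow₀ (n := Module.finrank ℚ K) hT
  have h2 : (2 : ℝ) ≤ 2 ^ Module.finrank ℚ K := le_self_pow₀ one_le_two Module.finrank_pos.ne'
  nlinarith

/-- small representatives modulo a natural number -/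
theorem exists_rep (K : Type) [Field K] [NumberField K] : ∃ C : ℝ, 1 ≤ C ∧ ∀ m : ℕ, 0 < m →
    ∀ a : 𝓞 K, ∃ b, b - a ∈ Ideal.span {(m : 𝓞 K)} ∧ sz b ≤ C * m := by
  let β := RingOfIntegers.basis K
  have h0 : 0 ≤ ∑ i, sz (β i) := sum_nonneg fun i _ => sz_nonneg _
  refine ⟨1 + ∑ i, sz (β i), by linarith, fun m hm a => ⟨∑ i, (β.repr a i % m : ℤ) * β i, ?_, ?_⟩⟩
  · conv => enter [2, 2]; rw [← β.sum_repr a]
    rw [← sum_sub_distrib]
    refine Ideal.sum_mem _ fun i _ => ?_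
    rw [zsmul_eq_mul, ← sub_mul]
    refine Ideal.mul_mem_right _ _ (Ideal.mem_span_singleton.2 ?_)
    simpa using (Int.castRingHom (𝓞 K)).map_dvd (Int.mod_modEq (β.repr a i) m).symm.dvd
  · refine (sz_sum_le _ _).trans ?_
    rw [add_mul, sum_mul]
    refine le_add_of_nonneg_of_le (by positivity) (sum_le_sum fun i _ => ?_)
    rw [sz_intCast_mul, mul_comm]
    refine mul_le_mul_of_nonneg_left ?_ (sz_nonneg _)
    have h1 := Int.emod_nonneg (β.repr a i) (b := m) (by omega)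
    have h2 := Int.emod_lt_of_pos (β.repr a i) (b := m) (by omega)
    rw [abs_of_nonneg (by exact_mod_cast h1)]
    exact_mod_cast h2.le

theorem le_card_Bl (K : Type) [Field K] [NumberField K] : ∃ C : ℝ, 0 < C ∧ ∀ T : ℝ, 0 ≤ T →
    T ^ Module.finrank ℚ K ≤ C * #(Bl K T) := by
  obtain ⟨C, hC, h⟩ := exists_rep K
  refine ⟨(2 * C) ^ Module.finrank ℚ K, by positivity, fun T hT => ?_⟩
  rcases lt_or_ge (T / C) 1 with h1 | h1
  · have h2 : (1 : ℝ) ≤ #(Bl K T) := by exact_mod_cast card_pos.2 ⟨_, zero_mem_Bl hT⟩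
    rw [div_lt_one (by linarith)] at h1
    exact (pow_le_pow_left₀ hT (by linarith) _).trans (le_mul_of_one_le_right (by positivity) h2)
  · have hm : 0 < ⌊T / C⌋₊ := Nat.floor_pos.2 h1
    have h2 : (⌊T / C⌋₊ : ℝ) ≤ T / C := Nat.floor_le (by linarith)
    have h3 := Nat.lt_floor_add_one (T / C)
    have h4 : (1 : ℝ) ≤ ⌊T / C⌋₊ := by exact_mod_cast hm
    generalize ⌊T / C⌋₊ = m at *
    rw [le_div_iff₀ (by linarith)] at h2
    rw [div_lt_iff₀ (by linarith)] at h3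
    have h5 : Function.Surjective
        fun b : Bl K T => Ideal.Quotient.mk (Ideal.span {(m : 𝓞 K)}) b := by
      intro t
      obtain ⟨a, rfl⟩ := Ideal.Quotient.mk_surjective t
      obtain ⟨b, h6, h7⟩ := h m hm a
      exact ⟨⟨b, mem_Bl.2 (by linarith)⟩, Ideal.Quotient.eq.2 h6⟩
    have h6 := Nat.card_le_card_of_surjective _ h5
    rw [← Submodule.cardQuot_apply, ← Ideal.absNorm_apply, Ideal.absNorm_span_natCast,
      RingOfIntegers.rank, Nat.card_eq_finsetCard] at h6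
    calc _ ≤ (2 * C * m) ^ Module.finrank ℚ K := pow_le_pow_left₀ hT (by nlinarith) _
      _ ≤ _ := by
        rw [mul_pow]
        gcongr
        exact_mod_cast h6

/-- the norm of a product of ideals -/
noncomputable def NN (D : Finset (Ideal (𝓞 K))) : ℝ := ∏ P ∈ D, (Ideal.absNorm P : ℝ)

theorem one_le_NN {D : Finset (Ideal (𝓞 K))} (hD : ∀ P ∈ D, P.IsMaximal) : 1 ≤ NN D :=
  Finset.one_le_prod fun P hP => by
    exact_mod_cast Nat.pos_of_ne_zero fun h => Ring.ne_bot_of_isMaximal_of_not_isField (hD P hP)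
      (RingOfIntegers.not_isField K) (Ideal.absNorm_eq_zero_iff.1 h)

theorem mem_prod_of_mem {D : Finset (Ideal (𝓞 K))} (hD : ∀ P ∈ D, P.IsMaximal) {a : 𝓞 K}
    (h : ∀ P ∈ D, a ∈ P) : a ∈ ∏ P ∈ D, P :=
  Ideal.dvd_span_singleton.1 (Finset.prod_dvd_of_coprime (fun P hP Q hQ hne =>
    Ideal.isCoprime_iff_sup_eq.2 ((hD P hP).coprime_of_ne (hD Q hQ) hne))
      fun P hP => Ideal.dvd_span_singleton.2 (h P hP))

theorem card_class {D : Finset (Ideal (𝓞 K))} (hD : ∀ P ∈ D, P.IsMaximal) (A : Finset (𝓞 K))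
    {T : ℝ} (hT : 0 ≤ T) (h1 : ∀ a ∈ A, sz a ≤ T) (h2 : ∀ a ∈ A, ∀ b ∈ A, ∀ P ∈ D, a - b ∈ P) :
    (#A : ℝ) ≤ 4 ^ Module.finrank ℚ K * (1 + T ^ Module.finrank ℚ K / NN D) := by
  have h0 : (Ideal.absNorm (∏ P ∈ D, P) : ℝ) = NN D := by rw [map_prod, Nat.cast_prod, NN]
  rw [← h0]
  refine card_coset (fun h => ?_) A hT 0 (by simpa using h1)
    fun a ha b hb => mem_prod_of_mem hD (h2 a ha b hb)
  have := one_le_NN hD
  rw [← h0, h, Ideal.absNorm_bot] at this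
  norm_num at this

/-- points that are congruent to one of several targets modulo each prime of `D` -/
theorem card_targets {D : Finset (Ideal (𝓞 K))} (hD : ∀ P ∈ D, P.IsMaximal) {I : Type} [Fintype I]
    (t : I → 𝓞 K) {g : 𝓞 K} (hg : ∀ P ∈ D, g ∉ P) (A : Finset (𝓞 K))
    {T : ℝ} (hT : 0 ≤ T) (h1 : ∀ a ∈ A, sz a ≤ T) (h2 : ∀ a ∈ A, ∀ P ∈ D, ∃ i, g * a - t i ∈ P) :
    (#A : ℝ) ≤ Fintype.card I ^ #D *
      (4 ^ Module.finrank ℚ K * (1 + T ^ Module.finrank ℚ K / NN D)) := by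
  have h3 : A ⊆ (univ : Finset (D → I)).biUnion
      fun j => A.filter fun a => ∀ P : D, g * a - t (j P) ∈ P.1 := by
    intro a ha
    choose j hj using h2 a ha
    exact mem_biUnion.2 ⟨fun P => j P.1 P.2, mem_univ _, mem_filter.2 ⟨ha, fun P => hj P.1 P.2⟩⟩
  calc (#A : ℝ) ≤ ∑ j : D → I, (#(A.filter fun a => ∀ P : D, g * a - t (j P) ∈ P.1) : ℝ) := by
        exact_mod_cast (card_le_card h3).trans card_biUnion_le
    _ ≤ ∑ _j : D → I, 4 ^ Module.finrank ℚ K * (1 + T ^ Module.finrank ℚ K / NN D) := by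
        refine sum_le_sum fun j _ => card_class hD _ hT (fun a ha => h1 a (mem_filter.1 ha).1)
          fun a ha b hb P hP => ?_
        have h4 := P.sub_mem ((mem_filter.1 ha).2 ⟨P, hP⟩) ((mem_filter.1 hb).2 ⟨P, hP⟩)
        rw [sub_sub_sub_cancel_right, ← mul_sub] at h4
        exact ((hD P hP).isPrime.mem_or_mem h4).resolve_left (hg P hP)
    _ = _ := by simp

end Pool.Agent.MP_48b1c3_nt.H48

end

-- part MP_48b1c3_nt.H48.CDefs
section

/-! Definitions for the type I estimate in large degree. -/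

namespace Pool.Agent.MP_48b1c3_nt.H48

open Finset NumberField H91
open scoped Classical

variable {K : Type} [Field K] [NumberField K]

/-- the product of the residue fields -/
abbrev Res (S : Finset (Ideal (𝓞 K))) : Type := (P : S) → 𝓞 K ⧸ (P : Ideal (𝓞 K))

/-- reduction modulo all primes in `S` -/
noncomputable def res (S : Finset (Ideal (𝓞 K))) : 𝓞 K →+* Res S :=
  RingHom.pi fun P : S => Ideal.Quotient.mk (P : Ideal (𝓞 K))

/-- families of characters of the residue rings -/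
abbrev Chars (K : Type) [Field K] : Type := (P : Ideal (𝓞 K)) → MulChar (𝓞 K ⧸ P) ℂ

/-- the product of the local characters -/
noncomputable def chiS (S : Finset (Ideal (𝓞 K))) (ψ : Chars K) (t : Res S) : ℂ :=
  ∏ P : S, ψ P (t P)

/-- optional complex conjugation -/
noncomputable def cj (b : Bool) (z : ℂ) : ℂ := if b then (starRingEnd ℂ) z else z

/-- the sum of the non-trivial characters modulo `p` -/
noncomputable def qq (p : ℕ) (m : ℤ) : ℂ :=
  if (p : ℤ) ∣ m - 1 then p - 2 else if (p : ℤ) ∣ m then 0 else -1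

/-- the sum of the primitive characters modulo the product of the primes in `f` -/
noncomputable def Qf (f : Finset ℕ) (m : ℤ) : ℂ := ∏ p ∈ f, qq p m

/-- the weight of a set of primes -/
noncomputable def wf (f : Finset ℕ) : ℝ := 65 ^ #f * ge f

/-- average over a family of shifts -/
noncomputable def av {I : Type} [Fintype I] (s : I → 𝓞 K) (Φ : 𝓞 K → ℂ) (k : 𝓞 K) : ℂ :=
  (∑ i, Φ (k + s i)) / Fintype.card I

/-- `Φ` is small on the ball of radius `T` after averaging over shifts of size at most `S` -/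
def Good (S T E : ℝ) (Φ : 𝓞 K → ℂ) : Prop :=
  ∃ (I : Type) (_ : Fintype I) (_ : Nonempty I) (s : I → 𝓞 K), (∀ i, sz (s i) ≤ S) ∧
    ∑ k ∈ Bl K T, ‖av s Φ k‖ ≤ E

/-- bounded by one and periodic modulo `g` -/
def Per (g : ℕ) (Φ : 𝓞 K → ℂ) : Prop :=
  (∀ a, ‖Φ a‖ ≤ 1) ∧ ∀ a u, Φ (a + (g : 𝓞 K) * u) = Φ a

/-- a set of primes that do not divide `M` -/
def Prs (M : ℕ) (f : Finset ℕ) : Prop := ∀ p ∈ f, p.Prime ∧ ¬ p ∣ M

/-- the three shapes of conductors at the scale `Y` -/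
def ShY (A σ Y : ℝ) (f : Finset ℕ) : Prop :=
  pe f ≤ Y ^ (1 / 2 : ℝ) ∨
  (∃ f₀ ⊆ f, Y ^ σ ≤ pe f₀ ∧ pe f₀ ≤ Y ^ (2 - σ) ∧ pe (f \ f₀) ≤ Y ^ A ∧
    ∀ p ∈ f \ f₀, (p : ℝ) ≤ Y ^ (0.91 : ℝ)) ∨
  ∃ l ∈ f, Y ^ (1.9 : ℝ) ≤ l ∧ (l : ℝ) ≤ Y ^ (2.1 : ℝ) ∧ pe (f.erase l) ≤ Y ^ (0.06 : ℝ)

/-- the three shapes of sieve moduli at the scale `X` -/
def ShX (A η X : ℝ) (f : Finset ℕ) : Prop :=
  (pe f ≤ X ^ A ∧ ∀ p ∈ f, (p : ℝ) ≤ X ^ (0.9 : ℝ)) ∨
  (∃ l ∈ f, X ^ (0.9 : ℝ) ≤ l ∧ (l : ℝ) ≤ X ^ (2 - η) ∧ pe (f.erase l) ≤ X ^ A ∧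
    ∀ p ∈ f.erase l, (p : ℝ) ≤ X ^ (0.9 : ℝ)) ∨
  ∃ l ∈ f, X ^ (2 - η) ≤ l ∧ (l : ℝ) ≤ X ^ (2 + η) ∧ pe (f.erase l) ≤ X ^ (0.05 : ℝ)

/-- the family of sieve moduli -/
noncomputable def Mod (M : ℕ) (A η X : ℝ) : Finset (Finset ℕ) :=
  (Pw M (X ^ (3 : ℝ))).powerset.filter (ShX A η X)

theorem finite_res {S : Finset (Ideal (𝓞 K))} (hS : ∀ P ∈ S, P.IsMaximal) : Finite (Res S) :=
  have : ∀ P : S, Finite (𝓞 K ⧸ (P : Ideal (𝓞 K))) := fun P =>
    Ideal.finiteQuotientOfFreeOfNeBot _ (Ring.ne_bot_of_isMaximal_of_not_isField (hS P P.2)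
      (RingOfIntegers.not_isField K))
  inferInstance

theorem card_res (S : Finset (Ideal (𝓞 K))) [Fintype (Res S)] :
    (Fintype.card (Res S) : ℝ) = NN S := by
  rw [← Nat.card_eq_fintype_card, Nat.card_pi, NN, Nat.cast_prod, ← prod_coe_sort S]
  rfl

omit [NumberField K] in
theorem res_eq_iff {S : Finset (Ideal (𝓞 K))} {a b : 𝓞 K} :
    res S a = res S b ↔ ∀ P ∈ S, a - b ∈ P := by
  rw [funext_iff, Subtype.forall]
  exact forall₂_congr fun P _ => Ideal.Quotient.eq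

theorem norm_chiS_le {S : Finset (Ideal (𝓞 K))} (hS : ∀ P ∈ S, P.IsMaximal) (ψ : Chars K)
    (t : Res S) : ‖chiS S ψ t‖ ≤ 1 := by
  rw [chiS, norm_prod]
  refine prod_le_one (fun _ _ => norm_nonneg _) fun P _ => ?_
  have : Finite (𝓞 K ⧸ (P : Ideal (𝓞 K))) :=
    Ideal.finiteQuotientOfFreeOfNeBot _ (Ring.ne_bot_of_isMaximal_of_not_isField (hS P P.2)
      (RingOfIntegers.not_isField K))
  by_cases h : IsUnit (t P)
  · obtain ⟨u, hu⟩ := h
    rw [← hu]
    exact (Complex.norm_eq_one_of_pow_eq_one (n := Nat.card (𝓞 K ⧸ (P : Ideal (𝓞 K)))ˣ)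
      (by rw [← map_pow, ← Units.val_pow_eq_pow_val, pow_card_eq_one', Units.val_one, map_one])
      Nat.card_pos.ne').le
  · rw [(ψ P).map_nonunit h, norm_zero]
    exact zero_le_one

omit [NumberField K] in
theorem chiS_mul (S : Finset (Ideal (𝓞 K))) (ψ : Chars K) (t u : Res S) :
    chiS S ψ (t * u) = chiS S ψ t * chiS S ψ u := by
  simp only [chiS, Pi.mul_apply, map_mul, prod_mul_distrib]

theorem norm_cj (b : Bool) (z : ℂ) : ‖cj b z‖ = ‖z‖ := by
  cases b <;> simp [cj]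

end Pool.Agent.MP_48b1c3_nt.H48

end
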