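import Pool.Agent.MP_48b1c3_nt.H91.Defs
import Pool.Agent.MP_257582_lc.H99.Dens
import Pool.Agent.MP_48b1c3_nt.H54.Sieve
import Pool.Agent.MP_48b1c3_nt.Mg.H48_CDefs

attribute [-instance] AddQuantale.instAddLeftMono NumberField.to_charZero
  IdemSemiring.toCanonicallyOrderedAdd Fintype.decidableForallFintype AddQuantale.instAddRightMono
  RKHS.instFunLike LinearOrderedCommMonoidWithZero.toPosMulStrictMono Quantale.instMulRightMono

-- part MP_48b1c3_nt.H91.Mert
section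

/-! Mertens type estimates for the sieve product. -/

namespace Pool.Agent.MP_48b1c3_nt.H91

open Finset NumberField H54 Filter
open scoped ContDiff Topology

variable {M : ℕ}

theorem mert_three (h2 : 2 ∣ M) {p : ℕ} (hp : p.Prime) (hM : ¬ p ∣ M) : (3 : ℝ) ≤ p := by
  have h1 := hp.two_le
  have h3 : p ≠ 2 := fun e => hM (e ▸ h2)
  exact_mod_cast (by omega : 3 ≤ p)

theorem gg_mem (h2 : 2 ∣ M) {p : ℕ} (hp : p.Prime) (hM : ¬ p ∣ M) : 0 < gg p ∧ gg p ≤ 1 / 2 := by
  have := mert_three h2 hp hM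
  exact ⟨one_div_pos.2 (by linarith), one_div_le_one_div_of_le two_pos (by linarith)⟩

theorem Pw_mono {w z : ℝ} (h : w ≤ z) : Pw M w ⊆ Pw M z := fun _ hp =>
  mem_Pw.2 ⟨(mem_Pw.1 hp).1.trans_le h, (mem_Pw.1 hp).2⟩

theorem mert_gg (h2 : 2 ∣ M) {z : ℝ} {p : ℕ} (hp : p ∈ Pw M z) : 0 < gg p ∧ gg p ≤ 1 / 2 :=
  gg_mem h2 (mem_Pw.1 hp).2.1 (mem_Pw.1 hp).2.2

theorem VV_pos (h2 : 2 ∣ M) (z : ℝ) : 0 < VV M z :=
  prod_pos fun p hp => by linarith [(mert_gg h2 hp).2]

theorem VV_anti (h2 : 2 ∣ M) {w z : ℝ} (h : w ≤ z) : VV M z ≤ VV M w :=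
  prod_le_prod_of_subset_of_le_one (Pw_mono h) (fun p hp => by linarith [(mert_gg h2 hp).2])
    fun p hp _ => by linarith [(mert_gg h2 hp).1]

theorem mert_sum (z : ℝ) : ∑ p ∈ Pw M z, gg p * VV M p = 1 - VV M z := by
  rw [VV, prod_one_sub_ordered, sub_sub_cancel]
  refine sum_congr rfl fun p hp => congrArg _ (prod_congr ?_ fun _ _ => rfl)
  ext q
  rw [mem_filter, mem_Pw, mem_Pw, Nat.cast_lt]
  exact ⟨fun h => ⟨⟨(Nat.cast_lt.2 h.1).trans (mem_Pw.1 hp).1, h.2⟩, h.1⟩, fun h => ⟨h.2, h.1.2⟩⟩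

theorem sum_gV {w z : ℝ} (h : w ≤ z) :
    ∑ p ∈ Pw M z \ Pw M w, gg p * VV M p = VV M w - VV M z := by
  rw [sum_sdiff_eq_sub (Pw_mono h), mert_sum, mert_sum]
  ring

theorem mert_sd {w z : ℝ} {p : ℕ} (hp : p ∈ Pw M z \ Pw M w) : w ≤ p ∧ (p : ℝ) < z :=
  ⟨not_lt.1 fun h => (mem_sdiff.1 hp).2 (mem_Pw.2 ⟨h, (mem_Pw.1 (mem_sdiff.1 hp).1).2⟩),
    (mem_Pw.1 (mem_sdiff.1 hp).1).1⟩

theorem sum_g_le (h2 : 2 ∣ M) {w z : ℝ} (h : w ≤ z) :
    ∑ p ∈ Pw M z \ Pw M w, gg p ≤ VV M w / VV M z - 1 := by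
  rw [div_sub_one (VV_pos h2 z).ne', le_div_iff₀ (VV_pos h2 z), ← sum_gV h, sum_mul]
  exact sum_le_sum fun p hp => mul_le_mul_of_nonneg_left (VV_anti h2 (mert_sd hp).2.le)
    (mert_gg h2 (mem_sdiff.1 hp).1).1.le

theorem sum_g_ge (h2 : 2 ∣ M) {w z : ℝ} (h : w ≤ z) :
    1 - VV M z / VV M w ≤ ∑ p ∈ Pw M z \ Pw M w, gg p := by
  rw [one_sub_div (VV_pos h2 w).ne', div_le_iff₀ (VV_pos h2 w), ← sum_gV h, sum_mul]
  exact sum_le_sum fun p hp => mul_le_mul_of_nonneg_left (VV_anti h2 (mert_sd hp).1)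
    (mert_gg h2 (mem_sdiff.1 hp).1).1.le

/-- minus the logarithm of a factor of the sieve product -/
noncomputable def mert_h (p : ℕ) : ℝ := -Real.log (1 - gg p)

theorem mert_h_bd {p : ℕ} (hp : (3 : ℝ) ≤ p) :
    1 / (p : ℝ) ≤ gg p ∧ gg p ≤ mert_h p ∧ mert_h p ≤ 1 / p + 6 / (p : ℝ) ^ 2 := by
  have e : 1 - gg p = (p - 2) / (p - 1) := by
    rw [gg, one_sub_div (by linarith)]
    congr 1
    ring
  have h0 : 0 < 1 - gg p := e ▸ div_pos (by linarith only [hp]) (by linarith)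
  refine ⟨one_div_le_one_div_of_le (by linarith) (by linarith), ?_, ?_⟩
  · have := Real.log_le_sub_one_of_pos h0
    rw [mert_h]
    linarith only [this]
  · have h1 := Real.one_sub_inv_le_log_of_pos h0
    have h2 : (1 - gg p)⁻¹ - 1 ≤ 1 / p + 6 / (p : ℝ) ^ 2 := by
      rw [e, inv_div, div_sub_one (by linarith only [hp]), div_add_div _ _ (by linarith only [hp]) (by positivity),
        div_le_div_iff₀ (by linarith only [hp]) (by positivity)]
      linarith only [mul_nonneg (mul_nonneg (by linarith only [hp] : (0 : ℝ) ≤ p) (by linarith only [hp] : (0 : ℝ) ≤ p - 3))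
        (by linarith only [] : (0 : ℝ) ≤ 1)]
    rw [mert_h]
    linarith

open ArithmeticFunction in
theorem mert_first (hM : 0 < M) (h2 : 2 ∣ M) : ∃ C : ℝ, 0 < C ∧ ∀ z : ℝ, 1 < z →
    |∑ p ∈ Pw M z, mert_h p * Real.log p - Real.log z| ≤ C := by
  have s1 := vonMangoldt.summable_residueClass_non_primes_div (1 : ZMod 1)
  simp only [mertens_res] at s1
  have s2 : Summable fun d : ℕ => if d ∣ M then vonMangoldt d / (d : ℝ) else 0 :=
    summable_of_ne_finset_zero (s := M.divisors) fun d hd =>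
      if_neg fun h => hd (Nat.mem_divisors.2 ⟨h, hM.ne'⟩)
  have s3 := (mertens_summable (σ := 2) one_lt_two).mul_left 6
  have s := (s1.add s2).add s3
  set u : ℕ → ℝ := fun d => (if d.Prime then 0 else vonMangoldt d) / (d : ℝ) +
    (if d ∣ M then vonMangoldt d / (d : ℝ) else 0) + 6 * (vonMangoldt d / (d : ℝ) ^ (2 : ℝ))
  have key : ∀ d : ℕ, |(if d.Prime ∧ ¬ d ∣ M then mert_h d * Real.log d else 0) -
      vonMangoldt d / d| ≤ u d := fun d => by
    have a0 : 0 ≤ vonMangoldt d := vonMangoldt_nonneg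
    have a1 : 0 ≤ vonMangoldt d / (d : ℝ) := by positivity
    have a2 : 0 ≤ vonMangoldt d / (d : ℝ) ^ (2 : ℝ) := by positivity
    by_cases c1 : d.Prime
    · by_cases c2 : d ∣ M
      · simp only [u, c1, c2, not_true, and_false, if_false, if_true, zero_sub, abs_neg,
          abs_of_nonneg a1, zero_div]
        linarith only [a2]
      · obtain ⟨b1, b2, b3⟩ := mert_h_bd (mert_three h2 c1 c2)
        simp only [u, c1, c2, not_false_eq_true, and_true, if_false, if_true, zero_div, zero_add]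
        rw [← vonMangoldt_apply_prime c1, Real.rpow_two, div_eq_mul_one_div (vonMangoldt d) d,
          mul_comm (mert_h d), ← mul_sub, abs_of_nonneg (mul_nonneg a0 (by linarith only [b1, b2]))]
        calc _ ≤ vonMangoldt d * (6 / (d : ℝ) ^ 2) := mul_le_mul_of_nonneg_left (by linarith only [b3]) a0
          _ = _ := by ring
    · simp only [u, c1, false_and, if_false, zero_sub, abs_neg, abs_of_nonneg a1]
      split_ifs <;> linarith only [a1, a2]
  have u0 : ∀ d, 0 ≤ u d := fun d => (abs_nonneg _).trans (key d)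
  have u1 : 0 ≤ ∑' d, u d := tsum_nonneg u0
  refine ⟨∑' d, u d + 7, by linarith only [u1], fun z hz => ?_⟩
  obtain ⟨y, hy⟩ : ∃ y, ⌈z⌉₊ = y + 1 := ⟨⌈z⌉₊ - 1, by
    have := Nat.ceil_pos.2 (zero_lt_one.trans hz)
    omega⟩
  have y1 : (y : ℝ) < z := Nat.lt_ceil.1 (by omega)
  have y2 : z ≤ y + 1 := by exact_mod_cast hy ▸ Nat.le_ceil z
  have y0 : 0 < y := by exact_mod_cast (by linarith only [hz, y2] : (0 : ℝ) < y)
  have y3 : (1 : ℝ) ≤ y := by exact_mod_cast y0
  have l1 : Real.log y ≤ Real.log z := Real.log_le_log (by linarith only [hz, y2]) y1.le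
  have l2 : Real.log z ≤ 1 + Real.log y := by
    have := Real.log_le_log (by linarith only [hz]) (by linarith only [y2, y3] : z ≤ 2 * y)
    rw [Real.log_mul two_ne_zero (by linarith only [hz, y2])] at this
    linarith only [Real.log_two_lt_d9, this]
  obtain ⟨m1, m2⟩ := MP_257582_lc.H99.mertens y0
  have e : MP_257582_lc.H99.MM y = ∑ d ∈ range (y + 1), vonMangoldt d / (d : ℝ) := by
    rw [MP_257582_lc.H99.MM, range_eq_Ico, sum_eq_sum_Ico_succ_bot y.succ_pos]
    simp only [Nat.cast_zero, div_zero, zero_add]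
    rfl
  have h := (abs_sum_le_sum_abs _ _).trans ((sum_le_sum fun d _ => key d).trans
    (s.sum_le_tsum (range (y + 1)) fun d _ => u0 d))
  rw [sum_sub_distrib, ← e, ← sum_filter, ← hy, abs_le] at h
  rw [Pw, abs_le]
  constructor <;> linarith only [h.1, h.2, l2, m1, l1, m2]

/-- the error in the second theorem of Mertens -/
noncomputable def mert_e (M : ℕ) (u : ℝ) : ℝ := ∑ p ∈ Pw M (Real.exp u), mert_h p - Real.log u

theorem mert_VV (h2 : 2 ∣ M) {u : ℝ} (hu : 0 < u) :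
    VV M (Real.exp u) = Real.exp (-mert_e M u) / u := by
  rw [mert_e, neg_sub, sub_eq_add_neg, Real.exp_add, Real.exp_log hu, mul_div_cancel_left₀ _ hu.ne',
    ← sum_neg_distrib, Real.exp_sum]
  refine prod_congr rfl fun p hp => ?_
  rw [mert_h, neg_neg, Real.exp_log (by linarith [(mert_gg h2 hp).2])]

theorem mert_step (hM : 0 < M) (h2 : 2 ∣ M) : ∃ C : ℝ, 0 < C ∧ ∀ u v : ℝ, 0 < u → u ≤ v →
    |mert_e M v - mert_e M u| ≤ ((v - u) / u) ^ 2 + C / u := by
  obtain ⟨C, hC, h⟩ := mert_first hM h2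
  refine ⟨2 * C, by positivity, fun u v hu huv => ?_⟩
  have hv := hu.trans_le huv
  have hs : Pw M (Real.exp u) ⊆ Pw M (Real.exp v) := Pw_mono (Real.exp_le_exp.2 huv)
  have a1 := abs_le.1 (h _ (Real.one_lt_exp_iff.2 hu))
  have a2 := abs_le.1 (h _ (Real.one_lt_exp_iff.2 hv))
  rw [Real.log_exp] at a1 a2
  have b : ∀ p ∈ Pw M (Real.exp v) \ Pw M (Real.exp u),
      0 ≤ mert_h p ∧ u ≤ Real.log p ∧ Real.log p ≤ v := fun p hp => by
    have c := mem_Pw.1 (mem_sdiff.1 hp).1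
    have c3 := mert_three h2 c.2.1 c.2.2
    exact ⟨(gg_mem h2 c.2.1 c.2.2).1.le.trans (mert_h_bd c3).2.1,
      (Real.le_log_iff_exp_le (by linarith only [c3])).2 (mert_sd hp).1,
      (Real.log_le_iff_le_exp (by linarith only [c3])).2 c.1.le⟩
  have b1 := sum_le_sum fun p hp => mul_le_mul_of_nonneg_left (b p hp).2.1 (b p hp).1
  have b2 := sum_le_sum fun p hp => mul_le_mul_of_nonneg_left (b p hp).2.2 (b p hp).1
  rw [← sum_mul, sum_sdiff_eq_sub hs, sum_sdiff_eq_sub hs] at b1 b2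
  have c1 := Real.log_le_sub_one_of_pos (div_pos hv hu)
  have c2 := Real.log_le_sub_one_of_pos (div_pos hu hv)
  rw [Real.log_div (by positivity) (by positivity)] at c1 c2
  set S := ∑ p ∈ Pw M (Real.exp v), mert_h p - ∑ p ∈ Pw M (Real.exp u), mert_h p with hS
  have d1 : S ≤ (v - u) / u + 2 * C / u := by
    rw [← add_div, le_div_iff₀ hu]
    linarith only [a1, a2, b1]
  have d2 : (v - u) / v - 2 * C / v ≤ S := by
    rw [← sub_div, div_le_iff₀ hv]
    linarith only [a1, a2, b2]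
  have d3 : 2 * C / v ≤ 2 * C / u := div_le_div_of_nonneg_left (by positivity) hu huv
  have d4 : (v - u) / u - (v - u) / v ≤ ((v - u) / u) ^ 2 := by
    have : (v - u) / u - (v - u) / v = (v - u) / u * ((v - u) / v) := by
      field_simp
    rw [this, sq]
    exact mul_le_mul_of_nonneg_left (div_le_div_of_nonneg_left (by linarith only [huv]) hu huv)
      (div_nonneg (by linarith only [huv]) hu.le)
  rw [← div_sub_one hu.ne'] at d1 d4
  rw [← one_sub_div hv.ne'] at d2 d4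
  rw [← div_sub_one hu.ne', mert_e, mert_e, abs_le]
  constructor <;> linarith only [c1, d2, d3, d4, c2, d1]

theorem mert_cauchy (hM : 0 < M) (h2 : 2 ∣ M) : ∃ D : ℝ, 0 < D ∧
    (∀ u : ℝ, 1 / 2 ≤ u → u ≤ 1 → |mert_e M 1 - mert_e M u| ≤ D) ∧
      ∀ k : ℕ, 0 < k → ∀ u : ℝ, (k : ℝ) ^ 2 ≤ u → |mert_e M u - mert_e M (k ^ 2)| ≤ D / k := by
  obtain ⟨C, hC, h⟩ := mert_step hM h2
  have a : ∀ k : ℝ, 1 ≤ k → ∀ u, k ^ 2 ≤ u → u ≤ (k + 1) ^ 2 →
      |mert_e M u - mert_e M (k ^ 2)| ≤ (9 + C) / k ^ 2 := fun k hk u h1 h3 => by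
    refine (h _ _ (by positivity) h1).trans ?_
    have : (u - k ^ 2) / k ^ 2 ≤ 3 / k := by
      rw [div_le_div_iff₀ (by positivity) (by positivity)]
      nlinarith only [hk, h3]
    have := pow_le_pow_left₀ (div_nonneg (by linarith only [h1]) (by positivity)) this 2
    rw [div_pow 3] at this
    rw [add_div]
    linarith
  have b : ∀ k : ℕ, 0 < k → ∀ n : ℕ, k ≤ n →
      |mert_e M (n ^ 2) - mert_e M (k ^ 2)| ≤ 2 * (9 + C) / k - 2 * (9 + C) / n := by
    intro k hk n hn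
    induction n, hn using Nat.le_induction with
    | base => simp
    | succ n hn ih =>
      have n1 : (1 : ℝ) ≤ n := by exact_mod_cast hk.trans_le hn
      have a1 := a n n1 ((n + 1) ^ 2) (by linarith only [n1]) le_rfl
      have a2 : (9 + C) / (n : ℝ) ^ 2 ≤ 2 * (9 + C) / n - 2 * (9 + C) / (n + 1) := by
        rw [div_sub_div _ _ (by positivity) (by positivity),
          div_le_div_iff₀ (by positivity) (by positivity)]
        linarith only [mul_nonneg (mul_nonneg (by positivity : 0 ≤ 9 + C) (by positivity : (0 : ℝ) ≤ n))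
          (by linarith only [n1] : (0 : ℝ) ≤ n - 1)]
      push_cast
      linarith [abs_sub_le (mert_e M ((n + 1) ^ 2)) (mert_e M (n ^ 2)) (mert_e M (k ^ 2))]
  refine ⟨3 * (9 + C), by positivity, fun u h1 h3 => (h _ _ (by linarith) h3).trans ?_,
    fun k hk u hu => ?_⟩
  · have c1 : (1 - u) / u ≤ 1 := (div_le_one (by linarith)).2 (by linarith)
    have c2 : C / u ≤ 2 * C := (div_le_iff₀ (by linarith only [h1])).2 (by nlinarith only [hC, h1])
    nlinarith only [div_nonneg (by linarith only [h3] : 0 ≤ 1 - u) (by linarith only [h1] : 0 ≤ u), hC, c1, c2]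
  have k1 : (1 : ℝ) ≤ k := by exact_mod_cast hk
  have u0 : 0 ≤ u := le_trans (by positivity) hu
  have n1 : k ≤ ⌊√u⌋₊ := Nat.le_floor (Real.le_sqrt_of_sq_le hu)
  have n2 : (k : ℝ) ≤ ⌊√u⌋₊ := by exact_mod_cast n1
  have c1 := a ⌊√u⌋₊ (k1.trans n2) u
    ((Real.le_sqrt (by positivity) u0).1 (Nat.floor_le (Real.sqrt_nonneg u)))
    ((Real.sqrt_le_left (by positivity)).1 (Nat.lt_floor_add_one _).le)
  have c2 := b k hk _ n1
  have c3 : (9 + C) / (⌊√u⌋₊ : ℝ) ^ 2 ≤ (9 + C) / k :=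
    div_le_div_of_nonneg_left (by positivity) (by positivity) (by nlinarith only [k1, n2])
  have c4 : 0 ≤ 2 * (9 + C) / (⌊√u⌋₊ : ℝ) := by positivity
  rw [mul_div_assoc] at c2 ⊢
  linarith [abs_sub_le (mert_e M u) (mert_e M ((⌊√u⌋₊ : ℝ) ^ 2)) (mert_e M (k ^ 2))]

theorem VV_ratio (hM : 0 < M) (h2 : 2 ∣ M) {a : ℝ} (h0 : 0 < a) (h1 : a ≤ 1) :
    Tendsto (fun z : ℝ => VV M (z ^ a) / VV M z) atTop (𝓝 (1 / a)) := by
  obtain ⟨D, hD, -, h⟩ := mert_cauchy hM h2
  have t : Tendsto (fun v : ℝ => mert_e M v - mert_e M (v * a)) atTop (𝓝 0) := by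
    refine Metric.tendsto_nhds.2 fun ε hε => ?_
    obtain ⟨k, hk⟩ := exists_nat_gt (2 * D / ε)
    have k0 : (0 : ℝ) < k := lt_trans (by positivity) hk
    filter_upwards [eventually_ge_atTop ((k : ℝ) ^ 2),
      (tendsto_id.atTop_mul_const h0).eventually_ge_atTop ((k : ℝ) ^ 2)] with v a1 a2
    have b1 := h k (by exact_mod_cast k0) _ a1
    have b2 := h k (by exact_mod_cast k0) (v * a) a2
    have b3 : 2 * (D / k) < ε := by
      rw [← mul_div_assoc, div_lt_iff₀ k0, mul_comm ε, ← div_lt_iff₀ hε]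
      exact hk
    rw [abs_sub_comm] at b2
    rw [dist_zero_right, Real.norm_eq_abs]
    linarith only [abs_sub_le (mert_e M v) (mert_e M (k ^ 2)) (mert_e M (v * a)), b1, b2, b3]
  have t2 := ((Real.continuous_exp.tendsto 0).comp (t.comp Real.tendsto_log_atTop)).div_const a
  rw [Real.exp_zero] at t2
  refine t2.congr' ?_
  filter_upwards [eventually_gt_atTop (1 : ℝ)] with z hz
  have l := Real.log_pos hz
  have e1 := mert_VV h2 l
  rw [Real.exp_log (by linarith only [hz])] at e1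
  rw [Real.rpow_def_of_pos (by linarith), mert_VV h2 (mul_pos l h0), e1]
  simp only [Function.comp_apply, Real.exp_sub, Real.exp_neg]
  field_simp

theorem VV_bounds (hM : 0 < M) (h2 : 2 ∣ M) : ∃ c C : ℝ, 0 < c ∧ 0 < C ∧ ∀ z : ℝ, 2 ≤ z →
    c / Real.log z ≤ VV M z ∧ VV M z ≤ C / Real.log z := by
  obtain ⟨D, hD, h, h'⟩ := mert_cauchy hM h2
  refine ⟨Real.exp (-mert_e M 1 - D), Real.exp (-mert_e M 1 + D), Real.exp_pos _, Real.exp_pos _,
    fun z hz => ?_⟩
  have l : 1 / 2 ≤ Real.log z :=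
    le_trans (by linarith only [Real.log_two_gt_d9]) (Real.log_le_log two_pos hz)
  have a : |mert_e M 1 - mert_e M (Real.log z)| ≤ D := by
    rcases le_total (Real.log z) 1 with c | c
    · exact h _ l c
    · simpa [abs_sub_comm] using h' 1 one_pos (Real.log z) (by simpa using c)
  have e1 := mert_VV h2 (by linarith only [l] : 0 < Real.log z)
  rw [Real.exp_log (by linarith only [hz])] at e1
  rw [abs_le] at a
  rw [e1]
  exact ⟨div_le_div_of_nonneg_right (Real.exp_le_exp.2 (by linarith only [a.1])) (by linarith only [l]),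
    div_le_div_of_nonneg_right (Real.exp_le_exp.2 (by linarith only [a.2])) (by linarith only [l])⟩

theorem sum_g_log (h2 : 2 ∣ M) : ∃ C : ℝ, 0 < C ∧ ∀ z : ℝ, 2 ≤ z →
    ∑ p ∈ Pw M z, gg p * Real.log p ≤ C * Real.log z := by
  obtain ⟨C, hC, h⟩ := mert_first two_pos (dvd_refl 2)
  refine ⟨1 + 2 * C, by positivity, fun z hz => ?_⟩
  have l : 1 / 2 ≤ Real.log z :=
    le_trans (by linarith [Real.log_two_gt_d9]) (Real.log_le_log two_pos hz)
  have s : Pw M z ⊆ Pw 2 z := fun p hp =>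
    mem_Pw.2 ⟨(mem_Pw.1 hp).1, (mem_Pw.1 hp).2.1, fun c => (mem_Pw.1 hp).2.2 (c.trans h2)⟩
  have a1 : ∑ p ∈ Pw M z, gg p * Real.log p ≤ ∑ p ∈ Pw 2 z, gg p * Real.log p :=
    sum_le_sum_of_subset_of_nonneg s fun p hp _ =>
      mul_nonneg (mert_gg (dvd_refl 2) hp).1.le (Real.log_natCast_nonneg p)
  have a2 : ∑ p ∈ Pw 2 z, gg p * Real.log p ≤ ∑ p ∈ Pw 2 z, mert_h p * Real.log p :=
    sum_le_sum fun p hp => mul_le_mul_of_nonneg_right (mert_h_bd (mert_three (dvd_refl 2)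
      (mem_Pw.1 hp).2.1 (mem_Pw.1 hp).2.2)).2.1 (Real.log_natCast_nonneg p)
  have a3 := (abs_le.1 (h z (by linarith only [hz]))).2
  nlinarith only [hC, l, a1, a2, a3]

end Pool.Agent.MP_48b1c3_nt.H91

end

-- part MP_48b1c3_nt.H91.Sharp
section

/-! The fundamental lemma with a sharp constant. -/

namespace Pool.Agent.MP_48b1c3_nt.H91

open Finset NumberField H54 Filter
open scoped ContDiff Topology

theorem sharp_cond {ι : Type} [DecidableEq ι] {P : Finset ι} {g : ι → ℝ}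
    (hg : ∀ i ∈ P, 0 ≤ g i ∧ g i ≤ 1 / 2) (y w : Finset ι → ℝ) (hw : ∀ r, 0 ≤ w r) {q : ι}
    (hq : q ∈ P) (hy : ∀ r ⊆ P.erase q, (y r - y (insert q r)) ^ 2 ≤ w r) :
    sieve_Ex P g (fun T => (if q ∈ T then 1 else 0) *
      (∑ r ∈ P.powerset, y r * ∏ i ∈ r, sieve_u g i T) ^ 2) ≤
      g q * ∑ r ∈ P.powerset, w r * ∏ i ∈ r, sieve_h g i := by
  have key : ∀ T ⊆ P, (if q ∈ T then (1 : ℝ) else 0) *
      (∑ r ∈ P.powerset, y r * ∏ i ∈ r, sieve_u g i T) ^ 2 =
      (if {q} ⊆ T then (1 : ℝ) else 0) *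
        (∑ r ∈ (P.erase q).powerset, (y r - y (insert q r)) * ∏ i ∈ r, sieve_u g i T) ^ 2 := by
    intro T _
    simp only [singleton_subset_iff]
    split_ifs with h
    · congr 2
      conv_lhs => rw [← insert_erase hq]
      rw [Finset.sum_powerset_insert (notMem_erase q P), ← Finset.sum_add_distrib]
      refine Finset.sum_congr rfl fun r hr => ?_
      have hn : q ∉ r := fun h' => notMem_erase q P (mem_powerset.1 hr h')
      rw [prod_insert hn]
      simp only [sieve_u, if_pos h]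
      ring
    · simp
  rw [sieve_Ex_congr P g key, sieve_quad hg (singleton_subset_iff.2 hq) (erase_subset q P)
    (disjoint_singleton_left.2 (notMem_erase q P)), prod_singleton]
  refine mul_le_mul_of_nonneg_left ?_ (hg q hq).1
  have hh : ∀ r ∈ P.powerset, 0 ≤ ∏ i ∈ r, sieve_h g i := fun r hr =>
    Finset.prod_nonneg fun _ hi => sieve_h_nonneg hg (mem_powerset.1 hr hi)
  have sub := powerset_mono.2 (erase_subset q P)
  refine le_trans (Finset.sum_le_sum fun r hr => ?_)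
    (Finset.sum_le_sum_of_subset_of_nonneg sub fun r hr _ => mul_nonneg (hw r) (hh r hr))
  exact mul_le_mul_of_nonneg_right (hy r (mem_powerset.1 hr)) (hh r (sub hr))

theorem sharp_exp {x : ℝ} (h0 : 0 ≤ x) (h1 : x ≤ 1) : Real.exp x ≤ 1 + 2 * x := by
  have := Real.abs_exp_sub_one_le (x := x) (by rw [abs_of_nonneg h0]; exact h1)
  rw [abs_of_nonneg h0] at this
  linarith [(abs_le.1 this).2]

open Classical in
theorem sharp_rankin {ι : Type} {P : Finset ι} {g l : ι → ℝ}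
    (hg : ∀ i ∈ P, 0 ≤ g i ∧ g i ≤ 1 / 2) {t κ : ℝ} (ht : 0 < t)
    (hl : ∀ i ∈ P, 0 ≤ l i ∧ l i ≤ 1 / 8 ∧ t * l i ≤ 1) (hκ : ∑ i ∈ P, g i * (t * l i) ≤ κ) :
    ∑ r ∈ P.powerset, (if 1 / 4 < ∑ i ∈ r, l i then (1 : ℝ) else 0) * ∏ i ∈ r, sieve_h g i ≤
      Real.exp (2 * κ - t / 4) * ∑ r ∈ P.powerset, ∏ i ∈ r, sieve_h g i := by
  have hh : ∀ r ∈ P.powerset, 0 ≤ ∏ i ∈ r, sieve_h g i := fun r hr =>
    Finset.prod_nonneg fun _ hi => sieve_h_nonneg hg (mem_powerset.1 hr hi)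
  calc _ ≤ ∑ r ∈ P.powerset, Real.exp (-(t / 4)) *
          ∏ i ∈ r, (sieve_h g i * Real.exp (t * l i)) := by
        refine Finset.sum_le_sum fun r hr => ?_
        rw [prod_mul_distrib, ← Real.exp_sum, mul_left_comm, ← Real.exp_add, mul_comm]
        refine mul_le_mul_of_nonneg_left ?_ (hh r hr)
        split_ifs with h
        · refine Real.one_le_exp ?_
          rw [← Finset.mul_sum]
          nlinarith
        · positivity
    _ = Real.exp (-(t / 4)) * ∏ i ∈ P, (1 + sieve_h g i * Real.exp (t * l i)) := by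
        rw [Finset.prod_one_add, Finset.mul_sum]
    _ ≤ Real.exp (-(t / 4)) * ∏ i ∈ P, ((1 + sieve_h g i) * Real.exp (2 * (g i * (t * l i)))) := by
        refine mul_le_mul_of_nonneg_left (Finset.prod_le_prod (fun i hi => ?_) fun i hi => ?_)
          (Real.exp_pos _).le
        · have := sieve_h_nonneg hg hi
          positivity
        · have h0 := sieve_h_nonneg hg hi
          have h3 : 1 - g i ≠ 0 := by linarith [(hg i hi).2]
          have e3 : sieve_h g i = g i * (1 + sieve_h g i) := by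
            unfold sieve_h
            field_simp
            ring
          have x0 : 0 ≤ t * l i := mul_nonneg ht.le (hl i hi).1
          have e1 := mul_le_mul_of_nonneg_left (sharp_exp x0 (hl i hi).2.2) h0
          have e2 := mul_le_mul_of_nonneg_left (Real.add_one_le_exp (2 * (g i * (t * l i))))
            (by linarith : 0 ≤ 1 + sieve_h g i)
          have e4 : (1 + sieve_h g i) * (2 * (g i * (t * l i)) + 1) =
              1 + sieve_h g i * (1 + 2 * (t * l i)) := by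
            linear_combination (-2 * (t * l i)) * e3
          linarith
    _ ≤ _ := by
        rw [prod_mul_distrib, ← Real.exp_sum, Finset.prod_one_add, mul_left_comm, ← Real.exp_add,
          mul_comm, ← Finset.mul_sum]
        exact mul_le_mul_of_nonneg_right (Real.exp_le_exp.2 (by linarith))
          (Finset.sum_nonneg hh)

open Classical in
theorem sieve_sharp {ι α : Type} (P : Finset ι) (g l : ι → ℝ) (Ω : Finset α) (a : α → ℝ)
    (rel : ι → α → Prop) (X : ℝ) (ha : ∀ n ∈ Ω, 0 ≤ a n) (hX : 0 ≤ X)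
    (hg : ∀ i ∈ P, 0 ≤ g i ∧ g i ≤ 1 / 2) {t κ τ : ℝ} (ht : 0 < t)
    (hl : ∀ i ∈ P, 0 ≤ l i ∧ l i ≤ 1 / 8 ∧ t * l i ≤ 1) (hκ : ∑ i ∈ P, g i * (t * l i) ≤ κ)
    (hτ : Real.exp (2 * κ - t / 4) ≤ τ) (hτ1 : τ ≤ 1 / 2) (R : ℝ)
    (hR : ∑ S ∈ P.powerset.filter (fun S => ∑ i ∈ S, l i ≤ 3),
      64 ^ #S * |∑ n ∈ Ω.filter (fun n => ∀ i ∈ S, rel i n), a n - X * ∏ i ∈ S, g i| ≤ R) :
    (1 - 2 * τ) * (X * ∏ i ∈ P, (1 - g i)) - R ≤
        ∑ n ∈ Ω.filter (fun n => ∀ i ∈ P, ¬ rel i n), a n ∧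
      ∑ n ∈ Ω.filter (fun n => ∀ i ∈ P, ¬ rel i n), a n ≤
        (1 + 6 * τ) * (X * ∏ i ∈ P, (1 - g i)) + 4 * R := by
  have hl0 : ∀ i ∈ P, 0 ≤ l i := fun i hi => (hl i hi).1
  have hτ0 : 0 < τ := (Real.exp_pos _).trans_le hτ
  have hgl : ∑ i ∈ P, g i * l i ≤ 1 / 8 := by
    have e1 : 2 * κ - t / 4 + 1 ≤ τ := (Real.add_one_le_exp _).trans hτ
    have e2 : ∑ i ∈ P, g i * (t * l i) = t * ∑ i ∈ P, g i * l i := by
      rw [Finset.mul_sum]
      exact Finset.sum_congr rfl fun i _ => by ring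
    refine le_of_mul_le_mul_left ?_ ht
    linarith
  set G : ℝ := ∑ r ∈ P.powerset, ∏ i ∈ r, sieve_h g i with hG
  set V : ℝ := ∏ i ∈ P, (1 - g i) with hV
  have hGV : G * V = 1 := sieve_G_mul hg
  have hV0 : 0 < V := Finset.prod_pos fun i hi => by linarith only [(hg i hi).2, hτ1, hτ0]
  have hG0 : 0 < G := (pos_iff_pos_of_mul_pos (hGV ▸ one_pos)).2 hV0
  have hh : ∀ r ∈ P.powerset, 0 ≤ ∏ i ∈ r, sieve_h g i := fun r hr =>
    Finset.prod_nonneg fun _ hi => sieve_h_nonneg hg (mem_powerset.1 hr hi)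
  set w : Finset ι → ℝ := fun r => if 1 / 4 < ∑ i ∈ r, l i then 1 else 0 with hw
  have hw0 : ∀ r, 0 ≤ w r := fun r => by
    simp only [hw]
    split_ifs <;> norm_num
  have hB : ∑ r ∈ P.powerset, w r * ∏ i ∈ r, sieve_h g i ≤ τ * G :=
    (sharp_rankin hg ht hl hκ).trans (mul_le_mul_of_nonneg_right hτ hG0.le)
  set y : Finset ι → ℝ := fun r => max 0 (min 1 (2 - 2 * ∑ i ∈ r, l i)) with hy
  have hy0 : ∀ r, 0 ≤ y r := fun r => le_max_left _ _
  have hy1 : ∀ r, y r ≤ 1 := fun r => max_le zero_le_one (min_le_left _ _)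
  have hy4 : ∀ r, ∑ i ∈ r, l i ≤ 1 / 2 → y r = 1 := fun r h => by
    simp only [hy]
    rw [min_eq_left (by linarith only [h]), max_eq_right zero_le_one]
  have hy3 : ∀ r, 1 - w r ≤ y r ^ 2 := by
    intro r
    simp only [hw]
    split_ifs with h
    · rw [sub_self]; exact sq_nonneg _
    · rw [hy4 r (by linarith only [h])]; norm_num
  have hy2 : ∀ r, 1 - w r ≤ y r := fun r => (hy3 r).trans (pow_le_of_le_one (hy0 r) (hy1 r) two_ne_zero)
  set f : Finset ι → ℝ := fun T => ∑ r ∈ P.powerset, y r * ∏ i ∈ r, sieve_u g i T with hf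
  set θ : α → Finset ι := fun n => P.filter (fun i => rel i n) with hθ
  have rf : sieve_Rep P l f G 2 1 := sieve_Rep_f hg hl0 y
    (fun r _ => by rw [abs_of_nonneg (hy0 r)]; exact hy1 r) (fun r _ h => by
      by_contra hc
      exact h (max_eq_left ((min_le_right _ _).trans (by linarith only [hc]))))
  have rf2 := sieve_Rep_mul hl0 hG0.le hG0.le (by norm_num) (by norm_num) rf rf
  have rf3 := sieve_Rep_mul hl0 zero_le_one (mul_pos hG0 hG0).le le_rfl (by norm_num)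
    (sieve_Rep_card fun i hi => (hl i hi).2.1) rf2
  have hR' : ∑ S ∈ P.powerset.filter (fun S => ∑ i ∈ S, l i ≤ 3),
      64 ^ #S * |∑ n ∈ Ω.filter (fun n => S ⊆ θ n), a n - X * ∏ i ∈ S, g i| ≤ R := by
    refine le_trans (le_of_eq (Finset.sum_congr rfl fun S hS => ?_)) hR
    have hSP := mem_powerset.1 (mem_filter.1 hS).1
    have : Ω.filter (fun n => S ⊆ θ n) = Ω.filter (fun n => ∀ i ∈ S, rel i n) := by
      refine filter_congr fun n _ => ⟨fun h i hi => (mem_filter.1 (h hi)).2, fun h i hi => ?_⟩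
      exact mem_filter.2 ⟨hSP hi, h i hi⟩
    rw [this]
  have hR0 : 0 ≤ R := le_trans (Finset.sum_nonneg fun S _ => by positivity) hR
  have er2 := (sieve_err hg Ω a θ X (mul_pos hG0 hG0).le (by norm_num) (by norm_num)
    (by norm_num) rf2).trans (mul_le_mul_of_nonneg_left hR' (mul_pos hG0 hG0).le)
  have er3 := (sieve_err hg Ω a θ X (by positivity) (by norm_num) (by norm_num)
    (by norm_num) rf3).trans (mul_le_mul_of_nonneg_left hR' (by positivity))
  have hf0 : f ∅ = ∑ r ∈ P.powerset, y r * ∏ i ∈ r, sieve_h g i := by simp only [hf, sieve_u, notMem_empty, ↓ reduceIte]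
  have hf1 : f ∅ ≤ G := by
    rw [hf0]
    exact Finset.sum_le_sum fun r hr => mul_le_of_le_one_left (hh r hr) (hy1 r)
  have hf2 : (1 - τ) * G ≤ f ∅ := by
    have : ∑ r ∈ P.powerset, (∏ i ∈ r, sieve_h g i - w r * ∏ i ∈ r, sieve_h g i) ≤ f ∅ := by
      rw [hf0]
      exact Finset.sum_le_sum fun r hr => by
        linarith only [mul_le_mul_of_nonneg_right (hy2 r) (hh r hr)]
    rw [Finset.sum_sub_distrib] at this
    linarith only [hB, this]
  have hE : sieve_Ex P g (fun T => f T * f T) =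
      ∑ r ∈ P.powerset, y r ^ 2 * ∏ i ∈ r, sieve_h g i := by
    have := sieve_quad hg (empty_subset P) Subset.rfl (disjoint_empty_left P) y
    simpa only [sq, empty_subset, ↓ reduceIte, one_mul, prod_empty] using this
  have hE1 : sieve_Ex P g (fun T => f T * f T) ≤ G := by
    rw [hE]
    exact Finset.sum_le_sum fun r hr => mul_le_of_le_one_left (hh r hr)
      (pow_le_one₀ (hy0 r) (hy1 r))
  have hE2 : (1 - τ) * G ≤ sieve_Ex P g (fun T => f T * f T) := by
    have : ∑ r ∈ P.powerset, (∏ i ∈ r, sieve_h g i - w r * ∏ i ∈ r, sieve_h g i) ≤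
        sieve_Ex P g (fun T => f T * f T) := by
      rw [hE]
      exact Finset.sum_le_sum fun r hr => by
        linarith only [mul_le_mul_of_nonneg_right (hy3 r) (hh r hr)]
    rw [Finset.sum_sub_distrib] at this
    linarith only [hB, this]
  have hτG : 0 ≤ τ * G := (mul_pos hτ0 hG0).le
  have hE3 : (1 - 2 * τ) * G ≤ sieve_Ex P g
      (fun T => (1 - ∑ q ∈ P, if q ∈ T then 1 else 0) * (f T * f T)) := by
    have e1 : sieve_Ex P g (fun T => (1 - ∑ q ∈ P, if q ∈ T then 1 else 0) * (f T * f T)) =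
        sieve_Ex P g (fun T => f T * f T) - sieve_Ex P g (fun T => ∑ q ∈ P, 1 *
          ((if q ∈ T then 1 else 0) * f T ^ 2)) := by
      unfold sieve_Ex
      rw [← Finset.sum_sub_distrib]
      refine Finset.sum_congr rfl fun T _ => ?_
      simp only [one_mul]
      rw [← Finset.sum_mul]
      ring
    have e2 : ∑ q ∈ P, 1 * sieve_Ex P g (fun T => (if q ∈ T then 1 else 0) * f T ^ 2) ≤
        ∑ q ∈ P, g q * l q * (τ * G) := by
      refine Finset.sum_le_sum fun q hq => ?_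
      have lq := hl q hq
      have e3 := sharp_cond hg y (fun r => l q * w r) (fun r => mul_nonneg lq.1 (hw0 r)) hq
        fun r hr => by
          have hn : q ∉ r := fun h' => notMem_erase q P (hr h')
          by_cases h : 1 / 4 < ∑ i ∈ r, l i
          · have e5 : |y r - y (insert q r)| ≤ 2 * l q := by
              refine (abs_max_sub_max_le_max _ _ _ _).trans (max_le (by simp [lq.1]) ?_)
              refine (abs_min_sub_min_le_max _ _ _ _).trans (max_le (by simp [lq.1]) ?_)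
              rw [sum_insert hn, abs_le]
              constructor <;> linarith only [lq.1]
            have e6 : (y r - y (insert q r)) ^ 2 ≤ (2 * l q) ^ 2 :=
              sq_le_sq' (abs_le.1 e5).1 (abs_le.1 e5).2
            simp only [hw, if_pos h]
            linarith only [mul_le_mul_of_nonneg_left lq.2.1 lq.1, lq.1, e6]
          · rw [hy4 r (by linarith only [h]),
              hy4 (insert q r) (by rw [sum_insert hn]; linarith only [lq.2.1, h]), sub_self,
              zero_pow two_ne_zero]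
            exact mul_nonneg lq.1 (hw0 r)
      rw [one_mul]
      refine e3.trans ?_
      simp only [mul_assoc]
      rw [← Finset.mul_sum]
      exact mul_le_mul_of_nonneg_left (mul_le_mul_of_nonneg_left hB lq.1) (hg q hq).1
    rw [← Finset.sum_mul] at e2
    rw [e1, sieve_Ex_sum]
    have e7 := mul_le_mul_of_nonneg_right hgl hτG
    linarith only [hf1, hf2, hE2, e2, e7]
  set Z : ℝ := ∑ n ∈ Ω.filter (fun n => ∀ i ∈ P, ¬ rel i n), a n with hZ
  have hZ0 : 0 ≤ Z := Finset.sum_nonneg fun n hn => ha n (mem_filter.1 hn).1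
  have hθ0 : ∀ n, (∀ i ∈ P, ¬ rel i n) → θ n = ∅ := fun n h => filter_eq_empty_iff.2 h
  have up : Z * (f ∅ * f ∅) ≤ ∑ n ∈ Ω, a n * (f (θ n) * f (θ n)) := by
    rw [hZ, Finset.sum_mul, Finset.sum_filter]
    refine Finset.sum_le_sum fun n hn => ?_
    split_ifs with h
    · rw [hθ0 n h]
    · exact mul_nonneg (ha n hn) (mul_self_nonneg _)
  have lo : ∑ n ∈ Ω, a n * ((1 - ∑ q ∈ P, if q ∈ θ n then 1 else 0) * (f (θ n) * f (θ n))) ≤
      Z * (f ∅ * f ∅) := by
    rw [hZ, Finset.sum_mul, Finset.sum_filter]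
    refine Finset.sum_le_sum fun n hn => ?_
    split_ifs with h
    · rw [hθ0 n h]
      simp
    · push Not at h
      obtain ⟨q, hq, hω⟩ := h
      have : (1 : ℝ) ≤ ∑ q ∈ P, if q ∈ θ n then 1 else 0 := by
        refine le_trans (le_of_eq ?_) (Finset.single_le_sum
          (f := fun q => if q ∈ θ n then (1 : ℝ) else 0) (fun i _ => by positivity) hq)
        rw [if_pos (mem_filter.2 ⟨hq, hω⟩)]
      exact mul_nonpos_of_nonneg_of_nonpos (ha n hn)
        (mul_nonpos_of_nonpos_of_nonneg (by linarith only [this]) (mul_self_nonneg _))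
  have hτ2 : 0 ≤ (1 - τ) * G := mul_nonneg (by linarith only [hτ1, hτ0]) hG0.le
  have hf3 : f ∅ * f ∅ ≤ G * G := mul_self_le_mul_self (hτ2.trans hf2) hf1
  have hf4 : (1 - τ) * G * ((1 - τ) * G) ≤ f ∅ * f ∅ := mul_self_le_mul_self hτ2 hf2
  have hGG : 0 < G * G := mul_pos hG0 hG0
  have hXV : X * V * (G * G) = X * G := by linear_combination (X * G) * hGV
  constructor
  · refine le_of_mul_le_mul_right ?_ hGG
    have e1 := (abs_le.1 er3).1
    have e2 := mul_le_mul_of_nonneg_left hE3 hX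
    have e3 := mul_le_mul_of_nonneg_left hf3 hZ0
    have e4 : ((1 - 2 * τ) * (X * V) - R) * (G * G) = X * ((1 - 2 * τ) * G) - 1 * (G * G) * R := by
      linear_combination (1 - 2 * τ) * hXV
    linarith only [lo, e1, e2, e3, e4]
  · have e0 : Z * (1 - τ) ^ 2 ≤ X * V + R := by
      refine le_of_mul_le_mul_right ?_ hGG
      have e1 := (abs_le.1 er2).2
      have e2 := mul_le_mul_of_nonneg_left hE1 hX
      have e3 := mul_le_mul_of_nonneg_left hf4 hZ0
      have e4 : Z * (1 - τ) ^ 2 * (G * G) = Z * ((1 - τ) * G * ((1 - τ) * G)) := by ring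
      have e5 : (X * V + R) * (G * G) = X * G + G * G * R := by linear_combination hXV
      linarith only [up, hXV, e1, e2, e3]
    have e6 : 1 ≤ (1 + 6 * τ) * (1 - τ) ^ 2 := by
      have := mul_nonneg hτ0.le (mul_nonneg (by linarith only [hτ1] : 0 ≤ 1 - 2 * τ)
        (by linarith only [hτ1, hτ0] : 0 ≤ 4 - 3 * τ))
      linarith only [this]
    have e7 := mul_le_mul_of_nonneg_left e6 hZ0
    have e8 := mul_le_mul_of_nonneg_left e0 (by linarith only [hτ1, hτ0] : 0 ≤ 1 + 6 * τ)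
    have e9 := mul_le_mul_of_nonneg_right hτ1 hR0
    linarith only [e7, e8, e9]

end Pool.Agent.MP_48b1c3_nt.H91

end

-- part MP_48b1c3_nt.H91.Cls
section

/-! Sieve constants: monotonicity, Buchstab steps, fundamental lemma. -/

namespace Pool.Agent.MP_48b1c3_nt.H91

open Finset NumberField H54 Filter
open scoped ContDiff Topology

variable {M : ℕ} {C s s' c c' d : ℝ}

theorem S_nonneg (A : SP) (e : Finset ℕ) (w : ℝ) : 0 ≤ A.S M e w :=
  sum_nonneg fun n _ => A.ha n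

theorem R_nonneg (A : SP) (e : Finset ℕ) (w : ℝ) : 0 ≤ A.R M e w :=
  sum_nonneg fun _ _ => by positivity

theorem ge_nonneg (h2 : 2 ∣ M) {e : Finset ℕ} {z : ℝ} (he : Adm M e z) : 0 ≤ ge e :=
  prod_nonneg fun p hp => (gg_mem h2 (he p hp).1 (he p hp).2.1).1.le

theorem E_nonneg (h2 : 2 ∣ M) (A : SP) {e : Finset ℕ} {z : ℝ} (he : Adm M e z) (w : ℝ) :
    0 ≤ A.E M e w :=
  mul_nonneg (mul_nonneg A.hX (ge_nonneg h2 he)) (VV_pos h2 w).le

theorem R_mono (A : SP) (e : Finset ℕ) {w z : ℝ} (h : w ≤ z) : A.R M e w ≤ A.R M e z :=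
  sum_le_sum_of_subset_of_nonneg (filter_subset_filter _ (powerset_mono.2 (Pw_mono h)))
    fun _ _ _ => by positivity

theorem S_anti (A : SP) (e : Finset ℕ) {w z : ℝ} (h : w ≤ z) : A.S M e z ≤ A.S M e w :=
  sum_le_sum_of_subset_of_nonneg (fun _ hn => mem_filter.2 ⟨(mem_filter.1 hn).1,
    (mem_filter.1 hn).2.1, fun p hp => (mem_filter.1 hn).2.2 p (Pw_mono h hp)⟩) fun n _ _ => A.ha n

theorem Adm.anti {e : Finset ℕ} {w z : ℝ} (he : Adm M e z) (h : w ≤ z) : Adm M e w :=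
  fun p hp => ⟨(he p hp).1, (he p hp).2.1, h.trans (he p hp).2.2⟩

theorem Adm.notMem {e : Finset ℕ} {z : ℝ} (he : Adm M e z) {p : ℕ} (hp : p ∈ Pw M z) : p ∉ e :=
  fun h => absurd (mem_Pw.1 hp).1 (not_lt.2 (he p h).2.2)

theorem Adm.ins {e : Finset ℕ} {z u : ℝ} (he : Adm M e z) {p : ℕ} (hp : p ∈ Pw M z)
    (hu : u ≤ p) : Adm M (insert p e) u := fun q hq => by
  rcases mem_insert.1 hq with rfl | h
  · exact ⟨(mem_Pw.1 hp).2.1, (mem_Pw.1 hp).2.2, hu⟩
  · exact (he.anti (hu.trans (mem_Pw.1 hp).1.le)) q h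

theorem one_le_pe {e : Finset ℕ} {z : ℝ} (he : Adm M e z) : 1 ≤ pe e :=
  (prod_const_one (s := e)).ge.trans (prod_le_prod (fun _ _ => zero_le_one)
    fun p hp => Nat.one_le_cast.2 (he p hp).1.one_le)

theorem R_insert (A : SP) {e : Finset ℕ} {w z : ℝ} (he : Adm M e z) (u : ℕ → ℝ)
    (hu : ∀ p ∈ Pw M z \ Pw M w, u p ≤ p) :
    ∑ p ∈ Pw M z \ Pw M w, A.R M (insert p e) (u p) ≤ A.R M e z := by
  obtain ⟨F, hF⟩ : ∃ F : Finset ℕ → ℝ,
      F = fun d => 64 ^ #d * |A.cnt (d ∪ e) - A.X * ge (d ∪ e)| := ⟨_, rfl⟩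
  have lt : ∀ x ∈ (Pw M z \ Pw M w).sigma fun p => (Pw M (u p)).powerset.filter
      fun d => pe d * pe (insert p e) ≤ A.D, ∀ q ∈ x.2, q ∈ Pw M x.1 := fun x hx q hq =>
    Pw_mono (hu _ (mem_sigma.1 hx).1) (mem_powerset.1 (mem_filter.1 (mem_sigma.1 hx).2).1 hq)
  have nm : ∀ x ∈ (Pw M z \ Pw M w).sigma fun p => (Pw M (u p)).powerset.filter
      fun d => pe d * pe (insert p e) ≤ A.D, x.1 ∉ x.2 := fun x hx h =>
    lt_irrefl _ (mem_Pw.1 (lt x hx _ h)).1
  simp only [SP.R]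
  rw [sum_sigma', ← hF]
  refine (sum_le_sum (g := fun x => F (insert x.1 x.2)) fun x hx => ?_).trans ?_
  · rw [hF]
    simp only
    rw [card_insert_of_notMem (nm x hx), union_insert, insert_union]
    exact mul_le_mul_of_nonneg_right (pow_le_pow_right₀ (by norm_num) (Nat.le_succ _))
      (abs_nonneg _)
  rw [← sum_image (g := fun x : Σ _ : ℕ, Finset ℕ => insert x.1 x.2)]
  · refine sum_le_sum_of_subset_of_nonneg (fun d hd => ?_) fun _ _ _ => by rw [hF]; positivity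
    obtain ⟨x, hx, rfl⟩ := mem_image.1 hd
    have h1 := (mem_sdiff.1 (mem_sigma.1 hx).1).1
    refine mem_filter.2 ⟨mem_powerset.2 (insert_subset h1 fun q hq =>
      Pw_mono (mem_Pw.1 h1).1.le (lt x hx q hq)), ?_⟩
    have h2 := (mem_filter.1 (mem_sigma.1 hx).2).2
    simp only [pe] at h2 ⊢
    rw [prod_insert (he.notMem h1)] at h2
    rw [prod_insert (nm x hx)]
    linarith
  · rintro ⟨p, d⟩ hx ⟨p', d'⟩ hx' h
    have h' : insert p d = insert p' d' := h
    have e1 : p = p' := by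
      by_contra ne
      have a := (mem_insert.1 (h' ▸ mem_insert_self p d)).resolve_left ne
      have b := (mem_insert.1 (h'.symm ▸ mem_insert_self p' d')).resolve_left (Ne.symm ne)
      exact lt_asymm (mem_Pw.1 (lt _ hx' _ a)).1 (mem_Pw.1 (lt _ hx _ b)).1
    subst e1
    have e2 : d = d' := (erase_insert (nm _ hx)).symm.trans
      ((congrArg (erase · p) h').trans (erase_insert (nm _ hx')))
    rw [e2]

theorem cls_ord (f : ℕ → ℝ) (z : ℝ) :
    ∑ p ∈ Pw M z, f p * ∏ q ∈ Pw M p, (1 - f q) = 1 - ∏ q ∈ Pw M z, (1 - f q) := by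
  rw [prod_one_sub_ordered, sub_sub_cancel]
  refine sum_congr rfl fun p hp => congrArg _ (prod_congr ?_ fun _ _ => rfl)
  ext q
  rw [mem_filter, mem_Pw, mem_Pw, Nat.cast_lt]
  exact ⟨fun h => ⟨⟨(Nat.cast_lt.2 h.1).trans (mem_Pw.1 hp).1, h.2⟩, h.1⟩, fun h => ⟨h.2, h.1.2⟩⟩

theorem cls_S (A : SP) (e : Finset ℕ) (w : ℝ) : A.S M e w = ∑ n ∈ A.Ω,
    (A.a n * if ∀ p ∈ e, p ∣ n - 1 then 1 else 0) *
      ∏ q ∈ Pw M w, (1 - if q ∣ n - 1 then 1 else 0) := by
  rw [SP.S, sum_filter]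
  refine sum_congr rfl fun n _ => ?_
  by_cases h : ∀ p ∈ Pw M w, ¬ p ∣ n - 1
  · rw [prod_eq_one fun q hq => by rw [if_neg (h q hq), sub_zero]]
    simp only [and_iff_left h, mul_one, mul_ite, mul_zero]
  · rw [if_neg fun c => h c.2]
    push Not at h
    obtain ⟨q, hq, h⟩ := h
    rw [prod_eq_zero hq (by rw [if_pos h, sub_self]), mul_zero]

theorem buchstab (A : SP) (e : Finset ℕ) {w z : ℝ} (h : w ≤ z) :
    A.S M e w = A.S M e z + ∑ p ∈ Pw M z \ Pw M w, A.S M (insert p e) p := by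
  simp only [cls_S]
  rw [sum_comm, ← sum_add_distrib]
  refine sum_congr rfl fun n _ => ?_
  have e1 : ∀ p : ℕ, (A.a n * if ∀ q ∈ insert p e, q ∣ n - 1 then (1 : ℝ) else 0) =
      (A.a n * if ∀ q ∈ e, q ∣ n - 1 then (1 : ℝ) else 0) * if p ∣ n - 1 then 1 else 0 := fun p => by
    simp only [forall_mem_insert]
    by_cases a : p ∣ n - 1 <;> simp only [a, true_and, mul_ite, mul_one, mul_zero, ↓ reduceIte, false_and]
  simp only [e1, mul_assoc, ← mul_sum]
  rw [sum_sdiff_eq_sub (Pw_mono h), cls_ord, cls_ord]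
  ring

theorem sum_E (A : SP) {e : Finset ℕ} {w z : ℝ} (he : Adm M e z) (h : w ≤ z) :
    ∑ p ∈ Pw M z \ Pw M w, A.E M (insert p e) p = A.E M e w - A.E M e z := by
  simp only [SP.E]
  rw [← mul_sub, ← sum_gV h, mul_sum]
  refine sum_congr rfl fun p hp => ?_
  rw [ge, prod_insert (he.notMem (mem_sdiff.1 hp).1), ge]
  ring

theorem E_ratio (h2 : 2 ∣ M) (A : SP) (e : Finset ℕ) (w z : ℝ) :
    A.E M e w = VV M w / VV M z * A.E M e z := by
  have := (VV_pos h2 z).ne'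
  simp only [SP.E]
  field_simp

theorem up_of_H (h2 : 2 ∣ M) (hs : 1 ≤ s) : Up M C s C := fun ε hε =>
  ⟨0, 2, le_rfl, fun A hA e z hz he hD => by
    have h1 := one_le_pe he
    have h3 : z ≤ z ^ s := by
      simpa using Real.rpow_le_rpow_of_exponent_le (by linarith : 1 ≤ z) hs
    have h4 : pe e ≤ A.D := by nlinarith only [hz, hD, h1, h3]
    have h5 := hA e z he hz (by nlinarith only [hz, hD, h1, h3]) ((pow_le_pow_left₀ (by linarith) h4 2).trans
      (pow_le_pow_right₀ (by linarith) (by norm_num)))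
    have h6 := E_nonneg h2 A he z
    nlinarith only [hε, h5, h6]⟩

theorem lo_zero (h2 : 2 ∣ M) : Lo M C s 0 := fun ε hε =>
  ⟨0, 0, le_rfl, fun A _ e z _ he _ => by
    have h6 := E_nonneg h2 A he z
    have h7 := S_nonneg (M := M) A e z
    nlinarith only [hε, h6, h7]⟩

theorem cls_lev {A : SP} {e : Finset ℕ} {z : ℝ} (he : Adm M e z) (hz : 1 ≤ z) (hs : s ≤ s')
    (h : z ^ s' * pe e ≤ A.D) : z ^ s * pe e ≤ A.D :=
  (mul_le_mul_of_nonneg_right (Real.rpow_le_rpow_of_exponent_le hz hs)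
    (zero_le_one.trans (one_le_pe he))).trans h

theorem Up.mono (h2 : 2 ∣ M) (h : Up M C s c) (hs : s ≤ s') (hc : c ≤ c') : Up M C s' c' := by
  intro ε hε
  obtain ⟨L, z₀, hL, h⟩ := h ε hε
  refine ⟨L, max z₀ 1, hL, fun A hA e z hz he hD => ?_⟩
  have h1 := h A hA e z (le_of_max_le_left hz) he (cls_lev he (le_of_max_le_right hz) hs hD)
  have h6 := E_nonneg h2 A he z
  nlinarith only [hc, h1, h6]

theorem Lo.mono (h2 : 2 ∣ M) (h : Lo M C s c) (hs : s ≤ s') (hc : c' ≤ c) : Lo M C s' c' := by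
  intro ε hε
  obtain ⟨L, z₀, hL, h⟩ := h ε hε
  refine ⟨L, max z₀ 1, hL, fun A hA e z hz he hD => ?_⟩
  have h1 := h A hA e z (le_of_max_le_left hz) he (cls_lev he (le_of_max_le_right hz) hs hD)
  have h6 := E_nonneg h2 A he z
  nlinarith only [hc, h1, h6]

theorem Up.of_forall (h : ∀ ε : ℝ, 0 < ε → Up M C s (c + ε)) : Up M C s c := by
  intro ε hε
  have := h (ε / 2) (half_pos hε) (ε / 2) (half_pos hε)
  rwa [add_assoc, add_halves] at this

theorem Lo.of_forall (h : ∀ ε : ℝ, 0 < ε → Lo M C s (c - ε)) : Lo M C s c := by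
  intro ε hε
  have := h (ε / 2) (half_pos hε) (ε / 2) (half_pos hε)
  rwa [sub_sub, add_halves] at this

/-- the common frame of the three steps -/
theorem cls_frame (hM : 0 < M) (h2 : 2 ∣ M) (h0 : 0 < s) (hs : s ≤ s') (z₀ : ℝ) {a b r : ℝ}
    (hr : a * (s' / s) + b < r) : ∃ z₁ : ℝ, ∀ z, z₁ ≤ z → ∃ w : ℝ, z₀ ≤ w ∧ 1 ≤ w ∧ w ≤ z ∧
      w ^ s' = z ^ s ∧ a * (VV M w / VV M z) + b ≤ r := by
  have h1 := h0.trans_le hs
  have ha := div_pos h0 h1
  have hb := (div_le_one h1).2 hs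
  have t := ((VV_ratio hM h2 ha hb).const_mul a).add_const b
  rw [one_div_div] at t
  obtain ⟨z₁, hz⟩ := eventually_atTop.1 ((t.eventually_le_const hr).and
    (((tendsto_rpow_atTop ha).eventually_ge_atTop z₀).and (eventually_ge_atTop 1)))
  refine ⟨z₁, fun z h => ⟨_, (hz z h).2.1, Real.one_le_rpow (hz z h).2.2 ha.le, ?_, ?_,
    (hz z h).1⟩⟩
  · simpa using Real.rpow_le_rpow_of_exponent_le (hz z h).2.2 hb
  · rw [← Real.rpow_mul (zero_le_one.trans (hz z h).2.2), div_mul_cancel₀ _ h1.ne']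

theorem Up.scale (hM : 0 < M) (h2 : 2 ∣ M) (h : Up M C s' c) (h0 : 0 < s) (hs : s ≤ s') :
    Up M C s (s' * c / s) := by
  intro ε hε
  have h1 := h0.trans_le hs
  obtain ⟨L, z₀, hL, h⟩ := h (ε * s / (2 * s')) (by positivity)
  obtain ⟨z₁, hz⟩ := cls_frame hM h2 h0 hs z₀ (a := c + ε * s / (2 * s')) (b := 0)
    (r := s' * c / s + ε) (by
      have : (c + ε * s / (2 * s')) * (s' / s) + 0 = s' * c / s + ε / 2 := by field_simp; ring
      linarith only [hε, this])
  refine ⟨L, z₁, hL, fun A hA e z h3 he hD => ?_⟩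
  obtain ⟨w, a1, -, a3, a4, a5⟩ := hz z h3
  have b1 := h A hA e w a1 (he.anti a3) (a4 ▸ hD)
  have b2 := mul_le_mul_of_nonneg_left (R_mono (M := M) A e a3) hL
  have b3 := mul_le_mul_of_nonneg_right a5 (E_nonneg h2 A he z)
  rw [E_ratio h2 A e w z] at b1
  linarith only [S_anti (M := M) A e a3, b1, b2, b3]

theorem cls_ins {A : SP} {e : Finset ℕ} {w z : ℝ} (he : Adm M e z) (h1 : 1 < s)
    (hD : z ^ s * pe e ≤ A.D) {p : ℕ} (hp : p ∈ Pw M z \ Pw M w) :
    (p : ℝ) ^ (s - 1) * pe (insert p e) ≤ A.D := by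
  have a := (mem_sdiff.1 hp).1
  have p0 : (0 : ℝ) < p := Nat.cast_pos.2 (mem_Pw.1 a).2.1.pos
  rw [pe, prod_insert (he.notMem a), ← mul_assoc, ← Real.rpow_add_one p0.ne', sub_add_cancel]
  exact (mul_le_mul_of_nonneg_right (Real.rpow_le_rpow p0.le (mem_Pw.1 a).1.le (by linarith))
    (zero_le_one.trans (one_le_pe he))).trans hD

theorem b1 (hM : 0 < M) (h2 : 2 ∣ M) (h1 : 1 < s) (hs : s ≤ s') (h : Lo M C s' c)
    (h' : Up M C (s - 1) d) : Lo M C s ((s' * c - (s' - s) * d) / s) := by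
  intro ε hε
  have h0 : 0 < s := by linarith only [h1]
  have h3 := h0.trans_le hs
  obtain ⟨η, hη⟩ : ∃ η, η = ε * s / (2 * s') := ⟨_, rfl⟩
  have η0 : 0 < η := by rw [hη]; positivity
  obtain ⟨L, z₀, hL, h⟩ := h η η0
  obtain ⟨L', z₀', hL', h'⟩ := h' η η0
  obtain ⟨z₁, hz⟩ := cls_frame hM h2 h0 hs (max z₀ z₀') (a := d + η - (c - η)) (b := -(d + η))
    (r := -((s' * c - (s' - s) * d) / s - ε)) (by
      have : (d + η - (c - η)) * (s' / s) + -(d + η) =
          -((s' * c - (s' - s) * d) / s - ε) - η := by rw [hη]; field_simp; ring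
      linarith only [η0, this])
  refine ⟨L + L', z₁, add_nonneg hL hL', fun A hA e z h4 he hD => ?_⟩
  obtain ⟨w, a1, -, a3, a4, a5⟩ := hz z h4
  have b1 := h A hA e w (le_of_max_le_left a1) (he.anti a3) (a4 ▸ hD)
  have b2 := mul_le_mul_of_nonneg_left (R_mono (M := M) A e a3) hL
  have b3 := mul_le_mul_of_nonneg_right a5 (E_nonneg h2 A he z)
  have b4 := sum_le_sum fun p (hp : p ∈ Pw M z \ Pw M w) => h' A hA (insert p e) p
    ((le_of_max_le_right a1).trans (mert_sd hp).1) (he.ins (mem_sdiff.1 hp).1 le_rfl)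
      (cls_ins he h1 hD hp)
  rw [sum_add_distrib, ← mul_sum, ← mul_sum, sum_E A he a3] at b4
  have b5 := mul_le_mul_of_nonneg_left (R_insert (w := w) A he (fun p => p) fun _ _ => le_rfl) hL'
  have b6 := buchstab (M := M) A e a3
  rw [E_ratio h2 A e w z] at b1 b4
  linarith only [b1, b2, b3, b4, b5, b6]

theorem b2 (hM : 0 < M) (h2 : 2 ∣ M) (h1 : 1 < s) (hs : s ≤ s') (h : Up M C s' c)
    (h' : Lo M C (s - 1) d) : Up M C s ((s' * c - (s' - s) * d) / s) := by
  intro ε hε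
  have h0 : 0 < s := by linarith only [h1]
  have h3 := h0.trans_le hs
  obtain ⟨η, hη⟩ : ∃ η, η = ε * s / (2 * s') := ⟨_, rfl⟩
  have η0 : 0 < η := by rw [hη]; positivity
  obtain ⟨L, z₀, hL, h⟩ := h η η0
  obtain ⟨L', z₀', hL', h'⟩ := h' η η0
  obtain ⟨z₁, hz⟩ := cls_frame hM h2 h0 hs (max z₀ z₀') (a := c + η - (d - η)) (b := d - η)
    (r := (s' * c - (s' - s) * d) / s + ε) (by
      have : (c + η - (d - η)) * (s' / s) + (d - η) =
          (s' * c - (s' - s) * d) / s + ε - η := by rw [hη]; field_simp; ring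
      linarith only [η0, this])
  refine ⟨L + L', z₁, add_nonneg hL hL', fun A hA e z h4 he hD => ?_⟩
  obtain ⟨w, a1, -, a3, a4, a5⟩ := hz z h4
  have b1 := h A hA e w (le_of_max_le_left a1) (he.anti a3) (a4 ▸ hD)
  have b2 := mul_le_mul_of_nonneg_left (R_mono (M := M) A e a3) hL
  have b3 := mul_le_mul_of_nonneg_right a5 (E_nonneg h2 A he z)
  have b4 := sum_le_sum fun p (hp : p ∈ Pw M z \ Pw M w) => h' A hA (insert p e) p
    ((le_of_max_le_right a1).trans (mert_sd hp).1) (he.ins (mem_sdiff.1 hp).1 le_rfl)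
      (cls_ins he h1 hD hp)
  rw [sum_sub_distrib, ← mul_sum, ← mul_sum, sum_E A he a3] at b4
  have b5 := mul_le_mul_of_nonneg_left (R_insert (w := w) A he (fun p => p) fun _ _ => le_rfl) hL'
  have b6 := buchstab (M := M) A e a3
  rw [E_ratio h2 A e w z] at b1 b4
  linarith only [b1, b2, b3, b4, b5, b6]

theorem fl_raw (h2 : 2 ∣ M) : ∃ B s₀ : ℝ, ∀ s, s₀ ≤ s → ∀ (A : SP) (e : Finset ℕ) (z : ℝ), 2 ≤ z →
    Adm M e z → z ^ s * pe e ≤ A.D →
      (1 - B * Real.exp (-s / 12)) * A.E M e z - A.R M e z ≤ A.S M e z ∧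
        A.S M e z ≤ (1 + B * Real.exp (-s / 12)) * A.E M e z + 4 * A.R M e z := by
  obtain ⟨C, hC, h⟩ := sum_g_log h2
  refine ⟨6 * Real.exp (2 * C), 24 * C + 24, fun s hs A e z hz he hD => ?_⟩
  have s0 : 0 < s := by linarith
  have l0 : 0 < Real.log z := Real.log_pos (by linarith)
  have e1 : ∀ p : ℕ, s / 3 * (3 * Real.log p / (s * Real.log z)) = Real.log p / Real.log z :=
    fun p => by field_simp
  have e2 : ∀ p ∈ Pw M z, Real.log p / Real.log z ≤ 1 := fun p hp => (div_le_one l0).2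
    (Real.log_le_log (Nat.cast_pos.2 (mem_Pw.1 hp).2.1.pos) (mem_Pw.1 hp).1.le)
  have e3 : Real.exp (2 * C - s / 3 / 4) = Real.exp (2 * C) * Real.exp (-s / 12) := by
    rw [← Real.exp_add]; congr 1; ring
  have key := sieve_sharp (Pw M z) gg (fun p => 3 * Real.log p / (s * Real.log z))
    (A.Ω.filter fun n => ∀ p ∈ e, p ∣ n - 1) A.a (fun p n => p ∣ n - 1) (A.X * ge e)
    (fun n _ => A.ha n) (mul_nonneg A.hX (ge_nonneg h2 he))
    (fun p hp => ⟨(mert_gg h2 hp).1.le, (mert_gg h2 hp).2⟩) (t := s / 3) (κ := C)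
    (τ := Real.exp (2 * C - s / 3 / 4)) (by positivity) (fun p hp => by
      have a := e2 p hp
      have b : 0 ≤ 3 * Real.log p / (s * Real.log z) := by
        have := Real.log_natCast_nonneg p
        positivity
      rw [← e1] at a
      exact ⟨b, by nlinarith only [hC, hs, a], a⟩) (by
      simp only [e1, ← mul_div_assoc]
      rw [← sum_div, div_le_iff₀ l0]
      exact h z hz) le_rfl (by
      refine (Real.exp_le_exp.2 (by linarith only [hs] : _ ≤ (-1 : ℝ))).trans ?_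
      rw [Real.exp_neg, inv_le_comm₀ (Real.exp_pos _) (by norm_num)]
      linarith only [Real.add_one_le_exp (1 : ℝ)]) (A.R M e z) (by
      refine le_trans (le_of_eq (sum_congr rfl fun d hd => ?_)) (sum_le_sum_of_subset_of_nonneg
        (fun d hd => ?_) fun _ _ _ => by positivity)
      · have hd' := mem_powerset.1 (mem_filter.1 hd).1
        rw [ge, ge, prod_union (disjoint_left.2 fun p hp => he.notMem (hd' hp)), SP.cnt, filter_filter]
        refine congrArg₂ (fun a b : ℝ => 64 ^ #d * |a - b|) (sum_congr ?_ fun _ _ => rfl) (by ring)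
        ext n
        simp only [mem_filter, forall_mem_union, and_comm]
      · have hd' := mem_powerset.1 (mem_filter.1 hd).1
        refine mem_filter.2 ⟨(mem_filter.1 hd).1, le_trans (mul_le_mul_of_nonneg_right ?_
          (zero_le_one.trans (one_le_pe he))) hD⟩
        have a := (mem_filter.1 hd).2
        rw [← sum_div, ← mul_sum, div_le_iff₀ (by positivity)] at a
        have p0 : ∀ p ∈ d, (0 : ℝ) < p := fun p hp => Nat.cast_pos.2 (mem_Pw.1 (hd' hp)).2.1.pos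
        refine (Real.log_le_log_iff (prod_pos p0) (by positivity)).1 ?_
        rw [Real.log_rpow (by linarith only [hz]), Real.log_prod fun p hp => (p0 p hp).ne']
        linarith only [a])
  have e4 : ∀ T : Finset ℕ, (∀ n, n ∈ T ↔ n ∈ (A.Ω.filter fun n => ∀ p ∈ e, p ∣ n - 1) ∧
      ∀ p ∈ Pw M z, ¬ p ∣ n - 1) → ∑ n ∈ T, A.a n = A.S M e z := fun T hT =>
    sum_congr (by ext n; simp only [hT, mem_filter, and_assoc]) fun _ _ => rfl
  rw [e4 _ fun n => by simp only [mem_filter], e3] at key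
  have e5 := mul_nonneg (mul_pos (Real.exp_pos (2 * C)) (Real.exp_pos (-s / 12))).le
    (E_nonneg h2 A he z)
  simp only [SP.E, VV] at e5 ⊢
  exact ⟨by linarith only [key.1, e5], by linarith only [key.2]⟩

theorem fl (h2 : 2 ∣ M) (C : ℝ) : ∃ B s₀ : ℝ, ∀ s, s₀ ≤ s →
    Up M C s (1 + B * Real.exp (-s / 12)) ∧ Lo M C s (1 - B * Real.exp (-s / 12)) := by
  obtain ⟨B, s₀, h⟩ := fl_raw h2
  refine ⟨B, s₀, fun s hs => ⟨fun ε hε => ⟨4, 2, by norm_num, fun A _ e z hz he hD => ?_⟩,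
    fun ε hε => ⟨1, 2, by norm_num, fun A _ e z hz he hD => ?_⟩⟩⟩
  · linarith [(h s hs A e z hz he hD).2, mul_nonneg hε.le (E_nonneg h2 A he z)]
  · linarith [(h s hs A e z hz he hD).1, mul_nonneg hε.le (E_nonneg h2 A he z)]

end Pool.Agent.MP_48b1c3_nt.H91

end

-- part MP_48b1c3_nt.H48.Sv2
section

/-! One Buchstab step on top of the fundamental lemma. -/

namespace Pool.Agent.MP_48b1c3_nt.H48

open Finset NumberField H54 H91 Filter
open scoped Classical BigOperators Topology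

variable {K : Type} [Field K] [NumberField K]

theorem fl_unif : ∃ s : ℝ, 1 ≤ s ∧ ∀ M : ℕ, 2 ∣ M → ∀ (A : SP) (e : Finset ℕ) (z : ℝ), 2 ≤ z →
    Adm M e z → z ^ s * pe e ≤ A.D →
      0.99 * A.E M e z - A.R M e z ≤ A.S M e z ∧ A.S M e z ≤ 1.01 * A.E M e z + 4 * A.R M e z := by
  obtain ⟨C, hC, h⟩ := sum_g_log (dvd_refl 2)
  obtain ⟨s, hs⟩ : ∃ s : ℝ, s = 24 * C + 7200 := ⟨_, rfl⟩
  refine ⟨s, by linarith, fun M h2 A e z hz he hD => ?_⟩
  have s0 : 0 < s := by linarith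
  have l0 : 0 < Real.log z := Real.log_pos (by linarith)
  have e1 : ∀ p : ℕ, s / 3 * (3 * Real.log p / (s * Real.log z)) = Real.log p / Real.log z :=
    fun p => by field_simp
  have e2 : ∀ p ∈ Pw M z, Real.log p / Real.log z ≤ 1 := fun p hp => (div_le_one l0).2
    (Real.log_le_log (Nat.cast_pos.2 (mem_Pw.1 hp).2.1.pos) (mem_Pw.1 hp).1.le)
  have key := sieve_sharp (Pw M z) gg (fun p => 3 * Real.log p / (s * Real.log z))
    (A.Ω.filter fun n => ∀ p ∈ e, p ∣ n - 1) A.a (fun p n => p ∣ n - 1) (A.X * ge e)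
    (fun n _ => A.ha n) (mul_nonneg A.hX (ge_nonneg h2 he))
    (fun p hp => ⟨(mert_gg h2 hp).1.le, (mert_gg h2 hp).2⟩) (t := s / 3) (κ := C)
    (τ := 1 / 600) (by positivity) (fun p hp => by
      have a := e2 p hp
      have b : 0 ≤ 3 * Real.log p / (s * Real.log z) := by
        have := Real.log_natCast_nonneg p
        positivity
      rw [← e1] at a
      exact ⟨b, by nlinarith only [hC, hs, a], a⟩) (by
      simp only [e1, ← mul_div_assoc]
      rw [← sum_div, div_le_iff₀ l0]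
      refine le_trans (sum_le_sum_of_subset_of_nonneg (fun p hp => ?_) fun p hp _ => mul_nonneg
        (mert_gg (dvd_refl 2) hp).1.le (Real.log_natCast_nonneg p)) (h z hz)
      obtain ⟨a, b, c⟩ := mem_Pw.1 hp
      exact mem_Pw.2 ⟨a, b, fun h => c (h.trans h2)⟩) (by
      rw [show 2 * C - s / 3 / 4 = -600 by rw [hs]; ring, Real.exp_neg, one_div]
      exact inv_anti₀ (by norm_num) (by linarith [Real.add_one_le_exp (600 : ℝ)])) (by norm_num)
      (A.R M e z) (by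
      refine le_trans (le_of_eq (sum_congr rfl fun d hd => ?_)) (sum_le_sum_of_subset_of_nonneg
        (fun d hd => ?_) fun _ _ _ => by positivity)
      · have hd' := mem_powerset.1 (mem_filter.1 hd).1
        rw [ge, ge, prod_union (disjoint_left.2 fun p hp => he.notMem (hd' hp)), SP.cnt, filter_filter]
        refine congrArg₂ (fun a b : ℝ => 64 ^ #d * |a - b|) (sum_congr ?_ fun _ _ => rfl) (by ring)
        ext n
        simp only [mem_filter, forall_mem_union, and_comm]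
      · have hd' := mem_powerset.1 (mem_filter.1 hd).1
        refine mem_filter.2 ⟨(mem_filter.1 hd).1, le_trans (mul_le_mul_of_nonneg_right ?_
          (zero_le_one.trans (one_le_pe he))) hD⟩
        have a := (mem_filter.1 hd).2
        rw [← sum_div, ← mul_sum, div_le_iff₀ (by positivity)] at a
        have p0 : ∀ p ∈ d, (0 : ℝ) < p := fun p hp => Nat.cast_pos.2 (mem_Pw.1 (hd' hp)).2.1.pos
        refine (Real.log_le_log_iff (prod_pos p0) (by positivity)).1 ?_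
        rw [Real.log_rpow (by linarith only [hz]), Real.log_prod fun p hp => (p0 p hp).ne']
        linarith)
  have e4 : ∀ T : Finset ℕ, (∀ n, n ∈ T ↔ n ∈ (A.Ω.filter fun n => ∀ p ∈ e, p ∣ n - 1) ∧
      ∀ p ∈ Pw M z, ¬ p ∣ n - 1) → ∑ n ∈ T, A.a n = A.S M e z := fun T hT =>
    sum_congr (by ext n; simp only [hT, mem_filter, and_assoc]) fun _ _ => rfl
  rw [e4 _ fun n => by simp only [mem_filter]] at key
  have e5 := E_nonneg h2 A he z
  simp only [SP.E, VV] at e5 ⊢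
  exact ⟨by linarith only [key.1, e5], by linarith only [key.2]⟩

theorem sv2_rem {M : ℕ} (P : SP) (T : Finset ℕ) (w : ℝ) (F : Finset (Finset ℕ))
    (hT : ∀ p ∈ T, w ≤ p)
    (hF : ∀ p ∈ T, ∀ d ⊆ Pw M w, p ∉ d → pe d * p ≤ P.D → insert p d ∈ F) :
    ∑ p ∈ T, P.R M (insert p ∅) w ≤ ∑ d ∈ F, 64 ^ #d * |P.cnt d - P.X * ge d| := by
  have nm : ∀ p ∈ T, ∀ d ⊆ Pw M w, p ∉ d := fun p hp d hd h =>
    (hT p hp).not_gt (mem_Pw.1 (hd h)).1
  have sb : ∀ x ∈ T.sigma fun p => (Pw M w).powerset.filter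
      fun d => pe d * pe (insert p ∅) ≤ P.D, x.1 ∈ T ∧ x.2 ⊆ Pw M w := fun x hx =>
    ⟨(mem_sigma.1 hx).1, mem_powerset.1 (mem_filter.1 (mem_sigma.1 hx).2).1⟩
  simp only [SP.R]
  rw [sum_sigma']
  refine (sum_le_sum (g := fun x => (fun d => 64 ^ #d * |P.cnt d - P.X * ge d|) (insert x.1 x.2))
    fun x hx => ?_).trans ?_
  · simp only
    rw [card_insert_of_notMem (nm _ (sb x hx).1 _ (sb x hx).2), union_insert, union_empty]
    exact mul_le_mul_of_nonneg_right (pow_le_pow_right₀ (by norm_num) (Nat.le_succ _))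
      (abs_nonneg _)
  rw [← sum_image (g := fun x : Σ _ : ℕ, Finset ℕ => insert x.1 x.2)
    (f := fun d => 64 ^ #d * |P.cnt d - P.X * ge d|)]
  · refine sum_le_sum_of_subset_of_nonneg (fun d hd => ?_) fun _ _ _ => by positivity
    obtain ⟨x, hx, rfl⟩ := mem_image.1 hd
    refine hF _ (sb x hx).1 _ (sb x hx).2 (nm _ (sb x hx).1 _ (sb x hx).2) ?_
    simpa only [pe, insert_empty_eq, prod_singleton] using (mem_filter.1 (mem_sigma.1 hx).2).2
  · rintro ⟨p, d⟩ hx ⟨p', d'⟩ hx' h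
    have h' : insert p d = insert p' d' := h
    obtain rfl : p = p' := (mem_insert.1 (h' ▸ mem_insert_self p d)).resolve_right
      (nm _ (sb _ hx).1 _ (sb _ hx').2)
    have e2 : d = d' := (erase_insert (nm _ (sb _ hx).1 _ (sb _ hx).2)).symm.trans
      ((congrArg (erase · p) h').trans (erase_insert (nm _ (sb _ hx).1 _ (sb _ hx').2)))
    rw [e2]

theorem sv2_ratio {M : ℕ} (hM : 0 < M) (h2 : 2 ∣ M) {a b r : ℝ} (ha : 0 < a) (hb : a ≤ b)
    (hr : b < r * a) : ∀ᶠ X : ℝ in atTop, VV M (X ^ a) ≤ r * VV M (X ^ b) := by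
  have h0 := ha.trans_le hb
  have t := (VV_ratio hM h2 (div_pos ha h0) ((div_le_one h0).2 hb)).comp (tendsto_rpow_atTop h0)
  rw [one_div_div] at t
  filter_upwards [t.eventually_le_const ((div_lt_iff₀ ha).2 hr), eventually_ge_atTop 0] with X h hX
  rwa [Function.comp_apply, ← Real.rpow_mul hX, mul_div_cancel₀ _ h0.ne',
    div_le_iff₀ (VV_pos h2 _)] at h

theorem sv2_log {M : ℕ} (h2 : 2 ∣ M) {w z : ℝ} (h : w ≤ z) (hV : VV M w ≤ 2.23 * VV M z) :
    ∑ p ∈ Pw M z \ Pw M w, gg p ≤ 0.81 := by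
  have h1 : VV M z ≤ Real.exp (-∑ p ∈ Pw M z \ Pw M w, gg p) * VV M w := by
    rw [VV, ← prod_sdiff (Pw_mono h), ← sum_neg_distrib, Real.exp_sum]
    exact mul_le_mul_of_nonneg_right (prod_le_prod (fun p hp => by
      linarith only [(mert_gg h2 (Finset.mem_sdiff.1 hp).1).2]) fun p _ => by
        linarith only [Real.add_one_le_exp (-gg p)]) (VV_pos h2 w).le
  have h3 := Real.sum_le_exp_of_nonneg (x := 0.81) (by norm_num) 5
  norm_num only [] at h3
  by_contra hc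
  have h4 := Real.exp_le_exp.2 (neg_le_neg (not_le.1 hc).le)
  have h5 : Real.exp (-0.81) * Real.exp 0.81 = 1 := by rw [← Real.exp_add]; norm_num
  have h6 := VV_pos h2 w
  have h7 := Real.exp_pos (-0.81)
  norm_num only [Real.exp_le_exp, neg_le_neg_iff] at h4 h5 h7
  have h8 : Real.exp (-(81 / 100)) ≤ 0.447 := by nlinarith only [h3, h5]
  have h9 := h1.trans (mul_le_mul_of_nonneg_right ((Real.exp_le_exp.2 (neg_le_neg h4)).trans h8) h6.le)
  linarith only [hV, h6, h9]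

theorem sv2_step {M : ℕ} (h2 : 2 ∣ M) {s : ℝ} (hs : ∀ (A : SP) (e : Finset ℕ) (z : ℝ), 2 ≤ z →
    Adm M e z → z ^ s * pe e ≤ A.D → A.S M e z ≤ 1.01 * A.E M e z + 4 * A.R M e z) (P : SP)
    {y w z : ℝ} (hy : 2 ≤ y) (hw : y ≤ w) (hz : w ≤ z) (F : Finset (Finset ℕ))
    (hF : ∀ p ∈ Pw M z, w ≤ p → ∀ d ⊆ Pw M y, p ∉ d → pe d * p ≤ y ^ s * z → insert p d ∈ F) :
    P.S M ∅ w ≤ P.S M ∅ z + 1.01 * (∑ p ∈ Pw M z \ Pw M w, gg p) * (P.X * VV M y) +
      4 * ∑ d ∈ F, 64 ^ #d * |P.cnt d - P.X * ge d| := by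
  have h1 := sv2_rem { P with D := y ^ s * z } (Pw M z \ Pw M w) y F
    (fun p hp => hw.trans (mert_sd hp).1) fun p hp =>
      hF p (Finset.mem_sdiff.1 hp).1 (mert_sd hp).1
  have h3 : ∑ p ∈ Pw M z \ Pw M w, P.S M (insert p ∅) p ≤ ∑ p ∈ Pw M z \ Pw M w,
      (1.01 * (gg p * (P.X * VV M y)) + 4 * SP.R { P with D := y ^ s * z } M (insert p ∅) y) := by
    refine sum_le_sum fun p hp => (S_anti P _ (hw.trans (mert_sd hp).1)).trans
      ((hs { P with D := y ^ s * z } (insert p ∅) y hy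
        (Adm.ins (fun _ h => absurd h (notMem_empty _)) (Finset.mem_sdiff.1 hp).1
          (hw.trans (mert_sd hp).1)) ?_).trans (le_of_eq ?_))
    · exact mul_le_mul_of_nonneg_left (by simpa only [pe, insert_empty_eq, prod_singleton] using (mert_sd hp).2.le) (by positivity)
    · simp only [SP.E, ge, insert_empty_eq, prod_singleton]
      ring
  rw [sum_add_distrib, ← mul_sum, ← mul_sum, ← sum_mul] at h3
  rw [buchstab (M := M) P ∅ hz]
  change _ ≤ ∑ d ∈ F, 64 ^ #d * |P.cnt d - P.X * ge d| at h1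
  linarith

theorem sv_main : ∃ A η : ℝ, 1 ≤ A ∧ 0 < η ∧ η ≤ 0.01 ∧ ∀ M : ℕ, 0 < M → 2 ∣ M →
    ∀ᶠ X : ℝ in atTop, ∀ P : SP, 0.1 * P.E M ∅ (X ^ (0.9 : ℝ)) -
      9 * ∑ d ∈ Mod M A η X, 64 ^ #d * |P.cnt d - P.X * ge d| ≤ P.S M ∅ (X ^ (2 + η)) := by
  obtain ⟨s, s1, hs⟩ := fl_unif
  obtain ⟨η, hη⟩ : ∃ η : ℝ, η * s = 0.0004 := ⟨0.0004 / s, by field_simp⟩
  have η0 : 0 < η := by nlinarith
  have η1 : η ≤ 0.0004 := by nlinarith only [s1, hη]
  refine ⟨0.9 * s + 2, η, by linarith only [s1], η0, by linarith, fun M hM h2 => ?_⟩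
  filter_upwards [eventually_ge_atTop 1, (tendsto_rpow_atTop (y := 50 * η)
    (by positivity)).eventually_ge_atTop 2,
    sv2_ratio hM h2 (a := 0.9) (b := 2 - η) (r := 2.23) (by norm_num) (by linarith only [η0, η1]) (by linarith only [η0]),
    sv2_ratio hM h2 (a := 2 - η) (b := 2 + η) (r := 1 + 2 * η) (by linarith only [η0, η1]) (by linarith only [η0])
      (by nlinarith only [η0, η1]),
    sv2_ratio hM h2 (a := 50 * η) (b := 0.9) (r := 46 * s) (by positivity) (by linarith only [η1])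
      (by linarith only [hη])] with X hX hy r1 r2 r3 P
  have X0 : 0 < X := by linarith only [η0, η1, hX]
  have mo : ∀ {a b : ℝ}, a ≤ b → X ^ a ≤ X ^ b := fun h => Real.rpow_le_rpow_of_exponent_le hX h
  have hz : 2 ≤ X ^ (0.9 : ℝ) := hy.trans (mo (by linarith only [η1]))
  have sub : ∀ {a b : ℝ} {p : ℕ} {d : Finset ℕ}, a ≤ 3 → b ≤ 3 → p ∈ Pw M (X ^ a) →
      d ⊆ Pw M (X ^ b) → insert p d ∈ (Pw M (X ^ (3 : ℝ))).powerset := fun ha hb hp hd =>
    mem_powerset.2 (insert_subset (Pw_mono (mo ha) hp) (hd.trans (Pw_mono (mo hb))))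
  have bd : ∀ {a b c c' : ℝ} {p : ℕ} {d : Finset ℕ}, X ^ c ≤ p → pe d * p ≤ (X ^ a) ^ s * X ^ b →
      a * s + b ≤ c' + c → pe d ≤ X ^ c' := fun {a b c c' p d} h1 h3 h4 => by
    rw [← Real.rpow_mul X0.le, ← Real.rpow_add X0] at h3
    have h5 := mo h4
    rw [Real.rpow_add X0 c'] at h5
    exact le_of_mul_le_mul_right (((mul_le_mul_of_nonneg_left h1 (prod_nonneg fun q _ =>
      q.cast_nonneg)).trans h3).trans h5) (by positivity)
  have h0 := (hs M h2 { P with D := (X ^ (0.9 : ℝ)) ^ s } ∅ _ hz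
    (fun _ h => absurd h (notMem_empty _)) (by simp [pe])).1
  have h0' : SP.R { P with D := (X ^ (0.9 : ℝ)) ^ s } M ∅ (X ^ (0.9 : ℝ)) ≤
      ∑ d ∈ Mod M (0.9 * s + 2) η X, 64 ^ #d * |P.cnt d - P.X * ge d| := by
    simp only [SP.R, union_empty]
    refine sum_le_sum_of_subset_of_nonneg (fun d hd => ?_) fun _ _ _ => by positivity
    obtain ⟨h3, h4⟩ := mem_filter.1 hd
    have h5 := mem_powerset.1 h3
    refine mem_filter.2 ⟨mem_powerset.2 (h5.trans (Pw_mono (mo (by norm_num)))),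
      Or.inl ⟨?_, fun p hp => (mem_Pw.1 (h5 hp)).1.le⟩⟩
    rw [← Real.rpow_mul X0.le, pe, pe, prod_empty, mul_one] at h4
    exact h4.trans (mo (by linarith only []))
  have h1 := sv2_step h2 (fun A e z a b c => (hs M h2 A e z a b c).2) P hz le_rfl
    (mo (by linarith only [η0, η1] : (0.9 : ℝ) ≤ 2 - η)) (Mod M (0.9 * s + 2) η X) fun p hp h3 d hd h4 h5 =>
      mem_filter.2 ⟨sub (by linarith only [η0, η1]) (by norm_num) hp hd, Or.inr (Or.inl ⟨p, mem_insert_self _ _,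
        h3, (mem_Pw.1 hp).1.le, by
          rw [erase_insert h4]
          exact ⟨bd h3 h5 (by linarith only [η0]), fun q hq => (mem_Pw.1 (hd hq)).1.le⟩⟩)⟩
  have h3 := sv2_step h2 (fun A e z a b c => (hs M h2 A e z a b c).2) P hy
    (mo (by linarith only [η0, η1] : 50 * η ≤ 2 - η)) (mo (by linarith only [η0] : 2 - η ≤ 2 + η))
    (Mod M (0.9 * s + 2) η X) fun p hp h3 d hd h4 h5 =>
      mem_filter.2 ⟨sub (by linarith only [η0, η1]) (by linarith only [η0, η1]) hp hd, Or.inr (Or.inr ⟨p, mem_insert_self _ _,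
        h3, (mem_Pw.1 hp).1.le, by
          rw [erase_insert h4]
          exact bd h3 h5 (by linarith only [hη, η1])⟩)⟩
  have g1 := sv2_log h2 (mo (by linarith only [η0, η1] : (0.9 : ℝ) ≤ 2 - η)) r1
  have g2 : ∑ p ∈ Pw M (X ^ (2 + η)) \ Pw M (X ^ (2 - η)), gg p ≤ 2 * η := by
    linarith only [sum_g_le h2 (mo (by linarith only [η0] : 2 - η ≤ 2 + η)), (div_le_iff₀ (VV_pos h2 _)).2 r2]
  have v0 := mul_nonneg P.hX (VV_pos h2 (X ^ (0.9 : ℝ))).le
  have v1 := mul_le_mul_of_nonneg_right g1 v0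
  have v2 := mul_le_mul g2 (mul_le_mul_of_nonneg_left r3 P.hX)
    (mul_nonneg P.hX (VV_pos h2 _).le) (by positivity)
  have v3 : 2 * η * (P.X * (46 * s * VV M (X ^ (0.9 : ℝ)))) =
      0.0368 * (P.X * VV M (X ^ (0.9 : ℝ))) := by
    linear_combination (92 * (P.X * VV M (X ^ (0.9 : ℝ)))) * hη
  change 0.99 * P.E M ∅ _ - _ ≤ P.S M ∅ _ at h0
  simp only [SP.E, ge, prod_empty, mul_one] at h0 ⊢
  simp only [ge] at h0' h1 h3
  linarith

end Pool.Agent.MP_48b1c3_nt.H48

end
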