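import Pool.Agent.MP_48b1c3_nt.H91.Defs

-- part MP_48b1c3_nt.H91.Lat1
section

/-! Smooth lattice sums: trivial bound, decay and Lipschitz bound of the Fourier transform. -/

namespace Pool.Agent.MP_48b1c3_nt.H91

open Finset NumberField H54 Filter
open scoped ContDiff Topology

variable {ι : Type} [Fintype ι]

theorem lat1_ec (t : ℝ) : ec t = Complex.exp (Complex.I * (2 * Real.pi * t : ℝ)) := by
  unfold ec
  congr 1
  push_cast
  ring

theorem norm_ec (t : ℝ) : ‖ec t‖ = 1 := by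
  rw [lat1_ec, mul_comm]
  exact Complex.norm_exp_ofReal_mul_I _

theorem ec_add (s t : ℝ) : ec (s + t) = ec s * ec t := by
  unfold ec
  rw [← Complex.exp_add]
  congr 1
  push_cast
  ring

theorem ec_int (m : ℤ) : ec m = 1 := by
  unfold ec
  rw [← Complex.exp_int_mul_two_pi_mul_I m]
  congr 1
  push_cast
  ring

theorem norm_ec_sub_one {t : ℝ} (ht : |t| ≤ 1 / 2) : 4 * |t| ≤ ‖ec t - 1‖ := by
  have hπ := Real.pi_pos
  have h1 : |Real.pi * t| = Real.pi * |t| := by rw [abs_mul, abs_of_pos hπ]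
  have h2 := Real.mul_abs_le_abs_sin (x := Real.pi * t) (by rw [h1]; nlinarith)
  rw [lat1_ec, Complex.norm_exp_I_mul_ofReal_sub_one, Real.norm_eq_abs, abs_mul,
    show 2 * Real.pi * t / 2 = Real.pi * t by ring, abs_two]
  rw [h1, show 2 / Real.pi * (Real.pi * |t|) = 2 * |t| by field_simp] at h2
  linarith

theorem norm_ch (θ : ι → ℝ) (a : ι → ℤ) : ‖ch θ a‖ = 1 := norm_ec _

theorem lat1_lip (s t : ℝ) : ‖ec s - ec t‖ ≤ 2 * Real.pi * |s - t| := by
  have h : ec s - ec t = ec t * (ec (s - t) - 1) := by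
    rw [mul_sub, ← ec_add, add_sub_cancel, mul_one]
  rw [h, norm_mul, norm_ec, one_mul, lat1_ec]
  refine Real.norm_exp_I_mul_ofReal_sub_one_le.trans ?_
  rw [Real.norm_eq_abs, abs_mul, abs_of_pos (by positivity : 0 < 2 * Real.pi)]

theorem lat1_neg (t : ℝ) : ‖ec (-t) - 1‖ = ‖ec t - 1‖ := by
  have h0 : ec (-t) * ec t = 1 := by
    rw [← ec_add, neg_add_cancel]
    simpa using ec_int 0
  have h : ec (-t) - 1 = ec (-t) * (1 - ec t) := by rw [mul_sub, mul_one, h0]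
  rw [h, norm_mul, norm_ec, one_mul, norm_sub_rev]

open scoped Classical in
/-- the lattice points of a large cube -/
noncomputable def lat1_box (ι : Type) [Fintype ι] (R H : ℝ) : Finset (ι → ℤ) :=
  Fintype.piFinset fun _ => Icc (-(⌊|R| * H⌋₊ : ℤ)) ⌊|R| * H⌋₊

theorem lat1_abs {R H : ℝ} {g : (ι → ℝ) → ℂ} (hg : ∀ x, R < ‖x‖ → g x = 0) (hH : 0 < H)
    {a : ι → ℤ} (ha : g (pt H a) ≠ 0) (i : ι) : |(a i : ℝ)| ≤ |R| * H := by
  have h1 : ‖pt H a‖ ≤ R := not_lt.1 fun h => ha (hg _ h)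
  have h2 := (norm_le_pi_norm (pt H a) i).trans (h1.trans (le_abs_self R))
  rwa [pt, Real.norm_eq_abs, abs_div, abs_of_pos hH, div_le_iff₀ hH] at h2

theorem lat1_mem {R H : ℝ} {g : (ι → ℝ) → ℂ} (hg : ∀ x, R < ‖x‖ → g x = 0) (hH : 0 < H)
    {a : ι → ℤ} (ha : g (pt H a) ≠ 0) : a ∈ lat1_box ι R H := by
  classical
  rw [lat1_box, Fintype.mem_piFinset]
  intro i
  have h : (a i).natAbs ≤ ⌊|R| * H⌋₊ := Nat.le_floor (by
    rw [Nat.cast_natAbs, Int.cast_abs]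
    exact lat1_abs hg hH ha i)
  rw [mem_Icc]
  omega

theorem lat1_card (R : ℝ) {H : ℝ} (hH : 1 ≤ H) :
    (#(lat1_box ι R H) : ℝ) ≤ (2 * |R| + 1) ^ Fintype.card ι * H ^ Fintype.card ι := by
  classical
  have h1 : (⌊|R| * H⌋₊ : ℝ) ≤ |R| * H := Nat.floor_le (by positivity)
  have h2 : #(Icc (-(⌊|R| * H⌋₊ : ℤ)) ⌊|R| * H⌋₊) = 2 * ⌊|R| * H⌋₊ + 1 := by
    rw [Int.card_Icc]
    omega
  rw [lat1_box, Fintype.card_piFinset, prod_const, card_univ, h2, ← mul_pow]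
  push_cast
  gcongr
  nlinarith

theorem fin_supp {R H : ℝ} {g : (ι → ℝ) → ℂ} (hg : ∀ x, R < ‖x‖ → g x = 0) (hH : 0 < H) :
    {a : ι → ℤ | g (pt H a) ≠ 0}.Finite :=
  (lat1_box ι R H).finite_toSet.subset fun _ ha => lat1_mem hg hH ha

theorem ls_summable {R H : ℝ} {g : (ι → ℝ) → ℂ} (hg : ∀ x, R < ‖x‖ → g x = 0) (hH : 0 < H)
    (η : (ι → ℤ) → ℂ) : Summable fun a => η a * g (pt H a) :=
  summable_of_ne_finset_zero (s := lat1_box ι R H) fun a ha => by
    rw [not_not.1 fun h => ha (lat1_mem hg hH h), mul_zero]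

theorem lat1_bound {R B H M : ℝ} {k : ℕ} {g : (ι → ℝ) → ℂ} {η : (ι → ℤ) → ℂ} (hg : Nice R k B g)
    (hH : 1 ≤ H) (hM : 0 ≤ M) (hη : ∀ a, g (pt H a) ≠ 0 → ‖η a‖ ≤ M) :
    ‖ls η g H‖ ≤ (2 * |R| + 1) ^ Fintype.card ι * H ^ Fintype.card ι * (M * B) := by
  have hH0 : 0 < H := by linarith
  have hB : ∀ x, ‖g x‖ ≤ B := fun x => by simpa using hg.bd 0 (Nat.zero_le k) x
  have hB0 : 0 ≤ B := (norm_nonneg _).trans (hB 0)
  rw [ls, tsum_eq_sum (s := lat1_box ι R H) fun a ha => by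
    rw [not_not.1 fun h => ha (lat1_mem hg.supp hH0 h), mul_zero]]
  refine (norm_sum_le _ _).trans ((sum_le_card_nsmul _ _ (M * B) fun a _ => ?_).trans ?_)
  · by_cases h : g (pt H a) = 0
    · rw [h, mul_zero, norm_zero]
      positivity
    · rw [norm_mul]
      exact mul_le_mul (hη a h) (hB _) (norm_nonneg _) hM
  · rw [nsmul_eq_mul]
    exact mul_le_mul_of_nonneg_right (lat1_card R hH) (by positivity)

theorem ls_triv (ι : Type) [Fintype ι] (R : ℝ) : ∃ C : ℝ, 0 < C ∧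
    ∀ (k : ℕ) (B H : ℝ) (g : (ι → ℝ) → ℂ) (η : (ι → ℤ) → ℂ), Nice R k B g → 1 ≤ H →
      (∀ a, ‖η a‖ ≤ 1) → ‖ls η g H‖ ≤ C * B * H ^ Fintype.card ι :=
  ⟨(2 * |R| + 1) ^ Fintype.card ι, by positivity, fun k B H g η hg hH hη =>
    (lat1_bound hg hH zero_le_one fun a _ => hη a).trans_eq (by ring)⟩

theorem lat1_nice {R B H : ℝ} {k : ℕ} {g : (ι → ℝ) → ℂ} (hg : Nice R (k + 1) B g) (hH : 1 ≤ H)
    {v : ι → ℝ} (hv : ‖v‖ ≤ 1 / H) : Nice (|R| + 1) k B fun x => H • (g (x + v) - g x) := by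
  have hH0 : 0 < H := by linarith
  have hv1 : ‖v‖ ≤ 1 := hv.trans ((div_le_one hH0).2 hH)
  have hs : ContDiff ℝ ∞ fun x => g (x + v) := hg.smooth.comp (contDiff_id.add contDiff_const)
  refine ⟨(hs.sub hg.smooth).const_smul H, fun x hx => ?_, fun j hj x => ?_⟩
  · have h1 := le_abs_self R
    have h2 : ‖x‖ ≤ ‖x + v‖ + ‖v‖ := by simpa using norm_sub_le (x + v) v
    rw [hg.supp x (by linarith), hg.supp (x + v) (by linarith), sub_zero, smul_zero]
  · have hj' : (j : WithTop ℕ∞) ≤ ∞ := by exact_mod_cast le_top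
    have e1 := iteratedFDeriv_const_smul_apply' (a := H) (x := x)
      ((hs.sub hg.smooth).of_le hj').contDiffAt
    have e2 := fun_iteratedFDeriv_sub_apply (x := x) (hs.of_le hj').contDiffAt
      (hg.smooth.of_le hj').contDiffAt
    rw [e1, e2, iteratedFDeriv_comp_add_right, norm_smul, Real.norm_eq_abs, abs_of_pos hH0]
    have hd : Differentiable ℝ (iteratedFDeriv ℝ j g) :=
      hg.smooth.differentiable_iteratedFDeriv (by exact_mod_cast ENat.natCast_lt_top j)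
    have h3 := convex_univ.norm_image_sub_le_of_norm_fderiv_le (𝕜 := ℝ) (C := B)
      (fun y _ => hd y) (fun y _ => by
        rw [norm_fderiv_iteratedFDeriv]
        exact hg.bd (j + 1) (by omega) y) (Set.mem_univ x) (Set.mem_univ (x + v))
    have hB0 : 0 ≤ B := (norm_nonneg _).trans (hg.bd 0 (Nat.zero_le _) 0)
    rw [add_sub_cancel_left] at h3
    calc H * _ ≤ H * (B * (1 / H)) := by gcongr; exact h3.trans (by gcongr)
      _ = B := by field_simp

theorem lat1_shift [DecidableEq ι] {R H : ℝ} {g : (ι → ℝ) → ℂ} (hg : ∀ x, R < ‖x‖ → g x = 0)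
    (hH : 0 < H) (θ : ι → ℝ) (i : ι) :
    ls (ch θ) (fun x => H • (g (x + Pi.single i (1 / H)) - g x)) H =
      H * (ec (-θ i) - 1) * ls (ch θ) g H := by
  have h1 : ∀ a : ι → ℤ, pt H a + Pi.single i (1 / H) = pt H (a + Pi.single i 1) := fun a => by
    funext j
    by_cases h : j = i
    · subst h
      simp [pt, add_div]
    · simp [pt, h]
  have h2 : ∀ a : ι → ℤ, ch θ a = ec (-θ i) * ch θ (a + Pi.single i 1) := fun a => by
    rw [ch, ch, ← ec_add]
    congr 1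
    have h3 : ∑ j, θ j * ((Pi.single i 1 : ι → ℤ) j : ℝ) = θ i := by
      rw [sum_eq_single i (fun j _ h => by simp [h]) (by simp)]
      simp
    simp only [Pi.add_apply, Int.cast_add, mul_add, sum_add_distrib]
    rw [h3]
    ring
  have s1 := ls_summable hg hH (ch θ)
  have s2 := (Equiv.addRight (Pi.single i 1 : ι → ℤ)).summable_iff.2 s1
  have e2 := (Equiv.addRight (Pi.single i 1 : ι → ℤ)).tsum_eq fun a => ch θ a * g (pt H a)
  simp only [Equiv.coe_addRight, Function.comp_def] at s2 e2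
  unfold ls
  rw [mul_assoc, sub_mul, one_mul]
  nth_rewrite 1 [← e2]
  rw [← tsum_mul_left, ← (s2.mul_left _).tsum_sub s1, ← tsum_mul_left]
  refine tsum_congr fun a => ?_
  beta_reduce
  rw [h1, ← mul_assoc (ec _), ← h2, Complex.real_smul]
  ring

theorem ls_decay (ι : Type) [Fintype ι] (R : ℝ) (k : ℕ) : ∃ C : ℝ, 0 < C ∧
    ∀ (B H : ℝ) (g : (ι → ℝ) → ℂ) (θ : ι → ℝ) (i : ι), Nice R k B g → 1 ≤ H →
      ‖ls (ch θ) g H‖ * (H * ‖ec (θ i) - 1‖) ^ k ≤ C * B * H ^ Fintype.card ι := by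
  classical
  induction k generalizing R with
  | zero =>
    obtain ⟨C, hC, h⟩ := ls_triv ι R
    exact ⟨C, hC, fun B H g θ i hg hH => by
      simpa using h 0 B H g (ch θ) hg hH fun a => (norm_ch θ a).le⟩
  | succ k ih =>
    obtain ⟨C, hC, h⟩ := ih (|R| + 1)
    refine ⟨C, hC, fun B H g θ i hg hH => ?_⟩
    have hH0 : 0 < H := by linarith
    have h1 := h B H _ θ i (lat1_nice hg hH (v := Pi.single i (1 / H)) (by
      rw [Pi.norm_single, Real.norm_eq_abs, abs_of_pos (by positivity)])) hH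
    rw [lat1_shift hg.supp hH0, norm_mul, norm_mul, lat1_neg, Complex.norm_real,
      Real.norm_eq_abs, abs_of_pos hH0] at h1
    exact le_of_eq_of_le (by ring) h1

theorem ls_lip (ι : Type) [Fintype ι] (R : ℝ) : ∃ C : ℝ, 0 < C ∧
    ∀ (k : ℕ) (B H : ℝ) (g : (ι → ℝ) → ℂ) (θ θ' : ι → ℝ), Nice R k B g → 1 ≤ H →
      ‖ls (ch θ) g H - ls (ch θ') g H‖ ≤ C * B * H ^ (Fintype.card ι + 1) * ‖θ - θ'‖ := by
  have hπ := Real.pi_pos
  refine ⟨(2 * |R| + 1) ^ Fintype.card ι * (2 * Real.pi * (Fintype.card ι * |R| + 1)),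
    by positivity, fun k B H g θ θ' hg hH => ?_⟩
  have hH0 : 0 < H := by linarith
  have e : ls (ch θ) g H - ls (ch θ') g H = ls (fun a => ch θ a - ch θ' a) g H := by
    unfold ls
    rw [← (ls_summable hg.supp hH0 _).tsum_sub (ls_summable hg.supp hH0 _)]
    exact tsum_congr fun a => by ring
  rw [e]
  refine (lat1_bound hg hH (M := 2 * Real.pi * ((Fintype.card ι * |R| + 1) * H * ‖θ - θ'‖))
    (by positivity) fun a ha => ?_).trans_eq (by ring)
  refine (lat1_lip _ _).trans (mul_le_mul_of_nonneg_left ?_ (by positivity))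
  rw [← sum_sub_distrib]
  refine (abs_sum_le_sum_abs _ _).trans
    ((sum_le_card_nsmul _ _ (‖θ - θ'‖ * (|R| * H)) fun i _ => ?_).trans ?_)
  · rw [← sub_mul, abs_mul]
    exact mul_le_mul (norm_le_pi_norm (θ - θ') i) (lat1_abs hg.supp hH0 ha i) (abs_nonneg _)
      (norm_nonneg _)
  · rw [nsmul_eq_mul, card_univ]
    have : 0 ≤ H * ‖θ - θ'‖ := by positivity
    nlinarith

end Pool.Agent.MP_48b1c3_nt.H91

end

-- part MP_48b1c3_nt.H91.Dec
section

/-! Sums over ideals as lattice sums. -/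

namespace Pool.Agent.MP_48b1c3_nt.H91

open Finset NumberField H54 Filter
open scoped ContDiff Topology

variable {K : Type} [Field K] [NumberField K]

theorem lift_eq (f : Ideal (𝓞 K) → ℂ) {a b : Ideal (𝓞 K)} {α : 𝓞 K} (hα : α ≠ 0)
    (h : a * b = Ideal.span {α}) : lift f b α = f a := by
  have h' : α ≠ 0 ∧ ∃ a, a * b = Ideal.span {α} := ⟨hα, a, h⟩
  have hb : b ≠ 0 := by
    rintro rfl
    exact hα (Ideal.span_singleton_eq_bot.1 (by rw [← h, mul_zero]; rfl))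
  rw [lift, dif_pos h', mul_right_cancel₀ hb (h'.2.choose_spec.trans h.symm)]

omit [NumberField K] in
theorem dec_mem {a b : Ideal (𝓞 K)} {α : 𝓞 K} (h : a * b = Ideal.span {α}) : α ∈ b :=
  Ideal.mul_le_right (I := a) (h ▸ Ideal.mem_span_singleton_self α)

theorem dec_ex {b : Ideal (𝓞 K)} {α : 𝓞 K} (h : α ∈ b) : ∃ a, a * b = Ideal.span {α} := by
  obtain ⟨a, ha⟩ := Ideal.dvd_iff_le.2 ((Ideal.span_singleton_le_iff_mem b).2 h)
  exact ⟨a, by rw [ha, mul_comm]⟩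

theorem lift_cases (b : Ideal (𝓞 K)) (α : 𝓞 K) : (∀ f, lift f b α = 0) ∧ (α = 0 ∨ α ∉ b) ∨
    α ≠ 0 ∧ α ∈ b ∧ ∃ a, a * b = Ideal.span {α} ∧ ∀ f, lift f b α = f a := by
  by_cases h : α ≠ 0 ∧ ∃ a, a * b = Ideal.span {α}
  · obtain ⟨h0, a, ha⟩ := h
    exact Or.inr ⟨h0, dec_mem ha, a, ha, fun f => lift_eq f h0 ha⟩
  · refine Or.inl ⟨fun f => dif_neg h, ?_⟩
    by_contra h'
    rw [not_or, not_not] at h'
    exact h ⟨h'.1, dec_ex h'.2⟩

theorem dec_norm_pos (c : ClassGroup (𝓞 K)) : 0 < Ideal.absNorm (rep c) :=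
  Nat.pos_of_ne_zero fun h => rep_ne_bot c (Ideal.absNorm_eq_zero_iff.1 h)

theorem one_le_Hc {y : ℝ} (hy : 1 ≤ y) (c : ClassGroup (𝓞 K)) : 1 ≤ Hc y c :=
  Real.one_le_rpow (one_le_mul_of_one_le_of_one_le hy (by exact_mod_cast dec_norm_pos c))
    (by positivity)

theorem Hc_pow {y : ℝ} (hy : 0 ≤ y) (c : ClassGroup (𝓞 K)) :
    Hc y c ^ dg K = y * Ideal.absNorm (rep c) := by
  rw [Hc, one_div]
  exact Real.rpow_inv_natCast_pow (by positivity) (dg_pos K).ne'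

theorem dec_hs {ι : Type} {f g : ι → ℂ} {a b : ℂ} (h : HasSum f a) (e : ∀ i, g i = f i)
    (e' : b = a) : HasSum g b := by
  rwa [e', funext e]

/-- the total weight of an integer -/
noncomputable def decW (G : Geo K) (v : ℝ → ℂ) (H : ℝ) (α : 𝓞 K) : ℂ :=
  ∑ s, G.g v s (pt H ((el K).symm α))

theorem dec_fib (G : Geo K) {v : ℝ → ℂ} (hv : Test v) {H : ℝ} (hH : 0 < H) {α : 𝓞 K}
    (h0 : α ≠ 0) {S : Set (𝓞 K)} (hS : ∀ x, x ∈ S ↔ Ideal.span {α} = Ideal.span {x}) :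
    ∑' x : S, decW G v H x = v (Real.log (|(nm α : ℝ)| / H ^ dg K)) := by
  have hm : ∀ u : (𝓞 K)ˣ, (u * α : 𝓞 K) ∈ S := fun u =>
    (hS _).2 (Ideal.span_singleton_mul_left_unit u.isUnit α).symm
  have hb : Function.Bijective fun u : (𝓞 K)ˣ => (⟨u * α, hm u⟩ : S) := by
    refine ⟨fun u w h => Units.ext (mul_right_cancel₀ h0 (congrArg Subtype.val h)), fun x => ?_⟩
    obtain ⟨u, hu⟩ := Ideal.span_singleton_eq_span_singleton.1 ((hS _).1 x.2)
    exact ⟨u, Subtype.ext (by rw [← hu, mul_comm])⟩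
  rw [← (Equiv.ofBijective _ hb).tsum_eq]
  exact (G.orbit v hv H hH α h0).tsum_eq

theorem dec_supp (G : Geo K) (v : ℝ → ℂ) (s : Bool) (x : Ix K → ℝ) (h : G.R < ‖x‖) :
    G.g v s x = 0 := by
  simp [Geo.g, G.supp s x h]

open scoped Classical in
theorem dec_cls (G : Geo K) (f : Ideal (𝓞 K) → ℂ) {v : ℝ → ℂ} (hv : Test v) {y : ℝ}
    (hy : 0 < y) (c : ClassGroup (𝓞 K)) :
    HasSum (fun a : Ideal (𝓞 K) => if a ≠ ⊥ ∧ ∃ α, a * rep c = Ideal.span {α} then
      f a * v (Real.log (Ideal.absNorm a / y)) else 0)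
      (∑ s, ls (fun a => lift f (rep c) (el K a)) (G.g v s) (Hc y c)) := by
  have hN : (0 : ℝ) < Ideal.absNorm (rep c) := by exact_mod_cast dec_norm_pos c
  have hH : 0 < Hc y c := Real.rpow_pos_of_pos (by positivity) _
  have h1 : HasSum (fun α => lift f (rep c) α * decW G v (Hc y c) α)
      (∑ s, ls (fun a => lift f (rep c) (el K a)) (G.g v s) (Hc y c)) := by
    rw [← (el K).toEquiv.hasSum_iff]
    refine dec_hs (hasSum_sum fun s (_ : s ∈ univ) => (ls_summable (dec_supp G v s) hH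
      fun a => lift f (rep c) (el K a)).hasSum) (fun a => ?_) rfl
    simp [decW, mul_add]
  refine dec_hs (h1.tsum_fiberwise fun α => if h : α ≠ 0 ∧ ∃ a, a * rep c = Ideal.span {α} then
    h.2.choose else ⊥) (fun a => ?_) rfl
  have hne : ∀ {a : Ideal (𝓞 K)} {α : 𝓞 K}, a * rep c = Ideal.span {α} → (a ≠ ⊥ ↔ α ≠ 0) :=
    fun {a α} h => by
      rw [Ne, Ne, ← Ideal.span_singleton_eq_bot, ← h, Ideal.mul_eq_bot, or_iff_left (rep_ne_bot c)]
  split_ifs with h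
  · obtain ⟨ha, α, hα⟩ := h
    have hS : ∀ x, x ∈ (fun α => if h : α ≠ 0 ∧ ∃ a, a * rep c = Ideal.span {α} then
        h.2.choose else ⊥) ⁻¹' {a} ↔ Ideal.span {α} = Ideal.span {x} := fun x => by
      rw [Set.mem_preimage, Set.mem_singleton_iff, ← hα]
      split_ifs with h
      · exact ⟨fun e => e ▸ h.2.choose_spec, fun e =>
          mul_right_cancel₀ (rep_ne_bot c) (h.2.choose_spec.trans e.symm)⟩
      · exact ⟨fun e => absurd e.symm ha, fun e => absurd ⟨(hne e).1 ha, a, e⟩ h⟩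
    have e : |(nm α : ℝ)| / Hc y c ^ dg K = Ideal.absNorm a / y := by
      rw [Hc_pow hy.le, ← Int.cast_abs, ← Nat.cast_natAbs, ← Ideal.absNorm_span_singleton, ← hα,
        map_mul]
      push_cast
      field_simp
    rw [← e, ← dec_fib G hv hH ((hne hα).1 ha) hS, ← tsum_mul_left]
    refine tsum_congr fun x => ?_
    have := hα.trans ((hS _).1 x.2)
    rw [lift_eq f ((hne this).1 ha) this]
  · refine (tsum_zero.symm.trans (tsum_congr fun x => ?_))
    have hx := x.2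
    rw [Set.mem_preimage, Set.mem_singleton_iff] at hx
    split_ifs at hx with h'
    · have := hx ▸ h'.2.choose_spec
      exact absurd ⟨(hne this).2 h'.1, _, this⟩ h
    · rw [lift, dif_neg h', zero_mul]

theorem Geo.decomp (G : Geo K) (f : Ideal (𝓞 K) → ℂ) {v : ℝ → ℂ} (hv : Test v) {y : ℝ}
    (hy : 0 < y) : sm (push f) v y =
      ∑ c, ∑ s, ls (fun a => lift f (rep c) (el K a)) (G.g v s) (Hc y c) := by
  classical
  refine HasSum.unique ?_ (hasSum_sum fun c (_ : c ∈ univ) => dec_cls G f hv hy c)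
  have hk : ∀ a : Ideal (𝓞 K), a ≠ ⊥ → (∑ c : ClassGroup (𝓞 K),
      if a ≠ ⊥ ∧ ∃ α, a * rep c = Ideal.span {α} then f a * v (Real.log (Ideal.absNorm a / y))
        else 0) = f a * v (Real.log (Ideal.absNorm a / y)) := fun a ha => by
    have key : ∀ c : ClassGroup (𝓞 K), (a ≠ ⊥ ∧ ∃ α, a * rep c = Ideal.span {α}) ↔
        c = (ClassGroup.mk0 ⟨a, mem_nonZeroDivisors_iff_ne_zero.2 ha⟩)⁻¹ := fun c => by
      rw [eq_comm, inv_eq_iff_eq_inv, and_iff_right ha]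
      conv_rhs => rw [← mk0_rep c, ClassGroup.mk0_eq_mk0_inv_iff]
      refine exists_congr fun α => ⟨fun h => ⟨fun h0 => ?_, h⟩, fun h => h.2⟩
      rw [h0, Ideal.span_singleton_eq_bot.2 rfl, Ideal.mul_eq_bot] at h
      exact h.elim ha (rep_ne_bot c)
    simp only [key, sum_ite_eq', mem_univ, if_true]
  have hd : Set.PairwiseDisjoint (Icc 1 ⌊y⌋₊ : Finset ℕ) (idN K) := fun m _ m' _ h =>
    disjoint_left.2 fun I h1 h2 => h (((mem_idN K).1 h1).symm.trans ((mem_idN K).1 h2))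
  refine dec_hs (hasSum_sum_of_ne_finset_zero (s := (Icc 1 ⌊y⌋₊).biUnion (idN K)) fun a ha => ?_)
    (fun _ => rfl) ?_
  swap
  · rw [sum_biUnion hd]
    refine sum_congr rfl fun m hm => ?_
    have hm0 : m ≠ 0 := Nat.one_le_iff_ne_zero.1 (mem_Icc.1 hm).1
    rw [push_apply f hm0, sum_mul]
    refine sum_congr rfl fun I hI => ?_
    rw [mem_idN] at hI
    rw [hk I fun h => hm0 (by rw [← hI, h, Ideal.absNorm_bot]), hI]
  · by_cases h0 : a = ⊥
    · simp [h0]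
    have h1 : ⌊y⌋₊ < Ideal.absNorm a := by
      by_contra h
      exact ha (mem_biUnion.2 ⟨_, mem_Icc.2 ⟨Nat.pos_of_ne_zero fun h =>
        h0 (Ideal.absNorm_eq_zero_iff.1 h), not_lt.1 h⟩, (mem_idN K).2 rfl⟩)
    rw [hk a h0, hv.2 _ fun h => (Real.log_pos ((one_lt_div hy).2
      ((Nat.floor_lt hy.le).1 h1))).not_ge h.2, mul_zero]

theorem Geo.ls_congr (G : Geo K) (v : ℝ → ℂ) (s : Bool) {H : ℝ} (hH : 0 < H)
    {η η' : (Ix K → ℤ) → ℂ} (h : ∀ a, 0 < sg s * nm (el K a) → η a = η' a) :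
    ls η (G.g v s) H = ls η' (G.g v s) H := by
  refine tsum_congr fun a => ?_
  by_cases h0 : G.Φ s (pt H a) = 0
  · simp [Geo.g, h0]
  · rw [h a (G.sgn s a H hH h0)]

theorem exists_per {q : ℕ} {f : Ideal (𝓞 K) → ℂ} (h : PF q f) (c : ClassGroup (𝓞 K))
    (s : Bool) : ∃ η : (Ix K → ℤ) → ℂ, Pd (q * BB K) η ∧
      ∀ a, 0 < sg s * nm (el K a) → η a = lift f (rep c) (el K a) := by
  classical
  set N : 𝓞 K := ((q * Ideal.absNorm (rep c) : ℕ) : 𝓞 K) with hN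
  let P : 𝓞 K → 𝓞 K → Prop := fun x α => N ∣ α - x ∧ 0 < sg s * nm α
  let E : (𝓞 K → Prop) → ℂ := fun p => if h : ∃ α, p α then lift f (rep c) h.choose else 0
  refine ⟨fun a => E (P (el K a)), ⟨fun a b => congrArg E (funext fun α => propext ?_),
    fun a => ?_⟩, fun a ha => ?_⟩
  · have : N ∣ el K (((q * BB K : ℕ) : ℤ) • b) := by
      rw [map_zsmul, zsmul_eq_mul, Int.cast_natCast]
      exact (Nat.cast_dvd_cast (mul_dvd_mul_left q (rep_dvd_BB c))).mul_right _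
    simp only [P, map_add, ← sub_sub]
    exact and_congr_left' (dvd_sub_left this)
  · simp only [E]
    split_ifs with h'
    · rcases lift_cases (rep c) h'.choose with h1 | ⟨-, -, I, -, h1⟩
      · simp [h1.1]
      · exact h1 f ▸ h.le I
    · simp
  · have h' : ∃ α, P (el K a) α := ⟨_, by simp, ha⟩
    simp only [E, dif_pos h']
    obtain ⟨h1, h2⟩ := h'.choose_spec
    generalize h'.choose = α at h1 h2
    generalize el K a = β at h1 ha
    have hm : α - β ∈ rep c := by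
      obtain ⟨t, ht⟩ := h1
      rw [ht, hN, Nat.cast_mul, mul_right_comm]
      exact Ideal.mul_mem_left _ _ (Ideal.absNorm_mem _)
    have hz : ∀ {x : 𝓞 K}, 0 < sg s * nm x → x ≠ 0 := fun hx h0 => by simp [h0] at hx
    rcases lift_cases (rep c) α with ⟨e1, m1⟩ | ⟨-, m1, I, hI, e1⟩ <;>
      rcases lift_cases (rep c) β with ⟨e2, m2⟩ | ⟨-, m2, J, hJ, e2⟩
    · rw [e1, e2]
    · exact absurd (by simpa using add_mem hm m2) (m1.resolve_left (hz h2))
    · exact absurd (by simpa using sub_mem m1 hm) (m2.resolve_left (hz ha))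
    · rw [e1, e2]
      refine h.per I J _ α β hI hJ h1 ?_
      have := mul_pos h2 ha
      cases s <;> simpa [sg] using this

theorem Geo.balanced (G : Geo K) : ∃ C : ℝ, 0 < C ∧ ∀ α : 𝓞 K, α ≠ 0 → ∃ u : (𝓞 K)ˣ, ∀ i,
    |((el K).symm (u * α) i : ℝ)| ≤ C * |(nm α : ℝ)| ^ (1 / (dg K : ℝ)) := by
  refine ⟨(|G.R| + 1) * Real.exp 2 ^ (1 / (dg K : ℝ)), by positivity, fun α hα => ?_⟩
  have hn : 0 < |(nm α : ℝ)| := abs_pos.2 (Int.cast_ne_zero.2 (Algebra.norm_ne_zero_iff.2 hα))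
  set H : ℝ := (Real.exp 2 * |(nm α : ℝ)|) ^ (1 / (dg K : ℝ)) with hHd
  have hH : 0 < H := by positivity
  have hp : H ^ dg K = Real.exp 2 * |(nm α : ℝ)| := by
    rw [hHd, one_div]
    exact Real.rpow_inv_natCast_pow (by positivity) (dg_pos K).ne'
  have ho := G.orbit bmp test_bmp H hH α hα
  have e : Real.log (|(nm α : ℝ)| / H ^ dg K) = -2 := by
    rw [hp, mul_comm, div_mul_cancel_left₀ hn.ne', Real.log_inv, Real.log_exp]
  rw [e, bmp, bump_eq_one (by norm_num) (by norm_num)] at ho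
  by_contra hc
  push Not at hc
  refine one_ne_zero (ho.unique ?_)
  convert hasSum_zero with u
  obtain ⟨i, hi⟩ := hc u
  rw [mul_assoc, ← Real.mul_rpow (by positivity) hn.le, ← hHd] at hi
  have : G.R < ‖pt H ((el K).symm (u * α))‖ := by
    refine lt_of_lt_of_le ?_ (norm_le_pi_norm _ i)
    rw [pt, Real.norm_eq_abs, abs_div, abs_of_pos hH, lt_div_iff₀ hH]
    exact lt_of_le_of_lt (mul_le_mul_of_nonneg_right (by linarith [le_abs_self G.R]) hH.le) hi
  simp [G.supp _ _ this]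

end Pool.Agent.MP_48b1c3_nt.H91

end
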