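import Pool.Agent.MP_48b1c3_nt.H91.Defs
import Pool.Agent.MP_48b1c3_nt.H54.Siegel

attribute [-instance] IsOrderedCancelAddMonoid.toIsCancelAdd RKHS.instFunLike
  AddQuantale.instAddLeftMono Group.IsPerfect.subsingleton_of_isMulCommutative littleWedderburn
  IdemSemiring.toCanonicallyOrderedAdd LieAdmissibleAlgebra.toModule LeftPreLieAlgebra.toModule
  RightPreLieAlgebra.toModule TotallySeparatedSpace.t2Space covariant_swap_mul_of_covariant_mul
  NonUnitalAlgHomClass.instLinearMapClass NonUnitalAlgHomClass.toNonUnitalRingHomClass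
  IsTopologicalTorsor.toContinuousSMul ContinuousSemilinearMapClass.toSemilinearMapClass
  TopologicalSpace.NoetherianSpace.compactSpace NonarchimedeanAddGroup.toIsTopologicalAddGroup
  instCoeTCOfCoe MonTypeEquivalenceMon.monMonoid SemilinearIsometryClass.toSemilinearMapClass
  IsPurelyInseparable.isIntegral TestFunctionClass.toDFunLike Valued.toUniformSpace
  CoalgHomClass.toSemilinearMapClass ContDiffMapSupportedInClass.toDFunLike
  instDecidableDvdOfFintypeOfDecidableEq AddQuantale.instAddRightMono instCoeTOfCoeDep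
  DenselyNormedField.toNormedField ProperSMul.toContinuousSMul
  AlexandrovDiscrete.toLocallyCompactSpace CommMonTypeEquivalenceCommMon.commMonCommMonoid
  Subsingleton.to_isAddTorsionFree IdemSemiring.toMulLeftMono BialgHomClass.toAlgHomClass
  CategoryTheory.CountableCategory.countableObj IsOrderedMonoid.toMulLeftMono
  LinearOrderedAddCommMonoidWithTop.toAddCommMonoid instCoeHTCTOfCoeTailOfCoeHTC
  NonUnitalNonAssocSemiring.toDistrib IsAffineAddMonoid.toIsCancelAdd Module.complexToReal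
  NumberField.Units.instCoeHTCUnitsRingOfIntegers instNontrivialOfCharZero
  IsArtinianRing.instDecompositionMonoid BialgHomClass.toMonoidHomClass instCoeOutOfCoeFun
  NormedDivisionRing.toDivisionRing
  ContinuousMonoidHom.instCoeOutOfMonoidHomClassOfContinuousMapClass
  NonUnitalNonAssocSemiring.toMulZeroClass CStarAlgebra.instOrderClosedTopology
  Quantale.instMulRightMono Algebra.WeaklyEtale.flat

-- part MP_48b1c3_nt.H91.Arith
section

/-! Arithmetic of functions on ideals. -/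

namespace Pool.Agent.MP_48b1c3_nt.H91

open Finset NumberField H54 Filter
open scoped ContDiff Topology

variable {K : Type} [Field K] [NumberField K]

theorem arith_divisor_bound (s : ℕ) : ∃ C : ℕ, 1 ≤ C ∧ ∀ n : ℕ, n ≠ 0 → #n.divisors ^ s ≤ C * n := by
  refine ⟨(s.factorial * 2 ^ s) ^ 2 ^ s, Nat.one_le_iff_ne_zero.2 (by positivity), fun n hn => ?_⟩
  have h1 : ∀ p ∈ n.primeFactors, (n.factorization p + 1) ^ s ≤
      (if p < 2 ^ s then s.factorial * 2 ^ s else 1) * p ^ n.factorization p := by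
    intro p hp
    have hp2 := (Nat.prime_of_mem_primeFactors hp).two_le
    generalize n.factorization p = a
    split_ifs with h
    · calc (a + 1) ^ s ≤ (a + 1).ascFactorial s := Nat.pow_succ_le_ascFactorial _ _
        _ = s.factorial * (a + s).choose s := Nat.ascFactorial_eq_factorial_mul_choose _ _
        _ ≤ s.factorial * 2 ^ (a + s) := Nat.mul_le_mul_left _ (Nat.choose_le_two_pow _ _)
        _ = s.factorial * 2 ^ s * 2 ^ a := by ring
        _ ≤ _ := Nat.mul_le_mul_left _ (Nat.pow_le_pow_left hp2 _)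
    · calc (a + 1) ^ s ≤ (2 ^ a) ^ s := Nat.pow_le_pow_left Nat.lt_two_pow_self _
        _ = (2 ^ s) ^ a := by rw [← pow_mul, ← pow_mul, mul_comm]
        _ ≤ _ := by rw [one_mul]; exact Nat.pow_le_pow_left (not_lt.1 h) _
  have h2 : ∏ p ∈ n.primeFactors, p ^ n.factorization p = n :=
    Nat.prod_factorization_pow_eq_self hn
  rw [Nat.card_divisors hn, ← prod_pow]
  refine (prod_le_prod' h1).trans ?_
  rw [prod_mul_distrib, h2]
  refine Nat.mul_le_mul_right _ ?_
  rw [prod_ite, prod_const, prod_const_one, mul_one]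
  refine Nat.pow_le_pow_right (by positivity) ?_
  calc _ ≤ #(range (2 ^ s)) := card_le_card fun p hp => mem_range.2 (mem_filter.1 hp).2
    _ = _ := card_range _

theorem arith_ideal_divisors (K : Type) [Field K] [NumberField K] {n : ℕ} (hn : n ≠ 0) :
    ∃ T : Finset (Ideal (𝓞 K)), #T ≤ #n.divisors ^ Module.finrank ℚ K ∧
      ∀ I, I ∣ Ideal.span {(n : 𝓞 K)} → I ∈ T := by
  classical
  have mul : ∀ (T T' : Finset (Ideal (𝓞 K))) (J J' : Ideal (𝓞 K)), (∀ I, I ∣ J → I ∈ T) →
      (∀ I, I ∣ J' → I ∈ T') → ∀ I, I ∣ J * J' → I ∈ image₂ (· * ·) T T' := fun T T' J J' h h' I hI => by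
    obtain ⟨A, B, hA, hB, rfl⟩ := exists_dvd_and_dvd_of_dvd_mul hI
    exact mem_image₂_of_mem (h A hA) (h' B hB)
  have pw : ∀ (a : ℕ) (s : Multiset (Ideal (𝓞 K))), (∀ P ∈ s, Prime P) →
      ∃ T : Finset (Ideal (𝓞 K)), #T ≤ (a + 1) ^ s.card ∧ ∀ I, I ∣ s.prod ^ a → I ∈ T := fun a s => by
    induction s using Multiset.induction_on with
    | empty => exact fun _ => ⟨{1}, by simp, fun I hI => by
        rw [Multiset.prod_zero, one_pow] at hI
        simpa using Ideal.isUnit_iff.1 (isUnit_of_dvd_one hI)⟩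
    | cons P s ih =>
      intro h
      obtain ⟨T, h1, h2⟩ := ih fun Q hQ => h Q (Multiset.mem_cons_of_mem hQ)
      refine ⟨_, ?_, fun I hI => mul ((range (a + 1)).image (P ^ ·)) T (P ^ a) _ (fun I hI => ?_) h2 I
        (by rwa [Multiset.prod_cons, mul_pow] at hI)⟩
      · rw [Multiset.card_cons, pow_succ']
        exact (card_image₂_le _ _ _).trans (Nat.mul_le_mul (card_image_le.trans (card_range _).le) h1)
      · obtain ⟨i, hi, h3⟩ := (dvd_prime_pow (h P (Multiset.mem_cons_self _ _)) a).1 hI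
        exact mem_image.2 ⟨i, mem_range.2 (by omega), (associated_iff_eq.1 h3).symm⟩
  induction n using Nat.recOnPrimeCoprime with
  | zero => exact absurd rfl hn
  | prime_pow p a hp =>
    have h0 : Ideal.span {(p : 𝓞 K)} ≠ 0 := by simpa only [Submodule.zero_eq_bot, ne_eq, Submodule.span_eq_bot, Set.mem_singleton_iff, forall_eq, Nat.cast_eq_zero] using hp.ne_zero
    obtain ⟨s, h1, h2⟩ := UniqueFactorizationMonoid.exists_prime_factors _ h0
    rw [associated_iff_eq] at h2
    obtain ⟨T, h3, h4⟩ := pw a s h1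
    refine ⟨T, h3.trans ?_, fun I hI => h4 I (by rwa [h2, Ideal.span_singleton_pow, ← Nat.cast_pow])⟩
    rw [Nat.divisors_prime_pow hp, card_map, card_range]
    refine Nat.pow_le_pow_right a.succ_pos ((Nat.pow_le_pow_iff_right hp.one_lt).1 ?_)
    have h5 : Ideal.absNorm s.prod = p ^ Module.finrank ℚ K := by
      rw [h2, Ideal.absNorm_span_natCast, RingOfIntegers.rank]
    rw [← h5, map_multiset_prod, ← Multiset.card_map Ideal.absNorm]
    refine Multiset.pow_card_le_prod fun x hx => ?_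
    obtain ⟨P, hP, rfl⟩ := Multiset.mem_map.1 hx
    obtain ⟨i, -, hi⟩ := (Nat.dvd_prime_pow hp).1 (h5 ▸ map_dvd Ideal.absNorm (Multiset.dvd_prod hP))
    rw [hi]
    refine Nat.le_self_pow (fun h => (h1 P hP).ne_one ?_) p
    rwa [h, pow_zero, Ideal.absNorm_eq_one_iff, ← Ideal.one_eq_top] at hi
  | coprime a b ha hb hab iha ihb =>
    obtain ⟨T, h1, h2⟩ := iha (by omega)
    obtain ⟨T', h3, h4⟩ := ihb (by omega)
    refine ⟨_, ?_, fun I hI => mul T T' _ _ h2 h4 I (by
      rwa [Nat.cast_mul, ← Ideal.span_singleton_mul_span_singleton] at hI)⟩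
    rw [hab.card_divisors_mul, mul_pow]
    exact (card_image₂_le _ _ _).trans (Nat.mul_le_mul h1 h3)

theorem card_idN_le {m : ℕ} (hm : m ≠ 0) : (#(idN K m) : ℝ) ≤ tau m ^ dg K := by
  obtain ⟨T, h1, h2⟩ := arith_ideal_divisors K hm
  have h3 : idN K m ⊆ T := fun I hI => h2 I (Ideal.dvd_iff_le.2
    ((Ideal.span_singleton_le_iff_mem _).2 ((mem_idN K).1 hI ▸ Ideal.absNorm_mem I)))
  unfold tau
  exact_mod_cast (card_le_card h3).trans h1

theorem tau_le {ε : ℝ} (hε : 0 < ε) : ∃ C : ℝ, 1 ≤ C ∧ ∀ m : ℕ, tau m ≤ C * (m : ℝ) ^ ε := by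
  obtain ⟨s, hs⟩ := exists_nat_one_div_lt hε
  obtain ⟨C, C1, hC⟩ := arith_divisor_bound (s + 1)
  have C1' : (1 : ℝ) ≤ C := by exact_mod_cast C1
  refine ⟨C, C1', fun n => ?_⟩
  rcases eq_or_ne n 0 with rfl | hn
  · rw [tau, Nat.divisors_zero, card_empty, Nat.cast_zero]
    positivity
  have n1 : (1 : ℝ) ≤ n := by exact_mod_cast Nat.pos_of_ne_zero hn
  refine le_of_pow_le_pow_left₀ (Nat.succ_ne_zero s) (by positivity) ?_
  have h1 : tau n ^ (s + 1) ≤ C * n := by
    unfold tau
    exact_mod_cast hC n hn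
  refine h1.trans ?_
  rw [mul_pow, ← Real.rpow_natCast ((n : ℝ) ^ ε), ← Real.rpow_mul (by linarith only [n1])]
  refine mul_le_mul (le_self_pow₀ C1' (Nat.succ_ne_zero s)) ?_ (by positivity) (by positivity)
  refine Real.self_le_rpow_of_one_le n1 ?_
  rw [div_lt_iff₀ (by positivity)] at hs
  push_cast
  exact hs.le

theorem arith_push_le {f : Ideal (𝓞 K) → ℂ} (hf : ∀ I, ‖f I‖ ≤ 1) {m : ℕ} (hm : m ≠ 0) :
    ‖push f m‖ ≤ #(idN K m) := by
  rw [push_apply f hm]
  exact (norm_sum_le _ _).trans ((sum_le_card_nsmul _ _ 1 fun I _ => hf I).trans (by simp))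

theorem norm_push_le {f : Ideal (𝓞 K) → ℂ} (hf : ∀ I, ‖f I‖ ≤ 1) (m : ℕ) :
    ‖push f m‖ ≤ tau m ^ dg K := by
  rcases eq_or_ne m 0 with rfl | hm
  · rw [ArithmeticFunction.map_zero, norm_zero]
    exact pow_nonneg (Nat.cast_nonneg _) _
  · exact (arith_push_le hf hm).trans (card_idN_le hm)

theorem norm_push_le_one {f : Ideal (𝓞 K) → ℂ} (hf : ∀ I, ‖f I‖ ≤ 1) (m : ℕ) :
    ‖push f m‖ ≤ (push (fun _ : Ideal (𝓞 K) => 1) m).re := by
  rcases eq_or_ne m 0 with rfl | hm
  · simp
  · refine (arith_push_le hf hm).trans ?_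
    rw [push_apply _ hm]
    simp

theorem norm_pushM_le {f : Ideal (𝓞 K) → ℂ} (hf : ∀ I, ‖f I‖ ≤ 1) (m : ℕ) :
    ‖pushM f m‖ ≤ tau m ^ dg K := by
  refine norm_push_le (fun I => ?_) m
  rw [norm_mul]
  refine mul_le_one₀ ?_ (norm_nonneg _) (hf I)
  rw [UniqueFactorizationMonoid.moebius]
  split_ifs <;> simp only [Int.reduceNeg, UniqueFactorizationMonoid.factors_eq_normalizedFactors, Int.cast_pow, Int.cast_neg, Int.cast_one, norm_pow, norm_neg, norm_one, one_pow, Std.le_refl, Int.cast_zero, norm_zero, zero_le_one]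

theorem lam_nonneg (I : Ideal (𝓞 K)) : 0 ≤ lam I := by
  rw [lam]
  split_ifs
  exacts [Real.log_natCast_nonneg _, le_rfl]

theorem lamK_nonneg (m : ℕ) : 0 ≤ lamK K m := by
  rw [lamK]
  split_ifs
  exacts [le_rfl, sum_nonneg fun I _ => lam_nonneg I]

theorem arith_rad {P : Ideal (𝓞 K)} (hP : Prime P) {k : ℕ} (hk : k ≠ 0) : (P ^ k).radical = P := by
  rw [Ideal.radical_pow _ hk, (Ideal.isPrime_of_prime hP).radical]

theorem arith_lam_pow {P : Ideal (𝓞 K)} (hP : Prime P) {k : ℕ} (hk : k ≠ 0) :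
    lam (P ^ k) = Real.log (Ideal.absNorm P) := by
  rw [lam, if_pos (hP.isPrimePow.pow hk), arith_rad hP hk]

theorem lamK_le (m : ℕ) : lamK K m ≤ dg K * ArithmeticFunction.vonMangoldt m := by
  classical
  have h0 : 0 ≤ (dg K : ℝ) * ArithmeticFunction.vonMangoldt m :=
    mul_nonneg (Nat.cast_nonneg _) ArithmeticFunction.vonMangoldt_nonneg
  rw [lamK]
  split_ifs with hm
  · exact h0
  simp only [lam]
  rw [← sum_filter]
  have key : ∀ I ∈ (idN K m).filter IsPrimePow, Prime I.radical ∧ ∃ p n k : ℕ, 0 < n ∧ 0 < k ∧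
      p.Prime ∧ (p : 𝓞 K) ∈ I.radical ∧ I.radical ^ k = I ∧ Ideal.absNorm I.radical = p ^ n ∧
      (p ^ n) ^ k = m := fun I hI => by
    obtain ⟨h1, P, k, hP, hk, rfl⟩ := mem_filter.1 hI
    rw [arith_rad hP hk.ne']
    have := (Ideal.isPrime_of_prime hP).isMaximal hP.ne_zero
    obtain ⟨p, n, a1, a2, a3, a4⟩ := Ideal.exists_prime_and_absNorm_eq_pow P
    exact ⟨hP, p, n, k, a1, hk, a3, a2, rfl, a4, by rw [← a4, ← map_pow, (mem_idN K).1 h1]⟩
  rcases ((idN K m).filter IsPrimePow).eq_empty_or_nonempty with e | ⟨I₀, hI₀⟩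
  · rwa [e, sum_empty]
  obtain ⟨-, p, n, k, hn, hk, hp, -, -, -, rfl⟩ := key I₀ hI₀
  rw [← pow_mul, ArithmeticFunction.vonMangoldt_apply_pow (by positivity),
    ArithmeticFunction.vonMangoldt_apply_prime hp, pow_mul,
    ← sum_image (g := Ideal.radical) (f := fun P => Real.log (Ideal.absNorm P))]
  · have h1 : ∀ P ∈ image Ideal.radical ((idN K ((p ^ n) ^ k)).filter IsPrimePow),
        Prime P ∧ P ∣ Ideal.span {(p : 𝓞 K)} := fun P hP => by
      obtain ⟨I, hI, rfl⟩ := mem_image.1 hP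
      obtain ⟨a0, q, n', k', a1, a2, a3, a4, -, -, a5⟩ := key I hI
      have : q = p := (Nat.prime_dvd_prime_iff_eq a3 hp).1 (a3.dvd_of_dvd_pow (a3.dvd_of_dvd_pow
        (a5 ▸ dvd_pow (dvd_pow_self q a1.ne') a2.ne' : q ∣ (p ^ n) ^ k)))
      exact ⟨a0, Ideal.dvd_iff_le.2 ((Ideal.span_singleton_le_iff_mem _).2 (this ▸ a4))⟩
    have h2 := map_dvd Ideal.absNorm (Finset.prod_primes_dvd _ (fun P hP => (h1 P hP).1)
      fun P hP => (h1 P hP).2)
    rw [Ideal.absNorm_span_natCast, RingOfIntegers.rank, map_prod] at h2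
    have h3 : ∀ P ∈ image Ideal.radical ((idN K ((p ^ n) ^ k)).filter IsPrimePow),
        ((Ideal.absNorm P : ℕ) : ℝ) ≠ 0 := fun P hP =>
      Nat.cast_ne_zero.2 fun e => (h1 P hP).1.ne_zero (Ideal.absNorm_eq_zero_iff.1 e)
    rw [← Real.log_prod h3, ← Real.log_pow]
    refine Real.log_le_log (lt_of_le_of_ne (prod_nonneg fun _ _ => Nat.cast_nonneg _)
      (prod_ne_zero_iff.2 h3).symm) ?_
    exact_mod_cast Nat.le_of_dvd (pow_pos hp.pos _) h2
  · intro I hI J hJ e
    obtain ⟨-, q, a, b, a1, -, a3, -, a4, a5, a6⟩ := key I hI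
    obtain ⟨-, q', a', b', -, -, -, -, b4, b5, b6⟩ := key J hJ
    rw [← b5, ← e, a5, ← a6] at b6
    rw [← a4, ← b4, e, Nat.pow_right_injective (Nat.one_lt_pow a1.ne' a3.one_lt) b6]

theorem lamK_prime {p : ℕ} (hp : p.Prime) : lamK K p = #(idN K p) * Real.log p := by
  rw [lamK, if_neg hp.ne_zero, ← nsmul_eq_mul, ← sum_const]
  refine sum_congr rfl fun I hI => ?_
  have h := (mem_idN K).1 hI
  have h1 : Prime I := Ideal.prime_of_isPrime
    (fun e => hp.ne_zero (h ▸ Ideal.absNorm_eq_zero_iff.2 e))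
    (Ideal.isPrime_of_irreducible_absNorm (h ▸ hp))
  rw [← h, ← arith_lam_pow h1 one_ne_zero, pow_one]

theorem norm_pushL_le {f : Ideal (𝓞 K) → ℂ} (hf : ∀ I, ‖f I‖ ≤ 1) (m : ℕ) :
    ‖pushL f m‖ ≤ lamK K m := by
  rcases eq_or_ne m 0 with rfl | hm
  · simp [lamK]
  rw [pushL, push_apply _ hm, lamK, if_neg hm]
  refine (norm_sum_le _ _).trans (sum_le_sum fun I _ => ?_)
  rw [norm_mul, Complex.norm_real, Real.norm_of_nonneg (lam_nonneg I)]
  exact mul_le_of_le_one_right (lam_nonneg I) (hf I)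

theorem push_mul_norm (f : Ideal (𝓞 K) → ℂ) (χ : ℕ → ℂ) (m : ℕ) :
    push (fun I => f I * χ (Ideal.absNorm I)) m = push f m * χ m := by
  rcases eq_or_ne m 0 with rfl | hm
  · simp
  rw [push_apply _ hm, push_apply _ hm, sum_mul]
  exact sum_congr rfl fun I hI => by rw [(mem_idN K).1 hI]

theorem pushL_norm (χ : ℕ → ℂ) (m : ℕ) :
    pushL (fun I : Ideal (𝓞 K) => χ (Ideal.absNorm I)) m = lamK K m * χ m := by
  rw [pushL, push_mul_norm]
  rcases eq_or_ne m 0 with rfl | hm
  · simp [lamK]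
  rw [push_apply _ hm, lamK, if_neg hm, Complex.ofReal_sum]

theorem push_summable {f : Ideal (𝓞 K) → ℂ} (hf : ∀ I, ‖f I‖ ≤ 1) {s : ℂ} (hs : 1 < s.re) :
    LSeriesSummable (push f) s := by
  have d0 : (0 : ℝ) < dg K := Nat.cast_pos.2 (dg_pos K)
  obtain ⟨C, -, hC⟩ := tau_le (ε := (s.re - 1) / 2 / dg K) (div_pos (by linarith) d0)
  refine LSeriesSummable_of_le_const_mul_rpow (x := (s.re + 1) / 2) (by linarith only [hs])
    ⟨C ^ dg K, fun n _ => (norm_push_le hf n).trans
      ((pow_le_pow_left₀ (Nat.cast_nonneg _) (hC n) _).trans (le_of_eq ?_))⟩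
  rw [mul_pow, ← Real.rpow_natCast ((n : ℝ) ^ _), ← Real.rpow_mul (Nat.cast_nonneg _),
    div_mul_cancel₀ _ d0.ne', show (s.re + 1) / 2 - 1 = (s.re - 1) / 2 by ring]

theorem pushL_summable {f : Ideal (𝓞 K) → ℂ} (hf : ∀ I, ‖f I‖ ≤ 1) {s : ℂ} (hs : 1 < s.re) :
    LSeriesSummable (pushL f) s := by
  refine LSeriesSummable_of_le_const_mul_rpow (x := (s.re + 1) / 2) (by linarith)
    ⟨dg K / ((s.re + 1) / 2 - 1), fun n _ => (norm_pushL_le hf n).trans ((lamK_le n).trans ?_)⟩
  rw [div_mul_eq_mul_div, mul_div_assoc]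
  exact mul_le_mul_of_nonneg_left (ArithmeticFunction.vonMangoldt_le_log.trans
    (Real.log_le_rpow_div (Nat.cast_nonneg _) (by linarith only [hs]))) (Nat.cast_nonneg _)

open scoped Classical in
/-- pairs of ideals with given product of norms -/
noncomputable def arith_pr (K : Type) [Field K] [NumberField K] (m : ℕ) :
    Finset (Ideal (𝓞 K) × Ideal (𝓞 K)) :=
  m.divisorsAntidiagonal.biUnion fun d => idN K d.1 ×ˢ idN K d.2

theorem arith_mem_pr {m : ℕ} {p : Ideal (𝓞 K) × Ideal (𝓞 K)} :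
    p ∈ arith_pr K m ↔ Ideal.absNorm (p.1 * p.2) = m ∧ m ≠ 0 := by
  simp only [arith_pr, mem_biUnion, mem_product, mem_idN, Nat.mem_divisorsAntidiagonal, map_mul]
  exact ⟨fun ⟨d, h, a, b⟩ => by rwa [a, b],
    fun h => ⟨(Ideal.absNorm p.1, Ideal.absNorm p.2), h, rfl, rfl⟩⟩

open scoped Classical in
/-- factorisations of an ideal -/
noncomputable def arith_ad (I : Ideal (𝓞 K)) : Finset (Ideal (𝓞 K) × Ideal (𝓞 K)) :=
  (arith_pr K (Ideal.absNorm I)).filter fun p => p.1 * p.2 = I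

theorem arith_mem_ad {I : Ideal (𝓞 K)} (hI : I ≠ 0) {p : Ideal (𝓞 K) × Ideal (𝓞 K)} :
    p ∈ arith_ad I ↔ p.1 * p.2 = I := by
  rw [arith_ad, mem_filter, arith_mem_pr]
  exact ⟨fun h => h.2, fun h => ⟨⟨by rw [h], fun e => hI (Ideal.absNorm_eq_zero_iff.1 e)⟩, h⟩⟩

theorem arith_conv (f g : Ideal (𝓞 K) → ℂ) (m : ℕ) :
    (push f * push g) m = ∑ I ∈ idN K m, ∑ p ∈ arith_ad I, f p.1 * g p.2 := by
  classical
  have h1 : (push f * push g) m = ∑ p ∈ arith_pr K m, f p.1 * g p.2 := by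
    rw [ArithmeticFunction.mul_apply, arith_pr, sum_biUnion]
    · refine sum_congr rfl fun d hd => ?_
      rw [push_apply _ (Nat.left_ne_zero_of_mem_divisorsAntidiagonal hd),
        push_apply _ (Nat.right_ne_zero_of_mem_divisorsAntidiagonal hd), sum_mul_sum, sum_product]
    · intro d _ d' _ hne
      refine disjoint_left.2 fun p a b => hne ?_
      simp only [mem_product, mem_idN] at a b
      exact Prod.ext (a.1.symm.trans b.1) (a.2.symm.trans b.2)
  have hmap : ∀ p ∈ arith_pr K m, p.1 * p.2 ∈ idN K m := fun p hp => by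
    rw [mem_idN]
    exact (arith_mem_pr.1 hp).1
  rw [h1, ← sum_fiberwise_of_maps_to hmap]
  refine sum_congr rfl fun I hI => ?_
  rw [arith_ad, (mem_idN K).1 hI]

open scoped Classical in
theorem arith_split0 {α M : Type} [CommMonoidWithZero α] [IsCancelMulZero α] [AddCommMonoid M]
    {P J : α} (hP : Prime P) {S T : Finset (α × α)} (hS : ∀ p, p ∈ S ↔ p.1 * p.2 = P * J)
    (hT : ∀ p, p ∈ T ↔ p.1 * p.2 = J) (h : α → M) :
    ∑ p ∈ S, h p.1 = ∑ p ∈ T, (h (P * p.1) + if P ∣ p.1 then 0 else h p.1) := by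
  rw [← sum_filter_add_sum_filter_not _ fun p : α × α => P ∣ p.1, sum_add_distrib]
  simp only [← ite_not (_ ∣ _) (h _)]
  rw [← sum_filter]
  refine congrArg₂ _ (sum_bij (fun p _ => (P * p.1, p.2)) ?_ ?_ ?_ ?_).symm
    (sum_bij (fun p _ => (p.1, P * p.2)) ?_ ?_ ?_ ?_).symm
  · intro p hp
    exact mem_filter.2 ⟨(hS _).2 (by rw [← (hT _).1 hp, mul_assoc]), dvd_mul_right _ _⟩
  · intro p _ q _ e
    rw [Prod.mk.injEq] at e
    exact Prod.ext (mul_left_cancel₀ hP.ne_zero e.1) e.2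
  · rintro ⟨A, B⟩ hp
    obtain ⟨a, A', rfl⟩ := mem_filter.1 hp
    exact ⟨(A', B), (hT _).2 (mul_left_cancel₀ hP.ne_zero
      ((mul_assoc _ _ _).symm.trans ((hS _).1 a))), rfl⟩
  · exact fun _ _ => rfl
  · intro p hp
    exact mem_filter.2 ⟨(hS _).2 (by
      rw [← (hT _).1 (mem_filter.1 hp).1, mul_left_comm]), (mem_filter.1 hp).2⟩
  · intro p _ q _ e
    rw [Prod.mk.injEq] at e
    exact Prod.ext e.1 (mul_left_cancel₀ hP.ne_zero e.2)
  · rintro ⟨A, B⟩ hp
    obtain ⟨a, b⟩ := mem_filter.1 hp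
    have c : A * B = P * J := (hS _).1 a
    obtain ⟨B', rfl⟩ := (hP.dvd_or_dvd (c ▸ dvd_mul_right P J : P ∣ A * B)).resolve_left b
    exact ⟨(A, B'), mem_filter.2 ⟨(hT _).2 (mul_left_cancel₀ hP.ne_zero
      ((mul_left_comm _ _ _).trans c)), b⟩, rfl⟩
  · exact fun _ _ => rfl

open scoped Classical in
theorem arith_split {M : Type} [AddCommMonoid M] {P J : Ideal (𝓞 K)} (hP : Prime P) (hJ : J ≠ 0)
    (h : Ideal (𝓞 K) → M) : ∑ p ∈ arith_ad (P * J), h p.1 =
      ∑ p ∈ arith_ad J, (h (P * p.1) + if P ∣ p.1 then 0 else h p.1) :=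
  arith_split0 hP (fun _ => arith_mem_ad (mul_ne_zero hP.ne_zero hJ)) (fun _ => arith_mem_ad hJ) h

theorem arith_ad_one : arith_ad (1 : Ideal (𝓞 K)) = {(1, 1)} := by
  ext p
  rw [arith_mem_ad one_ne_zero, mem_singleton, mul_eq_one, Prod.ext_iff]

open scoped Classical in
theorem arith_mu {I : Ideal (𝓞 K)} (hI : I ≠ 0) :
    ∑ p ∈ arith_ad I, UniqueFactorizationMonoid.moebius p.1 = if I = 1 then 1 else 0 := by
  split_ifs with h
  · rw [h, arith_ad_one, sum_singleton, UniqueFactorizationMonoid.moebius_one]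
  obtain ⟨P, hP, J, rfl⟩ := WfDvdMonoid.exists_irreducible_factor (fun e => h (isUnit_iff_eq_one.1 e)) hI
  rw [arith_split hP.prime (right_ne_zero_of_mul hI)]
  refine sum_eq_zero fun p _ => ?_
  split_ifs with a
  · rw [add_zero]
    exact UniqueFactorizationMonoid.moebius_of_not_squarefree fun e =>
      hP.not_isUnit (e P (mul_dvd_mul_left P a))
  · rw [(hP.isRelPrime_iff_not_dvd.2 a).moebius_mul, hP.moebius_eq]
    ring

theorem arith_pp {P A : Ideal (𝓞 K)} (hP : Prime P) (h : P ∣ A) (hA : IsPrimePow A) :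
    ∃ k, A = P ^ (k + 1) := by
  obtain ⟨Q, k, hQ, hk, rfl⟩ := hA
  obtain rfl := (prime_dvd_prime_iff_eq hP hQ).1 (hP.dvd_of_dvd_pow h)
  exact ⟨k - 1, by rw [Nat.sub_add_cancel hk]⟩

open scoped Classical in
theorem arith_lam_mul {P : Ideal (𝓞 K)} (hP : Prime P) (A : Ideal (𝓞 K)) :
    (lam (P * A) + if P ∣ A then 0 else lam A) =
      lam A + if A = 1 then Real.log (Ideal.absNorm P) else 0 := by
  have l1 : lam (1 : Ideal (𝓞 K)) = 0 := if_neg not_isPrimePow_one
  by_cases h : IsPrimePow (P * A)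
  · obtain ⟨k, e⟩ := arith_pp hP (dvd_mul_right P A) h
    obtain rfl : A = P ^ k := mul_left_cancel₀ hP.ne_zero (e.trans (pow_succ' _ _))
    rw [e, arith_lam_pow hP k.succ_ne_zero]
    rcases k with _ | k
    · simp only [pow_zero, l1, ite_self, if_true, add_zero, zero_add]
    · have a : P ^ (k + 1) ≠ 1 := fun a => hP.not_dvd_one (by
        rw [← a]; exact dvd_pow_self P k.succ_ne_zero)
      rw [if_pos (dvd_pow_self P k.succ_ne_zero), arith_lam_pow hP k.succ_ne_zero, if_neg a]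
  · have a1 : A ≠ 1 := fun a => h (by rw [a, mul_one]; exact hP.isPrimePow)
    rw [show lam (P * A) = 0 from if_neg h, if_neg a1, zero_add, add_zero]
    split_ifs with a
    · refine (if_neg fun b => h ?_).symm
      obtain ⟨k, rfl⟩ := arith_pp hP a b
      rw [← pow_succ']
      exact hP.isPrimePow.pow (k + 1).succ_ne_zero
    · rfl

theorem arith_lam {I : Ideal (𝓞 K)} (hI : I ≠ 0) :
    ∑ p ∈ arith_ad I, lam p.1 = Real.log (Ideal.absNorm I) := by
  classical
  induction I using UniqueFactorizationMonoid.induction_on_prime with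
  | h₁ => exact absurd rfl hI
  | h₂ x hx =>
    rw [isUnit_iff_eq_one.1 hx, arith_ad_one, sum_singleton, map_one, Nat.cast_one, Real.log_one]
    exact if_neg not_isPrimePow_one
  | h₃ J P hJ hP ih =>
    have n0 : ∀ A : Ideal (𝓞 K), A ≠ 0 → ((Ideal.absNorm A : ℕ) : ℝ) ≠ 0 := fun A hA =>
      Nat.cast_ne_zero.2 fun e => hA (Ideal.absNorm_eq_zero_iff.1 e)
    rw [arith_split hP hJ, map_mul, Nat.cast_mul, Real.log_mul (n0 P hP.ne_zero) (n0 J hJ),
      sum_congr rfl fun p _ => arith_lam_mul hP p.1, sum_add_distrib, ih hJ, add_comm,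
      sum_eq_single_of_mem (1, J) ((arith_mem_ad hJ).2 (one_mul J)), if_pos rfl]
    intro p a b
    refine if_neg fun c => b ?_
    rw [arith_mem_ad hJ, c, one_mul] at a
    exact Prod.ext c a

theorem arith_idN_one : idN K 1 = {1} := by
  ext I
  rw [mem_idN, mem_singleton, Ideal.absNorm_eq_one_iff, Ideal.one_eq_top]

theorem push_P {F : Ideal (𝓞 K) → ℂ} (h1 : F ⊤ = 1) (hm : ∀ I J, F (I * J) = F I * F J)
    (hf : ∀ I, ‖F I‖ ≤ 1) : siegel_P (push F) (pushL F) (LSeries (push F)) := by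
  refine ⟨?_, ?_, ?_, fun s hs => push_summable hf hs, fun _ _ => rfl⟩
  · ext m
    rcases eq_or_ne m 0 with rfl | h0
    · simp
    rw [pushL, arith_conv, ArithmeticFunction.pmul_apply, push_apply _ h0, mul_sum]
    refine sum_congr rfl fun I hI => ?_
    have e := (mem_idN K).1 hI
    have hI0 : I ≠ 0 := fun a => h0 (e ▸ Ideal.absNorm_eq_zero_iff.2 a)
    rw [sum_congr rfl fun p hp => by rw [mul_assoc, ← hm, (arith_mem_ad hI0).1 hp], ← sum_mul,
      ← Complex.ofReal_sum, arith_lam hI0, e]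
    simp only [siegel_lg, toArithmeticFunction, ArithmeticFunction.coe_mk, h0, if_false]
  · rw [push_apply _ one_ne_zero, arith_idN_one, sum_singleton, Ideal.one_eq_top, h1]
  · rw [pushL, push_apply _ one_ne_zero, arith_idN_one, sum_singleton,
      show lam (1 : Ideal (𝓞 K)) = 0 from if_neg not_isPrimePow_one, Complex.ofReal_zero, zero_mul]

theorem pushM_mul {F : Ideal (𝓞 K) → ℂ} (h1 : F ⊤ = 1) (hm : ∀ I J, F (I * J) = F I * F J) :
    pushM F * push F = 1 := by
  classical
  ext m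
  rcases eq_or_ne m 0 with rfl | h0
  · simp
  have key : ∀ I ∈ idN K m, ∑ p ∈ arith_ad I,
      (UniqueFactorizationMonoid.moebius p.1 : ℂ) * F p.1 * F p.2 = if I = 1 then 1 else 0 := by
    intro I hI
    have hI0 : I ≠ 0 := fun a => h0 ((mem_idN K).1 hI ▸ Ideal.absNorm_eq_zero_iff.2 a)
    rw [sum_congr rfl fun p hp => by rw [mul_assoc, ← hm, (arith_mem_ad hI0).1 hp], ← sum_mul,
      ← Int.cast_sum, arith_mu hI0]
    split_ifs with a
    · rw [a, Ideal.one_eq_top, h1, Int.cast_one, one_mul]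
    · rw [Int.cast_zero, zero_mul]
  rw [pushM, arith_conv, sum_congr rfl key, sum_ite_eq', ArithmeticFunction.one_apply]
  simp only [mem_idN, map_one, eq_comm]

end Pool.Agent.MP_48b1c3_nt.H91

end

-- part MP_48b1c3_nt.H91.Phi
section

/-! The norm form and a smooth partition of unity for the action of the units. -/

namespace Pool.Agent.MP_48b1c3_nt.H91

open Finset NumberField H54 Filter
open scoped ContDiff Topology

variable {K : Type} [Field K] [NumberField K]

theorem phi_pi {ι A : Type} [Fintype ι] [CommRing A] [Algebra ℝ A] [Module.Finite ℝ A]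
    (y : ι → A) : Algebra.norm ℝ y = ∏ i, Algebra.norm ℝ (y i) := by
  simp only [Algebra.norm_apply]
  rw [← LinearMap.det_pi]
  rfl

open scoped Classical in
theorem phi_norm (y : mixedEmbedding.mixedSpace K) :
    Algebra.norm ℝ y = (∏ w, y.1 w) * ∏ w, ‖y.2 w‖ ^ 2 := by
  have e : Algebra.norm ℝ y = Algebra.norm ℝ y.1 * Algebra.norm ℝ y.2 := by
    simp only [Algebra.norm_apply]
    rw [← LinearMap.det_prodMap]
    rfl
  rw [e, phi_pi, phi_pi]
  simp only [Algebra.norm_self, MonoidHom.id_apply, Algebra.norm_complex_apply,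
    Complex.normSq_eq_norm_sq]

open scoped Classical in
theorem phi_E : ContDiff ℝ ∞ fun x : Ix K → ℝ => (mixedEmbedding.latticeBasis K).equivFun.symm x :=
  (mixedEmbedding.latticeBasis K).equivFunL.symm.contDiff

theorem sN_smooth : ContDiff ℝ ∞ (sN K) := by
  classical
  have e : sN K = fun x => (∏ w, ((mixedEmbedding.latticeBasis K).equivFun.symm x).1 w) *
      ∏ w, ‖((mixedEmbedding.latticeBasis K).equivFun.symm x).2 w‖ ^ 2 := by
    funext x
    convert phi_norm _
    rfl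
  rw [e]
  exact (contDiff_prod fun w _ => contDiff_pi.1 phi_E.fst w).mul
    (contDiff_prod fun w _ => (contDiff_pi.1 phi_E.snd w).norm_sq ℝ)

theorem sN_smul (t : ℝ) (x : Ix K → ℝ) : sN K (t • x) = t ^ dg K * sN K x := by
  rw [sN, map_smul, Algebra.smul_def, map_mul, Algebra.norm_algebraMap, mixedEmbedding.finrank, sN]

theorem phi_pt (a : Ix K → ℤ) : (mixedEmbedding.latticeBasis K).equivFun.symm (pt 1 a) =
    mixedEmbedding K (el K a : 𝓞 K) := by
  rw [LinearEquiv.symm_apply_eq]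
  funext i
  rw [Module.Basis.equivFun_apply, mixedEmbedding.latticeBasis_repr_apply,
    RingOfIntegers.coe_eq_algebraMap, integralBasis_repr_apply, ← Module.Basis.equivFun_apply, el,
    LinearEquiv.apply_symm_apply]
  simp [pt]

theorem phi_emb (x : K) : Algebra.norm ℝ (mixedEmbedding K x) = (Algebra.norm ℚ x : ℚ) := by
  classical
  rw [Algebra.norm_eq_matrix_det (mixedEmbedding.latticeBasis K),
    Algebra.norm_eq_matrix_det (integralBasis K), ← eq_ratCast (algebraMap ℚ ℝ), RingHom.map_det]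
  congr 1
  ext i j
  rw [RingHom.mapMatrix_apply, Matrix.map_apply, Algebra.leftMulMatrix_eq_repr_mul,
    Algebra.leftMulMatrix_eq_repr_mul, mixedEmbedding.latticeBasis_apply, ← map_mul,
    mixedEmbedding.latticeBasis_repr_apply, eq_ratCast]

theorem sN_pt (H : ℝ) (a : Ix K → ℤ) : sN K (pt H a) = nm (el K a) / H ^ dg K := by
  have e : pt H a = H⁻¹ • pt 1 a := by
    funext i
    simp [pt, div_eq_inv_mul]
  rw [e, sN_smul, sN, phi_pt, phi_emb, ← Algebra.coe_norm_int, inv_pow, div_eq_inv_mul,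
    Rat.cast_intCast]

theorem abs_sN (x : Ix K → ℝ) :
    |sN K x| = mixedEmbedding.norm ((mixedEmbedding.latticeBasis K).equivFun.symm x) := by
  classical
  rw [sN, phi_norm, mixedEmbedding.norm_apply, InfinitePlace.prod_eq_prod_mul_prod, abs_mul,
    abs_prod, abs_prod]
  congr 1
  · refine prod_congr (by convert rfl) fun w _ => ?_
    rw [InfinitePlace.mult_isReal, pow_one, mixedEmbedding.normAtPlace_apply_of_isReal w.2,
      Real.norm_eq_abs]
  · refine prod_congr (by convert rfl) fun w _ => ?_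
    rw [InfinitePlace.mult_isComplex, mixedEmbedding.normAtPlace_apply_of_isComplex w.2,
      abs_of_nonneg (sq_nonneg _)]

theorem phi_rho : ∃ ρ : ℝ → ℝ, (∀ t, 0 ≤ ρ t ∧ ρ t ≤ 1) ∧ ContDiff ℝ ∞ ρ ∧
    (∀ t, ρ t ≠ 0 → |t| < 1) ∧ ∀ t, ∑ m ∈ ({-⌊t⌋ - 1, -⌊t⌋} : Finset ℤ), ρ (m + t) = 1 := by
  refine ⟨fun t => Real.smoothTransition (t + 1) - Real.smoothTransition t, fun t => ?_,
    (Real.smoothTransition.contDiff.comp (contDiff_id.add contDiff_const)).sub
      Real.smoothTransition.contDiff, fun t ht => ?_, fun t => ?_⟩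
  · have h1 := Real.smoothTransition.nonneg t
    have h2 := Real.smoothTransition.le_one (t + 1)
    have h3 := Real.smoothTransition.monotone (show t ≤ t + 1 by linarith)
    constructor <;> linarith
  · by_contra h
    rcases le_abs'.1 (not_lt.1 h) with h | h
    · exact ht (sub_eq_zero.2 ((Real.smoothTransition.zero_of_nonpos (by linarith)).trans
        (Real.smoothTransition.zero_of_nonpos (by linarith)).symm))
    · exact ht (sub_eq_zero.2 ((Real.smoothTransition.one_of_one_le (by linarith)).trans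
        (Real.smoothTransition.one_of_one_le h).symm))
  · have h1 := Int.floor_le t
    have h2 := Int.lt_floor_add_one t
    rw [sum_pair (by omega)]
    push_cast
    rw [Real.smoothTransition.zero_of_nonpos (x := -⌊t⌋ - 1 + t) (by linarith),
      Real.smoothTransition.one_of_one_le (x := -⌊t⌋ + t + 1) (by linarith),
      show -(⌊t⌋ : ℝ) - 1 + t + 1 = -⌊t⌋ + t by ring]
    ring

open scoped Classical in
open mixedEmbedding in
theorem phi_log {x : Ix K → ℝ} (hx : sN K x ≠ 0) :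
    ContDiffAt ℝ ∞ (fun x : Ix K → ℝ => logMap ((latticeBasis K).equivFun.symm x)) x := by
  have h0 : mixedEmbedding.norm ((latticeBasis K).equivFun.symm x) ≠ 0 := by
    rw [← abs_sN]
    exact abs_ne_zero.2 hx
  refine contDiffAt_pi.2 fun w => ?_
  have h1 := mixedEmbedding.norm_ne_zero_iff.1 h0 w.1
  simp only [logMap_apply, ← abs_sN, Real.log_abs]
  refine contDiffAt_const.mul (ContDiffAt.sub (ContDiffAt.log ?_ h1)
    ((sN_smooth.contDiffAt.log hx).mul contDiffAt_const))
  rcases InfinitePlace.isReal_or_isComplex w.1 with hw | hw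
  · simp only [normAtPlace_apply_of_isReal hw] at h1 ⊢
    exact (contDiff_pi.1 phi_E.fst _).contDiffAt.norm ℝ (norm_ne_zero_iff.1 h1)
  · simp only [normAtPlace_apply_of_isComplex hw] at h1 ⊢
    exact (contDiff_pi.1 phi_E.snd _).contDiffAt.norm ℝ (norm_ne_zero_iff.1 h1)

open mixedEmbedding Units.dirichletUnitTheorem in
theorem phi_bd {C b : ℝ} {y : mixedSpace K} (h0 : mixedEmbedding.norm y ≠ 0)
    (hb : mixedEmbedding.norm y ≤ b) (hC0 : 0 ≤ C) (hC : ∀ w, |logMap y w| ≤ C)
    (w : InfinitePlace K) :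
    normAtPlace w y ≤ Real.exp (Fintype.card (InfinitePlace K) * C + b) := by
  classical
  have hn : (1 : ℝ) ≤ Module.finrank ℚ K := Nat.one_le_cast.2 Module.finrank_pos
  have hp := mixedEmbedding.norm_ne_zero_iff.1 h0
  set N := mixedEmbedding.norm y with hN
  let l : InfinitePlace K → ℝ := fun w =>
    w.mult * (Real.log (normAtPlace w y) - Real.log N * (Module.finrank ℚ K : ℝ)⁻¹)
  have s0 : ∑ w, l w = 0 := by
    simp only [l, mul_sub, sum_sub_distrib, ← sum_mul]
    rw [← Nat.cast_sum, InfinitePlace.sum_mult_eq, mul_comm (Real.log N),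
      mul_inv_cancel_left₀ (by linarith), hN, mixedEmbedding.norm_apply,
      Real.log_prod fun w _ => pow_ne_zero _ (hp w)]
    simp only [Real.log_pow, sub_self]
  have c1 : (1 : ℝ) ≤ Fintype.card (InfinitePlace K) := Nat.one_le_cast.2 Fintype.card_pos
  have h1 : l w ≤ Fintype.card (InfinitePlace K) * C := by
    by_cases hw : w = w₀
    · rw [Fintype.sum_eq_add_sum_subtype_ne _ w₀, add_eq_zero_iff_eq_neg, ← sum_neg_distrib] at s0
      rw [hw, s0]
      refine (sum_le_card_nsmul _ _ C fun v _ => (neg_le_abs _).trans (hC v)).trans ?_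
      rw [nsmul_eq_mul]
      exact mul_le_mul_of_nonneg_right (Nat.cast_le.2 (Fintype.card_subtype_le _)) hC0
    · exact ((le_abs_self _).trans (hC ⟨w, hw⟩)).trans (le_mul_of_one_le_left hC0 c1)
  have h2 : Real.log N * (Module.finrank ℚ K : ℝ)⁻¹ ≤ b :=
    (mul_le_mul_of_nonneg_right (Real.log_le_self (mixedEmbedding.norm_nonneg y))
      (by positivity)).trans ((mul_le_of_le_one_right (mixedEmbedding.norm_nonneg y)
        (inv_le_one_of_one_le₀ hn)).trans hb)
  rw [← Real.log_le_iff_le_exp ((normAtPlace_nonneg w y).lt_of_ne' (hp w))]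
  have h3 := InfinitePlace.one_le_mult (w := w)
  have h4 : 0 ≤ Fintype.card (InfinitePlace K) * C := by positivity
  simp only [l] at h1
  nlinarith only [h1, h2, h3, h4]

open mixedEmbedding Units in
variable (K) in
theorem exists_phi : ∃ φ : (Ix K → ℝ) → ℝ, (∀ x, 0 ≤ φ x ∧ φ x ≤ 1) ∧
    (∀ x, sN K x = 0 → φ x = 0) ∧ (∀ (t : ℝ) x, 0 < t → φ (t • x) = φ x) ∧
    ContDiffOn ℝ ∞ φ {x | sN K x ≠ 0} ∧
    (∀ b : ℝ, ∃ R : ℝ, ∀ x, φ x ≠ 0 → |sN K x| ≤ b → ‖x‖ ≤ R) ∧
    ∀ α : 𝓞 K, α ≠ 0 → HasSum (fun u : (𝓞 K)ˣ => φ (pt 1 ((el K).symm (u * α)))) 1 := by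
  classical
  obtain ⟨ρ, r1, r2, r3, r4⟩ := phi_rho
  let B := (basisUnitLattice K).ofZLatticeBasis ℝ _
  have T1 : (1 : ℝ) ≤ torsionOrder K := Nat.one_le_cast.2 (torsionOrder_pos K)
  have hn : ∀ x, sN K x ≠ 0 → mixedEmbedding.norm ((latticeBasis K).equivFun.symm x) ≠ 0 :=
    fun x hx => abs_sN x ▸ abs_ne_zero.2 hx
  refine ⟨fun x => if sN K x = 0 then 0 else
    (∏ i, ρ (B.repr (logMap ((latticeBasis K).equivFun.symm x)) i)) / torsionOrder K,
    fun x => ?_, fun x hx => if_pos hx, fun t x ht => ?_, ?_, fun b => ?_, fun α hα => ?_⟩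
  · dsimp only
    split_ifs
    · exact ⟨le_rfl, zero_le_one⟩
    · exact ⟨div_nonneg (prod_nonneg fun i _ => (r1 _).1) (by linarith),
        div_le_one_of_le₀ ((prod_le_one (fun i _ => (r1 _).1) fun i _ => (r1 _).2).trans T1)
          (by linarith)⟩
  · by_cases hx : sN K x = 0
    · simp only [sN_smul, hx, mul_zero, if_true]
    · simp only [sN_smul, if_neg hx, if_neg (mul_ne_zero (pow_ne_zero _ ht.ne') hx), map_smul,
        logMap_real_smul (hn x hx) ht.ne']
  · refine ContDiffOn.congr (fun x hx => ContDiffAt.contDiffWithinAt ?_) fun x hx => if_neg hx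
    refine (contDiffAt_prod fun i _ => r2.contDiffAt.comp x ?_).div_const _
    exact contDiffAt_pi.1 (B.equivFunL.contDiff.contDiffAt.comp x (phi_log hx)) i
  · refine ⟨‖((latticeBasis K).equivFunL : mixedSpace K →L[ℝ] Ix K → ℝ)‖ *
      Real.exp (Fintype.card (InfinitePlace K) * (∑ i, ‖B i‖) + b), fun x h1 h2 => ?_⟩
    have hx : sN K x ≠ 0 := fun h => h1 (if_pos h)
    simp only [if_neg hx] at h1
    have h3 := fun i => r3 _ (prod_ne_zero_iff.1 (div_ne_zero_iff.1 h1).1 i (mem_univ i))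
    set y := (latticeBasis K).equivFun.symm x with hy
    have h4 : ‖logMap y‖ ≤ ∑ i, ‖B i‖ := by
      rw [← B.sum_repr (logMap y)]
      refine norm_sum_le_of_le _ fun i _ => ?_
      rw [_root_.norm_smul]
      exact mul_le_of_le_one_left (norm_nonneg _) (h3 i).le
    have h5 : ‖y‖ ≤ Real.exp (Fintype.card (InfinitePlace K) * (∑ i, ‖B i‖) + b) := by
      rw [norm_eq_sup'_normAtPlace, sup'_le_iff]
      exact fun w _ => phi_bd (hn x hx) (abs_sN x ▸ h2) (by positivity)
        (fun v => (norm_le_pi_norm (logMap y) v).trans h4) w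
    have e : x = ((latticeBasis K).equivFunL : mixedSpace K →L[ℝ] Ix K → ℝ) y :=
      ((latticeBasis K).equivFun.apply_symm_apply x).symm
    exact (congrArg norm e).le.trans (ContinuousLinearMap.le_opNorm_of_le _ h5)
  · have h0 : mixedEmbedding.norm (mixedEmbedding K α) ≠ 0 := by
      rw [Ne, norm_eq_zero_iff' ⟨_, rfl⟩, map_eq_zero_iff _ (mixedEmbedding_injective K)]
      exact RingOfIntegers.coe_ne_zero_iff.2 hα
    have e1 : ∀ u : (𝓞 K)ˣ, (latticeBasis K).equivFun.symm (pt 1 ((el K).symm (u * α))) =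
        u • mixedEmbedding K α := fun u => by
      rw [phi_pt, LinearEquiv.apply_symm_apply, unitSMul_smul, ← map_mul]
      congr 1
    have e2 : ∀ u : (𝓞 K)ˣ, sN K (pt 1 ((el K).symm (u * α))) ≠ 0 := fun u => by
      rw [← abs_ne_zero, abs_sN, e1, norm_unit_smul]
      exact h0
    simp only [if_neg (e2 _), e1, logMap_unit_smul _ h0]
    let g : torsion K × (Fin (rank K) → ℤ) → (𝓞 K)ˣ := fun p =>
      p.1 * ∏ i, fundSystem K i ^ p.2 i
    have hg : Function.Bijective g := (Function.bijective_iff_existsUnique g).2 fun u => by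
      simpa only [eq_comm] using exist_unique_eq_mul_prod K u
    set c := logMap (mixedEmbedding K α)
    have e3 : ∀ p i, B.repr (logEmbedding K (Additive.ofMul (g p)) + c) i = p.2 i + B.repr c i := by
      intro p i
      have : logEmbedding K (Additive.ofMul (g p)) = ∑ j, (p.2 j : ℝ) • B j := by
        simp only [g, ofMul_mul, ofMul_prod, ofMul_zpow, map_add, map_sum, map_zsmul,
          logEmbedding_fundSystem, dirichletUnitTheorem.logEmbedding_eq_zero_iff.2 p.1.2, zero_add,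
          B, Module.Basis.ofZLatticeBasis_apply, Int.cast_smul_eq_zsmul]
      rw [map_add, Finsupp.add_apply, this, B.repr_sum_self]
    rw [← (Equiv.ofBijective g hg).hasSum_iff]
    simp only [Function.comp_def, Equiv.ofBijective_apply, e3]
    have := Fintype.ofFinite (torsion K)
    convert hasSum_sum_of_ne_finset_zero (L := SummationFilter.unconditional _)
      (s := (univ : Finset (torsion K)) ×ˢ
        Fintype.piFinset fun i => ({-⌊B.repr c i⌋ - 1, -⌊B.repr c i⌋} : Finset ℤ)) fun p hp => ?_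
    · rw [sum_product]
      simp only [← sum_div]
      rw [eq_div_iff (by linarith), one_mul, torsionOrder, Nat.card_eq_fintype_card]
      simp only [← prod_univ_sum _ fun i (m : ℤ) => ρ (m + B.repr c i), r4, prod_const_one,
        sum_const, card_univ, nsmul_eq_mul, mul_one]
    · by_contra h
      refine hp (mem_product.2 ⟨mem_univ _, Fintype.mem_piFinset.2 fun i => ?_⟩)
      have h3 := abs_lt.1 (r3 _ (prod_ne_zero_iff.1 (div_ne_zero_iff.1 h).1 i (mem_univ i)))
      have h1 := Int.floor_le (B.repr c i)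
      have h2 := Int.lt_floor_add_one (B.repr c i)
      have h4 : p.2 i < -⌊B.repr c i⌋ + 1 := by
        rw [← Int.cast_lt (R := ℝ)]
        push_cast
        linarith
      have h5 : -⌊B.repr c i⌋ - 2 < p.2 i := by
        rw [← Int.cast_lt (R := ℝ)]
        push_cast
        linarith
      rw [mem_insert, mem_singleton]
      omega

end Pool.Agent.MP_48b1c3_nt.H91

end

-- part MP_48b1c3_nt.H91.Geo
section

/-! Construction of the smooth fundamental domain. -/

namespace Pool.Agent.MP_48b1c3_nt.H91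

open Finset NumberField H54 Filter MeasureTheory
open scoped ContDiff Topology

/-- a function of the logarithm, extended by zero -/
noncomputable def geoL (h : ℝ → ℝ) (t : ℝ) : ℝ := if 0 < t then h (Real.log t) else 0

theorem geo_small {h : ℝ → ℝ} (h0 : ∀ u, u ≤ -12 → h u = 0) {t : ℝ} (ht : t < Real.exp (-12)) :
    geoL h t = 0 := by
  unfold geoL
  split_ifs with hp
  · exact h0 _ ((Real.log_le_iff_le_exp hp).2 ht.le)
  · rfl

theorem geo_sm {h : ℝ → ℝ} (hs : ContDiff ℝ ∞ h) (h0 : ∀ u, u ≤ -12 → h u = 0) :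
    ContDiff ℝ ∞ (geoL h) := by
  refine contDiff_iff_contDiffAt.2 fun t => ?_
  by_cases ht : 0 < t
  · refine (hs.contDiffAt.comp t (Real.contDiffAt_log.2 ht.ne')).congr_of_eventuallyEq ?_
    filter_upwards [Ioi_mem_nhds ht] with y hy
    exact if_pos hy
  · refine (contDiffAt_const (c := (0 : ℝ))).congr_of_eventuallyEq ?_
    filter_upwards [Iio_mem_nhds ((not_lt.1 ht).trans_lt (Real.exp_pos (-12)))] with y hy
    exact geo_small h0 hy

/-- equal to one on `[-4, 0]`, zero outside `(-5, 1)` -/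
noncomputable def geoB : ContDiffBump (-2 : ℝ) := ⟨2, 3, two_pos, by norm_num⟩

/-- equal to one on `[-5, 1]`, zero outside `(-6, 2)` -/
noncomputable def geoC : ContDiffBump (-2 : ℝ) := ⟨3, 4, three_pos, by norm_num⟩

theorem geo_B0 {u : ℝ} (hu : u ≤ -5 ∨ 1 ≤ u) : geoB u = 0 := by
  refine geoB.zero_of_le_dist ?_
  change (3 : ℝ) ≤ |u - -2|
  rcases hu with h | h
  · exact le_abs.2 (Or.inr (by linarith))
  · exact le_abs.2 (Or.inl (by linarith))

theorem geo_B1 {u : ℝ} (hu : u ∈ Set.Icc (-4 : ℝ) 0) : geoB u = 1 := by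
  refine geoB.one_of_mem_closedBall ?_
  change |u - -2| ≤ (2 : ℝ)
  exact abs_le.2 ⟨by linarith [hu.1], by linarith [hu.2]⟩

theorem geo_C0 {u : ℝ} (hu : u ≤ -6) : geoC u = 0 := by
  refine geoC.zero_of_le_dist ?_
  change (4 : ℝ) ≤ |u - -2|
  exact le_abs.2 (Or.inr (by linarith))

theorem geo_C1 {u : ℝ} (hu : u ∈ Set.Icc (-4 : ℝ) 1) : geoC u = 1 := by
  refine geoC.one_of_mem_closedBall ?_
  change |u - -2| ≤ (3 : ℝ)
  exact abs_le.2 ⟨by linarith [hu.1], by linarith [hu.2]⟩

section Fubini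

variable {ι : Type} [Fintype ι]

theorem geo_fub {F l : (ι → ℝ) → ℝ} {R : ℝ} (hn : 0 < Fintype.card ι) (mF : Measurable F)
    (ml : Measurable l) (hF : ∀ x, |F x| ≤ 1)
    (h1 : ∀ (c : ℝ) x, 0 < c → F (c • x) = F x)
    (h2 : ∀ (c : ℝ) x, 0 < c → F x ≠ 0 → l (c • x) = l x + Fintype.card ι * Real.log c)
    (hR : ∀ x, F x ≠ 0 → l x ≤ 0 → ‖x‖ ≤ R) {V W : ℝ → ℂ} (hV : Test V) (hW : Test W) :
    ∫ x, (F x : ℂ) * ∫ t : ℝ, V (l x + t) * W (-t) =
      (∫ x, (F x : ℂ) * V (l x)) * ∫ u : ℝ, W u * Real.exp u := by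
  obtain ⟨A, hA, a1, -⟩ := hV.bound
  obtain ⟨B, hB, b1, -⟩ := hW.bound
  have hn' : (Fintype.card ι : ℝ) ≠ 0 := Nat.cast_ne_zero.2 hn.ne'
  have hi : Integrable (Function.uncurry fun (x : ι → ℝ) (t : ℝ) =>
      (F x : ℂ) * (V (l x + t) * W (-t))) (volume.prod volume) := by
    have hK : IsCompact (Metric.closedBall (0 : ι → ℝ) R ×ˢ Set.Icc (0 : ℝ) 4) :=
      (isCompact_closedBall _ _).prod isCompact_Icc
    have hm : Measurable (Function.uncurry fun (x : ι → ℝ) (t : ℝ) =>
        (F x : ℂ) * (V (l x + t) * W (-t))) :=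
      (Complex.measurable_ofReal.comp (mF.comp measurable_fst)).mul
        ((hV.1.continuous.measurable.comp ((ml.comp measurable_fst).add measurable_snd)).mul
          (hW.1.continuous.measurable.comp measurable_snd.neg))
    refine (integrableOn_iff_integrable_of_support_subset
      (s := Metric.closedBall (0 : ι → ℝ) R ×ˢ Set.Icc (0 : ℝ) 4) ?_).1 ?_
    · rintro ⟨x, t⟩ h
      have h' : (F x : ℂ) * (V (l x + t) * W (-t)) ≠ 0 := h
      have f0 : F x ≠ 0 := Complex.ofReal_ne_zero.1 (left_ne_zero_of_mul h')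
      have v0 : l x + t ∈ Set.Icc (-4 : ℝ) 0 := by
        by_contra hc
        exact left_ne_zero_of_mul (right_ne_zero_of_mul h') (hV.2 _ hc)
      have w0 : -t ∈ Set.Icc (-4 : ℝ) 0 := by
        by_contra hc
        exact right_ne_zero_of_mul (right_ne_zero_of_mul h') (hW.2 _ hc)
      exact ⟨mem_closedBall_zero_iff.2 (hR x f0 (by linarith only [v0.2, w0.2])),
        by linarith only [w0.2], by linarith [w0.1]⟩
    · refine Measure.integrableOn_of_bounded (M := 1 * (A * B)) hK.measure_ne_top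
        hm.aestronglyMeasurable (Eventually.of_forall fun p => ?_)
      change ‖(F p.1 : ℂ) * (V (l p.1 + p.2) * W (-p.2))‖ ≤ _
      rw [norm_mul, norm_mul, Complex.norm_real, Real.norm_eq_abs]
      exact mul_le_mul (hF _) (mul_le_mul (a1 _) (b1 _) (norm_nonneg _) hA.le) (by positivity)
        zero_le_one
  have hs : ∀ t : ℝ, ∫ x, (F x : ℂ) * (V (l x + t) * W (-t)) =
      (∫ x, (F x : ℂ) * V (l x)) * (W (-t) * Real.exp (-t)) := by
    intro t
    have hc : 0 < Real.exp (t / Fintype.card ι) := Real.exp_pos _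
    have e := Measure.integral_comp_smul (volume : Measure (ι → ℝ))
      (fun x => (F x : ℂ) * V (l x)) (Real.exp (t / Fintype.card ι))
    rw [Module.finrank_fintype_fun_eq_card, ← Real.exp_nat_mul, mul_div_cancel₀ _ hn',
      ← Real.exp_neg, abs_of_pos (Real.exp_pos _), Complex.real_smul] at e
    have e2 : ∀ x, (F x : ℂ) * (V (l x + t) * W (-t)) =
        (F (Real.exp (t / Fintype.card ι) • x) : ℂ) *
          V (l (Real.exp (t / Fintype.card ι) • x)) * W (-t) := by
      intro x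
      rw [h1 _ x hc]
      by_cases f0 : F x = 0
      · simp only [f0, Complex.ofReal_zero, zero_mul]
      · rw [h2 _ x hc f0, Real.log_exp, mul_div_cancel₀ _ hn', mul_assoc]
    simp only [e2]
    rw [integral_mul_const, e]
    ring
  simp only [← integral_const_mul]
  rw [integral_integral_swap hi]
  simp only [hs]
  exact integral_neg_eq_self (fun u : ℝ => (∫ x, (F x : ℂ) * V (l x)) * (W u * Real.exp u)) volume

theorem geo_sym {F l : (ι → ℝ) → ℝ} {R : ℝ} (hn : 0 < Fintype.card ι) (mF : Measurable F)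
    (ml : Measurable l) (hF : ∀ x, |F x| ≤ 1)
    (h1 : ∀ (c : ℝ) x, 0 < c → F (c • x) = F x)
    (h2 : ∀ (c : ℝ) x, 0 < c → F x ≠ 0 → l (c • x) = l x + Fintype.card ι * Real.log c)
    (hR : ∀ x, F x ≠ 0 → l x ≤ 0 → ‖x‖ ≤ R) :
    ∃ ρ : ℝ, ∀ V, Test V → ∫ x, (F x : ℂ) * V (l x) = ρ * ∫ u : ℝ, V u * Real.exp u := by
  have hi : 0 < ∫ u : ℝ, bump u * Real.exp u :=
    (bump.continuous.mul Real.continuous_exp).integral_pos_of_hasCompactSupport_nonneg_nonzero
      (x := -2) bump.hasCompactSupport.mul_right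
      (fun u => mul_nonneg bump.nonneg (Real.exp_pos u).le)
      (by
        rw [bump_eq_one (by norm_num) (by norm_num), one_mul]
        exact (Real.exp_pos _).ne')
  refine ⟨(∫ x, F x * bump (l x)) / ∫ u : ℝ, bump u * Real.exp u, fun V hV => ?_⟩
  have e1 := geo_fub hn mF ml hF h1 h2 hR hV test_bmp
  have e2 := geo_fub hn mF ml hF h1 h2 hR test_bmp hV
  have e3 : ∀ x, ∫ t : ℝ, V (l x + t) * bmp (-t) = ∫ t : ℝ, bmp (l x + t) * V (-t) := by
    intro x
    rw [← integral_sub_left_eq_self (fun t : ℝ => bmp (l x + t) * V (-t)) volume (-l x)]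
    refine integral_congr_ae (Eventually.of_forall fun t => ?_)
    change _ = bmp (l x + (-l x - t)) * V (-(-l x - t))
    rw [mul_comm, show l x + (-l x - t) = -t by ring, show -(-l x - t) = l x + t by ring]
  simp only [e3] at e1
  rw [e2] at e1
  have r1 : ∫ u : ℝ, bmp u * Real.exp u = ((∫ u : ℝ, bump u * Real.exp u : ℝ) : ℂ) := by
    rw [← integral_complex_ofReal]
    simp only [bmp, Complex.ofReal_mul]
  have r2 : ∫ x, (F x : ℂ) * bmp (l x) = ((∫ x, F x * bump (l x) : ℝ) : ℂ) := by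
    rw [← integral_complex_ofReal]
    simp only [bmp, Complex.ofReal_mul]
  rw [r1, r2] at e1
  rw [Complex.ofReal_div, div_mul_eq_mul_div, eq_div_iff (Complex.ofReal_ne_zero.2 hi.ne'), e1]

end Fubini

section Bounds

variable {E A : Type} [NormedAddCommGroup E] [NormedSpace ℝ E] [NormedAddCommGroup A]
  [NormedSpace ℝ A]

theorem geo_van {f : E → A} {R : ℝ} (h : ∀ x, R < ‖x‖ → f x = 0) (i : ℕ) {x : E}
    (hx : R < ‖x‖) : iteratedFDeriv ℝ i f x = 0 := by
  have e : f =ᶠ[𝓝 x] fun _ => 0 := by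
    filter_upwards [(isOpen_lt continuous_const continuous_norm).mem_nhds hx] with y hy
    exact h y hy
  rw [(e.iteratedFDeriv ℝ i).eq_of_nhds, iteratedFDeriv_fun_zero]
  rfl

theorem geo_bd [ProperSpace E] {f : E → A} (hf : ContDiff ℝ ∞ f) (R : ℝ) (k : ℕ) :
    ∃ C : ℝ, 1 ≤ C ∧ ∀ i ≤ k, ∀ x, ‖x‖ ≤ R → ‖iteratedFDeriv ℝ i f x‖ ≤ C := by
  have h : ∀ i : ℕ, ∃ C, ∀ x ∈ Metric.closedBall (0 : E) R, ‖iteratedFDeriv ℝ i f x‖ ≤ C :=
    fun i => (isCompact_closedBall _ _).exists_bound_of_continuousOn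
      (hf.continuous_iteratedFDeriv (by exact_mod_cast le_top)).continuousOn
  choose C hC using h
  have h0 : 0 ≤ ∑ i ∈ range (k + 1), |C i| := sum_nonneg fun _ _ => abs_nonneg _
  refine ⟨1 + ∑ i ∈ range (k + 1), |C i|, by linarith, fun i hi x hx => ?_⟩
  have := single_le_sum (f := fun i => |C i|) (fun _ _ => abs_nonneg _)
    (mem_range.2 (Nat.lt_succ_of_le hi))
  linarith only [hC i x (mem_closedBall_zero_iff.2 hx), le_abs_self (C i), this]

end Bounds

variable {K : Type} [Field K] [NumberField K]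

theorem geo_abs (s : Bool) {t : ℝ} (h : 0 < sg s * t) : (sg s : ℝ) * t = |t| := by
  rw [← abs_of_pos h, abs_mul]
  cases s <;> simp [sg]

variable (K) in
theorem geo_nonempty : Nonempty (Geo K) := by
  classical
  obtain ⟨φ, p1, p2, p3, p4, p5, p6⟩ := exists_phi K
  obtain ⟨R, hR⟩ := p5 (Real.exp 1)
  have b0 : ∀ u : ℝ, u ≤ -12 → geoB u = 0 := fun u hu => geo_B0 (Or.inl (by linarith))
  have c0 : ∀ u : ℝ, u ≤ -12 → geoC (u / 2) * (u / 2) = 0 := fun u hu => by
    rw [geo_C0 (by linarith only [hu]), zero_mul]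
  have sW : ContDiff ℝ ∞ (geoL geoB) := geo_sm geoB.contDiff b0
  have sL : ContDiff ℝ ∞ (geoL fun u => geoC (u / 2) * (u / 2)) :=
    geo_sm ((geoC.contDiff.comp (contDiff_id.div_const 2)).mul (contDiff_id.div_const 2)) c0
  have cN : Continuous (sN K) := sN_smooth.continuous
  set F : Bool → (Ix K → ℝ) → ℝ := fun s x => if 0 < sg s * sN K x then φ x else 0 with hF
  have key : ∀ v, Test v → ∀ s x, ((φ x * geoL geoB (sg s * sN K x) : ℝ) : ℂ) *
      v (geoL (fun u => geoC (u / 2) * (u / 2)) (sN K x ^ 2)) =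
        F s x * v (Real.log |sN K x|) := by
    intro v hv s x
    by_cases h : 0 < sg s * sN K x
    · have h0 : sN K x ≠ 0 := right_ne_zero_of_mul h.ne'
      have e : Real.log (sN K x ^ 2) / 2 = Real.log |sN K x| := by
        rw [Real.log_pow, Real.log_abs]
        push_cast
        ring
      simp only [hF, geoL, if_pos h, if_pos (pow_pos (abs_pos.2 h0) 2 |>.trans_eq (sq_abs _)), e]
      rw [geo_abs s h]
      by_cases hu : Real.log |sN K x| ∈ Set.Icc (-4 : ℝ) 0
      · rw [geo_B1 hu, geo_C1 ⟨hu.1, by linarith only [hu.2]⟩, mul_one, one_mul]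
      · rw [hv.2 _ hu, mul_zero]
        by_cases h5 : Real.log |sN K x| ≤ -5 ∨ 1 ≤ Real.log |sN K x|
        · rw [geo_B0 h5]
          simp
        · have : geoC (Real.log |sN K x|) = 1 := by
            refine geoC.one_of_mem_closedBall ?_
            change |Real.log (|sN K x|) - -2| ≤ (3 : ℝ)
            rw [not_or, not_le, not_le] at h5
            exact abs_le.2 ⟨by linarith only [h5.1], by linarith [h5.2]⟩
          rw [this, one_mul, hv.2 _ hu, mul_zero]
    · simp only [hF, geoL, if_neg h]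
      simp only [mul_zero, Complex.ofReal_zero, Real.log_pow, Nat.cast_ofNat, ne_eq, OfNat.ofNat_ne_zero, not_false_eq_true, mul_div_cancel_left₀, zero_mul, Real.log_abs]
  have hρ : ∀ s, ∃ ρ : ℝ, ∀ V, Test V →
      ∫ x, (F s x : ℂ) * V (Real.log |sN K x|) = ρ * ∫ u : ℝ, V u * Real.exp u := by
    intro s
    have f0 : ∀ x, F s x ≠ 0 → φ x ≠ 0 := fun x h hc => h (by simp only [hF, hc, ite_self])
    refine geo_sym (R := R) (card_Ix K ▸ dg_pos K) ?_
      (Real.measurable_log.comp cN.abs.measurable) (fun x => ?_) (fun c x hc => ?_)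
      (fun c x hc h => ?_) fun x h hl => hR x (f0 x h) ?_
    · have ho : IsOpen {x | 0 < sg s * sN K x} :=
        isOpen_lt continuous_const (continuous_const.mul cN)
      exact ContinuousOn.measurable_piecewise (f := φ) (g := fun _ => 0)
        (s := {x | 0 < sg s * sN K x})
        (p4.continuousOn.mono fun x (hx : 0 < sg s * sN K x) => right_ne_zero_of_mul hx.ne')
        continuousOn_const ho.measurableSet
    · simp only [hF]
      split_ifs
      · exact abs_le.2 ⟨by linarith [(p1 x).1], (p1 x).2⟩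
      · simp
    · simp only [hF]
      rw [p3 c x hc, sN_smul, mul_left_comm]
      simp only [mul_pos_iff_of_pos_left (pow_pos hc (dg K))]
    · have h0 : sN K x ≠ 0 := fun h0 => f0 x h (p2 x h0)
      rw [sN_smul, Real.log_abs, Real.log_abs, Real.log_mul (pow_pos hc _).ne' h0, Real.log_pow,
        card_Ix, add_comm]
    · have h0 : sN K x ≠ 0 := fun h0 => f0 x h (p2 x h0)
      exact (Real.log_le_iff_le_exp (abs_pos.2 h0)).1 (hl.trans zero_le_one)
  choose ρ hρ using hρ
  have pos : ∀ s x, φ x * geoL geoB (sg s * sN K x) ≠ 0 → 0 < sg s * sN K x := by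
    intro s x h
    by_contra hc
    exact right_ne_zero_of_mul h (if_neg hc)
  refine ⟨⟨fun s x => φ x * geoL geoB (sg s * sN K x),
    fun x => geoL (fun u => geoC (u / 2) * (u / 2)) (sN K x ^ 2), ρ, R, fun s => ?_,
    sL.comp (sN_smooth.pow 2), fun s x hx => ?_, fun s a H hH h => ?_, fun v hv H hH α hα => ?_,
    fun v hv s => ?_⟩⟩
  · refine contDiff_iff_contDiffAt.2 fun x => ?_
    by_cases h0 : sN K x = 0
    · refine (contDiffAt_const (c := (0 : ℝ))).congr_of_eventuallyEq ?_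
      have ho : IsOpen {y | sg s * sN K y < Real.exp (-12)} :=
        isOpen_lt (continuous_const.mul cN) continuous_const
      have hx : x ∈ {y | sg s * sN K y < Real.exp (-12)} := by
        change sg s * sN K x < _
        rw [h0, mul_zero]
        exact Real.exp_pos _
      filter_upwards [ho.mem_nhds hx] with y hy
      rw [geo_small b0 hy, mul_zero]
    · exact (p4.contDiffAt ((isOpen_ne_fun cN continuous_const).mem_nhds h0)).mul
        (sW.comp (contDiff_const.mul sN_smooth)).contDiffAt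
  · by_contra h
    have hp := pos s x h
    refine absurd (hR x (left_ne_zero_of_mul h) ?_) (not_le.2 hx)
    have h2 := right_ne_zero_of_mul h
    rw [geoL, if_pos hp, geo_abs s hp] at h2
    refine (Real.log_le_iff_le_exp (abs_pos.2 (right_ne_zero_of_mul hp.ne'))).1 ?_
    by_contra hc
    exact h2 (geo_B0 (Or.inr (not_le.1 hc).le))
  · have hp := pos s _ h
    rw [sN_pt, ← mul_div_assoc, div_pos_iff_of_pos_right (pow_pos hH _)] at hp
    exact_mod_cast hp
  · have hs := ((Complex.hasSum_ofReal.2 (p6 α hα)).mul_right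
      (v (Real.log (|(nm α : ℝ)| / H ^ dg K))))
    rw [Complex.ofReal_one, one_mul] at hs
    refine (congrArg (fun f => HasSum f _) (funext fun u => ?_)).mpr hs
    have hu : |nm ((u : 𝓞 K) * α)| = |nm α| := by
      rw [nm, map_mul, abs_mul, Int.isUnit_iff_abs_eq.1 (u.isUnit.map (Algebra.norm ℤ)), one_mul]
    have hu' : |(nm ((u : 𝓞 K) * α) : ℝ)| = |(nm α : ℝ)| := by exact_mod_cast hu
    have e : |sN K (pt H ((el K).symm (u * α)))| = |(nm α : ℝ)| / H ^ dg K := by
      rw [sN_pt, LinearEquiv.apply_symm_apply, abs_div, hu', abs_of_pos (pow_pos hH _)]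
    have h0 : sN K (pt H ((el K).symm (u * α))) ≠ 0 := by
      rw [← abs_pos, e]
      exact div_pos (abs_pos.2 (Int.cast_ne_zero.2 (Algebra.norm_ne_zero_iff.2 hα))) (pow_pos hH _)
    have e2 : φ (pt H ((el K).symm (u * α))) = φ (pt 1 ((el K).symm (u * α))) := by
      rw [← p3 H _ hH]
      congr 1
      funext i
      simp only [pt, Pi.smul_apply, smul_eq_mul, div_one]
      exact mul_div_cancel₀ _ hH.ne'
    simp only [key v hv, e]
    rw [← sum_mul, Fintype.sum_bool]
    simp only [hF, e2, sg, if_true, Bool.false_eq_true, if_false, Int.cast_one, Int.cast_neg,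
      one_mul, neg_mul, neg_pos]
    rcases h0.lt_or_gt with h | h
    · rw [if_neg (not_lt.2 h.le), if_pos h, Complex.ofReal_zero, zero_add]
    · rw [if_pos h, if_neg (not_lt.2 h.le), Complex.ofReal_zero, add_zero]
  · simp only [key v hv s]
    exact hρ s v hv

theorem Geo.nice (G : Geo K) (k : ℕ) : ∃ C : ℝ, 0 < C ∧ ∀ (v : ℝ → ℂ) (B : ℝ) (s : Bool),
    Test v → Db k B v → Nice G.R k (C * B) (G.g v s) := by
  have sP : ∀ s, ContDiff ℝ ∞ fun x => (G.Φ s x : ℂ) := fun s =>
    Complex.ofRealCLM.contDiff.comp (G.smΦ s)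
  choose A hA1 hA using fun s => geo_bd (sP s) G.R k
  obtain ⟨D, hD1, hD⟩ := geo_bd G.sml G.R k
  have hA' : ∀ s, A s ≤ A true + A false := fun s => by
    cases s <;> linarith [hA1 true, hA1 false]
  have a0 : 0 < A true + A false := by linarith [hA1 true, hA1 false]
  have d0 : 0 < D := by linarith
  refine ⟨2 ^ k * (A true + A false) * (k.factorial * D ^ k), by positivity,
    fun v B s hv hB => ?_⟩
  have hB0 : 0 ≤ B := (norm_nonneg _).trans (hB 0 (Nat.zero_le _) 0)
  have hz : ∀ x, G.R < ‖x‖ → G.g v s x = 0 := fun x hx => by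
    rw [Geo.g, G.supp s x hx, Complex.ofReal_zero, zero_mul]
  refine ⟨(sP s).mul (hv.1.comp G.sml), hz, fun j hj x => ?_⟩
  by_cases hx : G.R < ‖x‖
  · rw [geo_van hz j hx, norm_zero]
    positivity
  · have hx' := not_lt.1 hx
    have h1 : ∀ i ≤ k, ‖iteratedFDeriv ℝ i (v ∘ G.l) x‖ ≤ k.factorial * D ^ k * B := by
      intro i hi
      refine (norm_iteratedFDeriv_comp_le (C := B) (D := D) hv.1 G.sml
        (by exact_mod_cast le_top) x (fun m hm => ?_) fun m h1 hm => ?_).trans ?_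
      · rw [norm_iteratedFDeriv_eq_norm_iteratedDeriv]
        exact hB m (hm.trans hi) _
      · exact (hD m (hm.trans hi) x hx').trans (le_self_pow₀ hD1 (by omega))
      · rw [mul_right_comm]
        have : (i.factorial : ℝ) ≤ k.factorial := Nat.cast_le.2 (Nat.factorial_le hi)
        have := pow_le_pow_right₀ hD1 hi
        gcongr
    refine (norm_iteratedFDeriv_mul_le (sP s) (hv.1.comp G.sml) x
      (by exact_mod_cast le_top)).trans ?_
    calc _ ≤ ∑ i ∈ range (j + 1),
          (j.choose i : ℝ) * (A true + A false) * (k.factorial * D ^ k * B) := by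
          refine sum_le_sum fun i hi => ?_
          have hi' : i ≤ k := (Nat.le_of_lt_succ (mem_range.1 hi)).trans hj
          have e1 := (hA s i hi' x hx').trans (hA' s)
          have e2 := h1 (j - i) ((Nat.sub_le _ _).trans hj)
          gcongr
      _ = 2 ^ j * (A true + A false) * (k.factorial * D ^ k * B) := by
          rw [← sum_mul, ← sum_mul, ← Nat.cast_sum, Nat.sum_range_choose]
          push_cast
          rfl
      _ ≤ _ := by
          rw [mul_assoc (2 ^ k * (A true + A false))]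
          have : (2 : ℝ) ^ j ≤ 2 ^ k := pow_le_pow_right₀ one_le_two hj
          gcongr

theorem Test.db {v : ℝ → ℂ} (hv : Test v) (k : ℕ) : ∃ B : ℝ, 0 < B ∧ Db k B v := by
  obtain ⟨C, hC1, hC⟩ := geo_bd hv.1 4 k
  refine ⟨C, by linarith, fun j hj u => ?_⟩
  rw [← norm_iteratedFDeriv_eq_norm_iteratedDeriv]
  by_cases hu : 4 < ‖u‖
  · rw [geo_van (R := 4) (fun x hx => hv.2 x fun h => ?_) j hu, norm_zero]
    · linarith only [hC1]
    · exact absurd (abs_le.2 ⟨h.1, h.2.trans (by norm_num)⟩) (not_le.2 hx)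
  · exact hC j hj u (not_lt.1 hu)

end Pool.Agent.MP_48b1c3_nt.H91

end
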