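import Pool.Agent.MP_48b1c3_nt.Mg.H91_Geo

/-! Integers of given norm in a box. -/

namespace Pool.Agent.MP_48b1c3_nt.H91

open Finset NumberField H54 Filter
open scoped ContDiff Topology

variable {K : Type} [Field K] [NumberField K]

theorem rep_prod (α : 𝓞 K) : |(nm α : ℝ)| = ∏ φ : K →+* ℂ, ‖φ α‖ := by
  have h := congrArg (‖·‖) (Algebra.norm_eq_prod_embeddings ℚ ℂ (α : K))
  simp only [norm_prod] at h
  rw [Fintype.prod_equiv (RingHom.equivRatAlgHom K ℂ) (fun φ => ‖φ α‖) (fun φ => ‖φ α‖)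
    fun _ => rfl, ← h, ← Algebra.coe_norm_int]
  simp

variable (K) in
theorem rep_emb : ∃ C : ℝ, 1 ≤ C ∧ ∀ (T : ℝ) (α : 𝓞 K), 0 ≤ T →
    (∀ i, |((el K).symm α i : ℝ)| ≤ T) → ∀ φ : K →+* ℂ, ‖φ α‖ ≤ C * T := by
  refine ⟨1 + ∑ φ : K →+* ℂ, ∑ i, ‖φ (RingOfIntegers.basis K i)‖,
    le_add_of_nonneg_right (by positivity), fun T α hT h φ => ?_⟩
  have e : α = ∑ i, (el K).symm α i • RingOfIntegers.basis K i := by
    rw [← Module.Basis.equivFun_symm_apply]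
    exact ((el K).apply_symm_apply α).symm
  have e1 : φ α = ∑ i, ((el K).symm α i : ℂ) * φ (RingOfIntegers.basis K i) := by
    conv_lhs => rw [e]
    simp
  calc ‖φ α‖ ≤ ∑ i, T * ‖φ (RingOfIntegers.basis K i)‖ := by
        rw [e1]
        refine norm_sum_le_of_le _ fun i _ => ?_
        rw [norm_mul, Complex.norm_intCast]
        exact mul_le_mul_of_nonneg_right (h i) (norm_nonneg _)
    _ ≤ _ := by
        rw [← mul_sum, mul_comm]
        refine mul_le_mul_of_nonneg_right (le_add_of_nonneg_of_le zero_le_one ?_) hT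
        exact single_le_sum (f := fun φ : K →+* ℂ => ∑ i, ‖φ (RingOfIntegers.basis K i)‖)
          (fun _ _ => by positivity) (mem_univ φ)

theorem rep_nm_le {A : ℝ} {α : 𝓞 K} (h : ∀ φ : K →+* ℂ, ‖φ α‖ ≤ A) :
    |(nm α : ℝ)| ≤ A ^ dg K := by
  rw [rep_prod]
  refine (prod_le_prod (fun _ _ => norm_nonneg _) fun φ _ => h φ).trans_eq ?_
  rw [prod_const, card_univ, Embeddings.card]

theorem rep_low {A : ℝ} (hA : 1 ≤ A) {α : 𝓞 K} (h0 : nm α ≠ 0) (h : ∀ φ : K →+* ℂ, ‖φ α‖ ≤ A)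
    (φ : K →+* ℂ) : 1 ≤ ‖φ α‖ * A ^ dg K := by
  classical
  have h1 : (1 : ℝ) ≤ |(nm α : ℝ)| := by exact_mod_cast Int.one_le_abs h0
  rw [rep_prod, ← mul_prod_erase _ _ (mem_univ φ)] at h1
  refine h1.trans (mul_le_mul_of_nonneg_left ?_ (norm_nonneg _))
  refine (prod_le_prod (fun _ _ => norm_nonneg _) fun ψ _ => h ψ).trans ?_
  rw [prod_const]
  exact pow_le_pow_right₀ hA (card_erase_le.trans_eq (by rw [card_univ, Embeddings.card]))

variable (K) in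
theorem nm_le : ∃ C : ℝ, 0 < C ∧ ∀ (T : ℝ) (α : 𝓞 K), 0 ≤ T →
    (∀ i, |((el K).symm α i : ℝ)| ≤ T) → |(nm α : ℝ)| ≤ C * T ^ dg K := by
  obtain ⟨C, hC, h⟩ := rep_emb K
  exact ⟨C ^ dg K, by positivity, fun T α hT hα => mul_pow C T _ ▸ rep_nm_le (h T α hT hα)⟩

variable (K) in
theorem rep_fib : ∃ N : ℕ, ∀ (A : ℝ) (m : ℕ) (S : Finset (𝓞 K)), 1 ≤ A → m ≠ 0 →
    (∀ α ∈ S, (∀ φ : K →+* ℂ, ‖φ α‖ ≤ A) ∧ (nm α).natAbs = m) →
      #S ≤ N * (#(idN K m) * (⌊(dg K + 1) * Real.log A⌋₊ + 1) ^ dg K) := by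
  classical
  have hF := Embeddings.finite_of_norm_le K ℂ (Real.exp 1)
  refine ⟨#hF.toFinset, fun A m S hA hm hS => ?_⟩
  have hA0 : 0 < A := by linarith
  have h0 : ∀ α ∈ S, nm α ≠ 0 := fun α hα e => hm (by rw [← (hS α hα).2, e]; rfl)
  have h1 : ∀ α ∈ S, ∀ φ : K →+* ℂ, 1 ≤ ‖φ α‖ * A ^ dg K := fun α hα =>
    rep_low hA (h0 α hα) (hS α hα).1
  have := card_le_mul_card_image_of_maps_to (s := S)
    (f := fun α : 𝓞 K => (Ideal.span {α}, fun φ : K →+* ℂ => ⌊Real.log (‖φ α‖ * A ^ dg K)⌋₊))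
    (t := idN K m ×ˢ Fintype.piFinset fun _ => range (⌊(dg K + 1) * Real.log A⌋₊ + 1))
    (fun α hα => ?_) #hF.toFinset fun b _ => ?_
  · rwa [card_product, Fintype.card_piFinset, prod_const, card_range, card_univ,
      Embeddings.card] at this
  · refine mem_product.2 ⟨(mem_idN K).2 ?_, Fintype.mem_piFinset.2 fun φ => ?_⟩
    · rw [Ideal.absNorm_span_singleton]
      exact (hS α hα).2
    · refine mem_range.2 (Nat.lt_succ_of_le (Nat.floor_mono ?_))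
      rw [← Nat.cast_succ, ← Real.log_pow, pow_succ']
      exact Real.log_le_log (zero_lt_one.trans_le (h1 α hα φ))
        (mul_le_mul_of_nonneg_right ((hS α hα).1 φ) (by positivity))
  · rcases (S.filter fun α : 𝓞 K => (Ideal.span {α}, fun φ : K →+* ℂ =>
      ⌊Real.log (‖φ α‖ * A ^ dg K)⌋₊) = b).eq_empty_or_nonempty with e | ⟨β, hβ⟩
    · rw [e]
      exact Nat.zero_le _
    obtain ⟨hβ, eβ⟩ := mem_filter.1 hβ
    have hβ0 : (β : K) ≠ 0 := fun e => h0 β hβ (by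
      rw [RingOfIntegers.coe_eq_zero_iff.1 e, nm, Algebra.norm_zero])
    refine card_le_card_of_injOn (fun α : 𝓞 K => (α : K) / β) (fun α hα => ?_) fun α _ α' _ e =>
      RingOfIntegers.coe_injective ((div_left_inj' hβ0).1 e)
    obtain ⟨hα, eα⟩ := mem_filter.1 (mem_coe.1 hα)
    obtain ⟨e1, e2⟩ := Prod.ext_iff.1 (eα.trans eβ.symm)
    refine mem_coe.2 (hF.mem_toFinset.2 ⟨?_, fun φ => ?_⟩)
    · obtain ⟨u, rfl⟩ := Ideal.span_singleton_le_span_singleton.1 e1.le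
      simpa [hβ0] using u.isIntegral_coe
    · have e3 : ⌊Real.log (‖φ α‖ * A ^ dg K)⌋₊ = ⌊Real.log (‖φ β‖ * A ^ dg K)⌋₊ := congrFun e2 φ
      have a1 := Nat.lt_floor_add_one (Real.log (‖φ α‖ * A ^ dg K))
      have a2 := Nat.floor_le (Real.log_nonneg (h1 β hβ φ))
      have a3 : Real.log (‖φ α‖ * A ^ dg K) ≤ 1 + Real.log (‖φ β‖ * A ^ dg K) := by
        rw [e3] at a1
        linarith only [a1, a2]
      rw [Real.log_le_iff_le_exp (zero_lt_one.trans_le (h1 α hα φ)), Real.exp_add,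
        Real.exp_log (zero_lt_one.trans_le (h1 β hβ φ)), ← mul_assoc] at a3
      rw [map_div₀, norm_div, div_le_iff₀ (norm_pos_iff.2 ((map_ne_zero φ).2 hβ0))]
      exact le_of_mul_le_mul_right a3 (by positivity)

variable (K) in
theorem rep_count {δ : ℝ} (hδ : 0 < δ) : ∃ C : ℝ, 0 < C ∧ ∀ (T : ℝ) (m : ℕ) (S : Finset (𝓞 K)),
    1 ≤ T → m ≠ 0 → (∀ α ∈ S, (∀ i, |((el K).symm α i : ℝ)| ≤ T) ∧ (nm α).natAbs = m) →
      (#S : ℝ) ≤ C * T ^ δ := by
  obtain ⟨C, hC, h⟩ := rep_emb K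
  obtain ⟨N, hN⟩ := rep_fib K
  have hn : (0 : ℝ) < dg K := Nat.cast_pos.2 (dg_pos K)
  obtain ⟨ε, hε, eε⟩ : ∃ ε : ℝ, 0 < ε ∧ (dg K * ε + ε) * dg K = δ :=
    ⟨δ / ((dg K + 1) * dg K), by positivity, by field_simp⟩
  obtain ⟨C₁, hC₁, ht⟩ := tau_le hε
  refine ⟨(N + 1) * (C₁ * ((dg K + 1) / ε + 1)) ^ dg K * C ^ δ, by positivity,
    fun T m S hT hm hS => ?_⟩
  rcases S.eq_empty_or_nonempty with rfl | ⟨β, hβ⟩
  · rw [card_empty, Nat.cast_zero]
    positivity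
  have hA : 1 ≤ C * T := one_le_mul_of_one_le_of_one_le hC hT
  have hS' := fun α hα => h T α (by linarith) (hS α hα).1
  have h1 := hN (C * T) m S hA hm fun α hα => ⟨hS' α hα, (hS α hα).2⟩
  have h2 : (m : ℝ) ≤ (C * T) ^ dg K := by
    have := rep_nm_le (hS' β hβ)
    rwa [← Int.cast_abs, ← Int.natCast_natAbs, (hS β hβ).2, Int.cast_natCast] at this
  rw [mul_assoc, mul_assoc, ← Real.mul_rpow (by linarith only [hC]) (by linarith only [hT])]
  generalize C * T = A at *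
  have hA0 : 0 < A := by linarith only [hA]
  have h3 : tau m ≤ C₁ * A ^ (dg K * ε) := by
    rw [Real.rpow_mul hA0.le, Real.rpow_natCast]
    refine (ht m).trans ?_
    gcongr
  have h4 : ((⌊(dg K + 1) * Real.log A⌋₊ : ℝ) + 1) ≤ ((dg K + 1) / ε + 1) * A ^ ε := by
    have a1 := Nat.floor_le (mul_nonneg (show (0 : ℝ) ≤ dg K + 1 by positivity)
      (Real.log_nonneg hA))
    have a2 := mul_le_mul_of_nonneg_left (Real.log_le_rpow_div hA0.le hε)
      (show (0 : ℝ) ≤ dg K + 1 by positivity)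
    have a3 := Real.one_le_rpow hA hε.le
    calc _ ≤ (dg K + 1) * (A ^ ε / ε) + A ^ ε := by linarith only [a1, a2, a3]
      _ = _ := by ring
  have h5 : 0 ≤ tau m := Nat.cast_nonneg _
  calc (#S : ℝ) ≤ N * (#(idN K m) * ((⌊(dg K + 1) * Real.log A⌋₊ : ℝ) + 1) ^ dg K) := by
        exact_mod_cast h1
    _ ≤ (N + 1) * ((C₁ * A ^ (dg K * ε)) ^ dg K * (((dg K + 1) / ε + 1) * A ^ ε) ^ dg K) := by
        gcongr
        · linarith only []
        · exact (card_idN_le hm).trans (pow_le_pow_left₀ h5 h3 _)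
    _ = _ := by
        rw [← eε, Real.rpow_mul hA0.le (dg K * ε + ε), Real.rpow_natCast, Real.rpow_add hA0,
          ← mul_pow, ← mul_pow]
        ring

end Pool.Agent.MP_48b1c3_nt.H91
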