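import Pool.Agent.MP_48b1c3_nt.Mg.H48_QX
import Pool.Agent.MP_48b1c3_nt.Mg.H91_Rep
import Pool.Agent.MP_48b1c3_nt.Mg.H91_Dec
import Pool.Agent.MP_48b1c3_nt.Mg.H91_Geo

attribute [-instance] IdemSemiring.toCanonicallyOrderedAdd AddQuantale.instAddLeftMono
  AlgHom.instNonUnitalAlgHomClassOfAlgHomClass IdemSemiring.toMulLeftMono
  IsOrderedMonoid.toMulLeftMono ContinuousSemilinearMapClass.toSemilinearMapClass RKHS.instFunLike
  IsOrderedCancelAddMonoid.toIsCancelAdd Quantale.instMulLeftMono AddQuantale.instAddRightMono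
  littleWedderburn instNonUnitalAlgHomClassOfNonUnitalAlgEquivClass
  Group.IsPerfect.subsingleton_of_isMulCommutative CoalgHomClass.toSemilinearMapClass
  Submodule.Quotient.addCommMonoid Quantale.instMulRightMono covariant_swap_mul_of_covariant_mul
  TotallySeparatedSpace.t2Space instCharZeroOfIsSemireal LieAdmissibleAlgebra.toModule
  CanonicallyOrderedAdd.toMulLeftMono instCoeTOfCoeDep
  CommMonTypeEquivalenceCommMon.commMonCommMonoid LeftPreLieAlgebra.toModule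
  instCoeHTCTOfCoeTailOfCoeHTC RightPreLieAlgebra.toModule RingHomClass.toLinearMapClassRat
  RingHomClass.toLinearMapClassNNRat IsTopologicalTorsor.toContinuousSMul
  DenselyNormedField.toNormedField instCoeTCOfCoe NonUnitalAlgHomClass.instLinearMapClass
  TestFunctionClass.toDFunLike SemilinearIsometryClass.toSemilinearMapClass
  ContDiffMapSupportedInClass.toDFunLike CompletePartialOrder.toPartialOrder
  instIsDedekindFiniteMonoidOfFinite
  NonUnitalAlgHomClass.instSemilinearMapClassOfNonUnitalAlgSemiHomClassToMonoidHomRingHom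
  AlgHomClass.linearMapClass NormedDivisionRing.toDivisionRing

-- part MP_48b1c3_nt.H48.Good
section

namespace Pool.Agent.MP_48b1c3_nt.H48

open Finset NumberField H54 H91 Filter
open scoped Classical BigOperators Topology

variable {K : Type} [Field K] [NumberField K]

theorem gooda_mono {S S' T E E' : ℝ} {Φ : 𝓞 K → ℂ} (h : Good S T E Φ) (hS : S ≤ S')
    (hE : E ≤ E') : Good S' T E' Φ := by
  obtain ⟨I, i1, i2, s, h1, h2⟩ := h
  exact ⟨I, i1, i2, s, fun i => (h1 i).trans hS, h2.trans hE⟩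

omit [NumberField K] in
theorem gooda_unit {p n : ℕ} (hp : p.Prime) (hn : ¬ p ∣ n) :
    IsUnit (Ideal.Quotient.mk (Ideal.span {(p : 𝓞 K)}) (n : 𝓞 K)) := by
  obtain ⟨a, b, h⟩ : IsCoprime (p : 𝓞 K) (n : 𝓞 K) :=
    ((Nat.Prime.coprime_iff_not_dvd hp).2 hn).cast
  refine IsUnit.of_mul_eq_one_right (Ideal.Quotient.mk _ b) ?_
  rw [← map_mul, ← map_one (Ideal.Quotient.mk (Ideal.span {(p : 𝓞 K)})), Ideal.Quotient.eq,
    Ideal.mem_span_singleton]
  exact ⟨-a, by rw [← h]; ring⟩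

theorem gooda_char {p : ℕ} (hp : p.Prime) (hD : ¬ p ∣ DD K)
    [Fintype (𝓞 K ⧸ Ideal.span {(p : 𝓞 K)})] (r : 𝓞 K ⧸ Ideal.span {(p : 𝓞 K)} → 𝓞 K)
    (hr : ∀ t, Ideal.Quotient.mk _ (r t) = t) (χ : DirichletCharacter ℂ p)
    (hχ : χ.IsPrimitive) : ∑ t, χ (nm (r t) : ℤ) = 0 := by
  have := Fact.mk hp
  have h1 : χ ≠ 1 := fun h => by
    rw [h, DirichletCharacter.isPrimitive_def, DirichletCharacter.conductor_one] at hχ
    exact hp.one_lt.ne hχ
  obtain ⟨a, ha⟩ := MulChar.ne_one_iff.1 h1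
  have hcast : ∀ x y : ℤ, (p : ℤ) ∣ x - y → (x : ZMod p) = y := fun x y h => by
    rw [← sub_eq_zero, ← Int.cast_sub, ZMod.intCast_zmod_eq_zero_iff_dvd]; exact h
  have ht : ¬ (p : ℤ) ∣ ((a : ZMod p).val : ℤ) := fun h => by
    rw [← ZMod.intCast_zmod_eq_zero_iff_dvd, Int.cast_natCast, ZMod.natCast_zmod_val] at h
    exact a.ne_zero h
  obtain ⟨u, -, hu⟩ := norm_loc (K := K) hp hD (β := 0) (by simp [nm]) ht
  have hu1 : ((nm u : ℤ) : ZMod p) = a := by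
    rw [hcast _ _ hu, Int.cast_natCast, ZMod.natCast_zmod_val]
  have hu2 : IsUnit (Ideal.Quotient.mk (Ideal.span {(p : 𝓞 K)}) u) := by
    have h2 : ¬ p ∣ (nm u).natAbs := fun h => by
      rw [← Int.natCast_dvd, ← ZMod.intCast_zmod_eq_zero_iff_dvd, hu1] at h
      exact a.ne_zero h
    refine isUnit_of_dvd_unit (map_dvd _ ?_) (gooda_unit (K := K) hp h2)
    rw [← Ideal.mem_span_singleton, ← Ideal.absNorm_span_singleton]
    exact Ideal.absNorm_mem _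
  have h3 : ∑ t, χ (nm (r t) : ℤ) = χ a * ∑ t, χ (nm (r t) : ℤ) := by
    rw [mul_sum, ← Equiv.sum_comp (Units.mulLeft hu2.unit) fun t => χ (nm (r t) : ℤ)]
    refine sum_congr rfl fun t _ => ?_
    rw [← hu1, ← map_mul, ← Int.cast_mul, ← map_mul]
    refine congrArg χ (hcast _ _ (nm_congr ?_))
    rw [Int.cast_natCast, ← Ideal.mem_span_singleton, ← Ideal.Quotient.eq, hr, map_mul, hr]
    rfl
  have h4 : (χ a - 1) * ∑ t, χ (nm (r t) : ℤ) = 0 := by rw [sub_mul, ← h3, one_mul, sub_self]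
  exact (mul_eq_zero.1 h4).resolve_left (sub_ne_zero.2 ha)

theorem gooda_sum {p g : ℕ} (hp : p.Prime) (hD : ¬ p ∣ DD K) (hg : ¬ p ∣ g)
    [Fintype (𝓞 K ⧸ Ideal.span {(p : 𝓞 K)})] (r : 𝓞 K ⧸ Ideal.span {(p : 𝓞 K)} → 𝓞 K)
    (hr : ∀ t, Ideal.Quotient.mk _ (r t) = t) (l : ℤ) (k : 𝓞 K) :
    ∑ t, qq p (l * nm (k + (g : 𝓞 K) * r t)) = 0 := by
  have hu := gooda_unit (K := K) hp hg
  have h1 : ∑ t, qq p (l * nm (k + (g : 𝓞 K) * r t)) = ∑ t, qq p (l * nm (r t)) := by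
    rw [← ((Units.mulLeft hu.unit).trans
      (Equiv.addLeft (Ideal.Quotient.mk (Ideal.span {(p : 𝓞 K)}) k))).sum_comp
        fun t => qq p (l * nm (r t))]
    refine sum_congr rfl fun t _ => qq_congr ?_
    rw [← mul_sub]
    refine Dvd.dvd.mul_left (nm_congr ?_) _
    rw [Int.cast_natCast, ← Ideal.mem_span_singleton, ← Ideal.Quotient.eq, hr, map_add, map_mul, hr]
    rfl
  have h2 : ∀ x : ℤ, qq p x = ∑ i ∈ Xf {p}, i.2 x := fun x => by
    have := Qf_eq (f := {p}) (by simpa using hp) x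
    rwa [Qf, prod_singleton, prod_singleton] at this
  rw [h1]
  simp only [h2]
  rw [sum_comm]
  refine sum_eq_zero fun ⟨q, χ⟩ hi => ?_
  obtain ⟨hq, hχ⟩ := mem_Xf.1 hi
  obtain rfl : q = p := mem_singleton.1 hq
  simp only [Int.cast_mul, map_mul]
  rw [← mul_sum, gooda_char hp hD r hr χ hχ, mul_zero]

variable (K) in
theorem good_small : ∃ C : ℝ, 0 < C ∧ ∀ (m : ℕ) (f : Finset ℕ) (η : 𝓞 K → ℂ) (l : ℤ) (T : ℝ),
    0 < m → DD K ∣ m → Prs m f → f.Nonempty → Per m η →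
      Good (C * m * pe f) T 0 fun a : 𝓞 K => η a * Qf f (l * nm a) := by
  obtain ⟨C, hC, hrep⟩ := exists_rep K
  refine ⟨C, by linarith, fun m f η l T hm hD hf ⟨p, hp⟩ hη => ?_⟩
  obtain ⟨hpp, hpm⟩ := hf p hp
  have : Finite (𝓞 K ⧸ Ideal.span {(p : 𝓞 K)}) :=
    Ideal.finiteQuotientOfFreeOfNeBot _ (by simpa only [ne_eq, Submodule.span_eq_bot, Set.mem_singleton_iff, forall_eq, Nat.cast_eq_zero] using hpp.ne_zero)
  have := Fintype.ofFinite (𝓞 K ⧸ Ideal.span {(p : 𝓞 K)})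
  have hex : ∀ t : 𝓞 K ⧸ Ideal.span {(p : 𝓞 K)}, ∃ b, Ideal.Quotient.mk _ b = t ∧ sz b ≤ C * p :=
    fun t => by
      obtain ⟨a, rfl⟩ := Ideal.Quotient.mk_surjective t
      obtain ⟨b, h1, h2⟩ := hrep p hpp.pos a
      exact ⟨b, Ideal.Quotient.eq.2 h1, h2⟩
  choose r hr hs using hex
  have hg : ¬ p ∣ m * ∏ q ∈ f.erase p, q := fun h => by
    rcases (Nat.Prime.dvd_mul hpp).1 h with h | h
    · exact hpm h
    · obtain ⟨q, hq, h⟩ := (Prime.dvd_finsetProd_iff hpp.prime _).1 h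
      exact (mem_erase.1 hq).1
        ((Nat.prime_dvd_prime_iff_eq hpp (hf q (mem_erase.1 hq).2).1).1 h).symm
  refine ⟨_, this, inferInstance, fun t => ((m * ∏ q ∈ f.erase p, q : ℕ) : 𝓞 K) * r t,
    fun t => ?_, (sum_eq_zero fun k _ => ?_).le⟩
  · rw [sz_natCast_mul, pe, ← mul_prod_erase f _ hp]
    refine (mul_le_mul_of_nonneg_left (hs t) (Nat.cast_nonneg _)).trans_eq ?_
    push_cast
    ring
  · have h1 : ∀ t, η (k + ((m * ∏ q ∈ f.erase p, q : ℕ) : 𝓞 K) * r t) *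
        Qf f (l * nm (k + ((m * ∏ q ∈ f.erase p, q : ℕ) : 𝓞 K) * r t)) =
        η k * Qf (f.erase p) (l * nm k) *
          qq p (l * nm (k + ((m * ∏ q ∈ f.erase p, q : ℕ) : 𝓞 K) * r t)) := fun t => by
      rw [Qf, ← mul_prod_erase f _ hp, mul_assoc (η k), mul_comm (Qf _ _), Qf]
      refine congrArg₂ _ ?_ (congrArg _ ?_)
      · rw [Nat.cast_mul, mul_assoc]; exact hη.2 _ _
      · refine prod_congr rfl fun q hq => qq_congr ?_
        rw [← mul_sub]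
        refine Dvd.dvd.mul_left (nm_congr ?_) _
        rw [add_sub_cancel_left, Int.cast_natCast]
        exact Dvd.dvd.mul_right (Nat.cast_dvd_cast ((dvd_prod_of_mem _ hq).mul_left _)) _
    rw [av]
    simp only [h1]
    rw [← mul_sum, gooda_sum hpp (fun h => hpm (h.trans hD)) hg r hr, mul_zero, zero_div,
      norm_zero]

omit [NumberField K] in
theorem goodb_av {I J : Type} [Fintype I] (s : I → 𝓞 K) (t : Finset J) (c : J → ℂ)
    (F : J → 𝓞 K → ℂ) (k : 𝓞 K) :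
    av s (fun a => ∑ j ∈ t, c j * F j a) k = ∑ j ∈ t, c j * av s (F j) k := by
  simp only [av]
  rw [sum_comm, sum_div]
  exact sum_congr rfl fun j _ => by rw [← mul_sum, mul_div_assoc]

theorem goodb_per {D : Finset ℕ} (hD : ∀ p ∈ D, p.Prime) (l : ℤ) :
    Per (∏ p ∈ D, p) fun a : 𝓞 K => ∏ p ∈ D, qq p (l * nm a) / p := by
  refine ⟨fun a => ?_, fun a u => prod_congr rfl fun p hp => ?_⟩
  · rw [norm_prod]
    refine prod_le_one (fun _ _ => norm_nonneg _) fun p hp => ?_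
    have h1 := norm_qq_le (hD p hp) (l * nm a)
    have h2 : (0 : ℝ) < p := by exact_mod_cast (hD p hp).pos
    rw [norm_div, Complex.norm_natCast, div_le_one h2]
    linarith
  · rw [qq_congr]
    rw [← mul_sub]
    refine Dvd.dvd.mul_left (nm_congr ?_) _
    rw [add_sub_cancel_left, Int.cast_natCast]
    exact Dvd.dvd.mul_right (Nat.cast_dvd_cast (dvd_prod_of_mem _ hp)) _

omit [NumberField K] in
theorem goodb_mul {g g' : ℕ} {Φ Φ' : 𝓞 K → ℂ} (h : Per g Φ) (h' : Per g' Φ') :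
    Per (g * g') fun a => Φ a * Φ' a := by
  refine ⟨fun a => ?_, fun a u => ?_⟩
  · rw [norm_mul]
    exact mul_le_one₀ (h.1 a) (norm_nonneg _) (h'.1 a)
  · have h1 := h.2 a (g' * u)
    have h2 := h'.2 a (g * u)
    rw [← mul_assoc] at h1 h2
    rw [mul_comm (g' : 𝓞 K)] at h2
    simp only [Nat.cast_mul, h1, h2]

theorem goodb_pe (D : Finset ℕ) : ((∏ p ∈ D, p : ℕ) : ℝ) = pe D := by
  rw [pe, Nat.cast_prod]

theorem goodb_red {I : Type} [Fintype I] (s : I → 𝓞 K) {f f₀ : Finset ℕ} (hf : ∀ p ∈ f, p.Prime)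
    (h0 : f₀ ⊆ f) (η : 𝓞 K → ℂ) (l : ℤ) {T E : ℝ} (hE : 0 ≤ E)
    (h : ∀ χ : DirichletCharacter ℂ (∏ p ∈ f₀, p), χ.IsPrimitive → ∑ k ∈ Bl K T,
      ‖av s (fun a => χ (nm a : ℤ) * (η a * ∏ p ∈ f \ f₀, qq p (l * nm a) / p)) k‖ ≤ E) :
    ∑ k ∈ Bl K T, ‖av s (fun a : 𝓞 K => η a * Qf f (l * nm a)) k‖ ≤ pe f * E := by
  have hf0 : ∀ p ∈ f₀, p.Prime := fun p hp => hf p (h0 hp)
  have hf1 : ∀ p ∈ f \ f₀, p.Prime := fun p hp => hf p (mem_sdiff.1 hp).1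
  have h1 := pe_ge_one hf1
  have h2 : (fun a : 𝓞 K => η a * Qf f (l * nm a)) = fun a => ∑ i ∈ Xf {∏ p ∈ f₀, p},
      (i.2 l * pe (f \ f₀)) * (i.2 (nm a : ℤ) * (η a * ∏ p ∈ f \ f₀, qq p (l * nm a) / p)) := by
    funext a
    have h3 : Qf f (l * nm a) = Qf (f \ f₀) (l * nm a) * Qf f₀ (l * nm a) :=
      (prod_sdiff h0).symm
    have h4 : Qf (f \ f₀) (l * nm a) = pe (f \ f₀) * ∏ p ∈ f \ f₀, qq p (l * nm a) / p := by
      rw [pe, Complex.ofReal_prod, ← prod_mul_distrib]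
      refine prod_congr rfl fun p hp => ?_
      have : (p : ℂ) ≠ 0 := by exact_mod_cast (hf1 p hp).ne_zero
      push_cast
      field_simp
    rw [h3, h4, Qf_eq hf0, mul_sum, mul_sum]
    refine sum_congr rfl fun i _ => ?_
    rw [Int.cast_mul, map_mul]
    ring
  rw [h2]
  simp only [goodb_av]
  calc _ ≤ ∑ k ∈ Bl K T, ∑ i ∈ Xf {∏ p ∈ f₀, p}, pe (f \ f₀) * ‖av s (fun a => i.2 (nm a : ℤ) *
          (η a * ∏ p ∈ f \ f₀, qq p (l * nm a) / p)) k‖ := by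
        refine sum_le_sum fun k _ => (norm_sum_le _ _).trans (sum_le_sum fun i _ => ?_)
        rw [norm_mul, norm_mul, Complex.norm_real, Real.norm_of_nonneg (by linarith only [h1])]
        exact mul_le_mul_of_nonneg_right (mul_le_of_le_one_left (by linarith only [h1])
          (i.2.norm_le_one _)) (norm_nonneg _)
    _ ≤ ∑ _i ∈ Xf {∏ p ∈ f₀, p}, pe (f \ f₀) * E := by
        rw [sum_comm]
        refine sum_le_sum fun i hi => ?_
        rw [← mul_sum]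
        obtain ⟨q, χ⟩ := i
        obtain ⟨h3, h4⟩ := mem_Xf.1 hi
        obtain rfl := mem_singleton.1 h3
        exact mul_le_mul_of_nonneg_left (h χ h4) (by linarith)
    _ ≤ _ := by
        have h3 : (#(Xf {∏ p ∈ f₀, p}) : ℝ) ≤ pe f₀ := by
          rw [← goodb_pe]
          exact_mod_cast card_Xf_single (prod_pos fun p hp => (hf0 p hp).pos)
        have h4 : pe f = pe f₀ * pe (f \ f₀) := by
          rw [mul_comm]; exact (prod_sdiff h0).symm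
        rw [sum_const, nsmul_eq_mul, h4, mul_assoc]
        exact mul_le_mul_of_nonneg_right h3 (by positivity)

omit [NumberField K] in
theorem goodb_nm {P : Ideal (𝓞 K)} (hP : P.IsMaximal) {p g : ℕ} (hp : p.Prime)
    (h : (p : 𝓞 K) ∈ P) (hg : ¬ p ∣ g) : (g : 𝓞 K) ∉ P := fun h1 => by
  obtain ⟨a, b, h2⟩ := Nat.Coprime.cast (R := 𝓞 K) ((Nat.Prime.coprime_iff_not_dvd hp).2 hg)
  exact hP.ne_top ((Ideal.eq_top_iff_one _).2
    (h2 ▸ P.add_mem (P.mul_mem_left _ h) (P.mul_mem_left _ h1)))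

theorem goodb_mem {f : Finset ℕ} (hf : ∀ p ∈ f, p.Prime) {p : ℕ} (hp : p.Prime)
    (h : p ∣ ∏ x ∈ f, x) : p ∈ f := by
  obtain ⟨x, h1, h2⟩ := (hp.prime.dvd_finsetProd_iff _).1 h
  rwa [(Nat.prime_dvd_prime_iff_eq hp (hf x h1)).1 h2]

theorem goodb_loc {m : ℕ} {f : Finset ℕ} (hf : Prs m f) (hD : DD K ∣ m) :
    Squarefree (∏ p ∈ f, p) ∧ (∏ p ∈ f, p).Coprime (DD K) := by
  refine ⟨Finset.squarefree_prod_of_pairwise_isCoprime (fun p hp p' hp' h => ?_)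
    fun p hp => (hf p hp).1.prime.squarefree, Nat.Coprime.prod_left fun p hp => ?_⟩
  · exact Nat.coprime_iff_isRelPrime.1 ((Nat.coprime_primes (hf p hp).1 (hf p' hp').1).2 h)
  · exact (Nat.Prime.coprime_iff_not_dvd (hf p hp).1).2 fun h => (hf p hp).2 (h.trans hD)

theorem goodb_ev {e : ℝ} (he : 0 < e) (x : ℝ) : ∀ᶠ Y : ℝ in atTop, x ≤ Y ^ e :=
  (tendsto_rpow_atTop he).eventually_ge_atTop x

theorem good_mid (A : ℝ) {σ : ℝ} (h0 : 0 < σ) (h1 : σ ≤ 1) : ∃ (c : ℝ) (w : ℕ), 0 < c ∧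
    ∀ (K : Type) [Field K] [NumberField K] (R : ℝ) (m : ℕ), 1 ≤ R → 0 < m → DD K ∣ m →
      (∀ l : ℕ, l.Prime → l ≤ w → l ∣ m) → ∃ C : ℝ, 0 < C ∧ ∀ᶠ Y : ℝ in atTop,
        ∀ (f f₀ : Finset ℕ) (η : 𝓞 K → ℂ) (l : ℤ), Prs m f → f₀ ⊆ f → Y ^ σ ≤ pe f₀ →
          pe f₀ ≤ Y ^ (2 - σ) → pe (f \ f₀) ≤ Y ^ A → (∀ p ∈ f \ f₀, (p : ℝ) ≤ Y ^ (0.91 : ℝ)) →
          Per m η → Good (Y ^ (0.99 : ℝ)) (R * Y) (C * pe f * Y ^ (dg K - c * dg K))
            fun a : 𝓞 K => η a * Qf f (l * nm a) := by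
  obtain ⟨c, w, hc, h⟩ := lemG ⌈20 * A⌉₊ h0 h1
  refine ⟨c, ⌈w⌉₊, hc, fun K _ _ R m hR hm hD hw => ?_⟩
  obtain ⟨C, hC, h⟩ := h K R hR
  refine ⟨C, hC, ?_⟩
  filter_upwards [eventually_ge_atTop 1, goodb_ev (e := 0.96) (by norm_num) m,
    goodb_ev (e := 0.01) (by norm_num) (⌈20 * A⌉₊ + 1 : ℕ)] with Y hY hY1 hY2 f f₀ η l hf hs a1 a2
    a3 a4 hη
  have hY0 : 0 < Y := by linarith only [hY]
  have hf0 : Prs m f₀ := fun p hp => hf p (hs hp)
  have hf1 : ∀ p ∈ f \ f₀, p.Prime := fun p hp => (hf p (mem_sdiff.1 hp).1).1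
  obtain ⟨D, hD1, hD2⟩ := greedy2 (a := Y ^ (0.91 : ℝ)) (b := Y ^ (0.05 : ℝ))
    (Real.one_le_rpow hY (by norm_num)) (Real.one_le_rpow hY (by norm_num)) ⌈20 * A⌉₊
    (f := f \ f₀) (fun p hp => ⟨(hf1 p hp).two_le, a4 p hp⟩) (a3.trans (by
      rw [← Real.rpow_mul_natCast hY0.le]
      exact Real.rpow_le_rpow_of_exponent_le hY (by linarith only [Nat.le_ceil (20 * A)])))
  obtain ⟨S, s1, s2, -, s3⟩ := loc (K := K) (goodb_loc hf0 hD).1 (goodb_loc hf0 hD).2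
  rw [goodb_pe] at s2
  have hp0 := pe_ge_one fun p hp => (hf0 p hp).1
  let g : Fin (⌈20 * A⌉₊ + 1) → ℕ := Fin.cons m fun j => ∏ p ∈ D j, p
  let Φ : Fin (⌈20 * A⌉₊ + 1) → 𝓞 K → ℂ :=
    Fin.cons η fun j a => ∏ p ∈ D j, qq p (l * nm a) / p
  have hg : ∀ j, (g j : ℝ) ≤ Y ^ (0.96 : ℝ) := by
    refine Fin.cases hY1 fun j => ?_
    refine (goodb_pe _).trans_le ((hD1 j).2.trans_eq ?_)
    rw [← Real.rpow_add hY0]
    norm_num
  refine ⟨Fin (⌈20 * A⌉₊ + 1) → Bl K (Y ^ (0.02 : ℝ)), inferInstance,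
    ⟨fun _ => ⟨0, zero_mem_Bl (by positivity)⟩⟩, fun u => ∑ j, (g j : 𝓞 K) * (u j : 𝓞 K),
    fun u => ?_, ?_⟩
  · refine (sz_sum_le _ _).trans ((sum_le_card_nsmul _ _ (Y ^ (0.98 : ℝ)) fun j _ => ?_).trans ?_)
    · rw [sz_natCast_mul, show (0.98 : ℝ) = 0.96 + 0.02 by norm_num, Real.rpow_add hY0]
      exact mul_le_mul (hg j) (mem_Bl.1 (u j).2) (sz_nonneg _) (by positivity)
    · rw [card_univ, Fintype.card_fin, nsmul_eq_mul, show (0.99 : ℝ) = 0.01 + 0.98 by norm_num,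
        Real.rpow_add hY0]
      exact mul_le_mul_of_nonneg_right hY2 (by positivity)
  · rw [mul_comm C, mul_assoc]
    refine goodb_red _ (fun p hp => (hf p hp).1) hs η l (by positivity) fun χ hχ => ?_
    obtain ⟨ψ, b1, b2⟩ := s3 χ hχ
    have b3 : ∀ a, η a * ∏ p ∈ f \ f₀, qq p (l * nm a) / p = ∏ j, Φ j a := fun a => by
      rw [Fin.prod_univ_succ, hD2]
      rfl
    simp only [b2, b3]
    refine h Y S g ψ Φ hY (fun P hP => ?_) ?_ ?_ (Fin.cases hη fun j => ?_)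
    · obtain ⟨c1, p, c2, c3, c4, c5⟩ := s1 P hP
      have c6 := goodb_mem (fun p hp => (hf0 p hp).1) c2 c3
      refine ⟨c1, ?_, b1 P hP, Fin.cases (goodb_nm c1 c2 c4 (hf0 p c6).2) fun j => ?_⟩
      · have c7 : ⌈w⌉₊ ≤ p := le_of_not_ge fun c7 => (hf0 p c6).2 (hw p c2 c7)
        exact Nat.ceil_le.1 (c7.trans c5)
      · refine goodb_nm c1 c2 c4 fun c7 => ?_
        exact (mem_sdiff.1 ((hD1 j).1 (goodb_mem (fun p hp => hf1 p ((hD1 j).1 hp)) c2 c7))).2 c6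
    · rw [s2, Real.rpow_mul_natCast hY0.le]
      exact pow_le_pow_left₀ (by positivity) a1 _
    · rw [s2, Real.rpow_mul_natCast hY0.le]
      exact pow_le_pow_left₀ (by positivity) a2 _
    · exact goodb_per (fun p hp => hf1 p ((hD1 j).1 hp)) l

theorem good_top (K : Type) [Field K] [NumberField K] {R : ℝ} {m : ℕ} (hR : 1 ≤ R) (hm : 0 < m)
    (hD : DD K ∣ m) : ∃ C : ℝ, 0 < C ∧ ∀ᶠ Y : ℝ in atTop,
      ∀ (f : Finset ℕ) (p : ℕ) (η : 𝓞 K → ℂ) (l : ℤ), Prs m f → p ∈ f → Y ^ (1.9 : ℝ) ≤ p →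
        (p : ℝ) ≤ Y ^ (2.1 : ℝ) → pe (f.erase p) ≤ Y ^ (0.06 : ℝ) → Per m η →
        Good (Y ^ (0.99 : ℝ)) (R * Y) (C * pe f * Y ^ (dg K - 0.02 * dg K : ℝ))
          fun a : 𝓞 K => η a * Qf f (l * nm a) := by
  obtain ⟨C, hC, h⟩ := lemB K hR
  refine ⟨C, hC, ?_⟩
  filter_upwards [h, eventually_ge_atTop 1, goodb_ev (e := 0.04) (by norm_num) m] with Y h hY hY1
    f p η l hf hp a1 a2 a3 hη
  have hY0 : 0 < Y := by linarith only [hY]
  have hs : {p} ⊆ f := singleton_subset_iff.2 hp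
  have hf0 : Prs m {p} := fun x hx => hf x (hs hx)
  have hf1 : ∀ x ∈ f.erase p, x.Prime := fun x hx => (hf x (mem_of_mem_erase hx)).1
  obtain ⟨S, s1, s2, s4, s3⟩ := loc (K := K) (goodb_loc hf0 hD).1 (goodb_loc hf0 hD).2
  rw [prod_singleton] at s2 s4
  obtain ⟨I, i1, i2, s, i3, i4⟩ := h S (m * ∏ x ∈ f.erase p, x) (s4 (hf p hp).1) (fun P hP => by
      obtain ⟨c1, x, c2, c3, c4, c5⟩ := s1 P hP
      obtain rfl := mem_singleton.1 (goodb_mem (fun p hp => (hf0 p hp).1) c2 c3)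
      refine ⟨c1, a1.trans (by exact_mod_cast c5), goodb_nm c1 c2 c4 fun c7 => ?_⟩
      exact ((Nat.Prime.dvd_mul c2).1 c7).elim (hf x hp).2
        fun c8 => notMem_erase x f (goodb_mem hf1 c2 c8))
    (by
      rw [s2, Real.rpow_mul_natCast hY0.le]
      exact pow_le_pow_left₀ (by positivity) a1 _)
    (by
      rw [s2, Real.rpow_mul_natCast hY0.le]
      exact pow_le_pow_left₀ (by positivity) a2 _)
    (by
      rw [Nat.cast_mul, goodb_pe, show (0.1 : ℝ) = 0.04 + 0.06 by norm_num, Real.rpow_add hY0]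
      exact mul_le_mul hY1 a3 (by linarith only [pe_ge_one hf1]) (by positivity))
  refine ⟨I, i1, i2, s, i3, ?_⟩
  rw [mul_comm C, mul_assoc]
  refine goodb_red _ (fun p hp => (hf p hp).1) hs η l (by positivity) fun χ hχ => ?_
  obtain ⟨ψ, b1, b2⟩ := s3 χ hχ
  simp only [b2, sdiff_singleton_eq_erase]
  exact i4 ψ _ b1 (goodb_mul hη (goodb_per hf1 l))

theorem good_all (A : ℝ) {σ : ℝ} (h0 : 0 < σ) (h1 : σ ≤ 1) : ∃ (c : ℝ) (w : ℕ), 0 < c ∧
    ∀ (K : Type) [Field K] [NumberField K] (R : ℝ) (m : ℕ), 1 ≤ R → 0 < m → DD K ∣ m →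
      (∀ l : ℕ, l.Prime → l ≤ w → l ∣ m) → ∃ C : ℝ, 0 < C ∧ ∀ᶠ Y : ℝ in atTop,
        ∀ (f : Finset ℕ) (η : 𝓞 K → ℂ) (l : ℤ), Prs m f → f.Nonempty → Per m η →
          (pe f ≤ Y ^ (1 / 2 : ℝ) →
            Good (Y ^ (0.99 : ℝ)) (R * Y) 0 fun a : 𝓞 K => η a * Qf f (l * nm a)) ∧
          (ShY A σ Y f → Good (Y ^ (0.99 : ℝ)) (R * Y) (C * pe f * Y ^ (dg K - c * dg K))
            fun a : 𝓞 K => η a * Qf f (l * nm a)) := by
  obtain ⟨c, w, hc, h⟩ := good_mid A h0 h1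
  refine ⟨min c 0.02, w, lt_min hc (by norm_num), fun K _ _ R m hR hm hD hw => ?_⟩
  obtain ⟨C0, hC0, hs⟩ := good_small K
  obtain ⟨C1, hC1, h1⟩ := h K R m hR hm hD hw
  obtain ⟨C2, hC2, h2⟩ := good_top K hR hm hD
  refine ⟨C1 + C2, by positivity, ?_⟩
  filter_upwards [h1, h2, eventually_ge_atTop (1 : ℝ),
    (tendsto_rpow_atTop (y := 0.49) (by norm_num)).eventually_ge_atTop (C0 * m)]
    with Y hY1 hY2 hY hY3 f η l hf hne hη
  have hpe : 0 ≤ pe f := zero_le_one.trans (pe_ge_one fun p hp => (hf p hp).1)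
  have hn : (0 : ℝ) ≤ dg K := Nat.cast_nonneg _
  have ha : pe f ≤ Y ^ (1 / 2 : ℝ) →
      Good (Y ^ (0.99 : ℝ)) (R * Y) 0 fun a : 𝓞 K => η a * Qf f (l * nm a) := fun h3 => by
    refine gooda_mono (hs m f η l _ hm hD hf hne hη) ?_ le_rfl
    rw [show (0.99 : ℝ) = 0.49 + 1 / 2 by norm_num, Real.rpow_add (by linarith only [hY])]
    exact mul_le_mul hY3 h3 hpe (by positivity)
  have hb : ∀ C' c' : ℝ, C' ≤ C1 + C2 → min c 0.02 ≤ c' →
      C' * pe f * Y ^ (dg K - c' * dg K) ≤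
        (C1 + C2) * pe f * Y ^ (dg K - min c 0.02 * dg K) := fun C' c' h3 h4 =>
    mul_le_mul (mul_le_mul_of_nonneg_right h3 hpe) (Real.rpow_le_rpow_of_exponent_le hY
      (sub_le_sub_left (mul_le_mul_of_nonneg_right h4 hn) _)) (by positivity) (by positivity)
  refine ⟨ha, ?_⟩
  rintro (h3 | ⟨f₀, h3, h4, h5, h6, h7⟩ | ⟨p, h3, h4, h5, h6⟩)
  · exact gooda_mono (ha h3) le_rfl (by positivity)
  · exact gooda_mono (hY1 f f₀ η l hf h3 h4 h5 h6 h7 hη) le_rfl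
      (hb _ _ (by linarith only [hC2]) (min_le_left _ _))
  · exact gooda_mono (hY2 f p η l hf h3 h4 h5 h6 hη) le_rfl
      (hb _ _ (by linarith only [hC1]) (min_le_right _ _))

end Pool.Agent.MP_48b1c3_nt.H48

end

-- part MP_48b1c3_nt.H48.Shift
section

namespace Pool.Agent.MP_48b1c3_nt.H48

open Finset NumberField H54 H91 Filter
open scoped Classical BigOperators Topology

variable {K : Type} [Field K] [NumberField K]

theorem shift_bound {G Φ : 𝓞 K → ℂ} {B L S T E : ℝ} (hS : S ≤ T) (hL0 : 0 ≤ L)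
    (hB : ∀ a, ‖G a‖ ≤ B) (hL : ∀ a b, ‖G a - G b‖ ≤ L * sz (a - b))
    (hT : ∀ a, G a ≠ 0 → sz a ≤ T) (h : Good S T E Φ) :
    ‖∑ a ∈ Bl K T, G a * Φ a‖ ≤ B * E + L * S * ∑ a ∈ Bl K (3 * T), ‖Φ a‖ := by
  obtain ⟨I, _, _, s, hs, hE⟩ := h
  have hS0 : 0 ≤ S := (sz_nonneg _).trans (hs (Classical.arbitrary I))
  have hB0 : 0 ≤ B := (norm_nonneg _).trans (hB 0)
  have hN : (0 : ℝ) < Fintype.card I := Nat.cast_pos.2 Fintype.card_pos
  have h0 : ∀ a, a ∉ Bl K T → G a = 0 := fun a ha => by_contra fun e => ha (mem_Bl.2 (hT a e))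
  have h1 : ∀ i, ‖∑ a ∈ Bl K T, G a * Φ a - ∑ k ∈ Bl K T, G k * Φ (k + s i)‖ ≤
      L * S * ∑ a ∈ Bl K (3 * T), ‖Φ a‖ := by
    intro i
    have e1 : ∑ a ∈ Bl K T, G a * Φ a = ∑ k ∈ Bl K (2 * T), G (k + s i) * Φ (k + s i) := by
      refine Eq.trans ?_ (sum_map (Bl K (2 * T)) (addRightEmbedding (s i)) fun a => G a * Φ a)
      refine sum_subset (fun a ha => mem_map.2 ⟨a - s i, mem_Bl.2 ?_, by simp⟩)
        fun a _ ha => by rw [h0 a ha, zero_mul]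
      linarith [sz_sub_le a (s i), mem_Bl.1 ha, hs i]
    have e2 : ∑ k ∈ Bl K T, G k * Φ (k + s i) = ∑ k ∈ Bl K (2 * T), G k * Φ (k + s i) :=
      sum_subset (fun a ha => mem_Bl.2 (by linarith [mem_Bl.1 ha]))
        fun a _ ha => by rw [h0 a ha, zero_mul]
    have e3 : ∑ k ∈ Bl K (2 * T), ‖Φ (k + s i)‖ ≤ ∑ a ∈ Bl K (3 * T), ‖Φ a‖ := by
      refine (sum_map (Bl K (2 * T)) (addRightEmbedding (s i)) fun a => ‖Φ a‖).symm.trans_le ?_
      refine sum_le_sum_of_subset_of_nonneg (fun a ha => ?_) fun _ _ _ => norm_nonneg _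
      obtain ⟨k, hk, rfl⟩ := mem_map.1 ha
      refine mem_Bl.2 ((sz_add_le k (s i)).trans ?_)
      linarith [mem_Bl.1 hk, hs i]
    rw [e1, e2, ← sum_sub_distrib]
    refine (norm_sum_le_of_le _ fun k _ => ?_).trans
      ((mul_sum _ _ _).symm.trans_le (mul_le_mul_of_nonneg_left e3 (mul_nonneg hL0 hS0)))
    rw [← sub_mul, norm_mul]
    refine mul_le_mul_of_nonneg_right ((hL _ _).trans ?_) (norm_nonneg _)
    rw [add_sub_cancel_left]
    exact mul_le_mul_of_nonneg_left (hs i) hL0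
  have h2 : ∑ a ∈ Bl K T, G a * Φ a = ∑ k ∈ Bl K T, G k * av s Φ k +
      (∑ i, (∑ a ∈ Bl K T, G a * Φ a - ∑ k ∈ Bl K T, G k * Φ (k + s i))) / Fintype.card I := by
    have : (Fintype.card I : ℂ) ≠ 0 := Nat.cast_ne_zero.2 Fintype.card_ne_zero
    simp only [av, ← mul_div_assoc, mul_sum, ← sum_div]
    rw [sum_sub_distrib, sum_comm, sum_const, card_univ, nsmul_eq_mul]
    field_simp
    ring
  rw [h2]
  refine norm_add_le_of_le ?_ ?_
  · refine (norm_sum_le_of_le _ fun k _ => ?_).trans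
      ((mul_sum _ _ _).symm.trans_le (mul_le_mul_of_nonneg_left hE hB0))
    rw [norm_mul]
    exact mul_le_mul_of_nonneg_right (hB k) (norm_nonneg _)
  · rw [norm_div, Complex.norm_natCast, div_le_iff₀ hN]
    refine (norm_sum_le_of_le _ fun i _ => h1 i).trans_eq ?_
    rw [sum_const, card_univ, nsmul_eq_mul, mul_comm]

theorem shiftb_repr (a : 𝓞 K) : (mixedEmbedding.latticeBasis K).equivFun (emb K a) =
    fun i => ((el K).symm a i : ℝ) := by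
  funext i
  have h1 := mixedEmbedding.latticeBasis_repr_apply K (algebraMap (𝓞 K) K a) i
  rw [integralBasis_repr_apply] at h1
  simpa only [emb, RingHom.coe_comp, Function.comp_apply, Module.Basis.equivFun_apply, el, LinearEquiv.symm_symm, algebraMap_int_eq, eq_intCast, Rat.cast_intCast] using h1

variable (K) in
theorem coord : ∃ C : ℝ, 1 ≤ C ∧ (∀ (a : 𝓞 K) i, |((el K).symm a i : ℝ)| ≤ C * sz a) ∧
    ∀ (a : 𝓞 K) (T : ℝ), 0 ≤ T → (∀ i, |((el K).symm a i : ℝ)| ≤ T) → sz a ≤ C * T := by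
  let e := (mixedEmbedding.latticeBasis K).equivFun.toContinuousLinearEquiv
  have he : ∀ a : 𝓞 K, e (emb K a) = fun i => ((el K).symm a i : ℝ) := shiftb_repr
  have h1 := norm_nonneg (e : mixedEmbedding.mixedSpace K →L[ℝ] Ix K → ℝ)
  have h2 := norm_nonneg (e.symm : (Ix K → ℝ) →L[ℝ] mixedEmbedding.mixedSpace K)
  refine ⟨1 + ‖(e : mixedEmbedding.mixedSpace K →L[ℝ] Ix K → ℝ)‖ +
    ‖(e.symm : (Ix K → ℝ) →L[ℝ] mixedEmbedding.mixedSpace K)‖, by linarith, fun a i => ?_,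
    fun a T hT h => ?_⟩
  · have h3 := (e : mixedEmbedding.mixedSpace K →L[ℝ] Ix K → ℝ).le_opNorm (emb K a)
    have h4 := norm_le_pi_norm (e (emb K a)) i
    rw [← congrFun (he a) i]
    exact (h4.trans h3).trans (mul_le_mul_of_nonneg_right (by linarith only [h2]) (sz_nonneg a))
  · have h3 := (e.symm : (Ix K → ℝ) →L[ℝ] mixedEmbedding.mixedSpace K).le_opNorm (e (emb K a))
    have h4 : ‖e (emb K a)‖ ≤ T := by
      rw [he]
      exact (pi_norm_le_iff_of_nonneg hT).2 h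
    rw [ContinuousLinearEquiv.coe_coe, e.symm_apply_apply] at h3
    exact h3.trans (mul_le_mul (by linarith) h4 (norm_nonneg _) (by linarith))

variable (K) in
theorem bridge (R : ℝ) : ∃ C : ℝ, 1 ≤ C ∧ ∀ (B H : ℝ) (g : (Ix K → ℝ) → ℂ), Nice R 1 B g → 0 < H →
    ∃ G : 𝓞 K → ℂ, (∀ a, ‖G a‖ ≤ B) ∧ (∀ a b, ‖G a - G b‖ ≤ C * B / H * sz (a - b)) ∧
      (∀ a, G a ≠ 0 → sz a ≤ C * H) ∧ ∀ Φ : 𝓞 K → ℂ,
        ls (fun a => Φ (el K a)) g H = ∑ a ∈ Bl K (C * H), G a * Φ a := by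
  obtain ⟨C, hC, h1, h2⟩ := coord K
  have hR := abs_nonneg R
  have hC' : C ≤ C * (1 + |R|) := le_mul_of_one_le_right (by linarith) (by linarith)
  refine ⟨C * (1 + |R|), hC.trans hC', fun B H g hg hH => ?_⟩
  have hB : ∀ x, ‖g x‖ ≤ B := fun x => by simpa using hg.bd 0 zero_le_one x
  have hB0 : 0 ≤ B := (norm_nonneg _).trans (hB 0)
  have hs : ∀ a, g (pt H ((el K).symm a)) ≠ 0 → sz a ≤ C * (1 + |R|) * H := fun a ha => by
    have h3 : ‖pt H ((el K).symm a)‖ ≤ R := not_lt.1 fun h => ha (hg.supp _ h)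
    rw [mul_assoc]
    refine h2 a _ (by positivity) fun i => ?_
    have h4 := (norm_le_pi_norm _ i).trans h3
    rw [pt, Real.norm_eq_abs, abs_div, abs_of_pos hH, div_le_iff₀ hH] at h4
    exact h4.trans (mul_le_mul_of_nonneg_right (by linarith [le_abs_self R]) hH.le)
  refine ⟨fun a => g (pt H ((el K).symm a)), fun a => hB _, fun a b => ?_, hs, fun Φ => ?_⟩
  · have h3 := Convex.norm_image_sub_le_of_norm_fderiv_le (𝕜 := ℝ) (f := g) (C := B)
      (fun x _ => hg.smooth.differentiable (by simp) x)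
      (fun x _ => by simpa only [norm_iteratedFDeriv_one] using hg.bd 1 le_rfl x) convex_univ
      (Set.mem_univ (pt H ((el K).symm b))) (Set.mem_univ (pt H ((el K).symm a)))
    have h0 := sz_nonneg (a - b)
    have h4 : ‖pt H ((el K).symm a) - pt H ((el K).symm b)‖ ≤ C * sz (a - b) / H := by
      refine (pi_norm_le_iff_of_nonneg (by positivity)).2 fun i => ?_
      have h5 := h1 (a - b) i
      rw [map_sub, Pi.sub_apply, Int.cast_sub] at h5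
      rw [Pi.sub_apply, pt, pt, ← sub_div, Real.norm_eq_abs, abs_div, abs_of_pos hH]
      exact div_le_div_of_nonneg_right h5 hH.le
    calc _ ≤ B * (C * sz (a - b) / H) := h3.trans (mul_le_mul_of_nonneg_left h4 hB0)
      _ = C * B / H * sz (a - b) := by ring
      _ ≤ _ := by gcongr
  · rw [ls, ← (el K).symm.toEquiv.tsum_eq, tsum_eq_sum (s := Bl K (C * (1 + |R|) * H))]
    · exact sum_congr rfl fun a _ => by simp [mul_comm]
    · intro a ha
      have h3 : g (pt H ((el K).symm a)) = 0 := by_contra fun h => ha (mem_Bl.2 (hs a h))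
      simp [h3]

variable (K) in
theorem tl {ε : ℝ} (hε : 0 < ε) : ∃ C : ℝ, 0 < C ∧ ∀ (G η : 𝓞 K → ℂ) (B L S T R Z : ℝ)
    (F : Finset (Finset ℕ)) (E : Finset ℕ → ℝ) (e c : ℤ) (l : Finset ℕ → ℤ), 1 ≤ T → 0 ≤ S →
    S ≤ T → 0 ≤ L → 1 ≤ R → c ≠ 0 → |(e : ℝ)| * (3 * T) ^ dg K + |(c : ℝ)| ≤ Z →
    (∀ a, ‖G a‖ ≤ B) → (∀ a b, ‖G a - G b‖ ≤ L * sz (a - b)) → (∀ a, G a ≠ 0 → sz a ≤ T) →
    (∀ a, ‖η a‖ ≤ 1) → (∀ f ∈ F, (∀ p ∈ f, p.Prime) ∧ pe f ≤ R) →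
    (∀ f ∈ F, ∀ p ∈ f, (p : ℤ) ∣ c * l f - e) →
    (∀ f ∈ F, Good S T (E f) fun a => η a * Qf f (l f * nm a)) →
      ∑ f ∈ F, wf f * ‖∑ a ∈ Bl K T, G a * (η a * Qf f (l f * nm a))‖ ≤
        B * ∑ f ∈ F, wf f * E f + C * L * S * (T ^ dg K * (Z * R) ^ ε + R ^ 2 * T ^ ε) := by
  obtain ⟨C₁, hC₁, h₁⟩ := pos_bound hε
  obtain ⟨C₂, hC₂, h₂⟩ := sum_wf_pe
  obtain ⟨C₃, hC₃, h₃⟩ := rep_count K hε
  obtain ⟨C₄, hC₄, h₄, -⟩ := coord K
  refine ⟨C₁ * 24 ^ dg K + C₂ * C₃ * (3 * C₄) ^ ε, by positivity,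
    fun G η B L S T R Z F E e c l hT hS0 hS hL0 hR hc hZ hB hL hG hη hF hl hE => ?_⟩
  have hw : ∀ f ∈ F, 0 ≤ wf f := fun f hf => wf_nonneg (hF f hf).1
  have hZ0 : 0 ≤ Z := le_trans (by positivity) hZ
  have k1 : ∀ a ∈ Bl K (3 * T), ∑ f ∈ F, wf f * ‖Qf f (l f * nm a)‖ ≤
      C₁ * (Z * R) ^ ε + if e * nm a = c then C₂ * R ^ 2 else 0 := by
    intro a ha
    split_ifs with h
    · refine le_add_of_nonneg_of_le (by positivity) (le_trans (sum_le_sum fun f hf => ?_)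
        (h₂ F R hR hF))
      exact mul_le_mul_of_nonneg_left (norm_Qf_le (hF f hf).1 _) (hw f hf)
    · rw [add_zero]
      refine (h₁ F R (e * nm a - c) (fun f => l f * nm a) hR (sub_ne_zero.2 h) hF
        fun f hf p hp hd => ?_).trans ?_
      · rw [show e * nm a - c = c * (l f * nm a - 1) - (c * l f - e) * nm a by ring]
        exact (hd.mul_left c).sub ((hl f hf p hp).mul_right _)
      · gcongr
        push_cast
        refine (abs_sub _ _).trans (le_trans ?_ hZ)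
        rw [abs_mul]
        gcongr
        exact (abs_norm_le a).trans (pow_le_pow_left₀ (sz_nonneg a) (mem_Bl.1 ha) _)
  have k2 : (#((Bl K (3 * T)).filter fun a => e * nm a = c) : ℝ) ≤ C₃ * ((3 * C₄) ^ ε * T ^ ε) := by
    rcases ((Bl K (3 * T)).filter fun a => e * nm a = c).eq_empty_or_nonempty with h | ⟨b, hb⟩
    · rw [h, card_empty, Nat.cast_zero]
      positivity
    have hb' := (mem_filter.1 hb).2
    rw [← Real.mul_rpow (by positivity) (by positivity)]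
    refine h₃ _ (nm b).natAbs _ (by nlinarith only [hC₄, hT]) (Int.natAbs_ne_zero.2 fun h => hc ?_)
      fun a ha => ⟨fun i => (h₄ a i).trans ?_, ?_⟩
    · rw [← hb', h, mul_zero]
    · rw [mul_comm 3, mul_assoc]
      exact mul_le_mul_of_nonneg_left (mem_Bl.1 (mem_filter.1 ha).1) (by linarith only [hC₄])
    · rw [mul_left_cancel₀ (fun h => hc (by rw [← hb', h, zero_mul]))
        ((mem_filter.1 ha).2.trans hb'.symm)]
  have k3 : (#(Bl K (3 * T)) : ℝ) ≤ 24 ^ dg K * T ^ dg K := by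
    rw [← mul_pow, show 24 * T = 8 * (3 * T) by ring]
    exact card_Bl_le (by linarith only [hT])
  have k4 : ∑ f ∈ F, wf f * ∑ a ∈ Bl K (3 * T), ‖η a * Qf f (l f * nm a)‖ ≤
      (C₁ * 24 ^ dg K + C₂ * C₃ * (3 * C₄) ^ ε) * (T ^ dg K * (Z * R) ^ ε + R ^ 2 * T ^ ε) := by
    calc _ ≤ ∑ f ∈ F, ∑ a ∈ Bl K (3 * T), wf f * ‖Qf f (l f * nm a)‖ := by
          refine sum_le_sum fun f hf => ?_
          rw [← mul_sum]
          refine mul_le_mul_of_nonneg_left (sum_le_sum fun a _ => ?_) (hw f hf)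
          rw [norm_mul]
          exact mul_le_of_le_one_left (norm_nonneg _) (hη a)
      _ ≤ _ := sum_comm.trans_le (sum_le_sum k1)
      _ = #(Bl K (3 * T)) * (C₁ * (Z * R) ^ ε) +
          #((Bl K (3 * T)).filter fun a => e * nm a = c) * (C₂ * R ^ 2) := by
          rw [sum_add_distrib, sum_const, ← sum_filter, sum_const, nsmul_eq_mul, nsmul_eq_mul]
      _ ≤ 24 ^ dg K * T ^ dg K * (C₁ * (Z * R) ^ ε) + C₃ * ((3 * C₄) ^ ε * T ^ ε) * (C₂ * R ^ 2) := by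
          gcongr
      _ = C₁ * 24 ^ dg K * (T ^ dg K * (Z * R) ^ ε) +
          C₂ * C₃ * (3 * C₄) ^ ε * (R ^ 2 * T ^ ε) := by ring
      _ ≤ _ := by
          rw [add_mul]
          gcongr
          · exact le_add_of_nonneg_right (by positivity)
          · exact le_add_of_nonneg_left (by positivity)
  calc _ ≤ ∑ f ∈ F, wf f * (B * E f + L * S * ∑ a ∈ Bl K (3 * T), ‖η a * Qf f (l f * nm a)‖) :=
        sum_le_sum fun f hf =>
          mul_le_mul_of_nonneg_left (shift_bound hS hL0 hB hL hG (hE f hf)) (hw f hf)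
    _ = B * ∑ f ∈ F, wf f * E f +
        L * S * ∑ f ∈ F, wf f * ∑ a ∈ Bl K (3 * T), ‖η a * Qf f (l f * nm a)‖ := by
        rw [mul_sum F, mul_sum F, ← sum_add_distrib]
        exact sum_congr rfl fun f _ => by ring
    _ ≤ _ := by
        have := mul_le_mul_of_nonneg_left k4 (mul_nonneg hL0 hS0)
        linarith only [this]

end Pool.Agent.MP_48b1c3_nt.H48

end

-- part MP_48b1c3_nt.H48.TI
section

namespace Pool.Agent.MP_48b1c3_nt.H48

open Finset NumberField H54 H91 Filter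
open scoped Classical BigOperators Topology

variable {K : Type} [Field K] [NumberField K]

theorem tia_per {m : ℕ} {η : (Ix K → ℤ) → ℂ} (h : Pd m η) :
    Per m fun α : 𝓞 K => η ((el K).symm α) := by
  refine ⟨fun a => h.2 _, fun a u => ?_⟩
  have h1 : (m : 𝓞 K) * u = (m : ℤ) • u := by rw [zsmul_eq_mul, Int.cast_natCast]
  show η ((el K).symm (a + (m : 𝓞 K) * u)) = η ((el K).symm a)
  rw [h1, map_add, map_zsmul, h.1]

theorem tia_Z {Y C e c : ℝ} {n : ℕ} (hY : 1 ≤ Y) (hC : 0 ≤ C) (hc : 0 ≤ c) (he : e ≤ Y ^ n)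
    (h : (3 * C) ^ n + c ≤ Y) : e * (3 * (C * Y)) ^ n + c ≤ Y ^ (2 * n + 1) := by
  have h1 : 1 ≤ Y ^ n * Y ^ n := one_le_mul_of_one_le_of_one_le (one_le_pow₀ hY) (one_le_pow₀ hY)
  have h2 : e * (3 * (C * Y)) ^ n ≤ Y ^ n * (3 * (C * Y)) ^ n :=
    mul_le_mul_of_nonneg_right he (by positivity)
  have h3 : Y ^ n * (3 * (C * Y)) ^ n = Y ^ n * Y ^ n * (3 * C) ^ n := by
    rw [← mul_assoc 3, mul_pow (3 * C)]; ring
  have h4 : c ≤ Y ^ n * Y ^ n * c := le_mul_of_one_le_left hc h1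
  have h5 : Y ^ n * Y ^ n * ((3 * C) ^ n + c) ≤ Y ^ n * Y ^ n * Y :=
    mul_le_mul_of_nonneg_left h (by positivity)
  have h6 : Y ^ (2 * n + 1) = Y ^ n * Y ^ n * Y := by ring
  rw [h6]
  linarith only [h2, h3, h4, h5]

theorem tia_err {Y C R : ℝ} {n : ℕ} (hn : 0 < n) (hY : 1 ≤ Y) (hC : 1 ≤ C) (hR : 1 ≤ R)
    (h : R ^ 2 ≤ Y ^ n) :
    Y ^ (0.99 : ℝ) / Y * ((C * Y) ^ n * (Y ^ (2 * n + 1) * R) ^ (0.001 / n : ℝ) +
      R ^ 2 * (C * Y) ^ (0.001 / n : ℝ)) ≤ (C ^ n + C) * Y ^ (n - 0.005 : ℝ) := by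
  have hY0 : 0 < Y := by linarith only [hY]
  have hn1 : (1 : ℝ) ≤ n := by exact_mod_cast hn
  have he0 : (0 : ℝ) ≤ 0.001 / n := by positivity
  have he1 : (0.001 / n : ℝ) ≤ 0.004 := by
    rw [div_le_iff₀ (by linarith only [hn1])]; linarith only [hn1]
  have h1 : Y ^ (2 * n + 1) * R ≤ Y ^ (4 * n) := by
    have h2 : R ≤ Y ^ n := le_trans (by nlinarith only [hR]) h
    calc Y ^ (2 * n + 1) * R ≤ Y ^ (2 * n + 1) * Y ^ n := by gcongr
      _ = Y ^ (3 * n + 1) := by ring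
      _ ≤ Y ^ (4 * n) := pow_le_pow_right₀ hY (by omega)
  have h2 : (Y ^ (2 * n + 1) * R) ^ (0.001 / n : ℝ) ≤ Y ^ (0.004 : ℝ) := by
    refine (Real.rpow_le_rpow (by positivity) h1 he0).trans_eq ?_
    rw [← Real.rpow_natCast, ← Real.rpow_mul hY0.le]
    congr 1
    push_cast
    field_simp
    norm_num
  have h3 : (C * Y) ^ (0.001 / n : ℝ) ≤ C * Y ^ (0.004 : ℝ) := by
    rw [Real.mul_rpow (by linarith only [hC]) hY0.le]
    refine mul_le_mul ?_ (Real.rpow_le_rpow_of_exponent_le hY he1) (by positivity) (by linarith only [hC])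
    exact (Real.rpow_le_rpow_of_exponent_le hC (he1.trans (by norm_num))).trans_eq
      (Real.rpow_one C)
  have h4 : Y ^ (0.99 : ℝ) / Y * (Y ^ n * Y ^ (0.004 : ℝ)) ≤ Y ^ (n - 0.005 : ℝ) := by
    rw [← Real.rpow_sub_one hY0.ne', ← Real.rpow_natCast, ← Real.rpow_add hY0,
      ← Real.rpow_add hY0]
    exact Real.rpow_le_rpow_of_exponent_le hY (by linarith only [])
  calc _ ≤ Y ^ (0.99 : ℝ) / Y * ((C * Y) ^ n * Y ^ (0.004 : ℝ) +
        Y ^ n * (C * Y ^ (0.004 : ℝ))) := by gcongr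
    _ = (C ^ n + C) * (Y ^ (0.99 : ℝ) / Y * (Y ^ n * Y ^ (0.004 : ℝ))) := by
        rw [mul_pow]; ring
    _ ≤ _ := by gcongr

theorem ti_lat (A : ℝ) {σ : ℝ} (h0 : 0 < σ) (h1 : σ ≤ 1) : ∃ (c : ℝ) (w : ℕ), 0 < c ∧
    ∀ (K : Type) [Field K] [NumberField K] (m : ℕ) (c₀ : ℤ) (R₀ B : ℝ) (g : (Ix K → ℝ) → ℂ),
      0 < m → DD K ∣ m → (∀ l : ℕ, l.Prime → l ≤ w → l ∣ m) → c₀ ≠ 0 → Nice R₀ 1 B g →
      ∃ C : ℝ, ∀ᶠ Y : ℝ in atTop, ∀ (η : (Ix K → ℤ) → ℂ) (R : ℝ) (F : Finset (Finset ℕ)) (e : ℤ)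
        (l : Finset ℕ → ℤ), Pd m η → |(e : ℝ)| ≤ Y ^ dg K → 1 ≤ R → R ^ 2 ≤ Y ^ dg K →
        (∀ f ∈ F, f.Nonempty ∧ Prs m f ∧ pe f ≤ R ∧ ∀ p ∈ f, (p : ℤ) ∣ c₀ * l f - e) →
        (R ≤ Y ^ (1 / 2 : ℝ) ∨ R ^ 2 ≤ Y ^ (c * dg K - 1) ∧ ∀ f ∈ F, ShY A σ Y f) →
          ∑ f ∈ F, wf f * ‖ls (fun a => η a * Qf f (l f * nm (el K a))) g Y‖ ≤
            C * Y ^ (dg K - 0.005 : ℝ) := by
  obtain ⟨c, w, hc, hg⟩ := good_all A h0 h1
  refine ⟨c, w, hc, fun K _ _ m c₀ R₀ B g hm hD hw hc₀ hN => ?_⟩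
  have hn := dg_pos K
  have hn1 : (1 : ℝ) ≤ dg K := by exact_mod_cast hn
  obtain ⟨C₁, hC₁, hb⟩ := bridge K R₀
  obtain ⟨C₂, hC₂, hev⟩ := hg K C₁ m hC₁ hm hD hw
  obtain ⟨C₃, hC₃, ht⟩ := tl K (ε := 0.001 / dg K) (by positivity)
  obtain ⟨C₄, hC₄, hs⟩ := sum_wf_pe
  have hB : 0 ≤ B := (norm_nonneg _).trans (hN.bd 0 zero_le_one 0)
  refine ⟨B * (C₂ * C₄) + C₃ * C₁ * B * (C₁ ^ dg K + C₁), ?_⟩
  filter_upwards [hev, eventually_ge_atTop 1,
    eventually_ge_atTop ((3 * C₁) ^ dg K + |(c₀ : ℝ)|)] with Y hY hY1 hY2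
  intro η R F e l hη he hR hR2 hF hcase
  have hY0 : 0 < Y := by linarith only [hY1]
  obtain ⟨G, hG1, hG2, hG3, hG4⟩ := hb B Y g hN hY0
  have hper := tia_per hη
  have hF' : ∀ f ∈ F, (∀ p ∈ f, p.Prime) ∧ pe f ≤ R :=
    fun f hf => ⟨fun p hp => ((hF f hf).2.1 p hp).1, (hF f hf).2.2.1⟩
  obtain ⟨E, hE1, hE2⟩ : ∃ E : Finset ℕ → ℝ, (∀ f ∈ F, Good (Y ^ (0.99 : ℝ)) (C₁ * Y) (E f)
      fun a : 𝓞 K => η ((el K).symm a) * Qf f (l f * nm a)) ∧
      ∑ f ∈ F, wf f * E f ≤ C₂ * C₄ * Y ^ (dg K - 0.005 : ℝ) := by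
    rcases hcase with h | ⟨h, h'⟩
    · refine ⟨fun _ => 0, fun f hf => (hY f _ (l f) (hF f hf).2.1 (hF f hf).1 hper).1
        ((hF f hf).2.2.1.trans h), ?_⟩
      simp only [mul_zero, sum_const_zero]
      positivity
    · refine ⟨fun f => C₂ * pe f * Y ^ (dg K - c * dg K), fun f hf =>
        (hY f _ (l f) (hF f hf).2.1 (hF f hf).1 hper).2 (h' f hf), ?_⟩
      have h2 : Y ^ (c * dg K - 1) * Y ^ (dg K - c * dg K) ≤ Y ^ (dg K - 0.005 : ℝ) := by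
        rw [← Real.rpow_add hY0]
        exact Real.rpow_le_rpow_of_exponent_le hY1 (by linarith only [])
      calc _ = C₂ * (∑ f ∈ F, wf f * pe f) * Y ^ (dg K - c * dg K) := by
            rw [mul_sum, sum_mul]
            exact sum_congr rfl fun f _ => by ring
        _ ≤ C₂ * (C₄ * Y ^ (c * dg K - 1)) * Y ^ (dg K - c * dg K) := by
            gcongr
            exact (hs F R hR hF').trans (by gcongr)
        _ = C₂ * C₄ * (Y ^ (c * dg K - 1) * Y ^ (dg K - c * dg K)) := by ring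
        _ ≤ _ := by gcongr
  have hS : Y ^ (0.99 : ℝ) ≤ C₁ * Y :=
    ((Real.rpow_le_rpow_of_exponent_le hY1 (by norm_num)).trans_eq (Real.rpow_one Y)).trans
      (le_mul_of_one_le_left hY0.le hC₁)
  have key := ht G (fun a => η ((el K).symm a)) B (C₁ * B / Y) (Y ^ (0.99 : ℝ)) (C₁ * Y) R
    (Y ^ (2 * dg K + 1)) F E e c₀ l (one_le_mul_of_one_le_of_one_le hC₁ hY1) (by positivity) hS
    (by positivity) hR hc₀ (tia_Z hY1 (by linarith only [hC₁]) (abs_nonneg _) he hY2) hG1 hG2 hG3 hper.1 hF'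
    (fun f hf => (hF f hf).2.2.2) hE1
  have heq : ∀ f, ls (fun a => η a * Qf f (l f * nm (el K a))) g Y =
      ∑ a ∈ Bl K (C₁ * Y), G a * (η ((el K).symm a) * Qf f (l f * nm a)) := fun f => by
    rw [← hG4 fun a => η ((el K).symm a) * Qf f (l f * nm a)]
    simp only [LinearEquiv.symm_apply_apply]
  simp only [heq]
  refine key.trans ?_
  have h3 := tia_err hn hY1 hC₁ hR hR2
  calc _ = B * ∑ f ∈ F, wf f * E f + C₃ * C₁ * B * (Y ^ (0.99 : ℝ) / Y *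
        ((C₁ * Y) ^ dg K * (Y ^ (2 * dg K + 1) * R) ^ (0.001 / dg K : ℝ) +
          R ^ 2 * (C₁ * Y) ^ (0.001 / dg K : ℝ))) := by ring
    _ ≤ B * (C₂ * C₄ * Y ^ (dg K - 0.005 : ℝ)) +
        C₃ * C₁ * B * ((C₁ ^ dg K + C₁) * Y ^ (dg K - 0.005 : ℝ)) := by gcongr
    _ = _ := by ring

theorem tia_mono {d f : Finset ℕ} (hf : ∀ p ∈ f, p.Prime) (h : d ⊆ f) : pe d ≤ pe f := by
  rw [pe, pe, ← Nat.cast_prod, ← Nat.cast_prod, Nat.cast_le]
  exact prod_le_prod_of_subset_of_one_le' h fun p hp _ => (hf p hp).one_le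

theorem tia_erase {f : Finset ℕ} {l : ℕ} (h : l ∈ f) : pe f = l * pe (f.erase l) :=
  (mul_prod_erase f (fun p : ℕ => (p : ℝ)) h).symm

theorem mod_spec {M : ℕ} {A η X : ℝ} (hA : 1 ≤ A) (hη : η ≤ 0.01) (h0 : 0 < η) (hX : 1 ≤ X)
    {f : Finset ℕ} (hf : f ∈ Mod M A η X) :
    Prs M f ∧ pe f ≤ X ^ (A + 3) ∧ ∀ d ⊆ f, d ∈ Mod M A η X := by
  rw [Mod, mem_filter, mem_powerset] at hf
  obtain ⟨hs, hsh⟩ := hf
  have hP : Prs M f := fun p hp => (mem_Pw.1 (hs hp)).2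
  have hp : ∀ p ∈ f, p.Prime := fun p h => (hP p h).1
  have hp' : ∀ l, ∀ p ∈ f.erase l, p.Prime := fun l p h => hp p (mem_of_mem_erase h)
  have hX0 : 0 < X := by linarith only [hX]
  have mono : ∀ {a b : ℝ}, a ≤ b → X ^ a ≤ X ^ b := fun h => Real.rpow_le_rpow_of_exponent_le hX h
  have two : ∀ {l : ℕ} {a b : ℝ}, l ∈ f → (l : ℝ) ≤ X ^ a → pe (f.erase l) ≤ X ^ b →
      a + b ≤ A + 3 → pe f ≤ X ^ (A + 3) := fun {l a b} hl ha hb hab => by
    refine le_trans ?_ (mono hab)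
    rw [tia_erase hl, Real.rpow_add hX0]
    exact mul_le_mul ha hb (zero_le_one.trans (pe_ge_one (hp' l))) (by positivity)
  refine ⟨hP, ?_, fun d hd => ?_⟩
  · rcases hsh with h | ⟨l, hl, -, h2, h3, -⟩ | ⟨l, hl, -, h2, h3⟩
    · exact h.1.trans (mono (by linarith only [hη, h0]))
    · exact two hl h2 h3 (by linarith)
    · exact two hl h2 h3 (by linarith only [hA, hη])
  rw [Mod, mem_filter, mem_powerset]
  refine ⟨hd.trans hs, ?_⟩
  rcases hsh with h | ⟨l, hl, h1, h2, h3, h4⟩ | ⟨l, hl, h1, h2, h3⟩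
  · exact Or.inl ⟨(tia_mono hp hd).trans h.1, fun p hp => h.2 p (hd hp)⟩
  · by_cases hld : l ∈ d
    · have h5 := erase_subset_erase l hd
      exact Or.inr (Or.inl ⟨l, hld, h1, h2, (tia_mono (hp' l) h5).trans h3,
        fun p hp => h4 p (h5 hp)⟩)
    · have h5 : d ⊆ f.erase l := subset_erase.2 ⟨hd, hld⟩
      exact Or.inl ⟨(tia_mono (hp' l) h5).trans h3, fun p hp => h4 p (h5 hp)⟩
  · by_cases hld : l ∈ d
    · exact Or.inr (Or.inr ⟨l, hld, h1, h2,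
        (tia_mono (hp' l) (erase_subset_erase l hd)).trans h3⟩)
    · have h5 : d ⊆ f.erase l := subset_erase.2 ⟨hd, hld⟩
      refine Or.inl ⟨((tia_mono (hp' l) h5).trans h3).trans (mono (by linarith only [hA, hη, h0])), fun p hq => ?_⟩
      have h6 := tia_mono (hp' l) (singleton_subset_iff.2 (h5 hq))
      rw [pe, prod_singleton] at h6
      exact (h6.trans h3).trans (mono (by norm_num))

theorem tib_inv {M c₀ : ℕ} (hc : c₀ ∣ M) (t : ℤ) (f : Finset ℕ) :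
    ∃ l : ℤ, Prs M f → ∀ p ∈ f, (p : ℤ) ∣ c₀ * l - t := by
  by_cases hf : Prs M f
  · have h : IsCoprime (c₀ : ℤ) (∏ p ∈ f, (p : ℤ)) := IsCoprime.prod_right fun p hp =>
      Nat.isCoprime_iff_coprime.2
        (((hf p hp).1.coprime_iff_not_dvd.2 fun h => (hf p hp).2 (h.trans hc)).symm)
    obtain ⟨u, v, huv⟩ := h
    refine ⟨u * t, fun _ p hp => ?_⟩
    have : (c₀ : ℤ) * (u * t) - t = (∏ p ∈ f, (p : ℤ)) * (-v * t) := by
      linear_combination t * huv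
    rw [this]
    exact (dvd_prod_of_mem _ hp).mul_right _
  · exact ⟨0, fun h => absurd h hf⟩

theorem tib_lift {M : ℕ} {f : Finset ℕ} (hf : Prs M f) (g : Ideal (𝓞 K) → ℂ) {b : Ideal (𝓞 K)}
    (hb : Ideal.absNorm b ∣ M) {e l : ℤ} {s : Bool}
    (hl : ∀ p ∈ f, (p : ℤ) ∣ (Ideal.absNorm b : ℕ) * l - e * sg s) (α : 𝓞 K)
    (hα : 0 < sg s * nm α) :
    lift (fun I => g I * Qf f (e * (Ideal.absNorm I : ℕ))) b α = lift g b α * Qf f (l * nm α) := by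
  rcases lift_cases b α with ⟨h, -⟩ | ⟨-, -, a, ha, h⟩
  · rw [h, h, zero_mul]
  rw [h, h]
  have h1 : Ideal.absNorm a * Ideal.absNorm b = (nm α).natAbs := by
    rw [← map_mul, ha, Ideal.absNorm_span_singleton]
  have h2 : ((Ideal.absNorm a : ℕ) : ℤ) * (Ideal.absNorm b : ℕ) = sg s * nm α := by
    rw [← Nat.cast_mul, h1, Int.natCast_natAbs]
    cases s
    · simp only [sg, Bool.false_eq_true, if_false] at hα ⊢
      rw [abs_of_neg (by linarith only [hα])]; ring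
    · simp only [sg, if_true] at hα ⊢
      rw [abs_of_pos (by linarith only [hα])]; ring
  refine congrArg _ (prod_congr rfl fun p hp => qq_congr ?_)
  have hc : IsCoprime (p : ℤ) (Ideal.absNorm b : ℕ) := Nat.isCoprime_iff_coprime.2
    ((hf p hp).1.coprime_iff_not_dvd.2 fun h => (hf p hp).2 (h.trans hb))
  refine hc.dvd_of_dvd_mul_left ?_
  have : ((Ideal.absNorm b : ℕ) : ℤ) * (e * (Ideal.absNorm a : ℕ) - l * nm α) =
      ((Ideal.absNorm b : ℕ) * l - e * sg s) * -nm α := by linear_combination e * h2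
  rw [this]
  exact (hl p hp).mul_right _

theorem tib_one (G : Geo K) {M : ℕ} (hB : BB K ∣ M) (F : Ideal (𝓞 K) → ℂ) {v : ℝ → ℂ}
    (hv : Test v) {η : ClassGroup (𝓞 K) → Bool → (Ix K → ℤ) → ℂ}
    (hη : ∀ c s a, 0 < sg s * nm (el K a) → η c s a = lift F (rep c) (el K a))
    {f : Finset ℕ} (hf : Prs M f) {e : ℤ} {l : ClassGroup (𝓞 K) → Bool → ℤ}
    (hl : ∀ c s, ∀ p ∈ f, (p : ℤ) ∣ (Ideal.absNorm (rep c) : ℕ) * l c s - e * sg s) {y : ℝ}
    (hy : 1 ≤ y) : ‖sm (fun m => push F m * Qf f (e * m)) v y‖ ≤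
      ∑ c, ∑ s, ‖ls (fun a => η c s a * Qf f (l c s * nm (el K a))) (G.g v s) (Hc y c)‖ := by
  have e1 : (fun m : ℕ => push F m * Qf f (e * m)) =
      fun m => push (fun I => F I * Qf f (e * (Ideal.absNorm I : ℕ))) m :=
    funext fun m => (push_mul_norm F (fun n : ℕ => Qf f (e * n)) m).symm
  rw [e1]
  have e2 := G.decomp (fun I => F I * Qf f (e * (Ideal.absNorm I : ℕ))) hv (y := y)
    (by linarith)
  refine (congrArg norm e2).le.trans ((norm_sum_le _ _).trans (sum_le_sum fun c _ =>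
    (norm_sum_le _ _).trans (sum_le_sum fun s _ => le_of_eq (congrArg norm ?_))))
  refine G.ls_congr v s (lt_of_lt_of_le one_pos (one_le_Hc hy c)) fun a ha => ?_
  rw [tib_lift hf _ ((rep_dvd_BB c).trans hB) (hl c s) _ ha, hη c s a ha]

theorem tib_shape {A η X Y : ℝ} (hA : 1 ≤ A) (h0 : 0 < η) (hη : η ≤ 0.01) (hY : 1 ≤ Y)
    (h1 : Y ^ (1 - η / 8) ≤ X) (h2 : X ≤ Y ^ (1 + η / 4)) {f : Finset ℕ}
    (hp : ∀ p ∈ f, p.Prime) (hf : ShX A η X f) : ShY (2 * A) (η / 2) Y f := by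
  have hY0 : 0 ≤ Y := by linarith only [hY]
  have hX : 0 ≤ X := (Real.rpow_nonneg hY0 _).trans h1
  have up : ∀ s t : ℝ, 0 ≤ s → (1 + η / 4) * s ≤ t → X ^ s ≤ Y ^ t := fun s t hs h =>
    (Real.rpow_le_rpow hX h2 hs).trans (by
      rw [← Real.rpow_mul hY0]; exact Real.rpow_le_rpow_of_exponent_le hY h)
  have lo : ∀ s t : ℝ, 0 ≤ s → t ≤ (1 - η / 8) * s → Y ^ t ≤ X ^ s := fun s t hs h =>
    (Real.rpow_le_rpow_of_exponent_le hY h).trans (by
      rw [Real.rpow_mul hY0]; exact Real.rpow_le_rpow (Real.rpow_nonneg hY0 _) h1 hs)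
  have hA' : X ^ A ≤ Y ^ (2 * A) := up _ _ (by linarith only [hA, h0, hη]) (by nlinarith only [hA, hη])
  have h9 : X ^ (0.9 : ℝ) ≤ Y ^ (0.91 : ℝ) := up _ _ (by norm_num) (by linarith)
  rcases hf with ⟨a1, a2⟩ | ⟨l, hl, a1, a2, a3, a4⟩ | ⟨l, hl, a1, a2, a3⟩
  · rcases le_or_gt (pe f) (Y ^ (1 / 2 : ℝ)) with h | h
    · exact Or.inl h
    obtain ⟨f₀, s0, b1, b2⟩ := greedy1 (a := Y ^ (0.91 : ℝ)) (Real.one_le_rpow hY (by norm_num))
      (fun p hp' => ⟨(hp p hp').one_le, (a2 p hp').trans h9⟩) h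
    refine Or.inr (Or.inl ⟨f₀, s0, (Real.rpow_le_rpow_of_exponent_le hY (by linarith only [hη])).trans b1.le,
      b2.trans ?_, le_trans ?_ (a1.trans hA'), fun p hp' => (a2 p (mem_sdiff.1 hp').1).trans h9⟩)
    · rw [← Real.rpow_add (by linarith only [h0, hη, hY])]
      exact Real.rpow_le_rpow_of_exponent_le hY (by linarith only [hη])
    · have e : pe (f \ f₀) * pe f₀ = pe f := prod_sdiff s0
      have e1 := pe_ge_one fun p hp' => hp p (s0 hp')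
      have e2 := pe_ge_one (f := f \ f₀) fun p hp' => hp p (mem_sdiff.1 hp').1
      nlinarith only [e, e1, e2]
  · have e : pe {l} = l := prod_singleton _ _
    refine Or.inr (Or.inl ⟨{l}, singleton_subset_iff.2 hl, ?_⟩)
    rw [e, sdiff_singleton_eq_erase]
    exact ⟨(lo _ _ (by norm_num) (by linarith only [hη])).trans a1,
      a2.trans (up _ _ (by linarith only [h0, hη]) (by nlinarith only [h0])), a3.trans hA', fun p hp' => (a4 p hp').trans h9⟩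
  · exact Or.inr (Or.inr ⟨l, hl, (lo _ _ (by linarith only [h0, hη]) (by nlinarith only [hη])).trans a1,
      a2.trans (up _ _ (by linarith only [h0, hη]) (by nlinarith only [h0, hη])), a3.trans (up _ _ (by norm_num) (by linarith only [hη]))⟩)

theorem tib_Y {x e θ b Y : ℝ} {n : ℕ} (hn : 0 < n) (hx : 1 ≤ x) (he : 1 ≤ e) (hb : 1 ≤ b)
    (hex : e ≤ x ^ (4 * θ)) (hY0 : 0 ≤ Y) (hY : Y ^ n = x / e * b) :
    (∀ s t : ℝ, 0 ≤ t → s * n ≤ (1 - 4 * θ) * t → x ^ s ≤ Y ^ t) ∧ Y ^ n ≤ b * x := by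
  have hx0 : 0 < x := by linarith only [hx]
  have hn0 : (0 : ℝ) < n := by exact_mod_cast hn
  have h1 : x ^ (1 - 4 * θ) ≤ Y ^ n := by
    rw [hY, Real.rpow_sub hx0, Real.rpow_one]
    refine le_trans ?_ (le_mul_of_one_le_right (by positivity) hb)
    gcongr
  refine ⟨fun s t ht h => ?_, ?_⟩
  · calc x ^ s ≤ x ^ ((1 - 4 * θ) * (t / n)) := by
          refine Real.rpow_le_rpow_of_exponent_le hx ?_
          rwa [← mul_div_assoc, le_div_iff₀ hn0]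
      _ ≤ (Y ^ n) ^ (t / n) := by
          rw [Real.rpow_mul hx0.le]
          exact Real.rpow_le_rpow (by positivity) h1 (by positivity)
      _ = Y ^ t := by
          rw [← Real.rpow_natCast, ← Real.rpow_mul hY0, mul_div_cancel₀ _ hn0.ne']
  · rw [hY, mul_comm]
    gcongr
    exact div_le_self hx0.le he

theorem ti {A η : ℝ} (hA : 1 ≤ A) (h0 : 0 < η) (hη : η ≤ 0.01) : ∃ n₀ w : ℕ,
    40 * (A + 3) ≤ n₀ ∧ ∀ (K : Type) [Field K] [NumberField K] (N M : ℕ),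
      (n₀ ≤ dg K ∧ N = dg K ∨ n₀ * dg K ≤ N) → 0 < M → DD K ∣ M → BB K ∣ M →
      (∀ l : ℕ, l.Prime → l ≤ w → l ∣ M) → ∀ F : Ideal (𝓞 K) → ℂ, PF M F → ∀ v, Test v →
        ∃ δ C : ℝ, 0 < δ ∧ ∀ᶠ x : ℝ in atTop, ∀ e : ℕ, 1 ≤ e → (e : ℝ) ≤ x ^ (4 * ((A + 3) / N)) →
          ∑ f ∈ (Mod M A η (x ^ (1 / N : ℝ))).erase ∅,
            wf f * ‖sm (fun m => push F m * Qf f (e * m)) v (x / e)‖ ≤
              C * (x / e) * x ^ (-δ) := by
  obtain ⟨c, w, hc, H⟩ := ti_lat (2 * A) (σ := η / 2) (by linarith only [h0]) (by linarith only [h0, hη])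
  obtain ⟨n₀, hn₀⟩ := exists_nat_ge (40 * (A + 3) + 32 * (A + 3) / η + (4 * (A + 3) + 1) / c)
  have p1 : 0 ≤ 32 * (A + 3) / η := by positivity
  have p2 : 0 ≤ (4 * (A + 3) + 1) / c := by positivity
  have n1 : 40 * (A + 3) ≤ n₀ := by linarith
  have n2 : 32 * (A + 3) ≤ n₀ * η := (div_le_iff₀ h0).1 (by linarith only [hA, hn₀, p2])
  have n3 : 4 * (A + 3) + 1 ≤ n₀ * c := (div_le_iff₀ hc).1 (by linarith only [hA, hn₀, p1])
  refine ⟨n₀, w, n1, fun K _ _ N M hN hM hD hB hw F hF v hv => ?_⟩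
  obtain ⟨G⟩ := geo_nonempty K
  choose η' hη' using fun c s => exists_per hF c s
  obtain ⟨C₁, -, hC₁⟩ := G.nice 1
  obtain ⟨B, -, hBv⟩ := Test.db hv 1
  choose C hC using fun (k : ClassGroup (𝓞 K)) (s : Bool) => H K (M * BB K)
    (Ideal.absNorm (rep k) : ℕ) G.R (C₁ * B) (G.g v s) (Nat.mul_pos hM (BB_pos K)) (hD.mul_right _)
    (fun l hl h => (hw l hl h).mul_right _) (by exact_mod_cast (dec_norm_pos k).ne')
    (hC₁ v B s hv hBv)
  choose Y₀ hY₀ using fun k s => eventually_atTop.1 (hC k s)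
  have d1 : (1 : ℝ) ≤ dg K := by exact_mod_cast dg_pos K
  have hnN : (n₀ : ℝ) ≤ N := by
    rcases hN with ⟨h, rfl⟩ | h
    · exact_mod_cast h
    · exact_mod_cast (Nat.le_mul_of_pos_right _ (dg_pos K)).trans h
  have N0 : (0 : ℝ) < N := by linarith only [hA, hn₀, p1, p2, hnN]
  obtain ⟨θ, hθ⟩ : ∃ θ, θ = (A + 3) / N := ⟨_, rfl⟩
  have t0 : θ * N = A + 3 := by rw [hθ]; field_simp
  have t1 : 0 < θ := by rw [hθ]; positivity
  have t2 : θ ≤ 1 / 40 := by rw [hθ, div_le_iff₀ N0]; linarith only [hn₀, p1, p2, hnN]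
  rw [← hθ]
  refine ⟨0.004 / dg K, ∑ k, ∑ s, |C k s| * Ideal.absNorm (rep k), by positivity, ?_⟩
  filter_upwards [eventually_ge_atTop 1,
    (tendsto_rpow_atTop (y := 4 * θ) (by positivity)).eventually_ge_atTop (BB K : ℝ),
    eventually_all.2 fun k => eventually_all.2 fun s =>
      (tendsto_rpow_atTop (y := 0.9 / dg K) (by positivity)).eventually_ge_atTop (Y₀ k s)]
    with x hx hxB hxY e he hex
  have x0 : 0 < x := by linarith only [h0, hη, hx]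
  have e1 : (1 : ℝ) ≤ e := by exact_mod_cast he
  have y1 : 1 ≤ x / e := (one_le_div (by linarith only [h0, hη, e1])).2
    (hex.trans ((Real.rpow_le_rpow_of_exponent_le hx (by linarith only [h0, hη, t2])).trans_eq (Real.rpow_one x)))
  have X1 : 1 ≤ x ^ (1 / N : ℝ) := Real.one_le_rpow hx (by positivity)
  have sp := fun f (hf : f ∈ (Mod M A η (x ^ (1 / N : ℝ))).erase ∅) =>
    mod_spec hA hη h0 X1 (mem_erase.1 hf).2
  have xe : (x ^ (1 / N : ℝ)) ^ (A + 3) = x ^ θ := by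
    rw [← Real.rpow_mul x0.le, hθ]; congr 1; ring
  choose l hl using fun (k : ClassGroup (𝓞 K)) s f =>
    tib_inv ((rep_dvd_BB k).trans hB) (e * sg s) f
  refine (sum_le_sum fun f hf => mul_le_mul_of_nonneg_left (tib_one G hB F hv
    (fun c s => (hη' c s).2) (sp f hf).1 (fun k s => hl k s f (sp f hf).1) y1)
    (wf_nonneg fun p hp => ((sp f hf).1 p hp).1)).trans ?_
  simp only [mul_sum, sum_mul]
  rw [sum_comm]
  refine sum_le_sum fun k _ => ?_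
  rw [sum_comm]
  refine sum_le_sum fun s _ => ?_
  have Y1 := one_le_Hc y1 k
  have Yp := Hc_pow (y := x / e) (by linarith only [h0, hη, y1]) k
  obtain ⟨Y, hY⟩ : ∃ Y, Y = Hc (x / e) k := ⟨_, rfl⟩
  rw [← hY] at Y1 Yp ⊢
  have b1 : (1 : ℝ) ≤ Ideal.absNorm (rep k) := by exact_mod_cast dec_norm_pos k
  obtain ⟨lo, up⟩ := tib_Y (dg_pos K) hx e1 b1 hex (by linarith only [h0, hη, Y1]) Yp
  have r2 : (x ^ θ) ^ 2 = x ^ (2 * θ) := by
    rw [← Real.rpow_natCast, ← Real.rpow_mul x0.le, mul_comm]; norm_num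
  have k1 : 0.9 / (dg K : ℝ) * dg K = 0.9 := by field_simp
  have k2 : 0.004 / (dg K : ℝ) * dg K = 0.004 := by field_simp
  refine (hY₀ k s Y ((hxY k s).trans ((lo _ 1 one_pos.le (by linarith only [t2, k1])).trans_eq (Real.rpow_one Y)))
    (η' k s) (x ^ θ) _ (e * sg s) (l k s) (hη' k s).1 ?_ (Real.one_le_rpow hx t1.le) ?_
    (fun f hf => ⟨nonempty_iff_ne_empty.2 (mem_erase.1 hf).1, fun p hp => ?_,
      xe ▸ (sp f hf).2.1, hl k s f (sp f hf).1⟩) ?_).trans ?_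
  · have : |((e * sg s : ℤ) : ℝ)| = e := by cases s <;> simp [sg]
    rw [this, ← Real.rpow_natCast]
    exact hex.trans (lo _ _ (by linarith only [h0, hη, d1]) (by nlinarith only [t2]))
  · rw [r2, ← Real.rpow_natCast]
    exact lo _ _ (by linarith only [h0, hη, d1]) (by nlinarith only [t2])
  · obtain ⟨h1, h2⟩ := (sp f hf).1 p hp
    exact ⟨h1, fun h => h2 ((h1.dvd_mul.1 h).elim id fun h => h.trans hB)⟩
  · rcases hN with ⟨-, h⟩ | h
    · have h' : (N : ℝ) = dg K := by exact_mod_cast h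
      have q1 : 4 * (A + 3) ≤ c * dg K - 1 := by nlinarith only [hc, n3, hnN, h']
      have q2 : 4 * θ ≤ η / 8 := by
        rw [hθ, ← mul_div_assoc, div_le_iff₀ N0]; nlinarith only [h0, n2, hnN]
      have k3 : 1 / (N : ℝ) * dg K = 1 := by rw [← h']; field_simp
      refine Or.inr ⟨?_, fun f hf => tib_shape hA h0 hη Y1 ?_ (lo _ _ (by linarith only [t1, q2]) (by nlinarith only [h0, hη, q2, k3]))
        (fun p hp => ((sp f hf).1 p hp).1) (mem_filter.1 (mem_erase.1 hf).2).2⟩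
      · rw [r2]
        exact lo _ _ (by linarith only [hA, hη, t1, q1, q2]) (by rw [← h'] at q1 ⊢; nlinarith only [hA, hη, t0, q1, q2])
      · have u1 : Y ^ dg K ≤ x ^ (1 + η / 8) := by
          have : (Ideal.absNorm (rep k) : ℝ) ≤ BB K := by
            exact_mod_cast Nat.le_of_dvd (BB_pos K) (rep_dvd_BB k)
          rw [Real.rpow_add x0, Real.rpow_one, mul_comm]
          refine up.trans (mul_le_mul_of_nonneg_right (this.trans (hxB.trans ?_)) x0.le)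
          exact Real.rpow_le_rpow_of_exponent_le hx q2
        calc Y ^ (1 - η / 8) = (Y ^ dg K) ^ (1 / N * (1 - η / 8) : ℝ) := by
              rw [← Real.rpow_natCast, ← Real.rpow_mul (by linarith only [hη, t1, Y1, q2]), ← mul_assoc, mul_comm _ (1 / _),
                k3, one_mul]
          _ ≤ (x ^ (1 + η / 8)) ^ (1 / N * (1 - η / 8) : ℝ) :=
              Real.rpow_le_rpow (by positivity) u1 (mul_nonneg (by positivity) (by linarith only [hη]))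
          _ ≤ _ := by
              rw [← Real.rpow_mul x0.le, mul_left_comm]
              exact Real.rpow_le_rpow_of_exponent_le hx
                (mul_le_of_le_one_right (by positivity) (by nlinarith only [h0]))
    · have h' : (n₀ : ℝ) * dg K ≤ N := by exact_mod_cast h
      have : θ * dg K ≤ 1 / 40 := by
        rw [hθ, div_mul_eq_mul_div, div_le_iff₀ N0]; nlinarith only [hn₀, p1, p2, h']
      exact Or.inl (lo _ _ (by norm_num) (by linarith only [t2, this]))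
  · have q : Y ^ (-0.005 : ℝ) ≤ x ^ (-(0.004 / dg K : ℝ)) := by
      rw [Real.rpow_neg (by linarith only [h0, hη, Y1]), Real.rpow_neg x0.le]
      exact inv_anti₀ (by positivity) (lo _ _ (by norm_num) (by linarith only [t2, k2]))
    rw [sub_eq_add_neg, Real.rpow_add (by linarith only [h0, hη, Y1]), Real.rpow_natCast, Yp]
    calc _ ≤ |C k s| * (x / e * Ideal.absNorm (rep k) * x ^ (-(0.004 / dg K : ℝ))) :=
          mul_le_mul (le_abs_self _) (by gcongr) (by positivity) (abs_nonneg _)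
      _ = _ := by ring

end Pool.Agent.MP_48b1c3_nt.H48

end
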