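import Pool.Agent.MP_48b1c3_nt.Mg.H48_CDefs
import Pool.Agent.MP_1609a8_nt.H76.Weil
import Pool.Agent.MP_48b1c3_nt.H91.Norm
import Pool.Agent.MP_48b1c3_nt.H91.Defs
import Pool.Agent.MP_257582_lc.H99.Sieve
import Pool.Agent.MP_48b1c3_nt.Mg.H91_Geo
import Pool.Agent.MP_48b1c3_nt.H54.BV

attribute [-instance] IsAddTorsionFree.of_isDomain_charZero IdemSemiring.toCanonicallyOrderedAdd
  RKHS.instFunLike AddQuantale.instAddLeftMono instCoeTCOfCoe IdemSemiring.toMulLeftMono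
  IsOrderedMonoid.toMulLeftMono littleWedderburn Fintype.decidableForallFintype
  LieAdmissibleAlgebra.toModule Quantale.instMulLeftMono Pi.addCommMonoid RightPreLieAlgebra.toModule
  AlgHom.instNonUnitalAlgHomClassOfAlgHomClass LeftPreLieAlgebra.toModule instCharZeroOfIsSemireal
  AddGroup.fg_of_finite CommMonTypeEquivalenceCommMon.commMonCommMonoid NormedField.toField
  MonTypeEquivalenceMon.monMonoid AddQuantale.instAddRightMono FiniteField.instGrindPowIdentity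
  SemilinearMapClass.toAddHomClass CanonicallyOrderedAdd.toMulLeftMono IdemSemiring.toMulRightMono
  Quantale.instMulRightMono LieAlgebra.toModule GrpTypeEquivalenceGrp.grpGroup instCoeTOfCoeDep
  IsOrderedCancelAddMonoid.toIsCancelAdd instNonUnitalAlgHomClassOfNonUnitalAlgEquivClass
  RCLike.charZero_rclike ContinuousMonoidHom.instCoeOutOfMonoidHomClassOfContinuousMapClass
  CompletePartialOrder.toPartialOrder BialgHomClass.toMonoidHomClass NormedAlgebra.toAlgebra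
  LinearOrder.toDecidableEq NeZero.of_gt' CanonicallyOrderedMul.toMulLeftMono Torsor.toMulAction
  KleeneAlgebra.toIdemSemiring InnerProductSpace.toNormedSpace
  Group.IsPerfect.subsingleton_of_isMulCommutative ContDiffMapSupportedInClass.toDFunLike
  IdemCommSemiring.toIdemSemiring ValuationRing.instIsBezout TestFunctionClass.toDFunLike
  instFintypeUnitsOfDecidableEq

-- part MP_48b1c3_nt.H48.Comp
section

/-! Complete character sums. -/

namespace Pool.Agent.MP_48b1c3_nt.H48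

open Finset NumberField H54 H91 Filter
open scoped Classical BigOperators Topology

variable {K : Type} [Field K] [NumberField K]

theorem comp_conj {F : Type} [Field F] [Fintype F] (ψ : MulChar F ℂ) (h2 : 2 < Fintype.card F)
    (x : F) : (starRingEnd ℂ) (ψ x) = ψ x ^ (Fintype.card F - 2) := by
  obtain ⟨m, hm⟩ : ∃ m, Fintype.card F = m + 3 := ⟨Fintype.card F - 3, by omega⟩
  rw [show Fintype.card F - 2 = m + 1 by omega]
  rcases eq_or_ne x 0 with rfl | hx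
  · simp [MulChar.map_zero]
  · have h1 : ψ x ^ (m + 2) = 1 := by
      rw [← map_pow, show m + 2 = Fintype.card F - 1 by omega,
        FiniteField.pow_card_sub_one_eq_one x hx, map_one]
    have h3 : ‖ψ x‖ = 1 := Complex.norm_eq_one_of_pow_eq_one h1 (by omega)
    rw [← Complex.inv_eq_conj h3]
    exact (eq_inv_of_mul_eq_one_left (by rw [← pow_succ, h1])).symm

theorem weil_one {F : Type} [Field F] [Fintype F] {ψ : MulChar F ℂ} (hψ : ψ ≠ 1) {I : Type}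
    [Fintype I] (h : I → F) (e : I → Bool) (i₀ : I) (hu : ∀ i, h i = h i₀ → i = i₀) :
    ‖∑ t : F, ∏ i, cj (e i) (ψ (t + h i))‖ ≤ Fintype.card I * √(Fintype.card F) := by
  obtain ⟨u, hu1⟩ := MulChar.ne_one_iff.1 hψ
  have hne : (u : F) ≠ 1 := fun c => hu1 (by rw [c, map_one])
  have h2 : 2 < Fintype.card F :=
    Fintype.two_lt_card_iff.2 ⟨0, 1, u, zero_ne_one, u.ne_zero.symm, hne.symm⟩
  have hc (b : Bool) (x : F) : cj b (ψ x) = ψ x ^ (if b then Fintype.card F - 2 else 1) := by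
    cases b <;> simp [cj, comp_conj ψ h2]
  have h3 := Pool.Agent.MP_1609a8_nt.H76.weil_tame (K := F) h
    (fun i => if e i then Fintype.card F - 2 else 1) ψ.toMonoidHom i₀ u.ne_zero
    (by
      show ψ u ^ _ ≠ 1
      rw [← hc]
      cases e i₀
      · simpa [cj] using hu1
      · simp only [cj, if_true]
        exact fun c => hu1 (by simpa using congrArg (starRingEnd ℂ) c))
    (fun j k hk hj => by
      obtain rfl : k = 0 := by simpa using hk
      exact ⟨hu j (by simpa using hj.symm), rfl⟩)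
  rw [Module.finrank_self, Nat.cast_one, mul_one, ← Equiv.sum_comp (Equiv.neg F)] at h3
  refine le_of_eq_of_le (congrArg _ (sum_congr rfl fun t _ => prod_congr rfl fun i _ => ?_)) h3
  rw [hc]
  simp only [pow_ite, pow_one, Algebra.algebraMap_self, Equiv.neg_apply, RingHom.id_apply, sub_neg_eq_add, add_comm, MulChar.coe_toMonoidHom]

theorem comp_cj_prod {ι : Type} (s : Finset ι) (b : Bool) (f : ι → ℂ) :
    cj b (∏ i ∈ s, f i) = ∏ i ∈ s, cj b (f i) := by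
  cases b <;> simp [cj]

theorem comp_bound {S : Finset (Ideal (𝓞 K))} [Fintype (Res S)] (hS : ∀ P ∈ S, P.IsMaximal)
    {ψ : Chars K} (hψ : ∀ P ∈ S, ψ P ≠ 1) {I : Type} [Fintype I] [Nonempty I] (h : I → 𝓞 K)
    (e : I → Bool) {D : Finset (Ideal (𝓞 K))} (hD : D ⊆ S)
    (hu : ∀ P ∈ S, P ∉ D → ∃ i₀, ∀ i, h i - h i₀ ∈ P → i = i₀) :
    ‖∑ t : Res S, ∏ i, cj (e i) (chiS S ψ (t + res S (h i)))‖ ≤
      (Fintype.card I : ℝ) ^ #S * (√(NN S) * √(NN D)) := by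
  have hf (P : S) : Finite (𝓞 K ⧸ (P : Ideal (𝓞 K))) :=
    Ideal.finiteQuotientOfFreeOfNeBot _ (Ring.ne_bot_of_isMaximal_of_not_isField (hS P P.2)
      (RingOfIntegers.not_isField K))
  let (P : S) : Fintype (𝓞 K ⧸ (P : Ideal (𝓞 K))) := Fintype.ofFinite _
  have hc (P : S) : (Fintype.card (𝓞 K ⧸ (P : Ideal (𝓞 K))) : ℝ) = Ideal.absNorm P.1 := by
    rw [← Nat.card_eq_fintype_card]; rfl
  have hI : (1 : ℝ) ≤ Fintype.card I := by exact_mod_cast Fintype.card_pos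
  have e1 : ∑ t : Res S, ∏ i, cj (e i) (chiS S ψ (t + res S (h i))) =
      ∏ P : S, ∑ x : 𝓞 K ⧸ (P : Ideal (𝓞 K)),
        ∏ i, cj (e i) (ψ P (x + Ideal.Quotient.mk _ (h i))) := by
    rw [Fintype.prod_sum]
    refine sum_congr (by ext; simp) fun t _ => ?_
    simp only [chiS, comp_cj_prod]
    exact prod_comm
  have e2 : √(NN D) = ∏ P : S, if P.1 ∈ D then √(Ideal.absNorm P.1 : ℝ) else 1 := by
    rw [prod_coe_sort S fun P => if P ∈ D then √(Ideal.absNorm P : ℝ) else 1, ← prod_filter,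
      filter_mem_eq_inter, inter_eq_right.2 hD, NN, Real.sqrt_prod _ fun _ _ => Nat.cast_nonneg _]
  have e3 : √(NN S) = ∏ P : S, √(Ideal.absNorm P.1 : ℝ) := by
    rw [prod_coe_sort S fun P => √(Ideal.absNorm P : ℝ), NN,
      Real.sqrt_prod _ fun _ _ => Nat.cast_nonneg _]
  rw [e1, e2, e3, norm_prod, ← Fintype.card_coe, ← card_univ (α := S), ← prod_const,
    ← prod_mul_distrib, ← prod_mul_distrib]
  refine prod_le_prod (fun _ _ => norm_nonneg _) fun P _ => ?_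
  have := hS P P.2
  let := Ideal.Quotient.field P.1
  split_ifs with hP
  · rw [Real.mul_self_sqrt (Nat.cast_nonneg _), ← hc]
    refine le_trans ?_ (le_mul_of_one_le_left (Nat.cast_nonneg _) hI)
    refine (norm_sum_le _ _).trans ((sum_le_card_nsmul _ _ 1 fun x _ => ?_).trans (by simp))
    rw [norm_prod]
    refine prod_le_one (fun _ _ => norm_nonneg _) fun i _ => ?_
    rw [norm_cj]
    rcases eq_or_ne (x + Ideal.Quotient.mk _ (h i)) 0 with c | c
    · rw [c, MulChar.map_zero, norm_zero]; exact zero_le_one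
    · exact (Complex.norm_eq_one_of_pow_eq_one (by
        rw [← map_pow, FiniteField.pow_card_sub_one_eq_one _ c, map_one])
        (Nat.sub_ne_zero_of_lt Fintype.one_lt_card)).le
  · obtain ⟨i₀, h0⟩ := hu P P.2 hP
    rw [mul_one, ← hc]
    exact weil_one (hψ P P.2) (fun i => Ideal.Quotient.mk _ (h i)) e i₀
      fun i hi => h0 i (Ideal.Quotient.eq.1 hi)

theorem complete {S : Finset (Ideal (𝓞 K))} [Fintype (Res S)] (hS : ∀ P ∈ S, P.IsMaximal)
    (A : Finset (𝓞 K)) {T : ℝ} (hT : 0 ≤ T) (hA : ∀ a ∈ A, sz a ≤ T) (φ : Res S → ℝ)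
    (hφ : ∀ t, 0 ≤ φ t) :
    ∑ a ∈ A, φ (res S a) ≤ 4 ^ dg K * (1 + T ^ dg K / NN S) * ∑ t, φ t := by
  rw [← sum_fiberwise A (res S), mul_sum]
  refine sum_le_sum fun t _ => ?_
  rw [sum_congr rfl fun a ha => congrArg φ (mem_filter.1 ha).2, sum_const, nsmul_eq_mul]
  exact mul_le_mul_of_nonneg_right (card_class hS _ hT (fun a ha => hA a (mem_filter.1 ha).1)
    fun a ha b hb => res_eq_iff.1 ((mem_filter.1 ha).2.trans (mem_filter.1 hb).2.symm)) (hφ t)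

theorem NN_mono {D S : Finset (Ideal (𝓞 K))} (hS : ∀ P ∈ S, P.IsMaximal) (h : D ⊆ S) :
    NN D ≤ NN S := by
  have h1 : NN S = NN (S \ D) * NN D := (prod_sdiff h).symm
  rw [h1]
  exact le_mul_of_one_le_left (zero_le_one.trans (one_le_NN fun P hP => hS P (h hP)))
    (one_le_NN fun P hP => hS P (mem_sdiff.1 hP).1)

theorem NN_union_le {D E : Finset (Ideal (𝓞 K))} (hD : ∀ P ∈ D, P.IsMaximal)
    (hE : ∀ P ∈ E, P.IsMaximal) : NN (D ∪ E) ≤ NN D * NN E := by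
  have h1 : NN (D ∪ E) * NN (D ∩ E) = NN D * NN E := prod_union_inter
  rw [← h1]
  exact le_mul_of_one_le_right (zero_le_one.trans (one_le_NN fun P hP =>
    (mem_union.1 hP).elim (hD P) (hE P))) (one_le_NN fun P hP => hD P (mem_inter.1 hP).1)

end Pool.Agent.MP_48b1c3_nt.H48

end

-- part MP_48b1c3_nt.H48.GMom
section

/-! The second moment after the Cauchy-Schwarz steps. -/

namespace Pool.Agent.MP_48b1c3_nt.H48

open Finset NumberField H54 H91 Filter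
open scoped Classical BigOperators Topology

variable {K : Type} [Field K] [NumberField K]

theorem gmom_conj (b : Bool) (z : ℂ) : (starRingEnd ℂ) (cj b z) = cj (!b) z := by
  cases b <;> simp [cj]

theorem gmom_fib {S : Finset (Ideal (𝓞 K))} (hS : ∀ P ∈ S, P.IsMaximal) {I : Type} [Fintype I]
    [Nonempty I] (t : I → 𝓞 K) {T : ℝ} (hT : 0 ≤ T) :
    ∑ b ∈ Bl K T, √(NN (S.filter fun P => ∃ i, b - t i ∈ P)) ≤
      (2 * Fintype.card I : ℝ) ^ #S * (4 ^ dg K * (√(NN S) + T ^ dg K)) := by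
  have hm : (1 : ℝ) ≤ Fintype.card I := by exact_mod_cast Fintype.card_pos
  rw [← sum_fiberwise_of_maps_to (t := S.powerset)
    (g := fun b => S.filter fun P => ∃ i, b - t i ∈ P)
    fun b _ => mem_powerset.2 (filter_subset _ _)]
  refine (sum_le_card_nsmul _ _
    ((Fintype.card I : ℝ) ^ #S * (4 ^ dg K * (√(NN S) + T ^ dg K))) fun E hE => ?_).trans ?_
  swap
  · rw [card_powerset, nsmul_eq_mul, mul_pow, mul_assoc]
    push_cast
    rfl
  have hE' := mem_powerset.1 hE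
  have hEm : ∀ P ∈ E, P.IsMaximal := fun P hP => hS P (hE' hP)
  rw [sum_congr rfl fun b hb => by rw [(mem_filter.1 hb).2], sum_const, nsmul_eq_mul]
  have h1 := card_targets hEm t (g := 1) (fun P hP => (Ideal.ne_top_iff_one P).1 (hEm P hP).ne_top)
    ((Bl K T).filter fun b => (S.filter fun P => ∃ i, b - t i ∈ P) = E) hT
    (fun a ha => mem_Bl.1 (mem_filter.1 ha).1) fun a ha P hP => by
      rw [← (mem_filter.1 ha).2] at hP
      simpa only [one_mul] using (mem_filter.1 hP).2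
  have h2 : 1 ≤ √(NN E) := Real.one_le_sqrt.2 (one_le_NN hEm)
  have h3 : √(NN E) ≤ √(NN S) := Real.sqrt_le_sqrt (NN_mono hS hE')
  have h4 : (1 + T ^ dg K / NN E) * √(NN E) ≤ √(NN S) + T ^ dg K := by
    have h5 := Real.mul_self_sqrt (zero_le_one.trans (one_le_NN hEm))
    generalize √(NN E) = r at h2 h3 h5 ⊢
    rw [← h5, add_mul, one_mul, ← div_div, div_mul_cancel₀ _ (by positivity)]
    exact add_le_add h3 (div_le_self (by positivity) h2)
  calc _ ≤ (Fintype.card I : ℝ) ^ #E * (4 ^ dg K * (1 + T ^ dg K / NN E)) * √(NN E) :=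
        mul_le_mul_of_nonneg_right h1 (by positivity)
    _ = (Fintype.card I : ℝ) ^ #E * (4 ^ dg K * ((1 + T ^ dg K / NN E) * √(NN E))) := by ring
    _ ≤ _ := by
        have h6 : 0 ≤ (1 + T ^ dg K / NN E) * √(NN E) := by
          have := one_le_NN hEm
          positivity
        gcongr

theorem gmom_pair {S D : Finset (Ideal (𝓞 K))} [Fintype (Res S)] (hS : ∀ P ∈ S, P.IsMaximal)
    {ψ : Chars K} (hψ : ∀ P ∈ S, ψ P ≠ 1) {I : Type} [Fintype I] (h : I → 𝓞 K) (e : I → Bool)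
    (i₀ : I) (hD : D ⊆ S) (hu : ∀ P ∈ S, P ∉ D → ∀ i, h i - h i₀ ∈ P → i = i₀) (b b' : 𝓞 K) :
    ‖∑ t : Res S, (∏ i, cj (e i) (chiS S ψ (t + res S (b + h i)))) *
      (starRingEnd ℂ) (∏ i, cj (e i) (chiS S ψ (t + res S (b' + h i))))‖ ≤
      (2 * Fintype.card I : ℝ) ^ #S * √(NN S) * √(NN D) *
        √(NN (S.filter fun P => ∃ i, b' - (b + h i₀ - h i) ∈ P)) := by
  have : Nonempty (I ⊕ I) := ⟨.inl i₀⟩
  have h1 := comp_bound hS hψ (Sum.elim (fun i => b + h i) fun i => b' + h i)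
    (Sum.elim e fun i => !e i) (union_subset hD (filter_subset
      (fun P => ∃ i, b' - (b + h i₀ - h i) ∈ P) S)) fun P hP hn => by
      rw [mem_union, not_or, mem_filter] at hn
      refine ⟨.inl i₀, ?_⟩
      rintro (i | i) hi
      · rw [Sum.elim_inl, Sum.elim_inl, add_sub_add_left_eq_sub] at hi
        rw [hu P hP hn.1 i hi]
      · refine absurd ⟨hP, i, ?_⟩ hn.2
        rw [Sum.elim_inl, Sum.elim_inr] at hi
        rwa [show b' - (b + h i₀ - h i) = b' + h i - (b + h i₀) by ring]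
  simp only [Fintype.prod_sum_type, Sum.elim_inl, Sum.elim_inr, Fintype.card_sum] at h1
  simp only [map_prod, gmom_conj]
  refine h1.trans ?_
  have hDm : ∀ P ∈ D, P.IsMaximal := fun P hP => hS P (hD hP)
  have h2 := Real.sqrt_le_sqrt (NN_union_le hDm
    (E := S.filter fun P => ∃ i, b' - (b + h i₀ - h i) ∈ P) fun P hP => hS P (mem_filter.1 hP).1)
  rw [Real.sqrt_mul (zero_le_one.trans (one_le_NN hDm))] at h2
  rw [Nat.cast_add, ← two_mul, mul_assoc, mul_assoc]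
  gcongr

theorem gmom_sq {α β : Type} [Fintype α] (B : Finset β) (Φ : α → β → ℂ) :
    ∑ t, ‖∑ b ∈ B, Φ t b‖ ^ 2 ≤ ∑ b ∈ B, ∑ b' ∈ B, ‖∑ t, Φ t b * (starRingEnd ℂ) (Φ t b')‖ := by
  have h : ((∑ t, ‖∑ b ∈ B, Φ t b‖ ^ 2 : ℝ) : ℂ) =
      ∑ b ∈ B, ∑ b' ∈ B, ∑ t, Φ t b * (starRingEnd ℂ) (Φ t b') := by
    push_cast
    simp only [← Complex.mul_conj', map_sum, sum_mul_sum]
    rw [sum_comm]
    exact sum_congr rfl fun b _ => sum_comm
  refine (le_abs_self _).trans ?_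
  rw [← Real.norm_eq_abs, ← Complex.norm_real, h]
  exact (norm_sum_le _ _).trans (sum_le_sum fun b _ => norm_sum_le _ _)

theorem gmom_num {r W c a b C : ℝ} (hr : 1 ≤ r) (hW : 1 ≤ W) (hc : 1 ≤ c) (ha : 0 < a)
    (hb : 0 < b) (h1 : W ≤ C * a) (h2 : W ≤ C * b) :
    (1 + c * W / (r * r)) * r * (r + W) / (a * b) ≤
      2 * c * C ^ 2 * (r * r / W ^ 2 + r / W + 1 / r) := by
  have e1 : 1 / (a * b) ≤ C ^ 2 / W ^ 2 := by
    rw [div_le_div_iff₀ (by positivity) (by positivity)]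
    have := mul_le_mul h1 h2 (by linarith) (by linarith)
    linarith
  have e2 : 1 + c * W / (r * r) ≤ c * (1 + W / (r * r)) := by
    rw [mul_add, mul_div_assoc]
    linarith
  have e3 : 1 / W ≤ r / W := by gcongr
  have e4 : 0 ≤ r * r / W ^ 2 := by positivity
  have e5 : 0 ≤ 1 / r := by positivity
  calc _ = (1 + c * W / (r * r)) * r * (r + W) * (1 / (a * b)) := by ring
    _ ≤ c * (1 + W / (r * r)) * r * (r + W) * (C ^ 2 / W ^ 2) := by gcongr
    _ = c * C ^ 2 * (r * r / W ^ 2 + r / W + 1 / W + 1 / r) := by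
        field_simp
        ring
    _ ≤ c * C ^ 2 * (2 * (r * r / W ^ 2 + r / W + 1 / r)) := by
        gcongr
        linarith only [e3, e4, e5]
    _ = _ := by ring

variable (K) in
theorem g_moment : ∃ C : ℝ, 0 < C ∧ ∀ (S D : Finset (Ideal (𝓞 K))) (ψ : Chars K) (I : Type)
    [Fintype I] (h : I → 𝓞 K) (e : I → Bool) (i₀ : I) (T : ℝ), (∀ P ∈ S, P.IsMaximal) →
    (∀ P ∈ S, ψ P ≠ 1) → 1 ≤ T → D ⊆ S → (∀ P ∈ S, P ∉ D → ∀ i, h i - h i₀ ∈ P → i = i₀) →
      ‖𝔼 k : Bl K (2 * T) × Bl K T,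
        ∏ i, cj (e i) (chiS S ψ (res S ((k.1 : 𝓞 K) + k.2 + h i)))‖ ^ 2 ≤
      C * (2 * Fintype.card I : ℝ) ^ (2 * #S) * √(NN D) *
        (NN S / T ^ (2 * dg K) + √(NN S) / T ^ dg K + 1 / √(NN S)) := by
  obtain ⟨C, hC, hB⟩ := le_card_Bl K
  refine ⟨4 ^ dg K * 4 ^ dg K * (2 * 2 ^ dg K * C ^ 2), by positivity,
    fun S D ψ I _ h e i₀ T hS hψ hT hD hu => ?_⟩
  have := finite_res hS
  have := Fintype.ofFinite (Res S)
  have : Nonempty I := ⟨i₀⟩
  have T0 : 0 ≤ T := by linarith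
  have ha : (0 : ℝ) < #(Bl K (2 * T)) := by
    exact_mod_cast card_pos.2 ⟨_, zero_mem_Bl (by linarith)⟩
  have hb : (0 : ℝ) < #(Bl K T) := by exact_mod_cast card_pos.2 ⟨_, zero_mem_Bl T0⟩
  have hN := one_le_NN hS
  let G : Res S → ℂ := fun t => ∑ b ∈ Bl K T, ∏ i, cj (e i) (chiS S ψ (t + res S (b + h i)))
  have h1 : 𝔼 k : Bl K (2 * T) × Bl K T,
      ∏ i, cj (e i) (chiS S ψ (res S ((k.1 : 𝓞 K) + k.2 + h i))) =
      (∑ a ∈ Bl K (2 * T), G (res S a)) / ((#(Bl K (2 * T)) * #(Bl K T) : ℝ) : ℂ) := by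
    rw [expect_eq_sum_div_card, Fintype.sum_prod_type, card_univ, Fintype.card_prod,
      Fintype.card_coe, Fintype.card_coe, ← sum_coe_sort (Bl K (2 * T))]
    push_cast
    congr 1
    refine sum_congr rfl fun a _ => ?_
    simp only [G, add_assoc, map_add (res S) (a : 𝓞 K)]
    exact sum_coe_sort (Bl K T) fun b => ∏ i, cj (e i) (chiS S ψ (res S a + res S (b + h i)))
  have h2 : ‖∑ a ∈ Bl K (2 * T), G (res S a)‖ ^ 2 ≤
      #(Bl K (2 * T)) * ∑ a ∈ Bl K (2 * T), ‖G (res S a)‖ ^ 2 :=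
    (pow_le_pow_left₀ (norm_nonneg _) (norm_sum_le _ _) 2).trans sq_sum_le_card_mul_sum_sq
  have h3 := complete hS (Bl K (2 * T)) (by linarith only [hT]) (fun a ha => mem_Bl.1 ha)
    (fun t => ‖G t‖ ^ 2) fun t => by positivity
  have h4 : ∑ t, ‖G t‖ ^ 2 ≤ #(Bl K T) * ((2 * Fintype.card I : ℝ) ^ #S * √(NN S) * √(NN D) *
      ((2 * Fintype.card I : ℝ) ^ #S * (4 ^ dg K * (√(NN S) + T ^ dg K)))) := by
    refine (gmom_sq _ _).trans ((sum_le_card_nsmul _ _ _ fun b _ => ?_).trans_eq (nsmul_eq_mul _ _))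
    refine (sum_le_sum fun b' _ => gmom_pair hS hψ h e i₀ hD hu b b').trans ?_
    rw [← mul_sum]
    exact mul_le_mul_of_nonneg_left (gmom_fib hS (fun i => b + h i₀ - h i) T0) (by positivity)
  have h5 := gmom_num (Real.one_le_sqrt.2 hN) (one_le_pow₀ (n := dg K) hT)
    (one_le_pow₀ (n := dg K) one_le_two) ha hb
    ((pow_le_pow_left₀ T0 (by linarith only [hT]) _).trans (hB (2 * T) (by linarith only [hT]))) (hB T T0)
  rw [Real.mul_self_sqrt (by linarith only [hN]), ← mul_pow, ← pow_mul'] at h5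
  rw [h1, norm_div, div_pow, Complex.norm_real, Real.norm_of_nonneg (by positivity)]
  calc _ ≤ #(Bl K (2 * T)) * (4 ^ dg K * (1 + (2 * T) ^ dg K / NN S) * (#(Bl K T) *
        ((2 * Fintype.card I : ℝ) ^ #S * √(NN S) * √(NN D) * ((2 * Fintype.card I : ℝ) ^ #S *
          (4 ^ dg K * (√(NN S) + T ^ dg K)))))) / (#(Bl K (2 * T)) * #(Bl K T)) ^ 2 := by
        refine div_le_div_of_nonneg_right (h2.trans (mul_le_mul_of_nonneg_left (h3.trans
          (mul_le_mul_of_nonneg_left h4 (by positivity))) ha.le)) (by positivity)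
    _ = 4 ^ dg K * 4 ^ dg K * (2 * Fintype.card I : ℝ) ^ (2 * #S) * √(NN D) *
        ((1 + (2 * T) ^ dg K / NN S) * √(NN S) * (√(NN S) + T ^ dg K) /
          (#(Bl K (2 * T)) * #(Bl K T))) := by
        rw [pow_mul' (2 * Fintype.card I : ℝ)]
        field_simp
    _ ≤ 4 ^ dg K * 4 ^ dg K * (2 * Fintype.card I : ℝ) ^ (2 * #S) * √(NN D) *
        (2 * 2 ^ dg K * C ^ 2 *
          (NN S / T ^ (2 * dg K) + √(NN S) / T ^ dg K + 1 / √(NN S))) := by gcongr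
    _ = _ := by ring

end Pool.Agent.MP_48b1c3_nt.H48

end

-- part MP_48b1c3_nt.H48.GCS
section

/-! The Gowers-Cauchy-Schwarz inequality. -/

namespace Pool.Agent.MP_48b1c3_nt.H48

open Finset NumberField H54 H91 Filter
open scoped Classical BigOperators Topology

variable {K : Type} [Field K] [NumberField K]

/-- the vertices of the cube spanned by `u` and `u'` -/
def mix {U : Type} {J : ℕ} (ε : Fin J → Bool) (u u' : Fin J → U) (j : Fin J) : U :=
  if ε j then u' j else u j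

theorem gcs_prod {α β : Type} [Fintype α] [Fintype β] (f : α × β → ℂ) :
    𝔼 p, f p = 𝔼 x, 𝔼 y, f (x, y) := by
  rw [← univ_product_univ, expect_product]

theorem gcs_split {U : Type} [Fintype U] {J : ℕ} (f : (Fin (J + 1) → U) → ℂ) :
    𝔼 u, f u = 𝔼 x, 𝔼 r, f (Fin.cons x r) := by
  rw [← Fintype.expect_equiv (Fin.consEquiv fun _ => U) (fun p => f (Fin.cons p.1 p.2)) f
    fun _ => rfl, gcs_prod]

theorem gcs_mix {U : Type} {J : ℕ} (β : Bool) (ε : Fin J → Bool) (x x' : U) (r r' : Fin J → U) :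
    mix (Fin.cons β ε : Fin (J + 1) → Bool) (Fin.cons x r) (Fin.cons x' r') =
      Fin.cons (if β then x' else x) (mix ε r r') :=
  funext fun j => Fin.cases rfl (fun _ => rfl) j

theorem gcs_cs {α : Type} [Fintype α] [Nonempty α] (c F : α → ℂ) (hc : ∀ p, ‖c p‖ ≤ 1) :
    ‖𝔼 p, c p * F p‖ ^ 2 ≤ ‖𝔼 p, F p * (starRingEnd ℂ) (F p)‖ := by
  have h1 : ‖𝔼 p, c p * F p‖ ≤ 𝔼 p, ‖F p‖ * 1 :=
    (RCLike.norm_expect_le (K := ℂ)).trans (expect_le_expect fun p _ => by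
      rw [norm_mul, mul_comm]
      exact mul_le_mul_of_nonneg_left (hc p) (norm_nonneg _))
  refine (pow_le_pow_left₀ (norm_nonneg _) h1 2).trans
    ((expect_mul_sq_le_sq_mul_sq _ _ _).trans ?_)
  simp only [Complex.mul_conj', one_pow, Fintype.expect_const, mul_one, ← Complex.ofReal_pow,
    ← Complex.ofReal_expect, Complex.norm_real]
  exact Real.le_norm_self _

theorem gcs_core (J : ℕ) : ∃ e : (Fin J → Bool) → Bool, ∀ {U Ω : Type} [Fintype U] [Nonempty U]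
    [Fintype Ω] [Nonempty Ω] (a : Ω → (Fin J → U) → ℂ)
    (b : Fin J → Ω → (Fin J → U) → ℂ), (∀ j k u, ‖b j k u‖ ≤ 1) →
    (∀ j k u x, b j k (Function.update u j x) = b j k u) →
      ‖𝔼 k, 𝔼 u, a k u * ∏ j, b j k u‖ ^ 2 ^ J ≤
        ‖𝔼 k, 𝔼 u, 𝔼 u', ∏ ε, cj (e ε) (a k (mix ε u u'))‖ := by
  induction J with
  | zero =>
    refine ⟨fun _ => false, fun {U Ω} _ _ _ _ a b _ _ => le_of_eq ?_⟩
    have : ∀ ε (u u' : Fin 0 → U), mix ε u u' = u := fun _ _ _ => Subsingleton.elim _ _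
    simp [this, cj]
  | succ J ih =>
    obtain ⟨e, he⟩ := ih
    refine ⟨fun ε => xor (ε 0) (e (Fin.tail ε)), fun {U Ω} _ _ _ _ a b h1 h2 => ?_⟩
    obtain ⟨x₀⟩ := ‹Nonempty U›
    have h3 := gcs_cs (fun p : Ω × (Fin J → U) => b 0 p.1 (Fin.cons x₀ p.2))
      (fun p => 𝔼 x, a p.1 (Fin.cons x p.2) * ∏ j : Fin J, b j.succ p.1 (Fin.cons x p.2))
      fun p => h1 _ _ _
    have h4 := he (U := U) (Ω := Ω × U × U)
      (fun k r => a k.1 (Fin.cons k.2.1 r) * (starRingEnd ℂ) (a k.1 (Fin.cons k.2.2 r)))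
      (fun j k r => b j.succ k.1 (Fin.cons k.2.1 r) *
        (starRingEnd ℂ) (b j.succ k.1 (Fin.cons k.2.2 r)))
      (fun j k r => by
        rw [norm_mul, Complex.norm_conj]
        exact mul_le_one₀ (h1 _ _ _) (norm_nonneg _) (h1 _ _ _))
      (fun j k r x => by simp only [Fin.cons_update, h2])
    rw [pow_succ', pow_mul]
    refine le_of_eq_of_le ?_ ((pow_le_pow_left₀ (by positivity) h3 (2 ^ J)).trans
      (le_of_eq_of_le ?_ (h4.trans_eq ?_)))
    · congr 3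
      rw [gcs_prod]
      refine expect_congr rfl fun k _ => ?_
      rw [gcs_split, expect_comm]
      refine expect_congr rfl fun r _ => ?_
      rw [mul_expect]
      refine expect_congr rfl fun x _ => ?_
      rw [Fin.prod_univ_succ, ← h2 0 k (Fin.cons x₀ r) x, Fin.update_cons_zero]
      ring
    · congr 2
      simp only [gcs_prod]
      refine expect_congr rfl fun k _ => ?_
      rw [expect_congr rfl fun x _ => expect_comm _ _ _, expect_comm]
      refine expect_congr rfl fun r _ => ?_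
      rw [show (starRingEnd ℂ) (𝔼 x, _) = 𝔼 x, (starRingEnd ℂ) _ from map_expect _ _ _,
        Fintype.expect_mul_expect]
      refine expect_congr rfl fun x _ => expect_congr rfl fun x' _ => ?_
      simp only [map_mul, map_prod, prod_mul_distrib]
      ring
    · congr 1
      simp only [gcs_prod, gcs_split]
      refine expect_congr rfl fun k _ => expect_congr rfl fun x _ => ?_
      rw [expect_comm]
      refine expect_congr rfl fun r _ => expect_congr rfl fun x' _ =>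
        expect_congr rfl fun r' _ => ?_
      rw [← (Fin.consEquiv fun _ => Bool).prod_comp, Fintype.prod_prod_type_right]
      refine prod_congr rfl fun ε _ => ?_
      change _ = ∏ β : Bool, cj (xor β (e ε)) (a k (mix (Fin.cons β ε : Fin (J + 1) → Bool) _ _))
      simp only [gcs_mix]
      cases e ε <;> simp [cj, mul_comm]

theorem gcs (J : ℕ) : ∃ e : (Fin (J + 1) → Bool) → Bool, ∀ {U Ω : Type} [Fintype U] [Nonempty U]
    [Fintype Ω] [Nonempty Ω] (a : Ω → (Fin (J + 1) → U) → ℂ)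
    (b : Fin (J + 1) → Ω → (Fin (J + 1) → U) → ℂ), (∀ j k u, ‖b j k u‖ ≤ 1) →
    (∀ j k u x, b j k (Function.update u j x) = b j k u) →
      (𝔼 k, ‖𝔼 u, a k u * ∏ j, b j k u‖) ^ 2 ^ (J + 1) ≤
        𝔼 u, 𝔼 u', ‖𝔼 k, ∏ ε, cj (e ε) (a k (mix ε u u'))‖ := by
  obtain ⟨e, he⟩ := gcs_core (J + 1)
  refine ⟨e, fun {U Ω} _ _ _ _ a b h1 h2 => ?_⟩
  choose c hc hc' using fun k => Complex.exists_norm_eq_mul_self (𝔼 u, a k u * ∏ j, b j k u)
  have h3 := he a (fun j k u => (if j = 0 then c k else 1) * b j k u)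
    (fun j k u => by
      rw [norm_mul]
      refine mul_le_one₀ ?_ (norm_nonneg _) (h1 _ _ _)
      split_ifs <;> simp [hc])
    (fun j k u x => by simp only [h2])
  refine le_of_eq_of_le ?_ (h3.trans ?_)
  · congr 1
    have : ∀ k, 𝔼 u, a k u * ∏ j, (if j = 0 then c k else 1) * b j k u =
        (‖𝔼 u, a k u * ∏ j, b j k u‖ : ℝ) := fun k => by
      rw [hc', mul_expect]
      refine expect_congr rfl fun u _ => ?_
      rw [prod_mul_distrib, prod_ite_eq', if_pos (mem_univ _), mul_left_comm]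
    simp only [this, ← Complex.ofReal_expect, Complex.norm_real]
    exact (Real.norm_of_nonneg (expect_nonneg fun _ _ => norm_nonneg _)).symm
  · rw [expect_comm]
    refine (RCLike.norm_expect_le (K := ℂ)).trans (expect_le_expect fun u _ => ?_)
    rw [expect_comm]
    exact RCLike.norm_expect_le (K := ℂ)

end Pool.Agent.MP_48b1c3_nt.H48

end

-- part MP_48b1c3_nt.H48.GBad
section

/-! Degenerate cubes are rare. -/

namespace Pool.Agent.MP_48b1c3_nt.H48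

open Finset NumberField H54 H91 Filter
open scoped Classical BigOperators Topology

variable {K : Type} [Field K] [NumberField K]

/-- the primes at which two vertices of the cube of shifts collide -/
noncomputable def bad (S : Finset (Ideal (𝓞 K))) {J : ℕ} (g : Fin J → ℕ) {V : ℝ}
    (u u' : Fin J → Bl K V) : Finset (Ideal (𝓞 K)) :=
  S.filter fun P => ∃ ε : Fin J → Bool, (ε ≠ fun _ => false) ∧
    ∑ j, (g j : 𝓞 K) * (mix ε u u' j : Bl K V) - ∑ j, (g j : 𝓞 K) * u j ∈ P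

theorem gbad_biUnion {ι : Type} (T : Finset ι) (B : ι → Finset (Ideal (𝓞 K)))
    (hB : ∀ i, ∀ P ∈ B i, P.IsMaximal) : NN (T.biUnion B) ≤ ∏ i ∈ T, NN (B i) := by
  induction T using Finset.induction_on with
  | empty => simp [NN]
  | insert i T hi ih =>
    rw [biUnion_insert, prod_insert hi]
    refine (NN_union_le (hB i) fun P hP => ?_).trans
      (mul_le_mul_of_nonneg_left ih (zero_le_one.trans (one_le_NN (hB i))))
    obtain ⟨k, -, hk⟩ := mem_biUnion.1 hP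
    exact hB k P hk

theorem gbad_exists {S : Finset (Ideal (𝓞 K))} (hS : ∀ P ∈ S, P.IsMaximal) {J : ℕ}
    (d : (Fin J → Bool) → 𝓞 K) {Z : ℝ} (hZ : 1 ≤ Z)
    (h : Z ^ 2 ^ J < NN (S.filter fun P => ∃ ε : Fin J → Bool, (ε ≠ fun _ => false) ∧ d ε ∈ P)) :
    ∃ ε : Fin J → Bool, ∃ D ∈ S.powerset, (ε ≠ fun _ => false) ∧ Z < NN D ∧ ∀ P ∈ D, d ε ∈ P := by
  by_contra hc
  have h1 : ∀ ε : Fin J → Bool, (ε ≠ fun _ => false) → NN (S.filter fun P => d ε ∈ P) ≤ Z :=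
    fun ε hε => not_lt.1 fun h2 => hc ⟨ε, _, mem_powerset.2 (filter_subset _ _), hε, h2,
      fun P hP => (mem_filter.1 hP).2⟩
  have h2 : (S.filter fun P => ∃ ε : Fin J → Bool, (ε ≠ fun _ => false) ∧ d ε ∈ P) =
      (univ.filter fun ε : Fin J → Bool => ε ≠ fun _ => false).biUnion
        fun ε => S.filter fun P => d ε ∈ P := by
    ext P
    simp only [mem_filter, mem_biUnion, mem_univ, true_and]
    exact ⟨fun ⟨h3, ε, h4, h5⟩ => ⟨ε, h4, h3, h5⟩, fun ⟨ε, h4, h3, h5⟩ => ⟨h3, ε, h4, h5⟩⟩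
  have h3 : ∀ ε : Fin J → Bool, ∀ P ∈ S.filter fun P => d ε ∈ P, P.IsMaximal :=
    fun ε P hP => hS P (mem_filter.1 hP).1
  rw [h2] at h
  refine h.not_ge ((gbad_biUnion _ _ h3).trans ?_)
  refine (prod_le_prod (g := fun _ => Z) (fun ε _ => zero_le_one.trans (one_le_NN (h3 ε)))
    fun ε hε => h1 ε (mem_filter.1 hε).2).trans ?_
  rw [prod_const]
  refine pow_le_pow_right₀ hZ ((card_filter_le _ _).trans ?_)
  simp only [card_univ, Fintype.card_pi, Fintype.card_bool, prod_const, Fintype.card_fin, Std.le_refl]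

theorem gbad_resample {U : Type} [Fintype U] [Nonempty U] {J : ℕ} (j : Fin J)
    (f : (Fin J → U) → ℝ) : 𝔼 u, f u = 𝔼 u, 𝔼 x, f (Function.update u j x) := by
  have h : Function.Involutive
      fun p : (Fin J → U) × U => (Function.update p.1 j p.2, p.1 j) := by
    intro p
    simp
  calc 𝔼 u, f u = 𝔼 u, 𝔼 _x : U, f u := by simp
    _ = 𝔼 p : (Fin J → U) × U, f p.1 := by
      rw [← expect_product' univ univ fun u (_ : U) => f u, univ_product_univ]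
    _ = 𝔼 p : (Fin J → U) × U, f (Function.update p.1 j p.2) :=
      (Fintype.expect_equiv h.toPerm _ _ fun _ => rfl).symm
    _ = _ := by
      rw [← expect_product' univ univ fun u (x : U) => f (Function.update u j x),
        univ_product_univ]

theorem gbad_one {D : Finset (Ideal (𝓞 K))} (hD : ∀ P ∈ D, P.IsMaximal) {g : 𝓞 K}
    (hg : ∀ P ∈ D, g ∉ P) {V : ℝ} (hV : 0 ≤ V) (F : Bl K V → 𝓞 K)
    (hF : ∀ x y, F x - F y = g * (x - y)) :
    𝔼 x, (if ∀ P ∈ D, F x ∈ P then (1 : ℝ) else 0) ≤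
      4 ^ dg K * (1 + V ^ dg K / NN D) / #(Bl K V) := by
  rw [Fintype.expect_eq_sum_div_card, Fintype.card_coe, sum_boole]
  refine div_le_div_of_nonneg_right ?_ (Nat.cast_nonneg _)
  rw [← card_image_of_injective _ Subtype.val_injective]
  refine card_class hD _ hV (fun a ha => ?_) fun a ha b hb P hP => ?_
  · obtain ⟨x, -, rfl⟩ := mem_image.1 ha
    exact mem_Bl.1 x.2
  · obtain ⟨x, hx, rfl⟩ := mem_image.1 ha
    obtain ⟨y, hy, rfl⟩ := mem_image.1 hb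
    have h := P.sub_mem ((mem_filter.1 hx).2 P hP) ((mem_filter.1 hy).2 P hP)
    rw [hF] at h
    exact ((hD P hP).isPrime.mem_or_mem h).resolve_left (hg P hP)

variable (K) in
theorem g_bad : ∃ C : ℝ, 0 < C ∧ ∀ (S : Finset (Ideal (𝓞 K))) (J : ℕ) (g : Fin J → ℕ) (V Z : ℝ),
    (∀ P ∈ S, P.IsMaximal) → (∀ j, ∀ P ∈ S, (g j : 𝓞 K) ∉ P) → 1 ≤ V → 1 ≤ Z →
      𝔼 u : Fin J → Bl K V, 𝔼 u' : Fin J → Bl K V,
        (if Z ^ 2 ^ J < NN (bad S g u u') then (1 : ℝ) else 0) ≤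
      C * 2 ^ J * 2 ^ #S * (1 / V ^ dg K + 1 / Z) := by
  obtain ⟨C, hC, h⟩ := le_card_Bl K
  refine ⟨4 ^ dg K * C, by positivity, fun S J g V Z hS hg hV hZ => ?_⟩
  have hV0 : 0 ≤ V := by linarith
  have : Nonempty (Bl K V) := ⟨⟨0, zero_mem_Bl hV0⟩⟩
  have hB : (0 : ℝ) < #(Bl K V) := by exact_mod_cast card_pos.2 ⟨_, zero_mem_Bl hV0⟩
  have hVn : 0 < V ^ dg K := by positivity
  refine expect_le univ_nonempty fun u _ => ?_
  let d : (Fin J → Bl K V) → (Fin J → Bool) → 𝓞 K := fun u' ε =>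
    ∑ j, (g j : 𝓞 K) * (mix ε u u' j : Bl K V) - ∑ j, (g j : 𝓞 K) * u j
  let ind : (Fin J → Bl K V) → (Fin J → Bool) → Finset (Ideal (𝓞 K)) → ℝ := fun u' ε D =>
    if (ε ≠ fun _ => false) ∧ Z < NN D ∧ ∀ P ∈ D, d u' ε ∈ P then 1 else 0
  have hind : ∀ u' ε D, 0 ≤ ind u' ε D := fun u' ε D => by
    simp only [ind]
    split_ifs <;> norm_num
  have h1 : ∀ u', (if Z ^ 2 ^ J < NN (bad S g u u') then (1 : ℝ) else 0) ≤
      ∑ ε, ∑ D ∈ S.powerset, ind u' ε D := fun u' => by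
    split_ifs with h2
    · obtain ⟨ε, D, hD, h3⟩ := gbad_exists hS (d u') hZ h2
      calc (1 : ℝ) = ind u' ε D := (if_pos h3).symm
        _ ≤ ∑ D ∈ S.powerset, ind u' ε D := single_le_sum (fun D _ => hind u' ε D) hD
        _ ≤ _ := single_le_sum (f := fun ε => ∑ D ∈ S.powerset, ind u' ε D)
          (fun ε _ => sum_nonneg fun D _ => hind u' ε D) (mem_univ ε)
    · exact sum_nonneg fun ε _ => sum_nonneg fun D _ => hind u' ε D
  have h2 : ∀ ε, ∀ D ∈ S.powerset, 𝔼 u', ind u' ε D ≤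
      4 ^ dg K * C * (1 / V ^ dg K + 1 / Z) := fun ε D hD => by
    by_cases h3 : (ε ≠ fun _ => false) ∧ Z < NN D
    · obtain ⟨j, hj⟩ := Function.ne_iff.1 h3.1
      have hj' : ε j = true := by simpa using hj
      have hDS := mem_powerset.1 hD
      rw [gbad_resample j]
      refine expect_le univ_nonempty fun u' _ => ?_
      have h4 := gbad_one (fun P hP => hS P (hDS hP)) (fun P hP => hg j P (hDS hP)) hV0
        (fun x => d (Function.update u' j x) ε) fun x y => by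
          simp only [d]
          rw [sub_sub_sub_cancel_right, ← sum_sub_distrib, sum_eq_single j]
          · simp [mix, hj', mul_sub]
          · intro i _ hi
            simp [mix, Function.update_of_ne hi]
          · simp only [mem_univ, not_true_eq_false, IsEmpty.forall_iff]
      simp only [ind, h3.1, h3.2, ne_eq, not_false_eq_true, true_and]
      refine h4.trans ?_
      have h5 : V ^ dg K / NN D ≤ V ^ dg K / Z :=
        div_le_div_of_nonneg_left hVn.le (by linarith only [hZ]) h3.2.le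
      have h6 : 1 / (#(Bl K V) : ℝ) ≤ C / V ^ dg K := by
        rw [div_le_div_iff₀ hB hVn, one_mul]
        exact h V hV0
      have h7 : 0 < Z := by linarith only [hZ]
      calc _ ≤ 4 ^ dg K * (1 + V ^ dg K / Z) * (1 / (#(Bl K V) : ℝ)) := by
            rw [← div_eq_mul_one_div]
            gcongr
        _ ≤ 4 ^ dg K * (1 + V ^ dg K / Z) * (C / V ^ dg K) := by gcongr
        _ = _ := by field_simp
    · have h4 : ∀ u', ind u' ε D = 0 := fun u' => if_neg fun h5 => h3 ⟨h5.1, h5.2.1⟩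
      simp only [h4, expect_const_zero]
      positivity
  refine (expect_le_expect fun u' _ => h1 u').trans ?_
  rw [expect_sum_comm]
  simp_rw [expect_sum_comm]
  refine (sum_le_sum fun ε _ => sum_le_sum fun D hD => h2 ε D hD).trans (le_of_eq ?_)
  simp only [sum_const, card_powerset, card_univ, Fintype.card_fun, Fintype.card_bool,
    Fintype.card_fin, nsmul_eq_mul]
  push_cast
  ring

end Pool.Agent.MP_48b1c3_nt.H48

end

-- part MP_48b1c3_nt.H48.LemG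
section

/-! Incomplete character sums to well factorable moduli. -/

namespace Pool.Agent.MP_48b1c3_nt.H48

open Finset NumberField H54 H91 Filter
open scoped Classical BigOperators Topology

variable {K : Type} [Field K] [NumberField K]

theorem lemg_major {T : ℝ} (hT : 0 ≤ T) (H : 𝓞 K → ℝ) (hH : ∀ a, 0 ≤ H a) :
    ∑ k ∈ Bl K T, H k ≤
      #(Bl K (2 * T)) * 𝔼 k : Bl K (2 * T) × Bl K T, H ((k.1 : 𝓞 K) + k.2) := by
  have h1 : (0 : ℝ) < #(Bl K T) := by exact_mod_cast card_pos.2 ⟨_, zero_mem_Bl hT⟩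
  have h2 : (0 : ℝ) < #(Bl K (2 * T)) := by
    exact_mod_cast card_pos.2 ⟨_, zero_mem_Bl (by linarith)⟩
  have h3 : ∀ β : Bl K T, ∑ k ∈ Bl K T, H k ≤ ∑ k : Bl K (2 * T), H ((k : 𝓞 K) + β) := fun β => by
    rw [sum_coe_sort (Bl K (2 * T)) fun k => H (k + β)]
    rw [← sum_image (f := H) (g := fun k => k + (β : 𝓞 K)) fun _ _ _ _ h => add_left_injective _ h]
    refine sum_le_sum_of_subset_of_nonneg (fun k hk => mem_image.2 ⟨k - β, ?_, sub_add_cancel _ _⟩)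
      fun _ _ _ => hH _
    exact mem_Bl.2 ((sz_sub_le _ _).trans (by linarith [mem_Bl.1 hk, mem_Bl.1 β.2]))
  have h4 := sum_le_sum fun β (_ : β ∈ univ) => h3 β
  rw [sum_const, card_univ, Fintype.card_coe, nsmul_eq_mul] at h4
  rw [expect_eq_sum_div_card, card_univ, Fintype.card_prod, Fintype.card_coe, Fintype.card_coe,
    Fintype.sum_prod_type_right, Nat.cast_mul, ← mul_div_assoc, mul_div_mul_left _ _ h2.ne',
    le_div_iff₀' h1]
  exact h4

theorem lemg_pow {S : Finset (Ideal (𝓞 K))} {κ γ W : ℝ} (hκ : 0 ≤ κ) (hγ : 0 < γ) (hW : 0 ≤ W)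
    (h : ∀ P ∈ S, κ ^ (2 / γ) ≤ Ideal.absNorm P) (hN : NN S ≤ W ^ (2 : ℝ)) : κ ^ #S ≤ W ^ γ := by
  have h1 : (κ ^ (2 / γ)) ^ #S ≤ NN S := by
    rw [← prod_const]
    exact prod_le_prod (fun _ _ => by positivity) h
  have h2 := Real.rpow_le_rpow (by positivity) (h1.trans hN) (show 0 ≤ γ / 2 by positivity)
  rw [← Real.rpow_mul hW, ← Real.rpow_mul_natCast hκ, ← Real.rpow_mul hκ,
    show 2 / γ * #S * (γ / 2) = (#S : ℕ) by field_simp, Real.rpow_natCast,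
    show 2 * (γ / 2) = γ by ring] at h2
  exact h2

theorem lemg_num {W N t σ : ℝ} (hW : 1 ≤ W) (h0 : 0 < σ) (ht : W ≤ t) (h1 : W ^ σ ≤ N)
    (h2 : N ≤ W ^ (2 - σ)) : N / t ^ 2 + √N / t + 1 / √N ≤ 3 * W ^ (-σ / 2) := by
  have hW0 : 0 < W := by linarith
  have a1 : N / t ^ 2 ≤ W ^ (-σ / 2) := by
    calc _ ≤ W ^ (2 - σ) / W ^ 2 := by gcongr
      _ = W ^ (-σ) := by
        rw [← Real.rpow_natCast, ← Real.rpow_sub hW0]; norm_num
      _ ≤ _ := Real.rpow_le_rpow_of_exponent_le hW (by linarith only [h0])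
  have a2 : √N / t ≤ W ^ (-σ / 2) := by
    calc _ ≤ √(W ^ (2 - σ)) / W := by gcongr
      _ = _ := by
        rw [Real.sqrt_eq_rpow, ← Real.rpow_mul hW0.le, ← Real.rpow_sub_one hW0.ne']
        congr 1; ring
  have a3 : 1 / √N ≤ W ^ (-σ / 2) := by
    calc _ ≤ 1 / √(W ^ σ) := by gcongr
      _ = _ := by
        rw [Real.sqrt_eq_rpow, ← Real.rpow_mul hW0.le, one_div, ← Real.rpow_neg hW0.le]
        congr 1; ring
  linarith

theorem lemG (J : ℕ) {σ : ℝ} (h0 : 0 < σ) (h1 : σ ≤ 1) : ∃ c w : ℝ, 0 < c ∧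
    ∀ (K : Type) [Field K] [NumberField K] (R : ℝ), 1 ≤ R → ∃ C : ℝ, 0 < C ∧
      ∀ (Y : ℝ) (S : Finset (Ideal (𝓞 K))) (g : Fin (J + 1) → ℕ) (ψ : Chars K)
        (Φ : Fin (J + 1) → 𝓞 K → ℂ), 1 ≤ Y →
        (∀ P ∈ S, P.IsMaximal ∧ w ≤ Ideal.absNorm P ∧ ψ P ≠ 1 ∧ ∀ j, (g j : 𝓞 K) ∉ P) →
        Y ^ (σ * dg K) ≤ NN S → NN S ≤ Y ^ ((2 - σ) * dg K) → (∀ j, Per (g j) (Φ j)) →
        ∑ k ∈ Bl K (R * Y), ‖av (fun u : Fin (J + 1) → Bl K (Y ^ (0.02 : ℝ)) =>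
            ∑ j, (g j : 𝓞 K) * (u j : 𝓞 K)) (fun a => chiS S ψ (res S a) * ∏ j, Φ j a) k‖ ≤
          C * Y ^ (dg K - c * dg K) := by
  obtain ⟨m, hm⟩ : ∃ m : ℝ, m = 2 ^ (J + 1) := ⟨_, rfl⟩
  have hm1 : 1 ≤ m := hm ▸ one_le_pow₀ one_le_two
  obtain ⟨γ, hγ, g1, g2, g3⟩ : ∃ γ : ℝ, 0 < γ ∧ γ ≤ σ / 8 ∧ γ ≤ 0.01 ∧ 2 * γ ≤ σ / (2 * m) := by
    have h2 : σ / m ≤ σ := div_le_self h0.le hm1
    have h3 : 0 < σ / m := by positivity
    refine ⟨σ / m / 100, by positivity, by linarith, by linarith only [h1, h2], ?_⟩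
    rw [mul_comm 2 m, ← div_div]
    linarith
  refine ⟨γ / 2 / m, ((2 * m) ^ 2) ^ (2 / γ), by positivity, fun K _ _ R hR => ?_⟩
  obtain ⟨C1, c1, hmom⟩ := g_moment K
  obtain ⟨C2, c2, hbad⟩ := g_bad K
  obtain ⟨e, he⟩ := gcs J
  refine ⟨(16 * R) ^ dg K * (√(3 * C1) + 2 * (C2 * m)) ^ m⁻¹, by positivity,
    fun Y S g ψ Φ hY hS hl hu hΦ => ?_⟩
  have hY0 : 0 ≤ Y := by linarith only [hγ, g2, hY]
  have hT : Y ≤ R * Y := le_mul_of_one_le_left hY0 hR
  have hV : 1 ≤ Y ^ (0.02 : ℝ) := Real.one_le_rpow hY (by norm_num)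
  have hW : 1 ≤ Y ^ dg K := one_le_pow₀ hY
  have hVW : (Y ^ (0.02 : ℝ)) ^ dg K = (Y ^ dg K) ^ (0.02 : ℝ) := by
    rw [← Real.rpow_mul_natCast hY0, mul_comm, Real.rpow_natCast_mul hY0]
  have hE : Y ^ (dg K - γ / 2 / m * dg K) = Y ^ dg K * (Y ^ dg K) ^ (-γ / 2 * m⁻¹) := by
    rw [← Real.rpow_one_add' (by positivity : 0 ≤ Y ^ dg K) (by
      have : γ / 2 * m⁻¹ ≤ γ / 2 := mul_le_of_le_one_right (by positivity) (inv_le_one_of_one_le₀ hm1)
      linarith only [g2, this]), ← Real.rpow_natCast_mul hY0]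
    congr 1; ring
  have hTW : Y ^ dg K ≤ (R * Y) ^ dg K := pow_le_pow_left₀ hY0 hT _
  have hB : (#(Bl K (2 * (R * Y))) : ℝ) ≤ (16 * R) ^ dg K * Y ^ dg K := by
    rw [← mul_pow]
    exact (card_Bl_le (by linarith only [hγ, g2, hY, hT])).trans (le_of_eq (by congr 1; ring))
  rw [mul_comm σ, Real.rpow_natCast_mul hY0] at hl
  rw [mul_comm (2 - σ), Real.rpow_natCast_mul hY0] at hu
  rw [hE]
  generalize Y ^ dg K = W at *
  generalize Y ^ (0.02 : ℝ) = V at *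
  generalize R * Y = T at *
  have hW0 : 0 < W := by linarith only [hγ, g2, hW]
  have hmax : ∀ P ∈ S, P.IsMaximal := fun P hP => (hS P hP).1
  have hκ : ((2 * m) ^ 2) ^ #S ≤ W ^ γ := lemg_pow (by positivity) hγ hW0.le
    (fun P hP => (hS P hP).2.1) (hu.trans (Real.rpow_le_rpow_of_exponent_le hW (by linarith only [hγ, g1])))
  have : Nonempty (Bl K V) := ⟨⟨0, zero_mem_Bl (by linarith only [hγ, g2, hV])⟩⟩
  have : Nonempty (Bl K T) := ⟨⟨0, zero_mem_Bl (by linarith only [hγ, g2, hY, hT])⟩⟩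
  have : Nonempty (Bl K (2 * T)) := ⟨⟨0, zero_mem_Bl (by linarith only [hγ, g2, hY, hT])⟩⟩
  have hZ : 1 ≤ W ^ (σ / (2 * m)) := Real.one_le_rpow hW (by positivity)
  have hZm : (W ^ (σ / (2 * m))) ^ 2 ^ (J + 1) = W ^ (σ / 2) := by
    rw [← Real.rpow_mul_natCast hW0.le]
    congr 1
    push_cast
    rw [← hm]
    field_simp
  have hb := hbad S (J + 1) g V _ hmax (fun j P hP => (hS P hP).2.2.2 j) hV hZ
  rw [hZm, ← hm, hVW] at hb
  have hb' : C2 * m * 2 ^ #S * (1 / W ^ (0.02 : ℝ) + 1 / W ^ (σ / (2 * m))) ≤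
      2 * (C2 * m) * W ^ (-γ / 2) := by
    have a1 : (2 : ℝ) ^ #S ≤ W ^ γ := (pow_le_pow_left₀ (by norm_num) (by nlinarith only [hm1]) _).trans hκ
    have a2 : ∀ x : ℝ, 2 * γ ≤ x → W ^ γ * (1 / W ^ x) ≤ W ^ (-γ / 2) := fun x hx => by
      rw [mul_one_div, ← Real.rpow_sub hW0]
      exact Real.rpow_le_rpow_of_exponent_le hW (by linarith only [hγ, hx])
    calc _ ≤ C2 * m * W ^ γ * (1 / W ^ (0.02 : ℝ) + 1 / W ^ (σ / (2 * m))) := by gcongr
      _ = C2 * m * (W ^ γ * (1 / W ^ (0.02 : ℝ)) + W ^ γ * (1 / W ^ (σ / (2 * m)))) := by ring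
      _ ≤ C2 * m * (W ^ (-γ / 2) + W ^ (-γ / 2)) := by
        gcongr
        · exact a2 _ (by linarith only [g2])
        · exact a2 _ g3
      _ = _ := by ring
  have hX : ∀ u u' : Fin (J + 1) → Bl K V, ‖𝔼 k : Bl K (2 * T) × Bl K T, ∏ ε, cj (e ε)
      (chiS S ψ (res S ((k.1 : 𝓞 K) + k.2 + ∑ j, (g j : 𝓞 K) * (mix ε u u' j : Bl K V))))‖ ≤
      √(3 * C1) * W ^ (-γ / 2) + if W ^ (σ / 2) < NN (bad S g u u') then 1 else 0 := by
    intro u u'
    split_ifs with h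
    · refine le_add_of_nonneg_of_le (by positivity) ((RCLike.norm_expect_le (K := ℂ)).trans
        (expect_le univ_nonempty fun k _ => ?_))
      rw [norm_prod]
      exact prod_le_one (fun _ _ => norm_nonneg _) fun ε _ => by
        rw [norm_cj]; exact norm_chiS_le hmax _ _
    · have a1 := hmom S (bad S g u u') ψ (Fin (J + 1) → Bool)
        (fun ε => ∑ j, (g j : 𝓞 K) * (mix ε u u' j : Bl K V)) e (fun _ => false) T hmax
        (fun P hP => (hS P hP).2.2.1) (hY.trans hT) (filter_subset _ _) fun P hP hP' ε hε => by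
          by_contra h2
          exact hP' (mem_filter.2 ⟨hP, ε, h2, hε⟩)
      have a2 : (Fintype.card (Fin (J + 1) → Bool) : ℝ) = m := by simp [hm]
      have a3 : √(NN (bad S g u u')) ≤ W ^ (σ / 4) := by
        refine (Real.sqrt_le_sqrt (not_lt.1 h)).trans (le_of_eq ?_)
        rw [Real.sqrt_eq_rpow, ← Real.rpow_mul hW0.le]
        congr 1; ring
      have a4 := lemg_num hW h0 hTW hl hu
      have a5 : 0 < NN S := by linarith only [one_le_NN hmax, hγ, g2]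
      have a6 : 0 < T := by linarith only [hγ, g2, hY, hT]
      rw [a2, pow_mul, mul_comm 2 (dg K), pow_mul] at a1
      rw [add_zero]
      refine (pow_le_pow_iff_left₀ (norm_nonneg _) (by positivity) two_ne_zero).1 (a1.trans ?_)
      calc _ ≤ C1 * W ^ γ * W ^ (σ / 4) * (3 * W ^ (-σ / 2)) := by
            gcongr
        _ = 3 * C1 * W ^ (γ + σ / 4 + -σ / 2) := by
            rw [Real.rpow_add hW0, Real.rpow_add hW0]; ring
        _ ≤ 3 * C1 * W ^ (-γ / 2 * (2 : ℕ)) := by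
            gcongr
            push_cast
            linarith only [g1]
        _ = _ := by rw [mul_pow, Real.sq_sqrt (by positivity), Real.rpow_mul_natCast hW0.le]
  have hcs := he (U := Bl K V) (Ω := Bl K (2 * T) × Bl K T)
    (fun k u => chiS S ψ (res S ((k.1 : 𝓞 K) + k.2 + ∑ j, (g j : 𝓞 K) * (u j : 𝓞 K))))
    (fun i k u => Φ i ((k.1 : 𝓞 K) + k.2 + ∑ j, (g j : 𝓞 K) * (u j : 𝓞 K)))
    (fun i _ _ => (hΦ i).1 _) fun i k u x => by
      rw [← (hΦ i).2 _ (u i - x)]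
      congr 1
      rw [← add_sum_erase _ _ (mem_univ i), ← add_sum_erase _ _ (mem_univ i),
        Function.update_self, sum_congr rfl fun j hj => by
          rw [Function.update_of_ne (ne_of_mem_erase hj)]]
      ring
  have h2 := hcs.trans (expect_le_expect fun u _ => expect_le_expect fun u' _ => hX u u')
  simp only [expect_add_distrib, Fintype.expect_const] at h2
  have h3 := h2.trans (add_le_add_right (hb.trans hb') _)
  rw [← add_mul, ← Real.rpow_natCast] at h3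
  have h4 := Real.rpow_le_rpow (Real.rpow_nonneg (expect_nonneg fun _ _ => norm_nonneg _) _) h3
    (show 0 ≤ m⁻¹ by positivity)
  rw [← Real.rpow_mul (expect_nonneg fun _ _ => norm_nonneg _), Nat.cast_pow, Nat.cast_ofNat, ← hm,
    mul_inv_cancel₀ (by positivity), Real.rpow_one, Real.mul_rpow (by positivity) (by positivity),
    ← Real.rpow_mul hW0.le] at h4
  refine (lemg_major (by linarith only [hγ, g2, hY, hT]) _ fun _ => norm_nonneg _).trans ?_
  simp only [expect_eq_sum_div_card (K := ℂ), card_univ] at h4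
  calc _ ≤ (16 * R) ^ dg K * W * ((√(3 * C1) + 2 * (C2 * m)) ^ m⁻¹ * W ^ (-γ / 2 * m⁻¹)) :=
        mul_le_mul hB h4 (expect_nonneg fun _ _ => norm_nonneg _) (by positivity)
    _ = _ := by ring

end Pool.Agent.MP_48b1c3_nt.H48

end

-- part MP_48b1c3_nt.H48.BMom
section

/-! Fourth moment and multiplicative energy. -/

namespace Pool.Agent.MP_48b1c3_nt.H48

open Finset NumberField H54 H91 Filter
open scoped Classical BigOperators Topology

variable {K : Type} [Field K] [NumberField K]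

/-- `a` hits one of the targets modulo every prime of `D` -/
def bmomaHit (D : Finset (Ideal (𝓞 K))) {m : ℕ} (t : Fin m → 𝓞 K) (a : 𝓞 K) : Prop :=
  ∀ P ∈ D, ∃ i, a - t i ∈ P

theorem bmoma_step {α : Type} (A : Finset α) (p : α → Prop) (F : α → ℝ) {c x : ℝ}
    (hc : (#(A.filter p) : ℝ) ≤ c) (hx : 0 ≤ x) (hF : ∀ b, F b ≤ x) :
    ∑ b ∈ A, (if p b then F b else 0) ≤ c * x := by
  rw [← sum_filter]
  exact (sum_le_card_nsmul _ _ x fun b _ => hF b).trans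
    ((nsmul_eq_mul _ _).trans_le (mul_le_mul_of_nonneg_right hc hx))

theorem bmoma_card {S D : Finset (Ideal (𝓞 K))} (hS : ∀ P ∈ S, P.IsMaximal) (hD : D ⊆ S) {m : ℕ}
    (t : Fin (m + 1) → 𝓞 K) {B : ℝ} (hB : 0 ≤ B) :
    (#((Bl K B).filter (bmomaHit D t)) : ℝ) ≤
      (m + 1) ^ #S * (4 ^ dg K * (1 + B ^ dg K / NN D)) := by
  have h1 := one_le_NN fun P hP => hS P (hD hP)
  refine (card_targets (fun P hP => hS P (hD hP)) t (g := 1)
    (fun P hP => (Ideal.ne_top_iff_one P).1 (hS P (hD hP)).ne_top) _ hB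
    (fun a ha => mem_Bl.1 (mem_filter.1 ha).1)
    fun a ha => by simpa only [one_mul, bmomaHit] using (mem_filter.1 ha).2).trans ?_
  rw [Fintype.card_fin]
  push_cast
  gcongr
  linarith [Nat.cast_nonneg (α := ℝ) m]

theorem bmoma_num {β d₁ d₂ N : ℝ} (hβ : 1 ≤ β) (h1 : 1 ≤ d₁) (h2 : 1 ≤ d₂) (hN : d₁ * d₂ ≤ N) :
    β * ((1 + β / d₁) * (1 + β / d₂)) * ((1 + β / (d₁ * d₂)) * √(d₁ * d₂)) ≤
      5 * (√N * β ^ 2 + β ^ 4) := by
  have h3 : (1 + β / d₁) * (1 + β / d₂) ≤ 3 * β + β ^ 2 / (d₁ * d₂) := by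
    have a1 := div_le_self (by linarith : 0 ≤ β) h1
    have a2 := div_le_self (by linarith : 0 ≤ β) h2
    have a3 : β / d₁ * (β / d₂) = β ^ 2 / (d₁ * d₂) := by field_simp
    linarith only [hβ, a1, a2, a3]
  have h4 : 1 ≤ d₁ * d₂ := by nlinarith only [h1, h2]
  have h5 := Real.sqrt_le_sqrt hN
  have h6 : √(d₁ * d₂) ≤ d₁ * d₂ := Real.sqrt_le_iff.2 ⟨by linarith only [h4], by nlinarith only [h4]⟩
  have h7 := Real.sqrt_nonneg (d₁ * d₂)
  generalize d₁ * d₂ = d at *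
  generalize √d = r at *
  have h8 : r / d ≤ 1 := (div_le_one (by linarith only [h4])).2 h6
  have h9 : r / d / d ≤ 1 := (div_le_self (by positivity) h4).trans h8
  calc _ ≤ β * (3 * β + β ^ 2 / d) * ((1 + β / d) * r) := by gcongr
    _ = 3 * (r * β ^ 2) + 4 * (β ^ 3 * (r / d)) + β ^ 4 * (r / d / d) := by field_simp; ring
    _ ≤ 3 * (√N * β ^ 2) + 4 * (β ^ 4 * 1) + β ^ 4 * 1 := by gcongr; norm_num
    _ ≤ _ := by linarith only [mul_nonneg (Real.sqrt_nonneg N) (sq_nonneg β)]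

theorem bmoma_count {S : Finset (Ideal (𝓞 K))} (hS : ∀ P ∈ S, P.IsMaximal) {B : ℝ} (hB : 1 ≤ B)
    {D E : Finset (Ideal (𝓞 K))} (hD : D ⊆ S) (hE : E ⊆ S) (h : Disjoint D E) :
    ∑ a ∈ Bl K B, ∑ b ∈ Bl K B, ∑ c ∈ Bl K B, ∑ d ∈ Bl K B,
      (if bmomaHit D ![a] b ∧ bmomaHit E ![a, b] c ∧ bmomaHit (D ∪ E) ![a, b, c] d then
        √(NN (D ∪ E)) else 0) ≤
      6 ^ #S * 512 ^ dg K * (5 * (√(NN S) * (B ^ dg K) ^ 2 + (B ^ dg K) ^ 4)) := by
  have hB0 : 0 ≤ B := by linarith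
  have hU := union_subset hD hE
  have h1 := one_le_NN fun P hP => hS P (hD hP)
  have h2 := one_le_NN fun P hP => hS P (hE hP)
  have e : NN (D ∪ E) = NN D * NN E := prod_union h
  simp only [ite_and, sum_ite_irrel, sum_const_zero]
  refine (sum_le_card_nsmul _ _ _ fun a _ => bmoma_step _ _ _ (bmoma_card hS hD ![a] hB0)
    (by rw [e]; positivity) fun b => bmoma_step _ _ _ (bmoma_card hS hE ![a, b] hB0)
      (by rw [e]; positivity) fun c => bmoma_step _ _ _ (bmoma_card hS hU ![a, b, c] hB0) (Real.sqrt_nonneg _)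
        fun _ => le_rfl).trans ?_
  rw [nsmul_eq_mul, e]
  refine (mul_le_mul_of_nonneg_right (card_Bl_le hB) (by positivity)).trans (le_trans (le_of_eq ?_)
    (mul_le_mul_of_nonneg_left (bmoma_num (one_le_pow₀ hB) h1 h2 (e ▸ NN_mono hS hU))
      (by positivity)))
  rw [show (512 : ℝ) = 8 * 4 * 4 * 4 by norm_num, show (6 : ℝ) = 2 * 3 by norm_num]
  simp only [mul_pow]
  norm_num only [one_pow, one_mul]
  ring

theorem bmoma_term {S : Finset (Ideal (𝓞 K))} [Fintype (Res S)] (hS : ∀ P ∈ S, P.IsMaximal)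
    {ψ : Chars K} (hψ : ∀ P ∈ S, ψ P ≠ 1) (a b c d : 𝓞 K) :
    ‖∑ t : Res S, chiS S ψ (t + res S a) * (chiS S ψ (t + res S b) *
      ((starRingEnd ℂ) (chiS S ψ (t + res S c)) * (starRingEnd ℂ) (chiS S ψ (t + res S d))))‖ ≤
      4 ^ #S * √(NN S) * ∑ z ∈ (S.powerset ×ˢ S.powerset).filter fun z => Disjoint z.1 z.2,
        if bmomaHit z.1 ![a] b ∧ bmomaHit z.2 ![a, b] c ∧ bmomaHit (z.1 ∪ z.2) ![a, b, c] d then
          √(NN (z.1 ∪ z.2)) else 0 := by
  obtain ⟨D, hD⟩ : ∃ D : Finset (Ideal (𝓞 K)), ∀ P, P ∈ D ↔ P ∈ S ∧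
    ¬ ∃ i₀, ∀ i, ![a, b, c, d] i - ![a, b, c, d] i₀ ∈ P → i = i₀ := ⟨_, fun _ => mem_filter⟩
  have hDS : D ⊆ S := fun P hP => ((hD P).1 hP).1
  have h := comp_bound hS hψ (I := Fin 4) ![a, b, c, d] ![false, false, true, true] hDS
    fun P hP h => by_contra fun h' => h ((hD P).2 ⟨hP, h'⟩)
  simp only [Fin.prod_univ_succ, Fin.prod_univ_zero, cj, Matrix.cons_val_zero, Matrix.cons_val_succ,
    Bool.false_eq_true, if_true, if_false, mul_one, Fintype.card_fin, Nat.cast_ofNat] at h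
  refine h.trans ?_
  rw [mul_assoc]
  gcongr
  have e := filter_union_filter_not_eq (fun P => b - a ∈ P) D
  have key : ∀ P ∈ D, (b - a ∉ P → ∃ i, c - ![a, b] i ∈ P) ∧ ∃ i, d - ![a, b, c] i ∈ P := by
    intro P hP
    have := ((hD P).1 hP).2
    simp only [← Ideal.Quotient.eq, Fin.exists_fin_succ, Fin.forall_fin_succ, Matrix.cons_val_zero,
      Matrix.cons_val_succ, IsEmpty.exists_iff, IsEmpty.forall_iff] at this ⊢
    simp only [Fin.ext_iff, Fin.val_succ, Fin.val_zero] at this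
    grind
  refine le_trans (le_of_eq ?_) (single_le_sum (a := (D.filter fun P => b - a ∈ P,
    D.filter fun P => b - a ∉ P)) (fun _ _ => by positivity) ?_)
  · simp only [e]
    rw [if_pos ⟨fun P hP => ⟨0, (mem_filter.1 hP).2⟩,
      fun P hP => (key P (mem_filter.1 hP).1).1 (mem_filter.1 hP).2, fun P hP => (key P hP).2⟩]
  · simp only [mem_filter, mem_product, mem_powerset]
    exact ⟨⟨(filter_subset _ _).trans hDS, (filter_subset _ _).trans hDS⟩,
      disjoint_filter_filter_not _ _ _⟩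

variable (K) in
theorem b_fourth : ∃ C : ℝ, 0 < C ∧ ∀ (S : Finset (Ideal (𝓞 K))) [Fintype (Res S)] (ψ : Chars K)
    (B : ℝ), (∀ P ∈ S, P.IsMaximal) → (∀ P ∈ S, ψ P ≠ 1) → 1 ≤ B →
      ∑ t : Res S, ‖∑ b ∈ Bl K B, chiS S ψ (t + res S b)‖ ^ 4 ≤
        C * 100 ^ #S * (NN S * B ^ (2 * dg K) + √(NN S) * B ^ (4 * dg K)) := by
  refine ⟨5 * 512 ^ dg K, by positivity, fun S _ ψ B hS hψ hB => ?_⟩
  have e : ((∑ t : Res S, ‖∑ b ∈ Bl K B, chiS S ψ (t + res S b)‖ ^ 4 : ℝ) : ℂ) =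
      ∑ a ∈ Bl K B, ∑ b ∈ Bl K B, ∑ c ∈ Bl K B, ∑ d ∈ Bl K B, ∑ t : Res S,
        chiS S ψ (t + res S a) * (chiS S ψ (t + res S b) *
          ((starRingEnd ℂ) (chiS S ψ (t + res S c)) *
            (starRingEnd ℂ) (chiS S ψ (t + res S d)))) := by
    simp only [sum_comm (t := (univ : Finset (Res S))), ← mul_sum, ← sum_mul, ← map_sum]
    push_cast
    refine sum_congr rfl fun t _ => ?_
    rw [show 4 = 2 * 2 from rfl, pow_mul, ← Complex.mul_conj']
    ring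
  rw [← Real.norm_of_nonneg (show 0 ≤ ∑ t : Res S, ‖∑ b ∈ Bl K B, chiS S ψ (t + res S b)‖ ^ 4 by
    positivity), ← Complex.norm_real, e]
  refine (norm_sum_le_of_le _ fun a _ => norm_sum_le_of_le _ fun b _ => norm_sum_le_of_le _
    fun c _ => norm_sum_le_of_le _ fun d _ => bmoma_term hS hψ a b c d).trans ?_
  set Z := (S.powerset ×ˢ S.powerset).filter fun z => Disjoint z.1 z.2
  simp only [← mul_sum, sum_comm (t := Z)]
  have hZ : (#Z : ℝ) ≤ 4 ^ #S := by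
    have := card_filter_le (S.powerset ×ˢ S.powerset) fun z => Disjoint z.1 z.2
    rw [card_product, card_powerset, ← mul_pow] at this
    exact_mod_cast this
  have h1 := sum_le_card_nsmul Z _ _ fun z hz => by
    simp only [Z, mem_filter, mem_product, mem_powerset] at hz
    exact bmoma_count hS hB hz.1.1 hz.1.2 hz.2
  rw [nsmul_eq_mul] at h1
  have hB0 : 0 ≤ B := by linarith
  have hN := zero_le_one.trans (one_le_NN hS)
  refine (mul_le_mul_of_nonneg_left (h1.trans (mul_le_mul_of_nonneg_right hZ (by positivity)))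
    (by positivity)).trans ?_
  calc _ = 5 * 512 ^ dg K * (4 * 4 * 6) ^ #S *
        (√(NN S) * √(NN S) * B ^ (2 * dg K) + √(NN S) * B ^ (4 * dg K)) := by
        simp only [mul_pow]; ring
    _ ≤ _ := by rw [Real.mul_self_sqrt hN]; gcongr; norm_num

theorem b_energy {S : Finset (Ideal (𝓞 K))} (hS : ∀ P ∈ S, P.IsMaximal) (A : Finset (𝓞 K))
    {T V U L : ℝ} (hT : 0 ≤ T) (hU : 0 ≤ U) (hL : 0 < L)
    (h1 : ∀ a ∈ A, sz a ≤ V ∧ L ≤ |(nm a : ℝ)|) (h2 : ∀ a ∈ A, ∀ a' ∈ A, sz (a - a') ≤ U)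
    (h3 : (2 * T * V) ^ dg K < NN S) :
    (#(((Bl K T ×ˢ A) ×ˢ (Bl K T ×ˢ A)).filter
      fun z => ∀ P ∈ S, z.1.1 * z.2.2 - z.2.1 * z.1.2 ∈ P) : ℝ) ≤
      #A * #(Bl K T) + (#A : ℝ) ^ 2 * (4 ^ dg K * (1 + (T * U) ^ dg K / L)) := by
  set F := ((Bl K T ×ˢ A) ×ˢ (Bl K T ×ˢ A)).filter
    fun z => ∀ P ∈ S, z.1.1 * z.2.2 - z.2.1 * z.1.2 ∈ P
  have h0 : ∀ a ∈ A, a ≠ 0 := fun a ha h => by
    have := (h1 a ha).2
    rw [h, nm, Algebra.norm_zero] at this
    norm_num at this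
    linarith
  have hF : ∀ z ∈ F, sz z.1.1 ≤ T ∧ z.1.2 ∈ A ∧ z.2.2 ∈ A ∧ z.1.1 * z.2.2 = z.2.1 * z.1.2 := by
    intro z hz
    simp only [F, mem_filter, mem_product, mem_Bl] at hz
    obtain ⟨⟨⟨a1, a2⟩, a3, a4⟩, a5⟩ := hz
    refine ⟨a1, a2, a4, by_contra fun h => h3.not_ge ?_⟩
    have := absNorm_le_of_mem (mem_prod_of_mem hS a5) (sub_ne_zero.2 h)
    rw [map_prod, Nat.cast_prod] at this
    refine this.trans (pow_le_pow_left₀ (sz_nonneg _) ((sz_sub_le _ _).trans ?_) _)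
    linarith [(sz_mul_le _ _).trans (mul_le_mul a1 (h1 _ a4).1 (sz_nonneg _) hT),
      (sz_mul_le _ _).trans (mul_le_mul a3 (h1 _ a2).1 (sz_nonneg _) hT)]
  rw [card_eq_sum_card_fiberwise (f := fun z => (z.1.2, z.2.2)) (t := A ×ˢ A) fun z hz =>
    mem_coe.2 (mem_product.2 ⟨(hF z hz).2.1, (hF z hz).2.2.1⟩), Nat.cast_sum, sum_product]
  refine (sum_le_sum fun a ha => sum_le_sum fun a' ha' => show _ ≤ (if a = a' then
    (#(Bl K T) : ℝ) else 0) + 4 ^ dg K * (1 + (T * U) ^ dg K / L) from ?_).trans_eq ?_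
  · set G := F.filter fun z => (z.1.2, z.2.2) = (a, a')
    have hG : ∀ z ∈ G, sz z.1.1 ≤ T ∧ z.1.2 = a ∧ z.2.2 = a' ∧ z.1.1 * a' = z.2.1 * a := by
      intro z hz
      obtain ⟨b1, b2⟩ := mem_filter.1 hz
      obtain ⟨rfl, rfl⟩ := Prod.mk.inj b2
      exact ⟨(hF z b1).1, rfl, rfl, (hF z b1).2.2.2⟩
    have hi : Set.InjOn (fun z : (𝓞 K × 𝓞 K) × 𝓞 K × 𝓞 K => z.1.1) G := fun z hz w hw h => by
      obtain ⟨-, b1, b2, b3⟩ := hG z hz
      obtain ⟨-, c1, c2, c3⟩ := hG w hw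
      exact Prod.ext (Prod.ext h (b1.trans c1.symm)) (Prod.ext (mul_right_cancel₀ (h0 a ha)
        (b3.symm.trans ((congrArg (· * a') h).trans c3))) (b2.trans c2.symm))
    split_ifs with h
    · refine le_add_of_le_of_nonneg (Nat.cast_le.2 (card_le_card_of_injOn _
        (fun z hz => mem_coe.2 (mem_Bl.2 (hG z hz).1)) hi)) (by positivity)
    · rw [zero_add, ← card_image_of_injOn (f := fun z => z.1.1 * (a' - a)) fun z hz w hw e =>
        hi hz hw (mul_right_cancel₀ (sub_ne_zero.2 (Ne.symm h)) e)]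
      have hm : ∀ x ∈ G.image fun z => z.1.1 * (a' - a), x ∈ Ideal.span {a} := fun x hx => by
        obtain ⟨z, hz, rfl⟩ := mem_image.1 hx
        exact Ideal.mem_span_singleton'.2 ⟨z.2.1 - z.1.1, by linear_combination -(hG z hz).2.2.2⟩
      refine (card_coset (by simpa only [ne_eq, Submodule.span_eq_bot, Set.mem_singleton_iff, forall_eq] using h0 a ha) _ (mul_nonneg hT hU) 0 (fun x hx => ?_)
        fun x hx y hy => sub_mem (hm x hx) (hm y hy)).trans ?_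
      · obtain ⟨z, hz, rfl⟩ := mem_image.1 hx
        rw [sub_zero]
        exact (sz_mul_le _ _).trans (mul_le_mul (hG z hz).1 (h2 a' ha' a ha) (sz_nonneg _) hT)
      · rw [Ideal.absNorm_span_singleton, Nat.cast_natAbs, Int.cast_abs]
        gcongr
        exact (h1 a ha).2
  · simp only [sum_add_distrib, sum_ite_eq, sum_const, nsmul_eq_mul]
    rw [sum_congr rfl fun a ha => if_pos ha, sum_const, nsmul_eq_mul]
    ring

end Pool.Agent.MP_48b1c3_nt.H48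

end

-- part MP_48b1c3_nt.H48.LemB
section

/-! The method of Burgess. -/

namespace Pool.Agent.MP_48b1c3_nt.H48

open Finset NumberField H54 H91 Filter
open scoped Classical BigOperators Topology

variable {K : Type} [Field K] [NumberField K]

theorem lemb_holder {α β : Type} [Fintype β] (Z : Finset α) (t : α → β) (H : β → ℝ) :
    (∑ z ∈ Z, H (t z)) ^ 4 ≤
      (#Z : ℝ) ^ 2 * (#((Z ×ˢ Z).filter fun p => t p.1 = t p.2) * ∑ b, H b ^ 4) := by
  have h1 : (∑ z ∈ Z, H (t z)) ^ 2 ≤ #Z * ∑ z ∈ Z, H (t z) ^ 2 := sq_sum_le_card_mul_sum_sq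
  have h2 : ∑ z ∈ Z, H (t z) ^ 2 = ∑ b, (#(Z.filter fun z => t z = b) : ℝ) * H b ^ 2 := by
    rw [← sum_fiberwise Z t fun z => H (t z) ^ 2]
    refine sum_congr rfl fun b _ => ?_
    rw [sum_congr rfl fun z hz => by rw [(mem_filter.1 hz).2], sum_const, nsmul_eq_mul]
  have h3 : (#((Z ×ˢ Z).filter fun p => t p.1 = t p.2) : ℝ) =
      ∑ b, (#(Z.filter fun z => t z = b) : ℝ) ^ 2 := by
    rw [card_eq_sum_card_fiberwise (f := fun p : α × α => t p.1) (t := univ)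
      (fun _ _ => mem_univ _), Nat.cast_sum]
    refine sum_congr rfl fun b _ => ?_
    rw [sq, ← Nat.cast_mul, ← card_product]
    congr 2
    ext p
    simp only [mem_filter, mem_product]
    constructor
    · rintro ⟨⟨⟨a1, a2⟩, a3⟩, a4⟩
      exact ⟨⟨a1, a4⟩, a2, a3 ▸ a4⟩
    · rintro ⟨⟨a1, a4⟩, a2, a3⟩
      exact ⟨⟨⟨a1, a2⟩, a4.trans a3.symm⟩, a4⟩
  have h4 := sum_mul_sq_le_sq_mul_sq univ (fun b => (#(Z.filter fun z => t z = b) : ℝ))
    fun b => H b ^ 2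
  rw [← h2, ← h3] at h4
  calc (∑ z ∈ Z, H (t z)) ^ 4 = ((∑ z ∈ Z, H (t z)) ^ 2) ^ 2 := by ring
    _ ≤ (#Z * ∑ z ∈ Z, H (t z) ^ 2) ^ 2 := pow_le_pow_left₀ (sq_nonneg _) h1 2
    _ = (#Z : ℝ) ^ 2 * (∑ z ∈ Z, H (t z) ^ 2) ^ 2 := by ring
    _ ≤ _ := by
      refine mul_le_mul_of_nonneg_left (h4.trans_eq ?_) (sq_nonneg _)
      congr 1
      exact sum_congr rfl fun b _ => by ring

theorem lemb_sz_nat (m : ℕ) : sz (m : 𝓞 K) ≤ m := by
  have h : sz (1 : 𝓞 K) ≤ 1 := by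
    rw [sz, map_one, Prod.norm_def]
    refine max_le ?_ ?_ <;>
      exact (pi_norm_le_iff_of_nonneg zero_le_one).2 fun i => by simp
  have := sz_natCast_mul m (1 : 𝓞 K)
  rw [mul_one] at this
  rw [this]
  exact mul_le_of_le_one_right (Nat.cast_nonneg m) h

omit [NumberField K] in
theorem lemb_unit {S : Finset (Ideal (𝓞 K))} (hS : ∀ P ∈ S, P.IsMaximal) {a : 𝓞 K}
    (ha : ∀ P ∈ S, a ∉ P) : IsUnit (res S a) := by
  refine Pi.isUnit_iff.2 fun P => ?_
  obtain ⟨y, c, hc, h⟩ := (hS P P.2).exists_inv (ha P P.2)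
  refine IsUnit.of_mul_eq_one (Ideal.Quotient.mk _ y) ?_
  change Ideal.Quotient.mk _ a * _ = _
  rw [← map_mul, ← map_one (Ideal.Quotient.mk _), Ideal.Quotient.eq, ← h]
  convert (P : Ideal (𝓞 K)).neg_mem hc using 1
  ring

/-- the set of multipliers -/
theorem lemb_set {c x : ℝ} (hc : ∀ T : ℝ, 0 ≤ T → T ^ dg K ≤ c * #(Bl K T)) (hc0 : 0 < c)
    (hx : 2 ≤ x) (hx2 : 4 * c * dg K * 4 ^ dg K ≤ x) {S : Finset (Ideal (𝓞 K))} (hn : #S ≤ dg K)
    (hS : ∀ P ∈ S, P.IsMaximal ∧ x ^ 380 ≤ Ideal.absNorm P) :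
    ∃ A : Finset (𝓞 K), (∀ a ∈ A, (sz a ≤ 3 * x ^ 60 ∧ (x ^ 60 / 2) ^ dg K ≤ |(nm a : ℝ)|) ∧
      ∀ P ∈ S, a ∉ P) ∧ (∀ a ∈ A, ∀ a' ∈ A, sz (a - a') ≤ 2 * x ^ 30) ∧
      (x ^ dg K) ^ 30 ≤ 2 * c * #A ∧ (#A : ℝ) ≤ 8 ^ dg K * (x ^ dg K) ^ 30 := by
  have hx1 : 1 ≤ x := by linarith only [hx]
  have hx0 : 0 < x := by linarith only [hx]
  set m : ℕ := ⌈x ^ 60⌉₊
  have hm1 : x ^ 60 ≤ m := Nat.le_ceil _
  have h30 : 2 ≤ x ^ 30 := hx.trans (le_self_pow₀ hx1 (by norm_num))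
  have h60 : x ^ 60 = x ^ 30 * x ^ 30 := by ring
  have hm2 : (m : ℝ) ≤ x ^ 60 + 1 := (Nat.ceil_lt_add_one (by positivity)).le
  set A₁ := (Bl K (x ^ 30)).image fun u => (m : 𝓞 K) + u
  have hA₁ : #A₁ = #(Bl K (x ^ 30)) := card_image_of_injective _ (add_right_injective _)
  have hw : (x ^ 30) ^ dg K = (x ^ dg K) ^ 30 := by rw [← pow_mul, ← pow_mul, mul_comm]
  refine ⟨A₁.filter fun a => ∀ P ∈ S, a ∉ P, fun a ha => ?_, fun a ha a' ha' => ?_, ?_, ?_⟩
  · obtain ⟨h1, h2⟩ := mem_filter.1 ha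
    obtain ⟨u, hu, rfl⟩ := mem_image.1 h1
    have hu := mem_Bl.1 hu
    refine ⟨⟨?_, le_abs_norm (by positivity) (by nlinarith only [hm1, h30, hu])⟩, h2⟩
    have := sz_add_le (m : 𝓞 K) u
    have := lemb_sz_nat (K := K) m
    nlinarith
  · obtain ⟨u, hu, rfl⟩ := mem_image.1 (mem_filter.1 ha).1
    obtain ⟨u', hu', rfl⟩ := mem_image.1 (mem_filter.1 ha').1
    rw [add_sub_add_left_eq_sub]
    linarith only [sz_sub_le u u', mem_Bl.1 hu, mem_Bl.1 hu']
  · have h1 : ∀ P ∈ S, (#(A₁.filter fun a => a ∈ P) : ℝ) ≤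
        4 ^ dg K * (2 * (x ^ dg K) ^ 30 / x) := fun P hP => by
      refine (card_coset (I := P) (Ring.ne_bot_of_isMaximal_of_not_isField (hS P hP).1
        (RingOfIntegers.not_isField K)) _ (T := x ^ 30) (by positivity) (m : 𝓞 K)
        (fun a ha => ?_) fun a ha b hb => P.sub_mem (mem_filter.1 ha).2 (mem_filter.1 hb).2).trans ?_
      · obtain ⟨u, hu, rfl⟩ := mem_image.1 (mem_filter.1 ha).1
        rw [add_sub_cancel_left]
        exact mem_Bl.1 hu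
      · refine mul_le_mul_of_nonneg_left ?_ (by positivity)
        have h2 : x ≤ (x ^ dg K) ^ 30 := by
          rw [← pow_mul]
          exact le_self_pow₀ hx1 (mul_ne_zero Module.finrank_pos.ne' (by norm_num))
        have h3 : x ≤ (Ideal.absNorm P : ℝ) := (le_self_pow₀ hx1 (by norm_num)).trans (hS P hP).2
        have h4 : (x ^ 30) ^ dg K / Ideal.absNorm P ≤ (x ^ dg K) ^ 30 / x := by
          rw [hw]; gcongr
        have h5 : 1 ≤ (x ^ dg K) ^ 30 / x := (one_le_div hx0).2 h2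
        rw [mul_div_assoc]
        linarith only [h4, h5]
    have h2 : A₁ ⊆ (A₁.filter fun a => ∀ P ∈ S, a ∉ P) ∪
        S.biUnion fun P => A₁.filter fun a => a ∈ P := fun a ha => by
      by_cases h : ∀ P ∈ S, a ∉ P
      · exact mem_union_left _ (mem_filter.2 ⟨ha, h⟩)
      · push Not at h
        obtain ⟨P, hP, h⟩ := h
        exact mem_union_right _ (mem_biUnion.2 ⟨P, hP, mem_filter.2 ⟨ha, h⟩⟩)
    have h3 : (#A₁ : ℝ) ≤ #(A₁.filter fun a => ∀ P ∈ S, a ∉ P) +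
        ∑ P ∈ S, (#(A₁.filter fun a => a ∈ P) : ℝ) := by
      exact_mod_cast (card_le_card h2).trans ((card_union_le _ _).trans
        (Nat.add_le_add_left card_biUnion_le _))
    have h4 := (sum_le_sum h1).trans_eq (sum_const _)
    rw [nsmul_eq_mul] at h4
    have h5 := hc (x ^ 30) (by positivity)
    rw [hw, ← hA₁] at h5
    have h6 : c * (#S * (4 ^ dg K * (2 * (x ^ dg K) ^ 30 / x))) ≤ (x ^ dg K) ^ 30 / 2 := by
      have hn' : (#S : ℝ) ≤ dg K := by exact_mod_cast hn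
      calc _ ≤ c * (dg K * (4 ^ dg K * (2 * (x ^ dg K) ^ 30 / x))) := by gcongr
        _ = (4 * c * dg K * 4 ^ dg K) / x * ((x ^ dg K) ^ 30 / 2) := by ring
        _ ≤ 1 * ((x ^ dg K) ^ 30 / 2) := by gcongr; exact (div_le_one hx0).2 hx2
        _ = _ := one_mul _
    nlinarith only [hc0, h3, h4, h5, h6]
  · have h1 : (#(A₁.filter fun a => ∀ P ∈ S, a ∉ P) : ℝ) ≤ #(Bl K (x ^ 30)) := by
      exact_mod_cast (card_filter_le _ _).trans hA₁.le
    refine h1.trans ((card_Bl_le (by linarith only [h30])).trans_eq ?_)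
    rw [mul_pow, hw]

omit [NumberField K] in
theorem lemb_av {S : Finset (Ideal (𝓞 K))} {g : ℕ} (A B : Finset (𝓞 K)) (ψ : Chars K)
    {Φ : 𝓞 K → ℂ} (hΦ : Per g Φ) (hu : ∀ a ∈ A, IsUnit (res S (g * a)))
    (hχ : ∀ t, ‖chiS S ψ t‖ ≤ 1) (k : 𝓞 K) :
    ‖av (fun i : A × B => (g : 𝓞 K) * (i.1 : 𝓞 K) * (i.2 : 𝓞 K))
        (fun a => chiS S ψ (res S a) * Φ a) k‖ ≤
      (∑ a ∈ A, ‖∑ b ∈ B, chiS S ψ (res S k * Ring.inverse (res S (g * a)) + res S b)‖) /
        (#A * #B) := by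
  rw [av, norm_div, Fintype.card_prod, Fintype.card_coe, Fintype.card_coe, Complex.norm_natCast,
    Nat.cast_mul, Fintype.sum_prod_type, ← sum_coe_sort A]
  refine div_le_div_of_nonneg_right ((norm_sum_le _ _).trans (sum_le_sum fun a _ => ?_))
    (by positivity)
  have h : ∀ b : 𝓞 K, chiS S ψ (res S (k + g * a * b)) * Φ (k + g * a * b) =
      chiS S ψ (res S (g * a)) * Φ k *
        chiS S ψ (res S k * Ring.inverse (res S (g * a)) + res S b) := fun b => by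
    rw [mul_right_comm (chiS S ψ _), ← chiS_mul, mul_add, mul_left_comm (res S _),
      Ring.mul_inverse_cancel _ (hu a a.2), mul_one, ← map_mul, ← map_add, mul_assoc (g : 𝓞 K),
      hΦ.2]
  simp only [h]
  rw [← mul_sum, ← sum_coe_sort B, norm_mul, norm_mul]
  exact mul_le_of_le_one_left (norm_nonneg _) (mul_le_one₀ (hχ _) (norm_nonneg _) (hΦ.1 k))

theorem lemb_num {s a b T E F w c c₁ c₂ c₃ : ℝ} (hw : 1 ≤ w) (hc : 0 < c)
    (hc₂ : 0 ≤ c₂) (hc₃ : 0 ≤ c₃) (hT0 : 0 ≤ T) (hE0 : 0 ≤ E) (hF0 : 0 ≤ F)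
    (h : s ^ 4 ≤ (T * a) ^ 2 * (E * F)) (ha : w ^ 30 ≤ 2 * c * a) (hb : w ^ 105 ≤ c * b)
    (hT : T ≤ c₁ * w ^ 200) (hE : E ≤ c₂ * a * w ^ 200) (hF : F ≤ c₃ * w ^ 630) :
    s / (a * b) ≤ (1 + 2 * c ^ 5 * c₁ ^ 2 * c₂ * c₃) * w ^ 196 := by
  have hw0 : 0 < w := by linarith
  have ha0 : 0 < a := (mul_pos_iff_of_pos_left (by positivity)).1 ((pow_pos hw0 30).trans_le ha)
  have hb0 : 0 < b := (mul_pos_iff_of_pos_left hc).1 ((pow_pos hw0 105).trans_le hb)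
  set D := 2 * c ^ 5 * c₁ ^ 2 * c₂ * c₃ with hD
  have hD0 : 0 ≤ D := by positivity
  refine le_of_pow_le_pow_left₀ (n := 4) (by norm_num) (by positivity) ?_
  rw [div_pow, div_le_iff₀ (by positivity)]
  have h1 : s ^ 4 ≤ (c₁ * w ^ 200 * a) ^ 2 * (c₂ * a * w ^ 200 * (c₃ * w ^ 630)) :=
    h.trans (by gcongr)
  have h2 : w ^ 30 * (w ^ 105) ^ 4 ≤ 2 * c * a * (c * b) ^ 4 := by gcongr
  have h3 : D ≤ (1 + D) ^ 4 := (by linarith only [] : D ≤ 1 + D).trans
    (le_self_pow₀ (by linarith only [hD0]) (by norm_num))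
  calc s ^ 4 ≤ _ := h1
    _ = c₁ ^ 2 * c₂ * c₃ * a ^ 3 * w ^ 780 * (w ^ 30 * (w ^ 105) ^ 4) := by ring
    _ ≤ c₁ ^ 2 * c₂ * c₃ * a ^ 3 * w ^ 780 * (2 * c * a * (c * b) ^ 4) := by gcongr
    _ = D * w ^ 780 * (a * b) ^ 4 := by rw [hD]; ring
    _ ≤ (1 + D) ^ 4 * w ^ 784 * (a * b) ^ 4 := by gcongr; norm_num
    _ = _ := by ring

theorem lemb_energy {R x : ℝ} (hR : 1 ≤ R) (hx1 : 1 ≤ x) (hx3 : 6 * R < x)
    {S : Finset (Ideal (𝓞 K))} {g : ℕ} (hm : ∀ P ∈ S, P.IsMaximal) (hg : ∀ P ∈ S, (g : 𝓞 K) ∉ P)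
    (h1 : (x ^ dg K) ^ 380 ≤ NN S) {A : Finset (𝓞 K)}
    (hA1 : ∀ a ∈ A, sz a ≤ 3 * x ^ 60 ∧ (x ^ 60 / 2) ^ dg K ≤ |(nm a : ℝ)|)
    (hA2 : ∀ a ∈ A, ∀ a' ∈ A, sz (a - a') ≤ 2 * x ^ 30)
    (hA4 : (#A : ℝ) ≤ 8 ^ dg K * (x ^ dg K) ^ 30) (hu : ∀ a ∈ A, IsUnit (res S (g * a)))
    (E : Finset ((𝓞 K × 𝓞 K) × 𝓞 K × 𝓞 K))
    (hE : ∀ z ∈ E, z ∈ (Bl K (R * x ^ 200) ×ˢ A) ×ˢ (Bl K (R * x ^ 200) ×ˢ A) ∧
      res S z.1.1 * Ring.inverse (res S (g * z.1.2)) =
        res S z.2.1 * Ring.inverse (res S (g * z.2.2))) :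
    (#E : ℝ) ≤ ((8 * R) ^ dg K + 8 ^ dg K * 4 ^ dg K * (2 * (4 * R) ^ dg K)) * #A *
      (x ^ dg K) ^ 200 := by
  have hx0 : 0 < x := by linarith
  have hp : ∀ j : ℕ, (x ^ j) ^ dg K = (x ^ dg K) ^ j := fun j => by
    rw [← pow_mul, ← pow_mul, mul_comm]
  have hT : (#(Bl K (R * x ^ 200)) : ℝ) ≤ (8 * R) ^ dg K * (x ^ dg K) ^ 200 :=
    (card_Bl_le (one_le_mul_of_one_le_of_one_le hR (one_le_pow₀ hx1))).trans_eq
      (by rw [← mul_assoc, mul_pow, hp])
  have h3 : (2 * (R * x ^ 200) * (3 * x ^ 60)) ^ dg K < NN S := by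
    refine lt_of_lt_of_le ?_ ((hp 380).le.trans h1)
    refine pow_lt_pow_left₀ ?_ (by positivity) Module.finrank_pos.ne'
    calc 2 * (R * x ^ 200) * (3 * x ^ 60) = 6 * R * x ^ 260 := by ring
      _ < x * x ^ 260 := mul_lt_mul_of_pos_right hx3 (by positivity)
      _ = x ^ 261 := by ring
      _ ≤ _ := pow_le_pow_right₀ hx1 (by norm_num)
  have h4 := b_energy hm A (T := R * x ^ 200) (V := 3 * x ^ 60) (U := 2 * x ^ 30)
    (L := (x ^ 60 / 2) ^ dg K) (by positivity) (by positivity) (by positivity) hA1 hA2 h3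
  refine le_trans (Nat.cast_le.2 (card_le_card fun z hz => ?_)) (h4.trans ?_)
  · obtain ⟨h5, h6⟩ := hE z hz
    refine mem_filter.2 ⟨h5, fun P hP => ?_⟩
    have h7 := hu _ (mem_product.1 (mem_product.1 h5).1).2
    have h8 := hu _ (mem_product.1 (mem_product.1 h5).2).2
    have h9 : res S (z.1.1 * (g * z.2.2)) = res S (z.2.1 * (g * z.1.2)) := by
      rw [map_mul, map_mul _ z.2.1]
      calc _ = res S z.1.1 * Ring.inverse (res S (g * z.1.2)) *
            (res S (g * z.1.2) * res S (g * z.2.2)) := by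
            rw [mul_assoc, ← mul_assoc (Ring.inverse _), Ring.inverse_mul_cancel _ h7, one_mul]
        _ = res S z.2.1 * (Ring.inverse (res S (g * z.2.2)) * res S (g * z.2.2)) *
            res S (g * z.1.2) := by rw [h6]; ring
        _ = _ := by rw [Ring.inverse_mul_cancel _ h8, mul_one]
    refine ((hm P hP).isPrime.mem_or_mem (x := (g : 𝓞 K)) ?_).resolve_left (hg P hP)
    have h10 := res_eq_iff.1 h9 P hP
    rwa [show z.1.1 * (g * z.2.2) - z.2.1 * (g * z.1.2) = g * (z.1.1 * z.2.2 - z.2.1 * z.1.2) by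
      ring] at h10
  · have h5 : (R * x ^ 200 * (2 * x ^ 30)) ^ dg K / (x ^ 60 / 2) ^ dg K =
        (4 * R) ^ dg K * (x ^ dg K) ^ 170 := by
      rw [← div_pow, ← hp, ← mul_pow, div_eq_of_eq_mul (by positivity)
        (show R * x ^ 200 * (2 * x ^ 30) = 4 * R * x ^ 170 * (x ^ 60 / 2) by ring)]
    have h6 : 1 ≤ (4 * R) ^ dg K * (x ^ dg K) ^ 170 :=
      one_le_mul_of_one_le_of_one_le (one_le_pow₀ (by linarith only [hR])) (one_le_pow₀ (one_le_pow₀ hx1))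
    rw [h5]
    have h0 : (0 : ℝ) ≤ #A := Nat.cast_nonneg _
    have hw : 0 ≤ x ^ dg K := by positivity
    have h4n : (0 : ℝ) ≤ 4 ^ dg K := by positivity
    generalize (#A : ℝ) = a at *
    generalize x ^ dg K = w at *
    have h7 : a ^ 2 ≤ a * (8 ^ dg K * w ^ 30) := by
      rw [sq]; exact mul_le_mul_of_nonneg_left hA4 h0
    calc _ ≤ a * ((8 * R) ^ dg K * w ^ 200) + a * (8 ^ dg K * w ^ 30) *
          (4 ^ dg K * (2 * ((4 * R) ^ dg K * w ^ 170))) :=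
          add_le_add (mul_le_mul_of_nonneg_left hT h0) (mul_le_mul h7
            (mul_le_mul_of_nonneg_left (by linarith only [h6]) h4n) (mul_nonneg h4n (by linarith only [h6]))
            ((sq_nonneg a).trans h7))
      _ = _ := by ring

theorem lemb_four {C x N : ℝ} {s n : ℕ} (hC : 0 < C) (hx : 0 < x) (hn : s ≤ n) (h0 : 0 ≤ N)
    (h2 : N ≤ (x ^ n) ^ 420) :
    C * 100 ^ s * (N * (x ^ 105) ^ (2 * n) + √N * (x ^ 105) ^ (4 * n)) ≤
      C * 100 ^ n * 2 * (x ^ n) ^ 630 := by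
  have h4 : √N ≤ (x ^ n) ^ 210 := Real.sqrt_le_iff.2 ⟨by positivity, h2.trans_eq (by ring)⟩
  have h5 : (x ^ 105) ^ (2 * n) = (x ^ n) ^ 210 := by ring
  have h6 : (x ^ 105) ^ (4 * n) = (x ^ n) ^ 420 := by ring
  rw [h5, h6]
  have hw : 0 < x ^ n := by positivity
  generalize x ^ n = w at *
  calc _ ≤ C * 100 ^ n * (w ^ 420 * w ^ 210 + w ^ 210 * w ^ 420) := by
        gcongr
        norm_num
    _ = _ := by ring

theorem lemb_core (K : Type) [Field K] [NumberField K] {R : ℝ} (hR : 1 ≤ R) : ∃ C : ℝ, 0 < C ∧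
    ∀ᶠ x : ℝ in atTop, ∀ (S : Finset (Ideal (𝓞 K))) (g : ℕ), #S ≤ dg K →
      (∀ P ∈ S, P.IsMaximal ∧ x ^ 380 ≤ Ideal.absNorm P ∧ (g : 𝓞 K) ∉ P) →
      (x ^ dg K) ^ 380 ≤ NN S → NN S ≤ (x ^ dg K) ^ 420 → (g : ℝ) ≤ x ^ 20 →
      ∃ (I : Type) (_ : Fintype I) (_ : Nonempty I) (s : I → 𝓞 K),
        (∀ i, sz (s i) ≤ x ^ 198) ∧ ∀ (ψ : Chars K) (Φ : 𝓞 K → ℂ), (∀ P ∈ S, ψ P ≠ 1) →
          Per g Φ → ∑ k ∈ Bl K (R * x ^ 200), ‖av s (fun a => chiS S ψ (res S a) * Φ a) k‖ ≤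
            C * (x ^ dg K) ^ 196 := by
  obtain ⟨c, hc0, hc⟩ := le_card_Bl K
  obtain ⟨C, hC0, hC⟩ := b_fourth K
  refine ⟨1 + 2 * c ^ 5 * ((8 * R) ^ dg K) ^ 2 *
    ((8 * R) ^ dg K + 8 ^ dg K * 4 ^ dg K * (2 * (4 * R) ^ dg K)) * (C * 100 ^ dg K * 2),
    by positivity, ?_⟩
  filter_upwards [eventually_ge_atTop 3, eventually_ge_atTop (4 * c * dg K * 4 ^ dg K),
    eventually_gt_atTop (6 * R)] with x hx hx2 hx3 S g hn hS h1 h2 hg
  have hx1 : 1 ≤ x := by linarith only [hR, hx3]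
  have hx0 : 0 < x := by linarith only [hR, hx3]
  have hm : ∀ P ∈ S, P.IsMaximal := fun P hP => (hS P hP).1
  obtain ⟨A, hA1, hA2, hA3, hA4⟩ := lemb_set hc hc0 (by linarith only [hR, hx3]) hx2 hn
    fun P hP => ⟨hm P hP, (hS P hP).2.1⟩
  have hp : ∀ j : ℕ, (x ^ j) ^ dg K = (x ^ dg K) ^ j := fun j => by
    rw [← pow_mul, ← pow_mul, mul_comm]
  have hA0 : A.Nonempty := card_pos.1 (Nat.cast_pos.1 ((mul_pos_iff_of_pos_left
    (mul_pos two_pos hc0)).1 ((pow_pos (pow_pos hx0 _) 30).trans_le hA3)))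
  have hu : ∀ a ∈ A, IsUnit (res S (g * a)) := fun a ha => lemb_unit hm fun P hP h =>
    ((hm P hP).isPrime.mem_or_mem h).elim (hS P hP).2.2 ((hA1 a ha).2 P hP)
  refine ⟨A × Bl K (x ^ 105), inferInstance,
    ⟨⟨hA0.choose, hA0.choose_spec⟩, ⟨0, zero_mem_Bl (by positivity)⟩⟩,
    fun i => (g : 𝓞 K) * (i.1 : 𝓞 K) * (i.2 : 𝓞 K), fun i => ?_, fun ψ Φ hψ hΦ => ?_⟩
  · have h3 := (hA1 _ i.1.2).1.1
    have h4 := mem_Bl.1 i.2.2
    have h5 := sz_nonneg (i.1 : 𝓞 K)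
    have h6 := sz_nonneg (i.2 : 𝓞 K)
    calc _ ≤ g * sz (i.1 : 𝓞 K) * sz (i.2 : 𝓞 K) :=
          (sz_mul_le _ _).trans_eq (by rw [sz_natCast_mul])
      _ ≤ x ^ 20 * (3 * x ^ 60) * x ^ 105 :=
          mul_le_mul (mul_le_mul hg h3 h5 (by positivity)) h4 h6 (by positivity)
      _ = 3 * x ^ 185 := by ring
      _ ≤ x ^ 13 * x ^ 185 :=
          mul_le_mul_of_nonneg_right (hx.trans (le_self_pow₀ hx1 (by norm_num))) (by positivity)
      _ = _ := by ring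
  have := finite_res hm
  have := Fintype.ofFinite (Res S)
  have hT : (#(Bl K (R * x ^ 200)) : ℝ) ≤ (8 * R) ^ dg K * (x ^ dg K) ^ 200 :=
    (card_Bl_le (one_le_mul_of_one_le_of_one_le hR (one_le_pow₀ hx1))).trans_eq
      (by rw [← mul_assoc, mul_pow, hp])
  refine (sum_le_sum fun k _ => lemb_av A _ ψ hΦ hu (norm_chiS_le hm ψ) k).trans ?_
  have h3 := lemb_holder (Bl K (R * x ^ 200) ×ˢ A)
    (fun z => res S z.1 * Ring.inverse (res S (g * z.2)))
    fun t => ‖∑ b ∈ Bl K (x ^ 105), chiS S ψ (t + res S b)‖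
  rw [card_product, Nat.cast_mul, sum_product] at h3
  rw [← sum_div]
  exact lemb_num (one_le_pow₀ hx1) hc0 (by positivity) (by positivity)
    (Nat.cast_nonneg _) (Nat.cast_nonneg _) (sum_nonneg fun _ _ => pow_nonneg (norm_nonneg _) 4) h3
    hA3 ((hp 105).symm.trans_le (hc _ (by positivity))) hT
    (lemb_energy hR hx1 hx3 hm (fun P hP => (hS P hP).2.2) h1 (fun a ha => (hA1 a ha).1) hA2 hA4 hu
      _ fun z hz => (@mem_filter _ _ (_) _ z).1 hz)
    ((hC S ψ _ hm hψ (one_le_pow₀ hx1)).trans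
      (lemb_four hC0 hx0 hn (zero_le_one.trans (one_le_NN hm)) h2))

theorem lemB (K : Type) [Field K] [NumberField K] {R : ℝ} (hR : 1 ≤ R) : ∃ C : ℝ, 0 < C ∧
    ∀ᶠ Y : ℝ in atTop, ∀ (S : Finset (Ideal (𝓞 K))) (g : ℕ), #S ≤ dg K →
      (∀ P ∈ S, P.IsMaximal ∧ Y ^ (1.9 : ℝ) ≤ Ideal.absNorm P ∧ (g : 𝓞 K) ∉ P) →
      Y ^ (1.9 * dg K : ℝ) ≤ NN S → NN S ≤ Y ^ (2.1 * dg K : ℝ) → (g : ℝ) ≤ Y ^ (0.1 : ℝ) →
      ∃ (I : Type) (_ : Fintype I) (_ : Nonempty I) (s : I → 𝓞 K),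
        (∀ i, sz (s i) ≤ Y ^ (0.99 : ℝ)) ∧ ∀ (ψ : Chars K) (Φ : 𝓞 K → ℂ), (∀ P ∈ S, ψ P ≠ 1) →
          Per g Φ → ∑ k ∈ Bl K (R * Y), ‖av s (fun a => chiS S ψ (res S a) * Φ a) k‖ ≤
            C * Y ^ (dg K - 0.02 * dg K : ℝ) := by
  obtain ⟨C, hC, h⟩ := lemb_core K hR
  refine ⟨C, hC, ?_⟩
  filter_upwards [(tendsto_rpow_atTop (by norm_num : (0 : ℝ) < 1 / 200)).eventually h,
    eventually_ge_atTop 0] with Y h hY S g hn hS h1 h2 hg
  have e : ∀ (j : ℕ) (r : ℝ), r = j / 200 → (Y ^ (1 / 200 : ℝ)) ^ j = Y ^ r := fun j r hr => by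
    rw [← Real.rpow_natCast, ← Real.rpow_mul hY, hr]
    congr 1
    ring
  have e' : ∀ (j : ℕ) (r : ℝ), r = j / 200 * dg K →
      ((Y ^ (1 / 200 : ℝ)) ^ dg K) ^ j = Y ^ r := fun j r hr => by
    rw [← pow_mul]
    exact e _ _ (by rw [hr]; push_cast; ring)
  rw [e 380 1.9 (by norm_num), e' 380 (1.9 * dg K) (by norm_num), e' 420 (2.1 * dg K) (by norm_num only []),
    e 20 0.1 (by norm_num), e 198 0.99 (by norm_num), e 200 1 (by norm_num), Real.rpow_one,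
    e' 196 (dg K - 0.02 * dg K) (by push_cast; ring)] at h
  exact h S g hn hS h1 h2 hg

end Pool.Agent.MP_48b1c3_nt.H48

end

-- part MP_48b1c3_nt.H48.Loc
section

/-! Characters composed with the norm are products of local characters. -/

namespace Pool.Agent.MP_48b1c3_nt.H48

open Finset NumberField H54 H91 Filter
open scoped Classical BigOperators Topology

variable {K : Type} [Field K] [NumberField K]

theorem loc_rad {m : ℕ} (hm : Squarefree m) (hD : m.Coprime (DD K)) {a : 𝓞 K}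
    (h : ∀ P : Ideal (𝓞 K), P.IsPrime → (m : 𝓞 K) ∈ P → a ∈ P) : (m : 𝓞 K) ∣ a := by
  have h1 : a ∈ (Ideal.span {(m : 𝓞 K)}).radical := by
    rw [Ideal.radical_eq_sInf]
    exact Ideal.mem_sInf.2 fun {P} hP =>
      h P hP.2 ((Ideal.span_singleton_le_iff_mem _).1 hP.1)
  obtain ⟨k, hk⟩ := h1
  rw [Ideal.mem_span_singleton] at hk
  rw [← Nat.prod_primeFactors_of_squarefree hm, Nat.cast_prod]
  refine Finset.prod_dvd_of_coprime (fun p hp p' hp' hne => ?_) fun p hp => ?_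
  · exact Nat.Coprime.cast ((Nat.coprime_primes (Nat.prime_of_mem_primeFactors hp)
      (Nat.prime_of_mem_primeFactors hp')).2 hne)
  · have hp1 := Nat.prime_of_mem_primeFactors hp
    have hp2 := Nat.dvd_of_mem_primeFactors hp
    have := norm_reduced (K := K) hp1
      ((Nat.Prime.coprime_iff_not_dvd hp1).1 (Nat.Coprime.coprime_dvd_left hp2 hD))
    have h2 := (norm_zero_iff p _).2 ((Nat.cast_dvd_cast hp2).trans hk)
    refine (norm_zero_iff p _).1 (IsNilpotent.eq_zero ⟨k, ?_⟩)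
    rw [Algebra.TensorProduct.tmul_pow, one_pow, h2]

theorem loc_dvd {P : Ideal (𝓞 K)} (hP : P ≠ ⊤) {p : ℕ} (hp : p.Prime) (h : (p : 𝓞 K) ∈ P) :
    p ∣ Ideal.absNorm P := by
  have h1 := Ideal.absNorm_dvd_absNorm_of_le ((Ideal.span_singleton_le_iff_mem _).2 h)
  rw [Ideal.absNorm_span_natCast] at h1
  obtain ⟨k, -, hk⟩ := (Nat.dvd_prime_pow hp).1 h1
  rw [hk]
  refine dvd_pow_self _ fun h0 => hP (Ideal.absNorm_eq_one_iff.1 ?_)
  rw [hk, h0, pow_zero]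

theorem loc_nm {P : Ideal (𝓞 K)} (hP : P ≠ ⊤) {p : ℕ} (hp : p.Prime) (h : (p : 𝓞 K) ∈ P)
    {a : 𝓞 K} (ha : a ∈ P) : (p : ℤ) ∣ nm a :=
  (Int.natCast_dvd_natCast.2 (loc_dvd hP hp h)).trans (Ideal.absNorm_dvd_norm_of_mem ha)

omit [NumberField K] in
theorem loc_surj {S : Finset (Ideal (𝓞 K))} (hS : ∀ P ∈ S, P.IsMaximal) :
    Function.Surjective (res S) := fun x => by
  obtain ⟨r, hr⟩ := Ideal.pi_quotient_surjective (I := fun P : S => (P : Ideal (𝓞 K)))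
    (fun P Q hne => by
      have := hS P P.2
      have := hS Q Q.2
      exact Ideal.isCoprime_of_isMaximal (Subtype.coe_ne_coe.2 hne)) x
  exact ⟨r, funext hr⟩

omit [NumberField K] in
theorem loc_single {S : Finset (Ideal (𝓞 K))} (P : S) {a u : 𝓞 K} :
    res S u = Pi.mulSingle P (Ideal.Quotient.mk (P : Ideal (𝓞 K)) a) ↔
      u - a ∈ (P : Ideal (𝓞 K)) ∧ ∀ Q ∈ S, Q ≠ P → u - 1 ∈ Q := by
  refine ⟨fun h => ⟨?_, fun Q hQ hne => ?_⟩, fun h => funext fun Q => ?_⟩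
  · have := congrFun h P
    rw [Pi.mulSingle_eq_same] at this
    exact Ideal.Quotient.eq.1 this
  · have := congrFun h ⟨Q, hQ⟩
    rw [Pi.mulSingle_eq_of_ne fun e => hne (congrArg Subtype.val e)] at this
    exact Ideal.Quotient.eq.1 this
  · by_cases hQ : Q = P
    · subst hQ
      rw [Pi.mulSingle_eq_same]
      exact Ideal.Quotient.eq.2 h.1
    · rw [Pi.mulSingle_eq_of_ne hQ]
      exact Ideal.Quotient.eq.2 (h.2 Q Q.2 (Subtype.coe_ne_coe.2 hQ))

theorem loc_unit {q q' : ℕ} [NeZero q] {χ : DirichletCharacter ℂ q} (hχ : χ.IsPrimitive)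
    (hd : q' ∣ q) (hlt : q' < q) :
    ∃ t : ℕ, t.Coprime q ∧ t ≡ 1 [MOD q'] ∧ χ t ≠ 1 := by
  by_contra hcon
  have hf : χ.FactorsThrough q' := by
    refine (DirichletCharacter.factorsThrough_iff_ker_unitsMap hd).2 fun u hu => ?_
    rw [MonoidHom.mem_ker] at hu ⊢
    by_contra hne
    refine hcon ⟨(u : ZMod q).val, ZMod.val_coe_unit_coprime u, ?_, ?_⟩
    · have h := congrArg (fun x : (ZMod q')ˣ => (x : ZMod q')) hu
      simp only [ZMod.unitsMap_val, Units.val_one] at h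
      rw [← ZMod.natCast_eq_natCast_iff, Nat.cast_one, ZMod.natCast_val]
      exact h
    · rw [ZMod.natCast_zmod_val]
      intro h
      apply hne
      rw [Units.ext_iff, MulChar.coe_toUnitHom, Units.val_one]
      exact h
  have hle : χ.conductor ≤ q' := Nat.sInf_le hf
  rw [(DirichletCharacter.isPrimitive_def χ).1 hχ] at hle
  omega

theorem loc_key {p r t : ℕ} (hp : p.Prime) (hq : Squarefree (p * r)) (hD : (p * r).Coprime (DD K))
    {S : Finset (Ideal (𝓞 K))} (hS : ∀ P ∈ S, P.IsMaximal)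
    (hS' : ∀ P : Ideal (𝓞 K), P.IsPrime → ((p * r : ℕ) : 𝓞 K) ∈ P → P ∈ S) (P : S)
    (hP : (p : 𝓞 K) ∈ (P : Ideal (𝓞 K))) (ht : ¬ p ∣ t) (ht1 : t ≡ 1 [MOD r]) :
    ∃ u : 𝓞 K, (∀ Q ∈ S, Q ≠ P → u - 1 ∈ Q) ∧ ((p * r : ℕ) : ℤ) ∣ nm u - t := by
  have hcop : p.Coprime r := Nat.coprime_of_squarefree_mul hq
  have hDp : p.Coprime (DD K) := Nat.Coprime.coprime_mul_right hD
  have hP0 := (hS P P.2).ne_top
  obtain ⟨β, hβ⟩ := loc_surj hS (Pi.mulSingle P (Ideal.Quotient.mk (P : Ideal (𝓞 K)) 0))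
  rw [loc_single, sub_zero] at hβ
  obtain ⟨v, hv1, hv2⟩ := norm_loc hp ((Nat.Prime.coprime_iff_not_dvd hp).1 hDp)
    (loc_nm hP0 hp hP hβ.1) (t := t) fun h => ht (Int.natCast_dvd_natCast.1 h)
  obtain ⟨u, hu⟩ := loc_surj hS (Pi.mulSingle P (Ideal.Quotient.mk (P : Ideal (𝓞 K)) v))
  rw [loc_single] at hu
  refine ⟨u, hu.2, ?_⟩
  have h1 : (p : 𝓞 K) ∣ u - v := by
    refine loc_rad hp.squarefree hDp fun Q hQ hpQ => ?_
    have hQS : Q ∈ S := hS' Q hQ (by rw [Nat.cast_mul]; exact Q.mul_mem_right _ hpQ)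
    by_cases hne : Q = P
    · rw [hne]
      exact hu.1
    · have h2 : (v - 1) * β ∈ Q := Ideal.mem_of_dvd _ hv1 hpQ
      have h3 : (v - 1) * (β - 1) ∈ Q := Q.mul_mem_left _ (hβ.2 Q hQS hne)
      have h4 := Q.sub_mem (hu.2 Q hQS hne) (Q.sub_mem h2 h3)
      rwa [show u - 1 - ((v - 1) * β - (v - 1) * (β - 1)) = u - v by ring] at h4
  have h2 : (r : 𝓞 K) ∣ u - 1 := by
    refine loc_rad hq.of_mul_right (Nat.Coprime.coprime_mul_left hD) fun Q hQ hrQ => ?_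
    refine hu.2 Q (hS' Q hQ (by rw [Nat.cast_mul]; exact Q.mul_mem_left _ hrQ)) fun hne => ?_
    obtain ⟨a, b, e⟩ : IsCoprime (p : 𝓞 K) (r : 𝓞 K) := hcop.cast
    refine hP0 ((Ideal.eq_top_iff_one _).2 ?_)
    rw [← e]
    exact add_mem (Ideal.mul_mem_left _ _ hP) (Ideal.mul_mem_left _ _ (hne ▸ hrQ))
  have h3 := nm_congr (m := p) (a := u) (b := v) (by rwa [Int.cast_natCast])
  have h4 := nm_congr (m := r) (a := u) (b := 1) (by rwa [Int.cast_natCast])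
  rw [nm, nm, map_one] at h4
  rw [Nat.cast_mul]
  refine IsCoprime.mul_dvd hcop.cast ?_ ?_
  · simpa only [sub_add_sub_cancel] using h3.add hv2
  · simpa only [Nat.cast_one, sub_add_sub_cancel] using h4.add ht1.dvd

theorem loc {q : ℕ} (hq : Squarefree q) (hD : q.Coprime (DD K)) :
    ∃ S : Finset (Ideal (𝓞 K)),
      (∀ P ∈ S, P.IsMaximal ∧ ∃ p : ℕ, p.Prime ∧ p ∣ q ∧ (p : 𝓞 K) ∈ P ∧ p ≤ Ideal.absNorm P) ∧
      NN S = (q : ℝ) ^ dg K ∧ (q.Prime → #S ≤ dg K) ∧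
      ∀ χ : DirichletCharacter ℂ q, χ.IsPrimitive → ∃ ψ : Chars K, (∀ P ∈ S, ψ P ≠ 1) ∧
        ∀ a : 𝓞 K, χ (nm a : ℤ) = chiS S ψ (res S a) := by
  have hq0 : (q : 𝓞 K) ≠ 0 := Nat.cast_ne_zero.2 hq.ne_zero
  have : NeZero q := ⟨hq.ne_zero⟩
  obtain ⟨S, hS⟩ : ∃ S : Finset (Ideal (𝓞 K)), ∀ P, P ∈ S ↔ P.IsPrime ∧ (q : 𝓞 K) ∈ P :=
    ⟨(UniqueFactorizationMonoid.normalizedFactors (Ideal.span {(q : 𝓞 K)})).toFinset, fun P => by
      rw [Multiset.mem_toFinset, Ideal.mem_normalizedFactors_iff (by simpa only [ne_eq, Submodule.span_eq_bot, Set.mem_singleton_iff, forall_eq, Nat.cast_eq_zero] using hq.ne_zero),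
        Ideal.span_singleton_le_iff_mem]⟩
  have hb : ∀ P ∈ S, P ≠ ⊥ := fun P hP h => hq0 (by simpa only [Nat.cast_eq_zero, h, Submodule.mem_bot] using ((hS P).1 hP).2)
  have hM : ∀ P ∈ S, P.IsMaximal := fun P hP => ((hS P).1 hP).1.isMaximal (hb P hP)
  have hp : ∀ P ∈ S, ∃ p : ℕ, p.Prime ∧ p ∣ q ∧ (p : 𝓞 K) ∈ P := fun P hP => by
    obtain ⟨h1, h2⟩ := (hS P).1 hP
    rw [← Nat.prod_primeFactors_of_squarefree hq, Nat.cast_prod] at h2
    obtain ⟨p, h3, h4⟩ := Ideal.IsPrime.prod_mem_iff.1 h2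
    exact ⟨p, Nat.prime_of_mem_primeFactors h3, Nat.dvd_of_mem_primeFactors h3, h4⟩
  have hle : ∀ P ∈ S, ∀ p : ℕ, p.Prime → (p : 𝓞 K) ∈ P → p ≤ Ideal.absNorm P :=
    fun P hP p h1 h2 => Nat.le_of_dvd
      (Nat.pos_of_ne_zero fun h => hb P hP (Ideal.absNorm_eq_zero_iff.1 h))
      (loc_dvd (hM P hP).ne_top h1 h2)
  have hA : ∀ a : 𝓞 K, (∀ P ∈ S, a ∈ P) → (q : 𝓞 K) ∣ a := fun a h =>
    loc_rad hq hD fun P h1 h2 => h P ((hS P).2 ⟨h1, h2⟩)
  have hN : ∏ P ∈ S, Ideal.absNorm P = q ^ dg K := by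
    have h1 : ∏ P ∈ S, P = Ideal.span {(q : 𝓞 K)} := by
      rw [Ideal.prod_eq_iInf_of_pairwise_isCoprime (J := fun P => P) fun P hP Q hQ hne => by
        have := hM P hP
        have := hM Q hQ
        exact Ideal.isCoprime_of_isMaximal hne]
      ext a
      simp only [Ideal.mem_iInf, Ideal.mem_span_singleton]
      exact ⟨hA a, fun h P hP => Ideal.mem_of_dvd _ h ((hS P).1 hP).2⟩
    rw [← map_prod, h1, Ideal.absNorm_span_natCast, RingOfIntegers.rank]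
  refine ⟨S, fun P hP => ⟨hM P hP, ?_⟩, ?_, fun h => ?_, fun χ hχ => ?_⟩
  · obtain ⟨p, h1, h2, h3⟩ := hp P hP
    exact ⟨p, h1, h2, h3, hle P hP p h1 h3⟩
  · rw [NN, ← Nat.cast_prod, hN, Nat.cast_pow]
  · rw [← Nat.pow_le_pow_iff_right h.one_lt, ← hN]
    exact Finset.pow_card_le_prod _ _ _ fun P hP => hle P hP q h ((hS P).1 hP).2
  have hper : ∀ a b : 𝓞 K, res S a = res S b → χ (nm a : ℤ) = χ (nm b : ℤ) := fun a b h => by
    have h1 := nm_congr (m := q) (a := a) (b := b)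
      (by rw [Int.cast_natCast]; exact hA _ (res_eq_iff.1 h))
    rw [(ZMod.intCast_eq_intCast_iff_dvd_sub _ _ _).2 h1]
  choose σ hσ using loc_surj hM
  let Φ : Res S →* ℂ :=
    { toFun := fun t => χ (nm (σ t) : ℤ)
      map_one' := by
        rw [hper _ 1 (by rw [hσ, map_one]), nm, map_one, Int.cast_one, map_one]
      map_mul' := fun t u => by
        rw [hper _ (σ t * σ u) (by rw [map_mul, hσ, hσ, hσ]), nm, map_mul, Int.cast_mul, map_mul] }
  have hΦ : ∀ a, Φ (res S a) = χ (nm a : ℤ) := fun a => hper _ _ (hσ _)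
  let ψ : ∀ P : S, MulChar (𝓞 K ⧸ (P : Ideal (𝓞 K))) ℂ := fun P =>
    { toMonoidHom := Φ.comp (MonoidHom.mulSingle (fun Q : S => 𝓞 K ⧸ (Q : Ideal (𝓞 K))) P)
      map_nonunit' := fun t ht => by
        have := hM P P.2
        let _ := Ideal.Quotient.field (P : Ideal (𝓞 K))
        have h0 : t = Ideal.Quotient.mk _ 0 := by
          by_contra h
          exact ht (Ne.isUnit h)
        obtain ⟨p, h1, h2, h3⟩ := hp P P.2
        have h4 := ((loc_single P).1 (hσ (Pi.mulSingle P (Ideal.Quotient.mk _ 0)))).1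
        rw [sub_zero] at h4
        rw [h0]
        refine χ.map_nonunit fun h5 => ?_
        have h6 := h5.map (ZMod.castHom h2 (ZMod p))
        have := Fact.mk h1
        rw [map_intCast] at h6
        exact h6.ne_zero ((ZMod.intCast_zmod_eq_zero_iff_dvd _ _).2
          (loc_nm (hM P P.2).ne_top h1 h3 h4)) }
  refine ⟨fun P => if h : P ∈ S then ψ ⟨P, h⟩ else 1, fun P hP h => ?_, fun a => ?_⟩
  · simp only [dif_pos hP] at h
    obtain ⟨p, h1, ⟨r, rfl⟩, h3⟩ := hp P hP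
    obtain ⟨t, ht1, ht2, ht3⟩ := loc_unit hχ (dvd_mul_left r p)
      (lt_mul_of_one_lt_left (Nat.pos_of_ne_zero (right_ne_zero_of_mul hq.ne_zero)) h1.one_lt)
    obtain ⟨u, hu1, hu2⟩ := loc_key h1 hq hD hM (fun P a b => (hS P).2 ⟨a, b⟩) ⟨P, hP⟩ h3
      (fun h => h1.one_lt.ne' (Nat.eq_one_of_dvd_coprimes ht1 h (dvd_mul_right _ _))) ht2
    have h4 : ψ ⟨P, hP⟩ (Ideal.Quotient.mk P u) = χ t := by
      have h5 := (loc_single (a := u) ⟨P, hP⟩).2 ⟨by simp, hu1⟩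
      change Φ (Pi.mulSingle ⟨P, hP⟩ (Ideal.Quotient.mk P u)) = _
      rw [← h5, hΦ, ← (ZMod.intCast_eq_intCast_iff_dvd_sub _ _ _).2 hu2, Int.cast_natCast]
    rw [h] at h4
    by_cases h5 : IsUnit (Ideal.Quotient.mk P u)
    · exact ht3 (by rw [← h4, MulChar.one_apply h5])
    · rw [MulChar.map_nonunit _ h5] at h4
      exact (((ZMod.isUnit_iff_coprime _ _).2 ht1).map χ).ne_zero h4.symm
  · rw [← hΦ, chiS, ← Finset.univ_prod_mulSingle (res S a), map_prod]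
    refine prod_congr rfl fun P _ => ?_
    rw [dif_pos P.2, Finset.univ_prod_mulSingle]
    rfl

end Pool.Agent.MP_48b1c3_nt.H48

end

-- part MP_48b1c3_nt.H91.LSieve
section

/-! The multiplicative large sieve. -/

namespace Pool.Agent.MP_48b1c3_nt.H91

open Finset NumberField H54 Filter
open scoped ContDiff Topology

section

open Pool.Agent.MP_257582_lc.H99 (ee parseval gallagher)

theorem lsieve_real {Q : ℕ} (hQ : 0 < Q) {T : Finset ℕ} (hT : T ⊆ Icc 1 Q) (N : ℕ) (a : ℕ → ℝ) :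
    ∑ q ∈ T, ∑ t ∈ (range q).filter (fun t => t.Coprime q),
      ‖∑ n ∈ range N, (a n : ℂ) * ee q ^ (n * t)‖ ^ 2 ≤
        41 * (N + (Q : ℝ) ^ 2) * ∑ n ∈ range N, a n ^ 2 := by
  have hP : ∀ q ∈ T, 0 < q ∧ q ≤ Q := fun q hq => mem_Icc.1 (hT hq)
  obtain ⟨M, hM, hM1, hM2⟩ : ∃ M, (∀ q ∈ T, q ∣ M) ∧ N ≤ M ∧ Q ^ 2 ≤ M := by
    have h : 0 < ∏ q ∈ T, q := prod_pos fun q hq => (hP q hq).1
    refine ⟨(∏ q ∈ T, q) * (Q ^ 2 + N), fun q hq => (dvd_prod_of_mem _ hq).mul_right _, ?_, ?_⟩ <;>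
      nlinarith only [h]
  have h16 : 0 < Q ^ 2 := by positivity
  obtain ⟨D, hD⟩ : ∃ D, D = M / Q ^ 2 := ⟨_, rfl⟩
  have hD1 : Q ^ 2 * D ≤ M := hD ▸ Nat.mul_div_le _ _
  have hD2 : M < Q ^ 2 * (D + 1) := hD ▸ Nat.lt_mul_div_succ _ h16
  have hD0 : 0 < D := hD ▸ Nat.div_pos hM2 h16
  have key : ∀ q ∈ T, ∀ q' ∈ T, ∀ t t' : ℕ, t * q' < t' * q → M / q * t + D ≤ M / q' * t' := by
    intro q hq q' hq' t t' h
    obtain ⟨c, hc⟩ := hM q hq
    obtain ⟨c', hc'⟩ := hM q' hq'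
    obtain ⟨a1, a3⟩ := hP q hq
    obtain ⟨b1, b3⟩ := hP q' hq'
    rw [Nat.div_eq_of_eq_mul_right a1 hc, Nat.div_eq_of_eq_mul_right b1 hc']
    refine Nat.le_of_mul_le_mul_left (c := q * q') ?_ (Nat.mul_pos a1 b1)
    calc q * q' * (c * t + D) = (q * c) * (t * q') + q * q' * D := by ring
      _ ≤ M * (t * q') + Q * Q * D := by rw [← hc]; gcongr
      _ ≤ M * (t * q' + 1) := by linarith only [hD1]
      _ ≤ (q' * c') * (t' * q) := by rw [← hc']; gcongr; exact h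
      _ = _ := by ring
  have := gallagher (T.sigma fun q => (range q).filter fun t => t.Coprime q)
    (fun z => M / z.1 * z.2) (D := D) (by omega) hM1
    (by
      rintro ⟨q, t⟩ h ⟨q', t'⟩ h' hne
      simp only [mem_sigma, mem_filter, mem_range] at h h'
      rcases lt_trichotomy (t * q') (t' * q) with e | e | e
      · exact Or.inl (key q h.1 q' h'.1 t t' e)
      · exfalso
        have h1 : q ∣ q' := h.2.2.symm.dvd_of_dvd_mul_left ⟨t', e.trans (mul_comm _ _)⟩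
        have h2 : q' ∣ q := h'.2.2.symm.dvd_of_dvd_mul_left ⟨t, e.symm.trans (mul_comm _ _)⟩
        obtain rfl := Nat.dvd_antisymm h1 h2
        exact hne (by rw [Nat.eq_of_mul_eq_mul_right (hP q h.1).1 e])
      · exact Or.inr (key q' h'.1 q h.1 t' t e))
    (by
      rintro ⟨q, t⟩ h
      simp only [mem_sigma, mem_filter, mem_range] at h
      have := key q h.1 q h.1 t q (Nat.mul_lt_mul_of_pos_right h.2.1 (hP q h.1).1)
      rwa [Nat.div_mul_cancel (hM q h.1)] at this) a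
  rw [sum_sigma] at this
  have hD' : (0 : ℝ) < D := by exact_mod_cast hD0
  refine le_of_mul_le_mul_left ((le_of_eq ?_).trans (this.trans ?_)) hD'
  · congr 1
    refine sum_congr rfl fun q hq => sum_congr rfl fun t _ => ?_
    have e : ee M ^ (M / q) = ee q := by
      obtain ⟨c, hc⟩ := hM q hq
      have h1 : (q : ℂ) ≠ 0 := by exact_mod_cast (hP q hq).1.ne'
      have h2 : (c : ℂ) ≠ 0 := by
        rw [Nat.cast_ne_zero]
        rintro rfl
        omega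
      rw [Nat.div_eq_of_eq_mul_right (hP q hq).1 hc, ee, ee, ← Complex.exp_nat_mul, hc]
      congr 1
      push_cast
      field_simp
    simp only [← e, ← pow_mul, mul_left_comm]
  · rw [← mul_assoc]
    refine mul_le_mul_of_nonneg_right ?_ (by positivity)
    have h1 : (M : ℝ) ≤ Q ^ 2 * (D + 1) := by exact_mod_cast hD2.le
    have h2 : (1 : ℝ) ≤ D := by exact_mod_cast hD0
    linarith only [sq_nonneg (Q : ℝ), mul_le_mul_of_nonneg_left h2 (sq_nonneg (Q : ℝ)), h1]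

theorem lsieve_add {Q : ℕ} (hQ : 0 < Q) {T : Finset ℕ} (hT : T ⊆ Icc 1 Q) (N : ℕ) (a : ℕ → ℂ) :
    ∑ q ∈ T, ∑ t ∈ (range q).filter (fun t => t.Coprime q),
      ‖∑ n ∈ range N, a n * ee q ^ (n * t)‖ ^ 2 ≤
        82 * (N + (Q : ℝ) ^ 2) * ∑ n ∈ range N, ‖a n‖ ^ 2 := by
  have h1 := lsieve_real hQ hT N fun n => (a n).re
  have h2 := lsieve_real hQ hT N fun n => (a n).im
  have e : ∑ n ∈ range N, ‖a n‖ ^ 2 = ∑ n ∈ range N, (a n).re ^ 2 + ∑ n ∈ range N, (a n).im ^ 2 := by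
    rw [← sum_add_distrib]
    exact sum_congr rfl fun n _ => by rw [Complex.sq_norm, Complex.normSq_apply]; ring
  rw [e]
  refine le_trans ?_ ((mul_le_mul_of_nonneg_left (add_le_add h1 h2) zero_le_two).trans_eq (by ring))
  simp only [← sum_add_distrib, mul_sum]
  refine sum_le_sum fun q _ => sum_le_sum fun t _ => ?_
  have e2 : ∑ n ∈ range N, a n * ee q ^ (n * t) = ∑ n ∈ range N, ((a n).re : ℂ) * ee q ^ (n * t) +
      Complex.I * ∑ n ∈ range N, ((a n).im : ℂ) * ee q ^ (n * t) := by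
    rw [mul_sum, ← sum_add_distrib]
    refine sum_congr rfl fun n _ => ?_
    conv_lhs => rw [← Complex.re_add_im (a n)]
    ring
  rw [e2]
  refine (pow_le_pow_left₀ (norm_nonneg _) (norm_add_le _ _) 2).trans ?_
  rw [norm_mul, Complex.norm_I, one_mul]
  exact add_sq_le

theorem lsieve_zmod {q : ℕ} [NeZero q] {E : Type} [AddCommMonoid E] (F : ZMod q → E) :
    ∑ x, F x = ∑ t ∈ range q, F t :=
  sum_nbij' (fun x => x.val) (fun t => (t : ZMod q)) (fun x _ => mem_range.2 x.val_lt)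
    (fun _ _ => mem_univ _) (fun x _ => ZMod.natCast_zmod_val x)
    (fun t ht => ZMod.val_cast_of_lt (mem_range.1 ht)) fun x _ => by rw [ZMod.natCast_zmod_val]

theorem lsieve_gauss {q : ℕ} [NeZero q] {χ : DirichletCharacter ℂ q} (hχ : χ.IsPrimitive) (m : ℕ) :
    χ m * gaussSum χ⁻¹ ZMod.stdAddChar = ∑ t ∈ range q, χ⁻¹ t * ee q ^ (t * m) := by
  have h : (χ⁻¹).IsPrimitive := by
    rwa [DirichletCharacter.isPrimitive_def, DirichletCharacter.conductor_inv]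
  have := gaussSum_mulShift_of_isPrimitive ZMod.stdAddChar h (m : ZMod q)
  rw [inv_inv] at this
  rw [← this, gaussSum, lsieve_zmod]
  refine sum_congr rfl fun t _ => ?_
  rw [AddChar.mulShift_apply, ← Nat.cast_mul, ZMod.stdAddChar_apply, ZMod.toCircle_natCast, ee,
    ← Complex.exp_nat_mul]
  congr 2
  push_cast
  ring

theorem lsieve_norm {q : ℕ} (χ : DirichletCharacter ℂ q) (x : ZMod q) : ‖χ⁻¹ x‖ = ‖χ x‖ := by
  by_cases h : IsUnit x
  · obtain ⟨u, rfl⟩ := h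
    rw [χ.unit_norm_eq_one, χ⁻¹.unit_norm_eq_one]
  · rw [MulChar.map_nonunit _ h, MulChar.map_nonunit _ h]

theorem lsieve_gauss_norm {q : ℕ} [NeZero q] {χ : DirichletCharacter ℂ q} (hχ : χ.IsPrimitive) :
    ‖gaussSum χ⁻¹ ZMod.stdAddChar‖ ^ 2 = q := by
  have hq : 0 < q := NeZero.pos q
  have P := parseval (range q) (Complex.isPrimitiveRoot_exp q hq.ne') hq id
    (fun n hn => mem_range.1 hn) (fun _ _ _ _ h => h) fun t => χ⁻¹ t
  simp only [id, ← ee.eq_1, ← lsieve_gauss hχ, norm_mul, mul_pow, ← sum_mul, lsieve_norm] at P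
  have h0 : 0 < ∑ t ∈ range q, ‖χ t‖ ^ 2 := by
    rw [← lsieve_zmod fun x => ‖χ x‖ ^ 2]
    exact sum_pos' (fun _ _ => by positivity) ⟨1, mem_univ _, by simp⟩
  exact mul_left_cancel₀ h0.ne' (P.trans (mul_comm _ _))

theorem lsieve_orth {q : ℕ} [NeZero q] (E : ℕ → ℂ) :
    ∑ χ : DirichletCharacter ℂ q, ‖∑ t ∈ range q, χ t * E t‖ ^ 2 =
      q.totient * ∑ t ∈ (range q).filter (fun t => t.Coprime q), ‖E t‖ ^ 2 := by
  have e0 : ∀ χ : DirichletCharacter ℂ q, ∑ t ∈ range q, χ t * E t =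
      ∑ t ∈ (range q).filter (fun t => t.Coprime q), χ t * E t := fun χ =>
    (sum_filter_of_ne fun t _ h => by
      by_contra h'
      rw [MulChar.map_nonunit _ (mt (ZMod.isUnit_iff_coprime t q).1 h'), zero_mul] at h
      exact h rfl).symm
  simp only [e0]
  set U := (range q).filter fun t => t.Coprime q
  have key : ∀ t ∈ U, ∀ t' ∈ U, ∑ χ : DirichletCharacter ℂ q, (starRingEnd ℂ) (χ t) * χ t' =
      if t = t' then (q.totient : ℂ) else 0 := fun t ht t' ht' => by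
    rw [mem_filter, mem_range] at ht ht'
    have hu := (ZMod.isUnit_iff_coprime t q).2 ht.2
    have := DirichletCharacter.sum_char_inv_mul_char_eq ℂ hu (t' : ZMod q)
    simp only [ZMod.natCast_eq_natCast_iff', Nat.mod_eq_of_lt ht.1, Nat.mod_eq_of_lt ht'.1] at this
    rw [← this]
    refine sum_congr rfl fun χ _ => ?_
    congr 1
    rw [← Complex.inv_eq_conj (by simpa only [IsUnit.unit_spec] using χ.unit_norm_eq_one hu.unit)]
    exact inv_eq_of_mul_eq_one_right (by rw [← map_mul, ZMod.mul_inv_of_unit _ hu, map_one])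
  have : ((∑ χ : DirichletCharacter ℂ q, ‖∑ t ∈ U, χ t * E t‖ ^ 2 : ℝ) : ℂ) =
      ∑ t ∈ U, ∑ t' ∈ U, E t' * (starRingEnd ℂ) (E t) *
        ∑ χ : DirichletCharacter ℂ q, (starRingEnd ℂ) (χ t) * χ t' := by
    push_cast
    simp only [← Complex.conj_mul', map_sum, map_mul, sum_mul_sum]
    simp only [mul_sum]
    rw [sum_comm]
    refine sum_congr rfl fun i _ => ?_
    rw [sum_comm]
    exact sum_congr rfl fun j _ => sum_congr rfl fun x _ => by ring
  refine Complex.ofReal_injective (this.trans ?_)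
  rw [sum_congr rfl fun i hi => sum_congr rfl fun j hj => by rw [key i hi j hj]]
  push_cast
  simp only [mul_ite, mul_zero, sum_ite_eq, ← Complex.mul_conj', mul_sum]
  exact sum_congr rfl fun i hi => by rw [if_pos hi, mul_comm]

open scoped Classical in
theorem lsieve_one {q : ℕ} (hq : 0 < q) (N : ℕ) (a : ℕ → ℂ) :
    ∑ χ ∈ univ.filter (fun χ : DirichletCharacter ℂ q => χ.IsPrimitive),
      ‖∑ m ∈ range N, a m * χ m‖ ^ 2 ≤ ∑ t ∈ (range q).filter (fun t => t.Coprime q),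
        ‖∑ n ∈ range N, a n * ee q ^ (n * t)‖ ^ 2 := by
  have : NeZero q := ⟨hq.ne'⟩
  have hq' : (0 : ℝ) < q := by exact_mod_cast hq
  refine le_of_mul_le_mul_left ?_ hq'
  have h := lsieve_orth (q := q) fun t => ∑ n ∈ range N, a n * ee q ^ (n * t)
  rw [← Equiv.sum_comp (Equiv.inv _)] at h
  refine le_trans ?_ (mul_le_mul_of_nonneg_right (Nat.cast_le.2 (Nat.totient_le q)) (by positivity))
  rw [← h, mul_sum]
  refine (sum_le_sum fun χ hχ => le_of_eq ?_).trans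
    (sum_le_sum_of_subset_of_nonneg (filter_subset _ _) fun _ _ _ => by positivity)
  have hp := (mem_filter.1 hχ).2
  rw [← lsieve_gauss_norm hp, ← mul_pow, ← norm_mul, mul_sum]
  simp only [Equiv.inv_apply, mul_sum]
  rw [sum_comm]
  congr 2
  refine sum_congr rfl fun m _ => ?_
  rw [mul_comm, mul_assoc, lsieve_gauss hp, mul_sum]
  exact sum_congr rfl fun t _ => by rw [mul_comm t m]; ring

end

theorem mult_large_sieve : ∃ C : ℝ, 0 < C ∧ ∀ (Q N : ℕ) (T S : Finset ℕ) (a : ℕ → ℂ),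
    T ⊆ Icc 1 Q → S ⊆ range N →
      ∑ i ∈ Xf T, ‖∑ m ∈ S, a m * i.2 m‖ ^ 2 ≤ C * (N + (Q : ℝ) ^ 2) * ∑ m ∈ S, ‖a m‖ ^ 2 := by
  refine ⟨82, by norm_num, fun Q N T S a hT hS => ?_⟩
  rcases Nat.eq_zero_or_pos Q with rfl | hQ
  · obtain rfl : T = ∅ := by simpa using hT
    rw [Xf, sum_sigma, sum_empty]
    positivity
  have h := lsieve_add hQ hT N fun n => if n ∈ S then a n else 0
  have e : ∀ {E : Type} [AddCommMonoid E] (F : ℕ → E),
      ∑ n ∈ range N, (if n ∈ S then F n else 0) = ∑ n ∈ S, F n := fun F => by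
    rw [sum_ite_mem, inter_eq_right.2 hS]
  simp only [apply_ite norm, norm_zero, ite_pow, ne_eq, OfNat.ofNat_ne_zero, not_false_eq_true,
    zero_pow, e] at h
  refine le_trans ?_ h
  rw [Xf, sum_sigma]
  refine sum_le_sum fun q hq => le_trans (le_of_eq ?_)
    (lsieve_one (mem_Icc.1 (hT hq)).1 N fun n => if n ∈ S then a n else 0)
  simp only [ite_mul, zero_mul, e]

theorem card_Xf_le {Q : ℕ} {T : Finset ℕ} (hT : T ⊆ Icc 1 Q) : #(Xf T) ≤ Q ^ 2 := by
  rw [Xf, card_sigma]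
  refine (sum_le_card_nsmul _ _ Q fun q hq => ?_).trans ?_
  · obtain ⟨h1, h2⟩ := mem_Icc.1 (hT hq)
    have : NeZero q := ⟨by omega⟩
    refine (card_le_univ _).trans ?_
    rw [← Nat.card_eq_fintype_card,
      DirichletCharacter.card_eq_totient_of_hasEnoughRootsOfUnity]
    exact (Nat.totient_le q).trans h2
  · rw [smul_eq_mul, sq]
    exact Nat.mul_le_mul_right _ ((card_le_card hT).trans (by simp only [Nat.card_Icc, add_tsub_cancel_right, Std.le_refl]))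

end Pool.Agent.MP_48b1c3_nt.H91

end

-- part MP_48b1c3_nt.H48.QX
section

namespace Pool.Agent.MP_48b1c3_nt.H48

open Finset NumberField H54 H91 Filter
open scoped Classical BigOperators Topology

variable {K : Type} [Field K] [NumberField K]

theorem qq_congr {p : ℕ} {m m' : ℤ} (h : (p : ℤ) ∣ m - m') : qq p m = qq p m' := by
  have h1 : (p : ℤ) ∣ m - 1 ↔ (p : ℤ) ∣ m' - 1 := by
    rw [show m - 1 = m - m' + (m' - 1) by ring, dvd_add_right h]
  have h2 : (p : ℤ) ∣ m ↔ (p : ℤ) ∣ m' := by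
    conv_lhs => rw [show m = m - m' + m' by ring, dvd_add_right h]
  simp only [qq, h1, h2]

theorem norm_qq_le {p : ℕ} (hp : p.Prime) (m : ℤ) : ‖qq p m‖ ≤ p - 1 := by
  have h2 : (2 : ℝ) ≤ p := by exact_mod_cast hp.two_le
  unfold qq
  split_ifs
  · rw [show (p : ℂ) - 2 = ((p - 2 : ℝ) : ℂ) by push_cast; rfl, Complex.norm_real,
      Real.norm_of_nonneg (by linarith)]
    linarith
  · rw [norm_zero]; linarith
  · rw [norm_neg, norm_one]; linarith

theorem norm_Qf_le {f : Finset ℕ} (hf : ∀ p ∈ f, p.Prime) (m : ℤ) : ‖Qf f m‖ ≤ pe f := by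
  rw [Qf, norm_prod, pe]
  exact prod_le_prod (fun _ _ => norm_nonneg _) fun p hp =>
    (norm_qq_le (hf p hp) m).trans (sub_le_self _ zero_le_one)

theorem qxa_add_one {p : ℕ} {m : ℤ} (h : ¬ (p : ℤ) ∣ m) :
    qq p m + 1 = if (p : ℤ) ∣ m - 1 then (p : ℂ) - 1 else 0 := by
  unfold qq
  split_ifs <;> ring

theorem ind_eq {p n : ℕ} (hp : p.Prime) (hn : ¬ p ∣ n) (h0 : 0 < n) :
    (if p ∣ n - 1 then (1 : ℂ) else 0) = gg p * (qq p n + 1) := by
  have h1 : (p : ℂ) - 1 ≠ 0 := sub_ne_zero.2 (by exact_mod_cast hp.ne_one)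
  have h2 : p ∣ n - 1 ↔ (p : ℤ) ∣ (n : ℤ) - 1 := by
    rw [← Int.natCast_dvd_natCast, Nat.cast_sub h0, Nat.cast_one]
  rw [qxa_add_one (Int.natCast_dvd_natCast.not.2 hn), gg]
  simp only [← h2]
  split_ifs
  · push_cast
    field_simp
  · rw [mul_zero]

theorem qxa_all {q : ℕ} [NeZero q] {m : ℤ} (h : IsCoprime m q) :
    ∑ χ : DirichletCharacter ℂ q, χ m = ∑ i ∈ Xf q.divisors, i.2 m := by
  refine (sum_bij (fun i hi => DirichletCharacter.changeLevel
    (Nat.dvd_of_mem_divisors (mem_Xf.1 hi).1) i.2) (fun _ _ => mem_univ _) ?_ ?_ ?_).symm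
  · rintro ⟨d, χ⟩ h1 ⟨d', χ'⟩ h2 e
    have c := congrArg DirichletCharacter.conductor e
    rw [DirichletCharacter.conductor_changeLevel, DirichletCharacter.conductor_changeLevel,
      (mem_Xf.1 h1).2, (mem_Xf.1 h2).2] at c
    obtain rfl : d = d' := c
    exact congrArg _ (DirichletCharacter.changeLevel_injective _ e)
  · exact fun χ _ => ⟨⟨χ.conductor, χ.primitiveCharacter⟩, mem_Xf.2 ⟨Nat.mem_divisors.2
      ⟨χ.conductor_dvd_level, NeZero.ne q⟩, χ.primitiveCharacter_isPrimitive⟩,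
      χ.changeLevel_primitiveCharacter⟩
  · exact fun i _ => (i.2.changeLevel_eq_cast_of_dvd' _ h).symm

theorem qxa_tot {f : Finset ℕ} (hf : ∀ p ∈ f, p.Prime) :
    ((∏ p ∈ f, p).totient : ℂ) = ∏ p ∈ f, ((p : ℂ) - 1) := by
  induction f using Finset.induction_on with
  | empty => simp
  | insert p f hp ih =>
    have pp := hf p (mem_insert_self _ _)
    have hf' := fun q hq => hf q (mem_insert_of_mem hq)
    rw [prod_insert hp, prod_insert hp, Nat.totient_mul (Nat.Coprime.prod_right fun q hq =>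
      (Nat.coprime_primes pp (hf' q hq)).2 fun e => hp (e ▸ hq)), Nat.cast_mul, ih hf',
      Nat.totient_prime pp, Nat.cast_sub pp.one_le, Nat.cast_one]

theorem qxa_pow {f : Finset ℕ} (hf : ∀ p ∈ f, p.Prime) {m : ℤ} :
    ∑ i ∈ Xf (∏ p ∈ f, p).divisors, i.2 m =
      ∑ g ∈ f.powerset, ∑ i ∈ Xf {∏ p ∈ g, p}, i.2 m := by
  have h0 : ∏ p ∈ f, p ≠ 0 := prod_ne_zero_iff.2 fun p hp => (hf p hp).ne_zero
  have sq : Squarefree (∏ p ∈ f, p) := Finset.squarefree_prod_of_pairwise_isCoprime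
    (fun p hp q hq ne => Nat.coprime_iff_isRelPrime.1 ((Nat.coprime_primes (hf p hp) (hf q hq)).2 ne))
    fun p hp => (hf p hp).squarefree
  simp only [Xf, sum_sigma, sum_singleton]
  refine (sum_nbij' (fun g => ∏ p ∈ g, p) Nat.primeFactors (fun g hg => ?_) (fun d hd => ?_)
    (fun g hg => ?_) (fun d hd => ?_) fun _ _ => rfl).symm
  · exact Nat.mem_divisors.2 ⟨prod_dvd_prod_of_subset _ _ _ (mem_powerset.1 hg), h0⟩
  · rw [mem_powerset, ← Nat.primeFactors_prod hf]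
    exact Nat.primeFactors_mono (Nat.dvd_of_mem_divisors hd) h0
  · exact Nat.primeFactors_prod fun p hp => hf p (mem_powerset.1 hg hp)
  · exact Nat.prod_primeFactors_of_squarefree (sq.squarefree_of_dvd (Nat.dvd_of_mem_divisors hd))

theorem Qf_eq {f : Finset ℕ} (hf : ∀ p ∈ f, p.Prime) (m : ℤ) :
    Qf f m = ∑ i ∈ Xf {∏ p ∈ f, p}, i.2 m := by
  by_cases h : ∀ p ∈ f, ¬ (p : ℤ) ∣ m
  swap
  · push Not at h
    obtain ⟨p, hp, h⟩ := h
    have pp := Nat.prime_iff_prime_int.1 (hf p hp)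
    have h1 : ¬ (p : ℤ) ∣ m - 1 := fun e => pp.not_dvd_one (by simpa only [sub_sub_cancel] using dvd_sub h e)
    rw [Qf, prod_eq_zero hp (by rw [qq, if_neg h1, if_pos h])]
    refine (sum_eq_zero fun i hi => MulChar.map_nonunit _ fun e => ?_).symm
    have h2 : (p : ℤ) ∣ i.1 := by
      rw [mem_singleton.1 (mem_Xf.1 hi).1]
      exact Int.natCast_dvd_natCast.2 (dvd_prod_of_mem _ hp)
    exact pp.not_isUnit (((ZMod.coe_int_isUnit_iff_isCoprime _ _).1 e).isUnit_of_dvd' h2 h)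
  induction f using Finset.strongInduction with
  | H f ih =>
    have h0 : ∏ p ∈ f, p ≠ 0 := prod_ne_zero_iff.2 fun p hp => (hf p hp).ne_zero
    have : NeZero (∏ p ∈ f, p) := ⟨h0⟩
    have cop : IsCoprime m ((∏ p ∈ f, p : ℕ) : ℤ) := by
      rw [Nat.cast_prod]
      exact IsCoprime.prod_right fun p hp =>
        ((Nat.prime_iff_prime_int.1 (hf p hp)).irreducible.coprime_iff_not_dvd.2 (h p hp)).symm
    have e1 : ∑ g ∈ f.powerset, Qf g m = ∑ g ∈ f.powerset, ∑ i ∈ Xf {∏ p ∈ g, p}, i.2 m := by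
      rw [← qxa_pow hf, ← qxa_all cop, DirichletCharacter.sum_characters_eq, qxa_tot hf]
      unfold Qf
      rw [← prod_add_one, prod_congr rfl fun p hp => qxa_add_one (h p hp), prod_ite_zero]
      refine if_congr ?_ rfl rfl
      rw [← Int.cast_one (R := ZMod _), eq_comm, ZMod.intCast_eq_intCast_iff_dvd_sub, Nat.cast_prod]
      exact ⟨fun e => Finset.prod_dvd_of_coprime (fun p hp q hq ne => Nat.isCoprime_iff_coprime.2
        ((Nat.coprime_primes (hf p hp) (hf q hq)).2 ne)) e,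
        fun e p hp => (dvd_prod_of_mem (fun p : ℕ => (p : ℤ)) hp).trans e⟩
    rw [← add_sum_erase _ _ (mem_powerset_self f), ← add_sum_erase _ _ (mem_powerset_self f),
      sum_congr rfl fun g hg => ?_] at e1
    · exact add_right_cancel e1
    · have hg' := mem_powerset.1 (mem_erase.1 hg).2
      exact ih g (hg'.ssubset_of_ne (mem_erase.1 hg).1) (fun p hp => hf p (hg' hp))
        fun p hp => h p (hg' hp)

theorem card_Xf_single {q : ℕ} (hq : 0 < q) : #(Xf {q}) ≤ q := by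
  have : NeZero q := ⟨hq.ne'⟩
  rw [Xf, card_sigma, sum_singleton]
  refine (card_le_univ _).trans ?_
  rw [← Nat.card_eq_fintype_card, DirichletCharacter.card_eq_totient_of_hasEnoughRootsOfUnity]
  exact Nat.totient_le q

theorem ge_nn {f : Finset ℕ} (hf : ∀ p ∈ f, p.Prime) : 0 ≤ ge f :=
  prod_nonneg fun p hp => one_div_nonneg.2 (sub_nonneg.2 (by exact_mod_cast (hf p hp).one_le))

theorem wf_nonneg {f : Finset ℕ} (hf : ∀ p ∈ f, p.Prime) : 0 ≤ wf f :=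
  mul_nonneg (by positivity) (ge_nn hf)

theorem pe_ge_one {f : Finset ℕ} (hf : ∀ p ∈ f, p.Prime) : 1 ≤ pe f :=
  one_le_prod fun p hp => by exact_mod_cast (hf p hp).one_le

theorem qxb_pe (f : Finset ℕ) : pe f = ((∏ p ∈ f, p : ℕ) : ℝ) := by simp [pe]

theorem qxb_pos {f : Finset ℕ} (hf : ∀ p ∈ f, p.Prime) : 0 < ∏ p ∈ f, p :=
  prod_pos fun p hp => (hf p hp).pos

theorem qxb_wf {f : Finset ℕ} (hf : ∀ p ∈ f, p.Prime) :
    wf f = ((65 : ℕ) : ℝ) ^ #(∏ p ∈ f, p).primeFactors / (∏ p ∈ f, p).totient := by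
  have h := Nat.totient_mul_prod_primeFactors (∏ p ∈ f, p)
  rw [Nat.primeFactors_prod hf, mul_comm] at h
  rw [Nat.primeFactors_prod hf, Nat.eq_of_mul_eq_mul_left (qxb_pos hf) h, wf, ge, Nat.cast_prod,
    div_eq_mul_inv, ← prod_inv_distrib]
  congr 1
  exact prod_congr rfl fun p hp => by rw [gg, one_div, Nat.cast_pred (hf p hp).pos]

theorem wf_le : ∃ C : ℝ, 0 < C ∧ ∀ f : Finset ℕ, (∀ p ∈ f, p.Prime) → wf f ≤ C / √(pe f) := by
  obtain ⟨C, hC, h⟩ := omega_totient_le 65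
  exact ⟨C, hC, fun f hf => by rw [qxb_wf hf, qxb_pe]; exact h _ (qxb_pos hf)⟩

theorem qxb_sum {F : Finset (Finset ℕ)} {R : ℝ} (hF : ∀ f ∈ F, (∀ p ∈ f, p.Prime) ∧ pe f ≤ R)
    {g : ℕ → ℝ} (hg : ∀ m, 0 ≤ g m) :
    ∑ f ∈ F, g (∏ p ∈ f, p) ≤ ∑ m ∈ Icc 1 ⌊R⌋₊, g m := by
  rw [← sum_image (g := fun f : Finset ℕ => ∏ p ∈ f, p) fun f hf f' hf' h => by
    rw [← Nat.primeFactors_prod (hF f hf).1, ← Nat.primeFactors_prod (hF f' hf').1]
    exact congrArg _ h]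
  refine sum_le_sum_of_subset_of_nonneg (fun m hm => ?_) fun m _ _ => hg m
  obtain ⟨f, hf, rfl⟩ := mem_image.1 hm
  exact mem_Icc.2 ⟨qxb_pos (hF f hf).1, Nat.le_floor (qxb_pe f ▸ (hF f hf).2)⟩

theorem card_fam {F : Finset (Finset ℕ)} {R : ℝ} (hR : 0 ≤ R)
    (hF : ∀ f ∈ F, (∀ p ∈ f, p.Prime) ∧ pe f ≤ R) : (#F : ℝ) ≤ R := by
  have h := qxb_sum hF (g := fun _ => 1) fun _ => zero_le_one
  simp only [sum_const, Nat.card_Icc, Nat.add_sub_cancel, nsmul_eq_mul, mul_one] at h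
  exact h.trans (Nat.floor_le hR)

theorem sum_wf : ∃ (C : ℝ) (j : ℕ), 0 < C ∧ ∀ (F : Finset (Finset ℕ)) (R : ℝ), 3 ≤ R →
    (∀ f ∈ F, (∀ p ∈ f, p.Prime) ∧ pe f ≤ R) → ∑ f ∈ F, wf f ≤ C * Real.log R ^ j := by
  obtain ⟨C, j, hC, h⟩ := sum_omega_totient_le 65
  refine ⟨C, j, hC, fun F R hR hF => le_trans ?_ (h R hR)⟩
  rw [sum_congr rfl fun f hf => qxb_wf (hF f hf).1]
  exact qxb_sum hF (g := fun m => ((65 : ℕ) : ℝ) ^ #m.primeFactors / m.totient)
    fun m => by positivity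

theorem sum_wf_pe : ∃ C : ℝ, 0 < C ∧ ∀ (F : Finset (Finset ℕ)) (R : ℝ), 1 ≤ R →
    (∀ f ∈ F, (∀ p ∈ f, p.Prime) ∧ pe f ≤ R) → ∑ f ∈ F, wf f * pe f ≤ C * R ^ 2 := by
  obtain ⟨C, hC, h⟩ := wf_le
  refine ⟨C, hC, fun F R hR hF => ?_⟩
  have h1 : ∀ f ∈ F, wf f * pe f ≤ C * R := fun f hf => by
    have h2 := pe_ge_one (hF f hf).1
    exact mul_le_mul ((h f (hF f hf).1).trans (div_le_self hC.le (Real.one_le_sqrt.2 h2)))
      (hF f hf).2 (by linarith) hC.le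
  refine (sum_le_card_nsmul _ _ _ h1).trans ?_
  rw [nsmul_eq_mul]
  calc _ ≤ R * (C * R) := by gcongr; exact card_fam (by linarith) hF
    _ = _ := by ring

theorem qxb_omega {ε : ℝ} (hε : 0 < ε) : ∃ C : ℝ, 0 < C ∧ ∀ M : ℕ, 0 < M →
    (66 : ℝ) ^ #M.primeFactors ≤ C * (M : ℝ) ^ ε := by
  obtain ⟨s, hs⟩ := exists_nat_one_div_lt hε
  obtain ⟨C, hC⟩ : ∃ C : ℕ, C = (66 ^ (s + 1) + 1) ^ 66 ^ (s + 1) := ⟨_, rfl⟩
  have C1 : (1 : ℝ) ≤ C := by
    rw [hC]; exact_mod_cast Nat.one_le_pow _ _ (Nat.succ_pos _)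
  refine ⟨C, by linarith only [C1], fun M hM => ?_⟩
  have M1 : (1 : ℝ) ≤ M := by exact_mod_cast hM
  have h := bv_pow_omega_le (66 ^ (s + 1)) M hM
  rw [← hC, ← pow_mul, mul_comm (s + 1), pow_mul] at h
  refine le_of_pow_le_pow_left₀ (n := s + 1) s.succ_ne_zero (by positivity) ?_
  calc _ ≤ (C : ℝ) * M := by exact_mod_cast h
    _ ≤ _ := by
      rw [mul_pow, ← Real.rpow_mul_natCast (by positivity)]
      refine mul_le_mul (le_self_pow₀ C1 s.succ_ne_zero) ?_ (by positivity) (by positivity)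
      refine Real.self_le_rpow_of_one_le M1 ?_
      rw [div_lt_iff₀ (by positivity)] at hs
      push_cast
      exact hs.le

theorem qxb_term {f : Finset ℕ} (hf : ∀ p ∈ f, p.Prime) {m u : ℤ}
    (h : ∀ p ∈ f, (p : ℤ) ∣ u - 1 → (p : ℤ) ∣ m) :
    wf f * ‖Qf f u‖ ≤ 65 ^ #(f.filter fun p : ℕ => (p : ℤ) ∣ m) *
      wf (f.filter fun p : ℕ => ¬ (p : ℤ) ∣ m) := by
  have e : ∀ s : Finset ℕ, wf s = ∏ p ∈ s, 65 * gg p := fun s => by
    rw [prod_mul_distrib, prod_const, wf, ge]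
  rw [e, e, Qf, norm_prod, ← prod_mul_distrib, ← prod_const, ← prod_ite]
  have g0 : ∀ p ∈ f, (0 : ℝ) < p - 1 := fun p hp =>
    sub_pos.2 (by exact_mod_cast (hf p hp).one_lt)
  refine prod_le_prod (fun p hp => ?_) fun p hp => ?_
  · have := g0 p hp
    unfold gg; positivity
  · have h0 := g0 p hp
    split_ifs with hm
    · rw [gg, mul_assoc, one_div, inv_mul_eq_div]
      exact mul_le_of_le_one_right (by norm_num) ((div_le_one h0).2 (norm_qq_le (hf p hp) u))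
    · refine mul_le_of_le_one_right (by unfold gg; positivity) ?_
      rw [qq, if_neg fun h' => hm (h p hp h')]
      split_ifs <;> simp

theorem pos_bound {ε : ℝ} (hε : 0 < ε) : ∃ C : ℝ, 0 < C ∧ ∀ (F : Finset (Finset ℕ)) (R : ℝ) (m : ℤ)
    (u : Finset ℕ → ℤ), 1 ≤ R → m ≠ 0 → (∀ f ∈ F, (∀ p ∈ f, p.Prime) ∧ pe f ≤ R) →
    (∀ f ∈ F, ∀ p ∈ f, (p : ℤ) ∣ u f - 1 → (p : ℤ) ∣ m) →
      ∑ f ∈ F, wf f * ‖Qf f (u f)‖ ≤ C * (|(m : ℝ)| * R) ^ ε := by
  obtain ⟨C, hC, h1⟩ := qxb_omega hε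
  obtain ⟨D, j, hD, h2⟩ := sum_wf
  obtain ⟨δ, hδ⟩ : ∃ δ : ℝ, δ = ε / (j + 1) := ⟨_, rfl⟩
  have δ0 : 0 < δ := by rw [hδ]; positivity
  refine ⟨C * (D * (3 ^ ε / δ ^ j)), by positivity, fun F R m u hR hm hF hu => ?_⟩
  set a : Finset ℕ → Finset ℕ := fun f => f.filter fun p : ℕ => (p : ℤ) ∣ m
  set b : Finset ℕ → Finset ℕ := fun f => f.filter fun p : ℕ => ¬ (p : ℤ) ∣ m
  have hb : ∀ f ∈ F.image b, (∀ p ∈ f, p.Prime) ∧ pe f ≤ 3 * R := fun g hg => by
    obtain ⟨f, hf, rfl⟩ := mem_image.1 hg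
    refine ⟨fun p hp => (hF f hf).1 p (mem_filter.1 hp).1, le_trans ?_ ((hF f hf).2.trans
      (by linarith))⟩
    rw [qxb_pe, qxb_pe]
    exact_mod_cast prod_le_prod_of_subset_of_one_le' (filter_subset _ _)
      fun p hp _ => ((hF f hf).1 p hp).one_le
  have h3 : Real.log (3 * R) ^ j ≤ 3 ^ ε / δ ^ j * R ^ ε := by
    calc _ ≤ ((3 * R) ^ δ / δ) ^ j := pow_le_pow_left₀ (Real.log_nonneg (by linarith only [hR]))
          (Real.log_le_rpow_div (by linarith) δ0) j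
      _ ≤ (3 * R) ^ ε / δ ^ j := by
        rw [div_pow, ← Real.rpow_mul_natCast (by linarith)]
        gcongr
        · linarith only [hR]
        · rw [hδ, div_mul_eq_mul_div, div_le_iff₀ (by positivity)]
          linarith only [hε]
      _ = _ := by rw [Real.mul_rpow (by norm_num) (by linarith)]; ring
  calc _ ≤ ∑ f ∈ F, 65 ^ #(a f) * wf (b f) :=
        sum_le_sum fun f hf => qxb_term (hF f hf).1 (hu f hf)
    _ = ∑ x ∈ F.image fun f => (a f, b f), 65 ^ #x.1 * wf x.2 := by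
        rw [sum_image fun f _ f' _ h => by
          rw [← filter_union_filter_not_eq (fun p : ℕ => (p : ℤ) ∣ m) f,
            ← filter_union_filter_not_eq (fun p : ℕ => (p : ℤ) ∣ m) f']
          exact congrArg₂ _ (congrArg Prod.fst h) (congrArg Prod.snd h)]
    _ ≤ ∑ x ∈ m.natAbs.primeFactors.powerset ×ˢ F.image b, 65 ^ #x.1 * wf x.2 := by
        refine sum_le_sum_of_subset_of_nonneg (fun x hx => ?_) fun x hx _ =>
          mul_nonneg (by positivity) (wf_nonneg (hb _ (mem_product.1 hx).2).1)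
        obtain ⟨f, hf, rfl⟩ := mem_image.1 hx
        refine mem_product.2 ⟨mem_powerset.2 fun p hp => ?_, mem_image_of_mem _ hf⟩
        exact Nat.mem_primeFactors.2 ⟨(hF f hf).1 p (mem_filter.1 hp).1,
          Int.natCast_dvd.1 (mem_filter.1 hp).2, Int.natAbs_ne_zero.2 hm⟩
    _ = 66 ^ #m.natAbs.primeFactors * ∑ f ∈ F.image b, wf f := by
        rw [sum_product, ← sum_mul_sum (f := fun x : Finset ℕ => (65 : ℝ) ^ #x),
          show (66 : ℝ) = 1 + 65 by norm_num, ← prod_const, prod_one_add]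
        simp only [prod_const]
    _ ≤ C * (m.natAbs : ℝ) ^ ε * (D * (3 ^ ε / δ ^ j * R ^ ε)) :=
        mul_le_mul (h1 _ (Int.natAbs_pos.2 hm)) ((h2 _ _ (by linarith only [hR]) hb).trans (by gcongr))
          (sum_nonneg fun f hf => wf_nonneg (hb f hf).1) (by positivity)
    _ = _ := by
        rw [Real.mul_rpow (abs_nonneg _) (by linarith only [hR]), Nat.cast_natAbs, Int.cast_abs]; ring

theorem greedy1 {f : Finset ℕ} {a b : ℝ} (hb : 1 ≤ b) (hf : ∀ p ∈ f, 1 ≤ p ∧ (p : ℝ) ≤ a)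
    (h : b < pe f) : ∃ f₀ ⊆ f, b < pe f₀ ∧ pe f₀ ≤ a * b := by
  induction f using Finset.induction_on with
  | empty => exact absurd h (by simpa only [pe, prod_empty, not_lt] using hb)
  | insert p s hp ih =>
    by_cases hs : b < pe s
    · obtain ⟨f₀, h0, h1⟩ := ih (fun q hq => hf q (mem_insert_of_mem hq)) hs
      exact ⟨f₀, h0.trans (subset_insert _ _), h1⟩
    · refine ⟨_, Subset.rfl, h, ?_⟩
      have := (hf p (mem_insert_self _ _)).2
      rw [pe, prod_insert hp]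
      exact mul_le_mul this (not_lt.1 hs) (by positivity) ((Nat.cast_nonneg p).trans this)

theorem greedy2 {a b : ℝ} (ha : 1 ≤ a) (hb : 1 ≤ b) (J : ℕ) {f : Finset ℕ}
    (hf : ∀ p ∈ f, 2 ≤ p ∧ (p : ℝ) ≤ a) (h : pe f ≤ b ^ J) : ∃ D : Fin J → Finset ℕ,
      (∀ j, D j ⊆ f ∧ pe (D j) ≤ a * b) ∧ ∀ F : ℕ → ℂ, ∏ p ∈ f, F p = ∏ j, ∏ p ∈ D j, F p := by
  induction J generalizing f with
  | zero =>
    obtain rfl : f = ∅ := eq_empty_of_forall_notMem fun p hp => by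
      rw [qxb_pe, pow_zero, Nat.cast_le_one] at h
      have := single_le_prod' (f := fun p : ℕ => p) (fun q hq => by have := (hf q hq).1; omega) hp
      have := (hf p hp).1
      omega
    exact ⟨Fin.elim0, fun j => j.elim0, fun F => by simp⟩
  | succ J ih =>
    obtain ⟨f₀, h0, h1, h2⟩ : ∃ f₀ ⊆ f, pe f₀ ≤ a * b ∧ pe (f \ f₀) ≤ b ^ J := by
      by_cases hs : b < pe f
      · obtain ⟨f₀, h0, h1, h2⟩ := greedy1 hb (fun p hp => ⟨by have := (hf p hp).1; omega,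
          (hf p hp).2⟩) hs
        refine ⟨f₀, h0, h2, le_of_mul_le_mul_right ?_ (by linarith : 0 < b)⟩
        rw [← pow_succ]
        refine le_trans ?_ h
        rw [pe, pe, ← prod_sdiff h0]
        exact mul_le_mul_of_nonneg_left h1.le (by positivity)
      · exact ⟨f, Subset.rfl, by nlinarith only [ha, hb, hs], by simpa only [pe, sdiff_self, bot_eq_empty, prod_empty] using one_le_pow₀ hb⟩
    obtain ⟨D, hD, hF⟩ := ih (fun p hp => hf p (mem_sdiff.1 hp).1) h2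
    refine ⟨Fin.cons f₀ D, Fin.forall_fin_succ.2 ⟨⟨h0, h1⟩, fun j =>
      ⟨(hD j).1.trans sdiff_subset, (hD j).2⟩⟩, fun F => ?_⟩
    rw [Fin.prod_univ_succ, ← prod_sdiff h0, hF, mul_comm]
    rfl

end Pool.Agent.MP_48b1c3_nt.H48

end
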