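import Pool.Agent.MP_48b1c3_nt.Mg.H91_TypeI
import Pool.Agent.MP_48b1c3_nt.Mg.H91_Geo
import Pool.Agent.MP_48b1c3_nt.H91.Norm
import Pool.Agent.MP_48b1c3_nt.H54.LogDer

attribute [-instance] IdemSemiring.toCanonicallyOrderedAdd AddQuantale.instAddLeftMono
  IdemSemiring.toMulLeftMono IsOrderedMonoid.toMulLeftMono RKHS.instFunLike Quantale.instMulLeftMono
  AddQuantale.instAddRightMono
  TopologicalSpace.instSecondCountableTopologyOfLindelofSpaceOfPseudoMetrizableSpace
  covariant_swap_mul_of_covariant_mul Quantale.instMulRightMono CanonicallyOrderedAdd.toMulLeftMono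
  NonarchimedeanRing.toIsTopologicalRing Group.IsPerfect.subsingleton_of_isMulCommutative
  AlgHom.instNonUnitalAlgHomClassOfAlgHomClass AlgHomClass.toRingHomClass instCoeTOfCoeDep
  littleWedderburn Valued.toUniformSpace IsTopologicalTorsor.toContinuousSMul
  ProperSMul.toContinuousSMul instNonUnitalAlgHomClassOfNonUnitalAlgEquivClass
  PseudoEpimorphismClass.toTopHomClass Valued.isTopologicalDivisionRing NeZero.of_gt'
  TestFunctionClass.toDFunLike MonTypeEquivalenceMon.monMonoid CanonicallyOrderedMul.toMulLeftMono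
  TotallySeparatedSpace.t2Space OrderTop.toTop ContDiffMapSupportedInClass.toDFunLike
  NonarchimedeanAddGroup.toIsTopologicalAddGroup
  CategoryTheory.Limits.Concrete.instUniqueToTypeTerminal continuousSub_of_discreteTopology
  CStarAlgebra.instOrderClosedTopology Invertible.toNeZero PolishSpace.toSecondCountableTopology
  CanonicallyOrderedCommMonoid.toUniqueAddUnits

-- part MP_48b1c3_nt.H91.Cont
section

/-! Analytic continuation of the L-functions and upper bounds. -/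

namespace Pool.Agent.MP_48b1c3_nt.H91

open Finset NumberField H54 Filter
open scoped ContDiff Topology

variable {K : Type} [Field K] [NumberField K]

theorem pf_one : PF 1 fun _ : Ideal (𝓞 K) => (1 : ℂ) :=
  ⟨one_pos, fun _ => by simp, fun _ _ _ _ _ _ _ _ _ => rfl⟩

/-- a smooth step -/
noncomputable def cont_st (u : ℝ) : ℂ := (Real.smoothTransition u : ℂ)

theorem cont_st_smooth : ContDiff ℝ ∞ cont_st :=
  Complex.ofRealCLM.contDiff.comp Real.smoothTransition.contDiff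

theorem cont_st_cont : Continuous cont_st := cont_st_smooth.continuous

theorem cont_st_zero {u : ℝ} (h : u ≤ 0) : cont_st u = 0 := by
  rw [cont_st, Real.smoothTransition.zero_of_nonpos h, Complex.ofReal_zero]

theorem cont_st_one {u : ℝ} (h : 1 ≤ u) : cont_st u = 1 := by
  rw [cont_st, Real.smoothTransition.one_of_one_le h, Complex.ofReal_one]

theorem cont_st_sub (u u' : ℝ) : ‖cont_st u - cont_st u'‖ ≤ 1 := by
  rw [cont_st, cont_st, ← Complex.ofReal_sub, Complex.norm_real, Real.norm_eq_abs, abs_le]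
  have := Real.smoothTransition.nonneg u
  have := Real.smoothTransition.nonneg u'
  have := Real.smoothTransition.le_one u
  have := Real.smoothTransition.le_one u'
  constructor <;> linarith

/-- the partition of unity -/
noncomputable def cont_v (u : ℝ) : ℂ := cont_st (u + 2) - cont_st (u + 1)

theorem cont_v_zero {u : ℝ} (h : u ≤ -2 ∨ 0 ≤ u) : cont_v u = 0 := by
  rcases h with h | h
  · rw [cont_v, cont_st_zero (by linarith), cont_st_zero (by linarith), sub_self]
  · rw [cont_v, cont_st_one (by linarith), cont_st_one (by linarith), sub_self]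

theorem cont_v_test : Test cont_v := by
  refine ⟨(cont_st_smooth.comp (contDiff_id.add contDiff_const)).sub
    (cont_st_smooth.comp (contDiff_id.add contDiff_const)), fun u hu => cont_v_zero ?_⟩
  rw [Set.mem_Icc, not_and_or, not_le, not_le] at hu
  exact hu.imp (fun h => by linarith) le_of_lt

theorem cont_db {v : ℝ → ℂ} (hv : Test v) (k : ℕ) : ∃ B : ℝ, 0 < B ∧ Db k B v := by
  have h : ∀ j : ℕ, ∃ B : ℝ, ∀ u, ‖iteratedFDeriv ℝ j v u‖ ≤ B := fun j =>
    (hv.1.continuous_iteratedFDeriv (by exact_mod_cast le_top)).bounded_above_of_compact_support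
      (hv.sw_cs.iteratedFDeriv j)
  choose B hB using h
  have h0 : ∀ j, 0 ≤ B j := fun j => (norm_nonneg _).trans (hB j 0)
  refine ⟨∑ j ∈ range (k + 1), B j + 1,
    add_pos_of_nonneg_of_pos (sum_nonneg fun j _ => h0 j) one_pos, fun j hj u => ?_⟩
  rw [← norm_iteratedFDeriv_eq_norm_iteratedDeriv]
  have := single_le_sum (f := B) (fun j _ => h0 j) (mem_range.2 (Nat.lt_succ_of_le hj))
  linarith only [hB j u, this]

theorem cont_exp_deriv (c : ℂ) (i : ℕ) :
    iteratedDeriv i (fun u : ℝ => Complex.exp (c * u)) =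
      fun u : ℝ => c ^ i * Complex.exp (c * u) := by
  induction i with
  | zero => simp
  | succ i ih =>
    rw [iteratedDeriv_succ, ih]
    funext u
    have h : HasDerivAt (fun u : ℝ => c ^ i * Complex.exp (c * u))
        (c ^ i * (Complex.exp (c * u) * (c * 1))) u :=
      (((hasDerivAt_id (u : ℂ)).const_mul c).cexp.const_mul _).comp_ofReal
    rw [h.deriv]
    ring

theorem cont_exp_smooth (c : ℂ) : ContDiff ℝ ∞ fun u : ℝ => Complex.exp (c * u) :=
  (Complex.contDiff_exp (𝕜 := ℝ)).comp (contDiff_const.mul Complex.ofRealCLM.contDiff)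

/-- the twisted test function -/
noncomputable def cont_vs (s : ℂ) (u : ℝ) : ℂ := Complex.exp (-s * u) * cont_v u

theorem cont_vs_test (s : ℂ) : Test (cont_vs s) := cont_v_test.mul (cont_exp_smooth (-s))

theorem cont_vs_db (k : ℕ) : ∃ B : ℝ, 0 < B ∧ ∀ s : ℂ,
    Db k (B * (1 + ‖s‖) ^ k * Real.exp (4 * |s.re|)) (cont_vs s) := by
  obtain ⟨B, hB, hv⟩ := cont_db cont_v_test k
  refine ⟨B, hB, fun s j hj u => ?_⟩
  rw [← norm_iteratedFDeriv_eq_norm_iteratedDeriv]
  refine (norm_iteratedFDeriv_mul_le (cont_exp_smooth (-s)) cont_v_test.1 u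
    (by exact_mod_cast le_top)).trans ?_
  have h : ∀ i ∈ range (j + 1), (j.choose i : ℝ) *
      ‖iteratedFDeriv ℝ i (fun u : ℝ => Complex.exp (-s * u)) u‖ *
        ‖iteratedFDeriv ℝ (j - i) cont_v u‖ ≤
      B * Real.exp (4 * |s.re|) * (‖s‖ ^ i * 1 ^ (j - i) * j.choose i) := by
    intro i _
    by_cases hu : u ∈ Set.Icc (-4 : ℝ) 0
    · rw [norm_iteratedFDeriv_eq_norm_iteratedDeriv, norm_iteratedFDeriv_eq_norm_iteratedDeriv,
        cont_exp_deriv, norm_mul, norm_pow, norm_neg, Complex.norm_exp]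
      have h1 := hv (j - i) (by omega) u
      have h2 : Real.exp (-s * u).re ≤ Real.exp (4 * |s.re|) := by
        refine Real.exp_le_exp.2 ?_
        simp only [neg_mul, Complex.neg_re, Complex.mul_re, Complex.ofReal_re, Complex.ofReal_im,
          mul_zero, sub_zero]
        nlinarith only [le_abs_self s.re, abs_nonneg s.re, hu.1, hu.2]
      calc _ ≤ (j.choose i : ℝ) * (‖s‖ ^ i * Real.exp (4 * |s.re|)) * B := by gcongr
        _ = _ := by ring
    · have h0 : iteratedFDeriv ℝ (j - i) cont_v u = 0 := by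
        by_contra hne
        exact hu (closure_minimal (s := Function.support cont_v)
          (fun x hx => by_contra fun h => hx (cont_v_test.2 x h))
          isClosed_Icc (support_iteratedFDeriv_subset (j - i) hne))
      rw [h0, norm_zero, mul_zero]
      positivity
  refine (sum_le_sum h).trans ?_
  rw [← mul_sum, ← add_pow, add_comm ‖s‖]
  calc _ ≤ B * Real.exp (4 * |s.re|) * (1 + ‖s‖) ^ k := by
        gcongr
        linarith only [norm_nonneg s]
    _ = _ := by ring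

theorem cont_diff_int {g : ℝ → ℂ} (hg : Continuous g) :
    Differentiable ℂ fun s : ℂ => ∫ u in (-2 : ℝ)..0, g u * Complex.exp ((1 - s) * u) := by
  intro s₀
  refine (intervalIntegral.hasDerivAt_integral_of_dominated_loc_of_deriv_le
    (F := fun (s : ℂ) (u : ℝ) => g u * Complex.exp ((1 - s) * u))
    (F' := fun (s : ℂ) (u : ℝ) => g u * (Complex.exp ((1 - s) * u) * (-1 * u)))
    (bound := fun u => ‖g u‖ * (Real.exp (2 * (‖s₀‖ + 2)) * 2))
    (Metric.ball_mem_nhds s₀ one_pos) (Eventually.of_forall fun s => ?_) ?_ ?_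
    (Eventually.of_forall fun u hu s hs => ?_) ?_
    (Eventually.of_forall fun u _ s _ => ?_)).2.differentiableAt
  · exact Continuous.aestronglyMeasurable (by fun_prop)
  · exact Continuous.intervalIntegrable (by fun_prop) _ _
  · exact Continuous.aestronglyMeasurable (by fun_prop)
  · rw [Set.uIoc_of_le (by norm_num)] at hu
    have h1 : ‖(u : ℂ)‖ ≤ 2 := by
      rw [Complex.norm_real, Real.norm_eq_abs, abs_le]
      constructor <;> linarith [hu.1, hu.2]
    have h2 : ‖1 - s‖ ≤ ‖s₀‖ + 2 := by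
      have a := norm_sub_le (1 : ℂ) s
      have b := norm_sub_norm_le s s₀
      rw [Metric.mem_ball, dist_eq_norm] at hs
      rw [norm_one] at a
      linarith
    have h3 : ‖Complex.exp ((1 - s) * u)‖ ≤ Real.exp (2 * (‖s₀‖ + 2)) := by
      refine (Complex.norm_exp_le_exp_norm _).trans (Real.exp_le_exp.2 ?_)
      rw [norm_mul, mul_comm]
      gcongr
    rw [norm_mul, norm_mul, norm_mul, norm_neg, norm_one, one_mul]
    gcongr
  · exact Continuous.intervalIntegrable (by fun_prop) _ _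
  · exact (((hasDerivAt_id s).const_sub 1).mul_const (u : ℂ)).cexp.const_mul _

/-- the entire part of the main term -/
noncomputable def cont_A (s : ℂ) : ℂ :=
  ∫ u in (-2 : ℝ)..0, cont_st (u + 2) * Complex.exp ((1 - s) * u)

/-- the transform of the test function -/
noncomputable def cont_I (s : ℂ) : ℂ := ∫ u : ℝ, cont_vs s u * Real.exp u

theorem cont_I_eq (s : ℂ) :
    cont_I s = ∫ u in (-2 : ℝ)..0, cont_v u * Complex.exp ((1 - s) * u) := by
  rw [intervalIntegral.integral_eq_integral_of_support_subset]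
  · refine MeasureTheory.integral_congr_ae (Eventually.of_forall fun u => ?_)
    simp only [cont_vs, Complex.ofReal_exp]
    rw [mul_right_comm, ← Complex.exp_add, mul_comm]
    congr 2
    ring
  · intro u hu
    by_contra h
    rw [Set.mem_Ioc, not_and_or, not_lt, not_le] at h
    exact hu (by simp only [cont_v_zero (h.imp id le_of_lt), zero_mul])

theorem cont_I_diff : Differentiable ℂ cont_I := by
  rw [funext cont_I_eq]
  exact cont_diff_int cont_v_test.1.continuous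

theorem cont_A_diff : Differentiable ℂ cont_A :=
  cont_diff_int (cont_st_cont.comp (continuous_id.add continuous_const))

theorem cont_I_A {s : ℂ} (hs : s ≠ 1) :
    cont_I s = (1 - Complex.exp (1 - s)) * (cont_A s + 1 / (s - 1)) := by
  have hw : 1 - s ≠ 0 := sub_ne_zero.2 hs.symm
  have hw' : s - 1 ≠ 0 := sub_ne_zero.2 hs
  have hc := cont_st_cont
  have i1 : ∀ a b c : ℝ, IntervalIntegrable
      (fun u : ℝ => cont_st (u + c) * Complex.exp ((1 - s) * u)) MeasureTheory.volume a b :=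
    fun a b c => Continuous.intervalIntegrable (by fun_prop) _ _
  have e1 : cont_A s = (∫ u in (-2 : ℝ)..(-1), cont_st (u + 2) * Complex.exp ((1 - s) * u)) +
      (1 - Complex.exp (-(1 - s))) / (1 - s) := by
    rw [cont_A, ← intervalIntegral.integral_add_adjacent_intervals (i1 _ (-1) 2) (i1 _ _ 2)]
    congr 1
    rw [intervalIntegral.integral_congr (g := fun u : ℝ => Complex.exp ((1 - s) * u)),
      integral_exp_mul_complex hw]
    · simp
    · intro u hu
      rw [Set.uIcc_of_le (by norm_num)] at hu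
      simp only [cont_st_one (show 1 ≤ u + 2 by linarith [hu.1]), one_mul]
  have e2 : (∫ u in (-2 : ℝ)..0, cont_st (u + 1) * Complex.exp ((1 - s) * u)) =
      Complex.exp (1 - s) *
        ∫ u in (-2 : ℝ)..(-1), cont_st (u + 2) * Complex.exp ((1 - s) * u) := by
    rw [← intervalIntegral.integral_add_adjacent_intervals (i1 _ (-1) 1) (i1 _ _ 1),
      intervalIntegral.integral_congr (g := fun _ => (0 : ℂ)), intervalIntegral.integral_zero,
      zero_add, ← intervalIntegral.integral_const_mul]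
    · have := intervalIntegral.integral_comp_add_right (a := -2) (b := -1)
        (fun u : ℝ => cont_st (u + 1) * Complex.exp ((1 - s) * u)) 1
      rw [show (-2 : ℝ) + 1 = -1 by norm_num, show (-1 : ℝ) + 1 = 0 by norm_num] at this
      rw [← this]
      refine intervalIntegral.integral_congr fun u _ => ?_
      rw [show u + 1 + 1 = u + 2 by ring, mul_left_comm, ← Complex.exp_add]
      congr 2
      push_cast
      ring
    · intro u hu
      rw [Set.uIcc_of_le (by norm_num)] at hu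
      simp only [cont_st_zero (show u + 1 ≤ 0 by linarith [hu.2]), zero_mul]
  rw [cont_I_eq]
  simp only [cont_v, sub_mul (cont_st _)]
  rw [intervalIntegral.integral_sub (i1 _ _ 2) (i1 _ _ 1), e2, ← cont_A, e1, Complex.exp_neg]
  have := Complex.exp_ne_zero (1 - s)
  field_simp
  ring

theorem cont_A_le {s : ℂ} (h0 : 0 ≤ s.re) (h4 : s.re ≤ 4) : ‖cont_A s‖ ≤ Real.exp 6 * 2 := by
  refine (intervalIntegral.norm_integral_le_of_norm_le_const (C := Real.exp 6)
    fun u hu => ?_).trans (by norm_num)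
  rw [Set.uIoc_of_le (by norm_num)] at hu
  have h1 := cont_st_sub (u + 2) 0
  rw [cont_st_zero le_rfl, sub_zero] at h1
  rw [norm_mul, Complex.norm_exp]
  refine (mul_le_of_le_one_left (Real.exp_pos _).le h1).trans (Real.exp_le_exp.2 ?_)
  simp only [Complex.mul_re, Complex.sub_re, Complex.one_re, Complex.ofReal_re, Complex.ofReal_im,
    mul_zero, sub_zero]
  nlinarith only [hu.1, hu.2, h4]

/-- the error terms -/
noncomputable def cont_err (f : Ideal (𝓞 K) → ℂ) (j : ℕ) (s : ℂ) : ℂ :=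
  Complex.exp (-s * j) *
    (sm (push f) (cont_vs s) (Real.exp j) - kap f * (Real.exp j : ℝ) * cont_I s)

/-- the continuation -/
noncomputable def cont_E (f : Ideal (𝓞 K) → ℂ) (s : ℂ) : ℂ :=
  kap f * cont_A s + ∑' j, cont_err f j s

theorem cont_err_diff (f : Ideal (𝓞 K) → ℂ) (j : ℕ) : Differentiable ℂ (cont_err f j) := by
  have := cont_I_diff
  unfold cont_err sm cont_vs
  fun_prop

variable (K) in
theorem cont_err_le (k : ℕ) : ∃ C : ℝ, 0 < C ∧ ∀ (q : ℕ) (f : Ideal (𝓞 K) → ℂ), PF q f →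
    ∀ (s : ℂ) (j : ℕ), ‖cont_err f j s‖ ≤ C * Real.exp (4 * |s.re|) *
      (((1 + ‖s‖) * q) ^ k * Real.exp (1 - (k : ℝ) / dg K - s.re) ^ j) := by
  obtain ⟨C, hC, h⟩ := main_term K k
  obtain ⟨B, hB, hv⟩ := cont_vs_db k
  refine ⟨C * B, mul_pos hC hB, fun q f hf s j => ?_⟩
  have h1 := h q f _ _ (Real.exp j) hf (cont_vs_test s) (hv s)
    (Real.one_le_exp (Nat.cast_nonneg j))
  rw [cont_err, norm_mul, Complex.norm_exp]
  refine (mul_le_mul_of_nonneg_left h1 (Real.exp_pos _).le).trans (le_of_eq ?_)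
  rw [← Real.exp_mul, ← Real.exp_nat_mul, mul_pow,
    show (j : ℝ) * (1 - (k : ℝ) / dg K - s.re) = (-s * j).re + j * (1 - (k : ℝ) / dg K) by
      simp only [neg_mul, Complex.neg_re, Complex.mul_re, Complex.natCast_re, Complex.natCast_im]
      ring, Real.exp_add]
  ring

variable (K) in
theorem cont_err_ball (N : ℕ) : ∃ (C : ℝ) (k : ℕ), 0 < C ∧
    ∀ (q : ℕ) (f : Ideal (𝓞 K) → ℂ), PF q f → ∀ s : ℂ, ‖s‖ ≤ N → ∀ j : ℕ,
      ‖cont_err f j s‖ ≤ C * (q : ℝ) ^ k * Real.exp (-1) ^ j := by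
  obtain ⟨C, hC, h⟩ := cont_err_le K ((N + 2) * dg K)
  refine ⟨C * Real.exp (4 * N) * (1 + N) ^ ((N + 2) * dg K), (N + 2) * dg K, by positivity,
    fun q f hf s hs j => (h q f hf s j).trans ?_⟩
  have h1 := (Complex.abs_re_le_norm s).trans hs
  have h2 : (dg K : ℝ) ≠ 0 := Nat.cast_ne_zero.2 (dg_pos K).ne'
  have h3 : 1 - (((N + 2) * dg K : ℕ) : ℝ) / dg K - s.re ≤ -1 := by
    rw [Nat.cast_mul, mul_div_cancel_right₀ _ h2]
    push_cast
    linarith [neg_abs_le s.re]
  calc _ ≤ C * Real.exp (4 * N) * (((1 + N) * q) ^ ((N + 2) * dg K) * Real.exp (-1) ^ j) := by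
        gcongr
    _ = _ := by rw [mul_pow]; ring

theorem cont_geom {t : ℝ} (ht : t < 0) : Summable fun j : ℕ => Real.exp t ^ j :=
  summable_geometric_of_lt_one (Real.exp_pos _).le (Real.exp_lt_one_iff.2 ht)

theorem cont_E_diff {q : ℕ} {f : Ideal (𝓞 K) → ℂ} (h : PF q f) :
    Differentiable ℂ (cont_E f) := by
  refine (cont_A_diff.const_mul _).add fun s => ?_
  obtain ⟨N, hN⟩ := exists_nat_gt ‖s‖
  obtain ⟨C, k, -, hb⟩ := cont_err_ball K N
  exact (Complex.differentiableOn_tsum_of_summable_norm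
    ((cont_geom (by norm_num)).mul_left (C * (q : ℝ) ^ k))
    (fun j => (cont_err_diff f j).differentiableOn) Metric.isOpen_ball
    (fun j w hw => hb q f h w (mem_ball_zero_iff.1 hw).le j)).differentiableAt
      (Metric.isOpen_ball.mem_nhds (mem_ball_zero_iff.2 hN))

theorem cont_sm (a : ℕ → ℂ) (s : ℂ) (j : ℕ) :
    HasSum (fun m => LSeries.term a s m * cont_v (Real.log m - j))
      (Complex.exp (-s * j) * sm a (cont_vs s) (Real.exp j)) := by
  have e : Complex.exp (-s * j) * sm a (cont_vs s) (Real.exp j) =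
      ∑ m ∈ Icc 1 ⌊Real.exp j⌋₊, LSeries.term a s m * cont_v (Real.log m - j) := by
    rw [sm, mul_sum]
    refine sum_congr rfl fun m hm => ?_
    have h0 : m ≠ 0 := by have := (mem_Icc.1 hm).1; omega
    rw [Real.log_div (Nat.cast_ne_zero.2 h0) (Real.exp_ne_zero _), Real.log_exp, cont_vs,
      LSeries.term_of_ne_zero h0, Complex.cpow_def_of_ne_zero (Nat.cast_ne_zero.2 h0),
      div_eq_mul_inv, ← Complex.exp_neg, ← Complex.natCast_log,
      show -((Real.log m : ℂ) * s) = -s * j + -s * ((Real.log m - j : ℝ) : ℂ) by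
        push_cast; ring, Complex.exp_add]
    ring
  rw [e]
  refine hasSum_sum_of_ne_finset_zero fun m hm => ?_
  rcases eq_or_ne m 0 with rfl | h0
  · simp
  · rw [cont_v_zero (Or.inr ?_), mul_zero]
    rw [mem_Icc, not_and_or, not_le, not_le] at hm
    have h1 := (Nat.floor_lt (Real.exp_pos _).le).1 (hm.resolve_left (by omega))
    rw [sub_nonneg]
    exact ((Real.lt_log_iff_exp_lt ((Real.exp_pos _).trans h1)).2 h1).le

theorem cont_tendsto {a : ℕ → ℂ} {s : ℂ} (ha : LSeriesSummable a s) :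
    Tendsto (fun J : ℕ => ∑ j ∈ range J, Complex.exp (-s * j) * sm a (cont_vs s) (Real.exp j))
      atTop (𝓝 (LSeries a s)) := by
  have h1 : ∀ J : ℕ, HasSum (fun m => LSeries.term a s m *
      (cont_st (Real.log m + 2) - cont_st (Real.log m - J + 2)))
      (∑ j ∈ range J, Complex.exp (-s * j) * sm a (cont_vs s) (Real.exp j)) := by
    intro J
    induction J with
    | zero => simp
    | succ J ih =>
      rw [sum_range_succ]
      convert ih.add (cont_sm a s J) using 2 with m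
      rw [cont_v, show Real.log m - ((J + 1 : ℕ) : ℝ) + 2 = Real.log m - J + 1 by
        push_cast; ring]
      ring
  simp only [← fun J => (h1 J).tsum_eq]
  refine tendsto_tsum_of_dominated_convergence ha.norm (fun m => ?_)
    (Eventually.of_forall fun J m => ?_)
  · refine tendsto_const_nhds.congr' ?_
    obtain ⟨N, hN⟩ := exists_nat_ge (Real.log m + 2)
    filter_upwards [eventually_ge_atTop N] with J hJ
    have : (N : ℝ) ≤ J := Nat.cast_le.2 hJ
    rw [cont_st_one (by linarith only [Real.log_natCast_nonneg m]), cont_st_zero (by linarith only [hN, this]),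
      sub_zero, mul_one]
  · rw [norm_mul]
    exact mul_le_of_le_one_right (norm_nonneg _) (cont_st_sub _ _)

theorem cont_E_spec {q : ℕ} {f : Ideal (𝓞 K) → ℂ} (h : PF q f) {s : ℂ} (hs : 1 < s.re) :
    LSeries (push f) s = kap f / (s - 1) + cont_E f s := by
  have hx : ‖Complex.exp (1 - s)‖ < 1 := by
    rw [Complex.norm_exp, Real.exp_lt_one_iff, Complex.sub_re, Complex.one_re]
    linarith
  have hx1 : 1 - Complex.exp (1 - s) ≠ 0 := by
    intro e
    rw [← sub_eq_zero.1 e, norm_one] at hx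
    exact lt_irrefl _ hx
  have hs1 : s ≠ 1 := by
    rintro rfl
    simp at hs
  obtain ⟨N, hN⟩ := exists_nat_gt ‖s‖
  obtain ⟨C, k, -, hb⟩ := cont_err_ball K N
  have t1 := (Summable.of_norm_bounded ((cont_geom (by norm_num)).mul_left (C * (q : ℝ) ^ k))
    (hb q f h s hN.le)).hasSum.tendsto_sum_nat
  have t2 := (cont_tendsto (push_summable h.le hs)).sub
    (((hasSum_geometric_of_norm_lt_one hx).mul_left (kap f * cont_I s)).tendsto_sum_nat)
  have t3 := tendsto_nhds_unique t1 (t2.congr fun J => by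
    rw [← sum_sub_distrib]
    refine sum_congr rfl fun j _ => ?_
    rw [cont_err, ← Complex.exp_nat_mul, Complex.ofReal_exp, Complex.ofReal_natCast,
      show (j : ℂ) * (1 - s) = -s * j + j by ring, Complex.exp_add]
    ring)
  rw [cont_E, t3, cont_I_A hs1]
  field_simp
  ring

theorem Ent_spec {q : ℕ} {f : Ideal (𝓞 K) → ℂ} (h : PF q f) : Differentiable ℂ (Ent f) ∧
    ∀ s : ℂ, 1 < s.re → LSeries (push f) s = kap f / (s - 1) + Ent f s := by
  have h1 : ∃ E : ℂ → ℂ, Differentiable ℂ E ∧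
      ∀ s : ℂ, 1 < s.re → LSeries (push f) s = kap f / (s - 1) + E s :=
    ⟨cont_E f, cont_E_diff h, fun _ hs => cont_E_spec h hs⟩
  rw [Ent, dif_pos h1]
  exact h1.choose_spec

theorem cont_Ent_eq {q : ℕ} {f : Ideal (𝓞 K) → ℂ} (h : PF q f) : Ent f = cont_E f := by
  refine AnalyticOnNhd.eq_of_eventuallyEq (z₀ := 2)
    (Complex.analyticOnNhd_univ_iff_differentiable.2 (Ent_spec h).1)
    (Complex.analyticOnNhd_univ_iff_differentiable.2 (cont_E_diff h)) ?_
  have : {s : ℂ | 1 < s.re} ∈ 𝓝 (2 : ℂ) :=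
    (isOpen_lt continuous_const Complex.continuous_re).mem_nhds (by simp)
  filter_upwards [this] with s hs
  exact add_left_cancel (((Ent_spec h).2 s hs).symm.trans (cont_E_spec h hs))

variable (K) in
theorem cont_kap_le : ∃ C : ℝ, 0 < C ∧ ∀ (q : ℕ) (f : Ideal (𝓞 K) → ℂ), PF q f →
    ‖kap f‖ ≤ C := by
  obtain ⟨C, hC, h⟩ := main_term K 0
  obtain ⟨B, hB, hv⟩ := cont_db test_bmp 0
  have hI : 0 < ‖∫ u : ℝ, bmp u * Real.exp u‖ := by
    have h1 : 0 < ∫ u : ℝ, bump u * Real.exp u :=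
      Continuous.integral_pos_of_hasCompactSupport_nonneg_nonzero (x := -2)
        (bump.continuous.mul Real.continuous_exp) bump.hasCompactSupport.mul_right
        (fun u => mul_nonneg bump.nonneg (Real.exp_pos _).le)
        (by rw [bump_eq_one (by norm_num) (by norm_num), one_mul]; exact Real.exp_ne_zero _)
    simp only [bmp, ← Complex.ofReal_mul]
    rw [integral_complex_ofReal, norm_pos_iff]
    exact Complex.ofReal_ne_zero.2 h1.ne'
  refine ⟨C * B / ‖∫ u : ℝ, bmp u * Real.exp u‖, by positivity, fun q f hf => ?_⟩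
  have h1 := h q f bmp B 1 hf test_bmp hv le_rfl
  have h2 : sm (push f) bmp 1 = 0 := by simp only [sm, Nat.floor_one, Icc_self, bmp, div_one, sum_singleton, Nat.cast_one, Real.log_one, bump_eq_zero (Or.inr le_rfl), Complex.ofReal_zero, mul_zero]
  rw [h2, zero_sub, norm_neg, Complex.ofReal_one, mul_one, norm_mul, pow_zero, mul_one,
    Real.one_rpow, mul_one] at h1
  exact (le_div_iff₀ hI).2 h1

variable (K) in
theorem Ent_ball : ∃ (C : ℝ) (k : ℕ), 1 ≤ C ∧ ∀ (q : ℕ) (f : Ideal (𝓞 K) → ℂ), PF q f →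
    ∀ s ∈ Metric.closedBall (2 : ℂ) (3 / 2), ‖Ent f s‖ ≤ C * (q : ℝ) ^ k := by
  obtain ⟨C, k, hC, hb⟩ := cont_err_ball K 4
  obtain ⟨C', hC', hk⟩ := cont_kap_le K
  have hg := cont_geom (t := -1) (by norm_num)
  have hT : 0 ≤ ∑' j : ℕ, Real.exp (-1) ^ j := tsum_nonneg fun j => by positivity
  refine ⟨1 + C' * (Real.exp 6 * 2) + C * ∑' j : ℕ, Real.exp (-1) ^ j, k,
    by linarith [mul_nonneg hC.le hT, show 0 ≤ C' * (Real.exp 6 * 2) by positivity],
    fun q f hf s hs => ?_⟩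
  rw [Metric.mem_closedBall, dist_eq_norm] at hs
  have h1 : |s.re - 2| ≤ 3 / 2 := by simpa using (Complex.abs_re_le_norm (s - 2)).trans hs
  rw [abs_le] at h1
  have h2 : ‖s‖ ≤ (4 : ℕ) := by
    have := norm_sub_norm_le s 2
    rw [Complex.norm_two] at this
    push_cast
    linarith only [hs, this]
  have h3 := tsum_of_norm_bounded (hg.hasSum.mul_left (C * (q : ℝ) ^ k)) (hb q f hf s h2)
  have h4 : ‖kap f * cont_A s‖ ≤ C' * (Real.exp 6 * 2) := by
    rw [norm_mul]
    exact mul_le_mul (hk q f hf) (cont_A_le (by linarith only [h1]) (by linarith only [h1])) (norm_nonneg _) hC'.le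
  have h5 : (1 : ℝ) ≤ (q : ℝ) ^ k := one_le_pow₀ (Nat.one_le_cast.2 hf.pos)
  have h6 := mul_le_mul_of_nonneg_left h5 (show 0 ≤ C' * (Real.exp 6 * 2) by positivity)
  rw [cont_Ent_eq hf, cont_E]
  refine (norm_add_le _ _).trans ?_
  linarith only [h3, h4, h5, h6]

variable (K) in
theorem Ent_near {η : ℝ} (h0 : 0 < η) (h1 : η ≤ 1) : ∃ C r : ℝ, 0 < C ∧ 0 < r ∧ r ≤ 1 / 2 ∧
    ∀ (q : ℕ) (f : Ideal (𝓞 K) → ℂ), PF q f → ∀ s : ℂ, 1 - r ≤ s.re → s.re ≤ 4 →
      ‖Ent f s‖ ≤ C * ((q : ℝ) ^ η * (|s.im| + 2)) := by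
  obtain ⟨C₀, hC₀, b₀⟩ := cont_err_le K 0
  obtain ⟨C₁, hC₁, b₁⟩ := cont_err_le K 1
  obtain ⟨C', hC', hk⟩ := cont_kap_le K
  have hn : (1 : ℝ) ≤ dg K := Nat.one_le_cast.2 (dg_pos K)
  have hr : 0 < η / dg K / 2 := by positivity
  have hr' : η / dg K / 2 ≤ 1 / 2 := by
    have := div_le_self h0.le hn
    linarith only [h1, this]
  have hg := cont_geom (neg_neg_of_pos hr)
  have hT : 0 ≤ ∑' j : ℕ, Real.exp (-(η / dg K / 2)) ^ j := tsum_nonneg fun j => by positivity
  refine ⟨C' * (Real.exp 6 * 2) + (C₀ + C₁) * Real.exp 16 * 3 *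
    ∑' j : ℕ, Real.exp (-(η / dg K / 2)) ^ j, η / dg K / 2, by positivity, hr, hr',
    fun q f hf s s1 s2 => ?_⟩
  have q1 : (1 : ℝ) ≤ q := Nat.one_le_cast.2 hf.pos
  have q2 : (1 : ℝ) ≤ (q : ℝ) ^ η := Real.one_le_rpow q1 h0.le
  have s3 : |s.re| ≤ 4 := abs_le.2 ⟨by linarith only [hr', s1], s2⟩
  have s4 : (1 + ‖s‖) ^ η ≤ 3 * (|s.im| + 2) := by
    refine (Real.rpow_le_self_of_one_le (by linarith only [norm_nonneg s]) h1).trans ?_
    linarith only [Complex.norm_le_abs_re_add_abs_im s, abs_nonneg s.im, s3]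
  have h3 : ∀ j : ℕ, ‖cont_err f j s‖ ≤ (C₀ + C₁) * Real.exp 16 * 3 *
      ((q : ℝ) ^ η * (|s.im| + 2)) * Real.exp (-(η / dg K / 2)) ^ j := by
    intro j
    have a₀ : ‖cont_err f j s‖ ≤ (C₀ + C₁) * Real.exp 16 * Real.exp (j * (1 - s.re)) := by
      refine (b₀ q f hf s j).trans ?_
      rw [pow_zero, one_mul, Nat.cast_zero, zero_div, sub_zero, ← Real.exp_nat_mul]
      gcongr <;> linarith only [hC₁, s3]
    have a₁ : ‖cont_err f j s‖ ≤ (C₀ + C₁) * Real.exp 16 * ((1 + ‖s‖) * (q *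
        Real.exp (j * (1 - 1 / dg K - s.re)))) := by
      refine (b₁ q f hf s j).trans ?_
      rw [pow_one, Nat.cast_one, ← Real.exp_nat_mul, mul_assoc (1 + ‖s‖)]
      gcongr <;> linarith only [hC₀, s3]
    refine (lbound_min h0 h1 (norm_nonneg _) a₁ a₀).trans ?_
    have hc : 0 < (C₀ + C₁) * Real.exp 16 := by positivity
    rw [Real.mul_rpow hc.le (by positivity), Real.mul_rpow hc.le (by positivity),
      Real.mul_rpow (x := 1 + ‖s‖) (by positivity) (by positivity),
      Real.mul_rpow (x := q) (by positivity) (by positivity),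
      ← Real.exp_mul, ← Real.exp_mul, ← Real.exp_nat_mul]
    have e1 : ((C₀ + C₁) * Real.exp 16) ^ η * ((C₀ + C₁) * Real.exp 16) ^ (1 - η) =
        (C₀ + C₁) * Real.exp 16 := by
      rw [← Real.rpow_add hc, add_sub_cancel, Real.rpow_one]
    have e2 : Real.exp (j * (1 - 1 / dg K - s.re) * η) * Real.exp (j * (1 - s.re) * (1 - η)) ≤
        Real.exp (j * -(η / dg K / 2)) := by
      rw [← Real.exp_add, Real.exp_le_exp, show j * (1 - 1 / dg K - s.re) * η +
        j * (1 - s.re) * (1 - η) = (j : ℝ) * (1 - s.re - η / dg K) by ring]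
      exact mul_le_mul_of_nonneg_left (by linarith only [s1]) (Nat.cast_nonneg j)
    calc _ = ((C₀ + C₁) * Real.exp 16) ^ η * ((C₀ + C₁) * Real.exp 16) ^ (1 - η) *
          ((1 + ‖s‖) ^ η * (q : ℝ) ^ η) * (Real.exp (j * (1 - 1 / dg K - s.re) * η) *
            Real.exp (j * (1 - s.re) * (1 - η))) := by ring
      _ ≤ (C₀ + C₁) * Real.exp 16 * (3 * (|s.im| + 2) * (q : ℝ) ^ η) *
            Real.exp (j * -(η / dg K / 2)) := by
          rw [e1]
          gcongr
      _ = _ := by ring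
  have h4 := tsum_of_norm_bounded (hg.hasSum.mul_left _) h3
  have h5 : ‖kap f * cont_A s‖ ≤ C' * (Real.exp 6 * 2) := by
    rw [norm_mul]
    exact mul_le_mul (hk q f hf) (cont_A_le (by linarith only [hr', s1]) s2) (norm_nonneg _) hC'.le
  have h6 : 1 ≤ (q : ℝ) ^ η * (|s.im| + 2) :=
    one_le_mul_of_one_le_of_one_le q2 (by linarith only [abs_nonneg s.im])
  have h7 := mul_le_mul_of_nonneg_left h6 (show 0 ≤ C' * (Real.exp 6 * 2) by positivity)
  rw [cont_Ent_eq hf, cont_E]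
  refine (norm_add_le _ _).trans ?_
  linarith only [h4, h5, h7]

theorem cont_kap_lim {q : ℕ} {f : Ideal (𝓞 K) → ℂ} (h : PF q f) :
    Tendsto (fun σ : ℝ => ((σ : ℂ) - 1) * LSeries (push f) σ) (𝓝[>] 1) (𝓝 (kap f)) := by
  have hc : Continuous fun σ : ℝ => kap f + ((σ : ℂ) - 1) * Ent f σ := by
    have := (Ent_spec h).1.continuous
    fun_prop
  have h1 := (hc.tendsto 1).mono_left (nhdsWithin_le_nhds (s := Set.Ioi 1))
  rw [Complex.ofReal_one, sub_self, zero_mul, add_zero] at h1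
  refine h1.congr' ?_
  filter_upwards [self_mem_nhdsWithin] with σ hσ
  have h2 : (σ : ℂ) - 1 ≠ 0 := by
    rw [sub_ne_zero]
    exact_mod_cast (ne_of_gt hσ)
  rw [(Ent_spec h).2 σ (by simpa using hσ)]
  field_simp

theorem cont_L_real {q : ℕ} {f : Ideal (𝓞 K) → ℂ} (h : PF q f) (hr : Rl f) {σ : ℝ}
    (hσ : 1 < σ) : (LSeries (push f) σ).im = 0 := by
  rw [LSeries, Complex.im_tsum (push_summable h.le (by simpa using hσ))]
  refine (tsum_congr fun m => ?_).trans tsum_zero
  rcases eq_or_ne m 0 with rfl | h0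
  · simp
  · rw [LSeries.term_of_ne_zero h0, ← Complex.ofReal_natCast,
      ← Complex.ofReal_cpow (Nat.cast_nonneg m), Complex.div_ofReal_im, push_apply f h0,
      Complex.im_sum, sum_eq_zero, zero_div]
    intro I hI
    refine hr I ?_
    rintro rfl
    rw [mem_idN, Ideal.absNorm_bot] at hI
    exact h0 hI.symm

theorem kap_real {q : ℕ} {f : Ideal (𝓞 K) → ℂ} (h : PF q f) (hr : Rl f) : (kap f).im = 0 := by
  refine tendsto_nhds_unique ((Complex.continuous_im.tendsto _).comp (cont_kap_lim h))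
    (tendsto_const_nhds.congr' ?_)
  filter_upwards [self_mem_nhdsWithin] with σ hσ
  simp [cont_L_real h hr hσ]

theorem Ent_real {q : ℕ} {f : Ideal (𝓞 K) → ℂ} (h : PF q f) (hr : Rl f) (σ : ℝ) :
    (Ent f σ).im = 0 := by
  have h1 : AnalyticOnNhd ℝ (fun x : ℝ => (Ent f x).im) Set.univ := fun x _ =>
    (Complex.imCLM.analyticAt _).comp
      ((((Ent_spec h).1.analyticAt _).restrictScalars (𝕜 := ℝ)).comp
        (Complex.ofRealCLM.analyticAt x))
  refine congrFun (h1.eq_of_eventuallyEq (g := fun _ => 0) (z₀ := 2) analyticOnNhd_const ?_) σ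
  filter_upwards [Ioi_mem_nhds (show (1 : ℝ) < 2 by norm_num)] with x hx
  have h2 := congrArg Complex.im ((Ent_spec h).2 x (by simpa using hx))
  rw [cont_L_real h hr hx, Complex.add_im, ← Complex.ofReal_one, ← Complex.ofReal_sub,
    Complex.div_ofReal_im, kap_real h hr, zero_div, zero_add] at h2
  exact h2.symm

variable (K) in
theorem kap_one : ∃ ρ : ℝ, 0 < ρ ∧ kap (fun _ : Ideal (𝓞 K) => (1 : ℂ)) = ρ := by
  refine ⟨_, dedekindZeta_residue_pos K, tendsto_nhds_unique (cont_kap_lim pf_one)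
    ((tendsto_sub_one_mul_dedekindZeta_nhdsGT K).congr fun σ => ?_)⟩
  congr 1
  refine LSeries_congr (fun {m} hm => ?_) _
  rw [push_apply _ hm, sum_const, nsmul_eq_mul, mul_one, Nat.cast_inj]
  exact Nat.subtype_card _ fun I => mem_idN K

variable (K) in
theorem norm_kap_le : ∃ C : ℝ, 0 < C ∧ ∀ (q : ℕ) (f : Ideal (𝓞 K) → ℂ), PF q f →
    ‖kap f‖ ≤ C := cont_kap_le K

variable (K) in
theorem LSeries_le : ∃ C : ℝ, 0 < C ∧ ∀ f : Ideal (𝓞 K) → ℂ, (∀ I, ‖f I‖ ≤ 1) → ∀ s : ℂ,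
    1 < s.re → s.re ≤ 2 → ‖LSeries (push f) s‖ ≤ C / (s.re - 1) := by
  obtain ⟨C, k, hC, hb⟩ := Ent_ball K
  obtain ⟨C', hC', hk⟩ := cont_kap_le K
  refine ⟨C' + C, by linarith, fun f hf s s1 s2 => ?_⟩
  have s3 : 1 < (s.re : ℂ).re := by simpa using s1
  have s4 : 0 < s.re - 1 := sub_pos.2 s1
  have h1 := Complex.hasSum_re (push_summable (pf_one (K := K)).le s3).hasSum
  have h2 : ‖LSeries (push f) s‖ ≤ (LSeries (push fun _ : Ideal (𝓞 K) => 1) s.re).re := by
    refine tsum_of_norm_bounded h1 fun m => ?_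
    rcases eq_or_ne m 0 with rfl | h0
    · simp
    · rw [LSeries.norm_term_eq, if_neg h0, LSeries.term_of_ne_zero h0, ← Complex.ofReal_natCast,
        ← Complex.ofReal_cpow (Nat.cast_nonneg m), Complex.div_ofReal_re]
      exact div_le_div_of_nonneg_right (norm_push_le_one hf m) (by positivity)
  have h3 := hb 1 _ pf_one (s.re : ℂ) (by
    rw [Metric.mem_closedBall, dist_eq_norm, ← Complex.ofReal_ofNat, ← Complex.ofReal_sub,
      Complex.norm_real, Real.norm_eq_abs, abs_le]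
    constructor <;> linarith only [s1, s2])
  rw [Nat.cast_one, one_pow, mul_one] at h3
  refine h2.trans ((Complex.re_le_norm _).trans ?_)
  rw [(Ent_spec pf_one).2 _ s3, add_div]
  refine (norm_add_le _ _).trans (add_le_add ?_ (h3.trans ?_))
  · rw [norm_div, ← Complex.ofReal_one, ← Complex.ofReal_sub, Complex.norm_real,
      Real.norm_of_nonneg s4.le]
    exact div_le_div_of_nonneg_right (hk 1 _ pf_one) s4.le
  · rw [le_div_iff₀ s4]
    nlinarith only [hC, s2]

end Pool.Agent.MP_48b1c3_nt.H91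

end

-- part MP_48b1c3_nt.H91.Siegel
section

/-! Non-vanishing at one and the theorem of Siegel for Hecke characters. -/

namespace Pool.Agent.MP_48b1c3_nt.H91

open Finset NumberField H54 Filter
open scoped ContDiff Topology
open scoped ComplexOrder

variable {K : Type} [Field K] [NumberField K]

theorem siegel_add (f g : Ideal (𝓞 K) → ℂ) : pushL f + pushL g = pushL (f + g) := by
  ext m
  rcases eq_or_ne m 0 with rfl | hm
  · simp
  simp only [ArithmeticFunction.add_apply, pushL, push_apply _ hm, Pi.add_apply, mul_add,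
    sum_add_distrib]

theorem siegel_ne_bot {m : ℕ} (hm : m ≠ 0) {I : Ideal (𝓞 K)} (hI : I ∈ idN K m) : I ≠ ⊥ := by
  rintro rfl
  exact hm (by rw [← (mem_idN K).1 hI, Ideal.absNorm_bot])

theorem siegel_nn {g : Ideal (𝓞 K) → ℂ} (hg : ∀ I, I ≠ ⊥ → 0 ≤ g I) (m : ℕ) :
    0 ≤ pushL g m := by
  rcases eq_or_ne m 0 with rfl | hm
  · simp
  rw [pushL, push_apply _ hm]
  exact sum_nonneg fun I hI =>
    mul_nonneg (Complex.zero_le_real.2 (lam_nonneg I)) (hg I (siegel_ne_bot hm hI))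

omit [NumberField K] in
theorem siegel_oa {F : Ideal (𝓞 K) → ℂ} (hf : ∀ I, ‖F I‖ ≤ 1) (hr : Rl F) {I : Ideal (𝓞 K)}
    (hI : I ≠ ⊥) : 0 ≤ 1 + F I := by
  have h := (abs_le.1 ((Complex.abs_re_le_norm (F I)).trans (hf I))).1
  refine Complex.le_def.2 ⟨?_, ?_⟩
  · simp only [Complex.zero_re, Complex.add_re, Complex.one_re]
    linarith
  · simp [hr I hI]

theorem siegel_WK {F : Ideal (𝓞 K) → ℂ} (hf : ∀ I, ‖F I‖ ≤ 1) (hr : Rl F) (m : ℕ) :
    0 ≤ (pushL (fun _ : Ideal (𝓞 K) => 1) + pushL F) m := by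
  rw [siegel_add]
  exact siegel_nn (fun I hI => siegel_oa hf hr hI) m

variable (K) in
theorem siegel_P1 : siegel_P (push fun _ : Ideal (𝓞 K) => 1) (pushL fun _ : Ideal (𝓞 K) => 1)
    (LSeries (push fun _ : Ideal (𝓞 K) => 1)) :=
  push_P rfl (fun _ _ => (one_mul _).symm) fun _ => by simp

theorem siegel_eq {q : ℕ} {F : Ideal (𝓞 K) → ℂ} (h : PF q F) (hk : kap F = 0) {s : ℂ}
    (hs : 1 < s.re) : LSeries (push F) s = Ent F s := by
  rw [(Ent_spec h).2 s hs, hk, zero_div, zero_add]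

theorem siegel_PK {q : ℕ} {F : Ideal (𝓞 K) → ℂ} (h : HC q F) (hk : kap F = 0) :
    siegel_P (push F) (pushL F) (Ent F) :=
  { push_P h.one h.mul h.le with val := fun _ hs => siegel_eq h.toPF hk hs }

theorem siegel_abs {f W : ArithmeticFunction ℂ} {F : ℂ → ℂ} (h : siegel_P f W F) :
    LSeries.abscissaOfAbsConv f ≤ (1 : ℝ) :=
  LSeries.abscissaOfAbsConv_le_of_forall_lt_LSeriesSummable
    fun y hy => h.sum y (by simpa using hy)

variable (K) in
theorem siegel_Z : ∃ (Z : ℂ → ℂ) (ρ : ℝ), Differentiable ℂ Z ∧ 0 < ρ ∧ Z 1 = ρ ∧ ∀ s : ℂ,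
    1 < s.re → Z s = (s - 1) * LSeries (push fun _ : Ideal (𝓞 K) => 1) s := by
  obtain ⟨ρ, hρ, h⟩ := kap_one K
  obtain ⟨h1, h2⟩ := Ent_spec (pf_one (K := K))
  refine ⟨fun s => ρ + (s - 1) * Ent (fun _ : Ideal (𝓞 K) => 1) s, ρ, by fun_prop, hρ, by simp,
    fun s hs => ?_⟩
  have h3 : s - 1 ≠ 0 := by
    rw [sub_ne_zero]
    rintro rfl
    simp at hs
  rw [h2 s hs, h]
  field_simp

variable (K) in
theorem siegel_primes (N : ℕ) : ∃ P : Ideal (𝓞 K), P.IsPrime ∧ P ≠ ⊥ ∧ N < Ideal.absNorm P := by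
  obtain ⟨p, hN, hp⟩ := Nat.exists_infinite_primes (N + 1)
  have h1 : Ideal.absNorm (Ideal.span {((p : ℤ) : 𝓞 K)}) = p ^ dg K := by
    rw [Ideal.absNorm_span_singleton]
    have := nm_intCast (K := K) p
    rw [nm] at this
    rw [this, Int.natAbs_pow, Int.natAbs_natCast]
  have h2 : Ideal.span {((p : ℤ) : 𝓞 K)} ≠ ⊤ := by
    rw [Ne, ← Ideal.absNorm_eq_one_iff, h1]
    exact (Nat.one_lt_pow (dg_pos K).ne' hp.one_lt).ne'
  obtain ⟨P, hP, hle⟩ := Ideal.exists_le_maximal _ h2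
  have h3 := Ideal.absNorm_dvd_absNorm_of_le hle
  rw [h1] at h3
  obtain ⟨k, -, hk⟩ := (Nat.dvd_prime_pow hp).1 h3
  have h4 : k ≠ 0 := by
    rintro rfl
    exact hP.ne_top (Ideal.absNorm_eq_one_iff.1 hk)
  refine ⟨P, hP.isPrime, ?_, ?_⟩
  · rintro rfl
    rw [Ideal.absNorm_bot] at hk
    exact pow_ne_zero k hp.ne_zero hk.symm
  · rw [hk]
    exact lt_of_lt_of_le hN (Nat.le_self_pow h4 p)

theorem L1_ne {q : ℕ} {F : Ideal (𝓞 K) → ℂ} (h : HC q F) (hr : Rl F) (hk : kap F = 0) :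
    Ent F 1 ≠ 0 := by
  intro h0
  obtain ⟨Z, ρ, hZ, -, -, hZs⟩ := siegel_Z K
  have hP := (siegel_P1 K).mul (siegel_PK h hk)
  have hW := siegel_WK h.le hr
  rw [siegel_add] at hP hW
  set r := push (fun _ : Ideal (𝓞 K) => (1 : ℂ)) * push F with hr'
  have hr0 := hP.nonneg hW
  have hG : Differentiable ℂ (dslope (Ent F) 1) := by
    rw [← differentiableOn_univ, Complex.differentiableOn_dslope Filter.univ_mem]
    exact (Ent_spec h.toPF).1.differentiableOn
  obtain ⟨N, hN⟩ := exists_nat_ge (2 * (Z (-1 : ℝ) * dslope (Ent F) 1 (-1 : ℝ)).re)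
  obtain ⟨P, hP1, hP2, hP3⟩ := siegel_primes K (N + 1)
  set m := Ideal.absNorm P ^ 2 with hm
  have hm1 : N + 1 < m := hP3.trans_le (Nat.le_self_pow two_ne_zero _)
  have hm0 : m ≠ 0 := by omega
  have hmc : (m : ℂ) ≠ 0 := by exact_mod_cast hm0
  have hb : ∀ s : ℂ, LSeriesHasSum (fun n => if n = m then r m else 0) s (r m / (m : ℂ) ^ s) := by
    intro s
    have := hasSum_single (f := LSeries.term (fun n => if n = m then r m else 0) s) m
      fun n hn => by simp [LSeries.term, hn]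
    rwa [LSeries.term_of_ne_zero hm0, if_pos rfl] at this
  have key := LSeries.positive_of_differentiable_of_eqOn
    (a := ⇑r - fun n => if n = m then r m else 0)
    (f := fun s => Z s * dslope (Ent F) 1 s - r m / (m : ℂ) ^ s) (x := 1)
    (fun n => by
      simp only [Pi.zero_apply, Pi.sub_apply]
      split_ifs with hn
      · rw [hn, sub_self]
      · rw [sub_zero]
        exact hr0 n)
    (by
      rw [Pi.sub_apply, if_neg (by omega), sub_zero, hP.one]
      exact zero_lt_one)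
    ((hZ.mul hG).sub ((differentiable_const _).div (differentiable_id.const_cpow (.inl hmc))
      fun s => by simp [hm0]))
    (LSeries.abscissaOfAbsConv_le_of_forall_lt_LSeriesSummable fun y hy =>
      (hP.sum y (by simpa using hy)).sub (hb y).LSeriesSummable)
    (fun s hs => by
      have hs' : 1 < s.re := hs
      have h1 : s ≠ 1 := by
        rintro rfl
        simp at hs'
      have h2 : s - 1 ≠ 0 := sub_ne_zero.2 h1
      rw [LSeries_sub (hP.sum s hs') (hb s).LSeriesSummable, (hb s).LSeries_eq, hP.val s hs']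
      simp only
      rw [hZs s hs', dslope_of_ne _ h1, slope_def_field, h0]
      field_simp
      ring) (-1)
  have k1 : (Real.log m : ℂ) * r m = (pushL ((fun _ : Ideal (𝓞 K) => (1 : ℂ)) + F) * r) m := by
    rw [← hP.der, ArithmeticFunction.pmul_apply]
    simp only [siegel_lg, toArithmeticFunction, ArithmeticFunction.coe_mk, hm0, if_false]
  have k2 : pushL ((fun _ : Ideal (𝓞 K) => (1 : ℂ)) + F) m ≤ (Real.log m : ℂ) * r m := by
    rw [k1, ArithmeticFunction.mul_apply]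
    have := single_le_sum (s := m.divisorsAntidiagonal)
      (f := fun x => pushL ((fun _ : Ideal (𝓞 K) => (1 : ℂ)) + F) x.1 * r x.2) (a := (m, 1))
      (fun x _ => mul_nonneg (hW _) (hr0 _)) (by simp [hm0])
    rwa [hP.one, mul_one] at this
  have k3 : (Real.log (Ideal.absNorm P) : ℂ) ≤
      pushL ((fun _ : Ideal (𝓞 K) => (1 : ℂ)) + F) m := by
    rw [pushL, push_apply _ hm0]
    refine le_trans ?_ (single_le_sum (a := P ^ 2) (fun I hI => mul_nonneg
      (Complex.zero_le_real.2 (lam_nonneg I)) (siegel_oa h.le hr (siegel_ne_bot hm0 hI)))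
      ((mem_idN K).2 (by rw [map_pow])))
    have e1 : lam (P ^ 2) = Real.log (Ideal.absNorm P) := by
      rw [lam, if_pos ⟨P, 2, Ideal.prime_of_isPrime hP2 hP1, two_pos, rfl⟩,
        Ideal.radical_pow _ two_ne_zero, hP1.radical]
    have e2 : F P = ((F P).re : ℂ) := Complex.ext rfl (by simp [hr P hP2])
    rw [e1, sq, h.mul, e2]
    have e3 : 0 ≤ Real.log (Ideal.absNorm P) := Real.log_natCast_nonneg _
    exact_mod_cast le_mul_of_one_le_right e3 (by linarith only [mul_self_nonneg (F P).re])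
  have k4 := (Complex.le_def.1 (k3.trans k2)).1
  have k5 : 0 < Real.log (Ideal.absNorm P) := Real.log_pos (by exact_mod_cast (by omega))
  rw [Complex.ofReal_re, Complex.re_ofReal_mul, hm, Nat.cast_pow, Real.log_pow, ← hm] at k4
  have k6 := (Complex.lt_def.1 key).1
  have k7 : r m / (m : ℂ) ^ ((-1 : ℝ) : ℂ) = (m : ℝ) * r m := by
    push_cast
    rw [Complex.cpow_neg_one]
    field_simp
  rw [Complex.sub_re, k7, Complex.re_ofReal_mul, Complex.zero_re] at k6
  have k8 : (N : ℝ) + 1 < m := by exact_mod_cast hm1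
  have k9 : 1 / 2 ≤ (r m).re := by
    push_cast at k4
    nlinarith only [k4, k5]
  have := Nat.cast_nonneg (α := ℝ) N
  nlinarith only [hN, k6, k8, k9]

variable (K) in
theorem siegel_appK : ∃ c δ : ℝ, 0 < c ∧ 0 < δ ∧ δ ≤ 1 / 8 ∧
    ∀ (f W : ArithmeticFunction ℂ) (F : ℂ → ℂ) (M β : ℝ), siegel_P f W F → Differentiable ℂ F →
      (∀ n, 0 ≤ (pushL (fun _ : Ideal (𝓞 K) => 1) + W) n) → 1 ≤ M →
      (∀ s ∈ Metric.closedBall (2 : ℂ) (3 / 2), ‖F s‖ ≤ M) → 1 - δ ≤ β → β < 1 → 0 ≤ F β →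
      c * (1 - β) / M ^ (4 * (1 - β)) ≤ ‖F 1‖ := by
  obtain ⟨c, hc, hE⟩ := estermann
  obtain ⟨Z, ρ, hZd, hρ, hZ1, hZ⟩ := siegel_Z K
  obtain ⟨B₀, hB₀⟩ := (isCompact_closedBall (2 : ℂ) (3 / 2)).exists_bound_of_continuousOn
    hZd.continuous.continuousOn
  set B := max B₀ 1 with hB
  have hB1 : 1 ≤ B := le_max_right _ _
  have hcont : ContinuousAt (fun σ : ℝ => (Z σ).re) 1 :=
    (Complex.continuous_re.comp (hZd.continuous.comp Complex.continuous_ofReal)).continuousAt
  have hev : ∀ᶠ σ : ℝ in nhds 1, 0 < (Z σ).re :=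
    hcont.eventually (lt_mem_nhds (by simp [hZ1, hρ]))
  obtain ⟨δ, hδ, hδ'⟩ := Metric.eventually_nhds_iff.1 hev
  refine ⟨c / (B * ρ), min (δ / 2) (1 / 8), by positivity, by positivity, min_le_right _ _, ?_⟩
  intro f W F M β hP hF hW hM1 hM hβ0 hβ1 hpos
  have hβ2 : 1 - δ / 2 ≤ β := le_trans (by linarith only [min_le_left (δ / 2) (1 / 8)]) hβ0
  have hβ3 : 7 / 8 ≤ β := le_trans (by linarith only [min_le_right (δ / 2) (1 / 8)]) hβ0
  have hP' := (siegel_P1 K).mul hP
  have hZβ : 0 < (Z β).re := hδ' (by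
    rw [Real.dist_eq, abs_lt]
    constructor <;> linarith only [hβ1, hβ2])
  have key := hE (fun s => Z s * F s) (push (fun _ : Ideal (𝓞 K) => 1) * f :) (B * M) β
    (hZd.mul hF) (one_le_mul_of_one_le_of_one_le hB1 hM1)
    (fun s hs => by
      rw [norm_mul]
      exact mul_le_mul ((hB₀ s hs).trans (le_max_left _ _)) (hM s hs) (norm_nonneg _)
        (by linarith only [hB1, hβ1, hβ3]))
    (hP'.nonneg hW) hP'.one (by exact_mod_cast siegel_abs hP')
    (fun s hs => by rw [hP'.val s hs, hZ s hs, mul_assoc]) hβ3 hβ1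
    (by
      obtain ⟨h1, h2⟩ := Complex.le_def.1 hpos
      rw [Complex.mul_re, ← h2]
      simp only [Complex.zero_re, Complex.zero_im, mul_zero, sub_zero] at h1 ⊢
      positivity)
  rw [hZ1, norm_mul, Complex.norm_real, Real.norm_of_nonneg hρ.le,
    Real.mul_rpow (by linarith only [hB1, hβ1, hβ3]) (by linarith only [hM1, hβ1, hβ3]), ← div_le_iff₀' hρ] at key
  refine le_trans ?_ key
  have h1 : B ^ (4 * (1 - β)) ≤ B := by
    conv_rhs => rw [← Real.rpow_one B]
    exact Real.rpow_le_rpow_of_exponent_le hB1 (by linarith only [hβ1, hβ3])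
  have h2 : 0 < M ^ (4 * (1 - β)) := Real.rpow_pos_of_pos (by linarith only [hM1, hβ1, hβ3]) _
  have h3 : 0 < B ^ (4 * (1 - β)) := Real.rpow_pos_of_pos (by linarith only [hB1, hβ1, hβ3]) _
  have h4 : 0 < 1 - β := by linarith only [hβ1]
  rw [div_mul_eq_mul_div, div_div, div_div, mul_right_comm B]
  gcongr

theorem siegel_posK {q : ℕ} {F : Ideal (𝓞 K) → ℂ} (h : HC q F) (hr : Rl F) (hk : kap F = 0)
    {β : ℝ} (h1 : β < 1) (hz : ∀ σ : ℝ, β ≤ σ → σ < 1 → Ent F σ ≠ 0) : 0 ≤ Ent F β := by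
  have hcont : Continuous fun σ : ℝ => (Ent F σ).re :=
    Complex.continuous_re.comp ((Ent_spec h.toPF).1.continuous.comp Complex.continuous_ofReal)
  have hpos : ∀ {f W : ArithmeticFunction ℂ} {G : ℂ → ℂ}, siegel_P f W G → (∀ n, 0 ≤ W n) →
      ∀ σ : ℝ, 1 < σ → 0 < G σ := by
    intro f W G hf hW σ hσ
    rw [← hf.val _ (by simpa using hσ)]
    exact LSeries.positive (hf.nonneg hW) (by rw [hf.one]; exact zero_lt_one)
      ((siegel_abs hf).trans_lt (by exact_mod_cast hσ))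
  have hc : ∀ σ : ℝ, 1 < σ → 0 < (Ent F σ).re := fun σ hσ => by
    obtain ⟨a1, a2⟩ := Complex.lt_def.1
      (hpos (siegel_P1 K) (siegel_nn fun _ _ => zero_le_one) σ hσ)
    have b1 := (Complex.lt_def.1
      (hpos ((siegel_P1 K).mul (siegel_PK h hk)) (siegel_WK h.le hr) σ hσ)).1
    simp only [Complex.mul_re, ← a2, Complex.zero_re, Complex.zero_im, zero_mul, sub_zero] at a1 b1
    exact (mul_pos_iff_of_pos_left a1).1 b1
  refine Complex.le_def.2 ⟨?_, (Ent_real h.toPF hr β).symm⟩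
  by_contra hneg
  rw [Complex.zero_re, not_le] at hneg
  obtain ⟨σ, hσ, hσ0⟩ := intermediate_value_Icc (show β ≤ 2 by linarith) hcont.continuousOn
    (show (0 : ℝ) ∈ Set.Icc _ _ from ⟨hneg.le, (hc 2 one_lt_two).le⟩)
  have hL : Ent F σ = 0 := Complex.ext hσ0 (Ent_real h.toPF hr σ)
  rcases lt_trichotomy σ 1 with h2 | rfl | h2
  · exact hz σ hσ.1 h2 hL
  · exact L1_ne h hr hk hL
  · exact (hc σ h2).ne' hσ0

theorem siegelK {S : Set (ℕ × (Ideal (𝓞 K) → ℂ))} (hS : Fam S) {ε : ℝ} (hε : 0 < ε) :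
    ∃ c : ℝ, 0 < c ∧ ∀ p ∈ S, Rl p.2 → c / (p.1 : ℝ) ^ ε ≤ ‖Ent p.2 1‖ := by
  obtain ⟨c, δ, hc, hδ, hδ8, hA⟩ := siegel_appK K
  obtain ⟨B, k, hB1, hB⟩ := Ent_ball K
  have hk0 : (0 : ℝ) ≤ k := Nat.cast_nonneg k
  obtain ⟨e, he0, he1, he2⟩ : ∃ e : ℝ, 0 < e ∧ e ≤ δ ∧ 16 * (k + 1) * e ≤ ε := by
    refine ⟨min δ (ε / (16 * (k + 1))), by positivity, min_le_left _ _, ?_⟩
    rw [← le_div_iff₀' (by positivity)]
    exact min_le_right _ _
  have hq1 : ∀ p ∈ S, (1 : ℝ) ≤ p.1 := fun p hp => by exact_mod_cast (hS.1 p hp).1.pos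
  have hpow : ∀ {x y : ℝ}, 1 ≤ x → y ≤ 1 → x ^ y ≤ x := fun {x y} hx hy => by
    conv_rhs => rw [← Real.rpow_one x]
    exact Real.rpow_le_rpow_of_exponent_le hx hy
  by_cases hex : ∃ p₁ ∈ S, ∃ β : ℝ, Rl p₁.2 ∧ 1 - e ≤ β ∧ β < 1 ∧ Ent p₁.2 β = 0
  · obtain ⟨⟨q₁, F₁⟩, hp₁, β, hr₁, hβ0, hβ1, hz⟩ := hex
    obtain ⟨h₁, -, hk₁⟩ := hS.1 _ hp₁
    set η := min (ε / 2) 1 with hη
    have hη0 : 0 < η := by positivity
    have hη1 : η ≤ 1 := min_le_right _ _
    have hη2 : η ≤ ε / 2 := min_le_left _ _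
    obtain ⟨C, r, hC, hr0, -, hD⟩ := Ent_near K hη0 hη1
    have hL₁ : 0 < ‖Ent F₁ 1‖ := norm_pos_iff.2 (L1_ne h₁ hr₁ hk₁)
    have hb : 0 < 1 - β := by linarith only [hβ1]
    have hq₁ : (1 : ℝ) ≤ q₁ := hq1 _ hp₁
    obtain ⟨c₀, hc₀, hc₁⟩ : ∃ c₀ : ℝ, 0 < c₀ ∧ ∀ p ∈ {p' ∈ S | kap (F₁ * p'.2) ≠ 0},
        Rl p.2 → c₀ ≤ ‖Ent p.2 1‖ := by
      have : ∀ᶠ c₀ : ℝ in 𝓝[>] 0, ∀ p ∈ {p' ∈ S | kap (F₁ * p'.2) ≠ 0},
          Rl p.2 → c₀ ≤ ‖Ent p.2 1‖ := by
        refine (eventually_all_finite (hS.2 _ hp₁)).2 fun p hp => ?_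
        by_cases hr : Rl p.2
        · filter_upwards [Ioo_mem_nhdsGT
            (norm_pos_iff.2 (L1_ne (hS.1 p hp.1).1 hr (hS.1 p hp.1).2.2))] with x hx _
          exact hx.2.le
        · exact .of_forall fun _ h => absurd h hr
      exact (eventually_mem_nhdsWithin.and this).exists
    set A : ℝ := B ^ 3 * (q₁ : ℝ) ^ (2 * k) with hAdef
    have hA1 : 1 ≤ A := one_le_mul_of_one_le_of_one_le (one_le_pow₀ hB1) (one_le_pow₀ hq₁)
    refine ⟨min c₀ (c * (1 - β) / (A * ‖Ent F₁ 1‖ * (2 * C * q₁))), by positivity,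
      fun ⟨q, F⟩ hp hr => ?_⟩
    obtain ⟨h, -, hk⟩ := hS.1 _ hp
    have hq : (1 : ℝ) ≤ q := hq1 _ hp
    have hqε : 1 ≤ (q : ℝ) ^ ε := Real.one_le_rpow hq hε.le
    by_cases h3 : kap (F₁ * F) ≠ 0
    · exact (div_le_self (by positivity) hqε).trans
        ((min_le_left _ _).trans (hc₁ _ ⟨hp, h3⟩ hr))
    rw [not_not] at h3
    have h₃ := h₁.mul' h
    dsimp only at h₁ hk₁ h hk h₃ hr hr₁ hz ⊢
    have key := hA _ _ _ (A * (q : ℝ) ^ ((2 * k : ℕ) : ℝ)) β
      ((siegel_PK h₁ hk₁).mul ((siegel_PK h hk).mul (siegel_PK h₃ h3)))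
      ((Ent_spec h₁.toPF).1.mul ((Ent_spec h.toPF).1.mul (Ent_spec h₃.toPF).1))
      (fun n => by
        simp only [siegel_add]
        refine siegel_nn (fun I hI => ?_) n
        refine (mul_nonneg (siegel_oa h₁.le hr₁ hI) (siegel_oa h.le hr hI)).trans_eq ?_
        simp only [Pi.add_apply, Pi.mul_apply]
        ring)
      (one_le_mul_of_one_le_of_one_le hA1 (Real.one_le_rpow hq (by positivity)))
      (fun s hs' => by
        rw [norm_mul, norm_mul]
        have a1 := hB q₁ F₁ h₁.toPF s hs'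
        have a2 := hB q F h.toPF s hs'
        have a3 := hB _ _ h₃.toPF s hs'
        calc _ ≤ B * q₁ ^ k * (B * q ^ k * (B * ((q₁ * q : ℕ) : ℝ) ^ k)) := by gcongr
          _ = _ := by
            rw [hAdef, Real.rpow_natCast]
            push_cast
            ring)
      (by linarith only [he1, hβ0]) hβ1 (by simp [hz])
    have b1 : ‖Ent (F₁ * F) 1‖ ≤ 2 * C * q₁ * (q : ℝ) ^ (ε / 2) := by
      have := hD _ _ h₃.toPF 1 (by simp only [Complex.one_re]; linarith only [hr0]) (by norm_num)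
      rw [Complex.one_im, abs_zero, zero_add, Nat.cast_mul,
        Real.mul_rpow (by positivity) (by positivity)] at this
      refine this.trans ?_
      calc _ ≤ C * (q₁ * (q : ℝ) ^ (ε / 2) * 2) := by
            gcongr
            exact hpow hq₁ hη1
        _ = _ := by ring
    have b2 : (A * (q : ℝ) ^ ((2 * k : ℕ) : ℝ)) ^ (4 * (1 - β)) ≤ A * (q : ℝ) ^ (ε / 2) := by
      rw [Real.mul_rpow (by positivity) (by positivity), ← Real.rpow_mul (by positivity)]
      gcongr
      · exact hpow hA1 (by linarith only [hδ, hδ8, he1, hβ0])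
      · push_cast
        linarith only [mul_le_mul_of_nonneg_left (show 1 - β ≤ e by linarith only [hβ0]) hk0, he0, he2]
    have b3 : (q : ℝ) ^ ε = (q : ℝ) ^ (ε / 2) * (q : ℝ) ^ (ε / 2) := by
      rw [← Real.rpow_add (by positivity), add_halves]
    have b4 : 0 < (q : ℝ) ^ (ε / 2) := by positivity
    rw [norm_mul, norm_mul, div_le_iff₀ (by positivity)] at key
    refine le_trans (div_le_div_of_nonneg_right (min_le_right _ _) (by positivity)) ?_
    rw [div_div, div_le_iff₀ (by positivity)]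
    refine key.trans ?_
    calc _ ≤ ‖Ent F₁ 1‖ * (‖Ent F 1‖ * (2 * C * q₁ * (q : ℝ) ^ (ε / 2))) *
          (A * (q : ℝ) ^ (ε / 2)) := by gcongr
      _ = _ := by
          rw [b3]
          ring
  · refine ⟨c * e / B, by positivity, fun ⟨q, F⟩ hp hr => ?_⟩
    obtain ⟨h, -, hk⟩ := hS.1 _ hp
    have hq : (1 : ℝ) ≤ q := hq1 _ hp
    have hpos := siegel_posK h hr hk (β := 1 - e) (by linarith only [he0])
      fun σ h1 h2 h3 => hex ⟨_, hp, σ, hr, h1, h2, h3⟩
    have key := hA _ _ _ (B * (q : ℝ) ^ k) (1 - e) (siegel_PK h hk) (Ent_spec h.toPF).1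
      (siegel_WK h.le hr) (one_le_mul_of_one_le_of_one_le hB1 (one_le_pow₀ hq))
      (hB q F h.toPF) (by linarith only [he1]) (by linarith only [he0]) hpos
    rw [sub_sub_cancel, Real.mul_rpow (by positivity) (by positivity), ← Real.rpow_natCast,
      ← Real.rpow_mul (by positivity)] at key
    refine le_trans ?_ key
    rw [div_div]
    gcongr
    · exact hpow hB1 (by linarith only [hδ, hδ8, he1])
    · linarith only [hε, he0, he2]

end Pool.Agent.MP_48b1c3_nt.H91

end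

-- part MP_48b1c3_nt.H91.LogDer
section

/-! Bounds for the derivatives of the logarithmic derivative. -/

namespace Pool.Agent.MP_48b1c3_nt.H91

open Finset NumberField H54 Filter
open scoped ContDiff Topology
open scoped ComplexOrder ComplexConjugate

variable {K : Type} [Field K] [NumberField K]

/-- the conjugate function -/
noncomputable def logderC (f : ArithmeticFunction ℂ) : ArithmeticFunction ℂ :=
  ⟨fun n => conj (f n), by simp⟩

theorem logderC_apply (f : ArithmeticFunction ℂ) (n : ℕ) : logderC f n = conj (f n) := rfl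

theorem logder_lg (n : ℕ) : siegel_lg n = Real.log n := by
  rcases eq_or_ne n 0 with rfl | hn
  · simp
  · exact if_neg hn

theorem logder_one_le {f W : ArithmeticFunction ℂ} {Φ : ℂ → ℂ} (h : siegel_P f W Φ)
    (hW : ∀ n, 0 ≤ (W n).re) {σ : ℝ} (hσ : 1 < σ) : 1 ≤ ‖Φ σ‖ := by
  have h' : siegel_P (logderC f) (logderC W) (LSeries (logderC f)) :=
    { der := by
        ext n
        have := congrArg (fun g : ArithmeticFunction ℂ => conj (g n)) h.der
        simpa only [ArithmeticFunction.pmul_apply, ArithmeticFunction.mul_apply, map_mul, map_sum,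
          logder_lg, logderC_apply, Complex.conj_ofReal] using this
      one := by simp [logderC_apply, h.one]
      wone := by simp [logderC_apply, h.wone]
      sum := fun s hs => Summable.of_norm ((h.sum s hs).norm.congr fun n => by
        simp [LSeries.norm_term_eq, logderC_apply])
      val := fun _ _ => rfl }
  have hs : 1 < (σ : ℂ).re := by simpa using hσ
  have h2 := h.mul h'
  have h3 := h2.nonneg fun n => by
    rw [ArithmeticFunction.add_apply, logderC_apply, Complex.add_conj]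
    exact Complex.zero_le_real.2 (by linarith [hW n])
  have h4 : LSeries.term (f * logderC f :) σ 1 ≤ LSeries (f * logderC f :) σ :=
    (h2.sum σ hs).le_tsum 1 fun n _ => LSeries.term_nonneg (h3 n) σ
  have h5 : LSeries (logderC f) σ = conj (Φ σ) := by
    rw [← h.val σ hs, LSeries, LSeries, Complex.conj_tsum]
    refine tsum_congr fun n => ?_
    rcases eq_or_ne n 0 with rfl | hn
    · simp
    rw [LSeries.term_of_ne_zero hn, LSeries.term_of_ne_zero hn, map_div₀, ← Complex.ofReal_natCast,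
      ← Complex.ofReal_cpow (Nat.cast_nonneg n), Complex.conj_ofReal]
    rfl
  rw [h2.val σ hs, h5, Complex.mul_conj', LSeries.term_of_ne_zero one_ne_zero, h2.one] at h4
  have h6 : 1 ≤ ‖Φ σ‖ ^ 2 := by
    simp only [Nat.cast_one, Complex.one_cpow, div_one] at h4
    exact_mod_cast h4
  exact (one_le_sq_iff₀ (norm_nonneg _)).1 h6

theorem logder_tw (F : Ideal (𝓞 K) → ℂ) (w s : ℂ) :
    LSeries (push fun I => F I * (Ideal.absNorm I : ℂ) ^ (-w)) s = LSeries (push F) (s + w) := by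
  refine tsum_congr fun n => ?_
  rcases eq_or_ne n 0 with rfl | hn
  · simp
  have h : (n : ℂ) ≠ 0 := by exact_mod_cast hn
  rw [LSeries.term_of_ne_zero hn, LSeries.term_of_ne_zero hn,
    push_mul_norm F (fun m => (m : ℂ) ^ (-w)), Complex.cpow_add _ _ h, Complex.cpow_neg]
  field_simp

theorem three_four_one {F : Ideal (𝓞 K) → ℂ} (h1 : F ⊤ = 1)
    (hm : ∀ I J, F (I * J) = F I * F J) (hf : ∀ I, ‖F I‖ ≤ 1) {x : ℝ} (hx : 0 < x) (y : ℝ) :
    1 ≤ ‖LSeries (push fun _ : Ideal (𝓞 K) => 1) (1 + x)‖ ^ 3 *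
      ‖LSeries (push F) (1 + x + Complex.I * y)‖ ^ 4 *
        ‖LSeries (push (F * F)) (1 + x + 2 * Complex.I * y)‖ := by
  obtain ⟨G, hG⟩ : ∃ G : Ideal (𝓞 K) → ℂ,
    G = fun I => F I * (Ideal.absNorm I : ℂ) ^ (-(Complex.I * y)) := ⟨_, rfl⟩
  have g1 : G ⊤ = 1 := by simp only [hG, h1, Ideal.absNorm_top, Nat.cast_one, Complex.one_cpow, mul_one]
  have gm : ∀ I J, G (I * J) = G I * G J := fun I J => by
    simp only [hG, hm, map_mul, Nat.cast_mul, Complex.natCast_mul_natCast_cpow]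
    ring
  have gf : ∀ I, ‖G I‖ ≤ 1 := fun I => by
    rw [hG, norm_mul]
    refine mul_le_one₀ (hf I) (norm_nonneg _) ?_
    rcases (Ideal.absNorm I).eq_zero_or_pos with h | h
    · rw [h, Nat.cast_zero, Complex.cpow_def]
      split_ifs <;> simp_all
    · simp [Complex.norm_natCast_cpow_of_pos h]
  have g2 : G * G = fun I => (F * F) I * (Ideal.absNorm I : ℂ) ^ (-(2 * Complex.I * y)) := by
    funext I
    rw [show -(2 * Complex.I * y) = (2 : ℕ) * -(Complex.I * y) by push_cast; ring,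
      Complex.cpow_nat_mul]
    simp only [hG, Pi.mul_apply]
    ring
  have P1 := siegel_P1 K
  have PG := push_P g1 gm gf
  have PH := push_P (F := G * G) (by simp [g1]) (fun I J => by simp only [Pi.mul_apply, gm]; ring)
    fun I => by
      rw [Pi.mul_apply, norm_mul]
      exact mul_le_one₀ (gf I) (norm_nonneg _) (gf I)
  have key := logder_one_le (P1.mul (P1.mul (P1.mul (PG.mul (PG.mul (PG.mul (PG.mul PH)))))))
    (fun n => by
      simp only [siegel_add]
      rcases eq_or_ne n 0 with rfl | hn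
      · simp
      rw [pushL, push_apply _ hn, Complex.re_sum]
      refine sum_nonneg fun I _ => ?_
      rw [Complex.re_ofReal_mul]
      refine mul_nonneg (lam_nonneg I) ?_
      have h2 : (G I).re * (G I).re + (G I).im * (G I).im ≤ 1 := by
        rw [← Complex.normSq_apply, Complex.normSq_eq_norm_sq]
        exact pow_le_one₀ (norm_nonneg _) (gf I)
      simp only [Pi.add_apply, Pi.mul_apply, Complex.add_re, Complex.one_re, Complex.mul_re]
      linarith only [sq_nonneg (1 + (G I).re), h2]) (σ := 1 + x) (by linarith)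
  rw [g2, hG, logder_tw, logder_tw] at key
  push_cast at key
  simp only [norm_mul] at key
  refine key.trans_eq ?_
  ring

theorem logder_inv {F : Ideal (𝓞 K) → ℂ} (h1 : F ⊤ = 1) (hm : ∀ I J, F (I * J) = F I * F J)
    (hf : ∀ I, ‖F I‖ ≤ 1) : (∀ I, ‖(UniqueFactorizationMonoid.moebius I : ℂ) * F I‖ ≤ 1) ∧
      ∀ s : ℂ, 1 < s.re → LSeries (pushM F) s * LSeries (push F) s = 1 := by
  have h : ∀ I, ‖(UniqueFactorizationMonoid.moebius I : ℂ) * F I‖ ≤ 1 := fun I => by
    rw [norm_mul]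
    refine mul_le_one₀ ?_ (norm_nonneg _) (hf I)
    rw [UniqueFactorizationMonoid.moebius]
    split_ifs <;> simp only [Int.reduceNeg, UniqueFactorizationMonoid.factors_eq_normalizedFactors, Int.cast_pow, Int.cast_neg, Int.cast_one, norm_pow, norm_neg, norm_one, one_pow, Std.le_refl, Int.cast_zero, norm_zero, zero_le_one]
  refine ⟨h, fun s hs => ?_⟩
  rw [← ArithmeticFunction.LSeries_mul' (f := pushM F) (push_summable h hs) (push_summable hf hs),
    pushM_mul h1 hm, ArithmeticFunction.one_eq_delta, LSeries_delta, Pi.one_apply]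

variable (K) in
theorem logder_lipK {η : ℝ} (h0 : 0 < η) (h1 : η ≤ 1) :
    ∃ D r : ℝ, 0 < D ∧ 0 < r ∧ r ≤ 1 / 4 ∧ ∀ (q : ℕ) (F : Ideal (𝓞 K) → ℂ), PF q F → ∀ y : ℝ,
      (∀ z : ℂ, 1 - r ≤ z.re → z.re ≤ 3 → |z.im| ≤ |y| + 1 →
        ‖deriv (Ent F) z‖ ≤ D * ((q : ℝ) ^ η * (|y| + 2))) ∧
      (∀ z w : ℂ, 1 - r ≤ z.re → z.re ≤ 3 → |z.im| ≤ |y| + 1 →
        1 - r ≤ w.re → w.re ≤ 3 → |w.im| ≤ |y| + 1 →
        ‖Ent F w - Ent F z‖ ≤ D * ((q : ℝ) ^ η * (|y| + 2)) * ‖w - z‖) := by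
  obtain ⟨C, r, hC, hr0, hr1, H⟩ := Ent_near K h0 h1
  refine ⟨4 * C / r, r / 2, by positivity, by positivity, by linarith, fun q F h y => ?_⟩
  have hq : 0 ≤ (q : ℝ) ^ η := by positivity
  have hd := (Ent_spec h).1
  have k1 : ∀ s : ℂ, 1 - r / 2 ≤ s.re → s.re ≤ 3 → |s.im| ≤ |y| + 1 →
      ‖deriv (Ent F) s‖ ≤ 4 * C / r * ((q : ℝ) ^ η * (|y| + 2)) := by
    intro s hs1 hs2 hs3
    have key := Complex.norm_deriv_le_of_forall_mem_sphere_norm_le (c := s) (R := r / 2)
      (C := C * ((q : ℝ) ^ η * (2 * (|y| + 2)))) (f := Ent F) (by positivity)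
      hd.diffContOnCl (fun z hz => ?_)
    · refine key.trans_eq ?_
      field_simp
      ring
    · have hz' : ‖z - s‖ = r / 2 := mem_sphere_iff_norm.mp hz
      have a1 := Complex.abs_re_le_norm (z - s)
      have a2 := Complex.abs_im_le_norm (z - s)
      rw [hz', Complex.sub_re, abs_le] at a1
      rw [hz', Complex.sub_im] at a2
      have a3 : |z.im| ≤ |z.im - s.im| + |s.im| := by simpa using abs_add_le (z.im - s.im) s.im
      refine (H q F h z (by linarith only [a1.1, hs1]) (by linarith only [a1.2, hr1, hs2])).trans ?_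
      gcongr
      linarith only [abs_nonneg y, hr1, hs3, a2, a3]
  refine ⟨k1, fun z w a1 a2 a3 b1 b2 b3 => ?_⟩
  have hK : Convex ℝ (({c : ℂ | 1 - r / 2 ≤ c.re} ∩ {c : ℂ | c.re ≤ 3}) ∩
      ({c : ℂ | -(|y| + 1) ≤ c.im} ∩ {c : ℂ | c.im ≤ |y| + 1})) :=
    ((convex_halfSpace_re_ge _).inter (convex_halfSpace_re_le _)).inter
      ((convex_halfSpace_im_ge _).inter (convex_halfSpace_im_le _))
  exact hK.norm_image_sub_le_of_norm_deriv_le (fun x _ => hd x)
    (fun x hx => k1 x hx.1.1 hx.1.2 (abs_le.mpr ⟨hx.2.1, hx.2.2⟩))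
    ⟨⟨a1, a2⟩, abs_le.mp a3⟩ ⟨⟨b1, b2⟩, abs_le.mp b3⟩

theorem logder_rl {q : ℕ} {F : Ideal (𝓞 K) → ℂ} (h : HC q F) (hB : BB K ∣ q)
    (hk : kap (F * F) ≠ 0) : Rl F := fun I hI => by
  by_cases h0 : F I = 0
  · simp [h0]
  rcases mul_self_eq_one_iff.1 (dichotomy (h.mul_same h) hB hk hI (h.cop I h0)) with h1 | h1 <;>
    simp [h1]

theorem logder_low {S : Set (ℕ × (Ideal (𝓞 K) → ℂ))} (hS : Fam S) {η : ℝ} (h0 : 0 < η)
    (h1 : η ≤ 1) : ∃ c : ℝ, 0 < c ∧ ∀ (q : ℕ) (F : Ideal (𝓞 K) → ℂ), (q, F) ∈ S →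
      ∀ s : ℂ, 1 < s.re → s.re ≤ 2 → c / ((q : ℝ) ^ η * (|s.im| + 2)) ^ 6 ≤ ‖Ent F s‖ := by
  obtain ⟨D, r, hD, hr0, hr1, HD⟩ := logder_lipK K h0 h1
  obtain ⟨c₃, hc₃, HS⟩ := siegelK hS h0
  obtain ⟨C₁, r₁, hC₁, hr₁, -, H1⟩ := Ent_near K h0 h1
  obtain ⟨C₂, hC₂, H2⟩ := norm_kap_le K
  obtain ⟨C₀, hC₀, H0⟩ := LSeries_le K
  obtain ⟨a, ha0, ha1, ha2⟩ : ∃ a : ℝ, 0 < a ∧ a ≤ 1 ∧ 4 * D * a ≤ c₃ := by
    refine ⟨min 1 (c₃ / (4 * D)), by positivity, min_le_left _ _, ?_⟩
    have := min_le_right 1 (c₃ / (4 * D))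
    rwa [le_div_iff₀' (by positivity)] at this
  obtain ⟨E, hE⟩ : ∃ E : ℝ, E = 2 * C₁ + C₂ / a := ⟨_, rfl⟩
  have hE0 : 0 < E := by rw [hE]; positivity
  obtain ⟨b, hb0, hb1, hb2⟩ : ∃ b : ℝ, 0 < b ∧ b ≤ a ∧ 32 * C₀ ^ 3 * D ^ 4 * E * b ≤ 1 := by
    refine ⟨min a (1 / (32 * C₀ ^ 3 * D ^ 4 * E)), by positivity, min_le_left _ _, ?_⟩
    have := min_le_right a (1 / (32 * C₀ ^ 3 * D ^ 4 * E))
    rwa [le_div_iff₀' (by positivity)] at this
  refine ⟨min (b / C₀) (min (c₃ / 2) (D * b)), by positivity, fun q F hp s hs1 hs2 => ?_⟩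
  obtain ⟨h, hB, hk⟩ : HC q F ∧ BB K ∣ q ∧ kap F = 0 := hS.1 _ hp
  obtain ⟨-, HL⟩ := HD q F h.toPF s.im
  have hq : 1 ≤ (q : ℝ) ^ η := Real.one_le_rpow (by exact_mod_cast h.pos) h0.le
  have hy := abs_nonneg s.im
  obtain ⟨U, hU⟩ : ∃ U : ℝ, U = (q : ℝ) ^ η * (|s.im| + 2) := ⟨_, rfl⟩
  rw [← hU] at HL ⊢
  have hqU : (q : ℝ) ^ η ≤ U := by rw [hU]; nlinarith only [hq, hy]
  have hU1 : 1 ≤ U := hq.trans hqU
  have hU0 : 0 < U := by linarith only [hr0, hr1, hq, hqU]
  have hU2 : U ≤ U ^ 2 := by nlinarith only [hq, hqU]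
  have hU26 : U ^ 2 ≤ U ^ 6 := pow_le_pow_right₀ hU1 (by norm_num)
  obtain ⟨x, hx⟩ : ∃ x : ℝ, x = b / U ^ 6 := ⟨_, rfl⟩
  have hx0 : 0 < x := by rw [hx]; positivity
  have hxa : x ≤ a / U ^ 2 := by rw [hx]; gcongr
  have haU : a / U ^ 2 ≤ 1 := by
    rw [div_le_one (by positivity)]; linarith only [ha1, hq, hqU, hU2]
  have hx1 : x ≤ 1 := hxa.trans haU
  rcases le_total x (s.re - 1) with hσ | hσ
  · obtain ⟨i1, i2⟩ := logder_inv h.one h.mul h.le
    have i3 := congrArg norm (i2 s hs1)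
    have i4 : ‖LSeries (pushM F) s‖ ≤ C₀ / x := (H0 _ i1 s hs1 hs2).trans (by gcongr)
    rw [norm_mul, norm_one, siegel_eq h.toPF hk hs1] at i3
    have i5 := mul_le_mul_of_nonneg_right i4 (norm_nonneg (Ent F s))
    rw [i3, div_mul_eq_mul_div, one_le_div hx0, ← div_le_iff₀' hC₀] at i5
    calc min (b / C₀) (min (c₃ / 2) (D * b)) / U ^ 6 ≤ (b / C₀) / U ^ 6 := by
          gcongr; exact min_le_left _ _
      _ = x / C₀ := by rw [hx]; ring
      _ ≤ _ := i5
  by_cases hcase : kap (F * F) ≠ 0 ∧ |s.im| ≤ a / U ^ 2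
  · have k1 : c₃ / (q : ℝ) ^ η ≤ ‖Ent F 1‖ := HS _ hp (logder_rl h hB hcase.1)
    have k2 := HL 1 s (by simp only [Complex.one_re, tsub_le_iff_right, le_add_iff_nonneg_right]; linarith only [hr0]) (by simp) (by simp only [Complex.one_im, abs_zero]; positivity) (by linarith only [hr0, hs1])
      (by linarith only [hr0, hr1, hs2]) (by linarith only [hr0, hr1])
    have k3 : ‖s - 1‖ ≤ 2 * (a / U ^ 2) := by
      have := Complex.norm_le_abs_re_add_abs_im (s - 1)
      simp only [Complex.sub_re, Complex.one_re, Complex.sub_im, Complex.one_im, sub_zero] at this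
      rw [abs_of_nonneg (by linarith only [hs1] : 0 ≤ s.re - 1)] at this
      linarith only [hcase.2, hxa, hσ, this]
    have k4 : D * U * ‖s - 1‖ ≤ c₃ / 2 / U := by
      calc D * U * ‖s - 1‖ ≤ D * U * (2 * (a / U ^ 2)) := by gcongr
        _ = (4 * D * a) / 2 / U := by field_simp; ring
        _ ≤ _ := by gcongr
    have k5 : c₃ / U ≤ c₃ / (q : ℝ) ^ η := by gcongr
    have k6 : ‖Ent F 1‖ ≤ ‖Ent F s‖ + ‖Ent F s - Ent F 1‖ := by
      simpa only [sub_sub_cancel] using norm_sub_le (Ent F s) (Ent F s - Ent F 1)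
    have k7 : c₃ / U = c₃ / 2 / U + c₃ / 2 / U := by ring
    calc min (b / C₀) (min (c₃ / 2) (D * b)) / U ^ 6 ≤ (c₃ / 2) / U := by
          gcongr
          · exact (min_le_right _ _).trans (min_le_left _ _)
          · linarith only [hU2, hU26]
      _ ≤ _ := by linarith only [k1, k2, k4, k5, k6, k7]
  · have hre : ((1 : ℂ) + x + 2 * Complex.I * s.im).re = 1 + x := by simp
    have him : ((1 : ℂ) + x + 2 * Complex.I * s.im).im = 2 * s.im := by simp
    have k1 : ‖LSeries (push (F * F)) (1 + x + 2 * Complex.I * s.im)‖ ≤ E * U ^ 2 := by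
      have h2 := (h.mul_same h).toPF
      rw [(Ent_spec h2).2 _ (by rw [hre]; linarith only [hx0]), hE, add_mul, add_comm (2 * C₁ * _)]
      refine (norm_add_le _ _).trans (add_le_add ?_ ?_)
      · by_cases h3 : kap (F * F) = 0
        · rw [h3, zero_div, norm_zero]
          positivity
        have hy2 : a / U ^ 2 < |s.im| := by
          by_contra hc
          exact hcase ⟨h3, not_lt.mp hc⟩
        have e1 : |s.im| ≤ ‖(1 : ℂ) + x + 2 * Complex.I * s.im - 1‖ := by
          have := Complex.abs_im_le_norm ((1 : ℂ) + x + 2 * Complex.I * s.im - 1)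
          rw [Complex.sub_im, him, Complex.one_im, sub_zero, abs_mul, abs_two] at this
          linarith only [hx0, hxa, hy2, this]
        rw [norm_div]
        calc _ ≤ C₂ / (a / U ^ 2) := by
              gcongr
              · exact H2 _ _ h2
              · exact hy2.le.trans e1
          _ = _ := by field_simp
      · refine (H1 q _ h2 _ (by rw [hre]; linarith only [hr₁, hx0]) (by rw [hre]; linarith only [hr0, hr1, hxa, haU])).trans ?_
        rw [him, abs_mul, abs_two]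
        calc _ ≤ C₁ * ((q : ℝ) ^ η * (2 * (|s.im| + 2))) := by
              gcongr
              linarith only [hr0, hr1]
          _ = 2 * C₁ * U := by rw [hU]; ring
          _ ≤ _ := by gcongr
    have k2 : ‖LSeries (push fun _ : Ideal (𝓞 K) => 1) (1 + x)‖ ≤ C₀ / x := by
      simpa only [Complex.add_re, Complex.one_re, Complex.ofReal_re, add_sub_cancel_left] using H0 (fun _ => 1) (fun _ => by simp) (1 + x) (by simpa using hx0)
        (by simp; linarith only [hxa, haU])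
    have k3 := three_four_one h.one h.mul h.le hx0 s.im
    rw [siegel_eq h.toPF hk (by simpa using hx0)] at k3
    have k4 : 2 * D * U * x ≤ ‖Ent F (1 + x + Complex.I * s.im)‖ := by
      by_contra hc
      have hc' := (not_le.mp hc).le
      have e1 : ‖LSeries (push fun _ : Ideal (𝓞 K) => 1) (1 + x)‖ ^ 3 *
          ‖Ent F (1 + x + Complex.I * s.im)‖ ^ 4 *
          ‖LSeries (push (F * F)) (1 + x + 2 * Complex.I * s.im)‖ ≤
          (C₀ / x) ^ 3 * (2 * D * U * x) ^ 4 * (E * U ^ 2) := by gcongr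
      have e2 : (C₀ / x) ^ 3 * (2 * D * U * x) ^ 4 * (E * U ^ 2) =
          16 * C₀ ^ 3 * D ^ 4 * E * (x * U ^ 6) := by
        field_simp
        ring
      have e3 : x * U ^ 6 = b := by rw [hx]; field_simp
      rw [e2, e3] at e1
      linarith only [hb2, k3, e1]
    have k5 := HL s (1 + x + Complex.I * s.im) (by linarith only [hr0, hs1]) (by linarith only [hr0, hr1, hs2]) (by linarith only [hr0, hr1])
      (by simp; linarith only [hr0, hx0]) (by simp; linarith only [hr0, hr1, hxa, haU]) (by simp)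
    have k6 : ‖(1 : ℂ) + x + Complex.I * s.im - s‖ ≤ x := by
      have := Complex.norm_le_abs_re_add_abs_im ((1 : ℂ) + x + Complex.I * s.im - s)
      have e1 : ((1 : ℂ) + x + Complex.I * s.im - s).re = 1 + x - s.re := by simp
      have e2 : ((1 : ℂ) + x + Complex.I * s.im - s).im = 0 := by simp
      rw [e1, e2, abs_zero, abs_of_nonneg (by linarith only [hσ])] at this
      linarith only [hs1, this]
    have k7 : D * U * ‖(1 : ℂ) + x + Complex.I * s.im - s‖ ≤ D * U * x := by gcongr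
    have k8 : ‖Ent F (1 + x + Complex.I * s.im)‖ ≤
        ‖Ent F (1 + x + Complex.I * s.im) - Ent F s‖ + ‖Ent F s‖ := by
      simpa only [sub_add_cancel] using norm_add_le (Ent F (1 + x + Complex.I * s.im) - Ent F s)
        (Ent F s)
    have k9 : D * 1 * x ≤ D * U * x := by gcongr
    calc min (b / C₀) (min (c₃ / 2) (D * b)) / U ^ 6 ≤ (D * b) / U ^ 6 := by
          gcongr
          exact (min_le_right _ _).trans (min_le_right _ _)
      _ = D * 1 * x := by rw [hx]; ring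
      _ ≤ _ := by linarith only [k4, k5, k7, k8, k9]

theorem logder {S : Set (ℕ × (Ideal (𝓞 K) → ℂ))} (hS : Fam S) (k : ℕ) {ε : ℝ} (hε : 0 < ε) :
    ∃ (C : ℝ) (j : ℕ), 0 < C ∧ ∀ p ∈ S, ∀ s : ℂ, 1 < s.re → s.re ≤ 2 →
      ‖LSeries (fun m => (Real.log m : ℂ) ^ k * pushL p.2 m) s‖ ≤
        C * (p.1 : ℝ) ^ ε * (|s.im| + 2) ^ j := by
  obtain ⟨η, h0, h1, hη⟩ : ∃ η : ℝ, 0 < η ∧ η ≤ 1 ∧ η * ((7 * (k + 1) : ℕ) : ℝ) ≤ ε := by
    refine ⟨min 1 (ε / ((7 * (k + 1) : ℕ) : ℝ)), by positivity, min_le_left _ _, ?_⟩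
    have := min_le_right 1 (ε / ((7 * (k + 1) : ℕ) : ℝ))
    rwa [le_div_iff₀ (by positivity)] at this
  obtain ⟨D, r₀, hD, hr₀, hr₁, HD⟩ := logder_lipK K h0 h1
  obtain ⟨c, hc, Hc⟩ := logder_low hS h0 h1
  obtain ⟨r, hr0, hr1, hr2⟩ : ∃ r : ℝ, 0 < r ∧ r ≤ r₀ ∧ 2 * D * r ≤ c := by
    refine ⟨min r₀ (c / (2 * D)), by positivity, min_le_left _ _, ?_⟩
    have := min_le_right r₀ (c / (2 * D))
    rwa [le_div_iff₀' (by positivity)] at this
  refine ⟨k.factorial * (2 * D / c) / r ^ k, 7 * (k + 1), by positivity,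
    fun ⟨q, F⟩ hp s hs1 hs2 => ?_⟩
  obtain ⟨h, -, hk⟩ : HC q F ∧ BB K ∣ q ∧ kap F = 0 := hS.1 _ hp
  obtain ⟨HL', HL⟩ := HD q F h.toPF s.im
  have Hs := Hc q F hp s hs1 hs2
  have hq1 : (1 : ℝ) ≤ q := by exact_mod_cast h.pos
  have hq : 1 ≤ (q : ℝ) ^ η := Real.one_le_rpow hq1 h0.le
  have hd := (Ent_spec h.toPF).1
  dsimp only
  have hy := abs_nonneg s.im
  obtain ⟨U, hU⟩ : ∃ U : ℝ, U = (q : ℝ) ^ η * (|s.im| + 2) := ⟨_, rfl⟩
  rw [← hU] at HL HL' Hs
  have hU1 : 1 ≤ U := by rw [hU]; nlinarith only [hq, hy]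
  have hU0 : 0 < U := by linarith only [hr₀, hr₁, hU1]
  have hρ : r / U ^ 7 ≤ r₀ :=
    (div_le_self hr0.le (one_le_pow₀ hU1)).trans hr1
  have hball : ∀ z ∈ Metric.closedBall s (r / U ^ 7),
      1 - r₀ ≤ z.re ∧ z.re ≤ 3 ∧ |z.im| ≤ |s.im| + 1 := by
    intro z hz
    have hz' : ‖z - s‖ ≤ r / U ^ 7 := mem_closedBall_iff_norm.mp hz
    have a1 := Complex.abs_re_le_norm (z - s)
    have a2 := Complex.abs_im_le_norm (z - s)
    rw [Complex.sub_re, abs_le] at a1
    rw [Complex.sub_im] at a2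
    have a3 : |z.im| ≤ |z.im - s.im| + |s.im| := by simpa using abs_add_le (z.im - s.im) s.im
    exact ⟨by linarith only [a1.1, hs1, hρ, hz'], by linarith only [a1.2, hr₁, hs2, hρ, hz'], by linarith⟩
  have hlow : ∀ z ∈ Metric.closedBall s (r / U ^ 7), c / 2 / U ^ 6 ≤ ‖Ent F z‖ := by
    intro z hz
    have hz' : ‖z - s‖ ≤ r / U ^ 7 := mem_closedBall_iff_norm.mp hz
    obtain ⟨a1, a2, a3⟩ := hball z hz
    have k1 := HL s z (by linarith only [hr₀, hs1]) (by linarith only [hr₀, hr₁, hs2]) (by linarith only [hr₀, hr₁]) a1 a2 a3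
    have k2 : D * U * ‖z - s‖ ≤ c / 2 / U ^ 6 := by
      calc D * U * ‖z - s‖ ≤ D * U * (r / U ^ 7) := by gcongr
        _ = (2 * D * r) / 2 / U ^ 6 := by field_simp
        _ ≤ _ := by gcongr
    have k3 : ‖Ent F s‖ ≤ ‖Ent F z‖ + ‖Ent F z - Ent F s‖ := by
      simpa only [sub_sub_cancel] using norm_sub_le (Ent F z) (Ent F z - Ent F s)
    have k4 : c / U ^ 6 = c / 2 / U ^ 6 + c / 2 / U ^ 6 := by ring
    linarith only [Hs, k1, k2, k3, k4]
  have hpos : 0 < c / 2 / U ^ 6 := by positivity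
  have hdiff : DifferentiableOn ℂ (fun z => -deriv (Ent F) z / Ent F z)
      (Metric.closedBall s (r / U ^ 7)) := by
    intro z hz
    have hne : Ent F z ≠ 0 := norm_pos_iff.mp (hpos.trans_le (hlow z hz))
    exact (((hd.deriv z).fun_neg).fun_div
      (hd z) hne).differentiableWithinAt
  have key := Complex.norm_iteratedDeriv_le_of_forall_mem_sphere_norm_le (c := s)
    (R := r / U ^ 7) (C := 2 * D / c * U ^ 7) k (by positivity)
    (hdiff.mono Metric.closure_ball_subset_closedBall).diffContOnCl (fun z hz => ?_)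
  swap
  · have hz' := Metric.sphere_subset_closedBall hz
    obtain ⟨a1, a2, a3⟩ := hball z hz'
    rw [norm_div, norm_neg]
    calc _ ≤ D * U / (c / 2 / U ^ 6) := by
          gcongr
          · exact HL' z a1 a2 a3
          · exact hlow z hz'
      _ = _ := by field_simp
  have hP := siegel_PK h hk
  have ho : IsOpen {z : ℂ | 1 < z.re} := isOpen_lt continuous_const Complex.continuous_re
  have hev : (fun z => -deriv (Ent F) z / Ent F z) =ᶠ[nhds s] LSeries (pushL F) := by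
    filter_upwards [ho.mem_nhds hs1] with z hz
    have e1 : LSeries (push F) =ᶠ[nhds z] Ent F :=
      mem_of_superset (ho.mem_nhds hz) fun w hw => hP.val w hw
    have e2 : Ent F z ≠ 0 :=
      hP.val z hz ▸ right_ne_zero_of_mul_eq_one ((logder_inv h.one h.mul h.le).2 z hz)
    rw [← e1.deriv_eq, LSeries_deriv ((siegel_abs hP).trans_lt (by exact_mod_cast hz)), neg_neg,
      div_eq_iff e2, ← hP.val z hz,
      ← ArithmeticFunction.LSeries_mul' (pushL_summable h.le hz) (hP.sum z hz), ← hP.der]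
    refine LSeries_congr (fun {n} _ => ?_) z
    rw [LSeries.logMul, ArithmeticFunction.pmul_apply, logder_lg, Complex.natCast_log]
  have habs : LSeries.abscissaOfAbsConv (pushL F) < s.re := by
    refine lt_of_le_of_lt (b := ((1 : ℝ) : EReal)) ?_ (by exact_mod_cast hs1)
    exact LSeries.abscissaOfAbsConv_le_of_forall_lt_LSeriesSummable fun y hy =>
      pushL_summable h.le (by simpa using hy)
  rw [hev.iteratedDeriv_eq k, LSeries_iteratedDeriv k habs, norm_mul, norm_pow, norm_neg, norm_one,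
    one_pow, one_mul] at key
  have e : LSeries.logMul^[k] (pushL F) = fun n : ℕ => (Real.log n : ℂ) ^ k * pushL F n := by
    funext n
    rw [logder_iter, Complex.natCast_log]
  rw [e] at key
  refine key.trans ?_
  have e2 : (k.factorial : ℝ) * (2 * D / c * U ^ 7) / (r / U ^ 7) ^ k =
      k.factorial * (2 * D / c) / r ^ k * U ^ (7 * (k + 1)) := by
    rw [div_pow, ← pow_mul]
    field_simp
    ring
  have e3 : U ^ (7 * (k + 1)) ≤ (q : ℝ) ^ ε * (|s.im| + 2) ^ (7 * (k + 1)) := by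
    rw [hU, mul_pow, ← Real.rpow_natCast ((q : ℝ) ^ η), ← Real.rpow_mul (Nat.cast_nonneg q)]
    gcongr
  rw [e2, mul_assoc _ ((q : ℝ) ^ ε)]
  gcongr

end Pool.Agent.MP_48b1c3_nt.H91

end
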