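import Pool.Agent.MP_48b1c3_nt.Mg.H48_QX
import Pool.Agent.MP_48b1c3_nt.H54.LS
import Pool.Agent.MP_48b1c3_nt.H54.Siegel
import Pool.Agent.MP_48b1c3_nt.H54.BV
import Pool.Agent.MP_48b1c3_nt.Mg.H48_Sv2
import Pool.Agent.MP_48b1c3_nt.H91.Defs

attribute [-instance] IdemSemiring.toCanonicallyOrderedAdd AddQuantale.instAddLeftMono
  covariant_swap_mul_of_covariant_mul IsOrderedMonoid.toMulLeftMono IdemSemiring.toMulLeftMono
  RKHS.instFunLike NumberField.to_charZero Quantale.instMulLeftMono AddQuantale.instAddRightMono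
  Quantale.instMulRightMono CanonicallyOrderedAdd.toMulLeftMono instCoeOTCOfCoeOut

-- part MP_48b1c3_nt.H91.TypeII
section

/-! Type II sums. -/

namespace Pool.Agent.MP_48b1c3_nt.H91

open Finset NumberField H54 Filter
open scoped ContDiff Topology

theorem typeii_pairs {M : Type} [AddCommMonoid M] (F : ℕ → ℕ → M) (N : ℕ) :
    ∑ n ∈ Icc 1 N, ∑ p ∈ n.divisorsAntidiagonal, F p.1 p.2 =
      ∑ p ∈ (Icc 1 N ×ˢ Icc 1 N).filter (fun p : ℕ × ℕ => p.1 * p.2 ≤ N), F p.1 p.2 := by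
  rw [← sum_fiberwise_of_maps_to (t := Icc 1 N) (g := fun p : ℕ × ℕ => p.1 * p.2)]
  · refine sum_congr rfl fun n hn => ?_
    rw [mem_Icc] at hn
    refine sum_congr ?_ fun p _ => rfl
    ext p
    simp only [Nat.mem_divisorsAntidiagonal, mem_filter, mem_product, mem_Icc]
    constructor
    · rintro ⟨h1, h2⟩
      have h3 : 0 < p.1 := Nat.pos_of_ne_zero fun h => by rw [h] at h1; omega
      have h4 : 0 < p.2 := Nat.pos_of_ne_zero fun h => by rw [h] at h1; omega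
      have h5 : p.1 ≤ p.1 * p.2 := Nat.le_mul_of_pos_right _ h4
      have h6 : p.2 ≤ p.1 * p.2 := Nat.le_mul_of_pos_left _ h3
      omega
    · rintro ⟨_, h2⟩
      omega
  · intro p hp
    simp only [mem_filter, mem_product, mem_Icc] at hp ⊢
    exact ⟨Nat.mul_pos hp.1.1.1 hp.1.2.1, hp.2⟩

theorem typeii_tau_nonneg (m : ℕ) : 0 ≤ tau m := Nat.cast_nonneg _

theorem typeii_tau_mul (d e : ℕ) : tau (d * e) ≤ tau d * tau e := by
  unfold tau
  rw [Nat.divisors_mul]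
  exact_mod_cast card_mul_le

theorem typeii_tau_card (m : ℕ) (c : ℝ) : ∑ _p ∈ m.divisorsAntidiagonal, c = tau m * c := by
  rw [Nat.sum_divisorsAntidiagonal (fun _ _ => c), sum_const, nsmul_eq_mul]
  rfl

theorem typeii_L (k : ℕ) (N : ℕ) :
    ∑ m ∈ Icc 1 N, tau m ^ k / m ≤ (1 + Real.log N) ^ 2 ^ k := by
  induction k with
  | zero =>
    have h := harmonic_le_one_add_log N
    rw [harmonic_eq_sum_Icc] at h
    push_cast at h
    simpa only [pow_zero, one_div, pow_one, ge_iff_le] using h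
  | succ k ih =>
    have h0 : ∀ m : ℕ, 0 ≤ tau m ^ k / m := fun m =>
      div_nonneg (pow_nonneg (typeii_tau_nonneg m) k) (Nat.cast_nonneg m)
    calc ∑ m ∈ Icc 1 N, tau m ^ (k + 1) / m
        ≤ ∑ m ∈ Icc 1 N, ∑ p ∈ m.divisorsAntidiagonal,
            (tau p.1 ^ k / p.1) * (tau p.2 ^ k / p.2) := by
          refine sum_le_sum fun m _ => ?_
          rw [pow_succ', mul_div_assoc, ← typeii_tau_card]
          refine sum_le_sum fun p hp => ?_
          rw [← (Nat.mem_divisorsAntidiagonal.1 hp).1, div_mul_div_comm, ← mul_pow, Nat.cast_mul]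
          exact div_le_div_of_nonneg_right
            (pow_le_pow_left₀ (typeii_tau_nonneg _) (typeii_tau_mul _ _) k) (by positivity)
      _ ≤ ∑ p ∈ Icc 1 N ×ˢ Icc 1 N, (tau p.1 ^ k / p.1) * (tau p.2 ^ k / p.2) := by
          rw [typeii_pairs (fun d e => (tau d ^ k / d) * (tau e ^ k / e))]
          exact sum_le_sum_of_subset_of_nonneg (filter_subset _ _)
            fun p _ _ => mul_nonneg (h0 _) (h0 _)
      _ = (∑ m ∈ Icc 1 N, tau m ^ k / m) ^ 2 := by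
          rw [sq, sum_mul_sum, sum_product]
      _ ≤ ((1 + Real.log N) ^ 2 ^ k) ^ 2 :=
          pow_le_pow_left₀ (sum_nonneg fun m _ => h0 m) ih 2
      _ = _ := by rw [← pow_mul, ← pow_succ]

theorem tau_sum (k : ℕ) (N : ℕ) :
    ∑ m ∈ Icc 1 N, tau m ^ k / m ≤ (1 + Real.log N) ^ 2 ^ k ∧
      ∑ m ∈ Icc 1 N, tau m ^ k ≤ N * (1 + Real.log N) ^ 2 ^ k := by
  refine ⟨typeii_L k N, le_trans ?_ (mul_le_mul_of_nonneg_left (typeii_L k N) (Nat.cast_nonneg N))⟩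
  rw [mul_sum]
  refine sum_le_sum fun m hm => ?_
  rw [mem_Icc] at hm
  have h1 : (0 : ℝ) < m := by exact_mod_cast hm.1
  have h2 : (m : ℝ) ≤ N := by exact_mod_cast hm.2
  rw [← mul_div_assoc, le_div_iff₀ h1, mul_comm]
  exact mul_le_mul_of_nonneg_right h2 (pow_nonneg (typeii_tau_nonneg m) k)

theorem typeii_zero {v : ℝ → ℂ} (hv : Test v) {x : ℝ} (hx : 0 < x) (n : ℕ) (hn : ⌊x⌋₊ < n) :
    v (Real.log (n / x)) = 0 := by
  refine hv.2 _ fun h => ?_
  have h1 : x < n := Nat.lt_of_floor_lt hn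
  exact absurd h.2 (not_le.2 (Real.log_pos ((one_lt_div hx).2 h1)))

theorem typeii_conv (g h : ArithmeticFunction ℂ) (f : ℕ → ℂ) (hf : ∀ m n, f (m * n) = f m * f n)
    {v : ℝ → ℂ} (hv : Test v) {x : ℝ} (hx : 0 < x) : sm (fun m => (g * h) m * f m) v x =
      ∑ d ∈ Icc 1 ⌊x⌋₊, ∑ k ∈ Icc 1 ⌊x⌋₊,
        g d * f d * (h k * f k) * v (Real.log ((d * k : ℕ) / x)) := by
  rw [← sum_product', ← sum_filter_add_sum_filter_not _ (fun p : ℕ × ℕ => p.1 * p.2 ≤ ⌊x⌋₊)]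
  rw [sum_eq_zero (s := filter (fun p : ℕ × ℕ => ¬ p.1 * p.2 ≤ ⌊x⌋₊) _)
    (fun p hp => by rw [typeii_zero hv hx _ (not_le.1 (mem_filter.1 hp).2), mul_zero]), add_zero,
    ← typeii_pairs (fun d k => g d * f d * (h k * f k) * v (Real.log ((d * k : ℕ) / x)))]
  unfold sm
  refine sum_congr rfl fun n _ => ?_
  beta_reduce
  rw [ArithmeticFunction.mul_apply, sum_mul, sum_mul]
  refine sum_congr rfl fun p hp => ?_
  rw [← (Nat.mem_divisorsAntidiagonal.1 hp).1, hf]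
  ring

theorem sm_conv (g h : ArithmeticFunction ℂ) (f : ℕ → ℂ) (hf : ∀ m n, f (m * n) = f m * f n)
    {v : ℝ → ℂ} (hv : Test v) {x : ℝ} (hx : 0 < x) : sm (fun m => (g * h) m * f m) v x =
      ∑ d ∈ Icc 1 ⌊x⌋₊, g d * f d * sm (fun m => h m * f m) v (x / d) := by
  rw [typeii_conv g h f hf hv hx]
  refine sum_congr rfl fun d hd => ?_
  have hd1 : (1 : ℝ) ≤ d := by exact_mod_cast (mem_Icc.1 hd).1
  have hd0 : (0 : ℝ) < d := by linarith
  have e : ∀ k : ℕ, ((d * k : ℕ) : ℝ) / x = k / (x / d) := fun k => by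
    push_cast
    field_simp
  unfold sm
  rw [mul_sum]
  symm
  simp only [e, ← mul_assoc]
  refine sum_subset (Icc_subset_Icc_right (Nat.floor_le_floor (div_le_self hx.le hd1)))
    fun k hk hk' => ?_
  rw [typeii_zero hv (div_pos hx hd0) k, mul_zero]
  simp only [mem_Icc] at hk hk'
  omega

open MeasureTheory in
theorem typeii_block {ι : Type} (X : Finset ι) (f : ι → ℕ → ℂ)
    (v φ : ℝ → ℂ) (hc : Continuous φ) (hi : Integrable fun t : ℝ => ‖φ t‖)
    (hv : ∀ u : ℝ, v u = ∫ t : ℝ, φ t * Complex.exp (Complex.I * t * u))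
    (x : ℝ) (hx : 0 < x) (S T : Finset ℕ) (hS : ∀ d ∈ S, 0 < d) (hT : ∀ k ∈ T, 0 < k)
    (A₁ A₂ : ℝ) (hA : 0 ≤ A₁)
    (h₁ : ∀ a : ℕ → ℂ, ∑ i ∈ X, ‖∑ d ∈ S, a d * f i d‖ ^ 2 ≤ A₁ * ∑ d ∈ S, ‖a d‖ ^ 2)
    (h₂ : ∀ a : ℕ → ℂ, ∑ i ∈ X, ‖∑ d ∈ T, a d * f i d‖ ^ 2 ≤ A₂ * ∑ d ∈ T, ‖a d‖ ^ 2)
    (a b : ℕ → ℂ) (R : ℝ) (hR0 : 0 ≤ R)
    (hR : (A₁ * ∑ n ∈ S, ‖a n‖ ^ 2) * (A₂ * ∑ n ∈ T, ‖b n‖ ^ 2) ≤ R ^ 2) :
    ∑ i ∈ X, ‖∑ d ∈ S, ∑ k ∈ T,
      a d * f i d * (b k * f i k) * v (Real.log ((d * k : ℕ) / x))‖ ≤ (∫ t, ‖φ t‖) * R := by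
  have hn : ∀ t u : ℝ, ‖Complex.exp (Complex.I * t * u)‖ = 1 := fun t u => by
    rw [show Complex.I * t * u = ((t * u : ℝ) : ℂ) * Complex.I by push_cast; ring]
    exact Complex.norm_exp_ofReal_mul_I _
  have hint : ∀ u : ℝ, Integrable fun t : ℝ => φ t * Complex.exp (Complex.I * t * u) := fun u =>
    hi.mono' (by fun_prop) (Filter.Eventually.of_forall fun t => by rw [norm_mul, hn, mul_one])
  set g : ι → ℝ → ℂ := fun i t => ∑ d ∈ S, ∑ k ∈ T,
    a d * f i d * (b k * f i k) *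
      (φ t * Complex.exp (Complex.I * t * (Real.log ((d * k : ℕ) / x) : ℝ))) with hg
  have hgi : ∀ i, Integrable (g i) := fun i =>
    integrable_finsetSum _ fun d _ => integrable_finsetSum _ fun k _ => (hint _).const_mul _
  have e1 : ∀ i, ∑ d ∈ S, ∑ k ∈ T,
      a d * f i d * (b k * f i k) * v (Real.log ((d * k : ℕ) / x)) = ∫ t, g i t := by
    intro i
    rw [hg]
    beta_reduce
    rw [integral_finsetSum _ fun d _ => integrable_finsetSum _ fun k _ => (hint _).const_mul _]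
    refine sum_congr rfl fun d _ => ?_
    rw [integral_finsetSum _ fun k _ => (hint _).const_mul _]
    refine sum_congr rfl fun k _ => ?_
    rw [integral_const_mul, hv]
  have e2 : ∀ t, ∑ i ∈ X, ‖g i t‖ ≤ ‖φ t‖ * R := by
    intro t
    set a' : ℕ → ℂ := fun d => a d * Complex.exp (Complex.I * t * (Real.log d : ℝ)) with ha'
    set b' : ℕ → ℂ := fun d => b d * Complex.exp (Complex.I * t * (Real.log d : ℝ)) with hb'
    have e3 : ∀ i, g i t = φ t * Complex.exp (Complex.I * t * (-Real.log x : ℝ)) *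
        ((∑ d ∈ S, a' d * f i d) * ∑ k ∈ T, b' k * f i k) := by
      intro i
      rw [hg, sum_mul_sum, mul_sum]
      refine sum_congr rfl fun d hd => ?_
      rw [mul_sum]
      refine sum_congr rfl fun k hk => ?_
      have hd0 : (0 : ℝ) < d := by exact_mod_cast hS d hd
      have hk0 : (0 : ℝ) < k := by exact_mod_cast hT k hk
      rw [Nat.cast_mul, Real.log_div (by positivity) hx.ne', Real.log_mul hd0.ne' hk0.ne',
        show Complex.I * t * ((Real.log d + Real.log k - Real.log x : ℝ) : ℂ) =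
          Complex.I * t * (Real.log d : ℝ) + Complex.I * t * (Real.log k : ℝ) +
            Complex.I * t * (-Real.log x : ℝ) by push_cast; ring, Complex.exp_add, Complex.exp_add]
      simp only [ha', hb']
      ring
    simp only [e3, norm_mul, hn, mul_one, ← mul_sum]
    refine mul_le_mul_of_nonneg_left ?_ (norm_nonneg _)
    have e4 := sum_mul_sq_le_sq_mul_sq X (fun i => ‖∑ d ∈ S, a' d * f i d‖)
      (fun i => ‖∑ k ∈ T, b' k * f i k‖)
    have e5 := h₁ a'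
    have e6 := h₂ b'
    simp only [ha', hb', norm_mul, hn, mul_one] at e5 e6
    refine (pow_le_pow_iff_left₀ (by positivity) hR0 two_ne_zero).1 (e4.trans (le_trans ?_ hR))
    exact mul_le_mul e5 e6 (by positivity) (by positivity)
  calc _ ≤ ∑ i ∈ X, ∫ t, ‖g i t‖ :=
        sum_le_sum fun i _ => by rw [e1]; exact norm_integral_le_integral_norm _
    _ = ∫ t, ∑ i ∈ X, ‖g i t‖ := (integral_finsetSum _ fun i _ => (hgi i).norm).symm
    _ ≤ ∫ t, ‖φ t‖ * R :=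
        integral_mono (integrable_finsetSum _ fun i _ => (hgi i).norm) (hi.mul_const R) e2
    _ = _ := integral_mul_const _ _

theorem typeii_split (F : ℕ → ℕ → ℂ) (W : ℕ → ℂ) (N : ℕ) (hW : ∀ n, N < n → W n = 0) :
    ∑ d ∈ Icc 1 N, ∑ k ∈ Icc 1 N, F d k * W (d * k) =
      ∑ j ∈ range (Nat.log 2 N + 1), ∑ d ∈ Ico (2 ^ j) (2 ^ j + 2 ^ j),
        ∑ k ∈ Icc 1 (N / 2 ^ j), F d k * W (d * k) := by
  rw [sum_subset (s₂ := Ico 1 (2 ^ (Nat.log 2 N + 1)))]
  · rw [← ls_dyadic]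
    refine sum_congr rfl fun j _ => sum_congr rfl fun d hd => ?_
    symm
    refine sum_subset (Icc_subset_Icc_right (Nat.div_le_self N (2 ^ j))) fun k hk hk' => ?_
    simp only [mem_Ico, mem_Icc] at hk hk' hd
    have h1 : N / 2 ^ j < k := by omega
    have h2 : N < k * 2 ^ j := (Nat.div_lt_iff_lt_mul (by positivity)).1 h1
    have h3 : k * 2 ^ j ≤ d * k := by rw [mul_comm]; exact Nat.mul_le_mul_right _ hd.1
    rw [hW _ (h2.trans_le h3), mul_zero]
  · intro d hd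
    have := Nat.lt_pow_succ_log_self (b := 2) (by norm_num) N
    simp only [mem_Ico, mem_Icc] at hd ⊢
    omega
  · intro d hd hd'
    refine sum_eq_zero fun k hk => ?_
    simp only [mem_Ico, mem_Icc] at hd hd' hk
    have h3 : d ≤ d * k := Nat.le_mul_of_pos_right _ hk.1
    have h4 := hW (d * k) (by omega)
    rw [h4, mul_zero]

theorem typeii_ineq {x M P U D : ℝ} (hx : 0 ≤ x) (hU : 0 < U) (hM : 0 ≤ M) (hP : 1 ≤ P)
    (hD : 0 ≤ D) (h1 : U ≤ 2 * M) (h2 : U ≤ P) (h3 : M * P ≤ x) :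
    (2 * M + (2 * D) ^ 2) * (2 * M) * ((P + 1 + (2 * D) ^ 2) * P) ≤
      (7 * (x + D * x / √U + D ^ 2 * √x)) ^ 2 := by
  have a1 : M ≤ x / U := by
    rw [le_div_iff₀ hU]
    exact (mul_le_mul_of_nonneg_left h2 hM).trans h3
  have a2 : P ≤ 2 * (x / U) := by
    rw [← mul_div_assoc, le_div_iff₀ hU]
    nlinarith only [hP, h1, h3]
  have b1 : (D * x / √U) ^ 2 = D ^ 2 * x * (x / U) := by
    rw [div_pow, Real.sq_sqrt hU.le]
    ring
  have b2 : (D ^ 2 * √x) ^ 2 = D ^ 4 * x := by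
    rw [mul_pow, Real.sq_sqrt hx]
    ring
  have c1 : 0 ≤ D * x / √U := by positivity
  have c2 : 0 ≤ D ^ 2 * √x := by positivity
  have c3 : x ^ 2 + D ^ 2 * x * (x / U) + D ^ 4 * x ≤ (x + D * x / √U + D ^ 2 * √x) ^ 2 := by
    rw [← b1, ← b2]
    linarith only [mul_nonneg hx c1, mul_nonneg hx c2, mul_nonneg c1 c2]
  have c4 : 0 ≤ D ^ 4 * x := by positivity
  have c5 : 0 ≤ D ^ 2 * x * (x / U) := by positivity
  calc _ ≤ (2 * M + (2 * D) ^ 2) * (2 * M) * ((P + P + (2 * D) ^ 2) * P) := by gcongr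
    _ = 2 * (M * P) * (4 * (M * P) + 8 * D ^ 2 * (M + P) + 16 * D ^ 4) := by ring
    _ ≤ 2 * x * (4 * x + 8 * D ^ 2 * (x / U + 2 * (x / U)) + 16 * D ^ 4) := by gcongr
    _ = 8 * x ^ 2 + 48 * (D ^ 2 * x * (x / U)) + 32 * (D ^ 4 * x) := by ring
    _ ≤ 49 * (x ^ 2 + D ^ 2 * x * (x / U) + D ^ 4 * x) := by nlinarith only [b1, b2]
    _ ≤ 49 * (x + D * x / √U + D ^ 2 * √x) ^ 2 := by gcongr
    _ = _ := by ring

theorem typeII {v : ℝ → ℂ} (hv : Test v) (j : ℕ) : ∃ (C : ℝ) (k : ℕ), 0 < C ∧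
    ∀ (x B : ℝ) (U D : ℕ) (Q : Finset ℕ) (g h : ArithmeticFunction ℂ), 3 ≤ x → 0 ≤ B → 1 ≤ U →
      1 ≤ D → Q ⊆ Icc 1 (2 * D) → (∀ m, ‖g m‖ ≤ tau m ^ j) →
      (∀ m : ℕ, (m : ℝ) ≤ x → ‖h m‖ ≤ B * tau m ^ j) → (∀ m ≤ U, g m = 0) → (∀ m ≤ U, h m = 0) →
        ∑ i ∈ Xf Q, ‖sm (fun m => (g * h) m * i.2 m) v x‖ ≤
          C * B * Real.log x ^ k * (x + D * x / √U + D ^ 2 * √x) := by
  obtain ⟨φ, hφc, hφi, hφ⟩ := hv.rep
  obtain ⟨C, hC, hLS⟩ := mult_large_sieve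
  have hint : MeasureTheory.Integrable fun t : ℝ => ‖φ t‖ := by simpa using hφi 0
  have hI : 0 ≤ ∫ t, ‖φ t‖ := MeasureTheory.integral_nonneg fun _ => norm_nonneg _
  set I := ∫ t, ‖φ t‖ with hIdef
  set e : ℕ := 2 ^ (j * 2) with he
  refine ⟨21 * C * (I + 1) * 2 ^ e, e + 1, by positivity,
    fun x B U D Q g h hx hB hU hD hQ hg hh hg0 hh0 => ?_⟩
  have hx0 : 0 < x := by linarith only [hx]
  set L := Real.log x with hL
  have hL1 : 1 ≤ L := by
    rw [hL, Real.le_log_iff_exp_le hx0]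
    exact Real.exp_one_lt_d9.le.trans (by linarith only [hx])
  set N := ⌊x⌋₊ with hN
  have hNx : (N : ℝ) ≤ x := Nat.floor_le hx0.le
  have hN1 : 1 ≤ N := Nat.le_floor (by norm_num; linarith only [hx])
  set Z := x + D * x / √U + D ^ 2 * √x with hZ
  have hZ0 : 0 ≤ Z := by positivity
  have hts : ∀ n : ℕ, 1 ≤ n → n ≤ N → ∑ m ∈ Icc 1 n, tau m ^ (j * 2) ≤ n * (2 * L) ^ e := by
    intro n h1 hn
    refine (tau_sum (j * 2) n).2.trans (mul_le_mul_of_nonneg_left ?_ (Nat.cast_nonneg n))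
    have h2 : Real.log n ≤ L :=
      Real.log_le_log (by exact_mod_cast h1) (le_trans (by exact_mod_cast hn) hNx)
    have h3 := Real.log_natCast_nonneg n
    exact pow_le_pow_left₀ (by linarith only [h3]) (by linarith only [hL1, h2]) _
  have e1 : ∀ i : Σ q : ℕ, DirichletCharacter ℂ q, sm (fun m => (g * h) m * i.2 m) v x =
      ∑ s ∈ range (Nat.log 2 N + 1), ∑ d ∈ Ico (2 ^ s) (2 ^ s + 2 ^ s),
        ∑ k ∈ Icc 1 (N / 2 ^ s),
          g d * i.2 d * (h k * i.2 k) * v (Real.log ((d * k : ℕ) / x)) := by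
    intro i
    rw [typeii_conv g h (fun m => i.2 m) (fun m n => by rw [Nat.cast_mul, map_mul]) hv hx0]
    exact typeii_split (fun d k => g d * i.2 d * (h k * i.2 k)) (fun n => v (Real.log (n / x))) N
      (typeii_zero hv hx0)
  have hJ : ((Nat.log 2 N + 1 : ℕ) : ℝ) ≤ 3 * L := by
    have h1 : ((2 ^ Nat.log 2 N : ℕ) : ℝ) ≤ x :=
      le_trans (by exact_mod_cast Nat.pow_log_le_self 2 (by omega)) hNx
    have h2 := Real.log_le_log (by positivity) h1
    rw [Nat.cast_pow, Real.log_pow] at h2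
    have h3 := Real.log_two_gt_d9
    have h4 : (0 : ℝ) ≤ Nat.log 2 N := by positivity
    push_cast at h2 ⊢
    nlinarith only [hL1, h2, h3]
  simp only [e1]
  refine (sum_le_sum fun i _ => norm_sum_le _ _).trans ?_
  rw [sum_comm]
  refine (sum_le_card_nsmul _ _ (I * (C * B * (2 * L) ^ e * (7 * Z))) fun s _ => ?_).trans ?_
  swap
  · rw [card_range, nsmul_eq_mul]
    calc _ ≤ (3 * L) * ((I + 1) * (C * B * (2 * L) ^ e * (7 * Z))) := by
          gcongr
          linarith only []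
      _ = _ := by ring
  by_cases h1 : 2 ^ s + 2 ^ s ≤ U
  · rw [sum_eq_zero fun i _ => ?_]
    · positivity
    · rw [sum_eq_zero fun d hd => ?_, norm_zero]
      simp only [hg0 d ((mem_Ico.1 hd).2.le.trans h1), zero_mul, Nat.cast_mul, sum_const_zero]
  by_cases h2 : N / 2 ^ s ≤ U
  · rw [sum_eq_zero fun i _ => ?_]
    · positivity
    · rw [sum_eq_zero fun d _ => sum_eq_zero fun k hk => ?_, norm_zero]
      simp only [hh0 k ((mem_Icc.1 hk).2.trans h2), zero_mul, mul_zero, Nat.cast_mul]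
  set M : ℕ := 2 ^ s with hM
  set P : ℕ := N / M with hP
  have hM0 : 0 < M := by positivity
  have hMP : M * P ≤ N := Nat.mul_div_le N M
  have hMN : M + M ≤ N := le_trans (by nlinarith only [hU, h2]) hMP
  have hPN : P ≤ N := Nat.div_le_self _ _
  refine typeii_block (Xf Q) (fun i m => i.2 m) v φ hφc hint hφ x hx0 _ _
    (fun d hd => hM0.trans_le (mem_Ico.1 hd).1) (fun k hk => (mem_Icc.1 hk).1)
    (C * ((M + M : ℕ) + ((2 * D : ℕ) : ℝ) ^ 2)) (C * ((P + 1 : ℕ) + ((2 * D : ℕ) : ℝ) ^ 2))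
    (by positivity) (fun a => hLS _ _ _ _ a hQ fun d hd => mem_range.2 (mem_Ico.1 hd).2)
    (fun a => hLS _ _ _ _ a hQ fun d hd => mem_range.2 (Nat.lt_succ_of_le (mem_Icc.1 hd).2))
    (fun d => g d) (fun k => h k) _ (by positivity) ?_
  have b1 : ∑ n ∈ Ico M (M + M), ‖g n‖ ^ 2 ≤ (M + M : ℕ) * (2 * L) ^ e := by
    refine le_trans ?_ (hts (M + M) (by omega) hMN)
    refine le_trans (sum_le_sum fun n _ => ?_) (sum_le_sum_of_subset_of_nonneg
      (s := Ico M (M + M)) (fun n hn => ?_) fun n _ _ => pow_nonneg (typeii_tau_nonneg n) _)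
    · rw [pow_mul]
      exact pow_le_pow_left₀ (norm_nonneg _) (hg n) 2
    · simp only [mem_Ico, mem_Icc] at hn ⊢
      omega
  have b2 : ∑ n ∈ Icc 1 P, ‖h n‖ ^ 2 ≤ B ^ 2 * (P * (2 * L) ^ e) := by
    refine le_trans ?_ (mul_le_mul_of_nonneg_left (hts P (by omega) hPN) (sq_nonneg B))
    rw [mul_sum]
    refine sum_le_sum fun n hn => ?_
    rw [pow_mul, ← mul_pow]
    refine pow_le_pow_left₀ (norm_nonneg _) (hh n (le_trans ?_ hNx)) 2
    exact_mod_cast (mem_Icc.1 hn).2.trans hPN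
  have key := typeii_ineq (x := x) (M := M) (P := P) (U := U) (D := D) hx0.le
    (by exact_mod_cast hU) (by positivity) (by exact_mod_cast (by omega : 1 ≤ P)) (by positivity)
    (by exact_mod_cast (by omega : U ≤ 2 * M)) (by exact_mod_cast (by omega : U ≤ P))
    (le_trans (by exact_mod_cast hMP) hNx)
  calc _ ≤ (C * ((M + M : ℕ) + ((2 * D : ℕ) : ℝ) ^ 2) * ((M + M : ℕ) * (2 * L) ^ e)) *
        (C * ((P + 1 : ℕ) + ((2 * D : ℕ) : ℝ) ^ 2) * (B ^ 2 * (P * (2 * L) ^ e))) := by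
        gcongr
    _ = (C * B * (2 * L) ^ e) ^ 2 * ((2 * M + (2 * D : ℝ) ^ 2) * (2 * M) *
        ((P + 1 + (2 * D : ℝ) ^ 2) * P)) := by
        push_cast
        ring
    _ ≤ (C * B * (2 * L) ^ e) ^ 2 * (7 * Z) ^ 2 := by gcongr
    _ = _ := by ring

end Pool.Agent.MP_48b1c3_nt.H91

end

-- part MP_48b1c3_nt.H91.Vau
section

/-! The mean value theorem by the identity of Vaughan. -/

namespace Pool.Agent.MP_48b1c3_nt.H91

open Finset NumberField H54 Filter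
open scoped ContDiff Topology

/-- the part up to `U` -/
noncomputable def vau_lo (U : ℕ) (f : ArithmeticFunction ℂ) : ArithmeticFunction ℂ :=
  ⟨fun m => if m ≤ U then f m else 0, by simp⟩

/-- the part beyond `U` -/
noncomputable def vau_hi (U : ℕ) (f : ArithmeticFunction ℂ) : ArithmeticFunction ℂ :=
  ⟨fun m => if m ≤ U then 0 else f m, by simp⟩

theorem vau_lo_apply (U : ℕ) (f : ArithmeticFunction ℂ) (m : ℕ) :
    vau_lo U f m = if m ≤ U then f m else 0 := rfl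

theorem vau_hi_apply (U : ℕ) (f : ArithmeticFunction ℂ) (m : ℕ) :
    vau_hi U f m = if m ≤ U then 0 else f m := rfl

theorem vau_add (U : ℕ) (f : ArithmeticFunction ℂ) : vau_lo U f + vau_hi U f = f := by
  ext m
  rw [ArithmeticFunction.add_apply, vau_lo_apply, vau_hi_apply]
  split_ifs <;> simp

theorem vau_lo_le (U : ℕ) (f : ArithmeticFunction ℂ) (m : ℕ) : ‖vau_lo U f m‖ ≤ ‖f m‖ := by
  rw [vau_lo_apply]
  split_ifs <;> simp only [Std.le_refl, norm_zero, norm_nonneg]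

theorem vau_hi_le (U : ℕ) (f : ArithmeticFunction ℂ) (m : ℕ) : ‖vau_hi U f m‖ ≤ ‖f m‖ := by
  rw [vau_hi_apply]
  split_ifs <;> simp only [norm_zero, norm_nonneg, Std.le_refl]

theorem vau_id (U : ℕ) (a μ L A : ArithmeticFunction ℂ) (h1 : μ * a = 1) (h2 : A = L * a) :
    L + (vau_lo U μ * vau_lo U L) * a =
      vau_lo U L + vau_lo U μ * A + vau_hi U μ * (a * vau_hi U L) := by
  have e1 := vau_add U μ
  have e2 := vau_add U L
  generalize vau_lo U μ = p at *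
  generalize vau_hi U μ = p' at *
  generalize vau_lo U L = r at *
  generalize vau_hi U L = r' at *
  subst e1 e2 h2
  calc r + r' + p * r * a = r + ((p + p') * a) * r' + p * r * a := by rw [h1, one_mul]
    _ = _ := by ring

theorem vau_tau_nonneg (m : ℕ) : 0 ≤ tau m := Nat.cast_nonneg _

theorem vau_conv (j : ℕ) (g h : ArithmeticFunction ℂ) (hg : ∀ m, ‖g m‖ ≤ tau m ^ j)
    (hh : ∀ m, ‖h m‖ ≤ j * ArithmeticFunction.vonMangoldt m) {x : ℝ} (hx : 1 ≤ x) (m : ℕ)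
    (hm : (m : ℝ) ≤ x) : ‖(g * h) m‖ ≤ j * Real.log x * tau m ^ j := by
  have hl := Real.log_nonneg hx
  have ht := vau_tau_nonneg m
  rcases eq_or_ne m 0 with rfl | h0
  · rw [ArithmeticFunction.map_zero, norm_zero]
    positivity
  rw [ArithmeticFunction.mul_apply]
  calc _ ≤ ∑ p ∈ m.divisorsAntidiagonal,
        tau m ^ j * (j * ArithmeticFunction.vonMangoldt p.2) := by
        refine norm_sum_le_of_le _ fun p hp => ?_
        rw [norm_mul]
        refine mul_le_mul ((hg _).trans (pow_le_pow_left₀ (vau_tau_nonneg _) ?_ j)) (hh _)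
          (norm_nonneg _) (by positivity)
        exact Nat.cast_le.2 (card_le_card (Nat.divisors_subset_of_dvd h0
          (Nat.dvd_of_mem_divisors (Nat.fst_mem_divisors_of_mem_antidiagonal hp))))
    _ = j * Real.log m * tau m ^ j := by
        rw [← mul_sum, ← mul_sum, Nat.sum_divisorsAntidiagonal'
          (fun _ e => ArithmeticFunction.vonMangoldt e), ArithmeticFunction.vonMangoldt_sum]
        ring
    _ ≤ _ := by
        have : Real.log m ≤ Real.log x :=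
          Real.log_le_log (by exact_mod_cast Nat.pos_of_ne_zero h0) hm
        gcongr

theorem vau_typeI {v : ℝ → ℂ} (hv : Test v) (j : ℕ) {x B : ℝ} (hx : 0 < x) (hB : 0 ≤ B) (W : ℕ)
    (hW : (W : ℝ) ≤ x) (Q : Finset ℕ) (g h : ArithmeticFunction ℂ) (S : ℕ → ℝ)
    (hg0 : ∀ d, W < d → g d = 0) (hg : ∀ d : ℕ, (d : ℝ) ≤ x → ‖g d‖ ≤ B * tau d ^ j)
    (hS : ∀ d ∈ Icc 1 W, ∑ i ∈ Xf Q, ‖sm (fun m => h m * i.2 m) v (x / d)‖ ≤ S d) :
    ∑ i ∈ Xf Q, ‖sm (fun m => (g * h) m * i.2 m) v x‖ ≤ B * ∑ d ∈ Icc 1 W, tau d ^ j * S d := by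
  have hsub : Icc 1 W ⊆ Icc 1 ⌊x⌋₊ := Icc_subset_Icc_right (Nat.le_floor hW)
  calc _ ≤ ∑ i ∈ Xf Q, ∑ d ∈ Icc 1 W,
        B * tau d ^ j * ‖sm (fun m => h m * i.2 m) v (x / d)‖ := by
        refine sum_le_sum fun i _ => ?_
        rw [sm_conv g h (fun m => i.2 m) (fun m n => by rw [Nat.cast_mul, map_mul]) hv hx,
          ← sum_subset hsub fun d hd hd' => by
            rw [hg0 d (by simp only [mem_Icc] at hd hd'; omega), zero_mul, zero_mul]]
        refine norm_sum_le_of_le _ fun d hd => ?_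
        rw [norm_mul, norm_mul]
        have h1 := hg d ((Nat.cast_le.2 (mem_Icc.1 hd).2).trans hW)
        have h2 := i.2.norm_le_one (d : ZMod i.1)
        refine mul_le_mul_of_nonneg_right ?_ (norm_nonneg _)
        exact (mul_le_of_le_one_right (norm_nonneg _) h2).trans h1
    _ ≤ _ := by
        rw [sum_comm, mul_sum]
        refine sum_le_sum fun d hd => ?_
        rw [← mul_sum, mul_assoc]
        exact mul_le_mul_of_nonneg_left (mul_le_mul_of_nonneg_left (hS d hd)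
          (pow_nonneg (vau_tau_nonneg d) j)) hB

theorem vau_log (a : ArithmeticFunction ℂ) (f : ℕ → ℂ) (v : ℝ → ℂ) {y : ℝ} (hy : 0 < y) :
    sm (fun m => siegel_lg.pmul a m * f m) v y = sm (fun m => a m * f m) (fun u => u * v u) y +
      (Real.log y : ℂ) * sm (fun m => a m * f m) v y := by
  unfold sm
  rw [mul_sum, ← sum_add_distrib]
  refine sum_congr rfl fun m hm => ?_
  have h0 : m ≠ 0 := by have := (mem_Icc.1 hm).1; omega
  have e : Real.log m = Real.log (m / y) + Real.log y := by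
    rw [Real.log_div (by exact_mod_cast h0) hy.ne']; ring
  have e' : siegel_lg m = (Real.log m : ℂ) := if_neg h0
  simp only [ArithmeticFunction.pmul_apply]
  rw [e', e]
  push_cast
  ring

theorem vau_sm_add (g h : ArithmeticFunction ℂ) (f : ℕ → ℂ) (v : ℝ → ℂ) (y : ℝ) :
    sm (fun m => (g + h) m * f m) v y =
      sm (fun m => g m * f m) v y + sm (fun m => h m * f m) v y := by
  unfold sm
  rw [← sum_add_distrib]
  refine sum_congr rfl fun m _ => ?_
  simp only [ArithmeticFunction.add_apply]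
  ring

theorem vau_short {v : ℝ → ℂ} {V : ℝ} (hV : ∀ u, ‖v u‖ ≤ V) (j : ℕ) (L : ArithmeticFunction ℂ)
    (hL : ∀ m, ‖L m‖ ≤ j * ArithmeticFunction.vonMangoldt m) {x : ℝ} (hx : 1 ≤ x) (U : ℕ)
    (f : ℕ → ℂ) (hf : ∀ m, ‖f m‖ ≤ 1) :
    ‖sm (fun m => vau_lo U L m * f m) v x‖ ≤ U * (j * Real.log x * V) := by
  have hl := Real.log_nonneg hx
  have hV0 : 0 ≤ V := (norm_nonneg _).trans (hV 0)
  calc _ ≤ ∑ m ∈ Icc 1 ⌊x⌋₊, if m ≤ U then j * Real.log x * V else 0 := by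
        refine norm_sum_le_of_le _ fun m hm => ?_
        simp only [vau_lo_apply]
        split_ifs with h
        · rw [norm_mul, norm_mul]
          have h1 : (m : ℝ) ≤ x := (Nat.le_floor_iff (by linarith only [hx])).1 (mem_Icc.1 hm).2
          have h2 : ArithmeticFunction.vonMangoldt m ≤ Real.log x :=
            ArithmeticFunction.vonMangoldt_le_log.trans
              (Real.log_le_log (by exact_mod_cast (mem_Icc.1 hm).1) h1)
          refine mul_le_mul ((mul_le_of_le_one_right (norm_nonneg _) (hf m)).trans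
            ((hL m).trans (by gcongr))) (hV _) (norm_nonneg _) (by positivity)
        · simp
    _ ≤ _ := by
        rw [← sum_filter, sum_const, nsmul_eq_mul]
        refine mul_le_mul_of_nonneg_right ?_ (by positivity)
        have : (Icc 1 ⌊x⌋₊).filter (fun m => m ≤ U) ⊆ Icc 1 U := fun m hm => by
          simp only [mem_filter, mem_Icc] at hm ⊢; omega
        have h := card_le_card this
        rw [Nat.card_Icc, Nat.add_sub_cancel] at h
        exact_mod_cast h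

theorem vau_one_le_log {x : ℝ} (hx : 3 ≤ x) : 1 ≤ Real.log x := by
  rw [Real.le_log_iff_exp_le (by linarith)]
  have := Real.exp_one_lt_d9
  linarith only [hx, this]

theorem vau_log_pow (K : ℕ) {η : ℝ} (hη : 0 < η) : ∃ C : ℝ, 0 < C ∧ ∀ x : ℝ, 1 ≤ x →
    Real.log x ^ K ≤ C * x ^ η := by
  have he : 0 < η / (K + 1) := by positivity
  refine ⟨(1 / (η / (K + 1))) ^ K, by positivity, fun x hx => ?_⟩
  have h0 : 0 ≤ x := by linarith
  calc _ ≤ (x ^ (η / (K + 1)) / (η / (K + 1))) ^ K :=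
        pow_le_pow_left₀ (Real.log_nonneg hx) (Real.log_le_rpow_div h0 he) K
    _ = (1 / (η / (K + 1))) ^ K * x ^ (η / (K + 1) * K) := by
        rw [Real.rpow_mul_natCast h0, ← mul_pow]; congr 1; ring
    _ ≤ _ := by
        refine mul_le_mul_of_nonneg_left (Real.rpow_le_rpow_of_exponent_le hx ?_) (by positivity)
        rw [div_mul_eq_mul_div, div_le_iff₀ (by positivity)]
        linarith only [hη]

theorem vaughan_bound (j : ℕ) {v : ℝ → ℂ} (hv : Test v) : ∃ (C : ℝ) (k : ℕ), 0 < C ∧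
    ∀ (a μ L : ArithmeticFunction ℂ), μ * a = 1 → siegel_lg.pmul a = L * a →
      (∀ m, ‖μ m‖ ≤ tau m ^ j) → (∀ m, ‖a m‖ ≤ tau m ^ j) →
      (∀ m, ‖L m‖ ≤ j * ArithmeticFunction.vonMangoldt m) →
      ∀ (x : ℝ) (U D : ℕ) (Q : Finset ℕ) (T : ℕ → ℝ), 3 ≤ x → 1 ≤ U → (U : ℝ) ^ 2 ≤ x → 1 ≤ D →
        Q ⊆ Icc 1 (2 * D) → (∀ d ∈ Icc 1 (U ^ 2),
          ∑ i ∈ Xf Q, ‖sm (fun m => a m * i.2 m) v (x / d)‖ ≤ T d ∧
          ∑ i ∈ Xf Q, ‖sm (fun m => a m * i.2 m) (fun u => u * v u) (x / d)‖ ≤ T d) →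
        ∑ i ∈ Xf Q, ‖sm (fun m => L m * i.2 m) v x‖ ≤ C * Real.log x ^ k *
          (D ^ 2 * U + ∑ d ∈ Icc 1 (U ^ 2), tau d ^ j * T d + (x + D * x / √U + D ^ 2 * √x)) := by
  obtain ⟨V, hV0, hV, -⟩ := hv.bound
  obtain ⟨C, k, hC, h2⟩ := typeII hv j
  refine ⟨4 * j * V + 2 + j + C * j, k + 1, by positivity,
    fun a μ L h1 hA hμ ha hL x U D Q T hx hU hUx hD hQ hT => ?_⟩
  have hx0 : 0 < x := by linarith only [hx]
  have hx1 : 1 ≤ x := by linarith only [hx]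
  have hl := vau_one_le_log hx
  have hW : ((U ^ 2 : ℕ) : ℝ) ≤ x := by exact_mod_cast hUx
  have hUU : U ≤ U ^ 2 := Nat.le_self_pow two_ne_zero U
  have t0 : ∑ i ∈ Xf Q, ‖sm (fun m => vau_lo U L m * i.2 m) v x‖ ≤
      4 * j * V * Real.log x * (D ^ 2 * U) := by
    refine (sum_le_card_nsmul _ _ _ fun i _ => vau_short hV j L hL hx1 U _
      fun m => i.2.norm_le_one _).trans ?_
    have hc : (#(Xf Q) : ℝ) ≤ (2 * D) ^ 2 := by exact_mod_cast card_Xf_le hQ
    rw [nsmul_eq_mul]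
    calc _ ≤ (2 * D : ℝ) ^ 2 * (U * (j * Real.log x * V)) := by gcongr
      _ = _ := by ring
  have t1 := vau_typeI hv j hx0 zero_le_one (U ^ 2) hW Q (vau_lo U μ) (siegel_lg.pmul a)
    (fun d => 2 * Real.log x * T d)
    (fun d hd => by rw [vau_lo_apply, if_neg (by omega)])
    (fun d _ => by rw [one_mul]; exact (vau_lo_le U μ d).trans (hμ d))
    (fun d hd => by
      obtain ⟨p1, p2⟩ := hT d hd
      have d1 : (1 : ℝ) ≤ d := by exact_mod_cast (mem_Icc.1 hd).1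
      have d2 : (d : ℝ) ≤ x := (Nat.cast_le.2 (mem_Icc.1 hd).2).trans hW
      have y0 : 0 < x / d := by positivity
      have y1 : 0 ≤ Real.log (x / d) := Real.log_nonneg ((one_le_div (by linarith only [d1])).2 d2)
      have y2 : Real.log (x / d) ≤ Real.log x := Real.log_le_log y0 (div_le_self hx0.le d1)
      have T0 : 0 ≤ T d := (sum_nonneg fun _ _ => norm_nonneg _).trans p1
      calc _ ≤ ∑ i ∈ Xf Q, (‖sm (fun m => a m * i.2 m) (fun u => u * v u) (x / d)‖ +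
            Real.log x * ‖sm (fun m => a m * i.2 m) v (x / d)‖) := by
            refine sum_le_sum fun i _ => ?_
            rw [vau_log a (fun m => i.2 m) v y0]
            refine (norm_add_le _ _).trans (add_le_add le_rfl ?_)
            rw [norm_mul, Complex.norm_real, Real.norm_of_nonneg y1]
            exact mul_le_mul_of_nonneg_right y2 (norm_nonneg _)
        _ ≤ T d + Real.log x * T d := by
            rw [sum_add_distrib, ← mul_sum]
            exact add_le_add p2 (mul_le_mul_of_nonneg_left p1 (by linarith only [hl]))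
        _ ≤ _ := by nlinarith only [hl, T0])
  have t2 := vau_typeI hv j hx0 (B := j * Real.log x) (by positivity) (U ^ 2) hW Q
    (vau_lo U μ * vau_lo U L) a T
    (fun d hd => by
      rw [ArithmeticFunction.mul_apply]
      refine sum_eq_zero fun p hp => ?_
      have e := (Nat.mem_divisorsAntidiagonal.1 hp).1
      rw [vau_lo_apply, vau_lo_apply]
      split_ifs with q1 q2
      · have := Nat.mul_le_mul q1 q2
        rw [e, ← sq] at this
        omega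
      all_goals simp)
    (vau_conv j _ _ (fun m => (vau_lo_le U μ m).trans (hμ m))
      (fun m => (vau_lo_le U L m).trans (hL m)) hx1)
    (fun d hd => (hT d hd).1)
  have t3 := h2 x (j * Real.log x) U D Q (vau_hi U μ) (a * vau_hi U L) hx (by positivity) hU hD hQ
    (fun m => (vau_hi_le U μ m).trans (hμ m))
    (vau_conv j _ _ ha (fun m => (vau_hi_le U L m).trans (hL m)) hx1)
    (fun m hm => by rw [vau_hi_apply, if_pos hm])
    (fun m hm => by
      rw [ArithmeticFunction.mul_apply]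
      refine sum_eq_zero fun p hp => ?_
      rw [vau_hi_apply, if_pos ((Nat.divisor_le
        (Nat.snd_mem_divisors_of_mem_antidiagonal hp)).trans hm), mul_zero])
  have key : ∑ i ∈ Xf Q, ‖sm (fun m => L m * i.2 m) v x‖ ≤
      ∑ i ∈ Xf Q, ‖sm (fun m => vau_lo U L m * i.2 m) v x‖ +
      ∑ i ∈ Xf Q, ‖sm (fun m => (vau_lo U μ * siegel_lg.pmul a) m * i.2 m) v x‖ +
      ∑ i ∈ Xf Q, ‖sm (fun m => (vau_hi U μ * (a * vau_hi U L)) m * i.2 m) v x‖ +
      ∑ i ∈ Xf Q, ‖sm (fun m => (vau_lo U μ * vau_lo U L * a) m * i.2 m) v x‖ := by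
    rw [← sum_add_distrib, ← sum_add_distrib, ← sum_add_distrib]
    refine sum_le_sum fun i _ => ?_
    have e := congrArg (fun g : ArithmeticFunction ℂ => sm (fun m => g m * i.2 m) v x)
      (vau_id U a μ L _ h1 hA)
    simp only [vau_sm_add] at e
    rw [eq_sub_of_add_eq e]
    exact (norm_sub_le _ _).trans (add_le_add norm_add₃_le le_rfl)
  have S0 : 0 ≤ ∑ d ∈ Icc 1 (U ^ 2), tau d ^ j * T d := sum_nonneg fun d hd =>
    mul_nonneg (pow_nonneg (vau_tau_nonneg d) j)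
      ((sum_nonneg fun _ _ => norm_nonneg _).trans (hT d hd).1)
  have e1 : ∑ d ∈ Icc 1 (U ^ 2), tau d ^ j * (2 * Real.log x * T d) =
      2 * Real.log x * ∑ d ∈ Icc 1 (U ^ 2), tau d ^ j * T d := by
    rw [mul_sum]; exact sum_congr rfl fun d _ => by ring
  rw [e1] at t1
  generalize ∑ d ∈ Icc 1 (U ^ 2), tau d ^ j * T d = S at *
  have R0 : 0 ≤ x + D * x / √U + D ^ 2 * √x := by positivity
  generalize x + D * x / √U + D ^ 2 * √x = R at *
  have P0 : (0 : ℝ) ≤ D ^ 2 * U := by positivity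
  generalize (D : ℝ) ^ 2 * U = P at *
  have l1 : Real.log x ≤ Real.log x ^ (k + 1) := le_self_pow₀ hl (by omega)
  have l0 : 0 ≤ Real.log x := by linarith only [hl]
  have u0 : 4 * j * V * Real.log x * P ≤ 4 * j * V * Real.log x ^ (k + 1) * (P + S + R) := by
    gcongr; linarith only [S0, R0]
  have u1 : 1 * (2 * Real.log x * S) ≤ 2 * Real.log x ^ (k + 1) * (P + S + R) := by
    rw [one_mul]; gcongr; linarith only [R0, P0]
  have u2 : j * Real.log x * S ≤ j * Real.log x ^ (k + 1) * (P + S + R) := by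
    gcongr; linarith only [R0, P0]
  have u3 : C * (j * Real.log x) * Real.log x ^ k * R ≤
      C * j * Real.log x ^ (k + 1) * (P + S + R) := by
    rw [show C * (j * Real.log x) * Real.log x ^ k = C * j * Real.log x ^ (k + 1) by ring]
    gcongr; linarith only [S0, P0]
  linarith only [key, t1, t2, t3, t0, u0, u1, u2, u3]

theorem mean_value (a μ L : ArithmeticFunction ℂ) (j : ℕ) (h1 : μ * a = 1)
    (h2 : siegel_lg.pmul a = L * a) (hμ : ∀ m, ‖μ m‖ ≤ tau m ^ j) (ha : ∀ m, ‖a m‖ ≤ tau m ^ j)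
    (hL : ∀ m, ‖L m‖ ≤ j * ArithmeticFunction.vonMangoldt m) (Q : ℕ → Finset ℕ)
    (hQ : ∀ D, Q D ⊆ Ioc D (2 * D)) {ν θ : ℝ} (hν : 2 ≤ ν) (hθ0 : 0 < θ) (hθ : θ * ν < 1)
    (hI : ∀ v, Test v → ∀ δ : ℝ, 0 < δ → ∃ C : ℝ, ∀ (y : ℝ) (D : ℕ), 1 ≤ y → 1 ≤ D →
      ∑ i ∈ Xf (Q D), ‖sm (fun m => a m * i.2 m) v y‖ ≤
        C * (D * y) ^ δ * ((D : ℝ) ^ (1 + ν) + D ^ 2 * √y))
    {v : ℝ → ℂ} (hv : Test v) : ∃ (δ C : ℝ) (k : ℕ), 0 < δ ∧ 0 < C ∧
      ∀ (x : ℝ) (D : ℕ), 3 ≤ x → 1 ≤ D → D ≤ x ^ θ →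
        ∑ i ∈ Xf (Q D), ‖sm (fun m => L m * i.2 m) v x‖ ≤
          C * (x * Real.log x ^ k + D * x ^ (1 - δ)) := by
  obtain ⟨η, hη, e1, e2⟩ : ∃ η : ℝ, 0 < η ∧ θ * ν + 12 * η ≤ 1 ∧ θ + 1 / 2 + 12 * η ≤ 1 := by
    have : θ * 2 ≤ θ * ν := by gcongr
    refine ⟨(1 - θ * ν) / 24, by linarith, by linarith only [hθ], by linarith⟩
  obtain ⟨C, k, hC, hV⟩ := vaughan_bound j hv
  obtain ⟨C1, hC1⟩ := hI v hv η hη
  obtain ⟨C2, hC2⟩ := hI _ (hv.mul (g := fun u : ℝ => (u : ℂ)) Complex.ofRealCLM.contDiff) η hη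
  obtain ⟨C3, p3, hC3⟩ := vau_log_pow (k + 2 ^ j) hη
  obtain ⟨B, hB0, b1, b2⟩ : ∃ B : ℝ, 0 ≤ B ∧ C1 ≤ B ∧ C2 ≤ B :=
    ⟨|C1| + |C2|, by positivity, by linarith only [le_abs_self C1, abs_nonneg C2],
      by linarith only [le_abs_self C2, abs_nonneg C1]⟩
  refine ⟨η, C + C * (4 + 2 * B * 2 ^ 2 ^ j) * C3, k, hη, by positivity, fun x D hx hD hDx => ?_⟩
  have hx0 : 0 < x := by linarith only [hθ0, hη, e2, hx]
  have hx1 : 1 ≤ x := by linarith only [hθ0, hη, e2, hx]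
  have hl := vau_one_le_log hx
  have mono : ∀ {s t : ℝ}, s ≤ t → x ^ s ≤ x ^ t := Real.rpow_le_rpow_of_exponent_le hx1
  have add : ∀ s t : ℝ, x ^ s * x ^ t = x ^ (s + t) := fun s t => (Real.rpow_add hx0 s t).symm
  have D1 : (1 : ℝ) ≤ D := by exact_mod_cast hD
  have D0 : (0 : ℝ) < D := by linarith only [hθ0, hη, e2, D1]
  have sq : √x = x ^ (1 / 2 : ℝ) := Real.sqrt_eq_rpow x
  have w1 : 1 ≤ x ^ (4 * η) := Real.one_le_rpow hx1 (by linarith only [hη])
  obtain ⟨U, hU, u1, u2⟩ : ∃ U : ℕ, 1 ≤ U ∧ (U : ℝ) ≤ x ^ (4 * η) ∧ x ^ (4 * η) ≤ 4 * U := by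
    have h : 1 ≤ ⌊x ^ (4 * η)⌋₊ := Nat.le_floor (by exact_mod_cast w1)
    have h' : (1 : ℝ) ≤ ⌊x ^ (4 * η)⌋₊ := by exact_mod_cast h
    exact ⟨⌊x ^ (4 * η)⌋₊, h, Nat.floor_le (by linarith only [hθ0, hη, e2, w1]),
      by linarith only [Nat.lt_floor_add_one (x ^ (4 * η)), h']⟩
  have U1 : (1 : ℝ) ≤ U := by exact_mod_cast hU
  have uu : (U : ℝ) ^ 2 ≤ x ^ (8 * η) := by
    rw [show 8 * η = 4 * η + 4 * η by ring, ← add, pow_two]
    gcongr
  have ux : (U : ℝ) ^ 2 ≤ x := uu.trans ((mono (by linarith only [hθ0, hη, e2])).trans_eq (Real.rpow_one x))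
  have hν' : (D : ℝ) ^ (1 + ν) ≤ D * x ^ (θ * ν) := by
    rw [Real.rpow_add D0, Real.rpow_one, Real.rpow_mul hx0.le]
    gcongr
  have hs : (D : ℝ) ^ 2 * √x ≤ D * x ^ (θ + 1 / 2) := by
    rw [← add, sq, pow_two, mul_assoc]
    gcongr
  have main := hV a μ L h1 h2 hμ ha hL x U D (Q D)
    (fun _ => B * x ^ (2 * η) * (2 * (D * x ^ (1 - 12 * η)))) hx hU ux hD
    ((hQ D).trans fun q hq => by simp only [mem_Ioc, mem_Icc] at hq ⊢; omega)
    (fun d hd => by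
      have d1 : (1 : ℝ) ≤ d := by exact_mod_cast (mem_Icc.1 hd).1
      have d2 : (d : ℝ) ≤ x := le_trans (by exact_mod_cast (mem_Icc.1 hd).2) ux
      have y1 : 1 ≤ x / d := (one_le_div (by linarith only [hθ0, hη, e2, d1])).2 d2
      have y2 : x / d ≤ x := div_le_self hx0.le d1
      have f1 : (D * (x / d)) ^ η ≤ x ^ (2 * η) := by
        rw [Real.rpow_mul hx0.le, Real.rpow_two, pow_two]
        have : (D : ℝ) ≤ x := hDx.trans ((mono (by linarith only [hθ0, hη, e2])).trans_eq (Real.rpow_one x))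
        gcongr
      have f2 : (D : ℝ) ^ (1 + ν) + D ^ 2 * √(x / d) ≤ 2 * (D * x ^ (1 - 12 * η)) := by
        have g1 : (D : ℝ) * x ^ (θ * ν) ≤ D * x ^ (1 - 12 * η) :=
          mul_le_mul_of_nonneg_left (mono (by linarith only [e1])) D0.le
        have g2 : (D : ℝ) * x ^ (θ + 1 / 2) ≤ D * x ^ (1 - 12 * η) :=
          mul_le_mul_of_nonneg_left (mono (by linarith only [e2])) D0.le
        have g3 : (D : ℝ) ^ 2 * √(x / d) ≤ D ^ 2 * √x := by gcongr
        linarith only [hν', hs, g1, g2, g3]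
      have f3 : ∀ c : ℝ, c ≤ B → c * (D * (x / d)) ^ η * ((D : ℝ) ^ (1 + ν) + D ^ 2 * √(x / d)) ≤
          B * x ^ (2 * η) * (2 * (D * x ^ (1 - 12 * η))) := fun c hc =>
        calc _ ≤ B * (D * (x / d)) ^ η * ((D : ℝ) ^ (1 + ν) + D ^ 2 * √(x / d)) := by gcongr
          _ ≤ _ := by gcongr
      exact ⟨(hC1 _ D y1 hD).trans (f3 _ b1), (hC2 _ D y1 hD).trans (f3 _ b2)⟩)
  have l0 : 0 ≤ Real.log x := by linarith only [hθ0, hη, e2, hl]
  have lj : 1 ≤ Real.log x ^ 2 ^ j := one_le_pow₀ hl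
  have P0 : 0 < D * x ^ (1 - 2 * η) := by positivity
  have a1 : (D : ℝ) ^ 2 * U ≤ D * x ^ (1 - 2 * η) := by
    calc (D : ℝ) ^ 2 * U = D * (D * U) := by ring
      _ ≤ D * (x ^ θ * x ^ (4 * η)) := by gcongr
      _ ≤ _ := by rw [add]; exact mul_le_mul_of_nonneg_left (mono (by linarith only [hθ0, hη, e2])) D0.le
  have a2 : ∑ d ∈ Icc 1 (U ^ 2), tau d ^ j * (B * x ^ (2 * η) * (2 * (D * x ^ (1 - 12 * η)))) ≤
      2 * B * 2 ^ 2 ^ j * (Real.log x ^ 2 ^ j * (D * x ^ (1 - 2 * η))) := by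
    rw [← sum_mul]
    have t := (tau_sum j (U ^ 2)).2
    have q1 : (1 : ℝ) ≤ (U ^ 2 : ℕ) := by exact_mod_cast Nat.one_le_pow 2 U hU
    have q2 : Real.log (U ^ 2 : ℕ) ≤ Real.log x :=
      Real.log_le_log (by linarith only [hθ0, hη, e2, q1]) (by exact_mod_cast ux)
    have q3 := Real.log_nonneg q1
    have q4 : ((U ^ 2 : ℕ) : ℝ) ≤ x ^ (8 * η) := by exact_mod_cast uu
    have q5 : 1 + Real.log (U ^ 2 : ℕ) ≤ 2 * Real.log x := by linarith only [hl, q2]
    calc _ ≤ x ^ (8 * η) * (2 * Real.log x) ^ 2 ^ j *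
          (B * x ^ (2 * η) * (2 * (D * x ^ (1 - 12 * η)))) :=
          mul_le_mul_of_nonneg_right (t.trans (by gcongr)) (by positivity)
      _ = _ := by
          rw [show 1 - 2 * η = 8 * η + 2 * η + (1 - 12 * η) by ring, ← add, ← add, mul_pow]
          ring
  have a3 : D * x / √U ≤ 2 * (D * x ^ (1 - 2 * η)) := by
    have r : x ^ (2 * η) ≤ 2 * √U := by
      refine (pow_le_pow_iff_left₀ (by positivity) (by positivity) two_ne_zero).1 ?_
      rw [mul_pow, Real.sq_sqrt (by linarith only [hθ0, hη, e2, U1]), pow_two, add]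
      rw [show 2 * η + 2 * η = 4 * η by ring]
      linarith only [u2]
    rw [div_le_iff₀ (Real.sqrt_pos.2 (by linarith only [hθ0, hη, e2, U1]))]
    calc D * x = D * x ^ (1 - 2 * η) * x ^ (2 * η) := by
          rw [mul_assoc, add, sub_add_cancel, Real.rpow_one]
      _ ≤ D * x ^ (1 - 2 * η) * (2 * √U) := by gcongr
      _ = _ := by ring
  have a4 : (D : ℝ) ^ 2 * √x ≤ D * x ^ (1 - 2 * η) :=
    hs.trans (mul_le_mul_of_nonneg_left (mono (by linarith only [hη, e2])) D0.le)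
  have a5 : Real.log x ^ k * (Real.log x ^ 2 ^ j * (D * x ^ (1 - 2 * η))) ≤
      C3 * (D * x ^ (1 - η)) := by
    calc _ = Real.log x ^ (k + 2 ^ j) * (D * x ^ (1 - 2 * η)) := by rw [pow_add]; ring
      _ ≤ C3 * x ^ η * (D * x ^ (1 - 2 * η)) := by gcongr; exact hC3 x hx1
      _ = _ := by rw [show 1 - η = η + (1 - 2 * η) by ring, ← add]; ring
  have a6 : D * x ^ (1 - 2 * η) ≤ Real.log x ^ 2 ^ j * (D * x ^ (1 - 2 * η)) :=
    le_mul_of_one_le_left P0.le lj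
  have Z0 : 0 < D * x ^ (1 - η) := by positivity
  generalize Real.log x ^ 2 ^ j * (D * x ^ (1 - 2 * η)) = Y at *
  generalize D * x ^ (1 - η) = Z at *
  have lk : 0 ≤ Real.log x ^ k := by positivity
  generalize Real.log x ^ k = l at *
  have c0 : 0 ≤ 4 + 2 * B * 2 ^ 2 ^ j := by positivity
  calc _ ≤ C * l * (x + (4 + 2 * B * 2 ^ 2 ^ j) * Y) :=
        main.trans (mul_le_mul_of_nonneg_left (by linarith only [a1, a3, a4, a2, a6]) (by positivity))
    _ = C * (x * l) + C * (4 + 2 * B * 2 ^ 2 ^ j) * (l * Y) := by ring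
    _ ≤ C * (x * l) + C * (4 + 2 * B * 2 ^ 2 ^ j) * (C3 * Z) := by gcongr
    _ ≤ _ := by
        have z1 : 0 ≤ C * Z := by positivity
        have z2 : 0 ≤ C * (4 + 2 * B * 2 ^ 2 ^ j) * C3 * (x * l) := by positivity
        linarith only [z1, z2]

end Pool.Agent.MP_48b1c3_nt.H91

end

-- part MP_48b1c3_nt.H48.MV2
section

/-! The identity of Vaughan for sums of primitive characters. -/

namespace Pool.Agent.MP_48b1c3_nt.H48

open Finset NumberField H54 H91 Filter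
open scoped Classical BigOperators Topology

theorem mv2_conv (g h : ArithmeticFunction ℂ) (φ : ℕ → ℂ) {v : ℝ → ℂ} (hv : Test v) {x : ℝ}
    (hx : 0 < x) : sm (fun m => (g * h) m * φ m) v x =
      ∑ d ∈ Icc 1 ⌊x⌋₊, g d * sm (fun m => h m * φ (d * m)) v (x / d) := by
  have e0 : sm (fun m => (g * h) m * φ m) v x = ∑ d ∈ Icc 1 ⌊x⌋₊, ∑ k ∈ Icc 1 ⌊x⌋₊,
      g d * (h k * φ (d * k)) * v (Real.log ((d * k : ℕ) / x)) := by
    rw [← sum_product', ← sum_filter_add_sum_filter_not _ (fun p : ℕ × ℕ => p.1 * p.2 ≤ ⌊x⌋₊)]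
    rw [sum_eq_zero (s := filter (fun p : ℕ × ℕ => ¬ p.1 * p.2 ≤ ⌊x⌋₊) _)
      (fun p hp => by rw [typeii_zero hv hx _ (not_le.1 (mem_filter.1 hp).2), mul_zero]), add_zero,
      ← typeii_pairs (fun d k => g d * (h k * φ (d * k)) * v (Real.log ((d * k : ℕ) / x)))]
    unfold sm
    refine sum_congr rfl fun n _ => ?_
    beta_reduce
    rw [ArithmeticFunction.mul_apply, sum_mul, sum_mul]
    refine sum_congr rfl fun p hp => ?_
    rw [← (Nat.mem_divisorsAntidiagonal.1 hp).1]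
    ring
  rw [e0]
  refine sum_congr rfl fun d hd => ?_
  have hd1 : (1 : ℝ) ≤ d := by exact_mod_cast (mem_Icc.1 hd).1
  have hd0 : (0 : ℝ) < d := by linarith only [hd1]
  have e : ∀ k : ℕ, ((d * k : ℕ) : ℝ) / x = k / (x / d) := fun k => by
    push_cast
    field_simp
  unfold sm
  rw [mul_sum]
  symm
  simp only [e, ← mul_assoc]
  refine sum_subset (Icc_subset_Icc_right (Nat.floor_le_floor (div_le_self hx.le hd1)))
    fun k hk hk' => ?_
  rw [typeii_zero hv (div_pos hx hd0) k, mul_zero]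
  simp only [mem_Icc] at hk hk'
  omega

theorem mv2_typeI {ι : Type} {v : ℝ → ℂ} (hv : Test v) (j : ℕ) {x B S : ℝ} (hx : 3 ≤ x)
    (hB : 0 ≤ B) (hS0 : 0 ≤ S) (W : ℕ) (hW1 : 1 ≤ W) (hW : (W : ℝ) ≤ x) (X : Finset ι) (w : ι → ℝ)
    (hw : ∀ i ∈ X, 0 ≤ w i) (φ : ι → ℕ → ℂ) (g h : ArithmeticFunction ℂ)
    (hg0 : ∀ d, W < d → g d = 0) (hg : ∀ d : ℕ, (d : ℝ) ≤ x → ‖g d‖ ≤ B * tau d ^ j)
    (hS : ∀ d ∈ Icc 1 W, ∑ i ∈ X, w i * ‖sm (fun m => h m * φ i (d * m)) v (x / d)‖ ≤ S / d) :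
    ∑ i ∈ X, w i * ‖sm (fun m => (g * h) m * φ i m) v x‖ ≤
      B * S * (2 * Real.log x) ^ 2 ^ j := by
  have hx0 : 0 < x := by linarith only [hx]
  have hsub : Icc 1 W ⊆ Icc 1 ⌊x⌋₊ := Icc_subset_Icc_right (Nat.le_floor hW)
  have hl := vau_one_le_log hx
  have q1 : (1 : ℝ) ≤ W := by exact_mod_cast hW1
  have q2 : Real.log W ≤ Real.log x := Real.log_le_log (by linarith only [q1]) hW
  have q3 := Real.log_nonneg q1
  calc _ ≤ ∑ i ∈ X, ∑ d ∈ Icc 1 W,
        B * tau d ^ j * (w i * ‖sm (fun m => h m * φ i (d * m)) v (x / d)‖) := by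
        refine sum_le_sum fun i hi => ?_
        rw [mv2_conv g h (φ i) hv hx0,
          ← sum_subset hsub fun d hd hd' => by
            rw [hg0 d (by simp only [mem_Icc] at hd hd'; omega), zero_mul]]
        refine (mul_le_mul_of_nonneg_left (norm_sum_le _ _) (hw i hi)).trans ?_
        rw [mul_sum]
        refine sum_le_sum fun d hd => ?_
        rw [norm_mul, mul_left_comm]
        exact mul_le_mul_of_nonneg_right (hg d ((Nat.cast_le.2 (mem_Icc.1 hd).2).trans hW))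
          (mul_nonneg (hw i hi) (norm_nonneg _))
    _ ≤ ∑ d ∈ Icc 1 W, B * S * (tau d ^ j / d) := by
        rw [sum_comm]
        refine sum_le_sum fun d hd => ?_
        rw [← mul_sum]
        refine (mul_le_mul_of_nonneg_left (hS d hd)
          (mul_nonneg hB (pow_nonneg (vau_tau_nonneg d) j))).trans (le_of_eq ?_)
        ring
    _ ≤ _ := by
        rw [← mul_sum]
        refine mul_le_mul_of_nonneg_left ((tau_sum j W).1.trans ?_) (mul_nonneg hB hS0)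
        exact pow_le_pow_left₀ (by linarith only [q3]) (by linarith) _

theorem mv2_short {v : ℝ → ℂ} {V : ℝ} (hV : ∀ u, ‖v u‖ ≤ V) (j : ℕ) (L : ArithmeticFunction ℂ)
    (hL : ∀ m, ‖L m‖ ≤ j * ArithmeticFunction.vonMangoldt m) {x : ℝ} (hx : 1 ≤ x) (U : ℕ)
    (φ : ℕ → ℂ) {P : ℝ} (hP : 0 < P) (hφ : ∀ m, ‖φ m‖ ≤ P) :
    ‖sm (fun m => vau_lo U L m * φ m) v x‖ ≤ P * (U * (j * Real.log x * V)) := by
  have h := vau_short hV j L hL hx U (fun m => φ m / P) fun m => by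
    rw [norm_div, Complex.norm_real, Real.norm_of_nonneg hP.le]
    exact (div_le_one hP).2 (hφ m)
  have e : sm (fun m => vau_lo U L m * φ m) v x =
      P * sm (fun m => vau_lo U L m * (φ m / P)) v x := by
    unfold sm
    rw [mul_sum]
    refine sum_congr rfl fun m _ => ?_
    have : (P : ℂ) ≠ 0 := by exact_mod_cast hP.ne'
    field_simp
  rw [e, norm_mul, Complex.norm_real, Real.norm_of_nonneg hP.le]
  exact mul_le_mul_of_nonneg_left h hP.le

theorem mv2_chars (G : ℕ → ℂ) (v : ℝ → ℂ) (x : ℝ) {f : Finset ℕ} (hf : ∀ p ∈ f, p.Prime) :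
    ‖sm (fun m => G m * Qf f m) v x‖ ≤
      ∑ i ∈ Xf {∏ p ∈ f, p}, ‖sm (fun m => G m * i.2 m) v x‖ := by
  refine le_trans (le_of_eq ?_) (norm_sum_le _ _)
  congr 1
  unfold sm
  rw [sum_comm]
  refine sum_congr rfl fun m _ => ?_
  beta_reduce
  rw [Qf_eq hf, mul_sum, sum_mul]
  simp only [Int.cast_natCast]

theorem mv2_image (F : Finset (Finset ℕ)) (hF : ∀ f ∈ F, ∀ p ∈ f, p.Prime)
    (t : (Σ q : ℕ, DirichletCharacter ℂ q) → ℝ) :
    ∑ f ∈ F, ∑ i ∈ Xf {∏ p ∈ f, p}, t i = ∑ i ∈ Xf (F.image fun f => ∏ p ∈ f, p), t i := by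
  unfold Xf
  rw [sum_sigma, sum_image fun f hf f' hf' e => by
    rw [← Nat.primeFactors_prod (hF f hf), ← Nat.primeFactors_prod (hF f' hf')]
    exact congrArg Nat.primeFactors e]
  exact sum_congr rfl fun f _ => by rw [sum_sigma, sum_singleton]

theorem mv2_pe (f : Finset ℕ) : ((∏ p ∈ f, p : ℕ) : ℝ) = pe f := Nat.cast_prod _ _

theorem mv2_small {M : ℕ} (L : ℕ → ℂ) {x R E C : ℝ} (hR : 0 ≤ R) (hE : 0 ≤ E) (hC : 0 ≤ C)
    (hw : ∀ f : Finset ℕ, (∀ p ∈ f, p.Prime) → wf f ≤ C / √(pe f)) (F : Finset (Finset ℕ))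
    (hF : ∀ f ∈ F, f.Nonempty ∧ Prs M f ∧ pe f ≤ R)
    (hSW : ∀ (q : ℕ) (χ : DirichletCharacter ℂ q), 1 < q → Squarefree q → q.Coprime M →
      χ.IsPrimitive → (q : ℝ) ≤ R → ‖sm (fun m => L m * χ m) bmp x‖ ≤ E) :
    ∑ f ∈ F, wf f * ‖sm (fun m => L m * Qf f m) bmp x‖ ≤ R * (C * (R * E)) := by
  refine (sum_le_card_nsmul _ _ (C * (R * E)) fun f hf => ?_).trans ?_
  · obtain ⟨h0, h1, h2⟩ := hF f hf
    have hp : ∀ p ∈ f, p.Prime := fun p h => (h1 p h).1
    have p1 := pe_ge_one hp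
    have q0 : 0 < ∏ p ∈ f, p := prod_pos fun p h => (hp p h).pos
    refine mul_le_mul ((hw f hp).trans (div_le_self hC (Real.one_le_sqrt.2 p1)))
      ((mv2_chars L bmp x hp).trans ((sum_le_card_nsmul _ _ E fun i hi => ?_).trans ?_))
      (norm_nonneg _) hC
    · obtain ⟨q, χ⟩ := i
      obtain ⟨a, b⟩ := mem_Xf.1 hi
      obtain rfl : q = ∏ p ∈ f, p := mem_singleton.1 a
      refine hSW _ χ ?_ ?_ (Nat.Coprime.prod_left fun p h =>
        (Nat.Prime.coprime_iff_not_dvd (hp p h)).2 (h1 p h).2) b ((mv2_pe f).le.trans h2)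
      · obtain ⟨p, h⟩ := h0
        exact (hp p h).one_lt.trans_le (Nat.le_of_dvd q0 (dvd_prod_of_mem _ h))
      · refine Finset.squarefree_prod_of_pairwise_isCoprime (fun p h p' h' n => ?_)
          fun p h => (hp p h).prime.squarefree
        exact Nat.coprime_iff_isRelPrime.1 ((Nat.coprime_primes (hp p h) (hp p' h')).2 n)
    · rw [nsmul_eq_mul]
      refine mul_le_mul_of_nonneg_right (le_trans ?_ ((mv2_pe f).le.trans h2)) hE
      exact_mod_cast card_Xf_single q0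
  · rw [nsmul_eq_mul]
    exact mul_le_mul_of_nonneg_right
      (card_fam hR fun f hf => ⟨fun p h => ((hF f hf).2.1 p h).1, (hF f hf).2.2⟩) (by positivity)

theorem mv2_large (a μ L : ArithmeticFunction ℂ) (j : ℕ) (h1 : μ * a = 1)
    (h2 : siegel_lg.pmul a = L * a) (hμ : ∀ m, ‖μ m‖ ≤ tau m ^ j) (ha : ∀ m, ‖a m‖ ≤ tau m ^ j)
    (hL : ∀ m, ‖L m‖ ≤ j * ArithmeticFunction.vonMangoldt m) {v : ℝ → ℂ} (hv : Test v) :
    ∃ (C : ℝ) (k : ℕ), 0 < C ∧ ∀ (x P S ω : ℝ) (U D : ℕ) (F : Finset (Finset ℕ)), 3 ≤ x → 1 ≤ U →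
      (U : ℝ) ^ 2 ≤ x → 1 ≤ D → 0 ≤ S → 0 ≤ ω →
      (∀ f ∈ F, (∀ p ∈ f, p.Prime) ∧ pe f ≤ D ∧ wf f ≤ ω) → ∑ f ∈ F, wf f * pe f ≤ P →
      (∀ d ∈ Icc 1 (U ^ 2),
        ∑ f ∈ F, wf f * ‖sm (fun m => a m * Qf f (d * m)) v (x / d)‖ ≤ S / d ∧
        ∑ f ∈ F, wf f * ‖sm (fun m => a m * Qf f (d * m)) (fun u => u * v u) (x / d)‖ ≤ S / d) →
      ∑ f ∈ F, wf f * ‖sm (fun m => L m * Qf f m) v x‖ ≤
        C * Real.log x ^ k * (P * U + S + ω * (x + D * x / √U + D ^ 2 * √x)) := by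
  obtain ⟨V, hV0, hV, -⟩ := hv.bound
  obtain ⟨C, k, hC, hII⟩ := typeII hv j
  refine ⟨j * V + (2 + j) * 2 ^ 2 ^ j + C * j, k + 2 ^ j + 1, by positivity,
    fun x P S ω U D F hx hU hUx hD hS hω hF hP hT => ?_⟩
  have hx0 : 0 < x := by linarith only [hx]
  have hx1 : 1 ≤ x := by linarith only [hx]
  have hl := vau_one_le_log hx
  have hW : ((U ^ 2 : ℕ) : ℝ) ≤ x := by exact_mod_cast hUx
  have hUU : U ≤ U ^ 2 := Nat.le_self_pow two_ne_zero U
  have hw : ∀ f ∈ F, 0 ≤ wf f := fun f hf => wf_nonneg (hF f hf).1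
  have t0 : ∑ f ∈ F, wf f * ‖sm (fun m => vau_lo U L m * Qf f m) v x‖ ≤
      j * V * Real.log x * (P * U) := by
    calc _ ≤ ∑ f ∈ F, wf f * pe f * (U * (j * Real.log x * V)) := sum_le_sum fun f hf => by
          rw [mul_assoc]
          exact mul_le_mul_of_nonneg_left (mv2_short hV j L hL hx1 U _
            (zero_lt_one.trans_le (pe_ge_one (hF f hf).1)) fun m => norm_Qf_le (hF f hf).1 _)
            (hw f hf)
      _ ≤ P * (U * (j * Real.log x * V)) := by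
          rw [← sum_mul]
          exact mul_le_mul_of_nonneg_right hP (by positivity)
      _ = _ := by ring
  have t1 := mv2_typeI hv j (S := 2 * Real.log x * S) hx zero_le_one (by positivity) (U ^ 2)
    (hU.trans hUU) hW F wf hw (fun f m => Qf f m) (vau_lo U μ) (siegel_lg.pmul a)
    (fun d hd => by rw [vau_lo_apply, if_neg (by omega)])
    (fun d _ => by rw [one_mul]; exact (vau_lo_le U μ d).trans (hμ d))
    (fun d hd => by
      obtain ⟨p1, p2⟩ := hT d hd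
      have d1 : (1 : ℝ) ≤ d := by exact_mod_cast (mem_Icc.1 hd).1
      have d2 : (d : ℝ) ≤ x := (Nat.cast_le.2 (mem_Icc.1 hd).2).trans hW
      have y0 : 0 < x / d := by positivity
      have y1 : 0 ≤ Real.log (x / d) := Real.log_nonneg ((one_le_div (by linarith only [d1])).2 d2)
      have y2 : Real.log (x / d) ≤ Real.log x := Real.log_le_log y0 (div_le_self hx0.le d1)
      have T0 : 0 ≤ S / d := by positivity
      simp only [Nat.cast_mul]
      calc _ ≤ ∑ f ∈ F, (wf f * ‖sm (fun m => a m * Qf f (d * m)) (fun u => u * v u) (x / d)‖ +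
            Real.log x * (wf f * ‖sm (fun m => a m * Qf f (d * m)) v (x / d)‖)) := by
            refine sum_le_sum fun f hf => ?_
            rw [vau_log a (fun m => Qf f (d * m)) v y0, mul_left_comm, ← mul_add]
            refine mul_le_mul_of_nonneg_left
              ((norm_add_le _ _).trans (add_le_add le_rfl ?_)) (hw f hf)
            rw [norm_mul, Complex.norm_real, Real.norm_of_nonneg y1]
            exact mul_le_mul_of_nonneg_right y2 (norm_nonneg _)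
        _ ≤ S / d + Real.log x * (S / d) := by
            rw [sum_add_distrib, ← mul_sum]
            exact add_le_add p2 (mul_le_mul_of_nonneg_left p1 (by linarith only [hl]))
        _ ≤ _ := by
            rw [mul_div_assoc]
            nlinarith only [hl, T0])
  have t2 := mv2_typeI hv j (B := j * Real.log x) hx (by positivity) hS (U ^ 2)
    (hU.trans hUU) hW F wf hw (fun f m => Qf f m) (vau_lo U μ * vau_lo U L) a
    (fun d hd => by
      rw [ArithmeticFunction.mul_apply]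
      refine sum_eq_zero fun p hp => ?_
      have e := (Nat.mem_divisorsAntidiagonal.1 hp).1
      rw [vau_lo_apply, vau_lo_apply]
      split_ifs with q1 q2
      · have := Nat.mul_le_mul q1 q2
        rw [e, ← sq] at this
        omega
      all_goals simp)
    (vau_conv j _ _ (fun m => (vau_lo_le U μ m).trans (hμ m))
      (fun m => (vau_lo_le U L m).trans (hL m)) hx1)
    (fun d hd => by simpa only [Nat.cast_mul] using (hT d hd).1)
  have t3 := hII x (j * Real.log x) U D (F.image fun f => ∏ p ∈ f, p) (vau_hi U μ)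
    (a * vau_hi U L) hx (by positivity) hU hD
    (fun q hq => by
      obtain ⟨f, hf, rfl⟩ := mem_image.1 hq
      have e1 := pe_ge_one (hF f hf).1
      have e2 := (hF f hf).2.1
      rw [← mv2_pe] at e1 e2
      have e3 : ∏ p ∈ f, p ≤ D := by exact_mod_cast e2
      exact mem_Icc.2 ⟨by exact_mod_cast e1, by omega⟩)
    (fun m => (vau_hi_le U μ m).trans (hμ m))
    (vau_conv j _ _ ha (fun m => (vau_hi_le U L m).trans (hL m)) hx1)
    (fun m hm => by rw [vau_hi_apply, if_pos hm])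
    (fun m hm => by
      rw [ArithmeticFunction.mul_apply]
      refine sum_eq_zero fun p hp => ?_
      rw [vau_hi_apply, if_pos ((Nat.divisor_le
        (Nat.snd_mem_divisors_of_mem_antidiagonal hp)).trans hm), mul_zero])
  rw [← mv2_image F fun f hf => (hF f hf).1] at t3
  have t4 : ∑ f ∈ F, wf f * ‖sm (fun m => (vau_hi U μ * (a * vau_hi U L)) m * Qf f m) v x‖ ≤
      ω * (C * (j * Real.log x) * Real.log x ^ k * (x + D * x / √U + D ^ 2 * √x)) := by
    refine le_trans ?_ (mul_le_mul_of_nonneg_left t3 hω)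
    rw [mul_sum]
    exact sum_le_sum fun f hf => mul_le_mul (hF f hf).2.2 (mv2_chars _ v x (hF f hf).1)
      (norm_nonneg _) hω
  have key : ∑ f ∈ F, wf f * ‖sm (fun m => L m * Qf f m) v x‖ ≤
      ∑ f ∈ F, wf f * ‖sm (fun m => vau_lo U L m * Qf f m) v x‖ +
      ∑ f ∈ F, wf f * ‖sm (fun m => (vau_lo U μ * siegel_lg.pmul a) m * Qf f m) v x‖ +
      ∑ f ∈ F, wf f * ‖sm (fun m => (vau_hi U μ * (a * vau_hi U L)) m * Qf f m) v x‖ +
      ∑ f ∈ F, wf f * ‖sm (fun m => (vau_lo U μ * vau_lo U L * a) m * Qf f m) v x‖ := by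
    rw [← sum_add_distrib, ← sum_add_distrib, ← sum_add_distrib]
    refine sum_le_sum fun f hf => ?_
    have e := congrArg (fun g : ArithmeticFunction ℂ => sm (fun m => g m * Qf f m) v x)
      (vau_id U a μ L _ h1 h2)
    simp only [vau_sm_add] at e
    rw [eq_sub_of_add_eq e, ← mul_add, ← mul_add, ← mul_add]
    exact mul_le_mul_of_nonneg_left ((norm_sub_le _ _).trans (add_le_add norm_add₃_le le_rfl))
      (hw f hf)
  have R0 : 0 ≤ ω * (x + D * x / √U + D ^ 2 * √x) := by positivity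
  have P0 : 0 ≤ P * U := mul_nonneg ((sum_nonneg fun f hf => mul_nonneg (hw f hf)
    (zero_le_one.trans (pe_ge_one (hF f hf).1))).trans hP) (Nat.cast_nonneg U)
  rw [mul_left_comm ω] at t4
  generalize ω * (x + D * x / √U + D ^ 2 * √x) = R at *
  generalize P * U = Z at *
  generalize Real.log x = l at *
  have l0 : 0 ≤ l := by linarith only [hl]
  have l1 : l ≤ l ^ (k + 2 ^ j + 1) := le_self_pow₀ hl (Nat.succ_ne_zero _)
  have l2 : l * l ^ 2 ^ j ≤ l ^ (k + 2 ^ j + 1) := by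
    rw [← pow_succ']
    exact pow_le_pow_right₀ hl (Nat.succ_le_succ (Nat.le_add_left _ _))
  have l3 : l * l ^ k ≤ l ^ (k + 2 ^ j + 1) := by
    rw [← pow_succ']
    exact pow_le_pow_right₀ hl (Nat.succ_le_succ (Nat.le_add_right _ _))
  have u0 : j * V * l * Z ≤ j * V * l ^ (k + 2 ^ j + 1) * (Z + S + R) := by
    gcongr; linarith only [hS, R0]
  have u1 : (2 + j) * 2 ^ 2 ^ j * (l * l ^ 2 ^ j) * S ≤
      (2 + j) * 2 ^ 2 ^ j * l ^ (k + 2 ^ j + 1) * (Z + S + R) := by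
    gcongr; linarith only [R0, P0]
  have u3 : C * j * (l * l ^ k) * R ≤ C * j * l ^ (k + 2 ^ j + 1) * (Z + S + R) := by
    gcongr; linarith only [hS, P0]
  rw [mul_pow] at t1 t2
  linarith only [key, t1, t2, t4, t0, u0, u1, u3]

theorem mv2 (a μ L : ArithmeticFunction ℂ) (j : ℕ) (h1 : μ * a = 1)
    (h2 : siegel_lg.pmul a = L * a) (hμ : ∀ m, ‖μ m‖ ≤ tau m ^ j) (ha : ∀ m, ‖a m‖ ≤ tau m ^ j)
    (hL : ∀ m, ‖L m‖ ≤ j * ArithmeticFunction.vonMangoldt m) {M : ℕ} {θ : ℝ} (hθ0 : 0 < θ)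
    (hθ : θ ≤ 1 / 20) (F : ℝ → Finset (Finset ℕ))
    (hF : ∀ x, 1 ≤ x → ∀ f ∈ F x, f.Nonempty ∧ Prs M f ∧ pe f ≤ x ^ θ)
    (hI : ∀ v, Test v → ∃ δ C : ℝ, 0 < δ ∧ ∀ᶠ x : ℝ in atTop, ∀ e : ℕ, 1 ≤ e →
      (e : ℝ) ≤ x ^ (4 * θ) → ∑ f ∈ F x, wf f * ‖sm (fun m => a m * Qf f (e * m)) v (x / e)‖ ≤
        C * (x / e) * x ^ (-δ))
    (hSW : ∀ A B : ℕ, ∃ C : ℝ, 0 < C ∧ ∀ x : ℝ, 3 ≤ x →
      ∀ (q : ℕ) (χ : DirichletCharacter ℂ q), 1 < q → Squarefree q → q.Coprime M →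
        χ.IsPrimitive → (q : ℝ) ≤ Real.log x ^ B →
          ‖sm (fun m => L m * χ m) bmp x‖ ≤ C * x / Real.log x ^ A) (A : ℕ) :
    ∃ C : ℝ, ∀ᶠ x : ℝ in atTop,
      ∑ f ∈ F x, wf f * ‖sm (fun m => L m * Qf f m) bmp x‖ ≤ C * x / Real.log x ^ A := by
  obtain ⟨C, k, hC, hV⟩ := mv2_large a μ L j h1 h2 hμ ha hL test_bmp
  obtain ⟨δ₁, C₁, d1, hC1⟩ := hI bmp test_bmp
  obtain ⟨δ₂, C₂, d2, hC2⟩ := hI _
    (test_bmp.mul (g := fun u : ℝ => (u : ℂ)) Complex.ofRealCLM.contDiff)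
  obtain ⟨δ, d0, e0, e1, e2⟩ : ∃ δ : ℝ, 0 < δ ∧ δ ≤ 1 / 2 ∧ δ ≤ δ₁ ∧ δ ≤ δ₂ :=
    ⟨min (1 / 2) (min δ₁ δ₂), by positivity, min_le_left _ _,
      (min_le_right _ _).trans (min_le_left _ _), (min_le_right _ _).trans (min_le_right _ _)⟩
  obtain ⟨B, hB0, b1, b2⟩ : ∃ B : ℝ, 0 ≤ B ∧ C₁ ≤ B ∧ C₂ ≤ B :=
    ⟨|C₁| + |C₂|, by positivity, by linarith only [le_abs_self C₁, abs_nonneg C₂],
      by linarith only [le_abs_self C₂, abs_nonneg C₁]⟩
  obtain ⟨Cw, w0, hw⟩ := wf_le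
  obtain ⟨Cp, p0, hp⟩ := sum_wf_pe
  obtain ⟨Cl, c0, hCl⟩ := vau_log_pow (k + A) d0
  obtain ⟨Cs, s0, hs⟩ := hSW (A + 4 * (k + A)) (2 * (k + A))
  refine ⟨Cw * Cs + C * ((Cp + B) * Cl + 9 * Cw), ?_⟩
  filter_upwards [hC1, hC2, eventually_ge_atTop 3] with x g1 g2 hx
  have hx0 : 0 < x := by linarith only [hθ0, hθ, hx]
  have hx1 : 1 ≤ x := by linarith only [hθ0, hθ, hx]
  have hl := vau_one_le_log hx
  have l0 : 0 < Real.log x := by linarith only [hθ0, hθ, hl]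
  have mono : ∀ {s t : ℝ}, s ≤ t → x ^ s ≤ x ^ t := Real.rpow_le_rpow_of_exponent_le hx1
  have add : ∀ s t : ℝ, x ^ s * x ^ t = x ^ (s + t) := fun s t => (Real.rpow_add hx0 s t).symm
  have w1 : 1 ≤ x ^ θ := Real.one_le_rpow hx1 hθ0.le
  have w2 : x ^ (2 * θ) = (x ^ θ) ^ 2 := by rw [sq, add, two_mul]
  have w4 : x ^ (4 * θ) = (x ^ θ) ^ 4 := by
    rw [mul_comm, show (4 : ℝ) = (4 : ℕ) by norm_num, Real.rpow_mul_natCast hx0.le]
  have w5 : x ^ (4 * θ) ≤ x * x ^ (-δ) := by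
    rw [show x * x ^ (-δ) = x ^ (1 + -δ) by rw [← add, Real.rpow_one]]
    exact mono (by linarith only [hθ0, hθ, e0])
  have w6 : x ^ (2 * θ) * √x ≤ x := by
    rw [Real.sqrt_eq_rpow, add]
    exact (mono (by linarith only [hθ0, hθ])).trans_eq (Real.rpow_one x)
  have w7 : x * x ^ (-δ) ≤ x :=
    mul_le_of_le_one_right hx0.le (Real.rpow_le_one_of_one_le_of_nonpos hx1 (by linarith only [d0]))
  have w8 : x ^ δ * (x * x ^ (-δ)) = x := by
    rw [mul_left_comm, add, add_neg_cancel, Real.rpow_zero, mul_one]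
  have z0 : 0 < x * x ^ (-δ) := by positivity
  rw [w2] at w6
  rw [w4] at w5 g1 g2
  have hF' := hF x hx1
  have G : ∀ {c t : ℝ} (d : ℕ), c ≤ B → δ ≤ t → c * (x / d) * x ^ (-t) ≤ B * (x * x ^ (-δ)) / d :=
    fun {c t} d hc ht => by
      calc _ ≤ B * (x / d) * x ^ (-t) := by gcongr
        _ ≤ B * (x / d) * x ^ (-δ) := mul_le_mul_of_nonneg_left (mono (by linarith only [ht])) (by positivity)
        _ = _ := by ring
  generalize x ^ θ = y at *
  obtain ⟨U, hU, u1, u2⟩ : ∃ U : ℕ, 1 ≤ U ∧ (U : ℝ) ≤ y ^ 2 ∧ y ^ 2 ≤ 4 * U := by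
    have y2 : 1 ≤ y ^ 2 := one_le_pow₀ w1
    have a1 : 1 ≤ ⌊y ^ 2⌋₊ := Nat.le_floor (by exact_mod_cast y2)
    have a2 : (1 : ℝ) ≤ ⌊y ^ 2⌋₊ := by exact_mod_cast a1
    exact ⟨_, a1, Nat.floor_le (by positivity), by linarith only [Nat.lt_floor_add_one (y ^ 2), hθ0, hθ, a2]⟩
  obtain ⟨D, hD, D1, D2⟩ : ∃ D : ℕ, 1 ≤ D ∧ y ≤ D ∧ (D : ℝ) ≤ 2 * y :=
    ⟨⌈y⌉₊, Nat.ceil_pos.2 (by linarith only [hθ0, hθ, w1]), Nat.le_ceil y,
      by linarith only [Nat.ceil_lt_add_one (zero_le_one.trans w1), w1]⟩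
  have U0 : (0 : ℝ) < U := by exact_mod_cast hU
  have uu : (U : ℝ) ^ 2 ≤ y ^ 4 := (pow_le_pow_left₀ U0.le u1 2).trans_eq (by ring)
  have small := mv2_small (M := M) L (x := x) (R := Real.log x ^ (2 * (k + A)))
    (E := Cs * x / Real.log x ^ (A + 4 * (k + A))) (by positivity) (by positivity) w0.le hw
    ((F x).filter fun f => pe f ≤ Real.log x ^ (2 * (k + A)))
    (fun f hf => ⟨(hF' f (mem_filter.1 hf).1).1, (hF' f (mem_filter.1 hf).1).2.1,
      (mem_filter.1 hf).2⟩) (hs x hx)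
  have sub : ∀ t : Finset ℕ → ℝ, (∀ f, 0 ≤ t f) →
      ∑ f ∈ (F x).filter fun f => ¬ pe f ≤ Real.log x ^ (2 * (k + A)), wf f * t f ≤
        ∑ f ∈ F x, wf f * t f := fun t ht =>
    sum_le_sum_of_subset_of_nonneg (filter_subset _ _) fun f hf _ =>
      mul_nonneg (wf_nonneg fun p h => ((hF' f hf).2.1 p h).1) (ht f)
  have large := hV x (Cp * y ^ 2) (B * (x * x ^ (-δ))) (Cw / Real.log x ^ (k + A)) U D
    ((F x).filter fun f => ¬ pe f ≤ Real.log x ^ (2 * (k + A))) hx hU (by linarith only [w7, w5, uu]) hD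
    (by positivity) (by positivity)
    (fun f hf => by
      obtain ⟨f1, f2⟩ := mem_filter.1 hf
      have f3 : ∀ p ∈ f, p.Prime := fun p h => ((hF' f f1).2.1 p h).1
      refine ⟨f3, (hF' f f1).2.2.trans D1, (hw f f3).trans
        (div_le_div_of_nonneg_left w0.le (by positivity) (Real.le_sqrt_of_sq_le ?_))⟩
      rw [← pow_mul, mul_comm]
      exact (not_le.1 f2).le)
    (hp _ y w1 fun f hf => ⟨fun p h => ((hF' f (mem_filter.1 hf).1).2.1 p h).1,
      (hF' f (mem_filter.1 hf).1).2.2⟩)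
    (fun d hd => by
      obtain ⟨a1, a2⟩ := mem_Icc.1 hd
      have a3 : (d : ℝ) ≤ y ^ 4 := le_trans (by exact_mod_cast a2) uu
      exact ⟨(sub _ fun _ => norm_nonneg _).trans ((g1 d a1 a3).trans (G d b1 e1)),
        (sub _ fun _ => norm_nonneg _).trans ((g2 d a1 a3).trans (G d b2 e2))⟩)
  have a1 : Cp * y ^ 2 * U ≤ Cp * (x * x ^ (-δ)) := by
    rw [mul_assoc]
    refine mul_le_mul_of_nonneg_left (le_trans ?_ w5) p0.le
    calc y ^ 2 * U ≤ y ^ 2 * y ^ 2 := by gcongr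
      _ = _ := by ring
  have a2 : D * x / √U ≤ 4 * x := by
    have r : y ≤ 2 * √U := by
      refine (pow_le_pow_iff_left₀ (by linarith only [hθ0, hθ, w1]) (by positivity) two_ne_zero).1 ?_
      rw [mul_pow, Real.sq_sqrt U0.le]
      linarith only [u2]
    rw [div_le_iff₀ (Real.sqrt_pos.2 U0)]
    nlinarith only [hx, D2, r]
  have a3 : (D : ℝ) ^ 2 * √x ≤ 4 * x := by
    calc _ ≤ (2 * y) ^ 2 * √x := by gcongr
      _ ≤ _ := by linarith only [w6]
  have a4 : Real.log x ^ k * (x * x ^ (-δ)) ≤ Cl * x / Real.log x ^ A := by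
    rw [le_div_iff₀ (by positivity)]
    calc _ = Real.log x ^ (k + A) * (x * x ^ (-δ)) := by ring
      _ ≤ Cl * x ^ δ * (x * x ^ (-δ)) := mul_le_mul_of_nonneg_right (hCl x hx1) z0.le
      _ = _ := by rw [mul_assoc, w8]
  rw [← sum_filter_add_sum_filter_not _ fun f => pe f ≤ Real.log x ^ (2 * (k + A))]
  generalize x * x ^ (-δ) = Z at *
  generalize Real.log x = l at *
  refine (add_le_add small large).trans ?_
  calc _ ≤ l ^ (2 * (k + A)) * (Cw * (l ^ (2 * (k + A)) * (Cs * x / l ^ (A + 4 * (k + A))))) +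
        C * l ^ k * ((Cp + B) * Z + Cw / l ^ (k + A) * (9 * x)) := by
        refine add_le_add le_rfl (mul_le_mul_of_nonneg_left (add_le_add (by linarith only [a1])
          (mul_le_mul_of_nonneg_left (by linarith only [a2, a3]) (by positivity))) (by positivity))
    _ = Cw * Cs * x / l ^ A + C * ((Cp + B) * (l ^ k * Z) + 9 * Cw * x / l ^ A) := by
        field_simp
        ring
    _ ≤ Cw * Cs * x / l ^ A + C * ((Cp + B) * (Cl * x / l ^ A) + 9 * Cw * x / l ^ A) := by gcongr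
    _ = _ := by ring

end Pool.Agent.MP_48b1c3_nt.H48

end

-- part MP_48b1c3_nt.H91.BV
section

/-! The theorem of Bombieri and Vinogradov for weights on primes. -/

namespace Pool.Agent.MP_48b1c3_nt.H91

open Finset NumberField H54 Filter
open scoped ContDiff Topology

/-- weighted sums -/
noncomputable def bv_th (Ω : Finset ℕ) (w : ℕ → ℝ) (f : ℕ → ℂ) : ℂ := ∑ n ∈ Ω, (w n : ℂ) * f n

/-- the weight of a modulus -/
noncomputable def bv_w (q : ℕ) : ℝ := ((64 + 1 : ℕ) : ℝ) ^ #q.primeFactors / q.totient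

/-- squarefree moduli in `(1, R]` prime to `M` -/
def bv_Q (M R : ℕ) : Finset ℕ := (Ioc 1 R).filter fun q => Squarefree q ∧ q.Coprime M

theorem bv_w_nonneg (q : ℕ) : 0 ≤ bv_w q := by
  unfold bv_w
  positivity

theorem bv_biUnion {α : Type*} [DecidableEq α] (J : Finset ℕ) (t : ℕ → Finset α) {f : α → ℝ}
    (hf : ∀ a, 0 ≤ f a) : ∑ a ∈ J.biUnion t, f a ≤ ∑ i ∈ J, ∑ a ∈ t i, f a := by
  induction J using Finset.induction_on with
  | empty => simp
  | insert i J hi ih =>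
    rw [biUnion_insert, sum_insert hi]
    have h := sum_union_inter (s₁ := t i) (s₂ := J.biUnion t) (f := f)
    have h' : 0 ≤ ∑ a ∈ t i ∩ J.biUnion t, f a := sum_nonneg fun a _ => hf a
    linarith

theorem bv_th_congr {Ω : Finset ℕ} {w : ℕ → ℝ} {f g : ℕ → ℂ}
    (h : ∀ n ∈ Ω, w n ≠ 0 → f n = g n) : bv_th Ω w f = bv_th Ω w g := by
  refine sum_congr rfl fun n hn => ?_
  by_cases h0 : w n = 0
  · simp [h0]
  · rw [h n hn h0]

theorem bv_orth (Ω : Finset ℕ) (g : ℕ → ℂ) {N a : ℕ} [NeZero N] (ha : a.Coprime N) :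
    ∑ χ : DirichletCharacter ℂ N, χ (a : ZMod N)⁻¹ * ∑ n ∈ Ω, g n * χ n =
      N.totient * ∑ n ∈ Ω.filter (fun n => n ≡ a [MOD N]), g n := by
  have hu : IsUnit (a : ZMod N) := (ZMod.isUnit_iff_coprime a N).2 ha
  simp only [mul_sum]
  rw [sum_comm, sum_filter]
  refine sum_congr rfl fun n _ => ?_
  simp only [mul_left_comm _ (g n)]
  rw [← mul_sum, DirichletCharacter.sum_char_inv_mul_char_eq ℂ hu]
  by_cases hn : n ≡ a [MOD N]
  · rw [if_pos hn, if_pos ((ZMod.natCast_eq_natCast_iff _ _ _).2 hn.symm), mul_comm]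
  · rw [if_neg hn, if_neg fun h' => hn ((ZMod.natCast_eq_natCast_iff _ _ _).1 h').symm]
    simp

open scoped Classical in
theorem bv_err {Ω : Finset ℕ} {w : ℕ → ℝ} {N : ℕ} [NeZero N]
    (h : ∀ n ∈ Ω, w n ≠ 0 → n.Coprime N) :
    |∑ n ∈ Ω.filter (fun n => n ≡ 1 [MOD N]), w n - (∑ n ∈ Ω, w n) / N.totient| ≤
      (∑ χ ∈ (univ : Finset (DirichletCharacter ℂ N)).erase 1, ‖bv_th Ω w fun n => χ n‖) /
        N.totient := by
  have hφ : (0 : ℝ) < N.totient := by exact_mod_cast Nat.totient_pos.2 (NeZero.pos N)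
  have h1 := bv_orth Ω (fun n => (w n : ℂ)) (Nat.coprime_one_left N)
  simp only [Nat.cast_one, ZMod.inv_one, map_one, one_mul] at h1
  have h2 : bv_th Ω w (fun n => (1 : DirichletCharacter ℂ N) n) = ((∑ n ∈ Ω, w n : ℝ) : ℂ) := by
    rw [bv_th_congr (g := fun _ => 1) fun n hn h0 =>
      MulChar.one_apply ((ZMod.isUnit_iff_coprime n N).2 (h n hn h0))]
    simp [bv_th]
  have h3 : (((∑ n ∈ Ω.filter (fun n => n ≡ 1 [MOD N]), w n - (∑ n ∈ Ω, w n) / N.totient) *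
      N.totient : ℝ) : ℂ) =
      ∑ χ ∈ (univ : Finset (DirichletCharacter ℂ N)).erase 1, bv_th Ω w (fun n => χ n) := by
    rw [sum_erase_eq_sub (mem_univ _), h2, sub_mul, div_mul_cancel₀ _ hφ.ne']
    simp only [bv_th]
    rw [h1]
    push_cast
    ring
  rw [le_div_iff₀ hφ]
  refine le_trans (le_of_eq ?_) (norm_sum_le _ _)
  rw [← h3, Complex.norm_real, Real.norm_eq_abs, abs_mul, abs_of_pos hφ]

open scoped Classical in
theorem bv_chars {Ω : Finset ℕ} {w : ℕ → ℝ} {M N R : ℕ} [NeZero N] (hN : N ≤ R)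
    (hs : Squarefree N) (hc : N.Coprime M) (h : ∀ n ∈ Ω, w n ≠ 0 → n.Coprime N) :
    ∑ χ ∈ (univ : Finset (DirichletCharacter ℂ N)).erase 1, ‖bv_th Ω w fun n => χ n‖ ≤
      ∑ i ∈ (Xf (bv_Q M R)).filter (fun i => i.1 ∣ N), ‖bv_th Ω w fun n => i.2 n‖ := by
  have key : ∀ (χ : DirichletCharacter ℂ N) (n : ℕ), n.Coprime N →
      χ.primitiveCharacter n = χ n := fun χ n hn => by
    simpa only [Int.cast_natCast] using χ.primitiveCharacter_apply_of_isCoprime (Nat.isCoprime_iff_coprime.2 hn)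
  calc _ = ∑ i ∈ ((univ : Finset (DirichletCharacter ℂ N)).erase 1).image
        (fun χ => (⟨χ.conductor, χ.primitiveCharacter⟩ : Σ q : ℕ, DirichletCharacter ℂ q)),
          ‖bv_th Ω w fun n => i.2 n‖ := by
        rw [sum_image]
        · exact sum_congr rfl fun χ _ => by
            rw [bv_th_congr fun n hn h0 => (key χ n (h n hn h0)).symm]
        · intro χ _ χ' _ e
          ext u
          have hu := ZMod.val_coe_unit_coprime u
          have e' := congrArg (fun i : Σ q : ℕ, DirichletCharacter ℂ q =>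
            i.2 ((u : ZMod N).val : ZMod i.1)) e
          simp only [key _ _ hu] at e'
          simpa using e'
    _ ≤ _ := by
        refine sum_le_sum_of_subset_of_nonneg (fun i hi => ?_) fun _ _ _ => norm_nonneg _
        obtain ⟨χ, hχ, rfl⟩ := mem_image.1 hi
        have hd := χ.conductor_dvd_level
        have h0 := χ.conductor_ne_zero
        have h1 : χ.conductor ≠ 1 := fun e =>
          (mem_erase.1 hχ).1 (DirichletCharacter.eq_one_iff_conductor_eq_one.2 e)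
        exact mem_filter.2 ⟨mem_Xf.2 ⟨mem_filter.2 ⟨mem_Ioc.2 ⟨by dsimp only; omega,
          (Nat.le_of_dvd (NeZero.pos N) hd).trans hN⟩, hs.squarefree_of_dvd hd,
          hc.coprime_dvd_left hd⟩, χ.primitiveCharacter_isPrimitive⟩, hd⟩

theorem bv_red {Ω : Finset ℕ} {w : ℕ → ℝ} {M R : ℕ} (D : Finset ℕ)
    (hD : ∀ N ∈ D, 0 < N ∧ N ≤ R) (hs : ∀ N ∈ D, Squarefree N ∧ N.Coprime M)
    (h : ∀ N ∈ D, ∀ n ∈ Ω, w n ≠ 0 → n.Coprime N) :
    ∑ N ∈ D, (64 : ℝ) ^ #N.primeFactors *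
      |∑ n ∈ Ω.filter (fun n => n ≡ 1 [MOD N]), w n - (∑ n ∈ Ω, w n) / N.totient| ≤
      (∑ m ∈ Icc 1 R, bv_w m) * ∑ i ∈ Xf (bv_Q M R), bv_w i.1 * ‖bv_th Ω w fun n => i.2 n‖ := by
  calc _ ≤ ∑ N ∈ D, ∑ i ∈ Xf (bv_Q M R),
          if i.1 ∣ N then ‖bv_th Ω w fun n => i.2 n‖ * bv_w N else 0 := by
        refine sum_le_sum fun N hN => ?_
        have : NeZero N := ⟨(hD N hN).1.ne'⟩
        have h1 := (bv_err (h N hN)).trans (div_le_div_of_nonneg_right
          (bv_chars (hD N hN).2 (hs N hN).1 (hs N hN).2 (h N hN)) (Nat.cast_nonneg _))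
        rw [← sum_filter, ← sum_mul, bv_w, mul_div_assoc', mul_comm _ (_ ^ _), mul_div_assoc]
        gcongr
        norm_num
    _ = ∑ i ∈ Xf (bv_Q M R), ‖bv_th Ω w fun n => i.2 n‖ * ∑ N ∈ D.filter (i.1 ∣ ·), bv_w N := by
        rw [sum_comm]
        exact sum_congr rfl fun i _ => by rw [← sum_filter, mul_sum]
    _ ≤ _ := by
        rw [mul_sum]
        refine sum_le_sum fun i hi => ?_
        have h0 : 0 < i.1 := zero_lt_one.trans (mem_Ioc.1 (mem_filter.1 (mem_Xf.1 hi).1).1).1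
        calc _ ≤ ‖bv_th Ω w fun n => i.2 n‖ * (bv_w i.1 * ∑ m ∈ Icc 1 R, bv_w m) :=
              mul_le_mul_of_nonneg_left (bv_weight_le 64 h0 D hD) (norm_nonneg _)
          _ = _ := by ring

theorem bv_card {M : ℕ} [NeZero M] : Fintype.card (DirichletCharacter ℂ M) = M.totient := by
  rw [← Nat.card_eq_fintype_card, DirichletCharacter.card_eq_totient_of_hasEnoughRootsOfUnity]

theorem bv_sum_Xf {Q : Finset ℕ} {T : ℕ} (hQ : Q ⊆ Icc 1 T) {f : ℕ → ℝ} (hf : ∀ q, 0 ≤ f q) :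
    ∑ i ∈ Xf Q, f i.1 ≤ T * ∑ q ∈ Icc 1 T, f q := by
  rw [Xf, sum_sigma, mul_sum]
  refine le_trans (sum_le_sum fun q hq => ?_) (sum_le_sum_of_subset_of_nonneg hQ
    fun q _ _ => mul_nonneg (Nat.cast_nonneg _) (hf q))
  obtain ⟨h1, h2⟩ := mem_Icc.1 (hQ hq)
  have : NeZero q := ⟨by omega⟩
  dsimp only
  rw [sum_const, nsmul_eq_mul]
  refine mul_le_mul_of_nonneg_right (Nat.cast_le.2 ((card_le_univ _).trans ?_)) (hf q)
  rw [← Nat.card_eq_fintype_card, DirichletCharacter.card_eq_totient_of_hasEnoughRootsOfUnity]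
  exact (Nat.totient_le q).trans h2

theorem bv_w_le {ε : ℝ} (hε : 0 < ε) :
    ∃ C : ℝ, 0 < C ∧ ∀ q : ℕ, 0 < q → bv_w q ≤ C * (q : ℝ) ^ (ε - 1) := by
  obtain ⟨r, hr⟩ := exists_nat_one_div_lt hε
  set K : ℕ := (2 * (64 + 1)) ^ (r + 1) with hK
  refine ⟨((K + 1) ^ K : ℕ), by positivity, fun q hq => ?_⟩
  refine (bv_div_totient_le _ q hq).trans ?_
  have h1 : (1 : ℝ) ≤ q := by exact_mod_cast hq
  have h2 : (1 : ℝ) ≤ ((K + 1) ^ K : ℕ) := by exact_mod_cast Nat.one_le_pow' _ _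
  have h3 : (((2 * (64 + 1) : ℕ) : ℝ) ^ #q.primeFactors) ^ (r + 1) ≤ ((K + 1) ^ K : ℕ) * q := by
    rw [← pow_mul, mul_comm (#q.primeFactors), pow_mul]
    exact_mod_cast bv_pow_omega_le K q hq
  generalize (((K + 1) ^ K : ℕ) : ℝ) = C at h2 h3
  have h4 : (q : ℝ) ≤ ((q : ℝ) ^ ε) ^ (r + 1) := by
    rw [← Real.rpow_natCast, ← Real.rpow_mul (by linarith only [h1])]
    refine (Real.rpow_one _).symm.le.trans (Real.rpow_le_rpow_of_exponent_le h1 ?_)
    rw [div_lt_iff₀ (by positivity)] at hr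
    push_cast
    exact hr.le
  rw [Real.rpow_sub_one (by linarith only [h1]), mul_div_assoc']
  refine div_le_div_of_nonneg_right (le_of_pow_le_pow_left₀ r.succ_ne_zero (by positivity)
    (h3.trans ?_)) (by linarith only [h1])
  rw [mul_pow]
  exact mul_le_mul (le_self_pow₀ h2 r.succ_ne_zero) h4 (by linarith only [h1]) (by positivity)

theorem bv_ev (n : ℕ) {s : ℝ} (hs : 0 < s) : ∀ᶠ x : ℝ in atTop, Real.log x ^ n ≤ x ^ s := by
  filter_upwards [(isLittleO_log_rpow_rpow_atTop (n : ℝ) hs).bound one_pos,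
    eventually_ge_atTop 0] with x h hx
  rw [one_mul, Real.rpow_natCast, Real.norm_of_nonneg (Real.rpow_nonneg hx _)] at h
  exact (le_abs_self _).trans h

theorem bv_one_le_log {x : ℝ} (hx : 3 ≤ x) : 1 ≤ Real.log x := by
  rw [Real.le_log_iff_exp_le (by linarith)]
  linarith only [Real.exp_one_lt_d9, hx]

/-- the weighted sum over the family -/
theorem bv_fam {M : ℕ} {θ : ℝ} (hθ : θ < 1 / 2)
    (P : ℝ → (Σ q : ℕ, DirichletCharacter ℂ q) → ℝ) (hP : ∀ x i, 0 ≤ P x i) {δ C : ℝ} {k : ℕ}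
    (hδ : 0 < δ) (hC : 0 < C) (hMV : ∀ (x : ℝ) (D : ℕ), 3 ≤ x → 1 ≤ D → D ≤ x ^ θ →
      ∑ i ∈ Xf (Qs M D), P x i ≤ C * (x * Real.log x ^ k + D * x ^ (1 - δ)))
    (hSW : ∀ A B : ℕ, ∃ C : ℝ, 0 < C ∧ ∀ x : ℝ, 3 ≤ x →
      ∀ (q : ℕ) (χ : DirichletCharacter ℂ q), 1 < q → Squarefree q → q.Coprime M →
        χ.IsPrimitive → (q : ℝ) ≤ Real.log x ^ B → P x ⟨q, χ⟩ ≤ C * x / Real.log x ^ A) (A : ℕ) :
    ∃ C' : ℝ, 0 ≤ C' ∧ ∀ᶠ x : ℝ in atTop,
      ∑ i ∈ Xf (bv_Q M ⌊x ^ θ⌋₊), bv_w i.1 * P x i ≤ C' * x / Real.log x ^ A := by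
  classical
  have hε : 0 < min δ (1 / 2) := lt_min hδ (by norm_num)
  have hε1 := min_le_left δ (1 / 2)
  have hε2 := min_le_right δ (1 / 2)
  generalize min δ (1 / 2) = ε at hε hε1 hε2
  obtain ⟨C₀, hC₀, h₀⟩ := bv_w_le hε
  set B := k + A + 1 with hB
  obtain ⟨C₁, hC₁, h₁⟩ := hSW (4 * B + A) (2 * B)
  refine ⟨C₀ * C₁ + 9 * C₀ * C, by positivity, ?_⟩
  filter_upwards [eventually_ge_atTop 3, bv_ev (A + 1) (half_pos hδ)] with x hx hev
  have hL := bv_one_le_log hx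
  have hx0 : 0 < x := by linarith only [hx]
  have hR : (⌊x ^ θ⌋₊ : ℝ) ≤ x ^ θ := Nat.floor_le (by positivity)
  have hθx : x ^ θ ≤ x :=
    (Real.rpow_le_rpow_of_exponent_le (by linarith only [hε, hε2, hx]) (by linarith only [hθ, hε, hε2])).trans (Real.rpow_one x).le
  have h₁ := h₁ x hx
  have hMV := fun D => hMV x D hx
  have hlg : ∀ i : ℕ, ((2 ^ i : ℕ) : ℝ) ≤ x → i ≤ ⌊2 * Real.log x⌋₊ := fun i hi => by
    refine Nat.le_floor ?_
    have := Real.log_le_log (by positivity) hi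
    rw [Nat.cast_pow, Real.log_pow, Nat.cast_ofNat] at this
    have h2 : (0 : ℝ) ≤ i := Nat.cast_nonneg i
    nlinarith only [Real.log_two_gt_d9, this]
  have hfl : ((⌊2 * Real.log x⌋₊ + 1 : ℕ) : ℝ) ≤ 3 * Real.log x := by
    have := Nat.floor_le (a := 2 * Real.log x) (by linarith only [hε, hε2, hL])
    push_cast
    linarith only [hL, this]
  generalize ⌊x ^ θ⌋₊ = R at *
  generalize ⌊2 * Real.log x⌋₊ = I at *
  generalize Real.log x = L at *
  set J := (range (I + 1)).filter fun i =>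
    L ^ (2 * B) ≤ 2 * ((2 ^ i : ℕ) : ℝ) ∧ ((2 ^ i : ℕ) : ℝ) ≤ x ^ θ with hJ
  have hsmall : ∑ i ∈ Xf (bv_Q M ⌊L ^ (2 * B)⌋₊), bv_w i.1 * P x i ≤ C₀ * C₁ * x / L ^ A := by
    have hT : (⌊L ^ (2 * B)⌋₊ : ℝ) ≤ L ^ (2 * B) := Nat.floor_le (by positivity)
    calc _ ≤ ∑ i ∈ Xf (bv_Q M ⌊L ^ (2 * B)⌋₊), C₀ * (C₁ * x / L ^ (4 * B + A)) := by
          refine sum_le_sum fun i hi => ?_
          obtain ⟨h2, h3⟩ := mem_Xf.1 hi
          obtain ⟨h4, h5, h6⟩ := mem_filter.1 h2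
          obtain ⟨h7, h8⟩ := mem_Ioc.1 h4
          refine mul_le_mul ((h₀ _ (by omega)).trans (mul_le_of_le_one_right hC₀.le
            (Real.rpow_le_one_of_one_le_of_nonpos (by exact_mod_cast h7.le) (by linarith only [hε, hε2]))))
            (h₁ i.1 i.2 h7 h5 h6 h3 ((Nat.cast_le.2 h8).trans hT)) (hP _ _) hC₀.le
      _ ≤ ⌊L ^ (2 * B)⌋₊ * ∑ q ∈ Icc 1 ⌊L ^ (2 * B)⌋₊, C₀ * (C₁ * x / L ^ (4 * B + A)) :=
          bv_sum_Xf (f := fun _ => C₀ * (C₁ * x / L ^ (4 * B + A)))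
            ((filter_subset _ _).trans Ioc_subset_Icc_self) fun _ => by positivity
      _ ≤ L ^ (2 * B) * (L ^ (2 * B) * (C₀ * (C₁ * x / L ^ (4 * B + A)))) := by
          rw [sum_const, nsmul_eq_mul, Nat.card_Icc, Nat.add_sub_cancel]
          gcongr
      _ = _ := by
          field_simp
          ring
  have hblock : ∀ i ∈ J, ∑ i' ∈ Xf (Qs M (2 ^ i)), bv_w i'.1 * P x i' ≤
      3 * C₀ * C * x / L ^ (A + 1) := by
    intro i hi
    obtain ⟨h2, h3⟩ := (mem_filter.1 hi).2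
    have h4 := hMV (2 ^ i) Nat.one_le_two_pow h3
    have h5 : (1 : ℝ) ≤ (2 ^ i : ℕ) := by exact_mod_cast Nat.one_le_two_pow
    have h6 : ∑ i' ∈ Xf (Qs M (2 ^ i)), bv_w i'.1 * P x i' ≤
        C₀ * ((2 ^ i : ℕ) : ℝ) ^ (ε - 1) * ∑ i' ∈ Xf (Qs M (2 ^ i)), P x i' := by
      rw [mul_sum]
      refine sum_le_sum fun i' hi' => mul_le_mul_of_nonneg_right ?_ (hP _ _)
      have h7 := (mem_Ioc.1 (mem_filter.1 (mem_Xf.1 hi').1).1).1
      exact (h₀ _ (Nat.zero_lt_of_lt h7)).trans (mul_le_mul_of_nonneg_left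
        (Real.rpow_le_rpow_of_nonpos (by linarith only [hε, hε2, h5]) (Nat.cast_le.2 h7.le) (by linarith only [hε, hε2])) hC₀.le)
    generalize ((2 ^ i : ℕ) : ℝ) = D at h2 h3 h4 h5 h6
    have h7 : D ^ (ε - 1) ≤ 2 / L ^ B := by
      refine (Real.rpow_le_rpow_of_exponent_le h5 (show ε - 1 ≤ -(1 / 2) by linarith only [hε2])).trans ?_
      rw [Real.rpow_neg (by linarith only [hε, hε2, h5]), ← Real.sqrt_eq_rpow, ← one_div,
        div_le_div_iff₀ (by positivity) (by positivity), one_mul]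
      refine le_of_sq_le_sq ?_ (by positivity)
      rw [mul_pow, Real.sq_sqrt (by linarith only [hε, hε2, h5]), ← pow_mul, mul_comm B]
      linarith only [hε, hε2, h2, h5]
    have h8 : D ^ (ε - 1) * D * x ^ (1 - δ) ≤ x / L ^ (A + 1) := by
      rw [← Real.rpow_add_one (by linarith only [hε, hε2, h5]), sub_add_cancel, le_div_iff₀ (by positivity)]
      calc _ ≤ (x ^ θ) ^ ε * x ^ (1 - δ) * x ^ (δ / 2) := by gcongr
        _ = x ^ (θ * ε + (1 - δ) + δ / 2) := by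
            rw [← Real.rpow_mul hx0.le, ← Real.rpow_add hx0, ← Real.rpow_add hx0]
        _ ≤ x ^ (1 : ℝ) := Real.rpow_le_rpow_of_exponent_le (by linarith only [hε, hε2, hx]) (by nlinarith only [hθ, hε, hε1])
        _ = x := Real.rpow_one x
    calc _ ≤ C₀ * D ^ (ε - 1) * (C * (x * L ^ k + D * x ^ (1 - δ))) :=
          h6.trans (mul_le_mul_of_nonneg_left h4 (by positivity))
      _ = C₀ * C * (D ^ (ε - 1) * (x * L ^ k) + D ^ (ε - 1) * D * x ^ (1 - δ)) := by ring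
      _ ≤ C₀ * C * (2 / L ^ B * (x * L ^ k) + x / L ^ (A + 1)) := by gcongr
      _ = _ := by
          rw [hB]
          field_simp
          ring
  have hnn : ∀ i : Σ q : ℕ, DirichletCharacter ℂ q, 0 ≤ bv_w i.1 * P x i :=
    fun i => mul_nonneg (bv_w_nonneg _) (hP _ _)
  have hcover : Xf (bv_Q M R) ⊆
      Xf (bv_Q M ⌊L ^ (2 * B)⌋₊) ∪ J.biUnion fun i => Xf (Qs M (2 ^ i)) := by
    intro i hi
    obtain ⟨h2, h3⟩ := mem_Xf.1 hi
    obtain ⟨h4, h5⟩ := mem_filter.1 h2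
    obtain ⟨h7, h8⟩ := mem_Ioc.1 h4
    by_cases h : (i.1 : ℝ) ≤ L ^ (2 * B)
    · exact mem_union_left _ (mem_Xf.2 ⟨mem_filter.2 ⟨mem_Ioc.2 ⟨h7, Nat.le_floor h⟩, h5⟩, h3⟩)
    have e1 := Nat.pow_log_le_self 2 (x := i.1 - 1) (by omega)
    have e2 := Nat.lt_pow_succ_log_self one_lt_two (i.1 - 1)
    generalize Nat.log 2 (i.1 - 1) = t at e1 e2
    rw [pow_succ'] at e2
    have e3 : ((2 ^ t : ℕ) : ℝ) ≤ x ^ θ := (Nat.cast_le.2 (by omega)).trans hR
    have e4 : (i.1 : ℝ) ≤ 2 * ((2 ^ t : ℕ) : ℝ) := by exact_mod_cast (by omega : i.1 ≤ 2 * 2 ^ t)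
    exact mem_union_right _ (mem_biUnion.2 ⟨t, mem_filter.2 ⟨mem_range.2
      (Nat.lt_succ_of_le (hlg t (e3.trans hθx))), (not_le.1 h).le.trans e4, e3⟩,
      mem_Xf.2 ⟨mem_filter.2 ⟨mem_Ioc.2 ⟨by omega, by omega⟩, h5⟩, h3⟩⟩)
  have hJc : (#J : ℝ) ≤ 3 * L :=
    (Nat.cast_le.2 ((card_filter_le _ _).trans (card_range _).le)).trans hfl
  calc _ ≤ _ := sum_le_sum_of_subset_of_nonneg hcover fun i _ _ => hnn i
    _ ≤ ∑ i ∈ Xf (bv_Q M ⌊L ^ (2 * B)⌋₊), bv_w i.1 * P x i +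
          ∑ i ∈ J.biUnion fun i => Xf (Qs M (2 ^ i)), bv_w i.1 * P x i := by
        rw [← sum_union_inter]
        exact le_add_of_nonneg_right (sum_nonneg fun i _ => hnn i)
    _ ≤ C₀ * C₁ * x / L ^ A + #J • (3 * C₀ * C * x / L ^ (A + 1)) :=
        add_le_add hsmall ((bv_biUnion _ _ hnn).trans (sum_le_card_nsmul _ _ _ hblock))
    _ ≤ C₀ * C₁ * x / L ^ A + 3 * L * (3 * C₀ * C * x / L ^ (A + 1)) := by
        rw [nsmul_eq_mul]
        gcongr
    _ = _ := by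
        field_simp
        ring

/-- removing the congruence condition and the prime powers -/
theorem bv_th_le {M a₀ : ℕ} (hM : 0 < M) (h0 : a₀.Coprime M) {L : ℕ → ℝ} {j : ℕ}
    (hL : ∀ m, 0 ≤ L m ∧ L m ≤ j * ArithmeticFunction.vonMangoldt m) {x : ℝ} (hx : 1 ≤ x)
    {f : ℕ → ℂ} (hf : ∀ n, ‖f n‖ ≤ 1) :
    ‖bv_th (Om M a₀ x) (fun n => |L n| * bump (Real.log (n / x))) f‖ ≤
      ∑ ψ : DirichletCharacter ℂ M, ‖sm (fun m => L m * ψ m * f m) bmp x‖ +
        j * (2 * √x * Real.log x) := by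
  have : NeZero M := ⟨hM.ne'⟩
  have hφ : (1 : ℝ) ≤ M.totient := by exact_mod_cast Nat.totient_pos.2 hM
  set g : ℕ → ℂ := fun n => ((|L n| * bump (Real.log (n / x)) : ℝ) : ℂ) * f n with hg
  have h1 : ∀ ψ : DirichletCharacter ℂ M, ‖∑ n ∈ (Icc 1 ⌊x⌋₊).filter Nat.Prime, g n * ψ n‖ ≤
      ‖sm (fun m => L m * ψ m * f m) bmp x‖ + j * (2 * √x * Real.log x) := fun ψ => by
    have h : ‖∑ n ∈ (Icc 1 ⌊x⌋₊).filter Nat.Prime, g n * ψ n -
        sm (fun m => L m * ψ m * f m) bmp x‖ ≤ j * (2 * √x * Real.log x) := by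
      refine le_trans ?_ (mul_le_mul_of_nonneg_left (Chebyshev.psi_sub_theta_le hx)
        (Nat.cast_nonneg j))
      rw [Chebyshev.psi_sub_theta_eq_sum_not_prime, sum_filter, sum_filter, sm, ← sum_sub_distrib,
        mul_sum]
      refine (norm_sum_le _ _).trans (sum_le_sum fun n _ => ?_)
      by_cases hp : n.Prime
      · rw [if_pos hp, if_neg (not_not.2 hp), hg, bmp]
        dsimp only
        rw [abs_of_nonneg (hL n).1, mul_zero, norm_le_zero_iff]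
        push_cast
        ring
      · rw [if_neg hp, if_pos hp, zero_sub, norm_neg, norm_mul, norm_mul, norm_mul, bmp,
          Complex.norm_real, Complex.norm_real, Real.norm_of_nonneg (hL n).1,
          Real.norm_of_nonneg bump.nonneg]
        have h2 := (hL n).1
        calc _ ≤ L n * 1 * 1 * 1 := by
              gcongr
              · exact bump.nonneg
              · exact ψ.norm_le_one _
              · exact hf n
              · exact bump.le_one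
          _ ≤ _ := by simpa only [mul_one] using (hL n).2
    linarith only [norm_le_insert' (∑ n ∈ (Icc 1 ⌊x⌋₊).filter Nat.Prime, g n * ψ n)
      (sm (fun m => L m * ψ m * f m) bmp x), h]
  have h2 := bv_orth ((Icc 1 ⌊x⌋₊).filter Nat.Prime) g h0
  rw [filter_filter] at h2
  have h3 : M.totient * ‖bv_th (Om M a₀ x) (fun n => |L n| * bump (Real.log (n / x))) f‖ ≤
      ∑ ψ : DirichletCharacter ℂ M, ‖sm (fun m => L m * ψ m * f m) bmp x‖ +
        M.totient * (j * (2 * √x * Real.log x)) := by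
    have e1 : (M.totient : ℝ) * (j * (2 * √x * Real.log x)) =
        ∑ _ψ : DirichletCharacter ℂ M, j * (2 * √x * Real.log x) := by
      rw [sum_const, card_univ, bv_card, nsmul_eq_mul]
    rw [e1, ← sum_add_distrib, ← Complex.norm_natCast, ← norm_mul]
    refine (congrArg norm h2).symm.le.trans ((norm_sum_le _ _).trans (sum_le_sum fun ψ _ => ?_))
    rw [norm_mul]
    exact (mul_le_of_le_one_left (norm_nonneg _) (ψ.norm_le_one _)).trans (h1 ψ)
  have h4 : 0 ≤ ∑ ψ : DirichletCharacter ℂ M, ‖sm (fun m => L m * ψ m * f m) bmp x‖ :=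
    sum_nonneg fun _ _ => norm_nonneg _
  refine le_of_mul_le_mul_left (h3.trans ?_) (zero_lt_one.trans_le hφ)
  nlinarith only [hφ, h4]

theorem bv_tot (S : Finset ℕ) (hS : ∀ q ∈ S, q.Prime) :
    ((∏ q ∈ S, q).totient : ℝ) = ∏ q ∈ S, ((q : ℝ) - 1) := by
  induction S using Finset.induction_on with
  | empty => simp
  | insert q S hq ih =>
    have h1 := hS q (mem_insert_self _ _)
    have h2 : ∀ p ∈ S, p.Prime := fun p hp => hS p (mem_insert_of_mem hp)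
    rw [prod_insert hq, prod_insert hq, Nat.totient_mul (Nat.Coprime.prod_right fun p hp =>
      (Nat.coprime_primes h1 (h2 p hp)).2 fun h => hq (h ▸ hp)), Nat.cast_mul, ih h2,
      Nat.totient_prime h1, Nat.cast_pred h1.pos]

/-- the remainder sum in terms of characters -/
theorem bv_rem (A : SP) (M : ℕ) (z : ℝ) (h1 : ∀ n ∈ A.Ω, 1 ≤ n) (hX : A.X = ∑ n ∈ A.Ω, A.a n)
    (h : ∀ n ∈ A.Ω, A.a n ≠ 0 → n.Prime ∧ A.D < n) :
    A.R M ∅ z ≤ (∑ m ∈ Icc 1 ⌊A.D⌋₊, bv_w m) *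
      ∑ i ∈ Xf (bv_Q M ⌊A.D⌋₊), bv_w i.1 * ‖bv_th A.Ω A.a fun n => i.2 n‖ := by
  set T := (Pw M z).powerset.filter fun d => pe d * pe ∅ ≤ A.D with hT
  have hp : ∀ S ∈ T, ∀ q ∈ S, q.Prime ∧ ¬ q ∣ M := fun S hS q hq =>
    (mem_Pw.1 (mem_powerset.1 (mem_filter.1 hS).1 hq)).2
  have h0 : ∀ S ∈ T, 0 < ∏ q ∈ S, q := fun S hS => prod_pos fun q hq => (hp S hS q hq).1.pos
  have h2 : ∀ S ∈ T, ((∏ q ∈ S, q : ℕ) : ℝ) ≤ A.D := fun S hS => by
    simpa only [Nat.cast_prod, pe, prod_empty, mul_one] using (mem_filter.1 hS).2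
  have h3 : ∀ S ∈ T, (∏ q ∈ S, q).primeFactors = S := fun S hS =>
    Nat.primeFactors_prod fun q hq => (hp S hS q hq).1
  refine le_trans (le_of_eq ?_) (bv_red (T.image fun S => ∏ q ∈ S, q) (fun N hN => ?_)
    (fun N hN => ?_) fun N hN n hn hw => ?_)
  · rw [sum_image fun S hS S' hS' h => by rw [← h3 S hS, ← h3 S' hS', h], SP.R]
    refine sum_congr rfl fun S hS => ?_
    rw [h3 S hS, union_empty, bv_tot S fun q hq => (hp S hS q hq).1, SP.cnt, hX, ge]
    simp only [gg]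
    rw [prod_div_distrib, prod_const_one, mul_one_div]
    refine congrArg (fun t => _ * |t - _|) (sum_congr (filter_congr fun n hn => ?_) fun _ _ => rfl)
    rw [Nat.ModEq.comm, Nat.modEq_iff_dvd' (h1 n hn)]
    exact ⟨fun h => prod_primes_dvd _ (fun q hq => (hp S hS q hq).1.prime) h,
      fun h q hq => (dvd_prod_of_mem _ hq).trans h⟩
  · obtain ⟨S, hS, rfl⟩ := mem_image.1 hN
    exact ⟨h0 S hS, Nat.le_floor (h2 S hS)⟩
  · obtain ⟨S, hS, rfl⟩ := mem_image.1 hN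
    refine ⟨squarefree_prod_of_pairwise_isCoprime (fun p hp' q hq hne => ?_)
      fun q hq => (hp S hS q hq).1.squarefree, Nat.Coprime.prod_left fun q hq =>
        (Nat.Prime.coprime_iff_not_dvd (hp S hS q hq).1).2 (hp S hS q hq).2⟩
    exact Nat.coprime_iff_isRelPrime.1
      ((Nat.coprime_primes (hp S hS p hp').1 (hp S hS q hq).1).2 hne)
  · obtain ⟨S, hS, rfl⟩ := mem_image.1 hN
    obtain ⟨h4, h5⟩ := h n hn hw
    refine (Nat.Prime.coprime_iff_not_dvd h4).2 (Nat.not_dvd_of_pos_of_lt (h0 S hS) ?_)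
    exact_mod_cast (h2 S hS).trans_lt h5

theorem bv {M a₀ : ℕ} (hM : 0 < M) (h0 : a₀.Coprime M) (L : ℕ → ℝ) (j : ℕ)
    (hL : ∀ m, 0 ≤ L m ∧ L m ≤ j * ArithmeticFunction.vonMangoldt m) {θ : ℝ} (hθ0 : 0 < θ)
    (hθ : θ < 1 / 2)
    (hMV : ∀ ψ : DirichletCharacter ℂ M, ∃ (δ C : ℝ) (k : ℕ), 0 < δ ∧ 0 < C ∧
      ∀ (x : ℝ) (D : ℕ), 3 ≤ x → 1 ≤ D → D ≤ x ^ θ →
        ∑ i ∈ Xf (Qs M D), ‖sm (fun m => L m * ψ m * i.2 m) bmp x‖ ≤
          C * (x * Real.log x ^ k + D * x ^ (1 - δ)))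
    (hSW : ∀ (ψ : DirichletCharacter ℂ M) (A B : ℕ), ∃ C : ℝ, 0 < C ∧ ∀ x : ℝ, 3 ≤ x →
      ∀ (q : ℕ) (χ : DirichletCharacter ℂ q), 1 < q → Squarefree q → q.Coprime M →
        χ.IsPrimitive → (q : ℝ) ≤ Real.log x ^ B →
          ‖sm (fun m => L m * ψ m * χ m) bmp x‖ ≤ C * x / Real.log x ^ A) (A : ℕ) :
    ∃ C : ℝ, ∀ᶠ x : ℝ in atTop, ∀ z : ℝ,
      (prob L M a₀ x (x ^ θ)).R M ∅ z ≤ C * x / Real.log x ^ A := by
  obtain ⟨C₂, k, hC₂, h₂⟩ := sum_omega_totient_le (64 + 1)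
  have hfam : ∀ ψ : DirichletCharacter ℂ M, ∃ C' : ℝ, 0 ≤ C' ∧ ∀ᶠ x : ℝ in atTop,
      ∑ i ∈ Xf (bv_Q M ⌊x ^ θ⌋₊), bv_w i.1 * ‖sm (fun m => L m * ψ m * i.2 m) bmp x‖ ≤
        C' * x / Real.log x ^ (A + k) := fun ψ => by
    obtain ⟨δ, C, k', hδ, hC, h⟩ := hMV ψ
    exact bv_fam hθ (fun x i => ‖sm (fun m => L m * ψ m * i.2 m) bmp x‖)
      (fun _ _ => norm_nonneg _) hδ hC h (hSW ψ) _
  choose C' hC' hfam using hfam
  refine ⟨C₂ * (∑ ψ, C' ψ + 2 * j * C₂), ?_⟩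
  filter_upwards [eventually_all.2 hfam, eventually_ge_atTop 3,
    bv_ev (k + 1 + (A + k)) (sub_pos.2 hθ),
    (tendsto_rpow_atTop (show 0 < 1 - θ by linarith only [hθ])).eventually_ge_atTop (Real.exp 4)]
    with x hfam hx hev he z
  have hL1 := bv_one_le_log hx
  have hx0 : 0 < x := by linarith only [hθ0, hθ, hx]
  have hθx : x ^ θ ≤ x / Real.exp 4 := by
    rw [le_div_iff₀ (Real.exp_pos _)]
    calc _ ≤ x ^ θ * x ^ (1 - θ) := by gcongr
      _ = x := by rw [← Real.rpow_add hx0, add_sub_cancel, Real.rpow_one]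
  have hR : (⌊x ^ θ⌋₊ : ℝ) ≤ x ^ θ := Nat.floor_le (by positivity)
  have hS : ∑ m ∈ Icc 1 ⌊x ^ θ⌋₊, bv_w m ≤ C₂ * Real.log x ^ k :=
    le_trans (sum_le_sum_of_subset_of_nonneg (Icc_subset_Icc_right (Nat.floor_le_floor
      (hθx.trans (div_le_self hx0.le (Real.one_le_exp (by norm_num))))))
      fun _ _ _ => bv_w_nonneg _) (h₂ x hx)
  have hS0 : 0 ≤ ∑ m ∈ Icc 1 ⌊x ^ θ⌋₊, bv_w m := sum_nonneg fun _ _ => bv_w_nonneg _
  have herr : ∑ i ∈ Xf (bv_Q M ⌊x ^ θ⌋₊), bv_w i.1 * (j * (2 * √x * Real.log x)) ≤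
      2 * j * C₂ * x / Real.log x ^ (A + k) := by
    rw [← sum_mul, le_div_iff₀ (by positivity)]
    calc _ ≤ x ^ θ * (C₂ * Real.log x ^ k) * (j * (2 * √x * Real.log x)) *
          Real.log x ^ (A + k) := by
          gcongr
          exact (bv_sum_Xf ((filter_subset _ _).trans Ioc_subset_Icc_self) bv_w_nonneg).trans
            (mul_le_mul hR hS hS0 (by positivity))
      _ = 2 * j * C₂ * (x ^ θ * √x * Real.log x ^ (k + 1 + (A + k))) := by ring
      _ ≤ 2 * j * C₂ * (x ^ θ * √x * x ^ (1 / 2 - θ)) := by gcongr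
      _ = _ := by
          rw [Real.sqrt_eq_rpow, ← Real.rpow_add hx0, ← Real.rpow_add hx0,
            show θ + 1 / 2 + (1 / 2 - θ) = 1 by ring, Real.rpow_one]
  refine (bv_rem (prob L M a₀ x (x ^ θ)) M z (fun n hn => (mem_Icc.1 (mem_filter.1 hn).1).1) rfl
    fun n hn hw => ?_).trans ?_
  · have hp := (mem_filter.1 hn).2.1
    refine ⟨hp, hθx.trans_lt (mem_PI.1 (mem_PI_of_wt hx0 ?_)).1⟩
    rw [wt, if_pos hp]
    exact mul_ne_zero (Real.log_pos (by exact_mod_cast hp.one_lt)).ne' (right_ne_zero_of_mul hw)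
  · calc _ ≤ (C₂ * Real.log x ^ k) * ∑ i ∈ Xf (bv_Q M ⌊x ^ θ⌋₊), bv_w i.1 *
            (∑ ψ : DirichletCharacter ℂ M, ‖sm (fun m => L m * ψ m * i.2 m) bmp x‖ +
              j * (2 * √x * Real.log x)) :=
          mul_le_mul hS (sum_le_sum fun i _ => mul_le_mul_of_nonneg_left
            (bv_th_le hM h0 hL (by linarith only [hθ0, hθ, hx]) fun n => i.2.norm_le_one _) (bv_w_nonneg _))
            (sum_nonneg fun i _ => mul_nonneg (bv_w_nonneg _) (norm_nonneg _)) (by positivity)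
      _ ≤ (C₂ * Real.log x ^ k) * (∑ ψ, C' ψ * x / Real.log x ^ (A + k) +
            2 * j * C₂ * x / Real.log x ^ (A + k)) := by
          refine mul_le_mul_of_nonneg_left ?_ (by positivity)
          simp only [mul_add, mul_sum]
          rw [sum_add_distrib, sum_comm]
          exact add_le_add (sum_le_sum fun ψ _ => hfam ψ) herr
      _ = _ := by
          rw [← sum_div, ← sum_mul, pow_add]
          field_simp

end Pool.Agent.MP_48b1c3_nt.H91

end

-- part MP_48b1c3_nt.H48.BV2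
section

/-! Remainder terms of the sieve. -/

namespace Pool.Agent.MP_48b1c3_nt.H48

open Finset NumberField H54 H91 Filter
open scoped Classical BigOperators Topology

variable {K : Type} [Field K] [NumberField K]

theorem bv2_th {M a₀ : ℕ} (hM : 0 < M) (h0 : a₀.Coprime M) {L : ℕ → ℝ} {j : ℕ}
    (hL : ∀ m, 0 ≤ L m ∧ L m ≤ j * ArithmeticFunction.vonMangoldt m) {x : ℝ} (hx : 1 ≤ x)
    {f : Finset ℕ} (hf : ∀ p ∈ f, p.Prime) :
    ‖bv_th (Om M a₀ x) (fun n => |L n| * bump (Real.log (n / x))) fun n => Qf f n‖ ≤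
      ∑ ψ : DirichletCharacter ℂ M, ‖sm (fun m => L m * ψ m * Qf f m) bmp x‖ +
        pe f * (j * (2 * √x * Real.log x)) := by
  have h1 : 0 < pe f := zero_lt_one.trans_le (pe_ge_one hf)
  have h2 : ‖((pe f : ℝ) : ℂ)‖ = pe f := by rw [Complex.norm_real, Real.norm_of_nonneg h1.le]
  have h := bv_th_le hM h0 hL hx (f := fun n => Qf f n / (pe f : ℝ)) fun n => by
    rw [norm_div, h2, div_le_one h1]
    exact norm_Qf_le hf n
  simp only [bv_th, sm, ← mul_div_assoc, div_mul_eq_mul_div, ← sum_div, norm_div, h2] at h ⊢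
  rw [div_le_iff₀ h1, add_mul, div_mul_cancel₀ _ h1.ne'] at h
  linarith only [h]

theorem bv2_cnt {Ω : Finset ℕ} {w : ℕ → ℝ} {d : Finset ℕ} (hd : ∀ p ∈ d, p.Prime)
    (h : ∀ n ∈ Ω, w n ≠ 0 → 0 < n ∧ ∀ p ∈ d, ¬ p ∣ n) :
    |∑ n ∈ Ω.filter (fun n => ∀ p ∈ d, p ∣ n - 1), w n - (∑ n ∈ Ω, w n) * ge d| ≤
      ge d * ∑ f ∈ d.powerset.erase ∅, ‖bv_th Ω w fun n => Qf f n‖ := by
  have h1 : ((∑ n ∈ Ω.filter (fun n => ∀ p ∈ d, p ∣ n - 1), w n : ℝ) : ℂ) =
      ge d * ∑ f ∈ d.powerset, bv_th Ω w fun n => Qf f n := by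
    simp only [bv_th]
    rw [sum_comm, mul_sum, sum_filter, Complex.ofReal_sum]
    refine sum_congr rfl fun n hn => ?_
    by_cases h0 : w n = 0
    · simp only [h0, ite_self, Complex.ofReal_zero, zero_mul, sum_const_zero, mul_zero]
    obtain ⟨h2, h3⟩ := h n hn h0
    have h4 : (if ∀ p ∈ d, p ∣ n - 1 then (1 : ℂ) else 0) = ge d * ∑ f ∈ d.powerset, Qf f n := by
      have h6 := prod_congr rfl fun p (hp : p ∈ d) => ind_eq (hd p hp) (h3 p hp) h2
      rw [prod_boole, prod_mul_distrib, prod_add_one, ← Complex.ofReal_prod] at h6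
      refine Eq.trans ?_ h6
      congr
    rw [← mul_sum, mul_left_comm, ← h4]
    split_ifs <;> simp
  have h5 : ((∑ n ∈ Ω.filter (fun n => ∀ p ∈ d, p ∣ n - 1), w n - (∑ n ∈ Ω, w n) * ge d : ℝ) : ℂ) =
      ge d * ∑ f ∈ d.powerset.erase ∅, bv_th Ω w fun n => Qf f n := by
    rw [Complex.ofReal_sub, h1, sum_erase_eq_sub (empty_mem_powerset d)]
    simp only [bv_th, Qf, prod_empty, mul_one]
    push_cast
    ring
  rw [← Real.norm_eq_abs, ← Complex.norm_real, h5, norm_mul, Complex.norm_real,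
    Real.norm_of_nonneg (ge_nn hd)]
  exact mul_le_mul_of_nonneg_left (norm_sum_le _ _) (ge_nn hd)

theorem bv2_sum {F : Finset (Finset ℕ)} (hp : ∀ d ∈ F, ∀ p ∈ d, p.Prime)
    (hF : ∀ d ∈ F, ∀ f ⊆ d, f ∈ F) {t : Finset ℕ → ℝ} (ht : ∀ f, 0 ≤ t f) :
    ∑ d ∈ F, 64 ^ #d * (ge d * ∑ f ∈ d.powerset.erase ∅, t f) ≤
      (∑ e ∈ F, wf e) * ∑ f ∈ F.erase ∅, wf f * t f := by
  calc _ ≤ ∑ d ∈ F, ∑ f ∈ F.erase ∅, if f ⊆ d then wf (d \ f) * (wf f * t f) else 0 := by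
        refine sum_le_sum fun d hd => ?_
        have e : d.powerset.erase ∅ = (F.erase ∅).filter (· ⊆ d) := by
          ext f
          simp only [mem_erase, mem_powerset, mem_filter]
          exact ⟨fun h => ⟨⟨h.1, hF d hd f h.2⟩, h.2⟩, fun h => ⟨h.1.1, h.2⟩⟩
        rw [← sum_filter, e, ← mul_assoc, mul_sum]
        refine sum_le_sum fun f hf => ?_
        have hs := (mem_filter.1 hf).2
        have e2 : wf (d \ f) * wf f = wf d := by
          rw [wf, wf, wf, ge, ge, ge, ← prod_sdiff hs, ← card_sdiff_add_card_eq_card hs, pow_add]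
          ring
        rw [← mul_assoc, e2, wf]
        have := ge_nn (hp d hd)
        have := ht f
        gcongr
        norm_num
    _ ≤ _ := by
        rw [sum_comm, mul_sum]
        refine sum_le_sum fun f hf => ?_
        rw [← sum_filter, ← sum_mul]
        refine mul_le_mul_of_nonneg_right ?_
          (mul_nonneg (wf_nonneg (hp f (mem_of_mem_erase hf))) (ht f))
        rw [← sum_image (s := F.filter (f ⊆ ·)) (g := (· \ f)) (f := wf) fun d hd d' hd' e => by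
          rw [← sdiff_union_of_subset (mem_filter.1 hd).2,
            ← sdiff_union_of_subset (mem_filter.1 hd').2]
          exact congrArg (· ∪ f) e]
        refine sum_le_sum_of_subset_of_nonneg (fun e he => ?_) fun e he _ => wf_nonneg (hp e he)
        obtain ⟨d, hd, rfl⟩ := mem_image.1 he
        exact hF d (mem_filter.1 hd).1 _ sdiff_subset

theorem bv2 {M a₀ : ℕ} (hM : 0 < M) (h0 : a₀.Coprime M) (L : ℕ → ℝ) (j : ℕ)
    (hL : ∀ m, 0 ≤ L m ∧ L m ≤ j * ArithmeticFunction.vonMangoldt m)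
    (F : ℝ → Finset (Finset ℕ))
    (hF : ∀ x, 1 ≤ x → ∀ f ∈ F x, Prs M f ∧ pe f ≤ x ^ (1 / 20 : ℝ) ∧ ∀ d ⊆ f, d ∈ F x)
    (hMV : ∀ (ψ : DirichletCharacter ℂ M) (A : ℕ), ∃ C : ℝ, ∀ᶠ x : ℝ in atTop,
      ∑ f ∈ (F x).erase ∅, wf f * ‖sm (fun m => L m * ψ m * Qf f m) bmp x‖ ≤
        C * x / Real.log x ^ A) (A : ℕ) :
    ∃ C : ℝ, ∀ᶠ x : ℝ in atTop, ∀ D : ℝ, ∑ d ∈ F x,
      64 ^ #d * |(prob L M a₀ x D).cnt d - (prob L M a₀ x D).X * ge d| ≤
        C * x / Real.log x ^ A := by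
  obtain ⟨C₂, k, hC₂, h₂⟩ := sum_wf
  obtain ⟨C₃, hC₃, h₃⟩ := sum_wf_pe
  choose C' hfam using fun ψ => hMV ψ (A + k)
  refine ⟨C₂ * (∑ ψ, C' ψ + 2 * j * C₃), ?_⟩
  filter_upwards [eventually_all.2 hfam, eventually_ge_atTop 3,
    bv_ev (1 + (A + k)) (show (0 : ℝ) < 2 / 5 by norm_num),
    (tendsto_rpow_atTop (show (0 : ℝ) < 19 / 20 by norm_num)).eventually_ge_atTop (Real.exp 4)]
    with x hfam hx hev he D
  have hL1 := bv_one_le_log hx
  have hx0 : 0 < x := by linarith only [hx]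
  have hF := hF x (by linarith only [hx])
  have hp : ∀ d ∈ F x, ∀ p ∈ d, p.Prime := fun d hd p hp => ((hF d hd).1 p hp).1
  have hθx : x ^ (1 / 20 : ℝ) ≤ x / Real.exp 4 := by
    rw [le_div_iff₀ (Real.exp_pos _)]
    calc _ ≤ x ^ (1 / 20 : ℝ) * x ^ (19 / 20 : ℝ) := by gcongr
      _ = x := by rw [← Real.rpow_add hx0]; norm_num
  have hS : ∑ e ∈ F x, wf e ≤ C₂ * Real.log x ^ k := h₂ _ x hx fun f hf => ⟨hp f hf,
    (hF f hf).2.1.trans (hθx.trans (div_le_self hx0.le (Real.one_le_exp (by norm_num))))⟩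
  have herr : ∑ f ∈ (F x).erase ∅, wf f * (pe f * (j * (2 * √x * Real.log x))) ≤
      2 * j * C₃ * x / Real.log x ^ (A + k) := by
    simp only [← mul_assoc (wf _)]
    rw [← sum_mul, le_div_iff₀ (by positivity)]
    calc _ ≤ C₃ * (x ^ (1 / 20 : ℝ)) ^ 2 * (j * (2 * √x * Real.log x)) *
          Real.log x ^ (A + k) := by
          gcongr
          exact h₃ _ _ (Real.one_le_rpow (by linarith only [hx]) (by norm_num)) fun f hf =>
            ⟨hp f (mem_of_mem_erase hf), (hF f (mem_of_mem_erase hf)).2.1⟩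
      _ = 2 * j * C₃ * (x ^ (1 / 20 : ℝ) * x ^ (1 / 20 : ℝ) * √x *
          Real.log x ^ (1 + (A + k))) := by ring
      _ ≤ 2 * j * C₃ * (x ^ (1 / 20 : ℝ) * x ^ (1 / 20 : ℝ) * √x * x ^ (2 / 5 : ℝ)) := by gcongr
      _ = _ := by
          rw [Real.sqrt_eq_rpow, ← Real.rpow_add hx0, ← Real.rpow_add hx0, ← Real.rpow_add hx0]
          norm_num
  have hc : ∀ d ∈ F x, |(prob L M a₀ x D).cnt d - (prob L M a₀ x D).X * ge d| ≤
      ge d * ∑ f ∈ d.powerset.erase ∅,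
        ‖bv_th (Om M a₀ x) (fun n => |L n| * bump (Real.log (n / x))) fun n => Qf f n‖ := by
    intro d hd
    refine le_trans (le_of_eq ?_) (bv2_cnt (hp d hd) fun n hn hw => ?_)
    · simp only [SP.cnt, prob]
      congr
    have hn' := (mem_filter.1 hn).2.1
    refine ⟨hn'.pos, fun p hpd h => ?_⟩
    obtain rfl := (Nat.prime_dvd_prime_iff_eq (hp d hd p hpd) hn').1 h
    have h1 : x / Real.exp 4 < p := (mem_PI.1 (mem_PI_of_wt hx0 (by
      rw [wt, if_pos hn']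
      exact mul_ne_zero (Real.log_pos (by exact_mod_cast hn'.one_lt)).ne'
        (right_ne_zero_of_mul hw)))).1
    have h2 : (p : ℝ) ≤ pe d := by
      rw [pe, ← Nat.cast_prod]
      exact Nat.cast_le.2 (single_le_prod' (f := fun q => q)
        (fun q hq => (hp d hd q hq).one_le) hpd)
    linarith only [(hF d hd).2.1, hθx, h1, h2]
  refine (sum_le_sum fun d hd => mul_le_mul_of_nonneg_left (hc d hd) (by positivity)).trans
    ((bv2_sum hp (fun d hd => (hF d hd).2.2) fun _ => norm_nonneg _).trans ?_)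
  calc _ ≤ (C₂ * Real.log x ^ k) * ∑ f ∈ (F x).erase ∅, wf f *
          (∑ ψ : DirichletCharacter ℂ M, ‖sm (fun m => L m * ψ m * Qf f m) bmp x‖ +
            pe f * (j * (2 * √x * Real.log x))) :=
        mul_le_mul hS (sum_le_sum fun f hf => mul_le_mul_of_nonneg_left
          (bv2_th hM h0 hL (by linarith only [hx]) (hp f (mem_of_mem_erase hf)))
          (wf_nonneg (hp f (mem_of_mem_erase hf))))
          (sum_nonneg fun f hf => mul_nonneg (wf_nonneg (hp f (mem_of_mem_erase hf)))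
            (norm_nonneg _)) (by positivity)
    _ ≤ (C₂ * Real.log x ^ k) * (∑ ψ, C' ψ * x / Real.log x ^ (A + k) +
          2 * j * C₃ * x / Real.log x ^ (A + k)) := by
        refine mul_le_mul_of_nonneg_left ?_ (by positivity)
        simp only [mul_add, mul_sum]
        rw [sum_add_distrib, sum_comm]
        exact add_le_add (sum_le_sum fun ψ _ => hfam ψ) herr
    _ = _ := by
        rw [← sum_div, ← sum_mul, pow_add]
        field_simp

end Pool.Agent.MP_48b1c3_nt.H48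

end

-- part MP_48b1c3_nt.H91.Chen
section

/-! The weighted step of Chen. -/

namespace Pool.Agent.MP_48b1c3_nt.H91

open Finset NumberField H54 Filter
open scoped ContDiff Topology

theorem chen_esymm (g : ℕ → ℝ) (T : Finset ℕ) (hg : ∀ p ∈ T, 0 ≤ g p) (n : ℕ) :
    ∑ r ∈ T.powersetCard n, ∏ p ∈ r, g p ≤ (∑ p ∈ T, g p) ^ n := by
  induction T using Finset.induction_on generalizing n with
  | empty =>
    cases n with
    | zero => simp
    | succ n => simp only [powersetCard_eq_empty.2 (show #(∅ : Finset ℕ) < n + 1 by simp), sum_empty, ne_eq, Nat.add_eq_zero_iff, one_ne_zero, and_false, not_false_eq_true, zero_pow, Std.le_refl]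
  | insert j P hj ih =>
    cases n with
    | zero => simp
    | succ n =>
      have h0 := hg j (mem_insert_self _ _)
      have h1 := fun p hp => hg p (mem_insert_of_mem hp)
      have h2 := sum_nonneg h1
      have hn : ∀ S ∈ P.powersetCard n, j ∉ S := fun S hS h => hj ((mem_powersetCard.1 hS).1 h)
      rw [powersetCard_succ_insert hj, sum_union (disjoint_left.2 fun S h1 h2 => by
        obtain ⟨S', -, rfl⟩ := mem_image.1 h2
        exact hj ((mem_powersetCard.1 h1).1 (mem_insert_self _ _))),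
        sum_image fun S hS S' hS' h => by
          rw [← erase_insert (hn S hS), h, erase_insert (hn S' hS')],
        sum_congr rfl fun S hS => prod_insert (hn S hS), ← mul_sum, sum_insert hj, pow_succ]
      have h3 := ih h1 (n + 1)
      have h4 := mul_le_mul_of_nonneg_left (ih h1 n) h0
      have h5 : (∑ p ∈ P, g p) ^ n ≤ (g j + ∑ p ∈ P, g p) ^ n := by
        gcongr
        linarith
      have h6 := mul_le_mul_of_nonneg_right h5 (add_nonneg h0 h2)
      rw [pow_succ] at h3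
      linarith

theorem chen_wt (k : ℕ) : (if k = 0 then 1 else 0 : ℝ) ≤ 1 - k / 2 + k.choose 3 := by
  rcases Nat.lt_or_ge k 3 with h | h
  · interval_cases k <;> norm_num [Nat.choose]
  have : k ≤ 2 + 2 * k.choose 3 := by
    induction k, h using Nat.le_induction with
    | base => decide
    | succ k h ih =>
      have := Nat.choose_pos (show 2 ≤ k by omega)
      have h3 : (k + 1).choose 3 = k.choose 2 + k.choose 3 := Nat.choose_succ_succ' k 2
      omega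
  have h1 : (k : ℝ) ≤ 2 + 2 * k.choose 3 := by exact_mod_cast this
  rw [if_neg (by omega)]
  linarith only [h1]

theorem chen_comb {M : ℕ} (A : SP) (e : Finset ℕ) {w z : ℝ} (h : w ≤ z) :
    A.S M e z ≤ A.S M e w - (∑ p ∈ Pw M z \ Pw M w, A.S M (insert p e) w) / 2 +
      ∑ r ∈ (Pw M z \ Pw M w).powersetCard 3, A.S M (r ∪ e) w := by
  simp only [SP.S, sum_filter]
  rw [sum_comm, sum_comm (s := powersetCard _ _), sum_div, ← sum_sub_distrib, ← sum_add_distrib]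
  refine sum_le_sum fun n _ => ?_
  simp only [forall_mem_insert, forall_mem_union, and_assoc]
  by_cases h1 : (∀ p ∈ e, p ∣ n - 1) ∧ ∀ p ∈ Pw M w, ¬ p ∣ n - 1
  · have k := mul_le_mul_of_nonneg_right
      (chen_wt #((Pw M z \ Pw M w).filter (· ∣ n - 1))) (A.ha n)
    have e1 : ((Pw M z \ Pw M w).powersetCard 3).filter (fun r => ∀ p ∈ r, p ∣ n - 1) =
        ((Pw M z \ Pw M w).filter (· ∣ n - 1)).powersetCard 3 := by
      ext r
      simp only [mem_filter, mem_powersetCard, subset_iff]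
      exact ⟨fun a => ⟨fun p hp => ⟨a.1.1 hp, a.2 p hp⟩, a.1.2⟩,
        fun a => ⟨⟨fun p hp => (a.1 hp).1, a.2⟩, fun p hp => (a.1 hp).2⟩⟩
    simp only [and_iff_left h1, if_pos h1, ← sum_filter, sum_const, nsmul_eq_mul, e1,
      card_powersetCard]
    refine le_trans ?_ (k.trans_eq (by ring))
    split_ifs with a b
    · rw [one_mul]
    · refine absurd (card_eq_zero.2 (filter_eq_empty_iff.2 fun p hp => ?_)) b
      exact a.2 p (mem_sdiff.1 hp).1
    · exact mul_nonneg zero_le_one (A.ha n)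
    · rw [zero_mul]
  · rw [if_neg fun a => h1 ⟨a.1, fun p hp => a.2 p (Pw_mono h hp)⟩]
    simp only [h1, ↓ reduceIte, and_false, sum_const_zero, zero_div, sub_self, add_zero, Std.le_refl]

theorem chen_cell {M : ℕ} (h2 : 2 ∣ M) {A : SP} {e : Finset ℕ} {x b η L u w w' z : ℝ}
    (h : ∀ e, Adm M e u → u ^ x * pe e ≤ A.D → (b - η) * A.E M e u - L * A.R M e u ≤ A.S M e u)
    (hb : 0 ≤ b) (hL : 0 ≤ L) (he : Adm M e z) (hu : 0 ≤ u) (h1 : u ≤ w') (h3 : w' ≤ w)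
    (h4 : w ≤ z) (hD : u ^ x * w * pe e ≤ A.D) :
    (b * (1 - VV M w / VV M w') - η * ∑ p ∈ Pw M w \ Pw M w', gg p) * A.E M e u -
      L * A.R M e z ≤ ∑ p ∈ Pw M w \ Pw M w', A.S M (insert p e) u := by
  have he' := he.anti h4
  have b1 := sum_le_sum fun p (hp : p ∈ Pw M w \ Pw M w') => h (insert p e)
    (he'.ins (mem_sdiff.1 hp).1 (h1.trans (mert_sd hp).1)) (by
      rw [pe, prod_insert (he'.notMem (mem_sdiff.1 hp).1), ← mul_assoc]
      refine le_trans (mul_le_mul_of_nonneg_right ?_ (zero_le_one.trans (one_le_pe he))) hD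
      exact mul_le_mul_of_nonneg_left (mert_sd hp).2.le (Real.rpow_nonneg hu _))
  have b2 : ∑ p ∈ Pw M w \ Pw M w', A.E M (insert p e) u =
      (∑ p ∈ Pw M w \ Pw M w', gg p) * A.E M e u := by
    rw [sum_mul]
    refine sum_congr rfl fun p hp => ?_
    rw [SP.E, SP.E, ge, prod_insert (he'.notMem (mem_sdiff.1 hp).1), ge]
    ring
  rw [sum_sub_distrib, ← mul_sum, ← mul_sum, b2] at b1
  have b3 := mul_le_mul_of_nonneg_left ((R_insert (w := w') A he' (fun _ => u)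
    fun p hp => h1.trans (mert_sd hp).1).trans (R_mono A e h4)) hL
  have b4 := mul_le_mul_of_nonneg_right (mul_le_mul_of_nonneg_left (sum_g_ge h2 h3) hb)
    (E_nonneg h2 A he u)
  linarith

theorem chen_tri {M : ℕ} (h2 : 2 ∣ M) {C : ℝ} (hC : 0 ≤ C) {A : SP} (hA : A.H M C)
    {e : Finset ℕ} {u z : ℝ} (he : Adm M e z) (hu : 2 ≤ u) (h : u ≤ z)
    (hD : z ^ 2 * pe e ≤ A.D) :
    ∑ r ∈ (Pw M z \ Pw M u).powersetCard 3, A.S M (r ∪ e) u ≤
      C * (VV M u / VV M z - 1) ^ 3 * A.E M e u := by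
  have hg : ∀ p ∈ Pw M z \ Pw M u, 0 ≤ gg p := fun p hp =>
    (mert_gg h2 (mem_sdiff.1 hp).1).1.le
  have h1 := one_le_pe he
  have hE := E_nonneg h2 A he u
  refine (sum_le_sum (g := fun r => C * (∏ p ∈ r, gg p) * A.E M e u) fun r hr => ?_).trans ?_
  · obtain ⟨r1, r2⟩ := mem_powersetCard.1 hr
    have hd : Disjoint r e := disjoint_left.2 fun p hp => he.notMem (mem_sdiff.1 (r1 hp)).1
    have a1 : ∏ p ∈ r, (p : ℝ) ≤ z ^ 3 := by
      rw [← r2, ← prod_const]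
      exact prod_le_prod (fun _ _ => Nat.cast_nonneg _) fun p hp => (mert_sd (r1 hp)).2.le
    refine (hA (r ∪ e) u (fun p hp => ?_) hu (by nlinarith only [hu, h, hD, h1]) ?_).trans_eq ?_
    · rcases mem_union.1 hp with a | a
      · exact ⟨(mem_Pw.1 (mem_sdiff.1 (r1 a)).1).2.1, (mem_Pw.1 (mem_sdiff.1 (r1 a)).1).2.2,
          (mert_sd (r1 a)).1⟩
      · exact he.anti h p a
    · rw [pe, prod_union hd, ← pe.eq_1 e]
      have hz : 0 ≤ z := by linarith only [hu, h]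
      calc _ ≤ (z ^ 3 * pe e) ^ 2 := by gcongr
        _ = z ^ 6 * pe e ^ 2 := by ring
        _ ≤ z ^ 6 * pe e ^ 3 := by gcongr; norm_num
        _ = (z ^ 2 * pe e) ^ 3 := by ring
        _ ≤ _ := by gcongr
    · rw [SP.E, SP.E, ge, prod_union hd, ge]
      ring
  · rw [← sum_mul, ← mul_sum]
    gcongr
    exact (chen_esymm _ _ hg 3).trans (pow_le_pow_left₀ (sum_nonneg hg) (sum_g_le h2 h) 3)

theorem chen {M : ℕ} (hM : 0 < M) (h2 : 2 ∣ M) {C t₀ t₁ t₂ t₃ c b₀ b₁ b₂ : ℝ} (hC : 0 ≤ C)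
    (h0 : 2 ≤ t₀) (h01 : t₀ ≤ t₁) (h12 : t₁ ≤ t₂) (h23 : t₂ ≤ t₃) (hc : Up M C t₃ c)
    (hb₀ : 0 ≤ b₀) (hb₁ : 0 ≤ b₁) (hb₂ : 0 ≤ b₂) (l₀ : Lo M C (t₃ * (1 - 1 / t₀)) b₀)
    (l₁ : Lo M C (t₃ * (1 - 1 / t₁)) b₁) (l₂ : Lo M C (t₃ * (1 - 1 / t₂)) b₂) :
    Up M C t₀ (t₃ / t₀ * (c - (b₀ * (1 - t₀ / t₁) + b₁ * (1 - t₁ / t₂) + b₂ * (1 - t₂ / t₃)) / 2 +
      C * (t₃ / t₀ - 1) ^ 3)) := by
  intro ε hε
  have p0 : 0 < t₀ := by linarith only [h0]
  have p1 : 0 < t₁ := by linarith only [h0, h01]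
  have p2 : 0 < t₂ := by linarith
  have p3 : 0 < t₃ := by linarith
  obtain ⟨η, hη⟩ : ∃ η, η = ε / (t₃ / t₀ * (t₃ / t₀ + 1)) := ⟨_, rfl⟩
  have η0 : 0 < η := by rw [hη]; positivity
  obtain ⟨L, y, hL, hc⟩ := hc η η0
  obtain ⟨L₀, y₀, hL₀, l₀⟩ := l₀ η η0
  obtain ⟨L₁, y₁, hL₁, l₁⟩ := l₁ η η0
  obtain ⟨L₂, y₂, hL₂, l₂⟩ := l₂ η η0
  have T : ∀ t, t₀ ≤ t → Tendsto (fun z : ℝ => VV M (z ^ (t₀ / t)) / VV M z) atTop (𝓝 (t / t₀)) :=
    fun t ht => by
      simpa using VV_ratio hM h2 (div_pos p0 (p0.trans_le ht)) ((div_le_one (p0.trans_le ht)).2 ht)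
  have hΦ : ContinuousAt (fun x : ℝ × ℝ × ℝ => x.2.2 * (c + η - (b₀ * (1 - 1 / x.1) +
      b₁ * (1 - x.1 / x.2.1) + b₂ * (1 - x.2.1 / x.2.2)) / 2 + η * (x.2.2 - 1) / 2 +
        C * (x.2.2 - 1) ^ 3)) (t₁ / t₀, t₂ / t₀, t₃ / t₀) := by
    fun_prop (disch := positivity)
  have T' := (hΦ.tendsto.comp ((T t₁ h01).prodMk_nhds ((T t₂ (by linarith only [h01, h12])).prodMk_nhds
    (T t₃ (by linarith only [h01, h12, h23]))))).eventually_le_const (u := t₃ / t₀ * (c - (b₀ * (1 - t₀ / t₁) +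
      b₁ * (1 - t₁ / t₂) + b₂ * (1 - t₂ / t₃)) / 2 + C * (t₃ / t₀ - 1) ^ 3) + ε) (by
    rw [← sub_pos]
    refine (half_pos hε).trans_eq ?_
    rw [hη]
    field_simp
    ring)
  obtain ⟨z₁, hz⟩ := eventually_atTop.1 (T'.and (((tendsto_rpow_atTop (div_pos p0 p3)
    ).eventually_ge_atTop (max (max y y₀) (max (max y₁ y₂) 2))).and (eventually_ge_atTop 1)))
  refine ⟨L + L₀ + L₁ + L₂, z₁, by positivity, fun A hA e z h4 he hD => ?_⟩
  obtain ⟨a1, a2, a3⟩ := hz z h4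
  simp only [max_le_iff, Function.comp] at a1 a2
  have z0 : 0 < z := by linarith only [a3]
  have mo : ∀ {t t'}, 0 < t → t ≤ t' → z ^ (t₀ / t') ≤ z ^ (t₀ / t) := fun ht h =>
    Real.rpow_le_rpow_of_exponent_le a3 (by gcongr)
  have lv : ∀ {t}, 0 < t → (z ^ (t₀ / t₃)) ^ (t₃ * (1 - 1 / t)) * z ^ (t₀ / t) * pe e ≤ A.D :=
    fun {t} ht => by
      rw [← Real.rpow_mul z0.le, ← Real.rpow_add z0]
      convert hD using 3
      field_simp
      ring
  have z1 : z ^ (t₀ / t₀) = z := by rw [div_self p0.ne', Real.rpow_one]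
  have m0 := z1 ▸ mo p0 h01
  have m1 := mo p1 h12
  have m2 := mo p2 h23
  have lv0 := z1 ▸ lv p0
  have c0 := chen_cell h2 (fun e => l₀ A hA e _ a2.1.2) hb₀ hL₀ he (by positivity)
    (m2.trans m1) m0 le_rfl lv0
  have c1 := chen_cell h2 (fun e => l₁ A hA e _ a2.2.1.1) hb₁ hL₁ he (by positivity)
    m2 m1 m0 (lv p1)
  have c2 := chen_cell h2 (fun e => l₂ A hA e _ a2.2.1.2) hb₂ hL₂ he (by positivity)
    le_rfl m2 (m1.trans m0) (lv p2)
  have m3 := m2.trans (m1.trans m0)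
  have c3 := chen_tri h2 hC hA he a2.2.2 m3 (le_trans (mul_le_mul_of_nonneg_right (by
    exact_mod_cast Real.rpow_le_rpow_of_exponent_le a3 h0) (zero_le_one.trans (one_le_pe he))) hD)
  have c4 := hc A hA e _ a2.1.1 (he.anti m3) (by
    rwa [← Real.rpow_mul z0.le, div_mul_cancel₀ _ p3.ne'])
  have c5 := chen_comb (M := M) A e m3
  have c6 := mul_le_mul_of_nonneg_left (R_mono (M := M) A e m3) hL
  have c7 := mul_le_mul_of_nonneg_right (mul_le_mul_of_nonneg_left (sum_g_le h2 m3) η0.le)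
    (E_nonneg h2 A he (z ^ (t₀ / t₃)))
  have c8 := mul_le_mul_of_nonneg_right a1 (E_nonneg h2 A he z)
  have hR := R_nonneg (M := M) A e z
  have v0 := (VV_pos h2 z).ne'
  rw [one_div_div, div_div_div_cancel_right₀ v0, div_div_div_cancel_right₀ v0, mul_right_comm,
    ← E_ratio h2 A e _ z] at c8
  rw [sum_sdiff_eq_sub (Pw_mono m3)] at c5 c7
  simp only [sum_sdiff_eq_sub (Pw_mono m0), sum_sdiff_eq_sub (Pw_mono m1),
    sum_sdiff_eq_sub (Pw_mono m2)] at c0 c1 c2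
  linarith only [mul_nonneg hL₀ hR, mul_nonneg hL₁ hR, mul_nonneg hL₂ hR, c3, c4, c5, c6, c7, c8, c0, c1, c2]

end Pool.Agent.MP_48b1c3_nt.H91

end

-- part MP_48b1c3_nt.H91.Ana
section

/-! Analysis of the system of inequalities for the sieve constants. -/

namespace Pool.Agent.MP_48b1c3_nt.H91

open Finset NumberField H54 Filter
open scoped ContDiff Topology

theorem ana_grid (Q : ℝ → ℝ) (hQ : AntitoneOn Q (Set.Ioi 0))
    (hG : ∀ s s', 1 < s → s ≤ s' → s * Q s - (s' - s) * Q (s - 1) ≤ s' * Q s') {a h : ℝ}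
    (ha : 0 < a) (hh : 0 < h) {N : ℕ} (hN : N * h = 1) (j : ℕ) :
    a * ((a + 1) * Q (a + 1)) - h * ∑ i ∈ range N, (a + i * h) * Q (a + i * h) ≤
      (a + j * h) * ((a + j * h + 1) * Q (a + j * h + 1)) -
        h * ∑ i ∈ range N, (a + (j + i) * h) * Q (a + (j + i) * h) + j * (h ^ 2 * Q a) := by
  induction j with
  | zero => simp
  | succ j ih =>
    refine ih.trans ?_
    have hj : 0 ≤ j * h := by positivity
    have e1 := sum_range_succ (fun i : ℕ => (a + (j + i) * h) * Q (a + (j + i) * h)) N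
    have e2 := sum_range_succ' (fun i : ℕ => (a + (j + i) * h) * Q (a + (j + i) * h)) N
    rw [show a + (j + N) * h = a + j * h + 1 by linear_combination hN] at e1
    simp only [Nat.cast_add, Nat.cast_one, Nat.cast_zero, add_zero, ← add_assoc,
      add_right_comm (j : ℝ) _ 1] at e2 ⊢
    have h1 := hG (a + j * h + 1) (a + (j + 1) * h + 1) (by linarith only [ha, hj]) (by linarith only [hh])
    have h2 := hQ ha (show 0 < a + j * h by linarith only [ha, hj]) (by linarith only [hj])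
    rw [add_sub_cancel_right] at h1
    have h3 := mul_le_mul_of_nonneg_left h1 (show 0 ≤ a + (j + 1) * h by positivity)
    have h4 := mul_le_mul_of_nonneg_left h2 (sq_nonneg h)
    have h5 := congrArg (h * ·) (e1.symm.trans e2)
    linarith

theorem ana_abel (l : ℝ → ℝ) {A a h b : ℝ} (hA : 0 ≤ A) (ha : 2 ≤ a) (hh : 0 < h)
    (hl : ∀ s s', 1 < s → s ≤ s' → s ≤ b → (s - 1) * (l s' - l s) ≤ (s' - s) * A) (j : ℕ)
    (hj : a + j * h ≤ b) : (a + j * h - 1) * l (a + j * h) - h * ∑ i ∈ range j, l (a + i * h) ≤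
      (a - 1) * l a + j * (h * (A * (1 + h))) := by
  induction j with
  | zero => simp
  | succ j ih =>
    push_cast at hj ⊢
    have h0 : 0 ≤ j * h := by positivity
    have h1 := ih (by linarith)
    have h2 := hl (a + j * h) (a + (j + 1) * h) (by linarith) (by linarith) (by linarith)
    have h3 : l (a + (j + 1) * h) - l (a + j * h) ≤ h * A := by
      by_contra h3
      nlinarith only [mul_nonneg hh.le hA, ha, h0, h2, h3]
    have h4 := mul_le_mul_of_nonneg_left h3 hh.le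
    rw [sum_range_succ]
    linarith

theorem ana_low (l : ℝ → ℝ) {A δ h : ℝ} (hA : 0 ≤ A) (hh : 0 < h)
    (hl : ∀ s s', 1 < s → s ≤ s' → s ≤ 2 + δ → (s - 1) * (l s' - l s) ≤ (s' - s) * A) (j : ℕ)
    (hj : j * h ≤ δ) :
    l (2 + j * h) - l 2 ≤ A * (j * h * (1 + δ ^ 2) - h ^ 2 * (j * (j - 1)) / 2) := by
  induction j with
  | zero => simp
  | succ j ih =>
    push_cast at hj ⊢
    have h0 : 0 ≤ j * h := by positivity
    have h1 := ih (by linarith)
    have h2 := hl (2 + j * h) (2 + (j + 1) * h) (by linarith only [h0]) (by linarith only [hh]) (by linarith only [hh, hj])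
    have h3 : l (2 + (j + 1) * h) - l (2 + j * h) ≤ h * A * (1 - j * h + δ ^ 2) := by
      refine le_of_mul_le_mul_left (h2.trans ?_) (by linarith only [h0])
      have h4 : (j * h) ^ 2 ≤ δ ^ 2 := pow_le_pow_left₀ h0 (by linarith only [hh, hj]) 2
      have h5 : 1 ≤ (1 + j * h) * (1 - j * h + δ ^ 2) := by nlinarith only [h0, h4]
      have := mul_le_mul_of_nonneg_left h5 (mul_nonneg hh.le hA)
      linarith only [this]
    linarith

theorem ana_key (F f : ℝ → ℝ) (hF1 : ∀ s, 0 < s → 1 ≤ F s)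
    (hf1 : ∀ s, 0 < s → f s ≤ 1) (hFa : AntitoneOn F (Set.Ioi 0))
    (hfm : MonotoneOn f (Set.Ioi 0)) (m2 : ∀ s s', 0 < s → s ≤ s' → s * F s ≤ s' * F s')
    (b1 : ∀ s s', 1 < s → s ≤ s' → s' * f s' - (s' - s) * F (s - 1) ≤ s * f s)
    (b2 : ∀ s s', 1 < s → s ≤ s' → s * F s ≤ s' * F s' - (s' - s) * f (s - 1))
    (fl : Tendsto (fun s => s ^ 2 * (F s - f s)) atTop (𝓝 0)) {δ A B : ℝ} {m : ℕ} (h0 : 0 < δ)
    (hm : (m + 2) * δ = 1) (hA : A = (3 - δ) * F (3 - δ)) (hB : B = (3 + δ) * F (3 + δ))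
    (hl : ∀ s s', 1 < s → s ≤ s' → s ≤ 3 + δ → (s - 1) * (s' * f s' - s * f s) ≤ (s' - s) * A) :
    δ * A + (2 - δ) * (B - A) ≤ (1 + δ) * ((2 + δ) * f (2 + δ)) := by
  have hm0 : 0 ≤ m * δ := by positivity
  have hA0 : 0 ≤ A := hA ▸ mul_nonneg (by linarith) (by linarith [hF1 (3 - δ) (by linarith only [hm, hm0])])
  have hQ0 : ∀ s, 0 < s → 0 ≤ F s - f s := fun s hs => by linarith [hF1 s hs, hf1 s hs]
  refine le_of_forall_pos_le_add fun ε hε => ?_
  obtain ⟨T, hT⟩ := ((fl.comp (tendsto_atTop_add_const_left _ (3 + δ)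
    tendsto_natCast_atTop_atTop)).eventually (gt_mem_nhds (half_pos hε))).exists
  simp only [Function.comp] at hT
  have hq := hQ0 (2 + δ) (by linarith only [h0])
  set K := T * (F (2 + δ) - f (2 + δ)) + A with hK
  have hK0 : 0 ≤ K := by positivity
  obtain ⟨n, hn⟩ := exists_nat_gt (δ * K / (ε / 2))
  have hn0 : (0 : ℝ) < n := lt_of_le_of_lt (by positivity) hn
  obtain ⟨h, hh, hnh⟩ : ∃ h : ℝ, 0 < h ∧ n * h = δ := ⟨δ / n, by positivity, by field_simp⟩
  have hε' : h * K ≤ ε / 2 := by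
    rw [div_lt_iff₀ (half_pos hε), ← hnh] at hn
    exact (lt_of_mul_lt_mul_left (by linarith only [hn]) hn0.le).le
  obtain ⟨N, hN'⟩ : ∃ N, N = m * n + 2 * n := ⟨_, rfl⟩
  have hN : N * h = 1 := by rw [hN', ← hm, ← hnh]; push_cast; ring
  have g1 := ana_grid (fun s => F s - f s) (fun x hx y hy hxy => sub_le_sub (hFa hx hy hxy)
    (hfm hx hy hxy)) (fun s s' h1 h2 => by linarith only [b1 s s' h1 h2, b2 s s' h1 h2])
    (a := 2 + δ) (by linarith only [h0]) hh hN (T * N)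
  have g2 := ana_abel (fun s => s * f s) hA0 (a := 2 + δ) (by linarith only [h0]) hh hl N (by linarith only [hN])
  have g3 : ∑ i ∈ range N, (2 + δ + i * h) * F (2 + δ + i * h) ≤ m * n * A + 2 * n * B := by
    rw [hN', sum_range_add]
    refine add_le_add ((sum_le_card_nsmul _ _ A fun i hi => ?_).trans_eq (by simp))
      ((sum_le_card_nsmul _ _ B fun i hi => ?_).trans_eq (by simp))
    · have : (i : ℝ) ≤ m * n := by exact_mod_cast (mem_range.1 hi).le
      refine hA ▸ m2 _ _ (by positivity) ?_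
      nlinarith only [h0, hm, hn0, hnh, this]
    · have : ((m * n + i : ℕ) : ℝ) ≤ N := by exact_mod_cast (by have := mem_range.1 hi; omega)
      refine hB ▸ m2 _ _ (by positivity) ?_
      nlinarith only [h0, hn0, hnh, hN, this]
  have g4 : 0 ≤ h * ∑ i ∈ range N, (2 + δ + ((T * N : ℕ) + i) * h) *
      (F (2 + δ + ((T * N : ℕ) + i) * h) - f (2 + δ + ((T * N : ℕ) + i) * h)) :=
    mul_nonneg hh.le (sum_nonneg fun i _ => mul_nonneg (by positivity) (hQ0 _ (by positivity)))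
  have e1 : ((T * N : ℕ) : ℝ) * h = T := by push_cast; rw [mul_assoc, hN, mul_one]
  have e2 : ((T * N : ℕ) : ℝ) * (h ^ 2 * (F (2 + δ) - f (2 + δ))) =
      h * (T * (F (2 + δ) - f (2 + δ))) := by rw [← e1]; ring
  have e3 : (N : ℝ) * (h * (A * (1 + h))) = A + h * A := by rw [← mul_assoc, hN]; ring
  have g5 := mul_nonneg (show 0 ≤ 3 + δ + T by positivity) (hQ0 (3 + δ + T) (by positivity))
  have g6 := mul_le_mul_of_nonneg_left g3 hh.le
  have e4 : h * (m * n * A + 2 * n * B) = (1 - 2 * δ) * A + 2 * δ * B := by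
    linear_combination (m * A + 2 * B) * hnh + A * hm
  simp only [hN, e1, e2, e3, show 2 + δ + 1 = 3 + δ by ring,
    show 2 + δ + T + 1 = 3 + δ + T by ring] at g1 g2
  simp only [mul_sub, sum_sub_distrib] at g1 g4
  have e5 : (2 + δ) * ((3 + δ) * F (3 + δ)) = (2 + δ) * B := by rw [hB]
  linarith only [hT, hε', g5, g6, e4, g2, g1, g4, e5]

theorem analysis (F f : ℝ → ℝ) {C : ℝ} (hC : 0 ≤ C) (hF1 : ∀ s, 0 < s → 1 ≤ F s)
    (hf1 : ∀ s, 0 < s → f s ≤ 1) (hFa : AntitoneOn F (Set.Ioi 0))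
    (hfm : MonotoneOn f (Set.Ioi 0)) (m2 : ∀ s s', 0 < s → s ≤ s' → s * F s ≤ s' * F s')
    (b1 : ∀ s s', 1 < s → s ≤ s' → s' * f s' - (s' - s) * F (s - 1) ≤ s * f s)
    (b2 : ∀ s s', 1 < s → s ≤ s' → s * F s ≤ s' * F s' - (s' - s) * f (s - 1))
    (fl : Tendsto (fun s => s ^ 2 * (F s - f s)) atTop (𝓝 0))
    (chen : ∀ t₀ t₁ t₂ t₃ : ℝ, 2 ≤ t₀ → t₀ ≤ t₁ → t₁ ≤ t₂ → t₂ ≤ t₃ → t₃ ≤ 4 →
      F t₀ ≤ t₃ / t₀ * (F t₃ - (f (t₃ * (1 - 1 / t₀)) * (1 - t₀ / t₁) +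
        f (t₃ * (1 - 1 / t₁)) * (1 - t₁ / t₂) + f (t₃ * (1 - 1 / t₂)) * (1 - t₂ / t₃)) / 2 +
          C * (t₃ / t₀ - 1) ^ 3)) :
    ∃ s, 1 < s ∧ s < 2 ∧ 0 < f s := by
  obtain ⟨m, hm⟩ := exists_nat_ge (1000 * (1 + C))
  obtain ⟨δ, h0, hδ⟩ : ∃ δ : ℝ, 0 < δ ∧ (m + 2) * δ = 1 :=
    ⟨1 / (m + 2), by positivity, by field_simp⟩
  have hCδ := mul_nonneg hC h0.le
  have h1 : 1000 * (δ + C * δ) ≤ 1 := by nlinarith
  obtain ⟨A, hA⟩ : ∃ A, A = (3 - δ) * F (3 - δ) := ⟨_, rfl⟩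
  obtain ⟨B, hB⟩ : ∃ B, B = (3 + δ) * F (3 + δ) := ⟨_, rfl⟩
  have hA1 : 1 ≤ A := by nlinarith only [hF1 (3 - δ) (by linarith only [h0, hCδ, h1]), hCδ, h1, hA]
  have hAB : A ≤ B := hA ▸ hB ▸ m2 _ _ (by linarith) (by linarith)
  have hl : ∀ s s', 1 < s → s ≤ s' → s ≤ 3 + δ →
      (s - 1) * (s' * f s' - s * f s) ≤ (s' - s) * A := fun s s' a1 a2 a3 => by
    have a4 := mul_le_mul_of_nonneg_left (b1 s s' a1 a2) (sub_pos.2 a1).le
    have a5 := mul_le_mul_of_nonneg_left (m2 (s - 1) (3 - δ) (sub_pos.2 a1) (by linarith))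
      (sub_nonneg.2 a2)
    rw [hA]
    linarith
  have key := ana_key F f hF1 hf1 hFa hfm m2 b1 b2 fl h0 hδ hA hB hl
  have hAδ : 0 < A * δ := by positivity
  have hAδ2 : 0 < A * δ ^ 2 := by positivity
  have k1 : A * δ - A * δ ^ 2 + 199 / 100 * (B - A) ≤ (2 + δ) * f (2 + δ) := by
    refine le_of_mul_le_mul_left (le_trans ?_ key) (by linarith only [h0, hCδ, h1])
    linarith only [mul_nonneg (sub_nonneg.2 hAB) (show 0 ≤ 1 / 100 - 3 * δ by linarith), mul_pos hAδ2 h0, hAB]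
  have k2 : ∀ x c : ℝ, 0 ≤ c → 2 + (2001 / 1000 * c + 1 / 1000) * δ ≤ x → x ≤ 2 + δ →
      c * (A * δ) ≤ f x := fun x c c0 c1 c2 => by
    have c3 : 2 ≤ x := by nlinarith only [hδ, c0, c1]
    have c4 := hl x (2 + δ) (by linarith only [h0, hCδ, h1, c3]) c2 (by linarith only [h0, hCδ, h1, c2])
    have c5 : (2 + δ) * f (2 + δ) - x * f x ≤ (2 + δ - x) * A := by
      by_contra c5
      nlinarith only [mul_nonneg (sub_nonneg.2 c2) (zero_le_one.trans hA1), c3, c4, c5]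
    have c6 := mul_le_mul_of_nonneg_right c1 (zero_le_one.trans hA1)
    have c7 := mul_le_mul_of_nonneg_right (show x ≤ 2001 / 1000 by linarith only [hCδ, h1, c2]) (mul_nonneg c0 hAδ.le)
    have c8 := mul_le_mul_of_nonneg_left (show δ ≤ 1 / 1000 by linarith only [hCδ, h1]) hAδ.le
    refine le_of_mul_le_mul_left (c7.trans ?_) (by linarith only [h0, hCδ, h1, c3])
    linarith only [hAB, k1, c5, c6, c8]
  have k3 : ∀ t c : ℝ, 0 ≤ c → 0 < t → 3 + δ ≤ (1 + (1 - (2001 / 1000 * c + 1 / 1000)) * δ) * t →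
      t ≤ 3 + δ → c * (A * δ) ≤ f ((3 + δ) * (1 - 1 / t)) := fun t c c0 c1 c2 c3 => by
    rw [← div_le_iff₀ c1] at c2
    rw [← one_le_div c1] at c3
    refine k2 _ c c0 ?_ ?_ <;> rw [mul_sub, mul_one_div] <;> linarith only [c2, c3]
  have k4 : ∀ t t' : ℝ, 0 < t' → t' ≤ 3 + δ → t = t' - 2 / 3 * δ → 222 / 1000 * δ ≤ 1 - t / t' :=
    fun t t' c1 c2 c3 => by
      rw [le_sub_comm, div_le_iff₀ c1, c3]
      nlinarith only [hC, hm, h0, hδ, c2]
  have k5 := chen (3 - δ) (3 - δ / 3) (3 + δ / 3) (3 + δ) (by linarith only [h0, hCδ, h1]) (by linarith only [h0]) (by linarith only [h0])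
    (by linarith only [h0]) (by linarith only [h0, hCδ, h1])
  have f0 := k3 (3 - δ) (165 / 1000) (by norm_num) (by linarith only [h0, hCδ, h1]) (by nlinarith only [hC, hm, h0, hδ]) (by linarith only [h0])
  have f1 := k3 (3 - δ / 3) (276 / 1000) (by norm_num) (by linarith only [h0, hCδ, h1]) (by nlinarith only [hC, hm, h0, hδ]) (by linarith only [h0])
  have f2 := k3 (3 + δ / 3) (387 / 1000) (by norm_num) (by linarith only [h0, hCδ, h1]) (by nlinarith only [h0]) (by linarith only [h0])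
  have p0 := mul_le_mul f0 (k4 (3 - δ) (3 - δ / 3) (by linarith only [h0, hCδ, h1]) (by linarith only [h0]) (by ring))
    (by positivity) (le_trans (by positivity) f0)
  have p1 := mul_le_mul f1 (k4 (3 - δ / 3) (3 + δ / 3) (by linarith only [h0, hCδ, h1]) (by linarith only [h0]) (by ring))
    (by positivity) (le_trans (by positivity) f1)
  have p2 := mul_le_mul f2 (k4 (3 + δ / 3) (3 + δ) (by linarith only [h0, hCδ, h1]) (by linarith only []) (by ring))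
    (by positivity) (le_trans (by positivity) f2)
  have p3 : C * ((3 + δ) / (3 - δ) - 1) ^ 3 ≤ A * δ ^ 2 / 3000 := by
    have c1 : (3 + δ) / (3 - δ) - 1 ≤ 2 / 3 * (1001 / 1000) * δ := by
      rw [sub_le_iff_le_add, div_le_iff₀ (by linarith only [h0, hCδ, h1])]
      nlinarith only [hC, hm, h0, hδ]
    have c2 : 0 ≤ (3 + δ) / (3 - δ) - 1 := by
      rw [sub_nonneg, one_le_div (by linarith only [h0, hCδ, h1])]
      linarith only [h0]
    refine (mul_le_mul_of_nonneg_left (pow_le_pow_left₀ c2 c1 3) hC).trans ?_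
    linarith only [mul_le_mul_of_nonneg_right (show C * δ ≤ 1 / 1000 by linarith only [h0, h1]) (sq_nonneg δ), mul_le_mul_of_nonneg_right hA1 (sq_nonneg δ), hAδ2]
  have k6 : 274 / 1000 * (A * δ ^ 2) ≤ B - A := by
    rw [div_mul_eq_mul_div, le_div_iff₀ (by linarith only [h0, hCδ, h1]), mul_comm, ← hA] at k5
    have := k5.trans (mul_le_mul_of_nonneg_left (show _ ≤ F (3 + δ) - 915 / 10000 * (A * δ ^ 2) by
      linarith only [hAδ2, p0, p1, p2, p3]) (by linarith only [h0, hCδ, h1]))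
    linarith only [mul_pos hAδ2 h0, hB, hAδ2, this]
  have k7 := ana_low (fun s => s * f s) (zero_le_one.trans hA1) (h := δ / 20) (δ := δ)
    (by positivity) (fun s s' a1 a2 a3 => hl s s' a1 a2 (by linarith only [h0, hCδ, h1, a3])) 20 (by push_cast; linarith only [])
  simp only [Nat.cast_ofNat, show 20 * (δ / 20) = δ by ring] at k7
  have k8 : A * δ ^ 2 / 100 ≤ 2 * f 2 := by
    linarith only [mul_le_mul_of_nonneg_left (show δ ≤ 1 / 1000 by linarith only [hCδ, h1]) hAδ2.le, hAδ2, k1, k6, k7]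
  have hδ2 : δ ^ 2 ≤ 1 := by nlinarith only [h0, hδ]
  have hδ3 : 0 < δ ^ 2 := by positivity
  refine ⟨2 - δ ^ 2 / 400, by linarith only [h0, hCδ, h1, hδ2], by linarith only [hδ3], ?_⟩
  have k9 := hl (2 - δ ^ 2 / 400) 2 (by linarith only [h0, hCδ, h1, hδ2]) (by linarith only [hδ3]) (by linarith only [h0, hCδ, h1, hδ3])
  by_contra c
  have c1 := mul_nonpos_of_nonneg_of_nonpos (show 0 ≤ 2 - δ ^ 2 / 400 by linarith only [h0, hCδ, h1, hδ2]) (not_lt.1 c)
  nlinarith only [h0, hCδ, h1, hA1, hAB, k1, k7, k8, hδ2, k9, c1]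

end Pool.Agent.MP_48b1c3_nt.H91

end

-- part MP_48b1c3_nt.H91.SMain
section

/-! The sieving limit is below two. -/

namespace Pool.Agent.MP_48b1c3_nt.H91

open Finset NumberField H54 Filter
open scoped ContDiff Topology

/-- the best upper sieve constant -/
noncomputable def smainF (M : ℕ) (C s : ℝ) : ℝ := sInf {c | 1 ≤ c ∧ Up M C s c}

/-- the best lower sieve constant -/
noncomputable def smainf (M : ℕ) (C s : ℝ) : ℝ := sSup {c | c ≤ 1 ∧ Lo M C s c}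

variable {M : ℕ} {C s c : ℝ}

theorem smain_ne (hM : 0 < M) (h2 : 2 ∣ M) (hs : 0 < s) :
    {c | 1 ≤ c ∧ Up M C s c}.Nonempty := by
  have h : Up M C s (max s 1 * C / s) :=
    (up_of_H h2 (le_max_right s 1)).scale hM h2 hs (le_max_left s 1)
  exact ⟨max 1 (max s 1 * C / s), le_max_left _ _, h.mono h2 le_rfl (le_max_right _ _)⟩

theorem smain_ne' (h2 : 2 ∣ M) : {c | c ≤ 1 ∧ Lo M C s c}.Nonempty :=
  ⟨0, zero_le_one, lo_zero h2⟩

theorem smain_F_le (h1 : 1 ≤ c) (h : Up M C s c) : smainF M C s ≤ c :=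
  csInf_le ⟨1, fun _ hx => hx.1⟩ ⟨h1, h⟩

theorem smain_le_f (h1 : c ≤ 1) (h : Lo M C s c) : c ≤ smainf M C s :=
  le_csSup ⟨1, fun _ hx => hx.1⟩ ⟨h1, h⟩

theorem smain_one_le (hM : 0 < M) (h2 : 2 ∣ M) (hs : 0 < s) : 1 ≤ smainF M C s :=
  le_csInf (smain_ne hM h2 hs) fun _ hx => hx.1

theorem smain_le_one (h2 : 2 ∣ M) : smainf M C s ≤ 1 :=
  csSup_le (smain_ne' h2) fun _ hx => hx.1

theorem smain_nonneg (h2 : 2 ∣ M) : 0 ≤ smainf M C s := smain_le_f zero_le_one (lo_zero h2)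

theorem smain_up (hM : 0 < M) (h2 : 2 ∣ M) (hs : 0 < s) : Up M C s (smainF M C s) :=
  Up.of_forall fun ε hε => by
    obtain ⟨c, hc, h⟩ := exists_lt_of_csInf_lt (smain_ne (C := C) hM h2 hs)
      (lt_add_of_pos_right (smainF M C s) hε)
    exact hc.2.mono h2 le_rfl h.le

theorem smain_lo (h2 : 2 ∣ M) : Lo M C s (smainf M C s) :=
  Lo.of_forall fun ε hε => by
    obtain ⟨c, hc, h⟩ := exists_lt_of_lt_csSup (smain_ne' (C := C) (s := s) h2)
      (sub_lt_self (smainf M C s) hε)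
    exact hc.2.mono h2 le_rfl h.le

theorem smain_fl (hM : 0 < M) (h2 : 2 ∣ M) (C : ℝ) :
    Tendsto (fun s => s ^ 2 * (smainF M C s - smainf M C s)) atTop (𝓝 0) := by
  obtain ⟨B, s₀, h⟩ := fl h2 C
  have h1 : Tendsto (fun s : ℝ => 288 * |B| * ((s / 12) ^ 2 * Real.exp (-(s / 12)))) atTop
      (𝓝 (288 * |B| * 0)) :=
    ((Real.tendsto_pow_mul_exp_neg_atTop_nhds_zero 2).comp
      (tendsto_id.atTop_div_const (by norm_num))).const_mul _
  rw [mul_zero] at h1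
  refine squeeze_zero' ?_ ?_ h1
  · filter_upwards [eventually_gt_atTop 0] with s hs
    exact mul_nonneg (sq_nonneg _)
      (sub_nonneg.2 ((smain_le_one h2).trans (smain_one_le hM h2 hs)))
  · filter_upwards [eventually_ge_atTop s₀] with s hs
    have he := Real.exp_pos (-s / 12)
    have hB : B * Real.exp (-s / 12) ≤ |B| * Real.exp (-s / 12) :=
      mul_le_mul_of_nonneg_right (le_abs_self B) he.le
    have h0 : 0 ≤ |B| * Real.exp (-s / 12) := mul_nonneg (abs_nonneg B) he.le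
    have hF : smainF M C s ≤ 1 + |B| * Real.exp (-s / 12) :=
      smain_F_le (by linarith only [h0]) ((h s hs).1.mono h2 le_rfl (by linarith only [hB]))
    have hf : 1 - |B| * Real.exp (-s / 12) ≤ smainf M C s :=
      smain_le_f (by linarith only [h0]) ((h s hs).2.mono h2 le_rfl (by linarith only [hB]))
    rw [← neg_div]
    calc s ^ 2 * (smainF M C s - smainf M C s) ≤ s ^ 2 * (2 * (|B| * Real.exp (-s / 12))) :=
          mul_le_mul_of_nonneg_left (by linarith only [hF, hf]) (sq_nonneg _)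
      _ = _ := by ring

theorem smain_step {t₀ x y b : ℝ} (h0 : 0 < t₀) (hx : t₀ ≤ x) (hy : x ≤ y) (hb : b ≤ 1) :
    b * (1 - x / y) ≤ (y - x) / t₀ := by
  have hy0 : 0 < y := by linarith
  have h1 : 1 - x / y = (y - x) / y := by field_simp
  have h2 : 0 ≤ (y - x) / y := div_nonneg (by linarith only [hy]) hy0.le
  rw [h1]
  exact (mul_le_of_le_one_left h2 hb).trans
    (div_le_div_of_nonneg_left (by linarith only [hy]) h0 (by linarith only [hx, hy]))

theorem sieve_main {M : ℕ} (hM : 0 < M) (h2 : 2 ∣ M) {C : ℝ} (hC : 0 ≤ C) :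
    ∃ s c : ℝ, 1 < s ∧ s < 2 ∧ 0 < c ∧ Lo M C s c := by
  obtain ⟨s, h1, hs, h⟩ := analysis (smainF M C) (smainf M C) hC
    (fun _ => smain_one_le hM h2) (fun _ _ => smain_le_one h2)
    (fun s hs s' _ h => smain_F_le (smain_one_le hM h2 hs) ((smain_up hM h2 hs).mono h2 h le_rfl))
    (fun s _ s' _ h => smain_le_f (smain_le_one h2) ((smain_lo h2).mono h2 h le_rfl))
    (fun s s' hs h => by
      have hs' : 0 < s' := hs.trans_le h
      have h1 := smain_one_le (C := C) hM h2 hs'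
      have := smain_F_le (by rw [le_div_iff₀ hs]; nlinarith only [hs, h, h1])
        ((smain_up (C := C) hM h2 hs').scale hM h2 hs h)
      rwa [le_div_iff₀ hs, mul_comm] at this)
    (fun s s' hs h => by
      have hs0 : 0 < s := by linarith only [hs]
      have h1 := smain_one_le (C := C) hM h2 (sub_pos.2 hs)
      have h3 := smain_le_one (C := C) (s := s') h2
      have := smain_le_f (by rw [div_le_iff₀ hs0]; nlinarith only [hs, h, h1, h3])
        (b1 hM h2 hs h (smain_lo (C := C) h2) (smain_up hM h2 (sub_pos.2 hs)))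
      rwa [div_le_iff₀ hs0, mul_comm _ s] at this)
    (fun s s' hs h => by
      have hs0 : 0 < s := by linarith
      have h1 := smain_one_le (C := C) hM h2 (hs0.trans_le h)
      have h3 := smain_le_one (C := C) (s := s - 1) h2
      have := smain_F_le (by rw [le_div_iff₀ hs0]; nlinarith only [hs, h, h1, h3])
        (b2 hM h2 hs h (smain_up (C := C) hM h2 (hs0.trans_le h)) (smain_lo h2))
      rwa [le_div_iff₀ hs0, mul_comm _ s] at this)
    (smain_fl hM h2 C)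
    (fun t₀ t₁ t₂ t₃ h0 h01 h12 h23 h4 => by
      have p0 : 0 < t₀ := by linarith
      have p3 : 0 < t₃ := by linarith
      refine smain_F_le ?_ (chen hM h2 hC h0 h01 h12 h23 (smain_up hM h2 p3) (smain_nonneg h2)
        (smain_nonneg h2) (smain_nonneg h2) (smain_lo h2) (smain_lo h2) (smain_lo h2))
      have a0 := smain_step p0 le_rfl h01 (smain_le_one (C := C) (s := t₃ * (1 - 1 / t₀)) h2)
      have a1 := smain_step p0 h01 h12 (smain_le_one (C := C) (s := t₃ * (1 - 1 / t₁)) h2)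
      have a2 := smain_step p0 (h01.trans h12) h23
        (smain_le_one (C := C) (s := t₃ * (1 - 1 / t₂)) h2)
      have h1 := smain_one_le (C := C) hM h2 p3
      have hr : 1 ≤ t₃ / t₀ := by rw [le_div_iff₀ p0]; linarith only [h01, h12, h23]
      have hr2 : t₃ / t₀ ≤ 2 := by rw [div_le_iff₀ p0]; linarith only [h0, h4]
      have h5 : 0 ≤ C * (t₃ / t₀ - 1) ^ 3 := mul_nonneg hC (pow_nonneg (by linarith only [hr]) 3)
      have h6 : (t₁ - t₀) / t₀ + (t₂ - t₁) / t₀ + (t₃ - t₂) / t₀ = t₃ / t₀ - 1 := by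
        field_simp; ring
      refine le_trans ?_ (mul_le_mul_of_nonneg_left
        (show 1 - (t₃ / t₀ - 1) / 2 ≤ _ by linarith) (by linarith only [hr]))
      nlinarith only [hr, hr2])
  exact ⟨s, _, h1, hs, h, smain_lo h2⟩

end Pool.Agent.MP_48b1c3_nt.H91

end
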