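import Pool.Agent.MP_48b1c3_nt.Mg.H48_Sv2
import Pool.Agent.MP_48b1c3_nt.H54.Sieve
import Pool.Agent.MP_48b1c3_nt.H54.Sifted
import Pool.Agent.MP_48b1c3_nt.H91.Norm
import Pool.Agent.MP_48b1c3_nt.Mg.H91_Dec
import Pool.Agent.MP_48b1c3_nt.Mg.H48_QX
import Pool.Agent.MP_48b1c3_nt.Mg.H91_Rep
import Pool.Agent.MP_48b1c3_nt.Mg.H91_Geo
import Pool.Agent.MP_48b1c3_nt.Mg.H91_LogDer
import Pool.Agent.MP_48b1c3_nt.Mg.H91_SMain

attribute [-instance] IdemSemiring.toCanonicallyOrderedAdd AddQuantale.instAddLeftMono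
  RKHS.instFunLike covariant_swap_mul_of_covariant_mul
  ContinuousSemilinearMapClass.toSemilinearMapClass AlgHom.instNonUnitalAlgHomClassOfAlgHomClass
  IsOrderedMonoid.toMulLeftMono IdemSemiring.toMulLeftMono
  SemilinearIsometryClass.toSemilinearMapClass Quantale.instMulLeftMono AddQuantale.instAddRightMono
  littleWedderburn invertibleTwo IsOrderedCancelAddMonoid.toIsCancelAdd
  instNonUnitalAlgHomClassOfNonUnitalAlgEquivClass Group.IsPerfect.subsingleton_of_isMulCommutative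
  Quantale.instMulRightMono CoalgHomClass.toSemilinearMapClass AlgHomClass.toRingHomClass
  instCoeTOfCoeDep MonTypeEquivalenceMon.monMonoid instCoeHTCTOfCoeTailOfCoeHTC
  CanonicallyOrderedAdd.toMulLeftMono TestFunctionClass.toDFunLike instCoeTCOfCoe
  NonUnitalAlgHomClass.instLinearMapClass ContDiffMapSupportedInClass.toDFunLike
  DenselyNormedField.toNormedField
  TopologicalSpace.instSecondCountableTopologyOfLindelofSpaceOfPseudoMetrizableSpace
  CompletePartialOrder.toPartialOrder NonarchimedeanRing.toIsTopologicalRing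
  NonUnitalAlgHomClass.instSemilinearMapClassOfNonUnitalAlgSemiHomClassToMonoidHomRingHom
  Nontrivial.to_nonempty RingHomClass.toLinearMapClassRat AlgHomClass.linearMapClass
  LinearOrder.toDecidableEq NormedDivisionRing.toDivisionRing List.instDecidableMemOfLawfulBEq
  MulRingSeminormClass.toMonoidWithZeroHomClass
  CategoryTheory.Limits.Concrete.instUniqueToTypeTerminal CanonicallyOrderedMul.toMulLeftMono
  RingSeminormClass.toAddGroupSeminormClass BooleanRing.toRing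
  MulSemiringActionSemiHomClass.toRingHomClass
  NonUnitalAlgSemiHomClass.toDistribMulActionSemiHomClass instCoeOutOfCoeFun
  CommMonTypeEquivalenceCommMon.commMonCommMonoid NormedAlgebra.toAlgebra
  ContinuousMonoidHom.instCoeOutOfMonoidHomClassOfContinuousMapClass Valued.isTopologicalDivisionRing
  MulSemiringActionSemiHomClass.toDistribMulActionSemiHomClass
  LieAdmissibleRing.toNonUnitalNonAssocRing RingEquivClass.toRingHomClass

-- part MP_48b1c3_nt.H91.HypH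
section

/-! The crude upper bound beyond the level of distribution. -/

namespace Pool.Agent.MP_48b1c3_nt.H91

open Finset NumberField H54 Filter
open scoped ContDiff Topology

theorem hyph_prog (N a : ℕ) {q : ℕ} (hq : 0 < q) :
    |(#{m ∈ Ioc 0 N | m ≡ a [MOD q]} : ℝ) - N / q| ≤ 1 := by
  have h := Nat.Ioc_filter_modEq_card 0 N hq a
  have hq' : (0 : ℚ) < q := by exact_mod_cast hq
  rw [max_eq_left (sub_nonneg.2 (Int.floor_mono (div_le_div_of_nonneg_right
    (sub_le_sub_right (by exact_mod_cast N.zero_le) _) hq'.le)))] at h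
  have h1 : ((#{m ∈ Ioc 0 N | m ≡ a [MOD q]} : ℕ) : ℚ) =
      (⌊((N : ℚ) - a) / q⌋ : ℤ) - (⌊(((0 : ℕ) : ℚ) - a) / q⌋ : ℤ) := by exact_mod_cast h
  have h2 : |((#{m ∈ Ioc 0 N | m ≡ a [MOD q]} : ℕ) : ℚ) - N / q| ≤ 1 := by
    have e : ((N : ℚ) - a) / q = N / q + (((0 : ℕ) : ℚ) - a) / q := by push_cast; ring
    rw [h1, abs_le]
    constructor <;> linarith only [Int.floor_le (((N : ℚ) - a) / q), Int.lt_floor_add_one (((N : ℚ) - a) / q), Int.floor_le ((((0 : ℕ) : ℚ) - a) / q), Int.lt_floor_add_one ((((0 : ℕ) : ℚ) - a) / q), e]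
  have h3 := (Rat.cast_le (K := ℝ)).2 h2
  push_cast at h3
  exact h3

theorem hyph_crt (N : ℕ) (R : ℕ → Finset ℕ) (S : Finset ℕ) (hS : ∀ l ∈ S, l.Prime)
    (hR : ∀ l ∈ S, ∀ r ∈ R l, r < l) : ∀ q a : ℕ, 0 < q → (∀ l ∈ S, ¬ l ∣ q) →
      |(#{m ∈ Ioc 0 N | m ≡ a [MOD q] ∧ ∀ l ∈ S, m % l ∈ R l} : ℝ) -
        N / q * ∏ l ∈ S, (#(R l) : ℝ) / l| ≤ ∏ l ∈ S, (#(R l) : ℝ) := by
  induction S using Finset.induction_on with
  | empty => intro q a hq _; simpa only [notMem_empty, IsEmpty.forall_iff, implies_true, and_true, prod_div_distrib, prod_empty, ne_eq, one_ne_zero, not_false_eq_true, div_self, mul_one] using hyph_prog N a hq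
  | insert l S hl ih =>
    intro q a hq hlq
    have hp := hS l (mem_insert_self _ _)
    have hc : q.Coprime l := ((Nat.Prime.coprime_iff_not_dvd hp).2 (hlq l (mem_insert_self _ _))).symm
    have e1 : #{m ∈ Ioc 0 N | m ≡ a [MOD q] ∧ ∀ l' ∈ insert l S, m % l' ∈ R l'} =
        ∑ r ∈ R l, #{m ∈ Ioc 0 N | m ≡ (Nat.chineseRemainder hc a r : ℕ) [MOD q * l] ∧
          ∀ l' ∈ S, m % l' ∈ R l'} := by
      rw [card_eq_sum_card_fiberwise (f := fun m => m % l) (t := R l)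
        fun m hm => (mem_filter.1 (mem_coe.1 hm)).2.2 l (mem_insert_self _ _)]
      refine sum_congr rfl fun r hr => congrArg card (Finset.ext fun m => ?_)
      have h1 := (Nat.chineseRemainder hc a r).2
      have h2 := Nat.mod_eq_of_lt (hR l (mem_insert_self _ _) r hr)
      simp only [mem_filter, forall_mem_insert, ← Nat.modEq_and_modEq_iff_modEq_mul hc]
      constructor
      · rintro ⟨⟨h3, h4, -, h5⟩, h6⟩
        exact ⟨h3, ⟨h4.trans h1.1.symm, Nat.ModEq.trans (h6.trans h2.symm) h1.2.symm⟩, h5⟩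
      · rintro ⟨h3, ⟨h4, h5⟩, h6⟩
        have h7 : m % l = r := Eq.trans (h5.trans h1.2) h2
        exact ⟨⟨h3, h4.trans h1.1, h7 ▸ hr, h6⟩, h7⟩
    have e2 : (N : ℝ) / q * ((#(R l) : ℝ) / l * ∏ l ∈ S, (#(R l) : ℝ) / l) =
        ∑ r ∈ R l, (N : ℝ) / (q * l : ℕ) * ∏ l ∈ S, (#(R l) : ℝ) / l := by
      rw [sum_const, nsmul_eq_mul]
      push_cast
      ring
    rw [e1, prod_insert hl, prod_insert hl, e2, Nat.cast_sum, ← sum_sub_distrib]
    refine (abs_sum_le_sum_abs _ _).trans ((sum_le_card_nsmul _ _ _ fun r _ => ?_).trans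
      (nsmul_eq_mul _ _).le)
    refine ih (fun p h => hS p (mem_insert_of_mem h)) (fun p h => hR p (mem_insert_of_mem h)) _ _
      (Nat.mul_pos hq hp.pos) fun p h h' => ?_
    have hp' := hS p (mem_insert_of_mem h)
    rcases (Nat.Prime.dvd_mul hp').1 h' with h1 | h1
    · exact hlq p (mem_insert_of_mem h) h1
    · exact hl (((Nat.prime_dvd_prime_iff_eq hp' hp).1 h1) ▸ h)

theorem hyph_sq (T : Finset ℕ) (hT : ∀ l ∈ T, 3 ≤ l) : ∑ l ∈ T, ((l : ℝ) ^ 2)⁻¹ ≤ 1 / 2 := by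
  have h := sum_Ioc_inv_sq_le_sub (α := ℝ) (k := 2) (n := T.sup id + 2) (by norm_num) (by omega)
  refine le_trans (sum_le_sum_of_subset_of_nonneg (fun l hl => mem_Ioc.2 ⟨hT l hl, ?_⟩)
    fun _ _ _ => by positivity) (h.trans ?_)
  · exact (le_sup (f := id) hl).trans (Nat.le_add_right _ _)
  · have : (0 : ℝ) ≤ (((T.sup id + 2 : ℕ) : ℝ))⁻¹ := by positivity
    norm_num only [Nat.cast_add, inv_nonneg, tsub_le_iff_right, le_add_iff_nonneg_right, ge_iff_le] at this ⊢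
    linarith only []

theorem hyph_exp (T : Finset ℕ) (hT : ∀ l ∈ T, 3 ≤ l) {c : ℝ} (hc : 0 ≤ c) :
    ∏ l ∈ T, (1 + c * ((l : ℝ) ^ 2)⁻¹) ≤ Real.exp (c / 2) := by
  refine le_trans (prod_le_prod (fun _ _ => by positivity) fun l _ =>
    (add_comm _ _).le.trans (Real.add_one_le_exp _)) ?_
  rw [← Real.exp_sum, ← mul_sum, Real.exp_le_exp]
  nlinarith [hyph_sq T hT]

theorem hyph_cmp {M : ℕ} (h2 : 2 ∣ M) (z : ℝ) :
    ∏ l ∈ Pw M z, (1 - 1 / (l : ℝ)) ≤ Real.exp 2 * VV M z := by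
  have h3 : ∀ l ∈ Pw M z, 3 ≤ l := fun l hl => by
    obtain ⟨-, h3, h4⟩ := mem_Pw.1 hl
    have h5 : l ≠ 2 := fun h => h4 (h ▸ h2)
    have := h3.two_le
    omega
  refine le_trans ?_ (mul_le_mul_of_nonneg_right ((hyph_exp _ h3 (c := 4) (by norm_num)).trans
    (le_of_eq (by norm_num))) (VV_pos h2 z).le)
  rw [VV, ← prod_mul_distrib]
  refine prod_le_prod (fun l hl => ?_) fun l hl => ?_
  · have h4 : (3 : ℝ) ≤ l := by exact_mod_cast h3 l hl
    rw [sub_nonneg, div_le_one (by linarith)]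
    linarith
  · have h4 : (3 : ℝ) ≤ l := by exact_mod_cast h3 l hl
    have h5 : (0 : ℝ) < l - 1 := by linarith
    rw [gg, ← sub_nonneg, show (1 + 4 * ((l : ℝ) ^ 2)⁻¹) * (1 - 1 / ((l : ℝ) - 1)) - (1 - 1 / l) =
      (3 * l - 8) / (l ^ 2 * (l - 1)) by field_simp; ring]
    exact div_nonneg (by linarith) (by positivity)

theorem hyph_rem (P : Finset ℕ) (hP : ∀ l ∈ P, 3 ≤ l) {G : ℝ} (hG : 0 < G) :
    ∑ S ∈ P.powerset.filter (fun S : Finset ℕ => ∑ l ∈ S, Real.log l / G ≤ 3), (128 : ℝ) ^ #S ≤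
      Real.exp (6 * G) * Real.exp 64 := by
  refine le_trans ?_ (mul_le_mul_of_nonneg_left ((hyph_exp P hP (c := 128) (by norm_num)).trans
    (le_of_eq (by norm_num))) (Real.exp_pos _).le)
  rw [prod_one_add, mul_sum]
  refine le_trans (sum_le_sum fun S hS => ?_) (sum_le_sum_of_subset_of_nonneg (filter_subset _ _)
    fun _ _ _ => by positivity)
  obtain ⟨h1, h2⟩ := mem_filter.1 hS
  have h3 : ∀ l ∈ S, (0 : ℝ) < l := fun l hl => by
    have := hP l (mem_powerset.1 h1 hl)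
    positivity
  rw [← sum_div, div_le_iff₀ hG] at h2
  have h4 : (128 : ℝ) ^ #S = Real.exp (2 * ∑ l ∈ S, Real.log l) *
      ∏ l ∈ S, 128 * ((l : ℝ) ^ 2)⁻¹ := by
    rw [mul_sum, Real.exp_sum, ← prod_mul_distrib, ← prod_const]
    refine prod_congr rfl fun l hl => ?_
    have h5 := h3 l hl
    rw [show 2 * Real.log l = Real.log (l ^ 2) by rw [Real.log_pow]; norm_num,
      Real.exp_log (by positivity)]
    field_simp
  rw [h4]
  exact mul_le_mul_of_nonneg_right (Real.exp_le_exp.2 (by linarith only [h2])) (by positivity)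

theorem hyph_root {l E : ℕ} (hl : l.Prime) (hE : ¬ l ∣ E) :
    ∃ r, 0 < r ∧ r < l ∧ ∀ m, m % l = r → l ∣ E * m + 1 := by
  have := Fact.mk hl
  have h1 : (E : ZMod l) ≠ 0 := fun h => hE ((ZMod.natCast_eq_zero_iff _ _).1 h)
  refine ⟨(-(E : ZMod l)⁻¹).val, ZMod.val_pos.2 (neg_ne_zero.2 (inv_ne_zero h1)), ZMod.val_lt _,
    fun m hm => (ZMod.natCast_eq_zero_iff _ _).1 ?_⟩
  have h2 : (m : ZMod l) = -(E : ZMod l)⁻¹ := by
    rw [← ZMod.natCast_mod, hm, ZMod.natCast_zmod_val]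
  push_cast
  rw [h2, mul_neg, mul_inv_cancel₀ h1, neg_add_cancel]

open Classical in
theorem hyph_count (P : Finset ℕ) (E N : ℕ) (w : ℝ) {G : ℝ} (hG : 0 < G)
    (hP : ∀ l ∈ P, l.Prime ∧ 5 ≤ l ∧ ¬ l ∣ E ∧ Real.log l ≤ G / 8)
    (hs : ∑ l ∈ P, Real.log l / l ≤ G / 16) :
    (#{m ∈ Ioc 0 N | ∀ l ∈ P, ((l : ℝ) < w → ¬ l ∣ m) ∧ ¬ l ∣ E * m + 1} : ℝ) ≤
      8 * (N * ∏ l ∈ P, (1 - (if (l : ℝ) < w then 2 else 1) / (l : ℝ)) +
        Real.exp (6 * G) * Real.exp 64) := by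
  have h1 : ∀ l : ℕ, ∃ r, l ∈ P → 0 < r ∧ r < l ∧ ∀ m, m % l = r → l ∣ E * m + 1 := fun l => by
    by_cases h : l ∈ P
    · exact (hyph_root (hP l h).1 (hP l h).2.2.1).imp fun _ h' _ => h'
    · exact ⟨0, fun h' => absurd h' h⟩
  choose r hr using h1
  set R : ℕ → Finset ℕ := fun l => if (l : ℝ) < w then {0, r l} else {r l} with hR
  have h2 : ∀ l ∈ P, (#(R l) : ℝ) = if (l : ℝ) < w then 2 else 1 := fun l hl => by
    simp only [hR]
    split_ifs
    · rw [card_pair (hr l hl).1.ne]; norm_num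
    · simp
  have h3 : ∀ l ∈ P, (#(R l) : ℝ) ≤ 2 := fun l hl => by
    rw [h2 l hl]; split_ifs <;> norm_num
  have h4 : ∀ l ∈ P, (5 : ℝ) ≤ l := fun l hl => by exact_mod_cast (hP l hl).2.1
  have h5 := (sieve P (fun l => (#(R l) : ℝ) / l) (fun l => Real.log l / G) (Ioc 0 N)
    (fun _ => 1) (fun l m => m % l ∈ R l) N (fun _ _ => zero_le_one) N.cast_nonneg
    (fun l hl => ⟨by positivity, by
      rw [div_le_iff₀ (by linarith only [h4 l hl])]; linarith only [h3 l hl, h4 l hl]⟩)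
    (fun l hl => ⟨div_nonneg (Real.log_natCast_nonneg l) hG.le, by
      rw [div_le_iff₀ hG]; linarith [(hP l hl).2.2.2]⟩) (by
      refine le_trans (b := ∑ l ∈ P, Real.log l / l * (2 / G)) (sum_le_sum fun l hl => ?_) ?_
      · refine (mul_le_mul_of_nonneg_right (div_le_div_of_nonneg_right (h3 l hl) l.cast_nonneg)
          (div_nonneg (Real.log_natCast_nonneg l) hG.le)).trans (le_of_eq (by ring))
      · rw [← sum_mul, ← mul_div_assoc, div_le_iff₀ hG]
        linarith) (Real.exp (6 * G) * Real.exp 64) (by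
      refine le_trans (sum_le_sum fun S hS => ?_)
        (hyph_rem P (fun l hl => by have := (hP l hl).2.1; omega) hG)
      have h5 := mem_powerset.1 (mem_filter.1 hS).1
      have h6 := hyph_crt N R S (fun l hl => (hP l (h5 hl)).1) (fun l hl t ht => by
        have h6 := hr l (h5 hl)
        simp only [hR] at ht
        split_ifs at ht <;> simp only [mem_insert, mem_singleton] at ht <;> omega) 1 0 one_pos
        fun l hl => (hP l (h5 hl)).1.not_dvd_one
      simp only [Nat.modEq_one, true_and, Nat.cast_one, div_one] at h6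
      rw [show (128 : ℝ) = 64 * 2 by norm_num, mul_pow, sum_const, nsmul_eq_mul, mul_one]
      refine mul_le_mul_of_nonneg_left ?_ (by positivity)
      refine le_trans (congrArg (fun t : ℕ => |(t : ℝ) - _|) (congrArg card (Finset.ext fun _ => by
        simp only [mem_filter]))).le (h6.trans ?_)
      rw [← prod_const]
      exact prod_le_prod (fun _ _ => by positivity) fun l hl => h3 l (h5 hl))).2
  rw [sum_const, nsmul_eq_mul, mul_one, prod_congr rfl fun l hl => by rw [h2 l hl]] at h5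
  refine le_trans (Nat.cast_le.2 (card_le_card fun m hm => ?_)) h5
  obtain ⟨h6, h7⟩ := mem_filter.1 hm
  simp only [mem_filter]
  refine ⟨h6, fun l hl h8 => ?_⟩
  simp only [hR] at h8
  split_ifs at h8 with h9 <;> simp only [mem_insert, mem_singleton] at h8
  · rcases h8 with h8 | h8
    · exact (h7 l hl).1 h9 (Nat.dvd_of_mod_eq_zero h8)
    · exact (h7 l hl).2 ((hr l hl).2.2 m h8)
  · exact (h7 l hl).2 ((hr l hl).2.2 m h8)

theorem hyph_prod {M : ℕ} (h2 : 2 ∣ M) {e : Finset ℕ} {w : ℝ} (he : Adm M e w) (z : ℝ) :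
    ∏ l ∈ Pw M z \ e, (1 - (if (l : ℝ) < w then 2 else 1) / (l : ℝ)) ≤
      Real.exp 2 * VV M z * (pe e * ge e) * (Real.exp 2 * VV M (min w z)) := by
  have h0 : ∀ l : ℕ, l.Prime → 0 ≤ 1 - 1 / (l : ℝ) ∧ 1 - 1 / (l : ℝ) ≤ 1 ∧ (2 : ℝ) ≤ l := fun l hl => by
    have h : (2 : ℝ) ≤ l := by exact_mod_cast hl.two_le
    refine ⟨?_, sub_le_self _ (by positivity), h⟩
    rw [sub_nonneg, div_le_one (by linarith)]
    linarith
  have h1 : ∀ u, ∀ l ∈ Pw M u, l.Prime := fun u l hl => (mem_Pw.1 hl).2.1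
  have h3 : (Pw M z \ e).filter (fun l : ℕ => (l : ℝ) < w) = Pw M (min w z) := by
    ext l
    simp only [mem_filter, Finset.mem_sdiff, mem_Pw, lt_min_iff]
    exact ⟨fun h => ⟨⟨h.2, h.1.1.1⟩, h.1.1.2⟩,
      fun h => ⟨⟨⟨h.1.2, h.2⟩, fun h' => (he l h').2.2.not_gt h.1.1⟩, h.1.1⟩⟩
  have h4 : (∏ l ∈ e, (1 - 1 / (l : ℝ))) * (pe e * ge e) = 1 := by
    rw [pe, ge, ← prod_mul_distrib, ← prod_mul_distrib]
    refine prod_eq_one fun l hl => ?_
    have h4 := (h0 l (he l hl).1).2.2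
    have h5 : (l : ℝ) - 1 ≠ 0 := by linarith
    rw [gg]
    field_simp
  have h5 : 0 ≤ pe e * ge e := by
    rw [pe, ge, ← prod_mul_distrib]
    exact prod_nonneg fun l hl => mul_nonneg l.cast_nonneg
      (one_div_nonneg.2 (by linarith only [(h0 l (he l hl).1).2.2]))
  have h6 : 0 ≤ ∏ l ∈ Pw M z \ e, (1 - 1 / (l : ℝ)) :=
    prod_nonneg fun l hl => (h0 l (h1 z l (mem_sdiff.1 hl).1)).1
  have h7 : ∏ l ∈ Pw M z \ e, (1 - 1 / (l : ℝ)) ≤ Real.exp 2 * VV M z * (pe e * ge e) := by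
    refine le_trans ?_ (mul_le_mul_of_nonneg_right (hyph_cmp h2 z) h5)
    rw [← prod_sdiff (inter_subset_left (s₁ := Pw M z) (s₂ := e)), sdiff_inter_self_left, mul_assoc]
    refine le_mul_of_one_le_right h6 (h4.ge.trans (mul_le_mul_of_nonneg_right ?_ h5))
    exact prod_le_prod_of_subset_of_le_one inter_subset_right (fun l hl => (h0 l (he l hl).1).1)
      fun l hl _ => (h0 l (he l hl).1).2.1
  refine le_trans ?_ (mul_le_mul h7 (hyph_cmp h2 _) (prod_nonneg fun l hl => (h0 l (h1 _ l hl)).1)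
    (h6.trans h7))
  rw [← h3, prod_filter, ← prod_mul_distrib]
  refine prod_le_prod (fun l hl => ?_) fun l hl => ?_
  · obtain ⟨h8, -, h9⟩ := h0 l (h1 z l (mem_sdiff.1 hl).1)
    split_ifs
    · rw [sub_nonneg, div_le_one (by linarith only [h9])]
      exact h9
    · exact h8
  · split_ifs
    · rw [show (2 : ℝ) / l = 2 * (1 / l) by ring]
      nlinarith [sq_nonneg (1 / (l : ℝ))]
    · rw [mul_one]

open Classical in
theorem hyph_inj {M a₀ j N : ℕ} {L : ℕ → ℝ} (hL : ∀ p : ℕ, p.Prime → |L p| ≤ j * Real.log p)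
    {x D w z : ℝ} (hx : 1 ≤ x) (hz : z ≤ x / Real.exp 4) {e : Finset ℕ} (he : Adm M e w)
    (hN : N = ⌊x / pe e⌋₊) :
    (prob L M a₀ x D).S M e w ≤ j * Real.log x * #{m ∈ Ioc 0 N | ∀ l ∈ Pw M z \ e,
      ((l : ℝ) < w → ¬ l ∣ m) ∧ ¬ l ∣ (∏ p ∈ e, p) * m + 1} := by
  have hE : 0 < ∏ p ∈ e, p := prod_pos fun p hp => (he p hp).1.pos
  have hE' : pe e = (∏ p ∈ e, p : ℕ) := by rw [pe, Nat.cast_prod]
  have h0 : 0 ≤ j * Real.log x := mul_nonneg j.cast_nonneg (Real.log_nonneg hx)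
  have h1 : ∀ n ∈ Om M a₀ x, n.Prime ∧ (n : ℝ) ≤ x ∧
      |L n| * bump (Real.log (n / x)) ≤ j * wt x n := fun n hn => by
    obtain ⟨h1, h2, -⟩ := mem_filter.1 hn
    refine ⟨h2, (Nat.le_floor_iff (by linarith only [hx])).1 (mem_Icc.1 h1).2, ?_⟩
    rw [wt, if_pos h2, ← mul_assoc]
    exact mul_le_mul_of_nonneg_right (hL n h2) bump.nonneg
  rw [SP.S, ← sum_filter_ne_zero]
  refine (sum_le_card_nsmul _ _ (j * Real.log x) fun n hn => ?_).trans ?_
  · obtain ⟨h2, h3, h4⟩ := h1 n (mem_filter.1 (mem_filter.1 hn).1).1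
    exact h4.trans (mul_le_mul_of_nonneg_left ((wt_le x n).trans (Real.log_le_log
      (by exact_mod_cast h2.pos) h3)) j.cast_nonneg)
  rw [nsmul_eq_mul, mul_comm]
  refine mul_le_mul_of_nonneg_left (Nat.cast_le.2 (le_trans (card_le_card fun n hn => ?_)
    (card_image_le (f := fun m => (∏ p ∈ e, p) * m + 1)))) h0
  obtain ⟨h2, h3⟩ := mem_filter.1 hn
  obtain ⟨h2, h4, h5⟩ := mem_filter.1 h2
  obtain ⟨h6, h7, h8⟩ := h1 n h2
  obtain ⟨m, hm⟩ : ∏ p ∈ e, p ∣ n - 1 := prod_primes_dvd _ (fun p hp => (he p hp).1.prime) h4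
  have h9 := h6.two_le
  have h10 : (∏ p ∈ e, p) * m + 1 = n := by omega
  have h11 : x / Real.exp 4 < n := (mem_PI.1 (mem_PI_of_wt (by linarith only [hx]) fun h => h3
    (le_antisymm (h8.trans (by rw [h, mul_zero])) ((prob L M a₀ x D).ha n)))).1
  refine mem_image.2 ⟨m, mem_filter.2 ⟨mem_Ioc.2 ⟨Nat.pos_of_ne_zero fun h => ?_, ?_⟩,
    fun l hl => ?_⟩, h10⟩
  · rw [h] at hm
    omega
  · rw [hN, hE']
    refine Nat.le_floor ((le_div_iff₀ (by exact_mod_cast hE)).2 (le_trans ?_ h7))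
    exact_mod_cast (by rw [mul_comm]; omega : m * ∏ p ∈ e, p ≤ n)
  · obtain ⟨h12, h13⟩ := mem_Pw.1 (Finset.mem_sdiff.1 hl).1
    refine ⟨fun h h' => h5 l (mem_Pw.2 ⟨h, h13⟩) (hm ▸ h'.mul_left _), fun h => ?_⟩
    rw [h10, Nat.prime_dvd_prime_iff_eq h13.1 h6] at h
    rw [h] at h12
    linarith only [hz, h11, h12]

theorem hypH {M : ℕ} (hM : 0 < M) (h6 : 6 ∣ M) (a₀ : ℕ) (L : ℕ → ℝ) (j : ℕ)
    (hL : ∀ p : ℕ, p.Prime → |L p| ≤ j * Real.log p) {κ : ℝ} (hκ : 0 < κ) :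
    ∃ C : ℝ, 0 ≤ C ∧ ∀ᶠ x : ℝ in atTop, ∀ D : ℝ, D ^ 2 ≤ x →
      κ * x ≤ (prob L M a₀ x D).X → (prob L M a₀ x D).H M C := by
  have h2 : 2 ∣ M := Dvd.dvd.trans (by norm_num) h6
  obtain ⟨c, C, hc, hC, hV⟩ := VV_bounds hM h2
  obtain ⟨C₁, hC₁, hm⟩ := mertens1
  set K := Real.exp 2 * (3000 * C) * (Real.exp 2 * (1 + 3000 * C / c)) with hK
  have hK0 : 0 < K := by positivity
  refine ⟨j * (8 * (K + 1)) / κ, by positivity, ?_⟩
  filter_upwards [eventually_gt_atTop 1, Real.tendsto_log_atTop.eventually_ge_atTop 3000,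
    Real.tendsto_log_atTop.eventually_ge_atTop (1000 * C₁),
    ((Real.tendsto_exp_div_pow_atTop 2).comp (Real.tendsto_log_atTop.atTop_div_const
      (by norm_num : (0 : ℝ) < 20))).eventually_ge_atTop (400 * Real.exp 64 / c)]
    with x hx e1 e2 e3 D hD hX e w he hw hwD hE
  change w ≤ D at hwD
  change _ ≤ D ^ 3 at hE
  set u := Real.log x with hu
  have hu0 : 0 < u := by linarith only [e1]
  have hxu : x = Real.exp u := (Real.exp_log (by linarith only [hx])).symm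
  set z := Real.exp (u / 3000) with hz
  have hz2 : 2 ≤ z := le_trans (by linarith only [e1]) (Real.add_one_le_exp _)
  have hlz : Real.log z = u / 3000 := Real.log_exp _
  have hE0 : 0 < pe e := prod_pos fun p hp => by exact_mod_cast (he p hp).1.pos
  have hg : 1 ≤ pe e * ge e := by
    rw [pe, ge, ← prod_mul_distrib]
    refine le_trans (prod_const_one (s := e)).ge (prod_le_prod (fun _ _ => zero_le_one) fun p hp => ?_)
    have h : (2 : ℝ) ≤ p := by exact_mod_cast (he p hp).1.two_le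
    rw [gg, mul_one_div, one_le_div (by linarith only [h])]
    linarith only []
  have hg0 : 0 < ge e := (pos_iff_pos_of_mul_pos (one_pos.trans_le hg)).1 hE0
  have hlD : 2 * Real.log D ≤ u := by
    have h := Real.log_le_log (by nlinarith only [hw, hwD]) hD
    rwa [Real.log_pow, Nat.cast_ofNat] at h
  have hlE : pe e ≤ Real.exp (3 / 4 * u) := by
    have h := Real.log_le_log (by positivity) hE
    rw [Real.log_pow, Real.log_pow, Nat.cast_ofNat, Nat.cast_ofNat] at h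
    rw [← Real.log_le_iff_le_exp hE0]
    linarith only [hlD, h]
  have hVw : c / u ≤ VV M w := by
    refine le_trans (div_le_div_of_nonneg_left hc.le (Real.log_pos (by linarith only [hw])) ?_) (hV w hw).1
    linarith only [Real.log_le_log (by linarith only [hw]) hwD, e1, hlD]
  have hV0 := VV_pos h2 w
  have hVz : VV M z ≤ 3000 * C / u := (hV z hz2).2.trans (le_of_eq (by rw [hlz]; field_simp))
  have hVm : VV M (min w z) ≤ (1 + 3000 * C / c) * VV M w := by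
    have h : 0 ≤ 3000 * C / c := by positivity
    rcases le_total w z with h1 | h1
    · rw [min_eq_left h1]
      nlinarith only [hV0, h]
    · rw [min_eq_right h1]
      have h3 := mul_le_mul_of_nonneg_left hVw h
      rw [show 3000 * C / c * (c / u) = 3000 * C / u by field_simp] at h3
      linarith only [hV0, hVz, h3]
  have h1 := hyph_count (Pw M z \ e) (∏ p ∈ e, p) ⌊x / pe e⌋₊ w (G := u / 30) (by positivity)
    (fun l hl => by
      obtain ⟨h1, h3⟩ := Finset.mem_sdiff.1 hl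
      obtain ⟨h4, h5, h7⟩ := mem_Pw.1 h1
      refine ⟨h5, ?_, fun h => ?_, ?_⟩
      · by_contra h
        have := h5.two_le
        have h8 : l < 5 := by omega
        interval_cases l
        · exact h7 h2
        · exact h7 (Dvd.dvd.trans (by norm_num) h6)
        · exact absurd h5 (by norm_num)
      · obtain ⟨p, hp, h8⟩ := (Prime.dvd_finsetProd_iff h5.prime _).1 h
        exact h3 (((Nat.prime_dvd_prime_iff_eq h5 (he p hp).1).1 h8) ▸ hp)
      · linarith only [Real.log_le_log (by exact_mod_cast h5.pos) h4.le, e1, hlz]) (by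
      refine le_trans (sum_le_sum_of_subset_of_nonneg (t := PI 0 z) (fun l hl => ?_)
        fun l _ _ => div_nonneg (Real.log_natCast_nonneg l) l.cast_nonneg) ?_
      · obtain ⟨h4, h5, -⟩ := mem_Pw.1 (Finset.mem_sdiff.1 hl).1
        exact mem_PI.2 ⟨by exact_mod_cast h5.pos, h4.le, h5⟩
      · linarith only [hm z (by linarith only [hz2]), e1, e2, hlz])
  have h3 : (⌊x / pe e⌋₊ : ℝ) * ∏ l ∈ Pw M z \ e, (1 - (if (l : ℝ) < w then 2 else 1) / (l : ℝ)) ≤
      K * (x * ge e * VV M w / u) := by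
    have h3 := (VV_pos h2 (min w z)).le
    refine (mul_le_mul_of_nonneg_left (hyph_prod h2 he z) (Nat.cast_nonneg _)).trans ?_
    have h4 := (VV_pos h2 z).le
    calc _ ≤ x / pe e * (Real.exp 2 * (3000 * C / u) * (pe e * ge e) *
          (Real.exp 2 * ((1 + 3000 * C / c) * VV M w))) := by
          gcongr
          exact Nat.floor_le (by positivity)
      _ = _ := by rw [hK]; field_simp
  have h4 : Real.exp (6 * (u / 30)) * Real.exp 64 ≤ x * ge e * VV M w / u := by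
    have h4 : Real.exp (1 / 4 * u) ≤ x * ge e := by
      have h4 : x = Real.exp (1 / 4 * u) * Real.exp (3 / 4 * u) := by
        rw [← Real.exp_add, ← add_mul]; norm_num [← hxu]
      rw [h4, mul_assoc]
      exact le_mul_of_one_le_right (Real.exp_pos _).le
        (hg.trans (mul_le_mul_of_nonneg_right hlE hg0.le))
    rw [Function.comp_apply, div_le_div_iff₀ hc (by positivity)] at e3
    rw [le_div_iff₀ hu0]
    refine le_trans ?_ (mul_le_mul h4 hVw (by positivity) (by positivity))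
    rw [show 1 / 4 * u = 6 * (u / 30) + u / 20 by ring, Real.exp_add, mul_assoc, mul_assoc]
    refine mul_le_mul_of_nonneg_left ?_ (Real.exp_pos _).le
    rw [← mul_div_assoc, le_div_iff₀ hu0]
    linarith only [e3]
  refine (hyph_inj hL hx.le (z := z) ?_ he rfl).trans ?_
  · rw [hxu, ← Real.exp_sub, Real.exp_le_exp]
    linarith only [e1]
  have h5 := mul_le_mul_of_nonneg_left (h1.trans (mul_le_mul_of_nonneg_left (add_le_add h3 h4)
    (by norm_num))) (by positivity : 0 ≤ j * u)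
  refine le_trans (by convert h5) ?_
  calc _ = j * (8 * (K + 1)) / κ * (κ * x * ge e * VV M w) := by field_simp
    _ ≤ _ := by rw [SP.E]; gcongr

end Pool.Agent.MP_48b1c3_nt.H91

end

-- part MP_48b1c3_nt.H91.Gauss
section

/-! Gauss sums of characters composed with the norm. -/

namespace Pool.Agent.MP_48b1c3_nt.H91

open Finset NumberField H54 Filter
open scoped ContDiff Topology

variable {K : Type} [Field K] [NumberField K]

theorem gauss_abs {A : Type} [CommRing A] [Fintype A] (X : A → ℂ) (ψ : AddChar A ℂ)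
    (hψ : ψ.IsPrimitive) (hmul : ∀ x y, X (x * y) = X x * X y) (h1 : X 1 = 1)
    (hcase : ∀ γ, (IsUnit γ ∧ ‖X γ‖ = 1) ∨ (X γ = 0 ∧ ∃ u, IsUnit u ∧ γ * u = γ ∧ X u ≠ 1)) :
    (∀ γ, ∑ x, X x * ψ (γ * x) = (starRingEnd ℂ) (X γ) * ∑ x, X x * ψ x) ∧
      ‖∑ x, X x * ψ x‖ ^ 2 = Fintype.card A := by
  classical
  have hu : ∀ γ u, IsUnit u → X u * ∑ x, X x * ψ (γ * u * x) = ∑ x, X x * ψ (γ * x) := by
    rintro γ _ ⟨u, rfl⟩
    rw [mul_sum]
    refine Fintype.sum_equiv u.mulLeft _ _ fun x => ?_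
    rw [Units.mulLeft_apply, hmul, mul_assoc, mul_assoc]
  have hA : ∀ γ, ∑ x, X x * ψ (γ * x) = (starRingEnd ℂ) (X γ) * ∑ x, X x * ψ x := by
    intro γ
    rcases hcase γ with ⟨h, hn⟩ | ⟨h, u, hu', hγ, hX⟩
    · have h2 := hu 1 γ h
      simp only [one_mul] at h2
      rw [← h2, ← mul_assoc, ← Complex.normSq_eq_conj_mul_self, Complex.normSq_eq_norm_sq, hn]
      simp only [one_pow, Complex.ofReal_one, one_mul]
    · have h2 := hu γ u hu'
      rw [hγ] at h2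
      have h3 : (X u - 1) * ∑ x, X x * ψ (γ * x) = 0 := by rw [sub_mul, h2, one_mul, sub_self]
      rw [(mul_eq_zero.1 h3).resolve_left (sub_ne_zero.2 hX), h, map_zero, zero_mul]
  refine ⟨hA, ?_⟩
  have h2 : (starRingEnd ℂ) (∑ x, X x * ψ x) * ∑ x, X x * ψ x = Fintype.card A := by
    calc (starRingEnd ℂ) (∑ x, X x * ψ x) * ∑ x, X x * ψ x
        = ∑ x, ψ (-x) * ∑ y, X y * ψ (x * y) := by
          rw [map_sum, sum_mul]
          refine sum_congr rfl fun x _ => ?_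
          rw [hA, map_mul, AddChar.map_neg_eq_conj]
          ring
      _ = ∑ y, X y * ∑ x, ψ (x * (y - 1)) := by
          simp only [mul_sum]
          rw [sum_comm]
          refine sum_congr rfl fun y _ => sum_congr rfl fun x _ => ?_
          rw [mul_left_comm, ← AddChar.map_add_eq_mul]
          congr 2
          ring
      _ = Fintype.card A := by
          simp only [AddChar.sum_mulShift _ hψ, sub_eq_zero]
          rw [sum_eq_single 1 (fun y _ hy => by simp [hy]) (by simp)]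
          simp only [h1, ↓ reduceIte, one_mul]
  rw [← Complex.normSq_eq_conj_mul_self, Complex.normSq_eq_norm_sq] at h2
  exact_mod_cast h2

theorem gauss_unit {q : ℕ} {u : 𝓞 K} (h : IsCoprime (nm u) (q : ℤ)) :
    IsUnit (Ideal.Quotient.mk (Ideal.span {(q : 𝓞 K)}) u) := by
  have h1 : Cop q (Ideal.span {u}) := by
    rw [cop_iff, Ideal.absNorm_span_singleton]
    exact Int.isCoprime_iff_nat_coprime.1 h
  obtain ⟨a, b, hab⟩ := Ideal.isCoprime_span_singleton_iff _ _ |>.1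
    (Ideal.isCoprime_iff_sup_eq.2 h1)
  refine IsUnit.of_mul_eq_one (Ideal.Quotient.mk _ a) ?_
  rw [← map_mul, ← map_one (Ideal.Quotient.mk (Ideal.span {(q : 𝓞 K)})), Ideal.Quotient.eq,
    Ideal.mem_span_singleton]
  exact ⟨-b, by linear_combination hab⟩

theorem gauss_move {q : ℕ} (hq : Squarefree q) (hD : q.Coprime (DD K))
    (χ : DirichletCharacter ℂ q) (hχ : χ.IsPrimitive) {g : 𝓞 K}
    (h : ¬ IsCoprime (nm g) (q : ℤ)) : ∃ u : 𝓞 K, IsCoprime (nm u) (q : ℤ) ∧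
      (q : 𝓞 K) ∣ g * u - g ∧ χ (nm u : ℤ) ≠ 1 := by
  have hq0 : q ≠ 0 := hq.ne_zero
  have : NeZero q := ⟨hq0⟩
  rw [Int.isCoprime_iff_nat_coprime, Int.natAbs_natCast] at h
  obtain ⟨p, hp, hp1, m, hm⟩ := Nat.Prime.not_coprime_iff_dvd.1 h
  have hpm : p.Coprime m := Nat.coprime_of_squarefree_mul (hm ▸ hq)
  have hmq : m ∣ q := Dvd.intro_left p hm.symm
  have hm0 : 0 < m := Nat.pos_of_dvd_of_pos hmq (Nat.pos_of_ne_zero hq0)
  have hnf : ¬ χ.FactorsThrough m := fun hf => by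
    have h1 := χ.conductor_le_conductor_mem_conductorSet hf
    have h2 := Nat.le_of_dvd hm0 (Classical.choose hf.2).conductor_dvd_level
    rw [hχ] at h1
    have := hp.two_le
    nlinarith only [hm, hm0, h1, h2, this]
  rw [DirichletCharacter.factorsThrough_iff_ker_unitsMap hmq] at hnf
  obtain ⟨t, ht1, ht2⟩ := SetLike.not_le_iff_exists.1 hnf
  rw [MonoidHom.mem_ker] at ht1 ht2
  obtain ⟨s, hs⟩ := ZMod.intCast_surjective (t : ZMod q)
  have hs1 : IsCoprime (q : ℤ) s := (ZMod.coe_int_isUnit_iff_isCoprime s q).1 (hs ▸ t.isUnit)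
  have hs2 : (m : ℤ) ∣ 1 - s := by
    rw [← ZMod.intCast_eq_intCast_iff_dvd_sub, Int.cast_one]
    have := congrArg Units.val ht1
    rwa [ZMod.unitsMap_val, ← hs, ZMod.cast_intCast hmq, Units.val_one] at this
  have hpq : (p : ℤ) ∣ q := Int.natCast_dvd_natCast.2 (Dvd.intro m hm.symm)
  have hs3 : ¬ (p : ℤ) ∣ s := fun hd =>
    (Nat.prime_iff_prime_int.1 hp).not_unit (hs1.isUnit_of_dvd' hpq hd)
  have hpD : ¬ p ∣ DD K := fun hd =>
    hp.one_lt.ne' (Nat.eq_one_of_dvd_coprimes hD (Dvd.intro m hm.symm) hd)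
  obtain ⟨u₀, ⟨c, hc⟩, hu⟩ := norm_loc hp hpD (Int.natCast_dvd.2 hp1) hs3
  obtain ⟨a, b, hab⟩ := Nat.isCoprime_iff_coprime.2 hpm
  have hab' : (a : 𝓞 K) * p + b * m = 1 := by exact_mod_cast congrArg (Int.cast : ℤ → 𝓞 K) hab
  have h1 : (p : ℤ) ∣ nm (1 + (b : 𝓞 K) * (m : 𝓞 K) * (u₀ - 1)) - s := by
    have := nm_congr (m := p) (a := 1 + (b : 𝓞 K) * (m : 𝓞 K) * (u₀ - 1)) (b := u₀)
      ⟨-(a : 𝓞 K) * (u₀ - 1), by push_cast; linear_combination (u₀ - 1) * hab'⟩
    simpa only [sub_add_sub_cancel] using dvd_add this hu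
  have h2 : (m : ℤ) ∣ nm (1 + (b : 𝓞 K) * (m : 𝓞 K) * (u₀ - 1)) - s := by
    have := nm_congr (m := m) (a := 1 + (b : 𝓞 K) * (m : 𝓞 K) * (u₀ - 1)) (b := 1)
      ⟨(b : 𝓞 K) * (u₀ - 1), by push_cast; ring⟩
    rw [nm, nm, map_one] at this
    simpa only [sub_add_sub_cancel] using dvd_add this hs2
  have h3 : (q : ℤ) ∣ nm (1 + (b : 𝓞 K) * (m : 𝓞 K) * (u₀ - 1)) - s := by
    rw [hm, Nat.cast_mul]
    exact (Nat.isCoprime_iff_coprime.2 hpm).mul_dvd h1 h2
  have h4 : ((nm (1 + (b : 𝓞 K) * (m : 𝓞 K) * (u₀ - 1)) : ℤ) : ZMod q) = t := by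
    rw [← hs]
    exact ((ZMod.intCast_eq_intCast_iff_dvd_sub _ _ _).2 h3).symm
  refine ⟨1 + (b : 𝓞 K) * (m : 𝓞 K) * (u₀ - 1), ?_, ⟨(b : 𝓞 K) * c, ?_⟩, ?_⟩
  · exact ((ZMod.coe_int_isUnit_iff_isCoprime _ q).1 (h4 ▸ t.isUnit)).symm
  · rw [hm]
    push_cast
    linear_combination (b : 𝓞 K) * m * hc
  · rw [h4]
    intro h5
    exact ht2 (Units.ext (by simpa using h5))

theorem gauss_dvd {q : ℕ} {a : Ix K → ℤ} : (q : 𝓞 K) ∣ el K a ↔ ∀ i, (q : ℤ) ∣ a i := by
  constructor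
  · rintro ⟨c, hc⟩ i
    obtain ⟨c, rfl⟩ := (el K).surjective c
    rw [← nsmul_eq_mul, ← map_nsmul, (el K).injective.eq_iff] at hc
    exact ⟨c i, by simp [hc]⟩
  · intro h
    choose c hc using h
    refine ⟨el K c, ?_⟩
    rw [← nsmul_eq_mul, ← map_nsmul]
    congr 1
    ext i
    simp [hc]

theorem gauss_sum {q : ℕ} (hq : q ≠ 0) [Fintype (𝓞 K ⧸ Ideal.span {(q : 𝓞 K)})] {M : Type}
    [AddCommMonoid M] (F : (𝓞 K ⧸ Ideal.span {(q : 𝓞 K)}) → M) :
    ∑ a ∈ cb (Ix K) q, F (Ideal.Quotient.mk _ (el K a)) = ∑ x, F x := by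
  classical
  have hq' : (0 : ℤ) < q := by omega
  refine sum_bij (fun a _ => Ideal.Quotient.mk _ (el K a)) (fun _ _ => mem_univ _)
    (fun a ha b hb h => ?_) (fun x _ => ?_) fun _ _ => rfl
  · rw [Ideal.Quotient.eq, Ideal.mem_span_singleton, ← map_sub, gauss_dvd] at h
    simp only [cb, Fintype.mem_piFinset, mem_Ico] at ha hb
    funext i
    have := Int.eq_zero_of_abs_lt_dvd (h i) (by
      have := ha i
      have := hb i
      rw [Pi.sub_apply, abs_lt]
      omega)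
    rw [Pi.sub_apply] at this
    omega
  · obtain ⟨y, rfl⟩ := Ideal.Quotient.mk_surjective x
    obtain ⟨a, rfl⟩ := (el K).surjective y
    refine ⟨fun i => a i % q, ?_, ?_⟩
    · simp only [cb, Fintype.mem_piFinset, mem_Ico]
      exact fun i => ⟨Int.emod_nonneg _ hq'.ne', Int.emod_lt_of_pos _ hq'⟩
    · rw [Ideal.Quotient.eq, Ideal.mem_span_singleton, ← map_sub, gauss_dvd]
      exact fun i => Int.dvd_emod_sub_self

theorem gauss {β : (Ix K → ℤ) →ₗ[ℤ] 𝓞 K} (hβ : Dual β) {q : ℕ} (hq : Squarefree q)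
    (hD : q.Coprime (DD K)) (χ : DirichletCharacter ℂ q) (hχ : χ.IsPrimitive) :
    ∃ G : ℂ, ‖G‖ ^ 2 ≤ (q : ℝ) ^ dg K ∧ ∀ h : Ix K → ℤ,
      ∑ a ∈ cb (Ix K) q, χ (nm (el K a) : ℤ) * ch (fun i => h i / q) a =
        (starRingEnd ℂ) (χ (nm (β h) : ℤ)) * G := by
  classical
  have hq0 : q ≠ 0 := hq.ne_zero
  have : NeZero q := ⟨hq0⟩
  set I : Ideal (𝓞 K) := Ideal.span {(q : 𝓞 K)} with hI
  have hI0 : I ≠ ⊥ := by
    rw [hI, Ne, Ideal.span_singleton_eq_bot]
    exact_mod_cast hq0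
  have : Finite (𝓞 K ⧸ I) := Ideal.finiteQuotientOfFreeOfNeBot I hI0
  have := Fintype.ofFinite (𝓞 K ⧸ I)
  obtain ⟨d, hd⟩ := ((ZMod.isUnit_iff_coprime (DD K) q).2 hD.symm).exists_left_inv
  obtain ⟨X, hX⟩ : ∃ X : 𝓞 K ⧸ I → ℂ, ∀ α, X (Ideal.Quotient.mk I α) = χ (nm α : ℤ) := by
    refine ⟨fun x => χ (nm (Function.surjInv Ideal.Quotient.mk_surjective x) : ℤ), fun α => ?_⟩
    have h1 := Function.surjInv_eq (Ideal.Quotient.mk_surjective (I := I))
      (Ideal.Quotient.mk I α)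
    rw [Ideal.Quotient.eq, hI, Ideal.mem_span_singleton] at h1
    have h2 := nm_congr (m := q) (by exact_mod_cast h1)
    exact congrArg χ ((ZMod.intCast_eq_intCast_iff_dvd_sub _ _ _).2 h2).symm
  obtain ⟨L, hL⟩ : ∃ L : (𝓞 K ⧸ I) →+ ZMod q, ∀ α,
      L (Ideal.Quotient.mk I α) = d * (Algebra.trace ℤ (𝓞 K) α : ℤ) := by
    refine ⟨QuotientAddGroup.lift I.toAddSubgroup (((AddMonoidHom.mulLeft d).comp
      (Int.castAddHom (ZMod q))).comp (Algebra.trace ℤ (𝓞 K)).toAddMonoidHom) fun α hα => ?_,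
      fun α => rfl⟩
    obtain ⟨c, rfl⟩ := Ideal.mem_span_singleton.1 hα
    rw [AddMonoidHom.mem_ker, ← nsmul_eq_mul, map_nsmul, nsmul_eq_mul, ZMod.natCast_self, zero_mul]
  have hψ : ∀ h a : Ix K → ℤ, (ZMod.stdAddChar.compAddMonoidHom L)
      (Ideal.Quotient.mk I (β h) * Ideal.Quotient.mk I (el K a)) =
        ZMod.stdAddChar ((∑ i, h i * a i : ℤ) : ZMod q) := by
    intro h a
    rw [AddChar.compAddMonoidHom_apply, ← map_mul, hL, hβ, Int.cast_mul, Int.cast_natCast,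
      ← mul_assoc, hd, one_mul]
  have hprim : (ZMod.stdAddChar.compAddMonoidHom L).IsPrimitive := by
    intro x hx h
    obtain ⟨y, rfl⟩ := Ideal.Quotient.mk_surjective x
    obtain ⟨a, rfl⟩ := (el K).surjective y
    refine hx (Ideal.Quotient.eq_zero_iff_mem.2 (Ideal.mem_span_singleton.2
      (gauss_dvd.2 fun i => ?_)))
    have h1 := DFunLike.congr_fun h (Ideal.Quotient.mk I (β (Pi.single i 1)))
    rw [AddChar.mulShift_apply, mul_comm, hψ, AddChar.one_apply,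
      ← AddChar.map_zero_eq_one (ZMod.stdAddChar (N := q)), ZMod.injective_stdAddChar.eq_iff,
      ZMod.intCast_zmod_eq_zero_iff_dvd] at h1
    simpa only [Pi.single_apply, ite_mul, one_mul, zero_mul, sum_ite_eq', mem_univ, ↓ reduceIte] using h1
  obtain ⟨h1, h2⟩ := gauss_abs X _ hprim (fun x y => by
      obtain ⟨x, rfl⟩ := Ideal.Quotient.mk_surjective x
      obtain ⟨y, rfl⟩ := Ideal.Quotient.mk_surjective y
      rw [← map_mul, hX, hX, hX, nm, map_mul, Int.cast_mul, map_mul])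
    (by rw [← map_one (Ideal.Quotient.mk I), hX, nm, map_one, Int.cast_one, map_one])
    (fun γ => by
      obtain ⟨g, rfl⟩ := Ideal.Quotient.mk_surjective γ
      by_cases hg : IsCoprime (nm g) (q : ℤ)
      · refine .inl ⟨gauss_unit hg, ?_⟩
        obtain ⟨t, ht⟩ := (ZMod.coe_int_isUnit_iff_isCoprime _ q).2 hg.symm
        rw [hX, ← ht]
        exact χ.unit_norm_eq_one t
      · obtain ⟨u, hu1, hu2, hu3⟩ := gauss_move hq hD χ hχ hg
        refine .inr ⟨by rw [hX]; exact (χ.apply_eq_zero_iff _).2 hg,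
          Ideal.Quotient.mk I u, gauss_unit hu1, ?_, by rwa [hX]⟩
        rw [← map_mul, Ideal.Quotient.eq]
        exact Ideal.mem_span_singleton.2 hu2)
  refine ⟨_, le_of_eq (h2.trans ?_), fun h => ?_⟩
  · have h3 := gauss_sum (K := K) hq0 (fun _ => (1 : ℕ))
    rw [sum_const, sum_const, smul_eq_mul, smul_eq_mul, mul_one, mul_one, card_univ] at h3
    rw [← h3, cb, Fintype.card_piFinset]
    simp [card_Ix]
  · rw [← hX, ← h1, ← gauss_sum hq0]
    refine sum_congr rfl fun a _ => ?_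
    rw [hX, hψ, ZMod.stdAddChar_coe, ch, ec]
    congr 2
    push_cast
    rw [mul_div_assoc, sum_div]
    congr 1
    exact sum_congr rfl fun i _ => by ring

end Pool.Agent.MP_48b1c3_nt.H91

end

-- part MP_48b1c3_nt.H91.Four
section

/-! Finite Fourier expansion of twisted periodic functions. -/

namespace Pool.Agent.MP_48b1c3_nt.H91

open Finset NumberField H54 Filter
open scoped ContDiff Topology

section

variable {ι : Type} [Fintype ι]

/-- functions that only depend on the residues modulo `N` -/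
def four_Per (N : ℕ) (f : (ι → ℤ) → ℂ) : Prop := ∀ a b, (∀ i, (N : ℤ) ∣ a i - b i) → f a = f b

/-- `φ` maps `T` onto a complete residue system -/
def four_Res {τ : Type} (N : ℕ) (T : Finset τ) (φ : τ → ι → ℤ) : Prop :=
  (∀ s ∈ T, ∀ t ∈ T, (∀ i, (N : ℤ) ∣ φ s i - φ t i) → s = t) ∧ #T = N ^ Fintype.card ι

theorem four_sum {τ σ : Type} {N : ℕ} (hN : 0 < N) {T : Finset τ} {φ : τ → ι → ℤ} {S : Finset σ}
    {ψ : σ → ι → ℤ} (hT : four_Res N T φ) (hS : four_Res N S ψ) {f : (ι → ℤ) → ℂ}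
    (hf : four_Per N f) : ∑ t ∈ T, f (φ t) = ∑ s ∈ S, f (ψ s) := by
  classical
  have : NeZero N := ⟨hN.ne'⟩
  have key : ∀ {τ : Type} {T : Finset τ} {φ : τ → ι → ℤ}, four_Res N T φ →
      ∑ t ∈ T, f (φ t) = ∑ x : ι → ZMod N, f fun i => (x i).val := fun {τ T φ} h => by
    have hi : ∀ s ∈ T, ∀ t ∈ T, (fun i => (φ s i : ZMod N)) = (fun i => (φ t i : ZMod N)) →
        s = t := fun s hs t ht e => h.1 s hs t ht fun i =>
      (ZMod.intCast_eq_intCast_iff_dvd_sub _ _ _).1 (congrFun e i).symm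
    refine sum_bij (fun t _ i => (φ t i : ZMod N)) (fun _ _ => mem_univ _) hi (fun x _ => ?_)
      fun t _ => hf _ _ fun i => ?_
    · have h1 : T.image (fun t i => (φ t i : ZMod N)) = univ := by
        refine eq_univ_of_card _ ?_
        rw [card_image_of_injOn fun s hs t ht e => hi s hs t ht e, h.2, Fintype.card_fun, ZMod.card]
      obtain ⟨t, ht, e⟩ := mem_image.1 (h1 ▸ mem_univ x)
      exact ⟨t, ht, e⟩
    · exact (ZMod.intCast_eq_intCast_iff_dvd_sub _ _ _).1 (by simp)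
  rw [key hT, key hS]

theorem four_box (N : ℕ) {S : Finset (ι → ℤ)} (u : ℤ) (h : ∀ a, a ∈ S ↔ ∀ i, a i ∈ Ico u (u + N))
    (t : ι → ℤ) : four_Res N S fun a => a + t := by
  classical
  refine ⟨fun a ha b hb e => funext fun i => ?_, ?_⟩
  · have h1 := mem_Ico.1 ((h a).1 ha i)
    have h2 := mem_Ico.1 ((h b).1 hb i)
    have h3 := e i
    simp only [Pi.add_apply, add_sub_add_right_eq_sub] at h3
    exact sub_eq_zero.1 (Int.eq_zero_of_abs_lt_dvd h3 (abs_lt.2 ⟨by omega, by omega⟩))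
  · rw [show S = Fintype.piFinset fun _ => Ico u (u + N) from
      Finset.ext fun a => by rw [h, Fintype.mem_piFinset], Fintype.card_piFinset]
    simp only [Int.card_Ico, add_sub_cancel_left, Int.toNat_natCast, prod_const, card_univ]

theorem four_mem_cb {N : ℕ} {a : ι → ℤ} : a ∈ cb ι N ↔ ∀ i, a i ∈ Ico (0 : ℤ) (0 + N) := by
  classical
  rw [cb, Fintype.mem_piFinset, zero_add]

theorem four_cb (N : ℕ) (t : ι → ℤ) : four_Res N (cb ι N) fun a => a + t :=
  four_box N 0 (fun _ => four_mem_cb) t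

theorem four_cs (N : ℕ) (t : ι → ℤ) : four_Res N (cs ι N) fun a => a + t :=
  four_box N (-((N / 2 : ℕ) : ℤ)) (fun a => by
    classical
    rw [cs, Fintype.mem_piFinset, neg_add_eq_sub]) t

theorem four_ec {N : ℕ} (hN : 0 < N) {s t : ℤ} (h : (N : ℤ) ∣ s - t) :
    ec (s / N) = ec (t / N) := by
  obtain ⟨k, hk⟩ := h
  have h1 : (s : ℝ) / N = t / N + k := by
    rw [sub_eq_iff_eq_add.1 hk]
    push_cast
    field_simp
    ring
  rw [h1, ec_add, ec_int, mul_one]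

theorem four_ch (N : ℕ) (c a : ι → ℤ) :
    ch (fun i => c i / N) a = ec ((∑ i, c i * a i : ℤ) / N) := by
  rw [ch, Int.cast_sum, sum_div]
  congr 1
  refine sum_congr rfl fun i _ => ?_
  push_cast
  ring

open scoped Classical in
theorem four_orth {N : ℕ} (hN : 0 < N) (d : ι → ℤ) :
    ∑ c ∈ cs ι N, ec ((∑ i, c i * d i : ℤ) / N) =
      if ∀ i, (N : ℤ) ∣ d i then (N : ℂ) ^ Fintype.card ι else 0 := by
  split_ifs with h
  · rw [sum_congr rfl fun c _ => four_ec hN (t := 0) (by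
      rw [sub_zero]
      exact dvd_sum fun i _ => (h i).mul_left _)]
    simp only [ec, Int.cast_zero, zero_div, Complex.ofReal_zero, mul_zero, Complex.exp_zero, sum_const, (four_cs (ι := ι) N 0).2, nsmul_eq_mul, Nat.cast_pow, mul_one]
  · obtain ⟨j, hj⟩ := not_forall.1 h
    have h1 := four_sum hN (four_cs N (Pi.single j 1)) (four_cs N 0)
      (f := fun c => ec ((∑ i, c i * d i : ℤ) / N)) fun a b e => four_ec hN (by
        rw [← sum_sub_distrib]
        exact dvd_sum fun i _ => by rw [← sub_mul]; exact (e i).mul_right _)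
    have h2 : ∀ c : ι → ℤ, ec ((∑ i, (c + Pi.single j 1 : ι → ℤ) i * d i : ℤ) / N) =
        ec (d j / N) * ec ((∑ i, c i * d i : ℤ) / N) := fun c => by
      rw [← ec_add, ← add_div, ← Int.cast_add]
      simp only [Pi.add_apply, add_mul, sum_add_distrib, Pi.single_apply, ite_mul, one_mul,
        zero_mul, sum_ite_eq', mem_univ, if_true, add_comm]
    simp only [h2, add_zero, ← mul_sum] at h1
    by_contra h3
    have h4 : ec (d j / N) = 1 := mul_right_cancel₀ h3 (h1.trans (one_mul _).symm)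
    obtain ⟨k, hk⟩ := Complex.exp_eq_one_iff.1 h4
    have h5 : (N : ℂ) ≠ 0 := Nat.cast_ne_zero.2 hN.ne'
    have h6 : (d j : ℂ) / N = k := mul_left_cancel₀ Complex.two_pi_I_ne_zero (by
      rw [mul_comm _ (k : ℂ), ← hk]
      push_cast
      rfl)
    rw [div_eq_iff h5] at h6
    exact hj ⟨k, by exact_mod_cast h6.trans (mul_comm _ _)⟩

theorem four_inv {N : ℕ} (hN : 0 < N) {f : (ι → ℤ) → ℂ} (hf : four_Per N f) (a : ι → ℤ) :
    (N : ℂ) ^ Fintype.card ι * f a = ∑ c ∈ cs ι N,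
      (∑ b ∈ cb ι N, f b * ch (fun i => (-c) i / N) b) * ch (fun i => c i / N) a := by
  classical
  have h1 : ∀ c b : ι → ℤ, f b * ch (fun i => (-c) i / N) b * ch (fun i => c i / N) a =
      f b * ec ((∑ i, c i * (a - b) i : ℤ) / N) := fun c b => by
    rw [mul_assoc, four_ch, four_ch, ← ec_add, ← add_div, ← Int.cast_add, ← sum_add_distrib]
    congr 4
    exact sum_congr rfl fun i _ => by simp only [Pi.neg_apply, Pi.sub_apply]; ring
  simp only [sum_mul, h1]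
  rw [sum_comm]
  simp only [← mul_sum, four_orth hN]
  have h2 := four_sum hN (four_cb N 0) (four_cb N a)
    (f := fun b => f b * if ∀ i, (N : ℤ) ∣ (a - b) i then (N : ℂ) ^ Fintype.card ι else 0)
    fun x y e => by
      have h3 : ∀ i, (N : ℤ) ∣ (a - x) i ↔ (N : ℤ) ∣ (a - y) i := fun i => by
        rw [show (a - y) i = (a - x) i + (x i - y i) by simp, dvd_add_left (e i)]
      simp only [h3, hf x y e]
  simp only [add_zero] at h2
  have h0 : (0 : ι → ℤ) ∈ cb ι N := four_mem_cb.2 fun i => mem_Ico.2 ⟨le_rfl, by simpa using hN⟩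
  rw [h2, sum_eq_single_of_mem 0 h0 fun b hb hb0 => ?_]
  · simp only [mul_comm, zero_add, Pi.sub_apply, sub_self, dvd_zero, implies_true, ↓ reduceIte]
  · rw [if_neg fun h => hb0 ((four_cb N 0).1 b hb 0 h0 fun i => by simpa only [Pi.add_apply, Pi.zero_apply, add_zero, sub_zero, Pi.sub_apply, sub_add_cancel_right, dvd_neg] using h i), mul_zero]

theorem four_crt {q m : ℕ} (h : q.Coprime m) : four_Res (q * m) (cb ι q ×ˢ cb ι m)
    fun p => (m : ℤ) • p.1 + (q : ℤ) • p.2 := by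
  have hc : IsCoprime (q : ℤ) m := Nat.isCoprime_iff_coprime.2 h
  refine ⟨fun s hs t ht e => ?_, ?_⟩
  · have e' : ∀ i, (q : ℤ) * m ∣ m * (s.1 i - t.1 i) + q * (s.2 i - t.2 i) := fun i => by
      have := e i
      simp only [Pi.add_apply, Pi.smul_apply, smul_eq_mul, Nat.cast_mul] at this
      rwa [show (m : ℤ) * (s.1 i - t.1 i) + q * (s.2 i - t.2 i) =
        m * s.1 i + q * s.2 i - (m * t.1 i + q * t.2 i) by ring]
    refine Prod.ext ((four_cb q 0).1 _ (mem_product.1 hs).1 _ (mem_product.1 ht).1 fun i => ?_)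
      ((four_cb m 0).1 _ (mem_product.1 hs).2 _ (mem_product.1 ht).2 fun i => ?_)
    · simpa only [Pi.add_apply, Pi.zero_apply, add_zero] using hc.dvd_of_dvd_mul_left ((dvd_add_left (dvd_mul_right _ _)).1
        ((dvd_mul_right _ _).trans (e' i)))
    · simpa only [Pi.add_apply, Pi.zero_apply, add_zero] using hc.symm.dvd_of_dvd_mul_left ((dvd_add_right (dvd_mul_right _ _)).1
        ((dvd_mul_left _ _).trans (e' i)))
  · rw [card_product, (four_cb q 0).2, (four_cb m 0).2, mul_pow]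

omit [Fintype ι] in
theorem four_pd {m : ℕ} {η : (ι → ℤ) → ℂ} (h : ∀ a b, η (a + (m : ℤ) • b) = η a) :
    four_Per m η := fun a b e => by
  choose k hk using e
  rw [← h b k]
  congr 1
  funext i
  simp only [Pi.add_apply, Pi.smul_apply, smul_eq_mul, ← hk i]
  ring

end

variable {K : Type} [Field K] [NumberField K]

theorem four_nm_smul (r : ℤ) (α : 𝓞 K) : nm (r • α) = r ^ dg K * nm α := by
  rw [zsmul_eq_mul, nm, map_mul, ← nm_intCast]

theorem four_chi {q : ℕ} (χ : DirichletCharacter ℂ q) :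
    four_Per q fun a : Ix K → ℤ => χ (nm (el K a) : ℤ) := four_pd fun a b => by
  congr 1
  refine (ZMod.intCast_eq_intCast_iff_dvd_sub _ _ _).2 (nm_congr ?_)
  rw [map_add, map_zsmul, sub_add_cancel_left, zsmul_eq_mul]
  exact (dvd_mul_right _ _).neg_right

theorem four_exp {β : (Ix K → ℤ) →ₗ[ℤ] 𝓞 K} (hβ : Dual β) {m : ℕ} (hm : 0 < m) (hD : DD K ∣ m)
    {η : (Ix K → ℤ) → ℂ} (hη : Pd m η) : ∃ w : ℕ → (Ix K → ℤ) → ℂ, (∀ r c, ‖w r c‖ ≤ 1) ∧
      ∀ (q : ℕ) (χ : DirichletCharacter ℂ q), Squarefree q → q.Coprime m → χ.IsPrimitive →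
        ∃ G : ℂ, ‖G‖ ^ 2 * (q : ℝ) ^ dg K ≤ 1 ∧ ∀ a : Ix K → ℤ, χ (nm (el K a) : ℤ) * η a =
          G * ∑ c ∈ cs (Ix K) (q * m), (starRingEnd ℂ) (χ (nm (β c) : ℤ)) * w (q % m) c *
            ch (fun i => c i / (q * m : ℕ)) a := by
  have hm' : (0 : ℝ) < m := Nat.cast_pos.2 hm
  have hmc : (m : ℂ) ≠ 0 := Nat.cast_ne_zero.2 hm.ne'
  have hP := four_pd hη.1
  refine ⟨fun r c => (∑ b ∈ cb (Ix K) m, η ((r : ℤ) • b) * ch (fun i => (-c) i / m) b) /
    (m : ℂ) ^ dg K, fun r c => ?_, fun q χ hq hqm hχ => ?_⟩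
  · rw [norm_div, norm_pow, Complex.norm_natCast, div_le_one (by positivity)]
    refine (norm_sum_le _ _).trans ((sum_le_card_nsmul _ _ 1 fun b _ => ?_).trans ?_)
    · rw [norm_mul, norm_ch, mul_one]
      exact hη.2 _
    · rw [(four_cb m 0).2, card_Ix]
      simp
  have hq0 : 0 < q := Nat.pos_of_ne_zero hq.ne_zero
  have hq' : (0 : ℝ) < q := Nat.cast_pos.2 hq0
  have hqc : (q : ℂ) ≠ 0 := Nat.cast_ne_zero.2 hq0.ne'
  have hN := Nat.mul_pos hq0 hm
  obtain ⟨G, hG, hs⟩ := gauss hβ hq (hqm.coprime_dvd_right hD) χ hχ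
  have hf : four_Per (q * m) fun a => χ (nm (el K a) : ℤ) * η a := fun a b e => by
    simp only [Nat.cast_mul] at e
    have h1 := four_chi χ a b fun i => (dvd_mul_right _ _).trans (e i)
    simp only at h1
    simp only [h1, hP a b fun i => (dvd_mul_left _ _).trans (e i)]
  refine ⟨χ ((m : ℤ) ^ dg K : ℤ) * (starRingEnd ℂ) (χ ((-1 : ℤ) ^ dg K : ℤ)) * G / (q : ℂ) ^ dg K,
    ?_, fun a => ?_⟩
  · have h1 : ‖χ ((m : ℤ) ^ dg K : ℤ) * (starRingEnd ℂ) (χ ((-1 : ℤ) ^ dg K : ℤ)) * G‖ ≤ ‖G‖ := by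
      rw [norm_mul, norm_mul, Complex.norm_conj]
      exact mul_le_of_le_one_left (norm_nonneg _)
        (mul_le_one₀ (χ.norm_le_one _) (norm_nonneg _) (χ.norm_le_one _))
    have h2 := (pow_le_pow_left₀ (norm_nonneg _) h1 2).trans hG
    rw [norm_div, norm_pow, Complex.norm_natCast, div_pow, div_mul_eq_mul_div,
      div_le_one (by positivity), sq ((q : ℝ) ^ dg K)]
    exact mul_le_mul_of_nonneg_right h2 (by positivity)
  have h3 := four_inv hN hf a
  have h4 : ∀ c : Ix K → ℤ,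
      ∑ b ∈ cb (Ix K) (q * m), χ (nm (el K b) : ℤ) * η b * ch (fun i => (-c) i / (q * m : ℕ)) b =
      χ ((m : ℤ) ^ dg K : ℤ) * ((starRingEnd ℂ) (χ ((-1 : ℤ) ^ dg K : ℤ)) *
        (starRingEnd ℂ) (χ (nm (β c) : ℤ)) * G) *
        ∑ b ∈ cb (Ix K) m, η (((q % m : ℕ) : ℤ) • b) * ch (fun i => (-c) i / m) b := fun c => by
    have h5 := four_sum hN (four_cb (q * m) 0) (four_crt hqm)
      (f := fun b => χ (nm (el K b) : ℤ) * η b * ch (fun i => (-c) i / (q * m : ℕ)) b)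
      fun x y e => by
        have h1 := hf x y e
        simp only at h1
        simp only [h1, four_ch]
        rw [four_ec hN (by
          rw [← sum_sub_distrib]
          exact dvd_sum fun i _ => by rw [← mul_sub]; exact (e i).mul_left _)]
    simp only [add_zero] at h5
    rw [h5, ← map_mul, ← map_mul, ← Int.cast_mul, ← four_nm_smul, ← map_zsmul, neg_one_zsmul,
      ← hs, mul_sum (cb _ q), sum_mul_sum, sum_product]
    refine sum_congr rfl fun x _ => sum_congr rfl fun y _ => ?_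
    have h6 := four_chi χ ((m : ℤ) • x + (q : ℤ) • y) ((m : ℤ) • x) fun i => by simp only [zsmul_eq_mul, Int.cast_natCast, Pi.add_apply, Pi.mul_apply, Pi.natCast_apply, Pi.smul_apply, Int.zsmul_eq_mul, add_sub_cancel_left, dvd_mul_right]
    simp only at h6
    have h7 := hP ((m : ℤ) • x + (q : ℤ) • y) (((q % m : ℕ) : ℤ) • y) fun i =>
      ⟨x i + (q / m : ℕ) * y i, by
        have h8 : (q : ℤ) = (q % m : ℕ) + m * (q / m : ℕ) := by
          exact_mod_cast (Nat.mod_add_div q m).symm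
        simp only [Pi.add_apply, Pi.smul_apply, smul_eq_mul]
        linear_combination y i * h8⟩
    have h9 : ch (fun i => ((-c) i : ℝ) / (q * m : ℕ)) ((m : ℤ) • x + (q : ℤ) • y) =
        ch (fun i => (-c) i / q) x * ch (fun i => (-c) i / m) y := by
      rw [ch, ch, ch, ← ec_add, ← sum_add_distrib]
      congr 1
      refine sum_congr rfl fun i _ => ?_
      simp only [Pi.add_apply, Pi.smul_apply, smul_eq_mul]
      push_cast
      field_simp
    simp only [h6, h7, h9]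
    rw [map_zsmul, four_nm_smul, Int.cast_mul, map_mul]
    ring
  simp only [h4] at h3
  rw [card_Ix, Nat.cast_mul, mul_pow] at h3
  refine mul_left_cancel₀ (mul_ne_zero (pow_ne_zero (dg K) hqc) (pow_ne_zero (dg K) hmc))
    (h3.trans ?_)
  rw [mul_sum, mul_sum]
  refine sum_congr rfl fun c _ => ?_
  field_simp

end Pool.Agent.MP_48b1c3_nt.H91

end

-- part MP_48b1c3_nt.H91.AvgL
section

/-! Type I sums on average, lattice version. -/

namespace Pool.Agent.MP_48b1c3_nt.H91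

open Finset NumberField H54 Filter
open scoped ContDiff Topology

variable {K : Type} [Field K] [NumberField K]

theorem avgl_sign : ∃ C : ℝ, 0 < C ∧ ∀ {α : Type} (B : Finset α) (ν : α → ℕ) (y : α → ℂ)
    (N D : ℕ) (Q : Finset ℕ) (ρ W M : ℝ), Q ⊆ Icc 1 (2 * D) → 0 ≤ W → 0 ≤ ρ → 0 ≤ M →
    (∀ c ∈ B, ν c < N) → (∀ k, (#(B.filter fun c => ν c = k) : ℝ) ≤ ρ) → (∀ c ∈ B, ‖y c‖ ≤ W) →
    (N + (D : ℝ) ^ 2) * N ≤ M ^ 2 →
    ∑ i ∈ Xf Q, ‖∑ c ∈ B, i.2 (ν c) * y c‖ ≤ C * D * M * ρ * W := by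
  obtain ⟨C, hC, h⟩ := mult_large_sieve
  refine ⟨4 * (C + 1), by positivity, fun {α} B ν y N D Q ρ W M hQ hW hρ hM hN hr hy hNM => ?_⟩
  let a : ℕ → ℂ := fun k => ∑ c ∈ B.filter fun c => ν c = k, y c
  have ha : ∀ k, ‖a k‖ ≤ ρ * W := fun k =>
    (norm_sum_le _ _).trans <| (sum_le_card_nsmul _ _ W fun c hc => hy c (mem_filter.1 hc).1).trans
      (by rw [nsmul_eq_mul]; exact mul_le_mul_of_nonneg_right (hr k) hW)
  have e : ∀ i : Σ q : ℕ, DirichletCharacter ℂ q,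
      ∑ c ∈ B, i.2 (ν c) * y c = ∑ k ∈ range N, a k * i.2 k := fun i => by
    rw [← sum_fiberwise_of_maps_to (t := range N) (g := ν) fun c hc => mem_range.2 (hN c hc)]
    refine sum_congr rfl fun k _ => ?_
    rw [sum_mul]
    exact sum_congr rfl fun c hc => by rw [(mem_filter.1 hc).2, mul_comm]
  simp only [e]
  have h1 := h (2 * D) N Q (range N) a hQ Subset.rfl
  have h2 : ∑ k ∈ range N, ‖a k‖ ^ 2 ≤ N * (ρ * W) ^ 2 :=
    (sum_le_card_nsmul _ _ _ fun k _ => pow_le_pow_left₀ (norm_nonneg _) (ha k) 2).trans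
      (by simp)
  have h3 : (#(Xf Q) : ℝ) ≤ (2 * D) ^ 2 := by exact_mod_cast card_Xf_le hQ
  refine le_of_sq_le_sq ?_ (by positivity)
  refine sq_sum_le_card_mul_sum_sq.trans ?_
  have h4 : C * (N + ((2 * D : ℕ) : ℝ) ^ 2) * ∑ k ∈ range N, ‖a k‖ ^ 2 ≤
      (C + 1) ^ 2 * (4 * M ^ 2) * (ρ * W) ^ 2 := by
    calc _ ≤ C * (4 * (N + (D : ℝ) ^ 2)) * (N * (ρ * W) ^ 2) := by
          gcongr
          push_cast
          linarith only []
      _ = C * (4 * ((N + (D : ℝ) ^ 2) * N)) * (ρ * W) ^ 2 := by ring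
      _ ≤ _ := by
          gcongr
          nlinarith only []
  calc _ ≤ (2 * D : ℝ) ^ 2 * ((C + 1) ^ 2 * (4 * M ^ 2) * (ρ * W) ^ 2) := by
        gcongr
        exact h1.trans h4
    _ = _ := by ring

theorem avgl_int : ∃ C : ℝ, 0 < C ∧ ∀ {α : Type} (B : Finset α) (ν : α → ℤ) (y : α → ℂ)
    (N D : ℕ) (Q : Finset ℕ) (ρ W M : ℝ), Q ⊆ Ioc D (2 * D) → 1 ≤ D → 0 ≤ W → 0 ≤ ρ → 0 ≤ M →
    (∀ c ∈ B, (ν c).natAbs < N) →
    (∀ k ≠ 0, (#(B.filter fun c => (ν c).natAbs = k) : ℝ) ≤ ρ) → (∀ c ∈ B, ‖y c‖ ≤ W) →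
    (N + (D : ℝ) ^ 2) * N ≤ M ^ 2 →
    ∑ i ∈ Xf Q, ‖∑ c ∈ B, (starRingEnd ℂ) (i.2 (ν c)) * y c‖ ≤ C * D * M * ρ * W := by
  obtain ⟨C, hC, h⟩ := avgl_sign
  refine ⟨2 * C, by positivity, fun {α} B ν y N D Q ρ W M hQ hD hW hρ hM hN hr hy hNM => ?_⟩
  have hQ' : Q ⊆ Icc 1 (2 * D) := fun q hq => by
    have := mem_Ioc.1 (hQ hq)
    exact mem_Icc.2 ⟨by omega, this.2⟩
  have key : ∀ p : α → Prop, ∀ [DecidablePred p], (∀ c, p c → ν c ≠ 0) →
      ∑ i ∈ Xf Q, ‖∑ c ∈ B.filter p, i.2 (ν c).natAbs * (starRingEnd ℂ) (y c)‖ ≤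
        C * D * M * ρ * W := fun p _ hp =>
    h _ (fun c => (ν c).natAbs) _ N D Q ρ W M hQ' hW hρ hM (fun c hc => hN c (mem_filter.1 hc).1)
      (fun k => by
        by_cases hk : k = 0
        · rw [filter_filter, filter_false_of_mem, card_empty, Nat.cast_zero]
          · exact hρ
          · rintro c - ⟨h1, h2⟩
            exact hp c h1 (Int.natAbs_eq_zero.1 (h2.trans hk))
        · exact le_trans (Nat.cast_le.2 (card_le_card (filter_subset_filter _ (filter_subset _ _))))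
            (hr k hk))
      (fun c hc => by rw [Complex.norm_conj]; exact hy c (mem_filter.1 hc).1) hNM
  have h1 := key (fun c => 0 < ν c) fun c hc => hc.ne'
  have h2 := key (fun c => ν c < 0) fun c hc => hc.ne
  refine le_trans (sum_le_sum fun i hi => ?_) (sum_add_distrib.trans_le
    ((add_le_add h1 h2).trans_eq (by ring)))
  have hq : i.1 ≠ 1 := by
    have := mem_Ioc.1 (hQ (mem_Xf.1 hi).1)
    omega
  have e : (starRingEnd ℂ) (∑ c ∈ B, (starRingEnd ℂ) (i.2 (ν c)) * y c) =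
      ∑ c ∈ B.filter fun c => 0 < ν c, i.2 (ν c).natAbs * (starRingEnd ℂ) (y c) +
        i.2 (-1) * ∑ c ∈ B.filter fun c => ν c < 0, i.2 (ν c).natAbs * (starRingEnd ℂ) (y c) := by
    rw [map_sum, mul_sum, sum_filter, sum_filter, ← sum_add_distrib]
    refine sum_congr rfl fun c _ => ?_
    rw [map_mul, Complex.conj_conj]
    rcases lt_trichotomy (ν c) 0 with a | a | a
    · rw [if_neg a.not_gt, if_pos a, zero_add, ← mul_assoc, ← map_mul, ← Int.cast_natCast,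
        Int.natCast_natAbs, abs_of_neg a]
      simp
    · rw [if_neg a.not_gt, if_neg a.not_lt, a, Int.cast_zero, i.2.map_zero' hq]
      simp
    · rw [if_pos a, if_neg a.not_gt, add_zero, ← Int.cast_natCast, Int.natCast_natAbs, abs_of_pos a]
  rw [← Complex.norm_conj, e]
  refine (norm_add_le _ _).trans (add_le_add le_rfl ?_)
  rw [norm_mul]
  exact mul_le_of_le_one_left (norm_nonneg _) (i.2.norm_le_one _)

theorem avgl_coord (β : (Ix K → ℤ) →ₗ[ℤ] 𝓞 K) : ∃ C : ℝ, 1 ≤ C ∧ ∀ (T : ℝ) (c : Ix K → ℤ),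
    0 ≤ T → (∀ i, |(c i : ℝ)| ≤ T) → ∀ j, |((el K).symm (β c) j : ℝ)| ≤ C * T := by
  classical
  let L : (Ix K → ℤ) →ₗ[ℤ] (Ix K → ℤ) := (el K).symm.toLinearMap ∘ₗ β
  let a : Ix K → Ix K → ℝ := fun j i => |(L (fun l => if i = l then 1 else 0) j : ℝ)|
  have ha : ∀ j i, 0 ≤ a j i := fun j i => abs_nonneg _
  have h0 : 0 ≤ ∑ j, ∑ i, a j i := sum_nonneg fun j _ => sum_nonneg fun i _ => ha j i
  refine ⟨1 + ∑ j, ∑ i, a j i, by linarith, fun T c hT hc j => ?_⟩
  have e : (el K).symm (β c) j = ∑ i, c i * L (fun l => if i = l then 1 else 0) j := by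
    have := congrFun (L.pi_apply_eq_sum_univ c) j
    simp only [Finset.sum_apply, Pi.smul_apply, smul_eq_mul] at this
    exact this
  rw [e]
  push_cast
  refine (abs_sum_le_sum_abs _ _).trans ?_
  calc _ ≤ ∑ i, T * a j i := sum_le_sum fun i _ => by
        rw [abs_mul]
        exact mul_le_mul_of_nonneg_right (hc i) (ha j i)
    _ = (∑ i, a j i) * T := by rw [← mul_sum, mul_comm]
    _ ≤ _ := by
        gcongr
        have := single_le_sum (f := fun j => ∑ i, a j i)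
          (fun j _ => sum_nonneg fun i _ => ha j i) (mem_univ j)
        linarith

theorem avgl_dual {β : (Ix K → ℤ) →ₗ[ℤ] 𝓞 K} (hβ : Dual β) {δ : ℝ} (hδ : 0 < δ) :
    ∃ C : ℝ, 0 < C ∧ ∀ (T W s : ℝ) (D : ℕ) (Q : Finset ℕ) (B : Finset (Ix K → ℤ))
      (z : (Ix K → ℤ) → ℂ), 0 ≤ T → 0 ≤ W → 0 ≤ s → s ^ 2 = T ^ dg K → 1 ≤ D →
      Q ⊆ Ioc D (2 * D) → (∀ c ∈ B, ∀ i, |(c i : ℝ)| ≤ T) → (∀ c ∈ B, ‖z c‖ ≤ W) →
      ∑ i ∈ Xf Q, ‖∑ c ∈ B, (starRingEnd ℂ) (i.2 (nm (β c) : ℤ)) * z c‖ ≤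
        C * T ^ δ * W * (D * (s ^ 2 + D * s)) := by
  classical
  obtain ⟨C0, hC0, h0⟩ := avgl_coord β
  obtain ⟨C1, hC1, h1⟩ := nm_le K
  obtain ⟨C2, hC2, h2⟩ := rep_count K hδ
  obtain ⟨C3, hC3, h3⟩ := avgl_int
  obtain ⟨A, hA⟩ : ∃ A, A = C1 * C0 ^ dg K + 1 := ⟨_, rfl⟩
  have hA0 : 0 < C1 * C0 ^ dg K := by positivity
  have hA1 : 1 ≤ A := by linarith
  refine ⟨C3 * A * (C2 * C0 ^ δ), by positivity, fun T W s D Q B z hT hW hs hsT hD hQ hB hz => ?_⟩
  rcases lt_or_ge T 1 with hT1 | hT1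
  · refine le_trans (le_of_eq (sum_eq_zero fun i hi => ?_)) (by positivity)
    rw [norm_eq_zero]
    refine sum_eq_zero fun c hc => ?_
    have hq : i.1 ≠ 1 := by
      have := mem_Ioc.1 (hQ (mem_Xf.1 hi).1)
      omega
    have : c = 0 := funext fun j => by
      have := (hB c hc j).trans_lt hT1
      rw [← Int.cast_abs, ← Int.cast_one, Int.cast_lt] at this
      exact Int.abs_lt_one_iff.1 this
    rw [this, map_zero, nm, Algebra.norm_zero, Int.cast_zero, i.2.map_zero' hq, map_zero, zero_mul]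
  have hs1 : 1 ≤ s ^ 2 := hsT ▸ one_le_pow₀ hT1
  have hCT : 1 ≤ C0 * T := one_le_mul_of_one_le_of_one_le hC0 hT1
  have hN : ((⌊C1 * (C0 * T) ^ dg K⌋₊ + 1 : ℕ) : ℝ) ≤ A * s ^ 2 := by
    have := Nat.floor_le (show 0 ≤ C1 * (C0 * T) ^ dg K by positivity)
    push_cast
    rw [mul_pow, ← hsT] at this ⊢
    rw [hA]
    linarith only [hs1, this]
  have := h3 B (fun c => nm (β c)) z (⌊C1 * (C0 * T) ^ dg K⌋₊ + 1) D Q (C2 * (C0 * T) ^ δ) W
    (A * (s ^ 2 + D * s)) hQ hD hW (by positivity) (by positivity)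
    (fun c hc => Nat.lt_succ_of_le (Nat.le_floor (by
      rw [Nat.cast_natAbs, Int.cast_abs]
      exact h1 _ _ (by positivity) (h0 T c hT (hB c hc)))))
    (fun k hk => by
      rw [← card_image_of_injective _ hβ.inj]
      refine h2 _ k _ hCT hk fun α hα => ?_
      obtain ⟨c, hc, rfl⟩ := mem_image.1 hα
      exact ⟨h0 T c hT (hB c (mem_filter.1 hc).1), (mem_filter.1 hc).2⟩) hz
    (by
      have hD0 : (0 : ℝ) ≤ D := Nat.cast_nonneg D
      calc _ ≤ (A * s ^ 2 + A * (D : ℝ) ^ 2) * (A * s ^ 2) := by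
            gcongr
            exact le_mul_of_one_le_left (by positivity) hA1
        _ = A ^ 2 * (s ^ 4 + (D * s) ^ 2) := by ring
        _ ≤ A ^ 2 * (s ^ 2 + D * s) ^ 2 := by
            gcongr
            linarith only [mul_nonneg (sq_nonneg s) (mul_nonneg hD0 hs)]
        _ = _ := by ring)
  refine this.trans_eq ?_
  rw [Real.mul_rpow (by positivity) hT]
  ring

theorem avgl_mem {ι : Type} [Fintype ι] {N : ℕ} {c : ι → ℤ} :
    c ∈ cs ι N ↔ ∀ i, -((N / 2 : ℕ) : ℤ) ≤ c i ∧ c i < N - (N / 2 : ℕ) := by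
  simp only [cs, Fintype.mem_piFinset, mem_Ico]

theorem avgl_card (ι : Type) [Fintype ι] (N : ℕ) : #(cs ι N) = N ^ Fintype.card ι := by
  classical
  rw [cs, Fintype.card_piFinset, prod_const, card_univ, Int.card_Ico]
  congr 1
  omega

theorem avgl_ls {ι : Type} [Fintype ι] {R H : ℝ} {g : (ι → ℝ) → ℂ} (hg : ∀ x, R < ‖x‖ → g x = 0)
    (hH : 0 < H) {α : Type} (S : Finset α) (G : ℂ) (u : α → ℂ) (θ : α → ι → ℝ) :
    ls (fun a => G * ∑ c ∈ S, u c * ch (θ c) a) g H = G * ∑ c ∈ S, u c * ls (ch (θ c)) g H := by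
  simp only [ls, mul_assoc, sum_mul, tsum_mul_left]
  rw [Summable.tsum_finsetSum fun c _ => (ls_summable hg hH _).mul_left _]
  simp only [tsum_mul_left]

theorem avgl_out {ι : Type} [Fintype ι] {N : ℕ} {c : ι → ℤ} (hc : c ∈ cs ι N) (i : ι) {Y H : ℝ}
    (hH : 0 < H) (hN : 0 < N) (h : N * Y / H ≤ |(c i : ℝ)|) (hY : 0 ≤ Y) :
    Y ≤ H * ‖ec (c i / N) - 1‖ := by
  have hN' : (0 : ℝ) < N := Nat.cast_pos.2 hN
  have h1 : 2 * |c i| ≤ N := by
    have := avgl_mem.1 hc i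
    rcases abs_cases (c i) with a | a <;> omega
  have h2 : 2 * |(c i : ℝ)| ≤ N := by exact_mod_cast h1
  have h3 := norm_ec_sub_one (t := c i / N) (by
    rw [abs_div, abs_of_pos hN', div_le_iff₀ hN']
    linarith only [h2])
  rw [abs_div, abs_of_pos hN'] at h3
  rw [div_le_iff₀ hH] at h
  have h4 : Y ≤ H * (|(c i : ℝ)| / N) := by
    rw [← mul_div_assoc, le_div_iff₀ hN']
    linarith only [h]
  have h5 : 0 ≤ |(c i : ℝ)| / N := by positivity
  nlinarith only [hH, hY, h3, h4]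

theorem avgl_step {ι : Type} [Fintype ι] {c : ι → ℤ} {T : ℝ} (hT : 0 ≤ T)
    (hc : ∀ i, |(c i : ℝ)| ≤ T) {m D t : ℕ} (hm : 0 < m) (hD : 1 ≤ D) (ht : D ≤ t) :
    ‖(fun i => (c i : ℝ) / ((t + 1) * m : ℕ)) - fun i => (c i : ℝ) / (t * m : ℕ)‖ ≤
      T / (m * D ^ 2) := by
  have hm' : (0 : ℝ) < m := Nat.cast_pos.2 hm
  have hD' : (0 : ℝ) < D := Nat.cast_pos.2 hD
  have ht' : (D : ℝ) ≤ t := Nat.cast_le.2 ht
  have ht0 : (0 : ℝ) < t := hD'.trans_le ht'
  refine (pi_norm_le_iff_of_nonneg (by positivity)).2 fun i => ?_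
  have e : (c i : ℝ) / ((t + 1) * m : ℕ) - c i / (t * m : ℕ) = -(c i / (m * (t * (t + 1)))) := by
    push_cast
    field_simp
    ring
  rw [Pi.sub_apply, e, Real.norm_eq_abs, abs_neg, abs_div, abs_of_pos (by positivity : (0 : ℝ) <
    m * (t * (t + 1)))]
  gcongr
  · exact hc i
  · nlinarith only [ht']

theorem avg_lat {m : ℕ} (hm : 0 < m) (hD : DD K ∣ m) {R : ℝ} {g : (Ix K → ℝ) → ℂ}
    (hg : ∀ k, ∃ B, Nice R k B g) {δ : ℝ} (hδ : 0 < δ) : ∃ C : ℝ, 0 < C ∧
      ∀ (η : (Ix K → ℤ) → ℂ) (H : ℝ) (D : ℕ), Pd m η → 1 ≤ H → 1 ≤ D →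
        ∑ i ∈ Xf (Qs m D), ‖ls (fun a => i.2 (nm (el K a) : ℤ) * η a) g H‖ ≤
          C * (D * H) ^ δ * ((D : ℝ) ^ (1 + (dg K : ℝ) / 2) + D ^ 2 * H ^ ((dg K : ℝ) / 2)) := by
  classical
  obtain ⟨β, hβ⟩ := exists_dual K
  obtain ⟨ε, hε, hεδ⟩ : ∃ ε : ℝ, 0 < ε ∧ ε * ((dg K + 2 : ℕ) : ℝ) = δ :=
    ⟨δ / ((dg K + 2 : ℕ) : ℝ), by positivity, by field_simp⟩
  obtain ⟨k, hk⟩ : ∃ k : ℕ, ((dg K + 2 : ℕ) : ℝ) ≤ ε * k :=
    ⟨⌈((dg K + 2 : ℕ) : ℝ) / ε⌉₊, by
      rw [← div_le_iff₀' hε]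
      exact Nat.le_ceil _⟩
  obtain ⟨B, hB⟩ := hg k
  have hB0 : 0 ≤ B := (norm_nonneg _).trans (hB.bd 0 (Nat.zero_le _) 0)
  obtain ⟨C1, hC1, h1⟩ := avgl_dual hβ hε
  obtain ⟨C2, hC2, h2⟩ := ls_triv (Ix K) R
  obtain ⟨C3, hC3, h3⟩ := ls_decay (Ix K) R k
  obtain ⟨C4, hC4, h4⟩ := ls_lip (Ix K) R
  rw [card_Ix] at h2 h3 h4
  have hm1 : (1 : ℝ) ≤ m := Nat.one_le_cast.2 hm
  refine ⟨1 + 4 * C2 * B * 8 ^ dg K + 4 * (2 * m) ^ dg K * C3 * B +
    m * C1 * (m : ℝ) ^ ε * (2 * m) ^ dg K * (C2 * B + 2 * C4 * B), by positivity,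
    fun η H D hη hH hD1 => ?_⟩
  have hD' : (1 : ℝ) ≤ D := Nat.one_le_cast.2 hD1
  have hH0 : 0 < H := by linarith only [hH]
  have hx : 1 ≤ D * H := one_le_mul_of_one_le_of_one_le hD' hH
  obtain ⟨Y, hY⟩ : ∃ Y, Y = (D * H) ^ ε := ⟨_, rfl⟩
  have hY1 : 1 ≤ Y := hY ▸ Real.one_le_rpow hx hε.le
  have hP : (D * H) ^ δ = Y ^ (dg K + 2) := by
    rw [hY, ← Real.rpow_natCast, ← Real.rpow_mul (by positivity), hεδ]
  have hYk : (D * H) ^ (dg K + 2) ≤ Y ^ k := by
    rw [hY, ← Real.rpow_natCast, ← Real.rpow_natCast, ← Real.rpow_mul (by positivity)]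
    exact Real.rpow_le_rpow_of_exponent_le hx hk
  have sq : ∀ x : ℝ, 0 ≤ x → (x ^ ((dg K : ℝ) / 2)) ^ 2 = x ^ dg K := fun x hx => by
    rw [← Real.rpow_natCast, ← Real.rpow_mul hx, ← Real.rpow_natCast]
    congr 1
    push_cast
    ring
  rw [hP, Real.rpow_add (by positivity), Real.rpow_one]
  have hd2 := sq D (by positivity)
  have hh2 := sq H hH0.le
  have hd1 : 1 ≤ (D : ℝ) ^ ((dg K : ℝ) / 2) := Real.one_le_rpow hD' (by positivity)
  have hh1 : 1 ≤ H ^ ((dg K : ℝ) / 2) := Real.one_le_rpow hH (by positivity)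
  generalize (D : ℝ) ^ ((dg K : ℝ) / 2) = d at hd2 hd1 ⊢
  generalize H ^ ((dg K : ℝ) / 2) = h at hh2 hh1 ⊢
  have hQ : Qs m D ⊆ Ioc D (2 * D) := filter_subset _ _
  have hX : (#(Xf (Qs m D)) : ℝ) ≤ 4 * D ^ 2 := by
    have := card_Xf_le (Q := 2 * D) (T := Qs m D) fun q hq => by
      have := mem_Ioc.1 (hQ hq)
      exact mem_Icc.2 ⟨by omega, this.2⟩
    calc _ ≤ (((2 * D) ^ 2 : ℕ) : ℝ) := Nat.cast_le.2 this
      _ = _ := by push_cast; ring
  have hZ : 1 ≤ D * d + D ^ 2 * h :=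
    le_add_of_le_of_nonneg (one_le_mul_of_one_le_of_one_le hD' hd1) (by positivity)
  have hYn : Y ^ dg K ≤ Y ^ (dg K + 2) := pow_le_pow_right₀ hY1 (by omega)
  have hYn1 : 1 ≤ Y ^ (dg K + 2) := one_le_pow₀ hY1
  rcases le_or_gt H (8 * Y) with hc | hc
  · have e1 : h ≤ 8 ^ dg K * Y ^ (dg K + 2) := by
      have : H ^ dg K ≤ (8 * Y) ^ dg K := pow_le_pow_left₀ hH0.le hc _
      rw [mul_pow] at this
      calc h ≤ h ^ 2 := by nlinarith only [hh1]
        _ ≤ 8 ^ dg K * Y ^ dg K := hh2 ▸ this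
        _ ≤ _ := by gcongr
    calc _ ≤ #(Xf (Qs m D)) • (C2 * B * H ^ dg K) :=
          sum_le_card_nsmul _ _ _ fun i _ => h2 k B H g _ hB hH fun a => by
            rw [norm_mul]
            exact mul_le_one₀ (i.2.norm_le_one _) (norm_nonneg _) (hη.2 a)
      _ ≤ 4 * D ^ 2 * (C2 * B * (h * h)) := by
          rw [nsmul_eq_mul, ← hh2, pow_two h]
          gcongr
      _ ≤ 4 * D ^ 2 * (C2 * B * (h * (8 ^ dg K * Y ^ (dg K + 2)))) := by gcongr
      _ = 4 * C2 * B * 8 ^ dg K * Y ^ (dg K + 2) * (D ^ 2 * h) := by ring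
      _ ≤ _ := by
          gcongr
          · have : 0 ≤ 4 * (2 * m : ℝ) ^ dg K * C3 * B +
              m * C1 * (m : ℝ) ^ ε * (2 * m) ^ dg K * (C2 * B + 2 * C4 * B) := by positivity
            linarith only [this]
          · exact le_add_of_nonneg_left (by positivity)
  obtain ⟨w, hw, hexp⟩ := four_exp hβ hm hD hη
  obtain ⟨T, hT⟩ : ∃ T : ℝ, T = 2 * m * D * Y / H := ⟨_, rfl⟩
  have hT0 : 0 ≤ T := by rw [hT]; positivity
  have hT4 : 4 * T < D * m := by
    rw [hT, ← mul_div_assoc, div_lt_iff₀ hH0]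
    nlinarith only [mul_pos (show (0 : ℝ) < D by linarith only [hD']) (show (0 : ℝ) < m by linarith only [hm1]), hc]
  obtain ⟨s, hs0, hs⟩ : ∃ s : ℝ, 0 ≤ s ∧ s ^ 2 = T ^ dg K := ⟨_, by positivity, sq T hT0⟩
  let F : ℕ → (Ix K → ℤ) → ℂ := fun t c => ls (ch fun i => (c i : ℝ) / (t * m : ℕ)) g H
  let S := (cs (Ix K) (D * m)).filter fun c => ∀ i, |(c i : ℝ)| ≤ T
  have hS : ∀ c ∈ S, ∀ i, |(c i : ℝ)| ≤ T := fun c hc => (mem_filter.1 hc).2
  have hSq : ∀ q, D ≤ q → ((cs (Ix K) (q * m)).filter fun c => ∀ i, |(c i : ℝ)| ≤ T) = S := by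
    have key : ∀ q, D ≤ q → ∀ c : Ix K → ℤ, (∀ i, |(c i : ℝ)| ≤ T) → c ∈ cs (Ix K) (q * m) :=
      fun q hq c hc => avgl_mem.2 fun i => by
        have a1 : 4 * |(c i : ℝ)| < ((D * m : ℕ) : ℝ) := by
          push_cast
          linarith only [hc i, hT4]
        have a2 : 4 * |c i| < ((D * m : ℕ) : ℤ) := by exact_mod_cast a1
        have a3 : D * m ≤ q * m := Nat.mul_le_mul_right _ hq
        rcases abs_cases (c i) with a | a <;> omega
    intro q hq
    ext c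
    simp only [S, mem_filter]
    exact ⟨fun a => ⟨key D le_rfl c a.2, a.2⟩, fun a => ⟨key q hq c a.2, a.2⟩⟩
  let A : ℕ → (Σ q : ℕ, DirichletCharacter ℂ q) → ℝ := fun r i =>
    ‖∑ c ∈ S, (starRingEnd ℂ) (i.2 (nm (β c) : ℤ)) * (w r c * F D c)‖
  let A' : ℕ → ℕ → (Σ q : ℕ, DirichletCharacter ℂ q) → ℝ := fun r t i =>
    ‖∑ c ∈ S, (starRingEnd ℂ) (i.2 (nm (β c) : ℤ)) * (w r c * (F (t + 1) c - F t c))‖
  have one : ∀ i ∈ Xf (Qs m D), ‖ls (fun a => i.2 (nm (el K a) : ℤ) * η a) g H‖ ≤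
      d⁻¹ * ∑ r ∈ range m, (A r i + ∑ t ∈ Ico D (2 * D), A' r t i) +
        (2 * D * m) ^ dg K * (C3 * B * H ^ dg K / Y ^ k) := by
    rintro ⟨q, χ⟩ hi
    obtain ⟨hq, hχ⟩ := mem_Xf.1 hi
    obtain ⟨hq1, hq2, hq3⟩ := mem_filter.1 hq
    obtain ⟨hq4, hq5⟩ := mem_Ioc.1 hq1
    dsimp only at hq2 hq3 hq4 hq5 hχ ⊢
    obtain ⟨G, hG, e⟩ := hexp q χ hq2 hq3 hχ
    have hq6 : (D : ℝ) ≤ q := Nat.cast_le.2 hq4.le
    have hq7 : (q : ℝ) ≤ 2 * D := by exact_mod_cast hq5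
    have hG1 : ‖G‖ ≤ d⁻¹ := by
      rw [← one_div, le_div_iff₀ (by linarith only [hd1]), ← sq_le_one_iff₀ (by positivity), mul_pow, hd2]
      exact le_trans (by gcongr) hG
    have hG2 : ‖G‖ ≤ 1 := hG1.trans (inv_le_one_of_one_le₀ hd1)
    rw [funext e, avgl_ls hB.supp hH0, ← sum_filter_add_sum_filter_not _
      (fun c => ∀ i, |(c i : ℝ)| ≤ T), hSq q hq4.le, mul_add]
    refine (norm_add_le _ _).trans (add_le_add ?_ ?_)
    · rw [norm_mul]
      refine mul_le_mul hG1 (le_trans ?_ (single_le_sum (f := fun r =>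
        A r ⟨q, χ⟩ + ∑ t ∈ Ico D (2 * D), A' r t ⟨q, χ⟩) (fun r _ => add_nonneg (norm_nonneg _)
          (sum_nonneg fun t _ => norm_nonneg _)) (mem_range.2 (Nat.mod_lt q hm))))
        (norm_nonneg _) (by positivity)
      have e2 : ∑ c ∈ S, (starRingEnd ℂ) (χ (nm (β c) : ℤ)) * w (q % m) c * F q c =
          ∑ c ∈ S, (starRingEnd ℂ) (χ (nm (β c) : ℤ)) * (w (q % m) c * F D c) +
            ∑ t ∈ Ico D q, ∑ c ∈ S, (starRingEnd ℂ) (χ (nm (β c) : ℤ)) *
              (w (q % m) c * (F (t + 1) c - F t c)) := by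
        rw [sum_comm, ← sum_add_distrib]
        refine sum_congr rfl fun c _ => ?_
        rw [← mul_sum, ← mul_sum, sum_Ico_sub (fun t => F t c) hq4.le]
        ring
      refine (congrArg norm e2).trans_le ((norm_add_le _ _).trans (add_le_add le_rfl ?_))
      exact (norm_sum_le _ _).trans (sum_le_sum_of_subset_of_nonneg (Ico_subset_Ico_right hq5)
        fun _ _ _ => norm_nonneg _)
    · rw [norm_mul]
      refine (mul_le_of_le_one_left (norm_nonneg _) hG2).trans ((norm_sum_le _ _).trans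
        ((sum_le_card_nsmul _ _ (C3 * B * H ^ dg K / Y ^ k) fun c hc => ?_).trans ?_))
      · obtain ⟨c1, c2⟩ := mem_filter.1 hc
        obtain ⟨j, hj⟩ := not_forall.1 c2
        have a1 := avgl_out c1 j hH0 (Nat.mul_pos (by omega) hm) (Y := Y) (le_trans (by
          rw [hT, show (2 * m * D : ℝ) = 2 * D * m by ring, Nat.cast_mul]
          gcongr) (not_le.1 hj).le) (by linarith only [hY1])
        have a2 := h3 B H g (fun i => (c i : ℝ) / (q * m : ℕ)) j hB hH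
        rw [norm_mul, norm_mul, Complex.norm_conj]
        refine (mul_le_of_le_one_left (norm_nonneg _)
          (mul_le_one₀ (χ.norm_le_one _) (norm_nonneg _) (hw _ _))).trans ?_
        rw [le_div_iff₀ (by positivity)]
        exact le_trans (by gcongr) a2
      · rw [nsmul_eq_mul]
        gcongr
        calc _ ≤ (#(cs (Ix K) (q * m)) : ℝ) := Nat.cast_le.2 (card_filter_le _ _)
          _ = (q * m) ^ dg K := by rw [avgl_card, card_Ix]; push_cast; ring
          _ ≤ _ := by gcongr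
  have hA : ∀ r, ∑ i ∈ Xf (Qs m D), A r i ≤
      C1 * T ^ ε * (C2 * B * h ^ 2) * (D * (s ^ 2 + D * s)) := fun r =>
    h1 T _ s D _ S _ hT0 (by positivity) hs0 hs hD1 hQ hS fun c _ => by
      rw [norm_mul, hh2]
      exact (mul_le_of_le_one_left (norm_nonneg _) (hw _ _)).trans
        (h2 k B H g _ hB hH fun a => (norm_ch _ a).le)
  have hA' : ∀ r, ∀ t ∈ Ico D (2 * D), ∑ i ∈ Xf (Qs m D), A' r t i ≤
      C1 * T ^ ε * (2 * C4 * B * h ^ 2 * Y / D) * (D * (s ^ 2 + D * s)) := fun r t ht =>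
    h1 T _ s D _ S _ hT0 (by positivity) hs0 hs hD1 hQ hS fun c hc => by
      rw [norm_mul, hh2]
      refine (mul_le_of_le_one_left (norm_nonneg _) (hw _ _)).trans
        ((h4 k B H g _ _ hB hH).trans ?_)
      refine (mul_le_mul_of_nonneg_left (avgl_step hT0 (hS c hc) hm hD1 (mem_Ico.1 ht).1)
        (by positivity)).trans_eq ?_
      rw [hT]
      field_simp
      ring
  obtain ⟨u, hu⟩ : ∃ u : ℝ, u = (2 * m) ^ dg K * Y ^ dg K := ⟨_, rfl⟩
  have hu1 : 1 ≤ u := hu ▸ one_le_mul_of_one_le_of_one_le (one_le_pow₀ (by linarith only [hm1]))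
    (one_le_pow₀ hY1)
  have hsh : (s * h) ^ 2 = u * d ^ 2 := by
    rw [mul_pow, hs, hh2, hd2, hu, ← mul_pow, ← mul_pow, ← mul_pow, hT]
    congr 1
    field_simp
  have hsh' : s * h ≤ u * d := by
    refine le_of_sq_le_sq ?_ (by positivity)
    rw [hsh, mul_pow]
    gcongr
    nlinarith only [hu1]
  have hTe : T ^ ε ≤ (m : ℝ) ^ ε * Y := by
    rw [hY, ← Real.mul_rpow (by positivity) (by positivity)]
    refine Real.rpow_le_rpow hT0 ?_ hε.le
    linarith only [mul_le_mul_of_nonneg_left hH (show (0 : ℝ) ≤ m * D by positivity), hT0, hT4]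
  have hmain : d⁻¹ * (h ^ 2 * (D * (s ^ 2 + D * s))) ≤ u * (D * d + D ^ 2 * h) := by
    rw [inv_mul_le_iff₀ (by linarith only [hd1])]
    calc _ = D * ((s * h) ^ 2 + D * h * (s * h)) := by ring
      _ ≤ D * (u * d ^ 2 + D * h * (u * d)) := by rw [hsh]; gcongr
      _ = _ := by ring
  have hout : 4 * (D : ℝ) ^ 2 * ((2 * D * m) ^ dg K * (C3 * B * H ^ dg K / Y ^ k)) ≤
      4 * (2 * m) ^ dg K * C3 * B := by
    calc _ = 4 * (2 * m) ^ dg K * C3 * B * ((D : ℝ) ^ (dg K + 2) * H ^ dg K / Y ^ k) := by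
          simp only [mul_pow]
          ring
      _ ≤ 4 * (2 * m) ^ dg K * C3 * B * 1 := by
          gcongr
          rw [div_le_one (by positivity)]
          refine le_trans ?_ hYk
          rw [mul_pow]
          gcongr
          omega
      _ = _ := mul_one _
  calc _ ≤ _ := sum_le_sum one
    _ = d⁻¹ * ∑ r ∈ range m, (∑ i ∈ Xf (Qs m D), A r i +
          ∑ t ∈ Ico D (2 * D), ∑ i ∈ Xf (Qs m D), A' r t i) +
          #(Xf (Qs m D)) * ((2 * D * m) ^ dg K * (C3 * B * H ^ dg K / Y ^ k)) := by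
        rw [sum_add_distrib, ← mul_sum, sum_comm, sum_const, nsmul_eq_mul]
        simp only [sum_add_distrib, sum_comm (s := Xf (Qs m D))]
    _ ≤ d⁻¹ * ∑ r ∈ range m, (C1 * T ^ ε * (C2 * B * h ^ 2) * (D * (s ^ 2 + D * s)) +
          ∑ t ∈ Ico D (2 * D), C1 * T ^ ε * (2 * C4 * B * h ^ 2 * Y / D) * (D * (s ^ 2 + D * s))) +
          4 * D ^ 2 * ((2 * D * m) ^ dg K * (C3 * B * H ^ dg K / Y ^ k)) := by
        gcongr with r _ t ht
        · exact hA r
        · exact hA' r t ht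
    _ = m * C1 * T ^ ε * (C2 * B + 2 * C4 * B * Y) * (d⁻¹ * (h ^ 2 * (D * (s ^ 2 + D * s)))) +
          4 * D ^ 2 * ((2 * D * m) ^ dg K * (C3 * B * H ^ dg K / Y ^ k)) := by
        rw [sum_const, sum_const, card_range, Nat.card_Ico, show 2 * D - D = D by omega,
          nsmul_eq_mul, nsmul_eq_mul]
        field_simp
    _ ≤ m * C1 * ((m : ℝ) ^ ε * Y) * (C2 * B * Y + 2 * C4 * B * Y) * (u * (D * d + D ^ 2 * h)) +
          4 * (2 * m) ^ dg K * C3 * B * (Y ^ (dg K + 2) * (D * d + D ^ 2 * h)) := by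
        refine add_le_add ?_ (hout.trans (le_mul_of_one_le_right (by positivity)
          (one_le_mul_of_one_le_of_one_le hYn1 hZ)))
        have a1 : C2 * B ≤ C2 * B * Y := le_mul_of_one_le_right (by positivity) hY1
        exact mul_le_mul (mul_le_mul (by gcongr) (add_le_add a1 le_rfl) (by positivity)
          (by positivity)) hmain (by positivity) (by positivity)
    _ = (4 * (2 * m) ^ dg K * C3 * B +
          m * C1 * (m : ℝ) ^ ε * (2 * m) ^ dg K * (C2 * B + 2 * C4 * B)) * Y ^ (dg K + 2) *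
          (D * d + D ^ 2 * h) := by
        rw [hu]
        ring
    _ ≤ _ := by
        gcongr
        have : 0 ≤ 4 * C2 * B * 8 ^ dg K := by positivity
        linarith only [this]

end Pool.Agent.MP_48b1c3_nt.H91

end

-- part MP_48b1c3_nt.H91.AvgI
section

/-! Type I sums on average. -/

namespace Pool.Agent.MP_48b1c3_nt.H91

open Finset NumberField H54 Filter
open scoped ContDiff Topology

variable {K : Type} [Field K] [NumberField K]

theorem avgi_Qs {M B : ℕ} (hB : B ∣ M) (D : ℕ) : Qs (M * B) D = Qs M D := by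
  unfold Qs
  refine filter_congr fun q _ => and_congr_right fun _ => ?_
  rw [Nat.coprime_mul_iff_right]
  exact ⟨fun h => h.1, fun h => ⟨h, h.coprime_dvd_right hB⟩⟩

theorem avgi_lift {q : ℕ} (χ : DirichletCharacter ℂ q) (g : Ideal (𝓞 K) → ℂ) (b : Ideal (𝓞 K))
    (hb : χ (Ideal.absNorm b : ℕ) ≠ 0) (s : Bool) (α : 𝓞 K) (hα : 0 < sg s * nm α) :
    lift (fun I => g I * χ (Ideal.absNorm I : ℕ)) b α =
      χ (sg s : ℤ) / χ (Ideal.absNorm b : ℕ) * (χ (nm α : ℤ) * lift g b α) := by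
  rcases lift_cases b α with ⟨h, -⟩ | ⟨-, -, a, ha, h⟩
  · rw [h, h]; simp only [mul_zero]
  · rw [h, h]
    have h1 : Ideal.absNorm a * Ideal.absNorm b = (nm α).natAbs := by
      rw [← map_mul, ha, Ideal.absNorm_span_singleton]
    have h2 : ((Ideal.absNorm a * Ideal.absNorm b : ℕ) : ℤ) = sg s * nm α := by
      rw [h1, Int.natCast_natAbs]
      cases s
      · simp only [sg, Bool.false_eq_true, if_false] at hα ⊢
        rw [abs_of_neg (by linarith only [hα])]; ring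
      · simp only [sg, if_true] at hα ⊢
        rw [abs_of_pos (by linarith only [hα])]; ring
    have h3 : χ (Ideal.absNorm a : ℕ) * χ (Ideal.absNorm b : ℕ) = χ (sg s : ℤ) * χ (nm α : ℤ) := by
      rw [← map_mul, ← map_mul, ← Int.cast_mul, ← h2, ← Nat.cast_mul, Int.cast_natCast]
    field_simp
    linear_combination g a * h3

theorem avgi_one (G : Geo K) {M : ℕ} (hB : BB K ∣ M) (F : Ideal (𝓞 K) → ℂ) {v : ℝ → ℂ}
    (hv : Test v) {η : ClassGroup (𝓞 K) → Bool → (Ix K → ℤ) → ℂ}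
    (hη : ∀ c s a, 0 < sg s * nm (el K a) → η c s a = lift F (rep c) (el K a))
    {q : ℕ} (χ : DirichletCharacter ℂ q) (hq : q.Coprime M) {y : ℝ} (hy : 1 ≤ y) :
    ‖sm (fun m => push F m * χ m) v y‖ ≤
      ∑ c, ∑ s, ‖ls (fun a => χ (nm (el K a) : ℤ) * η c s a) (G.g v s) (Hc y c)‖ := by
  have e1 : (fun m : ℕ => push F m * χ m) =
      fun m => push (fun I => F I * χ (Ideal.absNorm I : ℕ)) m :=
    funext fun m => (push_mul_norm F (fun n : ℕ => χ n) m).symm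
  rw [e1]
  have e2 := G.decomp (fun I => F I * χ (Ideal.absNorm I : ℕ)) hv (y := y) (by linarith only [hy])
  refine (congrArg norm e2).le.trans ((norm_sum_le _ _).trans (sum_le_sum fun c _ =>
    (norm_sum_le _ _).trans (sum_le_sum fun s _ => ?_)))
  have hcop : (Ideal.absNorm (rep c)).Coprime q :=
    (hq.coprime_dvd_right ((rep_dvd_BB c).trans hB)).symm
  have hu : ‖χ (Ideal.absNorm (rep c) : ℕ)‖ = 1 := by
    have := χ.unit_norm_eq_one (ZMod.unitOfCoprime _ hcop)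
    simpa only [ZMod.coe_unitOfCoprime] using this
  have hne : χ (Ideal.absNorm (rep c) : ℕ) ≠ 0 := by
    intro h; rw [h] at hu; simp at hu
  have hH : 0 < Hc y c := lt_of_lt_of_le one_pos (one_le_Hc hy c)
  rw [G.ls_congr v s hH (η' := fun a => χ (sg s : ℤ) / χ (Ideal.absNorm (rep c) : ℕ) *
    (χ (nm (el K a) : ℤ) * η c s a)) fun a ha => by
      rw [avgi_lift χ _ _ hne s _ ha, hη c s a ha]]
  unfold ls
  simp only [mul_assoc (χ (sg s : ℤ) / χ (Ideal.absNorm (rep c) : ℕ))]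
  rw [tsum_mul_left, norm_mul, norm_div, hu, div_one]
  exact mul_le_of_le_one_left (norm_nonneg _) (χ.norm_le_one _)

theorem avgi_Hc {y : ℝ} (hy : 1 ≤ y) (c : ClassGroup (𝓞 K)) :
    Hc y c ≤ y * BB K ∧ Hc y c ^ ((dg K : ℝ) / 2) ≤ BB K * √y := by
  have h1 := one_le_Hc hy c
  have hB : (1 : ℝ) ≤ BB K := by exact_mod_cast BB_pos K
  have h2 : Hc y c ^ dg K ≤ y * BB K := by
    rw [Hc_pow (by linarith)]
    gcongr
    exact_mod_cast Nat.le_of_dvd (BB_pos K) (rep_dvd_BB c)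
  refine ⟨(le_self_pow₀ h1 (dg_pos K).ne').trans h2, ?_⟩
  have h3 : Hc y c ^ ((dg K : ℝ) / 2) = √(Hc y c ^ dg K) := by
    rw [Real.sqrt_eq_rpow, ← Real.rpow_natCast, ← Real.rpow_mul (by linarith)]
    congr 1; ring
  rw [h3]
  refine (Real.sqrt_le_sqrt h2).trans ?_
  rw [Real.sqrt_mul (by linarith only [hy]), mul_comm]
  gcongr
  rw [Real.sqrt_le_left (by linarith only [hB])]
  nlinarith only [hB]

theorem avg_I {M : ℕ} (hM : 0 < M) (hD : DD K ∣ M) (hB : BB K ∣ M)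
    {F : Ideal (𝓞 K) → ℂ} (hF : PF M F) {v : ℝ → ℂ} (hv : Test v) {δ : ℝ} (hδ : 0 < δ) :
    ∃ C : ℝ, ∀ (y : ℝ) (D : ℕ), 1 ≤ y → 1 ≤ D →
      ∑ i ∈ Xf (Qs M D), ‖sm (fun m => push F m * i.2 m) v y‖ ≤
        C * (D * y) ^ δ * ((D : ℝ) ^ (1 + (dg K : ℝ) / 2) + D ^ 2 * √y) := by
  obtain ⟨G⟩ := geo_nonempty K
  choose η hη using fun c s => exists_per hF c s
  have hg : ∀ s k, ∃ B, Nice G.R k B (G.g v s) := fun s k => by
    obtain ⟨C, -, hC⟩ := G.nice k
    obtain ⟨B, -, hB⟩ := Test.db hv k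
    exact ⟨_, hC v B s hv hB⟩
  choose C hC0 hC using fun s => avg_lat (K := K) (m := M * BB K) (Nat.mul_pos hM (BB_pos K))
    (hD.mul_right _) (hg s) hδ
  have hB1 : (1 : ℝ) ≤ BB K := by exact_mod_cast BB_pos K
  refine ⟨∑ _c : ClassGroup (𝓞 K), ∑ s, C s * (BB K : ℝ) ^ δ * BB K, fun y D hy hD1 => ?_⟩
  have hD0 : (1 : ℝ) ≤ D := by exact_mod_cast hD1
  refine (sum_le_sum fun i hi => avgi_one G hB F hv (fun c s => (hη c s).2) i.2
    (mem_filter.1 (mem_Xf.1 hi).1).2.2 hy).trans ?_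
  rw [sum_comm, sum_mul, sum_mul]
  refine sum_le_sum fun c _ => ?_
  rw [sum_comm, sum_mul, sum_mul]
  refine sum_le_sum fun s _ => ?_
  have h := hC s (η c s) (Hc y c) D (hη c s).1 (one_le_Hc hy c) hD1
  rw [avgi_Qs hB] at h
  refine h.trans ?_
  obtain ⟨h1, h2⟩ := avgi_Hc hy c
  have hH := one_le_Hc hy c
  have h3 : ((D : ℝ) * Hc y c) ^ δ ≤ (BB K : ℝ) ^ δ * (D * y) ^ δ := by
    rw [← Real.mul_rpow (by linarith only [hB1]) (by positivity)]
    refine Real.rpow_le_rpow (by positivity) ?_ hδ.le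
    nlinarith only [h1]
  have h4 : (D : ℝ) ^ (1 + (dg K : ℝ) / 2) + D ^ 2 * Hc y c ^ ((dg K : ℝ) / 2) ≤
      BB K * ((D : ℝ) ^ (1 + (dg K : ℝ) / 2) + D ^ 2 * √y) := by
    have h5 : (0 : ℝ) ≤ (D : ℝ) ^ (1 + (dg K : ℝ) / 2) := by positivity
    have h6 : (D : ℝ) ^ 2 * Hc y c ^ ((dg K : ℝ) / 2) ≤ D ^ 2 * (BB K * √y) := by gcongr
    nlinarith only [hB1, h5, h6]
  have hc := hC0 s
  calc _ ≤ C s * ((BB K : ℝ) ^ δ * (D * y) ^ δ) *
        (BB K * ((D : ℝ) ^ (1 + (dg K : ℝ) / 2) + D ^ 2 * √y)) := by gcongr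
    _ = _ := by ring

end Pool.Agent.MP_48b1c3_nt.H91

end

-- part MP_48b1c3_nt.H91.SW
section

/-! The theorem of Siegel and Walfisz for Hecke characters. -/

namespace Pool.Agent.MP_48b1c3_nt.H91

open Finset NumberField H54 Filter
open scoped ContDiff Topology

variable {K : Type} [Field K] [NumberField K]

section

variable {S : Set (ℕ × (Ideal (𝓞 K) → ℂ))}

/-- the smoothed sums with logarithmic weights -/
noncomputable def swk_S (j : ℕ) (v : ℝ → ℂ) (f : ℕ → ℂ) (x : ℝ) : ℂ :=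
  ∑ n ∈ Icc 1 ⌊x⌋₊,
    (Real.log n : ℂ) ^ j * f n * v (Real.log (n / x))

theorem swk_summable (k : ℕ) {f : Ideal (𝓞 K) → ℂ} (hf : ∀ I, ‖f I‖ ≤ 1) : ∀ s : ℂ, 1 < s.re →
    LSeriesSummable (fun n => (Real.log n : ℂ) ^ k * pushL f n) s := by
  induction k with
  | zero =>
    intro s hs
    simpa only [pow_zero, one_mul] using pushL_summable hf hs
  | succ k ih =>
    intro s hs
    have h1 := LSeries.abscissaOfAbsConv_le_of_forall_lt_LSeriesSummable (x := 1)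
      (f := fun n => (Real.log n : ℂ) ^ k * pushL f n)
      fun y hy => ih y (by simpa using hy)
    have := LSeriesSummable_logMul_of_lt_re (s := s) (h1.trans_lt (by exact_mod_cast hs))
    refine (congrArg (fun g => LSeriesSummable g s) (funext fun n => ?_)).mp this
    rw [LSeries.logMul, Complex.natCast_log]
    ring

theorem swk_term (b : ℕ → ℂ) (hb : b 0 = 0) (δ t : ℝ) (n : ℕ) :
    LSeries.term b (1 + δ - Complex.I * t) n =
      b n * Complex.exp (-(1 + δ) * Real.log n) * Complex.exp (Complex.I * t * Real.log n) := by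
  rcases eq_or_ne n 0 with rfl | hn
  · simp [hb]
  · rw [LSeries.term_of_ne_zero hn, Complex.cpow_def_of_ne_zero (Nat.cast_ne_zero.2 hn),
      div_eq_mul_inv, ← Complex.exp_neg, mul_assoc, ← Complex.exp_add, Complex.natCast_log]
    congr 2
    ring

open MeasureTheory in
theorem swk_analytic (hS : Fam S) (k : ℕ) {ε : ℝ} (hε : 0 < ε) {v : ℝ → ℂ} (hv : Test v) :
    ∃ C : ℝ, 0 < C ∧ ∀ x : ℝ, 0 < x → ∀ p ∈ S,
      ‖swk_S k v (pushL p.2) x‖ ≤ C * x * (p.1 : ℝ) ^ ε := by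
  have hV : Test fun u => Complex.exp u * v u :=
    hv.mul (Complex.contDiff_exp.comp Complex.ofRealCLM.contDiff)
  obtain ⟨φ, φc, φi, hφ⟩ := hV.rep
  obtain ⟨C, j, C0, hC⟩ := logder hS k hε
  have φ0 : Integrable φ := by
    have := φi 0
    simp only [pow_zero, one_mul] at this
    exact (integrable_norm_iff φc.aestronglyMeasurable).1 this
  set J := ∫ t : ℝ, (|t| + 2) ^ j * ‖φ t‖ with hJ
  have K0 : 0 ≤ J := integral_nonneg fun t => by positivity
  refine ⟨C * J + 1, by positivity, fun x hx p hp => ?_⟩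
  set b : ℕ → ℂ := fun n => (Real.log n : ℂ) ^ k * pushL p.2 n with hb
  have b0 : b 0 = 0 := by simp [hb]
  set T : ℝ → ℂ := fun δ => ∑ n ∈ Icc 1 ⌊x⌋₊, b n * Complex.exp (-(1 + δ) * Real.log n) *
    (Complex.exp (Real.log (n / x) : ℝ) * v (Real.log (n / x))) with hT
  have key : ∀ δ : ℝ, 0 < δ → δ ≤ 1 → ‖T δ‖ ≤ C * J * (p.1 : ℝ) ^ ε := by
    intro δ d0 d1
    set F : ℕ → ℝ → ℂ := fun n t => φ t * Complex.exp (-(Complex.I * t * Real.log x)) *
      LSeries.term b (1 + δ - Complex.I * t) n with hF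
    have nE : ∀ t y : ℝ, ‖Complex.exp (Complex.I * t * y)‖ = 1 := fun t y => by
      rw [Complex.norm_exp]; simp
    have nE' : ∀ t y : ℝ, ‖Complex.exp (-(Complex.I * t * y))‖ = 1 := fun t y => by
      rw [Complex.norm_exp]; simp
    have nF : ∀ n t, ‖F n t‖ = ‖LSeries.term b (1 + δ - Complex.I * (0 : ℝ)) n‖ * ‖φ t‖ :=
      fun n t => by
        simp only [hF, swk_term b b0, norm_mul, nE, nE']
        ring
    have cF : ∀ n, Continuous (F n) := fun n => by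
      simp only [hF, swk_term b b0]
      fun_prop
    have iF : ∀ n, Integrable (F n) := fun n =>
      (φ0.norm.const_mul _).mono' (cF n).aestronglyMeasurable
        (Filter.Eventually.of_forall fun t => (nF n t).le)
    have sF : Summable fun n => ∫ t, ‖F n t‖ := by
      simp only [nF, integral_const_mul]
      exact (swk_summable k (hS.1 p hp).1.le _ (by simpa using d0)).norm.mul_right _
    have hs := hasSum_integral_of_summable_integral_norm iF sF
    have eF : ∀ n, ∫ t, F n t = b n * Complex.exp (-(1 + δ) * Real.log n) *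
        (Complex.exp (Real.log (n / x) : ℝ) * v (Real.log (n / x))) := fun n => by
      rcases eq_or_ne n 0 with rfl | hn
      · simp [hF, b0]
      · rw [hφ, ← integral_const_mul]
        refine integral_congr_ae (Filter.Eventually.of_forall fun t => ?_)
        simp only [hF, swk_term b b0]
        rw [Real.log_div (Nat.cast_ne_zero.2 hn) hx.ne', Complex.ofReal_sub, mul_sub,
          sub_eq_add_neg, Complex.exp_add]
        ring
    simp only [eF] at hs
    have hs' : HasSum (fun n : ℕ => b n * Complex.exp (-(1 + δ) * Real.log n) *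
        (Complex.exp (Real.log (n / x) : ℝ) * v (Real.log (n / x)))) (T δ) := by
      refine hasSum_sum_of_ne_finset_zero fun n hn => ?_
      rcases eq_or_ne n 0 with rfl | hn0
      · simp [b0]
      · rw [mem_Icc, not_and, not_le] at hn
        have h2 : x < n := (Nat.floor_lt hx.le).1 (hn (Nat.one_le_iff_ne_zero.2 hn0))
        have h3 : 0 < Real.log (n / x) := Real.log_pos ((one_lt_div hx).2 h2)
        rw [hv.2 _ fun h => absurd h.2 (not_le.2 h3)]
        simp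
    rw [hs'.unique hs]
    refine (norm_integral_le_of_norm_le ((φi j).const_mul (C * (p.1 : ℝ) ^ ε))
      (Filter.Eventually.of_forall fun t => ?_)).trans (le_of_eq ?_)
    · simp only [hF]
      rw [tsum_mul_left, norm_mul, norm_mul, nE', mul_one]
      have := hC p hp (1 + δ - Complex.I * t) (by simpa using d0) (by simp; linarith only [d1])
      have e : |(1 + δ - Complex.I * t : ℂ).im| = |t| := by simp
      rw [e] at this
      refine (mul_le_mul_of_nonneg_left this (norm_nonneg _)).trans (le_of_eq ?_)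
      ring
    · rw [integral_const_mul]; ring
  have cT : Continuous T := by
    simp only [hT]
    fun_prop
  have lim : ‖T 0‖ ≤ C * J * (p.1 : ℝ) ^ ε := by
    refine le_of_tendsto (x := nhdsWithin 0 (Set.Ioi 0))
      ((cT.norm.tendsto 0).mono_left nhdsWithin_le_nhds) ?_
    filter_upwards [Ioc_mem_nhdsGT (zero_lt_one' ℝ)] with δ hδ using key δ hδ.1 hδ.2
  have e : swk_S k v (pushL p.2) x = x * T 0 := by
    simp only [swk_S, hT, mul_sum]
    refine sum_congr rfl fun n hn => ?_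
    have hn0 : (0 : ℝ) < n := by exact_mod_cast (mem_Icc.1 hn).1
    have e1 : Complex.exp (Real.log (n / x) : ℝ) = n / x := by
      rw [← Complex.ofReal_exp, Real.exp_log (by positivity)]; push_cast; rfl
    have e2 : Complex.exp (-(1 + (0 : ℝ)) * Real.log n) = (n : ℂ)⁻¹ := by
      rw [Complex.ofReal_zero, add_zero, neg_one_mul, Complex.exp_neg, ← Complex.ofReal_exp,
        Real.exp_log hn0, Complex.ofReal_natCast]
    have n0 : (n : ℂ) ≠ 0 := by exact_mod_cast hn0.ne'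
    have x0 : (x : ℂ) ≠ 0 := by exact_mod_cast hx.ne'
    rw [e1, e2, hb]
    field_simp
  rw [e, norm_mul, Complex.norm_real, Real.norm_of_nonneg hx.le]
  have q0 : 0 ≤ (p.1 : ℝ) ^ ε := by positivity
  linarith only [mul_le_mul_of_nonneg_left lim hx.le, mul_nonneg hx.le q0]

/-- the statement proved by a double induction -/
def swk_P (S : Set (ℕ × (Ideal (𝓞 K) → ℂ))) (B j a : ℕ) : Prop :=
  ∀ v : ℝ → ℂ, Test v → ∃ C : ℝ, 0 < C ∧ ∀ x : ℝ, 3 ≤ x → ∀ p ∈ S, (p.1 : ℝ) ≤ Real.log x ^ B →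
    ‖swk_S j v (pushL p.2) x‖ ≤ C * x * Real.log x ^ (j + 1) / Real.log x ^ a

theorem swk_one_le {x : ℝ} (hx : 3 ≤ x) : 1 ≤ Real.log x := by
  rw [Real.le_log_iff_exp_le (by linarith)]
  linarith only [Real.exp_one_lt_d9, hx]

theorem swk_zero (hS : Fam S) (B j : ℕ) : swk_P S B j 0 := by
  intro v hv
  obtain ⟨C, C0, hC, -⟩ := hv.bound
  have d0 : (0 : ℝ) < dg K := Nat.cast_pos.2 (dg_pos K)
  refine ⟨dg K * C, mul_pos d0 C0, fun x hx p hp _ => ?_⟩
  have L1 := swk_one_le hx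
  have h1 : ∀ n ∈ Icc 1 ⌊x⌋₊, ‖(Real.log n : ℂ) ^ j * pushL p.2 n * v (Real.log (n / x))‖ ≤
      Real.log x ^ j * (dg K * Real.log x) * C := fun n hn => by
    have hn0 : (0 : ℝ) < n := by exact_mod_cast (mem_Icc.1 hn).1
    have hn1 : Real.log n ≤ Real.log x :=
      Real.log_le_log hn0 ((Nat.le_floor_iff (by linarith)).1 (mem_Icc.1 hn).2)
    have l0 := Real.log_natCast_nonneg n
    have h2 : ‖pushL p.2 n‖ ≤ dg K * Real.log x :=
      (norm_pushL_le (hS.1 p hp).1.le n).trans ((lamK_le n).trans (mul_le_mul_of_nonneg_left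
        (ArithmeticFunction.vonMangoldt_le_log.trans hn1) d0.le))
    rw [norm_mul, norm_mul, norm_pow, Complex.norm_real, Real.norm_of_nonneg l0]
    gcongr
    exact hC _
  refine (norm_sum_le _ _).trans ((sum_le_card_nsmul _ _ _ h1).trans ?_)
  rw [Nat.card_Icc, Nat.add_sub_cancel, nsmul_eq_mul, pow_zero, div_one, pow_succ]
  have := mul_le_mul_of_nonneg_right (Nat.floor_le (by linarith : 0 ≤ x))
    (by positivity : 0 ≤ Real.log x ^ j * (dg K * Real.log x) * C)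
  linarith

theorem swk_small (hS : Fam S) (B : ℕ) {j a : ℕ} (h : a ≤ j) : swk_P S B j a := by
  intro v hv
  obtain ⟨C, C0, hC⟩ := swk_analytic hS j (ε := 1 / ((B : ℝ) + 1)) (by positivity) hv
  refine ⟨C, C0, fun x hx p hp hq => (hC x (by linarith only [hx]) p hp).trans ?_⟩
  have L1 := swk_one_le hx
  have e1 : (p.1 : ℝ) ^ (1 / ((B : ℝ) + 1)) ≤ Real.log x := by
    refine (Real.rpow_le_rpow (Nat.cast_nonneg p.1) hq (by positivity)).trans ?_
    rw [← Real.rpow_natCast, ← Real.rpow_mul (by linarith only [L1])]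
    refine (Real.rpow_le_rpow_of_exponent_le L1 (z := 1) ?_).trans (Real.rpow_one _).le
    rw [mul_one_div, div_le_one (by positivity)]
    linarith
  rw [mul_div_assoc]
  refine mul_le_mul_of_nonneg_left (e1.trans ?_) (by nlinarith only [C0, hx])
  rw [le_div_iff₀ (by positivity), ← pow_succ']
  exact pow_le_pow_right₀ L1 (by omega)

theorem swk_step {B j a : ℕ} (h1 : swk_P S B (j + 1) (a + 1)) (h2 : swk_P S B j a) :
    swk_P S B j (a + 1) := by
  intro v hv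
  obtain ⟨C₁, p₁, hC₁⟩ := h1 v hv
  obtain ⟨C₂, p₂, hC₂⟩ := h2 (fun u => (u : ℂ) * v u) (hv.mul Complex.ofRealCLM.contDiff)
  refine ⟨C₁ + C₂, by positivity, fun x hx p hp hq => ?_⟩
  have L1 := swk_one_le hx
  have L0 : 0 < Real.log x := by linarith
  have e : (Real.log x : ℂ) * swk_S j v (pushL p.2) x = swk_S (j + 1) v (pushL p.2) x -
      swk_S j (fun u => (u : ℂ) * v u) (pushL p.2) x := by
    simp only [swk_S, mul_sum, ← sum_sub_distrib]
    refine sum_congr rfl fun n hn => ?_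
    have hn0 : (0 : ℝ) < n := by exact_mod_cast (mem_Icc.1 hn).1
    have : ((Real.log (n / x) : ℝ) : ℂ) = (Real.log n : ℝ) - (Real.log x : ℝ) := by
      rw [Real.log_div hn0.ne' (by linarith only [hx]), Complex.ofReal_sub]
    rw [this]
    ring
  have b := norm_sub_le (swk_S (j + 1) v (pushL p.2) x)
    (swk_S j (fun u => (u : ℂ) * v u) (pushL p.2) x)
  rw [← e, norm_mul, Complex.norm_real, Real.norm_of_nonneg L0.le] at b
  have b1 := hC₁ x hx p hp hq
  have b2 := hC₂ x hx p hp hq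
  refine le_of_mul_le_mul_left (b.trans ((add_le_add b1 b2).trans (le_of_eq ?_))) L0
  field_simp
  ring

theorem swk_all (hS : Fam S) (B a : ℕ) : ∀ j, swk_P S B j a := by
  induction a with
  | zero => exact swk_zero hS B
  | succ a ih =>
    have key : ∀ i j, a + 1 ≤ j + i → swk_P S B j (a + 1) := by
      intro i
      induction i with
      | zero => exact fun j h => swk_small hS B h
      | succ i ih' => exact fun j h => swk_step (ih' (j + 1) (by omega)) (ih j)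
    exact fun j => key (a + 1) j (by omega)

end

theorem swK {S : Set (ℕ × (Ideal (𝓞 K) → ℂ))} (hS : Fam S) {v : ℝ → ℂ} (hv : Test v)
    (A B : ℕ) : ∃ C : ℝ, 0 < C ∧ ∀ x : ℝ, 3 ≤ x → ∀ p ∈ S, (p.1 : ℝ) ≤ Real.log x ^ B →
      ‖sm (pushL p.2) v x‖ ≤ C * x / Real.log x ^ A := by
  obtain ⟨C, C0, hC⟩ := swk_all hS B (A + 1) 0 v hv
  refine ⟨C, C0, fun x hx p hp hq => ?_⟩
  have L0 : 0 < Real.log x := by linarith [swk_one_le hx]
  have := hC x hx p hp hq
  simp only [swk_S, pow_zero, one_mul] at this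
  refine this.trans (le_of_eq ?_)
  field_simp
  ring

end Pool.Agent.MP_48b1c3_nt.H91

end

-- part MP_48b1c3_nt.H91.Cheb
section

/-! Lower bounds of Chebyshev type. -/

namespace Pool.Agent.MP_48b1c3_nt.H91

open Finset NumberField H54 Filter
open scoped ContDiff Topology

variable {K : Type} [Field K] [NumberField K]

theorem cheb_J : (∫ u : ℝ, bmp u * Real.exp u) ≠ 0 := by
  have h : 0 < ∫ u : ℝ, bump u * Real.exp u :=
    Continuous.integral_pos_of_hasCompactSupport_nonneg_nonzero (x := -2)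
      (bump.continuous.mul Real.continuous_exp) bump.hasCompactSupport.mul_right
      (fun u => mul_nonneg bump.nonneg (Real.exp_pos u).le)
      (by rw [bump_eq_one (by norm_num) (by norm_num), one_mul]; exact (Real.exp_pos _).ne')
  have e : (∫ u : ℝ, bmp u * Real.exp u) = ((∫ u : ℝ, bump u * Real.exp u : ℝ) : ℂ) := by
    rw [← integral_complex_ofReal]
    simp only [bmp, Complex.ofReal_mul]
  rw [e]
  exact Complex.ofReal_ne_zero.2 h.ne'

theorem cheb_small (a : ℕ → ℂ) (v : ℝ → ℂ) {t : ℝ} (ht : t < 1) : sm a v t = 0 := by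
  rw [sm, Nat.floor_eq_zero.2 ht]
  simp

variable (K) in
theorem cheb_main {v : ℝ → ℂ} (hv : Test v) : ∃ C : ℝ, 0 < C ∧ ∀ t : ℝ, 1 ≤ t →
    ‖sm (push fun _ : Ideal (𝓞 K) => 1) v t -
      kap (fun _ : Ideal (𝓞 K) => (1 : ℂ)) * t * ∫ u : ℝ, v u * Real.exp u‖ ≤ C / t := by
  obtain ⟨C, hC, h⟩ := main_term K (2 * dg K)
  obtain ⟨B, hB, hD⟩ := Test.db hv (2 * dg K)
  refine ⟨C * B, mul_pos hC hB, fun t ht => (h 1 _ v B t pf_one hv hD ht).trans (le_of_eq ?_)⟩
  have h0 : (dg K : ℝ) ≠ 0 := Nat.cast_ne_zero.2 (dg_pos K).ne'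
  have e : 1 - ((2 * dg K : ℕ) : ℝ) / dg K = -1 := by
    push_cast
    field_simp
    norm_num
  rw [e, Real.rpow_neg_one, Nat.cast_one, one_pow, mul_one, div_eq_mul_inv]

theorem cheb_conv {y : ℝ} (hy : 0 < y) :
    ∑ d ∈ Icc 1 ⌊y⌋₊, (lamK K d : ℂ) * sm (push fun _ : Ideal (𝓞 K) => 1) bmp (y / d) =
      sm (push fun _ : Ideal (𝓞 K) => 1) (fun u => u * bmp u) y +
        Real.log y * sm (push fun _ : Ideal (𝓞 K) => 1) bmp y := by
  have h := sm_conv (pushL fun _ : Ideal (𝓞 K) => 1) (push fun _ : Ideal (𝓞 K) => 1) (fun _ => 1)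
    (fun _ _ => (mul_one _).symm) test_bmp hy
  rw [← (push_P (F := fun _ : Ideal (𝓞 K) => 1) rfl (fun _ _ => (mul_one _).symm)
    fun _ => by simp).der] at h
  simp only [mul_one, pushL_norm (K := K) fun _ => 1] at h
  rw [← h, sm, sm, sm, mul_sum, ← sum_add_distrib]
  refine sum_congr rfl fun m hm => ?_
  have h0 : m ≠ 0 := by have := (mem_Icc.1 hm).1; omega
  have e : siegel_lg m = (Real.log m : ℂ) := by simp [siegel_lg, toArithmeticFunction, h0]
  rw [ArithmeticFunction.pmul_apply, e, Real.log_div (Nat.cast_ne_zero.2 h0) hy.ne']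
  push_cast
  ring

variable (K) in
theorem cheb_lower : ∃ c C : ℝ, 0 < c ∧ ∀ y : ℝ, 2 ≤ y →
    c * y - C ≤ ∑ d ∈ Icc 1 ⌊y⌋₊, lamK K d * (d / y) := by
  obtain ⟨C1, p1, h1⟩ := cheb_main K test_bmp
  obtain ⟨C2, p2, h2⟩ := cheb_main K (v := fun u => u * bmp u)
    (Test.mul test_bmp Complex.ofRealCLM.contDiff)
  obtain ⟨ρ, hρ, e⟩ := kap_one K
  have hc := fun (y : ℝ) (hy : 0 < y) => cheb_conv (K := K) hy
  have hJ := norm_pos_iff.2 cheb_J
  have hs := fun t => cheb_small (push fun _ : Ideal (𝓞 K) => 1) bmp (t := t)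
  rw [e] at h1 h2
  generalize (∫ u : ℝ, bmp u * Real.exp u) = J at h1 hJ
  generalize (∫ u : ℝ, (u * bmp u) * Real.exp u) = J2 at h2
  generalize sm (push fun _ : Ideal (𝓞 K) => 1) bmp = A at h1 hc hs
  generalize sm (push fun _ : Ideal (𝓞 K) => 1) (fun u => u * bmp u) = A2 at h2 hc
  have nm1 (t : ℝ) (ht : 0 ≤ t) : ‖(ρ : ℂ) * t * J‖ = ρ * ‖J‖ * t := by
    rw [norm_mul, norm_mul, Complex.norm_real, Complex.norm_real, Real.norm_of_nonneg hρ.le,
      Real.norm_of_nonneg ht]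
    ring
  have two {A : ℝ → ℂ} {J : ℂ} {C : ℝ} (h : ∀ t : ℝ, 1 ≤ t → ‖A t - ρ * t * J‖ ≤ C / t) (t : ℝ)
      (ht : 2 ≤ t) : ‖A t - 2 * A (t / 2)‖ ≤ 5 * C / t := by
    have e : A t - 2 * A (t / 2) = (A t - ρ * t * J) - 2 * (A (t / 2) - ρ * (t / 2 : ℝ) * J) := by
      push_cast
      ring
    rw [e]
    refine (norm_sub_le _ _).trans ?_
    rw [norm_mul, Complex.norm_two]
    have e2 : 5 * C / t = C / t + 2 * (C / (t / 2)) := by
      field_simp
      ring
    rw [e2]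
    linarith only [h t (by linarith only [ht]), h (t / 2) (by linarith only [ht])]
  have hD (t : ℝ) (ht : 1 ≤ t) : ‖A t - 2 * A (t / 2)‖ ≤ (4 * (ρ * ‖J‖) + 5 * C1) / t := by
    have t0 : 0 < t := by linarith
    have q := mul_pos hρ hJ
    rcases le_or_gt 2 t with h | h
    · exact (two h1 t h).trans (div_le_div_of_nonneg_right (by linarith) t0.le)
    · rw [hs (t / 2) (by linarith), mul_zero, sub_zero]
      have a1 := norm_le_norm_add_norm_sub' (A t) (ρ * t * J)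
      have a2 := h1 t ht
      rw [nm1 t t0.le] at a1
      rw [le_div_iff₀ t0] at a2 ⊢
      have a3 : t * t ≤ 4 := by nlinarith only [h, t0]
      linarith only [mul_le_mul_of_nonneg_right a1 t0.le, a2, mul_le_mul_of_nonneg_left a3 q.le, p1]
  have q := mul_pos hρ hJ
  have l2 : 0 < Real.log 2 := Real.log_pos one_lt_two
  have l3 : Real.log 2 ≤ 1 := by linarith [Real.log_two_lt_d9]
  have pC : 0 < 4 * (ρ * ‖J‖) + 5 * C1 := by linarith
  generalize 4 * (ρ * ‖J‖) + 5 * C1 = C at hD pC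
  refine ⟨ρ * ‖J‖ * Real.log 2 / C, (5 * C2 + 7 * C1) / C, by positivity, fun y hy => ?_⟩
  have y0 : 0 < y := by linarith
  have s1 : ∑ d ∈ Icc 1 ⌊y / 2⌋₊, (lamK K d : ℂ) * A (y / 2 / d) =
      ∑ d ∈ Icc 1 ⌊y⌋₊, (lamK K d : ℂ) * A (y / d / 2) := by
    rw [← sum_subset (Icc_subset_Icc_right (Nat.floor_mono (half_le_self y0.le)))]
    · exact sum_congr rfl fun d _ => by rw [div_right_comm]
    · intro d hd hn
      have d1 := (mem_Icc.1 hd).1
      have d2 : y / 2 < d := by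
        rw [← Nat.floor_lt' (by omega)]
        by_contra h
        exact hn (mem_Icc.2 ⟨d1, not_lt.1 h⟩)
      rw [hs _ (by rw [div_right_comm, div_lt_one (by linarith only [hy, d2])]; exact d2), mul_zero]
  have s2 : ∑ d ∈ Icc 1 ⌊y⌋₊, (lamK K d : ℂ) * (A (y / d) - 2 * A (y / d / 2)) =
      (ρ * (Real.log 2 * y : ℝ) * J) + ((A2 y - 2 * A2 (y / 2)) +
        (Real.log y * (A y - 2 * A (y / 2)) +
          2 * Real.log 2 * (A (y / 2) - ρ * (y / 2 : ℝ) * J))) := by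
    simp only [mul_sub, sum_sub_distrib, mul_left_comm _ (2 : ℂ), ← mul_sum]
    rw [← s1, hc y y0, hc (y / 2) (by linarith only [hy]), Real.log_div y0.ne' two_ne_zero]
    simp only [Complex.ofReal_sub, Complex.ofReal_mul, Complex.ofReal_div, Complex.ofReal_ofNat]
    ring
  have s3 : ‖∑ d ∈ Icc 1 ⌊y⌋₊, (lamK K d : ℂ) * (A (y / d) - 2 * A (y / d / 2))‖ ≤
      C * ∑ d ∈ Icc 1 ⌊y⌋₊, lamK K d * (d / y) := by
    rw [mul_sum]
    refine norm_sum_le_of_le _ fun d hd => ?_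
    obtain ⟨d1, d2⟩ := mem_Icc.1 hd
    have d0 : (0 : ℝ) < d := Nat.cast_pos.2 d1
    rw [norm_mul, Complex.norm_real, Real.norm_of_nonneg (lamK_nonneg d)]
    refine (mul_le_mul_of_nonneg_left (hD _ ((one_le_div d0).2
      ((Nat.le_floor_iff y0.le).1 d2))) (lamK_nonneg d)).trans (le_of_eq ?_)
    field_simp
  have b1 : ‖A2 y - 2 * A2 (y / 2)‖ ≤ 5 * C2 :=
    (two h2 y hy).trans (div_le_self (by linarith only [p2]) (by linarith only [hy]))
  have b2 : ‖Real.log y * (A y - 2 * A (y / 2))‖ ≤ 5 * C1 := by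
    have l0 := Real.log_nonneg (by linarith only [hy] : 1 ≤ y)
    rw [norm_mul, Complex.norm_real, Real.norm_of_nonneg l0]
    refine (mul_le_mul (Real.log_le_self y0.le) (two h1 y hy) (norm_nonneg _) y0.le).trans
      (le_of_eq ?_)
    field_simp
  have b3 : ‖2 * Real.log 2 * (A (y / 2) - ρ * (y / 2 : ℝ) * J)‖ ≤ 2 * C1 := by
    rw [norm_mul, norm_mul, Complex.norm_two, Complex.norm_real, Real.norm_of_nonneg l2.le]
    exact mul_le_mul (by linarith only [l3]) ((h1 _ (by linarith only [hy])).trans (div_le_self p1.le (by linarith only [hy])))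
      (norm_nonneg _) zero_le_two
  rw [s2] at s3
  have b4 := norm_le_add_norm_add (ρ * (Real.log 2 * y : ℝ) * J) ((A2 y - 2 * A2 (y / 2)) +
    (Real.log y * (A y - 2 * A (y / 2)) + 2 * Real.log 2 * (A (y / 2) - ρ * (y / 2 : ℝ) * J)))
  have b5 := norm_add_le_of_le b1 (norm_add_le_of_le b2 b3)
  rw [nm1 _ (by positivity)] at b4
  rw [div_mul_eq_mul_div, ← sub_div, div_le_iff₀ pC]
  linarith only [s3, b4, b5]

theorem cheb_cover {d z : ℝ} (hd : 0 < d) (h : d ≤ z) (N : ℕ) : d / z ≤ Real.exp (-(2 * N)) +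
    ∑ j ∈ range N, bump (Real.log (d / (z * Real.exp (1 - 2 * j)))) := by
  have z0 := hd.trans_le h
  have s0 : Real.log (d / z) ≤ 0 := Real.log_nonpos (by positivity) ((div_le_one z0).2 h)
  have n0 : 0 ≤ ∑ j ∈ range N, bump (Real.log (d / (z * Real.exp (1 - 2 * j)))) :=
    sum_nonneg fun _ _ => bump.nonneg
  rcases le_or_gt (Real.log (d / z)) (-(2 * N)) with h1 | h1
  · linarith only [(Real.log_le_iff_le_exp (by positivity)).1 h1, n0]
  · have a1 := Nat.floor_le (show 0 ≤ -Real.log (d / z) / 2 by linarith only [s0])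
    have a2 := Nat.lt_floor_add_one (-Real.log (d / z) / 2)
    have a3 : ⌊-Real.log (d / z) / 2⌋₊ < N := (Nat.floor_lt (by linarith only [s0])).2 (by linarith only [h1])
    generalize ⌊-Real.log (d / z) / 2⌋₊ = j at a1 a2 a3
    have a4 := single_le_sum (f := fun j : ℕ => bump (Real.log (d / (z * Real.exp (1 - 2 * j)))))
      (fun _ _ => bump.nonneg) (mem_range.2 a3)
    have e : Real.log (d / (z * Real.exp (1 - 2 * j))) = Real.log (d / z) - (1 - 2 * j) := by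
      rw [← div_div, Real.log_div (by positivity) (Real.exp_pos _).ne', Real.log_exp]
    rw [e, bump_eq_one (by linarith only [a2]) (by linarith only [a1])] at a4
    linarith only [(div_le_one z0).2 h, Real.exp_pos (-(2 * N : ℝ)), a4]

theorem cheb_ext {a : ℕ → ℝ} (ha : ∀ m, 0 ≤ a m) {x : ℝ} (hx : 0 < x) (T : ℕ) :
    ∑ d ∈ Icc 1 T, a d * bump (Real.log (d / x)) ≤
      ∑ d ∈ Icc 1 ⌊x⌋₊, a d * bump (Real.log (d / x)) := by
  rw [← sum_filter_ne_zero]
  refine sum_le_sum_of_subset_of_nonneg (fun d hd => ?_) fun d _ _ => mul_nonneg (ha d) bump.nonneg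
  obtain ⟨h1, h2⟩ := mem_filter.1 hd
  refine mem_Icc.2 ⟨(mem_Icc.1 h1).1, Nat.le_floor (not_lt.1 fun h => h2 ?_)⟩
  rw [bump_eq_zero (Or.inr (Real.log_nonneg ((one_le_div hx).2 h.le))), mul_zero]

theorem cheb_upper {y : ℝ} (hy : 0 ≤ y) :
    ∑ d ∈ Icc 1 ⌊y⌋₊, lamK K d ≤ dg K * (Real.log 4 + 4) * y := by
  refine (sum_le_sum fun d _ => lamK_le d).trans ?_
  rw [← mul_sum, mul_assoc]
  exact mul_le_mul_of_nonneg_left (Chebyshev.psi_le_const_mul_self hy) (Nat.cast_nonneg _)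

variable (K) in
theorem cheb_window : ∃ κ R : ℝ, 0 < κ ∧ 1 ≤ R ∧ ∀ᶠ y : ℝ in atTop, ∃ x : ℝ, y / R ≤ x ∧ x ≤ y ∧
    κ * y ≤ ∑ d ∈ Icc 1 ⌊x⌋₊, lamK K d * bump (Real.log (d / x)) := by
  obtain ⟨c, C, hc, h⟩ := cheb_lower K
  have hu := fun (y : ℝ) (hy : 0 ≤ y) => cheb_upper (K := K) hy
  generalize dg K * (Real.log 4 + 4) = c1 at hu
  have t1 : Tendsto (fun N : ℕ => Real.exp (-(2 * N : ℝ)) * c1) atTop (𝓝 (0 * c1)) :=
    (Real.tendsto_exp_neg_atTop_nhds_zero.comp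
      (tendsto_natCast_atTop_atTop.const_mul_atTop two_pos)).mul_const c1
  obtain ⟨N, hN, N1⟩ := ((t1.eventually_le_const (show 0 * c1 < c / 4 by linarith)).and
    (eventually_gt_atTop 0)).exists
  have N0 : (0 : ℝ) < N := Nat.cast_pos.2 N1
  have e0 := Real.exp_pos 1
  refine ⟨c / 2 / N / Real.exp 1, Real.exp (2 * N), by positivity, Real.one_le_exp (by positivity), ?_⟩
  have t2 := tendsto_id.atTop_div_const (α := ℝ) e0
  filter_upwards [t2.eventually_ge_atTop 2, t2.eventually_ge_atTop (4 * C / c)] with y h1 h2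
  obtain ⟨z, rfl⟩ : ∃ z, y = z * Real.exp 1 := ⟨y / Real.exp 1, by field_simp⟩
  rw [id, mul_div_cancel_right₀ _ e0.ne'] at h1 h2
  rw [div_le_iff₀ hc] at h2
  have z0 : 0 < z := by linarith only [h1]
  have s1 : ∑ d ∈ Icc 1 ⌊z⌋₊, lamK K d * (d / z) ≤ Real.exp (-(2 * N)) * ∑ d ∈ Icc 1 ⌊z⌋₊, lamK K d +
      ∑ j ∈ range N, ∑ d ∈ Icc 1 ⌊z⌋₊,
        lamK K d * bump (Real.log (d / (z * Real.exp (1 - 2 * j)))) := by
    rw [sum_comm, mul_sum, ← sum_add_distrib]
    refine sum_le_sum fun d hd => ?_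
    rw [← mul_sum, mul_comm (Real.exp _), ← mul_add]
    exact mul_le_mul_of_nonneg_left (cheb_cover (Nat.cast_pos.2 (mem_Icc.1 hd).1)
      ((Nat.le_floor_iff z0.le).1 (mem_Icc.1 hd).2) N) (lamK_nonneg d)
  have s2 := mul_le_mul_of_nonneg_left (hu z z0.le) (Real.exp_pos (-(2 * N : ℝ))).le
  have s3 := mul_le_mul_of_nonneg_right hN z0.le
  obtain ⟨j, hj, h3⟩ := exists_le_of_sum_le (f := fun _ => c / 2 / N * z) (nonempty_range_iff.2 N1.ne')
    (g := fun j : ℕ => ∑ d ∈ Icc 1 ⌊z⌋₊, lamK K d * bump (Real.log (d / (z * Real.exp (1 - 2 * j)))))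
    (by
      have e : ∑ _j ∈ range N, c / 2 / N * z = c / 2 * z := by
        rw [sum_const, card_range, nsmul_eq_mul]
        field_simp
      rw [e]
      linarith only [h z h1, h2, s1, s2, s3])
  have j1 : (j : ℝ) ≤ N := Nat.cast_le.2 (mem_range.1 hj).le
  have j0 : (0 : ℝ) ≤ j := Nat.cast_nonneg j
  refine ⟨z * Real.exp (1 - 2 * j), ?_, ?_, ?_⟩
  · rw [mul_div_assoc, ← Real.exp_sub]
    exact mul_le_mul_of_nonneg_left (Real.exp_le_exp.2 (by linarith only [j1])) z0.le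
  · exact mul_le_mul_of_nonneg_left (Real.exp_le_exp.2 (by linarith only [])) z0.le
  · refine le_trans (le_of_eq ?_) (h3.trans (cheb_ext lamK_nonneg (by positivity) _))
    field_simp

variable (K) in
theorem cheb_np {ε : ℝ} (hε : 0 < ε) : ∀ᶠ y : ℝ in atTop, ∀ x ≤ y,
    ∑ m ∈ Icc 1 ⌊x⌋₊, (if m.Prime then 0 else lamK K m) ≤ ε * y := by
  have n0 : (0 : ℝ) < dg K := Nat.cast_pos.2 (dg_pos K)
  filter_upwards [(isLittleO_log_rpow_atTop one_half_pos).bound
    (show 0 < ε / (2 * dg K) by positivity), eventually_ge_atTop 1] with y h1 h2 x hx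
  have y0 : 0 ≤ y := by linarith only [h2]
  rw [Real.norm_of_nonneg (Real.log_nonneg h2), ← Real.sqrt_eq_rpow,
    Real.norm_of_nonneg (Real.sqrt_nonneg y)] at h1
  have a1 := (le_abs_self _).trans (Chebyshev.abs_psi_sub_theta_le_sqrt_mul_log h2)
  rw [Chebyshev.psi_sub_theta_eq_sum_not_prime, sum_filter] at a1
  calc _ ≤ ∑ m ∈ Icc 1 ⌊y⌋₊, (if m.Prime then 0 else lamK K m) :=
        sum_le_sum_of_subset_of_nonneg (Icc_subset_Icc_right (Nat.floor_mono hx)) fun m _ _ => by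
          split_ifs
          exacts [le_rfl, lamK_nonneg m]
    _ ≤ dg K * ∑ m ∈ Ioc 0 ⌊y⌋₊, if ¬ m.Prime then ArithmeticFunction.vonMangoldt m else 0 := by
        rw [mul_sum]
        refine sum_le_sum fun m _ => ?_
        by_cases h : m.Prime
        · simp [h]
        · simpa only [h, ↓ reduceIte, not_false_eq_true] using lamK_le (K := K) m
    _ ≤ dg K * (2 * √y * (ε / (2 * dg K) * √y)) := mul_le_mul_of_nonneg_left
        (a1.trans (mul_le_mul_of_nonneg_left h1 (by positivity))) n0.le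
    _ = ε * (√y * √y) := by field_simp
    _ = _ := by rw [Real.mul_self_sqrt y0]

theorem cheb_re (a : ℕ → ℝ) {b : ℕ → ℂ} (h : ∀ m, m ≠ 0 → b m = a m) (x : ℝ) :
    (sm b bmp x).re = ∑ m ∈ Icc 1 ⌊x⌋₊, a m * bump (Real.log (m / x)) := by
  rw [sm, Complex.re_sum]
  refine sum_congr rfl fun m hm => ?_
  rw [h m (Nat.one_le_iff_ne_zero.1 (mem_Icc.1 hm).1), bmp, ← Complex.ofReal_mul, Complex.ofReal_re]

open scoped Classical in
theorem window (K : Type) [Field K] [NumberField K] {q : ℕ} (hq : 0 < q) :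
    ∃ κ R : ℝ, 0 < κ ∧ 1 ≤ R ∧ ∀ᶠ y : ℝ in atTop, ∃ x : ℝ, y / R ≤ x ∧ x ≤ y ∧
      κ * y ≤ (sm (pushL fun I : Ideal (𝓞 K) => if Cop q I then 1 else 0) bmp x).re := by
  obtain ⟨κ, R, hκ, hR, h⟩ := cheb_window K
  refine ⟨κ / 2, R, half_pos hκ, hR, ?_⟩
  filter_upwards [h, cheb_np K (half_pos hκ), (tendsto_id.atTop_div_const (α := ℝ)
    (one_pos.trans_le hR)).eventually_ge_atTop (q * Real.exp 4)] with y ⟨x, x1, x2, x3⟩ h1 h2
  refine ⟨x, x1, x2, ?_⟩
  have x4 : q * Real.exp 4 ≤ x := h2.trans x1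
  have x0 : 0 < x := lt_of_lt_of_le (by positivity) x4
  rw [cheb_re (fun m => if m.Coprime q then lamK K m else 0) fun m _ => by
    simp only [cop_iff]
    rw [pushL_norm fun m => if m.Coprime q then 1 else 0]
    split_ifs <;> simp]
  have s1 : ∑ m ∈ Icc 1 ⌊x⌋₊, lamK K m * bump (Real.log (m / x)) ≤
      ∑ m ∈ Icc 1 ⌊x⌋₊, (if m.Coprime q then lamK K m else 0) * bump (Real.log (m / x)) +
        ∑ m ∈ Icc 1 ⌊x⌋₊, if m.Prime then 0 else lamK K m := by
    rw [← sum_add_distrib]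
    refine sum_le_sum fun m _ => ?_
    have l0 := lamK_nonneg (K := K) m
    split_ifs with c1 c2 c2
    · exact (add_zero _).ge
    · exact le_add_of_nonneg_right l0
    · have m1 : (m : ℝ) ≤ q := Nat.cast_le.2 (Nat.le_of_dvd hq (c2.dvd_iff_not_coprime.2 c1))
      have m0 : (0 : ℝ) < m := Nat.cast_pos.2 c2.pos
      rw [bump_eq_zero (Or.inl ((Real.log_le_iff_le_exp (by positivity)).2 ?_)), mul_zero, mul_zero,
        add_zero]
      rw [Real.exp_neg, div_le_iff₀ x0, inv_mul_eq_div, le_div_iff₀ (Real.exp_pos 4)]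
      exact (mul_le_mul_of_nonneg_right m1 (Real.exp_pos 4).le).trans x4
    · rw [zero_mul, zero_add]
      exact mul_le_of_le_one_right l0 bump.le_one
  linarith only [h1 x x2, x3, s1]

theorem class_lower {ι : Type} [Fintype ι] {q : ℕ} (hB : BB K ∣ q)
    (ξ : ι → Ideal (𝓞 K) → ℂ) (h : ∀ i, HC q (ξ i)) (c : ι → ℂ)
    (hc : ∀ i, (∀ I, I ≠ ⊥ → Cop q I → ξ i I = 1) → c i = 1)
    (h0 : ∃ i, ∀ I, I ≠ ⊥ → Cop q I → ξ i I = 1) :
    ∃ κ R : ℝ, 0 < κ ∧ 1 ≤ R ∧ ∀ᶠ y : ℝ in atTop, ∃ x : ℝ, y / R ≤ x ∧ x ≤ y ∧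
      κ * y ≤ (∑ i, c i * sm (pushL (ξ i)) bmp x).re := by
  classical
  obtain ⟨i0, h0⟩ := h0
  obtain ⟨κ, R, hκ, hR, hw⟩ := window K (h i0).pos
  have hF : Fam ((fun i => (q, ξ i)) '' {i | kap (ξ i) = 0}) := by
    refine ⟨?_, fun p _ => ((Set.toFinite _).image _).subset fun _ h => h.1⟩
    rintro _ ⟨i, hi, rfl⟩
    exact ⟨h i, hB, hi⟩
  obtain ⟨C, hC, hs⟩ := swK hF test_bmp 1 1
  refine ⟨κ / 2, R, half_pos hκ, hR, ?_⟩
  have t1 := tendsto_id.atTop_div_const (α := ℝ) (one_pos.trans_le hR)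
  have t2 := Real.tendsto_log_atTop.comp t1
  filter_upwards [hw, t1.eventually_ge_atTop 3, t2.eventually_ge_atTop q,
    t2.eventually_ge_atTop ((∑ i, ‖c i‖) * C / (κ / 2))] with y ⟨x, x1, x2, x3⟩ h1 h2 h3
  refine ⟨x, x1, x2, ?_⟩
  have x4 : 3 ≤ x := h1.trans x1
  have l1 : Real.log (y / R) ≤ Real.log x := Real.log_le_log (by linarith only [show 3 ≤ y / R from h1]) x1
  have l0 : 0 < Real.log x := Real.log_pos (by linarith only [x4])
  have y0 : 0 < y := by linarith only [x2, x4]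
  have E0 : 0 ≤ C * x / Real.log x := by
    have : 0 < x := by linarith only [x4]
    positivity
  have s1 (i : ι) : (if i = i0 then κ * y else 0) - ‖c i‖ * (C * x / Real.log x) ≤
      (c i * sm (pushL (ξ i)) bmp x).re := by
    have n0 := mul_nonneg (norm_nonneg (c i)) E0
    have k0 := mul_pos hκ y0
    by_cases hi : ∀ I, I ≠ ⊥ → Cop q I → ξ i I = 1
    · have e : pushL (ξ i) = pushL fun I : Ideal (𝓞 K) => if Cop q I then 1 else 0 := by
        ext m
        rcases eq_or_ne m 0 with rfl | hm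
        · simp
        rw [pushL, pushL, push_apply _ hm, push_apply _ hm]
        refine sum_congr rfl fun I hI => congrArg _ ?_
        split_ifs with h4
        · exact hi I (fun h5 => hm (by rw [← (mem_idN K).1 hI, h5, Ideal.absNorm_bot])) h4
        · exact not_not.1 fun h5 => h4 ((h i).cop I h5)
      rw [hc i hi] at n0 ⊢
      rw [one_mul, e]
      split_ifs <;> linarith only [x3, n0, k0]
    · have hk : kap (ξ i) = 0 := not_not.1 fun hk => hi fun I h4 h5 => dichotomy (h i) hB hk h4 h5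
      have a1 := hs x x4 (q, ξ i) ⟨i, hk, rfl⟩ (by rw [pow_one]; exact h2.trans l1)
      rw [pow_one] at a1
      rw [if_neg fun h4 : i = i0 => hi (h4 ▸ h0)]
      have a2 := (abs_le.1 (Complex.abs_re_le_norm (c i * sm (pushL (ξ i)) bmp x))).1
      rw [norm_mul] at a2
      linarith only [mul_le_mul_of_nonneg_left a1 (norm_nonneg (c i)), a2]
  have s2 := sum_le_sum fun i (_ : i ∈ univ) => s1 i
  rw [sum_sub_distrib, sum_ite_eq', if_pos (mem_univ _), ← sum_mul, ← Complex.re_sum] at s2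
  have s3 : (∑ i, ‖c i‖) * (C * x / Real.log x) ≤ κ / 2 * y := by
    have a1 := (div_le_iff₀ (half_pos hκ)).1 (h3.trans l1)
    rw [← mul_div_assoc, ← mul_assoc, div_le_iff₀ l0]
    exact (mul_le_mul a1 x2 (by linarith only [x4]) (by positivity)).trans (le_of_eq (by ring))
  linarith only [s2, s3]

theorem mass_lower {M : ℕ} (hM : 1 < M) (hB : BB K ∣ M) {I₀ : Ideal (𝓞 K)}
    (h0 : (Ideal.absNorm I₀).Coprime M) :
    ∃ κ R : ℝ, 0 < κ ∧ 1 ≤ R ∧ ∀ᶠ y : ℝ in atTop, ∃ x : ℝ, y / R ≤ x ∧ x ≤ y ∧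
      ∀ D, κ * y ≤ (prob (lamK K) M (Ideal.absNorm I₀) x D).X := by
  have M0 : 0 < M := by omega
  have : NeZero M := ⟨M0.ne'⟩
  have hu : IsUnit ((Ideal.absNorm I₀ : ℕ) : ZMod M) := (ZMod.isUnit_iff_coprime _ _).2 h0
  obtain ⟨κ, R, hκ, hR, h⟩ := class_lower hB (fun ψ : DirichletCharacter ℂ M => dir K ψ)
    (hc_dir M0) (fun ψ => ψ ((Ideal.absNorm I₀ : ℕ) : ZMod M)⁻¹)
    (fun ψ h => by
      have h1 : ψ ((Ideal.absNorm I₀ : ℕ) : ZMod M) = 1 := h I₀ (fun h1 => by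
        rw [h1, Ideal.absNorm_bot, Nat.coprime_zero_left] at h0
        omega) (cop_iff.2 h0)
      rw [← map_one ψ, ← ZMod.inv_mul_of_unit _ hu, map_mul, h1, mul_one])
    ⟨1, fun I _ h => MulChar.one_apply ((ZMod.isUnit_iff_coprime _ _).2 (cop_iff.1 h))⟩
  have t0 : (0 : ℝ) < M.totient := Nat.cast_pos.2 (Nat.totient_pos.2 M0)
  have k0 : 0 < κ / M.totient / 2 := by positivity
  refine ⟨_, R, k0, hR, ?_⟩
  filter_upwards [h, cheb_np K k0] with y ⟨x, x1, x2, x3⟩ h1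
  refine ⟨x, x1, x2, fun D => ?_⟩
  have e : ∑ ψ : DirichletCharacter ℂ M, ψ ((Ideal.absNorm I₀ : ℕ) : ZMod M)⁻¹ *
      sm (pushL (dir K ψ)) bmp x = sm (fun m => lamK K m * ∑ ψ : DirichletCharacter ℂ M,
        ψ ((Ideal.absNorm I₀ : ℕ) : ZMod M)⁻¹ * ψ m) bmp x := by
    simp only [sm, mul_sum, sum_mul]
    rw [sum_comm]
    refine sum_congr rfl fun m _ => sum_congr rfl fun ψ _ => ?_
    rw [show pushL (dir K ψ) m = lamK K m * ψ m from pushL_norm (fun m => ψ m) m]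
    ring
  rw [e, cheb_re (fun m => M.totient * if m ≡ Ideal.absNorm I₀ [MOD M] then lamK K m else 0)
    fun m _ => by
      rw [DirichletCharacter.sum_char_inv_mul_char_eq ℂ hu]
      simp only [eq_comm (b := (m : ZMod M)), ZMod.natCast_eq_natCast_iff]
      split_ifs <;> simp [mul_comm]] at x3
  simp only [mul_assoc, ← mul_sum] at x3
  have s1 : ∑ m ∈ Icc 1 ⌊x⌋₊, (if m ≡ Ideal.absNorm I₀ [MOD M] then lamK K m else 0) *
      bump (Real.log (m / x)) ≤ (prob (lamK K) M (Ideal.absNorm I₀) x D).X +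
        ∑ m ∈ Icc 1 ⌊x⌋₊, if m.Prime then 0 else lamK K m := by
    simp only [prob, Om]
    rw [sum_filter, ← sum_add_distrib]
    refine sum_le_sum fun m _ => ?_
    have l0 := lamK_nonneg (K := K) m
    rw [abs_of_nonneg l0]
    by_cases c1 : m ≡ Ideal.absNorm I₀ [MOD M] <;> by_cases c2 : m.Prime <;> simp only [c1, ↓ reduceIte, c2, and_self, add_zero, Std.le_refl, and_true, zero_add, ge_iff_le, zero_mul, and_false, l0]
    exact mul_le_of_le_one_right l0 bump.le_one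
  have s2 := (div_le_iff₀' t0).2 x3
  rw [← div_mul_eq_mul_div] at s2
  linarith only [h1 x x2, s1, s2]

end Pool.Agent.MP_48b1c3_nt.H91

end
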