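import Pool.Agent.MP_48b1c3_nt.Mg.H91_TypeI
import Pool.Agent.MP_48b1c3_nt.H91.Norm

/-! The family of Dirichlet characters composed with the norm. -/

namespace Pool.Agent.MP_48b1c3_nt.H91

open Finset NumberField H54 Filter
open scoped ContDiff Topology

variable {K : Type} [Field K] [NumberField K]

/-- the family attached to `F` -/
def famD (M : ℕ) (F : Ideal (𝓞 K) → ℂ) : Set (ℕ × (Ideal (𝓞 K) → ℂ)) :=
  {p | ∃ (q : ℕ) (χ : DirichletCharacter ℂ q), 1 < q ∧ Squarefree q ∧ q.Coprime M ∧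
    χ.IsPrimitive ∧ p = (M * q, F * dir K χ)}

theorem dir_key {p N t : ℕ} (hp : p.Prime) (hD : ¬ p ∣ DD K) (hN : 0 < N) (hpN : ¬ p ∣ N)
    (ht : ¬ p ∣ t) : ∃ I : Ideal (𝓞 K), I ≠ ⊥ ∧ Ideal.absNorm I ≡ 1 [MOD N] ∧
      Ideal.absNorm I ≡ t [MOD p] ∧ ∀ M F, HC M F → M ∣ N → F I = 1 := by
  have h0 : (p : ℤ) ∣ nm (0 : 𝓞 K) := by
    rw [nm, Algebra.norm_zero]
    exact dvd_zero _
  have ht' : ¬ (p : ℤ) ∣ (t : ℤ) := fun h => ht (Int.natCast_dvd_natCast.1 h)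
  obtain ⟨u, -, hu⟩ := norm_loc (K := K) hp hD h0 ht'
  have hc : IsCoprime (p : ℤ) (N : ℤ) :=
    Nat.isCoprime_iff_coprime.2 ((Nat.Prime.coprime_iff_not_dvd hp).2 hpN)
  obtain ⟨a, b, hab⟩ := hc
  have hab' : (a : 𝓞 K) * (p : 𝓞 K) + (b : 𝓞 K) * (N : 𝓞 K) = 1 := by
    have := congrArg (Int.cast : ℤ → 𝓞 K) hab
    simpa only [Int.cast_add, Int.cast_mul, Int.cast_natCast, Int.cast_one] using this
  obtain ⟨α, ⟨c, hc⟩, hpos⟩ := exists_pos ((a : 𝓞 K) * (p : 𝓞 K) + (b : 𝓞 K) * (N : 𝓞 K) * u)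
    (Nat.mul_pos hN hp.pos)
  rw [Nat.cast_mul] at hc
  have h1 : (((N : ℕ) : ℤ) : 𝓞 K) ∣ α - 1 := by
    refine ⟨(p : 𝓞 K) * c + b * (u - 1), ?_⟩
    rw [Int.cast_natCast]
    linear_combination hc + hab'
  have h2 : (((p : ℕ) : ℤ) : 𝓞 K) ∣ α - u := by
    refine ⟨(N : 𝓞 K) * c + a * (1 - u), ?_⟩
    rw [Int.cast_natCast]
    linear_combination hc + u * hab'
  have h3 := nm_congr h1
  have h4 := nm_congr h2
  have h5 : nm (1 : 𝓞 K) = 1 := map_one _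
  have h6 : ((Ideal.absNorm (Ideal.span {α}) : ℕ) : ℤ) = nm α := by
    rw [Ideal.absNorm_span_singleton, Int.natCast_natAbs]
    exact abs_of_pos hpos
  refine ⟨Ideal.span {α}, ?_, ?_, ?_, fun M F hF hM => ?_⟩
  · intro h
    rw [h] at h6
    simp only [Ideal.absNorm_bot, CharP.cast_eq_zero] at h6
    omega
  · refine (Nat.modEq_iff_dvd.2 ?_).symm
    rw [h6]
    simpa only [Nat.cast_one, h5] using h3
  · refine (Nat.modEq_iff_dvd.2 ?_).symm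
    rw [h6]
    have := dvd_add h4 hu
    simpa only [sub_add_sub_cancel] using this
  · rw [← hF.one]
    refine hF.per _ ⊤ ⊤ α 1 (Ideal.mul_top _) (by simp) ?_ (by rwa [h5, mul_one])
    rw [Ideal.absNorm_top, mul_one]
    exact (Nat.cast_dvd_cast hM).trans (by simpa only [Int.cast_natCast] using h1)

theorem dir_unit {q q' : ℕ} [NeZero q] {χ : DirichletCharacter ℂ q} (hχ : χ.IsPrimitive)
    (hd : q' ∣ q) (hlt : q' < q) :
    ∃ t : ℕ, t.Coprime q ∧ t ≡ 1 [MOD q'] ∧ χ t ≠ 1 := by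
  by_contra hcon
  have hf : χ.FactorsThrough q' := by
    refine (DirichletCharacter.factorsThrough_iff_ker_unitsMap hd).2 fun u hu => ?_
    rw [MonoidHom.mem_ker] at hu ⊢
    by_contra hne
    refine hcon ⟨(u : ZMod q).val, ZMod.val_coe_unit_coprime u, ?_, ?_⟩
    · have h := congrArg (fun x : (ZMod q')ˣ => (x : ZMod q')) hu
      simp only [ZMod.unitsMap_val, Units.val_one] at h
      rw [← ZMod.natCast_eq_natCast_iff, Nat.cast_one, ZMod.natCast_val]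
      exact h
    · rw [ZMod.natCast_zmod_val]
      intro h
      apply hne
      rw [Units.ext_iff, MulChar.coe_toUnitHom, Units.val_one]
      exact h
  have hle : χ.conductor ≤ q' := Nat.sInf_le hf
  rw [(DirichletCharacter.isPrimitive_def χ).1 hχ] at hle
  omega

theorem dir_ideal {q p N : ℕ} {χ : DirichletCharacter ℂ q} (hχ : χ.IsPrimitive)
    (hq : Squarefree q) (hp : p.Prime) (hpq : p ∣ q) (hD : ¬ p ∣ DD K) (hN : 0 < N)
    (hpN : ¬ p ∣ N) : ∃ I : Ideal (𝓞 K), I ≠ ⊥ ∧ Ideal.absNorm I ≡ 1 [MOD N] ∧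
      (Ideal.absNorm I).Coprime q ∧ χ (Ideal.absNorm I) ≠ 1 ∧
      ∀ M F, HC M F → M ∣ N → F I = 1 := by
  have hq0 : q ≠ 0 := hq.ne_zero
  have : NeZero q := ⟨hq0⟩
  obtain ⟨r, hr⟩ := hpq
  have hr0 : 0 < r := Nat.pos_of_ne_zero fun h => hq0 (by rw [hr, h, mul_zero])
  have hcop : p.Coprime r := Nat.coprime_of_squarefree_mul (hr ▸ hq)
  have hlt : r < q := by
    rw [hr]
    exact lt_mul_of_one_lt_left hr0 hp.one_lt
  obtain ⟨t, htc, ht1, htχ⟩ := dir_unit hχ ⟨p, by rw [hr, mul_comm]⟩ hlt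
  have hpt : ¬ p ∣ t := fun h =>
    hp.one_lt.ne' (Nat.eq_one_of_dvd_coprimes htc h ⟨r, hr⟩)
  have hpNr : ¬ p ∣ N * r := fun h => by
    rcases (Nat.Prime.dvd_mul hp).1 h with h | h
    · exact hpN h
    · exact (Nat.Prime.coprime_iff_not_dvd hp).1 hcop h
  obtain ⟨I, hI, h1, h2, h0⟩ := dir_key (K := K) hp hD (Nat.mul_pos hN hr0) hpNr hpt
  have h3 : Ideal.absNorm I ≡ t [MOD r] := (h1.of_mul_left N).trans ht1.symm
  have h4 : Ideal.absNorm I ≡ t [MOD q] := by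
    rw [hr]
    exact (Nat.modEq_and_modEq_iff_modEq_mul hcop).1 ⟨h2, h3⟩
  have h5 : ((Ideal.absNorm I : ℕ) : ZMod q) = (t : ZMod q) :=
    (ZMod.natCast_eq_natCast_iff _ _ _).2 h4
  refine ⟨I, hI, h1.of_mul_right r, ?_, by rwa [h5], fun M F a b => h0 M F a (b.mul_right _)⟩
  rw [← ZMod.isUnit_iff_coprime, h5, ZMod.isUnit_iff_coprime]
  exact htc

theorem dir_one {m n : ℕ} (χ : DirichletCharacter ℂ m) (h : n ≡ 1 [MOD m]) : χ n = 1 := by
  rw [(ZMod.natCast_eq_natCast_iff _ _ _).2 h, Nat.cast_one, map_one]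

theorem dir_cop {m n : ℕ} (h : n ≡ 1 [MOD m]) : n.Coprime m := by
  rw [← ZMod.isUnit_iff_coprime, (ZMod.natCast_eq_natCast_iff _ _ _).2 h, Nat.cast_one]
  exact isUnit_one

theorem fam_dir {M : ℕ} (hM : 0 < M) (hD : DD K ∣ M) (hB : BB K ∣ M)
    {F : Ideal (𝓞 K) → ℂ} (hF : HC M F) : Fam (famD M F) := by
  have hnd : ∀ {q p : ℕ}, q.Coprime M → p.Prime → p ∣ q → ¬ p ∣ M := fun hc hp hpq h =>
    hp.one_lt.ne' (Nat.eq_one_of_dvd_coprimes hc hpq h)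
  refine ⟨?_, ?_⟩
  · rintro _ ⟨q, χ, hq1, hq, hc, hχ, rfl⟩
    have hH : HC (M * q) (F * dir K χ) := hF.mul' (hc_dir (by omega) χ)
    refine ⟨hH, hB.mul_right q, ?_⟩
    by_contra hk
    obtain ⟨p, hp, hpq⟩ := Nat.exists_prime_and_dvd hq1.ne'
    obtain ⟨I, hI, h1, h2, h3, h0⟩ := dir_ideal (K := K) hχ hq hp hpq
      (fun h => hnd hc hp hpq (h.trans hD)) hM (hnd hc hp hpq)
    have h4 := dichotomy hH (hB.mul_right q) hk hI
      (cop_iff.2 (Nat.Coprime.mul_right (dir_cop h1) h2))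
    simp only [Pi.mul_apply, dir] at h4
    rw [h0 M F hF dvd_rfl, one_mul] at h4
    exact h3 h4
  · rintro _ ⟨q₁, χ₁, hq1, hq₁, hc₁, hχ₁, rfl⟩
    have hH₁ : HC (M * q₁) (F * dir K χ₁) := hF.mul' (hc_dir (by omega) χ₁)
    refine (((Xf q₁.divisors).finite_toSet).image
      fun i => ((M * i.1, F * dir K i.2) : ℕ × (Ideal (𝓞 K) → ℂ))).subset ?_
    rintro _ ⟨⟨q, χ, hq1', hq, hc, hχ, rfl⟩, hk⟩
    have hH : HC (M * q) (F * dir K χ) := hF.mul' (hc_dir (by omega) χ)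
    refine ⟨⟨q, χ⟩, ?_, rfl⟩
    rw [Finset.mem_coe, mem_Xf]
    refine ⟨Nat.mem_divisors.2 ⟨?_, hq₁.ne_zero⟩, hχ⟩
    show q ∣ q₁
    rw [← Nat.prod_primeFactors_of_squarefree hq, Nat.prod_primeFactors_dvd_iff hq₁.ne_zero]
    intro p hp
    have hpp := Nat.prime_of_mem_primeFactors hp
    have hpq := Nat.dvd_of_mem_primeFactors hp
    refine Nat.mem_primeFactors.2 ⟨hpp, ?_, hq₁.ne_zero⟩
    by_contra hn
    have hpN : ¬ p ∣ M * q₁ := fun h => by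
      rcases (Nat.Prime.dvd_mul hpp).1 h with h | h
      · exact hnd hc hpp hpq h
      · exact hn h
    obtain ⟨I, hI, h1, h2, h3, h0⟩ := dir_ideal (K := K) hχ hq hpp hpq
      (fun h => hnd hc hpp hpq (h.trans hD)) (Nat.mul_pos hM (by omega)) hpN
    have h1M := h1.of_mul_right q₁
    have h4 := dichotomy (hH₁.mul' hH) ((hB.mul_right q₁).mul_right _) hk hI
      (cop_iff.2 (Nat.Coprime.mul_right (dir_cop h1) (Nat.Coprime.mul_right (dir_cop h1M) h2)))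
    simp only [Pi.mul_apply, dir] at h4
    rw [h0 M F hF (dvd_mul_right _ _), dir_one χ₁ (h1.of_mul_left M), one_mul, one_mul,
      one_mul] at h4
    exact h3 h4

end Pool.Agent.MP_48b1c3_nt.H91
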