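import Pool.Agent.MP_48b1c3_nt.H91.Norm
import Pool.Agent.MP_48b1c3_nt.Mg.H91_Dec

/-! Ray classes of ideals and their characters. -/

namespace Pool.Agent.MP_48b1c3_nt.H91

open Finset NumberField H54 Filter
open scoped Classical

variable {K : Type} [Field K] [NumberField K]

/-- `I` and `J` lie in the same ray class modulo `q`, the sign of the norm included -/
def Ray (q : ℕ) (I J : Ideal (𝓞 K)) : Prop :=
  ∃ α β : 𝓞 K, Cop q (Ideal.span {β}) ∧ (q : 𝓞 K) ∣ α - β ∧ 0 < nm α * nm β ∧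
    Ideal.span {α} * J = Ideal.span {β} * I

/-- many primes of degree one in a ray class of `K`, with `p - 1` free of primes
up to `x ^ α` that do not divide the modulus, for some `α > β` -/
def CoreR (K : Type) [Field K] [NumberField K] (β : ℝ) : Prop :=
  ∃ w₀ : ℕ, ∀ (M : ℕ) (I₀ : Ideal (𝓞 K)), 0 < M → (∀ l : ℕ, l.Prime → l ≤ w₀ → l ∣ M) →
    I₀ ≠ ⊥ → Cop M I₀ → ∃ α c : ℝ, β < α ∧ 0 < c ∧ ∀ᶠ x : ℝ in Filter.atTop,
      c * x / Real.log x ^ 2 ≤ Set.ncard {p : ℕ | p.Prime ∧ (p : ℝ) ≤ x ∧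
        (∃ I : Ideal (𝓞 K), Ideal.absNorm I = p ∧ Ray M I I₀) ∧
          ∀ l : ℕ, l.Prime → l ∣ p - 1 → l ∣ M ∨ x ^ α < l}

theorem cop_mul {q : ℕ} {I J : Ideal (𝓞 K)} : Cop q (I * J) ↔ Cop q I ∧ Cop q J := by
  simp only [cop_iff, map_mul, Nat.coprime_mul_iff_left]

omit [NumberField K] in
theorem cop_span {q : ℕ} {α : 𝓞 K} : Cop q (Ideal.span {α}) ↔ IsCoprime α q := by
  rw [Cop, ← Ideal.isCoprime_iff_sup_eq, Ideal.isCoprime_span_singleton_iff]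

omit [NumberField K] in
theorem cop_congr {q : ℕ} {α β : 𝓞 K} (h : (q : 𝓞 K) ∣ α - β) (hβ : Cop q (Ideal.span {β})) :
    Cop q (Ideal.span {α}) := by
  obtain ⟨c, hc⟩ := h
  rw [cop_span] at hβ ⊢
  rw [show α = β + q * c by linear_combination hc]
  exact hβ.add_mul_left_left c

theorem Cop.mono {q q' : ℕ} {I : Ideal (𝓞 K)} (h : Cop q' I) (hq : q ∣ q') : Cop q I :=
  cop_iff.2 ((cop_iff.1 h).coprime_dvd_right hq)

omit [NumberField K] in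
theorem nm_mul (α β : 𝓞 K) : nm (α * β) = nm α * nm β := map_mul _ _ _

theorem nm_ne {α : 𝓞 K} (h : α ≠ 0) : nm α ≠ 0 := Algebra.norm_ne_zero_iff.2 h

theorem ne_of_nm {α β : 𝓞 K} (h : 0 < nm α * nm β) : α ≠ 0 ∧ β ≠ 0 :=
  ⟨fun e => by simp [e, nm] at h, fun e => by simp [e, nm] at h⟩

omit [NumberField K] in
theorem Ray.refl (q : ℕ) (I : Ideal (𝓞 K)) : Ray q I I :=
  ⟨1, 1, cop_span.2 isCoprime_one_left, by simp, by simp [nm], rfl⟩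

omit [NumberField K] in
theorem Ray.symm {q : ℕ} {I J : Ideal (𝓞 K)} (h : Ray q I J) : Ray q J I := by
  obtain ⟨α, β, h1, h2, h3, h4⟩ := h
  exact ⟨β, α, cop_congr h2 h1, dvd_sub_comm.1 h2, by rwa [mul_comm], h4.symm⟩

theorem Ray.mul {q : ℕ} {I J I' J' : Ideal (𝓞 K)} (h : Ray q I J) (h' : Ray q I' J') :
    Ray q (I * I') (J * J') := by
  obtain ⟨α, β, h1, h2, h3, h4⟩ := h
  obtain ⟨α', β', g1, g2, g3, g4⟩ := h'
  refine ⟨α * α', β * β', ?_, ?_, ?_, ?_⟩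
  · rw [← Ideal.span_singleton_mul_span_singleton]
    exact cop_mul.2 ⟨h1, g1⟩
  · rw [show α * α' - β * β' = (α - β) * α' + β * (α' - β') by ring]
    exact (h2.mul_right _).add (g2.mul_left _)
  · rw [nm_mul, nm_mul, mul_mul_mul_comm]
    exact mul_pos h3 g3
  · rw [← Ideal.span_singleton_mul_span_singleton, ← Ideal.span_singleton_mul_span_singleton,
      mul_mul_mul_comm, h4, g4, mul_mul_mul_comm]

theorem Ray.trans {q : ℕ} {I J L : Ideal (𝓞 K)} (h : Ray q I J) (h' : Ray q J L) (hJ : J ≠ ⊥) :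
    Ray q I L := by
  obtain ⟨α, β, h1, h2, h3, h4⟩ := h.mul h'
  refine ⟨α, β, h1, h2, h3, mul_right_cancel₀ (b := J) hJ ?_⟩
  rw [mul_assoc, mul_comm L, h4, mul_assoc]

theorem Ray.cop {q : ℕ} {I J : Ideal (𝓞 K)} (h : Ray q I J) (hJ : Cop q J) : Cop q I := by
  obtain ⟨α, β, h1, h2, -, h4⟩ := h
  exact (cop_mul.1 (h4 ▸ cop_mul.2 ⟨cop_congr h2 h1, hJ⟩)).2

theorem Ray.ne_bot {q : ℕ} {I J : Ideal (𝓞 K)} (h : Ray q I J) (hJ : J ≠ ⊥) : I ≠ ⊥ := by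
  obtain ⟨α, β, -, -, h3, h4⟩ := h
  rintro rfl
  rw [Ideal.mul_bot, Ideal.mul_eq_bot, Ideal.span_singleton_eq_bot] at h4
  exact h4.elim (ne_of_nm h3).1 hJ

theorem Ray.mono {q q' : ℕ} {I J : Ideal (𝓞 K)} (h : Ray q' I J) (hq : q ∣ q') : Ray q I J := by
  obtain ⟨α, β, h1, h2, h3, h4⟩ := h
  exact ⟨α, β, h1.mono hq, (Nat.cast_dvd_cast hq).trans h2, h3, h4⟩

theorem Ray.norm {q : ℕ} {I J : Ideal (𝓞 K)} (h : Ray q I J) :
    Ideal.absNorm I ≡ Ideal.absNorm J [MOD q] := by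
  obtain ⟨α, β, h1, h2, h3, h4⟩ := h
  have e1 := congrArg Ideal.absNorm h4
  have e2 := cop_iff.1 h1
  simp only [map_mul, Ideal.absNorm_span_singleton] at e1 e2
  have e3 := nm_congr (m := (q : ℤ)) (by rwa [Int.cast_natCast])
  have e4 : (nm β).natAbs ≡ (nm α).natAbs [MOD q] := by
    rw [Nat.modEq_iff_dvd, Int.natCast_natAbs, Int.natCast_natAbs]
    rcases pos_and_pos_or_neg_and_neg_of_mul_pos h3 with ⟨p1, p2⟩ | ⟨p1, p2⟩
    · rwa [abs_of_pos p1, abs_of_pos p2]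
    · rw [abs_of_neg p1, abs_of_neg p2, ← neg_sub']
      exact e3.neg_right
  refine Nat.ModEq.cancel_left_of_coprime (c := (nm β).natAbs) e2.symm ?_
  rw [← e1]
  exact (e4.mul_right _).symm

theorem exists_cop {q : ℕ} (hq : 0 < q) {b : Ideal (𝓞 K)} (hb : b ≠ ⊥) :
    ∃ (t : 𝓞 K) (c : Ideal (𝓞 K)), t ≠ 0 ∧ Cop q c ∧ Ideal.span {t} = b * c := by
  have q0 : Ideal.span {(q : 𝓞 K)} ≠ ⊥ :=
    mt Ideal.span_singleton_eq_bot.1 (Nat.cast_ne_zero.2 hq.ne')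
  obtain ⟨t, ht⟩ := IsDedekindDomain.exists_sup_span_eq
    (I := b * Ideal.span {(q : 𝓞 K)}) (J := b) Ideal.mul_le_left (mul_ne_zero hb q0)
  obtain ⟨c, hc⟩ := dec_ex (b := b) (α := t) (ht ▸ Ideal.mem_sup_right (Ideal.mem_span_singleton_self t))
  have h1 : Cop q c := by
    refine mul_left_cancel₀ (a := b) hb ?_
    rw [Ideal.mul_sup, mul_comm b c, hc, sup_comm, ht, Ideal.mul_top]
  by_cases h0 : t = 0
  · obtain ⟨s, hs, s0⟩ := Submodule.exists_mem_ne_zero_of_ne_bot hb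
    obtain ⟨d, hd⟩ := dec_ex hs
    refine ⟨s, d, s0, ?_, by rw [← hd, mul_comm]⟩
    rw [h0, Ideal.span_singleton_zero, Ideal.mul_eq_bot] at hc
    rw [hc.resolve_right hb, Cop, bot_sup_eq] at h1
    rw [Cop, h1, sup_top_eq]
  · exact ⟨t, c, h0, h1, by rw [← hc, mul_comm]⟩

theorem ray_of_per {q : ℕ} (hq : 0 < q) {a a' b : Ideal (𝓞 K)} {α α' : 𝓞 K}
    (h1 : a * b = Ideal.span {α}) (h2 : a' * b = Ideal.span {α'})
    (h3 : ((q * Ideal.absNorm b : ℕ) : 𝓞 K) ∣ α - α') (h4 : 0 < nm α * nm α') (h5 : Cop q a') :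
    Ray q a a' := by
  have b0 : b ≠ ⊥ := by
    rintro rfl
    rw [Ideal.mul_bot, eq_comm, Ideal.span_singleton_eq_bot] at h1
    exact (ne_of_nm h4).1 h1
  have n0 : ((Ideal.absNorm b : ℕ) : 𝓞 K) ≠ 0 :=
    Nat.cast_ne_zero.2 fun h => b0 (Ideal.absNorm_eq_zero_iff.1 h)
  obtain ⟨d, hd⟩ := dec_ex (Ideal.absNorm_mem b)
  obtain ⟨t, c, t0, hc, ht⟩ := exists_cop hq (b := d) (by
    rintro rfl
    rw [Ideal.bot_mul, eq_comm, Ideal.span_singleton_eq_bot] at hd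
    exact n0 hd)
  have key : ∀ {a : Ideal (𝓞 K)} {α : 𝓞 K}, a * b = Ideal.span {α} →
      ∃ γ, t * α = (Ideal.absNorm b : ℕ) * γ ∧ Ideal.span {γ} = a * c := fun {a α} h => by
    have e : Ideal.span {t * α} = Ideal.span {((Ideal.absNorm b : ℕ) : 𝓞 K)} * (a * c) := by
      rw [← Ideal.span_singleton_mul_span_singleton, ht, ← h, ← hd]
      ring
    obtain ⟨γ, hγ⟩ : ((Ideal.absNorm b : ℕ) : 𝓞 K) ∣ t * α :=
      Ideal.span_singleton_le_span_singleton.1 (e ▸ Ideal.mul_le_left)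
    refine ⟨γ, hγ, mul_left_cancel₀ (mt Ideal.span_singleton_eq_bot.1 n0) ?_⟩
    rw [← e, hγ, Ideal.span_singleton_mul_span_singleton]
  obtain ⟨γ, g1, g2⟩ := key h1
  obtain ⟨γ', g3, g4⟩ := key h2
  obtain ⟨s, hs⟩ := h3
  refine ⟨γ, γ', g4 ▸ cop_mul.2 ⟨h5, hc⟩, ⟨t * s, mul_left_cancel₀ n0 ?_⟩, ?_, ?_⟩
  · push_cast at hs
    linear_combination t * hs - g1 + g3
  · have e1 := congrArg nm g1
    have e2 := congrArg nm g3
    rw [nm_mul, nm_mul] at e1 e2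
    have e3 := mul_pos (mul_self_pos.2 (nm_ne t0)) h4
    rw [mul_mul_mul_comm, e1, e2, mul_mul_mul_comm] at e3
    exact (mul_pos_iff_of_pos_left (mul_self_pos.2 (nm_ne n0))).1 e3
  · rw [g2, g4]
    ring

theorem fam_abs {R : Type} [CommMonoid R] [Finite R] (h : ∀ r : R, IsUnit r) :
    ∃ (ι : Type) (_ : Fintype ι) (φ : ι → R → ℂ), (∀ i, φ i 1 = 1) ∧
      (∀ i r s, φ i (r * s) = φ i r * φ i s) ∧ (∀ i r, ‖φ i r‖ = 1) ∧ (∃ i, ∀ r, φ i r = 1) ∧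
      ∀ r s, ∑ i, (φ i s)⁻¹ * φ i r = if r = s then (Fintype.card ι : ℂ) else 0 := by
  let _ := Fintype.ofFinite Rˣ
  refine ⟨AddChar (Additive Rˣ) ℂ, inferInstance, fun χ r => χ (Additive.ofMul (h r).unit),
    fun χ => ?_, fun χ r s => ?_, fun χ r => AddChar.norm_apply _ _, ⟨0, fun r => rfl⟩,
    fun r s => ?_⟩
  · beta_reduce
    rw [show (h 1).unit = 1 from Units.ext rfl, ofMul_one, AddChar.map_zero_eq_one]
  · beta_reduce
    rw [show (h (r * s)).unit = (h r).unit * (h s).unit from Units.ext rfl, ofMul_mul,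
      AddChar.map_add_eq_mul]
  · simp only [← AddChar.map_neg_eq_inv, ← AddChar.map_add_eq_mul]
    rw [AddChar.sum_apply_eq_ite, AddChar.card_eq]
    refine if_congr ?_ rfl rfl
    rw [neg_add_eq_zero, Additive.ofMul.apply_eq_iff_eq, Units.ext_iff, eq_comm]
    rfl

variable (K) in
/-- the nonzero ideals prime to `q` -/
def Mq (q : ℕ) : Submonoid (Ideal (𝓞 K)) where
  carrier := {I | I ≠ ⊥ ∧ Cop q I}
  one_mem' := ⟨one_ne_zero, by rw [Cop, Ideal.one_eq_top, top_sup_eq]⟩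
  mul_mem' hI hJ := ⟨mul_ne_zero hI.1 hJ.1, cop_mul.2 ⟨hI.2, hJ.2⟩⟩

variable (K) in
/-- the ray classes -/
def rayCon (q : ℕ) : Con (Mq K q) where
  r I J := Ray q I.1 J.1
  iseqv := ⟨fun _ => Ray.refl _ _, Ray.symm, fun {_ J _} h h' => h.trans h' J.2.1⟩
  mul' := Ray.mul

theorem exists_gen {I : Ideal (𝓞 K)} (hI : I ≠ ⊥) : ∃ (c : ClassGroup (𝓞 K)) (t : 𝓞 K),
    t ≠ 0 ∧ I * rep c = Ideal.span {t} := by
  have h := mem_nonZeroDivisors_iff_ne_zero.2 hI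
  obtain ⟨t, ht⟩ := (ClassGroup.mk0_eq_mk0_inv_iff (I := ⟨I, h⟩) (J := ⟨_,
    mem_nonZeroDivisors_iff_ne_zero.2 (rep_ne_bot (ClassGroup.mk0 ⟨I, h⟩)⁻¹)⟩)).1
      (by rw [mk0_rep, inv_inv])
  exact ⟨_, t, ht⟩

theorem ray_finite {q : ℕ} (hq : 0 < q) : Finite (rayCon K q).Quotient := by
  choose c t t0 ht using fun I : Mq K q => exists_gen I.2.1
  have : Finite (𝓞 K ⧸ Ideal.span {((q * BB K : ℕ) : 𝓞 K)}) :=
    Ideal.finiteQuotientOfFreeOfNeBot _ (mt Ideal.span_singleton_eq_bot.1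
      (Nat.cast_ne_zero.2 (mul_pos hq (BB_pos K)).ne'))
  let g : Mq K q → ClassGroup (𝓞 K) × (𝓞 K ⧸ Ideal.span {((q * BB K : ℕ) : 𝓞 K)}) × Prop :=
    fun I => (c I, Ideal.Quotient.mk _ (t I), 0 < nm (t I))
  have : Finite (Quotient (Setoid.ker g)) :=
    Finite.of_injective _ (Setoid.kerLift_injective g)
  refine Finite.of_surjective (α := Quotient (Setoid.ker g))
    (Quotient.map' id fun I J h => ?_) fun x => ?_
  · obtain ⟨h1, h2, h3⟩ : c I = c J ∧ _ ∧ _ := by simpa only [Setoid.ker_def, g, Prod.mk.injEq] using h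
    refine ray_of_per hq (ht I) (h1 ▸ ht J) ((Nat.cast_dvd_cast (Nat.mul_dvd_mul_left q
      (rep_dvd_BB _))).trans (Ideal.mem_span_singleton.1 (Ideal.Quotient.eq.1 h2))) ?_ J.2.2
    rcases (nm_ne (t0 I)).lt_or_gt with a | a
    · exact mul_pos_of_neg_of_neg a ((nm_ne (t0 J)).lt_or_gt.resolve_right
        fun b => a.not_gt (h3 ▸ b))
    · exact mul_pos a (h3 ▸ a)
  · obtain ⟨I, rfl⟩ := Quotient.exists_rep x
    exact ⟨Quotient.mk'' I, rfl⟩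

theorem exists_inv {q : ℕ} (hq : 0 < q) {I : Ideal (𝓞 K)} (hI : I ≠ ⊥) (hc : Cop q I) :
    ∃ J, J ≠ ⊥ ∧ Cop q J ∧ Ray q (I * J) ⊤ := by
  obtain ⟨t, c, t0, h1, h2⟩ := exists_cop hq hI
  obtain ⟨s, r, h3⟩ := cop_span.1 (h2 ▸ cop_mul.2 ⟨hc, h1⟩)
  obtain ⟨s', ⟨d, hd⟩, h4⟩ := exists_pos s hq
  have h5 : (q : 𝓞 K) ∣ s' * t * (s' * t) - 1 :=
    ⟨(d * t - r) * (s' * t + 1), by linear_combination (s' * t + 1) * h3 + t * (s' * t + 1) * hd⟩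
  have h6 : Ray q (I * (c * Ideal.span {s' * (s' * t)})) ⊤ := by
    refine ⟨s' * t * (s' * t), 1, cop_span.2 isCoprime_one_left, h5, ?_, ?_⟩
    · rw [nm_mul, show nm (1 : 𝓞 K) = 1 from map_one _, mul_one, nm_mul]
      exact mul_self_pos.2 (mul_ne_zero h4.ne' (nm_ne t0))
    · rw [← mul_assoc I, ← h2, Ideal.span_singleton_mul_span_singleton, Ideal.span_singleton_one,
        Ideal.mul_top, Ideal.top_mul]
      congr 2
      ring
  exact ⟨_, right_ne_zero_of_mul (h6.ne_bot top_ne_bot),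
    (cop_mul.1 (h6.cop (by rw [Cop, top_sup_eq]))).2, h6⟩

/-- the characters of the ray class group -/
theorem ray_fam {q : ℕ} (hq : 0 < q) : ∃ (ι : Type) (_ : Fintype ι) (ξ : ι → Ideal (𝓞 K) → ℂ),
    (∀ i, HC q (ξ i)) ∧ (∀ i I, I ≠ ⊥ → Cop q I → ‖ξ i I‖ = 1) ∧
    (∃ i, ∀ I, I ≠ ⊥ → Cop q I → ξ i I = 1) ∧ ∀ I J, J ≠ ⊥ → Cop q J →
      ∑ i, (ξ i J)⁻¹ * ξ i I = if Ray q I J then (Fintype.card ι : ℂ) else 0 := by
  have := ray_finite (K := K) hq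
  obtain ⟨ι, hι, φ, h1, h2, h3, ⟨i0, h4⟩, h5⟩ := fam_abs (R := (rayCon K q).Quotient) fun x => by
    obtain ⟨I, rfl⟩ := Con.mk'_surjective x
    obtain ⟨J, j1, j2, j3⟩ := exists_inv hq I.2.1 I.2.2
    refine IsUnit.of_mul_eq_one ((rayCon K q).mk' ⟨J, j1, j2⟩) ?_
    rw [← map_mul, ← map_one (rayCon K q).mk']
    exact (Con.eq _).2 (by rwa [← Ideal.one_eq_top] at j3)
  obtain ⟨ξ, e1, e2⟩ : ∃ ξ : ι → Ideal (𝓞 K) → ℂ, (∀ i I (h : I ∈ Mq K q),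
      ξ i I = φ i ((rayCon K q).mk' ⟨I, h⟩)) ∧ ∀ i I, I ∉ Mq K q → ξ i I = 0 :=
    ⟨fun i I => if h : I ∈ Mq K q then φ i ((rayCon K q).mk' ⟨I, h⟩) else 0,
      fun i I h => dif_pos h, fun i I h => dif_neg h⟩
  have e3 : ∀ i {I J}, J ∈ Mq K q → Ray q I J → ξ i I = ξ i J := fun i I J hJ h => by
    rw [e1 i I ⟨h.ne_bot hJ.1, h.cop hJ.2⟩, e1 i J hJ]
    exact congrArg _ ((Con.eq _).2 h)
  refine ⟨ι, hι, ξ, fun i => ⟨⟨hq, fun I => ?_, fun a a' b α α' p1 p2 p3 p4 => ?_⟩, ?_,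
    fun I J => ?_, fun I h => ?_⟩, fun i I a b => ?_, ⟨i0, fun I a b => ?_⟩, fun I J a b => ?_⟩
  · by_cases h : I ∈ Mq K q
    · rw [e1 i I h, h3]
    · rw [e2 i I h, norm_zero]
      exact zero_le_one
  · have n : ∀ {a : Ideal (𝓞 K)} {α : 𝓞 K}, a * b = Ideal.span {α} → α ≠ 0 → a ≠ ⊥ :=
      fun h h0 => left_ne_zero_of_mul (h ▸ mt Ideal.span_singleton_eq_bot.1 h0)
    by_cases h : Cop q a'
    · exact e3 i ⟨n p2 (ne_of_nm p4).2, h⟩ (ray_of_per hq p1 p2 p3 p4 h)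
    · rw [e2 i a' fun g => h g.2, e2 i a fun g => h ((ray_of_per hq p2 p1 (dvd_sub_comm.1 p3)
        (by rwa [mul_comm]) g.2).cop g.2)]
  · rw [← Ideal.one_eq_top, e1 i 1 (one_mem _)]
    exact (congrArg _ (map_one _)).trans (h1 i)
  · by_cases h : I ∈ Mq K q ∧ J ∈ Mq K q
    · rw [e1 i _ (mul_mem h.1 h.2), e1 i _ h.1, e1 i _ h.2, ← h2, ← map_mul]
      rfl
    · rw [e2 i _ fun g => h ⟨⟨left_ne_zero_of_mul g.1, (cop_mul.1 g.2).1⟩,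
        ⟨right_ne_zero_of_mul g.1, (cop_mul.1 g.2).2⟩⟩, eq_comm, mul_eq_zero]
      exact (not_and_or.1 h).imp (e2 i I) (e2 i J)
  · exact (not_not.1 fun g => h (e2 i I g) : I ∈ Mq K q).2
  · rw [e1 i I ⟨a, b⟩, h3]
  · rw [e1 i0 I ⟨a, b⟩, h4]
  · by_cases h : I ∈ Mq K q
    · simp only [e1 _ I h, e1 _ J ⟨a, b⟩, h5]
      congr 1
      exact propext (Con.eq _)
    · simp only [e2 _ I h, mul_zero, sum_const_zero]
      exact (if_neg fun g => h ⟨g.ne_bot a, g.cop b⟩).symm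

end Pool.Agent.MP_48b1c3_nt.H91
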