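import Pool.Agent.MP_48b1c3_nt.Mg.H91_SMain
import Pool.Agent.MP_48b1c3_nt.Mg.H91_Cheb
import Pool.Agent.MP_48b1c3_nt.Mg.H91_Dir
import Pool.Agent.MP_48b1c3_nt.Mg.H91_RDef
import Pool.Agent.MP_48b1c3_nt.Mg.H48_TI
import Pool.Agent.MP_48b1c3_nt.Mg.H48_Sv2
import Mathlib
import Pool.Agent.MP_48b1c3_nt.H91.Norm
import Pool.Agent.MP_48b1c3_nt.Mg.H91_LogDer
import Pool.Agent.MP_48b1c3_nt.Mg.H91_Geo

attribute [-instance] IdemSemiring.toCanonicallyOrderedAdd AddQuantale.instAddLeftMono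
  RKHS.instFunLike DistribMulActionSemiHomClass.toAddMonoidHomClass IdemSemiring.toMulLeftMono
  IsOrderedMonoid.toMulLeftMono littleWedderburn MonTypeEquivalenceMon.monMonoid
  Quantale.instMulLeftMono covariant_swap_mul_of_covariant_mul
  CommMonTypeEquivalenceCommMon.commMonCommMonoid AddQuantale.instAddRightMono
  NormMulClass.toNoZeroDivisors ContinuousMonoidHom.instCoeOutOfMonoidHomClassOfContinuousMapClass
  instCoeOutOfCoeFun instCoeTCOfCoe Quantale.instMulRightMono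
  Group.IsPerfect.subsingleton_of_isMulCommutative IsOrderedCancelAddMonoid.toIsCancelAdd
  CanonicallyOrderedAdd.toMulLeftMono NonUnitalAlgHomClass.toNonUnitalRingHomClass
  BialgHomClass.toMonoidHomClass instCoeTOfCoeDep NonarchimedeanRing.toIsTopologicalRing
  Fintype.decidableForallFintype instIsRightCancelMulOfMulRightReflectLE
  continuousSub_of_discreteTopology instCoeHTCTOfCoeTailOfCoeHTC
  IsometryClass.instCoeOutIsometryEquiv IsFormallyReal.instIsReduced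
  CompletePartialOrder.toPartialOrder NonarchimedeanAddGroup.toIsTopologicalAddGroup
  DenselyNormedField.toNormedField KleeneAlgebra.toIdemSemiring TotallySeparatedSpace.t2Space
  ContinuousAddMonoidHom.instCoeOutOfAddMonoidHomClassOfContinuousMapClass
  IsStrictOrderedRing.noZeroDivisors

-- part MP_48b1c3_nt.H91.Core
section

/-! Primes of degree one with `p - 1` free of small primes. -/

namespace Pool.Agent.MP_48b1c3_nt.H91

open Finset NumberField H54 Filter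
open scoped ContDiff Topology

variable {K : Type} [Field K] [NumberField K]

open scoped Classical in
/-- the von Mangoldt function of a ray class -/
noncomputable def lamR (q : ℕ) (J : Ideal (𝓞 K)) (m : ℕ) : ℝ :=
  if m = 0 then 0 else ∑ I ∈ idN K m, if Ray q I J then lam I else 0

theorem lamR_bd (q : ℕ) (J : Ideal (𝓞 K)) (m : ℕ) : 0 ≤ lamR q J m ∧ lamR q J m ≤ lamK K m := by
  unfold lamR lamK
  split_ifs
  · exact ⟨le_rfl, le_rfl⟩
  · refine ⟨sum_nonneg fun I _ => ?_, sum_le_sum fun I _ => ?_⟩ <;> split_ifs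
    exacts [lam_nonneg I, le_rfl, le_rfl, lam_nonneg I]

theorem lamR_le (q : ℕ) (J : Ideal (𝓞 K)) (m : ℕ) :
    0 ≤ lamR q J m ∧ lamR q J m ≤ dg K * ArithmeticFunction.vonMangoldt m :=
  ⟨(lamR_bd q J m).1, (lamR_bd q J m).2.trans (lamK_le m)⟩

theorem lamR_ne {q : ℕ} {J : Ideal (𝓞 K)} {m : ℕ} (h : lamR q J m ≠ 0) :
    ∃ I, Ideal.absNorm I = m ∧ Ray q I J := by
  unfold lamR at h
  split_ifs at h
  · exact absurd rfl h
  obtain ⟨I, h1, h2⟩ := exists_ne_zero_of_sum_ne_zero h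
  exact ⟨I, (mem_idN K).1 h1, not_not.1 fun h3 => h2 (if_neg h3)⟩

theorem pushL_dir (F : Ideal (𝓞 K) → ℂ) {q : ℕ} (χ : DirichletCharacter ℂ q) (m : ℕ) :
    pushL (F * dir K χ) m = pushL F m * χ m := by
  rw [pushL, pushL, ← push_mul_norm _ fun n : ℕ => χ n]
  simp only [Pi.mul_apply, dir, mul_assoc]

theorem lamR_eq {q : ℕ} (hq : 0 < q) {J : Ideal (𝓞 K)} (h0 : J ≠ ⊥) (hJ : Cop q J) :
    ∃ (ι : Type) (_ : Fintype ι) (ξ : ι → Ideal (𝓞 K) → ℂ), (∀ i, HC q (ξ i)) ∧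
      (∀ i, ‖ξ i J‖ = 1) ∧ (∃ i, ∀ I, I ≠ ⊥ → Cop q I → ξ i I = 1) ∧ ∀ (G : ℕ → ℂ) (x : ℝ),
        ∑ i, (ξ i J)⁻¹ * sm (fun m => pushL (ξ i) m * G m) bmp x =
          sm (fun m => (Fintype.card ι * lamR q J m : ℝ) * G m) bmp x := by
  obtain ⟨ι, _, ξ, h1, h2, h3, h4⟩ := ray_fam (K := K) hq
  refine ⟨ι, ‹_›, ξ, h1, fun i => h2 i J h0 hJ, h3, fun G x => ?_⟩
  simp only [sm, mul_sum]
  rw [sum_comm]
  refine sum_congr rfl fun m hm => ?_
  have m0 : m ≠ 0 := Nat.one_le_iff_ne_zero.1 (mem_Icc.1 hm).1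
  simp only [← mul_assoc, ← sum_mul, pushL, push_apply _ m0, lamR, if_neg m0, mul_sum]
  congr 2
  rw [sum_comm, Complex.ofReal_sum]
  refine sum_congr rfl fun I _ => ?_
  simp only [mul_right_comm _ (lam I : ℂ), ← sum_mul, h4 I J h0 hJ]
  split_ifs <;> simp only [Complex.ofReal_mul, Complex.ofReal_natCast, zero_mul, mul_zero, Complex.ofReal_zero]

theorem lamR_sm {q : ℕ} (hq : 0 < q) {J : Ideal (𝓞 K)} (h0 : J ≠ ⊥) (hJ : Cop q J)
    (ψ : DirichletCharacter ℂ q) : ∃ (ι : Type) (_ : Fintype ι) (F : ι → Ideal (𝓞 K) → ℂ),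
      (∀ i, HC q (F i)) ∧ ∀ (G : ℕ → ℂ) (x : ℝ),
        ‖sm (fun m => lamR q J m * ψ m * G m) bmp x‖ ≤
          ∑ i, ‖sm (fun m => pushL (F i) m * G m) bmp x‖ := by
  obtain ⟨ι, _, ξ, h1, h2, ⟨i0, -⟩, h4⟩ := lamR_eq hq h0 hJ
  refine ⟨ι, ‹_›, fun i => ξ i * dir K ψ, fun i => (h1 i).mul_same (hc_dir hq ψ), fun G x => ?_⟩
  have c1 : (1 : ℝ) ≤ Fintype.card ι := Nat.one_le_cast.2 (Fintype.card_pos_iff.2 ⟨i0⟩)
  have h5 := (congrArg norm (h4 (fun m => ψ m * G m) x)).ge.trans (norm_sum_le _ _)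
  simp only [norm_mul, norm_inv, h2, inv_one, one_mul] at h5
  simp only [pushL_dir, mul_assoc]
  refine le_trans ?_ h5
  simp only [sm, Complex.ofReal_mul, mul_assoc, ← mul_sum, norm_mul, Complex.ofReal_natCast,
    Complex.norm_natCast]
  exact le_mul_of_one_le_left (norm_nonneg _) c1

theorem ray_mass {M : ℕ} (hM : 0 < M) (hB : BB K ∣ M) {J : Ideal (𝓞 K)} (h0 : J ≠ ⊥)
    (hJ : Cop M J) : ∃ κ R : ℝ, 0 < κ ∧ 1 ≤ R ∧ ∀ᶠ y : ℝ in atTop, ∃ x : ℝ, y / R ≤ x ∧ x ≤ y ∧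
      ∀ D, κ * y ≤ (prob (lamR M J) M (Ideal.absNorm J) x D).X := by
  obtain ⟨ι, _, ξ, h1, h2, ⟨i0, h3⟩, h4⟩ := lamR_eq hM h0 hJ
  obtain ⟨κ, R, hκ, hR, h⟩ := class_lower hB ξ h1 (fun i => (ξ i J)⁻¹)
    (fun i h => by rw [h J h0 hJ, inv_one]) ⟨i0, h3⟩
  have t0 : (0 : ℝ) < Fintype.card ι := Nat.cast_pos.2 (Fintype.card_pos_iff.2 ⟨i0⟩)
  have k0 : 0 < κ / Fintype.card ι / 2 := by positivity
  refine ⟨_, R, k0, hR, ?_⟩
  filter_upwards [h, cheb_np K k0] with y ⟨x, x1, x2, x3⟩ h1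
  refine ⟨x, x1, x2, fun D => ?_⟩
  have e := h4 1 x
  simp only [Pi.one_apply, mul_one] at e
  rw [e, cheb_re (fun m => Fintype.card ι * lamR M J m) fun m _ => rfl] at x3
  simp only [mul_assoc, ← mul_sum] at x3
  have s1 : ∑ m ∈ Icc 1 ⌊x⌋₊, lamR M J m * bump (Real.log (m / x)) ≤
      (prob (lamR M J) M (Ideal.absNorm J) x D).X +
        ∑ m ∈ Icc 1 ⌊x⌋₊, if m.Prime then 0 else lamK K m := by
    simp only [prob, Om]
    rw [sum_filter, ← sum_add_distrib]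
    refine sum_le_sum fun m _ => ?_
    obtain ⟨l0, l1⟩ := lamR_bd M J m
    rw [abs_of_nonneg l0]
    by_cases c2 : m.Prime
    · rw [if_pos c2, add_zero]
      split_ifs with c1
      · rfl
      · rw [show lamR M J m = 0 from not_not.1 fun h5 => c1 ⟨c2, by
          obtain ⟨I, rfl, h6⟩ := lamR_ne h5
          exact h6.norm⟩, zero_mul]
    · rw [if_neg c2, if_neg fun h => c2 h.1, zero_add]
      exact (mul_le_of_le_one_right l0 bump.le_one).trans l1
  have s2 := (div_le_iff₀' t0).2 x3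
  rw [← div_mul_eq_mul_div] at s2
  linarith only [h1 x x2, s1, s2]

theorem core_sw {M : ℕ} (hM : 0 < M) (hD : DD K ∣ M) (hB : BB K ∣ M) {F : Ideal (𝓞 K) → ℂ}
    (hF : HC M F) (A B : ℕ) : ∃ C : ℝ, 0 < C ∧ ∀ x : ℝ, 3 ≤ x →
      ∀ (q : ℕ) (χ : DirichletCharacter ℂ q), 1 < q → Squarefree q → q.Coprime M →
        χ.IsPrimitive → (q : ℝ) ≤ Real.log x ^ B →
          ‖sm (fun m => pushL F m * χ m) bmp x‖ ≤ C * x / Real.log x ^ A := by
  obtain ⟨C, C0, hC⟩ := swK (fam_dir hM hD hB hF) test_bmp A (B + 1)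
  obtain ⟨C', C1, hC', -⟩ := test_bmp.bound
  refine ⟨C + dg K * C' * M ^ (A + 1) + 1, by positivity, fun x hx q χ h1 h2 h3 h4 h5 => ?_⟩
  have L1 := sw_one_le hx
  have x0 : 0 ≤ x := by linarith only [hx]
  rcases le_total (M : ℝ) (Real.log x) with h | h
  · have := hC x hx _ ⟨q, χ, h1, h2, h3, h4, rfl⟩ (by
      rw [pow_succ', Nat.cast_mul]
      gcongr)
    rw [show ⇑(pushL (F * dir K χ)) = _ from funext (pushL_dir F χ)] at this
    refine this.trans ?_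
    gcongr
    have : 0 ≤ dg K * C' * M ^ (A + 1) := by positivity
    linarith only [this]
  · have h6 : ∀ m ∈ Icc 1 ⌊x⌋₊, ‖(pushL F m * χ m : ℂ) * bmp (Real.log (m / x))‖ ≤
        dg K * M * 1 * C' := fun m hm => by
      have m0 : (0 : ℝ) < m := by exact_mod_cast (mem_Icc.1 hm).1
      have := (ArithmeticFunction.vonMangoldt_le_log (n := m)).trans
        ((Real.log_le_log m0 ((Nat.le_floor_iff x0).1 (mem_Icc.1 hm).2)).trans h)
      rw [norm_mul, norm_mul]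
      gcongr
      exacts [(norm_pushL_le hF.le m).trans ((lamK_le m).trans (by gcongr)), χ.norm_le_one _, hC' _]
    refine ((norm_sum_le _ _).trans (sum_le_card_nsmul _ _ _ h6)).trans ?_
    rw [Nat.card_Icc, Nat.add_sub_cancel, nsmul_eq_mul, le_div_iff₀ (by positivity)]
    calc _ ≤ x * (dg K * M * 1 * C') * M ^ A := by gcongr; exact Nat.floor_le x0
      _ = dg K * C' * M ^ (A + 1) * x := by ring
      _ ≤ _ := by gcongr; linarith only [C0]

theorem core_sum {ι : Type} [Fintype ι] {θ : ℝ} (T : ι → ℝ → ℕ → ℝ)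
    (h : ∀ i, ∃ (δ C : ℝ) (k : ℕ), 0 < δ ∧ 0 < C ∧ ∀ (x : ℝ) (D : ℕ), 3 ≤ x → 1 ≤ D → D ≤ x ^ θ →
      T i x D ≤ C * (x * Real.log x ^ k + D * x ^ (1 - δ))) :
    ∃ (δ C : ℝ) (k : ℕ), 0 < δ ∧ 0 < C ∧ ∀ (x : ℝ) (D : ℕ), 3 ≤ x → 1 ≤ D → D ≤ x ^ θ →
      ∑ i, T i x D ≤ C * (x * Real.log x ^ k + D * x ^ (1 - δ)) := by
  simp only [← Finset.sum_apply]
  refine sum_induction T (fun S => ∃ (δ C : ℝ) (k : ℕ), 0 < δ ∧ 0 < C ∧ ∀ (x : ℝ) (D : ℕ), 3 ≤ x →
    1 ≤ D → D ≤ x ^ θ → S x D ≤ C * (x * Real.log x ^ k + D * x ^ (1 - δ))) ?_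
    ⟨1, 1, 0, one_pos, one_pos, fun x D hx _ _ => ?_⟩ fun i _ => h i
  · rintro S S' ⟨δ, C, k, d0, C0, h⟩ ⟨δ', C', k', d1, C1, h'⟩
    refine ⟨min δ δ', C + C', max k k', lt_min d0 d1, add_pos C0 C1, fun x D hx h1 h2 => ?_⟩
    have l1 := sw_one_le hx
    have x1 : 1 ≤ x := by linarith only [hx]
    rw [add_mul]
    refine add_le_add ((h x D hx h1 h2).trans ?_) ((h' x D hx h1 h2).trans ?_)
    · gcongr
      exacts [le_max_left _ _, min_le_left _ _]
    · gcongr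
      exacts [le_max_right _ _, min_le_right _ _]
  · have x0 : 0 ≤ x := by linarith only [hx]
    change (0 : ℝ) ≤ _
    positivity

theorem core_bv {M : ℕ} (hM : 0 < M) {J : Ideal (𝓞 K)} (h0 : J ≠ ⊥) (hJ : Cop M J)
    (hD : DD K ∣ M) (hB : BB K ∣ M)
    {θ : ℝ} (h1 : 0 < θ) (h2 : θ * (max 4 (dg K) : ℕ) < 2) : ∃ C : ℝ, ∀ᶠ x : ℝ in atTop, ∀ z : ℝ,
      (prob (lamR M J) M (Ideal.absNorm J) x (x ^ θ)).R M ∅ z ≤ C * x / Real.log x ^ 2 := by
  have m4 : (4 : ℝ) ≤ (max 4 (dg K) : ℕ) := by exact_mod_cast le_max_left _ _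
  have mn : (dg K : ℝ) ≤ (max 4 (dg K) : ℕ) := by exact_mod_cast le_max_right _ _
  refine bv hM (cop_iff.1 hJ) _ (dg K) (lamR_le M J) h1 (by nlinarith only [h2, m4]) (fun ψ => ?_)
    (fun ψ A B => ?_) 2
  all_goals obtain ⟨ι, _, F, hF, hs⟩ := lamR_sm hM h0 hJ ψ
  · obtain ⟨δ, C, k, d0, C0, h⟩ := core_sum (θ := θ) (fun i x D => ∑ j ∈ Xf (Qs M D),
      ‖sm (fun m => pushL (F i) m * j.2 m) bmp x‖) fun i =>
      have H := hF i
      mean_value (push (F i)) (pushM (F i)) (pushL (F i)) (dg K)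
        (pushM_mul H.one H.mul) (push_P H.one H.mul H.le).der (norm_pushM_le H.le)
        (norm_push_le H.le) (fun m => (norm_pushL_le H.le m).trans (lamK_le m)) (Qs M)
        (fun D => filter_subset _ _) (ν := (max 4 (dg K) : ℕ) / 2) (by linarith only [m4]) h1 (by linarith)
        (fun v hv δ hδ => by
          obtain ⟨C, hC⟩ := avg_I hM hD hB H.toPF hv hδ
          refine ⟨|C|, fun y D hy hD => (hC y D hy hD).trans ?_⟩
          have : (1 : ℝ) ≤ D := by exact_mod_cast hD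
          gcongr
          exact le_abs_self C) test_bmp
    refine ⟨δ, C, k, d0, C0, fun x D a b c => le_trans ?_ (h x D a b c)⟩
    rw [sum_comm]
    exact sum_le_sum fun j _ => hs _ x
  · choose C C0 hC using fun i => core_sw hM hD hB (hF i) A B
    have C1 : 0 ≤ ∑ i, C i := sum_nonneg fun i _ => (C0 i).le
    refine ⟨∑ i, C i + 1, by positivity, fun x hx q χ a b c d e => (hs _ x).trans
      ((sum_le_sum fun i _ => hC i x hx q χ a b c d e).trans ?_)⟩
    have l1 := sw_one_le hx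
    rw [← sum_div, ← sum_mul]
    gcongr
    linarith only []

theorem core_count (M : ℕ) (J : Ideal (𝓞 K)) {x : ℝ} (hx : 1 ≤ x) (D z : ℝ) {T : Set ℕ}
    (hT : T.Finite) (h : ∀ p : ℕ, p.Prime → (p : ℝ) ≤ x →
      (∃ I : Ideal (𝓞 K), Ideal.absNorm I = p ∧ Ray M I J) → (∀ l ∈ Pw M z, ¬ l ∣ p - 1) → p ∈ T) :
    (prob (lamR M J) M (Ideal.absNorm J) x D).S M ∅ z ≤ dg K * Real.log x * T.ncard := by
  classical
  have L0 := Real.log_nonneg hx
  rw [SP.S, ← sum_filter_ne_zero, Set.ncard_eq_toFinset_card T hT, mul_comm, ← nsmul_eq_mul]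
  refine (sum_le_card_nsmul _ _ (dg K * Real.log x) fun p hp => ?_).trans
    (nsmul_le_nsmul_left (by positivity) (card_le_card fun p hp => ?_))
  all_goals
    obtain ⟨h1, h2⟩ := mem_filter.1 hp
    obtain ⟨h3, -, h4⟩ := mem_filter.1 h1
    obtain ⟨h5, h6, -⟩ := mem_filter.1 h3
    have h8 := (Nat.le_floor_iff (by linarith)).1 (mem_Icc.1 h5).2
  · refine (mul_le_of_le_one_right (abs_nonneg _) bump.le_one).trans ?_
    rw [abs_of_nonneg (lamR_le M J p).1]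
    refine (lamR_le M J p).2.trans ?_
    rw [ArithmeticFunction.vonMangoldt_apply_prime h6]
    gcongr
    exact_mod_cast h6.pos
  · exact hT.mem_toFinset.2 (h p h6 h8 (lamR_ne fun h9 => h2 (by simp [prob, h9])) h4)

theorem core_aux {M : ℕ} (hM : 0 < M) (h6 : 6 ∣ M) (hD : DD K ∣ M) (hB : BB K ∣ M)
    {I₀ : Ideal (𝓞 K)} (i0 : I₀ ≠ ⊥) (h0 : Cop M I₀) :
    ∃ α c : ℝ, 1 / (max 4 (dg K) : ℕ) < α ∧ 0 < c ∧ ∀ᶠ x : ℝ in atTop,
      c * x / Real.log x ^ 2 ≤ Set.ncard {p : ℕ | p.Prime ∧ (p : ℝ) ≤ x ∧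
        (∃ I : Ideal (𝓞 K), Ideal.absNorm I = p ∧ Ray M I I₀) ∧
          ∀ l : ℕ, l.Prime → l ∣ p - 1 → l ∣ M ∨ x ^ α < l} := by
  have h2 : 2 ∣ M := Dvd.dvd.trans (by norm_num) h6
  have n0 : (0 : ℝ) < dg K := by exact_mod_cast dg_pos K
  obtain ⟨κ, R, κ0, R1, hm⟩ := ray_mass hM hB i0 h0
  obtain ⟨C, C0, hH⟩ := hypH hM h6 (Ideal.absNorm I₀) (lamR M I₀) (dg K) (fun p hp => by
    rw [abs_of_nonneg (lamR_le M I₀ p).1, ← ArithmeticFunction.vonMangoldt_apply_prime hp]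
    exact (lamR_le M I₀ p).2) κ0
  obtain ⟨s, c, s1, s2, c0, hL⟩ := sieve_main hM h2 C0
  obtain ⟨L, z₀, L0, hL⟩ := hL (c / 2) (by positivity)
  obtain ⟨c₁, c₂, c1, -, hV⟩ := VV_bounds hM h2
  have m4 : (4 : ℝ) ≤ (max 4 (dg K) : ℕ) := by exact_mod_cast le_max_left _ _
  have bvv := fun θ => core_bv (θ := θ) hM i0 h0 hD hB
  generalize ((max 4 (dg K) : ℕ) : ℝ) = m at *
  obtain ⟨a, ha⟩ : ∃ a, a = (s + 2) / (2 * m * s) := ⟨_, rfl⟩
  have a1 : 1 / m < a := by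
    rw [ha, div_lt_div_iff₀ (by positivity) (by positivity)]
    nlinarith only [s2, m4]
  have a0 : 0 < a := lt_trans (by positivity) a1
  have a2 : a * s * m < 2 := by
    rw [ha]
    field_simp
    linarith only [s2]
  obtain ⟨B, hB⟩ := bvv (a * s) (by positivity) a2
  have t1 := tendsto_rpow_atTop a0
  obtain ⟨X, hX⟩ := eventually_atTop.1 (hH.and (hB.and ((eventually_ge_atTop 3).and
    ((t1.eventually_ge_atTop z₀).and ((t1.eventually_ge_atTop 2).and
      (Real.tendsto_log_atTop.eventually_ge_atTop (L * |B| / (c * κ * c₁ / (4 * a)))))))))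
  refine ⟨(1 / m + a) / 2, c * κ * c₁ / (4 * a) / dg K, by linarith only [a1], by positivity, ?_⟩
  filter_upwards [hm, (tendsto_id.atTop_div_const (by linarith only [R1, s1, s2] : 0 < R)).eventually_ge_atTop X,
    (tendsto_rpow_atTop (by linarith only [a1] : 0 < (a - 1 / m) / 2)).eventually_gt_atTop (R ^ a)]
    with y ⟨x, x1, x2, x3⟩ y1 y2
  obtain ⟨k1, k2, k3, k4, k5, k6⟩ := hX x (y1.trans x1)
  have x0 : 0 < x := by linarith only [s1, s2, k3]
  have y0 : 0 < y := by linarith only [s1, s2, x2, k3]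
  have l1 := sw_one_le k3
  have k7 := hL _ (k1 (x ^ (a * s)) (by
      rw [← Real.rpow_natCast, ← Real.rpow_mul x0.le]
      refine (Real.rpow_le_rpow_of_exponent_le (by linarith only [s1, s2, k3]) (z := 1) ?_).trans (Real.rpow_one x).le
      push_cast
      nlinarith only [m4, a2])
    (le_trans (by gcongr) (x3 _))) ∅ (x ^ a) k4 (by simp [Adm])
    (by simp [pe, prob, Real.rpow_mul x0.le])
  have k8 := core_count M I₀ (by linarith only [s1, s2, k3] : 1 ≤ x) (x ^ (a * s)) (x ^ a)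
    (T := {p : ℕ | p.Prime ∧ (p : ℝ) ≤ y ∧
        (∃ I : Ideal (𝓞 K), Ideal.absNorm I = p ∧ Ray M I I₀) ∧
          ∀ l : ℕ, l.Prime → l ∣ p - 1 → l ∣ M ∨ y ^ ((1 / m + a) / 2) < l})
    ((Set.finite_Iic ⌊y⌋₊).subset fun p hp => Nat.le_floor hp.2.1)
    fun p p1 p2 p4 p5 => ⟨p1, p2.trans x2, p4, fun l q1 q2 => or_iff_not_imp_left.2
      fun q3 => lt_of_lt_of_le ?_ ((Real.rpow_le_rpow (by positivity) x1 a0.le).trans
        (not_lt.1 fun q4 => p5 l (mem_Pw.2 ⟨q4, q1, q3⟩) q2))⟩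
  swap
  · rw [Real.div_rpow y0.le (by linarith only [R1, s1, s2]), lt_div_iff₀ (by positivity)]
    refine (mul_lt_mul_of_pos_left y2 (by positivity)).trans_eq ?_
    rw [← Real.rpow_add y0]
    ring_nf
  have k9 : κ * y * (c₁ / (a * Real.log x)) ≤
      (prob (lamR M I₀) M (Ideal.absNorm I₀) x (x ^ (a * s))).E M ∅ (x ^ a) := by
    rw [SP.E, ge, prod_empty, mul_one, ← Real.log_rpow x0]
    exact mul_le_mul (x3 _) (hV _ k5).1 (div_nonneg c1.le (Real.log_nonneg (by linarith only [s1, s2, k5])))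
      (SP.hX _)
  have k10 : L * (B * x / Real.log x ^ 2) ≤ c * κ * c₁ / (4 * a) * y / Real.log x := by
    rw [div_le_iff₀' (by positivity)] at k6
    calc _ ≤ L * (|B| * y / Real.log x ^ 2) := by gcongr; exact le_abs_self B
      _ = L * |B| * y / Real.log x ^ 2 := by ring
      _ ≤ c * κ * c₁ / (4 * a) * Real.log x * y / Real.log x ^ 2 := by gcongr
      _ = _ := by field_simp
  have k11 := mul_le_mul_of_nonneg_left k9 (by linarith only [c0] : 0 ≤ c - c / 2)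
  have k12 := mul_le_mul_of_nonneg_left (k2 (x ^ a)) L0
  have k13 : (c - c / 2) * (κ * y * (c₁ / (a * Real.log x))) =
      2 * (c * κ * c₁ / (4 * a) * y / Real.log x) := by
    field_simp
    ring
  calc _ ≤ c * κ * c₁ / (4 * a) / dg K * y / Real.log x ^ 2 := by gcongr
    _ = c * κ * c₁ / (4 * a) * y / Real.log x / (dg K * Real.log x) := by field_simp
    _ ≤ _ := by
      rw [div_le_iff₀' (by positivity)]
      linarith only [k7, k8, k10, k11, k12, k13]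

variable (K) in
theorem core : CoreR K (1 / (max 4 (dg K) : ℕ)) := by
  have N0 := mul_pos (DD_pos K) (BB_pos K)
  refine ⟨3 + DD K * BB K, fun M I₀ hM hw i0 h0 => ?_⟩
  have key : ∀ l : ℕ, l.Prime → l ∣ M * (DD K * BB K) → l ∣ M := fun l hl h =>
    ((Nat.Prime.dvd_mul hl).1 h).elim id fun h => hw l hl ((Nat.le_of_dvd N0 h).trans (by omega))
  obtain ⟨α, c, h1, h2, h3⟩ := core_aux (M := M * (DD K * BB K)) (mul_pos hM N0)
    ((Nat.Coprime.mul_dvd_of_dvd_of_dvd (by norm_num) (hw 2 Nat.prime_two (by omega))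
      (hw 3 Nat.prime_three (by omega))).mul_right _) ((dvd_mul_right _ _).mul_left _)
    ((dvd_mul_left _ _).mul_left _) i0 (cop_iff.2 (Nat.coprime_of_dvd fun l hl h1 h2 =>
      hl.one_lt.ne' (Nat.eq_one_of_dvd_coprimes (cop_iff.1 h0) h1 (key l hl h2))))
  refine ⟨α, c, h1, h2, h3.mono fun x hx => hx.trans (Nat.cast_le.2 (Set.ncard_le_ncard
    (fun p hp => ⟨hp.1, hp.2.1, hp.2.2.1.imp fun I h => ⟨h.1, h.2.mono (dvd_mul_right _ _)⟩,
      fun l q1 q2 => (hp.2.2.2 l q1 q2).imp_left (key l q1)⟩)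
    ((Set.finite_Iic ⌊x⌋₊).subset fun p hp => Nat.le_floor hp.2.1)))⟩

end Pool.Agent.MP_48b1c3_nt.H91

end

-- part MP_48b1c3_nt.H48.Core2
section

/-! The core estimate in large degree. -/

namespace Pool.Agent.MP_48b1c3_nt.H48

open Finset NumberField H54 H91 Filter
open scoped Classical BigOperators Topology

variable {K : Type} [Field K] [NumberField K]

theorem core2_bv {A η : ℝ} (hA : 1 ≤ A) (h0 : 0 < η) (hη : η ≤ 0.01) {N M : ℕ}
    (hN : 40 * (A + 3) ≤ N) (hM : 0 < M) {J : Ideal (𝓞 K)} (j0 : J ≠ ⊥) (hJ : Cop M J)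
    (hD : DD K ∣ M) (hB : BB K ∣ M) (hI : ∀ F : Ideal (𝓞 K) → ℂ, PF M F → ∀ v, Test v →
      ∃ δ C : ℝ, 0 < δ ∧ ∀ᶠ x : ℝ in atTop, ∀ e : ℕ, 1 ≤ e → (e : ℝ) ≤ x ^ (4 * ((A + 3) / N)) →
        ∑ f ∈ (Mod M A η (x ^ (1 / N : ℝ))).erase ∅,
          wf f * ‖sm (fun m => push F m * Qf f (e * m)) v (x / e)‖ ≤
            C * (x / e) * x ^ (-δ)) :
    ∃ C : ℝ, ∀ᶠ x : ℝ in atTop, ∀ D : ℝ, ∑ d ∈ Mod M A η (x ^ (1 / N : ℝ)),
      64 ^ #d * |(prob (lamR M J) M (Ideal.absNorm J) x D).cnt d -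
        (prob (lamR M J) M (Ideal.absNorm J) x D).X * ge d| ≤ C * x / Real.log x ^ 2 := by
  have N0 : (0 : ℝ) < N := by linarith only [hA, hN]
  have t0 : 0 < (A + 3) / N := by positivity
  have t1 : (A + 3) / N ≤ 1 / 20 := by
    rw [div_le_div_iff₀ N0 (by norm_num)]
    linarith only [hA, h0, hη, hN]
  have sp : ∀ x : ℝ, 1 ≤ x → ∀ f ∈ Mod M A η (x ^ (1 / N : ℝ)), Prs M f ∧
      pe f ≤ x ^ ((A + 3) / N) ∧ ∀ d ⊆ f, d ∈ Mod M A η (x ^ (1 / N : ℝ)) := fun x hx f hf => by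
    obtain ⟨a, b, c⟩ := mod_spec hA hη h0 (Real.one_le_rpow hx (by positivity)) hf
    refine ⟨a, b.trans_eq ?_, c⟩
    rw [← Real.rpow_mul (by linarith only [h0, hη, hx])]
    congr 1
    ring
  refine bv2 hM (cop_iff.1 hJ) _ (dg K) (lamR_le M J)
    (fun x => Mod M A η (x ^ (1 / N : ℝ))) (fun x hx f hf => ⟨(sp x hx f hf).1,
      (sp x hx f hf).2.1.trans (Real.rpow_le_rpow_of_exponent_le hx t1), (sp x hx f hf).2.2⟩)
    (fun ψ B => ?_) 2
  obtain ⟨ι, _, F, hF, hs⟩ := lamR_sm hM j0 hJ ψ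
  choose C hC using fun i => have H := hF i
    mv2 (push (F i)) (pushM (F i)) (pushL (F i)) (dg K)
    (pushM_mul H.one H.mul) (push_P H.one H.mul H.le).der (norm_pushM_le H.le) (norm_push_le H.le)
    (fun m => (norm_pushL_le H.le m).trans (lamK_le m)) (M := M) t0 t1
    (fun x => (Mod M A η (x ^ (1 / N : ℝ))).erase ∅)
    (fun x hx f hf => ⟨nonempty_iff_ne_empty.2 (mem_erase.1 hf).1,
      (sp x hx f (mem_erase.1 hf).2).1, (sp x hx f (mem_erase.1 hf).2).2.1⟩) (hI _ H.toPF)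
    (core_sw hM hD hB H) B
  refine ⟨∑ i, C i, ?_⟩
  filter_upwards [eventually_all.2 hC, eventually_ge_atTop 1] with x hx x1
  rw [sum_mul, sum_div]
  refine le_trans ?_ (sum_le_sum fun i _ => hx i)
  rw [sum_comm]
  refine sum_le_sum fun f hf => ?_
  rw [← mul_sum]
  exact mul_le_mul_of_nonneg_left (hs _ x)
    (wf_nonneg fun p hp => ((sp x x1 f (mem_erase.1 hf).2).1 p hp).1)

theorem core2_aux {A η : ℝ} (h0 : 0 < η) {N M : ℕ} (hN : 0 < N) (hM : 0 < M) (h2 : 2 ∣ M)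
    (hB : BB K ∣ M) {I₀ : Ideal (𝓞 K)} (i0 : I₀ ≠ ⊥) (hI : Cop M I₀)
    (hS : ∀ᶠ X : ℝ in atTop, ∀ P : SP, 0.1 * P.E M ∅ (X ^ (0.9 : ℝ)) -
      9 * ∑ d ∈ Mod M A η X, 64 ^ #d * |P.cnt d - P.X * ge d| ≤ P.S M ∅ (X ^ (2 + η)))
    {B : ℝ} (hR : ∀ᶠ x : ℝ in atTop, ∀ D : ℝ, ∑ d ∈ Mod M A η (x ^ (1 / N : ℝ)),
      64 ^ #d * |(prob (lamR M I₀) M (Ideal.absNorm I₀) x D).cnt d -
        (prob (lamR M I₀) M (Ideal.absNorm I₀) x D).X * ge d| ≤ B * x / Real.log x ^ 2) :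
    ∃ c : ℝ, 0 < c ∧ ∀ᶠ x : ℝ in atTop,
      c * x / Real.log x ^ 2 ≤ Set.ncard {p : ℕ | p.Prime ∧ (p : ℝ) ≤ x ∧
        (∃ I : Ideal (𝓞 K), Ideal.absNorm I = p ∧ Ray M I I₀) ∧
          ∀ l : ℕ, l.Prime → l ∣ p - 1 → l ∣ M ∨ x ^ ((2 + 3 * η / 4) / N) < l} := by
  have n0 : (0 : ℝ) < dg K := by exact_mod_cast dg_pos K
  have N0 : (0 : ℝ) < N := by exact_mod_cast hN
  obtain ⟨κ, R, κ0, R1, hm⟩ := ray_mass hM hB i0 hI
  obtain ⟨c₁, c₂, c1, -, hV⟩ := VV_bounds hM h2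
  have t1 := tendsto_rpow_atTop (by positivity : (0 : ℝ) < 1 / N)
  obtain ⟨b, hb⟩ : ∃ b : ℝ, b = 1 / N * 0.9 := ⟨_, rfl⟩
  obtain ⟨a, ha⟩ : ∃ a : ℝ, a = 1 / N * (2 + η) := ⟨_, rfl⟩
  have b0 : 0 < b := by rw [hb]; positivity
  have a0 : 0 < a := by rw [ha]; positivity
  obtain ⟨X, hX⟩ := eventually_atTop.1 ((t1.eventually hS).and (hR.and ((eventually_ge_atTop 3).and
    (((tendsto_rpow_atTop b0).eventually_ge_atTop 2).and
      (Real.tendsto_log_atTop.eventually_ge_atTop (9 * |B| / (κ * c₁ / (20 * b))))))))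
  refine ⟨κ * c₁ / (20 * b) / dg K, by positivity, ?_⟩
  filter_upwards [hm, (tendsto_id.atTop_div_const (by linarith only [R1] : 0 < R)).eventually_ge_atTop X,
    (tendsto_rpow_atTop (by positivity : 0 < η / 4 / N)).eventually_gt_atTop (R ^ a)]
    with y ⟨x, x1, x2, x3⟩ y1 y2
  obtain ⟨k1, k2, k3, k5, k6⟩ := hX x (y1.trans x1)
  have x0 : 0 < x := by linarith only [k3]
  have y0 : 0 < y := by linarith only [x2, k3]
  have l1 := sw_one_le k3
  have k7 := k1 (prob (lamR M I₀) M (Ideal.absNorm I₀) x 1)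
  rw [← Real.rpow_mul x0.le, ← Real.rpow_mul x0.le, ← ha, ← hb] at k7
  have k8 := core_count M I₀ (by linarith only [k3] : 1 ≤ x) 1 (x ^ a)
    (T := {p : ℕ | p.Prime ∧ (p : ℝ) ≤ y ∧
        (∃ I : Ideal (𝓞 K), Ideal.absNorm I = p ∧ Ray M I I₀) ∧
          ∀ l : ℕ, l.Prime → l ∣ p - 1 → l ∣ M ∨ y ^ ((2 + 3 * η / 4) / N) < l})
    ((Set.finite_Iic ⌊y⌋₊).subset fun p hp => Nat.le_floor hp.2.1)
    fun p p1 p2 p4 p5 => ⟨p1, p2.trans x2, p4, fun l q1 q2 => or_iff_not_imp_left.2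
      fun q3 => lt_of_lt_of_le ?_ ((Real.rpow_le_rpow (by positivity) x1 a0.le).trans
        (not_lt.1 fun q4 => p5 l (mem_Pw.2 ⟨q4, q1, q3⟩) q2))⟩
  swap
  · rw [Real.div_rpow y0.le (by linarith only [R1]), lt_div_iff₀ (by positivity)]
    refine (mul_lt_mul_of_pos_left y2 (by positivity)).trans_eq ?_
    rw [← Real.rpow_add y0, ha]
    congr 1
    ring
  have k9 : κ * y * (c₁ / (b * Real.log x)) ≤
      (prob (lamR M I₀) M (Ideal.absNorm I₀) x 1).E M ∅ (x ^ b) := by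
    rw [SP.E, ge, prod_empty, mul_one, ← Real.log_rpow x0]
    exact mul_le_mul (x3 _) (hV _ k5).1 (div_nonneg c1.le (Real.log_nonneg (by linarith only [k5])))
      (SP.hX _)
  have k10 : 9 * (B * x / Real.log x ^ 2) ≤ κ * c₁ / (20 * b) * y / Real.log x := by
    rw [div_le_iff₀' (by positivity)] at k6
    calc _ ≤ 9 * (|B| * y / Real.log x ^ 2) := by gcongr; exact le_abs_self B
      _ = 9 * |B| * y / Real.log x ^ 2 := by ring
      _ ≤ κ * c₁ / (20 * b) * Real.log x * y / Real.log x ^ 2 := by gcongr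
      _ = _ := by field_simp
  have k12 := k2 1
  have k13 : 0.1 * (κ * y * (c₁ / (b * Real.log x))) =
      2 * (κ * c₁ / (20 * b) * y / Real.log x) := by
    field_simp
    ring
  calc _ ≤ κ * c₁ / (20 * b) / dg K * y / Real.log x ^ 2 := by gcongr
    _ = κ * c₁ / (20 * b) * y / Real.log x / (dg K * Real.log x) := by field_simp
    _ ≤ _ := by
      rw [div_le_iff₀' (by positivity)]
      linarith only [k7, k8, k9, k10, k12, k13]

theorem core2 : ∃ (η : ℝ) (n₀ : ℕ), 0 < η ∧ 0 < n₀ ∧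
    ∀ (K : Type) [Field K] [NumberField K] (N : ℕ),
      (n₀ ≤ dg K ∧ N = dg K ∨ n₀ * dg K ≤ N) → CoreR K ((2 + η) / N) := by
  obtain ⟨A, η, hA, h0, hη, hS⟩ := sv_main
  obtain ⟨n₀, w, hn, hT⟩ := ti hA h0 hη
  have n0 : 0 < n₀ := by
    have : (0 : ℝ) < n₀ := by linarith only [hA, hn]
    exact_mod_cast this
  refine ⟨η / 2, n₀, by positivity, n0, fun K _ _ N hN => ?_⟩
  have nN : n₀ ≤ N := hN.elim (fun h => h.2 ▸ h.1) fun h =>
    (Nat.le_mul_of_pos_right _ (dg_pos K)).trans h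
  have N0 := mul_pos (DD_pos K) (BB_pos K)
  refine ⟨w + 3 + DD K * BB K, fun M I₀ hM hw i0 h1 => ?_⟩
  have key : ∀ l : ℕ, l.Prime → l ∣ M * (DD K * BB K) → l ∣ M := fun l hl h =>
    ((Nat.Prime.dvd_mul hl).1 h).elim id fun h => hw l hl ((Nat.le_of_dvd N0 h).trans (by omega))
  have m0 := mul_pos hM N0
  have m2 : 2 ∣ M * (DD K * BB K) := (hw 2 Nat.prime_two (by omega)).mul_right _
  have mD : DD K ∣ M * (DD K * BB K) := (dvd_mul_right _ _).mul_left _
  have mB : BB K ∣ M * (DD K * BB K) := (dvd_mul_left _ _).mul_left _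
  have mc : Cop (M * (DD K * BB K)) I₀ := cop_iff.2 (Nat.coprime_of_dvd fun l hl h2 h3 =>
    hl.one_lt.ne' (Nat.eq_one_of_dvd_coprimes (cop_iff.1 h1) h2 (key l hl h3)))
  obtain ⟨B, hB⟩ := core2_bv hA h0 hη (hn.trans (Nat.cast_le.2 nN)) m0 i0 mc mD mB
    (hT K N _ hN m0 mD mB fun l hl h => (hw l hl (by omega)).mul_right _)
  obtain ⟨c, h2, h3⟩ := core2_aux h0 (n0.trans_le nN) m0 m2 mB i0 mc (hS _ m0 m2) hB
  have : (0 : ℝ) < N := by exact_mod_cast n0.trans_le nN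
  refine ⟨(2 + 3 * η / 4) / N, c, div_lt_div_of_pos_right (by linarith only [h0]) this, h2, h3.mono fun x hx =>
    hx.trans (Nat.cast_le.2 (Set.ncard_le_ncard
    (fun p hp => ⟨hp.1, hp.2.1, hp.2.2.1.imp fun I h => ⟨h.1, h.2.mono (dvd_mul_right _ _)⟩,
      fun l q1 q2 => (hp.2.2.2 l q1 q2).imp_left (key l q1)⟩)
    ((Set.finite_Iic ⌊x⌋₊).subset fun p hp => Nat.le_floor hp.2.1)))⟩

end Pool.Agent.MP_48b1c3_nt.H48

end

-- part MP_48b1c3_nt.H48.Main
section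

/-! The rank threshold. -/

namespace Pool.Agent.MP_48b1c3_nt.H48

open Finset NumberField H54 H91 Filter

theorem core_thr : ∃ (r₀ : ℕ) (δ : ℝ), 0 < δ ∧ ∀ (K : Type) [Field K] [NumberField K] (r : ℕ),
    max 3 (min ((dg K : ℝ) - 1) (r₀ + (1 / 2 - δ) * dg K)) ≤ r →
      0 < r ∧ ∃ β : ℝ, CoreR K β ∧ 1 ≤ β * (r + 1) := by
  obtain ⟨η, n₀, h0, h1, h⟩ := core2
  refine ⟨n₀ * n₀, η / (2 * (2 + η)), by positivity, fun K _ _ r hr => ?_⟩
  obtain ⟨h3, h4⟩ := max_le_iff.1 hr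
  have hn : (0 : ℝ) < dg K := by exact_mod_cast dg_pos K
  have e : 1 / 2 - η / (2 * (2 + η)) = 1 / (2 + η) := by field_simp; ring
  have r0 : (0 : ℝ) ≤ r := r.cast_nonneg
  refine ⟨by exact_mod_cast (show (0 : ℝ) < r by linarith only [h3]), ?_⟩
  rw [e] at h4
  rcases min_le_iff.1 h4 with h5 | h5
  · refine ⟨_, core K, ?_⟩
    rw [one_div, inv_mul_eq_div, one_le_div (by positivity)]
    push_cast
    exact max_le (by linarith only [h3]) (by linarith only [h5])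
  · have h6 : 0 ≤ 1 / (2 + η) * dg K := by positivity
    rcases le_or_gt n₀ (dg K) with h7 | h7
    · refine ⟨_, h K _ (.inl ⟨h7, rfl⟩), ?_⟩
      rw [div_mul_eq_mul_div, one_le_div hn, ← div_le_iff₀' (by positivity)]
      have : (0 : ℝ) ≤ (n₀ * n₀ : ℕ) := Nat.cast_nonneg _
      rw [one_div, inv_mul_eq_div] at h5
      linarith only [h5]
    · refine ⟨_, h K (n₀ * n₀) (.inr (Nat.mul_le_mul_left _ h7.le)), ?_⟩
      rw [div_mul_eq_mul_div, one_le_div (by positivity)]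
      nlinarith only [h0, h5, h6]

variable {K : Type} [Field K] [NumberField K]

theorem rank_succ : Units.rank K + 1 = Fintype.card (InfinitePlace K) := by
  have : 0 < Fintype.card (InfinitePlace K) := Fintype.card_pos
  unfold Units.rank
  omega

theorem thr_of_degree {r₀ : ℕ} {δ : ℝ} (hδ : 0 < δ) (hK : max 8 ⌈((r₀ : ℝ) + 1) / δ⌉₊ ≤ dg K) :
    max 3 (min ((dg K : ℝ) - 1) (r₀ + (1 / 2 - δ) * dg K)) ≤ (Units.rank K : ℝ) := by
  have e1 : _ = dg K := InfinitePlace.card_add_two_mul_card_eq_rank K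
  have e2 := InfinitePlace.card_eq_nrRealPlaces_add_nrComplexPlaces K
  have e3 := rank_succ (K := K)
  have a1 : (8 : ℝ) ≤ dg K := by exact_mod_cast le_of_max_le_left hK
  have a2 : (r₀ : ℝ) + 1 ≤ dg K * δ :=
    (div_le_iff₀ hδ).1 (Nat.ceil_le.1 (le_of_max_le_right hK))
  have a3 : (dg K : ℝ) ≤ 2 * Units.rank K + 2 := by
    exact_mod_cast (show dg K ≤ 2 * Units.rank K + 2 by omega)
  exact max_le (by linarith only [a1, a3]) (min_le_of_right_le (by linarith only [a2, a3]))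

theorem thr_of_rank {r₀ r : ℕ} {δ : ℝ} (hK : max 4 (dg K) ≤ r + 1) :
    max 3 (min ((dg K : ℝ) - 1) (r₀ + (1 / 2 - δ) * dg K)) ≤ (r : ℝ) := by
  have a1 : (4 : ℝ) ≤ r + 1 := by exact_mod_cast le_of_max_le_left hK
  have a2 : (dg K : ℝ) ≤ r + 1 := by exact_mod_cast le_of_max_le_right hK
  exact max_le (by linarith only [a1]) (min_le_of_left_le (by linarith only [a2]))

end Pool.Agent.MP_48b1c3_nt.H48

end

-- part MP_48b1c3_nt.H48.GM
section

/-! The order lemma of Matthews and Gupta-Murty in a number field. -/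

namespace Pool.Agent.MP_48b1c3_nt.H48

open Finset NumberField

variable {K : Type} [Field K] [NumberField K]

theorem gm_card_primes {Z : 𝓞 K} (hZ : Z ≠ 0) (S : Finset (Ideal (𝓞 K)))
    (hS : ∀ P ∈ S, P.IsMaximal ∧ Z ∈ P) : 2 ^ #S ≤ Ideal.absNorm (Ideal.span {Z}) := by
  have h1 : ∏ P ∈ S, P ∣ Ideal.span {Z} := by
    refine Finset.prod_dvd_of_coprime (fun P hP Q hQ hne => ?_) fun P hP => ?_
    · exact Ideal.isCoprime_iff_sup_eq.2 ((hS P hP).1.coprime_of_ne (hS Q hQ).1 hne)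
    · exact Ideal.dvd_span_singleton.2 (hS P hP).2
  have h2 : Ideal.absNorm (Ideal.span {Z}) ≠ 0 := by
    rw [Ne, Ideal.absNorm_eq_zero_iff, Ideal.span_singleton_eq_bot]
    exact hZ
  have h3 := map_dvd Ideal.absNorm h1
  refine le_trans ?_ (Nat.le_of_dvd (Nat.pos_of_ne_zero h2) h3)
  rw [map_prod]
  refine Finset.pow_card_le_prod _ _ _ fun P hP => ?_
  have h4 : Ideal.absNorm P ≠ 1 := fun h => (hS P hP).1.ne_top (Ideal.absNorm_eq_one_iff.1 h)
  have h5 : Ideal.absNorm P ≠ 0 := ne_zero_of_dvd_ne_zero h2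
    (map_dvd Ideal.absNorm (Ideal.dvd_span_singleton.2 (hS P hP).2))
  omega

theorem gm_norm_le (Z : 𝓞 K) :
    (Ideal.absNorm (Ideal.span {Z}) : ℝ) ≤ house (Z : K) ^ Module.finrank ℚ K := by
  obtain ⟨σ⟩ : Nonempty (K →+* ℂ) := inferInstance
  have h := norm_norm_le_norm_mul_house_pow (Z : K) σ
  have h1 : Module.finrank ℚ K = Module.finrank ℚ K - 1 + 1 := by
    have := Module.finrank_pos (R := ℚ) (M := K)
    omega
  rw [h1, pow_succ', Ideal.absNorm_span_singleton]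
  refine le_trans (le_of_eq ?_) (h.trans (mul_le_mul_of_nonneg_right
    (norm_embedding_le_house _ σ) (pow_nonneg (house_nonneg _) _)))
  rw [← Algebra.coe_norm_int, Nat.cast_natAbs, Int.norm_cast_rat, Int.norm_eq_abs, Int.cast_abs]

/-- the numerator attached to an exponent vector -/
noncomputable def gmA {r : ℕ} (u w : Fin r → 𝓞 K) (d : Fin r → ℤ) : 𝓞 K :=
  ∏ i, u i ^ (d i).toNat * w i ^ (-d i).toNat

theorem gm_A_ne {r : ℕ} {u w : Fin r → 𝓞 K} (hu : ∀ i, u i ≠ 0) (hw : ∀ i, w i ≠ 0)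
    (h : ∀ d : Fin r → ℤ, ∏ i, ((u i : K) / w i) ^ d i = 1 → d = 0) {d : Fin r → ℤ}
    (hd : d ≠ 0) : gmA u w d - gmA w u d ≠ 0 := by
  intro he
  refine hd (h d ?_)
  have hu' : ∀ i, (u i : K) ≠ 0 := fun i => RingOfIntegers.coe_ne_zero_iff.2 (hu i)
  have hw' : ∀ i, (w i : K) ≠ 0 := fun i => RingOfIntegers.coe_ne_zero_iff.2 (hw i)
  have h1 := congrArg (algebraMap (𝓞 K) K) (sub_eq_zero.1 he)
  simp only [gmA, map_prod, map_mul, map_pow] at h1
  have h0 : ∏ i, (w i : K) ^ (d i).toNat * (u i : K) ^ (-d i).toNat ≠ 0 :=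
    Finset.prod_ne_zero_iff.2 fun i _ =>
      mul_ne_zero (pow_ne_zero _ (hw' i)) (pow_ne_zero _ (hu' i))
  refine mul_right_cancel₀ h0 ?_
  rw [one_mul, ← Finset.prod_mul_distrib]
  refine Eq.trans (Finset.prod_congr rfl fun i _ => ?_) h1
  have := hu' i
  have := hw' i
  rcases le_total 0 (d i) with h2 | h2
  · obtain ⟨k, hk⟩ := Int.eq_ofNat_of_zero_le h2
    rw [hk, show (-(k : ℤ)).toNat = 0 by omega, Int.toNat_natCast, zpow_natCast, div_pow]
    change _ = (u i : K) ^ k * (w i : K) ^ 0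
    field_simp
  · obtain ⟨k, hk⟩ := Int.eq_ofNat_of_zero_le (neg_nonneg.2 h2)
    rw [show d i = -(k : ℤ) by omega, show (-(k : ℤ)).toNat = 0 by omega, neg_neg,
      Int.toNat_natCast, zpow_neg, zpow_natCast, div_pow]
    change _ = (u i : K) ^ 0 * (w i : K) ^ k
    field_simp

theorem gm_house_prod {ι : Type} (s : Finset ι) (f : ι → K) :
    house (∏ i ∈ s, f i) ≤ ∏ i ∈ s, house (f i) := by
  classical
  induction s using Finset.induction_on with
  | empty => simpa only [prod_empty, Int.cast_one, abs_one] using (house_intCast (K := K) 1).le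
  | insert a s ha ih =>
    rw [prod_insert ha, prod_insert ha]
    exact (house_mul_le _ _).trans (mul_le_mul_of_nonneg_left ih (house_nonneg _))

theorem gm_A_le {r : ℕ} {u w : Fin r → 𝓞 K} (hu : ∀ i, u i ≠ 0) (hw : ∀ i, w i ≠ 0)
    {d : Fin r → ℤ} {N : ℕ} (hd : ∀ i, d i ∈ Icc (-(N : ℤ)) N) :
    house ((gmA u w d : 𝓞 K) : K) ≤ (∏ i, house (u i : K) * house (w i : K)) ^ N := by
  rw [← Finset.prod_pow]
  change house (algebraMap (𝓞 K) K _) ≤ _
  rw [gmA, map_prod]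
  refine (gm_house_prod _ _).trans (Finset.prod_le_prod (fun i _ => house_nonneg _) fun i _ => ?_)
  have := Finset.mem_Icc.mp (hd i)
  have h1 := one_le_house_of_isIntegral (u i).isIntegral_coe
    (RingOfIntegers.coe_ne_zero_iff.2 (hu i))
  have h2 := one_le_house_of_isIntegral (w i).isIntegral_coe
    (RingOfIntegers.coe_ne_zero_iff.2 (hw i))
  rw [mul_pow, map_mul, map_pow, map_pow]
  refine (house_mul_le _ _).trans (mul_le_mul ((house_pow_le _ _).trans ?_)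
    ((house_pow_le _ _).trans ?_) (house_nonneg _) (by positivity))
  · exact pow_le_pow_right₀ h1 (by omega)
  · exact pow_le_pow_right₀ h2 (by omega)

theorem gm_rel {r : ℕ} {u w : Fin r → 𝓞 K} {P : Ideal (𝓞 K)} {m N : ℕ} (hp : P.IsMaximal)
    (hw : ∀ i, w i ∉ P) (hm : 0 < m) (hN : m < (N + 1) ^ r) (h : ∀ i, u i ^ m - w i ^ m ∈ P) :
    ∃ d : Fin r → ℤ, d ≠ 0 ∧ (∀ i, d i ∈ Icc (-(N : ℤ)) N) ∧ gmA u w d - gmA w u d ∈ P := by
  classical
  letI := Ideal.Quotient.field P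
  have hw' : ∀ i, Ideal.Quotient.mk P (w i) ≠ 0 := fun i h =>
    hw i (Ideal.Quotient.eq_zero_iff_mem.1 h)
  have hx : ∀ i, (Ideal.Quotient.mk P (u i) / Ideal.Quotient.mk P (w i)) ^ m = 1 := fun i => by
    rw [div_pow, ← map_pow, Ideal.Quotient.eq.2 (h i), map_pow, div_self (pow_ne_zero _ (hw' i))]
  have hx0 : ∀ i, Ideal.Quotient.mk P (u i) / Ideal.Quotient.mk P (w i) ≠ 0 := fun i h0 => by
    have := hx i
    rw [h0, zero_pow hm.ne'] at this
    exact zero_ne_one this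
  obtain ⟨e, he, e', he', hne, heq⟩ := Finset.exists_ne_map_eq_of_card_lt_of_maps_to
    (s := Fintype.piFinset fun _ : Fin r => range (N + 1))
    (t := (Polynomial.nthRoots m (1 : 𝓞 K ⧸ P)).toFinset)
    (f := fun e => ∏ i, (Ideal.Quotient.mk P (u i) / Ideal.Quotient.mk P (w i)) ^ e i)
    (by
      rw [Fintype.card_piFinset_const, Finset.card_range]
      exact ((Multiset.toFinset_card_le _).trans (Polynomial.card_nthRoots m 1)).trans_lt hN)
    (fun e _ => by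
      rw [Finset.mem_coe, Multiset.mem_toFinset, Polynomial.mem_nthRoots hm, ← Finset.prod_pow]
      exact Finset.prod_eq_one fun i _ => by rw [← pow_mul, mul_comm, pow_mul, hx i, one_pow])
  refine ⟨fun i => (e i : ℤ) - e' i, fun h0 => hne (funext fun i => ?_), fun i => ?_, ?_⟩
  · have := congrFun h0 i
    simp only [Pi.zero_apply] at this
    omega
  · have h1 := Finset.mem_range.mp (Fintype.mem_piFinset.mp he i)
    have h2 := Finset.mem_range.mp (Fintype.mem_piFinset.mp he' i)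
    simp only [Finset.mem_Icc]
    omega
  · rw [← Ideal.Quotient.eq]
    have h0 : ∏ i, (Ideal.Quotient.mk P (u i) / Ideal.Quotient.mk P (w i)) ^ e' i ≠ 0 :=
      Finset.prod_ne_zero_iff.mpr fun i _ => pow_ne_zero _ (hx0 i)
    refine mul_right_cancel₀ h0 ?_
    conv_rhs => rw [← heq]
    simp only [gmA, map_prod, map_mul, map_pow]
    rw [← Finset.prod_mul_distrib, ← Finset.prod_mul_distrib]
    refine Finset.prod_congr rfl fun i _ => ?_
    have h1 := hw' i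
    rcases le_total (e i) (e' i) with h2 | h2
    · obtain ⟨k, hk⟩ := Nat.exists_eq_add_of_le h2
      rw [show ((e i : ℤ) - e' i).toNat = 0 by omega, show (-((e i : ℤ) - e' i)).toNat = k by omega,
        hk, pow_add, div_pow _ _ k]
      field_simp
    · obtain ⟨k, hk⟩ := Nat.exists_eq_add_of_le h2
      rw [show ((e i : ℤ) - e' i).toNat = k by omega, show (-((e i : ℤ) - e' i)).toNat = 0 by omega,
        hk, pow_add, div_pow _ _ k]
      field_simp

theorem matthews {r : ℕ} (hr : 0 < r) {u w : Fin r → 𝓞 K} (hu : ∀ i, u i ≠ 0) (hw : ∀ i, w i ≠ 0)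
    (h : ∀ d : Fin r → ℤ, ∏ i, ((u i : K) / w i) ^ d i = 1 → d = 0) :
    ∃ C : ℝ, 0 < C ∧ ∀ Y : ℝ, 1 ≤ Y → ∀ S : Finset (Ideal (𝓞 K)),
      (∀ P ∈ S, P.IsMaximal ∧ (∀ i, w i ∉ P) ∧
        ∃ m : ℕ, 0 < m ∧ (m : ℝ) ≤ Y ∧ ∀ i, u i ^ m - w i ^ m ∈ P) →
      (#S : ℝ) ≤ C * Y ^ (1 + 1 / (r : ℝ)) := by
  classical
  obtain ⟨A, hA⟩ : ∃ A : ℕ, 2 * (1 + ∏ i, house (u i : K) * house (w i : K)) ≤ 2 ^ A := by
    obtain ⟨A, hA⟩ := pow_unbounded_of_one_lt
      (2 * (1 + ∏ i, house (u i : K) * house (w i : K))) (one_lt_two (α := ℝ))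
    exact ⟨A, hA.le⟩
  set n := Module.finrank ℚ K
  refine ⟨3 ^ r * (A * n + 1 : ℕ), by positivity, fun Y hY S hS => ?_⟩
  have hr' : (r : ℝ) ≠ 0 := by positivity
  have hy1 : 1 ≤ Y ^ (1 / (r : ℝ)) := Real.one_le_rpow hY (by positivity)
  have hyr : (Y ^ (1 / (r : ℝ))) ^ r = Y := by
    rw [one_div, Real.rpow_inv_natCast_pow (by linarith only [hY]) hr.ne']
  obtain ⟨N, hN⟩ : ∃ N, N = ⌊Y ^ (1 / (r : ℝ))⌋₊ := ⟨_, rfl⟩
  have hN1 : 1 ≤ N := by rw [hN]; exact Nat.le_floor (by simpa only [Nat.cast_one, one_div] using hy1)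
  have hN2 : (N : ℝ) ≤ Y ^ (1 / (r : ℝ)) := by rw [hN]; exact Nat.floor_le (by linarith only [hy1])
  have hN3 : Y < ((N : ℝ) + 1) ^ r := by
    rw [← hyr]
    refine pow_lt_pow_left₀ ?_ (by linarith only [hy1]) hr.ne'
    rw [hN]; exact Nat.lt_floor_add_one _
  have hsub : S ⊆ ((Fintype.piFinset fun _ : Fin r => Icc (-(N : ℤ)) N).erase 0).biUnion
      fun d => S.filter fun P => gmA u w d - gmA w u d ∈ P := by
    intro p hp
    obtain ⟨h1, h2, m, h3, h4, h5⟩ := hS p hp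
    obtain ⟨d, hd0, hd1, hd2⟩ := gm_rel (N := N) h1 h2 h3
      (by exact_mod_cast h4.trans_lt hN3) h5
    exact Finset.mem_biUnion.mpr ⟨d, Finset.mem_erase.mpr ⟨hd0, Fintype.mem_piFinset.mpr hd1⟩,
      Finset.mem_filter.2 ⟨hp, hd2⟩⟩
  have hcard : #S ≤ (3 * N) ^ r * (N * (A * n + 1)) := by
    refine (Finset.card_le_card hsub).trans ((Finset.card_biUnion_le_card_mul _ _
      (N * (A * n + 1)) fun d hd => ?_).trans (Nat.mul_le_mul_right _ ?_))
    · obtain ⟨hd0, hd1⟩ := Finset.mem_erase.mp hd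
      have h1 := gm_card_primes (gm_A_ne hu hw h hd0)
        (S.filter fun P => gmA u w d - gmA w u d ∈ P)
        fun P hP => ⟨(hS P (mem_filter.1 hP).1).1, (mem_filter.1 hP).2⟩
      have h2 := gm_A_le hu hw (Fintype.mem_piFinset.mp hd1)
      have h3 := gm_A_le hw hu (Fintype.mem_piFinset.mp hd1)
      simp only [mul_comm (house (w _ : K))] at h3
      set B := ∏ i, house (u i : K) * house (w i : K)
      have hB : 0 ≤ B := prod_nonneg fun i _ => mul_nonneg (house_nonneg _) (house_nonneg _)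
      have h4 : house ((gmA u w d - gmA w u d : 𝓞 K) : K) ≤ (2 ^ A) ^ N := by
        have h5 : house ((gmA u w d - gmA w u d : 𝓞 K) : K) ≤ B ^ N + B ^ N := by
          refine le_trans ?_ (add_le_add h2 h3)
          change house (algebraMap (𝓞 K) K _) ≤ _
          simp only [house, map_sub]
          exact norm_sub_le _ _
        refine h5.trans (le_trans ?_ (pow_le_pow_left₀ (by positivity) hA N))
        rw [mul_pow, ← two_mul]
        exact mul_le_mul (le_self_pow₀ one_le_two (by omega))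
          (pow_le_pow_left₀ hB (by linarith only []) N) (by positivity) (by positivity)
      have h6 := (gm_norm_le _).trans (pow_le_pow_left₀ (house_nonneg _) h4 n)
      have h7 : (2 : ℝ) ^ #(S.filter fun P => gmA u w d - gmA w u d ∈ P) ≤ 2 ^ (A * N * n) := by
        rw [pow_mul, pow_mul]
        exact le_trans (by exact_mod_cast h1) h6
      have h8 := (pow_le_pow_iff_right₀ one_lt_two).1 h7
      linarith only [h8]
    · refine Finset.card_erase_le.trans ?_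
      rw [Fintype.card_piFinset_const, Int.card_Icc]
      exact Nat.pow_le_pow_left (by omega) r
  calc (#S : ℝ) ≤ (3 * N) ^ r * (N * (A * n + 1 : ℕ)) := by exact_mod_cast hcard
    _ ≤ (3 * Y ^ (1 / (r : ℝ))) ^ r * (Y ^ (1 / (r : ℝ)) * (A * n + 1 : ℕ)) := by gcongr
    _ = _ := by
      rw [mul_pow, hyr, Real.rpow_add (by linarith only [hY]), Real.rpow_one]
      ring

end Pool.Agent.MP_48b1c3_nt.H48

end

-- part MP_48b1c3_nt.H48.End
section

/-! From sifted primes to primes of small index. -/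

namespace Pool.Agent.MP_48b1c3_nt.H48

open Finset NumberField Filter H91

variable {K : Type} [Field K] [NumberField K]

/-- the image of `W` in the units of the residue field -/
def red (W : Subgroup Kˣ) (P : Ideal (𝓞 K)) : Subgroup (𝓞 K ⧸ P)ˣ :=
  Subgroup.closure {u : (𝓞 K ⧸ P)ˣ | ∃ w ∈ W, ∃ a b : 𝓞 K, b ∉ P ∧ (w : K) * b = a ∧
    (u : 𝓞 K ⧸ P) * Ideal.Quotient.mk P b = Ideal.Quotient.mk P a}

/-- `W` consists of units at `P` -/
def Un (W : Subgroup Kˣ) (P : Ideal (𝓞 K)) : Prop :=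
  ∀ w ∈ W, ∃ a b : 𝓞 K, a ∉ P ∧ b ∉ P ∧ (w : K) * b = a

theorem exists_frac (w : Kˣ) : ∃ a b : 𝓞 K, a ≠ 0 ∧ b ≠ 0 ∧ (w : K) * b = a := by
  obtain ⟨a, b, hb, h⟩ := IsFractionRing.div_surjective (A := 𝓞 K) (w : K)
  have hb0 := nonZeroDivisors.ne_zero hb
  have hb1 : (b : K) ≠ 0 := RingOfIntegers.coe_ne_zero_iff.2 hb0
  have h1 : (w : K) * b = a := by rw [← h]; exact div_mul_cancel₀ _ hb1
  refine ⟨a, b, fun h0 => ?_, hb0, h1⟩
  rw [h0] at h1
  exact mul_ne_zero w.ne_zero hb1 h1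

theorem exists_un (W : Subgroup Kˣ) (hW : W.FG) :
    ∃ Z : 𝓞 K, Z ≠ 0 ∧ ∀ P : Ideal (𝓞 K), P.IsPrime → Z ∉ P → Un W P := by
  obtain ⟨S, rfl⟩ := hW
  choose a b ha hb hab using exists_frac (K := K)
  refine ⟨∏ s ∈ S, a s * b s, prod_ne_zero_iff.2 fun s _ => mul_ne_zero (ha s) (hb s),
    fun P hP hZ w hw => ?_⟩
  induction hw using Subgroup.closure_induction with
  | mem s hs =>
    have h1 : a s * b s ∉ P := fun h =>
      hZ (Ideal.mem_of_dvd _ (Finset.dvd_prod_of_mem (fun s => a s * b s) hs) h)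
    exact ⟨a s, b s, fun h => h1 (P.mul_mem_right _ h), fun h => h1 (P.mul_mem_left _ h), hab s⟩
  | one => exact ⟨1, 1, hP.one_notMem, hP.one_notMem, by simp⟩
  | mul x y _ _ hx hy =>
    obtain ⟨a, b, h1, h2, h3⟩ := hx
    obtain ⟨a', b', h4, h5, h6⟩ := hy
    refine ⟨a * a', b * b', fun h => (hP.mem_or_mem h).elim h1 h4,
      fun h => (hP.mem_or_mem h).elim h2 h5, ?_⟩
    rw [Units.val_mul, RingOfIntegers.coe_eq_algebraMap, RingOfIntegers.coe_eq_algebraMap, map_mul,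
      map_mul]
    exact (mul_mul_mul_comm _ _ _ _).trans (congrArg₂ _ h3 h6)
  | inv x _ hx =>
    obtain ⟨a, b, h1, h2, h3⟩ := hx
    refine ⟨b, a, h2, h1, ?_⟩
    rw [← h3, ← mul_assoc, Units.inv_mul, one_mul]

theorem exists_indep (W : Subgroup Kˣ) {r : ℕ} (hr : r ≤ Module.finrank ℤ (Additive W)) :
    ∃ (w : Fin r → Kˣ) (a b : Fin r → 𝓞 K), (∀ i, w i ∈ W) ∧ (∀ i, a i ≠ 0) ∧ (∀ i, b i ≠ 0) ∧
      (∀ i, (w i : K) * b i = a i) ∧
      ∀ d : Fin r → ℤ, ∏ i, ((a i : K) / b i) ^ d i = 1 → d = 0 := by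
  obtain ⟨f, hf⟩ := exists_linearIndependent_of_le_finrank hr
  choose a b ha hb hab using exists_frac (K := K)
  refine ⟨fun i => ((f i).toMul : W), fun i => a _, fun i => b _, fun i => (f i).toMul.2,
    fun i => ha _, fun i => hb _, fun i => hab _, fun d hd => ?_⟩
  refine funext (Fintype.linearIndependent_iff.1 hf d ?_)
  apply Additive.toMul.injective
  apply Subtype.ext
  apply Units.ext
  simp only [toMul_sum, toMul_zsmul, toMul_zero, SubmonoidClass.coe_finsetProd,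
    SubgroupClass.coe_zpow, Units.coe_prod, Units.val_zpow_eq_zpow_val, OneMemClass.coe_one,
    Units.val_one]
  refine Eq.trans (prod_congr rfl fun i _ => ?_) hd
  rw [← hab, mul_div_cancel_right₀ _ (RingOfIntegers.coe_ne_zero_iff.2 (hb _))]

theorem pow_card_red {W : Subgroup Kˣ} {P : Ideal (𝓞 K)} (hP : P.IsMaximal) {w : Kˣ}
    (hw : w ∈ W) {a b : 𝓞 K} (ha : a ∉ P) (hb : b ∉ P) (h : (w : K) * b = a) :
    a ^ Nat.card (red W P) - b ^ Nat.card (red W P) ∈ P := by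
  let _ := Ideal.Quotient.field P
  have ha' : Ideal.Quotient.mk P a ≠ 0 := fun h => ha (Ideal.Quotient.eq_zero_iff_mem.1 h)
  have hb' : Ideal.Quotient.mk P b ≠ 0 := fun h => hb (Ideal.Quotient.eq_zero_iff_mem.1 h)
  have hu : Units.mk0 _ (div_ne_zero ha' hb') ∈ red W P :=
    Subgroup.subset_closure ⟨w, hw, a, b, hb, h, div_mul_cancel₀ _ hb'⟩
  have h1 := congrArg (fun v : red W P => ((v : (𝓞 K ⧸ P)ˣ) : 𝓞 K ⧸ P))
    (pow_card_eq_one' (x := (⟨_, hu⟩ : red W P)))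
  simp only [SubmonoidClass.mk_pow, Units.val_pow_eq_pow_val, Units.val_mk0, OneMemClass.coe_one,
    Units.val_one, div_pow] at h1
  rw [← Ideal.Quotient.eq, map_pow, map_pow]
  exact (div_eq_one_iff_eq (pow_ne_zero _ hb')).1 h1

theorem card_red_mul {W : Subgroup Kˣ} {P : Ideal (𝓞 K)} (hP : P.IsMaximal) :
    Nat.card (red W P) * (red W P).index = Ideal.absNorm P - 1 := by
  let _ := Ideal.Quotient.field P
  rw [Subgroup.card_mul_index, Nat.card_units, Ideal.absNorm_apply, Submodule.cardQuot_apply]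

theorem dvd_card_red {W : Subgroup Kˣ} {P : Ideal (𝓞 K)} (hP : P.IsMaximal) {t : ℕ} (ht : 0 < t)
    {ζ : Kˣ} (hζ : ζ ∈ W) (h : IsPrimitiveRoot ζ t) (hc : (Ideal.absNorm P).Coprime t) :
    t ∣ Nat.card (red W P) := by
  have : NeZero t := ⟨ht.ne'⟩
  have h1 : IsPrimitiveRoot (ζ : K) t := IsPrimitiveRoot.coe_units_iff.2 h
  have h2 := h1.toInteger_isPrimitiveRoot.idealQuotient_mk
    (fun h => hP.ne_top (Ideal.absNorm_eq_one_iff.1 h)) hc
  obtain ⟨u, hu⟩ := h2.isUnit ht.ne'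
  have h3 : u ∈ red W P := Subgroup.subset_closure
    ⟨ζ, hζ, h1.toInteger, 1, hP.isPrime.one_notMem, (mul_one _).trans rfl, by simpa using hu⟩
  rw [← hu, IsPrimitiveRoot.coe_units_iff] at h2
  rw [h2.eq_orderOf]
  exact Subgroup.orderOf_dvd_natCard _ h3

theorem index_arith {m i k t M a p l : ℕ} (hm : m * i = p - 1) (hp : 1 < p) (ht : t ∣ m)
    (hk : 0 < k * t) (hl : l.Prime) (hM : k * t * l ∣ M) (ha : 0 < a)
    (hpa : p ≡ a [MOD M]) (hg : Nat.gcd (a - 1) M ∣ k * t) :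
    ¬ l ^ (k.factorization l + 1) ∣ i := by
  intro hi
  have hk0 : k ≠ 0 := by rintro rfl; omega
  have ht0 : t ≠ 0 := by rintro rfl; omega
  have h1 : l ^ ((k * t).factorization l + 1) ∣ p - 1 := by
    rw [Nat.factorization_mul hk0 ht0, Finsupp.add_apply, add_right_comm, pow_add, ← hm, mul_comm m]
    exact Nat.mul_dvd_mul hi ((Nat.ordProj_dvd _ _).trans ht)
  have h2 : l ^ ((k * t).factorization l + 1) ∣ M := by
    rw [pow_succ]
    exact (Nat.mul_dvd_mul_right (Nat.ordProj_dvd _ _) l).trans hM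
  have h3 : l ^ ((k * t).factorization l + 1) ∣ a - 1 :=
    (Nat.modEq_iff_dvd' ha).1 (((Nat.modEq_iff_dvd' hp.le).2 h1).trans (hpa.of_dvd h2))
  exact Nat.pow_succ_factorization_not_dvd hk.ne' hl ((Nat.dvd_gcd h3 h2).trans hg)

theorem finite_norm_le (x : ℕ) : {P : Ideal (𝓞 K) | Ideal.absNorm P ≤ x}.Finite :=
  Ideal.finite_setOfPred_absNorm_le x

theorem small_ev {c C β : ℝ} (hc : 0 < c) (hβ : β < 1) :
    ∀ᶠ x : ℝ in atTop, C * x ^ β ≤ c * x / Real.log x ^ 2 := by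
  have h := (isLittleO_log_rpow_rpow_atTop (2 : ℝ) (sub_pos.2 hβ)).bound
    (c := c / (|C| + 1)) (by positivity)
  filter_upwards [h, eventually_gt_atTop 1] with x hx h1
  have h2 := Real.log_pos h1
  have h3 : 0 < x ^ β := by positivity
  rw [Real.norm_of_nonneg (by positivity), Real.norm_of_nonneg (by positivity), Real.rpow_two,
    Real.rpow_sub (by linarith only [h1]), Real.rpow_one, div_mul_div_comm, le_div_iff₀ (by positivity)] at hx
  rw [le_div_iff₀ (by positivity)]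
  refine le_trans ?_ hx
  have := le_abs_self C
  nlinarith only [mul_pos h3 (pow_pos h2 2), this]

theorem gal_exp {i k : ℕ} (hi0 : i ≠ 0) (hk0 : k ≠ 0) (hi : ¬ i ∣ k) :
    ∃ l : ℕ, l.Prime ∧ l ^ (k.factorization l + 1) ∣ i := by
  obtain ⟨l, hl⟩ : ∃ l, k.factorization l < i.factorization l := by
    by_contra hc
    push Not at hc
    exact hi ((Nat.factorization_le_iff_dvd hi0 hk0).1 hc)
  have hl1 : l.Prime := by
    by_contra h
    simp [Nat.factorization_eq_zero_of_not_prime _ h] at hl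
  exact ⟨l, hl1, (hl1.pow_dvd_iff_le_factorization hi0).2 hl⟩

/-- the final count for a group `W` in a subfield `K₀` of `K` -/
theorem final_gen {K₀ : Type} [Field K₀] [NumberField K₀] [Algebra K₀ K] {β : ℝ}
    (hC : CoreR K β) (W : Subgroup K₀ˣ) (hW : W.FG) {r : ℕ} (hr0 : 0 < r)
    (hr : r ≤ Module.finrank ℤ (Additive W)) (hβ' : 1 ≤ β * (r + 1)) {k t : ℕ} (hk : 0 < k)
    (ht : 0 < t) (G : Ideal (𝓞 K) → Prop)
    (H : ∀ M : ℕ, 0 < M → (∀ l : ℕ, l.Prime → l ∣ M → k * t * l ∣ M) → ∃ I₀ : Ideal (𝓞 K),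
      I₀ ≠ ⊥ ∧ Cop M I₀ ∧ ∀ (I : Ideal (𝓞 K)) (P : Ideal (𝓞 K₀)), P.IsMaximal →
        I.comap (algebraMap (𝓞 K₀) (𝓞 K)) = P → Ideal.absNorm I = Ideal.absNorm P →
        (Ideal.absNorm I).Prime → Ray M I I₀ → Un W P → G I ∧
        ∀ l : ℕ, l.Prime → l ∣ M → ¬ l ^ (k.factorization l + 1) ∣ (red W P).index) :
    ∃ c : ℝ, 0 < c ∧ ∀ᶠ x : ℕ in atTop, ∃ S : Finset (Ideal (𝓞 K₀)),
      c * x / Real.log x ^ 2 ≤ #S ∧ ∀ P ∈ S, P.IsMaximal ∧ (Ideal.absNorm P).Prime ∧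
        Ideal.absNorm P ≤ x ∧
        (∃ I : Ideal (𝓞 K), I.comap (algebraMap (𝓞 K₀) (𝓞 K)) = P ∧
          Ideal.absNorm I = Ideal.absNorm P ∧ G I) ∧ Un W P ∧ (red W P).index ∣ k := by
  classical
  obtain ⟨w₀, hC⟩ := hC
  obtain ⟨Z, hZ0, hZ⟩ := exists_un W hW
  obtain ⟨w, a, b, hw, ha, hb, hab, hind⟩ := exists_indep W hr
  obtain ⟨C, hC0, hmat⟩ := matthews hr0 ha hb hind
  set Z' := Z * ∏ i, a i * b i with hZ'
  have hZ'0 : Z' ≠ 0 := mul_ne_zero hZ0 (prod_ne_zero_iff.2 fun i _ => mul_ne_zero (ha i) (hb i))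
  have hN0 : Ideal.absNorm (Ideal.span {Z'}) ≠ 0 := by
    rwa [Ne, Ideal.absNorm_eq_zero_iff, Ideal.span_singleton_eq_bot]
  set w' := w₀ + k * t + Ideal.absNorm (Ideal.span {Z'}) + 2 with hw'
  have hkt : 0 < k * t := by positivity
  have hM0 : 0 < k * t * w'.factorial := by positivity
  have hdvd : ∀ l : ℕ, 0 < l → l ≤ w' → l ∣ k * t * w'.factorial := fun l h1 h2 =>
    (Nat.dvd_factorial h1 h2).mul_left _
  have hM : ∀ l : ℕ, l.Prime → l ∣ k * t * w'.factorial → k * t * l ∣ k * t * w'.factorial := by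
    intro l hl h
    refine Nat.mul_dvd_mul_left _ (((Nat.Prime.dvd_mul hl).1 h).elim (fun h1 => ?_) id)
    exact Nat.dvd_factorial hl.pos ((Nat.le_of_dvd hkt h1).trans (by omega))
  obtain ⟨I₀, hI0, hI1, hI2⟩ := H _ hM0 hM
  obtain ⟨α, c, hα', hc, hev⟩ := hC _ I₀ hM0 (fun l hl h => hdvd l hl.pos (by omega)) hI0 hI1
  have hr' : (0 : ℝ) < r := by exact_mod_cast hr0
  have hα : 1 < α * (r + 1) := hβ'.trans_lt (by gcongr)
  have hβ : max 0 (1 - α) * (1 + 1 / (r : ℝ)) < 1 := by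
    rcases le_total 0 (1 - α) with h | h
    · rw [max_eq_right h, one_add_div hr'.ne', ← mul_div_assoc, div_lt_one hr']
      linarith only [hα]
    · rw [max_eq_left h, zero_mul]
      exact one_pos
  refine ⟨c / 2, by positivity, ?_⟩
  filter_upwards [tendsto_natCast_atTop_atTop.eventually
    (hev.and ((small_ev (C := C) (half_pos hc) hβ).and (eventually_ge_atTop 1)))] with x hx
  obtain ⟨hx1, hx2, hx3⟩ := hx
  set T := {p : ℕ | p.Prime ∧ (p : ℝ) ≤ x ∧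
    (∃ I : Ideal (𝓞 K), Ideal.absNorm I = p ∧ Ray (k * t * w'.factorial) I I₀) ∧
    ∀ l : ℕ, l.Prime → l ∣ p - 1 → l ∣ k * t * w'.factorial ∨ (x : ℝ) ^ α < l} with hT
  have hTf : T.Finite := (Set.finite_Iic x).subset fun p hp => by exact_mod_cast hp.2.1
  have key : ∀ p ∈ T, ∃ P : Ideal (𝓞 K₀), P.IsMaximal ∧ Ideal.absNorm P = p ∧
      ∃ I : Ideal (𝓞 K), I.comap (algebraMap (𝓞 K₀) (𝓞 K)) = P ∧ Ideal.absNorm I = p ∧
        Ray (k * t * w'.factorial) I I₀ := by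
    rintro p ⟨h1, -, ⟨I, hI, hR⟩, -⟩
    have hIp : I.IsPrime := Ideal.isPrime_of_irreducible_absNorm (hI ▸ h1)
    have hI0 : I ≠ ⊥ := by
      rintro rfl
      rw [Ideal.absNorm_bot] at hI
      exact h1.ne_zero hI.symm
    have hIm : I.IsMaximal := hIp.isMaximal hI0
    have hP := Ideal.isMaximal_comap_of_isIntegral_of_isMaximal (R := 𝓞 K₀) I
    refine ⟨_, hP, ?_, I, rfl, hI, hR⟩
    have h2 : Ideal.absNorm (I.comap (algebraMap (𝓞 K₀) (𝓞 K))) ∣ p := by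
      rw [← hI, Ideal.absNorm_apply, Ideal.absNorm_apply, Submodule.cardQuot_apply,
        Submodule.cardQuot_apply]
      exact AddSubgroup.card_dvd_of_injective
        (Ideal.quotientMap I (algebraMap (𝓞 K₀) (𝓞 K)) le_rfl).toAddMonoidHom
        Ideal.quotientMap_injective
    exact ((Nat.dvd_prime h1).1 h2).resolve_left
      fun h => hP.ne_top (Ideal.absNorm_eq_one_iff.1 h)
  choose! φ hφ using key
  have hcop : ∀ p ∈ T, p.Coprime (k * t * w'.factorial) := fun p hp => by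
    obtain ⟨I, rfl, hI⟩ := hp.2.2.1
    exact cop_iff.1 (hI.cop hI1)
  have hZP : ∀ p ∈ T, Z' ∉ φ p := fun p hp h => by
    have h1 := map_dvd Ideal.absNorm (Ideal.dvd_span_singleton.2 h)
    rw [(hφ p hp).2.1] at h1
    have h2 := Nat.le_of_dvd (Nat.pos_of_ne_zero hN0) h1
    exact hp.1.one_lt.ne' ((hcop p hp).eq_one_of_dvd (hdvd p hp.1.pos (by omega)))
  have hinj : Set.InjOn φ T := fun p hp q hq h => by rw [← (hφ p hp).2.1, h, (hφ q hq).2.1]
  set S := hTf.toFinset.image φ with hS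
  have hcard : (T.ncard : ℝ) = #S := by
    rw [hS, Finset.card_image_of_injOn (by simpa only [Set.Finite.coe_toFinset] using hinj), Set.ncard_eq_toFinset_card _ hTf]
  have hmem : ∀ P ∈ S, ∃ p ∈ T, φ p = P := fun P hP => by simpa only [hS, mem_image, Set.Finite.mem_toFinset] using hP
  refine ⟨S.filter fun P => (red W P).index ∣ k, ?_, fun P hP => ?_⟩
  · have h1 := Finset.card_filter_add_card_filter_not (s := S) fun P => (red W P).index ∣ k
    have h2 := hmat ((x : ℝ) ^ max 0 (1 - α)) (Real.one_le_rpow hx3 (le_max_left _ _))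
      (S.filter fun P => ¬ (red W P).index ∣ k) fun P hP => by
        obtain ⟨hP1, hP2⟩ := mem_filter.1 hP
        obtain ⟨p, hp, rfl⟩ := hmem P hP1
        obtain ⟨g1, g2, I, i1, i2, i3⟩ := hφ p hp
        have g3 : ∀ i, a i * b i ∉ φ p := fun i h => hZP p hp
          (Ideal.mem_of_dvd _ ((Finset.dvd_prod_of_mem (fun i => a i * b i)
            (mem_univ i)).mul_left _) h)
        have g4 : ∀ i, a i ∉ φ p := fun i h => g3 i (Ideal.mul_mem_right _ _ h)
        have g5 : ∀ i, b i ∉ φ p := fun i h => g3 i (Ideal.mul_mem_left _ _ h)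
        have g6 := card_red_mul (W := W) g1
        rw [g2] at g6
        have g9 := hp.1.one_lt
        obtain ⟨l, l1, l4⟩ := gal_exp (by rintro h; rw [h] at g6; omega) hk.ne' hP2
        have l2 := (dvd_pow_self l (Nat.succ_ne_zero _)).trans l4
        have l3 := fun h => (hI2 I _ g1 i1 (i2.trans g2.symm) (i2 ▸ hp.1) i3
          (hZ _ g1.isPrime fun h => hZP p hp (Ideal.mul_mem_right _ _ h))).2 l l1 h l4
        have g8 := (hp.2.2.2 l l1 (g6 ▸ l2.mul_left _)).resolve_left l3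
        have g10 : 0 < Nat.card (red W (φ p)) * (red W (φ p)).index := by omega
        have g11 := Nat.le_of_dvd (Nat.pos_of_mul_pos_left g10) l2
        refine ⟨g1, g5, _, Nat.pos_of_mul_pos_right g10, ?_,
          fun i => pow_card_red g1 (hw i) (g4 i) (g5 i) (hab i)⟩
        refine le_trans ?_ (Real.rpow_le_rpow_of_exponent_le hx3 (le_max_right _ _))
        rw [Real.rpow_sub (by linarith only [hx3]), Real.rpow_one, le_div_iff₀ (by positivity)]
        calc _ ≤ (Nat.card (red W (φ p)) : ℝ) * (red W (φ p)).index := by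
              gcongr
              exact g8.le.trans (by exact_mod_cast g11)
          _ ≤ p := by exact_mod_cast g6.le.trans (Nat.sub_le _ _)
          _ ≤ x := hp.2.1
    rw [← Real.rpow_mul (by positivity)] at h2
    have h3 : (#S : ℝ) = #(S.filter fun P => (red W P).index ∣ k) +
      #(S.filter fun P => ¬ (red W P).index ∣ k) := by exact_mod_cast h1.symm
    have h4 : c * x / Real.log x ^ 2 = c / 2 * x / Real.log x ^ 2 + c / 2 * x / Real.log x ^ 2 := by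
      ring
    linarith only [hx2, hx1, hcard, h2, h3, h4]
  · obtain ⟨hP1, hP2⟩ := mem_filter.1 hP
    obtain ⟨p, hp, rfl⟩ := hmem P hP1
    obtain ⟨g1, g2, I, g3, g4, g5⟩ := hφ p hp
    have g6 := hZ _ g1.isPrime fun h => hZP p hp (Ideal.mul_mem_right _ _ h)
    exact ⟨g1, by rw [g2]; exact hp.1, by rw [g2]; exact_mod_cast hp.2.1, ⟨I, g3, g4.trans g2.symm,
      (hI2 I _ g1 g3 (g4.trans g2.symm) (g4 ▸ hp.1) g5 g6).1⟩, g6, hP2⟩

end Pool.Agent.MP_48b1c3_nt.H48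

end

-- part MP_48b1c3_nt.H48.HypP
section

namespace Pool.Agent.MP_48b1c3_nt.H48

open Finset NumberField H54 H91 Filter
open scoped Classical BigOperators Topology

variable {K : Type} [Field K] [NumberField K]

theorem hyp_real (hK : ∃ w : InfinitePlace K, w.IsReal) {M : ℕ} (hM : 0 < M) :
    ∃ I : Ideal (𝓞 K), (Ideal.absNorm I).Coprime M ∧ Nat.gcd (Ideal.absNorm I - 1) M ∣ 2 := by
  obtain ⟨α, h1, h2⟩ := exists_neg hK hM
  have h3 := nm_congr (m := (M : ℤ)) (a := α) (b := 1) (by rwa [Int.cast_natCast])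
  refine ⟨Ideal.span {α}, ?_⟩
  rw [Ideal.absNorm_span_singleton]
  rw [nm, nm, map_one] at h3
  rw [nm] at h2
  obtain ⟨n, hn⟩ : ∃ n : ℕ, (Algebra.norm ℤ α).natAbs = n + 1 :=
    ⟨(Algebra.norm ℤ α).natAbs - 1, by omega⟩
  have h4 : M ∣ n + 2 := by
    rw [← Int.natCast_dvd_natCast, ← dvd_neg]
    rwa [show Algebra.norm ℤ α - 1 = -((n + 2 : ℕ) : ℤ) by omega] at h3
  rw [hn, Nat.add_sub_cancel]
  exact ⟨Nat.Coprime.coprime_dvd_right h4 (Nat.coprime_self_add_right.2 (Nat.coprime_one_right (n + 1))),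
    (Nat.dvd_add_right (Nat.gcd_dvd_left _ _)).1 ((Nat.gcd_dvd_right _ _).trans h4)⟩

theorem hyppa_nonneg (hK : ¬ ∃ w : InfinitePlace K, w.IsReal) (α : 𝓞 K) : 0 ≤ nm α := by
  open scoped ComplexOrder in
  have h1 : (0 : ℂ) ≤ algebraMap ℚ ℂ (Algebra.norm ℚ (α : K)) := by
    rw [Algebra.norm_eq_prod_embeddings ℚ ℂ, ← Fintype.prod_equiv (RingHom.equivRatAlgHom K ℂ)
      (fun f => f (α : K)) (fun φ => φ (α : K)) fun _ => by simp only [RingHom.equivRatAlgHom_apply, RingHom.toRatAlgHom_apply],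
      ← prod_fiberwise univ InfinitePlace.mk]
    refine prod_nonneg fun w _ => ?_
    have h2 : filter (fun φ => InfinitePlace.mk φ = w) univ =
        {w.embedding, ComplexEmbedding.conjugate w.embedding} := by
      ext φ
      simp only [mem_filter, mem_univ, true_and, mem_insert, mem_singleton]
      conv_lhs => rw [← w.mk_embedding, eq_comm, InfinitePlace.mk_eq_iff]
      simp only [eq_comm]
    rw [h2, prod_pair fun e => hK ⟨w, InfinitePlace.isReal_iff.2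
      (ComplexEmbedding.isReal_iff.2 e.symm)⟩, ComplexEmbedding.conjugate_coe_eq, Complex.mul_conj]
    exact Complex.zero_le_real.2 (Complex.normSq_nonneg _)
  rw [← Algebra.coe_norm_int, eq_ratCast, Rat.cast_intCast, ← Complex.ofReal_intCast] at h1
  exact_mod_cast Complex.zero_le_real.1 h1

theorem hyppb_term (σ : ℝ) (n : ℕ) :
    LSeries.term (pushL fun _ : Ideal (𝓞 K) => (1 : ℂ)) σ n =
      ((lamK K n / (n : ℝ) ^ σ : ℝ) : ℂ) := by
  rcases eq_or_ne n 0 with rfl | hn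
  · simp [lamK]
  rw [LSeries.term_of_ne_zero hn, pushL_norm (K := K) (fun _ => 1) n, mul_one, Complex.ofReal_div,
    Complex.ofReal_cpow (Nat.cast_nonneg n), Complex.ofReal_natCast]

variable (K) in
theorem hyppb_summ {σ : ℝ} (hσ : 1 < σ) : Summable fun n : ℕ => lamK K n / (n : ℝ) ^ σ :=
  Complex.summable_ofReal.1 ((pushL_summable (pf_one (K := K)).le (s := σ)
    (by simpa using hσ)).congr (hyppb_term σ))

theorem hyppb_id {s : ℂ} (hs : 1 < s.re) :
    (s - 1) * LSeries (pushL fun _ : Ideal (𝓞 K) => (1 : ℂ)) s *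
      (kap (fun _ : Ideal (𝓞 K) => (1 : ℂ)) + (s - 1) * Ent (fun _ : Ideal (𝓞 K) => (1 : ℂ)) s) =
    kap (fun _ : Ideal (𝓞 K) => (1 : ℂ)) -
      (s - 1) ^ 2 * deriv (Ent fun _ : Ideal (𝓞 K) => (1 : ℂ)) s := by
  obtain ⟨hE, hL⟩ := Ent_spec (pf_one (K := K))
  have hP := push_P (K := K) (F := fun _ => 1) rfl (fun _ _ => (mul_one _).symm) pf_one.le
  have h0 : s - 1 ≠ 0 := fun e => by
    rw [sub_eq_zero.1 e] at hs
    simp at hs
  have h1 := LSeries_hasDerivAt (f := push fun _ : Ideal (𝓞 K) => (1 : ℂ)) (s := s)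
    ((LSeries.abscissaOfAbsConv_le_of_forall_lt_LSeriesSummable (x := 1)
      fun y hy => hP.sum y (by simpa using hy)).trans_lt (by exact_mod_cast hs))
  have h2 := ((((hasDerivAt_id s).sub_const 1).inv h0).const_mul
    (kap fun _ : Ideal (𝓞 K) => (1 : ℂ))).add (hE s).hasDerivAt
  have h3 := h1.unique (h2.congr_of_eventuallyEq (by
    filter_upwards [(isOpen_lt continuous_const Complex.continuous_re).mem_nhds hs] with z hz
    rw [hL z hz]
    rfl))
  have h4 : LSeries (LSeries.logMul (push fun _ : Ideal (𝓞 K) => (1 : ℂ))) s =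
      LSeries (pushL fun _ : Ideal (𝓞 K) => (1 : ℂ)) s *
        LSeries (push fun _ : Ideal (𝓞 K) => (1 : ℂ)) s := by
    rw [← ArithmeticFunction.LSeries_mul' (pushL_summable pf_one.le hs) (hP.sum s hs), ← hP.der]
    refine LSeries_congr (fun {n} hn => ?_) _
    rw [ArithmeticFunction.pmul_apply]
    simp only [siegel_lg, toArithmeticFunction, ArithmeticFunction.coe_mk, hn, if_false,
      LSeries.logMul, Complex.natCast_log]
  rw [h4, hL s hs] at h3
  simp only [id] at h3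
  field_simp at h3
  linear_combination -h3

variable (K) in
theorem hyppb_lim : Tendsto (fun σ : ℝ => (σ - 1) * ∑' n : ℕ, lamK K n / (n : ℝ) ^ σ)
    (𝓝[>] 1) (𝓝 1) := by
  obtain ⟨ρ, hρ, hk⟩ := kap_one K
  have hE := (Ent_spec (pf_one (K := K))).1
  have c1 := hE.continuous
  have c2 := hE.deriv.continuous
  have hρ' : (ρ : ℂ) ≠ 0 := by exact_mod_cast hρ.ne'
  have t1 : Tendsto (fun σ : ℝ => (ρ : ℂ) + ((σ : ℂ) - 1) *
      Ent (fun _ : Ideal (𝓞 K) => (1 : ℂ)) σ) (𝓝[>] 1) (𝓝 (ρ : ℂ)) :=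
    (Continuous.tendsto' (by fun_prop) 1 _ (by simp)).mono_left nhdsWithin_le_nhds
  have t2 : Tendsto (fun σ : ℝ => (ρ : ℂ) - ((σ : ℂ) - 1) ^ 2 *
      deriv (Ent fun _ : Ideal (𝓞 K) => (1 : ℂ)) σ) (𝓝[>] 1) (𝓝 (ρ : ℂ)) :=
    (Continuous.tendsto' (by fun_prop) 1 _ (by simp)).mono_left nhdsWithin_le_nhds
  have t3 := t2.div t1 hρ'
  rw [div_self hρ'] at t3
  refine ((Complex.continuous_re.tendsto _).comp t3).congr' ?_
  filter_upwards [self_mem_nhdsWithin, t1.eventually_ne hρ'] with σ hσ hne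
  have h := hyppb_id (K := K) (s := σ) (by simpa using hσ)
  rw [hk] at h
  rw [Function.comp_apply, Pi.div_apply, ← h, mul_div_cancel_right₀ _ hne, LSeries,
    tsum_congr (hyppb_term σ), ← Complex.ofReal_tsum]
  norm_cast

theorem split_deg {L : Type} [Field L] [NumberField L] {q : ℕ} (hq : 0 < q) :
    ∃ p : ℕ, p.Prime ∧ ¬ p ∣ q ∧ #(idN L p) < 2 * #(idN K p) := by
  by_contra hc
  push Not at hc
  obtain ⟨g, hg⟩ : ∃ g : ℕ → ℝ, g = fun n => (if n.Prime then 0 else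
    ArithmeticFunction.vonMangoldt n) + if n ∣ q then ArithmeticFunction.vonMangoldt n else 0 :=
    ⟨_, rfl⟩
  have hΛ : ∀ n, 0 ≤ ArithmeticFunction.vonMangoldt n := fun _ =>
    ArithmeticFunction.vonMangoldt_nonneg
  have g0 : ∀ n, 0 ≤ g n := fun n => by
    have := hΛ n
    simp only [hg]
    split_ifs <;> linarith only [this]
  have s1 : Summable fun n : ℕ => g n / n := by
    have a := ArithmeticFunction.vonMangoldt.summable_residueClass_non_primes_div (1 : ZMod 1)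
    rw [show ArithmeticFunction.vonMangoldt.residueClass (1 : ZMod 1) =
      fun n => ArithmeticFunction.vonMangoldt n from funext fun n =>
        Set.indicator_of_mem (s := {n : ℕ | (n : ZMod 1) = 1}) (a := n)
          (Subsingleton.elim (n : ZMod 1) 1) _] at a
    simp only [hg, add_div]
    refine a.add (summable_of_ne_finset_zero (s := q.divisors) fun n hn => ?_)
    rw [if_neg fun h => hn (Nat.mem_divisors.2 ⟨h, hq.ne'⟩), zero_div]
  have d0 : (0 : ℝ) ≤ dg K := Nat.cast_nonneg _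
  have key : ∀ n, 2 * lamK K n ≤ lamK L n + 2 * dg K * g n := fun n => by
    have a1 := lamK_nonneg (K := L) n
    by_cases h : n.Prime ∧ ¬ n ∣ q
    · have a2 : (2 : ℝ) * #(idN K n) ≤ #(idN L n) := by exact_mod_cast hc n h.1 h.2
      rw [lamK_prime h.1, lamK_prime h.1]
      nlinarith only [Real.log_natCast_nonneg n, mul_nonneg d0 (g0 n), a2]
    · have a2 : ArithmeticFunction.vonMangoldt n ≤ g n := by
        have := hΛ n
        simp only [hg]
        split_ifs with b1 b2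
        · linarith only []
        · exact absurd ⟨b1, b2⟩ h
        · linarith
        · linarith
      linarith only [lamK_le (K := K) n, mul_le_mul_of_nonneg_left a2 d0, a1]
  have t : Tendsto (fun σ : ℝ => (σ - 1) * (2 * dg K * ∑' n : ℕ, g n / n)) (𝓝[>] 1) (𝓝 0) :=
    (Continuous.tendsto' (by fun_prop) 1 _ (by simp)).mono_left nhdsWithin_le_nhds
  have := le_of_tendsto_of_tendsto ((hyppb_lim K).const_mul 2) ((hyppb_lim L).add t) (by
    filter_upwards [self_mem_nhdsWithin] with σ hσ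
    have hσ' : (1 : ℝ) < σ := hσ
    rw [mul_left_comm, ← mul_add]
    refine mul_le_mul_of_nonneg_left ?_ (sub_nonneg.2 hσ'.le)
    rw [← tsum_mul_left, ← tsum_mul_left, ← (hyppb_summ L hσ').tsum_add (s1.mul_left _)]
    refine ((hyppb_summ K hσ').mul_left 2).tsum_le_tsum (fun n => ?_)
      ((hyppb_summ L hσ').add (s1.mul_left _))
    rcases Nat.eq_zero_or_pos n with rfl | hn
    · simp [lamK]
    have n1 : (1 : ℝ) ≤ n := by exact_mod_cast hn
    have b1 : g n / (n : ℝ) ^ σ ≤ g n / n := div_le_div_of_nonneg_left (g0 n) (by linarith only [n1])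
      (Real.self_le_rpow_of_one_le n1 hσ'.le)
    have b2 := div_le_div_of_nonneg_right (key n) (Real.rpow_nonneg (by linarith only [n1] : (0 : ℝ) ≤ n) σ)
    rw [add_div, mul_div_assoc, mul_div_assoc] at b2
    linarith only [mul_le_mul_of_nonneg_left b1 d0, b2])
  norm_num at this

theorem hyppc_norm {L : Type} [Field L] [NumberField L] [Algebra K L] {q : ℕ} [NeZero q]
    [IsCyclotomicExtension {q} K L] {P : Ideal (𝓞 K)} (hp : (Ideal.absNorm P).Prime)
    (hc : (Ideal.absNorm P).Coprime q) (h1 : Ideal.absNorm P ≡ 1 [MOD q]) {Q : Ideal (𝓞 L)}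
    (hQ : Q.IsPrime) (hQP : Q.comap (algebraMap (𝓞 K) (𝓞 L)) = P) :
    Ideal.absNorm Q = Ideal.absNorm P ∧
      ∀ x : 𝓞 L, ∃ a : 𝓞 K, x - algebraMap (𝓞 K) (𝓞 L) a ∈ Q := by
  have hG : IsGalois K L := IsCyclotomicExtension.isGalois {q} K L
  have hQ0 : Q ≠ ⊥ := by
    rintro rfl
    rw [Ideal.comap_bot_of_injective _ (RingOfIntegers.algebraMap.injective K L)] at hQP
    rw [← hQP, Ideal.absNorm_bot] at hp
    exact Nat.not_prime_zero hp
  have : Finite (𝓞 L ⧸ Q) := Ideal.finiteQuotientOfFreeOfNeBot Q hQ0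
  have hM : Q.IsMaximal := hQ.isMaximal hQ0
  obtain ⟨σ, hσ⟩ := IsArithFrobAt.exists_of_isInvariant (𝓞 K) (L ≃ₐ[K] L) Q
  have hζ := IsCyclotomicExtension.zeta_spec q K L
  have hq : ((q : ℕ) : 𝓞 L) ∉ Q := by
    intro h
    have h2 : ((Ideal.absNorm P : ℕ) : 𝓞 L) ∈ Q := by
      have := Ideal.absNorm_mem P
      rw [← hQP, Ideal.mem_comap, map_natCast, hQP] at this
      exact this
    obtain ⟨a, b, hab⟩ := (Nat.isCoprime_iff_coprime.2 hc).map (Int.castRingHom (𝓞 L))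
    simp only [eq_intCast, Int.cast_natCast] at hab
    exact hQ.ne_top ((Ideal.eq_top_iff_one _).2
      (hab ▸ Q.add_mem (Q.mul_mem_left _ h2) (Q.mul_mem_left _ h)))
  have hN : Nat.card (𝓞 K ⧸ Q.under (𝓞 K)) = Ideal.absNorm P := by
    rw [Ideal.under, hQP, Ideal.absNorm_apply, Submodule.cardQuot_apply]
  have h3 := AlgHom.IsArithFrobAt.apply_of_pow_eq_one hσ hζ.toInteger_isPrimitiveRoot.pow_eq_one hq
  rw [hN, pow_eq_pow_of_modEq h1 hζ.toInteger_isPrimitiveRoot.pow_eq_one, pow_one] at h3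
  have h4 : σ = 1 := by
    have h5 : σ (IsCyclotomicExtension.zeta q K L) = IsCyclotomicExtension.zeta q K L :=
      congrArg (fun x : 𝓞 L => (x : L)) h3
    exact AlgEquiv.coe_toAlgHom_injective ((hζ.powerBasis K).algHom_ext (by simpa using h5))
  have h6 : ∀ x : 𝓞 L ⧸ Q, x ^ Ideal.absNorm P = x := by
    intro x
    obtain ⟨x, rfl⟩ := Ideal.Quotient.mk_surjective x
    have h7 := hσ x
    rw [hN, h4] at h7
    rw [← map_pow, eq_comm, Ideal.Quotient.eq]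
    simpa using h7
  let _ := Ideal.Quotient.field Q
  let _ := Fintype.ofFinite (𝓞 L ⧸ Q)
  have h8 : Fintype.card (𝓞 L ⧸ Q) - 1 ∣ Ideal.absNorm P - 1 := by
    refine (FiniteField.forall_pow_eq_one_iff (𝓞 L ⧸ Q) _).1 fun x => ?_
    refine mul_right_cancel (b := x) (Units.ext ?_)
    rw [← pow_succ, Nat.sub_add_cancel hp.pos, one_mul, Units.val_pow_eq_pow_val, h6]
  have h9 : Nat.card (𝓞 L ⧸ Q) ≤ Nat.card (𝓞 K ⧸ Q.under (𝓞 K)) := by
    have := Nat.le_of_dvd (by have := hp.two_le; omega) h8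
    have := hp.two_le
    rw [hN, Nat.card_eq_fintype_card]
    omega
  have h10 := (Ideal.quotientMap_injective (I := Q)
    (f := algebraMap (𝓞 K) (𝓞 L))).bijective_of_nat_card_le h9
  refine ⟨?_, fun x => ?_⟩
  · rw [← hN, Ideal.absNorm_apply, Submodule.cardQuot_apply]
    exact (Nat.card_eq_of_bijective _ h10).symm
  · obtain ⟨a, ha⟩ := h10.2 (Ideal.Quotient.mk Q x)
    obtain ⟨a, rfl⟩ := Ideal.Quotient.mk_surjective a
    rw [Ideal.quotientMap_mk] at ha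
    exact ⟨a, Ideal.Quotient.eq.1 ha.symm⟩

theorem hyppc_two {L : Type} [Field L] [NumberField L] [Algebra K L] {q : ℕ} [NeZero q]
    [IsCyclotomicExtension {q} K L] (h : ∀ ζ : K, ¬ IsPrimitiveRoot ζ q) {P : Ideal (𝓞 K)}
    (hp : (Ideal.absNorm P).Prime) (hc : (Ideal.absNorm P).Coprime q)
    (h1 : Ideal.absNorm P ≡ 1 [MOD q]) :
    ∃ Q Q' : Ideal (𝓞 L), Q ≠ Q' ∧ (Ideal.absNorm Q = Ideal.absNorm P ∧
      Q.comap (algebraMap (𝓞 K) (𝓞 L)) = P) ∧ Ideal.absNorm Q' = Ideal.absNorm P ∧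
      Q'.comap (algebraMap (𝓞 K) (𝓞 L)) = P := by
  have hG : IsGalois K L := IsCyclotomicExtension.isGalois {q} K L
  have hζ := IsCyclotomicExtension.zeta_spec q K L
  obtain ⟨τ, hτ⟩ : ∃ τ : L ≃ₐ[K] L,
      τ (IsCyclotomicExtension.zeta q K L) ≠ IsCyclotomicExtension.zeta q K L := by
    by_contra h2
    push Not at h2
    obtain ⟨z, hz⟩ := (IsGalois.mem_range_algebraMap_iff_fixed _).2 h2
    exact h z (IsPrimitiveRoot.of_map_of_injective (f := algebraMap K L) (hz ▸ hζ)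
      (algebraMap K L).injective)
  have hIp : P.IsPrime := Ideal.isPrime_of_irreducible_absNorm hp
  obtain ⟨Q, -, hQ, hQP⟩ := Ideal.exists_ideal_over_prime_of_isIntegral P (⊥ : Ideal (𝓞 L))
    (by rw [Ideal.comap_bot_of_injective _ (RingOfIntegers.algebraMap.injective K L)]; exact bot_le)
  let t := MulSemiringAction.toRingHom (L ≃ₐ[K] L) (𝓞 L) τ
  have ht : ∀ a, t (algebraMap (𝓞 K) (𝓞 L) a) = algebraMap (𝓞 K) (𝓞 L) a :=
    fun a => smul_algebraMap τ a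
  have hQ' : (Q.comap t).comap (algebraMap (𝓞 K) (𝓞 L)) = P := by
    ext a
    rw [Ideal.mem_comap, Ideal.mem_comap, ht, ← Ideal.mem_comap, hQP]
  obtain ⟨a1, a2⟩ := hyppc_norm hp hc h1 hQ hQP
  refine ⟨Q, Q.comap t, fun he => hτ ?_, ⟨a1, hQP⟩,
    (hyppc_norm hp hc h1 (Ideal.comap_isPrime t Q) hQ').1, hQ'⟩
  obtain ⟨a, ha⟩ := a2 hζ.toInteger
  have hb := ha
  rw [he, Ideal.mem_comap, map_sub, ht] at hb
  have hz := hζ.toInteger_isPrimitiveRoot
  obtain ⟨j, hj, e⟩ := hz.eq_pow_of_pow_eq_one (ξ := t hζ.toInteger)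
    (by rw [← map_pow, hz.pow_eq_one, map_one])
  have h3 := hz.idealQuotient_mk (I := Q) (by rw [a1]; exact hp.ne_one) (a1 ▸ hc)
  have h4 : Ideal.Quotient.mk Q hζ.toInteger ^ j = Ideal.Quotient.mk Q hζ.toInteger ^ 1 := by
    rw [← map_pow, e, pow_one, Ideal.Quotient.eq]
    simpa using Q.sub_mem hb ha
  have h5 : j ≡ 1 [MOD q] := by
    rw [h3.eq_orderOf]
    exact (IsOfFinOrder.pow_eq_pow_iff_modEq (h3.isOfFinOrder (NeZero.ne q))).1 h4
  rw [pow_eq_pow_of_modEq h5 hz.pow_eq_one, pow_one] at e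
  exact congrArg (fun x : 𝓞 L => (x : L)) e.symm

theorem exists_norm_ne {q : ℕ} (hq : 0 < q) (h : ∀ ζ : K, ¬ IsPrimitiveRoot ζ q) :
    ∃ I : Ideal (𝓞 K), (Ideal.absNorm I).Coprime q ∧ ¬ Ideal.absNorm I ≡ 1 [MOD q] := by
  by_contra h0
  push Not at h0
  have : NeZero q := ⟨hq.ne'⟩
  have : NumberField (CyclotomicField q K) := IsCyclotomicExtension.numberField {q} K _
  obtain ⟨p, hp, hpq, hlt⟩ := split_deg (K := K) (L := CyclotomicField q K) hq
  let f := Ideal.comap (algebraMap (𝓞 K) (𝓞 (CyclotomicField q K)))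
  have h1 := mul_card_image_le_card_of_maps_to (f := f) (t := idN K p)
    (s := {Q ∈ idN (CyclotomicField q K) p | f Q ∈ idN K p}) (fun a ha => (mem_filter.1 ha).2) 2
    fun P hP => by
      have h2 := (mem_idN K).1 hP
      have hc : (Ideal.absNorm P).Coprime q := h2 ▸ (Nat.Prime.coprime_iff_not_dvd hp).2 hpq
      obtain ⟨Q, Q', a1, ⟨a2, a3⟩, a4, a5⟩ :=
        hyppc_two (L := CyclotomicField q K) h (h2 ▸ hp) hc (h0 P hc)
      refine one_lt_card.2 ⟨Q, ?_, Q', ?_, a1⟩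
      · exact mem_filter.2 ⟨mem_filter.2 ⟨(mem_idN _).2 (a2.trans h2),
          (mem_idN K).2 ((congrArg _ a3).trans h2)⟩, a3⟩
      · exact mem_filter.2 ⟨mem_filter.2 ⟨(mem_idN _).2 (a4.trans h2),
          (mem_idN K).2 ((congrArg _ a5).trans h2)⟩, a5⟩
  exact absurd (h1.trans (card_filter_le _ _)) (not_le.2 hlt)

theorem hyp_pid [IsPrincipalIdealRing (𝓞 K)] {M : ℕ} (hM : 0 < M) :
    ∃ I : Ideal (𝓞 K), (Ideal.absNorm I).Coprime M ∧
      Nat.gcd (Ideal.absNorm I - 1) M ∣ Units.torsionOrder K := by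
  by_cases hK : ∃ w : InfinitePlace K, w.IsReal
  · obtain ⟨I, h1, h2⟩ := hyp_real hK hM
    exact ⟨I, h1, h2.trans (Units.even_torsionOrder K).two_dvd⟩
  obtain ⟨t, ht⟩ : ∃ t, Units.torsionOrder K = t := ⟨_, rfl⟩
  have t0 : t ≠ 0 := ht ▸ Units.torsionOrder_ne_zero K
  obtain ⟨q, hq⟩ : ∃ q : ℕ → ℕ, ∀ l, q l = l ^ (t.factorization l + 1) := ⟨_, fun _ => rfl⟩
  have h1 : ∀ l : M.primeFactors, ∃ a : 𝓞 K, (nm a).natAbs.Coprime (q l) ∧
      ¬ (nm a).natAbs ≡ 1 [MOD q l] := fun l => by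
    have hl := Nat.prime_of_mem_primeFactors l.2
    have h0 : 0 < q l := hq l ▸ pow_pos hl.pos _
    obtain ⟨I, hI⟩ := exists_norm_ne (K := K) h0 fun ζ h =>
      Nat.pow_succ_factorization_not_dvd t0 hl (by
        have : NeZero (q l) := ⟨h0.ne'⟩
        rw [← hq, ← ht]
        exact Units.dvd_torsionOrder_of_isPrimitiveRoot h)
    obtain ⟨a, rfl⟩ := (IsPrincipalIdealRing.principal I).principal
    exact ⟨a, by rwa [← Ideal.absNorm_span_singleton]⟩
  choose a ha hb using h1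
  obtain ⟨α, hα⟩ := Ideal.exists_forall_sub_mem_ideal
    (I := fun l : M.primeFactors => Ideal.span {((q l : ℕ) : 𝓞 K)}) (fun l l' e => by
      refine (Ideal.isCoprime_span_singleton_iff _ _).2 (Nat.Coprime.cast ?_)
      rw [hq, hq]
      exact Nat.coprime_pow_primes _ _ (Nat.prime_of_mem_primeFactors l.2)
        (Nat.prime_of_mem_primeFactors l'.2) fun h => e (Subtype.ext h)) a
  have h2 : ∀ l : M.primeFactors, (nm (a l)).natAbs ≡ (nm α).natAbs [MOD q l] := fun l => by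
    rw [Nat.modEq_iff_dvd, Int.natAbs_of_nonneg (hyppa_nonneg hK _),
      Int.natAbs_of_nonneg (hyppa_nonneg hK _)]
    exact nm_congr (by rw [Int.cast_natCast]; exact Ideal.mem_span_singleton.1 (hα l))
  by_cases h3 : M = 1
  · exact ⟨⊤, by simp only [Ideal.absNorm_top, h3, Nat.coprime_self, tsub_self, Nat.gcd_one_right, isUnit_iff_eq_one, IsUnit.dvd, and_self]⟩
  have h4 : ∀ l : M.primeFactors, (nm α).natAbs.Coprime l := fun l => by
    have h5 : (nm α).natAbs.Coprime (q l) := by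
      rw [Nat.Coprime, ← (h2 l).gcd_eq]; exact ha l
    rw [hq] at h5
    exact (Nat.coprime_pow_right_iff (Nat.succ_pos _) _ _).1 h5
  have h5 : (nm α).natAbs.Coprime M := Nat.coprime_of_dvd fun l hl h6 h7 =>
    hl.one_lt.ne' (Nat.Coprime.eq_one_of_dvd
      (h4 ⟨l, Nat.mem_primeFactors.2 ⟨hl, h7, hM.ne'⟩⟩).symm h6)
  refine ⟨Ideal.span {α}, ?_⟩
  rw [Ideal.absNorm_span_singleton, ht]
  refine ⟨h5, (Nat.dvd_iff_prime_pow_dvd_dvd _ _).2 fun l k hl h6 => ?_⟩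
  rcases k.eq_zero_or_pos with rfl | hk
  · simp
  have h7 : l ∈ M.primeFactors := Nat.mem_primeFactors.2
    ⟨hl, ((dvd_pow_self l hk.ne').trans h6).trans (Nat.gcd_dvd_right _ _), hM.ne'⟩
  by_contra h8
  have h9 : t.factorization l + 1 ≤ k := by
    by_contra h
    exact h8 ((hl.pow_dvd_iff_le_factorization t0).2 (by omega))
  have h10 : 1 ≤ (nm α).natAbs := Nat.pos_of_ne_zero fun e => by
    rw [e, Nat.coprime_zero_left] at h5
    exact h3 h5
  refine hb ⟨l, h7⟩ ((h2 ⟨l, h7⟩).trans ((Nat.modEq_iff_dvd' h10).2 ?_).symm)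
  rw [hq]
  exact ((pow_dvd_pow l h9).trans h6).trans (Nat.gcd_dvd_left _ _)

end Pool.Agent.MP_48b1c3_nt.H48

end
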