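import Pool.Agent.MP_48b1c3_nt.Mg.Larger

-- part MP_48b1c3_nt.Main
section

set_option autoImplicit false

open Finset Filter

namespace Pool.Agent.MP_48b1c3_nt

lemma exists_res {p n : ℕ} (hp : p.Prime) {a : ℕ → ℕ} (ha : ∀ i, (a i).Prime)
    (h : Subgroup.closure {u : (ZMod p)ˣ | ∃ i < n, (u : ZMod p) = a i} ≠ ⊤) :
    ∃ l, l.Prime ∧ ∀ i < n, a i ≠ p → Res p l (a i) := by
  have := Fact.mk hp
  generalize hH : Subgroup.closure {u : (ZMod p)ˣ | ∃ i < n, (u : ZMod p) = a i} = H at h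
  obtain ⟨l, hl, k, hk⟩ := Nat.exists_prime_and_dvd (mt Subgroup.index_eq_one.1 h)
  have e : p - 1 = l * (Nat.card H * k) := by
    rw [← ZMod.card_units p, ← Nat.card_eq_fintype_card, ← H.card_mul_index, hk]; ring
  refine ⟨l, hl, fun i hi hne => ⟨⟨_, e⟩, ?_⟩⟩
  have hc := (Nat.coprime_primes (ha i) hp).2 hne
  have hm : ZMod.unitOfCoprime _ hc ∈ H := hH ▸ Subgroup.subset_closure ⟨i, hi, rfl⟩
  have h1 := congrArg (fun z : H => ((z : (ZMod p)ˣ) : ZMod p)) (pow_card_eq_one' (x := (⟨_, hm⟩ : H)))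
  rw [← ZMod.natCast_eq_natCast_iff, e, Nat.mul_div_cancel_left _ hl.pos, pow_mul, Nat.cast_pow,
    Nat.cast_pow]
  simp only [SubmonoidClass.coe_pow, Units.val_pow_eq_pow_val, ZMod.coe_unitOfCoprime,
    OneMemClass.coe_one, Units.val_one] at h1
  rw [h1]; simp

lemma log_growth {a : ℕ → ℕ}
    (hg : ∀ η : ℝ, 0 < η → ∀ᶠ i : ℕ in atTop, Real.log (a i) ≤ (i : ℝ) ^ η) {T : ℕ} (hT : 0 < T) :
    ∀ᶠ g : ℕ in atTop, ∀ i ≤ 2 ^ (g + 1), Real.log (a i) ≤ 2 ^ (g / T + 1) := by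
  obtain ⟨i0, h0⟩ := eventually_atTop.1 (hg (1 / T) (by positivity))
  obtain ⟨C, hC⟩ := exists_nat_ge (∑ i ∈ range i0, Real.log (a i))
  filter_upwards [eventually_ge_atTop (C * T)] with g hg i hi
  rcases lt_or_ge i i0 with h | h
  · have a1 : C ≤ 2 ^ (g / T + 1) :=
      (((Nat.le_div_iff_mul_le hT).2 hg).trans (Nat.le_succ _)).trans Nat.lt_two_pow_self.le
    exact ((single_le_sum (f := fun i => Real.log (a i)) (fun _ _ => Real.log_natCast_nonneg _)
      (mem_range.2 h)).trans hC).trans (by exact_mod_cast a1)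
  · refine (h0 i h).trans ?_
    have a1 : (i : ℝ) ≤ (2 ^ (g / T + 1)) ^ T := by
      rw [← pow_mul]
      exact_mod_cast hi.trans (Nat.pow_le_pow_right two_pos (by
        have := Nat.lt_mul_div_succ g hT; rw [mul_comm]; omega))
    refine (Real.rpow_le_rpow (by positivity) a1 (by positivity)).trans (le_of_eq ?_)
    rw [one_div, Real.pow_rpow_inv_natCast (by positivity) hT.ne']

lemma big_le {l r g u t : ℕ} (hg : 1 ≤ g) (hl : l ≤ 2 ^ u) (hu : u ≤ g) (hr : r ≤ 2 ^ g)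
    (ht : t < 2 ^ (g + 1)) :
    (96 * (32 * (l * r) * l ^ 5 * (4 * t + 6) * r ^ 2) ^ l) ^ 6 ≤ 2 ^ (156 * g * 2 ^ u) := by
  have h1 : l ≤ 2 ^ g := hl.trans (Nat.pow_le_pow_right two_pos hu)
  have h2 : 1 ≤ 2 ^ g := Nat.one_le_two_pow
  have h3 : 1 ≤ 2 ^ u := Nat.one_le_two_pow
  have h4 : 32 * (l * r) * l ^ 5 * (4 * t + 6) * r ^ 2 ≤ 2 ^ (19 * g) := by
    calc _ ≤ 32 * (2 ^ g * 2 ^ g) * (2 ^ g) ^ 5 * (16 * 2 ^ g) * (2 ^ g) ^ 2 := by
          gcongr; rw [pow_succ] at ht; omega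
      _ = 2 ^ (10 * g + 9) := by ring
      _ ≤ _ := Nat.pow_le_pow_right two_pos (by omega)
  calc _ ≤ (2 ^ 7 * (2 ^ (19 * g)) ^ 2 ^ u) ^ 6 :=
        Nat.pow_le_pow_left (Nat.mul_le_mul (by norm_num)
          ((Nat.pow_le_pow_left h4 _).trans (Nat.pow_le_pow_right (by positivity) hl))) 6
    _ = 2 ^ ((7 + 19 * g * 2 ^ u) * 6) := by rw [← pow_mul, ← pow_add, ← pow_mul]
    _ ≤ _ := Nat.pow_le_pow_right two_pos (by nlinarith [Nat.mul_le_mul hg h3])

lemma rank_ge {r : ℕ → ℕ} (hr : Tendsto (fun q : ℕ => (r q : ℝ) * Real.log (Real.log q) /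
    Real.log q) atTop atTop) (c : ℕ) : ∀ᶠ x : ℕ in atTop, ∀ p, x < p → p ≤ 2 * x →
      c * Nat.log 2 x ≤ r p * (Nat.log 2 (Nat.log 2 x) + 2) := by
  obtain ⟨q0, h0⟩ := eventually_atTop.1 (hr.eventually_ge_atTop c)
  filter_upwards [eventually_ge_atTop q0, eventually_ge_atTop 4] with x hx hx4 p h1 h2
  have a1 := h0 p (by omega)
  have a2 := Nat.pow_log_le_self 2 (by omega : x ≠ 0)
  have a3 := Nat.lt_pow_succ_log_self (b := 2) one_lt_two x
  have a4 := Nat.lt_pow_succ_log_self (b := 2) one_lt_two (Nat.log 2 x)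
  have a5 : 2 ≤ Nat.log 2 x := Nat.le_log_of_pow_le one_lt_two hx4
  generalize Nat.log 2 (Nat.log 2 x) = g at *
  generalize Nat.log 2 x = t at *
  have lg := Real.log_two_gt_d9
  have lg' := Real.log_two_lt_d9
  have t2 : (2 : ℝ) ≤ t := by exact_mod_cast a5
  have b1 : t * Real.log 2 ≤ Real.log p := by
    rw [← Real.log_pow]
    exact Real.log_le_log (by positivity) (by exact_mod_cast (by omega))
  have b2 : Real.log p ≤ (t + 2 : ℕ) * Real.log 2 := by
    rw [← Real.log_pow]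
    refine Real.log_le_log (by exact_mod_cast (by omega)) ?_
    rw [pow_succ] at a3
    exact_mod_cast (by rw [pow_add]; omega)
  have b0 : 0 < Real.log p := by nlinarith
  have b3 : Real.log (Real.log p) ≤ (g + 2 : ℕ) * Real.log 2 := by
    rw [← Real.log_pow]
    refine Real.log_le_log b0 (b2.trans ?_)
    have : ((t + 2 : ℕ) : ℝ) ≤ 2 ^ (g + 2) := by
      rw [pow_succ] at a4
      exact_mod_cast (by rw [pow_add]; omega)
    nlinarith
  rw [le_div_iff₀ b0] at a1
  have b4 : (c * t : ℝ) ≤ r p * (g + 2 : ℕ) := by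
    refine le_of_mul_le_mul_right ?_ (by linarith : 0 < Real.log 2)
    nlinarith [mul_le_mul_of_nonneg_left b1 (Nat.cast_nonneg c),
      mul_le_mul_of_nonneg_left b3 (Nat.cast_nonneg (r p))]
  exact_mod_cast b4

lemma card_biUnion_mul_le {s : Finset ℕ} {F : ℕ → Finset ℕ} {w : ℕ → ℝ} {y : ℝ} (hy : 0 ≤ y)
    (h : ∀ l ∈ s, (F l).card * y ≤ w l) : (s.biUnion F).card * y ≤ ∑ l ∈ s, w l := by
  refine le_trans ?_ (sum_le_sum h)
  rw [← sum_mul]
  gcongr
  exact_mod_cast card_biUnion_le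

theorem block {a : ℕ → ℕ} (ha : ∀ i, (a i).Prime) (hinj : Function.Injective a)
    (hg : ∀ η : ℝ, 0 < η → ∀ᶠ i : ℕ in atTop, Real.log (a i) ≤ (i : ℝ) ^ η) {r : ℕ → ℕ}
    (hr : Tendsto (fun q : ℕ => (r q : ℝ) * Real.log (Real.log q) / Real.log q) atTop atTop)
    {T : ℕ} (hT : 3 ≤ T) (hTa : a 0 ≤ T) : ∀ᶠ x : ℕ in atTop, ∀ E : Finset ℕ,
      (∀ p ∈ E, p.Prime ∧ x < p ∧ p ≤ 2 * x ∧
        Subgroup.closure {u : (ZMod p)ˣ | ∃ i < r p, (u : ZMod p) = a i} ≠ ⊤) →
      E.card * Real.log x ≤ 9000 / T * x := by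
  classical
  have T0 : 0 < T := by omega
  have tg := tendsto_log_two.comp tendsto_log_two
  have td := (Nat.tendsto_div_const_atTop T0.ne').comp tg
  filter_upwards [(eventually_all_finset ((Icc 1 T).filter Nat.Prime)).2 fun l hl =>
      partA (s := T ^ 2) (mem_filter.1 hl).2 ha hinj, rank_ge hr (12 * T),
    tg.eventually (log_growth hg T0), tg.eventually (poly_le_pow (T ^ 2) 1),
    td.eventually (poly_le_pow (312 * T) 1), td.eventually_ge_atTop T,
    tendsto_log_two.eventually (poly_le_pow 64 6), eventually_ge_atTop (512 ^ 6)]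
    with x hA hR hG g1 d1 d2 t1 x1 E hE
  simp only [Function.comp, pow_one] at hG g1 d1 d2
  obtain ⟨t, ht⟩ : ∃ t, t = Nat.log 2 x := ⟨_, rfl⟩
  obtain ⟨g, hg⟩ : ∃ g, g = Nat.log 2 t := ⟨_, rfl⟩
  obtain ⟨d, hd⟩ : ∃ d, d = g / T := ⟨_, rfl⟩
  rw [← ht] at hR hG g1 d1 d2 t1
  rw [← hg] at hR hG g1 d1 d2
  rw [← hd] at hG d1 d2
  have x2 : 2 ^ t ≤ x := ht ▸ Nat.pow_log_le_self 2 (by omega)
  have x3 : x < 2 ^ (t + 1) := ht ▸ Nat.lt_pow_succ_log_self one_lt_two x
  have d3 : T * d ≤ g := hd ▸ Nat.mul_div_le g T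
  have d4 : g < T * (d + 1) := hd ▸ Nat.lt_mul_div_succ g T0
  have d5 : 3 * d ≤ g := le_trans (Nat.mul_le_mul_right _ hT) d3
  have t0 : t ≠ 0 := by rintro rfl; simp at hg; omega
  have t2 : 2 ^ g ≤ t := hg ▸ Nat.pow_log_le_self 2 t0
  have t3 : t < 2 ^ (g + 1) := hg ▸ Nat.lt_pow_succ_log_self one_lt_two t
  have g2 : g < 2 ^ g := Nat.lt_two_pow_self
  obtain ⟨R, hR'⟩ : ∃ R, R = (t + 3) / d + 1 := ⟨_, rfl⟩
  have R1 : t + 3 < d * R := hR' ▸ Nat.lt_mul_div_succ _ (by omega)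
  have R2 : d * R ≤ t + 3 + d := by
    rw [hR', mul_add, mul_one]; exact Nat.add_le_add_right (Nat.mul_div_le _ _) _
  have R3 : R ≤ 2 ^ (g + 1) := by
    refine le_trans (Nat.le_of_mul_le_mul_left (c := d) ?_ (by omega)) t3.le
    nlinarith [Nat.mul_le_mul_right t (hT.trans d2)]
  have R4 : T ^ 2 < R := Nat.lt_of_mul_lt_mul_left (a := d) (by
    nlinarith [Nat.mul_le_mul_left (T ^ 2) (by omega : d ≤ g)])
  have lx := Real.log_natCast_nonneg x
  have xR : (0 : ℝ) ≤ x := Nat.cast_nonneg _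
  have TR : (3 : ℝ) ≤ T := by exact_mod_cast hT
  have ax : ∀ i < R, a i ≤ x := fun i hi => by
    have a1 := hG i (by omega)
    have a2 : 2 * 2 ^ (d + 1) ≤ t := by
      rw [← pow_succ']; exact (Nat.pow_le_pow_right two_pos (by omega)).trans t2
    have a3 : (2 : ℝ) * 2 ^ (d + 1) ≤ t := by exact_mod_cast a2
    have a4 : Real.log (a i) ≤ Real.log (2 ^ t) := by
      rw [Real.log_pow]; nlinarith [Real.log_two_gt_d9]
    rw [Real.log_le_log_iff (by exact_mod_cast (ha i).pos) (by positivity)] at a4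
    exact le_trans (by exact_mod_cast a4) x2
  let F : ℕ → Finset ℕ := fun l => E.filter fun p => ∀ i < R, Res p l (a i)
  have hF : ∀ l, ∀ p ∈ F l, p.Prime ∧ x < p ∧ p ≤ 2 * x ∧ ∀ i < R, Res p l (a i) := fun l p hp =>
    have := hE p (mem_filter.1 hp).1
    ⟨this.1, this.2.1, this.2.2.1, (mem_filter.1 hp).2⟩
  have cov : E ⊆ ((Icc 1 T).filter Nat.Prime).biUnion F ∪
      ((Ioc T (2 ^ (g - d))).filter Nat.Prime).biUnion F ∪
      ((Ioc (2 ^ (g - d)) (2 ^ (g - d + 4 * d))).filter Nat.Prime).biUnion F ∪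
      E.filter fun p => ∃ l, 2 ^ (g - d + 4 * d) ≤ l ∧ ∀ i < R, Res p l (a i) := fun p hp => by
    obtain ⟨p1, p2, p3, p4⟩ := hE p hp
    obtain ⟨l, hl, h⟩ := exists_res p1 ha p4
    have a1 : R ≤ r p := by
      have := hR p p2 p3
      refine Nat.le_of_mul_le_mul_left (c := 4 * T * d) ?_ (by have := hT.trans d2; positivity)
      have b1 : g + 2 ≤ 4 * T * d := by nlinarith
      have b2 : d * R ≤ 3 * t := by omega
      nlinarith [Nat.mul_le_mul_left (r p) b1, Nat.mul_le_mul_left (4 * T) b2]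
    have a2 : ∀ i < R, Res p l (a i) := fun i hi =>
      h i (by omega) (by have := ax i hi; omega)
    have a3 : p ∈ F l := mem_filter.2 ⟨hp, a2⟩
    simp only [mem_union, mem_biUnion, mem_filter, mem_Icc, mem_Ioc]
    rcases le_or_gt l T with b1 | b1
    · exact .inl (.inl (.inl ⟨l, ⟨⟨hl.one_le, b1⟩, hl⟩, a3⟩))
    rcases le_or_gt l (2 ^ (g - d)) with b2 | b2
    · exact .inl (.inl (.inr ⟨l, ⟨⟨b1, b2⟩, hl⟩, a3⟩))
    rcases le_or_gt l (2 ^ (g - d + 4 * d)) with b3 | b3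
    · exact .inl (.inr ⟨l, ⟨⟨b2, b3⟩, hl⟩, a3⟩)
    · exact .inr ⟨hp, l, b3.le, a2⟩
  have cA := card_biUnion_mul_le (s := (Icc 1 T).filter Nat.Prime) (F := F)
    (w := fun _ => 600 * x / T ^ 2) lx fun l hl => by
      have := hA l hl (F l) fun p hp => ⟨(hF l p hp).1, (hF l p hp).2.1, (hF l p hp).2.2.1,
        fun i hi => (hF l p hp).2.2.2 i (hi.trans R4)⟩
      rw [le_div_iff₀ (by positivity)]
      push_cast at this; linarith
  have cB := card_biUnion_mul_le (s := (Ioc T (2 ^ (g - d))).filter Nat.Prime) (F := F)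
    (w := fun l => 1200 * x * ((l : ℝ) ^ 2)⁻¹) lx fun l hl => by
      obtain ⟨l1, l2⟩ := mem_filter.1 hl
      rw [mem_Ioc] at l1
      have := partB (x := x) (E := F l) l2 (ha 0) (by omega) (ht ▸ (big_le (by omega) l1.2
        (Nat.sub_le g d) (by omega) t3).trans ((Nat.pow_le_pow_right two_pos (le_trans (by
          have b1 : 156 * g ≤ 2 ^ d := by nlinarith
          calc _ ≤ 2 ^ d * 2 ^ (g - d) := Nat.mul_le_mul_right _ b1
            _ = 2 ^ g := by rw [← pow_add]; congr 1; omega) t2)).trans x2)) x1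
        fun p hp => ⟨(hF l p hp).1, (hF l p hp).2.1, (hF l p hp).2.2.1,
          (hF l p hp).2.2.2 0 (by omega)⟩
      have l3 : (2 : ℝ) ≤ l := by exact_mod_cast l2.two_le
      rw [← div_eq_mul_inv, le_div_iff₀ (by positivity)]
      nlinarith [mul_le_mul_of_nonneg_right l3 (by positivity : 0 ≤ l * ((F l).card * Real.log x))]
  have cC := card_biUnion_mul_le (s := (Ioc (2 ^ (g - d)) (2 ^ (g - d + 4 * d))).filter Nat.Prime)
    (F := F) (w := fun l => 200 * x * (1 / l : ℝ)) lx fun l hl => by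
      obtain ⟨l1, l2⟩ := mem_filter.1 hl
      rw [mem_Ioc] at l1
      have := partC (x := x) (E := F l) l2 (by omega) (ht ▸ t1.trans x2) (ht ▸ l1.2.trans
        (((Nat.pow_le_pow_right two_pos (by omega : _ ≤ g * 2)).trans_eq (pow_mul _ _ _)).trans
          (Nat.pow_le_pow_left t2 2)))
        fun p hp => ⟨(hF l p hp).1, (hF l p hp).2.2.1, ((hF l p hp).2.2.2 0 (by omega)).1⟩
      have l3 : (0 : ℝ) < l := by exact_mod_cast l2.pos
      rw [mul_one_div, le_div_iff₀ l3]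
      linarith
  have cD := partD (R := R) (e := 2 ^ d) (L := 2 ^ (g - d + 4 * d))
    (E := E.filter fun p => ∃ l, 2 ^ (g - d + 4 * d) ≤ l ∧ ∀ i < R, Res p l (a i)) ha hinj
    (by omega : 1 ≤ x) (by
      rw [← pow_mul]
      refine le_trans ?_ (Nat.pow_le_pow_right two_pos R1.le)
      rw [pow_succ] at x3; rw [pow_add]; omega) Nat.one_le_two_pow fun p hp =>
      have := hE p (mem_filter.1 hp).1
      ⟨this.1, this.2.1, this.2.2.1, (mem_filter.1 hp).2⟩
  have eA : ∑ _l ∈ (Icc 1 T).filter Nat.Prime, (600 * x / T ^ 2 : ℝ) ≤ 600 / T * x := by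
    have : (((Icc 1 T).filter Nat.Prime).card : ℝ) ≤ T := by
      exact_mod_cast (card_filter_le _ _).trans (by simp)
    rw [sum_const, nsmul_eq_mul]
    exact (mul_le_mul_of_nonneg_right this (by positivity)).trans_eq (by field_simp)
  have eB : ∑ l ∈ (Ioc T (2 ^ (g - d))).filter Nat.Prime, (1200 * x * ((l : ℝ) ^ 2)⁻¹) ≤
      1200 / T * x := by
    have a1 := sum_Ioc_inv_sq_le_sub (α := ℝ) T0.ne' (Nat.le_add_right T (2 ^ (g - d)))
    have a2 : (0 : ℝ) ≤ ((T + 2 ^ (g - d) : ℕ) : ℝ)⁻¹ := by positivity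
    have a3 := (sum_le_sum_of_subset_of_nonneg (f := fun l : ℕ => ((l : ℝ) ^ 2)⁻¹)
      ((filter_subset Nat.Prime _).trans (Ioc_subset_Ioc_right (Nat.le_add_left (2 ^ (g - d)) T)))
      fun _ _ _ => by positivity).trans (a1.trans (sub_le_self _ a2))
    rw [← mul_sum]
    exact (mul_le_mul_of_nonneg_left a3 (by positivity)).trans_eq (by field_simp)
  have eC : ∑ l ∈ (Ioc (2 ^ (g - d)) (2 ^ (g - d + 4 * d))).filter Nat.Prime,
      (200 * x * (1 / l : ℝ)) ≤ 6400 / T * x := by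
    have a1 := sum_inv_primes (u := g - d) (by omega) (4 * d)
    have a2 : ((T * d : ℕ) : ℝ) ≤ (2 * (g - d) : ℕ) := Nat.cast_le.2 (by nlinarith [Nat.sub_add_cancel (by omega : d ≤ g)])
    have a3 : (0 : ℝ) < (g - d : ℕ) := Nat.cast_pos.2 (by omega)
    have a4 : (4 * (4 * d : ℕ) / (g - d : ℕ) : ℝ) ≤ 32 / T := by
      rw [div_le_div_iff₀ a3 (by positivity)]
      rw [Nat.cast_mul, Nat.cast_mul] at *
      push_cast at *; linarith
    rw [← mul_sum]
    exact (mul_le_mul_of_nonneg_left (a1.trans a4) (by positivity)).trans_eq (by ring)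
  have eD : ((E.filter fun p => ∃ l, 2 ^ (g - d + 4 * d) ≤ l ∧ ∀ i < R, Res p l (a i)).card : ℝ) *
      Real.log x ≤ 16 / T * x := by
    have a1 : ∑ i ∈ range R, Real.log (a i) ≤ 2 ^ (g + 1) * 2 ^ (d + 1) := by
      refine (sum_le_card_nsmul _ _ _ fun i hi => hG i ((mem_range.1 hi).le.trans R3)).trans ?_
      rw [card_range, nsmul_eq_mul]
      gcongr
      exact_mod_cast R3
    have a2 : (T : ℝ) ≤ 2 ^ d := by exact_mod_cast d2.trans Nat.lt_two_pow_self.le
    rw [show g - d + 4 * d = g + 2 * d + d by omega] at cD ⊢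
    push_cast at cD
    rw [div_mul_eq_mul_div, le_div_iff₀ (by positivity)]
    refine le_of_mul_le_mul_left ?_ (by positivity : (0 : ℝ) < 2 ^ (g + 2 * d))
    calc _ ≤ 2 ^ (g + 2 * d) * (_ * Real.log x * 2 ^ d) := by gcongr
      _ = 2 ^ (g + 2 * d + d) * _ * Real.log x := by ring
      _ ≤ _ := cD
      _ ≤ 4 * x * (2 ^ d * (2 ^ (g + 1) * 2 ^ (d + 1))) := by gcongr
      _ = _ := by ring
  have fin := (card_le_card cov).trans ((card_union_le _ _).trans (Nat.add_le_add_right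
    ((card_union_le _ _).trans (Nat.add_le_add_right (card_union_le _ _) _)) _))
  have fin2 := mul_le_mul_of_nonneg_right ((Nat.cast_le (α := ℝ)).2 fin) lx
  push_cast at fin2
  have : (0 : ℝ) ≤ 1 / T * x := by positivity
  have e : ∀ c : ℝ, c / T * x = c * (1 / T * x) := fun c => by ring
  rw [e] at eA eB eC eD ⊢
  linarith

end Pool.Agent.MP_48b1c3_nt

end

-- part MP_48b1c3_nt.Final
section

set_option autoImplicit false

open Finset Filter Topology

namespace Pool.Agent.MP_48b1c3_nt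

lemma dyadic (P : ℕ → Prop) [DecidablePred P] {δ : ℝ} (hδ : 0 ≤ δ) {x0 : ℕ}
    (h : ∀ x ≥ x0, ((Ioc x (2 * x)).filter P).card * Real.log x ≤ δ * x) (y : ℕ) :
    (((Ioc 0 y).filter P).card : ℝ) ≤ (2 * x0 + 512 : ℕ) + 2 * δ * y / Real.log y := by
  induction y using Nat.strong_induction_on with
  | _ y ih =>
    rcases le_or_gt y (2 * x0 + 512) with hy | hy
    · have := Real.log_natCast_nonneg y
      refine le_add_of_le_of_nonneg ?_ (by positivity)
      exact_mod_cast (card_filter_le _ _).trans (by simpa using hy)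
    obtain ⟨x, x1, x2⟩ : ∃ x, y ≤ 2 * x ∧ 2 * x ≤ y + 1 := ⟨(y + 1) / 2, by omega, by omega⟩
    have h1 := ih x (by omega)
    have h2 := h x (by omega)
    have h3 : ((Ioc 0 y).filter P).card ≤ ((Ioc 0 x).filter P).card +
        ((Ioc x (2 * x)).filter P).card := by
      rw [← card_union_of_disjoint (disjoint_filter_filter (Ioc_disjoint_Ioc_of_le le_rfl)),
        ← filter_union, Ioc_union_Ioc_eq_Ioc (Nat.zero_le _) (by omega)]
      exact card_le_card (filter_subset_filter _ (Ioc_subset_Ioc_right x1))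
    have lg := Real.log_two_gt_d9
    have a1 : 8 * Real.log 2 ≤ Real.log x := by
      have := Real.log_le_log (by norm_num : (0 : ℝ) < 2 ^ 8)
        (by exact_mod_cast (by omega) : (2 : ℝ) ^ 8 ≤ x)
      rwa [Real.log_pow] at this
    have a2 : Real.log y ≤ Real.log 2 + Real.log x := by
      rw [← Real.log_mul two_ne_zero (Nat.cast_ne_zero.2 (by omega))]
      exact Real.log_le_log (Nat.cast_pos.2 (by omega)) (by exact_mod_cast x1)
    have a3 : 0 < Real.log y := Real.log_pos (by exact_mod_cast (by omega))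
    have a4 : 0 < Real.log x := by linarith
    have a5 : (27 : ℝ) * x ≤ 16 * y := by exact_mod_cast (by omega)
    have a6 : 3 * δ * x / Real.log x ≤ 2 * δ * y / Real.log y := by
      rw [div_le_div_iff₀ a4 a3]
      calc 3 * δ * x * Real.log y ≤ 3 * δ * x * (9 / 8 * Real.log x) := by gcongr; linarith
        _ = δ * Real.log x / 8 * (27 * x) := by ring
        _ ≤ δ * Real.log x / 8 * (16 * y) := by gcongr
        _ = _ := by ring
    rw [← le_div_iff₀ a4] at h2
    have a7 : 3 * δ * x / Real.log x = 2 * δ * x / Real.log x + δ * x / Real.log x := by ring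
    have h4 := (Nat.cast_le (α := ℝ)).2 h3
    rw [Nat.cast_add] at h4
    linarith

lemma density_zero (P : ℕ → Prop) [DecidablePred P] (h : ∀ δ : ℝ, 0 < δ → ∀ᶠ x : ℕ in atTop,
    ((Ioc x (2 * x)).filter P).card * Real.log x ≤ δ * x) :
    Tendsto (fun y : ℕ => (((Ioc 0 y).filter P).card : ℝ) / Nat.primeCounting y) atTop (𝓝 0) := by
  have hl : ∀ c : ℝ, 0 < c → ∀ᶠ y : ℕ in atTop, Real.log y ≤ c * y := fun c hc => by
    filter_upwards [tendsto_natCast_atTop_atTop.eventually (Real.isLittleO_log_id_atTop.def hc)]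
      with y hy
    exact (le_abs_self _).trans (by simpa using hy)
  refine tendsto_order.2 ⟨fun c hc => Eventually.of_forall fun y => hc.trans_le (by positivity),
    fun ε hε => ?_⟩
  obtain ⟨x0, h0⟩ := eventually_atTop.1 (h (ε / 8) (by positivity))
  have h1 := dyadic P (by positivity) h0
  generalize 2 * x0 + 512 = C at h1
  filter_upwards [hl (1 / 12) (by norm_num), hl (ε / (8 * (C + 1))) (by positivity),
    eventually_ge_atTop 2] with y y1 y2 y3
  have yR : (2 : ℝ) ≤ y := by exact_mod_cast y3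
  have a3 : 0 < Real.log y := Real.log_pos (by linarith)
  have a1 : Real.log (y + 1) ≤ 2 * Real.log y := by
    rw [two_mul, ← Real.log_mul (by positivity) (by positivity)]
    exact Real.log_le_log (by positivity) (by nlinarith)
  have a2 : y / 2 / Real.log y ≤ Nat.primeCounting y :=
    le_trans (by gcongr; nlinarith [Real.log_two_gt_d9]) (Chebyshev.pi_ge y)
  have a4 : (0 : ℝ) < Nat.primeCounting y := lt_of_lt_of_le (by positivity) a2
  rw [div_lt_iff₀ a4]
  refine (h1 y).trans_lt (lt_of_lt_of_le ?_ (mul_le_mul_of_nonneg_left a2 hε.le))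
  rw [div_mul_eq_mul_div, le_div_iff₀ (by positivity)] at y2
  rw [add_div' _ _ _ a3.ne', ← mul_div_assoc ε, div_lt_div_iff_of_pos_right a3]
  nlinarith [mul_pos hε (by linarith : (0 : ℝ) < y)]

theorem main {a : ℕ → ℕ} (ha : ∀ i, (a i).Prime) (hinj : Function.Injective a)
    (hg : ∀ η : ℝ, 0 < η → ∀ᶠ i : ℕ in atTop, Real.log (a i) ≤ (i : ℝ) ^ η) {r : ℕ → ℕ}
    (hr : Tendsto (fun q : ℕ => (r q : ℝ) * Real.log (Real.log q) / Real.log q) atTop atTop) :
    Tendsto (fun x : ℕ => (Nat.card {q : ℕ // q ≤ x ∧ q.Prime ∧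
        Subgroup.closure {u : (ZMod q)ˣ | ∃ i < r q, (u : ZMod q) = a i} = ⊤} : ℝ) /
      (Nat.card {q : ℕ // q ≤ x ∧ q.Prime} : ℝ)) atTop (𝓝 1) := by
  classical
  have h := density_zero (fun q => q.Prime ∧
    Subgroup.closure {u : (ZMod q)ˣ | ∃ i < r q, (u : ZMod q) = a i} ≠ ⊤) fun δ hδ => by
      obtain ⟨T, hT⟩ := exists_nat_ge (9000 / δ)
      filter_upwards [block ha hinj hg hr (T := T + 3 + a 0) (by omega) (by omega)] with x hx
      refine (hx _ fun p hp => ?_).trans ?_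
      · rw [mem_filter, mem_Ioc] at hp
        exact ⟨hp.2.1, hp.1.1, hp.1.2, hp.2.2⟩
      · gcongr
        rw [div_le_iff₀ hδ] at hT
        rw [div_le_iff₀ (by positivity)]
        push_cast
        nlinarith [mul_nonneg hδ.le (Nat.cast_nonneg (a 0))]
  have h2 := h.const_sub 1
  rw [sub_zero] at h2
  refine h2.congr' ?_
  filter_upwards [eventually_ge_atTop 2] with x hx
  have h3 : (Nat.primeCounting x : ℝ) ≠ 0 :=
    Nat.cast_ne_zero.2 fun h => by have := Nat.primeCounting_eq_zero_iff.1 h; omega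
  rw [Nat.subtype_card (Nat.primesLE x) fun q => Nat.mem_primesLE,
    Nat.subtype_card ((Nat.primesLE x).filter fun q =>
      Subgroup.closure {u : (ZMod q)ˣ | ∃ i < r q, (u : ZMod q) = a i} = ⊤) fun q => by
        rw [mem_filter, Nat.mem_primesLE, and_assoc],
    ← filter_filter, ← Nat.primesLE_eq_filter_Ioc_zero, Nat.primesLE_card_eq_primeCounting,
    one_sub_div h3, ← Nat.primesLE_card_eq_primeCounting]
  congr 1
  rw [sub_eq_iff_eq_add]
  exact_mod_cast (card_filter_add_card_filter_not _).symm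

/-- The sequence of all primes satisfies the growth hypothesis of `main`. -/
lemma nth_prime_growth (η : ℝ) (hη : 0 < η) :
    ∀ᶠ i : ℕ in atTop, Real.log (Nat.nth Nat.Prime i) ≤ (i : ℝ) ^ η := by
  have h1 := tendsto_natCast_atTop_atTop.eventually
    ((isLittleO_log_rpow_atTop hη).def (by norm_num : (0 : ℝ) < 1 / 3))
  have h2 := tendsto_natCast_atTop_atTop.eventually
    (Real.isLittleO_log_id_atTop.def (by norm_num : (0 : ℝ) < 1 / 100))
  filter_upwards [h1, h2, eventually_ge_atTop 10] with i a1 a2 hi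
  have iR : (10 : ℝ) ≤ i := by exact_mod_cast hi
  have l0 : 0 < Real.log i := Real.log_pos (by linarith)
  simp only [Real.norm_eq_abs, id, abs_of_pos l0, Nat.abs_cast,
    abs_of_nonneg (Real.rpow_nonneg (Nat.cast_nonneg i) η)] at a1 a2
  have h3 : Nat.nth Nat.Prime i < i ^ 3 + 1 := by
    refine Nat.nth_lt_of_lt_count ?_
    have b1 := Chebyshev.pi_ge (i ^ 3)
    have b2 : Real.log ((i : ℝ) ^ 3 + 1) ≤ 4 * Real.log i := by
      have := Real.log_le_log (by positivity) (by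
        nlinarith [pow_le_pow_left₀ (by norm_num) iR 3] : (i : ℝ) ^ 3 + 1 ≤ i ^ 4)
      rwa [Real.log_pow] at this
    push_cast at b1
    rw [Real.log_pow, div_le_iff₀ (by positivity)] at b1
    have b3 : (i : ℝ) < Nat.primeCounting (i ^ 3) := by
      by_contra hh
      push Not at hh
      push_cast at b1
      have c1 : (i : ℝ) ^ 3 * (1 / 2) ≤ i ^ 3 * Real.log 2 := by
        gcongr; linarith [Real.log_two_gt_d9]
      have c2 : 10 * (i : ℝ) ^ 2 ≤ i ^ 3 := by nlinarith [mul_le_mul_of_nonneg_right iR (sq_nonneg (i : ℝ))]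
      nlinarith [mul_le_mul_of_nonneg_right hh l0.le,
        mul_le_mul_of_nonneg_left a2 (by positivity : (0 : ℝ) ≤ i)]
    exact_mod_cast b3
  have h4 := Real.log_le_log (Nat.cast_pos.2 (Nat.prime_nth_prime i).pos)
    (by exact_mod_cast Nat.lt_succ_iff.1 h3 : (Nat.nth Nat.Prime i : ℝ) ≤ i ^ 3)
  rw [Real.log_pow] at h4
  push_cast at h4
  linarith

/-- The Brown-Zassenhaus conjecture as stated: the first `⌊log q⌋` primes generate the group of
units modulo `q` for almost all primes `q`. -/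
theorem brown_zassenhaus : Tendsto (fun x : ℕ => (Nat.card {q : ℕ // q ≤ x ∧ q.Prime ∧
      Subgroup.closure {u : (ZMod q)ˣ | ∃ i < ⌊Real.log q⌋₊,
        (u : ZMod q) = Nat.nth Nat.Prime i} = ⊤} : ℝ) /
      (Nat.card {q : ℕ // q ≤ x ∧ q.Prime} : ℝ)) atTop (𝓝 1) := by
  refine main Nat.prime_nth_prime (Nat.nth_injective Nat.infinite_setOfPred_prime)
    nth_prime_growth ?_
  have h1 := Real.tendsto_log_atTop.comp tendsto_natCast_atTop_atTop
  refine tendsto_atTop_mono' _ ?_ ((Real.tendsto_log_atTop.comp h1).atTop_div_const two_pos)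
  filter_upwards [h1.eventually_ge_atTop 2] with q hq
  simp only [Function.comp] at hq ⊢
  have := Nat.lt_floor_add_one (Real.log q)
  have := Real.log_nonneg (by linarith : 1 ≤ Real.log q)
  rw [div_le_div_iff₀ two_pos (by linarith)]
  nlinarith

end Pool.Agent.MP_48b1c3_nt

end
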