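import Pool.Agent.MP_48b1c3_nt.Mg.H54_Main

-- part MP_48b1c3_nt.H53.Sift
section

/-! Primes `p` such that `p - 1` has exactly `K` prime factors of moderate size. -/

namespace Pool.Agent.MP_48b1c3_nt.H53

open Finset Filter Pool.Agent.MP_48b1c3_nt.H54

open Classical in
theorem sifted_unif (B : ℕ) : ∃ κ : ℝ, 0 < κ ∧ ∀ᶠ x : ℝ in atTop, ∀ M c : ℕ, 0 < M → 2 ∣ M →
    c.Coprime M → (M : ℝ) ≤ Real.log x ^ B → κ / M * (x / Real.log x ^ 2) ≤
      #((PI (x / Real.exp 4) x).filter fun p => p ≡ c [MOD M] ∧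
        ∀ q : ℕ, q.Prime → q ∣ p - 1 → q ∣ M ∨ x ^ (1 / 4000 : ℝ) < q) := by
  obtain ⟨c₀, hc₀, hV⟩ := sifted_large
  obtain ⟨C₁, hC₁, hm⟩ := mertens1
  obtain ⟨C, hBV⟩ := bombieri_vinogradov 64 (B + 2)
  refine ⟨25 * c₀ / 3, by positivity, ?_⟩
  set κ := 25 * c₀ / 3 with hκ
  have hκ0 : 0 < κ := by positivity
  have hl := (Real.isLittleO_log_id_atTop.comp_tendsto Real.tendsto_log_atTop).bound
    (c := 1 / (125 * (B + 1))) (by positivity)
  filter_upwards [hBV, wt_sum_lower, eventually_gt_atTop 1, hl,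
    Real.tendsto_log_atTop.eventually_ge_atTop 1,
    (tendsto_rpow_atTop (y := 1 / 4000) (by norm_num)).eventually_ge_atTop 3,
    Real.tendsto_log_atTop.eventually_ge_atTop (8000 * C₁),
    Real.tendsto_log_atTop.eventually_ge_atTop (C / κ)] with x hBV hw hx e0 hL1 hzy e2 e3 M c hM h2
      hc hMB
  have hx0 : 0 < x := by linarith
  have hφ : (0 : ℝ) < M.totient := by exact_mod_cast Nat.totient_pos.2 hM
  have hM0 : (0 : ℝ) < M := by exact_mod_cast hM
  have hφM : (M.totient : ℝ) ≤ M := by exact_mod_cast Nat.totient_le M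
  simp only [Function.comp, id] at e0
  set L := Real.log x with hL
  have hL0 : 0 < L := Real.log_pos hx
  have e1 : 125 * Real.log M ≤ L := by
    have h3 := Real.log_le_log hM0 hMB
    rw [Real.log_pow] at h3
    rw [Real.norm_of_nonneg (Real.log_nonneg hL1), Real.norm_of_nonneg hL0.le, one_div_mul_eq_div,
      le_div_iff₀ (by positivity)] at e0
    nlinarith [Real.log_nonneg hL1]
  set y := x ^ (1 / 4000 : ℝ) with hy
  have hly : Real.log y = 1 / 4000 * L := Real.log_rpow hx0 _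
  have hlz1 : 1 ≤ Real.log 3 := by
    rw [Real.le_log_iff_exp_le (by linarith)]
    linarith [Real.exp_one_lt_d9]
  set P := (PI 0 y).filter fun q => ¬ q ∣ M with hP
  have hPm : ∀ q ∈ P, q.Prime ∧ ¬ q ∣ M ∧ (3 : ℝ) ≤ q ∧ (q : ℝ) ≤ y := fun q hq => by
    obtain ⟨h3, h4⟩ := mem_filter.1 hq
    obtain ⟨-, h5, h6⟩ := mem_PI.1 h3
    have h7 : q ≠ 2 := fun h => h4 (h ▸ h2)
    have h8 : 3 ≤ q := by have := h6.two_le; omega
    exact ⟨h6, h4, by exact_mod_cast h8, h5⟩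
  have hg : ∀ q : ℕ, (3 : ℝ) ≤ q → 0 ≤ 1 / ((q : ℝ) - 1) ∧ 1 / ((q : ℝ) - 1) ≤ 1 / 2 := fun q hq =>
    ⟨one_div_nonneg.2 (by linarith), one_div_le_one_div_of_le (by norm_num) (by linarith)⟩
  have hS := (sieve P (fun q => 1 / ((q : ℝ) - 1)) (fun q => Real.log q / (7 / 500 * L))
    ((Icc 1 ⌊x⌋₊).filter fun n => n ≡ c [MOD M]) (wt x) (fun q n => q ∣ n - 1)
    ((∑ n ∈ Icc 1 ⌊x⌋₊, wt x n) / M.totient) (fun n _ => wt_nonneg x n)
    (div_nonneg (by linarith) hφ.le) (fun q hq => hg q (hPm q hq).2.2.1)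
    (fun q hq => ⟨div_nonneg (Real.log_natCast_nonneg q) (by positivity), by
      obtain ⟨-, -, h3, h4⟩ := hPm q hq
      rw [div_le_iff₀ (by positivity)]
      linarith [Real.log_le_log (by linarith) h4]⟩) (by
      refine le_trans (b := ∑ q ∈ PI 0 y, Real.log q / q * (2 / (7 / 500 * L)))
        (le_trans (sum_le_sum fun q hq => ?_) (sum_le_sum_of_subset_of_nonneg (filter_subset _ _)
          fun q _ _ => mul_nonneg (div_nonneg (Real.log_natCast_nonneg q) q.cast_nonneg)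
            (by positivity))) ?_
      · obtain ⟨-, -, h3, -⟩ := hPm q hq
        have h4 : 1 / ((q : ℝ) - 1) ≤ 2 / q := by
          rw [div_le_div_iff₀ (by linarith) (by linarith)]; linarith
        refine (mul_le_mul_of_nonneg_right h4
          (div_nonneg (Real.log_natCast_nonneg q) (by positivity))).trans (le_of_eq (by ring))
      · rw [← sum_mul, ← mul_div_assoc, div_le_iff₀ (by positivity)]
        linarith [hm y (by linarith)]) (C * x / L ^ (B + 2)) (by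
      convert sifted_rem hM hc x _ _ _ (fun S hS => ?_) hBV
      obtain ⟨h3, h4⟩ := mem_filter.1 hS
      have h5 := fun q hq => hPm q (mem_powerset.1 h3 hq)
      refine ⟨fun q hq => ⟨(h5 q hq).1, (h5 q hq).2.1⟩, ?_⟩
      have h6 : ∀ q ∈ S, (q : ℝ) ≠ 0 := fun q hq => by linarith [(h5 q hq).2.2.1]
      have h7 : (M : ℝ) ≠ 0 := by exact_mod_cast hM.ne'
      rw [← sum_div, div_le_iff₀ (by positivity)] at h4
      push_cast
      rw [Real.rpow_def_of_pos hx0, ← Real.log_le_iff_le_exp (by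
        exact mul_pos (by exact_mod_cast hM) (prod_pos fun q hq => by linarith [(h5 q hq).2.2.1])),
        Real.log_mul h7 (prod_ne_zero_iff.2 h6), Real.log_prod h6]
      linarith)).1
  have hV' : 1 / (3 : ℕ) * (c₀ * (Real.log 3 / (1 / 4000 * L))) ≤
      ∏ q ∈ P, (1 - 1 / ((q : ℝ) - 1)) := by
    have h3 : ∀ q ∈ Ioc 2 3 ∪ PI 3 y, (3 : ℝ) ≤ q := fun q hq => by
      rcases mem_union.1 hq with h | h
      · exact_mod_cast (mem_Ioc.1 h).1
      · linarith [(mem_PI.1 h).1]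
    refine le_trans ?_ (prod_le_prod_of_subset_of_le_one (t := Ioc 2 3 ∪ PI 3 y)
      (fun q hq => ?_) (fun q hq => by linarith [(hg q (h3 q hq)).2])
      fun q hq _ => by linarith [(hg q (h3 q hq)).1])
    · rw [prod_union (disjoint_left.2 fun q h4 h5 => by
        have h6 : (q : ℝ) ≤ 3 := by exact_mod_cast (mem_Ioc.1 h4).2
        linarith [(mem_PI.1 h5).1]), ← hly]
      exact mul_le_mul (sifted_small 3 (by norm_num)) (hV 3 y le_rfl hzy) (by rw [hly]; positivity)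
        (le_trans (by positivity) (sifted_small 3 (by norm_num)))
    · obtain ⟨h4, -, h5, h6⟩ := hPm q hq
      rcases h5.eq_or_lt with h | h
      · have h7 : q = 3 := by exact_mod_cast h.symm
        exact mem_union_left _ (mem_Ioc.2 (by omega))
      · exact mem_union_right _ (mem_PI.2 ⟨h, h6, h4⟩)
  have h3 := mul_le_mul (div_le_div_of_nonneg_right hw hφ.le) hV' (by positivity)
    (div_nonneg (by linarith) hφ.le)
  have h4 : 16 * (κ / M * (x / L ^ 2) * L) ≤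
      x / 10 / M.totient * (1 / (3 : ℕ) * (c₀ * (Real.log 3 / (1 / 4000 * L)))) := by
    calc _ = x / 10 / M * (1 / (3 : ℕ) * (c₀ * (1 / (1 / 4000 * L)))) := by
          rw [hκ]; push_cast; field_simp; ring
      _ ≤ _ := by gcongr
  have h5 : C * x / L ^ (B + 2) ≤ κ / M * (x / L ^ 2) * L := by
    rw [div_le_iff₀ hκ0] at e3
    calc C * x / L ^ (B + 2) ≤ L * κ * x / L ^ (B + 2) := by gcongr
      _ = κ / L ^ B * (x / L ^ 2) * L := by field_simp; ring
      _ ≤ _ := by gcongr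
  refine le_of_mul_le_mul_right (le_trans (by linarith) (hS.trans ?_)) hL0
  rw [← sum_filter_ne_zero, ← nsmul_eq_mul]
  refine (sum_le_card_nsmul _ _ L fun n hn => ?_).trans
    (nsmul_le_nsmul_left hL0.le (card_le_card fun n hn => ?_))
  · obtain ⟨-, h6, h7⟩ := mem_PI.1 (mem_PI_of_wt hx0 (mem_filter.1 hn).2)
    exact (wt_le x n).trans (Real.log_le_log (by exact_mod_cast h7.pos) h6)
  · simp only [mem_filter] at hn ⊢
    obtain ⟨⟨⟨-, h6⟩, h7⟩, h8⟩ := hn
    refine ⟨mem_PI_of_wt hx0 h8, h6, fun q hq hd => ?_⟩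
    by_contra h9
    simp only [not_or, not_lt] at h9
    exact h7 q (mem_filter.2 ⟨mem_PI.2 ⟨by exact_mod_cast hq.pos, h9.2, hq⟩, h9.1⟩) hd

theorem pow_succ_sub_le {a b : ℝ} (ha : 0 ≤ a) (hab : a ≤ b) (n : ℕ) :
    b ^ (n + 1) ≤ a ^ (n + 1) + (n + 1) * (b - a) * b ^ n := by
  induction n with
  | zero => simp
  | succ n ih =>
    have hb : 0 ≤ b := ha.trans hab
    have h1 : a ^ (n + 1) ≤ b ^ (n + 1) := pow_le_pow_left₀ ha hab _
    have h2 := mul_le_mul_of_nonneg_left ih hb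
    have h3 := mul_le_mul_of_nonneg_left h1 (sub_nonneg.2 hab)
    push_cast
    rw [pow_succ' b (n + 1), pow_succ' a (n + 1)]
    rw [pow_succ' b n] at h2 h3 ⊢
    nlinarith

theorem esymm_lower {ι : Type} [DecidableEq ι] (w : ι → ℝ) (P : Finset ι)
    (hw : ∀ i ∈ P, 0 ≤ w i ∧ w i ≤ 1) (K : ℕ) :
    max 0 (∑ i ∈ P, w i - K) ^ K ≤ K.factorial * ∑ S ∈ P.powersetCard K, ∏ i ∈ S, w i := by
  induction P using Finset.induction_on generalizing K with
  | empty =>
    cases K with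
    | zero => simp
    | succ K =>
      rw [sum_empty, max_eq_left (by rw [zero_sub, neg_nonpos]; positivity), zero_pow (by omega),
        powersetCard_eq_empty.2 (by simp), sum_empty, mul_zero]
  | insert j P hj ih =>
    cases K with
    | zero => simp
    | succ K =>
      have hw' : ∀ i ∈ P, 0 ≤ w i ∧ w i ≤ 1 := fun i hi => hw i (mem_insert_of_mem hi)
      obtain ⟨j0, j1⟩ := hw j (mem_insert_self _ _)
      have hn : ∀ S ∈ P.powersetCard K, j ∉ S := fun S hS h => hj ((mem_powersetCard.1 hS).1 h)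
      rw [powersetCard_succ_insert hj, sum_union (disjoint_left.2 fun S h1 h2 => by
        obtain ⟨T, -, rfl⟩ := mem_image.1 h2
        exact hj ((mem_powersetCard.1 h1).1 (mem_insert_self _ _))),
        sum_image fun S hS T hT h => by
          rw [← erase_insert (hn S hS), h, erase_insert (hn T hT)],
        sum_congr rfl fun S hS => prod_insert (hn S hS), ← mul_sum, sum_insert hj, mul_add]
      have h1 := ih hw' (K + 1)
      have h2 := ih hw' K
      set s := ∑ i ∈ P, w i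
      have h3 := pow_succ_sub_le (a := max 0 (s - (K + 1 : ℕ))) (b := max 0 (w j + s - (K + 1 : ℕ)))
        (le_max_left _ _) (max_le_max_left _ (by linarith)) K
      have h4 : max 0 (w j + s - (K + 1 : ℕ)) - max 0 (s - (K + 1 : ℕ)) ≤ w j := by
        rw [sub_le_iff_le_add]
        exact max_le (add_nonneg j0 (le_max_left _ _)) (by linarith [le_max_right 0 (s - (K + 1 : ℕ))])
      have h5 : max 0 (w j + s - (K + 1 : ℕ)) ^ K ≤ max 0 (s - K) ^ K :=
        pow_le_pow_left₀ (le_max_left _ _) (max_le_max_left _ (by push_cast; linarith)) K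
      refine h3.trans (add_le_add h1 ?_)
      calc _ ≤ (K + 1) * w j * (K.factorial * ∑ S ∈ P.powersetCard K, ∏ i ∈ S, w i) :=
            mul_le_mul (mul_le_mul_of_nonneg_left h4 (by positivity)) (h5.trans h2)
              (by positivity) (by positivity)
        _ = _ := by rw [Nat.factorial_succ]; push_cast; ring

open Classical in
theorem sifted_K (M c K : ℕ) (hM : 0 < M) (h2 : 2 ∣ M) (hc : c.Coprime M) :
    ∃ κ : ℝ, 0 < κ ∧ ∀ᶠ x : ℝ in atTop, ∀ Y z : ℝ, M ≤ Y → z ≤ Real.log x →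
      κ * (max 0 (∑ q ∈ PI Y z, (1 : ℝ) / q - K) ^ K * (x / Real.log x ^ 2)) ≤
        #((PI (x / Real.exp 4) x).filter fun p => p ≡ c [MOD M] ∧
          #((PI Y z).filter (· ∣ p - 1)) = K ∧ ∀ q : ℕ, q.Prime → q ∣ p - 1 →
            q ∣ M ∨ q ∈ PI Y z ∨ x ^ (1 / 4000 : ℝ) < q) := by
  obtain ⟨κ, hκ, h⟩ := sifted_unif (K + 1)
  have hM0 : (0 : ℝ) < M := by exact_mod_cast hM
  refine ⟨κ / M / K.factorial, by positivity, ?_⟩
  filter_upwards [h, Real.tendsto_log_atTop.eventually_ge_atTop M, eventually_gt_atTop 1,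
    (isLittleO_log_rpow_atTop (r := 1 / 4000) (by norm_num)).bound one_pos] with x h hML hx hL
      Y z hY hz
  have hL0 := Real.log_pos hx
  rw [Real.norm_of_nonneg hL0.le, Real.norm_of_nonneg (by positivity), one_mul] at hL
  have hP : ∀ q ∈ PI Y z, q.Prime ∧ ¬ q ∣ M ∧ (q : ℝ) ≤ Real.log x := fun q hq => by
    obtain ⟨q1, q2, q3⟩ := mem_PI.1 hq
    refine ⟨q3, fun h' => ?_, q2.trans hz⟩
    have : (q : ℝ) ≤ M := by exact_mod_cast Nat.le_of_dvd hM h'
    linarith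
  have h1 := esymm_lower (fun q : ℕ => (1 : ℝ) / q) (PI Y z) (fun q hq => ⟨by positivity, by
    rw [div_le_one (by exact_mod_cast (hP q hq).1.pos)]
    exact_mod_cast (hP q hq).1.one_le⟩) K
  rw [card_eq_sum_card_fiberwise (f := fun p => (PI Y z).filter (· ∣ p - 1))
    (t := (PI Y z).powersetCard K) fun p hp =>
      mem_coe.2 (mem_powersetCard.2 ⟨filter_subset _ _, (mem_filter.1 (mem_coe.1 hp)).2.2.1⟩),
    Nat.cast_sum]
  calc _ ≤ κ / M / K.factorial * ((K.factorial * ∑ S ∈ (PI Y z).powersetCard K,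
        ∏ q ∈ S, (1 : ℝ) / q) * (x / Real.log x ^ 2)) := by gcongr
    _ = ∑ S ∈ (PI Y z).powersetCard K, κ / M * (x / Real.log x ^ 2) * ∏ q ∈ S, (1 : ℝ) / q := by
        rw [← mul_sum]; field_simp
    _ ≤ _ := sum_le_sum fun S hS => ?_
  obtain ⟨S1, S2⟩ := mem_powersetCard.1 hS
  have hco : M.Coprime (∏ q ∈ S, q) := Nat.Coprime.prod_right fun q hq =>
    ((Nat.Prime.coprime_iff_not_dvd (hP q (S1 hq)).1).2 (hP q (S1 hq)).2.1).symm
  obtain ⟨c', c1, c2⟩ := Nat.chineseRemainder hco c 1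
  have h3 := h (M * ∏ q ∈ S, q) c' (Nat.mul_pos hM (prod_pos fun q hq => (hP q (S1 hq)).1.pos))
    (h2.mul_right _) (Nat.Coprime.mul_right (by rwa [Nat.Coprime, c1.gcd_eq])
      (by rw [Nat.Coprime, c2.gcd_eq, Nat.gcd_one_left])) (by
        push_cast
        rw [pow_succ', ← S2, ← prod_const]
        exact mul_le_mul hML (prod_le_prod (fun q _ => by positivity) fun q hq =>
          (hP q (S1 hq)).2.2) (prod_nonneg fun q _ => by positivity) hL0.le)
  refine le_trans (le_of_eq ?_) (h3.trans (Nat.cast_le.2 (card_le_card fun p hp => ?_)))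
  · push_cast
    rw [prod_div_distrib, prod_const_one]
    ring
  · obtain ⟨p1, p2, p3⟩ := mem_filter.1 hp
    have p4 := (p2.of_mul_left M).trans c2
    have p5 : ∀ q : ℕ, q.Prime → q ∣ p - 1 → q ∣ M ∨ q ∈ S ∨ x ^ (1 / 4000 : ℝ) < q := by
      intro q hq hd
      rcases p3 q hq hd with h' | h'
      · rcases (Nat.Prime.dvd_mul hq).1 h' with h' | h'
        · exact Or.inl h'
        · obtain ⟨q', q1, q2⟩ := (Prime.dvd_finsetProd_iff hq.prime _).1 h'
          exact Or.inr (Or.inl (((Nat.prime_dvd_prime_iff_eq hq (hP q' (S1 q1)).1).1 q2) ▸ q1))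
      · exact Or.inr (Or.inr h')
    have p6 : (PI Y z).filter (· ∣ p - 1) = S := by
      ext q
      rw [mem_filter]
      refine ⟨fun ⟨q1, q2⟩ => ?_, fun hq => ⟨S1 hq, (dvd_prod_of_mem _ hq).trans
        ((Nat.modEq_iff_dvd' (mem_PI.1 p1).2.2.one_le).1 p4.symm)⟩⟩
      rcases p5 q (hP q q1).1 q2 with h' | h' | h'
      · exact absurd h' (hP q q1).2.1
      · exact h'
      · linarith [(hP q q1).2.2]
    refine mem_filter.2 ⟨mem_filter.2 ⟨p1, (p2.of_mul_right _).trans c1, by rw [p6, S2],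
      fun q hq hd => (p5 q hq hd).imp_right (Or.imp_left fun h' => S1 h')⟩, p6⟩

end Pool.Agent.MP_48b1c3_nt.H53

end

-- part MP_48b1c3_nt.H53.Cls
section

/-! A residue class in which half of the given non-squares are quadratic non-residues. -/

namespace Pool.Agent.MP_48b1c3_nt.H53

open Finset Pool.Agent.MP_48b1c3_nt.H54

theorem jac_congr {d : ℤ} {M n n' : ℕ} (hd : 4 * d.natAbs ∣ M) (hn : n.Coprime M)
    (h : n' ≡ n [MOD M]) : jacobiSym d n' = jacobiSym d n := by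
  have h2 : 2 ∣ M := Dvd.dvd.trans ⟨2 * d.natAbs, by ring⟩ hd
  have h3 : Odd n := Nat.coprime_two_right.1 (hn.coprime_dvd_right h2)
  have h4 : Odd n' := by
    have : n' % 2 = n % 2 := h.of_dvd h2
    rw [Nat.odd_iff, this, ← Nat.odd_iff]
    exact h3
  rw [jacobiSym.mod_right d h3, jacobiSym.mod_right d h4, show n' % _ = _ from h.of_dvd hd]

theorem jac_gcd {d : ℤ} {M n : ℕ} (hd : 4 * d.natAbs ∣ M) (hn : n.Coprime M) : d.gcd n = 1 :=
  (hn.coprime_dvd_right ((Dvd.intro_left 4 rfl).trans hd)).symm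

theorem exists_neg {d : ℤ} (hd : ¬ IsSquare d) {M : ℕ} (hM : 0 < M) (hdM : 4 * d.natAbs ∣ M) :
    ∃ p : ℕ, p.Coprime M ∧ p % 3 = 2 ∧ jacobiSym d p = -1 := by
  obtain ⟨M', c, h1, -, h3, h4⟩ := exists_class hd
  obtain ⟨p, p1, p2, p3, p4⟩ : ∃ p, M + 3 < p ∧ p.Prime ∧ p ≡ c [MOD M'] ∧
      (3 ∣ M' ∨ p % 3 = 2) := by
    by_cases h : 3 ∣ M'
    · obtain ⟨p, p1, p2, p3⟩ := Nat.forall_exists_prime_gt_and_modEq (M + 3) h1.ne' h3
      exact ⟨p, p1, p2, p3, Or.inl h⟩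
    · have h5 : M'.Coprime 3 := ((Nat.Prime.coprime_iff_not_dvd Nat.prime_three).2 h).symm
      obtain ⟨c', c1, c2⟩ := Nat.chineseRemainder h5 c 2
      obtain ⟨p, p1, p2, p3⟩ := Nat.forall_exists_prime_gt_and_modEq (M + 3) (q := M' * 3)
        (a := c') (by positivity) (Nat.Coprime.mul_right (by rwa [Nat.Coprime, c1.gcd_eq])
          (by rw [Nat.Coprime, c2.gcd_eq]; norm_num))
      exact ⟨p, p1, p2, (p3.of_mul_right 3).trans c1, Or.inr ((p3.of_mul_left M').trans c2)⟩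
  have := Fact.mk p2
  have h5 : p.Coprime M := (Nat.Prime.coprime_iff_not_dvd p2).2 fun h => by
    have := Nat.le_of_dvd hM h
    omega
  obtain ⟨h6, h7⟩ := h4 p p2 p3 fun h => (Nat.Prime.coprime_iff_not_dvd p2).1 h5
    (((Int.natCast_dvd.1 h).mul_left 4).trans hdM)
  refine ⟨p, h5, p4.elim (fun h => ?_) id, ZMod.nonsquare_iff_jacobiSym_eq_neg_one.2 h7⟩
  have h8 := h6 3 Nat.prime_three (by norm_num) h
  have h9 : ¬ 3 ∣ p := fun h' => by
    have := (Nat.prime_dvd_prime_iff_eq Nat.prime_three p2).1 h'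
    omega
  omega

theorem exists_shift {M n : ℕ} (h3 : n % 3 = 2) (hM : 0 < M) :
    ∃ u : ℕ, u.Coprime M ∧ ∀ q : ℕ, q.Prime → q ≠ 2 → q ∣ M → ¬ n * u ^ 2 ≡ 1 [MOD q] := by
  set A := M.primeFactors.filter fun q => ¬ (5 ≤ q ∧ n ≡ 1 [MOD q])
  set B := M.primeFactors.filter fun q => 5 ≤ q ∧ n ≡ 1 [MOD q]
  have hco : (∏ q ∈ A, q).Coprime (∏ q ∈ B, q) :=
    Nat.Coprime.prod_left fun q hq => Nat.Coprime.prod_right fun q' hq' =>
      (Nat.coprime_primes (Nat.prime_of_mem_primeFactors (mem_filter.1 hq).1)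
        (Nat.prime_of_mem_primeFactors (mem_filter.1 hq').1)).2 fun h =>
          (mem_filter.1 hq).2 (h ▸ (mem_filter.1 hq').2)
  obtain ⟨u, u1, u2⟩ := Nat.chineseRemainder hco 1 2
  have key : ∀ q : ℕ, q.Prime → q ∣ M → (¬ (5 ≤ q ∧ n ≡ 1 [MOD q]) ∧ u ≡ 1 [MOD q]) ∨
      ((5 ≤ q ∧ n ≡ 1 [MOD q]) ∧ u ≡ 2 [MOD q]) := fun q hq hd => by
    have h1 := Nat.mem_primeFactors.2 ⟨hq, hd, hM.ne'⟩
    by_cases h : 5 ≤ q ∧ n ≡ 1 [MOD q]
    · exact Or.inr ⟨h, u2.of_dvd (dvd_prod_of_mem _ (mem_filter.2 ⟨h1, h⟩))⟩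
    · exact Or.inl ⟨h, u1.of_dvd (dvd_prod_of_mem _ (mem_filter.2 ⟨h1, h⟩))⟩
  refine ⟨u, Nat.coprime_of_dvd fun q hq h1 h2 => ?_, fun q hq h2 hd h => ?_⟩
  · rcases key q hq h2 with ⟨-, h⟩ | ⟨⟨h5, -⟩, h⟩
    · exact hq.one_lt.ne' (Nat.dvd_one.1 ((h.dvd_iff dvd_rfl).1 h1))
    · have := Nat.le_of_dvd two_pos ((h.dvd_iff dvd_rfl).1 h1)
      omega
  · rcases key q hq hd with ⟨h5, h6⟩ | ⟨⟨h5, h7⟩, h6⟩
    · have h7 : n ≡ 1 [MOD q] := by
        simpa using (((h6.pow 2).mul_left n).symm.trans h)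
      have h8 : q < 5 := not_le.1 fun h' => h5 ⟨h', h7⟩
      have h9 := hq.two_le
      have h10 : q ≠ 4 := by rintro rfl; exact absurd hq (by norm_num)
      obtain rfl : q = 3 := by omega
      unfold Nat.ModEq at h7
      omega
    · have h8 := (h7.mul (h6.pow 2)).symm.trans h
      have := Nat.le_of_dvd (by norm_num) ((Nat.modEq_iff_dvd' (by norm_num)).1 h8.symm)
      omega

theorem exists_many {ι : Type} (d : ι → ℤ) (s : Finset ι) (hd : ∀ i ∈ s, ¬ IsSquare (d i)) :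
    ∃ M c : ℕ, 0 < M ∧ 2 ∣ M ∧ c.Coprime M ∧ ∃ I ⊆ s, #s ≤ 2 * #I ∧ ∀ p : ℕ, p.Prime →
      p ≡ c [MOD M] → (∀ q : ℕ, q.Prime → q ≠ 2 → q ∣ M → ¬ q ∣ p - 1) ∧
        ∀ i ∈ I, ¬ IsSquare (d i : ZMod p) := by
  obtain ⟨M, hM, h3, hdM⟩ : ∃ M : ℕ, 0 < M ∧ 12 ∣ M ∧ ∀ i ∈ s, 4 * (d i).natAbs ∣ M :=
    ⟨12 * ∏ i ∈ s, (d i).natAbs, Nat.mul_pos (by norm_num) (prod_pos fun i hi =>
      Int.natAbs_pos.2 fun h => hd i hi (h ▸ IsSquare.zero)), Dvd.intro _ rfl,
      fun i hi => mul_dvd_mul (by norm_num) (dvd_prod_of_mem _ hi)⟩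
  set T := (range M).filter fun n => n.Coprime M ∧ n % 3 = 2
  have hT : T.Nonempty := ⟨M - 1, mem_filter.2 ⟨mem_range.2 (by omega), cyc_pred_coprime hM,
    by omega⟩⟩
  have h1 : ∀ i ∈ s, #T ≤ 2 * #(T.filter fun n => jacobiSym (d i) n = -1) := fun i hi => by
    rw [← card_filter_add_card_filter_not (s := T) fun n => jacobiSym (d i) n = -1, two_mul,
      Nat.add_le_add_iff_left]
    obtain ⟨p, p1, p2, p3⟩ := exists_neg (hd i hi) hM (hdM i hi)
    rcases (T.filter fun n => ¬ jacobiSym (d i) n = -1).eq_empty_or_nonempty with h | ⟨m, hm⟩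
    · rw [h, card_empty]
      exact Nat.zero_le _
    have hJ : ∀ n ∈ T.filter fun n => ¬ jacobiSym (d i) n = -1,
        n.Coprime M ∧ n % 3 = 2 ∧ jacobiSym (d i) n = 1 := fun n hn => by
      obtain ⟨n1, n2⟩ := mem_filter.1 hn
      obtain ⟨-, n3, n4⟩ := mem_filter.1 n1
      exact ⟨n3, n4, (jacobiSym.eq_one_or_neg_one (jac_gcd (hdM i hi) n3)).resolve_right n2⟩
    obtain ⟨m1, m2, m3⟩ := hJ m hm
    refine card_le_card_of_injOn (fun n => n * (p * m) % M) (fun n hn => ?_) fun n hn n' hn' h => ?_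
    · obtain ⟨n1, n2, n3⟩ := hJ n (mem_coe.1 hn)
      have h4 : (n * (p * m)).Coprime M := Nat.Coprime.mul_left n1 (Nat.Coprime.mul_left p1 m1)
      have h5 := Nat.mod_modEq (n * (p * m)) M
      refine mem_coe.2 (mem_filter.2 ⟨mem_filter.2 ⟨mem_range.2 (Nat.mod_lt _ hM),
        by rwa [Nat.Coprime, h5.gcd_eq], ?_⟩, ?_⟩)
      · rw [show _ % 3 = _ from h5.of_dvd (Dvd.dvd.trans (by norm_num) h3), Nat.mul_mod,
          Nat.mul_mod p, n2, p2, m2]
      · rw [jac_congr (hdM i hi) h4 h5, jacobiSym.mul_right' _ (by omega)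
          (Nat.mul_ne_zero (by omega) (by omega)), jacobiSym.mul_right' _ (by omega) (by omega),
          n3, p3, m3]
        norm_num
    · have h4 : n ≡ n' [MOD M] :=
        Nat.ModEq.cancel_right_of_coprime (Nat.Coprime.mul_left p1 m1).symm h
      exact Nat.ModEq.eq_of_lt_of_lt h4
        (mem_range.1 (mem_filter.1 (mem_filter.1 (mem_coe.1 hn)).1).1)
        (mem_range.1 (mem_filter.1 (mem_filter.1 (mem_coe.1 hn')).1).1)
  obtain ⟨n, hn, h2⟩ := exists_le_of_sum_le (f := fun _ => #s)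
    (g := fun n => 2 * #(s.filter fun i => jacobiSym (d i) n = -1)) hT (by
      have e : ∑ n ∈ T, #(s.filter fun i => jacobiSym (d i) n = -1) =
          ∑ i ∈ s, #(T.filter fun n => jacobiSym (d i) n = -1) := by
        simp only [card_filter]
        exact sum_comm
      rw [← mul_sum, e, mul_sum, sum_const, smul_eq_mul, mul_comm, ← smul_eq_mul]
      exact card_nsmul_le_sum _ _ _ h1)
  obtain ⟨-, n1, n2⟩ := mem_filter.1 hn
  obtain ⟨u, u1, u2⟩ := exists_shift n2 hM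
  have hc : (n * u ^ 2).Coprime M := Nat.Coprime.mul_left n1 (Nat.Coprime.pow_left 2 u1)
  refine ⟨M, n * u ^ 2, hM, Dvd.dvd.trans (by norm_num) h3, hc, _, filter_subset _ _, h2,
    fun p hp hpc => ⟨fun q hq q2 q3 q4 => u2 q hq q2 q3 ((hpc.of_dvd q3).symm.trans
      ((Nat.modEq_iff_dvd' hp.one_le).2 q4).symm), fun i hi => ?_⟩⟩
  obtain ⟨i1, i2⟩ := mem_filter.1 hi
  have u0 : u ≠ 0 := by
    rintro rfl
    rw [Nat.coprime_zero_left] at u1
    omega
  refine ZMod.nonsquare_of_jacobiSym_eq_neg_one ?_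
  rw [jac_congr (hdM i i1) hc hpc, jacobiSym.mul_right' _ (by omega) (pow_ne_zero 2 u0), i2,
    jacobiSym.pow_right, jacobiSym.sq_one (jac_gcd (hdM i i1) u1), mul_one]

open Classical in
theorem exists_class_many {ι : Type} [Fintype ι] (a : ι → ℚˣ) (k : ι → ℕ)
    (h : ∀ i, Even (k i) ∨ ¬ IsSquare (a i : ℚ)) :
    ∃ M c : ℕ, 0 < M ∧ 2 ∣ M ∧ c.Coprime M ∧ ∃ I : Finset ι, Fintype.card ι ≤ 4 * #I ∧
      ∀ p : ℕ, p.Prime → p ≡ c [MOD M] → (∀ q : ℕ, q.Prime → q ≠ 2 → q ∣ M → ¬ q ∣ p - 1) ∧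
        ∀ i ∈ I, padicValRat p (a i : ℚ) = 0 →
          (∀ q : ℕ, q.Prime → q ∣ (red (Subgroup.zpowers (a i)) p).index → q = 2) →
            (red (Subgroup.zpowers (a i)) p).index ∣ k i := by
  have h0 := card_filter_add_card_filter_not (s := univ) fun i => Even (k i)
  rw [card_univ] at h0
  by_cases h1 : Fintype.card ι ≤ 2 * #(univ.filter fun i => Even (k i))
  · refine ⟨4, 3, by norm_num, by norm_num, by norm_num, univ.filter fun i => Even (k i), by omega,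
      fun p hp hc => ⟨fun q hq h2 h4 => absurd ((Nat.prime_dvd_prime_iff_eq hq Nat.prime_two).1
        (hq.dvd_of_dvd_pow (n := 2) h4)) h2, fun i hi _ h2 => ?_⟩⟩
    have := Fact.mk hp
    have h3 := index_dvd (Subgroup.zpowers (a i)) p
    have h4 : p % 4 = 3 := hc
    have h5 := Nat.eq_prime_pow_of_unique_prime_dvd (p := 2)
      (red (Subgroup.zpowers (a i)) p).index_ne_zero_of_finite (fun hq => h2 _ hq)
    rw [h5] at h3 ⊢
    generalize (red (Subgroup.zpowers (a i)) p).index.primeFactorsList.length = j at h3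
    have h6 : j ≤ 1 := by
      by_contra h6
      have := (pow_dvd_pow 2 (by omega : 2 ≤ j)).trans h3
      omega
    exact ((pow_dvd_pow 2 h6).trans (by norm_num)).trans (mem_filter.1 hi).2.two_dvd
  obtain ⟨M, c, h2, h3, h4, I, -, h5, h6⟩ := exists_many
    (fun i => (a i : ℚ).num * (a i : ℚ).den) (univ.filter fun i => ¬ Even (k i)) fun i hi h' =>
      (h i).resolve_left (mem_filter.1 hi).2 (by
        obtain ⟨t, ht⟩ := h'
        refine ⟨t / (a i : ℚ).den, ?_⟩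
        have h5 : ((a i : ℚ).num : ℚ) * (a i : ℚ).den = t * t := by exact_mod_cast ht
        have h6 : ((a i : ℚ).den : ℚ) ≠ 0 := by exact_mod_cast (a i : ℚ).den_nz
        rw [div_mul_div_comm, ← h5, mul_div_mul_right _ _ h6, Rat.num_div_den])
  refine ⟨M, c, h2, h3, h4, I, by omega, fun p hp hc => ⟨(h6 p hp hc).1, fun i hi hv h7 => ?_⟩⟩
  have := Fact.mk hp
  obtain ⟨a1, a2⟩ := not_dvd_of_val (a i).ne_zero hv
  refine (Nat.eq_one_iff_not_exists_prime_dvd.2 fun q hq hq' => ?_ :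
    (red (Subgroup.zpowers (a i)) p).index = 1).dvd.trans (one_dvd _)
  obtain rfl := h7 q hq hq'
  obtain ⟨u, c1, c2⟩ := exists_pow_eq_one hq' (Subgroup.mem_zpowers _) hv
  have c3 := hq'.trans (index_dvd _ p)
  have c4 := hp.two_le
  have c5 : u ≠ 0 := by
    rintro rfl
    rw [zero_mul, ZMod.intCast_zmod_eq_zero_iff_dvd, Int.natCast_dvd] at c2
    exact a1 c2
  rw [show (p - 1) / 2 = p / 2 by omega, ← ZMod.euler_criterion p c5] at c1
  refine (h6 p hp hc).2 i hi ?_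
  rw [Int.cast_mul, c2, Int.cast_natCast, mul_assoc]
  exact c1.mul (IsSquare.mul_self _)

end Pool.Agent.MP_48b1c3_nt.H53

end

-- part MP_48b1c3_nt.H53.Main
section

/-! Among boundedly many independent rationals one is a primitive root for many primes. -/

namespace Pool.Agent.MP_48b1c3_nt.H53

open Finset Filter Pool.Agent.MP_48b1c3_nt.H54

/-- the `e`-th power of `|w|` is one modulo `p` -/
def Kill (p e : ℕ) (w : ℚˣ) : Prop :=
  ((w : ℚ).num.natAbs : ZMod p) ^ e = ((w : ℚ).den : ZMod p) ^ e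

theorem kill_closure {p e : ℕ} [Fact p.Prime] {S : Set ℚˣ}
    (hv : ∀ w ∈ Subgroup.closure S, padicValRat p (w : ℚ) = 0) (h : ∀ w ∈ S, Kill p e w) :
    ∀ w ∈ Subgroup.closure S, Kill p e w := by
  have key : ∀ x y : ℚˣ, (((x * y : ℚˣ) : ℚ).num.natAbs : ZMod p) ^ e * ((x : ℚ).den : ZMod p) ^ e *
      ((y : ℚ).den : ZMod p) ^ e = ((x : ℚ).num.natAbs : ZMod p) ^ e *
        ((y : ℚ).num.natAbs : ZMod p) ^ e * (((x * y : ℚˣ) : ℚ).den : ZMod p) ^ e := fun x y => by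
    have h1 := congrArg Int.natAbs (Rat.mul_num_den' (x : ℚ) y)
    simp only [Int.natAbs_mul, Int.natAbs_natCast] at h1
    rw [← mul_pow, ← mul_pow, ← mul_pow, ← mul_pow, Units.val_mul]
    exact_mod_cast congrArg (fun n : ℕ => (n : ZMod p) ^ e) h1
  have hd : ∀ w ∈ Subgroup.closure S, ((w : ℚ).den : ZMod p) ^ e ≠ 0 := fun w hw =>
    pow_ne_zero _ (by
      rw [Ne, ZMod.natCast_eq_zero_iff]
      exact (not_dvd_of_val w.ne_zero (hv w hw)).2)
  intro w hw
  induction hw using Subgroup.closure_induction with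
  | mem w hw => exact h w hw
  | one => simp [Kill]
  | mul x y hx hy ix iy =>
    have h1 := key x y
    rw [ix, iy] at h1
    refine mul_right_cancel₀ (mul_ne_zero (hd x hx) (hd y hy)) ?_
    linear_combination h1
  | inv x hx ix =>
    have h1 := key x x⁻¹
    rw [ix, mul_inv_cancel] at h1
    refine mul_right_cancel₀ (hd x hx) ?_
    simp only [Units.val_one, Rat.num_one, Int.natAbs_one, Nat.cast_one, one_pow, Rat.den_one] at h1
    linear_combination -h1

theorem bad_small : ∃ r₀ : ℕ, ∀ W : Subgroup ℚˣ, W.FG → r₀ ≤ Module.finrank ℤ (Additive W) →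
    ∀ ε : ℝ, 0 < ε → ∀ᶠ x : ℝ in atTop, ∀ G : Finset ℕ, (∀ p ∈ G, p ∈ PI (x / Real.exp 4) x ∧
      (∀ q : ℕ, q.Prime → q ∣ p - 1 →
        (q : ℝ) ≤ Real.log x ^ ((5 : ℕ) : ℝ)⁻¹ ∨ x ^ (1 / 4000 : ℝ) < q) ∧
      ∃ l : ℕ, l.Prime ∧ Real.log (Real.log x) < l ∧ l ∣ p - 1 ∧
        ∀ w ∈ W, Kill p ((p - 1) / l) w) → (#G : ℝ) ≤ ε * (x / Real.log x ^ 2) := by
  classical
  obtain ⟨C₀, hbad⟩ := bad_upper
  refine ⟨C₀ + 3 + 8000, fun W hW hr ε hε => ?_⟩
  obtain ⟨a, q, ha, hq⟩ := exists_diag W hW hr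
  obtain ⟨p₀, hp₀⟩ := exists_unit_bound W hW
  obtain ⟨l₁, hbad⟩ := hbad _ _ _ q hq (1 / 4000) (by norm_num)
  obtain ⟨C, hC, hmat⟩ := matthews (by omega) hq
  have hz : Tendsto (fun x => Real.log x ^ ((5 : ℕ) : ℝ)⁻¹) atTop atTop :=
    (tendsto_rpow_atTop (by norm_num)).comp Real.tendsto_log_atTop
  have hl := tendsto_nat_floor_atTop.comp (Real.tendsto_log_atTop.comp Real.tendsto_log_atTop)
  filter_upwards [hz.eventually_ge_atTop 3, hl.eventually_ge_atTop (l₁ + ⌈4 / ε⌉₊ + 1),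
    (tendsto_id.atTop_div_const (Real.exp_pos 4)).eventually_ge_atTop (p₀ + 2 : ℕ),
    matthews_small (β := 1 / 4000) (by norm_num) (by norm_num) (show 0 < ε / 2 / C by positivity)
      (r := C₀ + 3 + 8000) (by push_cast; linarith [C₀.cast_nonneg (α := ℝ)]),
    eventually_gt_atTop 1] with x z3 hl₀ hxp hsm hx G hG
  have hL := Real.log_pos hx
  have hx0 : 0 < x := by linarith
  have z5 := Real.rpow_inv_natCast_pow hL.le (n := 5) (by norm_num)
  have zlog := Real.log_rpow hL ((5 : ℕ) : ℝ)⁻¹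
  generalize Real.log x ^ ((5 : ℕ) : ℝ)⁻¹ = z at z3 z5 zlog hG
  simp only [Function.comp] at hl₀
  have hl1 := Nat.lt_floor_add_one (Real.log (Real.log x))
  have hl2 : ∀ l : ℕ, Real.log (Real.log x) < l → ⌊Real.log (Real.log x)⌋₊ < l := fun l h =>
    (Nat.floor_lt' (by rintro rfl; rw [Nat.floor_of_nonpos (by simpa using h.le)] at hl₀; omega)).2 h
  generalize ⌊Real.log (Real.log x)⌋₊ = l₀ at hl₀ hl1 hl2
  have hl0 : (1 : ℝ) ≤ l₀ := by exact_mod_cast (by omega : 1 ≤ l₀)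
  have hbig : ∀ p ∈ G, p₀ + 2 < p := fun p hp => by
    exact_mod_cast hxp.trans_lt (mem_PI.1 (hG p hp).1).1
  have hval := fun p hp => hp₀ p (mem_PI.1 (hG p hp).1).2.2 (by have := hbig p hp; omega)
  set B := fun l => G.filter fun p => l ∣ p - 1 ∧ ∀ i, Kill p ((p - 1) / l) (a i)
  set B' := G.filter fun p => ∃ m : ℕ, 0 < m ∧ (m : ℝ) ≤ x ^ (1 - 1 / 4000 : ℝ) ∧
    ∀ i, Kill p m (a i)
  set P := (Ioc l₀ ⌊z⌋₊).filter Nat.Prime
  have hsub : G ⊆ P.biUnion B ∪ B' := fun p hp => by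
    obtain ⟨p1, p2, l, l1, l2, l4, l5⟩ := hG p hp
    have p4 := hbig p hp
    rcases p2 l l1 l4 with l7 | l6
    · exact mem_union_left _ (mem_biUnion.2 ⟨l, mem_filter.2 ⟨mem_Ioc.2 ⟨hl2 l l2,
        Nat.le_floor l7⟩, l1⟩, mem_filter.2 ⟨hp, l4, fun i => l5 _ (ha i)⟩⟩)
    · refine mem_union_right _ (mem_filter.2 ⟨hp, _,
        Nat.div_pos (Nat.le_of_dvd (by omega) l4) l1.pos, Nat.cast_div_le.trans ?_,
        fun i => l5 _ (ha i)⟩)
      rw [Real.rpow_sub hx0, Real.rpow_one]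
      gcongr
      exact le_trans (by exact_mod_cast Nat.sub_le p 1) (mem_PI.1 p1).2.1
  have hB : ∀ l ∈ P, (#(B l) : ℝ) ≤ (l : ℝ) ^ C₀ / (l : ℝ) ^ (C₀ + 3 + 8000) *
      (x * Real.log z / Real.log x ^ 2) := fun l hl => by
    obtain ⟨l1, l2⟩ := mem_filter.1 hl
    obtain ⟨l3, l4⟩ := mem_Ioc.1 l1
    refine hbad x hx0 l l2 (by omega) (le_of_le_of_eq ?_ z5) z z3 _ fun p hp => ?_
    · exact pow_le_pow_left₀ (by positivity) ((Nat.le_floor_iff (by linarith)).1 l4) 5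
    · obtain ⟨p1, p2, p3⟩ := mem_filter.1 hp
      exact ⟨(hG p p1).1, p2, p3, (hG p p1).2.1⟩
  have z1 : 0 ≤ Real.log z := Real.log_nonneg (by linarith)
  have hB1 : (#(P.biUnion B) : ℝ) ≤ ε / 2 * (x / Real.log x ^ 2) := by
    refine le_trans (by exact_mod_cast card_biUnion_le) ((sum_le_sum hB).trans ?_)
    rw [← sum_mul]
    have h4 : 4 / ε ≤ l₀ := Nat.ceil_le.1 (by omega)
    have h5 : Real.log z ≤ 2 * l₀ := by
      rw [zlog] at z1 ⊢
      push_cast at z1 ⊢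
      linarith
    calc _ ≤ 1 / (l₀ : ℝ) * (1 / l₀) * (x * (2 * l₀) / Real.log x ^ 2) := by
          gcongr
          exact sum_tail_le (by omega) (by omega) P (filter_subset _ _)
      _ = 2 * (1 / l₀) * (x / Real.log x ^ 2) := by field_simp
      _ ≤ 2 * (1 / (4 / ε)) * (x / Real.log x ^ 2) := by gcongr
      _ = _ := by field_simp; ring
  have hB2 : (#B' : ℝ) ≤ ε / 2 * (x / Real.log x ^ 2) := by
    refine (hmat _ (Real.one_le_rpow (z := 1 - 1 / 4000) hx.le (by norm_num)) B'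
      fun p hp => ?_).trans ?_
    · obtain ⟨p1, p2⟩ := mem_filter.1 hp
      have := Fact.mk (mem_PI.1 (hG p p1).1).2.2
      exact ⟨this.out, fun i => (not_dvd_of_val (a i).ne_zero (hval p p1 _ (ha i))).2, p2⟩
    · calc _ ≤ C * (ε / 2 / C * (x / Real.log x ^ 2)) := by gcongr
        _ = _ := by field_simp
  have hcard : (#G : ℝ) ≤ #(P.biUnion B) + #B' := by
    exact_mod_cast (card_le_card hsub).trans (card_union_le _ _)
  linarith

theorem card_large {x : ℝ} (hx : 1 < x) {n : ℕ} (hn : n ≠ 0) (hnx : (n : ℝ) ≤ x) :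
    #(n.primeFactors.filter fun q : ℕ => x ^ (1 / 4000 : ℝ) < q) ≤ 4000 := by
  set T := n.primeFactors.filter fun q : ℕ => x ^ (1 / 4000 : ℝ) < q
  have h1 : ∏ q ∈ T, q ≤ n := Nat.le_of_dvd (Nat.pos_of_ne_zero hn)
    ((prod_dvd_prod_of_subset _ _ _ (filter_subset _ _)).trans (Nat.prod_primeFactors_dvd n))
  have h2 : (x ^ (1 / 4000 : ℝ)) ^ #T ≤ x ^ (1 : ℝ) := by
    rw [← prod_const, Real.rpow_one]
    refine (prod_le_prod (fun _ _ => by positivity) fun q hq => (mem_filter.1 hq).2.le).trans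
      (le_trans ?_ hnx)
    rw [← Nat.cast_prod]
    exact Nat.cast_le.2 h1
  rw [← Real.rpow_natCast, ← Real.rpow_mul (by linarith), Real.rpow_le_rpow_left_iff hx] at h2
  have h3 : (#T : ℝ) ≤ 4000 := by linarith
  exact_mod_cast h3

theorem recip_lower (K : ℕ) : ∀ᶠ x : ℝ in atTop, Real.log (Real.log (Real.log x)) / 2 ≤
    ∑ q ∈ PI (Real.log (Real.log x)) (Real.log x ^ ((5 : ℕ) : ℝ)⁻¹), (1 : ℝ) / q - K := by
  obtain ⟨C, -, hC⟩ := mertens2
  have t2 := Real.tendsto_log_atTop.comp Real.tendsto_log_atTop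
  have t3 := Real.tendsto_log_atTop.comp t2
  filter_upwards [t2.eventually_ge_atTop 2, eventually_gt_atTop 1,
    t3.eventually_ge_atTop (4 * (2 * C + K + Real.log 5)), t3.eventually_ge_atTop 1,
    (Real.isLittleO_log_id_atTop.comp_tendsto t3).bound (c := 1 / 4) (by norm_num),
    ((isLittleO_log_rpow_atTop (r := ((5 : ℕ) : ℝ)⁻¹) (by norm_num)).comp_tendsto
      Real.tendsto_log_atTop).bound one_pos] with x h1 hx h2 h3 h4 h5
  have hL := Real.log_pos hx
  simp only [Function.comp, id] at h1 h2 h3 h4 h5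
  rw [Real.norm_of_nonneg (Real.log_nonneg h3), Real.norm_of_nonneg (by linarith)] at h4
  rw [Real.norm_of_nonneg (by linarith), Real.norm_of_nonneg (by positivity), one_mul] at h5
  have h6 := (abs_le.1 (hC _ h1)).2
  have h7 := (abs_le.1 (hC _ (h1.trans h5))).1
  rw [Real.log_rpow hL, Real.log_mul (by norm_num) (by linarith), Real.log_inv] at h7
  have h8 : ∑ q ∈ PI 0 (Real.log x ^ ((5 : ℕ) : ℝ)⁻¹), (1 : ℝ) / q =
      ∑ q ∈ PI 0 (Real.log (Real.log x)), (1 : ℝ) / q +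
        ∑ q ∈ PI (Real.log (Real.log x)) (Real.log x ^ ((5 : ℕ) : ℝ)⁻¹), (1 : ℝ) / q := by
    simp only [PI, sum_filter]
    exact (sum_Ioc_consecutive _ (Nat.floor_mono (by linarith)) (Nat.floor_mono h5)).symm
  push_cast at h7 h8 ⊢
  linarith

theorem rank_closure {ι : Type} (a : ι → ℚˣ) (s : Finset ι)
    (h : LinearIndependent ℤ fun i : s => Additive.ofMul (a i)) :
    (Subgroup.closure (a '' s)).FG ∧
      #s ≤ Module.finrank ℤ (Additive (Subgroup.closure (a '' s))) := by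
  have hW : (Subgroup.closure (a '' s)).FG :=
    (Subgroup.fg_iff _).2 ⟨_, rfl, s.finite_toSet.image a⟩
  have : Group.FG (Subgroup.closure (a '' s)) := (Group.fg_iff_subgroup_fg _).mpr hW
  have : Module.Finite ℤ (Additive (Subgroup.closure (a '' s))) :=
    Module.Finite.iff_addGroup_fg.mpr inferInstance
  refine ⟨hW, ?_⟩
  rw [← Fintype.card_coe]
  exact LinearIndependent.fintype_card_le_finrank (b := fun i : s => Additive.ofMul
    (⟨a i, Subgroup.subset_closure ⟨i, i.2, rfl⟩⟩ : Subgroup.closure (a '' s)))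
    (LinearIndependent.of_comp
      (MonoidHom.toAdditive (Subgroup.closure (a '' s)).subtype).toIntLinearMap h)

theorem rank_one : ∃ r₀ : ℕ, ∀ K : ℕ, ∃ R : ℕ, ∀ (a : Fin R → ℚˣ) (k : Fin R → ℕ),
    (∀ s : Finset (Fin R), #s = r₀ → LinearIndependent ℤ fun i : s => Additive.ofMul (a i)) →
    (∀ i, Even (k i) ∨ ¬ IsSquare (a i : ℚ)) → ∃ c : ℝ, 0 < c ∧ ∀ᶠ x : ℝ in atTop,
      ∃ i, ∃ G : Finset ℕ,
        c * x * Real.log (Real.log (Real.log x)) ^ K / Real.log x ^ 2 ≤ #G ∧ ∀ p ∈ G, p.Prime ∧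
          (p : ℝ) ≤ x ∧ (∀ w ∈ Subgroup.zpowers (a i), padicValRat p (w : ℚ) = 0) ∧
            (red (Subgroup.zpowers (a i)) p).index ∣ k i := by
  classical
  obtain ⟨r₀, hbad⟩ := bad_small
  refine ⟨r₀, fun K => ⟨4 * ((K + 4000) * r₀ + 1), fun a k hind hk => ?_⟩⟩
  obtain ⟨M, c, hM, h2, hc, I, hI, hcls⟩ := exists_class_many a k hk
  rw [Fintype.card_fin] at hI
  generalize hR : 4 * ((K + 4000) * r₀ + 1) = R at a k hind hk I hI hcls
  have hR0 : (0 : ℝ) < R := by exact_mod_cast (by omega : 0 < R)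
  obtain ⟨κ, hκ, hsift⟩ := sifted_K M c K hM h2 hc
  obtain ⟨p₀, hp₀⟩ := exists_unit_bound (Subgroup.closure (Set.range a))
    ((Subgroup.fg_iff _).2 ⟨_, rfl, Set.finite_range a⟩)
  set T := (univ : Finset (Fin R)).powersetCard r₀
  have hall := (eventually_all_finset T).2 fun s hs => hbad _
    (rank_closure a s (hind s (mem_powersetCard.1 hs).2)).1
    ((mem_powersetCard.1 hs).2.ge.trans (rank_closure a s (hind s (mem_powersetCard.1 hs).2)).2)
    (κ / 2 / (#T + 1)) (by positivity)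
  have t2 := Real.tendsto_log_atTop.comp Real.tendsto_log_atTop
  refine ⟨κ / 2 / 2 ^ K / R, by positivity, ?_⟩
  filter_upwards [hsift, hall, recip_lower K, t2.eventually_ge_atTop M, eventually_gt_atTop 1,
    (Real.tendsto_log_atTop.comp t2).eventually_ge_atTop 2,
    Real.tendsto_log_atTop.eventually_ge_atTop 1,
    (tendsto_id.atTop_div_const (Real.exp_pos 4)).eventually_ge_atTop (p₀ + 2 : ℕ),
    ((isLittleO_log_rpow_atTop (r := ((5 : ℕ) : ℝ)⁻¹) (by norm_num)).comp_tendsto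
      Real.tendsto_log_atTop).bound one_pos,
    (isLittleO_log_rpow_atTop (r := 1 / 4000) (by norm_num)).bound one_pos]
    with x hsift hall hrec hMY hx h3 hL1 hxp hYz hLx
  have hx0 : 0 < x := by linarith
  simp only [Function.comp, id] at hMY h3 hxp hYz
  rw [Real.norm_of_nonneg (Real.log_nonneg hL1), Real.norm_of_nonneg (by positivity),
    one_mul] at hYz
  rw [Real.norm_of_nonneg (by linarith), Real.norm_of_nonneg (by positivity), one_mul] at hLx
  have hzL : Real.log x ^ ((5 : ℕ) : ℝ)⁻¹ ≤ Real.log x :=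
    Real.rpow_le_self_of_one_le hL1 (by norm_num)
  specialize hsift _ _ hMY hzL
  generalize Real.log x ^ ((5 : ℕ) : ℝ)⁻¹ = z at hsift hall hrec hYz hzL
  generalize hY : Real.log (Real.log x) = Y at hsift hall hrec hYz hMY h3
  obtain ⟨G₀, hG, hmem⟩ : ∃ G₀ : Finset ℕ,
      κ * (max 0 (∑ q ∈ PI Y z, (1 : ℝ) / q - K) ^ K * (x / Real.log x ^ 2)) ≤ #G₀ ∧
      ∀ p ∈ G₀, p ∈ PI (x / Real.exp 4) x ∧ p ≡ c [MOD M] ∧ #((PI Y z).filter (· ∣ p - 1)) = K ∧
        ∀ q : ℕ, q.Prime → q ∣ p - 1 → q ∣ M ∨ q ∈ PI Y z ∨ x ^ (1 / 4000 : ℝ) < q :=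
    ⟨_, hsift, fun p hp => by simpa only [mem_filter] using hp⟩
  have hbig : ∀ p ∈ G₀, p₀ + 2 < p := fun p hp => by
    exact_mod_cast hxp.trans_lt (mem_PI.1 (hmem p hp).1).1
  have hval := fun p hp => hp₀ p (mem_PI.1 (hmem p hp).1).2.2 (by have := hbig p hp; omega)
  have hval' : ∀ p ∈ G₀, ∀ i, ∀ w ∈ Subgroup.zpowers (a i), padicValRat p (w : ℚ) = 0 :=
    fun p hp i w hw => hval p hp w (Subgroup.zpowers_le_of_mem
      (Subgroup.subset_closure (Set.mem_range_self i)) hw)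
  set G := fun i => G₀.filter fun p => (red (Subgroup.zpowers (a i)) p).index ∣ k i
  set B := fun s : Finset (Fin R) => G₀.filter fun p => ∃ l : ℕ, l.Prime ∧ Y < l ∧ l ∣ p - 1 ∧
    ∀ w ∈ Subgroup.closure (a '' s), Kill p ((p - 1) / l) w
  have hsub : G₀ ⊆ univ.biUnion G ∪ T.biUnion B := fun p hp => by
    by_cases h : ∃ i, (red (Subgroup.zpowers (a i)) p).index ∣ k i
    · obtain ⟨i, hi⟩ := h
      exact mem_union_left _ (mem_biUnion.2 ⟨i, mem_univ _, mem_filter.2 ⟨hp, hi⟩⟩)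
    obtain ⟨p1, p2, p3, p4⟩ := hmem p hp
    obtain ⟨-, p5, p6⟩ := mem_PI.1 p1
    have := Fact.mk p6
    have p7 := hbig p hp
    obtain ⟨c1, c2⟩ := hcls p p6 p2
    have hex : ∀ i, ∃ l : ℕ, i ∈ I → l.Prime ∧ l ≠ 2 ∧
        l ∣ (red (Subgroup.zpowers (a i)) p).index := fun i => by
      by_contra h'
      push Not at h'
      refine h ⟨i, c2 i (h' 0).1 (hval' p hp i _ (Subgroup.mem_zpowers _)) fun q hq hq' => ?_⟩
      by_contra h4
      exact (h' q).2 hq h4 hq'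
    choose l hl using hex
    have hl' : ∀ i ∈ I, l i ∈ PI Y z ∨ x ^ (1 / 4000 : ℝ) < l i := fun i hi => by
      obtain ⟨l1, l2, l3⟩ := hl i hi
      have l4 := l3.trans (index_dvd _ p)
      exact (p4 _ l1 l4).resolve_left fun h' => c1 _ l1 l2 h' l4
    obtain ⟨y, -, hy⟩ := exists_lt_card_fiber_of_mul_lt_card_of_maps_to (s := I) (f := l)
      (t := (PI Y z).filter (· ∣ p - 1) ∪
        (p - 1).primeFactors.filter fun q : ℕ => x ^ (1 / 4000 : ℝ) < q) (n := r₀)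
      (fun i hi => by
        obtain ⟨l1, -, l3⟩ := hl i hi
        have l4 := l3.trans (index_dvd _ p)
        exact mem_union.2 ((hl' i hi).imp (fun h' => mem_filter.2 ⟨h', l4⟩) fun h' =>
          mem_filter.2 ⟨Nat.mem_primeFactors.2 ⟨l1, l4, by omega⟩, h'⟩))
      (by
        have h4 := card_large hx (n := p - 1) (by omega)
          (le_trans (by exact_mod_cast Nat.sub_le p 1) p5)
        have h5 := Nat.mul_le_mul_right r₀ ((card_union_le _ _).trans (Nat.add_le_add p3.le h4))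
        omega)
    obtain ⟨s, s1, s2⟩ := exists_subset_card_eq hy.le
    obtain ⟨i, hi⟩ := card_pos.1 ((Nat.zero_le _).trans_lt hy)
    obtain ⟨i1, rfl⟩ := mem_filter.1 hi
    obtain ⟨l1, l2, l3⟩ := hl i i1
    refine mem_union_right _ (mem_biUnion.2 ⟨s, mem_powersetCard.2 ⟨subset_univ _, s2⟩,
      mem_filter.2 ⟨hp, l i, l1, (hl' i i1).elim (fun h' => (mem_PI.1 h').1) fun h' => by linarith,
        l3.trans (index_dvd _ p), kill_closure (fun w hw => hval p hp w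
          (Subgroup.closure_mono (Set.image_subset_range _ _) hw)) ?_⟩⟩)
    rintro _ ⟨j, hj, rfl⟩
    obtain ⟨j1, j2⟩ := mem_filter.1 (s1 hj)
    exact pow_eq_of_odd (by omega) (l1.odd_of_ne_two l2) (j2 ▸ (hl j j1).2.2)
      (Subgroup.mem_zpowers _) (hval' p hp j _ (Subgroup.mem_zpowers _))
  have hB : ∀ s ∈ T, (#(B s) : ℝ) ≤ κ / 2 / (#T + 1) * (x / Real.log x ^ 2) := fun s hs =>
    hall s hs _ fun p hp => by
      obtain ⟨p1, p2⟩ := mem_filter.1 hp
      refine ⟨(hmem p p1).1, fun q hq hd => ?_, p2⟩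
      rcases (hmem p p1).2.2.2 q hq hd with h | h | h
      · exact Or.inl (le_trans (by exact_mod_cast Nat.le_of_dvd hM h) (hMY.trans hYz))
      · exact Or.inl (mem_PI.1 h).2.1
      · exact Or.inr h
  have h4 : (1 : ℝ) ≤ (Real.log Y / 2) ^ K := one_le_pow₀ (by linarith)
  have h5 : (#(T.biUnion B) : ℝ) ≤ κ / 2 * ((Real.log Y / 2) ^ K * (x / Real.log x ^ 2)) := by
    refine le_trans (by exact_mod_cast card_biUnion_le) ((sum_le_card_nsmul _ _ _ hB).trans ?_)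
    rw [nsmul_eq_mul]
    calc _ ≤ ((#T : ℝ) + 1) * (κ / 2 / (#T + 1) * (x / Real.log x ^ 2)) := by gcongr; linarith
      _ = κ / 2 * (1 * (x / Real.log x ^ 2)) := by field_simp
      _ ≤ _ := by gcongr
  have h6 : κ * ((Real.log Y / 2) ^ K * (x / Real.log x ^ 2)) ≤ #G₀ := by
    refine le_trans ?_ hG
    gcongr
    exact hrec.trans (le_max_right _ _)
  have h7 : (#G₀ : ℝ) ≤ ∑ i, (#(G i) : ℝ) + #(T.biUnion B) := by
    exact_mod_cast (card_le_card hsub).trans ((card_union_le _ _).trans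
      (Nat.add_le_add_right card_biUnion_le _))
  obtain ⟨i, -, hi⟩ := exists_le_of_sum_le (s := univ) (g := fun i => (#(G i) : ℝ))
    (f := fun _ => κ / 2 * ((Real.log Y / 2) ^ K * (x / Real.log x ^ 2)) / R)
    ⟨⟨0, by omega⟩, mem_univ _⟩ (by
      rw [sum_const, card_univ, Fintype.card_fin, nsmul_eq_mul, mul_div_cancel₀ _ hR0.ne']
      linarith)
  refine ⟨i, G i, le_trans (le_of_eq ?_) hi, fun p hp => ?_⟩
  · rw [div_pow]
    ring
  · obtain ⟨p1, p2⟩ := mem_filter.1 hp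
    exact ⟨(mem_PI.1 (hmem p p1).1).2.2, (mem_PI.1 (hmem p p1).1).2.1, hval' p p1 i, p2⟩

end Pool.Agent.MP_48b1c3_nt.H53

end
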