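import Pool.Agent.MP_48b1c3_nt.H54.Defs
import Pool.Agent.MP_48b1c3_nt.H54.Sieve

-- part MP_48b1c3_nt.H54.Lattice
section

/-! Counting lattice points of a cube in residue classes modulo an ideal. -/

/-
HINTS.  If Per I E then (∃ a', mk a' = mk a ∧ E a') ↔ E a (Ideal.Quotient.eq).
dn_inf: Ideal.quotientInfEquivQuotientProd I J h : O ⧸ I ⊓ J ≃+* (O ⧸ I) × O ⧸ J, Nat.card_prod, Nat.card_congr; the subtype for E ∧ F is equivalent to the product of the subtypes
(given mk a = y₁, mk a' = y₂ take z with mk z ↦ (y₁, y₂); z - a ∈ I, z - a' ∈ J).  No finiteness is needed.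
dn_eq_of_le: the fibres of Ideal.Quotient.factor : O ⧸ I → O ⧸ J all have the same size (AddSubgroup.card_eq_card_quotient_mul_card_addSubgroup, or translate; for a surjective additive hom f with
kernel N and a set s, Nat.card (f ⁻¹' s) = Nat.card s * Nat.card N).
count_approx: choose r y with Box δ (r y) and mk (r y) = y; N = Nat.card (O ⧸ I) is finite (image of a finite box).  For a class y put c y = #{a ∈ cube T | mk a = y}.
(a, y') ↦ a + r y' is injective on {a ∈ cube T | mk a = y} × (O ⧸ I) with coordinates in [-δ, T + δ), so c y * N ≤ (T + 2δ)^n; v ↦ (v - r (mk v - y), mk v - y) is injective on the points with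
coordinates in [δ, T - δ), so (T - 2δ)^n ≤ c y * N.  #S = ∑ over the classes y meeting E of c y.  With t = 2δ/T, n t ≤ 1: (1+t)^n ≤ exp (n t) ≤ 1 + 2 n t and 1 - n t ≤ (1-t)^n (one_add_mul_le_pow); for n = 0 all is trivial.
count_family: induction on Q for: Per (J ⊓ span {∏ Q}) (E ∧ ∀ q ∈ Q, F q) and dn = dn J E * ∏ (insert step: (J ⊓ span {∏ Q}) ⊓ span {q} contains m * ∏ Q * q; it is simpler to define the ideal as
J ⊓ Q.inf (fun q => span {q}); coprime because (m * ∏ Q) and q are coprime integers).  Then reps_int, Reps.mono, count_approx and dn_le_one.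
reps_elt: IsAlgebraic.exists_nonzero_dvd gives an integer N ≠ 0, N = β β' (Module.Finite.of_basis b).  Write the coordinates of a β' as N * k i + ρ i with |ρ i| ≤ |N| (Int.emod), γ = ∑ k i • b i;
N (a - β γ) = β ∑ ρ i • b i has coordinates ≤ n^2 δ |N| (box_mul), cancel |N|.
exists_short: pigeonhole on cube b (D+1), which has (D+1)^n points.  norm: Algebra.norm_eq_matrix_det b, Algebra.leftMulMatrix_eq_repr_mul, Matrix.det_le (AbsoluteValue.abs), n ! ≤ n ^ n (Nat.factorial_le_pow);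
norm_modEq: RingHom.map_det for Int.castRingHom (ZMod m).
-/

namespace Pool.Agent.MP_48b1c3_nt.H54

open Finset

variable {O : Type*} [CommRing O] {n : ℕ} (b : Module.Basis (Fin n) ℤ O)

/-- every class modulo `I` has a representative in the box of size `δ` -/
def Reps (δ : ℕ) (I : Ideal O) : Prop := ∀ a, ∃ r, Box b δ r ∧ a - r ∈ I

/-- `a` is `1` modulo `l` and prime to `A` -/
def Un (l A : ℕ) (a : O) : Prop := (l : O) ∣ a - 1 ∧ IsCoprime a (A : O)

theorem Reps.mono {δ : ℕ} {I J : Ideal O} (h : Reps b δ I) (hIJ : I ≤ J) : Reps b δ J :=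
  fun a => (h a).imp fun _ hr => ⟨hr.1, hIJ hr.2⟩

theorem Per.mono {I J : Ideal O} {E : O → Prop} (h : Per J E) (hIJ : I ≤ J) : Per I E :=
  fun a a' ha => h a a' (hIJ ha)

theorem Per.not {I : Ideal O} {E : O → Prop} (h : Per I E) : Per I fun a => ¬ E a :=
  fun a a' ha h1 h2 => h1 (h a' a (by simpa using I.neg_mem ha) h2)

theorem Per.and {I J : Ideal O} {E F : O → Prop} (hE : Per I E) (hF : Per J F) :
    Per (I ⊓ J) fun a => E a ∧ F a :=
  fun a a' ha h => ⟨hE a a' ha.1 h.1, hF a a' ha.2 h.2⟩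

theorem per_mem (I : Ideal O) : Per I fun a => a ∈ I :=
  fun a a' ha h => by simpa using I.sub_mem h ha

theorem dn_nonneg (I : Ideal O) (E : O → Prop) : 0 ≤ dn I E := by
  unfold dn
  positivity

theorem lattice_dn (I : Ideal O) (E : O → Prop) : dn I E =
    (Set.ncard {y : O ⧸ I | ∃ a, Ideal.Quotient.mk I a = y ∧ E a} : ℝ) / Nat.card (O ⧸ I) := by
  rw [dn, ← Nat.card_coe_set_eq]
  rfl

theorem lattice_per {I : Ideal O} {E : O → Prop} (h : Per I E) (a : O) :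
    (∃ a', Ideal.Quotient.mk I a' = Ideal.Quotient.mk I a ∧ E a') ↔ E a :=
  ⟨fun ⟨a', h1, h2⟩ => h a' a (Ideal.Quotient.eq.1 h1) h2, fun h1 => ⟨a, rfl, h1⟩⟩

theorem dn_le_one (I : Ideal O) (E : O → Prop) : dn I E ≤ 1 := by
  unfold dn
  rcases finite_or_infinite (O ⧸ I) with _ | _
  · exact div_le_one_of_le₀ (Nat.cast_le.2 (Finite.card_subtype_le _)) (Nat.cast_nonneg _)
  · rw [Nat.card_eq_zero_of_infinite (α := O ⧸ I), Nat.cast_zero, div_zero]
    exact zero_le_one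

theorem dn_mono (I : Ideal O) {E F : O → Prop} (h : ∀ a, E a → F a) : dn I E ≤ dn I F := by
  rw [lattice_dn, lattice_dn]
  rcases finite_or_infinite (O ⧸ I) with _ | _
  · refine div_le_div_of_nonneg_right (Nat.cast_le.2 (Set.ncard_le_ncard ?_)) (Nat.cast_nonneg _)
    exact fun y ⟨a, h1, h2⟩ => ⟨a, h1, h a h2⟩
  · rw [Nat.card_eq_zero_of_infinite (α := O ⧸ I), Nat.cast_zero, div_zero, div_zero]

theorem dn_pos (I : Ideal O) [Finite (O ⧸ I)] {E : O → Prop} {a : O} (h : E a) : 0 < dn I E := by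
  rw [lattice_dn]
  exact div_pos (Nat.cast_pos.2 ((Set.ncard_pos (Set.toFinite _)).2 ⟨_, a, rfl, h⟩))
    (Nat.cast_pos.2 Nat.card_pos)

theorem dn_or_le (I : Ideal O) (E F : O → Prop) :
    dn I (fun a => E a ∨ F a) ≤ dn I E + dn I F := by
  rw [lattice_dn, lattice_dn, lattice_dn, ← add_div, ← Nat.cast_add]
  refine div_le_div_of_nonneg_right (Nat.cast_le.2 (le_trans (le_of_eq ?_)
    (Set.ncard_union_le _ _))) (Nat.cast_nonneg _)
  congr 1
  ext y
  simp only [Set.mem_ofPred_eq, Set.mem_union, and_or_left, exists_or]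

theorem dn_not {I : Ideal O} [Finite (O ⧸ I)] {E : O → Prop} (h : Per I E) :
    dn I (fun a => ¬ E a) = 1 - dn I E := by
  rw [lattice_dn, lattice_dn, eq_sub_iff_add_eq', ← add_div, ← Nat.cast_add,
    div_eq_one_iff_eq (Nat.cast_ne_zero.2 Nat.card_pos.ne'), Nat.cast_inj,
    ← Set.ncard_add_ncard_compl {y : O ⧸ I | ∃ a, Ideal.Quotient.mk I a = y ∧ E a}]
  congr 2
  ext y
  obtain ⟨a, rfl⟩ := Ideal.Quotient.mk_surjective y
  simp only [Set.mem_ofPred_eq, Set.mem_compl_iff, lattice_per h, lattice_per h.not]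

theorem dn_mem (I : Ideal O) : dn I (fun a => a ∈ I) = 1 / Nat.card (O ⧸ I) := by
  rw [lattice_dn, show {y : O ⧸ I | ∃ a, Ideal.Quotient.mk I a = y ∧ a ∈ I} = {0} from ?_,
    Set.ncard_singleton, Nat.cast_one]
  ext y
  obtain ⟨a, rfl⟩ := Ideal.Quotient.mk_surjective y
  simp only [Set.mem_ofPred_eq, Set.mem_singleton_iff, lattice_per (per_mem I),
    Ideal.Quotient.eq_zero_iff_mem]

theorem dn_inf {I J : Ideal O} (h : IsCoprime I J) {E F : O → Prop} (hE : Per I E)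
    (hF : Per J F) : dn (I ⊓ J) (fun a => E a ∧ F a) = dn I E * dn J F := by
  let e := Ideal.quotientInfEquivQuotientProd I J h
  rw [lattice_dn, lattice_dn, lattice_dn, div_mul_div_comm, ← Nat.cast_mul, ← Nat.cast_mul,
    ← Nat.card_prod, ← Nat.card_congr e.toEquiv, ← Set.ncard_prod,
    ← Set.ncard_preimage_of_injective_subset_range (f := e) e.injective
      (by rw [e.surjective.range_eq]; exact Set.subset_univ _)]
  congr 3
  ext y
  obtain ⟨a, rfl⟩ := Ideal.Quotient.mk_surjective y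
  have h1 : (e (Ideal.Quotient.mk _ a)).1 = Ideal.Quotient.mk I a := by simp [e]
  have h2 : (e (Ideal.Quotient.mk _ a)).2 = Ideal.Quotient.mk J a := by simp [e]
  simp only [Set.mem_ofPred_eq, Set.mem_preimage, Set.mem_prod, h1, h2, lattice_per hE,
    lattice_per hF, lattice_per (hE.and hF)]

theorem lattice_preimage {A B : Type*} [AddCommGroup A] [AddCommGroup B] (f : A →+ B)
    (hf : Function.Surjective f) (s : Set B) : (f ⁻¹' s).ncard = s.ncard * Nat.card f.ker := by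
  choose g hg using hf
  rw [← Nat.card_coe_set_eq, ← Nat.card_coe_set_eq, ← Nat.card_prod]
  refine Nat.card_congr ⟨fun a => (⟨f a.1, a.2⟩, ⟨a.1 - g (f a.1), by simp [hg]⟩),
    fun p => ⟨g p.1.1 + p.2.1, by
      rw [Set.mem_preimage, map_add, hg, f.mem_ker.1 p.2.2, add_zero]; exact p.1.2⟩,
    fun a => by simp, fun p => ?_⟩
  have h : f (g p.1.1 + p.2.1) = p.1.1 := by rw [map_add, hg, f.mem_ker.1 p.2.2, add_zero]
  refine Prod.ext (Subtype.ext h) (Subtype.ext ?_)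
  simp only [h, add_sub_cancel_left]

theorem dn_eq_of_le {I J : Ideal O} [Finite (O ⧸ I)] (h : I ≤ J) {E : O → Prop} (hE : Per J E) :
    dn I E = dn J E := by
  have hf := Ideal.Quotient.factor_surjective h
  have key := lattice_preimage (Ideal.Quotient.factor h).toAddMonoidHom hf
  have h1 := key Set.univ
  rw [Set.preimage_univ, Set.ncard_univ, Set.ncard_univ] at h1
  have h2 : (Nat.card (Ideal.Quotient.factor h).toAddMonoidHom.ker : ℝ) ≠ 0 :=
    Nat.cast_ne_zero.2 Nat.card_pos.ne'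
  rw [lattice_dn, lattice_dn, ← mul_div_mul_right _ (Nat.card (O ⧸ J) : ℝ) h2, ← Nat.cast_mul,
    ← Nat.cast_mul, ← h1, ← key]
  congr 3
  ext y
  obtain ⟨a, rfl⟩ := Ideal.Quotient.mk_surjective y
  have h3 : (Ideal.Quotient.factor h).toAddMonoidHom (Ideal.Quotient.mk I a) =
    Ideal.Quotient.mk J a := rfl
  simp only [Set.mem_ofPred_eq, Set.mem_preimage, h3, lattice_per hE, lattice_per (hE.mono h)]

/-- the points with coordinates in `[s, t)` -/
noncomputable def lattice_cube (s t : ℤ) : Finset O :=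
  (Fintype.piFinset fun _ => Ico s t).map b.equivFun.symm.toEquiv.toEmbedding

theorem lattice_mem_cube {s t : ℤ} {v : O} :
    v ∈ lattice_cube b s t ↔ ∀ i, s ≤ b.repr v i ∧ b.repr v i < t := by
  simp [lattice_cube, mem_map_equiv, Fintype.mem_piFinset]

theorem lattice_card_cube (s t : ℤ) : #(lattice_cube b s t) = (t - s).toNat ^ n := by
  simp [lattice_cube, Fintype.card_piFinset]

theorem lattice_finite {I : Ideal O} {δ : ℕ} (hI : Reps b δ I) : Finite (O ⧸ I) := by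
  refine Finite.of_surjective
    (fun r : lattice_cube b (-δ) (δ + 1) => Ideal.Quotient.mk I r) fun y => ?_
  obtain ⟨a, rfl⟩ := Ideal.Quotient.mk_surjective y
  obtain ⟨r, h1, h2⟩ := hI a
  refine ⟨⟨r, (lattice_mem_cube b).2 fun i => ?_⟩, (Ideal.Quotient.eq.2 h2).symm⟩
  have := abs_le.1 (h1 i)
  omega

open Classical in
theorem lattice_class {I : Ideal O} [Fintype (O ⧸ I)] {δ : ℕ} (hI : Reps b δ I) (T : ℕ)
    (y : O ⧸ I) :
    #{a ∈ cube b T | Ideal.Quotient.mk I a = y} * Fintype.card (O ⧸ I) ≤ (T + 2 * δ) ^ n ∧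
      (T - 2 * δ) ^ n ≤ #{a ∈ cube b T | Ideal.Quotient.mk I a = y} * Fintype.card (O ⧸ I) := by
  have : ∀ z : O ⧸ I, ∃ r, Box b δ r ∧ Ideal.Quotient.mk I r = z := fun z => by
    obtain ⟨a, rfl⟩ := Ideal.Quotient.mk_surjective z
    obtain ⟨r, h1, h2⟩ := hI a
    exact ⟨r, h1, (Ideal.Quotient.eq.2 h2).symm⟩
  choose r hr hr' using this
  rw [← card_univ, ← card_product]
  constructor
  · rw [show T + 2 * δ = ((T + δ : ℤ) - -δ).toNat by omega, ← lattice_card_cube b]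
    refine card_le_card_of_injOn (fun p => p.1 + r p.2) (fun p hp => ?_) fun p hp p' hp' h => ?_
    · rw [mem_coe, mem_product, mem_filter, mem_cube] at hp
      refine mem_coe.2 ((lattice_mem_cube b).2 fun i => ?_)
      have h1 := hp.1.1 i
      have h2 := abs_le.1 (hr p.2 i)
      rw [map_add, Finsupp.add_apply]
      omega
    · rw [mem_coe, mem_product, mem_filter] at hp hp'
      have h1 := congrArg (Ideal.Quotient.mk I) h
      simp only [map_add, hp.1.2, hp'.1.2, hr', add_right_inj] at h1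
      simp only [h1, add_left_inj] at h
      exact Prod.ext h h1
  · rw [show T - 2 * δ = ((T - δ : ℤ) - δ).toNat by omega, ← lattice_card_cube b]
    refine card_le_card_of_injOn
      (fun v => (v - r (Ideal.Quotient.mk I v - y), Ideal.Quotient.mk I v - y))
      (fun v hv => ?_) fun v _ v' _ h => ?_
    · rw [mem_coe, lattice_mem_cube] at hv
      refine mem_coe.2 (mem_product.2 ⟨mem_filter.2 ⟨(mem_cube b).2 fun i => ?_, ?_⟩, mem_univ _⟩)
      · have h1 := hv i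
        have h2 := abs_le.1 (hr (Ideal.Quotient.mk I v - y) i)
        rw [map_sub, Finsupp.sub_apply]
        omega
      · rw [map_sub, hr', sub_sub_cancel]
    · obtain ⟨h1, h2⟩ := Prod.mk.inj h
      rwa [h2, sub_left_inj] at h1

theorem lattice_pow {n δ T : ℕ} (hT0 : 0 < T) (hT : 2 * n * δ ≤ T) :
    ((T + 2 * δ : ℕ) : ℝ) ^ n ≤ (T : ℝ) ^ n + 4 * n * δ / T * (T : ℝ) ^ n ∧
      (T : ℝ) ^ n - 2 * n * δ / T * (T : ℝ) ^ n ≤ ((T - 2 * δ : ℕ) : ℝ) ^ n := by
  have hT' : (0 : ℝ) < T := Nat.cast_pos.2 hT0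
  rcases Nat.eq_zero_or_pos n with rfl | hn
  · simp
  have h1 : 2 * δ ≤ T := by nlinarith
  have h2 : (n : ℝ) * (2 * δ / T) ≤ 1 := by
    rw [← mul_div_assoc, div_le_one hT']
    exact_mod_cast (by linarith : n * (2 * δ) ≤ T)
  have h3 : (0 : ℝ) ≤ 2 * δ / T := by positivity
  constructor
  · have h4 : ((T + 2 * δ : ℕ) : ℝ) = (2 * δ / T + 1) * T := by
      push_cast
      field_simp
      ring
    have h5 := (abs_le.1 (Real.abs_exp_sub_one_le (x := n * (2 * δ / T))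
      (by rwa [abs_of_nonneg (by positivity)]))).2
    rw [abs_of_nonneg (by positivity), Real.exp_nat_mul] at h5
    have h6 := pow_le_pow_left₀ (by positivity) (Real.add_one_le_exp (2 * δ / T : ℝ)) n
    rw [h4, mul_pow, ← one_add_mul]
    refine mul_le_mul_of_nonneg_right ?_ (by positivity)
    have h7 : 4 * n * δ / T = 2 * ((n : ℝ) * (2 * δ / T)) := by ring
    linarith
  · have h4 : ((T - 2 * δ : ℕ) : ℝ) = (1 + -(2 * δ / T)) * T := by
      rw [Nat.cast_sub h1]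
      push_cast
      field_simp
      ring
    have h5 : (2 * δ / T : ℝ) ≤ 1 := by
      rw [div_le_one hT']
      exact_mod_cast h1
    have h6 := one_add_mul_le_pow (show (-2 : ℝ) ≤ -(2 * δ / T) by linarith) n
    rw [h4, mul_pow, ← one_sub_mul]
    refine mul_le_mul_of_nonneg_right (le_trans (le_of_eq ?_) h6) (by positivity)
    ring

theorem count_approx {I : Ideal O} {E : O → Prop} (hE : Per I E) {δ T : ℕ} (hI : Reps b δ I)
    (hT0 : 0 < T) (hT : 2 * n * δ ≤ T) (S : Finset O) (hS : ∀ a, a ∈ S ↔ a ∈ cube b T ∧ E a) :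
    |(#S : ℝ) - (T : ℝ) ^ n * dn I E| ≤ 4 * n * δ / T * ((T : ℝ) ^ n * dn I E) := by
  classical
  have := lattice_finite b hI
  have := Fintype.ofFinite (O ⧸ I)
  have hT' : (0 : ℝ) < T := Nat.cast_pos.2 hT0
  have hN : (0 : ℝ) < Fintype.card (O ⧸ I) := Nat.cast_pos.2 Fintype.card_pos
  have hdn : dn I E = #{y : O ⧸ I | ∃ a, Ideal.Quotient.mk I a = y ∧ E a} /
      Fintype.card (O ⧸ I) := by
    rw [dn, Nat.card_eq_fintype_card, Nat.card_eq_fintype_card, Fintype.card_subtype]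
  have h1 : #S = ∑ y ∈ {y : O ⧸ I | ∃ a, Ideal.Quotient.mk I a = y ∧ E a},
      #{a ∈ cube b T | Ideal.Quotient.mk I a = y} := by
    rw [card_eq_sum_card_fiberwise (f := Ideal.Quotient.mk I)
      (t := {y : O ⧸ I | ∃ a, Ideal.Quotient.mk I a = y ∧ E a}) fun a ha => ?_]
    · refine sum_congr rfl fun y hy => ?_
      obtain ⟨a₀, rfl, h0⟩ := (mem_filter.1 hy).2
      congr 1
      ext a
      rw [mem_filter, mem_filter, hS]
      exact ⟨fun h => ⟨h.1.1, h.2⟩,
        fun h => ⟨⟨h.1, hE a₀ a (Ideal.Quotient.eq.1 h.2.symm) h0⟩, h.2⟩⟩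
    · exact mem_coe.2 (mem_filter.2 ⟨mem_univ _, a, rfl, ((hS a).1 ha).2⟩)
  have h2 : ∀ y : O ⧸ I, |(#{a ∈ cube b T | Ideal.Quotient.mk I a = y} : ℝ) -
      (T : ℝ) ^ n / Fintype.card (O ⧸ I)| ≤
        4 * n * δ / T * ((T : ℝ) ^ n / Fintype.card (O ⧸ I)) := fun y => by
    obtain ⟨h3, h4⟩ := lattice_class b hI T y
    obtain ⟨h5, h6⟩ := lattice_pow hT0 hT
    have h3' := (Nat.cast_le (α := ℝ)).2 h3
    have h4' := (Nat.cast_le (α := ℝ)).2 h4
    rw [Nat.cast_mul, Nat.cast_pow] at h3' h4'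
    have h7 : 0 ≤ 2 * n * δ / T * (T : ℝ) ^ n := by positivity
    rw [← mul_div_assoc, sub_div' hN.ne', abs_div, abs_of_pos hN, div_le_div_iff_of_pos_right hN,
      abs_le]
    have h8 : 4 * n * δ / T * (T : ℝ) ^ n = 2 * (2 * n * δ / T * (T : ℝ) ^ n) := by ring
    constructor <;> linarith
  have h3 : ∀ x : ℝ, x * ((T : ℝ) ^ n * dn I E) =
      ∑ _y ∈ {y : O ⧸ I | ∃ a, Ideal.Quotient.mk I a = y ∧ E a},
        x * ((T : ℝ) ^ n / Fintype.card (O ⧸ I)) := fun x => by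
    rw [hdn, sum_const, nsmul_eq_mul]
    ring
  have h4 := h3 1
  simp only [one_mul] at h4
  rw [h3, h4, h1, Nat.cast_sum, ← sum_sub_distrib]
  exact (abs_sum_le_sum_abs _ _).trans (sum_le_sum fun y _ => h2 y)

theorem lattice_repr_nat (m : ℕ) (v : O) (i : Fin n) : b.repr (m * v) i = m * b.repr v i := by
  rw [← nsmul_eq_mul, map_nsmul, Finsupp.smul_apply, nsmul_eq_mul]

theorem lattice_repr_symm (f : Fin n → ℤ) (i : Fin n) : b.repr (b.equivFun.symm f) i = f i := by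
  rw [← Module.Basis.equivFun_apply, LinearEquiv.apply_symm_apply]

theorem reps_int {m : ℕ} (hm : 0 < m) : Reps b m (Ideal.span {(m : O)}) := by
  intro a
  have hm' : (0 : ℤ) < m := Nat.cast_pos.2 hm
  refine ⟨b.equivFun.symm fun i => b.repr a i % m, fun i => ?_,
    Ideal.mem_span_singleton.2 ⟨b.equivFun.symm fun i => b.repr a i / m, b.ext_elem fun i => ?_⟩⟩
  · rw [lattice_repr_symm, abs_of_nonneg (Int.emod_nonneg _ hm'.ne')]
    exact (Int.emod_lt_of_pos _ hm').le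
  · rw [map_sub, Finsupp.sub_apply, lattice_repr_nat, lattice_repr_symm, lattice_repr_symm,
      Int.emod_def, sub_sub_cancel]

include b in
theorem finite_quot {m : ℕ} (hm : 0 < m) : Finite (O ⧸ Ideal.span {(m : O)}) := by
  exact lattice_finite b (reps_int b hm)

theorem lattice_family {J : Ideal O} {E : O → Prop} (hE : Per J E) {m : ℕ}
    (hm : (m : O) ∈ J) (Q : Finset ℕ) (hQ : ∀ q ∈ Q, q.Prime ∧ q.Coprime m) (F : ℕ → O → Prop)
    (hF : ∀ q ∈ Q, Per (Ideal.span {(q : O)}) (F q)) :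
    ∃ K : Ideal O, Per K (fun a => E a ∧ ∀ q ∈ Q, F q a) ∧ ((m * ∏ q ∈ Q, q : ℕ) : O) ∈ K ∧
      dn K (fun a => E a ∧ ∀ q ∈ Q, F q a) =
        dn J E * ∏ q ∈ Q, dn (Ideal.span {(q : O)}) (F q) := by
  induction Q using Finset.induction_on with
  | empty => exact ⟨J, by simpa using hE, by simpa using hm, by simp⟩
  | insert q Q hq ih =>
    obtain ⟨K, h1, h2, h3⟩ := ih (fun r hr => hQ r (mem_insert_of_mem hr))
      fun r hr => hF r (mem_insert_of_mem hr)
    have h4 := hQ q (mem_insert_self q Q)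
    have h5 := hF q (mem_insert_self q Q)
    have h6 : (fun a => E a ∧ ∀ r ∈ insert q Q, F r a) =
        fun a => (E a ∧ ∀ r ∈ Q, F r a) ∧ F q a := by
      ext a
      rw [forall_mem_insert, and_assoc, and_comm (a := F q a)]
    have h7 : (m * ∏ r ∈ Q, r).Coprime q := h4.2.symm.mul_left (Nat.Coprime.prod_left fun r hr =>
      (Nat.coprime_primes (hQ r (mem_insert_of_mem hr)).1 h4.1).2 (by rintro rfl; exact hq hr))
    obtain ⟨u, v, h8⟩ := h7.cast (R := O)
    have h9 : IsCoprime K (Ideal.span {(q : O)}) := Ideal.isCoprime_iff_exists.2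
      ⟨_, K.mul_mem_left u h2, _, Ideal.mul_mem_left _ v (Ideal.mem_span_singleton_self _), h8⟩
    rw [h6, prod_insert hq, prod_insert hq]
    refine ⟨K ⊓ Ideal.span {(q : O)}, h1.and h5, ?_, ?_⟩
    · rw [mul_left_comm, Nat.cast_mul]
      exact ⟨K.mul_mem_left _ h2, Ideal.mul_mem_right _ _ (Ideal.mem_span_singleton_self _)⟩
    · rw [dn_inf h9 h1 h5, h3]
      ring

theorem count_family {J : Ideal O} {E : O → Prop} (hE : Per J E) {m : ℕ} (hm0 : 0 < m)
    (hm : (m : O) ∈ J) (Q : Finset ℕ) (hQ : ∀ q ∈ Q, q.Prime ∧ q.Coprime m) (F : ℕ → O → Prop)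
    (hF : ∀ q ∈ Q, Per (Ideal.span {(q : O)}) (F q)) {T : ℕ} (hT0 : 0 < T)
    (hT : 2 * n * (m * ∏ q ∈ Q, q) ≤ T) (S : Finset O)
    (hS : ∀ a, a ∈ S ↔ a ∈ cube b T ∧ E a ∧ ∀ q ∈ Q, F q a) :
    |(#S : ℝ) - (T : ℝ) ^ n * dn J E * ∏ q ∈ Q, dn (Ideal.span {(q : O)}) (F q)| ≤
      4 * n * (m * ∏ q ∈ Q, (q : ℝ)) / T * ((T : ℝ) ^ n * dn J E) := by
  obtain ⟨K, h1, h2, h3⟩ := lattice_family hE hm Q hQ F hF
  have h4 := count_approx b h1 ((reps_int b (Nat.mul_pos hm0 (prod_pos fun q hq =>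
    (hQ q hq).1.pos))).mono b ((Ideal.span_singleton_le_iff_mem K).2 h2)) hT0 hT S hS
  rw [h3, ← mul_assoc, Nat.cast_mul, Nat.cast_prod] at h4
  have h5 := dn_nonneg J E
  refine h4.trans (mul_le_mul_of_nonneg_left (mul_le_of_le_one_right (by positivity)
    (prod_le_one (fun _ _ => dn_nonneg _ _) fun _ _ => dn_le_one _ _)) (by positivity))

theorem lattice_mul_basis (hb : Small b) {δ : ℕ} {v : O} (h : Box b δ v) (j i : Fin n) :
    |b.repr (v * b j) i| ≤ n * δ := by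
  have h1 : v * b j = ∑ k, b.repr v k • (b k * b j) := by
    conv_lhs => rw [← b.sum_repr v, sum_mul]
    simp only [smul_mul_assoc]
  rw [h1, map_sum, Finsupp.finsetSum_apply]
  refine (abs_sum_le_sum_abs _ _).trans ((sum_le_card_nsmul _ _ (δ : ℤ) fun k _ => ?_).trans
    (le_of_eq ?_))
  · rw [map_smul, Finsupp.smul_apply, smul_eq_mul, abs_mul]
    exact (mul_le_of_le_one_right (abs_nonneg _) (hb k j i)).trans (h k)
  · rw [card_univ, Fintype.card_fin, nsmul_eq_mul]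

theorem box_mul (hb : Small b) {δ δ' : ℕ} {v v' : O} (h : Box b δ v) (h' : Box b δ' v') :
    Box b (n ^ 2 * δ * δ') (v * v') := by
  intro i
  have h1 : v * v' = ∑ j, b.repr v' j • (v * b j) := by
    conv_lhs => rw [← b.sum_repr v', mul_sum]
    simp only [mul_smul_comm]
  rw [h1, map_sum, Finsupp.finsetSum_apply]
  refine (abs_sum_le_sum_abs _ _).trans ((sum_le_card_nsmul _ _ ((δ' : ℤ) * (n * δ))
    fun j _ => ?_).trans (le_of_eq ?_))
  · rw [map_smul, Finsupp.smul_apply, smul_eq_mul, abs_mul]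
    exact mul_le_mul (h' j) (lattice_mul_basis b hb h j i) (abs_nonneg _) (Nat.cast_nonneg _)
  · rw [card_univ, Fintype.card_fin, nsmul_eq_mul]
    push_cast
    ring

theorem box_natCast_mul {δ : ℕ} {v : O} (h : Box b δ v) (m : ℕ) : Box b (m * δ) (m * v) := by
  intro i
  rw [lattice_repr_nat, abs_mul, Nat.abs_cast, Nat.cast_mul]
  exact mul_le_mul_of_nonneg_left (h i) (Nat.cast_nonneg _)

theorem reps_elt [IsDomain O] (hb : Small b) {β : O} (h0 : β ≠ 0) {δ : ℕ} (hβ : Box b δ β) :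
    Reps b (n ^ 2 * δ) (Ideal.span {β}) := by
  intro a
  have := Module.Finite.of_basis b
  have := Module.Free.of_basis b
  obtain ⟨N, hN, hd⟩ := (Algebra.IsAlgebraic.isAlgebraic (R := ℤ) β).exists_nonzero_dvd
    (mem_nonZeroDivisors_of_ne_zero h0)
  have hm : 0 < N.natAbs := Int.natAbs_pos.2 hN
  obtain ⟨β', hβ'⟩ : β ∣ (N.natAbs : O) := by
    have h1 := map_dvd (algebraMap ℤ O) (Int.dvd_natAbs.2 (dvd_refl N))
    rw [map_natCast] at h1
    exact hd.trans h1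
  obtain ⟨ρ, h1, h2⟩ := reps_int b hm (a * β')
  obtain ⟨γ, hγ⟩ := Ideal.mem_span_singleton.1 h2
  refine ⟨a - β * γ, fun i => ?_, Ideal.mem_span_singleton.2 ⟨γ, sub_sub_cancel _ _⟩⟩
  have h3 := box_mul b hb hβ h1 i
  have h4 : β * ρ = N.natAbs * (a - β * γ) := by
    linear_combination (-β) * hγ - a * hβ'
  rw [h4, lattice_repr_nat, abs_mul, Nat.abs_cast, Nat.cast_mul, mul_comm] at h3
  exact le_of_mul_le_mul_right h3 (Nat.cast_pos.2 hm)

theorem exists_short {p : ℕ} [NeZero p] (φ : O →+* ZMod p) {D : ℕ} (hD : p < (D + 1) ^ n) :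
    ∃ β, β ≠ 0 ∧ φ β = 0 ∧ Box b D β := by
  obtain ⟨x, hx, y, hy, h1, h2⟩ := exists_ne_map_eq_of_card_lt_of_maps_to
    (s := lattice_cube b 0 (D + 1)) (t := (univ : Finset (ZMod p))) (f := φ)
    (by rw [card_univ, ZMod.card, lattice_card_cube]; simpa using hD) fun _ _ => mem_coe.2 (mem_univ _)
  refine ⟨x - y, sub_ne_zero.2 h1, by rw [map_sub, h2, sub_self], fun i => ?_⟩
  have h3 := (lattice_mem_cube b).1 hx i
  have h4 := (lattice_mem_cube b).1 hy i
  rw [map_sub, Finsupp.sub_apply, abs_le]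
  omega

theorem abs_norm_le (hb : Small b) {T : ℕ} {a : O} (h : Box b T a) :
    |Algebra.norm ℤ a| ≤ ((n : ℤ) ^ 2 * T) ^ n := by
  rw [Algebra.norm_eq_matrix_det b]
  have h1 := Matrix.det_le (A := Algebra.leftMulMatrix b a) (abv := AbsoluteValue.abs)
    (x := (n : ℤ) * T) fun i j => by
      rw [Algebra.leftMulMatrix_eq_repr_mul]
      exact lattice_mul_basis b hb h j i
  rw [Fintype.card_fin, nsmul_eq_mul] at h1
  refine le_trans h1 ?_
  rw [sq, mul_assoc, mul_pow (n : ℤ) (n * T)]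
  exact mul_le_mul_of_nonneg_right (by exact_mod_cast Nat.factorial_le_pow n) (by positivity)

include b in
theorem norm_modEq {m : ℕ} {a a' : O} (h : (m : O) ∣ a - a') :
    (m : ℤ) ∣ Algebra.norm ℤ a - Algebra.norm ℤ a' := by
  obtain ⟨c, hc⟩ := h
  rw [← ZMod.intCast_eq_intCast_iff_dvd_sub, Algebra.norm_eq_matrix_det b,
    Algebra.norm_eq_matrix_det b]
  change Int.castRingHom (ZMod m) _ = Int.castRingHom (ZMod m) _
  rw [RingHom.map_det, RingHom.map_det]
  congr 1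
  ext i j
  simp only [RingHom.mapMatrix_apply, Matrix.map_apply, Algebra.leftMulMatrix_eq_repr_mul,
    eq_intCast]
  rw [eq_add_of_sub_eq hc, add_mul, map_add, Finsupp.add_apply, mul_assoc, lattice_repr_nat]
  simp

end Pool.Agent.MP_48b1c3_nt.H54

end

-- part MP_48b1c3_nt.H54.Cyc
section

/-! Basic facts on the integers of a prime cyclotomic field. -/

/-
HINTS.  pb = hζ.integralPowerBasis with ζ = zeta l ℚ K (integralPowerBasis_gen, integralPowerBasis_dim, Nat.totient_prime).  exists_small: b = pb.basis.reindex (finCongr ..), b i = ζ^i,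
ζ^(i+j) = ζ^((i+j) % l) is a basis vector or ζ^(l-1) = -∑_{k < l-1} ζ^k (IsPrimitiveRoot.geom_sum_eq_zero).
hom_ext: PowerBasis.algHom_ext for RingHom.toIntAlgHom.  exists_hom: pb.lift ω _ with minpoly ℤ pb.gen = cyclotomic l ℤ (cyclotomic_eq_minpoly, RingOfIntegers.minpoly_coe), IsPrimitiveRoot.isRoot_cyclotomic;
exists_primitive: a generator of (ZMod p)ˣ to the power (p-1)/l (or IsCyclic.exists_ofOrder_eq_natCard, orderOf_pow).
isPrimitiveRoot_map: (π ζ)^l = 1, and π ζ = 1 would give (l : E) = π (∑_{k<l} ζ^k) = 0; IsPrimitiveRoot of prime order (orderOf_eq_prime, IsPrimitiveRoot.orderOf).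
norm_nonneg: Algebra.coe_norm_int, Algebra.norm_eq_prod_embeddings ℚ ℂ; complex conjugation is a fixed point free involution on K →+* ℂ (IsCyclotomicExtension.Rat.isTotallyComplex), group the product by
InfinitePlace.mk (Finset.prod_fiberwise, each fibre is {φ, conjugate φ}), or use the Galois group: norm = ∏ σ a, pair σ with c σ, c = complex conjugation.
-/

namespace Pool.Agent.MP_48b1c3_nt.H54

open NumberField

variable {l : ℕ} [Fact l.Prime] {K : Type} [Field K] [NumberField K]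
  [IsCyclotomicExtension {l} ℚ K]

variable (l K) in
theorem exists_small : ∃ b : Module.Basis (Fin (l - 1)) ℤ (𝓞 K), Small b := by
  have hl : l.Prime := Fact.out
  have hζ := IsCyclotomicExtension.zeta_spec l ℚ K
  have hd : hζ.integralPowerBasis.dim = l - 1 := by
    rw [hζ.integralPowerBasis_dim, Nat.totient_prime hl]
  let b : Module.Basis (Fin (l - 1)) ℤ (𝓞 K) := hζ.integralPowerBasis.basis.reindex (finCongr hd)
  have hb : ∀ i, b i = hζ.toInteger ^ (i : ℕ) := by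
    intro i
    simp only [b, Module.Basis.reindex_apply, PowerBasis.basis_eq_pow, hζ.integralPowerBasis_gen]
    rfl
  have hz := hζ.toInteger_isPrimitiveRoot
  refine ⟨b, fun i j k => ?_⟩
  rw [hb, hb, ← pow_add, pow_eq_pow_mod _ hz.pow_eq_one]
  have hlt : ((i : ℕ) + j) % l < l := Nat.mod_lt _ hl.pos
  generalize ((i : ℕ) + j) % l = n at hlt
  by_cases hn : n < l - 1
  · have : hζ.toInteger ^ n = b ⟨n, hn⟩ := (hb ⟨n, hn⟩).symm
    rw [this, b.repr_self, Finsupp.single_apply]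
    split_ifs <;> simp
  · have h1 : n = l - 1 := by omega
    have h2 := hz.geom_sum_eq_zero hl.one_lt
    have h3 : Finset.range l = Finset.range (l - 1 + 1) := by rw [Nat.sub_add_cancel hl.one_le]
    rw [h3, Finset.sum_range_succ, Finset.sum_range] at h2
    have h4 : hζ.toInteger ^ n = - ∑ i, b i := by
      rw [h1, eq_neg_iff_add_eq_zero, add_comm]
      simpa only [hb] using h2
    rw [h4]
    simp [Finsupp.single_apply]

theorem hom_ext {ζ : K} (hζ : IsPrimitiveRoot ζ l) {E : Type*} [CommRing E] {π π' : 𝓞 K →+* E}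
    (h : π hζ.toInteger = π' hζ.toInteger) : π = π' := by
  have h1 : π.toIntAlgHom = π'.toIntAlgHom := by
    refine hζ.integralPowerBasis.algHom_ext ?_
    rw [hζ.integralPowerBasis_gen]
    exact h
  ext x
  exact DFunLike.congr_fun h1 x

theorem exists_hom {ζ : K} (hζ : IsPrimitiveRoot ζ l) {E : Type*} [Field E] {ω : E}
    (hω : IsPrimitiveRoot ω l) : ∃ π : 𝓞 K →+* E, π hζ.toInteger = ω := by
  have hl : l.Prime := Fact.out
  have h1 : Polynomial.aeval ω (minpoly ℤ hζ.integralPowerBasis.gen) = 0 := by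
    rw [hζ.integralPowerBasis_gen, ← RingOfIntegers.minpoly_coe]
    change Polynomial.aeval ω (minpoly ℤ ζ) = 0
    rw [← Polynomial.cyclotomic_eq_minpoly hζ hl.pos, Polynomial.aeval_def,
      ← Polynomial.eval_map, Polynomial.map_cyclotomic]
    exact hω.isRoot_cyclotomic hl.pos
  refine ⟨(hζ.integralPowerBasis.lift ω h1).toRingHom, ?_⟩
  rw [← hζ.integralPowerBasis_gen]
  exact hζ.integralPowerBasis.lift_gen ω h1

omit [IsCyclotomicExtension {l} ℚ K] in
theorem exists_primitive {p : ℕ} [Fact p.Prime] (h : l ∣ p - 1) :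
    ∃ ω : ZMod p, IsPrimitiveRoot ω l := by
  have h1 : l ∣ Fintype.card (ZMod p)ˣ := by rwa [ZMod.card_units]
  obtain ⟨x, hx⟩ := exists_prime_orderOf_dvd_card l h1
  exact ⟨x, IsPrimitiveRoot.coe_units_iff.2 (hx ▸ IsPrimitiveRoot.orderOf x)⟩

omit [IsCyclotomicExtension {l} ℚ K] in
theorem isPrimitiveRoot_map {ζ : K} (hζ : IsPrimitiveRoot ζ l) {E : Type*} [Field E]
    (hE : (l : E) ≠ 0) (π : 𝓞 K →+* E) : IsPrimitiveRoot (π hζ.toInteger) l := by
  have hl : l.Prime := Fact.out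
  have hz := hζ.toInteger_isPrimitiveRoot
  have h1 : π hζ.toInteger ^ l = 1 := by rw [← map_pow, hz.pow_eq_one, map_one]
  have h2 : π hζ.toInteger ≠ 1 := by
    intro h
    have h3 := congrArg π (hz.geom_sum_eq_zero hl.one_lt)
    simp only [map_sum, map_pow, h, one_pow, Finset.sum_const, Finset.card_range, nsmul_eq_mul,
      mul_one, map_zero] at h3
    exact hE h3
  have h4 := IsPrimitiveRoot.orderOf (π hζ.toInteger)
  rwa [orderOf_eq_prime h1 h2] at h4

omit [Fact l.Prime] [IsCyclotomicExtension {l} ℚ K] in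
theorem absNorm_ker {p : ℕ} [NeZero p] (φ : 𝓞 K →+* ZMod p) :
    Ideal.absNorm (RingHom.ker φ) = p := by
  rw [Ideal.absNorm_apply, Submodule.cardQuot_apply,
    Nat.card_congr (RingHom.quotientKerEquivOfSurjective (ZMod.ringHom_surjective φ)).toEquiv,
    Nat.card_zmod]

variable (l) in
include l in
theorem norm_nonneg (hl : l ≠ 2) (a : 𝓞 K) : 0 ≤ Algebra.norm ℤ a := by
  classical
  have hp : l.Prime := Fact.out
  have h2 : 2 < l := lt_of_le_of_ne hp.two_le hl.symm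
  have := IsCyclotomicExtension.Rat.isTotallyComplex (n := l) K h2
  have h1 : ((Algebra.norm ℚ (a : K) : ℚ) : ℂ) =
      ((∏ w : InfinitePlace K, Complex.normSq (w.embedding a) : ℝ) : ℂ) := by
    have h3 := Algebra.norm_eq_prod_embeddings ℚ ℂ (a : K)
    rw [eq_ratCast] at h3
    rw [h3, ← Fintype.prod_equiv (RingHom.equivRatAlgHom K ℂ) (fun f => f (a : K))
      (fun φ => φ (a : K)) fun _ => by simp [RingHom.equivRatAlgHom_apply],
      ← Finset.prod_fiberwise Finset.univ InfinitePlace.mk (fun φ => φ (a : K)),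
      Complex.ofReal_prod]
    refine Finset.prod_congr rfl fun w _ => ?_
    have hw : ComplexEmbedding.conjugate w.embedding ≠ w.embedding := by
      rw [Ne, ← ComplexEmbedding.isReal_iff, ← InfinitePlace.isReal_iff,
        InfinitePlace.not_isReal_iff_isComplex]
      exact IsTotallyComplex.isComplex w
    have hs : (Finset.univ.filter fun φ : K →+* ℂ => InfinitePlace.mk φ = w) =
        {w.embedding, ComplexEmbedding.conjugate w.embedding} := by
      ext φ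
      simp only [Finset.mem_filter, Finset.mem_univ, true_and, Finset.mem_insert,
        Finset.mem_singleton]
      constructor
      · intro h
        rw [← w.mk_embedding, InfinitePlace.mk_eq_iff] at h
        rcases h with h | h
        · exact Or.inl h
        · right
          rw [← h]
          exact (star_star φ).symm
      · rintro (rfl | rfl)
        · exact w.mk_embedding
        · rw [InfinitePlace.mk_conjugate_eq, w.mk_embedding]
    rw [hs, Finset.prod_pair hw.symm, ComplexEmbedding.conjugate_coe_eq, Complex.mul_conj]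
  rw [← Algebra.coe_norm_int] at h1
  have h4 : ((Algebra.norm ℤ a : ℤ) : ℝ) =
      ∏ w : InfinitePlace K, Complex.normSq (w.embedding a) := by
    exact_mod_cast h1
  have h5 : (0 : ℝ) ≤ (Algebra.norm ℤ a : ℤ) := by
    rw [h4]
    exact Finset.prod_nonneg fun w _ => Complex.normSq_nonneg _
  exact_mod_cast h5

variable (l) in
include l in
theorem absNorm_natCast (m : ℕ) : Ideal.absNorm (Ideal.span {(m : 𝓞 K)}) = m ^ (l - 1) := by
  have hp : l.Prime := Fact.out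
  rw [Ideal.absNorm_span_natCast, RingOfIntegers.rank, IsCyclotomicExtension.Rat.finrank l K,
    Nat.totient_prime hp]

end Pool.Agent.MP_48b1c3_nt.H54

end

-- part MP_48b1c3_nt.H54.Stick
section

/-! Stickelberger's factorisation of the Gauss sum of a prime of degree one. -/

namespace Pool.Agent.MP_48b1c3_nt.H54

open NumberField Finset

section General

variable {l : ℕ} [hl : Fact l.Prime] {p : ℕ} [hp' : Fact p.Prime] {O : Type*} [CommRing O]

theorem stick_pow_inj {F : Type*} [CommRing F] {z : O} (hz : z ^ l = 1) {ρ : O →+* F}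
    (hρ : IsPrimitiveRoot (ρ z) l) {j k : ℕ} (h : ρ z ^ j = ρ z ^ k) : z ^ j = z ^ k := by
  have h1 := (hρ.isOfFinOrder hl.out.ne_zero).pow_eq_pow_iff_modEq.1 h
  rw [← hρ.eq_orderOf] at h1
  rw [pow_eq_pow_mod j hz, pow_eq_pow_mod k hz, h1]

theorem stick_div_pos (hp : l ∣ p - 1) : 0 < (p - 1) / l :=
  Nat.div_pos (Nat.le_of_dvd (Nat.sub_pos_of_lt hp'.out.one_lt) hp) hl.out.pos

omit hl in
theorem stick_pow_pow (hp : l ∣ p - 1) {x : ZMod p} (hx : x ≠ 0) :
    (x ^ ((p - 1) / l)) ^ l = 1 := by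
  rw [← pow_mul, Nat.div_mul_cancel hp]
  exact ZMod.pow_card_sub_one_eq_one hx

theorem stick_exists_chi {z : O} (hz : z ^ l = 1) (hp : l ∣ p - 1) {φ : O →+* ZMod p}
    (hφ : IsPrimitiveRoot (φ z) l) :
    ∃ χ : MulChar (ZMod p) O, χ ^ l = 1 ∧ ∀ x, φ (χ x) = x ^ ((p - 1) / l) := by
  obtain ⟨g, hg⟩ := IsCyclic.exists_generator (α := (ZMod p)ˣ)
  obtain ⟨k, -, hk⟩ := hφ.eq_pow_of_pow_eq_one (stick_pow_pow hp g.ne_zero)
  obtain ⟨u, rfl⟩ := IsUnit.of_pow_eq_one hz hl.out.ne_zero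
  have hu1 : ((u : O) ^ k) ^ l = 1 := by rw [pow_right_comm, hz, one_pow]
  have hu : u ^ k ∈ rootsOfUnity (Fintype.card (ZMod p)ˣ) O := by
    obtain ⟨m, hm⟩ := hp
    rw [mem_rootsOfUnity', ZMod.card_units, hm, pow_mul, Units.val_pow_eq_pow_val, hu1, one_pow]
  refine ⟨MulChar.ofRootOfUnity hu hg, ?_, fun x => ?_⟩
  · rw [MulChar.eq_iff hg, MulChar.pow_apply_coe, MulChar.ofRootOfUnity_spec,
      MulChar.one_apply_coe, Units.val_pow_eq_pow_val, hu1]
  · rcases eq_or_ne x 0 with rfl | hx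
    · rw [MulChar.map_zero, map_zero, zero_pow (stick_div_pos hp).ne']
    · obtain ⟨j, hj⟩ := mem_powers_iff_mem_zpowers.2 (hg (Units.mk0 x hx))
      have hj' : x = (g : ZMod p) ^ j := by
        rw [← Units.val_pow_eq_pow_val]
        exact (congrArg Units.val hj).symm
      rw [hj', map_pow, MulChar.ofRootOfUnity_spec, map_pow, Units.val_pow_eq_pow_val, map_pow, hk,
        pow_right_comm]

theorem stick_order [IsDomain O] {z : O} (hz : IsPrimitiveRoot z l) (hp : l ∣ p - 1)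
    {φ : O →+* ZMod p} {χ : MulChar (ZMod p) O} (hχ : χ ^ l = 1)
    (hφ : ∀ x, φ (χ x) = x ^ ((p - 1) / l)) {F : Type*} [CommRing F] {ρ : O →+* F}
    (hρ : IsPrimitiveRoot (ρ z) l) : orderOf (χ.ringHomComp ρ) = l := by
  refine orderOf_eq_prime (by rw [MulChar.ringHomComp_pow, hχ, MulChar.ringHomComp_one])
    fun h => ?_
  have h1 : ∀ x : (ZMod p)ˣ, x ^ ((p - 1) / l) = 1 := fun x => by
    obtain ⟨k, -, hk⟩ := MulChar.exists_apply_eq_pow hχ hz x.ne_zero
    have h1 : ρ (χ x) = 1 := by rw [← MulChar.ringHomComp_apply, h, MulChar.one_apply_coe]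
    rw [hk, map_pow, ← pow_zero (ρ z)] at h1
    ext
    rw [Units.val_pow_eq_pow_val, ← hφ, hk, stick_pow_inj hz.pow_eq_one hρ h1, pow_zero, map_one,
      Units.val_one]
  rw [FiniteField.forall_pow_eq_one_iff, ZMod.card] at h1
  exact absurd (Nat.le_of_dvd (stick_div_pos hp) h1)
    (not_le.2 (Nat.div_lt_self (Nat.sub_pos_of_lt hp'.out.one_lt) hl.out.one_lt))

theorem stick_sum_zero (b : ℕ) : ∀ a : ℕ, a + b < p - 1 →
    ∑ x : ZMod p, x ^ a * (1 - x) ^ b = 0 := by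
  induction b with
  | zero =>
    intro a h
    simp only [pow_zero, mul_one]
    exact FiniteField.sum_pow_lt_card_sub_one _ a (by rwa [ZMod.card])
  | succ b ih =>
    intro a h
    have e : ∀ x : ZMod p, x ^ a * (1 - x) ^ (b + 1) =
        x ^ a * (1 - x) ^ b - x ^ (a + 1) * (1 - x) ^ b := fun x => by ring
    simp only [e]
    rw [sum_sub_distrib, ih a (by omega), ih (a + 1) (by omega), sub_zero]

theorem stick_jacobi_zero (hp : l ∣ p - 1) {φ' : O →+* ZMod p} {χ : MulChar (ZMod p) O} {t : ℕ}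
    (hφ : ∀ x, x ≠ 0 → φ' (χ x) = (x ^ ((p - 1) / l)) ^ t) {a b : ℕ} (ha : ¬ l ∣ t * a)
    (hb : ¬ l ∣ t * b) (h : t * a % l + t * b % l < l) :
    φ' (jacobiSum (χ ^ a) (χ ^ b)) = 0 := by
  have key : ∀ c : ℕ, ¬ l ∣ t * c → ∀ x, φ' ((χ ^ c) x) = x ^ ((p - 1) / l * (t * c % l)) := by
    intro c hc x
    rcases eq_or_ne x 0 with rfl | hx
    · rw [MulChar.map_zero, map_zero, zero_pow]
      exact Nat.mul_ne_zero (stick_div_pos hp).ne' fun h0 => hc (Nat.dvd_of_mod_eq_zero h0)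
    · rw [MulChar.pow_apply' _ (by rintro rfl; simp at hc), map_pow, hφ x hx, ← pow_mul,
        pow_eq_pow_mod _ (stick_pow_pow hp hx), ← pow_mul]
  simp only [jacobiSum, map_sum, map_mul, key a ha, key b hb]
  refine stick_sum_zero _ _ ?_
  rw [← mul_add]
  exact (Nat.mul_lt_mul_of_pos_left h (stick_div_pos hp)).trans_eq (Nat.div_mul_cancel hp)

theorem stick_neg_mod {c : ℕ} (hc : ¬ l ∣ c) : c * (l - 1) % l + c % l = l := by
  have h0 := hl.out.pos
  have h1 : l ∣ c * (l - 1) % l + c % l := by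
    rw [Nat.dvd_iff_mod_eq_zero, ← Nat.add_mod, ← Nat.mul_succ, Nat.succ_eq_add_one,
      Nat.sub_add_cancel h0, Nat.mul_mod_left]
  have h2 := Nat.mod_lt (c * (l - 1)) h0
  have h3 := Nat.mod_lt c h0
  have h4 : c % l ≠ 0 := fun h => hc (Nat.dvd_of_mod_eq_zero h)
  exact (Nat.eq_of_dvd_of_lt_two_mul (by omega) h1 (by omega))

theorem stick_not_dvd {a b : ℕ} (ha : 0 < a) (ha' : a < l) (hb : 0 < b) (hb' : b < l) :
    ¬ l ∣ a * b := fun h =>
  (hl.out.dvd_mul.1 h).elim (Nat.not_dvd_of_pos_of_lt ha ha') (Nat.not_dvd_of_pos_of_lt hb hb')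

theorem stick_count {t : ℕ} (h0 : 0 < t) (h1 : t < l) :
    #((Ico 1 (l - 1)).filter fun i => t + t * i % l < l) + 1 = l - t := by
  have hc : Nat.Coprime l t := (Nat.coprime_of_lt_prime h0.ne' h1 hl.out)
  have : #((Ico 1 (l - 1)).filter fun i => t + t * i % l < l) = #(Ico 1 (l - t)) := by
    refine card_bij (fun i _ => t * i % l) (fun i hi => ?_) (fun i hi i' hi' h => ?_) fun r hr => ?_
    · obtain ⟨h2, h3⟩ := mem_filter.1 hi
      obtain ⟨h4, h5⟩ := mem_Ico.1 h2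
      have h6 : t * i % l ≠ 0 := fun h =>
        stick_not_dvd h0 h1 h4 (by omega) (Nat.dvd_of_mod_eq_zero h)
      exact mem_Ico.2 ⟨by omega, by omega⟩
    · have h2 := (mem_Ico.1 (mem_filter.1 hi).1).2
      have h3 := (mem_Ico.1 (mem_filter.1 hi').1).2
      exact Nat.ModEq.eq_of_lt_of_lt (Nat.ModEq.cancel_left_of_coprime hc h) (by omega) (by omega)
    · obtain ⟨h2, h3⟩ := mem_Ico.1 hr
      have ht : (t : ZMod l) ≠ 0 := by
        rw [Ne, ZMod.natCast_eq_zero_iff]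
        exact Nat.not_dvd_of_pos_of_lt h0 h1
      have h4 : t * ((t : ZMod l)⁻¹ * (r : ZMod l)).val % l = r := by
        rw [← ZMod.val_natCast, Nat.cast_mul, ZMod.natCast_zmod_val, mul_inv_cancel_left₀ ht,
          ZMod.val_cast_of_lt (by omega)]
      have h5 := ZMod.val_lt ((t : ZMod l)⁻¹ * (r : ZMod l))
      generalize ((t : ZMod l)⁻¹ * (r : ZMod l)).val = i at h4 h5
      have h6 : i ≠ 0 := by
        rintro rfl
        simp at h4
        omega
      have h7 : i ≠ l - 1 := by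
        rintro rfl
        have := stick_neg_mod (Nat.not_dvd_of_pos_of_lt h0 h1)
        rw [Nat.mod_eq_of_lt h1] at this
        omega
      exact ⟨i, mem_filter.2 ⟨mem_Ico.2 ⟨by omega, by omega⟩, by omega⟩, h4⟩
  rw [this, Nat.card_Ico]
  omega

theorem stick_frob {F : Type*} [Field F] (q : ℕ) [Fact q.Prime] [CharP F q]
    (χ : MulChar (ZMod p) F) (ψ : AddChar (ZMod p) F) (n : ℕ) :
    gaussSum χ ψ ^ q ^ n = gaussSum (χ ^ q ^ n) (ψ ^ q ^ n) := by
  induction n with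
  | zero => simp
  | succ n ih => rw [pow_succ, pow_mul, ih, gaussSum_frob, ← pow_mul, ← pow_mul]

theorem stick_frobenius [IsDomain O] {z : O} (hz : IsPrimitiveRoot z l) (hp : l ∣ p - 1)
    {φ : O →+* ZMod p} (hφz : IsPrimitiveRoot (φ z) l) {χ : MulChar (ZMod p) O} (hχ : χ ^ l = 1)
    (hφ : ∀ x, φ (χ x) = x ^ ((p - 1) / l)) (E : Type) [Field E] [Fintype E] (π : O →+* E)
    (hE : (p : E) ≠ 0) (hπ : IsPrimitiveRoot (π z) l) (k : ℕ)
    (hk : (Fintype.card E : ZMod p) ^ ((p - 1) / l) = φ z ^ k) :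
    π (χ (-1) * p * ∏ i ∈ Ico 1 (l - 1), jacobiSum χ (χ ^ i)) ^ ((Fintype.card E - 1) / l) *
      π z ^ k = 1 := by
  obtain ⟨n, hq, hc⟩ := FiniteField.card E (ringChar E)
  have hch : ringChar E ≠ ringChar (ZMod p) := by
    rw [ZMod.ringChar_zmod_n]
    intro h
    exact hE (h ▸ ringChar.Nat.cast_ringChar)
  let ψ := AddChar.FiniteField.primitiveChar (ZMod p) E hch
  let E' := CyclotomicField ψ.n E
  have hinj := (algebraMap E E').injective
  have : Fact (ringChar E).Prime := ⟨hq⟩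
  have : CharP E' (ringChar E) := charP_of_injective_algebraMap hinj _
  set ρ : O →+* E' := (algebraMap E E').comp π with hρ
  have hρz : IsPrimitiveRoot (ρ z) l := hπ.map_of_injective hinj
  have hord := stick_order hz hp hχ hφ hρz
  set χ' := χ.ringHomComp ρ with hχ'
  have hne : χ' ≠ 1 := fun h => hl.out.ne_one (by rw [← hord, h, orderOf_one])
  have hG := gaussSum_pow_eq_prod_jacobiSum (χ := χ') (by rw [hord]; exact hl.out.two_le) ψ.prim
  have hG0 : gaussSum χ' ψ.char ≠ 0 := by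
    refine gaussSum_ne_zero_of_nontrivial ?_ hne ψ.prim
    rw [ZMod.card, ← map_natCast (algebraMap E E')]
    exact (map_ne_zero_iff _ hinj).2 hE
  have hdvd : l ∣ Fintype.card E - 1 :=
    (hπ.pow_eq_one_iff_dvd _).1
      (FiniteField.pow_card_sub_one_eq_one _ (hπ.ne_zero hl.out.ne_zero))
  have hc1 : Fintype.card E - 1 + 1 = Fintype.card E := Nat.sub_add_cancel Fintype.card_pos
  have hpow : χ' ^ Fintype.card E = χ' := by
    rw [← hc1, pow_succ, orderOf_dvd_iff_pow_eq_one.1 (hord ▸ hdvd), one_mul]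
  have hu : (Fintype.card E : ZMod p) ≠ 0 := by
    intro h
    rw [h, zero_pow (stick_div_pos hp).ne'] at hk
    exact pow_ne_zero k (hφz.ne_zero hl.out.ne_zero) hk.symm
  have hval : χ (Fintype.card E) = z ^ k := by
    obtain ⟨j, -, hj⟩ := MulChar.exists_apply_eq_pow hχ hz hu
    rw [hj]
    exact stick_pow_inj hz.pow_eq_one hφz (by rw [← hk, ← hφ, hj, map_pow])
  have hF := stick_frob (ringChar E) χ' ψ.char n
  rw [← hc, hpow, AddChar.pow_mulShift] at hF
  have hS := gaussSum_mulShift χ' ψ.char (Units.mk0 _ hu)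
  rw [Units.val_mk0, ← hF, hχ', MulChar.ringHomComp_apply, hval, ← hχ', ← hc1, pow_succ,
    ← mul_assoc, mul_eq_right₀ hG0, ← Nat.mul_div_cancel' hdvd, pow_mul] at hS
  apply hinj
  rw [map_mul, map_pow, map_one, ← hS, mul_comm, ← map_pow π]
  congr 2
  rw [hord, ZMod.card] at hG
  rw [hG]
  change ρ _ = _
  simp only [map_mul, map_prod, map_natCast, ← jacobiSum_ringHomComp, ← MulChar.ringHomComp_pow]
  rfl

end General

variable {l : ℕ} [Fact l.Prime] {K : Type} [Field K] [NumberField K]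
  [IsCyclotomicExtension {l} ℚ K]

variable (l) in
/-- the exponent `t` with `σ ζ = ζ ^ t` and `0 < t < l` -/
noncomputable def tg (σ : K ≃ₐ[ℚ] K) : ℕ :=
  (IsCyclotomicExtension.Rat.galEquivZMod l K σ).val.val

theorem stick_tg_pos (σ : K ≃ₐ[ℚ] K) : 0 < tg l σ :=
  ZMod.val_pos.2 (Units.ne_zero _)

theorem stick_tg_lt (σ : K ≃ₐ[ℚ] K) : tg l σ < l := ZMod.val_lt _

theorem stick_tg_inj {σ τ : K ≃ₐ[ℚ] K} (h : tg l σ = tg l τ) : σ = τ :=
  (IsCyclotomicExtension.Rat.galEquivZMod l K).injective (Units.ext (ZMod.val_injective l h))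

theorem stick_comp_apply {E : Type*} [CommRing E] (φ : 𝓞 K →+* E) (σ : K ≃ₐ[ℚ] K) {x : 𝓞 K}
    (hx : x ^ l = 1) :
    φ.comp (MulSemiringAction.toRingHom (K ≃ₐ[ℚ] K) (𝓞 K) σ) x = φ x ^ tg l σ := by
  rw [RingHom.comp_apply, MulSemiringAction.toRingHom_apply,
    IsCyclotomicExtension.Rat.galEquivZMod_smul_of_pow_eq l K σ hx, map_pow, tg]

theorem stick_span_eq {ζ : K} (hζ : IsPrimitiveRoot ζ l) {p : ℕ} [Fact p.Prime]
    {φ : 𝓞 K →+* ZMod p} (hφ : IsPrimitiveRoot (φ hζ.toInteger) l) {J J' : 𝓞 K}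
    (hJ : J * J' = p) (S : (K ≃ₐ[ℚ] K) → Prop) [DecidablePred S]
    (h1 : ∀ σ, S σ → φ.comp (MulSemiringAction.toRingHom (K ≃ₐ[ℚ] K) (𝓞 K) σ) J = 0)
    (h2 : ∀ σ, ¬ S σ → φ.comp (MulSemiringAction.toRingHom (K ≃ₐ[ℚ] K) (𝓞 K) σ) J' = 0) :
    Ideal.span {J} = ∏ σ ∈ univ.filter S,
      RingHom.ker (φ.comp (MulSemiringAction.toRingHom (K ≃ₐ[ℚ] K) (𝓞 K) σ)) := by
  set P : (K ≃ₐ[ℚ] K) → Ideal (𝓞 K) :=
    fun σ => RingHom.ker (φ.comp (MulSemiringAction.toRingHom (K ≃ₐ[ℚ] K) (𝓞 K) σ)) with hP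
  have hz := hζ.toInteger_isPrimitiveRoot.pow_eq_one
  have hmax : ∀ σ, (P σ).IsMaximal := fun σ =>
    RingHom.ker_isMaximal_of_surjective _ (ZMod.ringHom_surjective _)
  have hcop : ∀ σ τ, σ ≠ τ → IsCoprime (P σ) (P τ) := fun σ τ hne => by
    refine Ideal.isCoprime_iff_sup_eq.2 ((hmax σ).coprime_of_ne (hmax τ) fun h => hne ?_)
    have e := DFunLike.congr_fun (ZMod.ringHom_eq_of_ker_eq _ _ h) hζ.toInteger
    rw [stick_comp_apply φ σ hz, stick_comp_apply φ τ hz] at e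
    exact stick_tg_inj (hφ.pow_inj (stick_tg_lt σ) (stick_tg_lt τ) e)
  have hdvd : ∀ (T : Finset (K ≃ₐ[ℚ] K)) (y : 𝓞 K), (∀ σ ∈ T, y ∈ P σ) →
      ∏ σ ∈ T, P σ ∣ Ideal.span {y} := fun T y hy =>
    prod_dvd_of_coprime (fun σ _ τ _ hne => hcop σ τ hne) fun σ hσ =>
      Ideal.dvd_iff_le.2 ((Ideal.span_singleton_le_iff_mem _).2 (hy σ hσ))
  obtain ⟨X, hX⟩ := hdvd (univ.filter S) J fun σ hσ => h1 σ (mem_filter.1 hσ).2
  obtain ⟨Y, hY⟩ := hdvd (univ.filter fun σ => ¬ S σ) J' fun σ hσ => h2 σ (mem_filter.1 hσ).2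
  have hcard : Fintype.card (K ≃ₐ[ℚ] K) = l - 1 := by
    rw [← ZMod.card_units l]
    exact Fintype.card_congr (IsCyclotomicExtension.Rat.galEquivZMod l K).toEquiv
  have hall : Ideal.absNorm (∏ σ, P σ) = p ^ (l - 1) := by
    rw [map_prod, prod_congr rfl fun σ _ => absNorm_ker _, prod_const, card_univ, hcard]
  have hn := absNorm_natCast (K := K) l p
  rw [← hJ, ← Ideal.span_singleton_mul_span_singleton, hX, hY, mul_mul_mul_comm,
    prod_filter_mul_prod_filter_not, map_mul, hall, map_mul,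
    mul_eq_left₀ (pow_ne_zero _ (NeZero.ne p))] at hn
  rw [hX, Ideal.absNorm_eq_one_iff.1 (Nat.eq_one_of_mul_eq_one_right hn), Ideal.mul_top]

theorem stickelberger {ζ : K} (hζ : IsPrimitiveRoot ζ l) (hl : l ≠ 2) {p : ℕ} [Fact p.Prime]
    (hp : l ∣ p - 1) (φ : 𝓞 K →+* ZMod p) : ∃ Φ : 𝓞 K,
      Ideal.span {Φ} = ∏ σ : K ≃ₐ[ℚ] K,
        RingHom.ker (φ.comp (MulSemiringAction.toRingHom (K ≃ₐ[ℚ] K) (𝓞 K) σ)) ^ (l - tg l σ) ∧
      (∀ ι : K →+* ℂ, ‖ι Φ‖ ^ 2 = (p : ℝ) ^ l) ∧ (hζ.toInteger - 1) ^ 2 ∣ Φ ^ 2 - 1 ∧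
      ∀ (E : Type) [Field E] [Fintype E] (π : 𝓞 K →+* E), (p : E) ≠ 0 → (l : E) ≠ 0 →
        ∀ k : ℕ, (Fintype.card E : ZMod p) ^ ((p - 1) / l) = φ hζ.toInteger ^ k →
          π Φ ^ ((Fintype.card E - 1) / l) * π hζ.toInteger ^ k = 1 := by
  have hlp : l.Prime := Fact.out
  have hpp : p.Prime := Fact.out
  have hl2 : 2 < l := lt_of_le_of_ne hlp.two_le hl.symm
  have hz := hζ.toInteger_isPrimitiveRoot
  have hφz : IsPrimitiveRoot (φ hζ.toInteger) l := by
    refine isPrimitiveRoot_map hζ ?_ φ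
    rw [Ne, ZMod.natCast_eq_zero_iff]
    have := Nat.le_of_dvd (Nat.sub_pos_of_lt hpp.one_lt) hp
    have := hpp.pos
    exact Nat.not_dvd_of_pos_of_lt hlp.pos (by omega)
  obtain ⟨χ, hχ, hφ⟩ := stick_exists_chi hz.pow_eq_one hp hφz
  have hneg : χ (-1) ^ 2 = 1 := by rw [← map_pow, neg_one_sq, map_one]
  have hinv : ∀ i : ℕ, (χ ^ i)⁻¹ = χ ^ (i * (l - 1)) := fun i => by
    refine inv_eq_of_mul_eq_one_right ?_
    rw [← pow_add, add_comm, ← Nat.mul_succ, Nat.succ_eq_add_one, Nat.sub_add_cancel hlp.pos,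
      pow_mul', hχ, one_pow]
  have hJ : ∀ i ∈ Ico 1 (l - 1), jacobiSum χ (χ ^ i) * jacobiSum χ⁻¹ (χ ^ i)⁻¹ = p := by
    intro i hi
    obtain ⟨h1, h2⟩ := mem_Ico.1 hi
    have hord := stick_order hz hp hχ hφ (ρ := algebraMap (𝓞 K) K) hζ
    apply FaithfulSMul.algebraMap_injective (𝓞 K) K
    rw [map_mul, map_natCast, ← jacobiSum_ringHomComp, ← jacobiSum_ringHomComp,
      ← MulChar.ringHomComp_inv, ← MulChar.ringHomComp_inv, ← MulChar.ringHomComp_pow,
      jacobiSum_mul_jacobiSum_inv, ZMod.card]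
    · rw [ringChar.eq_zero, ZMod.ringChar_zmod_n]
      exact hpp.ne_zero.symm
    · exact fun h => hlp.ne_one (by rw [← hord, h, orderOf_one])
    · exact pow_ne_one_of_lt_orderOf (by omega) (by omega)
    · rw [← pow_succ']
      exact pow_ne_one_of_lt_orderOf (by omega) (by omega)
  refine ⟨χ (-1) * p * ∏ i ∈ Ico 1 (l - 1), jacobiSum χ (χ ^ i), ?_, fun ι => ?_, ?_,
    fun E _ _ π h1 h2 k hk =>
      stick_frobenius hz hp hφz hχ hφ E π h1 (isPrimitiveRoot_map hζ h2 π) k hk⟩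
  · have hval : ∀ (σ : K ≃ₐ[ℚ] K) (x : ZMod p), x ≠ 0 →
        φ.comp (MulSemiringAction.toRingHom (K ≃ₐ[ℚ] K) (𝓞 K) σ) (χ x) =
          (x ^ ((p - 1) / l)) ^ tg l σ := fun σ x hx => by
      rw [stick_comp_apply (l := l) φ σ, hφ]
      rw [← MulChar.pow_apply' _ hlp.ne_zero, hχ, MulChar.one_apply hx.isUnit]
    have hspan : ∀ i ∈ Ico 1 (l - 1), Ideal.span {jacobiSum χ (χ ^ i)} =
        ∏ σ ∈ univ.filter fun σ : K ≃ₐ[ℚ] K => tg l σ + tg l σ * i % l < l,
          RingHom.ker (φ.comp (MulSemiringAction.toRingHom (K ≃ₐ[ℚ] K) (𝓞 K) σ)) := by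
      intro i hi
      obtain ⟨h1, h2⟩ := mem_Ico.1 hi
      have hti : ∀ σ : K ≃ₐ[ℚ] K, ¬ l ∣ tg l σ * i := fun σ =>
        stick_not_dvd (stick_tg_pos σ) (stick_tg_lt σ) h1 (by omega)
      have ht : ∀ σ : K ≃ₐ[ℚ] K, ¬ l ∣ tg l σ := fun σ =>
        Nat.not_dvd_of_pos_of_lt (stick_tg_pos σ) (stick_tg_lt σ)
      refine stick_span_eq hζ hφz (hJ i hi) _ (fun σ h => ?_) fun σ h => ?_
      · have := stick_jacobi_zero hp (hval σ) (a := 1) (b := i) (by rw [mul_one]; exact ht σ)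
          (hti σ) (by rwa [mul_one, Nat.mod_eq_of_lt (stick_tg_lt σ)])
        rwa [pow_one] at this
      · have e1 := stick_neg_mod (ht σ)
        have e2 := stick_neg_mod (hti σ)
        have e3 : tg l σ + tg l σ * i % l ≠ l := fun e => by
          refine stick_not_dvd (l := l) (stick_tg_pos σ) (stick_tg_lt σ) i.succ_pos (by omega) ?_
          rw [Nat.dvd_iff_mod_eq_zero, Nat.mul_succ, add_comm, ← Nat.add_mod_mod, e, Nat.mod_self]
        rw [Nat.mod_eq_of_lt (stick_tg_lt σ)] at e1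
        have hl1 : ¬ l ∣ l - 1 := Nat.not_dvd_of_pos_of_lt (by omega) (by omega)
        have := stick_jacobi_zero hp (hval σ) (a := l - 1) (b := i * (l - 1))
          (fun h => (hlp.dvd_mul.1 h).elim (ht σ) hl1)
          (fun h => (hlp.dvd_mul.1 (mul_assoc _ i _ ▸ h)).elim (hti σ) hl1)
          (by rw [← mul_assoc]; omega)
        rwa [← hinv i, ← one_mul (l - 1), ← hinv 1, pow_one] at this
    have hp1 := stick_span_eq hζ hφz (mul_one (p : 𝓞 K)) (fun _ => True)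
      (fun σ _ => by rw [map_natCast, ZMod.natCast_self]) fun σ h => (h trivial).elim
    rw [← Ideal.span_singleton_mul_span_singleton, ← Ideal.span_singleton_mul_span_singleton,
      Ideal.span_singleton_eq_top.2 (IsUnit.of_pow_eq_one hneg two_ne_zero), Ideal.top_mul,
      ← Ideal.prod_span_singleton, prod_congr rfl hspan, hp1, filter_true]
    simp only [prod_filter]
    rw [prod_comm, ← prod_mul_distrib]
    refine prod_congr rfl fun σ _ => ?_
    rw [← prod_filter, prod_const, ← pow_succ', stick_count (stick_tg_pos σ) (stick_tg_lt σ)]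
  · set ρ : 𝓞 K →+* ℂ := ι.comp (algebraMap (𝓞 K) K) with hρ
    have h1 : ∀ i ∈ Ico 1 (l - 1), ‖ρ (jacobiSum χ (χ ^ i))‖ ^ 2 = p := by
      intro i hi
      have e : (starRingEnd ℂ) (ρ (jacobiSum χ (χ ^ i))) = ρ (jacobiSum χ⁻¹ (χ ^ i)⁻¹) := by
        have e1 : ∀ (η : MulChar (ZMod p) (𝓞 K)) (x : ZMod p),
            (starRingEnd ℂ) (ρ (η x)) = ρ (η⁻¹ x) := fun η x => by
          have := MulChar.star_apply' (η.ringHomComp ρ) x
          rwa [MulChar.ringHomComp_inv] at this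
        simp only [jacobiSum, map_sum, map_mul, e1]
      have e' := Complex.mul_conj' (ρ (jacobiSum χ (χ ^ i)))
      rw [e, ← map_mul, hJ i hi, map_natCast] at e'
      exact_mod_cast e'.symm
    change ‖ρ _‖ ^ 2 = _
    rw [map_mul, map_mul, map_prod, norm_mul, norm_mul, norm_prod, mul_pow, mul_pow, ← prod_pow,
      prod_congr rfl h1, ← norm_pow, ← map_pow, hneg, map_one, norm_one, one_mul, map_natCast,
      Complex.norm_natCast, prod_const, Nat.card_Ico, ← pow_add]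
    congr 1
    omega
  · have hmul : ∀ a b : 𝓞 K, (hζ.toInteger - 1) ^ 2 ∣ a ^ 2 - 1 →
        (hζ.toInteger - 1) ^ 2 ∣ b ^ 2 - 1 → (hζ.toInteger - 1) ^ 2 ∣ (a * b) ^ 2 - 1 := by
      intro a b ha hb
      rw [show (a * b) ^ 2 - 1 = a ^ 2 * (b ^ 2 - 1) + (a ^ 2 - 1) by ring]
      exact dvd_add (hb.mul_left _) ha
    refine hmul _ _ (hmul _ _ (by rw [hneg, sub_self]; exact dvd_zero _) ?_)
      (prod_induction _ (fun y => (hζ.toInteger - 1) ^ 2 ∣ y ^ 2 - 1) hmul (by simp) fun i _ => ?_)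
    · obtain ⟨w, -, hw⟩ := hz.self_sub_one_pow_dvd_order hl2
      obtain ⟨m, hm⟩ := hp
      have e : (p : 𝓞 K) = l * m + 1 := by
        exact_mod_cast congrArg (Nat.cast : ℕ → 𝓞 K) ((Nat.sub_eq_iff_eq_add hpp.one_le).1 hm)
      exact ⟨w * m * (p + 1), by rw [e, hw]; ring⟩
    · obtain ⟨w, -, hw⟩ := exists_jacobiSum_eq_neg_one_add hl2 hχ (ψ := χ ^ i)
        (by rw [pow_right_comm, hχ, one_pow]) (by rwa [ZMod.card]) hz
      exact ⟨w * (w * (hζ.toInteger - 1) ^ 2 - 2), by rw [hw]; ring⟩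

end Pool.Agent.MP_48b1c3_nt.H54

end

-- part MP_48b1c3_nt.H54.Recip
section

/-! A form of Eisenstein reciprocity. -/

/-
HINTS.  Θ a = ∏ σ, (σ⁻¹ • a)^(l - tg l σ) is multiplicative.  Fix a maximal ideal 𝔮 ∋ q, E = 𝓞 K ⧸ 𝔮 (finite field of characteristic q), π = mk, Q = card E = q^f with 1 ≤ f ≤ l - 1
(Q = absNorm 𝔮 ∣ absNorm (span {q}) = q^(l-1)), so (f : ZMod l) ≠ 0; ω = π ζ is primitive, l ∣ Q - 1.  For y ≠ 0 in E let lg y : ZMod l be the class of a k with y^((Q-1)/l) = ω^k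
(define by choice; well defined by IsPrimitiveRoot.pow_inj / pow_eq_pow_iff_modEq); lg (y y') = lg y + lg y', lg (-1) = 0 since -1 = (-1)^l.  s a = - f⁻¹ * lg (π (Θ a)).
IsSym: π (σ • a) ≠ 0 if a is coprime to q; q ∣ a - a' gives π (σ • a) = π (σ • a').  Non-trivial: γ a generator of Eˣ (lg γ ≠ 0); by CRT take g with π g = γ and g ≡ 1 modulo all the other maximal ideals
containing q (finitely many: factors of span {q}); g is coprime to q.  If ker (π ∘ σ⁻¹) ≠ 𝔮 then π (σ⁻¹ • g) = 1.  Otherwise apply σ⁻¹ to g^((Q-1)/l) - ζ^k ∈ 𝔮: lg (π (σ⁻¹ • g)) = tg σ⁻¹ * k and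
(l - tg σ) * tg σ⁻¹ = -1 in ZMod l.  So lg (π (Θ g)) = - d k with d the number of such σ, 1 ≤ d ≤ l - 1.
Reciprocity: Φ, Φ' from stickelberger.  span {σ⁻¹ • a} = ker (φ ∘ σ) * map σ⁻¹ B (Ideal.map_span, Ideal.map_mul, map of an equivalence = comap of the inverse), so span {Θ a} = span {Φ} * B', span {Θ a'} = span {Φ'} * B'
and Φ * Θ a' = ε * (Φ' * Θ a) for a unit ε (Ideal.span_singleton_eq_span_singleton).  For ι : K →+* ℂ: ‖ι (Θ a)‖^2 = |norm a|^l: with c = the σ with tg c = l - 1 (galEquivZMod.symm (-1)), ι ∘ c = conj ∘ ι on 𝓞 K (hom_ext),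
reindex σ ↦ c σ, tg (c σ) = l - tg σ, ∏ σ ‖ι (σ a)‖ = |norm a| (Algebra.norm_eq_prod_automorphisms, Algebra.coe_norm_int), and |norm a| = absNorm (span {a}) = p * absNorm B.  a ≠ 0 as l is not a unit.
Hence ‖ι ε‖ = 1 for all ι, ε is a root of unity (NumberField.Embeddings.pow_eq_one_of_norm_eq_one), ε = ± ζ^i (IsPrimitiveRoot.exists_neg_pow_of_isOfFinOrder / exists_pow_or_neg_mul_pow_of_isOfFinOrder).
Θ a ≡ 1 mod l, so ε^2 ≡ 1 mod (ζ-1)^2; ζ^j ≡ 1 + j (ζ-1) mod (ζ-1)^2 gives ζ - 1 ∣ 2 i, l ∣ 2 i (zeta_sub_one_dvd_intCast_iff'), ε = ± 1.  Finally lg (π Φ) = - f k (use k * f in stickelberger).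
-/

namespace Pool.Agent.MP_48b1c3_nt.H54

open NumberField

variable {l : ℕ} [Fact l.Prime] {K : Type} [Field K] [NumberField K]
  [IsCyclotomicExtension {l} ℚ K]

section Lg

variable {E : Type} [Field E]

open Classical in
/-- discrete logarithm of the power residue symbol -/
noncomputable def recip_lg (l m : ℕ) (ω y : E) : ZMod l :=
  if h : ∃ k : ℕ, y ^ m = ω ^ k then (h.choose : ZMod l) else 0

theorem recip_cast_eq {ω : E} (hω : IsPrimitiveRoot ω l) {j k : ℕ} (h : ω ^ j = ω ^ k) :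
    (j : ZMod l) = k := by
  have hfin : IsOfFinOrder ω := hω.isOfFinOrder (Fact.out : l.Prime).ne_zero
  rw [ZMod.natCast_eq_natCast_iff, hω.eq_orderOf]
  exact hfin.pow_eq_pow_iff_modEq.1 h

theorem recip_lg_eq {ω : E} (hω : IsPrimitiveRoot ω l) {m k : ℕ} {y : E} (h : y ^ m = ω ^ k) :
    recip_lg l m ω y = k := by
  have hex : ∃ k : ℕ, y ^ m = ω ^ k := ⟨k, h⟩
  rw [recip_lg, dif_pos hex]
  exact recip_cast_eq hω (hex.choose_spec.symm.trans h)

variable [Fintype E]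

theorem recip_dvd {ω : E} (hω : IsPrimitiveRoot ω l) : l ∣ Fintype.card E - 1 :=
  hω.dvd_of_pow_eq_one _
    (FiniteField.pow_card_sub_one_eq_one ω (hω.ne_zero (Fact.out : l.Prime).ne_zero))

theorem recip_ex {ω : E} (hω : IsPrimitiveRoot ω l) {y : E} (hy : y ≠ 0) :
    ∃ k : ℕ, y ^ ((Fintype.card E - 1) / l) = ω ^ k := by
  have h : (y ^ ((Fintype.card E - 1) / l)) ^ l = 1 := by
    rw [← pow_mul, Nat.div_mul_cancel (recip_dvd hω), FiniteField.pow_card_sub_one_eq_one y hy]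
  obtain ⟨k, -, hk⟩ := hω.eq_pow_of_pow_eq_one h
  exact ⟨k, hk.symm⟩

theorem recip_lg_mul {ω : E} (hω : IsPrimitiveRoot ω l) {y y' : E} (hy : y ≠ 0) (hy' : y' ≠ 0) :
    recip_lg l ((Fintype.card E - 1) / l) ω (y * y') =
      recip_lg l ((Fintype.card E - 1) / l) ω y + recip_lg l ((Fintype.card E - 1) / l) ω y' := by
  obtain ⟨k, hk⟩ := recip_ex hω hy
  obtain ⟨k', hk'⟩ := recip_ex hω hy'
  rw [recip_lg_eq hω hk, recip_lg_eq hω hk',
    recip_lg_eq hω (k := k + k') (by rw [mul_pow, hk, hk', pow_add]), Nat.cast_add]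

theorem recip_lg_prod {ω : E} (hω : IsPrimitiveRoot ω l) {ι : Type*} [Fintype ι] {y : ι → E}
    (hy : ∀ i, y i ≠ 0) (n : ι → ℕ) :
    recip_lg l ((Fintype.card E - 1) / l) ω (∏ i, y i ^ n i) =
      ∑ i, (n i : ZMod l) * recip_lg l ((Fintype.card E - 1) / l) ω (y i) := by
  choose k hk using fun i => recip_ex hω (hy i)
  rw [recip_lg_eq hω (k := ∑ i, n i * k i), Nat.cast_sum]
  · exact Finset.sum_congr rfl fun i _ => by rw [recip_lg_eq hω (hk i), Nat.cast_mul]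
  · rw [← Finset.prod_pow, ← Finset.prod_pow_eq_pow_sum]
    exact Finset.prod_congr rfl fun i _ => by rw [pow_right_comm, hk, ← pow_mul, mul_comm]

theorem recip_m_pos {ω : E} (hω : IsPrimitiveRoot ω l) : 0 < (Fintype.card E - 1) / l :=
  Nat.div_pos (Nat.le_of_dvd (Nat.sub_pos_of_lt Fintype.one_lt_card) (recip_dvd hω))
    (Fact.out : l.Prime).pos

theorem recip_gen {ω : E} (hω : IsPrimitiveRoot ω l) :
    ∃ (γ : E) (k : ℕ), γ ≠ 0 ∧ γ ^ ((Fintype.card E - 1) / l) = ω ^ k ∧ (k : ZMod l) ≠ 0 := by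
  classical
  obtain ⟨g, hg⟩ := IsCyclic.exists_ofOrder_eq_natCard (α := Eˣ)
  obtain ⟨k, hk⟩ := recip_ex hω g.ne_zero
  refine ⟨g, k, g.ne_zero, hk, fun h => ?_⟩
  rw [ZMod.natCast_eq_zero_iff] at h
  rw [(hω.pow_eq_one_iff_dvd k).2 h, ← Units.val_pow_eq_pow_val, Units.val_eq_one,
    ← orderOf_dvd_iff_pow_eq_one, hg, Nat.card_eq_fintype_card, Fintype.card_units] at hk
  exact absurd (Nat.le_of_dvd (recip_m_pos hω) hk) (not_le.2 (Nat.div_lt_self
    (Nat.sub_pos_of_lt Fintype.one_lt_card) (Fact.out : l.Prime).one_lt))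

end Lg

open IsCyclotomicExtension.Rat in
theorem recip_tg_cast (σ : K ≃ₐ[ℚ] K) : (tg l σ : ZMod l) = (galEquivZMod l K σ : (ZMod l)ˣ) :=
  ZMod.natCast_zmod_val _

theorem recip_tg_lt (σ : K ≃ₐ[ℚ] K) : tg l σ < l := ZMod.val_lt _

theorem recip_smul_zeta {ζ : K} (hζ : IsPrimitiveRoot ζ l) (σ : K ≃ₐ[ℚ] K) :
    σ • hζ.toInteger = hζ.toInteger ^ tg l σ :=
  IsCyclotomicExtension.Rat.galEquivZMod_smul_of_pow_eq l K σ
    hζ.toInteger_isPrimitiveRoot.pow_eq_one

variable (l) in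
/-- the Stickelberger element applied to `a` -/
noncomputable def recip_th (a : 𝓞 K) : 𝓞 K := ∏ σ : K ≃ₐ[ℚ] K, (σ⁻¹ • a) ^ (l - tg l σ)

theorem recip_th_mul (a a' : 𝓞 K) : recip_th l (a * a') = recip_th l a * recip_th l a' := by
  simp only [recip_th, smul_mul', mul_pow, Finset.prod_mul_distrib]

theorem recip_th_one : recip_th l (1 : 𝓞 K) = 1 := by simp [recip_th]

theorem recip_th_congr {R : Type*} [CommRing R] (τ : 𝓞 K →+* R) {n : ℕ} (hn : (n : R) = 0)
    {a a' : 𝓞 K} (h : (n : 𝓞 K) ∣ a - a') : τ (recip_th l a) = τ (recip_th l a') := by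
  obtain ⟨c, hc⟩ := h
  simp only [recip_th, map_prod, map_pow]
  refine Finset.prod_congr rfl fun σ _ => ?_
  have h1 := congrArg (τ.comp (MulSemiringAction.toRingHom (K ≃ₐ[ℚ] K) (𝓞 K) σ⁻¹)) hc
  rw [map_sub, map_mul, map_natCast, hn, zero_mul, sub_eq_zero] at h1
  exact congrArg (· ^ (l - tg l σ)) h1

omit [Fact l.Prime] [IsCyclotomicExtension {l} ℚ K] in
theorem recip_ne_zero {E : Type*} [Field E] (π : 𝓞 K →+* E) {q : ℕ} (hq : (q : E) = 0) {a : 𝓞 K}
    (h : IsCoprime a (q : 𝓞 K)) (σ : K ≃ₐ[ℚ] K) : π (σ • a) ≠ 0 := by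
  have h1 := h.map (π.comp (MulSemiringAction.toRingHom (K ≃ₐ[ℚ] K) (𝓞 K) σ))
  rw [map_natCast, hq, isCoprime_zero_right] at h1
  exact h1.ne_zero

theorem recip_th_ne_zero {E : Type*} [Field E] (π : 𝓞 K →+* E) {q : ℕ} (hq : (q : E) = 0)
    {a : 𝓞 K} (h : IsCoprime a (q : 𝓞 K)) : π (recip_th l a) ≠ 0 := by
  rw [recip_th, map_prod]
  exact Finset.prod_ne_zero_iff.2 fun σ _ => by
    rw [map_pow]
    exact pow_ne_zero _ (recip_ne_zero π hq h _)

open IsCyclotomicExtension.Rat in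
theorem recip_norm {ζ : K} (hζ : IsPrimitiveRoot ζ l) (ι : K →+* ℂ) (a : 𝓞 K) :
    ‖ι (recip_th l a)‖ ^ 2 = (Ideal.absNorm (Ideal.span {a}) : ℝ) ^ l := by
  have hp : l.Prime := Fact.out
  have := IsCyclotomicExtension.isGalois {l} ℚ K
  obtain ⟨d, hd⟩ := (galEquivZMod l K).surjective (-1)
  let ρ : 𝓞 K →+* ℂ := ι.comp (algebraMap (𝓞 K) K)
  have htg : ∀ σ : K ≃ₐ[ℚ] K, tg l (σ * d⁻¹) = l - tg l σ := by
    intro σ
    have : NeZero (galEquivZMod l K σ : ZMod l) := ⟨Units.ne_zero _⟩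
    rw [tg, tg, map_mul, map_inv, hd, inv_neg, inv_one, mul_neg, mul_one, Units.val_neg,
      ZMod.val_neg_of_ne_zero]
  have hd' : tg l d = l - 1 := by
    have := Fact.mk hp.one_lt
    have : NeZero (1 : ZMod l) := ⟨one_ne_zero⟩
    rw [tg, hd, Units.val_neg, Units.val_one, ZMod.val_neg_of_ne_zero, ZMod.val_one]
  have hconj : ρ.comp (MulSemiringAction.toRingHom (K ≃ₐ[ℚ] K) (𝓞 K) d) =
      (starRingEnd ℂ).comp ρ := by
    refine hom_ext hζ ?_
    have h1 : ρ hζ.toInteger ^ l = 1 := by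
      rw [← map_pow, hζ.toInteger_isPrimitiveRoot.pow_eq_one, map_one]
    change ρ (d • hζ.toInteger) = (starRingEnd ℂ) (ρ hζ.toInteger)
    rw [recip_smul_zeta, hd', map_pow,
      ← Complex.inv_eq_conj (Complex.norm_eq_one_of_pow_eq_one h1 hp.ne_zero)]
    apply eq_inv_of_mul_eq_one_left
    rw [← pow_succ, Nat.sub_add_cancel hp.one_le, h1]
  have hF : ∀ x : 𝓞 K, ‖ρ (d • x)‖ = ‖ρ x‖ := fun x =>
    (congrArg norm (DFunLike.congr_fun hconj x)).trans (Complex.norm_conj _)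
  have h1 : ‖ι (recip_th l a)‖ = ∏ σ : K ≃ₐ[ℚ] K, ‖ρ (σ⁻¹ • a)‖ ^ (l - tg l σ) := by
    change ‖ρ (recip_th l a)‖ = _
    simp only [recip_th, map_prod, map_pow, norm_prod, norm_pow]
  have h2 : ∏ σ : K ≃ₐ[ℚ] K, ‖ρ (σ⁻¹ • a)‖ ^ (l - tg l σ) =
      ∏ σ : K ≃ₐ[ℚ] K, ‖ρ (σ⁻¹ • a)‖ ^ tg l σ := by
    rw [← Equiv.prod_comp (Equiv.mulRight d⁻¹)]
    refine Finset.prod_congr rfl fun σ _ => ?_
    rw [Equiv.coe_mulRight, htg, Nat.sub_sub_self (recip_tg_lt σ).le, mul_inv_rev, inv_inv,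
      mul_smul, hF]
  have h3 : ∏ σ : K ≃ₐ[ℚ] K, ‖ρ (σ⁻¹ • a)‖ = (Ideal.absNorm (Ideal.span {a}) : ℝ) := by
    rw [← Equiv.prod_comp (Equiv.inv _), ← norm_prod, ← map_prod]
    have h4 : ρ (∏ σ : K ≃ₐ[ℚ] K, (Equiv.inv _ σ)⁻¹ • a) = (Algebra.norm ℤ a : ℤ) := by
      change ι (algebraMap (𝓞 K) K _) = _
      rw [map_prod]
      have h5 := Algebra.norm_eq_prod_automorphisms ℚ (a : K)
      rw [← Algebra.coe_norm_int, map_intCast] at h5
      rw [← map_intCast ι, h5]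
      congr 1
    rw [h4, Ideal.absNorm_span_singleton, Complex.norm_intCast, Nat.cast_natAbs, Int.cast_abs]
  rw [sq, ← h3, ← Finset.prod_pow]
  nth_rewrite 2 [h1]
  rw [h1, h2]
  nth_rewrite 2 [← h2]
  rw [← Finset.prod_mul_distrib]
  refine Finset.prod_congr rfl fun σ _ => ?_
  rw [← pow_add, Nat.add_sub_cancel' (recip_tg_lt σ).le]

theorem recip_span {R : Type*} [CommRing R] (φ : 𝓞 K →+* R) {a : 𝓞 K} {B : Ideal (𝓞 K)}
    (h : Ideal.span {a} = RingHom.ker φ * B) : Ideal.span {recip_th l a} =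
      (∏ σ : K ≃ₐ[ℚ] K, RingHom.ker
        (φ.comp (MulSemiringAction.toRingHom (K ≃ₐ[ℚ] K) (𝓞 K) σ)) ^ (l - tg l σ)) *
      ∏ σ : K ≃ₐ[ℚ] K,
        B.map (MulSemiringAction.toRingHom (K ≃ₐ[ℚ] K) (𝓞 K) σ⁻¹) ^ (l - tg l σ) := by
  rw [recip_th, ← Ideal.prod_span_singleton, ← Finset.prod_mul_distrib]
  refine Finset.prod_congr rfl fun σ _ => ?_
  rw [← mul_pow, ← Ideal.span_singleton_pow]
  congr 1
  have h1 := congrArg (Ideal.map (MulSemiringAction.toRingHom (K ≃ₐ[ℚ] K) (𝓞 K) σ⁻¹)) h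
  rw [Ideal.map_span, Set.image_singleton, Ideal.map_mul] at h1
  refine h1.trans ?_
  congr 1
  apply le_antisymm
  · rw [Ideal.map_le_iff_le_comap]
    intro x hx
    change φ (σ • σ⁻¹ • x) = 0
    rw [smul_inv_smul]
    exact hx
  · intro x hx
    have h2 := Ideal.mem_map_of_mem (MulSemiringAction.toRingHom (K ≃ₐ[ℚ] K) (𝓞 K) σ⁻¹)
      (I := RingHom.ker φ) (x := σ • x) hx
    change σ⁻¹ • σ • x ∈ _ at h2
    rwa [inv_smul_smul] at h2

theorem recip_pow_eq_one {ζ : K} (hζ : IsPrimitiveRoot ζ l) {j : ℕ}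
    (h : (hζ.toInteger - 1) ^ 2 ∣ hζ.toInteger ^ j - 1) : hζ.toInteger ^ j = 1 := by
  rw [← mul_geom_sum, sq, mul_dvd_mul_iff_left hζ.zeta_sub_one_prime'.ne_zero] at h
  have h1 : hζ.toInteger - 1 ∣ ∑ i ∈ Finset.range j, (hζ.toInteger ^ i - 1) :=
    Finset.dvd_sum fun i _ => sub_one_dvd_pow_sub_one _ _
  rw [Finset.sum_sub_distrib] at h1
  have h2 := dvd_sub h h1
  rw [sub_sub_cancel, Finset.sum_const, Finset.card_range, nsmul_one, ← Int.cast_natCast,
    IsCyclotomicExtension.Rat.zeta_sub_one_dvd_intCast_iff' l hζ, Int.natCast_dvd_natCast] at h2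
  exact (hζ.toInteger_isPrimitiveRoot.pow_eq_one_iff_dvd j).2 h2

theorem recip_sq {ζ : K} (hζ : IsPrimitiveRoot ζ l) (hl : l ≠ 2) {x y : 𝓞 K} (hx : x ≠ 0)
    (h1 : Ideal.span {x} = Ideal.span {y}) (h2 : ∀ ι : K →+* ℂ, ‖ι x‖ ^ 2 = ‖ι y‖ ^ 2)
    (h3 : (hζ.toInteger - 1) ^ 2 ∣ x ^ 2 - 1) (h4 : (hζ.toInteger - 1) ^ 2 ∣ y ^ 2 - 1) :
    x ^ 2 = y ^ 2 := by
  have hp : l.Prime := Fact.out
  obtain ⟨ε, rfl⟩ := Ideal.span_singleton_eq_span_singleton.1 h1
  have a1 : ∀ ι : K →+* ℂ, ‖ι (ε : 𝓞 K)‖ = 1 := by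
    intro ι
    have b1 := (sq_eq_sq₀ (_root_.norm_nonneg _) (_root_.norm_nonneg _)).1 (h2 ι)
    have b2 : ‖ι x‖ ≠ 0 := by
      rw [norm_ne_zero_iff, map_ne_zero]
      exact RingOfIntegers.coe_ne_zero_iff.2 hx
    change ‖ι (algebraMap (𝓞 K) K x)‖ = ‖ι (algebraMap (𝓞 K) K (x * ε))‖ at b1
    rw [map_mul, map_mul, norm_mul] at b1
    exact mul_left_cancel₀ b2 (b1.symm.trans (mul_one _).symm)
  obtain ⟨n, hn, a2⟩ := Embeddings.pow_eq_one_of_norm_eq_one K ℂ (ε : 𝓞 K).isIntegral_coe a1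
  obtain ⟨r, hr⟩ := hζ.exists_neg_pow_of_isOfFinOrder (hp.odd_of_ne_two hl)
    (isOfFinOrder_iff_pow_eq_one.2 ⟨n, hn, a2⟩)
  have a3 : (ε : 𝓞 K) ^ 2 = hζ.toInteger ^ (2 * r) := by
    apply RingOfIntegers.ext
    change algebraMap (𝓞 K) K _ = algebraMap (𝓞 K) K _
    rw [map_pow, map_pow]
    change (algebraMap (𝓞 K) K ε) ^ 2 = ζ ^ (2 * r)
    rw [hr, ← pow_mul, mul_comm, pow_mul, neg_sq, pow_mul]
  have a4 : (hζ.toInteger - 1) ^ 2 ∣ (ε : 𝓞 K) ^ 2 - 1 := by
    have := dvd_sub h4 (h3.mul_right ((ε : 𝓞 K) ^ 2))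
    rwa [show (x * ε) ^ 2 - 1 - (x ^ 2 - 1) * (ε : 𝓞 K) ^ 2 = (ε : 𝓞 K) ^ 2 - 1 by ring] at this
  rw [a3] at a4
  rw [mul_pow, a3, recip_pow_eq_one hζ a4, mul_one]

theorem recip_cong {ζ : K} (hζ : IsPrimitiveRoot ζ l) (hl : l ≠ 2) {Φ a : 𝓞 K}
    (h1 : (hζ.toInteger - 1) ^ 2 ∣ Φ ^ 2 - 1) (h2 : (l : 𝓞 K) ∣ a - 1) :
    (hζ.toInteger - 1) ^ 2 ∣ (Φ * recip_th l a) ^ 2 - 1 := by
  have hp : l.Prime := Fact.out
  have a1 : (hζ.toInteger - 1) ^ 2 ∣ (l : 𝓞 K) :=
    (pow_dvd_pow _ (by have := hp.two_le; omega)).trans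
      (IsCyclotomicExtension.Rat.associated_zeta_sub_one_pow_prime l hζ).dvd
  rw [← Ideal.mem_span_singleton, ← Ideal.Quotient.eq] at h1 ⊢
  rw [← Ideal.mem_span_singleton, ← Ideal.Quotient.eq_zero_iff_mem, map_natCast] at a1
  rw [mul_pow, map_mul, h1, map_pow, recip_th_congr _ a1 h2, recip_th_one]
  simp

omit [Fact l.Prime] [IsCyclotomicExtension {l} ℚ K] in
theorem recip_crt {E : Type*} [Field E] (π : 𝓞 K →+* E) (hπ : Function.Surjective π) {q : ℕ}
    (hq0 : q ≠ 0) {γ : E} (hγ : γ ≠ 0) : ∃ g : 𝓞 K, π g = γ ∧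
      IsCoprime g (q : 𝓞 K) ∧ ∀ M : Ideal (𝓞 K), M.IsPrime → (q : 𝓞 K) ∈ M →
        M ≠ RingHom.ker π → g - 1 ∈ M := by
  have hmax := RingHom.ker_isMaximal_of_surjective π hπ
  have hq1 : Ideal.span {(q : 𝓞 K)} ≠ 0 := by
    rw [Ne, Ideal.zero_eq_bot, Ideal.span_singleton_eq_bot]
    exact Nat.cast_ne_zero.2 hq0
  obtain ⟨n, J, hJ, e⟩ := WfDvdMonoid.max_power_factor' (x := RingHom.ker π) hq1
    (fun h => hmax.ne_top (Ideal.isUnit_iff.1 h))
  rw [Ideal.dvd_iff_le] at hJ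
  obtain ⟨x, hxJ, hx⟩ := Set.not_subset.1 hJ
  obtain ⟨y, hy⟩ := hπ ((π x)⁻¹ * (γ - 1))
  have h1 : π (1 + x * y) = γ := by
    have : π x ≠ 0 := hx
    rw [map_add, map_one, map_mul, hy, mul_inv_cancel_left₀ this, add_sub_cancel]
  have h2 : ∀ M : Ideal (𝓞 K), M.IsPrime → (q : 𝓞 K) ∈ M → M ≠ RingHom.ker π →
      1 + x * y - 1 ∈ M := by
    intro M hM hqM hne
    rw [← Ideal.span_singleton_le_iff_mem, e, hM.mul_le] at hqM
    rw [add_sub_cancel_left]
    rcases hqM with h | h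
    · exact absurd (hmax.eq_of_le hM.ne_top (hM.le_of_pow_le h)).symm hne
    · exact M.mul_mem_right _ (h hxJ)
  refine ⟨1 + x * y, h1, ?_, h2⟩
  rw [← Ideal.isCoprime_span_singleton_iff, Ideal.isCoprime_iff_sup_eq]
  by_contra hne
  obtain ⟨M, hM, hle⟩ := Ideal.exists_le_maximal _ hne
  rw [sup_le_iff, Ideal.span_singleton_le_iff_mem, Ideal.span_singleton_le_iff_mem] at hle
  by_cases h : M = RingHom.ker π
  · exact hγ (h1.symm.trans (h ▸ hle.1 : 1 + x * y ∈ RingHom.ker π))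
  · have := M.sub_mem hle.1 (h2 M hM.isPrime hle.2 h)
    rw [sub_sub_cancel] at this
    exact hM.ne_top ((Ideal.eq_top_iff_one M).2 this)

open IsCyclotomicExtension.Rat in
theorem recip_nontriv {ζ : K} (hζ : IsPrimitiveRoot ζ l) {E : Type} [Field E] [Fintype E]
    (π : 𝓞 K →+* E) (hπ : Function.Surjective π) {q : ℕ} (hq0 : q ≠ 0) (hq : (q : E) = 0)
    (hω : IsPrimitiveRoot (π hζ.toInteger) l) : ∃ g, IsCoprime g (q : 𝓞 K) ∧
      recip_lg l ((Fintype.card E - 1) / l) (π hζ.toInteger) (π (recip_th l g)) ≠ 0 := by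
  classical
  have hp : l.Prime := Fact.out
  obtain ⟨γ, k, hγ, hk, hk0⟩ := recip_gen hω
  obtain ⟨g, g1, g2, g3⟩ := recip_crt π hπ hq0 hγ
  refine ⟨g, g2, ?_⟩
  simp only [recip_th, map_prod, map_pow]
  rw [recip_lg_prod hω fun σ : K ≃ₐ[ℚ] K => recip_ne_zero π hq g2 σ⁻¹]
  let ρ : (K ≃ₐ[ℚ] K) → 𝓞 K →+* E := fun σ =>
    π.comp (MulSemiringAction.toRingHom (K ≃ₐ[ℚ] K) (𝓞 K) σ⁻¹)
  have key : ∀ σ : K ≃ₐ[ℚ] K, ((l - tg l σ : ℕ) : ZMod l) *
      recip_lg l ((Fintype.card E - 1) / l) (π hζ.toInteger) (π (σ⁻¹ • g)) =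
      if RingHom.ker (ρ σ) = RingHom.ker π then -(k : ZMod l) else 0 := by
    intro σ
    split_ifs with h
    · have a1 : g ^ ((Fintype.card E - 1) / l) - hζ.toInteger ^ k ∈ RingHom.ker (ρ σ) := by
        rw [h, RingHom.mem_ker, map_sub, map_pow, map_pow, g1, hk, sub_self]
      rw [RingHom.mem_ker, map_sub, map_pow, map_pow, sub_eq_zero] at a1
      change π (σ⁻¹ • g) ^ _ = π (σ⁻¹ • hζ.toInteger) ^ k at a1
      rw [recip_smul_zeta, map_pow, ← pow_mul] at a1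
      rw [recip_lg_eq hω a1, Nat.cast_sub (recip_tg_lt σ).le, Nat.cast_mul, ZMod.natCast_self,
        recip_tg_cast, recip_tg_cast, map_inv, zero_sub, neg_mul, Units.mul_inv_cancel_left]
    · have a1 := g3 _ (RingHom.ker_isPrime (ρ σ)) (by rw [RingHom.mem_ker, map_natCast, hq]) h
      rw [RingHom.mem_ker, map_sub, map_one, sub_eq_zero] at a1
      change π (σ⁻¹ • g) = 1 at a1
      rw [a1, recip_lg_eq hω (k := 0) (by simp), Nat.cast_zero, mul_zero]
  simp only [key]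
  rw [← Finset.sum_filter, Finset.sum_const, nsmul_eq_mul]
  refine mul_ne_zero ?_ (neg_ne_zero.2 hk0)
  rw [Ne, ZMod.natCast_eq_zero_iff]
  refine Nat.not_dvd_of_pos_of_lt (Finset.card_pos.2 ⟨1, ?_⟩) ?_
  · rw [Finset.mem_filter]
    refine ⟨Finset.mem_univ _, congrArg RingHom.ker (RingHom.ext fun x => ?_)⟩
    change π ((1 : K ≃ₐ[ℚ] K)⁻¹ • x) = π x
    rw [inv_one, one_smul]
  · refine (Finset.card_le_univ _).trans_lt ?_
    rw [Fintype.card_congr (galEquivZMod l K).toEquiv, ZMod.card_units]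
    exact Nat.sub_lt hp.pos one_pos

theorem recip_phi {E : Type} [Field E] [Fintype E] {ω y : E} (hω : IsPrimitiveRoot ω l) {j : ℕ}
    (h : y ^ ((Fintype.card E - 1) / l) * ω ^ j = 1) :
    y ≠ 0 ∧ recip_lg l ((Fintype.card E - 1) / l) ω y = -j := by
  have hy : y ≠ 0 := by
    rintro rfl
    rw [zero_pow (recip_m_pos hω).ne', zero_mul] at h
    exact zero_ne_one h
  obtain ⟨k, hk⟩ := recip_ex hω hy
  rw [hk, ← pow_add, ← pow_zero ω] at h
  have := recip_cast_eq hω h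
  rw [Nat.cast_add, Nat.cast_zero] at this
  exact ⟨hy, (recip_lg_eq hω hk).trans (eq_neg_of_add_eq_zero_left this)⟩

theorem reciprocity {ζ : K} (hζ : IsPrimitiveRoot ζ l) (hl : l ≠ 2) {q : ℕ} (hq : q.Prime)
    (hql : q ≠ l) : ∃ s : 𝓞 K → ZMod l, IsSym q s ∧
      ∀ (p p' : ℕ) [Fact p.Prime] [Fact p'.Prime] (φ : 𝓞 K →+* ZMod p) (φ' : 𝓞 K →+* ZMod p')
        (a a' : 𝓞 K) (B : Ideal (𝓞 K)) (k k' : ℕ), l ∣ p - 1 → l ∣ p' - 1 → p ≠ q → p' ≠ q →
        Un l q a → Un l q a' → Ideal.span {a} = RingHom.ker φ * B →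
        Ideal.span {a'} = RingHom.ker φ' * B →
        (q : ZMod p) ^ ((p - 1) / l) = φ hζ.toInteger ^ k →
        (q : ZMod p') ^ ((p' - 1) / l) = φ' hζ.toInteger ^ k' → s a - s a' = k - k' := by
  classical
  have hp : l.Prime := Fact.out
  have := Fact.mk hq
  have hN := absNorm_natCast l (K := K) q
  have hne : Ideal.span {(q : 𝓞 K)} ≠ ⊤ := by
    intro h
    rw [h, Ideal.absNorm_top] at hN
    have := Nat.one_lt_pow (by have := hp.two_le; omega : l - 1 ≠ 0) hq.one_lt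
    omega
  obtain ⟨M, hM, hle⟩ := Ideal.exists_le_maximal _ hne
  have hdvd : Nat.card (𝓞 K ⧸ M) ∣ q ^ (l - 1) := hN ▸ Ideal.absNorm_dvd_absNorm_of_le hle
  have : Finite (𝓞 K ⧸ M) := Nat.finite_of_card_ne_zero
    (ne_zero_of_dvd_ne_zero (pow_ne_zero _ hq.ne_zero) hdvd)
  let _ := Fintype.ofFinite (𝓞 K ⧸ M)
  let _ := Ideal.Quotient.field M
  have hπ : Function.Surjective (Ideal.Quotient.mk M) := Ideal.Quotient.mk_surjective
  have hqE : (q : 𝓞 K ⧸ M) = 0 := by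
    rw [← map_natCast (Ideal.Quotient.mk M), Ideal.Quotient.eq_zero_iff_mem]
    exact hle (Ideal.mem_span_singleton_self _)
  rw [Nat.card_eq_fintype_card] at hdvd
  obtain ⟨f, hf1, hf⟩ := (Nat.dvd_prime_pow hq).1 hdvd
  have hf0 : (f : ZMod l) ≠ 0 := by
    rw [Ne, ZMod.natCast_eq_zero_iff]
    refine Nat.not_dvd_of_pos_of_lt (Nat.pos_of_ne_zero ?_) (by have := hp.two_le; omega)
    rintro rfl
    exact (Fintype.one_lt_card (α := 𝓞 K ⧸ M)).ne' (hf.trans (pow_zero q))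
  have hchar : ∀ p : ℕ, p.Prime → p ≠ q → (p : 𝓞 K ⧸ M) ≠ 0 := by
    intro p hp hpq h
    have h1 := ((Nat.coprime_primes hp hq).2 hpq).cast (R := 𝓞 K ⧸ M)
    rw [h, hqE, isCoprime_zero_right] at h1
    exact not_isUnit_zero h1
  have hlE := hchar l hp hql.symm
  generalize Ideal.Quotient.mk M = π at hπ
  have hω := isPrimitiveRoot_map hζ hlE π
  refine ⟨fun a => -(f : ZMod l)⁻¹ * recip_lg l ((Fintype.card (𝓞 K ⧸ M) - 1) / l)
    (π hζ.toInteger) (π (recip_th l a)), ⟨fun a a' h h' => ?_, fun a a' h => ?_, ?_⟩, ?_⟩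
  · simp only
    rw [recip_th_mul, map_mul,
      recip_lg_mul hω (recip_th_ne_zero π hqE h) (recip_th_ne_zero π hqE h'), mul_add]
  · simp only
    rw [recip_th_congr π hqE h]
  · obtain ⟨g, g1, g2⟩ := recip_nontriv hζ π hπ hq.ne_zero hqE hω
    exact ⟨g, g1, mul_ne_zero (neg_ne_zero.2 (inv_ne_zero hf0)) g2⟩
  intro p p' _ _ φ φ' a a' B k k' hlp hlp' hpq hpq' ha ha' hB hB' hk hk'
  obtain ⟨Φ, s1, s2, s3, s4⟩ := stickelberger hζ hl hlp φ
  obtain ⟨Φ', t1, t2, t3, t4⟩ := stickelberger hζ hl hlp' φ'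
  obtain ⟨u1, u2⟩ := recip_phi hω (s4 _ π (hchar p Fact.out hpq) hlE (k * f)
    (by rw [hf, Nat.cast_pow, pow_right_comm, hk, pow_mul]))
  obtain ⟨v1, v2⟩ := recip_phi hω (t4 _ π (hchar p' Fact.out hpq') hlE (k' * f)
    (by rw [hf, Nat.cast_pow, pow_right_comm, hk', pow_mul]))
  have w1 := recip_th_ne_zero (l := l) π hqE ha.2
  have w2 := recip_th_ne_zero (l := l) π hqE ha'.2
  have x1 : π (Φ * recip_th l a') ≠ 0 := by rw [map_mul]; exact mul_ne_zero u1 w2
  have x2 : π (Φ' * recip_th l a) ≠ 0 := by rw [map_mul]; exact mul_ne_zero v1 w1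
  have key : (Φ * recip_th l a') ^ 2 = (Φ' * recip_th l a) ^ 2 := by
    refine recip_sq hζ hl (fun h => x1 (by rw [h, map_zero])) ?_ (fun ι => ?_)
      (recip_cong hζ hl s3 ha'.1) (recip_cong hζ hl t3 ha.1)
    · rw [← Ideal.span_singleton_mul_span_singleton, ← Ideal.span_singleton_mul_span_singleton,
        recip_span φ hB, recip_span φ' hB', s1, t1, mul_left_comm]
    · change ‖ι (algebraMap (𝓞 K) K _)‖ ^ 2 = ‖ι (algebraMap (𝓞 K) K _)‖ ^ 2
      rw [map_mul, map_mul, map_mul, map_mul, norm_mul, norm_mul, mul_pow, mul_pow]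
      change ‖ι Φ‖ ^ 2 * ‖ι (recip_th l a')‖ ^ 2 = ‖ι Φ'‖ ^ 2 * ‖ι (recip_th l a)‖ ^ 2
      rw [s2, t2, recip_norm hζ, recip_norm hζ, hB, hB', map_mul, map_mul, absNorm_ker,
        absNorm_ker]
      push_cast
      ring
  have y1 := congrArg (fun x => recip_lg l ((Fintype.card (𝓞 K ⧸ M) - 1) / l)
    (π hζ.toInteger) (π x)) key
  simp only [sq] at y1
  rw [map_mul π (Φ * _), map_mul π (Φ' * _), recip_lg_mul hω x1 x1, recip_lg_mul hω x2 x2, map_mul,
    map_mul, recip_lg_mul hω u1 w2, recip_lg_mul hω v1 w1, u2, v2] at y1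
  have h2 : (2 : ZMod l) ≠ 0 := by
    have : ((2 : ℕ) : ZMod l) ≠ 0 := by
      rw [Ne, ZMod.natCast_eq_zero_iff, Nat.prime_dvd_prime_iff_eq hp Nat.prime_two]
      exact hl
    exact_mod_cast this
  simp only
  push_cast at y1
  apply mul_left_cancel₀ (mul_ne_zero h2 hf0)
  have h3 := mul_inv_cancel₀ hf0
  generalize recip_lg l _ _ (π (recip_th l a)) = X at *
  generalize recip_lg l _ _ (π (recip_th l a')) = X' at *
  linear_combination y1 - 2 * (X - X') * h3

end Pool.Agent.MP_48b1c3_nt.H54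

end

-- part MP_48b1c3_nt.H54.BadSym
section

/-! The residue symbols of a generator of `P * B` depend only on `B` when `P` is a bad prime. -/

namespace Pool.Agent.MP_48b1c3_nt.H54

open NumberField Finset

theorem pow_eq_of_dvd {E : Type*} [CommRing E] {A u m : ℕ} (hA : A ≠ 0) (hu : u ∣ A) (ω : E)
    (k : ℕ → ℕ) (hk : ∀ q ∈ A.primeFactors, (q : E) ^ m = ω ^ k q) :
    (u : E) ^ m = ω ^ ∑ q ∈ A.primeFactors, u.factorization q * k q := by
  have hu0 : u ≠ 0 := ne_zero_of_dvd_ne_zero hA hu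
  have h1 : u = ∏ q ∈ A.primeFactors, q ^ u.factorization q := by
    conv_lhs => rw [← Nat.prod_factorization_pow_eq_self hu0]
    rw [Finsupp.prod_of_support_subset _ (s := A.primeFactors)]
    · rw [Nat.support_factorization]
      exact Nat.primeFactors_mono hu hA
    · simp
  rw [← Finset.prod_pow_eq_pow_sum]
  conv_lhs => rw [h1]
  rw [Nat.cast_prod, ← Finset.prod_pow]
  refine Finset.prod_congr rfl fun q hq => ?_
  rw [Nat.cast_pow, pow_right_comm, hk q hq, ← pow_mul, mul_comm]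

variable {l : ℕ} [Fact l.Prime] {K : Type} [Field K] [NumberField K]
  [IsCyclotomicExtension {l} ℚ K]

omit [IsCyclotomicExtension {l} ℚ K] in
theorem exists_exps {ζ : K} (hζ : IsPrimitiveRoot ζ l) {A p : ℕ} [Fact p.Prime] (hA : A ≠ 0)
    (hp : l ∣ p - 1) (hpA : ¬ p ∣ A) (φ : 𝓞 K →+* ZMod p) : ∃ k : ℕ → ℕ,
      (∀ q ∈ A.primeFactors, (q : ZMod p) ^ ((p - 1) / l) = φ hζ.toInteger ^ k q) ∧
      ∀ u w : ℕ, u ∣ A → w ∣ A → (u : ZMod p) ^ ((p - 1) / l) = (w : ZMod p) ^ ((p - 1) / l) →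
        ∑ q ∈ A.primeFactors, ((u.factorization q : ZMod l) - w.factorization q) * k q = 0 := by
  have hp2 := (Fact.out : p.Prime).two_le
  have hl2 := (Fact.out : l.Prime).two_le
  have hlp : (l : ZMod p) ≠ 0 := by
    rw [Ne, ZMod.natCast_eq_zero_iff]
    intro h
    have h1 := Nat.le_of_dvd (by omega) h
    have h2 := Nat.le_of_dvd (by omega) hp
    omega
  have hω := isPrimitiveRoot_map hζ hlp φ
  have h1 : ∀ q ∈ A.primeFactors, ∃ k, (q : ZMod p) ^ ((p - 1) / l) = φ hζ.toInteger ^ k := by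
    intro q hq
    have hq0 : (q : ZMod p) ≠ 0 := by
      rw [Ne, ZMod.natCast_eq_zero_iff]
      exact fun h => hpA (h.trans (Nat.dvd_of_mem_primeFactors hq))
    obtain ⟨k, -, hk⟩ := hω.eq_pow_of_pow_eq_one (ξ := (q : ZMod p) ^ ((p - 1) / l)) (by
      rw [← pow_mul, Nat.div_mul_cancel hp, ZMod.pow_card_sub_one_eq_one hq0])
    exact ⟨k, hk.symm⟩
  choose! k hk using h1
  refine ⟨k, hk, fun u w hu hw h => ?_⟩
  rw [pow_eq_of_dvd hA hu _ k hk, pow_eq_of_dvd hA hw _ k hk,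
    (hω.isOfFinOrder (by omega)).pow_eq_pow_iff_modEq, ← hω.eq_orderOf,
    ← ZMod.natCast_eq_natCast_iff] at h
  push_cast at h
  simp only [sub_mul, sum_sub_distrib, h, sub_self]

theorem exists_symbols (hl : l ≠ 2) {A : ℕ} (hA : A.Coprime l) :
    ∃ s : ℕ → 𝓞 K → ZMod l, (∀ q ∈ A.primeFactors, IsSym q (s q)) ∧
      ∀ (p p' : ℕ) [Fact p.Prime] [Fact p'.Prime] (φ : 𝓞 K →+* ZMod p) (φ' : 𝓞 K →+* ZMod p')
        (a a' : 𝓞 K) (B : Ideal (𝓞 K)), l ∣ p - 1 → l ∣ p' - 1 → ¬ p ∣ A → ¬ p' ∣ A →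
        Un l A a → Un l A a' → Ideal.span {a} = RingHom.ker φ * B →
        Ideal.span {a'} = RingHom.ker φ' * B → ∀ u w : ℕ, u ∣ A → w ∣ A →
        (u : ZMod p) ^ ((p - 1) / l) = (w : ZMod p) ^ ((p - 1) / l) →
        (u : ZMod p') ^ ((p' - 1) / l) = (w : ZMod p') ^ ((p' - 1) / l) →
        ∑ q ∈ A.primeFactors, ((u.factorization q : ZMod l) - w.factorization q) * s q a =
          ∑ q ∈ A.primeFactors, ((u.factorization q : ZMod l) - w.factorization q) * s q a' := by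
  have hζ := IsCyclotomicExtension.zeta_spec l ℚ K
  have hl2 := (Fact.out : l.Prime).two_le
  have hA0 : A ≠ 0 := by
    rintro rfl
    rw [Nat.coprime_zero_left] at hA
    omega
  have hql : ∀ q ∈ A.primeFactors, q ≠ l := by
    rintro q hq rfl
    have := Nat.Coprime.eq_one_of_dvd hA.symm (Nat.dvd_of_mem_primeFactors hq)
    omega
  have h1 := fun (q : ℕ) (hq : q ∈ A.primeFactors) =>
    reciprocity hζ hl (Nat.prime_of_mem_primeFactors hq) (hql q hq)
  choose! s hs hs' using h1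
  refine ⟨s, hs, fun p p' _ _ φ φ' a a' B hp hp' hpA hpA' ha ha' hB hB' u w hu hw h h' => ?_⟩
  obtain ⟨k, hk, hk1⟩ := exists_exps hζ hA0 hp hpA φ
  obtain ⟨k', hk', hk1'⟩ := exists_exps hζ hA0 hp' hpA' φ'
  have h2 : ∀ q ∈ A.primeFactors, s q a = s q a' + (k q - k' q) := fun q hq => by
    have hd := Nat.dvd_of_mem_primeFactors hq
    have hd' : (q : 𝓞 K) ∣ A := Nat.cast_dvd_cast hd
    have := hs' q hq p p' φ φ' a a' B (k q) (k' q) hp hp' (fun e => hpA (e ▸ hd))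
      (fun e => hpA' (e ▸ hd)) ⟨ha.1, ha.2.of_isCoprime_of_dvd_right hd'⟩
      ⟨ha'.1, ha'.2.of_isCoprime_of_dvd_right hd'⟩ hB hB' (hk q hq) (hk' q hq)
    rw [← this]
    ring
  rw [Finset.sum_congr rfl fun q hq => by rw [h2 q hq]]
  simp only [mul_add, mul_sub, sum_add_distrib, sum_sub_distrib, hk1 u w hu hw h,
    hk1' u w hu hw h', sub_self, add_zero]

end Pool.Agent.MP_48b1c3_nt.H54

end

-- part MP_48b1c3_nt.H54.LatSieve
section

/-! Upper sieve and a lower count for lattice points of a cube. -/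

/-
HINTS.  lattice_upper: `sieve` with P, g q = dn (span {q}) (F q), l q = log q / Lg, Ω = (cube b T).filter E, a = 1, ω = F, X = T^n * dn J E.  For Q ⊆ P with ∑ l ≤ 3 one has ∏ Q ≤ exp (3 Lg)
(Real.log_prod), 64^#Q ≤ ∏ Q (Finset.pow_card_le_prod / prod_le_prod), count_family bounds the remainder by 4 n m exp (3 Lg) / T * X, and Q ↦ ∏ Q is injective on sets of primes
(Nat.primeFactors_prod) with values in Icc 1 ⌊exp (3 Lg)⌋₊, so there are at most exp (3 Lg) such Q.  (sieve is stated for α : Type; O : Type here.)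
lattice_lower: β from exists_short, m * β ≠ 0 (b gives torsion freeness: CharZero, or box/coordinates; if n = 0 then hD is false as p ≥ 2), Box (m * D) (m * β), reps_elt, span {m β} ≤ ker φ ⊓ span {m};
count_approx with δ = n^2 (m D) and relative error ≤ 1/2; dn_inf (per_mem, ker φ ∋ p and span {m} ∋ m are coprime), dn_mem, Nat.card (O ⧸ ker φ) = p
(RingHom.quotientKerEquivOfSurjective, ZMod.ringHom_surjective).
-/

namespace Pool.Agent.MP_48b1c3_nt.H54

open Finset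

variable {O : Type} [CommRing O] {n : ℕ} (b : Module.Basis (Fin n) ℤ O)

theorem latsieve_prod_le {P Q : Finset ℕ} (hP : ∀ q ∈ P, q.Prime) (hQ : Q ⊆ P) {Lg : ℝ}
    (hLg : 0 < Lg) (h : ∑ q ∈ Q, Real.log q / Lg ≤ 3) :
    ∏ q ∈ Q, (q : ℝ) ≤ Real.exp (3 * Lg) := by
  have hpos : ∀ q ∈ Q, (0 : ℝ) < q := fun q hq => by exact_mod_cast (hP q (hQ hq)).pos
  rw [← Finset.sum_div, div_le_iff₀ hLg, ← Real.log_prod fun q hq => (hpos q hq).ne'] at h
  exact (Real.log_le_iff_le_exp (Finset.prod_pos hpos)).1 h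

theorem latsieve_card_le {P : Finset ℕ} (hP : ∀ q ∈ P, q.Prime) (W : Finset (Finset ℕ)) {Y : ℝ}
    (hY : 0 ≤ Y) (hW : ∀ Q ∈ W, Q ⊆ P ∧ ∏ q ∈ Q, (q : ℝ) ≤ Y) : (#W : ℝ) ≤ Y := by
  have h1 : #W ≤ #(Icc 1 ⌊Y⌋₊) := by
    refine Finset.card_le_card_of_injOn (fun Q => ∏ q ∈ Q, q) (fun Q hQ => ?_) ?_
    · have hQ' := hW Q hQ
      refine mem_coe.2 (mem_Icc.2 ⟨Finset.prod_pos fun q hq => (hP q (hQ'.1 hq)).pos, ?_⟩)
      refine Nat.le_floor ?_
      push_cast
      exact hQ'.2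
    · intro Q hQ Q' hQ' h
      have e1 := Nat.primeFactors_prod fun q hq => hP q ((hW Q hQ).1 hq)
      have e2 := Nat.primeFactors_prod fun q hq => hP q ((hW Q' hQ').1 hq)
      rw [← e1, ← e2]
      exact congrArg Nat.primeFactors h
  rw [Nat.card_Icc, Nat.add_sub_cancel] at h1
  exact (Nat.cast_le.2 h1).trans (Nat.floor_le hY)

theorem lattice_upper {J : Ideal O} {E : O → Prop} (hE : Per J E) {m : ℕ} (hm0 : 0 < m)
    (hm : (m : O) ∈ J) (P : Finset ℕ) (hP : ∀ q ∈ P, q.Prime ∧ q.Coprime m ∧ 64 ≤ q)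
    (F : ℕ → O → Prop) (hF : ∀ q ∈ P, Per (Ideal.span {(q : O)}) (F q)) {Lg : ℝ} (hLg : 0 < Lg)
    (hg : ∀ q ∈ P, dn (Ideal.span {(q : O)}) (F q) ≤ 1 / 2 ∧ Real.log q ≤ Lg / 8)
    (hgl : ∑ q ∈ P, dn (Ideal.span {(q : O)}) (F q) * Real.log q ≤ Lg / 8) {T : ℕ} (hT0 : 0 < T)
    (hT : 2 * n * m * Real.exp (3 * Lg) ≤ T) (S : Finset O)
    (hS : ∀ a ∈ S, a ∈ cube b T ∧ E a ∧ ∀ q ∈ P, ¬ F q a) :
    (#S : ℝ) ≤ 8 * ((T : ℝ) ^ n * dn J E) *
      (∏ q ∈ P, (1 - dn (Ideal.span {(q : O)}) (F q)) + 4 * n * m * Real.exp (9 * Lg) / T) := by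
  classical
  have hTr : (0 : ℝ) < T := by exact_mod_cast hT0
  have hX : 0 ≤ (T : ℝ) ^ n * dn J E := mul_nonneg (by positivity) (dn_nonneg _ _)
  set X : ℝ := (T : ℝ) ^ n * dn J E with hXd
  set Y : ℝ := Real.exp (3 * Lg) with hY
  have hY0 : 0 < Y := Real.exp_pos _
  have hY3 : Real.exp (9 * Lg) = Y * (Y * Y) := by
    rw [hY, ← Real.exp_add, ← Real.exp_add]
    congr 1
    ring
  have hPp : ∀ q ∈ P, q.Prime := fun q hq => (hP q hq).1
  have key := (sieve P (fun q => dn (Ideal.span {(q : O)}) (F q)) (fun q => Real.log q / Lg)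
    ((cube b T).filter E) (fun _ => 1) F X (fun _ _ => zero_le_one) hX
    (fun q hq => ⟨dn_nonneg _ _, (hg q hq).1⟩)
    (fun q hq => ⟨div_nonneg (Real.log_natCast_nonneg q) hLg.le, by
      rw [div_le_iff₀ hLg]; linarith [(hg q hq).2]⟩)
    (by
      have e : ∑ q ∈ P, dn (Ideal.span {(q : O)}) (F q) * (Real.log q / Lg) =
          (∑ q ∈ P, dn (Ideal.span {(q : O)}) (F q) * Real.log q) / Lg := by
        rw [Finset.sum_div]
        exact Finset.sum_congr rfl fun q _ => by ring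
      rw [e, div_le_iff₀ hLg]
      linarith)
    (Y * (Y * (4 * n * (m * Y) / T * X))) ?_).2
  · refine le_trans ?_ (key.trans (le_of_eq ?_))
    · rw [Finset.sum_const, nsmul_eq_mul, mul_one]
      refine Nat.cast_le.2 (Finset.card_le_card fun a ha => ?_)
      simp only [mem_filter]
      exact ⟨⟨(hS a ha).1, (hS a ha).2.1⟩, (hS a ha).2.2⟩
    · rw [hY3]
      ring
  · have hW : ∀ Q ∈ P.powerset.filter (fun Q => ∑ q ∈ Q, Real.log (q : ℕ) / Lg ≤ 3),
        Q ⊆ P ∧ ∏ q ∈ Q, (q : ℝ) ≤ Y := by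
      intro Q hQ
      rw [mem_filter, mem_powerset] at hQ
      exact ⟨hQ.1, latsieve_prod_le hPp hQ.1 hLg hQ.2⟩
    have hc := latsieve_card_le hPp _ hY0.le hW
    refine (Finset.sum_le_card_nsmul _ _ (Y * (4 * n * (m * Y) / T * X)) fun Q hQ => ?_).trans ?_
    · obtain ⟨hQP, hQY⟩ := hW Q hQ
      have h1 : (64 : ℝ) ^ #Q ≤ Y := by
        refine le_trans ?_ hQY
        rw [← Finset.prod_const]
        exact Finset.prod_le_prod (fun _ _ => by norm_num) fun q hq => by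
          exact_mod_cast (hP q (hQP hq)).2.2
      refine mul_le_mul h1 ?_ (abs_nonneg _) hY0.le
      rw [Finset.sum_const, nsmul_eq_mul, mul_one]
      have h2 : 2 * n * (m * ∏ q ∈ Q, q) ≤ T := by
        have : (2 : ℝ) * n * (m * ∏ q ∈ Q, (q : ℝ)) ≤ T := by
          refine le_trans ?_ hT
          rw [← mul_assoc]
          exact mul_le_mul_of_nonneg_left hQY (by positivity)
        rw [← Nat.cast_le (α := ℝ)]
        push_cast
        exact this
      refine (count_family b hE hm0 hm Q (fun q hq => ⟨(hP q (hQP hq)).1, (hP q (hQP hq)).2.1⟩) F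
        (fun q hq => hF q (hQP hq)) hT0 h2 _ fun a => ?_).trans ?_
      · simp only [mem_filter, and_assoc]
      · refine mul_le_mul_of_nonneg_right ?_ hX
        refine div_le_div_of_nonneg_right ?_ hTr.le
        exact mul_le_mul_of_nonneg_left (mul_le_mul_of_nonneg_left hQY (by positivity))
          (by positivity)
    · rw [nsmul_eq_mul]
      exact mul_le_mul_of_nonneg_right hc (by positivity)

theorem lattice_lower [IsDomain O] (hb : Small b) {p : ℕ} [Fact p.Prime] (φ : O →+* ZMod p)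
    {m : ℕ} (hm0 : 0 < m) (hpm : p.Coprime m) {E : O → Prop}
    (hE : Per (Ideal.span {(m : O)}) E) {D : ℕ} (hD : p < (D + 1) ^ n) {T : ℕ} (hT0 : 0 < T)
    (hT : 8 * n * (n ^ 2 * (m * D)) ≤ T) (S : Finset O)
    (hS : ∀ a ∈ cube b T, φ a = 0 → E a → a ∈ S) :
    (T : ℝ) ^ n * dn (Ideal.span {(m : O)}) E / (2 * p) ≤ #S := by
  classical
  have hp : p.Prime := Fact.out
  have : NeZero p := ⟨hp.ne_zero⟩
  have hTr : (0 : ℝ) < T := by exact_mod_cast hT0
  have hpr : (0 : ℝ) < p := by exact_mod_cast hp.pos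
  obtain ⟨β, hβ0, hβ1, hβ2⟩ := exists_short b φ hD
  have h0 : (m : O) * β ≠ 0 := by
    intro h
    apply hβ0
    refine b.ext_elem fun i => ?_
    have h1 : b.repr ((m : ℤ) • β) i = 0 := by
      rw [zsmul_eq_mul, Int.cast_natCast, h, map_zero, Finsupp.zero_apply]
    rw [map_smul, Finsupp.smul_apply, smul_eq_mul, mul_eq_zero] at h1
    rw [map_zero, Finsupp.zero_apply]
    exact h1.resolve_left (by exact_mod_cast hm0.ne')
  have hR : Reps b (n ^ 2 * (m * D)) (RingHom.ker φ ⊓ Ideal.span {(m : O)}) := by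
    refine (reps_elt b hb h0 (box_natCast_mul b hβ2 m)).mono b ?_
    rw [Ideal.span_singleton_le_iff_mem]
    refine ⟨?_, Ideal.mem_span_singleton.2 (dvd_mul_right _ _)⟩
    change φ _ = 0
    rw [map_mul, hβ1, mul_zero]
  have hcop : IsCoprime (RingHom.ker φ) (Ideal.span {(m : O)}) := by
    obtain ⟨u, v, huv⟩ : IsCoprime (p : O) (m : O) := hpm.cast
    refine Ideal.isCoprime_iff_exists.2 ⟨u * p, ?_, v * m,
      Ideal.mem_span_singleton.2 (dvd_mul_left _ _), huv⟩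
    change φ _ = 0
    rw [map_mul, map_natCast, ZMod.natCast_self, mul_zero]
  have hcard : Nat.card (O ⧸ RingHom.ker φ) = p := by
    rw [Nat.card_congr (RingHom.quotientKerEquivOfSurjective (ZMod.ringHom_surjective φ)).toEquiv,
      Nat.card_zmod]
  have h1 := count_approx b ((per_mem (RingHom.ker φ)).and hE) hR hT0 (by nlinarith)
    ((cube b T).filter fun a => a ∈ RingHom.ker φ ∧ E a) fun a => by simp only [mem_filter]
  rw [dn_inf hcop (per_mem _) hE, dn_mem, hcard] at h1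
  have h2 : (#((cube b T).filter fun a => a ∈ RingHom.ker φ ∧ E a) : ℝ) ≤ #S := by
    refine Nat.cast_le.2 (Finset.card_le_card fun a ha => ?_)
    rw [mem_filter] at ha
    exact hS a ha.1 ha.2.1 ha.2.2
  have h3 : (4 : ℝ) * n * ((n ^ 2 * (m * D) : ℕ) : ℝ) / T ≤ 1 / 2 := by
    rw [div_le_iff₀ hTr]
    have : (8 : ℝ) * n * ((n ^ 2 * (m * D) : ℕ) : ℝ) ≤ T := by exact_mod_cast hT
    linarith
  have h4 : 0 ≤ (T : ℝ) ^ n * (1 / p * dn (Ideal.span {(m : O)}) E) :=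
    mul_nonneg (by positivity) (mul_nonneg (by positivity) (dn_nonneg _ _))
  have h5 := mul_le_mul_of_nonneg_right h3 h4
  have h6 := (abs_le.1 h1).1
  have e : (T : ℝ) ^ n * dn (Ideal.span {(m : O)}) E / (2 * p) =
      1 / 2 * ((T : ℝ) ^ n * (1 / p * dn (Ideal.span {(m : O)}) E)) := by
    field_simp
  rw [e]
  linarith

end Pool.Agent.MP_48b1c3_nt.H54

end

-- part MP_48b1c3_nt.H54.Units
section

/-! Equidistribution of a family of independent residue symbols. -/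

/-
HINTS.  per_un: IsCoprime a A and A ∣ a - a' give IsCoprime a' A (IsCoprime.add_mul_left_left).  s q 1 = 0 from s (1 * 1) = s 1 + s 1, s q (g^k) = k * s q g.
For each j take g₀ with IsCoprime g₀ (q j), s (q j) g₀ ≠ 0, and g j ≡ g₀ mod q j, g j ≡ 1 mod l * ∏ of the other primes of A (the two integers are coprime: u * q j + v * rest = 1, g j = g₀ * v * rest + u * q j).
g j is coprime to every prime factor of A hence to A (IsCoprime.prod_right, pow_right, Nat.factorization_prod_pow_eq_self; or induction), Un l A (g j), s q' (g j) = s q' 1 = 0 for q' ≠ q j.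
The map (y, v) ↦ y * mk (∏ j, g j ^ (v j).val) from (classes in the fibre) × (Fin r → ZMod l) to the classes of Un is injective: the i-th symbol of a representative is c i + v i * e i (q i) * s (q i) (g i), which determines v;
then cancel the unit mk (∏ ..) of O ⧸ span {l * A} (an element coprime to l and to A is a unit there).  Nat.card_le_card_of_injective, Nat.card_prod, Nat.card_fun, Nat.card_zmod.
-/

namespace Pool.Agent.MP_48b1c3_nt.H54

open Finset

variable {O : Type*} [CommRing O]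

theorem latsieve_cop_of_dvd {A q : ℕ} (hq : q ∈ A.primeFactors) {a : O}
    (h : IsCoprime a (A : O)) : IsCoprime a (q : O) :=
  h.of_isCoprime_of_dvd_right (Nat.cast_dvd_cast (Nat.dvd_of_mem_primeFactors hq))

theorem latsieve_cop_of_primes {A : ℕ} (hA : A ≠ 0) {a : O}
    (h : ∀ q ∈ A.primeFactors, IsCoprime a (q : O)) : IsCoprime a (A : O) := by
  have e : (A : O) = ∏ q ∈ A.primeFactors, (q : O) ^ A.factorization q := by
    conv_lhs => rw [← Nat.prod_factorization_pow_eq_self hA]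
    rw [Finsupp.prod, Nat.support_factorization]
    push_cast
    rfl
  rw [e]
  exact IsCoprime.prod_right fun q hq => (h q hq).pow_right

theorem latsieve_cop_congr {x a a' : O} (hx : x ∣ a - a') (h : IsCoprime a x) :
    IsCoprime a' x := by
  obtain ⟨c, hc⟩ := hx
  have e : a' = a + x * (-c) := by linear_combination -hc
  rw [e]
  exact h.add_mul_left_left _

theorem per_un (l A : ℕ) : Per (Ideal.span {((l * A : ℕ) : O)}) (Un l A) := by
  intro a a' ha h
  rw [Ideal.mem_span_singleton, Nat.cast_mul] at ha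
  refine ⟨?_, latsieve_cop_congr ((dvd_mul_left _ _).trans ha) h.2⟩
  have e : a' - 1 = (a - 1) - (a - a') := by ring
  rw [e]
  exact dvd_sub h.1 ((dvd_mul_right _ _).trans ha)

theorem latsieve_sym_congr {l A : ℕ} {s : ℕ → O → ZMod l}
    (hs : ∀ q ∈ A.primeFactors, IsSym q (s q)) {a a' : O}
    (ha : a - a' ∈ Ideal.span {((l * A : ℕ) : O)}) {q : ℕ} (hq : q ∈ A.primeFactors) :
    s q a = s q a' := by
  rw [Ideal.mem_span_singleton, Nat.cast_mul] at ha
  exact (hs q hq).2.1 a a'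
    (((Nat.cast_dvd_cast (Nat.dvd_of_mem_primeFactors hq)).trans (dvd_mul_left _ _)).trans ha)

theorem per_sym {l A r : ℕ} (s : ℕ → O → ZMod l) (hs : ∀ q ∈ A.primeFactors, IsSym q (s q))
    (e : Fin r → ℕ → ZMod l) (c : Fin r → ZMod l) :
    Per (Ideal.span {((l * A : ℕ) : O)})
      fun a => Un l A a ∧ ∀ i, ∑ q ∈ A.primeFactors, e i q * s q a = c i := by
  intro a a' ha h
  refine ⟨per_un l A a a' ha h.1, fun i => ?_⟩
  rw [← h.2 i]
  exact Finset.sum_congr rfl fun q hq => by rw [latsieve_sym_congr hs ha hq]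

theorem latsieve_un_one (l A : ℕ) : Un l A (1 : O) := ⟨by simp, isCoprime_one_left⟩

theorem latsieve_un_mul {l A : ℕ} {a a' : O} (h : Un l A a) (h' : Un l A a') :
    Un l A (a * a') := by
  refine ⟨?_, h.2.mul_left h'.2⟩
  have e : a * a' - 1 = (a - 1) * a' + (a' - 1) := by ring
  rw [e]
  exact dvd_add (h.1.mul_right _) h'.1

theorem latsieve_sym_one {l q : ℕ} {s : O → ZMod l} (hs : IsSym q s) : s 1 = 0 := by
  have := hs.1 1 1 isCoprime_one_left isCoprime_one_left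
  rw [one_mul] at this
  linear_combination -this

theorem latsieve_un_pow {l A : ℕ} {a : O} (h : Un l A a) (k : ℕ) : Un l A (a ^ k) := by
  induction k with
  | zero => simpa using latsieve_un_one l A
  | succ k ih => rw [pow_succ]; exact latsieve_un_mul ih h

theorem latsieve_sym_pow {l q : ℕ} {s : O → ZMod l} (hs : IsSym q s) {a : O}
    (h : IsCoprime a (q : O)) (k : ℕ) : s (a ^ k) = k * s a := by
  induction k with
  | zero => simpa using latsieve_sym_one hs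
  | succ k ih =>
    rw [pow_succ, hs.1 _ _ h.pow_left h, ih]
    push_cast
    ring

theorem latsieve_prod {l A r : ℕ} {s : ℕ → O → ZMod l}
    (hs : ∀ q ∈ A.primeFactors, IsSym q (s q)) {g : Fin r → O} (hg : ∀ j, Un l A (g j))
    (v : Fin r → ℕ) (t : Finset (Fin r)) :
    Un l A (∏ j ∈ t, g j ^ v j) ∧
      ∀ q ∈ A.primeFactors, s q (∏ j ∈ t, g j ^ v j) = ∑ j ∈ t, (v j : ZMod l) * s q (g j) := by
  induction t using Finset.induction_on with
  | empty =>
    refine ⟨by simpa using latsieve_un_one l A, fun q hq => ?_⟩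
    simpa using latsieve_sym_one (hs q hq)
  | insert j t hj ih =>
    rw [Finset.prod_insert hj]
    refine ⟨latsieve_un_mul (latsieve_un_pow (hg j) _) ih.1, fun q hq => ?_⟩
    rw [Finset.sum_insert hj, (hs q hq).1 _ _ (latsieve_cop_of_dvd hq (hg j).2).pow_left
      (latsieve_cop_of_dvd hq ih.1.2), ih.2 q hq,
      latsieve_sym_pow (hs q hq) (latsieve_cop_of_dvd hq (hg j).2)]

theorem latsieve_gen {l A : ℕ} [Fact l.Prime] (hA : A.Coprime l) {s : ℕ → O → ZMod l}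
    (hs : ∀ q ∈ A.primeFactors, IsSym q (s q)) {p : ℕ} (hp : p ∈ A.primeFactors) :
    ∃ g : O, Un l A g ∧ s p g ≠ 0 ∧ ∀ q ∈ A.primeFactors, q ≠ p → s q g = 0 := by
  have hl : l.Prime := Fact.out
  have hA0 : A ≠ 0 := by
    rintro rfl
    simp at hp
  have hpp : p.Prime := Nat.prime_of_mem_primeFactors hp
  obtain ⟨g₀, hg₀, hg₁⟩ := (hs p hp).2.2
  set R : ℕ := l * ∏ q ∈ A.primeFactors.erase p, q with hR
  have hc : p.Coprime R := by
    refine Nat.Coprime.mul_right (hA.coprime_dvd_left (Nat.dvd_of_mem_primeFactors hp)) ?_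
    refine Nat.Coprime.prod_right fun q hq => ?_
    exact (Nat.coprime_primes hpp
      (Nat.prime_of_mem_primeFactors (mem_of_mem_erase hq))).2 (ne_of_mem_erase hq).symm
  obtain ⟨u, v, huv⟩ : IsCoprime (p : O) (R : O) := hc.cast
  have h1 : (p : O) ∣ g₀ - (g₀ * v * R + u * p) := ⟨g₀ * u - u, by linear_combination -g₀ * huv⟩
  have h2 : (R : O) ∣ 1 - (g₀ * v * R + u * p) := ⟨v - g₀ * v, by linear_combination -huv⟩
  have h3 : ∀ q ∈ A.primeFactors, q ≠ p → (q : O) ∣ 1 - (g₀ * v * R + u * p) := by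
    intro q hq hne
    refine (Nat.cast_dvd_cast ?_).trans h2
    exact Dvd.dvd.mul_left (Finset.dvd_prod_of_mem (fun q => q) (mem_erase.2 ⟨hne, hq⟩)) l
  refine ⟨g₀ * v * R + u * p, ⟨?_, latsieve_cop_of_primes hA0 fun q hq => ?_⟩, ?_,
    fun q hq hne => ?_⟩
  · rw [← dvd_neg, neg_sub]
    exact (Nat.cast_dvd_cast (dvd_mul_right _ _)).trans h2
  · by_cases hqp : q = p
    · subst hqp
      exact latsieve_cop_congr h1 hg₀
    · exact latsieve_cop_congr (h3 q hq hqp) isCoprime_one_left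
  · rw [← (hs p hp).2.1 _ _ h1]
    exact hg₁
  · rw [← (hs q hq).2.1 _ _ (h3 q hq hne)]
    exact latsieve_sym_one (hs q hq)

theorem latsieve_unit {l A : ℕ} {a : O} (h : Un l A a) :
    IsUnit (Ideal.Quotient.mk (Ideal.span {((l * A : ℕ) : O)}) a) := by
  have h1 : IsCoprime a (l : O) := by
    refine latsieve_cop_congr (a := 1) ?_ isCoprime_one_left
    rw [← dvd_neg, neg_sub]
    exact h.1
  obtain ⟨x, y, hxy⟩ := h1.mul_right h.2
  refine IsUnit.of_mul_eq_one_right (Ideal.Quotient.mk _ x) ?_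
  rw [← map_mul, ← map_one (Ideal.Quotient.mk (Ideal.span {((l * A : ℕ) : O)})),
    Ideal.Quotient.eq, Ideal.mem_span_singleton, Nat.cast_mul]
  exact ⟨-y, by linear_combination hxy⟩

theorem dn_fiber {l A r : ℕ} [Fact l.Prime] (hA : A.Coprime l)
    [Finite (O ⧸ Ideal.span {((l * A : ℕ) : O)})] (s : ℕ → O → ZMod l)
    (hs : ∀ q ∈ A.primeFactors, IsSym q (s q)) (e : Fin r → ℕ → ZMod l) (q : Fin r → ℕ)
    (hq : ∀ j, q j ∈ A.primeFactors) (hd : ∀ i, e i (q i) ≠ 0)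
    (ho : ∀ i j, i ≠ j → e i (q j) = 0) (c : Fin r → ZMod l) :
    dn (Ideal.span {((l * A : ℕ) : O)})
        (fun a => Un l A a ∧ ∀ i, ∑ q' ∈ A.primeFactors, e i q' * s q' a = c i) * (l : ℝ) ^ r ≤
      dn (Ideal.span {((l * A : ℕ) : O)}) (Un l A) := by
  have hl : l.Prime := Fact.out
  have : NeZero l := ⟨hl.ne_zero⟩
  choose g hg1 hg2 hg3 using fun j => latsieve_gen hA hs (hq j)
  set I : Ideal O := Ideal.span {((l * A : ℕ) : O)} with hI
  set G : (Fin r → ZMod l) → O := fun v => ∏ j, g j ^ (v j).val with hG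
  have hGu : ∀ v, Un l A (G v) := fun v => (latsieve_prod hs hg1 (fun j => (v j).val) univ).1
  have hsym : ∀ (a : O) (v : Fin r → ZMod l), Un l A a → ∀ i,
      ∑ q' ∈ A.primeFactors, e i q' * s q' (a * G v) =
        ∑ q' ∈ A.primeFactors, e i q' * s q' a + v i * (e i (q i) * s (q i) (g i)) := by
    intro a v ha i
    have e1 : ∀ q' ∈ A.primeFactors, e i q' * s q' (a * G v) =
        e i q' * s q' a + ∑ j, v j * (e i q' * s q' (g j)) := by
      intro q' hq'
      rw [(hs q' hq').1 _ _ (latsieve_cop_of_dvd hq' ha.2) (latsieve_cop_of_dvd hq' (hGu v).2),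
        hG]
      beta_reduce
      rw [(latsieve_prod hs hg1 (fun j => (v j).val) univ).2 q' hq', mul_add, Finset.mul_sum]
      congr 1
      refine Finset.sum_congr rfl fun j _ => ?_
      rw [ZMod.natCast_zmod_val]
      ring
    rw [Finset.sum_congr rfl e1, Finset.sum_add_distrib, Finset.sum_comm]
    congr 1
    have e2 : ∀ j, ∑ q' ∈ A.primeFactors, v j * (e i q' * s q' (g j)) =
        v j * (e i (q j) * s (q j) (g j)) := by
      intro j
      refine Finset.sum_eq_single (q j) (fun q' hq' hne => ?_) fun h => absurd (hq j) h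
      rw [hg3 j q' hq' hne, mul_zero, mul_zero]
    rw [Finset.sum_congr rfl fun j _ => e2 j]
    refine Finset.sum_eq_single i (fun j _ hne => ?_) fun h => absurd (mem_univ i) h
    rw [ho i j (Ne.symm hne), zero_mul, mul_zero]
  let Φ : {y : O ⧸ I // ∃ a, Ideal.Quotient.mk I a = y ∧
        (Un l A a ∧ ∀ i, ∑ q' ∈ A.primeFactors, e i q' * s q' a = c i)} × (Fin r → ZMod l) →
      {y : O ⧸ I // ∃ a, Ideal.Quotient.mk I a = y ∧ Un l A a} := fun x =>
    ⟨x.1.1 * Ideal.Quotient.mk I (G x.2), by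
      obtain ⟨a, ha, hu, -⟩ := x.1.2
      exact ⟨a * G x.2, by rw [map_mul, ha], latsieve_un_mul hu (hGu _)⟩⟩
  have hΦ : Function.Injective Φ := by
    rintro ⟨⟨y, a, rfl, ha, hc⟩, v⟩ ⟨⟨y', a', rfl, ha', hc'⟩, v'⟩ h
    have h' : Ideal.Quotient.mk I a * Ideal.Quotient.mk I (G v) =
        Ideal.Quotient.mk I a' * Ideal.Quotient.mk I (G v') := congrArg Subtype.val h
    have h'' := h'
    rw [← map_mul, ← map_mul, Ideal.Quotient.eq] at h''
    have hv : v = v' := by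
      funext i
      have e1 := hsym a v ha i
      have e2 := hsym a' v' ha' i
      rw [hc i] at e1
      have e3 : ∑ q' ∈ A.primeFactors, e i q' * s q' (a * G v) =
          ∑ q' ∈ A.primeFactors, e i q' * s q' (a' * G v') :=
        Finset.sum_congr rfl fun q' hq' => by rw [latsieve_sym_congr hs h'' hq']
      rw [hc' i, ← e3, e1] at e2
      exact mul_right_cancel₀ (mul_ne_zero (hd i) (hg2 i)) (add_left_cancel e2)
    subst hv
    have := (latsieve_unit (hGu v)).mul_right_cancel h'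
    exact Prod.ext (Subtype.ext this) rfl
  have hcard := Nat.card_le_card_of_injective Φ hΦ
  rw [Nat.card_prod, Nat.card_fun, Nat.card_zmod, Nat.card_eq_fintype_card (α := Fin r),
    Fintype.card_fin] at hcard
  unfold dn
  rw [div_mul_eq_mul_div]
  refine div_le_div_of_nonneg_right ?_ (Nat.cast_nonneg _)
  exact_mod_cast hcard

end Pool.Agent.MP_48b1c3_nt.H54

end

-- part MP_48b1c3_nt.H54.Local
section

/-! Local densities of the sieve in the cyclotomic integers. -/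

/-
HINTS.  I = span {q}; O ⧸ I is finite (finite_quot with the basis of exists_small).  Per I (IsCoprime · q) is elementary, the norm is periodic by norm_modEq.
unit_lower: a not coprime to q lies in a maximal ideal containing q; there are at most l - 1 of them (card_primesOverFinset_le_finrank; or ∏ of d distinct ones divides span {q}, each absNorm ≥ q, so q^d ≤ q^(l-1)),
each has dn I (· ∈ 𝔮) = 1/absNorm 𝔮 ≤ 1/q (dn_eq_of_le, dn_mem, dn_or_le).  Alternative: for y ∈ O ⧸ I at most l - 1 of the q translates y + t, t : ZMod q, are non-units (roots of the charpoly of left multiplication).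
unit_upper: ω primitive in ZMod q (exists_primitive), φ j with φ j ζ = ω^j, 1 ≤ j < l (exists_hom); the kernels are distinct maximal ideals of index q (ZMod.ringHom_eq_of_ker_eq, absNorm_ker).  By induction over a finset of j
(dn_inf, dn_not, dn_mem; IsCoprime with Finset.inf: Ideal.isCoprime_biInf or inf = prod) dn (inf ker) (∀ j, φ j a ≠ 0) = (1 - 1/q)^#; dn_eq_of_le, dn_mono.
norm_surj: 𝔮 maximal ∋ q, E = O ⧸ 𝔮, π = mk; γ : E with Algebra.norm (ZMod q) γ = c (FiniteField.norm_surjective; or γ a generator of Eˣ and work with the exponent (Q-1)/(q-1)).  CRT: a ≡ γ mod 𝔮, a ≡ 1 modulo the other maximal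
ideals containing q.  algebraMap (norm a) = ∏ σ, σ • a (Algebra.norm_eq_prod_automorphisms).  π (σ • a) = 1 unless σ stabilises 𝔮; the stabiliser maps bijectively onto Gal(E / ZMod q)
(Ideal.Quotient.stabilizerHom_surjective, or: it is zpowers of the σ with tg = q, galEquivZMod_stabilizer, π (σ_q • y) = (π y)^q by hom_ext, its order is f = inertiaDeg = orderOf q; injective because π ζ is primitive).
So π (norm a) = norm γ = π c and norm a - c ∈ 𝔮 ∩ ℤ = q ℤ.
norm_fiber: multiplication by a unit with norm class c⁻¹ c' permutes the units of O ⧸ I and maps the fibre of c onto that of c' (map_mul of Algebra.norm); the q - 1 fibres over c ≠ 0 partition the units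
(a coprime to q has norm prime to q: u a + v q = 1 gives norm u * norm a ≡ 1 by norm_modEq).
local_density: dn (Sv) = U (1 - 1/(q-1)) if F, U otherwise, U = unit density; 1 - t ≤ exp (-t), 1/(q-1) ≤ 2/q.
-/

namespace Pool.Agent.MP_48b1c3_nt.H54

open NumberField

variable {l : ℕ} [Fact l.Prime] {K : Type} [Field K] [NumberField K]
  [IsCyclotomicExtension {l} ℚ K]

section General

variable {O : Type*} [CommRing O]

lemma local_cop_iff (x a : O) :
    IsCoprime a x ↔ IsUnit (Ideal.Quotient.mk (Ideal.span {x}) a) := by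
  constructor
  · rintro ⟨u, v, h⟩
    refine IsUnit.of_mul_eq_one (Ideal.Quotient.mk _ u) ?_
    rw [← map_mul, ← map_one (Ideal.Quotient.mk _), Ideal.Quotient.eq, Ideal.mem_span_singleton]
    exact ⟨-v, by linear_combination h⟩
  · intro h
    obtain ⟨y, hy⟩ := h.exists_right_inv
    obtain ⟨u, rfl⟩ := Ideal.Quotient.mk_surjective y
    rw [← map_mul, ← map_one (Ideal.Quotient.mk _), Ideal.Quotient.eq,
      Ideal.mem_span_singleton] at hy
    obtain ⟨v, hv⟩ := hy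
    exact ⟨u, -v, by linear_combination hv⟩

lemma local_per_cop (x : O) : Per (Ideal.span {x}) fun a => IsCoprime a x := fun a a' ha h => by
  simp only [local_cop_iff] at h ⊢
  rwa [← Ideal.Quotient.eq.2 ha]

lemma local_not_cop {x a : O} (h : ¬ IsCoprime a x) :
    ∃ P : Ideal O, P.IsMaximal ∧ x ∈ P ∧ a ∈ P := by
  rw [← Ideal.isCoprime_span_singleton_iff, Ideal.isCoprime_iff_sup_eq] at h
  obtain ⟨P, hP, h1⟩ := Ideal.exists_le_maximal _ h
  rw [sup_le_iff, Ideal.span_singleton_le_iff_mem, Ideal.span_singleton_le_iff_mem] at h1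
  exact ⟨P, hP, h1.2, h1.1⟩

lemma local_dn_false (I : Ideal O) : dn I (fun _ => False) = 0 := by
  simp [dn]

lemma local_dn_exists {ι : Type*} (I : Ideal O) (s : Finset ι) (E : ι → O → Prop) :
    dn I (fun a => ∃ i ∈ s, E i a) ≤ ∑ i ∈ s, dn I (E i) := by
  classical
  induction s using Finset.induction_on with
  | empty => simpa using (local_dn_false I).le
  | insert i s hi ih =>
    rw [Finset.sum_insert hi]
    refine le_trans (dn_mono I (F := fun a => E i a ∨ ∃ j ∈ s, E j a) fun a ha => ?_)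
      ((dn_or_le I _ _).trans (by gcongr))
    simpa using ha

lemma local_dn_add (I : Ideal O) [Finite (O ⧸ I)] {E F : O → Prop} (hF : Per I F) :
    dn I (fun a => E a ∧ F a) + dn I (fun a => E a ∧ ¬ F a) ≤ dn I E := by
  unfold dn
  rw [← add_div, ← Nat.cast_add]
  gcongr
  change Set.ncard {y : O ⧸ I | ∃ a, Ideal.Quotient.mk I a = y ∧ E a ∧ F a} +
    Set.ncard {y : O ⧸ I | ∃ a, Ideal.Quotient.mk I a = y ∧ E a ∧ ¬ F a} ≤
    Set.ncard {y : O ⧸ I | ∃ a, Ideal.Quotient.mk I a = y ∧ E a}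
  rw [← Set.ncard_union_eq]
  · refine Set.ncard_le_ncard ?_
    rintro y (⟨a, h1, h2, -⟩ | ⟨a, h1, h2, -⟩) <;> exact ⟨a, h1, h2⟩
  · rw [Set.disjoint_left]
    rintro y ⟨a, h1, -, h2⟩ ⟨a', h3, -, h4⟩
    exact h4 (hF a a' (Ideal.Quotient.eq.1 (h1.trans h3.symm)) h2)

lemma local_card_units {R : Type*} [Monoid R] (p : R → Prop) (h : ∀ y, p y → IsUnit y) :
    Nat.card {y // p y} = Nat.card {u : Rˣ // p u} := by
  symm
  refine Nat.card_eq_of_bijective (fun u => ⟨u.1, u.2⟩) ⟨fun u v huv => ?_, fun y => ?_⟩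
  · exact Subtype.ext (Units.ext (congrArg Subtype.val huv))
  · obtain ⟨u, hu⟩ := h y.1 y.2
    exact ⟨⟨u, hu ▸ y.2⟩, Subtype.ext hu⟩

lemma local_card_ge {q : ℕ} (hq : q.Prime) (P : Ideal O) [P.IsMaximal] [Finite (O ⧸ P)]
    (h : (q : O) ∈ P) : q ≤ Nat.card (O ⧸ P) := by
  have : NeZero q := ⟨hq.ne_zero⟩
  have : CharP (O ⧸ P) q := (CharP.charP_iff_prime_eq_zero hq).2 (by
    rw [← map_natCast (Ideal.Quotient.mk P), Ideal.Quotient.eq_zero_iff_mem]
    exact h)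
  have h1 := Nat.card_le_card_of_injective _ (ZMod.castHom_injective (n := q) (O ⧸ P))
  rwa [Nat.card_zmod] at h1

end General

variable (l K) in
include l in
lemma local_finite {q : ℕ} (hq : q.Prime) : Finite (𝓞 K ⧸ Ideal.span {(q : 𝓞 K)}) :=
  (exists_small l K).elim fun b _ => finite_quot b hq.pos

variable (l K) in
include l in
lemma local_finite' {q : ℕ} (hq : q.Prime) {P : Ideal (𝓞 K)} (h : (q : 𝓞 K) ∈ P) :
    Finite (𝓞 K ⧸ P) :=
  have := local_finite l K hq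
  Finite.of_surjective _ (Ideal.Quotient.factor_surjective
    ((Ideal.span_singleton_le_iff_mem P).2 h))

variable (l K) in
lemma local_primes {q : ℕ} (hq : q.Prime) : ∃ S : Finset (Ideal (𝓞 K)), S.card ≤ l - 1 ∧
    ∀ P, P ∈ S ↔ P.IsMaximal ∧ (q : 𝓞 K) ∈ P := by
  classical
  have h0 : Ideal.span {(q : 𝓞 K)} ≠ ⊥ := by
    rw [Ne, Ideal.span_singleton_eq_bot]
    exact_mod_cast hq.ne_zero
  have h1 : ∀ P, P ∈ UniqueFactorizationMonoid.normalizedFactors (Ideal.span {(q : 𝓞 K)}) ↔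
      P.IsMaximal ∧ (q : 𝓞 K) ∈ P := fun P => by
    rw [Ideal.mem_normalizedFactors_iff h0, Ideal.span_singleton_le_iff_mem]
    refine ⟨fun h => ⟨h.1.isMaximal fun h' => ?_, h.2⟩, fun h => ⟨h.1.isPrime, h.2⟩⟩
    rw [h', Ideal.mem_bot] at h
    exact hq.ne_zero (by exact_mod_cast h.2)
  refine ⟨(UniqueFactorizationMonoid.normalizedFactors (Ideal.span {(q : 𝓞 K)})).toFinset,
    (Multiset.toFinset_card_le _).trans ?_, fun P => by rw [Multiset.mem_toFinset, h1]⟩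
  have h2 := absNorm_natCast l (K := K) q
  rw [← Ideal.prod_normalizedFactors_eq_self h0, map_multiset_prod] at h2
  have h3 := Multiset.pow_card_le_prod (a := q) (s := (UniqueFactorizationMonoid.normalizedFactors
      (Ideal.span {(q : 𝓞 K)})).map Ideal.absNorm) fun x hx => by
    obtain ⟨P, hP, rfl⟩ := Multiset.mem_map.1 hx
    obtain ⟨h4, h5⟩ := (h1 P).1 hP
    have := local_finite' l K hq h5
    exact local_card_ge hq P h5
  rw [h2, Multiset.card_map] at h3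
  exact (Nat.pow_le_pow_iff_right hq.one_lt).1 h3

variable (l K) in
include l in
theorem unit_lower {q : ℕ} (hq : q.Prime) :
    1 - ((l : ℝ) - 1) / q ≤ dn (Ideal.span {(q : 𝓞 K)}) fun a => IsCoprime a (q : 𝓞 K) := by
  have := local_finite l K hq
  obtain ⟨S, hS, hS'⟩ := local_primes l K hq
  have h0 : (0 : ℝ) < q := by exact_mod_cast hq.pos
  have h1 := dn_not (local_per_cop (q : 𝓞 K))
  have h2 := (dn_mono (Ideal.span {(q : 𝓞 K)}) (E := fun a => ¬ IsCoprime a (q : 𝓞 K))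
    (F := fun a => ∃ P ∈ S, a ∈ P) fun a ha => by
      obtain ⟨P, h3, h4, h5⟩ := local_not_cop ha
      exact ⟨P, (hS' P).2 ⟨h3, h4⟩, h5⟩).trans (local_dn_exists _ S fun P a => a ∈ P)
  have h3 : ∑ P ∈ S, dn (Ideal.span {(q : 𝓞 K)}) (fun a => a ∈ P) ≤ ∑ _P ∈ S, 1 / (q : ℝ) := by
    refine Finset.sum_le_sum fun P hP => ?_
    obtain ⟨h4, h5⟩ := (hS' P).1 hP
    have := local_finite' l K hq h5
    rw [dn_eq_of_le ((Ideal.span_singleton_le_iff_mem P).2 h5) (per_mem P), dn_mem]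
    exact one_div_le_one_div_of_le h0 (by exact_mod_cast local_card_ge hq P h5)
  rw [Finset.sum_const, nsmul_eq_mul, mul_one_div] at h3
  have h4 : (S.card : ℝ) / q ≤ ((l : ℝ) - 1) / q := by
    gcongr
    rw [← Nat.cast_one (R := ℝ), ← Nat.cast_sub (Fact.out : l.Prime).one_le]
    exact_mod_cast hS
  linarith

variable (K) in
theorem unit_upper {q : ℕ} (hq : q.Prime) (h : q ≡ 1 [MOD l]) :
    dn (Ideal.span {(q : 𝓞 K)}) (fun a => IsCoprime a (q : 𝓞 K)) ≤ (1 - 1 / (q : ℝ)) ^ (l - 1) := by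
  classical
  have := local_finite l K hq
  have := Fact.mk hq
  have hl : l.Prime := Fact.out
  obtain ⟨ω, hω⟩ := exists_primitive (l := l) (p := q) ((Nat.modEq_iff_dvd' hq.one_le).1 h.symm)
  have hζ := IsCyclotomicExtension.zeta_spec l ℚ K
  have h1 : ∀ j : Finset.Ico 1 l, ∃ φ : 𝓞 K →+* ZMod q, φ hζ.toInteger = ω ^ j.1 := fun j => by
    have h2 := Finset.mem_Ico.1 j.2
    exact exists_hom hζ (hω.pow_of_coprime _ (Nat.coprime_of_lt_prime (by omega) h2.2 hl).symm)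
  choose φ hφ using h1
  have h2 : ∀ j, (RingHom.ker (φ j)).IsMaximal := fun j =>
    RingHom.ker_isMaximal_of_surjective _ (ZMod.ringHom_surjective _)
  have h3 : ∀ i j, i ≠ j → IsCoprime (RingHom.ker (φ i)) (RingHom.ker (φ j)) := fun i j hij => by
    refine Ideal.isCoprime_of_isMaximal fun h4 => hij (Subtype.ext ?_)
    refine hω.pow_inj (Finset.mem_Ico.1 i.2).2 (Finset.mem_Ico.1 j.2).2 ?_
    rw [← hφ, ← hφ, ZMod.ringHom_eq_of_ker_eq _ _ h4]
  have h4 : ∀ j, (q : 𝓞 K) ∈ RingHom.ker (φ j) := fun j => by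
    rw [RingHom.mem_ker, map_natCast, ZMod.natCast_self]
  have h5 : ∀ s : Finset (Finset.Ico 1 l),
      Per (⨅ j ∈ s, RingHom.ker (φ j)) (fun a => ∀ j ∈ s, a ∉ RingHom.ker (φ j)) := by
    intro s a a' ha h6 j hj h7
    refine h6 j hj ?_
    simp only [Submodule.mem_iInf] at ha
    simpa using add_mem (ha j hj) h7
  have h6 : ∀ s : Finset (Finset.Ico 1 l),
      dn (⨅ j ∈ s, RingHom.ker (φ j)) (fun a => ∀ j ∈ s, a ∉ RingHom.ker (φ j)) =
        (1 - 1 / (q : ℝ)) ^ s.card := by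
    intro s
    induction s using Finset.induction_on with
    | empty => simpa using dn_mem (⊤ : Ideal (𝓞 K))
    | insert i s hi ih =>
      have := local_finite' l K hq (h4 i)
      have h7 : Nat.card (𝓞 K ⧸ RingHom.ker (φ i)) = q := absNorm_ker (φ i)
      have h9 := dn_mem (RingHom.ker (φ i))
      rw [h7] at h9
      rw [Finset.iInf_insert, Finset.card_insert_of_notMem hi, pow_succ', ← ih, ← h9,
        ← dn_not (per_mem _), ← dn_inf (Ideal.isCoprime_biInf fun j hj => h3 i j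
          fun h8 => hi (h8 ▸ hj)) (per_mem _).not (h5 s)]
      simp only [Finset.forall_mem_insert]
  have h7 := h6 Finset.univ
  rw [Finset.card_univ, Fintype.card_coe, Nat.card_Ico,
    ← dn_eq_of_le (I := Ideal.span {(q : 𝓞 K)}) _ (h5 _)] at h7
  · rw [← h7]
    refine dn_mono _ fun a ha j _ h8 => ?_
    obtain ⟨u, v, h9⟩ := ha
    exact (h2 j).ne_top ((Ideal.eq_top_iff_one _).2
      (h9 ▸ add_mem (Ideal.mul_mem_left _ _ h8) (Ideal.mul_mem_left _ _ (h4 j))))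
  · rw [Ideal.span_singleton_le_iff_mem]
    simp only [Submodule.mem_iInf]
    exact fun j _ => h4 j

include l in
lemma local_norm_prod (a : 𝓞 K) : ((Algebra.norm ℤ a : ℤ) : 𝓞 K) =
    ∏ σ : K ≃ₐ[ℚ] K, RingOfIntegers.mapRingEquiv σ.toRingEquiv a := by
  have : IsGalois ℚ K := IsCyclotomicExtension.isGalois {l} ℚ K
  apply RingOfIntegers.coe_injective
  rw [map_prod, map_intCast]
  have h1 := Algebra.norm_eq_prod_automorphisms ℚ (a : K)
  rw [← Algebra.coe_norm_int, map_intCast] at h1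
  exact h1

lemma local_sigma {ζ : K} (hζ : IsPrimitiveRoot ζ l) (σ : K ≃ₐ[ℚ] K) :
    RingOfIntegers.mapRingEquiv σ.toRingEquiv hζ.toInteger =
      hζ.toInteger ^ (IsCyclotomicExtension.Rat.galEquivZMod l K σ).val.val := by
  apply RingOfIntegers.coe_injective
  rw [map_pow]
  exact IsCyclotomicExtension.Rat.galEquivZMod_apply_of_pow_eq l K σ hζ.pow_eq_one

include l in
lemma local_sigma_inj {E : Type*} [Field E] (hE : (l : E) ≠ 0) (π : 𝓞 K →+* E)
    {σ σ' : K ≃ₐ[ℚ] K}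
    (h : ∀ a, π (RingOfIntegers.mapRingEquiv σ.toRingEquiv a) =
      π (RingOfIntegers.mapRingEquiv σ'.toRingEquiv a)) : σ = σ' := by
  have hζ := IsCyclotomicExtension.zeta_spec l ℚ K
  have h1 := h hζ.toInteger
  rw [local_sigma, local_sigma, map_pow, map_pow] at h1
  have h2 := (isPrimitiveRoot_map hζ hE π).pow_inj (ZMod.val_lt _) (ZMod.val_lt _) h1
  exact (IsCyclotomicExtension.Rat.galEquivZMod l K).injective
    (Units.ext (ZMod.val_injective _ h2))

include l in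
lemma local_sigma_ex {E : Type*} [Field E] (hE : (l : E) ≠ 0) (π π' : 𝓞 K →+* E) :
    ∃ σ : K ≃ₐ[ℚ] K, ∀ a, π (RingOfIntegers.mapRingEquiv σ.toRingEquiv a) = π' a := by
  have hζ := IsCyclotomicExtension.zeta_spec l ℚ K
  have h1 := isPrimitiveRoot_map hζ hE π
  have h2 := isPrimitiveRoot_map hζ hE π'
  obtain ⟨i, hi, h3, h4⟩ := (h1.isPrimitiveRoot_iff).1 h2
  refine ⟨(IsCyclotomicExtension.Rat.galEquivZMod l K).symm (ZMod.unitOfCoprime i h3), fun a => ?_⟩
  refine DFunLike.congr_fun (hom_ext hζ (π := π.comp (RingOfIntegers.mapRingEquiv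
    ((IsCyclotomicExtension.Rat.galEquivZMod l K).symm
      (ZMod.unitOfCoprime i h3)).toRingEquiv).toRingHom) (π' := π') ?_) a
  change π (RingOfIntegers.mapRingEquiv _ _) = _
  rw [local_sigma, MulEquiv.apply_symm_apply, ZMod.coe_unitOfCoprime, ZMod.val_cast_of_lt hi,
    map_pow, h4]

variable (K) in
theorem norm_surj {q : ℕ} (hq : q.Prime) (hql : q ≠ l) {c : ℤ} (hc : ¬ (q : ℤ) ∣ c) :
    ∃ a : 𝓞 K, IsCoprime a (q : 𝓞 K) ∧ (q : ℤ) ∣ Algebra.norm ℤ a - c := by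
  classical
  have := Fact.mk hq
  have hl : l.Prime := Fact.out
  obtain ⟨S, -, hS⟩ := local_primes l K hq
  obtain ⟨P, hP, hqP, -⟩ := local_not_cop (x := (q : 𝓞 K)) (a := 0) fun h => by
    have h1 := absNorm_natCast l (K := K) q
    rw [Ideal.span_singleton_eq_top.2 (isCoprime_zero_left.1 h), Ideal.absNorm_top] at h1
    have h2 := hl.two_le
    exact (Nat.one_lt_pow (by omega) hq.one_lt).ne h1
  letI : Field (𝓞 K ⧸ P) := Ideal.Quotient.field P
  have := local_finite' l K hq hqP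
  set π := Ideal.Quotient.mk P with hπ
  have hq0 : (q : 𝓞 K ⧸ P) = 0 := by
    rw [← map_natCast π, Ideal.Quotient.eq_zero_iff_mem]
    exact hqP
  have : CharP (𝓞 K ⧸ P) q := (CharP.charP_iff_prime_eq_zero hq).2 hq0
  letI : Algebra (ZMod q) (𝓞 K ⧸ P) := ZMod.algebra _ q
  have hE : (l : 𝓞 K ⧸ P) ≠ 0 := fun h =>
    hql ((Nat.prime_dvd_prime_iff_eq hq hl).1 ((CharP.cast_eq_zero_iff _ q l).1 h))
  obtain ⟨γ, hγ⟩ := FiniteField.norm_surjective (ZMod q) (𝓞 K ⧸ P) (c : ZMod q)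
  have hγ0 : γ ≠ 0 := fun h => hc (by
    rw [h, Algebra.norm_zero] at hγ
    exact (ZMod.intCast_zmod_eq_zero_iff_dvd _ _).1 hγ.symm)
  obtain ⟨g, rfl⟩ := Ideal.Quotient.mk_surjective γ
  have h1 : IsCoprime P (⨅ Q ∈ S.erase P, Q) := Ideal.isCoprime_biInf fun Q hQ => by
    have := ((hS Q).1 (Finset.mem_of_mem_erase hQ)).1
    exact Ideal.isCoprime_of_isMaximal (Finset.ne_of_mem_erase hQ).symm
  obtain ⟨u, hu, v, hv, huv⟩ := Ideal.isCoprime_iff_exists.1 h1
  simp only [Submodule.mem_iInf] at hv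
  have h2 : π (g * v + u) = π g := by
    rw [Ideal.Quotient.eq, show g * v + u - g = (1 - g) * u by linear_combination g * huv]
    exact P.mul_mem_left _ hu
  have h3 : ∀ Q : Ideal (𝓞 K), Q.IsMaximal → (q : 𝓞 K) ∈ Q → Q ≠ P → g * v + u - 1 ∈ Q := by
    intro Q h4 h5 h6
    rw [show g * v + u - 1 = (g - 1) * v by linear_combination huv]
    exact Q.mul_mem_left _ (hv Q (Finset.mem_erase.2 ⟨h6, (hS Q).2 ⟨h4, h5⟩⟩))
  refine ⟨g * v + u, ?_, ?_⟩
  · by_contra h
    obtain ⟨Q, h4, h5, h6⟩ := local_not_cop h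
    by_cases h7 : Q = P
    · exact hγ0 (h2.symm.trans (Ideal.Quotient.eq_zero_iff_mem.2 (h7 ▸ h6)))
    · exact h4.ne_top ((Ideal.eq_top_iff_one _).2 (by simpa using Q.sub_mem h6 (h3 Q h4 h5 h7)))
  have h4 : ∀ τ : (𝓞 K ⧸ P) ≃ₐ[ZMod q] (𝓞 K ⧸ P), ∃ σ : K ≃ₐ[ℚ] K,
      ∀ a, π (RingOfIntegers.mapRingEquiv σ.toRingEquiv a) = τ (π a) := fun τ =>
    local_sigma_ex hE π (τ.toRingEquiv.toRingHom.comp π)
  choose f hf using h4
  have h5 : Function.Injective f := fun τ τ' h => AlgEquiv.ext fun y => by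
    obtain ⟨a, rfl⟩ := Ideal.Quotient.mk_surjective y
    rw [← hπ, ← hf, ← hf, h]
  have h6 := Fintype.prod_of_injective f h5 (fun τ => τ (π g))
    (fun σ => π (RingOfIntegers.mapRingEquiv σ.toRingEquiv (g * v + u))) (fun σ hσ => ?_)
    fun τ => by rw [hf, h2]
  · rw [← Algebra.norm_eq_prod_automorphisms, hγ, ← map_prod, ← local_norm_prod (l := l),
      map_intCast, map_intCast] at h6
    rw [← CharP.intCast_eq_zero_iff (𝓞 K ⧸ P) q, Int.cast_sub, h6, sub_self]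
  set ψ : 𝓞 K →+* 𝓞 K ⧸ P := π.comp (RingOfIntegers.mapRingEquiv σ.toRingEquiv).toRingHom with hψ
  have h7 : Function.Surjective ψ :=
    Ideal.Quotient.mk_surjective.comp (RingOfIntegers.mapRingEquiv σ.toRingEquiv).surjective
  have h8 : RingHom.ker ψ ≠ P := fun h => hσ <| by
    let τ₀ : (𝓞 K ⧸ P) ≃+* (𝓞 K ⧸ P) :=
      (Ideal.quotEquivOfEq h.symm).trans (RingHom.quotientKerEquivOfSurjective h7)
    let τ : (𝓞 K ⧸ P) ≃ₐ[ZMod q] (𝓞 K ⧸ P) := AlgEquiv.ofRingEquiv (f := τ₀) fun x => by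
      obtain ⟨k, rfl⟩ := ZMod.intCast_surjective x
      rw [map_intCast, map_intCast]
    exact ⟨τ, local_sigma_inj hE π fun a => by rw [hf]; rfl⟩
  have h9 := h3 _ (RingHom.ker_isMaximal_of_surjective ψ h7)
    (by rw [RingHom.mem_ker, map_natCast, hq0]) h8
  rw [RingHom.mem_ker, map_sub, map_one, sub_eq_zero] at h9
  exact h9

variable (l K) in
include l in
lemma local_modEq {q : ℕ} {a a' : 𝓞 K} (h : a - a' ∈ Ideal.span {(q : 𝓞 K)}) :
    (q : ℤ) ∣ Algebra.norm ℤ a - Algebra.norm ℤ a' :=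
  (exists_small l K).elim fun b _ => norm_modEq b (Ideal.mem_span_singleton.1 h)

variable (l K) in
include l in
lemma local_nu (q : ℕ) : ∃ ν : (𝓞 K ⧸ Ideal.span {(q : 𝓞 K)}) →* ZMod q,
    ∀ a, ν (Ideal.Quotient.mk _ a) = (Algebra.norm ℤ a : ℤ) := by
  have h1 : ∀ y : 𝓞 K ⧸ Ideal.span {(q : 𝓞 K)}, ∃ z : ZMod q,
      ∀ a, Ideal.Quotient.mk _ a = y → z = (Algebra.norm ℤ a : ℤ) := fun y => by
    obtain ⟨a', rfl⟩ := Ideal.Quotient.mk_surjective y
    exact ⟨(Algebra.norm ℤ a' : ℤ), fun a ha => (ZMod.intCast_eq_intCast_iff_dvd_sub _ _ _).2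
      (local_modEq l K (Ideal.Quotient.eq.1 ha))⟩
  choose ν hν using h1
  refine ⟨⟨⟨ν, ?_⟩, fun y y' => ?_⟩, fun a => hν _ a rfl⟩
  · rw [hν 1 1 rfl, map_one, Int.cast_one]
  · obtain ⟨a, rfl⟩ := Ideal.Quotient.mk_surjective y
    obtain ⟨a', rfl⟩ := Ideal.Quotient.mk_surjective y'
    change ν _ = ν _ * ν _
    rw [hν _ (a * a') (map_mul _ _ _), hν _ a rfl, hν _ a' rfl, map_mul, Int.cast_mul]

variable (K) in
theorem norm_fiber {q : ℕ} (hq : q.Prime) (hql : q ≠ l) {c : ℤ} (hc : ¬ (q : ℤ) ∣ c) :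
    dn (Ideal.span {(q : 𝓞 K)})
        (fun a => IsCoprime a (q : 𝓞 K) ∧ (q : ℤ) ∣ Algebra.norm ℤ a - c) * ((q : ℝ) - 1) =
      dn (Ideal.span {(q : 𝓞 K)}) fun a => IsCoprime a (q : 𝓞 K) := by
  have := Fact.mk hq
  obtain ⟨ν, hν⟩ := local_nu l K q
  have h1 : Function.Surjective (Units.map ν) := fun z => by
    obtain ⟨k, hk⟩ := ZMod.intCast_surjective z.1
    obtain ⟨a, h2, h3⟩ := norm_surj (l := l) K hq hql (c := k) fun h =>
      z.ne_zero (hk ▸ (ZMod.intCast_zmod_eq_zero_iff_dvd _ _).2 h)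
    obtain ⟨u, hu⟩ := (local_cop_iff _ _).1 h2
    refine ⟨u, Units.ext ?_⟩
    rw [Units.coe_map, hu, hν, ← hk]
    exact ((ZMod.intCast_eq_intCast_iff_dvd_sub _ _ _).2 h3).symm
  have hc' : (c : ZMod q) ≠ 0 := fun h => hc ((ZMod.intCast_zmod_eq_zero_iff_dvd _ _).1 h)
  have h2 := (Units.map ν).ker.card_mul_index
  rw [Subgroup.index_ker, MonoidHom.range_eq_top.2 h1, Subgroup.card_top, Nat.card_units,
    Nat.card_zmod, ← Nat.card_congr (MonoidHom.fiberEquivKerOfSurjective h1 (Units.mk0 _ hc'))]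
    at h2
  have h3 := local_card_units (fun y : 𝓞 K ⧸ Ideal.span {(q : 𝓞 K)} => ∃ a,
      Ideal.Quotient.mk _ a = y ∧ IsCoprime a (q : 𝓞 K) ∧ (q : ℤ) ∣ Algebra.norm ℤ a - c) (by
    rintro y ⟨a, rfl, h3, -⟩
    exact (local_cop_iff _ _).1 h3)
  have h4 := local_card_units (fun y : 𝓞 K ⧸ Ideal.span {(q : 𝓞 K)} => ∃ a,
      Ideal.Quotient.mk _ a = y ∧ IsCoprime a (q : 𝓞 K)) (by
    rintro y ⟨a, rfl, h3⟩
    exact (local_cop_iff _ _).1 h3)
  unfold dn
  rw [div_mul_eq_mul_div, h3, h4]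
  congr 1
  rw [← Nat.cast_one (R := ℝ), ← Nat.cast_sub hq.one_le, ← Nat.cast_mul]
  congr 1
  refine Eq.trans ?_ (h2.trans (Nat.card_congr (Equiv.subtypeUnivEquiv fun u => ?_)).symm)
  · congr 1
    refine Nat.card_congr (Equiv.subtypeEquivRight fun u => ?_)
    rw [Set.mem_preimage, Set.mem_singleton_iff, Units.ext_iff, Units.coe_map, Units.val_mk0]
    constructor
    · rintro ⟨a, h5, -, h6⟩
      rw [← h5, hν]
      exact ((ZMod.intCast_eq_intCast_iff_dvd_sub _ _ _).2 h6).symm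
    · intro h5
      obtain ⟨a, ha⟩ := Ideal.Quotient.mk_surjective u.1
      refine ⟨a, ha, (local_cop_iff _ _).2 (ha ▸ u.isUnit), ?_⟩
      rw [← ha, hν] at h5
      exact (ZMod.intCast_eq_intCast_iff_dvd_sub _ _ _).1 h5.symm
  · obtain ⟨a, ha⟩ := Ideal.Quotient.mk_surjective u.1
    exact ⟨a, ha, (local_cop_iff _ _).2 (ha ▸ u.isUnit)⟩

variable (K) in
theorem local_density {q : ℕ} (hq : q.Prime) (hql : q ≠ l) {c : ℤ} (hc : ¬ (q : ℤ) ∣ c)
    (F : Prop) [Decidable F] :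
    Per (Ideal.span {(q : 𝓞 K)}) (fun a : 𝓞 K => ¬ Sv q c F a) ∧
      dn (Ideal.span {(q : 𝓞 K)}) (fun a => ¬ Sv q c F a) ≤ ((l : ℝ) + 1) / q ∧
      1 - dn (Ideal.span {(q : 𝓞 K)}) (fun a => ¬ Sv q c F a) ≤
        Real.exp (-((if q ≡ 1 [MOD l] then ((l : ℝ) - 1) / q else 0) + if F then 1 / (q : ℝ) else 0)) := by
  have := local_finite l K hq
  have h0 : (2 : ℝ) ≤ q := by exact_mod_cast hq.two_le
  have h1 : Per (Ideal.span {(q : 𝓞 K)}) fun a : 𝓞 K => (q : ℤ) ∣ Algebra.norm ℤ a - c :=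
    fun a a' ha h => by simpa using dvd_sub h (local_modEq l K ha)
  have h2 : Per (Ideal.span {(q : 𝓞 K)}) fun a : 𝓞 K => Sv q c F a := fun a a' ha h =>
    ⟨local_per_cop _ a a' ha h.1, fun hF => h1.not a a' ha (h.2 hF)⟩
  have h3 := norm_fiber (l := l) K hq hql hc
  have h4 := unit_lower l K hq
  have h5 := dn_le_one (Ideal.span {(q : 𝓞 K)}) fun a => IsCoprime a (q : 𝓞 K)
  have h6 := dn_nonneg (Ideal.span {(q : 𝓞 K)})
    fun a => IsCoprime a (q : 𝓞 K) ∧ (q : ℤ) ∣ Algebra.norm ℤ a - c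
  have h7 := local_dn_add (Ideal.span {(q : 𝓞 K)}) (E := fun a => IsCoprime a (q : 𝓞 K)) h1
  have h8 : dn (Ideal.span {(q : 𝓞 K)}) (fun a => IsCoprime a (q : 𝓞 K)) ≤
      Real.exp (-(if q ≡ 1 [MOD l] then ((l : ℝ) - 1) / q else 0)) := by
    split_ifs with h
    · refine (unit_upper K hq h).trans ?_
      have h9 : (0 : ℝ) ≤ 1 - 1 / q := by
        rw [sub_nonneg, div_le_one (by linarith)]
        linarith
      refine (pow_le_pow_left₀ h9 (Real.one_sub_le_exp_neg _) _).trans (le_of_eq ?_)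
      rw [← Real.exp_nat_mul, Nat.cast_sub (Fact.out : l.Prime).one_le, Nat.cast_one]
      congr 1
      ring
    · simpa using h5
  refine ⟨h2.not, ?_, ?_⟩
  · refine (dn_mono _ (F := fun a => ¬ IsCoprime a (q : 𝓞 K) ∨
      (IsCoprime a (q : 𝓞 K) ∧ (q : ℤ) ∣ Algebra.norm ℤ a - c)) fun a ha => ?_).trans
      ((dn_or_le _ _ _).trans ?_)
    · unfold Sv at ha
      tauto
    rw [dn_not (local_per_cop _)]
    have h9 : dn (Ideal.span {(q : 𝓞 K)})
        (fun a => IsCoprime a (q : 𝓞 K) ∧ (q : ℤ) ∣ Algebra.norm ℤ a - c) ≤ 2 / q := by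
      rw [le_div_iff₀ (by linarith)]
      nlinarith
    have h10 : ((l : ℝ) + 1) / q = (l - 1) / q + 2 / q := by ring
    linarith
  · rw [dn_not h2, sub_sub_cancel, neg_add, Real.exp_add]
    by_cases hF : F
    · rw [if_pos hF]
      have h9 := dn_mono (Ideal.span {(q : 𝓞 K)}) (E := fun a => Sv q c F a)
        (F := fun a => IsCoprime a (q : 𝓞 K) ∧ ¬ (q : ℤ) ∣ Algebra.norm ℤ a - c)
        fun a ha => ⟨ha.1, ha.2 hF⟩
      have h10 : dn (Ideal.span {(q : 𝓞 K)}) (fun a => IsCoprime a (q : 𝓞 K)) * (1 / q) ≤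
          dn (Ideal.span {(q : 𝓞 K)})
            fun a => IsCoprime a (q : 𝓞 K) ∧ (q : ℤ) ∣ Algebra.norm ℤ a - c := by
        rw [mul_one_div, div_le_iff₀ (by linarith)]
        linarith
      have h11 : (0 : ℝ) ≤ 1 - 1 / q := by
        rw [sub_nonneg, div_le_one (by linarith)]
        linarith
      refine le_trans ?_ (mul_le_mul h8 (Real.one_sub_le_exp_neg _) h11 (Real.exp_nonneg _))
      linarith
    · rw [if_neg hF, neg_zero, Real.exp_zero, mul_one]
      exact (dn_mono _ fun a ha => ha.1).trans h8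

end Pool.Agent.MP_48b1c3_nt.H54

end
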