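import Pool.Agent.MP_48b1c3_nt.Mg.H54_Local
import Pool.Agent.MP_48b1c3_nt.H54.LogDer
import Pool.Agent.MP_48b1c3_nt.H54.Mertens
import Pool.Agent.MP_d0fd9b_nt.Sieve
import Mathlib
import Pool.Agent.MP_48b1c3_nt.H54.Sifted
import Pool.Agent.MP_48b1c3_nt.H54.Group

-- part MP_48b1c3_nt.H54.BadFiber
section

/-! The upper sieve for generators of `P * B` with `B` fixed. -/

namespace Pool.Agent.MP_48b1c3_nt.H54

open NumberField Finset

variable {l : ℕ} [Fact l.Prime] {K : Type} [Field K] [NumberField K]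
  [IsCyclotomicExtension {l} ℚ K]

variable (l) in
include l in
theorem norm_eq_of_span (hl : l ≠ 2) {p : ℕ} [NeZero p] {φ : 𝓞 K →+* ZMod p} {a : 𝓞 K}
    {B : Ideal (𝓞 K)} (h : Ideal.span {a} = RingHom.ker φ * B) :
    Algebra.norm ℤ a = p * Ideal.absNorm B := by
  have h1 := congrArg Ideal.absNorm h
  rw [map_mul, absNorm_ker, Ideal.absNorm_span_singleton] at h1
  rw [← Int.natAbs_of_nonneg (norm_nonneg l hl a), h1, Nat.cast_mul]

theorem exp_sq_ge {l : ℕ} (hl : 5 ≤ l) :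
    64 ≤ Real.exp ((l : ℝ) ^ 2) ∧ 2 * ((l : ℝ) + 1) ≤ Real.exp ((l : ℝ) ^ 2) := by
  have h1 : (5 : ℝ) ≤ l := by exact_mod_cast hl
  have h2 := Real.quadratic_le_exp_of_nonneg (sq_nonneg (l : ℝ))
  have h3 : (25 : ℝ) ≤ (l : ℝ) ^ 2 := by nlinarith
  constructor <;> nlinarith

theorem fiber_bound (hl : 5 ≤ l) (b : Module.Basis (Fin (l - 1)) ℤ (𝓞 K)) {A r : ℕ} (hA : 0 < A)
    (hAl : A < l) (s : ℕ → 𝓞 K → ZMod l) (hs : ∀ q ∈ A.primeFactors, IsSym q (s q))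
    (e : Fin r → ℕ → ZMod l) (q : Fin r → ℕ) (hq : ∀ j, q j ∈ A.primeFactors)
    (hd : ∀ i, e i (q i) ≠ 0) (ho : ∀ i j, i ≠ j → e i (q j) = 0) (c : Fin r → ZMod l)
    {B : Ideal (𝓞 K)} (hB : IsCoprime B (Ideal.span {((l * A : ℕ) : 𝓞 K)}))
    (hN0 : Ideal.absNorm B ≠ 0) (hN : (Ideal.absNorm B : ℝ) ≤ Real.exp ((l : ℝ) ^ 2))
    {y z Lg V : ℝ} (hLg : 0 < Lg) (hy : Real.log y ≤ Lg / 8)
    (hsum : ((l : ℝ) + 1) * ∑ p ∈ PI 0 y, Real.log p / p ≤ Lg / 8)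
    (hV : ∀ g : ℕ → ℝ, (∀ p ∈ PI (Real.exp ((l : ℝ) ^ 2)) y, g p ≤ 1 ∧ 1 - g p ≤
      Real.exp (-((if p ≡ 1 [MOD l] then ((l : ℝ) - 1) / p else 0) +
        if z < p then 1 / (p : ℝ) else 0))) →
      ∏ p ∈ PI (Real.exp ((l : ℝ) ^ 2)) y, (1 - g p) ≤ V)
    {T : ℕ} (hT0 : 0 < T)
    (hT : 2 * (l - 1 : ℕ) * (Real.exp ((l : ℝ) ^ 2) * (l * A)) * Real.exp (3 * Lg) ≤ T)
    (S : Finset (𝓞 K)) (hS : ∀ a ∈ S, a ∈ cube b T ∧ a ∈ B ∧ Un l A a ∧
      (∀ i, ∑ q' ∈ A.primeFactors, e i q' * s q' a = c i) ∧ ∃ p : ℕ, p.Prime ∧ y < p ∧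
        Algebra.norm ℤ a = p * Ideal.absNorm B ∧
          ∀ q' : ℕ, q'.Prime → q' ∣ p - 1 → (q' : ℝ) ≤ z ∨ y < q') :
    (#S : ℝ) ≤ 8 * ((T : ℝ) ^ (l - 1) * dn (Ideal.span {((l * A : ℕ) : 𝓞 K)}) (Un l A)) /
      (l : ℝ) ^ r * (V + 4 * (l - 1 : ℕ) * (Real.exp ((l : ℝ) ^ 2) * (l * A)) *
        Real.exp (9 * Lg) / T) * (1 / Ideal.absNorm B) := by
  classical
  obtain ⟨h64, h2l⟩ := exp_sq_ge hl
  have hl0 : (0 : ℝ) < l := by exact_mod_cast (by omega : 0 < l)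
  have hAl' : (A : ℝ) < l := by exact_mod_cast hAl
  set N := Ideal.absNorm B with hNdef
  have hE := (per_mem B).and (per_sym s hs e c)
  have hm0 : 0 < N * (l * A) := by positivity
  have hm : ((N * (l * A) : ℕ) : 𝓞 K) ∈ B ⊓ Ideal.span {((l * A : ℕ) : 𝓞 K)} := by
    rw [Nat.cast_mul N]
    exact ⟨Ideal.mul_mem_right _ _ (Ideal.absNorm_mem B),
      Ideal.mul_mem_left _ _ (Ideal.mem_span_singleton_self _)⟩
  have hnd : ∀ p ∈ PI (Real.exp ((l : ℝ) ^ 2)) y, ∀ k : ℕ, 0 < k →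
      (k : ℝ) ≤ Real.exp ((l : ℝ) ^ 2) → ¬ p ∣ k := fun p hp k hk hk' h => by
    have h1 : (p : ℝ) ≤ k := by exact_mod_cast Nat.le_of_dvd hk h
    linarith [(mem_PI.1 hp).1]
  have hloc := fun p (hp : p ∈ PI (Real.exp ((l : ℝ) ^ 2)) y) =>
    local_density (l := l) K (mem_PI.1 hp).2.2 (fun h => hnd p hp l (by omega) (by linarith) h.dvd)
      (c := N) (fun h => hnd p hp N (by omega) hN (Int.natCast_dvd_natCast.1 h)) (z < p)
  have hmR : ((N * (l * A) : ℕ) : ℝ) ≤ Real.exp ((l : ℝ) ^ 2) * (l * A) := by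
    push_cast
    gcongr
  have h1 := lattice_upper b hE hm0 hm (PI (Real.exp ((l : ℝ) ^ 2)) y) (fun p hp => ?_)
    (fun p a => ¬ Sv p N (z < p) a) (fun p hp => (hloc p hp).1) hLg (fun p hp => ?_) ?_ hT0
    (le_trans (by gcongr) hT) S (fun a ha => ?_)
  · refine h1.trans ?_
    have := finite_quot b (show 0 < l * A by positivity)
    have h2 := dn_fiber (Nat.coprime_of_lt_prime hA.ne' hAl Fact.out).symm s hs e q hq hd ho c
    rw [dn_inf hB (per_mem B) (per_sym s hs e c), dn_mem, ← Submodule.cardQuot_apply,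
      ← Ideal.absNorm_apply, ← hNdef]
    have h3 := hV _ fun p hp => ⟨dn_le_one _ _, (hloc p hp).2.2⟩
    have h4 : 0 ≤ ∏ p ∈ PI (Real.exp ((l : ℝ) ^ 2)) y,
        (1 - dn (Ideal.span {(p : 𝓞 K)}) fun a => ¬ Sv p N (z < p) a) :=
      prod_nonneg fun p _ => sub_nonneg.2 (dn_le_one _ _)
    rw [← le_div_iff₀ (by positivity)] at h2
    have h5 := dn_nonneg (Ideal.span {((l * A : ℕ) : 𝓞 K)}) (Un l A)
    calc _ ≤ 8 * ((T : ℝ) ^ (l - 1) * (1 / N *
          (dn (Ideal.span {((l * A : ℕ) : 𝓞 K)}) (Un l A) / (l : ℝ) ^ r))) *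
          (V + 4 * (l - 1 : ℕ) * (Real.exp ((l : ℝ) ^ 2) * (l * A)) * Real.exp (9 * Lg) / T) := by
          gcongr
      _ = _ := by ring
  · obtain ⟨h1, h2, h3⟩ := mem_PI.1 hp
    refine ⟨h3, (Nat.Prime.coprime_iff_not_dvd h3).2 fun h => ?_, by exact_mod_cast h64.trans h1.le⟩
    rcases (Nat.Prime.dvd_mul h3).1 h with h | h
    · exact hnd p hp N (by omega) hN h
    · rcases (Nat.Prime.dvd_mul h3).1 h with h | h
      · exact hnd p hp l (by omega) (by linarith) h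
      · exact hnd p hp A hA (by linarith) h
  · obtain ⟨h1, h2, h3⟩ := mem_PI.1 hp
    have h0 : (0 : ℝ) < p := by exact_mod_cast h3.pos
    refine ⟨(hloc p hp).2.1.trans ?_, (Real.log_le_log h0 h2).trans hy⟩
    rw [div_le_div_iff₀ h0 two_pos]
    linarith
  · refine le_trans ?_ hsum
    rw [mul_sum]
    refine (sum_le_sum fun p hp => ?_).trans (sum_le_sum_of_subset_of_nonneg
      (s := PI (Real.exp ((l : ℝ) ^ 2)) y) (fun p hp => ?_) fun p _ _ => ?_)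
    · refine (mul_le_mul_of_nonneg_right (hloc p hp).2.1 (Real.log_natCast_nonneg p)).trans_eq ?_
      ring
    · obtain ⟨h1, h2, h3⟩ := mem_PI.1 hp
      exact mem_PI.2 ⟨by exact_mod_cast h3.pos, h2, h3⟩
    · have := Real.log_natCast_nonneg p
      positivity
  · obtain ⟨a1, a2, a3, a4, p, p1, p2, p3, p4⟩ := hS a ha
    refine ⟨a1, ⟨a2, a3, a4⟩, fun p' hp' => not_not.2 ⟨?_, fun hz h => ?_⟩⟩
    · obtain ⟨h1, h2, h3⟩ := mem_PI.1 hp'
      have h4 : a ∣ ((p * N : ℕ) : 𝓞 K) := by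
        have := Ideal.absNorm_mem (Ideal.span {a})
        rw [Ideal.absNorm_span_singleton, p3, ← Nat.cast_mul, Int.natAbs_natCast] at this
        exact Ideal.mem_span_singleton.1 this
      refine IsCoprime.of_isCoprime_of_dvd_left (Nat.Coprime.cast ?_) h4
      refine ((Nat.Prime.coprime_iff_not_dvd h3).2 fun h => ?_).symm
      rcases (Nat.Prime.dvd_mul h3).1 h with h | h
      · rw [(Nat.prime_dvd_prime_iff_eq h3 p1).1 h] at h2
        linarith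
      · exact hnd p' hp' N (by omega) hN h
    · obtain ⟨h1, h2, h3⟩ := mem_PI.1 hp'
      have h4 : (p : ℤ) * N - N = ((p - 1) * N : ℕ) := by
        rw [Nat.cast_mul, Nat.cast_sub p1.one_le]
        ring
      rw [p3, h4, Int.natCast_dvd_natCast] at h
      rcases (Nat.Prime.dvd_mul h3).1 h with h | h
      · rcases p4 p' h3 h with h | h <;> linarith
      · exact hnd p' hp' N (by omega) hN h

end Pool.Agent.MP_48b1c3_nt.H54

end

-- part MP_48b1c3_nt.H54.BadCore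
section

/-! Double counting of pairs (bad prime, lattice point). -/

namespace Pool.Agent.MP_48b1c3_nt.H54

open NumberField Finset

theorem Diag.prod_pos {r : ℕ} {u w q : Fin r → ℕ} (h : Diag u w q) : 0 < ∏ i, u i * w i :=
  Finset.prod_pos fun i _ => Nat.mul_pos (h.1 i).1 (h.1 i).2.1

theorem left_dvd {r : ℕ} (u w : Fin r → ℕ) (i : Fin r) : u i ∣ ∏ i, u i * w i :=
  (dvd_mul_right _ _).trans (dvd_prod_of_mem (fun i => u i * w i) (mem_univ i))

theorem right_dvd {r : ℕ} (u w : Fin r → ℕ) (i : Fin r) : w i ∣ ∏ i, u i * w i :=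
  (dvd_mul_left _ _).trans (dvd_prod_of_mem (fun i => u i * w i) (mem_univ i))

theorem Diag.mem {r : ℕ} {u w q : Fin r → ℕ} (h : Diag u w q) (j : Fin r) :
    q j ∈ (∏ i, u i * w i).primeFactors := by
  obtain ⟨-, -, h3, h4⟩ := h.1 j
  refine Nat.mem_primeFactors.2 ⟨h3, ?_, h.prod_pos.ne'⟩
  by_contra h5
  exact h4 ((Nat.factorization_eq_zero_of_not_dvd fun h6 => h5 (h6.trans (left_dvd u w j))).trans
    (Nat.factorization_eq_zero_of_not_dvd fun h6 => h5 (h6.trans (right_dvd u w j))).symm)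

theorem Diag.cast_ne {r l : ℕ} {u w q : Fin r → ℕ} (h : Diag u w q) (hl : ∏ i, u i * w i < l)
    (i : Fin r) : ((u i).factorization (q i) : ZMod l) - (w i).factorization (q i) ≠ 0 := by
  obtain ⟨h1, h2, -, h4⟩ := h.1 i
  have h5 := Nat.le_of_dvd h.prod_pos (left_dvd u w i)
  have h6 := Nat.le_of_dvd h.prod_pos (right_dvd u w i)
  have h7 := Nat.factorization_lt (q i) h1.ne'
  have h8 := Nat.factorization_lt (q i) h2.ne'
  rwa [Ne, sub_eq_zero, ZMod.natCast_eq_natCast_iff', Nat.mod_eq_of_lt (by omega),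
    Nat.mod_eq_of_lt (by omega)]

variable {l : ℕ} [Fact l.Prime] (K : Type) [Field K] [NumberField K]
  [IsCyclotomicExtension {l} ℚ K]

theorem bad_core (hl : 5 ≤ l) {r : ℕ} {u w q : Fin r → ℕ} (hq : Diag u w q) {A : ℕ}
    (hA : A = ∏ i, u i * w i) (hAl : A < l) {x y z Lg V Z : ℝ} (hx : 0 < x) (hLg : 0 < Lg)
    (hy : Real.log y ≤ Lg / 8) (hsum : ((l : ℝ) + 1) * ∑ p ∈ PI 0 y, Real.log p / p ≤ Lg / 8)
    (hV0 : 0 ≤ V)
    (hV : ∀ g : ℕ → ℝ, (∀ p ∈ PI (Real.exp ((l : ℝ) ^ 2)) y, g p ≤ 1 ∧ 1 - g p ≤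
      Real.exp (-((if p ≡ 1 [MOD l] then ((l : ℝ) - 1) / p else 0) +
        if z < p then 1 / (p : ℝ) else 0))) →
      ∏ p ∈ PI (Real.exp ((l : ℝ) ^ 2)) y, (1 - g p) ≤ V)
    (hZ : ∀ X : Finset (Ideal (𝓞 K)), (∀ B ∈ X, IsCoprime B (Ideal.span {(l : 𝓞 K)}) ∧
      (Ideal.absNorm B : ℝ) ≤ Real.exp ((l : ℝ) ^ 3)) → ∑ B ∈ X, (1 : ℝ) / Ideal.absNorm B ≤ Z)
    {D T : ℕ} (hD : x < (D + 1) ^ (l - 1)) (hT0 : 0 < T)
    (hT1 : 8 * (l - 1) * ((l - 1) ^ 2 * (l * A * D)) ≤ T)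
    (hT2 : 2 * (l - 1 : ℕ) * (Real.exp ((l : ℝ) ^ 2) * (l * A)) * Real.exp (3 * Lg) ≤ T)
    (hT3 : (((l - 1 : ℕ) : ℝ) ^ 2 * T) ^ (l - 1) ≤ Real.exp ((l : ℝ) ^ 2) * (x / Real.exp 4))
    (hyx : y ≤ x / Real.exp 4) (S : Finset ℕ)
    (hS : ∀ p ∈ S, p ∈ PI (x / Real.exp 4) x ∧ l ∣ p - 1 ∧
      (∀ i, (u i : ZMod p) ^ ((p - 1) / l) = (w i : ZMod p) ^ ((p - 1) / l)) ∧
        ∀ q' : ℕ, q'.Prime → q' ∣ p - 1 → (q' : ℝ) ≤ z ∨ y < q') :
    (#S : ℝ) ≤ 16 * x / (l : ℝ) ^ r * (V + 4 * (l - 1 : ℕ) * (Real.exp ((l : ℝ) ^ 2) * (l * A)) *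
      Real.exp (9 * Lg) / T) * Z := by
  classical
  obtain ⟨b, hb⟩ := exists_small l K
  have hζ := IsCyclotomicExtension.zeta_spec l ℚ K
  have hl2 : l ≠ 2 := by omega
  have hA0 : 0 < A := hA ▸ hq.prod_pos
  have hAc : A.Coprime l := (Nat.coprime_of_lt_prime hA0.ne' hAl Fact.out).symm
  obtain ⟨s, hs, hs'⟩ := exists_symbols (K := K) hl2 hAc
  have hp : ∀ p ∈ S, p.Prime := fun p hp => (mem_PI.1 (hS p hp).1).2.2
  have hlp : ∀ p ∈ S, l < p := fun p h => by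
    have h1 := (hp p h).two_le
    have h2 := Nat.le_of_dvd (by omega) (hS p h).2.1
    omega
  have hpA : ∀ p ∈ S, ¬ p ∣ A := fun p h h' => by
    have h1 := Nat.le_of_dvd hA0 h'
    have h2 := hlp p h
    omega
  have h1 : ∀ p ∈ S, ∃ P : Ideal (𝓞 K), ∃ φ : 𝓞 K →+* ZMod p, P = RingHom.ker φ := fun p h => by
    have := Fact.mk (hp p h)
    obtain ⟨ω, hω⟩ := exists_primitive (hS p h).2.1
    obtain ⟨φ, -⟩ := exists_hom hζ hω
    exact ⟨_, φ, rfl⟩
  choose! P hP using h1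
  have := finite_quot b (show 0 < l * A by positivity)
  set U := dn (Ideal.span {((l * A : ℕ) : 𝓞 K)}) (Un l A) with hU
  have hU0 : 0 < U := dn_pos _ (a := 1) ⟨by simp, isCoprime_one_left⟩
  set Ω := S.sigma fun p => (cube b T).filter fun a => a ∈ P p ∧ Un l A a with hΩ
  have hlow : #S * ((T : ℝ) ^ (l - 1) * U / (2 * x)) ≤ #Ω := by
    rw [hΩ, card_sigma, Nat.cast_sum, ← nsmul_eq_mul]
    refine card_nsmul_le_sum _ _ _ fun p h => ?_
    have := Fact.mk (hp p h)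
    obtain ⟨φ, hφ⟩ := hP p h
    obtain ⟨p1, p2, p3⟩ := mem_PI.1 (hS p h).1
    have p0 : (0 : ℝ) < p := by exact_mod_cast p3.pos
    refine le_trans (by gcongr) (lattice_lower b hb φ (show 0 < l * A by positivity)
      (Nat.Coprime.mul_right (Nat.coprime_of_lt_prime (by omega) (hlp p h) p3)
        ((Nat.Prime.coprime_iff_not_dvd p3).2 (hpA p h))) (per_un l A) (D := D)
      (by exact_mod_cast p2.trans_lt hD) hT0 hT1 _ fun a ha h1 h2 => ?_)
    exact mem_filter.2 ⟨ha, hφ ▸ h1, h2⟩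
  have h2 : ∀ ω ∈ Ω, ∃ B, Ideal.span {ω.2} = P ω.1 * B := fun ω hω =>
    Ideal.dvd_iff_le.2 ((Ideal.span_singleton_le_iff_mem _).2
      (mem_filter.1 (mem_sigma.1 hω).2).2.1)
  choose! β hβ using h2
  have hmem : ∀ ω ∈ Ω, ω.1 ∈ S ∧ ω.2 ∈ cube b T ∧ Un l A ω.2 ∧ ω.2 ∈ β ω ∧
      Algebra.norm ℤ ω.2 = ω.1 * Ideal.absNorm (β ω) ∧
      IsCoprime (β ω) (Ideal.span {((l * A : ℕ) : 𝓞 K)}) ∧ Ideal.absNorm (β ω) ≠ 0 ∧
      (Ideal.absNorm (β ω) : ℝ) ≤ Real.exp ((l : ℝ) ^ 2) := fun ω hω => by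
    obtain ⟨o1, o2⟩ := mem_sigma.1 hω
    obtain ⟨o3, -, o4⟩ := mem_filter.1 o2
    have := Fact.mk (hp _ o1)
    obtain ⟨φ, hφ⟩ := hP _ o1
    have o5 : Ideal.span {ω.2} ≤ β ω := hβ ω hω ▸ Ideal.mul_le_right
    have o6 := norm_eq_of_span l hl2 (hφ ▸ hβ ω hω)
    have o7 : IsCoprime ω.2 ((l * A : ℕ) : 𝓞 K) := by
      rw [Nat.cast_mul]
      obtain ⟨c, hc⟩ := o4.1
      exact IsCoprime.mul_right ⟨1, -c, by linear_combination hc⟩ o4.2
    have o8 : IsCoprime (β ω) (Ideal.span {((l * A : ℕ) : 𝓞 K)}) :=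
      ((Ideal.isCoprime_span_singleton_iff _ _).2 o7).of_isCoprime_of_dvd_left
        (Ideal.dvd_iff_le.2 o5)
    refine ⟨o1, o3, o4, o5 (Ideal.mem_span_singleton_self _), o6, o8, fun h => ?_, ?_⟩
    · rw [Ideal.absNorm_eq_zero_iff.1 h, ← Ideal.zero_eq_bot, isCoprime_zero_left,
        Ideal.isUnit_iff] at o8
      have o9 := absNorm_natCast (K := K) l (l * A)
      rw [o8, Ideal.absNorm_top, eq_comm, Nat.pow_eq_one] at o9
      rcases o9 with o9 | o9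
      · have := Nat.eq_one_of_mul_eq_one_right o9
        omega
      · omega
    · have o9 := abs_norm_le b hb (T := T) (a := ω.2) fun i => by
        obtain ⟨c1, c2⟩ := (mem_cube b).1 o3 i
        rw [abs_of_nonneg c1]
        exact c2.le
      have o10 : (ω.1 : ℝ) * Ideal.absNorm (β ω) ≤ (((l - 1 : ℕ) : ℝ) ^ 2 * T) ^ (l - 1) := by
        exact_mod_cast (o6 ▸ (le_abs_self _).trans o9 :)
      have o11 := (mem_PI.1 (hS _ o1).1).1
      have o12 : 0 < x / Real.exp 4 := by positivity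
      refine le_of_mul_le_mul_right ?_ o12
      refine le_trans ?_ (o10.trans hT3)
      rw [mul_comm]
      gcongr
  set W := 8 * ((T : ℝ) ^ (l - 1) * U) / (l : ℝ) ^ r * (V + 4 * (l - 1 : ℕ) *
    (Real.exp ((l : ℝ) ^ 2) * (l * A)) * Real.exp (9 * Lg) / T) with hW
  have hfib : ∀ B ∈ Ω.image β, (#(Ω.filter fun ω => β ω = B) : ℝ) ≤ W * (1 / Ideal.absNorm B) := by
    intro B hB
    obtain ⟨ω₀, h₀, rfl⟩ := mem_image.1 hB
    obtain ⟨a1, -, a3, -, -, a6, a7, a8⟩ := hmem ω₀ h₀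
    rw [← card_image_of_injOn (f := fun ω => ω.2)]
    · refine fiber_bound hl b hA0 hAl s hs
        (fun i q' => ((u i).factorization q' : ZMod l) - (w i).factorization q') q
        (fun j => hA ▸ hq.mem j) (hq.cast_ne (hA ▸ hAl)) (fun i j h => by rw [hq.2 i j h, sub_self])
        (fun i => ∑ q' ∈ A.primeFactors,
          (((u i).factorization q' : ZMod l) - (w i).factorization q') * s q' ω₀.2)
        a6 a7 a8 hLg hy hsum hV hT0 hT2 _ fun a ha => ?_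
      obtain ⟨ω, hω, rfl⟩ := mem_image.1 ha
      obtain ⟨hω, e⟩ := mem_filter.1 hω
      obtain ⟨c1, c2, c3, c4, c5, -⟩ := hmem ω hω
      have := Fact.mk (hp _ c1)
      have := Fact.mk (hp _ a1)
      obtain ⟨φ, hφ⟩ := hP _ c1
      obtain ⟨φ₀, hφ₀⟩ := hP _ a1
      refine ⟨c2, e ▸ c4, c3, fun i => hs' _ _ φ φ₀ _ _ (β ω₀) (hS _ c1).2.1 (hS _ a1).2.1
        (hpA _ c1) (hpA _ a1) c3 a3 (e ▸ hφ ▸ hβ ω hω) (hφ₀ ▸ hβ ω₀ h₀) _ _
        (hA ▸ left_dvd u w i) (hA ▸ right_dvd u w i) ((hS _ c1).2.2.1 i) ((hS _ a1).2.2.1 i),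
        ω.1, hp _ c1, hyx.trans_lt (mem_PI.1 (hS _ c1).1).1, e ▸ c5, (hS _ c1).2.2.2⟩
    · rintro ⟨p, a⟩ hω ⟨p', a'⟩ hω' e
      obtain ⟨hω, e1⟩ := mem_filter.1 hω
      obtain ⟨hω', e2⟩ := mem_filter.1 hω'
      obtain rfl : a = a' := e
      have c1 := (hmem _ hω).2.2.2.2.1
      rw [(hmem _ hω').2.2.2.2.1, e1, e2] at c1
      obtain rfl : p' = p := by exact_mod_cast mul_right_cancel₀ (by exact_mod_cast a7) c1
      rfl
  have hW0 : 0 ≤ W := by positivity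
  have hup : (#Ω : ℝ) ≤ W * Z := by
    rw [card_eq_sum_card_image β, Nat.cast_sum]
    refine (sum_le_sum hfib).trans ?_
    rw [← mul_sum]
    refine mul_le_mul_of_nonneg_left (hZ _ fun B hB => ?_) hW0
    obtain ⟨ω, hω, rfl⟩ := mem_image.1 hB
    obtain ⟨-, -, -, -, -, a6, -, a8⟩ := hmem ω hω
    refine ⟨a6.of_isCoprime_of_dvd_right (Ideal.dvd_iff_le.2
      (Ideal.span_singleton_le_span_singleton.2 (Nat.cast_dvd_cast (dvd_mul_right l A)))), a8.trans (Real.exp_le_exp.2 ?_)⟩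
    exact pow_le_pow_right₀ (by exact_mod_cast (by omega : 1 ≤ l)) (by norm_num)
  have hTU : 0 < (T : ℝ) ^ (l - 1) * U / (2 * x) := by positivity
  refine le_of_mul_le_mul_right ((hlow.trans hup).trans_eq ?_) hTU
  rw [hW]
  field_simp
  ring

end Pool.Agent.MP_48b1c3_nt.H54

end

-- part MP_48b1c3_nt.H54.AP
section

/-! Reciprocal sums over primes congruent to `1` modulo a prime `l`, uniformly in `l`. -/

/-
HINTS.  m ≡ 1 mod l, m > 1 means m = 1 + j l, j ≥ 1, l/m ≤ 1/j; so the m ≤ l^8 contribute ≤ 1 + log (l^8) (harmonic_le_one_add_log).  For larger m use blocks 2^i < m ≤ N = 2^(i+1), N > l^8.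
Non-prime prime powers ≤ N: at most (ψ N - θ N)/log 2 ≤ 3 √N log N (Chebyshev.psi_sub_theta_eq_sum_not_prime, psi_sub_theta_le, Λ ≥ log 2 on prime powers), so the block gives
≤ l * 3 √N log N * 2/N ≤ 6 N^(-3/8) log N, summable over i.  Primes: MP_d0fd9b_nt.brun_titchmarsh with z = ⌊N^(1/8)⌋₊ ≥ 2 gives l * #{p ≤ N} ≤ C N/log N (φ l = l - 1 ≥ l/2, log z ≥ log N/16, l z^4 ≤ N^(5/8)),
so the block gives ≤ C/(i+1); i ≤ 2 l^3 and the harmonic sum is ≤ 1 + log (2 l^3 + 1).  log l ≥ log 2 absorbs constants.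
ap_series: characters ≠ 1 modulo a prime are primitive (conductor ∣ l, eq_one_iff_conductor_eq_one); ArithmeticFunction.vonMangoldt.residueClass_eq / residueClass_apply with a = 1;
logder_bound 0 (ε = 1) bounds each nontrivial term by C l; the trivial character gives ∑ Λ n/n^σ minus ∑_k log l / l^(kσ) ≤ 2 log l / l ≤ 2; vonMangoldt_series.
ap_lower: log_lower with c n = (l-1) * (if n ≡ 1 [MOD l] then Λ n else 0), E = C l^2; Λ n / log n ≤ 1; ap_nonprime removes the non-primes.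
-/

namespace Pool.Agent.MP_48b1c3_nt.H54

open Finset

open ArithmeticFunction ArithmeticFunction.vonMangoldt

theorem ap_harm (M : ℕ) : ∑ j ∈ Icc 1 M, (j : ℝ)⁻¹ ≤ 1 + Real.log M := by
  simpa [harmonic_eq_sum_Icc] using harmonic_le_one_add_log M

theorem ap_log {l : ℕ} (hl : l.Prime) : 1 ≤ 2 * Real.log l := by
  linarith [mertens_log_ge hl.two_le]

theorem ap_small {l : ℕ} (hl : l.Prime) (k : ℕ) {S : Finset ℕ}
    (h : ∀ m ∈ S, IsPrimePow m ∧ m ≡ 1 [MOD l] ∧ m ≤ l ^ k) :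
    (l : ℝ) * ∑ m ∈ S, (1 : ℝ) / m ≤ (k + 2) * Real.log l := by
  have e : ∀ m ∈ S, l * (m / l) + 1 = m := fun m hm => by
    rw [← Nat.mod_eq_of_lt hl.one_lt, ← (h m hm).2.1, Nat.div_add_mod]
  have h1 : ∀ m ∈ S, 1 ≤ m / l := fun m hm => Nat.pos_of_ne_zero fun h0 => by
    have h2 := e m hm
    have h3 := (h m hm).1.one_lt
    rw [h0] at h2
    omega
  calc _ ≤ ∑ m ∈ S, ((m / l : ℕ) : ℝ)⁻¹ := by
        rw [mul_sum]
        refine sum_le_sum fun m hm => ?_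
        have h2 : ((l * (m / l) + 1 : ℕ) : ℝ) = m := by rw [e m hm]
        have h3 : (0 : ℝ) < (m / l : ℕ) := by exact_mod_cast h1 m hm
        push_cast at h2
        rw [mul_one_div, div_le_iff₀ (by rw [← h2]; positivity), le_inv_mul_iff₀ h3]
        linarith
    _ = ∑ j ∈ S.image (· / l), (j : ℝ)⁻¹ :=
        (sum_image (f := fun j : ℕ => (j : ℝ)⁻¹) fun a ha b hb hab => by
          rw [← e a ha, ← e b hb]
          exact congrArg (l * · + 1) hab).symm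
    _ ≤ ∑ j ∈ Icc 1 (l ^ k), (j : ℝ)⁻¹ := by
        refine sum_le_sum_of_subset_of_nonneg (image_subset_iff.2 fun m hm => mem_Icc.2
          ⟨h1 m hm, (Nat.div_le_self _ _).trans (h m hm).2.2⟩) fun _ _ _ => by positivity
    _ ≤ _ := by
        have := ap_harm (l ^ k)
        rw [Nat.cast_pow, Real.log_pow] at this
        linarith [ap_log hl]

theorem ap_powerful {m : ℕ} (h : IsPrimePow m) (h' : ¬ m.Prime) :
    ∃ a : ℕ × ℕ, a.1 ^ 2 * a.2 ^ 3 = m := by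
  obtain ⟨p, k, hp, hk, rfl⟩ := (isPrimePow_nat_iff _).1 h
  obtain ⟨j, rfl | rfl⟩ := Nat.even_or_odd' k
  · exact ⟨(p ^ j, 1), by ring⟩
  · rcases j with _ | j
    · exact absurd (by simpa using hp) h'
    · exact ⟨(p ^ j, p), by ring⟩

theorem ap_large : ∃ C : ℝ, 0 ≤ C ∧ ∀ (l : ℕ) (S : Finset ℕ),
    (∀ m ∈ S, IsPrimePow m ∧ ¬ m.Prime ∧ l ^ 4 ≤ m) → (l : ℝ) * ∑ m ∈ S, (1 : ℝ) / m ≤ C := by
  have h0 := Real.summable_nat_rpow_inv.2 (show (1 : ℝ) < 3 / 2 by norm_num)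
  have h1 := h0.mul_of_nonneg h0 (fun _ => by positivity) fun _ => by positivity
  refine ⟨_, tsum_nonneg fun _ => by positivity, fun l S h => le_trans ?_
    (h1.sum_le_tsum ((range (S.sup id + 1) ×ˢ range (S.sup id + 1)).filter
      fun a => a.1 ^ 2 * a.2 ^ 3 ∈ S) fun _ _ => by positivity)⟩
  rw [mul_sum]
  refine le_trans (sum_le_sum_of_subset_of_nonneg (fun m hm => ?_) fun _ _ _ => by positivity)
    ((sum_image_le_of_nonneg (g := fun a : ℕ × ℕ => a.1 ^ 2 * a.2 ^ 3)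
      fun _ _ => by positivity).trans (sum_le_sum fun a ha => ?_))
  · obtain ⟨a, rfl⟩ := ap_powerful (h m hm).1 (h m hm).2.1
    have h2 := (h _ hm).1.pos
    have h3 := le_sup (f := id) hm
    refine mem_image_of_mem _ (mem_filter.2 ⟨mem_product.2 ⟨mem_range.2 (Nat.lt_succ_of_le
      ((Nat.le_of_dvd h2 ?_).trans h3)), mem_range.2 (Nat.lt_succ_of_le
      ((Nat.le_of_dvd h2 ?_).trans h3))⟩, hm⟩)
    exacts [(dvd_pow_self _ two_ne_zero).mul_right _, (dvd_pow_self _ three_ne_zero).mul_left _]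
  · obtain ⟨h2, -, h3⟩ := h _ (mem_filter.1 ha).2
    have h4 := Nat.mul_ne_zero_iff.1 h2.ne_zero
    have h5 : (0 : ℝ) < a.1 := by exact_mod_cast Nat.pos_of_ne_zero (ne_zero_pow two_ne_zero h4.1)
    have h6 : (1 : ℝ) ≤ a.2 := by
      exact_mod_cast Nat.pos_of_ne_zero (ne_zero_pow three_ne_zero h4.2)
    have h7 : (l : ℝ) ^ 4 ≤ a.1 ^ 2 * a.2 ^ 3 := by exact_mod_cast h3
    rw [← mul_inv, ← Real.mul_rpow h5.le (by positivity), mul_one_div,
      div_le_iff₀ (by push_cast; positivity), le_inv_mul_iff₀ (by positivity)]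
    refine le_of_pow_le_pow_left₀ four_ne_zero (by positivity) ?_
    rw [mul_pow, ← Real.rpow_mul_natCast (by positivity),
      show (3 / 2 * (4 : ℕ) : ℝ) = (6 : ℕ) by norm_num, Real.rpow_natCast]
    push_cast
    calc _ ≤ (a.1 * a.2 : ℝ) ^ 6 * a.2 ^ 3 * (a.1 ^ 2 * a.2 ^ 3) :=
          mul_le_mul (le_mul_of_one_le_right (by positivity) (one_le_pow₀ h6)) h7 (by positivity)
            (by positivity)
      _ = _ := by ring

theorem ap_nonprime : ∃ C : ℝ, 0 < C ∧ ∀ l : ℕ, l.Prime → ∀ S : Finset ℕ,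
    (∀ m ∈ S, IsPrimePow m ∧ ¬ m.Prime ∧ m ≡ 1 [MOD l]) →
      (l : ℝ) * ∑ m ∈ S, (1 : ℝ) / m ≤ C * Real.log l := by
  obtain ⟨C, hC, h1⟩ := ap_large
  refine ⟨2 * C + 6, by positivity, fun l hl S h => ?_⟩
  have h2 := ap_small hl 4 (S := S.filter (· ≤ l ^ 4)) fun m hm =>
    ⟨(h m (mem_filter.1 hm).1).1, (h m (mem_filter.1 hm).1).2.2, (mem_filter.1 hm).2⟩
  have h3 := h1 l (S.filter fun m => ¬ m ≤ l ^ 4) fun m hm => ⟨(h m (mem_filter.1 hm).1).1,
    (h m (mem_filter.1 hm).1).2.1, (not_le.1 (mem_filter.1 hm).2).le⟩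
  rw [← sum_filter_add_sum_filter_not S (· ≤ l ^ 4), mul_add]
  push_cast at h2
  nlinarith [mul_le_mul_of_nonneg_left (ap_log hl) hC]

theorem ap_block {l : ℕ} (hl : l.Prime) (i : ℕ) {S : Finset ℕ}
    (h : ∀ m ∈ S, m.Prime ∧ m ≡ 1 [MOD l] ∧ l ^ 8 < m ∧ Nat.log 2 m = i) :
    (l : ℝ) * ∑ m ∈ S, (1 : ℝ) / m ≤ 720 * ((i + 1 : ℕ) : ℝ)⁻¹ := by
  rcases S.eq_empty_or_nonempty with rfl | ⟨m₀, hm₀⟩
  · rw [sum_empty, mul_zero]
    positivity
  have h1 : ∀ m ∈ S, 2 ^ i ≤ m ∧ m < 2 ^ (i + 1) := fun m hm => (h m hm).2.2.2 ▸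
    ⟨Nat.pow_log_le_self 2 (h m hm).1.ne_zero, Nat.lt_pow_succ_log_self one_lt_two m⟩
  have h2 : l ^ 8 < 2 ^ (i + 1) := (h m₀ hm₀).2.2.1.trans (h1 m₀ hm₀).2
  have h3 : 8 < i + 1 := (Nat.pow_lt_pow_iff_right one_lt_two).1
    ((Nat.pow_le_pow_left hl.two_le 8).trans_lt h2)
  obtain ⟨k, hk⟩ : ∃ k, k = (i + 1) / 8 := ⟨_, rfl⟩
  have h4 : l ≤ 2 * 2 ^ k := by
    refine (lt_of_pow_lt_pow_left₀ 8 (Nat.zero_le _) (h2.trans_le ?_)).le
    rw [← pow_succ', ← pow_mul]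
    exact Nat.pow_le_pow_right two_pos (by omega)
  have h5 : (2 ^ k) ^ 8 ≤ 2 ^ (i + 1) := by
    rw [← pow_mul]
    exact Nat.pow_le_pow_right two_pos (by omega)
  have h6 := MP_d0fd9b_nt.brun_titchmarsh (q := l) (z := 2 ^ k) hl.ne_zero
    (Nat.le_self_pow (by omega) 2) 1 (2 ^ (i + 1))
  have h7 : S.card ≤ ((Icc 1 (2 ^ (i + 1))).filter fun p => p.Prime ∧ p ≡ 1 [MOD l]).card :=
    card_le_card fun m hm => mem_filter.2
      ⟨mem_Icc.2 ⟨(h m hm).1.pos, (h1 m hm).2.le⟩, (h m hm).1, (h m hm).2.1⟩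
  have h8 : ∑ m ∈ S, (1 : ℝ) / m ≤ S.card * (1 / 2 ^ i) := by
    rw [← nsmul_eq_mul]
    exact sum_le_card_nsmul _ _ _ fun m hm => one_div_le_one_div_of_le (by positivity)
      (by exact_mod_cast (h1 m hm).1)
  have h9 : l ≤ 2 ^ (i + 1) := (Nat.le_self_pow (by norm_num) l).trans h2.le
  have a1 : (k : ℝ) ≤ (2 ^ k : ℕ) := by exact_mod_cast k.lt_two_pow_self.le
  have a2 : (1 : ℝ) ≤ k := by exact_mod_cast (by omega : 1 ≤ k)
  have a3 : ((i + 1 : ℕ) : ℝ) ≤ 15 * k := by exact_mod_cast (by omega : i + 1 ≤ 15 * k)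
  have a4 : k / 2 ≤ Real.log (2 ^ k : ℕ) := by
    rw [Nat.cast_pow, Real.log_pow]
    nlinarith [mertens_log_ge le_rfl]
  have a5 : (2 : ℝ) ≤ l := by exact_mod_cast hl.two_le
  have a6 : ((2 ^ (i + 1) : ℕ) : ℝ) = 2 * 2 ^ i := by
    push_cast
    ring
  rw [Nat.totient_prime hl, Nat.cast_pred hl.pos] at h6
  rify at h4 h5 h7 h9
  rw [pow_succ' 2 i] at h5 h9
  rw [a6] at h6
  push_cast at h6 a1 a4
  have a7 : (0 : ℝ) < 2 ^ i := by positivity
  generalize (2 : ℝ) ^ k = z, (2 : ℝ) ^ i = N at *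
  have b1 : 1 ≤ z := a2.trans a1
  have b2 : 2 * (2 * N + l) / Real.log z ≤ 16 * N / k := by
    rw [div_le_div_iff₀ (by linarith) (by linarith)]
    nlinarith [mul_le_mul_of_nonneg_left a4 a7.le]
  have b3 : l * (z ^ 4 + z) ≤ 8 * N / k := by
    rw [le_div_iff₀ (by linarith)]
    calc _ ≤ 2 * z * (z ^ 4 + z ^ 4) * z ^ 3 := by
          gcongr
          exacts [le_self_pow₀ b1 four_ne_zero, a1.trans (le_self_pow₀ b1 three_ne_zero)]
      _ = 4 * z ^ 8 := by ring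
      _ ≤ _ := by linarith
  calc _ ≤ 2 * (l - 1) * (S.card * (1 / N)) :=
        mul_le_mul (by linarith) h8 (by positivity) (by linarith)
    _ = 2 * ((l - 1) * S.card) / N := by ring
    _ ≤ 2 * (16 * N / k + 8 * N / k) / N := by
        gcongr
        exact (mul_le_mul_of_nonneg_left h7 (by linarith)).trans (h6.trans (add_le_add b2 b3))
    _ = 720 * (15 * k : ℝ)⁻¹ := by
        field_simp
        norm_num
    _ ≤ _ := by gcongr

theorem ap_upper : ∃ C : ℝ, 0 < C ∧ ∀ l : ℕ, l.Prime → ∀ S : Finset ℕ,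
    (∀ m ∈ S, IsPrimePow m ∧ m ≡ 1 [MOD l] ∧ (m : ℝ) ≤ Real.exp ((l : ℝ) ^ 3)) →
      (l : ℝ) * ∑ m ∈ S, (1 : ℝ) / m ≤ C * Real.log l := by
  obtain ⟨C, hC, h1⟩ := ap_nonprime
  refine ⟨C + 10 + 720 * 7, by positivity, fun l hl S h => ?_⟩
  have h2 := h1 l hl (S.filter fun m => ¬ m.Prime) fun m hm =>
    ⟨(h m (mem_filter.1 hm).1).1, (mem_filter.1 hm).2, (h m (mem_filter.1 hm).1).2.1⟩
  obtain ⟨P, hP⟩ : ∃ P, P = S.filter Nat.Prime := ⟨_, rfl⟩
  have h3 : ∀ m ∈ P, m ∈ S ∧ m.Prime := fun m hm => mem_filter.1 (hP ▸ hm)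
  have h4 := ap_small hl 8 (S := P.filter (· ≤ l ^ 8)) fun m hm =>
    ⟨(h3 m (mem_filter.1 hm).1).2.isPrimePow, (h m (h3 m (mem_filter.1 hm).1).1).2.1,
      (mem_filter.1 hm).2⟩
  have h5 : (l : ℝ) * ∑ m ∈ P.filter fun m => ¬ m ≤ l ^ 8, (1 : ℝ) / m ≤
      720 * (1 + Real.log (l ^ 5 : ℕ)) := by
    rw [← sum_fiberwise_of_maps_to (g := fun m => Nat.log 2 m + 1) (t := Icc 1 (l ^ 5)), mul_sum]
    · refine le_trans (sum_le_sum fun j hj => ?_) ((mul_sum _ _ _).ge.trans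
        (mul_le_mul_of_nonneg_left (ap_harm _) (by norm_num)))
      obtain ⟨i, rfl⟩ := Nat.exists_eq_add_of_le' (mem_Icc.1 hj).1
      refine ap_block hl i fun m hm => ?_
      simp only [mem_filter, not_le, Nat.add_right_cancel_iff] at hm
      exact ⟨(h3 m hm.1.1).2, (h m (h3 m hm.1.1).1).2.1, hm.1.2, hm.2⟩
    · intro m hm
      obtain ⟨h5, h6⟩ := h3 m (mem_filter.1 hm).1
      have h7 : (2 : ℝ) ^ Nat.log 2 m ≤ m := by exact_mod_cast Nat.pow_log_le_self 2 h6.ne_zero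
      have h8 := (Real.log_le_iff_le_exp (by positivity)).2 (h7.trans (h m h5).2.2)
      have h9 : Nat.log 2 m ≤ 2 * l ^ 3 := by
        rw [Real.log_pow] at h8
        have := mul_le_mul_of_nonneg_left (mertens_log_ge le_rfl) (Nat.log 2 m).cast_nonneg
        rify
        push_cast at this
        linarith
      have h10 := Nat.pow_le_pow_left hl.two_le 2
      have h11 := pow_pos hl.pos 3
      exact mem_Icc.2 ⟨by omega, by nlinarith⟩
  rw [← sum_filter_add_sum_filter_not S Nat.Prime, ← hP,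
    ← sum_filter_add_sum_filter_not P (· ≤ l ^ 8), mul_add, mul_add]
  rw [Nat.cast_pow, Real.log_pow] at h5
  push_cast at h4 h5
  linarith [ap_log hl]

theorem ap_triv : ∃ K : ℝ, 0 ≤ K ∧ ∀ l : ℕ, l.Prime → ∀ σ : ℝ, 1 < σ →
    |∑' n : ℕ, (if l ∣ n then 0 else vonMangoldt n) / (n : ℝ) ^ σ -
      ∑' n : ℕ, vonMangoldt n / (n : ℝ) ^ σ| ≤ K := by
  have h0 := summable_residueClass_non_primes_div (1 : ZMod 1)
  simp only [mertens_res] at h0
  have h1 : ∀ n : ℕ, 0 ≤ (if n.Prime then 0 else vonMangoldt n) / (n : ℝ) := fun n =>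
    div_nonneg (by split_ifs; exacts [le_rfl, vonMangoldt_nonneg]) n.cast_nonneg
  refine ⟨1 + ∑' n, _, add_nonneg zero_le_one (tsum_nonneg h1), fun l hl σ hσ => ?_⟩
  have h2 := mertens_summable hσ
  have h3 : ∀ n : ℕ, 0 ≤ vonMangoldt n / (n : ℝ) ^ σ := fun n =>
    div_nonneg vonMangoldt_nonneg (by positivity)
  rw [← Summable.tsum_sub (h2.of_nonneg_of_le (fun n => by split_ifs <;> simp [h3])
    fun n => by split_ifs <;> simp [h3]) h2, ← Real.norm_eq_abs]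
  refine tsum_of_norm_bounded ((hasSum_ite_eq l 1).add h0.hasSum) fun n => ?_
  have h4 : (0 : ℝ) ≤ if n = l then 1 else 0 := by positivity
  by_cases h5 : l ∣ n
  swap
  · rw [if_neg h5, sub_self, norm_zero]
    exact add_nonneg h4 (h1 n)
  rw [if_pos h5, zero_div, zero_sub, norm_neg, Real.norm_of_nonneg (h3 n)]
  rcases n.eq_zero_or_pos with rfl | hn
  · simpa using h4
  have h6 : vonMangoldt n / (n : ℝ) ^ σ ≤ vonMangoldt n / n :=
    div_le_div_of_nonneg_left vonMangoldt_nonneg (by positivity)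
      (Real.self_le_rpow_of_one_le (by exact_mod_cast hn) hσ.le)
  refine h6.trans ?_
  by_cases h7 : n.Prime
  · rw [if_pos h7, if_pos ((Nat.prime_dvd_prime_iff_eq hl h7).1 h5).symm, zero_div, add_zero]
    exact div_le_one_of_le₀ (vonMangoldt_le_log.trans (Real.log_le_self n.cast_nonneg))
      n.cast_nonneg
  · rw [if_neg h7]
    exact le_add_of_nonneg_left h4

theorem ap_series : ∃ C : ℝ, 1 ≤ C ∧ ∀ l : ℕ, l.Prime → ∀ σ : ℝ, 1 < σ → σ ≤ 2 →
    |∑' n : ℕ, ((l : ℝ) - 1) * (if n ≡ 1 [MOD l] then ArithmeticFunction.vonMangoldt n else 0) /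
      (n : ℝ) ^ σ - 1 / (σ - 1)| ≤ C * (l : ℝ) ^ 2 := by
  classical
  obtain ⟨E, hE, h1⟩ := vonMangoldt_series
  obtain ⟨K, hK, h2⟩ := ap_triv
  obtain ⟨C, j, hC, h3⟩ := logder_bound 0 one_pos
  refine ⟨C * 2 ^ j + (K + E), le_add_of_nonneg_of_le (by positivity) (by linarith),
    fun l hl σ h4 h5 => ?_⟩
  have : NeZero l := ⟨hl.ne_zero⟩
  have e1 : (fun n : ℕ => ((((l : ℝ) - 1) * (if n ≡ 1 [MOD l] then vonMangoldt n else 0) : ℝ) : ℂ))
      = ∑ χ : DirichletCharacter ℂ l, (fun n : ℕ => χ n) * fun n : ℕ => (vonMangoldt n : ℂ) := by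
    funext n
    have h6 := residueClass_apply (isUnit_one (M := ZMod l)) n
    rw [eq_inv_mul_iff_mul_eq₀ (by exact_mod_cast (Nat.totient_pos.2 hl.pos).ne'),
      Nat.totient_prime hl, Nat.cast_pred hl.pos] at h6
    simp only [ZMod.inv_one, map_one, one_mul] at h6
    rw [Finset.sum_apply]
    refine Eq.trans ?_ h6
    simp only [residueClass, Set.indicator_apply, Set.mem_ofPred_eq, ← ZMod.natCast_eq_natCast_iff,
      Nat.cast_one]
    split_ifs <;> simp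
  have e2 : ((fun n : ℕ => (1 : DirichletCharacter ℂ l) n) * fun n : ℕ => (vonMangoldt n : ℂ)) =
      fun n => (((if l ∣ n then 0 else vonMangoldt n : ℝ)) : ℂ) := by
    funext n
    rw [Pi.mul_apply]
    split_ifs with h
    · rw [(ZMod.natCast_eq_zero_iff n l).2 h, MulChar.map_nonunit, zero_mul, Complex.ofReal_zero]
      have := Fact.mk hl
      exact not_isUnit_zero
    · rw [MulChar.one_apply ((ZMod.isUnit_iff_coprime n l).2
        (hl.coprime_iff_not_dvd.2 h).symm), one_mul]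
  have e3 := mertens_LSeries
    (fun n => ((l : ℝ) - 1) * (if n ≡ 1 [MOD l] then vonMangoldt n else 0)) (by simp) σ
  rw [e1, LSeries_sum fun χ _ => χ.LSeriesSummable_twist_vonMangoldt (by simpa using h4),
    ← add_sum_erase _ _ (mem_univ 1), e2, mertens_LSeries _ (by simp), ← eq_sub_iff_add_eq',
    ← Complex.ofReal_sub] at e3
  have h6 := norm_sum_le_of_le (univ.erase (1 : DirichletCharacter ℂ l))
    (n := fun _ => C * l * 2 ^ j) (f := fun χ => LSeries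
      ((fun n : ℕ => χ n) * fun n : ℕ => (vonMangoldt n : ℂ)) σ) fun χ hχ => by
      have h6 := ne_of_mem_erase hχ
      have := h3 l χ (((Nat.dvd_prime hl).1 χ.conductor_dvd_level).resolve_left
        (mt DirichletCharacter.eq_one_iff_conductor_eq_one.2 h6)) h6 σ h4 h5
      simp only [pow_zero, one_mul, Real.rpow_one, Complex.ofReal_im, abs_zero, zero_add] at this
      rwa [mul_comm]
  rw [e3, Complex.norm_real, Real.norm_eq_abs, sum_const, nsmul_eq_mul] at h6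
  have h7 : ((univ.erase (1 : DirichletCharacter ℂ l)).card : ℝ) ≤ l := by
    exact_mod_cast card_erase_le.trans ((card_univ.trans (Nat.card_eq_fintype_card.symm.trans
      (DirichletCharacter.card_eq_totient_of_hasEnoughRootsOfUnity ℂ l))).le.trans l.totient_le)
  have h8 : (1 : ℝ) ≤ (l : ℝ) ^ 2 := one_le_pow₀ (by exact_mod_cast hl.pos)
  refine (abs_sub_le _ _ _).trans ((add_le_add (h6.trans (mul_le_mul_of_nonneg_right h7
    (by positivity))) ((abs_sub_le _ _ _).trans (add_le_add (h2 l hl σ h4) (h1 σ h4 h5)))).trans ?_)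
  nlinarith [mul_le_mul_of_nonneg_left h8 (show 0 ≤ K + E by linarith)]

theorem ap_lower : ∃ C : ℝ, 0 < C ∧ ∀ l : ℕ, l.Prime → ∀ y : ℝ, 3 ≤ y →
    Real.log (Real.log y) - C * Real.log l ≤
      ((l : ℝ) - 1) * ∑ q ∈ (PI 0 y).filter (fun q => q ≡ 1 [MOD l]), (1 : ℝ) / q := by
  obtain ⟨C, hC, h1⟩ := ap_series
  obtain ⟨D, hD, h2⟩ := ap_nonprime
  refine ⟨2 * C + 8 + D, by positivity, fun l hl y hy => ?_⟩
  have h0 : (1 : ℝ) ≤ l := by exact_mod_cast hl.pos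
  have h3 : ∀ n, 0 ≤ if n ≡ 1 [MOD l] then vonMangoldt n else 0 := fun n => by
    split_ifs
    exacts [vonMangoldt_nonneg, le_rfl]
  have h4 := log_lower (fun n => ((l : ℝ) - 1) * if n ≡ 1 [MOD l] then vonMangoldt n else 0)
    (fun n => mul_nonneg (by linarith) (h3 n)) (by simp) (by simp)
    (one_le_mul_of_one_le_of_one_le hC (one_le_pow₀ h0)) (fun σ hσ => by
      simp only [mul_div_assoc]
      refine ((mertens_summable hσ).of_nonneg_of_le (fun n => div_nonneg (h3 n) (by positivity))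
        fun n => div_le_div_of_nonneg_right ?_ (by positivity)).mul_left _
      split_ifs
      exacts [le_rfl, vonMangoldt_nonneg]) (h1 l hl) hy
  have h5 := h2 l hl ((Icc 1 ⌊y⌋₊).filter fun m => IsPrimePow m ∧ ¬ m.Prime ∧ m ≡ 1 [MOD l])
    fun m hm => (mem_filter.1 hm).2
  have h6 : ∑ n ∈ Icc 1 ⌊y⌋₊, (((l : ℝ) - 1) * if n ≡ 1 [MOD l] then vonMangoldt n else 0) /
      (n * Real.log n) ≤ (l - 1) * ∑ q ∈ (PI 0 y).filter (fun q => q ≡ 1 [MOD l]), (1 : ℝ) / q +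
      l * ∑ m ∈ (Icc 1 ⌊y⌋₊).filter fun m => IsPrimePow m ∧ ¬ m.Prime ∧ m ≡ 1 [MOD l],
        (1 : ℝ) / m := by
    rw [mertens_PI, filter_filter, sum_filter, sum_filter, mul_sum, mul_sum, ← sum_add_distrib]
    refine sum_le_sum fun n _ => ?_
    by_cases h6 : n ≡ 1 [MOD l]
    swap
    · simp [h6]
    by_cases h7 : n.Prime
    · rw [if_pos h6, mul_div_assoc, mertens_prime h7]
      simp [h6, h7]
    by_cases h8 : IsPrimePow n
    swap
    · simp [h7, h8, vonMangoldt_eq_zero_iff.2 h8]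
    simp only [h6, h7, h8, mul_div_assoc, if_true, false_and, if_false, mul_zero, zero_add,
      not_false_eq_true, and_self]
    have h9 := mertens_log_ge h8.two_le
    refine mul_le_mul (by linarith) ?_ (div_nonneg vonMangoldt_nonneg (by positivity)) l.cast_nonneg
    rw [mul_comm, ← div_div]
    exact div_le_div_of_nonneg_right (div_le_one_of_le₀ vonMangoldt_le_log (by linarith))
      n.cast_nonneg
  rw [Real.log_mul (by positivity) (by positivity), Real.log_pow] at h4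
  have h7 := Real.log_le_self (zero_le_one.trans hC)
  have h8 := mul_le_mul_of_nonneg_left (ap_log hl) (zero_le_one.trans hC)
  push_cast at h4
  linarith [ap_log hl]

end Pool.Agent.MP_48b1c3_nt.H54

end

-- part MP_48b1c3_nt.H54.IdealSum
section

/-! The sum of `1 / N B` over ideals of small norm, and the sieve product. -/

/-
HINTS.  euler_le: induction on Q generalising X (or strong induction): write each B ∈ X as P^j * B' with ¬ P ∣ B' (FiniteMultiplicity.exists_eq_pow_mul_and_not_dvd / WfDvdMonoid.max_power_factor), B ↦ (j, B') is injective,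
∑ ≤ (∑_j N P^(-j)) (∑ 1/N B'), geometric series, (1 - t)⁻¹ ≤ exp (2 t) for t ≤ 1/2 (absNorm P ≥ 2).  For Q = ∅ every B is ⊤ (a nonzero non-unit has a prime factor).
ideal_sum: Q = all prime factors of members of X (UniqueFactorizationMonoid.normalizedFactors).  For P ∈ Q: absNorm P ≤ absNorm B ≤ exp (l^3), l ∉ P, E = 𝓞 K ⧸ P is a finite field, absNorm P = card E is a prime power (FiniteField.isPrimePow_card)
and ≡ 1 mod l (isPrimitiveRoot_map, order divides card E - 1).  For a given m = q^f all P of norm m contain q (absNorm_mem, prime); at most l - 1 primes contain q (their product divides span {q}, each norm ≥ q... or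
Ideal.card_primesOverFinset_le_finrank).  So ∑_{P ∈ Q} 1/N P ≤ (l-1) ∑_{m ∈ image} 1/m ≤ C log l (ap_upper; sum_fiberwise / Finset.sum_comp) and exp (2 C log l) ≤ l^⌈2C⌉.
prod_le: the product is ≤ exp (-(l-1) Σ₁ - Σ₂), Σ₁ = ∑ 1/q over q ∈ PI (exp (l^2)) y, q ≡ 1, and (l-1) Σ₁ ≥ log log y - C log l (ap_lower) - C log l (ap_upper for the primes ≤ exp (l^2));
Σ₂ ≥ ∑_{q ≤ y} - ∑_{q ≤ exp (l^2)} - ∑_{q ≤ z} ≥ log log y - 2 log l - log log z - 3 C (mertens2).  Constants are absorbed by log l ≥ log 2.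
-/

namespace Pool.Agent.MP_48b1c3_nt.H54

open NumberField Finset

theorem idealsum_two_le {K : Type} [Field K] [NumberField K] {P : Ideal (𝓞 K)} (hP : Prime P) :
    2 ≤ Ideal.absNorm P := by
  have h0 : Ideal.absNorm P ≠ 0 := fun h => hP.ne_zero (Ideal.absNorm_eq_zero_iff.1 h)
  have h1 : Ideal.absNorm P ≠ 1 := fun h =>
    hP.not_isUnit (Ideal.isUnit_iff.2 (Ideal.absNorm_eq_one_iff.1 h))
  omega

theorem idealsum_geom {t : ℝ} (h0 : 0 ≤ t) (h1 : t ≤ 1 / 2) (J : Finset ℕ) :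
    ∑ j ∈ J, t ^ j ≤ Real.exp (2 * t) := by
  have h2 : t < 1 := by linarith
  refine ((summable_geometric_of_lt_one h0 h2).sum_le_tsum J fun j _ => by positivity).trans ?_
  rw [tsum_geometric_of_lt_one h0 h2]
  refine le_trans ?_ (Real.add_one_le_exp _)
  rw [inv_le_iff_one_le_mul₀ (by linarith)]
  nlinarith

theorem euler_le {K : Type} [Field K] [NumberField K] (Q X : Finset (Ideal (𝓞 K)))
    (hQ : ∀ P ∈ Q, Prime P) (hX : ∀ B ∈ X, B ≠ ⊥ ∧ ∀ P, Prime P → P ∣ B → P ∈ Q) :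
    ∑ B ∈ X, (1 : ℝ) / Ideal.absNorm B ≤ Real.exp (2 * ∑ P ∈ Q, (1 : ℝ) / Ideal.absNorm P) := by
  classical
  induction Q using Finset.induction_on generalizing X with
  | empty =>
    have : X ⊆ {⊤} := fun B hB => by
      rw [mem_singleton]
      by_contra h
      obtain ⟨P, h1, h2⟩ := WfDvdMonoid.exists_irreducible_factor
        (fun h' => h (Ideal.isUnit_iff.1 h')) (hX B hB).1
      exact absurd ((hX B hB).2 P h1.prime h2) (notMem_empty P)
    refine (sum_le_sum_of_subset_of_nonneg this fun _ _ _ => by positivity).trans ?_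
    simp
  | insert P Q hPQ ih =>
    have hP := hQ P (mem_insert_self _ _)
    have key : ∀ B : Ideal (𝓞 K), ∃ (j : ℕ) (A : Ideal (𝓞 K)), B ≠ ⊥ → ¬ P ∣ A ∧ B = P ^ j * A := by
      intro B
      by_cases hB : B = ⊥
      · exact ⟨0, B, fun h => absurd hB h⟩
      · obtain ⟨j, A, h⟩ := WfDvdMonoid.max_power_factor' hB hP.not_isUnit
        exact ⟨j, A, fun _ => h⟩
    choose j A hA using key
    have h1 := ih (X.image A) (fun R hR => hQ R (mem_insert_of_mem hR)) (fun B hB => by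
      obtain ⟨B', hB', rfl⟩ := mem_image.1 hB
      obtain ⟨h1, h2⟩ := hA B' (hX B' hB').1
      refine ⟨fun h => (hX B' hB').1 (by rw [h2, h, Ideal.mul_bot]), fun R hR hRA => ?_⟩
      rcases mem_insert.1 ((hX B' hB').2 R hR (h2 ▸ hRA.mul_left _)) with h3 | h3
      · exact absurd (h3 ▸ hRA) h1
      · exact h3)
    have h2 : (2 : ℝ) ≤ Ideal.absNorm P := by exact_mod_cast idealsum_two_le hP
    have h3 := idealsum_geom (t := 1 / Ideal.absNorm P) (by positivity)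
      (one_div_le_one_div_of_le two_pos h2) (X.image j)
    rw [sum_insert hPQ, mul_add, Real.exp_add]
    refine le_trans ?_ (mul_le_mul h3 h1 (sum_nonneg fun _ _ => by positivity) (Real.exp_pos _).le)
    rw [sum_mul_sum, ← sum_product']
    calc ∑ B ∈ X, (1 : ℝ) / Ideal.absNorm B
        = ∑ p ∈ X.image (fun B => (j B, A B)),
            ((1 : ℝ) / Ideal.absNorm P) ^ p.1 * (1 / Ideal.absNorm p.2) := by
          rw [sum_image]
          · refine sum_congr rfl fun B hB => ?_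
            conv_lhs => rw [(hA B (hX B hB).1).2]
            rw [map_mul, map_pow]
            push_cast
            rw [one_div_pow, one_div_mul_one_div]
          · intro B hB B' hB' h
            obtain ⟨e1, e2⟩ := Prod.mk.inj h
            rw [(hA B (hX B hB).1).2, (hA B' (hX B' hB').1).2, e1, e2]
      _ ≤ _ := by
          refine sum_le_sum_of_subset_of_nonneg (fun p hp => ?_) fun _ _ _ => by positivity
          obtain ⟨B, hB, rfl⟩ := mem_image.1 hp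
          exact mem_product.2 ⟨mem_image_of_mem _ hB, mem_image_of_mem _ hB⟩

theorem idealsum_norm {l : ℕ} [Fact l.Prime] {K : Type} [Field K] [NumberField K]
    [IsCyclotomicExtension {l} ℚ K] {P : Ideal (𝓞 K)} (hP : Prime P) (hl : (l : 𝓞 K) ∉ P) :
    IsPrimePow (Ideal.absNorm P) ∧ Ideal.absNorm P ≡ 1 [MOD l] := by
  have hP1 : P.IsPrime := Ideal.isPrime_of_prime hP
  have hP2 : P.IsMaximal := hP1.isMaximal hP.ne_zero
  let _ : Field (𝓞 K ⧸ P) := Ideal.Quotient.field P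
  have : Finite (𝓞 K ⧸ P) := Ideal.finiteQuotientOfFreeOfNeBot P hP.ne_zero
  let _ : Fintype (𝓞 K ⧸ P) := Fintype.ofFinite _
  have e : Ideal.absNorm P = Fintype.card (𝓞 K ⧸ P) := by
    rw [Ideal.absNorm_apply, Submodule.cardQuot_apply, Nat.card_eq_fintype_card]
  have hE : (l : 𝓞 K ⧸ P) ≠ 0 := fun h => hl (Ideal.Quotient.eq_zero_iff_mem.1 (by simpa using h))
  have hω := isPrimitiveRoot_map (IsCyclotomicExtension.zeta_spec l ℚ K) hE (Ideal.Quotient.mk P)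
  rw [e]
  refine ⟨FiniteField.isPrimePow_card _, ((Nat.modEq_iff_dvd' Fintype.card_pos).2 ?_).symm⟩
  exact hω.dvd_of_pow_eq_one _
    (FiniteField.pow_card_sub_one_eq_one _ (hω.ne_zero (Fact.out : l.Prime).ne_zero))

theorem idealsum_card {l : ℕ} [Fact l.Prime] {K : Type} [Field K] [NumberField K]
    [IsCyclotomicExtension {l} ℚ K] (T : Finset (Ideal (𝓞 K))) (m : ℕ) (hm : 2 ≤ m)
    (hT : ∀ P ∈ T, Prime P ∧ Ideal.absNorm P = m) : #T ≤ l := by
  have h1 : ∏ P ∈ T, P ∣ Ideal.span {(m : 𝓞 K)} :=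
    Finset.prod_primes_dvd _ (fun P hP => (hT P hP).1) fun P hP => by
      rw [Ideal.dvd_span_singleton, ← (hT P hP).2]
      exact Ideal.absNorm_mem P
  have h2 := map_dvd Ideal.absNorm h1
  rw [absNorm_natCast l, map_prod, prod_congr rfl fun P hP => (hT P hP).2, prod_const,
    Nat.pow_dvd_pow_iff_le_right hm] at h2
  omega

theorem idealsum_exp {l : ℕ} (hl : l.Prime) {a : ℝ} :
    Real.exp (a * Real.log l) ≤ (l : ℝ) ^ ⌈a⌉₊ := by
  have h1 : (1 : ℝ) ≤ l := by exact_mod_cast hl.one_le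
  rw [mul_comm, ← Real.rpow_def_of_pos (by linarith), ← Real.rpow_natCast]
  exact Real.rpow_le_rpow_of_exponent_le h1 (Nat.le_ceil a)

theorem ideal_sum : ∃ C : ℕ, ∀ (l : ℕ) [Fact l.Prime] (K : Type) [Field K] [NumberField K]
    [IsCyclotomicExtension {l} ℚ K] (X : Finset (Ideal (𝓞 K))),
      (∀ B ∈ X, IsCoprime B (Ideal.span {(l : 𝓞 K)}) ∧
        (Ideal.absNorm B : ℝ) ≤ Real.exp ((l : ℝ) ^ 3)) →
      ∑ B ∈ X, (1 : ℝ) / Ideal.absNorm B ≤ (l : ℝ) ^ C := by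
  classical
  obtain ⟨C, hC0, hC⟩ := ap_upper
  refine ⟨⌈2 * C⌉₊, fun l _ K _ _ _ X hX => ?_⟩
  have hl : l.Prime := Fact.out
  let X' := X.filter (fun B => B ≠ ⊥)
  let Q := X'.biUnion fun B => (UniqueFactorizationMonoid.normalizedFactors B).toFinset
  have hQ : ∀ P, P ∈ Q ↔ Prime P ∧ ∃ B ∈ X', P ∣ B := by
    intro P
    simp only [Q, mem_biUnion, Multiset.mem_toFinset]
    constructor
    · rintro ⟨B, hB, h⟩
      exact ⟨UniqueFactorizationMonoid.prime_of_normalized_factor P h, B, hB,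
        UniqueFactorizationMonoid.dvd_of_mem_normalizedFactors h⟩
    · rintro ⟨h1, B, hB, h2⟩
      exact ⟨B, hB, (Ideal.mem_normalizedFactors_iff (mem_filter.1 hB).2).2
        ⟨Ideal.isPrime_of_prime h1, Ideal.le_of_dvd h2⟩⟩
  have h1 := euler_le Q X' (fun P hP => ((hQ P).1 hP).1) fun B hB =>
    ⟨(mem_filter.1 hB).2, fun P h1 h2 => (hQ P).2 ⟨h1, B, hB, h2⟩⟩
  have h2 : ∑ B ∈ X, (1 : ℝ) / Ideal.absNorm B = ∑ B ∈ X', (1 : ℝ) / Ideal.absNorm B :=
    (sum_filter_of_ne (p := fun B => B ≠ ⊥) fun B _ h h' => h (by simp [h'])).symm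
  have h3 := hC l hl (Q.image Ideal.absNorm) fun m hm => by
    obtain ⟨P, hP, rfl⟩ := mem_image.1 hm
    obtain ⟨h3, B, hB, h4⟩ := (hQ P).1 hP
    obtain ⟨h5, h6⟩ := mem_filter.1 hB
    have h7 := idealsum_norm (l := l) h3 fun h => h3.not_isUnit
      ((hX B h5).1.isUnit_of_dvd' h4 (Ideal.dvd_span_singleton.2 h))
    refine ⟨h7.1, h7.2, le_trans ?_ (hX B h5).2⟩
    exact_mod_cast Nat.le_of_dvd
      (Nat.pos_of_ne_zero fun h => h6 (Ideal.absNorm_eq_zero_iff.1 h)) (map_dvd Ideal.absNorm h4)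
  have h4 : ∑ P ∈ Q, (1 : ℝ) / Ideal.absNorm P ≤ l * ∑ m ∈ Q.image Ideal.absNorm, (1 : ℝ) / m := by
    rw [sum_comp (fun m : ℕ => (1 : ℝ) / m) Ideal.absNorm, mul_sum]
    refine sum_le_sum fun m hm => ?_
    obtain ⟨P, hP, rfl⟩ := mem_image.1 hm
    rw [nsmul_eq_mul]
    refine mul_le_mul_of_nonneg_right ?_ (by positivity)
    exact_mod_cast idealsum_card _ _ (idealsum_two_le ((hQ P).1 hP).1) fun R hR =>
      ⟨((hQ R).1 (mem_filter.1 hR).1).1, (mem_filter.1 hR).2⟩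
  rw [h2]
  refine h1.trans (le_trans (Real.exp_le_exp.2 ?_) (idealsum_exp hl))
  linarith

theorem prod_le : ∃ C : ℕ, ∀ l : ℕ, l.Prime → ∀ y z : ℝ, 3 ≤ y → 3 ≤ z → ∀ g : ℕ → ℝ,
    (∀ q ∈ PI (Real.exp ((l : ℝ) ^ 2)) y, g q ≤ 1 ∧ 1 - g q ≤
      Real.exp (-((if q ≡ 1 [MOD l] then ((l : ℝ) - 1) / q else 0) +
        if z < q then 1 / (q : ℝ) else 0))) →
      ∏ q ∈ PI (Real.exp ((l : ℝ) ^ 2)) y, (1 - g q) ≤
        (l : ℝ) ^ C * Real.log z / Real.log y ^ 2 := by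
  obtain ⟨C1, hC1, h1⟩ := ap_upper
  obtain ⟨C2, hC2, h2⟩ := ap_lower
  obtain ⟨C3, hC3, h3⟩ := mertens2
  refine ⟨⌈C1 + C2 + 2 + 6 * C3⌉₊, fun l hl y z hy hz g hg => ?_⟩
  have hl2 : (2 : ℝ) ≤ l := by exact_mod_cast hl.two_le
  have hlog := mertens_log_ge hl.two_le
  set w := Real.exp ((l : ℝ) ^ 2) with hw
  have hw2 : 2 ≤ w := by
    have := Real.add_one_le_exp ((l : ℝ) ^ 2)
    nlinarith
  have hw3 : w ≤ Real.exp ((l : ℝ) ^ 3) := Real.exp_le_exp.2 (by nlinarith)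
  have a1 := h1 l hl ((PI 0 w).filter fun q => q ≡ 1 [MOD l]) fun q hq => by
    obtain ⟨e1, e2⟩ := mem_filter.1 hq
    exact ⟨(mem_PI.1 e1).2.2.isPrimePow, e2, (mem_PI.1 e1).2.1.trans hw3⟩
  have a2 := h2 l hl y hy
  have a3 := (abs_le.1 (h3 y (by linarith))).1
  have a4 := (abs_le.1 (h3 z (by linarith))).2
  have a5 := (abs_le.1 (h3 w hw2)).2
  rw [hw, Real.log_exp, Real.log_pow, ← hw] at a5
  have sub : ∀ (A B C : Finset ℕ), A ⊆ B ∪ C →
      ∑ q ∈ A, (1 : ℝ) / q ≤ ∑ q ∈ B, (1 : ℝ) / q + ∑ q ∈ C, (1 : ℝ) / q := by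
    intro A B C h
    refine (sum_le_sum_of_subset_of_nonneg h fun _ _ _ => by positivity).trans ?_
    rw [← sum_union_inter]
    exact le_add_of_nonneg_right (sum_nonneg fun _ _ => by positivity)
  have b1 := sub ((PI 0 y).filter fun q => q ≡ 1 [MOD l]) ((PI 0 w).filter fun q => q ≡ 1 [MOD l])
    ((PI w y).filter fun q => q ≡ 1 [MOD l]) fun q hq => by
      simp only [mem_union, mem_filter, mem_PI] at hq ⊢
      rcases le_or_gt (q : ℝ) w with h | h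
      · exact Or.inl ⟨⟨hq.1.1, h, hq.1.2.2⟩, hq.2⟩
      · exact Or.inr ⟨⟨h, hq.1.2⟩, hq.2⟩
  have b2 := sub (PI 0 y) (PI 0 w ∪ PI 0 z) ((PI w y).filter fun q => z < q) fun q hq => by
    simp only [mem_union, mem_filter, mem_PI] at hq ⊢
    rcases le_or_gt (q : ℝ) w with h | h
    · exact Or.inl (Or.inl ⟨hq.1, h, hq.2.2⟩)
    · rcases le_or_gt (q : ℝ) z with h' | h'
      · exact Or.inl (Or.inr ⟨hq.1, h', hq.2.2⟩)
      · exact Or.inr ⟨⟨h, hq.2⟩, h'⟩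
  have b3 := sub _ (PI 0 w) (PI 0 z) Subset.rfl
  have b4 : 0 ≤ ∑ q ∈ (PI 0 w).filter (fun q => q ≡ 1 [MOD l]), (1 : ℝ) / q :=
    sum_nonneg fun _ _ => by positivity
  have b5 := mul_le_mul_of_nonneg_left b1 (by linarith : (0 : ℝ) ≤ l - 1)
  have hy1 := mertens_one_lt hy
  have hz1 := mertens_one_lt hz
  calc _ ≤ ∏ q ∈ PI w y, Real.exp (-((if q ≡ 1 [MOD l] then ((l : ℝ) - 1) / q else 0) +
        if z < q then 1 / (q : ℝ) else 0)) :=
        prod_le_prod (fun q hq => sub_nonneg.2 (hg q hq).1) fun q hq => (hg q hq).2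
    _ = Real.exp (-(((l : ℝ) - 1) * ∑ q ∈ (PI w y).filter (fun q => q ≡ 1 [MOD l]), (1 : ℝ) / q +
        ∑ q ∈ (PI w y).filter (fun q : ℕ => z < q), (1 : ℝ) / (q : ℕ))) := by
        rw [← Real.exp_sum, sum_neg_distrib, sum_add_distrib, mul_sum, sum_filter, sum_filter]
        simp only [mul_one_div]
    _ ≤ Real.exp ((C1 + C2 + 2 + 6 * C3) * Real.log l + Real.log (Real.log z) -
        2 * Real.log (Real.log y)) := by
        refine Real.exp_le_exp.2 ?_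
        push_cast at a5
        have b6 := mul_le_mul_of_nonneg_left hlog hC3.le
        linarith
    _ ≤ _ := by
        rw [Real.exp_sub, Real.exp_add, Real.exp_log (by linarith), two_mul, Real.exp_add,
          Real.exp_log (by linarith), sq]
        gcongr
        exact idealsum_exp hl

end Pool.Agent.MP_48b1c3_nt.H54

end

-- part MP_48b1c3_nt.H54.Bad
section

/-! Upper bound for the sifted primes modulo which all `u i / w i` are `l`-th powers. -/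

namespace Pool.Agent.MP_48b1c3_nt.H54

open NumberField Finset

theorem bad_exp {l : ℝ} (hl : 10 ^ 7 ≤ l) : 16 * l ^ 7 * Real.exp 4 ≤ Real.exp l := by
  have h1 : Real.exp 4 ≤ 3 ^ 4 := by
    rw [show (4 : ℝ) = (4 : ℕ) * 1 by norm_num, Real.exp_nat_mul]
    exact pow_le_pow_left₀ (Real.exp_pos 1).le (Real.exp_one_lt_d9.le.trans (by norm_num)) 4
  have h0 : 0 < l := lt_of_lt_of_le (by norm_num) hl
  refine le_trans ?_ (Real.pow_div_factorial_le_exp l h0.le 9)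
  have h2 : (10 ^ 7 : ℝ) ^ 2 ≤ l ^ 2 := by gcongr
  rw [le_div_iff₀ (by positivity)]
  calc _ ≤ 16 * l ^ 7 * 3 ^ 4 * (Nat.factorial 9 : ℕ) := by gcongr
    _ = l ^ 7 * (16 * 3 ^ 4 * (Nat.factorial 9 : ℕ)) := by ring
    _ ≤ l ^ 7 * l ^ 2 := by
      gcongr
      exact le_trans (by norm_num [Nat.factorial]) h2
    _ = _ := by ring

theorem bad_exp' {t : ℝ} (ht : 10 ^ 7 ≤ t) : t ^ 4 ≤ Real.exp (t / 8) := by
  have h0 : 0 < t := lt_of_lt_of_le (by norm_num) ht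
  refine le_trans ?_ (Real.pow_div_factorial_le_exp (t / 8) (by positivity) 5)
  rw [le_div_iff₀ (by positivity)]
  calc _ ≤ t ^ 4 * (t / 8 ^ 5) := by
        gcongr
        rw [le_div_iff₀ (by positivity)]
        exact le_trans (by norm_num [Nat.factorial]) ht
    _ = _ := by ring

theorem exists_cyc (l : ℕ) [NeZero l] :
    ∃ (K : Type) (_ : Field K) (_ : NumberField K), IsCyclotomicExtension {l} ℚ K :=
  ⟨CyclotomicField l ℚ, _, inferInstance, CyclotomicField.isCyclotomicExtension l ℚ⟩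

theorem bad_num {l t : ℝ} (hl : 10 ^ 7 ≤ l) (ht : l ^ 4 ≤ t) :
    10 ^ 7 * l ^ 2 ≤ t ∧ 10 ^ 7 ≤ t ∧ l ≤ t ∧ 1 ≤ l ∧ l ≤ l ^ 2 := by
  have h1 : 1 ≤ l := le_trans (by norm_num) hl
  have h2 : l ≤ l ^ 2 := le_self_pow₀ h1 two_ne_zero
  have h3 : 10 ^ 7 * l ^ 2 ≤ t :=
    le_trans (calc 10 ^ 7 * l ^ 2 ≤ l ^ 2 * l ^ 2 := by gcongr; exact hl.trans h2
      _ = l ^ 4 := by ring) ht
  refine ⟨h3, ?_, ?_, h1, h2⟩ <;> linarith

theorem bad_norm {l : ℕ} (hl : (10 ^ 7 : ℝ) ≤ l) {n : ℕ} (hn0 : n ≠ 0) (hn : (n : ℝ) ≤ l)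
    {ξ a : ℝ} (hξ : 0 ≤ ξ) (ha0 : 0 ≤ a) (ha : a ≤ 16 * (l : ℝ) ^ 7 * ξ) :
    a ^ n ≤ Real.exp ((l : ℝ) ^ 2) * (ξ ^ n / Real.exp 4) := by
  have h2 : (16 * (l : ℝ) ^ 7) ^ n * Real.exp 4 ≤ Real.exp ((l : ℝ) ^ 2) :=
    calc _ ≤ (16 * (l : ℝ) ^ 7) ^ n * Real.exp 4 ^ n := by
          gcongr
          exact le_self_pow₀ (Real.one_le_exp (by norm_num)) hn0
      _ ≤ Real.exp l ^ n := by
          rw [← mul_pow]
          exact pow_le_pow_left₀ (by positivity) (bad_exp hl) _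
      _ ≤ _ := by
          rw [← Real.exp_nat_mul, Real.exp_le_exp, sq]
          gcongr
  calc _ ≤ (16 * (l : ℝ) ^ 7 * ξ) ^ n := by gcongr
    _ = (16 * (l : ℝ) ^ 7) ^ n * Real.exp 4 * (ξ ^ n / Real.exp 4) := by
        rw [mul_pow _ ξ]
        field_simp
    _ ≤ _ := by gcongr

theorem bad_rem {l t n a T : ℝ} (hl : 10 ^ 7 ≤ l) (ht : l ^ 4 ≤ t) (hn : 0 < n) (ha : 0 < a)
    (hT : 8 * n * a * Real.exp t ≤ T) :
    2 * n * (Real.exp (l ^ 2) * a) * Real.exp (3 * (t / 12)) ≤ T ∧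
      4 * n * (Real.exp (l ^ 2) * a) * Real.exp (9 * (t / 12)) / T ≤ 1 / (l * t) ^ 2 := by
  obtain ⟨h1, h2, h3, h4, h5⟩ := bad_num hl ht
  have ht0 : 0 < t := by linarith
  constructor
  · refine le_trans ?_ hT
    calc _ = 2 * n * a * Real.exp (l ^ 2 + 3 * (t / 12)) := by rw [Real.exp_add]; ring
      _ ≤ _ := by gcongr <;> linarith
  · rw [div_le_div_iff₀ (lt_of_lt_of_le (by positivity) hT) (by positivity), one_mul]
    refine le_trans ?_ hT
    have h6 : (l * t) ^ 2 ≤ Real.exp (t / 8) := by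
      refine le_trans ?_ (bad_exp' h2)
      calc _ ≤ (t * t) ^ 2 := by gcongr
        _ = _ := by ring
    calc _ ≤ 4 * n * (Real.exp (t / 8) * a) * Real.exp (9 * (t / 12)) * Real.exp (t / 8) := by
          gcongr
          linarith
      _ = 4 * n * a * Real.exp (t / 8 + 9 * (t / 12) + t / 8) := by
          rw [Real.exp_add, Real.exp_add]; ring
      _ ≤ _ := by gcongr <;> linarith

theorem bad_y {l t C α : ℝ} (hl : 10 ^ 7 ≤ l) (ht : l ^ 4 ≤ t) (hC : C ≤ l) (hC0 : 0 ≤ C)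
    (hα : 0 < α) (hlα : 1 / α ≤ l) :
    3 ≤ Real.exp (t / (768 * l)) ∧ t / (768 * l) ≤ t / 12 / 8 ∧
      (l + 1) * (3 * (t / (768 * l)) + C) ≤ t / 12 / 8 ∧ t / (768 * l) + 4 ≤ l * t ∧
      t / (768 * l) ≤ l * t * α := by
  obtain ⟨h1, h2, h3, h4, h5⟩ := bad_num hl ht
  have ht0 : 0 < t := by linarith
  refine ⟨le_trans ?_ (Real.add_one_le_exp _), ?_, ?_, ?_, ?_⟩
  · rw [← sub_le_iff_le_add, le_div_iff₀ (by positivity)]
    linarith
  · rw [div_div]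
    exact div_le_div_of_nonneg_left ht0.le (by norm_num) (by linarith)
  · calc _ ≤ (2 * l) * (3 * (t / (768 * l)) + l) := by gcongr; linarith
      _ = t / 128 + 2 * l ^ 2 := by field_simp; ring
      _ ≤ _ := by linarith
  · have h6 : t / (768 * l) ≤ t := div_le_self ht0.le (by linarith)
    have h7 : 2 * t ≤ l * t := by gcongr; linarith
    linarith
  · rw [div_le_iff₀ (by positivity)]
    rw [div_le_iff₀ hα] at hlα
    calc t = t * 1 * 1 := by ring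
      _ ≤ t * (l * α) * (768 * l) := by gcongr; linarith
      _ = _ := by ring

theorem bad_fin {l t x Z R : ℝ} (hl : 10 ^ 7 ≤ l) (ht : 0 < t) (hx : 0 < x) (hZ : 1 ≤ Z)
    (hR : R ≤ 1 / (l * t) ^ 2) (a b r : ℕ) :
    16 * x / l ^ r * (l ^ b * Z / (t / (768 * l)) ^ 2 + R) * l ^ a ≤
      l ^ (a + b + 5) / l ^ r * (x * Z / (l * t) ^ 2) := by
  have hl1 : 1 ≤ l := le_trans (by norm_num) hl
  have h1 : 1 ≤ l ^ b * Z * l ^ 4 :=
    one_le_mul_of_one_le_of_one_le (one_le_mul_of_one_le_of_one_le (one_le_pow₀ hl1) hZ)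
      (one_le_pow₀ hl1)
  calc _ ≤ 16 * x / l ^ r * (l ^ b * Z / (t / (768 * l)) ^ 2 +
        l ^ b * Z * l ^ 4 / (l * t) ^ 2) * l ^ a := by
        gcongr
        exact hR.trans (by gcongr)
    _ = 16 * (768 ^ 2 + 1) * l ^ (a + b + 4) / l ^ r * (x * Z / (l * t) ^ 2) := by
        field_simp
        ring
    _ ≤ l * l ^ (a + b + 4) / l ^ r * (x * Z / (l * t) ^ 2) := by
        gcongr
        linarith
    _ = _ := by ring

theorem bad_upper : ∃ C₀ : ℕ, ∀ (r : ℕ) (u w q : Fin r → ℕ), Diag u w q → ∀ α : ℝ, 0 < α →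
    ∃ l₁ : ℕ, ∀ x : ℝ, 0 < x → ∀ l : ℕ, l.Prime → l₁ ≤ l → (l : ℝ) ^ 5 ≤ Real.log x →
      ∀ z : ℝ, 3 ≤ z → ∀ S : Finset ℕ, (∀ p ∈ S, p ∈ PI (x / Real.exp 4) x ∧ l ∣ p - 1 ∧
        (∀ i, (u i : ZMod p) ^ ((p - 1) / l) = (w i : ZMod p) ^ ((p - 1) / l)) ∧
          ∀ q' : ℕ, q'.Prime → q' ∣ p - 1 → (q' : ℝ) ≤ z ∨ x ^ α < q') →
        (#S : ℝ) ≤ (l : ℝ) ^ C₀ / (l : ℝ) ^ r * (x * Real.log z / Real.log x ^ 2) := by
  obtain ⟨C₁, hC₁, hM⟩ := mertens1
  obtain ⟨Ca, hZ⟩ := ideal_sum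
  obtain ⟨Cb, hV⟩ := prod_le
  refine ⟨Ca + Cb + 5, fun r u w q hq α hα => ⟨10 ^ 7 + ⌈C₁⌉₊ + ⌈1 / α⌉₊ + (∏ i, u i * w i + 1),
    fun x hx l hl hl₁ hL z hz S hS => ?_⟩⟩
  have := Fact.mk hl
  obtain ⟨K, _, _, _⟩ := exists_cyc l
  obtain ⟨A, hA⟩ : ∃ A, A = ∏ i, u i * w i := ⟨_, rfl⟩
  rw [← hA] at hl₁
  have hA0 : (0 : ℝ) < A := by exact_mod_cast hA ▸ hq.prod_pos
  have hAl : (A : ℝ) ≤ l := by exact_mod_cast (by omega : A ≤ l)
  have hl7 : (10 ^ 7 : ℝ) ≤ l := by exact_mod_cast (by omega : 10 ^ 7 ≤ l)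
  have hl0 : (0 : ℝ) < l := by exact_mod_cast hl.pos
  obtain ⟨t, ht⟩ : ∃ t, Real.log x = l * t := ⟨Real.log x / l, by field_simp⟩
  have ht4 : (l : ℝ) ^ 4 ≤ t := le_of_mul_le_mul_left (by rw [← ht, ← pow_succ']; exact hL) hl0
  have ht0 : 0 < t := lt_of_lt_of_le (by positivity) ht4
  have hn0 : 0 < l - 1 := by omega
  have hn1 : (1 : ℝ) ≤ (l - 1 : ℕ) := by exact_mod_cast hn0
  have hnl : ((l - 1 : ℕ) : ℝ) ≤ l := by exact_mod_cast Nat.sub_le l 1
  obtain ⟨ξ, hξ⟩ : ∃ ξ, ξ = Real.exp (Real.log x / (l - 1 : ℕ)) := ⟨_, rfl⟩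
  have hξx : ξ ^ (l - 1) = x := by
    rw [hξ, ← Real.exp_nat_mul, mul_div_cancel₀ _ (by positivity), Real.exp_log hx]
  have hξt : Real.exp t ≤ ξ := hξ ▸ Real.exp_le_exp.2 (by
    rw [le_div_iff₀ (by positivity), ht, mul_comm]
    gcongr)
  have hξ1 : 1 ≤ ξ := (Real.one_le_exp ht0.le).trans hξt
  have hξ0 : 0 ≤ ξ := zero_le_one.trans hξ1
  have hD1 : ξ ≤ ⌈ξ⌉₊ := Nat.le_ceil ξ
  have hD2 : (⌈ξ⌉₊ : ℝ) ≤ 2 * ξ :=
    (Nat.ceil_lt_add_one hξ0).le.trans (by rw [two_mul]; gcongr)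
  obtain ⟨T, hT⟩ : ∃ T, T = 8 * (l - 1) * ((l - 1) ^ 2 * (l * A * ⌈ξ⌉₊)) := ⟨_, rfl⟩
  have hTR : (T : ℝ) = 8 * (l - 1 : ℕ) * (((l - 1 : ℕ) : ℝ) ^ 2 * (l * A * ⌈ξ⌉₊)) := by
    rw [hT]
    simp only [Nat.cast_mul, Nat.cast_pow, Nat.cast_ofNat]
  have hT1 : 8 * (l - 1 : ℕ) * (l * A) * Real.exp t ≤ T := by
    rw [hTR]
    calc _ = 8 * (l - 1 : ℕ) * (1 ^ 2 * (l * A * Real.exp t)) := by ring
      _ ≤ _ := by gcongr; exact hξt.trans hD1
  have hT0 : (0 : ℝ) < T := lt_of_lt_of_le (by positivity) hT1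
  have hy : Real.log (Real.exp (t / (768 * l))) = t / (768 * l) := Real.log_exp _
  obtain ⟨y1, y2, y3, y4, y5⟩ := bad_y hl7 ht4 (Nat.ceil_le.1 (by omega : ⌈C₁⌉₊ ≤ l)) hC₁.le hα
    (Nat.ceil_le.1 (by omega))
  obtain ⟨r1, r2⟩ := bad_rem hl7 ht4 (by positivity) (by positivity) hT1
  have hz1 : 1 ≤ Real.log z := by
    rw [Real.le_log_iff_exp_le (three_pos.trans_le hz)]
    exact Real.exp_one_lt_d9.le.trans (le_trans (by norm_num) hz)
  have h1 : ((l - 1 : ℕ) : ℝ) ^ 2 * T ≤ 16 * (l : ℝ) ^ 7 * ξ := by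
    rw [hTR]
    calc _ ≤ (l : ℝ) ^ 2 * (8 * l * ((l : ℝ) ^ 2 * (l * l * (2 * ξ)))) := by gcongr
      _ = _ := by ring
  have h2 := hM _ (le_trans (by norm_num) y1)
  have key := bad_core (l := l) K (by omega) hq hA (by omega)
    (y := Real.exp (t / (768 * l))) (z := z) (Lg := t / 12) (Z := (l : ℝ) ^ Ca) hx (by positivity)
    (hy.trans_le y2) (le_trans (by rw [hy] at h2; gcongr) y3)
    (by positivity) (hV l hl _ z y1 hz) (hZ l K) (D := ⌈ξ⌉₊) (T := T)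
    (hξx ▸ pow_lt_pow_left₀ (hD1.trans_lt (lt_add_one _)) hξ0 hn0.ne')
    (by exact_mod_cast hT0) hT.ge r1 (hξx ▸ bad_norm hl7 hn0.ne' hnl hξ0 (by positivity) h1)
    (by rwa [le_div_iff₀ (by positivity), ← Real.exp_add, ← Real.le_log_iff_exp_le hx, ht])
    S fun p hp => ⟨(hS p hp).1, (hS p hp).2.1, (hS p hp).2.2.1, fun q' h1 h2 =>
      ((hS p hp).2.2.2 q' h1 h2).imp_right fun h => lt_of_le_of_lt (by
        rwa [Real.rpow_def_of_pos hx, Real.exp_le_exp, ht]) h⟩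
  rw [hy] at key
  rw [ht]
  exact key.trans (bad_fin hl7 ht0 hx hz1 r2 Ca Cb r)

end Pool.Agent.MP_48b1c3_nt.H54

end

-- part MP_48b1c3_nt.H54.Quad
section

/-! A residue class of primes for which a given non-square is a quadratic non-residue. -/

/-
HINTS.  Write d = s * t^2 with s squarefree (Nat.sq_mul_squarefree for natAbs), s ≠ 1, s = ± 2^e m, m odd positive squarefree, e ≤ 1.  M = 8 m.  For a prime p ∤ d, p ≡ c [MOD M]: IsSquare (d : ZMod p) ↔ J(s | p) = 1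
(ZMod.isSquare_of_jacobiSym..., jacobiSym.legendreSym.to_jacobiSym, legendreSym.eq_neg_one_iff), J(s | p) = J(±1 | p) J(2 | p)^e J(m | p) with jacobiSym.at_neg_one = χ₄, at_two = χ₈, and J(m | p) = ± J(p | m)
(jacobiSym.quadratic_reciprocity), J(p | m) depends on p mod m (jacobiSym.mod_left).  Take c ≡ -1 mod m (then no odd prime ℓ ∣ m divides p - 1) and choose c mod 8: if e = 1 or s ≡ 3 mod 4 the function of c mod 8 is a
non-trivial character times a fixed sign, so some odd class gives -1.  If s = -m ≡ 1 mod 4 (m ≡ 3 mod 4) take c ≡ 1 mod 8: J(s | p) = J(p | m) = J(-1 | m) = -1.  If s = m ≡ 1 mod 4, m > 1: m has a prime factor q ≥ 5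
(m squarefree, m ≠ 3), m = q m'; c ≡ 1 mod 8, c ≡ -1 mod m', c ≡ τ mod q with τ ≢ 0, 1 and J(τ | q) = - J(-1 | q) (τ = a non-residue if q ≡ 1 mod 4, τ = 4 if q ≡ 3 mod 4, q ≥ 7).
A uniform way: it suffices to find c coprime to 8 m with c ≢ 1 mod every prime of m and J(s | c) = -1, because jacobiSym.mod_right gives J(s | p) = J(s | p % (4 |s|)).
-/

namespace Pool.Agent.MP_48b1c3_nt.H54

open jacobiSym

/-- data for a residue class on which the symbol of `s` is `-1` -/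
def CycGood (s : ℤ) : Prop := ∃ m r c : ℕ, Odd m ∧ r % 2 = 1 ∧ r < 8 ∧ c.Coprime m ∧
  (∀ q : ℕ, q.Prime → q ∣ m → ¬ c ≡ 1 [MOD q]) ∧
  ∀ p : ℕ, p % 8 = r → p ≡ c [MOD m] → jacobiSym s p = -1

theorem cyc_neg_one {m p : ℕ} (hm : Odd m) (h : p ≡ m - 1 [MOD m]) :
    jacobiSym (p : ℤ) m = ZMod.χ₄ m := by
  rw [← at_neg_one hm]
  refine mod_left' ?_
  have h1 : (p : ℤ) ≡ ((m - 1 : ℕ) : ℤ) [ZMOD m] := Int.natCast_modEq_iff.2 h
  rw [Nat.cast_sub hm.pos] at h1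
  refine h1.trans ?_
  exact (Int.modEq_iff_dvd.2 ⟨-1, by push_cast; ring⟩)

theorem cyc_pred_coprime {m : ℕ} (hm : 0 < m) : (m - 1).Coprime m := by
  obtain ⟨k, rfl⟩ : ∃ k, m = k + 1 := ⟨m - 1, by omega⟩
  simp

theorem cyc_pred_ne {m : ℕ} (hm : Odd m) {q : ℕ} (hq : q.Prime) (h : q ∣ m) :
    ¬ m - 1 ≡ 1 [MOD q] := by
  intro h1
  have h2 : m - 1 + 1 ≡ 1 + 1 [MOD q] := h1.add_right 1
  rw [Nat.sub_add_cancel hm.pos] at h2
  have h3 : 2 ≡ 0 [MOD q] := h2.symm.trans ((Nat.modEq_zero_iff_dvd).2 h)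
  have h4 : q ∣ 2 := Nat.modEq_zero_iff_dvd.1 h3
  have h5 : q = 2 := (Nat.prime_dvd_prime_iff_eq hq Nat.prime_two).1 h4
  subst h5
  exact (Nat.not_even_iff_odd.2 hm) (even_iff_two_dvd.2 h)

theorem cyc_good_pred {s : ℤ} {m : ℕ} (hm : Odd m) (r : ℕ) (hr : r % 2 = 1) (hr8 : r < 8)
    (h : ∀ p : ℕ, p % 8 = r → jacobiSym (p : ℤ) m = ZMod.χ₄ m → jacobiSym s p = -1) :
    CycGood s :=
  ⟨m, r, m - 1, hm, hr, hr8, cyc_pred_coprime hm.pos, fun _ hq h => cyc_pred_ne hm hq h,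
    fun p hp hc => h p hp (cyc_neg_one hm hc)⟩

theorem cyc_chi8 {p : ℕ} : (p % 8 = 1 → ZMod.χ₈ p = 1) ∧ (p % 8 = 5 → ZMod.χ₈ p = -1) := by
  constructor <;> intro h <;> rw [ZMod.χ₈_nat_mod_eight, h] <;> rfl

theorem cyc_tau {q : ℕ} (hq : q.Prime) (h2 : q ≠ 2) (h3 : q ≠ 3) :
    ∃ τ : ℕ, τ.Coprime q ∧ ¬ τ ≡ 1 [MOD q] ∧ jacobiSym (τ : ℤ) q = - ZMod.χ₄ q := by
  have hodd : Odd q := hq.odd_of_ne_two h2
  have := Fact.mk hq
  rcases Nat.odd_mod_four_iff.1 (Nat.odd_iff.1 hodd) with h | h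
  · obtain ⟨a, ha⟩ := FiniteField.exists_nonsquare (F := ZMod q)
      (by rw [ZMod.ringChar_zmod_n]; exact h2)
    have h1 : jacobiSym (a.val : ℤ) q = -1 := by
      rw [ZMod.nonsquare_iff_jacobiSym_eq_neg_one]
      simpa using ha
    refine ⟨a.val, ?_, ?_, by rw [h1, ZMod.χ₄_nat_one_mod_four h]⟩
    · by_contra hc
      have : jacobiSym (a.val : ℤ) q = 0 := by
        rw [eq_zero_iff_not_coprime]
        rwa [Int.gcd_natCast_natCast]
      rw [this] at h1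
      exact absurd h1 (by decide)
    · intro hc
      have : jacobiSym (a.val : ℤ) q = jacobiSym 1 q :=
        mod_left' (by exact_mod_cast Int.natCast_modEq_iff.2 hc)
      rw [this, one_left] at h1
      exact absurd h1 (by decide)
  · refine ⟨4, ?_, ?_, ?_⟩
    · have : (2 ^ 2).Coprime q := Nat.Coprime.pow_left 2 ((Nat.coprime_primes Nat.prime_two hq).2 h2.symm)
      simpa using this
    · intro hc
      have h4 : q ∣ 4 - 1 := (Nat.modEq_iff_dvd' (by norm_num)).1 hc.symm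
      exact h3 ((Nat.prime_dvd_prime_iff_eq hq Nat.prime_three).1 h4)
    · rw [ZMod.χ₄_nat_three_mod_four h]
      simpa using at_four hodd

theorem cyc_good_one {m : ℕ} (hm : m % 4 = 1) (hsq : Squarefree m) (h1 : m ≠ 1) :
    CycGood (m : ℤ) := by
  have hodd : Odd m := Nat.odd_iff.2 (by omega)
  obtain ⟨q, hq, hqm, h3⟩ : ∃ q, q.Prime ∧ q ∣ m ∧ q ≠ 3 := by
    by_contra hc
    push Not at hc
    have : m ∣ 3 := by
      rw [← Nat.prod_primeFactors_of_squarefree hsq]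
      have hs : m.primeFactors ⊆ {3} := fun q hq => by
        rw [Finset.mem_singleton]
        exact hc q (Nat.prime_of_mem_primeFactors hq) (Nat.dvd_of_mem_primeFactors hq)
      simpa using Finset.prod_dvd_prod_of_subset _ _ (fun p : ℕ => p) hs
    rcases (Nat.dvd_prime Nat.prime_three).1 this with h | h
    · exact h1 h
    · omega
  obtain ⟨m', rfl⟩ := hqm
  have hco : q.Coprime m' := Nat.coprime_of_squarefree_mul hsq
  have hoq : Odd q := (Nat.odd_mul.1 hodd).1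
  have hom : Odd m' := (Nat.odd_mul.1 hodd).2
  have h2 : q ≠ 2 := by rintro rfl; exact absurd hoq (by decide)
  obtain ⟨τ, hτ1, hτ2, hτ3⟩ := cyc_tau hq h2 h3
  obtain ⟨c, hc1, hc2⟩ := Nat.chineseRemainder hco τ (m' - 1)
  refine ⟨q * m', 1, c, hodd, rfl, by norm_num, ?_, ?_, ?_⟩
  · refine Nat.Coprime.mul_right ?_ ?_
    · rw [Nat.Coprime, hc1.gcd_eq]; exact hτ1
    · rw [Nat.Coprime, hc2.gcd_eq]; exact cyc_pred_coprime hom.pos
  · intro q' hq' hd hc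
    rcases (Nat.Prime.dvd_mul hq').1 hd with h | h
    · obtain rfl := (Nat.prime_dvd_prime_iff_eq hq' hq).1 h
      exact hτ2 (hc1.symm.trans hc)
    · exact cyc_pred_ne hom hq' h ((hc2.of_dvd h).symm.trans hc)
  · intro p hp hpc
    have hpo : Odd p := Nat.odd_iff.2 (by omega)
    rw [quadratic_reciprocity_one_mod_four hm hpo, mul_right' _ hq.ne_zero hom.pos.ne',
      cyc_neg_one hom ((hpc.of_mul_left q).trans hc2)]
    have : jacobiSym (p : ℤ) q = jacobiSym (τ : ℤ) q :=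
      mod_left' (Int.natCast_modEq_iff.2 ((hpc.of_mul_right m').trans hc1))
    rw [this, hτ3, neg_mul, ← map_mul, ← Nat.cast_mul, ZMod.χ₄_nat_one_mod_four hm]

theorem cyc_good {ε : ℤ} (hε : ε = 1 ∨ ε = -1) {a : ℕ} (ha : Squarefree a) (h : ε * a ≠ 1) :
    CycGood (ε * a) := by
  have hε1 : ∀ p : ℕ, p % 4 = 1 → jacobiSym ε p = 1 := by
    intro p hp
    rcases hε with rfl | rfl
    · exact one_left p
    · rw [at_neg_one (Nat.odd_iff.2 (by omega)), ZMod.χ₄_nat_one_mod_four hp]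
  rcases Nat.even_or_odd a with ⟨m, hm⟩ | hodd
  · have hmo : Odd m := by
      by_contra hc
      obtain ⟨k, hk⟩ := Nat.not_odd_iff_even.1 hc
      have := ha 2 ⟨k, by omega⟩
      exact absurd (Nat.isUnit_iff.1 this) (by norm_num)
    have key : ∀ p : ℕ, p % 4 = 1 → jacobiSym (p : ℤ) m = ZMod.χ₄ m →
        jacobiSym (ε * a) p = ZMod.χ₈ p * ZMod.χ₄ m := by
      intro p hp hJ
      have hpo : Odd p := Nat.odd_iff.2 (by omega)
      have : (a : ℤ) = 2 * m := by rw [hm]; push_cast; ring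
      rw [this, mul_left, mul_left, hε1 p hp, at_two hpo,
        quadratic_reciprocity_one_mod_four' hmo hp, hJ, one_mul]
    rcases Nat.odd_mod_four_iff.1 (Nat.odd_iff.1 hmo) with h4 | h4
    · refine cyc_good_pred hmo 5 rfl (by norm_num) fun p hp hJ => ?_
      rw [key p (by omega) hJ, cyc_chi8.2 hp, ZMod.χ₄_nat_one_mod_four h4]; norm_num
    · refine cyc_good_pred hmo 1 rfl (by norm_num) fun p hp hJ => ?_
      rw [key p (by omega) hJ, cyc_chi8.1 hp, ZMod.χ₄_nat_three_mod_four h4]; norm_num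
  · rcases Nat.odd_mod_four_iff.1 (Nat.odd_iff.1 hodd) with h4 | h4
    · rcases hε with rfl | rfl
      · rw [one_mul] at h ⊢
        exact cyc_good_one h4 ha (by rintro rfl; exact h rfl)
      · refine cyc_good_pred hodd 7 rfl (by norm_num) fun p hp hJ => ?_
        have hpo : Odd p := Nat.odd_iff.2 (by omega)
        rw [mul_left, at_neg_one hpo, quadratic_reciprocity_one_mod_four h4 hpo, hJ,
          ZMod.χ₄_nat_one_mod_four h4, ZMod.χ₄_nat_three_mod_four (by omega)]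
        norm_num
    · refine cyc_good_pred hodd 1 rfl (by norm_num) fun p hp hJ => ?_
      rw [mul_left, hε1 p (by omega), quadratic_reciprocity_one_mod_four' hodd (by omega), hJ,
        ZMod.χ₄_nat_three_mod_four h4]
      norm_num

theorem exists_class {d : ℤ} (hd : ¬ IsSquare d) : ∃ M c : ℕ, 0 < M ∧ 2 ∣ M ∧ c.Coprime M ∧
    ∀ p : ℕ, p.Prime → p ≡ c [MOD M] → ¬ (p : ℤ) ∣ d →
      (∀ q : ℕ, q.Prime → q ≠ 2 → q ∣ M → ¬ q ∣ p - 1) ∧ ¬ IsSquare (d : ZMod p) := by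
  obtain ⟨a, t, hat, ha⟩ := Nat.sq_mul_squarefree d.natAbs
  obtain ⟨ε, hε, hdε⟩ : ∃ ε : ℤ, (ε = 1 ∨ ε = -1) ∧ d = ε * a * (t : ℤ) ^ 2 := by
    have h1 : (d.natAbs : ℤ) = a * (t : ℤ) ^ 2 := by rw [← hat]; push_cast; ring
    rcases Int.natAbs_eq d with h | h
    · exact ⟨1, Or.inl rfl, by rw [one_mul, ← h1]; exact h⟩
    · exact ⟨-1, Or.inr rfl, by rw [mul_assoc, ← h1, neg_one_mul]; exact h⟩
  have h1 : ε * a ≠ 1 := by
    intro h
    exact hd ⟨t, by rw [hdε, h]; ring⟩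
  obtain ⟨m, r, c₀, hm, hr, hr8, hco, hne, hJ⟩ := cyc_good hε ha h1
  have h8 : Nat.Coprime 8 m := by
    have : (2 ^ 3).Coprime m := Nat.Coprime.pow_left 3 ((Nat.coprime_two_left).2 hm)
    simpa using this
  obtain ⟨c, hc1, hc2⟩ := Nat.chineseRemainder h8 r c₀
  have hc8 : c % 8 = r := by
    have := hc1
    unfold Nat.ModEq at this
    omega
  refine ⟨8 * m, c, by have := hm.pos; omega, ⟨4 * m, by ring⟩, ?_, fun p hp hpc hpd => ⟨?_, ?_⟩⟩
  · refine Nat.Coprime.mul_right ?_ (by rw [Nat.Coprime, hc2.gcd_eq]; exact hco)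
    have : c.Coprime (2 ^ 3) :=
      Nat.Coprime.pow_right 3 ((Nat.coprime_two_right).2 (Nat.odd_iff.2 (by omega)))
    simpa using this
  · intro q hq h2 hqM hqp
    have hqm : q ∣ m := by
      rcases (Nat.Prime.dvd_mul hq).1 hqM with h | h
      · exact absurd ((Nat.prime_dvd_prime_iff_eq hq Nat.prime_two).1
          (hq.dvd_of_dvd_pow (n := 3) (by simpa using h))) h2
      · exact h
    refine hne q hq hqm ?_
    have h3 : p ≡ c₀ [MOD q] := ((hpc.of_mul_left 8).trans hc2).of_dvd hqm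
    exact h3.symm.trans ((Nat.modEq_iff_dvd' hp.one_le).2 hqp).symm
  · refine ZMod.nonsquare_of_jacobiSym_eq_neg_one ?_
    have hp8 : p % 8 = r := by
      have := (hpc.of_mul_right m)
      unfold Nat.ModEq at this
      omega
    have hg : (t : ℤ).gcd p = 1 := by
      rw [Int.gcd_natCast_natCast]
      refine ((Nat.Prime.coprime_iff_not_dvd hp).2 fun h => hpd ?_).symm
      rw [hdε]
      exact Dvd.dvd.mul_left (dvd_pow (Int.natCast_dvd_natCast.2 h) two_ne_zero) _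
    rw [hdε, mul_left, sq_one' hg, mul_one]
    exact hJ p hp8 ((hpc.of_mul_left 8).trans hc2)

end Pool.Agent.MP_48b1c3_nt.H54

end

-- part MP_48b1c3_nt.H54.Index
section

/-! The index of the reduction of `W` modulo a prime. -/

namespace Pool.Agent.MP_48b1c3_nt.H54

/-- the image of `W` in the units modulo `p` -/
def red (W : Subgroup ℚˣ) (p : ℕ) : Subgroup (ZMod p)ˣ :=
  Subgroup.closure {u : (ZMod p)ˣ | ∃ w ∈ W,
    (((w : ℚ).num : ℤ) : ZMod p) = (u : ZMod p) * (((w : ℚ).den : ℕ) : ZMod p)}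

theorem not_dvd_of_val {p : ℕ} [Fact p.Prime] {w : ℚ} (h0 : w ≠ 0) (h : padicValRat p w = 0) :
    ¬ p ∣ w.num.natAbs ∧ ¬ p ∣ w.den := by
  have hp : p.Prime := Fact.out
  have h1 : padicValNat p w.num.natAbs = padicValNat p w.den := by
    rw [padicValRat_def, sub_eq_zero] at h
    exact_mod_cast h
  have h2 : w.num.natAbs ≠ 0 := by simpa using h0
  rw [dvd_iff_padicValNat_ne_zero h2, h1, ← dvd_iff_padicValNat_ne_zero w.den_nz, and_self]
  intro h3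
  have h4 : p ∣ w.num.natAbs := by
    rwa [dvd_iff_padicValNat_ne_zero h2, h1, ← dvd_iff_padicValNat_ne_zero w.den_nz]
  exact hp.one_lt.ne' (Nat.eq_one_of_dvd_coprimes w.reduced h4 h3)

theorem index_dvd (W : Subgroup ℚˣ) (p : ℕ) [Fact p.Prime] : (red W p).index ∣ p - 1 := by
  have := (red W p).index_dvd_card
  rwa [Nat.card_eq_fintype_card, ZMod.card_units] at this

theorem exists_pow_eq_one {W : Subgroup ℚˣ} {p l : ℕ} [Fact p.Prime] (hl : l ∣ (red W p).index)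
    {w : ℚˣ} (hw : w ∈ W) (h : padicValRat p (w : ℚ) = 0) : ∃ u : ZMod p,
      u ^ ((p - 1) / l) = 1 ∧ ((w : ℚ).num : ZMod p) = u * (w : ℚ).den := by
  obtain ⟨h1, h2⟩ := not_dvd_of_val w.ne_zero h
  have h3 : ((w : ℚ).num : ZMod p) ≠ 0 := by
    rwa [Ne, ZMod.intCast_zmod_eq_zero_iff_dvd, Int.natCast_dvd]
  have h4 : ((w : ℚ).den : ZMod p) ≠ 0 := by rwa [Ne, ZMod.natCast_eq_zero_iff]
  have h5 : Units.mk0 _ (div_ne_zero h3 h4) ∈ red W p :=
    Subgroup.subset_closure ⟨w, hw, by simp [h4]⟩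
  refine ⟨_, ?_, (div_mul_cancel₀ _ h4).symm⟩
  obtain ⟨j, hj⟩ := hl
  have h6 := (red W p).card_mul_index
  rw [Nat.card_eq_fintype_card (α := (ZMod p)ˣ), ZMod.card_units, hj] at h6
  have hl0 : 0 < l := by
    have := (Fact.out : p.Prime).two_le
    refine Nat.pos_of_ne_zero ?_
    rintro rfl
    omega
  have h7 : (p - 1) / l = Nat.card (red W p) * j := by
    rw [← h6, mul_left_comm, Nat.mul_div_cancel_left _ hl0]
  have h8 := congrArg (fun u : red W p => ((u : (ZMod p)ˣ) : ZMod p))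
    (pow_card_eq_one' (x := (⟨_, h5⟩ : red W p)))
  simp only [SubgroupClass.coe_pow, Units.val_pow_eq_pow_val, Units.val_mk0, OneMemClass.coe_one,
    Units.val_one] at h8
  rw [h7, pow_mul, h8, one_pow]

theorem pow_eq_of_odd {W : Subgroup ℚˣ} {p l : ℕ} [Fact p.Prime] (hp : p ≠ 2) (hl2 : Odd l)
    (hl : l ∣ (red W p).index) {w : ℚˣ} (hw : w ∈ W) (h : padicValRat p (w : ℚ) = 0) :
    ((w : ℚ).num.natAbs : ZMod p) ^ ((p - 1) / l) = ((w : ℚ).den : ZMod p) ^ ((p - 1) / l) := by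
  obtain ⟨u, h1, h2⟩ := exists_pow_eq_one hl hw h
  have h3 : Even ((p - 1) / l) := by
    have h4 := (Fact.out : p.Prime).even_sub_one hp
    rw [← Nat.div_mul_cancel (hl.trans (index_dvd W p)), Nat.even_mul] at h4
    exact h4.resolve_right (Nat.not_even_iff_odd.2 hl2)
  have h4 : ((w : ℚ).num.natAbs : ZMod p) ^ ((p - 1) / l) =
      ((w : ℚ).num : ZMod p) ^ ((p - 1) / l) := by
    rw [← Int.cast_natCast, Int.natCast_natAbs, ← Int.cast_pow, h3.pow_abs, Int.cast_pow]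
  rw [h4, h2, mul_pow, h1, one_mul]

theorem exists_good_class (W : Subgroup ℚˣ) {k : ℕ} (h : Even k ∨ ∃ w ∈ W, ¬ IsSquare (w : ℚ)) :
    ∃ M c : ℕ, 0 < M ∧ 2 ∣ M ∧ c.Coprime M ∧ ∀ p : ℕ, p.Prime → p ≡ c [MOD M] →
      (∀ w ∈ W, padicValRat p (w : ℚ) = 0) → (∀ q : ℕ, q.Prime → q ≠ 2 → q ∣ M → ¬ q ∣ p - 1) ∧
        ((∀ q : ℕ, q.Prime → q ∣ (red W p).index → q = 2) → (red W p).index ∣ k) := by
  rcases h with h | ⟨w, hw, h⟩
  · refine ⟨4, 3, by norm_num, by norm_num, by norm_num, fun p hp hc _ =>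
      ⟨fun q hq h2 h4 => absurd ((Nat.prime_dvd_prime_iff_eq hq Nat.prime_two).1
        (hq.dvd_of_dvd_pow (n := 2) h4)) h2, fun h2 => ?_⟩⟩
    have := Fact.mk hp
    have h3 := index_dvd W p
    have h4 : p % 4 = 3 := hc
    have h5 := Nat.eq_prime_pow_of_unique_prime_dvd (p := 2) (red W p).index_ne_zero_of_finite
      (fun hq => h2 _ hq)
    rw [h5] at h3 ⊢
    generalize (red W p).index.primeFactorsList.length = j at h3
    have h6 : j ≤ 1 := by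
      by_contra h6
      have := (pow_dvd_pow 2 (by omega : 2 ≤ j)).trans h3
      omega
    exact ((pow_dvd_pow 2 h6).trans (by norm_num)).trans h.two_dvd
  · obtain ⟨M, c, h1, h2, h3, h4⟩ := exists_class (d := (w : ℚ).num * (w : ℚ).den) fun h' => h (by
      obtain ⟨t, ht⟩ := h'
      refine ⟨t / (w : ℚ).den, ?_⟩
      have h5 : ((w : ℚ).num : ℚ) * (w : ℚ).den = t * t := by exact_mod_cast ht
      have h6 : ((w : ℚ).den : ℚ) ≠ 0 := by exact_mod_cast (w : ℚ).den_nz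
      rw [div_mul_div_comm, ← h5, mul_div_mul_right _ _ h6, Rat.num_div_den])
    refine ⟨M, c, h1, h2, h3, fun p hp hc hv => ?_⟩
    have := Fact.mk hp
    obtain ⟨a1, a2⟩ := not_dvd_of_val w.ne_zero (hv w hw)
    obtain ⟨b1, b2⟩ := h4 p hp hc fun h' => by
      rw [Int.natCast_dvd, Int.natAbs_mul, Int.natAbs_natCast] at h'
      exact ((Nat.Prime.dvd_mul hp).1 h').elim a1 a2
    refine ⟨b1, fun h5 => (Nat.eq_one_iff_not_exists_prime_dvd.2 fun q hq hq' => ?_ :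
      (red W p).index = 1).dvd.trans (one_dvd k)⟩
    obtain rfl := h5 q hq hq'
    obtain ⟨u, c1, c2⟩ := exists_pow_eq_one hq' hw (hv w hw)
    have c3 := hq'.trans (index_dvd W p)
    have c4 := hp.two_le
    have c5 : u ≠ 0 := by
      rintro rfl
      rw [zero_mul, ZMod.intCast_zmod_eq_zero_iff_dvd, Int.natCast_dvd] at c2
      exact a1 c2
    rw [show (p - 1) / 2 = p / 2 by omega, ← ZMod.euler_criterion p c5] at c1
    refine b2 ?_
    rw [Int.cast_mul, c2, Int.cast_natCast, mul_assoc]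
    exact c1.mul (IsSquare.mul_self _)

end Pool.Agent.MP_48b1c3_nt.H54

end

-- part MP_48b1c3_nt.H54.Main
section

/-! Many primes in a progression modulo `M` for which the index of `W` is `M`-smooth. -/

namespace Pool.Agent.MP_48b1c3_nt.H54

open Finset Filter

theorem sum_tail_le {C r l₀ N : ℕ} (hr : C + 3 ≤ r) (h0 : 0 < l₀) (S : Finset ℕ)
    (hS : S ⊆ Ioc l₀ N) : ∑ l ∈ S, (l : ℝ) ^ C / (l : ℝ) ^ r ≤ 1 / l₀ * (1 / l₀) := by
  have h1 : (0 : ℝ) < l₀ := by exact_mod_cast h0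
  calc _ ≤ ∑ l ∈ S, 1 / (l₀ : ℝ) * ((l : ℝ) ^ 2)⁻¹ := sum_le_sum fun l hl => by
        have h2 : (l₀ : ℝ) ≤ l := by exact_mod_cast (mem_Ioc.1 (hS hl)).1.le
        have h3 : (1 : ℝ) ≤ l := le_trans (by exact_mod_cast h0) h2
        calc _ ≤ (l : ℝ) ^ C / (l : ℝ) ^ (C + 3) := by gcongr
          _ = 1 / (l : ℝ) * ((l : ℝ) ^ 2)⁻¹ := by rw [pow_add]; field_simp
          _ ≤ _ := by gcongr
    _ ≤ ∑ l ∈ Ioc l₀ (max l₀ N), 1 / (l₀ : ℝ) * ((l : ℝ) ^ 2)⁻¹ :=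
        sum_le_sum_of_subset_of_nonneg (hS.trans (Ioc_subset_Ioc_right (le_max_right _ _)))
          fun _ _ _ => by positivity
    _ ≤ _ := by
        rw [← mul_sum]
        gcongr
        refine (sum_Ioc_inv_sq_le_sub h0.ne' (le_max_left _ _)).trans ?_
        rw [one_div]
        exact sub_le_self _ (by positivity)

theorem matthews_small {β ε : ℝ} (h0 : 0 < β) (h1 : β ≤ 1) (hε : 0 < ε) {r : ℕ}
    (hr : 2 / β ≤ r) : ∀ᶠ x : ℝ in atTop,
      (x ^ (1 - β)) ^ (1 + 1 / (r : ℝ)) ≤ ε * (x / Real.log x ^ 2) := by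
  filter_upwards [(isLittleO_log_rpow_rpow_atTop 2 (half_pos h0)).bound hε,
    eventually_gt_atTop 1] with x h hx
  have hL := Real.log_pos hx
  have hx0 : 0 < x := by linarith
  rw [Real.rpow_two, Real.norm_of_nonneg (by positivity), Real.norm_of_nonneg (by positivity)] at h
  have h2 : 1 / (r : ℝ) ≤ β / 2 := by
    exact (one_div_le_one_div_of_le (by positivity) hr).trans_eq (one_div_div _ _)
  rw [← Real.rpow_mul hx0.le, ← mul_div_assoc, le_div_iff₀ (by positivity)]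
  calc _ ≤ x ^ (1 - β / 2) * (ε * x ^ (β / 2)) := by
        gcongr
        · exact hx.le
        · nlinarith
    _ = ε * (x ^ (1 - β / 2) * x ^ (β / 2)) := by ring
    _ = _ := by rw [← Real.rpow_add hx0, sub_add_cancel, Real.rpow_one]

theorem smooth_index : ∃ r₀ : ℕ, ∀ W : Subgroup ℚˣ, W.FG → r₀ ≤ Module.finrank ℤ (Additive W) →
    ∀ M c : ℕ, 0 < M → 2 ∣ M → c.Coprime M → ∃ κ : ℝ, 0 < κ ∧ ∀ᶠ x : ℝ in atTop, ∃ G : Finset ℕ,
      κ * x * Real.log (Real.log x) / Real.log x ^ 2 ≤ #G ∧ ∀ p ∈ G, p.Prime ∧ (p : ℝ) ≤ x ∧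
        p ≡ c [MOD M] ∧ (∀ w ∈ W, padicValRat p (w : ℚ) = 0) ∧
          ∀ l : ℕ, l.Prime → l ∣ (red W p).index → l ∣ M := by
  classical
  obtain ⟨α, hα, hsift⟩ := sifted_lower
  obtain ⟨C₀, hbad⟩ := bad_upper
  have hβ : 0 < min α 1 := lt_min hα one_pos
  refine ⟨C₀ + 3 + ⌈2 / min α 1⌉₊, fun W hW hr M c hM h2 hc => ?_⟩
  obtain ⟨a, q, ha, hq⟩ := exists_diag W hW hr
  obtain ⟨p₀, hp₀⟩ := exists_unit_bound W hW
  obtain ⟨l₁, hbad⟩ := hbad _ _ _ q hq α hα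
  obtain ⟨κ, hκ, hsift⟩ := hsift M c hM h2 hc
  obtain ⟨C, hC, hmat⟩ := matthews (by omega) hq
  obtain ⟨l₀, hl₀⟩ : ∃ l₀, l₀ = l₁ + ⌈4 / κ⌉₊ + 2 := ⟨_, rfl⟩
  have hl0 : (0 : ℝ) < l₀ := by exact_mod_cast (by omega : 0 < l₀)
  have hz : Tendsto (fun x => Real.log x ^ ((5 : ℕ) : ℝ)⁻¹) atTop atTop :=
    (tendsto_rpow_atTop (by norm_num)).comp Real.tendsto_log_atTop
  refine ⟨κ / l₀ / 10, by positivity, ?_⟩
  filter_upwards [hsift l₀ (by omega), hz.eventually_ge_atTop 3, hz.eventually_ge_atTop l₀,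
    hz.eventually_ge_atTop M, (isLittleO_log_rpow_rpow_atTop ((5 : ℕ) : ℝ)⁻¹ hα).bound one_pos,
    (tendsto_id.atTop_div_const (Real.exp_pos 4)).eventually_ge_atTop (p₀ + 2 : ℕ),
    matthews_small hβ (min_le_right _ _) (show 0 < κ / l₀ / 4 / C by positivity)
      (r := C₀ + 3 + ⌈2 / min α 1⌉₊) (Nat.ceil_le.1 (by omega)),
    eventually_gt_atTop 1] with x hG z3 zl zM zα hxp hsm hx
  have hL := Real.log_pos hx
  have hx0 : 0 < x := by linarith
  rw [Real.norm_of_nonneg (by positivity), Real.norm_of_nonneg (by positivity), one_mul] at zα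
  have z5 := Real.rpow_inv_natCast_pow hL.le (n := 5) (by norm_num)
  have zlog := Real.log_rpow hL ((5 : ℕ) : ℝ)⁻¹
  generalize Real.log x ^ ((5 : ℕ) : ℝ)⁻¹ = z at z3 zl zM zα z5 zlog
  specialize hG z z3 zl zα
  obtain ⟨G₀, hG, hmem⟩ : ∃ G₀ : Finset ℕ, κ / l₀ * (x * Real.log z / Real.log x ^ 2) ≤ #G₀ ∧
      ∀ p ∈ G₀, p ∈ PI (x / Real.exp 4) x ∧ p ≡ c [MOD M] ∧ ∀ l : ℕ, l.Prime → l ∣ p - 1 →
        l ∣ M ∨ (l₀ < l ∧ (l : ℝ) ≤ z) ∨ x ^ α < l :=
    ⟨_, hG, fun p hp => by simpa only [mem_filter] using hp⟩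
  have hbig : ∀ p ∈ G₀, p₀ + 2 < p := fun p hp => by
    exact_mod_cast hxp.trans_lt (mem_PI.1 (hmem p hp).1).1
  have hval := fun p hp => hp₀ p (mem_PI.1 (hmem p hp).1).2.2 (by have := hbig p hp; omega)
  set G := G₀.filter fun p => ∀ l : ℕ, l.Prime → l ∣ (red W p).index → l ∣ M
  set B := fun l => G₀.filter fun p => l ∣ p - 1 ∧ ∀ i,
    ((a i : ℚ).num.natAbs : ZMod p) ^ ((p - 1) / l) = ((a i : ℚ).den : ZMod p) ^ ((p - 1) / l)
  set B' := G₀.filter fun p => ∃ m : ℕ, 0 < m ∧ (m : ℝ) ≤ x ^ (1 - min α 1) ∧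
    ∀ i, ((a i : ℚ).num.natAbs : ZMod p) ^ m = ((a i : ℚ).den : ZMod p) ^ m
  set P := (Ioc l₀ ⌊z⌋₊).filter Nat.Prime
  have hsub : G₀ ⊆ G ∪ (P.biUnion B ∪ B') := fun p hp => by
    by_cases h : p ∈ G
    · exact mem_union_left _ h
    refine mem_union_right _ ?_
    have h' := mt (fun h' => mem_filter.2 ⟨hp, h'⟩) h
    push Not at h'
    obtain ⟨l, l1, l2, l3⟩ := h'
    obtain ⟨-, p2, p3⟩ := mem_PI.1 (hmem p hp).1
    have := Fact.mk p3
    have p4 := hbig p hp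
    have l4 := l2.trans (index_dvd W p)
    have l5 := fun i => pow_eq_of_odd (by omega) (l1.odd_of_ne_two fun e => l3 (e ▸ h2)) l2 (ha i)
      (hval p hp _ (ha i))
    rcases ((hmem p hp).2.2 l l1 l4).resolve_left l3 with ⟨l6, l7⟩ | l6
    · exact mem_union_left _ (mem_biUnion.2 ⟨l, mem_filter.2 ⟨mem_Ioc.2 ⟨l6, Nat.le_floor l7⟩, l1⟩,
        mem_filter.2 ⟨hp, l4, l5⟩⟩)
    · refine mem_union_right _ (mem_filter.2 ⟨hp, _,
        Nat.div_pos (Nat.le_of_dvd (by omega) l4) l1.pos, Nat.cast_div_le.trans ?_, l5⟩)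
      rw [Real.rpow_sub hx0, Real.rpow_one]
      gcongr
      · exact le_trans (by exact_mod_cast Nat.sub_le p 1) p2
      · exact (Real.rpow_le_rpow_of_exponent_le hx.le (min_le_left _ _)).trans l6.le
  have z1 : 1 ≤ Real.log z := by
    rw [Real.le_log_iff_exp_le (by linarith)]
    exact Real.exp_one_lt_d9.le.trans (le_trans (by norm_num) z3)
  have hB : ∀ l ∈ P, (#(B l) : ℝ) ≤ (l : ℝ) ^ C₀ / (l : ℝ) ^ (C₀ + 3 + ⌈2 / min α 1⌉₊) *
      (x * Real.log z / Real.log x ^ 2) := fun l hl => by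
    obtain ⟨l1, l2⟩ := mem_filter.1 hl
    obtain ⟨l3, l4⟩ := mem_Ioc.1 l1
    refine hbad x hx0 l l2 (by omega) (le_of_le_of_eq ?_ z5) z z3 _ fun p hp => ?_
    · exact pow_le_pow_left₀ (by positivity) ((Nat.le_floor_iff (by linarith)).1 l4) 5
    · obtain ⟨p1, p2, p3⟩ := mem_filter.1 hp
      refine ⟨(hmem p p1).1, p2, p3, fun l' h h' => ?_⟩
      rcases (hmem p p1).2.2 l' h h' with h | h | h
      · exact Or.inl (le_trans (by exact_mod_cast Nat.le_of_dvd hM h) zM)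
      · exact Or.inl h.2
      · exact Or.inr h
  have hB1 : (#(P.biUnion B) : ℝ) ≤ κ / l₀ / 4 * (x * Real.log z / Real.log x ^ 2) := by
    refine le_trans (by exact_mod_cast card_biUnion_le) ((sum_le_sum hB).trans ?_)
    rw [← sum_mul]
    gcongr
    refine (sum_tail_le (by omega) (by omega) P (filter_subset _ _)).trans ?_
    have h4 : 4 / κ ≤ l₀ := Nat.ceil_le.1 (by omega)
    calc _ ≤ 1 / (l₀ : ℝ) * (1 / (4 / κ)) := by gcongr
      _ = _ := by field_simp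
  have hB2 : (#B' : ℝ) ≤ κ / l₀ / 4 * (x * Real.log z / Real.log x ^ 2) := by
    refine (hmat _ (Real.one_le_rpow hx.le (sub_nonneg.2 (min_le_right α 1))) B'
      fun p hp => ?_).trans ?_
    · obtain ⟨p1, p2⟩ := mem_filter.1 hp
      have := Fact.mk (mem_PI.1 (hmem p p1).1).2.2
      exact ⟨this.out, fun i => (not_dvd_of_val (a i).ne_zero (hval p p1 _ (ha i))).2, p2⟩
    · calc _ ≤ C * (κ / l₀ / 4 / C * (x * 1 / Real.log x ^ 2)) := by rw [mul_one]; gcongr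
        _ = κ / l₀ / 4 * (x * 1 / Real.log x ^ 2) := by field_simp
        _ ≤ _ := by gcongr
  have hcard : (#G₀ : ℝ) ≤ #G + (#(P.biUnion B) + #B') := by
    exact_mod_cast (card_le_card hsub).trans ((card_union_le _ _).trans
      (Nat.add_le_add_left (card_union_le _ _) _))
  refine ⟨G, ?_, fun p hp => ?_⟩
  · calc _ = κ / l₀ / 2 * (x * Real.log z / Real.log x ^ 2) := by rw [zlog]; push_cast; ring
      _ ≤ _ := by linarith
  · obtain ⟨p1, p2⟩ := mem_filter.1 hp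
    exact ⟨(mem_PI.1 (hmem p p1).1).2.2, (mem_PI.1 (hmem p p1).1).2.1, (hmem p p1).2.1,
      hval p p1, p2⟩

end Pool.Agent.MP_48b1c3_nt.H54

end
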