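import Pool.Agent.MP_48b1c3_nt.Mg.H48_HypP

attribute [-instance] SubalgebraClass.toAlgebra IntermediateField.instAlgebraSubtypeMem_1
  Algebra.toSMul DistribMulActionSemiHomClass.toAddMonoidHomClass SubmoduleClass.module
  ContinuousMonoidHom.instCoeOutOfMonoidHomClassOfContinuousMapClass MonTypeEquivalenceMon.monMonoid
  SMulWithZero.toSMulZeroClass SetLike.smul' littleWedderburn SemigroupAction.toSMul
  instCoeOTCOfCoeTC RightPreLieAlgebra.toModule LeftPreLieAlgebra.toModule NormedSpace.toModule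
  IsPurelyInseparable.normal PseudoEpimorphismClass.toTopHomClass instCoeOutOfCoeFun
  CommMonTypeEquivalenceCommMon.commMonCommMonoid SetLike.GradeZero.instCommSemiring
  NormedAlgebra.toAlgebra IsAbelianGalois.toIsGalois IsScalarTower.to_smulCommClass'
  IsScalarTower.to_smulCommClass Algebra.IsQuadraticExtension.isGalois
  LieRinehartAlgebra.toIsScalarTower NormedField.toField IsOrderedCancelAddMonoid.toIsCancelAdd
  OrderTop.toTop SetLike.GradeZero.instSemiring BialgHomClass.toMonoidHomClass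
  IsometryClass.instCoeOutIsometryEquiv GrpTypeEquivalenceGrp.grpGroup Bialgebra.toAlgebra
  NonUnitalAlgHomClass.toNonUnitalRingHomClass
  ContinuousAddMonoidHom.instCoeOutOfAddMonoidHomClassOfContinuousMapClass
  KleeneAlgebra.toIdemSemiring GradedMonoid.GradeZero.smul SetLike.GradeZero.instRing
  HomeomorphClass.instCoeOutHomeomorph SetLike.GradeZero.instCommRing
  RingConeClass.toSubsemiringClass

/-! Norm classes of cyclotomic automorphisms and the local condition at small primes. -/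

namespace Pool.Agent.MP_48b1c3_nt.H91

open Finset NumberField H48 Filter
open scoped Classical Pointwise

variable {K E : Type} [Field K] [NumberField K] [Field E] [NumberField E] [Algebra K E]

omit [NumberField K] [NumberField E] in
theorem gal_over {P : Ideal (𝓞 K)} (hP : P.IsPrime) :
    ∃ Q : Ideal (𝓞 E), Q.IsPrime ∧ Q.comap (algebraMap (𝓞 K) (𝓞 E)) = P := by
  obtain ⟨Q, -, hQ, hQP⟩ := Ideal.exists_ideal_over_prime_of_isIntegral P (⊥ : Ideal (𝓞 E))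
    (by rw [Ideal.comap_bot_of_injective _ (RingOfIntegers.algebraMap.injective K E)]; exact bot_le)
  exact ⟨Q, hQ, hQP⟩

omit [NumberField E] in
theorem gal_ne_bot {P : Ideal (𝓞 K)} (hp : (Ideal.absNorm P).Prime) {Q : Ideal (𝓞 E)}
    (hQP : Q.comap (algebraMap (𝓞 K) (𝓞 E)) = P) : Q ≠ ⊥ := by
  rintro rfl
  rw [Ideal.comap_bot_of_injective _ (RingOfIntegers.algebraMap.injective K E)] at hQP
  rw [← hQP, Ideal.absNorm_bot] at hp
  exact Nat.not_prime_zero hp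

omit [NumberField E] in
theorem gal_p_mem {P : Ideal (𝓞 K)} {Q : Ideal (𝓞 E)}
    (hQP : Q.comap (algebraMap (𝓞 K) (𝓞 E)) = P) : ((Ideal.absNorm P : ℕ) : 𝓞 E) ∈ Q := by
  have := Ideal.absNorm_mem P
  rw [← hQP, Ideal.mem_comap, map_natCast, hQP] at this
  exact this

omit [NumberField E] in
theorem gal_notMem {P : Ideal (𝓞 K)} {Q : Ideal (𝓞 E)} (hQ : Q.IsPrime)
    (hQP : Q.comap (algebraMap (𝓞 K) (𝓞 E)) = P) {q : ℕ} (hc : (Ideal.absNorm P).Coprime q) :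
    ((q : ℕ) : 𝓞 E) ∉ Q := by
  intro h
  obtain ⟨a, b, hab⟩ := (Nat.isCoprime_iff_coprime.2 hc).map (Int.castRingHom (𝓞 E))
  simp only [eq_intCast, Int.cast_natCast] at hab
  exact hQ.ne_top ((Ideal.eq_top_iff_one _).2
    (hab ▸ Q.add_mem (Q.mul_mem_left _ (gal_p_mem hQP)) (Q.mul_mem_left _ h)))

theorem gal_frob [IsGalois K E] {P : Ideal (𝓞 K)} (hp : (Ideal.absNorm P).Prime)
    {Q : Ideal (𝓞 E)} (hQ : Q.IsPrime) (hQP : Q.comap (algebraMap (𝓞 K) (𝓞 E)) = P) {q : ℕ}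
    (hq : 0 < q) (hc : (Ideal.absNorm P).Coprime q) {ζ : E} (hζ : IsPrimitiveRoot ζ q) :
    ∃ σ : E ≃ₐ[K] E, σ ζ = ζ ^ Ideal.absNorm P ∧
      ∀ x : 𝓞 E, σ • x - x ^ Ideal.absNorm P ∈ Q := by
  have : NeZero q := ⟨hq.ne'⟩
  have : Finite (𝓞 E ⧸ Q) := Ideal.finiteQuotientOfFreeOfNeBot Q (gal_ne_bot hp hQP)
  obtain ⟨σ, hσ⟩ := IsArithFrobAt.exists_of_isInvariant (𝓞 K) (E ≃ₐ[K] E) Q
  have hN : Nat.card (𝓞 K ⧸ Q.under (𝓞 K)) = Ideal.absNorm P := by
    rw [Ideal.under, hQP, Ideal.absNorm_apply, Submodule.cardQuot_apply]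
  have h3 := AlgHom.IsArithFrobAt.apply_of_pow_eq_one hσ hζ.toInteger_isPrimitiveRoot.pow_eq_one
    (gal_notMem hQ hQP hc)
  rw [hN] at h3
  exact ⟨σ, congrArg (fun x : 𝓞 E => (x : E)) h3, fun x => hN ▸ hσ x⟩

theorem gal_norm {P : Ideal (𝓞 K)} (hp : (Ideal.absNorm P).Prime) {Q : Ideal (𝓞 E)}
    (hQ : Q.IsPrime) (hQP : Q.comap (algebraMap (𝓞 K) (𝓞 E)) = P)
    (h : ∀ x : 𝓞 E, x - x ^ Ideal.absNorm P ∈ Q) : Ideal.absNorm Q = Ideal.absNorm P := by
  have hQ0 := gal_ne_bot hp hQP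
  have : Finite (𝓞 E ⧸ Q) := Ideal.finiteQuotientOfFreeOfNeBot Q hQ0
  have hM : Q.IsMaximal := hQ.isMaximal hQ0
  let _ := Ideal.Quotient.field Q
  let _ := Fintype.ofFinite (𝓞 E ⧸ Q)
  have h8 : Fintype.card (𝓞 E ⧸ Q) - 1 ∣ Ideal.absNorm P - 1 := by
    refine (FiniteField.forall_pow_eq_one_iff (𝓞 E ⧸ Q) _).1 fun x => ?_
    refine mul_right_cancel (b := x) (Units.ext ?_)
    obtain ⟨y, hy⟩ := Ideal.Quotient.mk_surjective (x : 𝓞 E ⧸ Q)
    rw [← pow_succ, Nat.sub_add_cancel hp.pos, one_mul, Units.val_pow_eq_pow_val, ← hy, ← map_pow,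
      eq_comm, Ideal.Quotient.eq]
    exact h y
  have h9 := Nat.card_le_card_of_injective _ (Ideal.quotientMap_injective (I := Q)
    (f := algebraMap (𝓞 K) (𝓞 E)))
  have h2 := hp.two_le
  have := Nat.le_of_dvd (by omega) h8
  rw [hQP] at h9
  rw [← Nat.card_eq_fintype_card] at this
  have e1 : Ideal.absNorm Q = Nat.card (𝓞 E ⧸ Q) := rfl
  have e2 : Ideal.absNorm P = Nat.card (𝓞 K ⧸ P) := rfl
  omega

theorem gal_end {k : Type} [Field k] [Finite k] {p : ℕ} (hp : p.Prime) (h : (p : k) = 0)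
    (φ : k →+* k) : ∃ i, ∀ x, φ x = x ^ p ^ i := by
  have := Fact.mk hp
  have : CharP k p := (CharP.charP_iff_prime_eq_zero hp).2 h
  let _ := ZMod.algebra k p
  obtain ⟨i, hi⟩ := (FiniteField.bijective_frobeniusAlgHom_pow (ZMod p) k).2
    ⟨φ, DFunLike.congr_fun
      (Subsingleton.elim (φ.comp (algebraMap (ZMod p) k)) (algebraMap (ZMod p) k))⟩
  refine ⟨i, fun x => ?_⟩
  have := DFunLike.congr_fun hi x
  simp only [AlgHom.coe_pow, FiniteField.coe_frobeniusAlgHom, pow_iterate, ZMod.card] at this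
  exact this.symm

theorem gal_stab {P : Ideal (𝓞 K)} (hp : (Ideal.absNorm P).Prime)
    {Q : Ideal (𝓞 E)} (hQ : Q.IsPrime) (hQP : Q.comap (algebraMap (𝓞 K) (𝓞 E)) = P) {q : ℕ}
    (hq : 0 < q) (hc : (Ideal.absNorm P).Coprime q) {ζ : E} (hζ : IsPrimitiveRoot ζ q)
    {d : E ≃ₐ[K] E} (hd : ∀ x ∈ Q, d • x ∈ Q) : ∃ i, d ζ = ζ ^ Ideal.absNorm P ^ i := by
  have : NeZero q := ⟨hq.ne'⟩
  have hQ0 := gal_ne_bot hp hQP
  have : Finite (𝓞 E ⧸ Q) := Ideal.finiteQuotientOfFreeOfNeBot Q hQ0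
  have hM : Q.IsMaximal := hQ.isMaximal hQ0
  let _ := Ideal.Quotient.field Q
  let t := MulSemiringAction.toRingHom (E ≃ₐ[K] E) (𝓞 E) d
  obtain ⟨i, hi⟩ := gal_end hp (k := 𝓞 E ⧸ Q) (by
    rw [← map_natCast (Ideal.Quotient.mk Q), Ideal.Quotient.eq_zero_iff_mem]
    exact gal_p_mem hQP) (Ideal.quotientMap Q t hd)
  have hz := hζ.toInteger_isPrimitiveRoot
  obtain ⟨j, hj, e⟩ := hz.eq_pow_of_pow_eq_one (ξ := t hζ.toInteger)
    (by rw [← map_pow, hz.pow_eq_one, map_one])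
  have h3 : IsPrimitiveRoot (Ideal.Quotient.mk Q hζ.toInteger) q := by
    refine hz.idealQuotient_mk (fun h => hQ.ne_top (Ideal.absNorm_eq_one_iff.1 h)) ?_
    refine Nat.coprime_of_dvd fun l hl h1 h2 => ?_
    have h4 : ((l : ℕ) : 𝓞 E) ∉ Q := gal_notMem hQ hQP (hc.coprime_dvd_right h2)
    have := Fact.mk hl
    obtain ⟨x, hx⟩ := exists_prime_addOrderOf_dvd_card' (G := 𝓞 E ⧸ Q) l h1
    have h5 := addOrderOf_nsmul_eq_zero x
    rw [hx, nsmul_eq_mul, mul_eq_zero, ← map_natCast (Ideal.Quotient.mk Q),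
      Ideal.Quotient.eq_zero_iff_mem] at h5
    rw [h5.resolve_left h4, addOrderOf_zero] at hx
    exact hl.one_lt.ne hx
  have h4 : Ideal.Quotient.mk Q (t hζ.toInteger) = _ := hi (Ideal.Quotient.mk Q hζ.toInteger)
  rw [← e, map_pow] at h4
  have h5 : j ≡ Ideal.absNorm P ^ i [MOD q] := by
    rw [h3.eq_orderOf]
    exact (IsOfFinOrder.pow_eq_pow_iff_modEq (h3.isOfFinOrder (NeZero.ne q))).1 h4
  rw [pow_eq_pow_of_modEq h5 hz.pow_eq_one] at e
  exact ⟨i, congrArg (fun x : 𝓞 E => (x : E)) e.symm⟩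

/-- every automorphism acts on a root of unity through the norm of an ideal -/
theorem norm_class [IsGalois K E] {q : ℕ} (hq : 0 < q) {ζ : E} (hζ : IsPrimitiveRoot ζ q)
    (τ : E ≃ₐ[K] E) : ∃ I : Ideal (𝓞 K), (Ideal.absNorm I).Coprime q ∧
      τ ζ = ζ ^ Ideal.absNorm I := by
  let H₀ : Submonoid (E ≃ₐ[K] E) :=
    { carrier := {σ | ∃ I : Ideal (𝓞 K), (Ideal.absNorm I).Coprime q ∧ σ ζ = ζ ^ Ideal.absNorm I}
      one_mem' := ⟨⊤, by simp, by simp⟩
      mul_mem' := by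
        rintro σ σ' ⟨I, h1, h2⟩ ⟨J, h3, h4⟩
        refine ⟨I * J, by rw [map_mul]; exact h1.mul_left h3, ?_⟩
        rw [AlgEquiv.mul_apply, h4, map_pow, h2, map_mul, pow_mul] }
  let H : Subgroup (E ≃ₐ[K] E) :=
    { H₀ with
      inv_mem' := fun {σ} hσ => by
        have h1 := (isOfFinOrder_of_finite σ).orderOf_pos
        have h2 : σ⁻¹ = σ ^ (orderOf σ - 1) := by
          rw [inv_eq_iff_mul_eq_one, ← pow_succ', Nat.sub_add_cancel h1, pow_orderOf_eq_one]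
        exact h2 ▸ H₀.pow_mem hσ _ }
  by_contra hτ
  let F := IntermediateField.fixedField H
  obtain ⟨p, hp, hpq, hlt⟩ := split_deg (K := K) (L := F) hq
  let f := Ideal.comap (algebraMap (𝓞 K) (𝓞 F))
  refine absurd ((mul_card_image_le_card_of_maps_to (f := f) (t := idN K p)
    (s := {Q ∈ idN F p | f Q ∈ idN K p}) (fun a ha => (mem_filter.1 ha).2) 2
    fun P hP => ?_).trans (card_filter_le _ _)) (not_le.2 hlt)
  obtain rfl := (mem_idN K).1 hP
  have hc := (Nat.Prime.coprime_iff_not_dvd hp).2 hpq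
  have key : ∀ Q : Ideal (𝓞 E), Q.IsPrime → Q.comap (algebraMap (𝓞 K) (𝓞 E)) = P →
      Q.comap (algebraMap (𝓞 F) (𝓞 E)) ∈
        {Q ∈ {Q ∈ idN F (Ideal.absNorm P) | f Q ∈ idN K (Ideal.absNorm P)} | f Q = P} := by
    intro Q hQ hQP
    have h1 : f (Q.comap (algebraMap (𝓞 F) (𝓞 E))) = P := by
      simp only [f]
      rw [← hQP, Ideal.comap_comap, ← IsScalarTower.algebraMap_eq]
    obtain ⟨σ, s1, s2⟩ := gal_frob hp hQ hQP hq hc hζ
    refine mem_filter.2 ⟨mem_filter.2 ⟨(mem_idN _).2 (gal_norm hp (Ideal.comap_isPrime _ Q) h1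
      fun x => ?_), h1.symm ▸ hP⟩, h1⟩
    have h2 : σ • algebraMap (𝓞 F) (𝓞 E) x = algebraMap (𝓞 F) (𝓞 E) x :=
      RingOfIntegers.ext ((x : F).2 ⟨σ, P, hc, s1⟩)
    rw [Ideal.mem_comap, map_sub, map_pow]
    nth_rw 1 [← h2]
    exact s2 _
  obtain ⟨Q, hQ, hQP⟩ := gal_over (E := E) (Ideal.isPrime_of_irreducible_absNorm hp)
  let t := MulSemiringAction.toRingHom (E ≃ₐ[K] E) (𝓞 E) τ
  have hQ' : (Q.comap t).comap (algebraMap (𝓞 K) (𝓞 E)) = P := by
    ext a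
    rw [Ideal.mem_comap, Ideal.mem_comap, show t _ = _ from smul_algebraMap τ a,
      ← Ideal.mem_comap, hQP]
  have := Ideal.comap_isPrime t Q
  refine one_lt_card.2 ⟨_, key Q hQ hQP, _, key _ this hQ', fun he => hτ ?_⟩
  obtain ⟨h, hh⟩ := Algebra.IsInvariant.exists_smul_of_under_eq (𝓞 F) (𝓞 E) (E ≃ₐ[F] E) Q
    (Q.comap t) he
  have h1 : h.restrictScalars K ∈ H := by
    rw [← IntermediateField.fixingSubgroup_fixedField H]
    exact fun y => h.commutes y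
  obtain ⟨i, hi⟩ := gal_stab hp hQ hQP hq hc hζ (d := τ * h.restrictScalars K) fun x hx => by
    have h2 := Ideal.smul_mem_pointwise_smul h x Q hx
    rw [← hh] at h2
    exact h2
  have h3 : τ * h.restrictScalars K ∈ H := ⟨P ^ i, by rw [map_pow]; exact hc.pow_left _,
    by rw [map_pow]; exact hi⟩
  exact (H.mul_mem_cancel_right h1).1 h3

omit [NumberField E] in
theorem gal_index {K₀ : Type} [Field K₀] [NumberField K₀] [Algebra K₀ K] {W : Subgroup K₀ˣ}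
    {I : Ideal (𝓞 K)} {P : Ideal (𝓞 K₀)} (hP : P.IsMaximal)
    (hI : I.comap (algebraMap (𝓞 K₀) (𝓞 K)) = P) (hN : Ideal.absNorm I = Ideal.absNorm P)
    (hU : Un W P) {Q : Ideal (𝓞 E)} (hQ : Q.IsPrime)
    (hQI : Q.comap (algebraMap (𝓞 K) (𝓞 E)) = I) {τ : E ≃ₐ[K] E}
    (hτ : ∀ x : 𝓞 E, τ • x - x ^ Ideal.absNorm I ∈ Q) {q : ℕ} (hq : 0 < q)
    (hc : (Ideal.absNorm I).Coprime q) {w : K₀ˣ} (hw : w ∈ W) {z : E}
    (hz : z ^ q = algebraMap K E (algebraMap K₀ K w)) (h : τ z ≠ z) : ¬ q ∣ (red W P).index := by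
  rintro ⟨j, hj⟩
  obtain ⟨a, b, ha, hb, hab⟩ := hU w hw
  obtain ⟨q, rfl⟩ : ∃ r, q = r + 1 := ⟨q - 1, by omega⟩
  let g := (algebraMap (𝓞 K) (𝓞 E)).comp (algebraMap (𝓞 K₀) (𝓞 K))
  have hg : ∀ x, g x ∈ Q ↔ x ∈ P := fun x => by
    rw [← hI, ← hQI]
    rfl
  have hf : ∀ x, τ • g x = g x := fun x =>
    RingOfIntegers.ext (τ.commutes (algebraMap (𝓞 K₀) (𝓞 K) x))
  have e1 : ((g b : E) * z) ^ (q + 1) = (g a * g b ^ q : 𝓞 E) := by
    have e2 : algebraMap K E (algebraMap K₀ K w) * (g b : E) = g a := by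
      have := congrArg (fun x => algebraMap K E (algebraMap K₀ K x)) hab
      simp only [map_mul] at this
      exact this
    rw [mul_pow, hz, pow_succ, mul_assoc, mul_comm (g b : E), e2, mul_comm]
    rfl
  obtain ⟨y, hy⟩ : ∃ y : 𝓞 E, (y : E) = g b * z :=
    ⟨⟨_, IsIntegral.of_pow q.succ_pos (e1 ▸ (g a * g b ^ q).2)⟩, rfl⟩
  have e3 : y ^ (q + 1) = g a * g b ^ q := RingOfIntegers.ext (by rw [← e1, ← hy]; rfl)
  have b0 : Ideal.Quotient.mk Q (g b) ≠ 0 := fun h =>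
    hb ((hg b).1 (Ideal.Quotient.eq_zero_iff_mem.1 h))
  have a0 : Ideal.Quotient.mk Q (g a) ≠ 0 := fun h =>
    ha ((hg a).1 (Ideal.Quotient.eq_zero_iff_mem.1 h))
  have n1 := card_red_mul (W := W) hP
  have n2 : Ideal.absNorm I = (q + 1) * (Nat.card (red W P) * j) + 1 := by
    have : Ideal.absNorm P ≠ 0 := fun h => Ring.ne_bot_of_isMaximal_of_not_isField hP
      (RingOfIntegers.not_isField K₀) (Ideal.absNorm_eq_zero_iff.1 h)
    rw [hN, mul_left_comm, ← hj, n1]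
    omega
  have e4 := (hg _).2 (pow_card_red hP hw ha hb hab)
  rw [map_sub, ← Ideal.Quotient.eq] at e4
  have e5 := Ideal.Quotient.eq.2 (hτ (g b))
  have e6 := Ideal.Quotient.eq.2 (hτ y)
  have e7 := congrArg (Ideal.Quotient.mk Q) e3
  simp only [map_pow, map_mul, hf, n2] at e4 e5 e6 e7
  rw [pow_succ, pow_mul, e7, mul_pow, pow_mul, e4, ← pow_mul, ← pow_mul, ← pow_add,
    show Nat.card (red W P) * j + q * (Nat.card (red W P) * j) =
      (q + 1) * (Nat.card (red W P) * j) by ring,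
    mul_right_cancel₀ b0 (((pow_succ _ _).symm.trans e5.symm).trans (one_mul _).symm), one_mul] at e6
  have e8 := Commute.geom_sum₂_mul (Commute.all (τ • y) y) (q + 1)
  rw [← smul_pow', e3, smul_mul', smul_pow', hf, hf, sub_self, mul_eq_zero] at e8
  rcases e8 with e8 | e8
  · have e9 := congrArg (Ideal.Quotient.mk Q) e8
    simp only [map_sum, map_mul, map_pow, e6, map_zero] at e9
    rw [geom_sum₂_self, mul_eq_zero, ← map_natCast (Ideal.Quotient.mk Q),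
      Ideal.Quotient.eq_zero_iff_mem] at e9
    refine e9.elim (gal_notMem hQ hQI hc) fun e9 => mul_ne_zero a0 (pow_ne_zero q b0) ?_
    rw [← e7, pow_succ, show _ ^ q = _ from e9, zero_mul]
  · have e9 : τ (y : E) = y := congrArg (fun x : 𝓞 E => (x : E)) (sub_eq_zero.1 e8)
    have e10 : τ (g b : E) = g b := congrArg (fun x : 𝓞 E => (x : E)) (hf b)
    rw [hy, map_mul, e10] at e9
    exact h (mul_left_cancel₀ (fun h0 => b0 (by
      rw [show g b = 0 from RingOfIntegers.ext h0, map_zero])) e9)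

/-- a Frobenius element fixing `K` above a prime of degree one -/
theorem exists_frob {K₀ F : Type} [Field K₀] [NumberField K₀] [Field F] [NumberField F]
    [Algebra K₀ F] [IsGalois K₀ F] (L : IntermediateField K₀ F) {I : Ideal (𝓞 L)}
    (hI : (Ideal.absNorm I).Prime) :
    ∃ σ : F ≃ₐ[K₀] F, (∀ y ∈ L, σ y = y) ∧ ∃ Q : Ideal (𝓞 F), Q.IsPrime ∧
      Q.comap (algebraMap (𝓞 K₀) (𝓞 F)) = I.comap (algebraMap (𝓞 K₀) (𝓞 L)) ∧
      ∀ a b : 𝓞 F, (b : F) = σ a → b - a ^ Ideal.absNorm I ∈ Q := by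
  have hIp : I.IsPrime := Ideal.isPrime_of_irreducible_absNorm hI
  have hI0 : I ≠ ⊥ := by
    rintro rfl
    rw [Ideal.absNorm_bot] at hI
    exact Nat.not_prime_zero hI
  obtain ⟨Q, -, hQ, hQI⟩ := Ideal.exists_ideal_over_prime_of_isIntegral I (⊥ : Ideal (𝓞 F))
    (by rw [Ideal.comap_bot_of_injective _ (RingOfIntegers.algebraMap.injective L F)]; exact bot_le)
  have hQ0 : Q ≠ ⊥ := by
    rintro rfl
    rw [Ideal.comap_bot_of_injective _ (RingOfIntegers.algebraMap.injective L F)] at hQI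
    exact hI0 hQI.symm
  have : Finite (𝓞 F ⧸ Q) := Ideal.finiteQuotientOfFreeOfNeBot Q hQ0
  obtain ⟨σ, hσ⟩ := IsArithFrobAt.exists_of_isInvariant (𝓞 L) (F ≃ₐ[L] F) Q
  refine ⟨σ.restrictScalars K₀, fun y hy => σ.commutes ⟨y, hy⟩, Q, hQ, ?_, fun a b hab => ?_⟩
  · rw [← hQI, Ideal.comap_comap, ← IsScalarTower.algebraMap_eq]
  · have h1 := hσ a
    have h2 : b = σ • a := RingOfIntegers.ext hab
    rw [Ideal.under, hQI] at h1
    rw [h2, Ideal.absNorm_apply, Submodule.cardQuot_apply]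
    exact h1

/-- Lenstra's set is large under the criterion on the cyclotomic part of the Kummer fields -/
theorem lenstra_gal {K₀ F : Type} [Field K₀] [NumberField K₀] [Field F] [NumberField F]
    [Algebra K₀ F] [IsGalois K₀ F] (L : IntermediateField K₀ F) (C : Set (F ≃ₐ[K₀] F))
    (hL : ∀ σ : F ≃ₐ[K₀] F, (∀ y ∈ L, σ y = y) → σ ∈ C) {β : ℝ}
    (hC : CoreR L β) (W : Subgroup K₀ˣ) (hW : W.FG) (hr0 : 0 < Module.finrank ℤ (Additive W))
    (hα : 1 ≤ β * (Module.finrank ℤ (Additive W) + 1)) {k m : ℕ} (hk : 0 < k) (hm : 0 < m)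
    (σ : AlgebraicClosure L ≃ₐ[L] AlgebraicClosure L)
    (H : ∀ l : ℕ, l.Prime → ∃ w ∈ W, ∃ z ∈ IntermediateField.adjoin L
      {ζ : AlgebraicClosure L | ζ ^ (m * l ^ (k.factorization l + 1)) = 1},
        z ^ l ^ (k.factorization l + 1) = algebraMap K₀ (AlgebraicClosure L) w ∧ σ z ≠ z) :
    ∃ c : ℝ, 0 < c ∧ ∀ᶠ x : ℕ in atTop, c * x / Real.log x ^ 2 ≤
      Nat.card {P : Ideal (𝓞 K₀) // P.IsMaximal ∧ Ideal.absNorm P ≤ x ∧
        (∃ σ ∈ C, ∃ Q : Ideal (𝓞 F), Q.IsPrime ∧ Q.comap (algebraMap (𝓞 K₀) (𝓞 F)) = P ∧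
          ∀ a b : 𝓞 F, (b : F) = σ a → b - a ^ Ideal.absNorm P ∈ Q) ∧
        (∀ w ∈ W, ∃ a b : 𝓞 K₀, a ∉ P ∧ b ∉ P ∧ (w : K₀) * b = a) ∧
        (Subgroup.closure {u : (𝓞 K₀ ⧸ P)ˣ | ∃ w ∈ W, ∃ a b : 𝓞 K₀, b ∉ P ∧ (w : K₀) * b = a ∧
          (u : 𝓞 K₀ ⧸ P) * Ideal.Quotient.mk P b = Ideal.Quotient.mk P a}).index ∣ k} := by
  obtain ⟨c, hc, h⟩ := final_gen hC W hW hr0 le_rfl hα hk hm (fun _ => True) fun M hM hl => by
    have : NeZero M := ⟨hM.ne'⟩
    obtain ⟨ζ, hζ⟩ := HasEnoughRootsOfUnity.exists_primitiveRoot (AlgebraicClosure L) M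
    let E := IntermediateField.adjoin L {ζ}
    have := hζ.intermediateField_adjoin_isCyclotomicExtension L
    have : NumberField E := IsCyclotomicExtension.numberField {M} L _
    have : IsGalois L E := IsCyclotomicExtension.isGalois {M} L _
    have hζ' : IsPrimitiveRoot (IntermediateField.AdjoinSimple.gen L ζ) M :=
      IsPrimitiveRoot.of_map_of_injective (f := algebraMap E (AlgebraicClosure L)) hζ
        (algebraMap E _).injective
    obtain ⟨I₀, h0, h1, h2⟩ : ∃ I : Ideal (𝓞 L), I ≠ ⊥ ∧ (Ideal.absNorm I).Coprime M ∧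
        σ.restrictNormal E (IntermediateField.AdjoinSimple.gen L ζ) =
          IntermediateField.AdjoinSimple.gen L ζ ^ Ideal.absNorm I := by
      obtain ⟨I, h1, h2⟩ := norm_class hM hζ' (σ.restrictNormal E)
      by_cases h0 : I = ⊥
      · rw [h0, Ideal.absNorm_bot, Nat.coprime_zero_left] at h1
        exact ⟨⊤, top_ne_bot, by simp, h2.trans
          (pow_eq_pow_of_modEq (h1 ▸ Nat.modEq_one) hζ'.pow_eq_one)⟩
      · exact ⟨I, h0, h1, h2⟩
    refine ⟨I₀, h0, cop_iff.2 h1, fun I P p1 p2 p3 p4 p5 p6 => ⟨trivial, fun l l1 l2 => ?_⟩⟩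
    have hc := cop_iff.1 (p5.cop (cop_iff.2 h1))
    replace p5 := p5.norm
    obtain ⟨Q, hQ, hQI⟩ := gal_over (E := E) (Ideal.isPrime_of_irreducible_absNorm p4)
    obtain ⟨τ, t1, t2⟩ := gal_frob p4 hQ hQI hM hc hζ'
    obtain ⟨w, hw, z, z1, z2, z3⟩ := H l l1
    have d1 : m * l ^ (k.factorization l + 1) ∣ M := by
      refine Dvd.dvd.trans ?_ (hl l l1 l2)
      rw [pow_succ, mul_comm k, mul_assoc]
      exact Nat.mul_dvd_mul_left _ (Nat.mul_dvd_mul_right (Nat.ordProj_dvd _ _) l)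
    have z4 : z ∈ E := IntermediateField.adjoin_le_iff.2 (fun ξ hξ => by
      obtain ⟨c, rfl⟩ := d1
      obtain ⟨i, -, rfl⟩ := hζ.eq_pow_of_pow_eq_one (ξ := ξ)
        (by rw [pow_mul, show ξ ^ _ = 1 from hξ, one_pow])
      exact pow_mem (IntermediateField.mem_adjoin_simple_self L ζ) i) z1
    have e : τ = σ.restrictNormal E := AlgEquiv.coe_toAlgHom_injective
      ((hζ'.powerBasis L).algHom_ext (by
        simpa using t1.trans ((pow_eq_pow_of_modEq p5 hζ'.pow_eq_one).trans h2.symm)))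
    refine gal_index p1 p2 p3 p6 hQ hQI t2 (pow_pos l1.pos _)
      (hc.coprime_dvd_right ((dvd_mul_left _ _).trans d1)) hw (z := ⟨z, z4⟩) (Subtype.ext ?_)
      fun h => z3 ?_
    · exact z2.trans (IsScalarTower.algebraMap_apply K₀ L _ _)
    · rw [e] at h
      exact (σ.restrictNormal_commutes E ⟨z, z4⟩).symm.trans (congrArg (algebraMap E _) h)
  refine ⟨c, hc, h.mono fun x ⟨S, h1, h2⟩ => h1.trans ?_⟩
  rw [← Nat.card_eq_finsetCard]
  refine Nat.cast_le.2 (Nat.card_mono ((finite_norm_le x).subset fun P hP => hP.2.1)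
    fun P hP => ?_)
  obtain ⟨g1, g2, g3, ⟨I, g4, g5, -⟩, g6, g7⟩ := h2 P hP
  obtain ⟨σ, s1, Q, s2, s3, s4⟩ := exists_frob L (I := I) (by rw [g5]; exact g2)
  exact ⟨g1, g3, ⟨σ, hL σ s1, Q, s2, s3.trans g4, g5 ▸ s4⟩, g6, g7⟩

end Pool.Agent.MP_48b1c3_nt.H91
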