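import Pool.Agent.MP_48b1c3_nt.Mg.H48_HypP
import Pool.Agent.MP_48b1c3_nt.Mg.H48_CDefs
import Pool.Agent.MP_48b1c3_nt.Mg.H91_Dec
import Pool.Agent.MP_48b1c3_nt.Mg.H91_Geo
import Pool.Agent.MP_48b1c3_nt.Mg.H48_TI

attribute [-instance] Submodule.Quotient.addCommMonoid AlgHom.instNonUnitalAlgHomClassOfAlgHomClass
  ContinuousSemilinearMapClass.toSemilinearMapClass littleWedderburn
  instNonUnitalAlgHomClassOfNonUnitalAlgEquivClass IdemSemiring.toCanonicallyOrderedAdd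
  SemilinearIsometryClass.toSemilinearMapClass MonTypeEquivalenceMon.monMonoid RKHS.instFunLike
  CoalgHomClass.toSemilinearMapClass AddQuantale.instAddLeftMono
  IsOrderedCancelAddMonoid.toIsCancelAdd NormedField.toField instCharZeroOfIsSemireal
  Group.IsPerfect.subsingleton_of_isMulCommutative RingHomClass.toLinearMapClassRat
  RingHomClass.toLinearMapClassNNRat NonUnitalAlgHomClass.instLinearMapClass
  CommMonTypeEquivalenceCommMon.commMonCommMonoid IdemSemiring.toMulLeftMono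
  IsOrderedMonoid.toMulLeftMono Semifield.toCommSemiring BialgHomClass.toMonoidHomClass
  NonUnitalAlgHomClass.instSemilinearMapClassOfNonUnitalAlgSemiHomClassToMonoidHomRingHom
  Module.IsNoetherian.finite instDecidableDvdOfFintypeOfDecidableEq AlgHomClass.linearMapClass
  AddQuantale.instAddRightMono instCoeTCOfCoe CompletePartialOrder.toPartialOrder
  IsDomain.of_isSimpleRing RCLike.charZero_rclike CharP.ofCharZero
  ContinuousMonoidHom.instCoeOutOfMonoidHomClassOfContinuousMapClass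
  NonUnitalAlgSemiHomClass.toDistribMulActionSemiHomClass Quantale.instMulLeftMono
  KleeneAlgebra.toIdemSemiring instCoeOutOfCoeFun RingSeminormClass.toNonnegHomClass instCoeTOfCoeDep
  Quantale.instMulRightMono NormedDivisionRing.toDivisionRing instNontrivialOfCharZero
  GrpTypeEquivalenceGrp.grpGroup LinearOrder.toDecidableLE
  MulSemiringActionSemiHomClass.toDistribMulActionSemiHomClass NormedCommRing.toCommRing
  BooleanRing.toRing Subsingleton.to_isAddTorsionFree LieAdmissibleAlgebra.toIsScalarTower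
  DivisionRing.toDivisionSemiring NormedRing.toRing SetLike.GradeZero.instCommRing
  SetLike.GradeZero.instCommSemiring MulCharClass.toMonoidHomClass
  CanonicallyOrderedCommMonoid.toUniqueUnits GroupSeminormClass.toNonnegHomClass
  instCoeHTCTOfCoeTailOfCoeHTC SetLike.GradeZero.instCommMonoid instIsDomain LieRing.toAddCommGroup
  MulDistribMulActionSemiHomClass.toMonoidHomClass

-- part MP_48b1c3_nt.H91.Cls2
section

/-! Ideal classes and the local condition for the unit group. -/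

namespace Pool.Agent.MP_48b1c3_nt.H91

open Finset NumberField H48 Filter
open scoped Classical

variable {K : Type} [Field K] [NumberField K]

section
variable {R : Type} [CommRing R] [IsDedekindDomain R]

omit [IsDedekindDomain R] in
theorem gmem {a b : Ideal R} {α : R} (h : Ideal.span {α} = a * b) : α ∈ a :=
  Ideal.mul_le_left (J := b) (h ▸ Ideal.mem_span_singleton_self α)

theorem gex {a : Ideal R} {α : R} (h : α ∈ a) : ∃ b, Ideal.span {α} = a * b :=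
  Ideal.dvd_iff_le.2 ((Ideal.span_singleton_le_iff_mem a).2 h)

/-- the class of an ideal -/
noncomputable def cl (I : Ideal (R)) : ClassGroup (R) :=
  if h : I ≠ ⊥ then ClassGroup.mk0 ⟨I, mem_nonZeroDivisors_iff_ne_zero.2 h⟩ else 1

theorem cl_mul {I J : Ideal (R)} (hI : I ≠ ⊥) (hJ : J ≠ ⊥) : cl (I * J) = cl I * cl J := by
  rw [cl, cl, cl, dif_pos hI, dif_pos hJ, dif_pos (show I * J ≠ ⊥ from mul_ne_zero hI hJ),
    ← map_mul]
  rfl

theorem cl_span (α : R) : cl (Ideal.span {α}) = 1 := by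
  unfold cl
  split_ifs
  · exact (ClassGroup.mk0_eq_one_iff _).2 ⟨α, rfl⟩
  · rfl

theorem cl_top : cl (⊤ : Ideal (R)) = 1 := by
  rw [← Ideal.span_singleton_one, cl_span]

theorem cl_pow {I : Ideal (R)} (hI : I ≠ ⊥) (j : ℕ) : cl (I ^ j) = cl I ^ j := by
  induction j with
  | zero => rw [pow_zero, pow_zero, Ideal.one_eq_top, cl_top]
  | succ j h => rw [pow_succ, pow_succ, cl_mul (pow_ne_zero j hI) hI, h]

theorem cl_eq {I J : Ideal (R)} (hI : I ≠ ⊥) (hJ : J ≠ ⊥) (h : cl I = cl J) :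
    ∃ u v : R, u ≠ 0 ∧ v ≠ 0 ∧ Ideal.span {u} * I = Ideal.span {v} * J := by
  rw [cl, cl, dif_pos hI, dif_pos hJ] at h
  obtain ⟨u, v, a, b, e⟩ := ClassGroup.mk0_eq_mk0_iff.1 h
  exact ⟨u, v, a, b, e⟩

theorem cl_one {I : Ideal (R)} (hI : I ≠ ⊥) (h : cl I = 1) :
    ∃ α ≠ 0, I = Ideal.span {α} := by
  rw [cl, dif_pos hI] at h
  obtain ⟨α, rfl⟩ := (ClassGroup.mk0_eq_one_iff _).1 h
  exact ⟨α, mt Ideal.span_singleton_eq_bot.2 hI, rfl⟩

end

theorem cl_rep (c : ClassGroup (𝓞 K)) : cl (rep c) = c := by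
  rw [cl, dif_pos (rep_ne_bot c), mk0_rep]

theorem Ray.cl {q : ℕ} {I J : Ideal (𝓞 K)} (h : Ray q I J) (hJ : J ≠ ⊥) : cl I = cl J := by
  have hI := h.ne_bot hJ
  obtain ⟨α, β, -, -, h3, h4⟩ := h
  have := congrArg H91.cl h4
  rwa [cl_mul (mt Ideal.span_singleton_eq_bot.1 (ne_of_nm h3).1) hJ,
    cl_mul (mt Ideal.span_singleton_eq_bot.1 (ne_of_nm h3).2) hI, cl_span, cl_span, one_mul,
    one_mul, eq_comm] at this

theorem ray_one {I J : Ideal (𝓞 K)} {α β : 𝓞 K} (h : 0 < nm α * nm β)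
    (e : Ideal.span {α} * J = Ideal.span {β} * I) : Ray 1 I J :=
  ⟨α, β, cop_iff.2 (Nat.coprime_one_right _), by simp, h, e⟩

theorem Ray.pow {q : ℕ} {I J : Ideal (𝓞 K)} (h : Ray q I J) (j : ℕ) : Ray q (I ^ j) (J ^ j) := by
  induction j with
  | zero => exact Ray.refl _ _
  | succ j g => rw [pow_succ, pow_succ]; exact g.mul h

theorem exists_ray {q : ℕ} (hq : 0 < q) {J : Ideal (𝓞 K)} (hJ : J ≠ ⊥) :
    ∃ I, Cop q I ∧ Ray 1 I J := by
  obtain ⟨t, d, t0, -, h2⟩ := exists_cop hq hJ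
  have d0 : d ≠ ⊥ := right_ne_zero_of_mul (h2 ▸ mt Ideal.span_singleton_eq_bot.1 t0)
  obtain ⟨s, I, -, h3, h4⟩ := exists_cop hq d0
  have n0 : 0 < q * Ideal.absNorm d :=
    mul_pos hq (Nat.pos_of_ne_zero fun h => d0 (Ideal.absNorm_eq_zero_iff.1 h))
  obtain ⟨τ, h5⟩ := norm_large s (t * (q * Ideal.absNorm d : ℕ))
    (by rw [nm_mul]; exact mul_ne_zero (nm_ne t0) (norm_nat_pos n0).ne')
  rw [nm_mul, mul_right_comm, mul_pos_iff_of_pos_right (norm_nat_pos n0)] at h5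
  have m1 : (τ : 𝓞 K) * (t * (q * Ideal.absNorm d : ℕ)) ∈ d * Ideal.span {(q : 𝓞 K)} := by
    refine Ideal.mul_mem_left _ _ (Ideal.mul_mem_left _ _ ?_)
    rw [Nat.cast_mul, mul_comm (q : 𝓞 K)]
    exact Ideal.mul_mem_mul (Ideal.absNorm_mem d) (Ideal.mem_span_singleton_self _)
  generalize (τ : 𝓞 K) * (t * (q * Ideal.absNorm d : ℕ)) = z at h5 m1
  obtain ⟨I', h6⟩ := dec_ex (b := d) (α := s + z) (d.add_mem (dec_mem (by rw [h4, mul_comm]))
    (Ideal.mul_le_left m1))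
  refine ⟨I', mul_left_cancel₀ (a := d) d0 (le_antisymm (Ideal.mul_mono_right le_top) ?_),
    ray_one (α := s + z) (β := t) (by rwa [mul_comm]) (by rw [← h6, h2]; ring)⟩
  rw [← h3, Ideal.mul_sup, Ideal.mul_sup, ← h4, mul_comm d I', h6]
  refine sup_le ((Ideal.span_singleton_le_iff_mem _).2 ?_) le_sup_right
  rw [← add_sub_cancel_right s z]
  exact sub_mem (Ideal.mem_sup_left (by simp))
    (Ideal.mem_sup_right m1)

theorem rigid_norm {q : ℕ} (hq : 0 < q) (h : ∀ a : 𝓞 K, Cop q (Ideal.span {a}) → (q : ℤ) ∣ nm a - 1)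
    {I J : Ideal (𝓞 K)} (hJ : J ≠ ⊥) (h1 : Ray 1 I J) (h2 : Cop q I) (h3 : Cop q J) :
    Ideal.absNorm I ≡ Ideal.absNorm J [MOD q] := by
  obtain ⟨t, d, t0, c1, e1⟩ := exists_cop hq (h1.ne_bot hJ)
  obtain ⟨α, β, -, -, p, e⟩ := h1
  have a0 := (ne_of_nm p).1
  have e2 : Ideal.span {β * t} = Ideal.span {α} * (J * d) := by
    rw [← Ideal.span_singleton_mul_span_singleton, e1, ← mul_assoc, ← e, mul_assoc]
  obtain ⟨s, hs⟩ : α ∣ β * t := Ideal.span_singleton_le_span_singleton.1 (e2 ▸ Ideal.mul_le_left)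
  have e3 : Ideal.span {s} = J * d := mul_left_cancel₀ (mt Ideal.span_singleton_eq_bot.1 a0)
    (by rw [← e2, hs, Ideal.span_singleton_mul_span_singleton])
  have d1 := h t (e1 ▸ cop_mul.2 ⟨h2, c1⟩)
  have d2 := h s (e3 ▸ cop_mul.2 ⟨h3, c1⟩)
  have e4 := congrArg nm hs
  rw [nm_mul, nm_mul] at e4
  have p2 : 0 < nm t * nm s := by
    have := mul_pos p (mul_self_pos.2 (nm_ne t0))
    rw [mul_mul_mul_comm, e4, mul_mul_mul_comm] at this
    exact (mul_pos_iff_of_pos_left (mul_self_pos.2 (nm_ne a0))).1 this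
  have e5 : Ideal.span {t} * J = Ideal.span {s} * I := by rw [e1, e3]; ring
  have e6 := congrArg (fun I => (Ideal.absNorm I : ℤ)) e5
  simp only [map_mul, Ideal.absNorm_span_singleton, Nat.cast_mul, Int.natCast_natAbs] at e6
  have e7 : nm t * Ideal.absNorm J = nm s * Ideal.absNorm I := by
    rcases pos_and_pos_or_neg_and_neg_of_mul_pos p2 with ⟨p1, p2⟩ | ⟨p1, p2⟩
    · rwa [abs_of_pos p1, abs_of_pos p2] at e6
    · rw [abs_of_neg p1, abs_of_neg p2] at e6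
      linear_combination -e6
  rw [Nat.modEq_iff_dvd, show (Ideal.absNorm J : ℤ) - Ideal.absNorm I =
    (nm s - 1) * Ideal.absNorm I - (nm t - 1) * Ideal.absNorm J by linear_combination e7]
  exact (d2.mul_right _).sub (d1.mul_right _)

theorem hyp_loc {J : Ideal (𝓞 K)} (j1 : J ≠ ⊥) {M : ℕ} (hM : 0 < M) (c1 : Cop M J) {t : ℕ}
    (t0 : t ≠ 0) {q : ℕ → ℕ} (hq : ∀ l, q l = l ^ (t.factorization l + 1))
    (h1 : ∀ l : M.primeFactors, ∃ a : 𝓞 K, Cop (q l) (Ideal.span {a}) ∧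
      ¬ (q l : ℤ) ∣ Ideal.absNorm J * nm a - 1) :
    ∃ I : Ideal (𝓞 K), I ≠ ⊥ ∧ Cop M I ∧ cl I = cl J ∧ Nat.gcd (Ideal.absNorm I - 1) M ∣ t := by
  choose a ha hb using h1
  obtain ⟨α, hα⟩ := Ideal.exists_forall_sub_mem_ideal
    (I := fun l : M.primeFactors => Ideal.span {((q l : ℕ) : 𝓞 K)}) (fun l l' e => by
      refine (Ideal.isCoprime_span_singleton_iff _ _).2 (Nat.Coprime.cast ?_)
      rw [hq, hq]
      exact Nat.coprime_pow_primes _ _ (Nat.prime_of_mem_primeFactors l.2)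
        (Nat.prime_of_mem_primeFactors l'.2) fun h => e (Subtype.ext h)) a
  obtain ⟨β, b1, b2⟩ := exists_pos α (mul_pos (Nat.pos_of_ne_zero t0) hM)
  have h2 : ∀ l : M.primeFactors, ((q l : ℕ) : 𝓞 K) ∣ β - a l := fun l => by
    rw [← sub_add_sub_cancel β α]
    refine dvd_add ((Nat.cast_dvd_cast ?_).trans b1) (Ideal.mem_span_singleton.1 (hα l))
    rw [hq, pow_succ]
    exact Nat.mul_dvd_mul (Nat.ordProj_dvd _ _) (Nat.dvd_of_mem_primeFactors l.2)
  have b0 : Ideal.span {β} ≠ ⊥ := mt Ideal.span_singleton_eq_bot.1 fun h => by simp [h, nm] at b2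
  have h5 : Cop M (Ideal.span {β}) := cop_iff.2 (Nat.coprime_of_dvd fun l hl h6 h7 => by
    have h8 := cop_iff.1 (cop_congr (h2 ⟨l, Nat.mem_primeFactors.2 ⟨hl, h7, hM.ne'⟩⟩) (ha _))
    rw [hq] at h8
    exact hl.one_lt.ne' (Nat.eq_one_of_dvd_coprimes h8 h6 (dvd_pow_self l (Nat.succ_ne_zero _))))
  refine ⟨J * Ideal.span {β}, mul_ne_zero j1 b0, cop_mul.2 ⟨c1, h5⟩,
    by rw [cl_mul j1 b0, cl_span, mul_one], ?_⟩
  refine (Nat.dvd_iff_prime_pow_dvd_dvd _ _).2 fun l k hl h6 => ?_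
  rcases k.eq_zero_or_pos with rfl | hk
  · simp
  have h7 : l ∈ M.primeFactors := Nat.mem_primeFactors.2
    ⟨hl, ((dvd_pow_self l hk.ne').trans h6).trans (Nat.gcd_dvd_right _ _), hM.ne'⟩
  by_contra h8
  have h9 : t.factorization l + 1 ≤ k := by
    by_contra h
    exact h8 ((hl.pow_dvd_iff_le_factorization t0).2 (by omega))
  have h10 : 1 ≤ Ideal.absNorm (J * Ideal.span {β}) := Nat.pos_of_ne_zero fun e =>
    mul_ne_zero j1 b0 (Ideal.absNorm_eq_zero_iff.1 e)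
  have h11 := Int.natCast_dvd_natCast.2 (((pow_dvd_pow l h9).trans h6).trans (Nat.gcd_dvd_left _ _))
  rw [Nat.cast_sub h10, map_mul, Ideal.absNorm_span_singleton, Nat.cast_mul, Int.natCast_natAbs,
    abs_of_pos b2, ← hq] at h11
  refine hb ⟨l, h7⟩ ?_
  rw [show Ideal.absNorm J * nm (a ⟨l, h7⟩) - 1 = Ideal.absNorm J * nm β - (1 : ℕ) -
    Ideal.absNorm J * (nm β - nm (a ⟨l, h7⟩)) by push_cast; ring]
  exact h11.sub ((nm_congr (by rw [Int.cast_natCast]; exact h2 ⟨l, h7⟩)).mul_left _)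

/-- a generator of the classes modulo elements of positive norm satisfies the local conditions -/
theorem hyp_cls {J₀ : Ideal (𝓞 K)} (j0 : J₀ ≠ ⊥) (hg : ∀ I ≠ ⊥, ∃ j : ℕ, Ray 1 I (J₀ ^ j))
    {M : ℕ} (hM : 0 < M) : ∃ I : Ideal (𝓞 K), I ≠ ⊥ ∧ Cop M I ∧ cl I = cl J₀ ∧
      Nat.gcd (Ideal.absNorm I - 1) M ∣ Units.torsionOrder K := by
  obtain ⟨t, ht⟩ : ∃ t, Units.torsionOrder K = t := ⟨_, rfl⟩
  have t0 : t ≠ 0 := ht ▸ Units.torsionOrder_ne_zero K
  obtain ⟨q, hq⟩ : ∃ q : ℕ → ℕ, ∀ l, q l = l ^ (t.factorization l + 1) := ⟨_, fun _ => rfl⟩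
  obtain ⟨J, c1, r1⟩ := exists_ray hM j0
  have j1 := r1.ne_bot j0
  have h1 : ∀ l : M.primeFactors, ∃ a : 𝓞 K, Cop (q l) (Ideal.span {a}) ∧
      ¬ (q l : ℤ) ∣ Ideal.absNorm J * nm a - 1 := fun l => by
    have hl := Nat.prime_of_mem_primeFactors l.2
    have h0 : 0 < q l := hq l ▸ pow_pos hl.pos _
    by_contra hn
    push Not at hn
    have h2 := hn 1 (cop_span.2 isCoprime_one_left)
    rw [show nm (1 : 𝓞 K) = 1 from map_one _, mul_one] at h2
    obtain ⟨I, i1, i2⟩ := exists_norm_ne (K := K) h0 fun ζ h =>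
      Nat.pow_succ_factorization_not_dvd t0 hl (by
        have : NeZero (q l) := ⟨h0.ne'⟩
        rw [← hq, ← ht]
        exact Units.dvd_torsionOrder_of_isPrimitiveRoot h)
    have i0 : I ≠ ⊥ := by
      rintro rfl
      rw [Ideal.absNorm_bot, Nat.coprime_zero_left] at i1
      exact i2 (i1 ▸ Nat.modEq_one)
    obtain ⟨j, hj⟩ := hg I i0
    have c2 : (Ideal.absNorm J).Coprime (q l) := by
      rw [hq]
      exact ((cop_iff.1 c1).coprime_dvd_right (Nat.dvd_of_mem_primeFactors l.2)).pow_right _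
    have h3 := rigid_norm h0 (fun a ha => by
      rw [show nm a - 1 = Ideal.absNorm J * nm a - 1 - (Ideal.absNorm J - 1) * nm a by ring]
      exact (hn a ha).sub (h2.mul_right _)) (pow_ne_zero j j1)
      (hj.trans (r1.pow j).symm (pow_ne_zero j j0)) (cop_iff.2 i1)
      (cop_iff.2 (by rw [map_pow]; exact c2.pow_left _))
    refine i2 (h3.trans ?_)
    rw [map_pow, ← one_pow j]
    exact (Nat.modEq_iff_dvd.2 (by simpa only [Nat.cast_one] using h2)).symm.pow j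
  rw [ht, ← r1.cl j0]
  exact hyp_loc j1 hM c1 t0 hq h1

end Pool.Agent.MP_48b1c3_nt.H91

end

-- part MP_48b1c3_nt.H91.SLoc
section

/-! Rings of `S`-integers as localisations away from one element. -/

namespace Pool.Agent.MP_48b1c3_nt.H91

open Finset NumberField H48 IsDedekindDomain
open scoped Classical

variable {K : Type} [Field K] [NumberField K] {R : Type} [CommRing R] [IsDedekindDomain R]
  [Algebra (𝓞 K) R]

variable (R) in
/-- extension of ideals -/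
abbrev ex (I : Ideal (𝓞 K)) : Ideal R := I.map (algebraMap (𝓞 K) R)

omit [NumberField K] [IsDedekindDomain R] in
theorem ex_span (a : 𝓞 K) : ex R (Ideal.span {a}) = Ideal.span {algebraMap (𝓞 K) R a} := by
  rw [ex, Ideal.map_span, Set.image_singleton]

/-- the units of the ring of integers -/
noncomputable def unitsW (K : Type) [Field K] : Subgroup Kˣ :=
  (Units.map (algebraMap (𝓞 K) K).toMonoidHom).range

theorem unitsW_rank : Module.finrank ℤ (Additive (unitsW K)) = Units.rank K := by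
  rw [← Units.finrank_eq]
  exact ((MonoidHom.ofInjective (Units.map_injective
    RingOfIntegers.coe_injective)).toAdditive.toIntLinearEquiv.finrank_eq).symm

theorem unitsW_fg : (unitsW K).FG := by
  have : Group.FG (𝓞 K)ˣ := Group.fg_iff_monoid_fg.2 inferInstance
  exact (Group.fg_iff_subgroup_fg _).1 (Group.fg_range _)

theorem unitsW_root : ∃ ζ ∈ unitsW K, IsPrimitiveRoot ζ (Units.torsionOrder K) := by
  obtain ⟨g, hg⟩ := IsCyclic.exists_ofOrder_eq_natCard (α := Units.torsion K)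
  refine ⟨_, ⟨(g : (𝓞 K)ˣ), rfl⟩, IsPrimitiveRoot.map_of_injective ?_
    (Units.map_injective RingOfIntegers.coe_injective)⟩
  rw [Units.torsionOrder, ← hg, ← Subgroup.orderOf_coe]
  exact IsPrimitiveRoot.orderOf _

variable (K R) in
/-- the `S`-units -/
def sUnits : Subgroup Kˣ where
  carrier := {w | ∃ a b : 𝓞 K, IsUnit (algebraMap (𝓞 K) R a) ∧ IsUnit (algebraMap (𝓞 K) R b) ∧
    (w : K) * b = a}
  one_mem' := ⟨1, 1, by simp, by simp, by simp⟩
  mul_mem' := by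
    rintro x y ⟨a, b, h1, h2, h3⟩ ⟨a', b', h4, h5, h6⟩
    refine ⟨a * a', b * b', map_mul (algebraMap (𝓞 K) R) _ _ ▸ h1.mul h4,
      map_mul (algebraMap (𝓞 K) R) _ _ ▸ h2.mul h5, ?_⟩
    rw [Units.val_mul, RingOfIntegers.coe_eq_algebraMap, RingOfIntegers.coe_eq_algebraMap, map_mul,
      map_mul]
    exact (mul_mul_mul_comm _ _ _ _).trans (congrArg₂ _ h3 h6)
  inv_mem' := by
    rintro x ⟨a, b, h1, h2, h3⟩
    refine ⟨b, a, h2, h1, ?_⟩
    rw [← h3, ← mul_assoc, Units.inv_mul, one_mul]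

omit [NumberField K] [IsDedekindDomain R] in
theorem b1_of_index {W : Subgroup Kˣ} (hW : W ≤ sUnits K R) {P : Ideal (𝓞 K)} (hP : P.IsMaximal)
    (h : (red W P).index ∣ 1) {x : 𝓞 K} (hx : x ∉ P) : ∃ a b : 𝓞 K,
      IsUnit (algebraMap (𝓞 K) R a) ∧ IsUnit (algebraMap (𝓞 K) R b) ∧ x * b - a ∈ P := by
  let _ := Ideal.Quotient.field P
  have h1 : ∀ u ∈ red W P, ∃ a b : 𝓞 K, IsUnit (algebraMap (𝓞 K) R a) ∧
      IsUnit (algebraMap (𝓞 K) R b) ∧
        (u : 𝓞 K ⧸ P) * Ideal.Quotient.mk P b = Ideal.Quotient.mk P a := fun u hu => by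
    induction hu using Subgroup.closure_induction with
    | mem u hu =>
      obtain ⟨w, hw, a, b, hb, h2, h3⟩ := hu
      obtain ⟨a', b', g1, g2, g3⟩ := hW hw
      refine ⟨a', b', g1, g2, mul_right_cancel₀
        (fun h => hb (Ideal.Quotient.eq_zero_iff_mem.1 h)) ?_⟩
      have h4 : a * b' = a' * b := RingOfIntegers.coe_injective (by
        rw [map_mul, map_mul]
        exact ((congrArg (· * _) h2.symm).trans (mul_right_comm _ _ _)).trans (congrArg (· * _) g3))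
      rw [mul_right_comm, h3, ← map_mul, ← map_mul, h4]
    | one => exact ⟨1, 1, by simp, by simp, by simp⟩
    | mul x y _ _ hx hy =>
      obtain ⟨a, b, h1, h2, h3⟩ := hx
      obtain ⟨a', b', h4, h5, h6⟩ := hy
      refine ⟨a * a', b * b', map_mul (algebraMap (𝓞 K) R) _ _ ▸ h1.mul h4,
        map_mul (algebraMap (𝓞 K) R) _ _ ▸ h2.mul h5, ?_⟩
      rw [Units.val_mul, map_mul, map_mul, mul_mul_mul_comm, h3, h6]
    | inv x _ hx =>
      obtain ⟨a, b, h1, h2, h3⟩ := hx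
      refine ⟨b, a, h2, h1, ?_⟩
      rw [← h3, ← mul_assoc, Units.inv_mul, one_mul]
  obtain ⟨a, b, g1, g2, g3⟩ := h1 (Units.mk0 _ fun h => hx (Ideal.Quotient.eq_zero_iff_mem.1 h))
    (Subgroup.index_eq_one.1 (Nat.dvd_one.1 h) ▸ Subgroup.mem_top _)
  exact ⟨a, b, g1, g2, Ideal.Quotient.eq.1 g3⟩

variable (s : 𝓞 K) [IsLocalization.Away s R]
include s

omit [NumberField K] in
include R in
theorem s_ne : s ≠ 0 := fun h =>
  (IsLocalization.Away.algebraMap_isUnit (S := R) s).ne_zero (by rw [h, map_zero])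

omit [NumberField K] in
theorem ex_inj : Function.Injective (algebraMap (𝓞 K) R) :=
  IsLocalization.injective R (powers_le_nonZeroDivisors_of_noZeroDivisors (s_ne (R := R) s))

omit [NumberField K] in
theorem ex_ne {I : Ideal (𝓞 K)} (h : I ≠ ⊥) : ex R I ≠ ⊥ :=
  mt (Ideal.map_eq_bot_iff_of_injective (ex_inj s)).1 h

omit [NumberField K] [IsDedekindDomain R] in
theorem ex_comap (B : Ideal R) : ex R (B.comap (algebraMap (𝓞 K) R)) = B :=
  IsLocalization.map_under (Submonoid.powers s) R B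

omit [NumberField K] [IsDedekindDomain R] in
theorem mem_ex {I : Ideal (𝓞 K)} {x : 𝓞 K} :
    algebraMap (𝓞 K) R x ∈ ex R I ↔ ∃ k : ℕ, s ^ k * x ∈ I := by
  rw [IsLocalization.algebraMap_mem_map_algebraMap_iff (Submonoid.powers s)]
  exact ⟨fun ⟨_, ⟨k, rfl⟩, h⟩ => ⟨k, h⟩, fun ⟨k, h⟩ => ⟨_, ⟨k, rfl⟩, h⟩⟩

omit [NumberField K] [IsDedekindDomain R] in
theorem mem_ex_max {P : Ideal (𝓞 K)} (hP : P.IsMaximal) (hs : s ∉ P) {x : 𝓞 K} :
    algebraMap (𝓞 K) R x ∈ ex R P ↔ x ∈ P := by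
  refine ⟨fun h => ?_, Ideal.mem_map_of_mem _⟩
  obtain ⟨k, hk⟩ := (mem_ex s).1 h
  exact (hP.isPrime.mem_or_mem hk).resolve_left fun g => hs (hP.isPrime.mem_of_pow_mem k g)

theorem ex_max {P : Ideal (𝓞 K)} (hP : P.IsMaximal) (hs : s ∉ P) : (ex R P).IsMaximal :=
  (IsLocalization.isPrime_of_isPrime_disjoint (Submonoid.powers s) R P hP.isPrime
    (Set.disjoint_left.2 fun _ ⟨k, e⟩ g => hs (hP.isPrime.mem_of_pow_mem k (e.symm ▸ g :)) )).isMaximal
    (ex_ne s (Ring.ne_bot_of_isMaximal_of_not_isField hP (RingOfIntegers.not_isField K)))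

omit [IsDedekindDomain R] in
theorem comap_cop {B : Ideal R} (hB : B ≠ ⊥) (k : ℕ) :
    ∃ u : 𝓞 K, algebraMap (𝓞 K) R (s ^ k * u - 1) ∈ B := by
  have b0 : B.comap (algebraMap (𝓞 K) R) ≠ ⊥ := fun h => hB (by rw [← ex_comap s B, h, ex, Ideal.map_bot])
  have h : Ideal.span {s ^ k} ⊔ B.comap (algebraMap (𝓞 K) R) = ⊤ := by
    by_contra hn
    obtain ⟨P, p1, p2⟩ := Ideal.exists_le_maximal _ hn
    obtain ⟨D, hD⟩ := Ideal.dvd_iff_le.2 (le_sup_right.trans p2)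
    have h1 : D ≤ P * D := fun x hx => by
      have h2 := Ideal.mul_mem_mul (p2 (Ideal.mem_sup_left (Ideal.mem_span_singleton_self _))) hx
      rw [← hD, Ideal.mem_comap] at h2 ⊢
      rwa [map_mul, map_pow, Ideal.unit_mul_mem_iff_mem _
        ((IsLocalization.Away.algebraMap_isUnit s).pow k)] at h2
    refine p1.ne_top (mul_right_cancel₀ (right_ne_zero_of_mul (hD ▸ b0)) ?_)
    rw [Ideal.top_mul]
    exact le_antisymm Ideal.mul_le_right h1
  obtain ⟨_, h1, b, h2, e⟩ := Submodule.mem_sup.1 ((Ideal.eq_top_iff_one _).1 h)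
  obtain ⟨u, rfl⟩ := Ideal.mem_span_singleton'.1 h1
  exact ⟨u, by rw [show s ^ k * u - 1 = -b by linear_combination e, map_neg]; exact B.neg_mem h2⟩

omit [IsDedekindDomain R] in
theorem approx {B : Ideal R} (hB : B ≠ ⊥) (a : R) :
    ∃ a₀ : 𝓞 K, algebraMap (𝓞 K) R a₀ - a ∈ B := by
  obtain ⟨⟨x, _, k, rfl⟩, e⟩ := IsLocalization.surj (Submonoid.powers s) a
  obtain ⟨u, hu⟩ := comap_cop s hB k
  refine ⟨x * u, ?_⟩
  convert B.mul_mem_left a hu using 1
  simp only [map_mul, map_sub, map_one] at e ⊢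
  rw [← e]
  ring

theorem cl_ex {I J : Ideal (𝓞 K)} (hI : I ≠ ⊥) (hJ : J ≠ ⊥) (h : cl I = cl J) :
    cl (ex R I) = cl (ex R J) := by
  obtain ⟨u, v, u0, v0, e⟩ := cl_eq hI hJ h
  have := congrArg (fun I => cl (ex R I)) e
  simp only [ex, Ideal.map_mul] at this
  rwa [cl_mul (ex_ne s (mt Ideal.span_singleton_eq_bot.1 u0)) (ex_ne s hI),
    cl_mul (ex_ne s (mt Ideal.span_singleton_eq_bot.1 v0)) (ex_ne s hJ), ex_span, ex_span,
    cl_span, cl_span, one_mul, one_mul] at this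

omit [NumberField K] in
theorem exists_ex (c : ClassGroup R) : ∃ I : Ideal (𝓞 K), I ≠ ⊥ ∧ cl (ex R I) = c := by
  obtain ⟨⟨B, hB⟩, rfl⟩ := ClassGroup.mk0_surjective c
  have b0 : B ≠ ⊥ := mem_nonZeroDivisors_iff_ne_zero.1 hB
  exact ⟨B.comap (algebraMap _ _), fun h => b0 (by rw [← ex_comap s B, h, ex, Ideal.map_bot]),
    by rw [ex_comap s B, cl, dif_pos b0]⟩

theorem cls_finite : Finite (ClassGroup R) :=
  Finite.of_surjective (fun c : ClassGroup (𝓞 K) => cl (ex R (rep c))) fun c => by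
    obtain ⟨I, h, rfl⟩ := exists_ex s c
    exact ⟨_, cl_ex s (rep_ne_bot _) h (cl_rep _)⟩

theorem exists_D {I : Ideal (𝓞 K)} (hI : I ≠ ⊥) (h : cl (ex R I) = 1) :
    ∃ D, D ≠ ⊥ ∧ ex R D = ⊤ ∧ cl (I * D) = 1 := by
  obtain ⟨t, t0, ht⟩ := cl_one (ex_ne s hI) h
  obtain ⟨⟨x, m⟩, e⟩ := IsLocalization.surj (Submonoid.powers s) t
  have e1 : ex R I = Ideal.span {algebraMap (𝓞 K) R x} := by
    rw [ht, ← e, Ideal.span_singleton_mul_right_unit (IsLocalization.map_units R m)]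
  obtain ⟨k, hk⟩ := (mem_ex s).1 (e1 ▸ Ideal.mem_span_singleton_self _)
  obtain ⟨D, hD⟩ := gex hk
  have e2 := congrArg (ex R) hD
  rw [ex_span, map_mul, map_pow, Ideal.span_singleton_mul_left_unit
    ((IsLocalization.Away.algebraMap_isUnit s).pow k), ← e1, ex, ex, Ideal.map_mul] at e2
  have e3 : ex R D = ⊤ := mul_left_cancel₀ (ex_ne s hI) (e2.symm.trans (Ideal.mul_top _).symm)
  exact ⟨D, fun h => by simp only [h, Ideal.map_bot, bot_ne_top] at e3, e3, by rw [← hD, cl_span]⟩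

theorem exists_bdd : ∃ N : ℕ, ∀ I : Ideal (𝓞 K), I ≠ ⊥ → cl (ex R I) = 1 →
    ∃ D, D ≠ ⊥ ∧ ex R D = ⊤ ∧ Ideal.absNorm D ≤ N ∧ cl (I * D) = 1 := by
  have h : ∀ κ : ClassGroup (𝓞 K), ∃ D₀ : Ideal (𝓞 K), ∀ D, D ≠ ⊥ → ex R D = ⊤ → cl D = κ →
      D₀ ≠ ⊥ ∧ ex R D₀ = ⊤ ∧ cl D₀ = κ := fun κ => by
    by_cases h : ∃ D : Ideal (𝓞 K), D ≠ ⊥ ∧ ex R D = ⊤ ∧ cl D = κ
    · exact h.imp fun _ h _ _ _ _ => h
    · exact ⟨⊤, fun D a b c => (h ⟨D, a, b, c⟩).elim⟩
  choose f hf using h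
  refine ⟨univ.sup fun κ => Ideal.absNorm (f κ), fun I hI h => ?_⟩
  obtain ⟨D, d0, d1, d2⟩ := exists_D s hI h
  obtain ⟨a, b, c⟩ := hf _ D d0 d1 rfl
  exact ⟨_, a, b, le_sup (f := fun κ => Ideal.absNorm (f κ)) (mem_univ _),
    by rw [cl_mul hI a, c, ← cl_mul hI d0, d2]⟩

theorem exists_W : ∃ W : Subgroup Kˣ, W.FG ∧ W ≤ sUnits K R ∧ unitsW K ≤ W ∧
    Units.rank K + {P : Ideal (𝓞 K) | P.IsMaximal ∧ s ∈ P}.ncard ≤
      Module.finrank ℤ (Additive W) ∧ ∀ P : Ideal (𝓞 K), Un W P → s ∉ P := by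
  have s0 := s_ne (R := R) s
  have su := IsLocalization.Away.algebraMap_isUnit (S := R) s
  set T := {P : Ideal (𝓞 K) | P.IsMaximal ∧ s ∈ P}
  have hT : T.Finite := (finite_norm_le (Ideal.absNorm (Ideal.span {s}))).subset fun P hP =>
    Nat.le_of_dvd (Nat.pos_of_ne_zero fun h => s0
      (Ideal.span_singleton_eq_bot.1 (Ideal.absNorm_eq_zero_iff.1 h)))
      (Ideal.absNorm_dvd_absNorm_of_le ((Ideal.span_singleton_le_iff_mem _).2 hP.2))
  let _ := hT.fintype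
  have p0 : ∀ P : T, P.1 ≠ ⊥ := fun P h => s0 (Ideal.mem_bot.1 (h ▸ P.2.2))
  choose t t0 ht using fun P : T => cl_one (pow_ne_zero (classNumber K) (p0 P))
    (by rw [cl_pow (p0 P)]; exact pow_card_eq_one)
  have h0 := (classNumber_pos K).ne'
  have t1 : ∀ P Q : T, t P ∈ Q.1 ↔ P = Q := fun P Q => by
    have := Q.2.1.isPrime
    rw [← Ideal.span_singleton_le_iff_mem, ← ht, Ideal.IsPrime.pow_le_iff h0]
    exact ⟨fun h => Subtype.ext (P.2.1.eq_of_le Q.2.1.ne_top h), fun h => h ▸ le_rfl⟩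
  let u : ∀ a : 𝓞 K, a ≠ 0 → Kˣ := fun a h => Units.mk0 (a : K) (RingOfIntegers.coe_ne_zero_iff.2 h)
  let W := unitsW K ⊔ Subgroup.closure (insert (u s s0) (Set.range fun P => u _ (t0 P)))
  have hW : W.FG := unitsW_fg.sup ((Subgroup.fg_iff _).2 ⟨_, rfl, (Set.finite_range _).insert _⟩)
  refine ⟨W, hW, sup_le ?_ ((Subgroup.closure_le _).2 ?_), le_sup_left, ?_, fun P hP h => ?_⟩
  · rintro _ ⟨v, rfl⟩
    exact ⟨v, 1, v.isUnit.map _, by simp, by simp⟩
  · rintro _ (rfl | ⟨P, rfl⟩)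
    · exact ⟨s, 1, su, by simp, by simp [u]⟩
    · refine ⟨t P, 1, ?_, by simp, by simp [u]⟩
      rw [← Ideal.span_singleton_eq_top, ← ex_span, ← ht, ex, Ideal.map_pow,
        Ideal.eq_top_of_isUnit_mem _ (Ideal.mem_map_of_mem _ P.2.2) su, Ideal.top_pow]
  · have : Group.FG W := (Group.fg_iff_subgroup_fg _).2 hW
    have : Module.Finite ℤ (Additive W) := Module.Finite.iff_addGroup_fg.2 inferInstance
    obtain ⟨w, a, b, w1, -, w3, w4, w5⟩ := exists_indep (unitsW K) unitsW_rank.ge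
    let F : Fin (Units.rank K) ⊕ T → W := Sum.elim (fun i => ⟨w i, Subgroup.mem_sup_left (w1 i)⟩)
      fun P => ⟨u _ (t0 P), Subgroup.mem_sup_right (Subgroup.subset_closure (.inr ⟨P, rfl⟩))⟩
    have hF : LinearIndependent ℤ fun i => Additive.ofMul (F i) := by
      refine Fintype.linearIndependent_iff.2 fun d hd => ?_
      have e1 : (∏ i, w i ^ d (.inl i)) * ∏ P, u _ (t0 P) ^ d (.inr P) = 1 := by
        have := congrArg (fun x : Additive W => (x.toMul : Kˣ)) hd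
        simpa only [F, Fintype.sum_sum_type, Sum.elim_inl, Sum.elim_inr, toMul_add, toMul_sum, toMul_zsmul, toMul_ofMul, Subgroup.coe_mul, Subgroup.val_finsetProd, SubgroupClass.coe_zpow, toMul_zero, OneMemClass.coe_one] using this
      have e2 : ∀ Q, d (.inr Q) = 0 := fun Q => by
        let v : HeightOneSpectrum (𝓞 K) := ⟨Q, Q.2.1.isPrime, p0 Q⟩
        have v1 : ∀ P, v.valuationOfNeZero (u _ (t0 P)) = 1 ↔ P ≠ Q := fun P => by
          rw [← WithZero.coe_inj, v.valuationOfNeZero_eq, Ne, ← t1]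
          exact v.valuation_eq_one_iff_notMem
        have e3 := congrArg v.valuationOfNeZero e1
        rw [map_mul, map_prod, map_prod, map_one, prod_eq_one fun i _ => by
          obtain ⟨x, hx⟩ := w1 i
          rw [map_zpow, ← hx]
          exact (congrArg (· ^ _) (v.valuation_of_unit_eq x)).trans (one_zpow _), one_mul,
          prod_eq_single Q (fun P _ h => by rw [map_zpow, (v1 P).2 h, one_zpow]) (by simp only [mem_univ, not_true_eq_false, map_zpow, IsMulTorsionFree.zpow_eq_one_iff, IsEmpty.forall_iff]),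
          map_zpow] at e3
        by_contra h
        exact (v1 Q).1 (zpow_left_injective h (e3.trans (one_zpow _).symm)) rfl
      simp only [e2, zpow_zero, prod_const_one, mul_one] at e1
      have e4 := w5 (fun i => d (.inl i)) (by
        have := congrArg Units.val e1
        simp only [Units.coe_prod, Units.val_zpow_eq_zpow_val, Units.val_one] at this
        refine Eq.trans (prod_congr rfl fun i _ => ?_) this
        rw [← w4, mul_div_cancel_right₀ _ (RingOfIntegers.coe_ne_zero_iff.2 (w3 i))])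
      rintro (i | P)
      exacts [congrFun e4 i, e2 P]
    have := hF.fintype_card_le_finrank
    rwa [Fintype.card_sum, Fintype.card_fin, ← Nat.card_eq_fintype_card] at this
  · obtain ⟨a, b, h1, -, h2⟩ := hP _ (Subgroup.mem_sup_right (Subgroup.subset_closure (.inl rfl)))
    exact h1 ((RingOfIntegers.ext h2 : s * b = a) ▸ P.mul_mem_right b h)

end Pool.Agent.MP_48b1c3_nt.H91

end

-- part MP_48b1c3_nt.H48.Harper
section

namespace Pool.Agent.MP_48b1c3_nt.H48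

open Finset NumberField H54 H91 Filter
open scoped Classical BigOperators Topology

variable {K : Type} [Field K] [NumberField K]

/-- every class prime to `P` contains a generator of an ideal of the family `G` -/
def B2 (G : Ideal (𝓞 K) → Prop) (u : 𝓞 K) (P : Ideal (𝓞 K)) : Prop :=
  u ∉ P → ∀ a ∉ P, ∃ r : 𝓞 K, r - a ∈ P ∧ G (Ideal.span {r})

theorem harpera_fib {G H : Type} [AddGroup G] [AddGroup H] [Fintype G] [Fintype H] (f : G →+ H)
    (hf : Function.Surjective f) (Ω : Set H) :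
    #(univ.filter fun g => f g ∈ Ω) * Nat.card H = Ω.ncard * Nat.card G := by
  have h : ∀ S : Set H, #(univ.filter fun g => f g ∈ S) =
      S.ncard * #(univ.filter fun g => f g = 0) := by
    intro S
    rw [card_eq_sum_card_fiberwise (f := f) (t := S.toFinset) (fun g hg => by simpa using hg),
      Set.ncard_eq_toFinset_card', ← smul_eq_mul, ← sum_const]
    refine sum_congr rfl fun y hy => ?_
    rw [← AddMonoidHom.card_fiber_eq_of_mem_range f (hf y) (hf 0)]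
    congr 1
    ext g
    simp only [mem_filter, mem_univ, true_and, and_iff_right_iff_imp]
    rintro rfl
    simpa using hy
  have h1 := h Set.univ
  simp only [Set.mem_univ, filter_true, card_univ, Set.ncard_univ] at h1
  rw [h Ω, Nat.card_eq_fintype_card (α := G), h1]
  ring

theorem harpera_mem {ι : Type} [Fintype ι] {N : ℕ} {a : ι → ℤ} :
    a ∈ cb ι N ↔ ∀ i, 0 ≤ a i ∧ a i < N := by
  simp only [cb, Fintype.mem_piFinset, mem_Ico]

theorem harpera_card (N : ℕ) : #(cb (Ix K) N) = N ^ dg K := by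
  simp [cb, ← card_Ix]

theorem harpera_one {I : Ideal (𝓞 K)} {m : ℕ} (hm : 0 < m) (hI : (m : 𝓞 K) ∈ I)
    (Ω : Set (𝓞 K ⧸ I)) (c : 𝓞 K) :
    #((cb (Ix K) m).filter fun a => Ideal.Quotient.mk I (el K a + c) ∈ Ω) * Ideal.absNorm I ≤
      Ω.ncard * m ^ dg K := by
  have hle : Ideal.span {(m : 𝓞 K)} ≤ I := (Ideal.span_singleton_le_iff_mem _).2 hI
  have hc : Nat.card (𝓞 K ⧸ Ideal.span {(m : 𝓞 K)}) = m ^ dg K := by
    rw [← Submodule.cardQuot_apply, ← Ideal.absNorm_apply, Ideal.absNorm_span_natCast,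
      RingOfIntegers.rank]
  have : Finite (𝓞 K ⧸ Ideal.span {(m : 𝓞 K)}) :=
    Nat.finite_of_card_ne_zero (by rw [hc]; positivity)
  have hs := Ideal.Quotient.factor_surjective hle
  have : Finite (𝓞 K ⧸ I) := Finite.of_surjective _ hs
  let := Fintype.ofFinite (𝓞 K ⧸ Ideal.span {(m : 𝓞 K)})
  let := Fintype.ofFinite (𝓞 K ⧸ I)
  have h := harpera_fib (Ideal.Quotient.factor hle).toAddMonoidHom hs Ω
  rw [hc, ← Submodule.cardQuot_apply, ← Ideal.absNorm_apply] at h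
  rw [← h]
  refine Nat.mul_le_mul_right _ (card_le_card_of_injOn
    (fun a => Ideal.Quotient.mk _ (el K a + c)) (fun a ha => ?_) fun a ha b hb hab => ?_)
  · simpa using (mem_filter.1 ha).2
  · have h1 := harpera_mem.1 (mem_filter.1 ha).1
    have h2 := harpera_mem.1 (mem_filter.1 hb).1
    obtain ⟨z, hz⟩ := Ideal.mem_span_singleton.1 (Ideal.Quotient.eq.1 hab)
    obtain ⟨z, rfl⟩ := (el K).surjective z
    rw [add_sub_add_right_eq_sub, ← map_sub, ← nsmul_eq_mul, ← map_nsmul] at hz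
    funext i
    have h3 := congrFun ((el K).injective hz) i
    simp only [Pi.sub_apply, Pi.smul_apply, nsmul_eq_mul] at h3
    have h4 := h1 i
    have h5 := h2 i
    have h6 : z i = 0 := by
      have : (0 : ℤ) < m := by exact_mod_cast hm
      rcases lt_trichotomy (z i) 0 with h | h | h
      · nlinarith only [h3, h4, h5]
      · exact h
      · nlinarith only [h3, h4, h5]
    rw [h6] at h3
    linarith only [h3]

theorem harpera_up {I : Ideal (𝓞 K)} {m T : ℕ} (hm : 0 < m) (hI : (m : 𝓞 K) ∈ I)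
    (Ω : Set (𝓞 K ⧸ I)) (c : 𝓞 K) :
    #((cb (Ix K) T).filter fun a => Ideal.Quotient.mk I (el K a + c) ∈ Ω) * Ideal.absNorm I ≤
      Ω.ncard * (T + m) ^ dg K := by
  have hm' : (0 : ℤ) < m := by exact_mod_cast hm
  have h : #((cb (Ix K) T).filter fun a => Ideal.Quotient.mk I (el K a + c) ∈ Ω) ≤
      #(((cb (Ix K) m).filter fun a => Ideal.Quotient.mk I (el K a + c) ∈ Ω) ×ˢ
        cb (Ix K) (T / m + 1)) := by
    refine card_le_card_of_injOn (fun a => (fun i => a i % m, fun i => a i / m))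
      (fun a ha => ?_) fun a _ b _ hab => ?_
    · have h1 := harpera_mem.1 (mem_filter.1 ha).1
      refine mem_coe.2 (mem_product.2 ⟨mem_filter.2 ⟨harpera_mem.2 fun i =>
        ⟨Int.emod_nonneg _ hm'.ne', Int.emod_lt_of_pos _ hm'⟩, ?_⟩, harpera_mem.2 fun i =>
        ⟨Int.ediv_nonneg (h1 i).1 hm'.le, ?_⟩⟩)
      · have h2 : a = (fun i => a i % m) + m • fun i => a i / m := by
          funext i
          simp [Int.emod_add_mul_ediv]
        have h3 := (mem_filter.1 ha).2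
        convert h3 using 1
        refine Ideal.Quotient.eq.2 ?_
        conv => enter [2, 2]; rw [h2]
        rw [map_add, map_nsmul, nsmul_eq_mul]
        convert I.neg_mem (I.mul_mem_right (el K fun i => a i / m) hI) using 1
        ring
      · have := Int.ediv_le_ediv hm' (h1 i).2.le
        push_cast
        omega
    · funext i
      have h1 := congrFun (congrArg Prod.fst hab) i
      have h2 := congrFun (congrArg Prod.snd hab) i
      simp only at h1 h2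
      rw [← Int.emod_add_mul_ediv (a i) m, h1, h2, Int.emod_add_mul_ediv]
  rw [card_product, harpera_card] at h
  calc _ ≤ _ := Nat.mul_le_mul_right _ h
    _ = _ * Ideal.absNorm I * (T / m + 1) ^ dg K := mul_right_comm _ _ _
    _ ≤ Ω.ncard * m ^ dg K * (T / m + 1) ^ dg K := Nat.mul_le_mul_right _ (harpera_one hm hI Ω c)
    _ ≤ _ := by
      rw [mul_assoc, ← mul_pow]
      gcongr
      have := Nat.mul_div_le T m
      linarith only [this]

theorem harpera_fin {I : Ideal (𝓞 K)} (hI : Ideal.absNorm I ≠ 0) (Ω : Set (𝓞 K ⧸ I)) :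
    Ω.ncard + Ωᶜ.ncard = Ideal.absNorm I := by
  rw [Ideal.absNorm_apply, Submodule.cardQuot_apply] at hI ⊢
  have := Nat.finite_of_card_ne_zero hI
  exact Set.ncard_add_ncard_compl Ω

theorem count_per {I : Ideal (𝓞 K)} {m T : ℕ} (hm : 0 < m) (hI : (m : 𝓞 K) ∈ I)
    (Ω : Set (𝓞 K ⧸ I)) (c : 𝓞 K) :
    |(#((cb (Ix K) T).filter fun a => Ideal.Quotient.mk I (el K a + c) ∈ Ω) : ℝ) -
      Ω.ncard / Ideal.absNorm I * T ^ dg K| ≤ (T + m) ^ dg K - T ^ dg K := by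
  have h0 : Ideal.absNorm I ≠ 0 := fun h => by
    rw [Ideal.absNorm_eq_zero_iff.1 h, Ideal.mem_bot, Nat.cast_eq_zero] at hI
    omega
  have hN : (0 : ℝ) < Ideal.absNorm I := by exact_mod_cast Nat.pos_of_ne_zero h0
  have h1 := (Nat.cast_le (α := ℝ)).2 (harpera_up (T := T) hm hI Ω c)
  have h2 := (Nat.cast_le (α := ℝ)).2 (harpera_up (T := T) hm hI Ωᶜ c)
  have h3 := congrArg (Nat.cast : ℕ → ℝ) (harpera_fin h0 Ω)
  have h4 := congrArg (Nat.cast : ℕ → ℝ) (card_filter_add_card_filter_not (s := cb (Ix K) T)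
    fun a => Ideal.Quotient.mk I (el K a + c) ∈ Ω)
  rw [harpera_card] at h4
  simp only [Set.mem_compl_iff] at h2
  push_cast at h1 h2 h3 h4
  have h5 : (T : ℝ) ^ dg K ≤ (T + m) ^ dg K := by gcongr; linarith only []
  have h6 : (0 : ℝ) ≤ Ω.ncard := Nat.cast_nonneg _
  have h7 : (0 : ℝ) ≤ Ωᶜ.ncard := Nat.cast_nonneg _
  generalize ((T : ℝ) + m) ^ dg K = U at *
  generalize (T : ℝ) ^ dg K = V at *
  rw [← mul_le_mul_iff_left₀ hN, ← abs_of_pos hN, ← abs_mul, abs_of_pos hN, sub_mul,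
    mul_right_comm, div_mul_cancel₀ _ hN.ne', abs_le]
  constructor <;> nlinarith only [h3, h2, h4, h5, h1]

theorem harpera_max {P : Ideal (𝓞 K)} (hP : P.IsMaximal) : Ideal.absNorm P ≠ 0 := fun h =>
  Ring.ne_bot_of_isMaximal_of_not_isField hP (RingOfIntegers.not_isField K)
    (Ideal.absNorm_eq_zero_iff.1 h)

theorem harpera_norm {I : Ideal (𝓞 K)} {M T : ℕ} (h0 : Ideal.absNorm I ≠ 0)
    (hM : Ideal.absNorm I ≤ M) (Ω : Set (𝓞 K ⧸ I)) (c : 𝓞 K) :
    |(#((cb (Ix K) T).filter fun a => Ideal.Quotient.mk I (el K a + c) ∈ Ω) : ℝ) -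
      Ω.ncard / Ideal.absNorm I * T ^ dg K| ≤ (T + M) ^ dg K - T ^ dg K := by
  refine (count_per (Nat.pos_of_ne_zero h0) (Ideal.absNorm_mem I) Ω c).trans ?_
  gcongr

theorem harpera_two {P Q : Ideal (𝓞 K)} {m T : ℕ} (hP : P.IsMaximal) (hQ : Q.IsMaximal)
    (hne : P ≠ Q) (h1 : Ideal.absNorm P ≤ m) (h2 : Ideal.absNorm Q ≤ m) (Ω : Set (𝓞 K ⧸ P))
    (Ω' : Set (𝓞 K ⧸ Q)) (c : 𝓞 K) :
    |(#((cb (Ix K) T).filter fun a => Ideal.Quotient.mk P (el K a + c) ∈ Ω ∧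
        Ideal.Quotient.mk Q (el K a + c) ∈ Ω') : ℝ) -
      Ω.ncard / Ideal.absNorm P * (Ω'.ncard / Ideal.absNorm Q) * T ^ dg K| ≤
      (T + m ^ 2) ^ dg K - T ^ dg K := by
  have hc : IsCoprime P Q := Ideal.isCoprime_iff_sup_eq.2 (hP.coprime_of_ne hQ hne)
  have h := harpera_norm (I := P * Q) (M := m ^ 2) (T := T)
    (by rw [map_mul]; exact mul_ne_zero (harpera_max hP) (harpera_max hQ))
    (by rw [map_mul, sq]; exact Nat.mul_le_mul h1 h2)
    (Ideal.quotientMulEquivQuotientProd P Q hc ⁻¹' (Ω ×ˢ Ω')) c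
  rw [Set.ncard_preimage_of_injective_subset_range (RingEquiv.injective _)
    (by rw [(RingEquiv.surjective _).range_eq]; exact Set.subset_univ _), Set.ncard_prod,
    map_mul] at h
  push_cast at h
  rw [div_mul_div_comm]
  convert h using 5 with a
  simp

theorem variance (X : Finset (Ideal (𝓞 K))) (Ω : (P : Ideal (𝓞 K)) → Set (𝓞 K ⧸ P)) {m T : ℕ}
    (h : ∀ P ∈ X, P.IsMaximal ∧ Ideal.absNorm P ≤ m) (c : 𝓞 K) (A : Finset (Ix K → ℤ))
    (hA : A ⊆ cb (Ix K) T) (h0 : ∀ a ∈ A, ∀ P ∈ X, Ideal.Quotient.mk P (el K a + c) ∉ Ω P) :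
    #A * (∑ P ∈ X, ((Ω P).ncard / Ideal.absNorm P : ℝ)) ^ 2 ≤
      T ^ dg K * ∑ P ∈ X, ((Ω P).ncard / Ideal.absNorm P : ℝ) +
        4 * (#X : ℝ) ^ 2 * ((T + m ^ 2) ^ dg K - T ^ dg K) := by
  set d : Ideal (𝓞 K) → ℝ := fun P => (Ω P).ncard / Ideal.absNorm P with hd
  set χ : Ideal (𝓞 K) → (Ix K → ℤ) → ℝ :=
    fun P a => if Ideal.Quotient.mk P (el K a + c) ∈ Ω P then 1 else 0 with hχ
  set E : ℝ := (T + m ^ 2) ^ dg K - T ^ dg K with hE
  have hE0 : 0 ≤ E := by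
    rw [hE, sub_nonneg]
    gcongr
    exact le_add_of_nonneg_right (by positivity)
  have hd0 : ∀ P, 0 ≤ d P := fun P => by positivity
  have hd1 : ∀ P ∈ X, d P ≤ 1 := fun P hP => div_le_one_of_le₀
    (by exact_mod_cast Nat.le.intro (harpera_fin (harpera_max (h P hP).1) (Ω P))) (by positivity)
  have h1 : ∀ P ∈ X, |∑ a ∈ cb (Ix K) T, χ P a - d P * T ^ dg K| ≤ E := fun P hP => by
    have := harpera_norm (M := m ^ 2) (T := T) (harpera_max (h P hP).1)
      ((h P hP).2.trans (Nat.le_self_pow two_ne_zero m)) (Ω P) c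
    simpa [hχ, hd, hE] using this
  have h2 : ∀ P ∈ X, ∀ Q ∈ X, ∑ a ∈ cb (Ix K) T, (χ P a - d P) * (χ Q a - d Q) ≤
      (if P = Q then T ^ dg K * d P else 0) + 4 * E := fun P hP Q hQ => by
    have h3 : ∑ a ∈ cb (Ix K) T, (χ P a - d P) * (χ Q a - d Q) =
        ∑ a ∈ cb (Ix K) T, χ P a * χ Q a - d Q * ∑ a ∈ cb (Ix K) T, χ P a -
          d P * ∑ a ∈ cb (Ix K) T, χ Q a + d P * d Q * T ^ dg K := by
      rw [mul_sum, mul_sum, ← sum_sub_distrib, ← sum_sub_distrib, ← Nat.cast_pow, ← harpera_card,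
        mul_comm, ← nsmul_eq_mul, ← sum_const, ← sum_add_distrib]
      exact sum_congr rfl fun a _ => by ring
    have h4 := mul_le_mul_of_nonneg_left (abs_le.1 (h1 P hP)).1 (hd0 Q)
    have h5 := mul_le_mul_of_nonneg_left (abs_le.1 (h1 Q hQ)).1 (hd0 P)
    have h6 := mul_le_mul_of_nonneg_right (hd1 P hP) hE0
    have h7 := mul_le_mul_of_nonneg_right (hd1 Q hQ) hE0
    rw [h3]
    split_ifs with hPQ
    · subst hPQ
      have h8 : ∑ a ∈ cb (Ix K) T, χ P a * χ P a = ∑ a ∈ cb (Ix K) T, χ P a :=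
        sum_congr rfl fun a _ => by simp only [hχ]; split_ifs <;> simp
      have h9 := (abs_le.1 (h1 P hP)).2
      have h10 : 0 ≤ d P * d P * T ^ dg K := by have := hd0 P; positivity
      rw [h8]
      linarith only [hE0, h6, h4, h9, h10]
    · have h8 := (abs_le.1 (harpera_two (T := T) (h P hP).1 (h Q hQ).1 hPQ (h P hP).2 (h Q hQ).2
        (Ω P) (Ω Q) c)).2
      have h9 : ∑ a ∈ cb (Ix K) T, χ P a * χ Q a =
          #((cb (Ix K) T).filter fun a => Ideal.Quotient.mk P (el K a + c) ∈ Ω P ∧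
            Ideal.Quotient.mk Q (el K a + c) ∈ Ω Q) := by
        simp [hχ, ← ite_and, and_comm]
      rw [h9]
      change _ - d P * d Q * _ ≤ E at h8
      linarith only [hE0, h4, h5, h6, h7, h8]
  calc _ = ∑ a ∈ A, (∑ P ∈ X, (χ P a - d P)) ^ 2 := by
        rw [← nsmul_eq_mul, ← sum_const]
        refine sum_congr rfl fun a ha => ?_
        rw [← neg_sq, ← sum_neg_distrib]
        congr 1
        exact sum_congr rfl fun P hP => by simp only [hχ, hd, if_neg (h0 a ha P hP), zero_sub]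
    _ ≤ ∑ a ∈ cb (Ix K) T, (∑ P ∈ X, (χ P a - d P)) ^ 2 :=
        sum_le_sum_of_subset_of_nonneg hA fun _ _ _ => sq_nonneg _
    _ = ∑ P ∈ X, ∑ Q ∈ X, ∑ a ∈ cb (Ix K) T, (χ P a - d P) * (χ Q a - d Q) := by
        simp_rw [sq, sum_mul_sum]
        rw [sum_comm]
        exact sum_congr rfl fun P _ => sum_comm
    _ ≤ ∑ P ∈ X, ∑ Q ∈ X, ((if P = Q then T ^ dg K * d P else 0) + 4 * E) :=
        sum_le_sum fun P hP => sum_le_sum fun Q hQ => h2 P hP Q hQ
    _ = _ := by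
        rw [sum_congr rfl fun P hP => by rw [sum_add_distrib, sum_ite_eq, if_pos hP],
          sum_add_distrib, ← mul_sum]
        simp only [sum_const, nsmul_eq_mul]
        ring

theorem harperb_unit (hr : 0 < Units.rank K) :
    ∃ u : (𝓞 K)ˣ, ∀ d : ℤ, ((u : 𝓞 K) : K) ^ d = 1 → d = 0 := by
  refine ⟨Units.fundSystem K ⟨0, hr⟩, fun d hd => ?_⟩
  have h1 : Units.fundSystem K ⟨0, hr⟩ ^ d = 1 := by
    apply Units.coe_injective K
    simpa only [Units.coe_zpow, Units.val_one, map_one] using hd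
  have h2 := Units.fun_eq_repr K (x := 1) (f := Pi.single ⟨0, hr⟩ d) (one_mem _) (by
    rw [one_mul, Finset.prod_eq_single ⟨0, hr⟩ (fun b _ hb => by simp [hb]) (by simp only [mem_univ, not_true_eq_false, Pi.single_eq_same, IsEmpty.forall_iff])]
    simp [h1])
  have h3 := Units.fun_eq_repr K (x := 1) (f := 0) (one_mem _) (by simp only [Pi.zero_apply, zpow_ofNat, pow_zero, prod_const_one, mul_one])
  simpa using congrFun (h2.trans h3.symm) ⟨0, hr⟩

theorem harperb_log : ∀ᶠ m : ℕ in atTop, Real.log m ^ 2 ≤ (m : ℝ) ^ (1 / 12 : ℝ) := by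
  have h := (isLittleO_log_rpow_rpow_atTop 2 (by norm_num : (0 : ℝ) < 1 / 12)).bound one_pos
  filter_upwards [tendsto_natCast_atTop_atTop.eventually h] with m hm
  rw [one_mul, Real.rpow_two, Real.norm_of_nonneg (sq_nonneg _),
    Real.norm_of_nonneg (by positivity)] at hm
  exact hm

theorem harperb_pow {ε : ℝ} (h0 : 0 ≤ ε) (h1 : ε ≤ 1) (n : ℕ) : (1 + ε) ^ n - 1 ≤ 2 ^ n * ε := by
  have : (1 + ε) ^ n ≤ 1 + (2 ^ n - 1) * ε := by
    induction n with
    | zero => simp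
    | succ n ih =>
      have h2 : (1 : ℝ) ≤ 2 ^ n := one_le_pow₀ one_le_two
      have h3 := mul_le_mul_of_nonneg_right ih (by linarith : 0 ≤ 1 + ε)
      have h4 : (2 ^ n - 1) * ε * ε ≤ (2 ^ n - 1) * ε :=
        mul_le_of_le_one_right (mul_nonneg (by linarith) h0) h1
      rw [pow_succ, pow_succ]
      linarith only [h3, h4]
  linarith

theorem harperb_arith {b B F w μ N a : ℝ} (hb : 0 < b) (hB : 0 ≤ B) (hw : 1 ≤ w)
    (hW : 2 * F / b ≤ w) (hμ : 0 ≤ μ) (hN0 : 0 ≤ N) (hN : N ≤ μ * w ^ 8) (ha : b / w ≤ a)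
    (h : a * μ ^ 2 ≤ B * μ + F * N ^ 2 / w ^ 24) : N ≤ 2 * B / b * w ^ 9 := by
  have w0 : 0 < w := by linarith only [hw]
  have h1 : F * N ^ 2 / w ^ 24 ≤ b / (2 * w) * μ ^ 2 := by
    have e1 : F ≤ b * w / 2 := by
      rw [div_le_iff₀ hb] at hW
      linarith only [hW]
    have e2 : N ^ 2 ≤ (μ * w ^ 8) ^ 2 := pow_le_pow_left₀ hN0 hN 2
    have e3 : w ^ 18 ≤ w ^ 24 := pow_le_pow_right₀ hw (by norm_num)
    calc F * N ^ 2 / w ^ 24 ≤ b * w / 2 * (μ * w ^ 8) ^ 2 / w ^ 18 := by gcongr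
      _ = b / (2 * w) * μ ^ 2 := by field_simp
  have h2 : b / (2 * w) * μ ^ 2 ≤ B * μ := by
    have e1 : b / w * μ ^ 2 ≤ a * μ ^ 2 := by gcongr
    have e2 : b / w = 2 * (b / (2 * w)) := by field_simp
    rw [e2] at e1
    linarith only [h, h1, e1]
  have h3 : μ ≤ 2 * B / b * w := by
    rcases hμ.eq_or_lt with h0 | h0
    · rw [← h0]; positivity
    · have e1 : b / (2 * w) * μ ≤ B := le_of_mul_le_mul_right (by linarith only [h2]) h0
      rw [div_mul_eq_mul_div, div_le_iff₀ (by positivity)] at e1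
      rw [div_mul_eq_mul_div, le_div_iff₀ hb]
      linarith only [e1]
  calc N ≤ μ * w ^ 8 := hN
    _ ≤ 2 * B / b * w * w ^ 8 := by gcongr
    _ = _ := by ring

variable {G : Ideal (𝓞 K) → Prop}

theorem harperb_omega {P : Ideal (𝓞 K)} (hP : P.IsMaximal) {u : 𝓞 K} (h2 : ¬ B2 G u P)
    (hG : ∀ r, G (Ideal.span {r}) → G (Ideal.span {u * r})) {k : ℕ}
    (hu : ∀ m : ℕ, 0 < m → m ≤ k → u ^ m - 1 ∉ P) :
    k + 1 ≤ {y : 𝓞 K ⧸ P | ∀ r, Ideal.Quotient.mk P r = y → ¬ G (Ideal.span {r})}.ncard := by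
  have := P.finiteQuotientOfFreeOfNeBot (P.bot_lt_of_maximal (RingOfIntegers.not_isField K)).ne'
  unfold B2 at h2
  push Not at h2
  obtain ⟨u1, a, ha, h2⟩ := h2
  obtain ⟨v, c, hc, e⟩ := hP.exists_inv u1
  have e1 : ∀ i : ℕ, Ideal.Quotient.mk P (u ^ i * v ^ i) = 1 := fun i => by
    rw [← mul_pow, map_pow, show u * v = 1 - c by linear_combination e, map_sub,
      Ideal.Quotient.eq_zero_iff_mem.2 hc, sub_zero, map_one, one_pow]
  have key : ∀ i j : ℕ, i < j → j ≤ k →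
      Ideal.Quotient.mk P (a * v ^ j) ≠ Ideal.Quotient.mk P (a * v ^ i) := by
    intro i j hij hj he
    obtain ⟨d, rfl⟩ := Nat.exists_eq_add_of_le hij.le
    refine hu d (by omega) (by omega) ((hP.isPrime.mem_or_mem (x := a) ?_).resolve_left ha)
    have e2 := e1 (i + d)
    have e3 := e1 i
    rw [← Ideal.Quotient.eq_zero_iff_mem]
    simp only [map_mul, map_pow, map_sub, map_one, pow_add] at *
    linear_combination (-Ideal.Quotient.mk P u ^ i * Ideal.Quotient.mk P u ^ d) * he +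
      Ideal.Quotient.mk P a * e2 - Ideal.Quotient.mk P a * Ideal.Quotient.mk P u ^ d * e3
  rw [← card_range (k + 1), ← Set.ncard_coe_finset]
  refine Set.ncard_le_ncard_of_injOn (fun i : ℕ => Ideal.Quotient.mk P (a * v ^ i))
    (fun i _ r hr hB => ?_) (fun i hi j hj he => ?_) (Set.toFinite _)
  · refine h2 (u ^ i * r) ?_ ?_
    · rw [← Ideal.Quotient.eq, map_mul, hr, ← map_mul, mul_left_comm, map_mul, e1, mul_one]
    · exact Nat.rec (motive := fun i => G (Ideal.span {u ^ i * r})) (by simpa using hB)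
        (fun i h => by rw [pow_succ', mul_assoc]; exact hG _ h) i
  · have hi' := mem_range.1 hi
    have hj' := mem_range.1 hj
    rcases lt_trichotomy i j with h3 | h3 | h3
    · exact absurd he.symm (key i j h3 (by omega))
    · exact h3
    · exact absurd he (key j i h3 (by omega))

theorem harperb_cube (hG : ∀ J, G J → ∃ α ≠ 0, J = Ideal.span {α}) : ∃ D : ℕ, 0 < D ∧ ∀ k : ℕ, 0 < k →
    ∃ c : 𝓞 K, {P : Ideal (𝓞 K) | Ideal.absNorm P ≤ k ^ dg K ∧ G P}.ncard ≤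
      #((cb (Ix K) (2 * D * k)).filter fun a => G (Ideal.span {el K a + c})) := by
  obtain ⟨Γ⟩ := geo_nonempty K
  obtain ⟨C, hC, hb⟩ := Γ.balanced
  obtain ⟨D, hD⟩ := exists_nat_gt C
  refine ⟨D, by exact_mod_cast hC.trans hD, fun k hk => ⟨-el K fun _ => D * k, ?_⟩⟩
  rw [← Set.ncard_coe_finset]
  refine le_trans (Set.ncard_le_ncard (fun P hP => ?_) ((finite_toSet _).image
    fun a => Ideal.span {el K a + -el K fun _ => D * k})) (Set.ncard_image_le (finite_toSet _))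
  obtain ⟨α, h0, rfl⟩ := hG P hP.2
  obtain ⟨u, hu⟩ := hb α h0
  have e : Ideal.span {el K ((el K).symm (u * α) + fun _ => (D * k : ℤ)) +
      -el K fun _ => D * k} = Ideal.span {α} := by
    rw [map_add, LinearEquiv.apply_symm_apply, add_neg_cancel_right,
      Ideal.span_singleton_mul_left_unit u.isUnit]
  refine ⟨_, mem_coe.2 (mem_filter.2 ⟨Fintype.mem_piFinset.2 fun i => ?_, e ▸ hP.2⟩), e⟩
  have h1 : |(nm α : ℝ)| ≤ (k : ℝ) ^ dg K := by
    have := hP.1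
    rw [Ideal.absNorm_span_singleton] at this
    rw [← Int.cast_abs, ← Nat.cast_natAbs]
    exact_mod_cast this
  have h2 : |(nm α : ℝ)| ^ (1 / (dg K : ℝ)) ≤ k := by
    refine (Real.rpow_le_rpow (abs_nonneg _) h1 (by positivity)).trans_eq ?_
    rw [one_div, Real.pow_rpow_inv_natCast (by positivity) (dg_pos K).ne']
  have h3 : |((el K).symm (u * α) i : ℝ)| < D * k :=
    ((hu i).trans (mul_le_mul_of_nonneg_left h2 hC.le)).trans_lt
      (mul_lt_mul_of_pos_right hD (by exact_mod_cast hk))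
  have h4 : |(el K).symm (u * α) i| < D * k := by exact_mod_cast h3
  have h5 := abs_lt.1 h4
  simp only [mem_Ico, Pi.add_apply]
  push_cast
  constructor <;> linarith only [h5.1, h5.2]

theorem harperb_main (hG : ∀ J, G J → ∃ α ≠ 0, J = Ideal.span {α}) {u : 𝓞 K}
    (u0 : u ≠ 0) (hu : ∀ d : ℤ, (u : K) ^ d = 1 → d = 0)
    (hGu : ∀ r, G (Ideal.span {r}) → G (Ideal.span {u * r})) {c : ℝ} (hc : 0 < c)
    (h : ∀ᶠ x : ℕ in atTop, c * x / Real.log x ^ 2 ≤
      {P : Ideal (𝓞 K) | Ideal.absNorm P ≤ x ∧ G P}.ncard) :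
    ∃ C : ℝ, 0 ≤ C ∧ ∀ᶠ m : ℕ in atTop,
      ({P : Ideal (𝓞 K) | P.IsMaximal ∧ Ideal.absNorm P ≤ m ∧ ¬ B2 G u P}.ncard : ℝ) ≤
        C * (m : ℝ) ^ (3 / 4 : ℝ) := by
  obtain ⟨C₁, hC₁, hM⟩ := matthews (K := K) one_pos (u := fun _ => u) (w := fun _ => 1)
    (fun _ => u0) (fun _ => one_ne_zero) fun d hd =>
      funext fun i => hu _ (by simpa only [Subsingleton.elim i 0, Fin.isValue, univ_unique, Fin.default_eq_zero, map_one, div_one, prod_singleton] using hd)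
  obtain ⟨D, hD, hA⟩ := harperb_cube hG
  have hn := dg_pos K
  set n := dg K with hnd
  obtain ⟨b, hb⟩ : ∃ b : ℝ, b = c / (4 * n) ^ 2 := ⟨_, rfl⟩
  obtain ⟨B, hB⟩ : ∃ B : ℝ, B = (2 * D) ^ n := ⟨_, rfl⟩
  have b0 : 0 < b := by rw [hb]; positivity
  have B0 : 0 < B := by rw [hB]; positivity
  refine ⟨C₁ + 2 * B / b, by positivity, ?_⟩
  have t1 : Tendsto (fun m : ℕ => (m ^ 4) ^ n) atTop atTop :=
    (tendsto_pow_atTop hn.ne').comp (tendsto_pow_atTop four_ne_zero)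
  have t2 : Tendsto (fun m : ℕ => (m : ℝ) ^ (1 / 12 : ℝ)) atTop atTop :=
    (tendsto_rpow_atTop (by norm_num)).comp tendsto_natCast_atTop_atTop
  filter_upwards [t1.eventually h, harperb_log, t2.eventually_ge_atTop 1,
    t2.eventually_ge_atTop (2 * (4 * 2 ^ n * B) / b), eventually_ge_atTop 2] with m h1 hL hw hW hm
  have m2 : (2 : ℝ) ≤ m := by exact_mod_cast hm
  have e9 : (m : ℝ) ^ (3 / 4 : ℝ) = ((m : ℝ) ^ (1 / 12 : ℝ)) ^ 9 := by
    rw [← Real.rpow_natCast, ← Real.rpow_mul (by positivity)]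
    norm_num
  have e12 : ((m : ℝ) ^ (1 / 12 : ℝ)) ^ 12 = m := by
    rw [← Real.rpow_natCast, ← Real.rpow_mul (by positivity)]
    norm_num
  rw [e9]
  generalize (m : ℝ) ^ (1 / 12 : ℝ) = w at hL hw hW e12 ⊢
  have w0 : 0 < w := one_pos.trans_le hw
  have hf : {P : Ideal (𝓞 K) | P.IsMaximal ∧ Ideal.absNorm P ≤ m ∧ ¬ B2 G u P}.Finite :=
    (Ideal.finite_setOfPred_absNorm_le m).subset fun P hP => hP.2.1
  rw [Set.ncard_eq_toFinset_card _ hf, ← card_filter_add_card_filter_not (s := hf.toFinset)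
    fun P => ∃ j : ℕ, 0 < j ∧ (j : ℝ) ≤ w ^ 4 ∧ (u : 𝓞 K) ^ j - 1 ∈ P, Nat.cast_add, add_mul]
  refine add_le_add ((hM (w ^ 4) (one_le_pow₀ hw) _ fun P hP => ?_).trans ?_) ?_
  · obtain ⟨hP, j, j1, j2, j3⟩ := mem_filter.1 hP
    have hP' := (hf.mem_toFinset.1 hP).1
    exact ⟨hP', fun _ => (Ideal.ne_top_iff_one P).1 hP'.ne_top, j, j1, j2, fun _ => by simpa⟩
  · rw [Nat.cast_one, div_one, one_add_one_eq_two, Real.rpow_two, ← pow_mul]
    exact mul_le_mul_of_nonneg_left (pow_le_pow_right₀ hw (by norm_num)) hC₁.le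
  generalize hX : (hf.toFinset.filter fun P =>
    ¬ ∃ j : ℕ, 0 < j ∧ (j : ℝ) ≤ w ^ 4 ∧ (u : 𝓞 K) ^ j - 1 ∈ P) = X
  have hX' : ∀ P ∈ X, (P.IsMaximal ∧ Ideal.absNorm P ≤ m ∧ ¬ B2 G u P) ∧
      ¬ ∃ j : ℕ, 0 < j ∧ (j : ℝ) ≤ w ^ 4 ∧ (u : 𝓞 K) ^ j - 1 ∈ P := fun P hP => by
    rw [← hX, mem_filter] at hP
    exact ⟨hf.mem_toFinset.1 hP.1, hP.2⟩
  obtain ⟨c₀, hc₀⟩ := hA (m ^ 4) (by positivity)
  have hV := variance X
    (fun P => {y | ∀ r, Ideal.Quotient.mk P r = y → ¬ G (Ideal.span {r})})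
    (fun P hP => ⟨(hX' P hP).1.1, (hX' P hP).1.2.1⟩) c₀ _ (filter_subset
      (fun a => G (Ideal.span {el K a + c₀})) (cb (Ix K) (2 * D * m ^ 4)))
    fun a ha P _ hy => hy _ rfl (mem_filter.1 ha).2
  have hμ : ∀ P ∈ X, 1 ≤ ({y | ∀ r, Ideal.Quotient.mk P r = y →
      ¬ G (Ideal.span {r})}.ncard / Ideal.absNorm P : ℝ) * w ^ 8 := fun P hP => by
    obtain ⟨⟨p1, p2, p3⟩, p4⟩ := hX' P hP
    have q1 := harperb_omega p1 p3 hGu (k := ⌊w ^ 4⌋₊) fun j j1 j2 j3 =>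
      p4 ⟨j, j1, (Nat.le_floor_iff (by positivity)).1 j2, j3⟩
    have q2 := (Nat.lt_floor_add_one (w ^ 4)).le.trans
      ((Nat.cast_succ _).ge.trans (Nat.cast_le.2 q1))
    have q3 : (0 : ℝ) < Ideal.absNorm P := by
      simpa only [Nat.cast_pos, NN, prod_singleton] using one_pos.trans_le (one_le_NN (D := {P}) (by simpa using p1))
    have q4 : (Ideal.absNorm P : ℝ) ≤ w ^ 4 * w ^ 8 := by
      rw [← pow_add, e12]
      exact_mod_cast p2
    rw [div_mul_eq_mul_div, one_le_div q3]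
    exact q4.trans (mul_le_mul_of_nonneg_right q2 (by positivity))
  have hμ' := sum_le_sum hμ
  rw [← sum_mul, sum_const, nsmul_one] at hμ'
  have hA' := h1.trans (Nat.cast_le.2 hc₀)
  have μ0 : 0 ≤ ∑ P ∈ X, ({y | ∀ r, Ideal.Quotient.mk P r = y →
      ¬ G (Ideal.span {r})}.ncard / Ideal.absNorm P : ℝ) := sum_nonneg fun _ _ => by positivity
  generalize ∑ P ∈ X, ({y | ∀ r, Ideal.Quotient.mk P r = y →
      ¬ G (Ideal.span {r})}.ncard / Ideal.absNorm P : ℝ) = μ at hV hμ' μ0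
  generalize (#(filter (fun a => G (Ideal.span {el K a + c₀}))
    (cb (Ix K) (2 * D * m ^ 4))) : ℝ) = a at hV hA'
  push_cast at hV hA'
  rw [← hnd] at hV
  have k0 : 0 < ((m : ℝ) ^ 4) ^ n := by positivity
  have L0 : 0 < Real.log m := Real.log_pos (one_lt_two.trans_le m2)
  have D1 : (1 : ℝ) ≤ D := by exact_mod_cast hD
  refine harperb_arith (a := a / (m ^ 4) ^ n) b0 B0.le hw hW μ0 (by positivity) hμ' ?_ ?_
  · rw [le_div_iff₀ k0]
    refine le_trans ?_ hA'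
    rw [Real.log_pow, Real.log_pow, hb, div_div, div_mul_eq_mul_div]
    refine div_le_div_of_nonneg_left (by positivity) (by positivity) ?_
    calc _ = (4 * n) ^ 2 * Real.log m ^ 2 := by push_cast; ring
      _ ≤ _ := by gcongr
  · have r1 : (2 * D * (m : ℝ) ^ 4) ^ n = B * (m ^ 4) ^ n := by rw [hB, mul_pow]
    have r2 : (2 * D * (m : ℝ) ^ 4 + m ^ 2) ^ n ≤ B * (m ^ 4) ^ n * (1 + 1 / m ^ 2) ^ n := by
      rw [← r1, ← mul_pow]
      refine pow_le_pow_left₀ (by positivity) ?_ _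
      rw [show 2 * D * (m : ℝ) ^ 4 * (1 + 1 / m ^ 2) = 2 * D * m ^ 4 + 2 * D * m ^ 2 by
        field_simp]
      exact add_le_add_right (le_mul_of_one_le_left (by positivity) (by linarith only [D1])) _
    have r3 := harperb_pow (ε := 1 / m ^ 2) (by positivity)
      (div_le_one_of_le₀ (one_le_pow₀ (one_le_two.trans m2)) (by positivity)) n
    have r4 : (2 * D * (m : ℝ) ^ 4 + m ^ 2) ^ n - B * (m ^ 4) ^ n ≤
        B * (m ^ 4) ^ n * (2 ^ n * (1 / m ^ 2)) := by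
      have := mul_le_mul_of_nonneg_left r3 (mul_pos B0 k0).le
      linarith only [this, r2]
    rw [r1] at hV
    rw [div_mul_eq_mul_div, div_le_iff₀ k0, show w ^ 24 = (m : ℝ) ^ 2 by rw [← e12]; ring]
    refine hV.trans ((add_le_add_right
      (mul_le_mul_of_nonneg_left r4 (by positivity)) _).trans_eq ?_)
    ring

theorem harper (hG : ∀ J, G J → ∃ α ≠ 0, J = Ideal.span {α}) {u : 𝓞 K}
    (u0 : u ≠ 0) (hu : ∀ d : ℤ, (u : K) ^ d = 1 → d = 0)
    (hGu : ∀ r, G (Ideal.span {r}) → G (Ideal.span {u * r})) {c : ℝ} (hc : 0 < c)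
    (h : ∀ᶠ x : ℕ in atTop, c * x / Real.log x ^ 2 ≤
      {P : Ideal (𝓞 K) | Ideal.absNorm P ≤ x ∧ G P}.ncard) :
    ∃ C : ℝ, ∀ x : ℝ, 1 ≤ x →
      ({P : Ideal (𝓞 K) | P.IsMaximal ∧ (Ideal.absNorm P : ℝ) ≤ x ∧ ¬ B2 G u P}.ncard : ℝ) ≤
        C * x ^ (3 / 4 : ℝ) := by
  obtain ⟨C, hC, hm⟩ := harperb_main hG u0 hu hGu hc h
  obtain ⟨m₀, hm⟩ := eventually_atTop.1 hm
  have hf : ∀ m : ℕ, {P : Ideal (𝓞 K) | P.IsMaximal ∧ Ideal.absNorm P ≤ m ∧ ¬ B2 G u P}.Finite :=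
    fun m => (Ideal.finite_setOfPred_absNorm_le m).subset fun P hP => hP.2.1
  refine ⟨C + {P : Ideal (𝓞 K) | P.IsMaximal ∧ Ideal.absNorm P ≤ m₀ ∧ ¬ B2 G u P}.ncard,
    fun x hx => ?_⟩
  have x0 : 0 ≤ x := by linarith
  have x1 : 1 ≤ x ^ (3 / 4 : ℝ) := Real.one_le_rpow hx (by norm_num)
  simp only [← Nat.le_floor_iff x0]
  rw [add_mul]
  rcases le_total m₀ ⌊x⌋₊ with h1 | h1
  · refine le_add_of_le_of_nonneg ((hm _ h1).trans ?_) (by positivity)
    gcongr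
    exact Nat.floor_le x0
  · refine le_add_of_nonneg_of_le (by positivity) (le_trans ?_
      (le_mul_of_one_le_right (by positivity) x1))
    exact Nat.cast_le.2 (Set.ncard_le_ncard (fun P hP => ⟨hP.1, hP.2.1.trans h1, hP.2.2⟩) (hf m₀))

end Pool.Agent.MP_48b1c3_nt.H48

end

-- part MP_48b1c3_nt.H91.Lev
section

/-! The levels of Motzkin and Graves for an ideal class. -/

namespace Pool.Agent.MP_48b1c3_nt.H91

open Finset NumberField H48 Filter
open scoped Classical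

variable {K : Type} [Field K] [NumberField K] {R : Type} [CommRing R] [IsDedekindDomain R]

/-- every nonzero class of `A` modulo `A B` contains a generator of `A E` with `E` in `F` -/
def Red (A B : Ideal R) (F : Ideal R → Prop) : Prop :=
  ∀ a ∈ A, a ∉ A * B → ∃ (r : R) (E : Ideal R), r - a ∈ A * B ∧ Ideal.span {r} = A * E ∧ F E

theorem mem_cancel {u x : R} (hu : u ≠ 0) {I : Ideal R}
    (h : u * x ∈ Ideal.span {u} * I) : x ∈ I := by
  obtain ⟨z, hz, e⟩ := Ideal.mem_span_singleton_mul.1 h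
  rwa [← mul_left_cancel₀ hu e]

theorem Red.transfer {A A₀ B : Ideal R} {F : Ideal R → Prop} (hA : A ≠ ⊥)
    (hA₀ : A₀ ≠ ⊥) (h : cl A = cl A₀) (hR : Red A₀ B F) : Red A B F := by
  obtain ⟨u, v, u0, v0, e⟩ := cl_eq hA hA₀ h
  intro a ha hn
  have key : ∀ {x z : R}, v * z = u * x → z ∈ A₀ * B → x ∈ A * B := fun {x z} g1 g2 =>
    mem_cancel u0 (by
      rw [← g1, ← mul_assoc, e, mul_assoc]
      exact Ideal.mul_mem_mul (Ideal.mem_span_singleton_self v) g2)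
  obtain ⟨a₀, h1, h2⟩ := Ideal.mem_span_singleton_mul.1
    (e ▸ Ideal.mul_mem_mul (Ideal.mem_span_singleton_self u) ha)
  obtain ⟨r₀, E, h3, h4, h5⟩ := hR a₀ h1 fun g => hn (key h2 g)
  obtain ⟨r, -, h7⟩ := Ideal.mem_span_singleton_mul.1 (e ▸ Ideal.mul_mem_mul
    (Ideal.mem_span_singleton_self v) (gmem h4))
  refine ⟨r, E, key (by linear_combination -h7 - h2) h3,
    mul_left_cancel₀ (mt Ideal.span_singleton_eq_bot.1 u0) ?_, h5⟩
  rw [Ideal.span_singleton_mul_span_singleton, h7, ← Ideal.span_singleton_mul_span_singleton, h4,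
    ← mul_assoc, ← mul_assoc, e]

/-- the levels -/
def Lv (c : ClassGroup R) : ℕ → Ideal R → Prop
  | 0, E => E = ⊤
  | j + 1, P => (P.IsMaximal ∧ P ≠ ⊥) ∧ ∀ A ≠ ⊥, cl A * cl P = c → Red A P (Lv c j)

theorem fin_le (x : ℝ) : {P : Ideal (𝓞 K) | (Ideal.absNorm P : ℝ) ≤ x}.Finite :=
  (finite_norm_le ⌊x⌋₊).subset fun _ h => Nat.le_floor h

theorem exists_shift {A B D : Ideal (𝓞 K)} (a0 : A ≠ ⊥) (b0 : B ≠ ⊥) {a : 𝓞 K}
    (ha : Ideal.span {a} = A * D) (hD : D ⊔ B = ⊤) {M : ℕ} (hM : 0 < M) :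
    ∃ (a' : 𝓞 K) (E : Ideal (𝓞 K)), a' - a ∈ A * B ∧ Ideal.span {a'} = A * E ∧ Cop M E := by
  have m0 : Ideal.span {(M : 𝓞 K)} ≠ 0 :=
    mt Ideal.span_singleton_eq_bot.1 (Nat.cast_ne_zero.2 hM.ne')
  set S := (UniqueFactorizationMonoid.normalizedFactors (Ideal.span {(M : 𝓞 K)})).filter
    fun P => ¬ P ∣ D with hS
  have hp : ∀ Q ∈ S, Prime Q := fun Q hQ =>
    UniqueFactorizationMonoid.prime_of_normalized_factor Q (Multiset.mem_filter.1 hQ).1
  obtain ⟨t, d, -, c1, e1⟩ := exists_cop hM (b := A * (B * S.prod)) (mul_ne_zero a0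
    (mul_ne_zero b0 (Multiset.prod_ne_zero fun h => (hp 0 h).ne_zero rfl)))
  have m1 : t ∈ A * B := by
    rw [← Ideal.dvd_span_singleton, e1, ← mul_assoc A]
    exact (dvd_mul_right _ _).mul_right _
  obtain ⟨E, e2⟩ := dec_ex (b := A) (α := a + t)
    (A.add_mem (dec_mem ((mul_comm _ _).trans ha.symm)) (Ideal.mul_le_left m1))
  refine ⟨a + t, E, by simpa using m1, by rw [← e2, mul_comm], ?_⟩
  by_contra hn
  obtain ⟨P, p1, p2⟩ := Ideal.exists_le_maximal _ hn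
  have p3 : Prime P := Ideal.prime_of_isPrime
    (Ring.ne_bot_of_isMaximal_of_not_isField p1 (RingOfIntegers.not_isField K)) p1.isPrime
  have p4 : P ∣ Ideal.span {(M : 𝓞 K)} := Ideal.dvd_iff_le.2 (le_sup_right.trans p2)
  have p5 : a + t ∈ A * P := by
    rw [← Ideal.dvd_span_singleton, ← e2, mul_comm E]
    exact mul_dvd_mul_left A (Ideal.dvd_iff_le.2 (le_sup_left.trans p2))
  have p6 : a ∈ A * P ↔ P ∣ D := by
    rw [← Ideal.dvd_span_singleton, ha, mul_dvd_mul_iff_left a0]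
  have p7 : t ∈ A * P ↔ P ∣ B * S.prod * d := by
    rw [← Ideal.dvd_span_singleton, e1, mul_assoc, mul_dvd_mul_iff_left a0]
  by_cases p8 : P ∣ D
  · have p9 := p7.1 ((Ideal.add_mem_iff_right _ (p6.2 p8)).1 p5)
    rcases p3.dvd_or_dvd p9 with g | g
    · rcases p3.dvd_or_dvd g with g | g
      · exact p1.ne_top (top_le_iff.1 (hD ▸ sup_le (Ideal.le_of_dvd p8) (Ideal.le_of_dvd g)))
      · obtain ⟨Q, q1, q2⟩ := p3.exists_mem_multiset_dvd g
        exact (Multiset.mem_filter.1 q1).2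
          ((p3.associated_of_dvd (hp Q q1) q2).symm.dvd.trans p8)
    · exact p1.ne_top (top_le_iff.1 ((show d ⊔ _ = ⊤ from c1) ▸
        sup_le (Ideal.le_of_dvd g) (Ideal.le_of_dvd p4)))
  · refine p8 (p6.1 ((Ideal.add_mem_iff_left _ (p7.2 ?_)).1 p5))
    exact ((Multiset.dvd_prod (Multiset.mem_filter.2 ⟨(Ideal.mem_normalizedFactors_iff m0).2
      ⟨p1.isPrime, Ideal.le_of_dvd p4⟩, p8⟩)).mul_left _).mul_right _

variable [Algebra (𝓞 K) R] (s : 𝓞 K)

/-- primes of `𝓞 K` outside `S` of level `j` -/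
def Lw (c : ClassGroup R) (j : ℕ) (P : Ideal (𝓞 K)) : Prop :=
  P.IsMaximal ∧ s ∉ P ∧ Lv c j (ex R P)

/-- many primes of level `j` -/
def Dense (c : ClassGroup R) (j : ℕ) : Prop :=
  ∃ b : ℝ, 0 < b ∧ ∀ᶠ x : ℕ in atTop, b * x / Real.log x ^ 2 ≤
    {E : Ideal (𝓞 K) | Ideal.absNorm E ≤ x ∧ cl (ex R E) = c ^ j ∧ Lw s c j E}.ncard

/-- few primes of the right class miss the level `j` -/
def Almost (c : ClassGroup R) (j : ℕ) : Prop :=
  ∃ C : ℝ, ∀ x : ℝ, 1 ≤ x → ({P : Ideal (𝓞 K) | P.IsMaximal ∧ (Ideal.absNorm P : ℝ) ≤ x ∧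
    cl (ex R P) = c ^ j ∧ ¬ Lw s c j P}.ncard : ℝ) ≤ C * x ^ (3 / 4 : ℝ)

variable {s} [IsLocalization.Away s R]

theorem exists_u (hr : 0 < Units.rank K + {P : Ideal (𝓞 K) | P.IsMaximal ∧ s ∈ P}.ncard) :
    ∃ u : 𝓞 K, IsUnit (algebraMap (𝓞 K) R u) ∧ ∀ d : ℤ, (u : K) ^ d = 1 → d = 0 := by
  rcases Nat.add_pos_iff_pos_or_pos.1 hr with h | h
  · obtain ⟨u, hu⟩ := harperb_unit h
    exact ⟨u, u.isUnit.map _, hu⟩
  · obtain ⟨P, p1, p2⟩ := Set.nonempty_of_ncard_ne_zero h.ne'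
    refine ⟨s, IsLocalization.Away.algebraMap_isUnit s, fun d hd => by_contra fun d0 => ?_⟩
    have e : s ^ d.natAbs = 1 := RingOfIntegers.coe_injective (by
      rw [map_pow, map_one, ← zpow_natCast]
      rcases Int.natAbs_eq d with g | g
      · exact g ▸ hd
      · rw [g, zpow_neg, inv_eq_one] at hd
        exact hd)
    exact p1.isPrime.one_notMem (e ▸ P.pow_mem_of_mem p2 _ (Int.natAbs_pos.2 d0))

theorem Dense.almost (hr : 0 < Units.rank K + {P : Ideal (𝓞 K) | P.IsMaximal ∧ s ∈ P}.ncard)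
    {c : ClassGroup R} {j : ℕ} (h : Dense s c j) : Almost s c (j + 1) := by
  obtain ⟨u, u1, u2⟩ := exists_u (R := R) hr
  have u0 : u ≠ 0 := fun h => u1.ne_zero (by rw [h, map_zero])
  obtain ⟨b, b0, h⟩ := h
  obtain ⟨A, a0, hA⟩ := exists_ex s (c ^ j)⁻¹
  obtain ⟨N, hN⟩ := exists_bdd (R := R) s
  have m0 : ∀ {P : Ideal (𝓞 K)}, P.IsMaximal → P ≠ ⊥ := fun h =>
    Ring.ne_bot_of_isMaximal_of_not_isField h (RingOfIntegers.not_isField K)
  have hD : ∀ E : Ideal (𝓞 K), ∃ D : Ideal (𝓞 K), cl (ex R E) = c ^ j ∧ Lw s c j E →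
      D ≠ ⊥ ∧ ex R D = ⊤ ∧ Ideal.absNorm D ≤ N ∧ cl (A * E * D) = 1 := fun E => by
    by_cases g : cl (ex R E) = c ^ j ∧ Lw s c j E
    · exact (hN _ (mul_ne_zero a0 (m0 g.2.1)) (by
        rw [ex, Ideal.map_mul, cl_mul (ex_ne s a0) (ex_ne s (m0 g.2.1)), hA, g.1,
          inv_mul_cancel])).imp fun _ h _ => h
    · exact ⟨⊤, fun h => (g h).elim⟩
  choose D hD using hD
  have e0 : ∀ E {D}, ex R D = ⊤ → ex R (A * E * D) = ex R A * ex R E := fun E D g => by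
    rw [ex, Ideal.map_mul, Ideal.map_mul, show Ideal.map _ _ = ⊤ from g, Ideal.mul_top]
  obtain ⟨n, hn⟩ : ∃ n, n = Ideal.absNorm A * (N + 1) := ⟨_, rfl⟩
  have n0 : 0 < n := hn ▸ mul_pos
    (Nat.pos_of_ne_zero fun h => a0 (Ideal.absNorm_eq_zero_iff.1 h)) N.succ_pos
  have n1 : (0 : ℝ) < n := by exact_mod_cast n0
  obtain ⟨C, hC⟩ := harper
    (G := fun J => (∃ α ≠ 0, J = Ideal.span {α}) ∧ ∃ E D, Lw s c j E ∧ ex R D = ⊤ ∧ A * E * D = J)
    (fun _ h => h.1) u0 u2 (by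
      rintro r ⟨⟨α, h1, h2⟩, E, D, h3, h4, h5⟩
      rw [← Ideal.span_singleton_mul_span_singleton]
      refine ⟨⟨_, mul_ne_zero u0 h1, by rw [h2, Ideal.span_singleton_mul_span_singleton]⟩, E,
        D * Ideal.span {u}, h3, ?_, by rw [← h5]; ring⟩
      rw [ex, Ideal.map_mul, show Ideal.map _ _ = ⊤ from h4, Ideal.top_mul]
      exact (ex_span u).trans (Ideal.span_singleton_eq_top.2 u1))
    (c := b / (2 * n)) (by positivity) (by
      have t := Nat.tendsto_div_const_atTop n0.ne'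
      filter_upwards [t.eventually h, t.eventually_ge_atTop 2] with x h1 h2
      have y2 : (2 : ℝ) ≤ (x / n : ℕ) := by exact_mod_cast h2
      have y3 : ((x / n : ℕ) : ℝ) ≤ x := Nat.cast_le.2 (Nat.div_le_self _ _)
      have y4 : (x : ℝ) < n * ((x / n : ℕ) + 1) := by
        exact_mod_cast Nat.lt_mul_div_succ x n0
      refine le_trans ?_ (h1.trans (Nat.cast_le.2 (Set.ncard_le_ncard_of_injOn
        (fun E => A * E * D E) (fun E g => ⟨?_, cl_one (mul_ne_zero (mul_ne_zero a0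
          (m0 g.2.2.1)) (hD E g.2).1) (hD E g.2).2.2.2, E, _, g.2.2, (hD E g.2).2.1, rfl⟩)
        (fun E g E' g' e => ?_)
        ((finite_norm_le x).subset fun P hP => hP.1))))
      · have := Real.log_pos (one_lt_two.trans_le y2)
        rw [div_mul_eq_mul_div, mul_div_assoc]
        gcongr
        rw [div_le_iff₀ (by positivity)]
        nlinarith only [y2, y4]
      · refine le_trans ?_ ((Nat.le_div_iff_mul_le n0).1 g.1)
        rw [map_mul, map_mul, hn, mul_comm (Ideal.absNorm A), mul_assoc]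
        gcongr
        exact (hD E g.2).2.2.1.trans N.le_succ
      · have e1 := congrArg (ex R) e
        simp only [e0 E (hD E g.2).2.1, e0 E' (hD E' g'.2).2.1] at e1
        ext y
        rw [← mem_ex_max (R := R) s g.2.2.1 g.2.2.2.1, mul_left_cancel₀ (ex_ne s a0) e1,
          mem_ex_max s g'.2.2.1 g'.2.2.2.1])
  have a1 : A * Ideal.span {s} ≠ ⊥ :=
    mul_ne_zero a0 (mt Ideal.span_singleton_eq_bot.1 (s_ne (R := R) s))
  refine ⟨C + {P : Ideal (𝓞 K) | Ideal.absNorm P ≤ Ideal.absNorm (A * Ideal.span {s})}.ncard,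
    fun x hx => ?_⟩
  rw [add_mul]
  refine le_trans ?_ (add_le_add (hC x hx) (le_mul_of_one_le_right (Nat.cast_nonneg _)
    (Real.one_le_rpow hx (by norm_num))))
  rw [← Nat.cast_add, Nat.cast_le]
  refine le_trans (Set.ncard_le_ncard (fun P ⟨p1, p2, p3, p4⟩ => ?_)
    (((fin_le x).subset fun P hP => hP.2.1).union (finite_norm_le _))) (Set.ncard_union_le _ _)
  by_cases p5 : A * Ideal.span {s} ≤ P
  · exact Or.inr (Nat.le_of_dvd (Nat.pos_of_ne_zero fun h => a1 (Ideal.absNorm_eq_zero_iff.1 h))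
      (Ideal.absNorm_dvd_absNorm_of_le p5))
  rw [p1.isPrime.mul_le, not_or, Ideal.span_singleton_le_iff_mem] at p5
  have p7 := ex_max (R := R) s p1 p5.2
  have p0 := ex_ne (R := R) s (m0 p1)
  refine Or.inl ⟨p1, p2, fun p6 => p4 ⟨p1, p5.2, ⟨p7, p0⟩, fun A' a1 a2 =>
    Red.transfer a1 (ex_ne s a0) ?_ fun a a3 a4 => ?_⟩⟩
  · rw [hA, eq_inv_iff_mul_eq_one]
    rw [p3, pow_succ, ← mul_assoc] at a2
    exact mul_eq_right.1 a2
  · have e : ex R A * ex R P = ex R A ⊓ ex R P := Ideal.mul_eq_inf_of_isCoprime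
      (IsCoprime.map (Ideal.isCoprime_iff_sup_eq.2 (by
        rw [sup_comm]; exact p1.out.2 _ (left_lt_sup.2 p5.1))) (Ideal.mapHom _))
    rw [e] at a4 ⊢
    obtain ⟨a₀, h0⟩ := approx s p0 a
    obtain ⟨r, r1, -, E, D, r2, r5, r3⟩ := p6 (fun g => p7.ne_top (Ideal.eq_top_of_isUnit_mem _
      (Ideal.mem_map_of_mem _ g) u1)) a₀ fun g => a4
        ⟨a3, by simpa using (ex R P).sub_mem (Ideal.mem_map_of_mem _ g) h0⟩
    have r4 := (ex_span r).symm.trans (r3 ▸ e0 E r5)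
    refine ⟨_, _, ⟨(ex R A).sub_mem (gmem r4) a3, ?_⟩, r4, r2.2.2⟩
    simpa using (ex R P).add_mem (Ideal.mem_map_of_mem _ r1) h0

theorem Almost.many {c : ClassGroup R} {j : ℕ} (h : Almost s c j) {M : ℕ} {J : Ideal (𝓞 K)}
    (j0 : J ≠ ⊥) (hJ : cl (ex R J) = c ^ j) {α b : ℝ} (b0 : 0 < b) (hb : ∀ᶠ x : ℝ in atTop,
      b * x / Real.log x ^ 2 ≤ Set.ncard {p : ℕ | p.Prime ∧ (p : ℝ) ≤ x ∧
        (∃ I : Ideal (𝓞 K), Ideal.absNorm I = p ∧ Ray M I J) ∧
          ∀ l : ℕ, l.Prime → l ∣ p - 1 → l ∣ M ∨ x ^ α < l}) :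
    ∀ᶠ x : ℕ in atTop, b / 2 * x / Real.log x ^ 2 ≤
      {E : Ideal (𝓞 K) | Ideal.absNorm E ≤ x ∧ Ray M E J ∧ Lw s c j E}.ncard := by
  obtain ⟨C, hC⟩ := h
  filter_upwards [tendsto_natCast_atTop_atTop.eventually (hb.and ((small_ev (C := C) (β := 3 / 4)
    (half_pos b0) (by norm_num)).and (eventually_ge_atTop 1)))] with x ⟨h1, h2, h3⟩
  have f1 := (finite_norm_le (K := K) x).subset (t := {E | Ideal.absNorm E ≤ x ∧ Ray M E J ∧
    Lw s c j E}) fun P hP => hP.1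
  have f2 := (fin_le (K := K) x).subset (t := {P | P.IsMaximal ∧ (Ideal.absNorm P : ℝ) ≤ x ∧
    cl (ex R P) = c ^ j ∧ ¬ Lw s c j P}) fun P hP => hP.2.1
  have h4 := h1.trans (Nat.cast_le.2 (((Set.ncard_le_ncard ?_ ((f1.union f2).image
    Ideal.absNorm)).trans (Set.ncard_image_le (f1.union f2))).trans (Set.ncard_union_le _ _)))
  · have h5 := (hC x h3).trans h2
    rw [Nat.cast_add] at h4
    have : b * x / Real.log x ^ 2 = b / 2 * x / Real.log x ^ 2 + b / 2 * x / Real.log x ^ 2 := by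
      ring
    linarith only [h4, h5, this]
  · rintro _ ⟨p1, p2, ⟨I, rfl, p3⟩, -⟩
    refine ⟨I, ?_, rfl⟩
    by_cases p4 : Lw s c j I
    · exact Or.inl ⟨by exact_mod_cast p2, p3, p4⟩
    · exact Or.inr ⟨(Ideal.isPrime_of_irreducible_absNorm p1).isMaximal (p3.ne_bot j0), p2,
        (cl_ex s (p3.ne_bot j0) j0 (p3.cl j0)).trans hJ, p4⟩

theorem almost_all {β : ℝ} (hC : CoreR K β)
    (hr : 0 < Units.rank K + {P : Ideal (𝓞 K) | P.IsMaximal ∧ s ∈ P}.ncard) {c : ClassGroup R}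
    (h : Dense s c 1) (j : ℕ) : Almost s c (j + 2) := by
  induction j with
  | zero => exact h.almost hr
  | succ j ih =>
    obtain ⟨w, hw⟩ := hC
    obtain ⟨I, i0, i1⟩ := exists_ex s (c ^ (j + 2))
    obtain ⟨J, c1, r1⟩ := exists_ray w.factorial_pos i0
    have j0 := r1.ne_bot i0
    have j1 := (cl_ex s j0 i0 (r1.cl i0)).trans i1
    obtain ⟨α, b, -, b0, hb⟩ := hw _ J w.factorial_pos
      (fun l hl h => Nat.dvd_factorial hl.pos h) j0 c1
    exact Dense.almost hr ⟨_, half_pos b0, (ih.many j0 j1 b0 hb).mono fun x hx => hx.trans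
      (Nat.cast_le.2 (Set.ncard_le_ncard (fun E g => ⟨g.1,
        (cl_ex s (g.2.1.ne_bot j0) j0 (g.2.1.cl j0)).trans j1, g.2.2⟩)
        ((finite_norm_le x).subset fun P hP => hP.1)))⟩

theorem good_int {β : ℝ} (hC : CoreR K β) {c : ClassGroup R} (h : ∀ j, Almost s c (j + 2))
    (hc : ∀ I ≠ ⊥, ∃ j : ℕ, cl I = c ^ j) {A B D : Ideal (𝓞 K)} (a0 : A ≠ ⊥) (b0 : B ≠ ⊥)
    {a : 𝓞 K} (ha : Ideal.span {a} = A * D) (hD : D ⊔ B = ⊤) :
    ∃ (r : 𝓞 K) (E : Ideal (𝓞 K)), r - a ∈ A * B ∧ Ideal.span {r} = A * E ∧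
      ∃ j < orderOf c, Lw s c (j + 2) E := by
  have := cls_finite (R := R) s
  obtain ⟨w, hw⟩ := hC
  have n0 : 0 < Ideal.absNorm B := Nat.pos_of_ne_zero fun h => b0 (Ideal.absNorm_eq_zero_iff.1 h)
  have m0 := mul_pos n0 (w + 2).factorial_pos
  obtain ⟨a', E, e1, e2, e3⟩ := exists_shift a0 b0 ha hD m0
  have e0 : E ≠ ⊥ := by
    rintro rfl
    have h1 := cop_iff.1 e3
    rw [Ideal.absNorm_bot, Nat.coprime_zero_left] at h1
    have := h1 ▸ (Nat.dvd_factorial two_pos (Nat.le_add_left 2 w)).mul_left (Ideal.absNorm B)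
    omega
  obtain ⟨α, b, -, b1, hb⟩ := hw _ E m0
    (fun l hl h => (Nat.dvd_factorial hl.pos (by omega)).mul_left _) e0 e3
  obtain ⟨i, hi⟩ := hc _ (ex_ne s e0)
  have o0 := orderOf_pos c
  have hj : cl (ex R E) = c ^ ((i + 2 * orderOf c - 2) % orderOf c + 2) := by
    rw [pow_add, pow_mod_orderOf, ← pow_add, Nat.sub_add_cancel (by omega), pow_add, pow_mul',
      pow_orderOf_eq_one, one_pow, mul_one, hi]
  obtain ⟨x, x1, x2⟩ := (((h _).many e0 hj b1 hb).and (eventually_ge_atTop 2)).exists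
  have x3 : (2 : ℝ) ≤ x := by exact_mod_cast x2
  have := Real.log_pos (one_lt_two.trans_le x3)
  obtain ⟨U, -, ⟨γ, δ, r1, ⟨s, r2⟩, r3, r4⟩, r5⟩ := Set.nonempty_of_ncard_ne_zero
    (Nat.cast_pos.1 (lt_of_lt_of_le (by positivity) x1)).ne'
  have e4 : Ideal.span {γ * a'} = Ideal.span {δ} * (A * U) := by
    rw [← Ideal.span_singleton_mul_span_singleton, e2, mul_left_comm, r4, mul_left_comm]
  obtain ⟨r, hr⟩ : δ ∣ γ * a' := Ideal.span_singleton_le_span_singleton.1 (e4 ▸ Ideal.mul_le_left)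
  have e5 : Ideal.span {r} = A * U := mul_left_cancel₀
    (mt Ideal.span_singleton_eq_bot.1 (ne_of_nm r3).2)
    (by rw [← e4, hr, Ideal.span_singleton_mul_span_singleton])
  refine ⟨r, U, ?_, e5, _, Nat.mod_lt _ o0, r5⟩
  obtain ⟨u, v, huv⟩ := cop_span.1 r1
  have m1 : a' ∈ A := dec_mem ((mul_comm _ _).trans e2.symm)
  have m2 : r ∈ A := dec_mem ((mul_comm _ _).trans e5.symm)
  rw [show r - a = (u * s * a' + v * (r - a')) * (Ideal.absNorm B * (w + 2).factorial : ℕ) +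
    (a' - a) by linear_combination (a' - r) * huv - u * hr + u * a' * r2]
  refine add_mem (Ideal.mul_mem_mul (A.add_mem (A.mul_mem_left _ m1)
    (A.mul_mem_left _ (A.sub_mem m2 m1))) ?_) e1
  rw [Nat.cast_mul]
  exact B.mul_mem_right _ (Ideal.absNorm_mem B)

theorem exists_good {β : ℝ} (hC : CoreR K β) {c : ClassGroup R} (h : ∀ j, Almost s c (j + 2))
    (hc : ∀ I ≠ ⊥, ∃ j : ℕ, cl I = c ^ j) {A B D : Ideal R} (a0 : A ≠ ⊥) (b0 : B ≠ ⊥)
    {a : R} (ha : Ideal.span {a} = A * D) (hD : D ⊔ B = ⊤) :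
    ∃ (r : R) (E : Ideal R), r - a ∈ A * B ∧ Ideal.span {r} = A * E ∧
      ∃ j < orderOf c, Lv c (j + 2) E := by
  obtain ⟨a₀, h0⟩ := approx s (mul_ne_zero a0 b0) a
  have h1 : a₀ ∈ A.comap (algebraMap (𝓞 K) R) := by
    simpa using A.add_mem (Ideal.mul_le_left h0) (gmem ha)
  obtain ⟨D₀, h2⟩ := gex h1
  have n : ∀ {B : Ideal R}, B ≠ ⊥ → B.comap (algebraMap (𝓞 K) R) ≠ ⊥ := fun {B} hB h =>
    hB (by rw [← ex_comap s B, h, ex, Ideal.map_bot])
  have m : ∀ {x : 𝓞 K} {E}, Ideal.span {x} = A.comap (algebraMap (𝓞 K) R) * E →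
      Ideal.span {algebraMap (𝓞 K) R x} = A * ex R E := fun h => by
    rw [← ex_span, h, ex, Ideal.map_mul, show Ideal.map _ _ = A from ex_comap s A]
  have h3 : ex R (D₀ ⊔ B.comap (algebraMap (𝓞 K) R)) = ⊤ := by
    rw [ex, Ideal.map_sup, show Ideal.map _ _ = B from ex_comap s B]
    refine mul_left_cancel₀ a0 (le_antisymm (Ideal.mul_mono_right le_top) ?_)
    rw [← hD, Ideal.mul_sup, Ideal.mul_sup, ← ha, ← m h2]
    refine sup_le ((Ideal.span_singleton_le_iff_mem _).2 ?_) le_sup_right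
    simpa only [sub_sub_cancel] using sub_mem (Ideal.mem_sup_left (Ideal.mem_span_singleton_self (algebraMap _ R a₀)))
      (Ideal.mem_sup_right h0)
  obtain ⟨k, hk⟩ := (mem_ex s (x := 1)).1 (h3 ▸ Submodule.mem_top)
  obtain ⟨u, hu⟩ := comap_cop s b0 k
  obtain ⟨r, E, r1, r2, j, r3, r4⟩ := good_int hC h hc (n a0) (n b0) h2
    ((Ideal.eq_top_iff_one _).2 (by
      simpa only [mul_one, sub_sub_cancel] using sub_mem (Ideal.mul_mem_right u _ hk) (Ideal.mem_sup_right hu)))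
  refine ⟨_, _, ?_, m r2, j, r3, r4.2.2⟩
  have r5 := Ideal.mem_map_of_mem (algebraMap (𝓞 K) R) r1
  rw [Ideal.map_mul, show Ideal.map _ _ = A from ex_comap s A,
    show Ideal.map _ _ = B from ex_comap s B] at r5
  simpa only [map_sub, sub_add_sub_cancel] using add_mem r5 h0

end Pool.Agent.MP_48b1c3_nt.H91

end
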