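import Pool.Agent.MP_48b1c3_nt.Mg.H91_Lev
import Pool.Agent.MP_48b1c3_nt.H91.EDefs

attribute [-instance] instNontrivialOfCharZero DistribMulActionSemiHomClass.toAddMonoidHomClass
  littleWedderburn NormMulClass.toNoZeroDivisors MonTypeEquivalenceMon.monMonoid
  IsDomain.of_isSimpleRing AlgHom.instNonUnitalAlgHomClassOfAlgHomClass instCoeTCOfCoe
  IsLocalRing.toNontrivial instCharZeroOfIsSemireal DivisionRing.toRing instIsFractionRing
  GrpTypeEquivalenceGrp.grpGroup SemilinearMapClass.toAddHomClass instZeroLEOneClass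
  IsStrictOrderedRing.noZeroDivisors NeZero.charZero_one Field.isDomain IsStrictOrderedRing.isDomain
  IsFractionRing.charZero instNonUnitalAlgHomClassOfNonUnitalAlgEquivClass
  AddSubmonoidWithOneClass.toOneMemClass NormedAlgebra.toAlgebra LieAdmissibleAlgebra.toIsScalarTower
  Fintype.decidableForallFintype DivisionRing.isDomain NormedField.toField
  CompletePartialOrder.toPartialOrder KleeneAlgebra.toIdemSemiring

-- part MP_48b1c3_nt.H91.Euc
section

/-! Euclidean ideal classes. -/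

namespace Pool.Agent.MP_48b1c3_nt.H91

open Finset NumberField H48 Filter UniqueFactorizationMonoid
open scoped Classical nonZeroDivisors

variable {K : Type} [Field K] [NumberField K] {R : Type} [CommRing R] [IsDedekindDomain R]

/-- the level of a prime -/
noncomputable def lev (c : ClassGroup R) (P : Ideal R) : ℕ :=
  sInf {j | Lv c j P ∨ j = orderOf c + 2}

/-- the Euclidean function -/
noncomputable def phi (c : ClassGroup R) (B : Ideal R) : ℕ :=
  ((normalizedFactors B).map fun P => orderOf c + 2 + lev c P).sum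

theorem phi_mul (c : ClassGroup R) {A B : Ideal R} (hA : A ≠ ⊥) (hB : B ≠ ⊥) :
    phi c (A * B) = phi c A + phi c B := by
  rw [phi, normalizedFactors_mul hA hB, Multiset.map_add, Multiset.sum_add]
  rfl

theorem phi_max (c : ClassGroup R) {P : Ideal R} (hP : P.IsMaximal) (h0 : P ≠ ⊥) :
    phi c P = orderOf c + 2 + lev c P := by
  rw [phi, normalizedFactors_irreducible (Ideal.prime_of_isPrime h0 hP.isPrime).irreducible,
    normalize_eq]
  simp

theorem phi_ge (c : ClassGroup R) {B : Ideal R} (h0 : B ≠ ⊥) (h1 : B ≠ ⊤) :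
    orderOf c + 2 ≤ phi c B := by
  obtain ⟨P, p1, p2⟩ := Ideal.exists_le_maximal _ h1
  obtain ⟨D, rfl⟩ := Ideal.dvd_iff_le.2 p2
  rw [phi_mul c (left_ne_zero_of_mul h0) (right_ne_zero_of_mul h0), phi_max c p1 (left_ne_zero_of_mul h0)]
  omega

theorem Lv.phi_le {c : ClassGroup R} {j : ℕ} {E : Ideal R} (h : Lv c j E) :
    phi c E ≤ orderOf c + 2 + j := by
  cases j with
  | zero =>
    rw [show E = ⊤ from h, phi, ← Ideal.one_eq_top, normalizedFactors_one]
    simp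
  | succ j =>
    rw [phi_max c h.1.1 h.1.2]
    exact Nat.add_le_add_left (Nat.sInf_le (Or.inl h)) _

/-- if the unit ideal is Euclidean then the ring is Euclidean -/
theorem EuclideanIdeal.ring (h : EuclideanIdeal (1 : FractionalIdeal R⁰ (FractionRing R))) :
    ∃ φ : R → ℕ, ∀ a b : R, b ≠ 0 → ∃ q r : R, a = b * q + r ∧ (r = 0 ∨ φ r < φ b) := by
  obtain ⟨ψ, h⟩ := h
  refine ⟨fun b => ψ (FractionalIdeal.spanSingleton R⁰ (algebraMap R (FractionRing R) b))⁻¹, fun a b hb => ?_⟩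
  have b0 : algebraMap R (FractionRing R) b ≠ 0 := (map_ne_zero_iff _ (IsFractionRing.injective R _)).2 hb
  by_cases hd : b ∣ a
  · exact hd.imp fun q hq => ⟨0, by rw [hq, add_zero], .inl rfl⟩
  have m : ∀ z : R, algebraMap R _ z / algebraMap R _ b ∈ (FractionalIdeal.spanSingleton R⁰ (algebraMap R (FractionRing R) b))⁻¹ := fun z => by
    rw [FractionalIdeal.spanSingleton_inv, FractionalIdeal.mem_spanSingleton]
    exact ⟨z, by rw [div_eq_mul_inv, Algebra.smul_def]⟩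
  obtain ⟨_, hy, g⟩ := h (FractionalIdeal.spanSingleton R⁰ (algebraMap R (FractionRing R) b))⁻¹ (by
    rw [FractionalIdeal.one_le, ← div_self b0]
    exact m b) (algebraMap R _ a / algebraMap R _ b) (by rw [mul_one]; exact m a) fun g => by
      obtain ⟨q, hq⟩ := (FractionalIdeal.mem_one_iff _).1 g
      exact hd ⟨q, IsFractionRing.injective R (FractionRing R) (by rw [map_mul, hq]; exact (mul_div_cancel₀ _ b0).symm)⟩
  obtain ⟨y, rfl⟩ := (FractionalIdeal.mem_one_iff _).1 hy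
  refine ⟨-y, a + b * y, by ring, .inr ?_⟩
  rw [mul_one, ← mul_inv, FractionalIdeal.spanSingleton_mul_spanSingleton, add_mul,
    div_mul_cancel₀ _ b0, mul_comm] at g
  simpa using g

variable [Algebra (𝓞 K) R] {s : 𝓞 K} [IsLocalization.Away s R]

theorem dense_one {β : ℝ} (hC : CoreR K β) {r : ℕ} (h0 : 0 < r)
    (hr : r ≤ Units.rank K + {P : Ideal (𝓞 K) | P.IsMaximal ∧ s ∈ P}.ncard) (hβ : 1 ≤ β * (r + 1))
    {c : ClassGroup R} (H : ∀ M : ℕ, 0 < M → ∃ I : Ideal (𝓞 K), I ≠ ⊥ ∧ Cop M I ∧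
      cl (ex R I) = c ∧ Nat.gcd (Ideal.absNorm I - 1) M ∣ Units.torsionOrder K) : Dense s c 1 := by
  obtain ⟨ζ, z1, z2⟩ := unitsW_root (K := K)
  obtain ⟨W, w1, w2, w3, w4, w5⟩ := exists_W (R := R) s
  have t0 := Units.torsionOrder_pos K
  obtain ⟨b, hb, h⟩ := final_gen hC W w1 h0 (hr.trans w4) hβ one_pos t0
    (fun I => cl (ex R I) = c) fun M hM hl => by
      obtain ⟨I₀, i0, i1, i2, i3⟩ := H M hM
      refine ⟨I₀, i0, i1, fun I P p1 _ p3 p4 p5 _ =>
        ⟨(cl_ex s (p5.ne_bot i0) i0 (p5.cl i0)).trans i2, fun l l1 l2 => ?_⟩⟩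
      have d1 := hl l l1 l2
      refine index_arith (card_red_mul p1) (p3 ▸ p4.one_lt) (dvd_card_red p1 t0 (w3 z1) z2 ?_)
        (by simpa using t0) l1 d1 (Nat.pos_of_ne_zero fun e => i0 (Ideal.absNorm_eq_zero_iff.1 e))
        (p3 ▸ p5.norm) (by simpa only [one_mul] using i3)
      exact (p3 ▸ cop_iff.1 (p5.cop i1)).coprime_dvd_right
        (((dvd_mul_left _ _).mul_right _).trans d1)
  refine ⟨b, hb, h.mono fun x ⟨S, h1, h2⟩ => h1.trans ?_⟩
  rw [← Set.ncard_coe_finset]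
  refine Nat.cast_le.2 (Set.ncard_le_ncard (fun P hP => ?_)
    ((finite_norm_le x).subset fun P hP => hP.1))
  obtain ⟨g1, -, g3, ⟨I, g4, -, g5⟩, g7, g6⟩ := h2 P hP
  obtain rfl : I = P := Ideal.ext fun y => by
    rw [← g4, Ideal.mem_comap]
    exact Iff.of_eq (congrArg (· ∈ I) (RingOfIntegers.ext rfl))
  have g8 := w5 _ g7
  have g0 := ex_ne (R := R) s
    (Ring.ne_bot_of_isMaximal_of_not_isField g1 (RingOfIntegers.not_isField K))
  refine ⟨g3, by rw [g5, pow_one], g1, g8, ⟨ex_max s g1 g8, g0⟩,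
    fun A a0 a1 => Red.transfer a0 top_ne_bot ?_ fun a _ a2 => ?_⟩
  · rw [cl_top]
    exact mul_eq_right.1 (g5 ▸ a1)
  · rw [Ideal.top_mul] at a2 ⊢
    obtain ⟨a₀, h0⟩ := approx s g0 a
    obtain ⟨u, v, u1, ⟨w, hw⟩, e⟩ := b1_of_index w2 g1 g6 (x := a₀) fun g =>
      a2 (by simpa using (ex R I).sub_mem (Ideal.mem_map_of_mem _ g) h0)
    refine ⟨algebraMap _ R u * (w⁻¹ : Rˣ), ⊤, ?_, by
      rw [Ideal.top_mul, Ideal.span_singleton_eq_top.2 (u1.mul (Units.isUnit _))], rfl⟩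
    convert (ex R I).sub_mem h0 ((ex R I).mul_mem_right ↑w⁻¹ (Ideal.mem_map_of_mem _ e))
      using 1
    rw [map_sub, map_mul, ← hw, sub_mul, Units.mul_inv_cancel_right]
    ring

theorem motz {β : ℝ} (hC : CoreR K β) {c : ClassGroup R} (h : ∀ j, Almost s c (j + 2))
    (hc : ∀ I ≠ ⊥, ∃ j : ℕ, cl I = c ^ j) {A B : Ideal R} (a0 : A ≠ ⊥) (b0 : B ≠ ⊥)
    (hAB : cl A * cl B = c) : Red A B fun U => phi c U < phi c B := by
  intro a a1 a2
  obtain ⟨E, hE⟩ := gex a1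
  obtain ⟨B', e1⟩ := Ideal.dvd_iff_le.2 (le_sup_right : B ≤ E ⊔ B)
  obtain ⟨D, e2⟩ := Ideal.dvd_iff_le.2 (le_sup_left : E ≤ E ⊔ B)
  generalize hG : E ⊔ B = G at e1 e2
  subst e1 e2
  have g0 : G ≠ ⊥ := left_ne_zero_of_mul b0
  have b1 : B' ≠ ⊥ := right_ne_zero_of_mul b0
  have hD : D ⊔ B' = ⊤ := mul_left_cancel₀ g0 (by rw [Ideal.mul_sup, hG, Ideal.mul_top])
  have a3 : A * G ≠ ⊥ := mul_ne_zero a0 g0
  have a4 : Ideal.span {a} = A * G * D := by rw [hE, mul_assoc]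
  rw [← mul_assoc] at a2 ⊢
  rw [cl_mul g0 b1, ← mul_assoc, ← cl_mul a0 g0] at hAB
  suffices H : ∃ r U, r - a ∈ A * G * B' ∧ Ideal.span {r} = A * G * U ∧ phi c U < phi c B' by
    obtain ⟨r, U, r1, r2, r3⟩ := H
    have r0 : U ≠ ⊥ := by
      rintro rfl
      rw [Ideal.mul_bot, Ideal.span_singleton_eq_bot] at r2
      exact a2 (by simpa [r2] using r1)
    refine ⟨r, G * U, r1, by rw [r2, mul_assoc], ?_⟩
    beta_reduce
    rw [phi_mul c g0 r0, phi_mul c g0 b1]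
    omega
  have key : 2 * orderOf c + 4 ≤ phi c B' → ∃ r U, r - a ∈ A * G * B' ∧
      Ideal.span {r} = A * G * U ∧ phi c U < phi c B' := fun k => by
    obtain ⟨r, U, r1, r2, j, r3, r4⟩ := exists_good hC h hc a3 b1 a4 hD
    exact ⟨r, U, r1, r2, r4.phi_le.trans_lt (by omega)⟩
  have a5 : a ∈ A * G := gmem a4
  have b2 : B' ≠ ⊤ := by
    rintro rfl
    exact a2 (by rwa [Ideal.mul_top])
  obtain ⟨P, p1, p2⟩ := Ideal.exists_le_maximal _ b2
  obtain ⟨B, rfl⟩ := Ideal.dvd_iff_le.2 p2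
  by_cases b3 : B = ⊤
  · subst b3
    rw [Ideal.mul_top] at hAB a2 key b1 b2 ⊢
    have p3 := phi_max c p1 b1
    have p4 : Lv c (lev c P) P ∨ lev c P = orderOf c + 2 :=
      Nat.sInf_mem (s := {j | Lv c j P ∨ j = orderOf c + 2}) ⟨_, Or.inr rfl⟩
    rcases p4 with g | g
    · obtain ⟨j, hj⟩ : ∃ j, lev c P = j + 1 := Nat.exists_eq_succ_of_ne_zero fun e =>
        b2 (by rw [e] at g; exact g)
      rw [hj] at g
      obtain ⟨r, U, r1, r2, r3⟩ := g.2 _ a3 hAB a a5 a2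
      exact ⟨r, U, r1, r2, r3.phi_le.trans_lt (by omega)⟩
    · exact key (by omega)
  · have := phi_ge c (right_ne_zero_of_mul b1) b3
    refine key ?_
    rw [phi_mul c (left_ne_zero_of_mul b1) (right_ne_zero_of_mul b1),
      phi_max c p1 (left_ne_zero_of_mul b1)]
    omega

/-- Lenstra's Euclidean ideals -/
theorem euclid_of_core {β : ℝ} (hC : CoreR K β) {r : ℕ} (h0 : 0 < r)
    (hr : r ≤ Units.rank K + {P : Ideal (𝓞 K) | P.IsMaximal ∧ s ∈ P}.ncard)
    (hβ : 1 ≤ β * (r + 1)) : GeneratorsEuclidean K R := by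
  intro ⟨C, c0⟩ hc H
  have := cls_finite (R := R) s
  replace c0 : C ≠ ⊥ := mem_nonZeroDivisors_iff_ne_zero.1 c0
  replace hc : Subgroup.zpowers (cl C) = ⊤ := by rwa [cl, dif_pos c0]
  have h1 := almost_all hC (h0.trans_le hr) (dense_one (c := cl C) hC h0 hr hβ fun M hM => by
    obtain ⟨I, α, β, a0, b0, e, g1, g2⟩ := H M hM
    have b1 := mt Ideal.span_singleton_eq_bot.1 b0
    have i1 : ex R I ≠ ⊥ := right_ne_zero_of_mul (e ▸ mul_ne_zero b1 c0)
    have e1 := congrArg cl e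
    rw [cl_mul (mt Ideal.span_singleton_eq_bot.1 a0) i1, cl_mul b1 c0, cl_span, cl_span, one_mul,
      one_mul] at e1
    exact ⟨I, fun h => i1 (by rw [h, ex, Ideal.map_bot]), cop_iff.2 g1, e1, g2⟩)
  have h2 : ∀ I : Ideal R, I ≠ ⊥ → ∃ j : ℕ, cl I = cl C ^ j := fun I _ =>
    (mem_powers_iff_mem_zpowers.2 (hc ▸ Subgroup.mem_top (cl I))).imp fun _ h => h.symm
  let L := FractionRing R
  obtain ⟨ψ, hψ⟩ : ∃ ψ : FractionalIdeal R⁰ L → ℕ, ∀ B : Ideal R,
      ψ (B : FractionalIdeal R⁰ L)⁻¹ = phi (cl C) B :=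
    ⟨fun I => phi (cl C) (Function.invFun (↑) I⁻¹), fun B => by
      beta_reduce
      rw [inv_inv, Function.leftInverse_invFun FractionalIdeal.coeIdeal_injective]⟩
  refine ⟨ψ, fun b hb x x1 x2 => ?_⟩
  have b0 : b ≠ 0 := fun e => zero_lt_one.not_ge (e ▸ hb)
  obtain ⟨B, hB⟩ := FractionalIdeal.le_one_iff_exists_coeIdeal.1 (show b⁻¹ ≤ 1 from by
    rw [← mul_inv_cancel₀ b0]
    exact le_mul_of_one_le_left' hb)
  obtain rfl : b = (B : FractionalIdeal R⁰ L)⁻¹ := by rw [hB, inv_inv]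
  have b1 : (B : FractionalIdeal R⁰ L) ≠ 0 := fun e => b0 (by rw [e, inv_zero])
  have b2 : B ≠ ⊥ := FractionalIdeal.coeIdeal_ne_zero.1 b1
  obtain ⟨t, t3, t0⟩ := Submodule.exists_mem_ne_zero_of_ne_bot b2
  obtain ⟨B', ht⟩ := gex t3
  have t1 : algebraMap R L t ≠ 0 := (map_ne_zero_iff _ (IsFractionRing.injective R L)).2 t0
  have t2 : Ideal.span {t} ≠ ⊥ := mt Ideal.span_singleton_eq_bot.1 t0
  have b3 : B' ≠ ⊥ := right_ne_zero_of_mul (ht ▸ t2)
  have e1 : B' * C * B = Ideal.span {t} * C := by rw [ht]; ring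
  have e2 : FractionalIdeal.spanSingleton R⁰ (algebraMap R L t) = B * B' := by
    rw [← FractionalIdeal.coeIdeal_mul, ← ht, FractionalIdeal.coeIdeal_span_singleton]
  have m1 : ∀ z : R, z ∈ B' * C * B ↔
      algebraMap R L z / algebraMap R L t ∈ (C : FractionalIdeal R⁰ L) := fun z => by
    rw [e1, Ideal.mem_span_singleton_mul, FractionalIdeal.mem_coeIdeal]
    refine exists_congr fun w => and_congr_right fun _ => ?_
    rw [eq_div_iff t1, ← (IsFractionRing.injective R L).eq_iff, map_mul, mul_comm]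
  obtain ⟨a, a1, a2⟩ :
      algebraMap R L t * x ∈ ((B' * C : Ideal R) : FractionalIdeal R⁰ L) := by
    have := FractionalIdeal.mul_mem_mul
      (FractionalIdeal.mem_spanSingleton_self R⁰ (algebraMap R L t)) x1
    rwa [e2, mul_mul_mul_comm, mul_inv_cancel₀ b1, one_mul, ← FractionalIdeal.coeIdeal_mul] at this
  have a3 : algebraMap R L a / algebraMap R L t = x := by rw [div_eq_iff t1, mul_comm]; exact a2
  obtain ⟨r, U, r1, r2, r3⟩ := motz hC h1 h2 (mul_ne_zero b3 c0) b2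
    (by rw [← cl_mul (mul_ne_zero b3 c0) b2, e1, cl_mul t2 c0, cl_span, one_mul]) a a1
    fun g => x2 (a3 ▸ (m1 a).1 g)
  refine ⟨_, (m1 _).1 r1, ?_⟩
  have e3 : FractionalIdeal.spanSingleton R⁰ (algebraMap R L r) = B' * C * U := by
    rw [← FractionalIdeal.coeIdeal_mul, ← FractionalIdeal.coeIdeal_mul, ← r2,
      FractionalIdeal.coeIdeal_span_singleton]
  have c1 := FractionalIdeal.coeIdeal_ne_zero (K := L).2 c0
  have b4 := FractionalIdeal.coeIdeal_ne_zero (K := L).2 b3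
  rw [show x + algebraMap R L (r - a) / algebraMap R L t = algebraMap R L r / algebraMap R L t by
      rw [← a3, map_sub]; ring,
    ← FractionalIdeal.spanSingleton_div_spanSingleton, e2, e3,
    show ((B' * C * U : FractionalIdeal R⁰ L) / (B * B'))⁻¹ * (↑B)⁻¹ * C = (↑U)⁻¹ by
      rw [inv_div, div_mul_eq_mul_div, div_mul_eq_mul_div, mul_right_comm (B : FractionalIdeal R⁰ L),
        mul_inv_cancel₀ b1, one_mul, div_mul_cancel_left₀ (mul_ne_zero b4 c1)], hψ, hψ]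
  exact r3

end Pool.Agent.MP_48b1c3_nt.H91

end

-- part MP_48b1c3_nt.H91.Suff
section

/-! Sufficient conditions for `CycLocal`, and the case of principal ideal rings. -/

namespace Pool.Agent.MP_48b1c3_nt.H91

open Finset NumberField H48
open scoped Classical nonZeroDivisors

/-- The nonzero ideals of `𝓞 K` modulo the principal ideals with a generator of positive norm
form a cyclic group. -/
def SignCyclic (K : Type) [Field K] : Prop :=
  ∃ J : Ideal (𝓞 K), J ≠ ⊥ ∧ ∀ I : Ideal (𝓞 K), I ≠ ⊥ → ∃ (j : ℕ) (α β : 𝓞 K),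
    0 < Algebra.norm ℤ (α * β) ∧ Ideal.span {α} * J ^ j = Ideal.span {β} * I

variable {K : Type} [Field K] [NumberField K]

theorem sign_of {J : Ideal (𝓞 K)} (j0 : J ≠ ⊥) (hJ : Subgroup.zpowers (cl J) = ⊤)
    (h : (∀ α : 𝓞 K, 0 ≤ nm α) ∨ ∃ (m : ℕ) (t : 𝓞 K), J ^ m = Ideal.span {t} ∧ nm t < 0) :
    SignCyclic K := by
  refine ⟨J, j0, fun I hI => ?_⟩
  obtain ⟨j, hj⟩ := mem_powers_iff_mem_zpowers.2 (hJ ▸ Subgroup.mem_top (cl I))
  obtain ⟨u, v, u0, v0, e⟩ := cl_eq (pow_ne_zero j j0) hI ((cl_pow j0 j).trans hj)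
  rcases (nm_ne (mul_ne_zero u0 v0)).lt_or_gt with g | g
  · obtain ⟨m, t, h1, h2⟩ := h.resolve_left fun h => (h _).not_gt g
    refine ⟨j + m, u, v * t, ?_, ?_⟩
    · rw [← mul_assoc, map_mul]
      exact mul_pos_of_neg_of_neg g h2
    · rw [pow_add, ← mul_assoc, e, h1, ← Ideal.span_singleton_mul_span_singleton, mul_right_comm]
  · exact ⟨j, u, v, g, e⟩

theorem signCyclic_of_complex [IsTotallyComplex K] [IsCyclic (ClassGroup (𝓞 K))] :
    SignCyclic K := by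
  obtain ⟨c, hc⟩ := isCyclic_iff_exists_zpowers_eq_top.1 ‹_›
  exact sign_of (rep_ne_bot c) (by rwa [cl_rep]) (.inl (hyppa_nonneg fun ⟨w, hw⟩ =>
    InfinitePlace.not_isReal_iff_isComplex.2 (IsTotallyComplex.isComplex w) hw))

theorem signCyclic_of_unit [IsCyclic (ClassGroup (𝓞 K))] {u : (𝓞 K)ˣ}
    (hu : Algebra.norm ℤ (u : 𝓞 K) = -1) : SignCyclic K := by
  obtain ⟨c, hc⟩ := isCyclic_iff_exists_zpowers_eq_top.1 ‹_›
  exact sign_of (rep_ne_bot c) (by rwa [cl_rep]) (.inr ⟨0, u, by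
    rw [pow_zero, Ideal.span_singleton_eq_top.2 u.isUnit, Ideal.one_eq_top], by
      rw [nm, hu]; norm_num⟩)

theorem signCyclic_of_odd [IsCyclic (ClassGroup (𝓞 K))] (h : Odd (classNumber K)) :
    SignCyclic K := by
  obtain ⟨c, hc⟩ := isCyclic_iff_exists_zpowers_eq_top.1 ‹_›
  have j0 := rep_ne_bot c
  by_cases hK : ∃ w : InfinitePlace K, w.IsReal
  swap
  · exact sign_of j0 (by rwa [cl_rep]) (.inl (hyppa_nonneg hK))
  obtain ⟨t, t0, ht⟩ := cl_one (pow_ne_zero (classNumber K) j0)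
    (by rw [cl_pow j0]; exact pow_card_eq_one)
  rcases (nm_ne t0).lt_or_gt with g | g
  · exact sign_of j0 (by rwa [cl_rep]) (.inr ⟨_, t, ht, g⟩)
  · obtain ⟨γ, -, hγ⟩ := exists_neg hK one_pos
    have g0 : Ideal.span {γ} ≠ ⊥ :=
      mt Ideal.span_singleton_eq_bot.1 fun e => by simp [e, nm] at hγ
    refine sign_of (mul_ne_zero g0 j0) (by rwa [cl_mul g0 j0, cl_span, one_mul, cl_rep])
      (.inr ⟨classNumber K, γ ^ classNumber K * t, ?_, ?_⟩)
    · rw [mul_pow, ht, Ideal.span_singleton_pow, Ideal.span_singleton_mul_span_singleton]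
    · rw [nm_mul, nm, map_pow]
      exact mul_neg_of_neg_of_pos (h.pow_neg hγ) g

variable {R : Type} [CommRing R] [IsDedekindDomain R] [Algebra (𝓞 K) R] (s : 𝓞 K)
  [IsLocalization.Away s R]
include s

theorem cycLocal_of {C : Ideal R} (c0 : C ≠ ⊥) (H : ∀ M : ℕ, 0 < M → ∃ I : Ideal (𝓞 K), I ≠ ⊥ ∧
    Cop M I ∧ cl (ex R I) = cl C ∧ Nat.gcd (Ideal.absNorm I - 1) M ∣ Units.torsionOrder K) :
    CycLocal K C := fun M hM => by
  obtain ⟨I, i0, i1, i2, i3⟩ := H M hM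
  obtain ⟨α, β, a0, b0, e⟩ := cl_eq (ex_ne s i0) c0 i2
  exact ⟨I, α, β, a0, b0, e, cop_iff.1 i1, i3⟩

/-- `CycLocal` holds for generators if the classes modulo positive norms form a cyclic group -/
theorem cycLocal_of_signCyclic (hK : SignCyclic K) (C : (Ideal R)⁰)
    (hc : Subgroup.zpowers (ClassGroup.mk0 C) = ⊤) : CycLocal K (C : Ideal R) := by
  have := cls_finite (R := R) s
  have c0 : (C : Ideal R) ≠ ⊥ := mem_nonZeroDivisors_iff_ne_zero.1 C.2
  replace hc : Subgroup.zpowers (cl (C : Ideal R)) = ⊤ := by rwa [cl, dif_pos c0]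
  obtain ⟨J, j0, hJ⟩ := hK
  replace hJ : ∀ I ≠ ⊥, ∃ j : ℕ, Ray 1 I (J ^ j) := fun I hI => by
    obtain ⟨j, α, β, h1, h2⟩ := hJ I hI
    exact ⟨j, ray_one (by rwa [← nm_mul]) h2⟩
  have e0 : ∀ a, cl (ex R (J ^ a)) = cl (ex R J) ^ a := fun a => by
    rw [ex, Ideal.map_pow, cl_pow (ex_ne s j0)]
  obtain ⟨I, i0, i1⟩ := exists_ex s (cl (C : Ideal R))
  obtain ⟨a, ha⟩ := hJ I i0
  have e1 := (cl_ex (R := R) s i0 (pow_ne_zero a j0) (ha.cl (pow_ne_zero a j0))).trans (e0 a)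
  rw [i1] at e1
  obtain ⟨b, hb⟩ := mem_powers_iff_mem_zpowers.2 (hc ▸ Subgroup.mem_top (cl (ex R J)))
  have c1 : a.Coprime (orderOf (cl (ex R J))) := Nat.Coprime.coprime_mul_right (k := b) (by
    rw [Nat.Coprime, (pow_eq_pow_iff_modEq.1 (show _ ^ (a * b) = _ ^ 1 by
      rw [pow_mul, ← e1, pow_one]; exact hb)).gcd_eq, Nat.gcd_one_left])
  obtain ⟨h, hh⟩ : ∃ h, orderOf (cl J) = h := ⟨_, rfl⟩
  have h0 : 0 < h := hh ▸ orderOf_pos _
  obtain ⟨p, p1, p2, p3⟩ := Nat.forall_exists_prime_gt_and_modEq (2 * h) (orderOf_pos _).ne' c1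
  obtain ⟨m, -, hm⟩ := Nat.exists_mul_mod_eq_one_of_coprime
    (Nat.coprime_of_lt_prime (by omega) p1 p2) (by omega)
  obtain ⟨t, t0, ht⟩ := cl_one (pow_ne_zero h j0) (by rw [cl_pow j0, ← hh, pow_orderOf_eq_one])
  have r1 : Ray 1 ⊤ (J ^ (2 * h)) := ray_one (α := 1) (β := t * t)
    (by rw [show nm (1 : 𝓞 K) = 1 from map_one _, one_mul, nm_mul]; exact mul_self_pos.2 (nm_ne t0))
    (by rw [two_mul, pow_add, ht, Ideal.span_singleton_mul_span_singleton, Ideal.mul_top,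
      Ideal.span_singleton_one, Ideal.top_mul])
  refine cycLocal_of s c0 fun M hM => ?_
  obtain ⟨I, g0, g1, g2, g3⟩ := hyp_cls (pow_ne_zero p j0) (fun I hI => by
    obtain ⟨i, hi⟩ := hJ I hI
    have r2 := hi.mul (r1.pow (p * m / (2 * h) * i))
    rw [Ideal.top_pow, Ideal.mul_top, ← pow_mul, ← pow_add, ← mul_assoc, ← one_add_mul, ← hm,
      Nat.mod_add_div, mul_assoc, pow_mul] at r2
    exact ⟨_, hm ▸ r2⟩) hM
  exact ⟨I, g0, g1, by rw [cl_ex s g0 (pow_ne_zero p j0) g2, e0, e1, pow_eq_pow_iff_modEq.2 p3], g3⟩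

/-- `CycLocal` holds for classes of odd order if `K` has a real place -/
theorem cycLocal_of_real (hK : ∃ w : InfinitePlace K, w.IsReal) (C : (Ideal R)⁰)
    (h : Odd (orderOf (ClassGroup.mk0 C))) : CycLocal K (C : Ideal R) := by
  have c0 : (C : Ideal R) ≠ ⊥ := mem_nonZeroDivisors_iff_ne_zero.1 C.2
  replace h : Odd (orderOf (cl (C : Ideal R))) := by rwa [cl, dif_pos c0]
  refine cycLocal_of s c0 fun M hM => ?_
  obtain ⟨I, i0, i1⟩ := exists_ex s (cl (C : Ideal R))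
  obtain ⟨J, c1, r1⟩ := exists_ray hM i0
  have j0 := r1.ne_bot i0
  obtain ⟨a, b, hb, e⟩ := Nat.exists_eq_two_pow_mul_odd (Nat.totient_pos.2 hM).ne'
  obtain ⟨α, h1, h2⟩ := exists_neg hK hM
  obtain ⟨m, m1, m2⟩ : ∃ m, m ≡ 1 [MOD orderOf (cl (C : Ideal R))] ∧ 2 ^ a ∣ m :=
    ⟨_, Nat.ModEq.pow_totient ((Nat.coprime_two_left.2 h).pow_left a),
      dvd_pow_self _ (Nat.totient_pos.2 h.pos).ne'⟩
  have a0 : Ideal.span {α} ≠ ⊥ := mt Ideal.span_singleton_eq_bot.1 fun e => by simp [e, nm] at h2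
  have c2 := (cop_iff.1 c1).pow_left m
  refine ⟨J ^ m * Ideal.span {α}, mul_ne_zero (pow_ne_zero m j0) a0,
    cop_mul.2 ⟨cop_iff.2 (by rwa [map_pow]), cop_congr h1 (cop_span.2 isCoprime_one_left)⟩, ?_,
    Dvd.dvd.trans ?_ (Units.even_torsionOrder K).two_dvd⟩
  · rw [ex, Ideal.map_mul, Ideal.map_pow, cl_mul (pow_ne_zero m (ex_ne s j0)) (ex_ne s a0),
      ex_span, cl_span, mul_one, cl_pow (ex_ne s j0), cl_ex s j0 i0 (r1.cl i0), i1,
      pow_eq_pow_iff_modEq.2 m1, pow_one]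
  have n1 : 1 ≤ Ideal.absNorm (J ^ m * Ideal.span {α}) := Nat.pos_of_ne_zero fun e =>
    mul_ne_zero (pow_ne_zero m j0) a0 (Ideal.absNorm_eq_zero_iff.1 e)
  generalize hg : Nat.gcd _ M = g
  have g1 : (g : ℤ) ∣ M := Int.natCast_dvd_natCast.2 (hg ▸ Nat.gcd_dvd_right _ _)
  have g2 := Int.natCast_dvd_natCast.2 (hg ▸ Nat.gcd_dvd_left _ M)
  rw [Nat.cast_sub n1, map_mul, map_pow, Ideal.absNorm_span_singleton, Nat.cast_mul,
    Int.natCast_natAbs, abs_of_neg h2, Nat.cast_pow] at g2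
  have g3 := g1.trans (nm_congr (a := α) (b := 1) (by rwa [Int.cast_natCast]))
  rw [show nm (1 : 𝓞 K) = 1 from map_one _] at g3
  have g4 : (g : ℤ) ∣ (Ideal.absNorm J : ℤ) ^ m - -1 := by
    rw [show (Ideal.absNorm J : ℤ) ^ m - -1 = -(Ideal.absNorm J ^ m * -nm α - (1 : ℕ)) -
      Ideal.absNorm J ^ m * (nm α - 1) by push_cast; ring]
    exact g2.neg_right.sub (g3.mul_left _)
  have g5 := g4.trans (sub_dvd_pow_sub_pow _ _ b)
  obtain ⟨k, rfl⟩ := m2
  have g6 := g1.trans (Nat.modEq_iff_dvd.1 ((Nat.ModEq.pow_totient (cop_iff.1 c1)).pow k))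
  rw [hb.neg_one_pow, ← pow_mul, mul_right_comm, ← e, pow_mul] at g5
  push_cast at g6
  rw [← Int.natCast_dvd_natCast]
  exact (g5.add g6).trans (dvd_of_eq (by ring))

/-- `CycLocal` holds for all classes unless, for some prime `l`, all norms prime to `l` are
congruent to one modulo `l ^ (v + 1)`, where `l ^ v` is the `l`-part of the number of roots of
unity -/
theorem cycLocal_of_norm (h : ∀ l : ℕ, l.Prime → ∃ a : 𝓞 K, IsCoprime a l ∧
    ¬ (l : ℤ) ^ ((Units.torsionOrder K).factorization l + 1) ∣ Algebra.norm ℤ a - 1)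
    (C : (Ideal R)⁰) : CycLocal K (C : Ideal R) := by
  refine cycLocal_of s (mem_nonZeroDivisors_iff_ne_zero.1 C.2) fun M hM => ?_
  obtain ⟨I, i0, i1⟩ := exists_ex s (cl (C : Ideal R))
  obtain ⟨J, c1, r1⟩ := exists_ray hM i0
  obtain ⟨I', g0, g1, g2, g3⟩ := hyp_loc (r1.ne_bot i0) hM c1 (Units.torsionOrder_ne_zero K)
    (fun _ => rfl) fun l => by
      obtain ⟨a, h1, h2⟩ := h l (Nat.prime_of_mem_primeFactors l.2)
      by_contra hn
      push Not at hn
      have h3 := hn 1 (cop_span.2 isCoprime_one_left)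
      have h4 := hn a (cop_span.2 (by rw [Nat.cast_pow]; exact h1.pow_right))
      rw [show nm (1 : 𝓞 K) = 1 from map_one _, mul_one] at h3
      rw [Nat.cast_pow] at h3 h4
      exact h2 ((h4.sub (h3.mul_right (nm a))).trans (dvd_of_eq (by rw [nm]; ring)))
  exact ⟨I', g0, g1, (cl_ex s g0 i0 (g2.trans (r1.cl i0))).trans i1, g3⟩

omit s in
/-- the case of principal ideal rings -/
theorem pid_case [IsPrincipalIdealRing R] (h : GeneratorsEuclidean K R)
    (H : CycLocal K (⊤ : Ideal R)) :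
    ∃ φ : R → ℕ, ∀ a b : R, b ≠ 0 → ∃ q r : R, a = b * q + r ∧ (r = 0 ∨ φ r < φ b) := by
  have := Fintype.card_le_one_iff_subsingleton.1 (card_classGroup_eq_one (R := R)).le
  refine EuclideanIdeal.ring ?_
  simpa only [OneMemClass.coe_one, Ideal.one_eq_top, FractionalIdeal.coeIdeal_top] using h 1 (Subsingleton.elim (Subgroup.zpowers _) ⊤) (by rwa [← Ideal.one_eq_top] at H)

theorem pid_real [IsPrincipalIdealRing R] (h : GeneratorsEuclidean K R)
    (hK : ∃ w : InfinitePlace K, w.IsReal) :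
    ∃ φ : R → ℕ, ∀ a b : R, b ≠ 0 → ∃ q r : R, a = b * q + r ∧ (r = 0 ∨ φ r < φ b) := by
  have := Fintype.card_le_one_iff_subsingleton.1 (card_classGroup_eq_one (R := R)).le
  refine pid_case h ?_
  simpa only [OneMemClass.coe_one, Ideal.one_eq_top] using cycLocal_of_real (R := R) s hK 1 (by simp)

omit s in
/-- rings of integers of class number one -/
theorem pid_int [IsPrincipalIdealRing (𝓞 K)] (h : GeneratorsEuclidean K (𝓞 K)) :
    ∃ φ : 𝓞 K → ℕ, ∀ a b : 𝓞 K, b ≠ 0 → ∃ q r : 𝓞 K, a = b * q + r ∧ (r = 0 ∨ φ r < φ b) := by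
  have h1 := (classNumber_eq_one_iff (K := K)).2 ‹_›
  have := Fintype.card_le_one_iff_subsingleton.1 h1.le
  have : IsLocalization.Away (1 : 𝓞 K) (𝓞 K) :=
    IsLocalization.away_of_isUnit_of_bijective _ isUnit_one Function.bijective_id
  refine pid_case h ?_
  simpa only [OneMemClass.coe_one, Ideal.one_eq_top] using cycLocal_of_signCyclic (R := 𝓞 K) 1 (signCyclic_of_odd (h1 ▸ odd_one)) 1
    (Subsingleton.elim (Subgroup.zpowers _) ⊤)

omit s in
/-- the ring `𝓞 K [1 / s]` exists for every nonzero `s` -/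
theorem away_dedekind {s : 𝓞 K} (hs : s ≠ 0) : IsDedekindDomain (Localization.Away s) :=
  have h := powers_le_nonZeroDivisors_of_noZeroDivisors hs
  have := IsLocalization.isDomain_localization h
  IsLocalization.isDedekindDomain (𝓞 K) h _

end Pool.Agent.MP_48b1c3_nt.H91

end
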