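import Pool.Agent.MP_48b1c3_nt.Mg.H91_Dec
import Pool.Agent.MP_48b1c3_nt.Mg.H91_Geo

attribute [-instance] IdemSemiring.toCanonicallyOrderedAdd covariant_swap_mul_of_covariant_mul
  RKHS.instFunLike ContinuousSemilinearMapClass.toSemilinearMapClass AddQuantale.instAddLeftMono
  AlgHom.instNonUnitalAlgHomClassOfAlgHomClass IdemSemiring.toMulLeftMono
  SemilinearIsometryClass.toSemilinearMapClass IsOrderedMonoid.toMulLeftMono
  instDecidableDvdOfFintypeOfDecidableEq CoalgHomClass.toSemilinearMapClass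
  Group.IsPerfect.subsingleton_of_isMulCommutative Quantale.instMulLeftMono
  IsOrderedCancelAddMonoid.toIsCancelAdd instNonUnitalAlgHomClassOfNonUnitalAlgEquivClass
  RingHomClass.toLinearMapClassNNRat DivisionRing.toRing MonTypeEquivalenceMon.monMonoid
  AddQuantale.instAddRightMono RingHomClass.toLinearMapClassRat Quantale.instMulRightMono
  NonUnitalAlgHomClass.instLinearMapClass littleWedderburn CompactSpace.sigmaCompact
  NonUnitalAlgHomClass.instSemilinearMapClassOfNonUnitalAlgSemiHomClassToMonoidHomRingHom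
  CanonicallyOrderedAdd.toMulLeftMono instCoeOTCOfCoeOut NonarchimedeanRing.toIsTopologicalRing
  AlgHomClass.linearMapClass instCoeTOfCoeDep CategoryTheory.CountableCategory.countableObj

-- part MP_48b1c3_nt.H91.Lat2
section

/-! Smooth lattice sums with periodic coefficients: main term and error term. -/

namespace Pool.Agent.MP_48b1c3_nt.H91

open Finset NumberField H54 Filter
open scoped ContDiff Topology

section

open MeasureTheory

variable {ι : Type} [Fintype ι]

lemma lat2_riem (ι : Type) [Fintype ι] (R : ℝ) : ∃ C : ℝ, 0 < C ∧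
    ∀ (H ε : ℝ) (g : (ι → ℝ) → ℂ), Continuous g → (∀ x, R < ‖x‖ → g x = 0) → 1 ≤ H → 0 ≤ ε →
      (∀ x y, ‖x - y‖ ≤ 1 / H → ‖g x - g y‖ ≤ ε) →
      ‖ls 1 g H - (H : ℂ) ^ Fintype.card ι * ∫ x, g x‖ ≤ C * ε * H ^ Fintype.card ι := by
  classical
  refine ⟨(2 * |R| + 5) ^ Fintype.card ι, by positivity, fun H ε g hc hs hH hε hl => ?_⟩
  have H0 : 0 < H := by linarith
  set f : (ι → ℝ) → ℂ := fun x => g (H⁻¹ • x) with hf
  set cell : (ι → ℤ) → Set (ι → ℝ) := fun a =>
    Set.pi Set.univ fun i => Set.Ico (a i : ℝ) (a i + 1) with hcell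
  have mem : ∀ a x, x ∈ cell a ↔ ∀ i, ⌊x i⌋ = a i := fun a x => by
    simp only [hcell, Set.mem_pi, Set.mem_univ, Set.mem_Ico, forall_const, Int.floor_eq_iff]
  have f0 : ∀ x, |R| * H < ‖x‖ → f x = 0 := fun x hx => hs _ <| by
    rw [norm_smul, norm_inv, Real.norm_of_nonneg H0.le, inv_mul_eq_div, lt_div_iff₀ H0]
    exact (mul_le_mul_of_nonneg_right (le_abs_self R) H0.le).trans_lt hx
  have fc : Continuous f := hc.comp (continuous_const_smul _)
  have fi : Integrable f := fc.integrable_of_hasCompactSupport <|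
    HasCompactSupport.intro (isCompact_closedBall (0 : ι → ℝ) (|R| * H)) fun x hx =>
      f0 x (by simpa only [Metric.mem_closedBall, dist_zero_right, not_le] using hx)
  have hU : ⋃ a, cell a = Set.univ :=
    Set.eq_univ_of_forall fun x => Set.mem_iUnion.2 ⟨fun i => ⌊x i⌋, (mem _ _).2 fun _ => rfl⟩
  have h1 := hasSum_integral_iUnion (μ := volume) (f := f) (s := cell)
    (fun a => MeasurableSet.univ_pi fun i => measurableSet_Ico)
    (fun a b hab => Set.disjoint_left.2 fun x hx hy => hab <| funext fun i =>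
      ((mem _ _).1 hx i).symm.trans ((mem _ _).1 hy i)) fi.integrableOn
  rw [hU, Measure.restrict_univ, hf, Measure.integral_comp_inv_smul_of_nonneg _ _ H0.le,
    Module.finrank_fintype_fun_eq_card, ← hf] at h1
  have h2 := ((ls_summable hs H0 1).hasSum).sub h1
  have vol : ∀ a, volume (cell a) = 1 := fun a => by simp only [hcell, Real.volume_pi_Ico, add_sub_cancel_left, ENNReal.ofReal_one, prod_const_one]
  have pta : ∀ a : ι → ℤ, pt H a = H⁻¹ • fun i => (a i : ℝ) := fun a => by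
    ext i; simp [pt, div_eq_inv_mul]
  have key : ∀ a : ι → ℤ, (1 : (ι → ℤ) → ℂ) a * g (pt H a) - ∫ x in cell a, f x =
      ∫ x in cell a, (g (pt H a) - f x) := fun a => by
    have hi : IntegrableOn (fun _ => g (pt H a)) (cell a) := integrableOn_const (by simp [vol])
    rw [integral_sub hi fi.integrableOn, setIntegral_const]
    simp [Measure.real, vol]
  have near : ∀ a, ∀ x ∈ cell a, ‖(fun i => (a i : ℝ)) - x‖ ≤ 1 := fun a x hx =>
    (pi_norm_le_iff_of_nonneg zero_le_one).2 fun i => by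
      have := hx i (Set.mem_univ i)
      rw [Pi.sub_apply, Real.norm_eq_abs, abs_le]
      constructor <;> linarith only [this.1, this.2]
  set M : ℕ := ⌈(|R| + 1) * H⌉₊ with hM
  set S : Finset (ι → ℤ) := Fintype.piFinset fun _ => Icc (-(M : ℤ)) M with hS
  have h3 : ∀ a ∉ S, (1 : (ι → ℤ) → ℂ) a * g (pt H a) - ∫ x in cell a, f x = 0 := fun a ha => by
    have h4 : (|R| + 1) * H < ‖fun i => (a i : ℝ)‖ := by
      obtain ⟨i, hi⟩ : ∃ i, (M : ℤ) < |a i| := by
        by_contra h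
        push Not at h
        exact ha (Fintype.mem_piFinset.2 fun i => mem_Icc.2 (abs_le.1 (h i)))
      refine (Nat.le_ceil _).trans_lt (lt_of_lt_of_le ?_ (norm_le_pi_norm _ i))
      rw [Real.norm_eq_abs]
      exact_mod_cast hi
    rw [key, setIntegral_eq_zero_of_forall_eq_zero fun x hx => ?_]
    have h5 := norm_sub_norm_le (fun i => (a i : ℝ)) x
    have h6 := near a x hx
    rw [pta, f0 x (by linarith only [hH, h4, h5, h6]), sub_zero]
    exact f0 _ (by linarith only [hH, h4])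
  have h7 := h2.unique (hasSum_sum_of_ne_finset_zero h3)
  rw [Complex.real_smul, Complex.ofReal_pow] at h7
  rw [ls, h7]
  refine (norm_sum_le_of_le _ (n := fun _ => ε) fun a _ => ?_).trans ?_
  · rw [key]
    refine (norm_setIntegral_le_of_norm_le_const (C := ε) (by simp [vol]) fun x hx => ?_).trans
      (by simp [Measure.real, vol])
    refine hl _ _ ?_
    rw [pta, ← smul_sub, norm_smul, norm_inv, Real.norm_of_nonneg H0.le, inv_mul_eq_div]
    exact div_le_div_of_nonneg_right (near a x hx) H0.le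
  · rw [sum_const, nsmul_eq_mul, hS, Fintype.card_piFinset, prod_const, card_univ, Int.card_Icc,
      mul_right_comm, ← mul_pow, show (M : ℤ) + 1 - -(M : ℤ) = (2 * M + 1 : ℕ) by push_cast; ring,
      Int.toNat_natCast]
    push_cast
    have := (Nat.ceil_lt_add_one (show 0 ≤ (|R| + 1) * H by positivity)).le
    gcongr
    linarith only [hH, this]

lemma lat2_ch (t : Finset ι) [DecidablePred (· ∈ t)] (a : ι → ℤ) :
    ch (fun i => if i ∈ t then 1 / 2 else 0) a = ∏ i ∈ t, ec (1 / 2 * a i) := by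
  classical
  simp only [ch, ec, ← Complex.exp_sum, ← mul_sum, ← Complex.ofReal_sum, ite_mul, zero_mul]
  rw [← sum_filter, filter_mem_eq_inter, univ_inter, mul_sum]

lemma lat2_dbl (ι : Type) [Fintype ι] (R : ℝ) (k : ℕ) : ∃ C : ℝ, 0 < C ∧
    ∀ (B H : ℝ) (g : (ι → ℝ) → ℂ), Nice R k B g → 1 ≤ H →
      ‖2 ^ Fintype.card ι * ls 1 g H - ls 1 g (2 * H)‖ * H ^ k ≤
        C * B * (2 * H) ^ Fintype.card ι := by
  classical
  obtain ⟨C, C0, hC⟩ := ls_decay ι R k
  refine ⟨2 ^ Fintype.card ι * C, by positivity, fun B H g hg hH => ?_⟩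
  have H0 : 0 < H := by linarith
  have B0 : 0 ≤ B := (norm_nonneg _).trans (hg.bd 0 k.zero_le 0)
  set θ : Finset ι → ι → ℝ := fun t i => if i ∈ t then 1 / 2 else 0 with hθ
  have h1 : ∑ t ∈ (univ : Finset ι).powerset, ls (ch (θ t)) g (2 * H) =
      2 ^ Fintype.card ι * ls 1 g H := by
    simp only [ls]
    rw [← Summable.tsum_finsetSum fun t _ => ls_summable hg.supp (by positivity) _,
      ← tsum_mul_left, ← (smul_right_injective (ι → ℤ) (two_ne_zero (α := ℤ))).tsum_eq]
    · refine tsum_congr fun b => ?_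
      simp only [hθ, lat2_ch, ← sum_mul, ← prod_one_add, Pi.smul_apply, smul_eq_mul]
      rw [prod_congr rfl (g := fun _ => (2 : ℂ)) fun i _ => ?_, prod_const, card_univ,
        Pi.one_apply, one_mul]
      · congr 2
        ext i
        simp only [pt, Pi.smul_apply, smul_eq_mul]
        push_cast
        field_simp
      · rw [show (1 / 2 * ((2 * b i : ℤ) : ℝ)) = (b i : ℝ) by push_cast; ring, ec_int]
        norm_num
    · intro a ha
      simp only [hθ, lat2_ch, ← sum_mul, ← prod_one_add, Function.mem_support] at ha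
      refine ⟨fun i => a i / 2, funext fun i => ?_⟩
      have h2 := prod_ne_zero_iff.1 (left_ne_zero_of_mul ha) i (mem_univ i)
      rcases Int.even_or_odd' (a i) with ⟨m, h | h⟩
      · simp only [Pi.smul_apply, smul_eq_mul]
        omega
      · refine (h2 ?_).elim
        rw [h, show (1 / 2 * ((2 * m + 1 : ℤ) : ℝ)) = (m : ℝ) + 1 / 2 by push_cast; ring, ec_add,
          ec_int, ec, show 2 * Real.pi * Complex.I * ((1 / 2 : ℝ) : ℂ) = Real.pi * Complex.I by
            push_cast; ring, Complex.exp_pi_mul_I]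
        ring
  have h3 : ch (θ ∅) = 1 := funext fun a => by simp only [hθ, lat2_ch, prod_empty, Pi.one_apply]
  rw [← h1, ← add_sum_erase _ _ (empty_mem_powerset _), h3, add_sub_cancel_left]
  refine (mul_le_mul_of_nonneg_right (norm_sum_le _ _) (by positivity)).trans ?_
  rw [sum_mul]
  refine (sum_le_card_nsmul _ _ (C * B * (2 * H) ^ Fintype.card ι) fun t ht => ?_).trans ?_
  · obtain ⟨i, hi⟩ := nonempty_iff_ne_empty.2 (ne_of_mem_erase ht)
    refine le_trans ?_ (hC B (2 * H) g (θ t) i hg (by linarith only [hH]))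
    have h4 := norm_ec_sub_one (t := 1 / 2) (by norm_num [abs_of_pos])
    rw [show θ t i = 1 / 2 from if_pos hi]
    rw [abs_of_pos (by norm_num : (0 : ℝ) < 1 / 2)] at h4
    gcongr
    nlinarith only [hH, h4]
  · rw [nsmul_eq_mul, mul_assoc, mul_assoc, mul_assoc]
    gcongr
    exact_mod_cast card_erase_le.trans (by rw [card_powerset, card_univ])

lemma lat2_one (ι : Type) [Fintype ι] (R : ℝ) (k : ℕ) : ∃ C : ℝ, 0 < C ∧
    ∀ (B H : ℝ) (g : (ι → ℝ) → ℂ), Nice R k B g → 1 ≤ H →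
      ‖ls 1 g H - (H : ℂ) ^ Fintype.card ι * ∫ x, g x‖ * H ^ k ≤ C * B * H ^ Fintype.card ι := by
  obtain ⟨C0, hC0, h0⟩ := lat2_riem ι R
  obtain ⟨C1, hC1, h1⟩ := lat2_dbl ι R k
  refine ⟨2 * C0 + 2 * C1, by positivity, fun B H g hg hH => ?_⟩
  have B0 : 0 ≤ B := (norm_nonneg _).trans (hg.bd 0 k.zero_le 0)
  set n := Fintype.card ι
  rcases k.eq_zero_or_pos with rfl | hk
  · have hb : ∀ x, ‖g x‖ ≤ B := fun x => by simpa using hg.bd 0 le_rfl x
    have := h0 H (2 * B) g hg.smooth.continuous hg.supp hH (by positivity) fun x y _ =>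
      (norm_sub_le _ _).trans (by linarith [hb x, hb y])
    rw [pow_zero, mul_one]
    refine this.trans (mul_le_mul_of_nonneg_right ?_ (by positivity))
    nlinarith only [hC1, B0]
  have lip : ∀ x y, ‖g x - g y‖ ≤ B * ‖x - y‖ := fun x y =>
    convex_univ.norm_image_sub_le_of_norm_fderiv_le (𝕜 := ℝ)
      (fun x _ => hg.smooth.differentiable (by simp) x)
      (fun x _ => by rw [← norm_iteratedFDeriv_one]; exact hg.bd 1 hk x) trivial trivial
  set D : ℝ → ℝ := fun H => ‖ls 1 g H - (H : ℂ) ^ n * ∫ x, g x‖ / H ^ n with hD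
  have key : ∀ (j : ℕ) (H : ℝ), 1 ≤ H →
      D H * H ^ k ≤ 2 * C1 * B + C0 * B * H ^ k / H * (1 / 2) ^ j := by
    intro j
    induction j with
    | zero =>
      intro H hH
      have H0 : 0 < H := by linarith only [hH]
      have := h0 H (B * (1 / H)) g hg.smooth.continuous hg.supp hH (by positivity) fun x y h =>
        (lip x y).trans (mul_le_mul_of_nonneg_left h B0)
      have h2 : D H ≤ C0 * (B * (1 / H)) := (div_le_iff₀ (by positivity)).2 this
      calc D H * H ^ k ≤ C0 * (B * (1 / H)) * H ^ k := by gcongr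
        _ = 0 + C0 * B * H ^ k / H * (1 / 2) ^ 0 := by ring
        _ ≤ _ := by gcongr; positivity
    | succ j ih =>
      intro H hH
      have H0 : 0 < H := by linarith only [hH]
      have h2 := ih (2 * H) (by linarith only [hH])
      have h3 : D H ≤ ‖2 ^ n * ls 1 g H - ls 1 g (2 * H)‖ / (2 * H) ^ n + D (2 * H) := by
        simp only [hD]
        rw [← add_div, ← mul_div_mul_left _ _ (show (2 : ℝ) ^ n ≠ 0 by positivity), ← mul_pow]
        gcongr
        refine le_trans (le_of_eq ?_) (norm_add_le _ _)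
        rw [show (2 : ℝ) ^ n = ‖(2 : ℂ) ^ n‖ by simp, ← norm_mul]
        congr 1
        push_cast
        ring
      have h4 : ‖2 ^ n * ls 1 g H - ls 1 g (2 * H)‖ / (2 * H) ^ n * H ^ k ≤ C1 * B := by
        rw [div_mul_eq_mul_div, div_le_iff₀ (by positivity)]
        exact h1 B H g hg hH
      have h5 : (2 : ℝ) ≤ 2 ^ k := le_self_pow₀ one_le_two hk.ne'
      have h6 : D (2 * H) * H ^ k ≤ C1 * B + C0 * B * H ^ k / H * (1 / 2) ^ (j + 1) := by
        refine le_of_mul_le_mul_left ?_ (show (0 : ℝ) < 2 ^ k by positivity)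
        calc _ = D (2 * H) * (2 * H) ^ k := by ring
          _ ≤ 2 * (C1 * B) + 2 ^ k * (C0 * B * H ^ k / H * (1 / 2) ^ (j + 1)) :=
            h2.trans (le_of_eq (by field_simp; ring))
          _ ≤ _ := by rw [mul_add]; gcongr
      linarith only [mul_le_mul_of_nonneg_right h3 (show 0 ≤ H ^ k by positivity), h4, h6]
  have H0 : 0 < H := by linarith
  have h7 : D H * H ^ k ≤ 2 * C1 * B := by
    have := ((tendsto_pow_atTop_nhds_zero_of_lt_one (r := (1 / 2 : ℝ)) (by norm_num)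
      (by norm_num)).const_mul (C0 * B * H ^ k / H)).const_add (2 * C1 * B)
    simpa only [ge_iff_le, mul_zero, add_zero] using ge_of_tendsto' this fun j => key j H hH
  rw [hD, div_mul_eq_mul_div, div_le_iff₀ (by positivity)] at h7
  refine h7.trans ?_
  gcongr
  linarith only [hC0]

lemma lat2_split {q : ℕ} (hq : 0 < q) {F : (ι → ℤ) → ℂ} (hF : Summable F) :
    ∑' a, F a = ∑ r ∈ cb ι q, ∑' b, F (r + (q : ℤ) • b) := by
  classical
  have q0 : (0 : ℤ) < q := by exact_mod_cast hq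
  have h1 : ∀ a, F a = ∑ r ∈ cb ι q, if (fun i => a i % q) = r then F a else 0 := fun a => by
    rw [sum_ite_eq, if_pos]
    simp only [cb, Fintype.mem_piFinset, mem_Ico]
    exact fun i => ⟨Int.emod_nonneg _ q0.ne', Int.emod_lt_of_pos _ q0⟩
  rw [tsum_congr h1, Summable.tsum_finsetSum fun r _ => ?_]
  · refine sum_congr rfl fun r hr => ?_
    simp only [cb, Fintype.mem_piFinset, mem_Ico] at hr
    rw [← ((add_right_injective r).comp (smul_right_injective (ι → ℤ) q0.ne')).tsum_eq]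
    · refine tsum_congr fun b => if_pos (funext fun i => ?_)
      simp only [zsmul_eq_mul, Int.cast_natCast, Function.comp_apply, Pi.add_apply, Pi.mul_apply, Pi.natCast_apply, Int.add_mul_emod_self_left, Int.emod_eq_of_lt (hr i).1 (hr i).2]
    · intro a ha
      refine ⟨fun i => a i / q, funext fun i => ?_⟩
      have h2 : (fun i => a i % q) = r := by
        by_contra h
        exact ha (if_neg h)
      simp only [← h2, zsmul_eq_mul, Int.cast_natCast, Function.comp_apply, Pi.add_apply, Pi.mul_apply, Pi.natCast_apply, Int.emod_add_mul_ediv]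
  · exact hF.norm.of_norm_bounded fun a => by split_ifs <;> simp

end

theorem ls_main (ι : Type) [Fintype ι] (R : ℝ) (k : ℕ) : ∃ C : ℝ, 0 < C ∧
    ∀ (B H : ℝ) (q : ℕ) (g : (ι → ℝ) → ℂ) (η : (ι → ℤ) → ℂ), Nice R k B g → 1 ≤ H → 0 < q →
      Pd q η → ‖ls η g H - mean q η * (H : ℂ) ^ Fintype.card ι * ∫ x, g x‖ * H ^ k ≤
        C * B * (q : ℝ) ^ k * H ^ Fintype.card ι := by
  obtain ⟨C0, hC0, h0⟩ := ls_triv ι R
  obtain ⟨C1, hC1, h1⟩ := lat2_one ι R 0
  obtain ⟨C2, hC2, h2⟩ := lat2_one ι (|R| + 1) k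
  refine ⟨2 * C0 + C1 + C2, by positivity, fun B H q g η hg hH hq hη => ?_⟩
  have B0 : 0 ≤ B := (norm_nonneg _).trans (hg.bd 0 k.zero_le 0)
  have H0 : 0 < H := by linarith only [hH]
  have q0 : (0 : ℝ) < q := by exact_mod_cast hq
  set n := Fintype.card ι with hn
  have hcb : ((cb ι q).card : ℝ) = q ^ n := by simp only [cb, Fintype.card_piFinset, Int.card_Ico, sub_zero, Int.toNat_natCast, prod_const, card_univ, Nat.cast_pow, hn]
  rcases le_total H q with hHq | hHq
  · have e1 := h0 k B H g η hg hH hη.2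
    have e2 := h0 k B H g 1 hg hH fun _ => by simp
    have e3 := h1 B H g ⟨hg.smooth, hg.supp, fun j hj => hg.bd j (hj.trans k.zero_le)⟩ hH
    rw [pow_zero, mul_one] at e3
    have e4 : ‖mean q η‖ ≤ 1 := by
      rw [mean, norm_div, norm_pow, Complex.norm_natCast, div_le_one (by positivity), ← hcb]
      exact (norm_sum_le_of_le _ fun a _ => hη.2 a).trans (by simp)
    have e5 := norm_sub_le (ls 1 g H) (ls 1 g H - (H : ℂ) ^ n * ∫ x, g x)
    rw [sub_sub_cancel] at e5
    have e6 : ‖ls η g H - mean q η * (H : ℂ) ^ n * ∫ x, g x‖ ≤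
        (2 * C0 + C1 + C2) * B * H ^ n := by
      refine (norm_sub_le _ _).trans ?_
      rw [mul_assoc, norm_mul]
      linarith only [mul_le_mul_of_nonneg_right e4 (norm_nonneg ((H : ℂ) ^ n * ∫ x, g x)), show 0 ≤ C2 * B * H ^ n by positivity, e1, e2, e3, e5]
    rw [mul_right_comm _ ((q : ℝ) ^ k)]
    gcongr
  have hH' : 1 ≤ H / q := (one_le_div q0).2 hHq
  have e1 : ls η g H - mean q η * (H : ℂ) ^ n * ∫ x, g x = ∑ r ∈ cb ι q, η r *
      (ls 1 (fun x => g (x + pt H r)) (H / q) -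
        ((H / q : ℝ) : ℂ) ^ n * ∫ x, g (x + pt H r)) := by
    simp only [mul_sub, sum_sub_distrib, MeasureTheory.integral_add_right_eq_self, ← sum_mul]
    congr 1
    · rw [ls, lat2_split hq (ls_summable hg.supp H0 η)]
      refine sum_congr rfl fun r _ => ?_
      rw [ls, ← tsum_mul_left]
      refine tsum_congr fun b => ?_
      rw [hη.1, Pi.one_apply, one_mul]
      congr 2
      ext i
      simp only [pt, Pi.add_apply, Pi.smul_apply, smul_eq_mul]
      push_cast
      field_simp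
      ring
    · rw [mean]
      push_cast
      ring
  have e2 : ∀ r ∈ cb ι q, Nice (|R| + 1) k B fun x => g (x + pt H r) := fun r hr =>
    ⟨hg.smooth.comp (contDiff_id.add contDiff_const), fun x hx => hg.supp _ <| by
      have h3 : ‖pt H r‖ ≤ 1 := (pi_norm_le_iff_of_nonneg zero_le_one).2 fun i => by
        simp only [cb, Fintype.mem_piFinset, mem_Ico] at hr
        have h4 : (0 : ℝ) ≤ r i := by exact_mod_cast (hr i).1
        have h5 : (r i : ℝ) ≤ q := by exact_mod_cast (hr i).2.le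
        rw [pt, Real.norm_of_nonneg (by positivity), div_le_one H0]
        linarith only [hHq, h5]
      have h6 := norm_sub_le (x + pt H r) (pt H r)
      rw [add_sub_cancel_right] at h6
      linarith only [le_abs_self R, hx, h3, h6],
      fun j hj x => by rw [iteratedFDeriv_comp_add_right]; exact hg.bd j hj _⟩
  have e3 : ‖ls η g H - mean q η * (H : ℂ) ^ n * ∫ x, g x‖ * (H / q) ^ k ≤
      C2 * B * H ^ n := by
    rw [e1]
    refine (mul_le_mul_of_nonneg_right (norm_sum_le _ _) (by positivity)).trans ?_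
    rw [sum_mul]
    refine (sum_le_card_nsmul _ _ (C2 * B * (H / q) ^ n) fun r hr => ?_).trans (le_of_eq ?_)
    · refine le_trans ?_ (h2 B (H / q) _ (e2 r hr) hH')
      rw [norm_mul]
      gcongr
      exact mul_le_of_le_one_left (norm_nonneg _) (hη.2 r)
    · rw [nsmul_eq_mul, hcb, div_pow]
      field_simp
  rw [div_pow, ← mul_div_assoc, div_le_iff₀ (by positivity)] at e3
  refine e3.trans ?_
  rw [mul_right_comm _ ((q : ℝ) ^ k)]
  gcongr
  linarith only [hC0, hC1]

end Pool.Agent.MP_48b1c3_nt.H91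

end

-- part MP_48b1c3_nt.H91.TypeI
section

/-! Main term of smoothed sums over ideals; characters with non-zero mean are principal. -/

namespace Pool.Agent.MP_48b1c3_nt.H91

open Finset NumberField H54 Filter
open scoped ContDiff Topology

variable {K : Type} [Field K] [NumberField K]

/-- periodic models of `f` on the lattice -/
def Mod (N : ℕ) (f : Ideal (𝓞 K) → ℂ) (η : ClassGroup (𝓞 K) → Bool → (Ix K → ℤ) → ℂ) : Prop :=
  ∀ c s, Pd N (η c s) ∧ ∀ a, 0 < sg s * nm (el K a) → η c s a = lift f (rep c) (el K a)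

/-- the mean value computed from a model -/
noncomputable def Geo.kap (G : Geo K) (N : ℕ)
    (η : ClassGroup (𝓞 K) → Bool → (Ix K → ℤ) → ℂ) : ℂ :=
  ∑ c, ∑ s, Ideal.absNorm (rep c) * G.ρ s * mean N (η c s)

theorem typeI_eta (G : Geo K) (k : ℕ) : ∃ C : ℝ, 0 < C ∧ ∀ (N : ℕ) (f : Ideal (𝓞 K) → ℂ)
    (η : ClassGroup (𝓞 K) → Bool → (Ix K → ℤ) → ℂ) (v : ℝ → ℂ) (B y : ℝ), 0 < N → Mod N f η →
      Test v → Db k B v → 1 ≤ y →
        ‖sm (push f) v y - G.kap N η * y * ∫ u : ℝ, v u * Real.exp u‖ ≤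
          C * B * (N : ℝ) ^ k * y ^ (1 - (k : ℝ) / dg K) := by
  obtain ⟨C₁, p₁, h₁⟩ := ls_main (Ix K) G.R k
  obtain ⟨C₂, p₂, h₂⟩ := G.nice k
  have hB0 : (0 : ℝ) < BB K := by exact_mod_cast BB_pos K
  refine ⟨Fintype.card (ClassGroup (𝓞 K)) * (2 * (C₁ * C₂ * BB K)), by positivity,
    fun N f η v B y hN hη hv hB hy => ?_⟩
  have B0 : 0 ≤ B := (norm_nonneg _).trans (hB 0 k.zero_le 0)
  have y0 : 0 < y := by linarith only [hy]
  have n0 : (0 : ℝ) < dg K := by exact_mod_cast dg_pos K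
  rw [G.decomp f hv y0, Geo.kap, sum_mul, sum_mul, ← sum_sub_distrib]
  refine (norm_sum_le_of_le _ (n := fun _ => 2 * (C₁ * C₂ * BB K * B * (N : ℝ) ^ k *
    y ^ (1 - (k : ℝ) / dg K))) fun c _ => ?_).trans (by simp only [mul_assoc, sum_const, card_univ, nsmul_eq_mul, Std.le_refl])
  rw [sum_mul, sum_mul, ← sum_sub_distrib]
  refine (norm_sum_le_of_le _ (n := fun _ => C₁ * C₂ * BB K * B * (N : ℝ) ^ k *
    y ^ (1 - (k : ℝ) / dg K)) fun s _ => ?_).trans (by simp only [Fintype.univ_bool, sum_const, mem_singleton, Bool.true_eq_false, not_false_eq_true, card_insert_of_notMem, card_singleton, Nat.reduceAdd, nsmul_eq_mul, Nat.cast_ofNat, Std.le_refl])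
  have H1 := one_le_Hc hy c
  have Hp := Hc_pow y0.le c
  have key := h₁ _ _ N _ _ (h₂ v B s hv hB) H1 hN (hη c s).1
  rw [card_Ix, G.ls_congr v s (by linarith only [H1]) (hη c s).2, ← Complex.ofReal_pow, Hp,
    show ∫ x, G.g v s x = _ from G.integ v hv s] at key
  have e : (Ideal.absNorm (rep c) : ℂ) * G.ρ s * mean N (η c s) * y * ∫ u : ℝ, v u * Real.exp u =
      mean N (η c s) * ((y * Ideal.absNorm (rep c) : ℝ) : ℂ) *
        (G.ρ s * ∫ u : ℝ, v u * Real.exp u) := by
    push_cast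
    ring
  have b1 : (Ideal.absNorm (rep c) : ℝ) ≤ BB K := by
    exact_mod_cast Nat.le_of_dvd (BB_pos K) (rep_dvd_BB c)
  have b2 : y ^ ((k : ℝ) / dg K) ≤ Hc y c ^ k := by
    have b3 : (1 : ℝ) ≤ Ideal.absNorm (rep c) := by
      exact_mod_cast Nat.pos_of_ne_zero fun h => rep_ne_bot c (Ideal.absNorm_eq_zero_iff.1 h)
    rw [Hc, ← Real.rpow_natCast, ← Real.rpow_mul (by positivity), one_div_mul_eq_div]
    exact Real.rpow_le_rpow y0.le (le_mul_of_one_le_right y0.le b3) (by positivity)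
  rw [e, Real.rpow_sub y0, Real.rpow_one, ← mul_div_assoc, le_div_iff₀ (by positivity)]
  refine ((mul_le_mul_of_nonneg_left b2 (norm_nonneg _)).trans key).trans ?_
  calc _ ≤ C₁ * (C₂ * B) * (N : ℝ) ^ k * (y * BB K) := by gcongr
    _ = _ := by ring

theorem typeI_int : ∫ u : ℝ, bmp u * Real.exp u ≠ 0 := by
  have h : 0 < ∫ u : ℝ, bump u * Real.exp u :=
    Continuous.integral_pos_of_hasCompactSupport_nonneg_nonzero (x := -2)
      (bump.continuous.mul Real.continuous_exp) bump.hasCompactSupport.mul_right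
      (fun u => mul_nonneg bump.nonneg (Real.exp_pos u).le)
      (by rw [bump_eq_one (by norm_num) (by norm_num), one_mul]; exact (Real.exp_pos _).ne')
  have e : ∫ u : ℝ, bmp u * Real.exp u = ((∫ u : ℝ, bump u * Real.exp u : ℝ) : ℂ) := by
    rw [← integral_complex_ofReal]
    simp [bmp]
  rw [e]
  exact_mod_cast h.ne'

theorem typeI_lim (G : Geo K) {N : ℕ} {f : Ideal (𝓞 K) → ℂ}
    {η : ClassGroup (𝓞 K) → Bool → (Ix K → ℤ) → ℂ} (hN : 0 < N) (h : Mod N f η) :
    Tendsto (fun y : ℝ => sm (push f) bmp y / (y * ∫ u : ℝ, bmp u * Real.exp u)) atTop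
      (𝓝 (G.kap N η)) := by
  obtain ⟨C, -, hC⟩ := typeI_eta G 1
  obtain ⟨B, -, hB⟩ := Test.db test_bmp 1
  have n0 : (0 : ℝ) < dg K := by exact_mod_cast dg_pos K
  have i0 := norm_pos_iff.2 typeI_int
  rw [tendsto_iff_norm_sub_tendsto_zero]
  have t := (tendsto_rpow_neg_atTop (y := 1 / (dg K : ℝ)) (by positivity)).const_mul
    (C * B * N / ‖∫ u : ℝ, bmp u * Real.exp u‖)
  rw [mul_zero] at t
  refine squeeze_zero' (Eventually.of_forall fun _ => norm_nonneg _) ?_ t
  filter_upwards [eventually_ge_atTop 1] with y hy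
  have y0 : 0 < y := by linarith only [hy]
  have key := hC N f η bmp B y hN h test_bmp hB hy
  have y1 : (y : ℂ) ≠ 0 := by exact_mod_cast y0.ne'
  rw [div_sub' (mul_ne_zero y1 typeI_int), norm_div, norm_mul, Complex.norm_real,
    Real.norm_of_nonneg y0.le, div_le_iff₀ (by positivity), mul_comm _ (G.kap N η), ← mul_assoc]
  refine key.trans (le_of_eq ?_)
  rw [sub_eq_add_neg, Real.rpow_add y0, Real.rpow_one, pow_one, Nat.cast_one]
  field_simp

theorem typeI_mod {q : ℕ} {f : Ideal (𝓞 K) → ℂ} (h : PF q f) : ∃ η, Mod (q * BB K) f η := by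
  choose η hη using exists_per h
  exact ⟨η, hη⟩

theorem main_term (K : Type) [Field K] [NumberField K] (k : ℕ) : ∃ C : ℝ, 0 < C ∧
    ∀ (q : ℕ) (f : Ideal (𝓞 K) → ℂ) (v : ℝ → ℂ) (B y : ℝ), PF q f → Test v → Db k B v → 1 ≤ y →
      ‖sm (push f) v y - kap f * y * ∫ u : ℝ, v u * Real.exp u‖ ≤
        C * B * (q : ℝ) ^ k * y ^ (1 - (k : ℝ) / dg K) := by
  obtain ⟨G⟩ := geo_nonempty K
  obtain ⟨C, C0, hC⟩ := typeI_eta G k
  have hB0 : (0 : ℝ) < BB K := by exact_mod_cast BB_pos K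
  refine ⟨C * BB K ^ k, by positivity, fun q f v B y hf hv hB hy => ?_⟩
  obtain ⟨η, hη⟩ := typeI_mod hf
  have hN := mul_pos hf.pos (BB_pos K)
  rw [show kap f = _ from (typeI_lim G hN hη).limUnder_eq]
  refine (hC _ f η v B y hN hη hv hB hy).trans (le_of_eq ?_)
  push_cast
  ring

section Mean

variable {ι : Type} [Fintype ι]

theorem typeI_sum_cb {q : ℕ} [NeZero q] (F : (ι → ZMod q) → ℂ) [DecidableEq ι] :
    ∑ a ∈ cb ι q, F (fun i => (a i : ZMod q)) = ∑ b, F b := by
  refine sum_nbij' (fun a i => (a i : ZMod q)) (fun b i => ((b i).val : ℤ)) (fun _ _ => mem_univ _)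
    (fun b _ => ?_) (fun a ha => ?_) (fun b _ => by simp) fun _ _ => rfl
  · simp only [cb, Fintype.mem_piFinset, mem_Ico]
    exact fun i => ⟨by positivity, by exact_mod_cast ZMod.val_lt _⟩
  · simp only [cb, Fintype.mem_piFinset, mem_Ico] at ha
    funext i
    rw [ZMod.val_intCast]
    exact Int.emod_eq_of_lt (ha i).1 (ha i).2

omit [Fintype ι] in
theorem typeI_red {q : ℕ} [NeZero q] {η : (ι → ℤ) → ℂ} (h : ∀ a b, η (a + (q : ℤ) • b) = η a)
    (a : ι → ℤ) : η (fun i => (((a i : ZMod q)).val : ℤ)) = η a := by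
  rw [← h _ fun i => a i / q]
  congr 1
  funext i
  simp only [ZMod.val_intCast, Pi.add_apply, Pi.smul_apply, smul_eq_mul]
  exact Int.emod_add_mul_ediv _ _

theorem typeI_shift {q : ℕ} (hq : 0 < q) {η : (ι → ℤ) → ℂ}
    (h : ∀ a b, η (a + (q : ℤ) • b) = η a) (t : ι → ℤ) :
    mean q (fun a => η (a + t)) = mean q η := by
  classical
  have : NeZero q := ⟨hq.ne'⟩
  have e := typeI_sum_cb (ι := ι) fun b : ι → ZMod q => η fun i => ((b i).val : ℤ)
  have e' := typeI_sum_cb (ι := ι) fun b : ι → ZMod q =>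
    η fun i => (((b + fun i => (t i : ZMod q)) i).val : ℤ)
  have e'' := Equiv.sum_comp (Equiv.addRight fun i => (t i : ZMod q))
    fun b : ι → ZMod q => η fun i => ((b i).val : ℤ)
  simp only [Equiv.coe_addRight] at e''
  rw [e'', ← e] at e'
  simp only [typeI_red h] at e'
  rw [mean, mean, ← e']
  congr 1
  refine sum_congr rfl fun a _ => ?_
  rw [← typeI_red h (a + t)]
  simp only [Pi.add_apply, Int.cast_add, ZMod.natCast_val]

end Mean

open scoped Classical in
theorem sm_push (f : Ideal (𝓞 K) → ℂ) (v : ℝ → ℂ) (y : ℝ) : sm (push f) v y =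
    ∑ J ∈ (Icc 1 ⌊y⌋₊).biUnion (idN K), f J * v (Real.log (Ideal.absNorm J / y)) := by
  rw [sum_biUnion fun a _ b _ hab => disjoint_left.2 fun J h1 h2 =>
    hab (((mem_idN K).1 h1).symm.trans ((mem_idN K).1 h2))]
  refine sum_congr rfl fun m hm => ?_
  rw [push_apply _ (by have := (mem_Icc.1 hm).1; omega), sum_mul]
  exact sum_congr rfl fun J hJ => by rw [(mem_idN K).1 hJ]

open scoped Classical in
theorem typeI_dvd {F : Ideal (𝓞 K) → ℂ} (hm : ∀ I J, F (I * J) = F I * F J) {I : Ideal (𝓞 K)}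
    (hI : I ≠ ⊥) (v : ℝ → ℂ) {y : ℝ} (hy : 0 ≤ y) :
    sm (push fun J => if I ∣ J then F J else 0) v y =
      F I * sm (push F) v (y / Ideal.absNorm I) := by
  have m0 : 0 < Ideal.absNorm I := Nat.pos_of_ne_zero fun h => hI (Ideal.absNorm_eq_zero_iff.1 h)
  have m1 : (0 : ℝ) < Ideal.absNorm I := by exact_mod_cast m0
  have mem : ∀ (J : Ideal (𝓞 K)) (z : ℝ), 0 ≤ z → (J ∈ (Icc 1 ⌊z⌋₊).biUnion (idN K) ↔
      0 < Ideal.absNorm J ∧ (Ideal.absNorm J : ℝ) ≤ z) := fun J z hz => by
    simp only [mem_biUnion, mem_Icc, Nat.succ_le_iff, Nat.le_floor_iff hz, mem_idN, exists_eq_right']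
  rw [sm_push, sm_push, mul_sum]
  simp only [ite_mul, zero_mul]
  rw [← sum_filter]
  symm
  refine sum_nbij (fun J => I * J) (fun J hJ => ?_) (fun J _ J' _ e => mul_left_cancel₀ hI e)
    (fun J hJ => ?_) fun J _ => ?_
  · rw [mem _ _ (by positivity), le_div_iff₀' m1] at hJ
    rw [mem_filter, mem _ _ hy, map_mul]
    exact ⟨⟨mul_pos m0 hJ.1, by exact_mod_cast hJ.2⟩, dvd_mul_right _ _⟩
  · obtain ⟨h1, J, rfl⟩ := mem_filter.1 hJ
    rw [mem _ _ hy, map_mul] at h1
    refine ⟨J, ?_, rfl⟩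
    rw [mem_coe, mem _ _ (by positivity), le_div_iff₀' m1]
    exact ⟨Nat.pos_of_mul_pos_left h1.1, by exact_mod_cast h1.2⟩
  · rw [hm, map_mul, mul_assoc, div_div_eq_mul_div, Nat.cast_mul, mul_comm (Ideal.absNorm J : ℝ)]

open scoped Classical in
theorem typeI_mean {N : ℕ} (hN : 0 < N) {I : Ideal (𝓞 K)} (hI : I ≠ ⊥)
    (hu : IsUnit (Ideal.Quotient.mk I N)) {η : (Ix K → ℤ) → ℂ} (h : Pd N η) :
    Pd (N * Ideal.absNorm I) η ∧
      Pd (N * Ideal.absNorm I) (fun a => if el K a ∈ I then η a else 0) ∧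
      Ideal.absNorm I * mean (N * Ideal.absNorm I) (fun a => if el K a ∈ I then η a else 0) =
        mean (N * Ideal.absNorm I) η := by
  have m0 : 0 < Ideal.absNorm I := Nat.pos_of_ne_zero fun h => hI (Ideal.absNorm_eq_zero_iff.1 h)
  have h1 : ∀ a b, η (a + ((N * Ideal.absNorm I : ℕ) : ℤ) • b) = η a := fun a b => by
    rw [Nat.cast_mul, mul_smul, h.1]
  have h2 : Pd (N * Ideal.absNorm I) fun a => if el K a ∈ I then η a else 0 := by
    refine ⟨fun a b => ?_, fun a => by beta_reduce; split_ifs <;> simp [h.2]⟩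
    have : el K (((N * Ideal.absNorm I : ℕ) : ℤ) • b) ∈ I := by
      rw [map_zsmul, zsmul_eq_mul, Int.cast_natCast, Nat.cast_mul]
      exact I.mul_mem_right _ (I.mul_mem_left _ (Ideal.absNorm_mem I))
    simp only [h1, map_add, I.add_mem_iff_left this]
  refine ⟨⟨h1, h.2⟩, h2, ?_⟩
  have := Ideal.finiteQuotientOfFreeOfNeBot I hI
  have := Fintype.ofFinite (𝓞 K ⧸ I)
  have e := sum_congr rfl fun (r : 𝓞 K ⧸ I) (_ : r ∈ univ) =>
    typeI_shift (η := fun a => if el K a ∈ I then η a else 0) (mul_pos hN m0) h2.1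
      ((N : ℤ) • (el K).symm r.out)
  rw [sum_const, card_univ, nsmul_eq_mul, ← Nat.card_eq_fintype_card, ← Submodule.cardQuot_apply,
    ← Ideal.absNorm_apply] at e
  rw [← e]
  simp only [mean, h.1, ← sum_div]
  rw [sum_comm]
  congr 1
  refine sum_congr rfl fun a _ => ?_
  obtain ⟨u, hu⟩ := hu
  have : ∀ r : 𝓞 K ⧸ I, el K (a + (N : ℤ) • (el K).symm r.out) ∈ I ↔
      r = ↑u⁻¹ * -Ideal.Quotient.mk I (el K a) := fun r => by
    rw [← Ideal.Quotient.eq_zero_iff_mem, map_add, map_zsmul, LinearEquiv.apply_symm_apply,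
      zsmul_eq_mul, map_add, map_mul, Int.cast_natCast, ← hu, Ideal.Quotient.mk_out,
      Units.eq_inv_mul_iff_mul_eq, add_comm, add_eq_zero_iff_eq_neg]
  simp only [this, sum_ite_eq', mem_univ, if_true]

theorem dichotomy {q : ℕ} {F : Ideal (𝓞 K) → ℂ} (h : HC q F) (hB : BB K ∣ q) (hk : kap F ≠ 0)
    {I : Ideal (𝓞 K)} (hI : I ≠ ⊥) (hc : Cop q I) : F I = 1 := by
  classical
  obtain ⟨G⟩ := geo_nonempty K
  obtain ⟨η, hη⟩ := typeI_mod h.toPF
  have m0 : 0 < Ideal.absNorm I := Nat.pos_of_ne_zero fun h => hI (Ideal.absNorm_eq_zero_iff.1 h)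
  have m1 : (0 : ℝ) < Ideal.absNorm I := by exact_mod_cast m0
  have m2 : (Ideal.absNorm I : ℂ) ≠ 0 := by exact_mod_cast m0.ne'
  have hN := mul_pos h.pos (BB_pos K)
  have hq : IsUnit (Ideal.Quotient.mk I q) := by
    obtain ⟨i, hi, j, hj, e⟩ := Submodule.mem_sup.1 ((Ideal.eq_top_iff_one _).1 hc)
    obtain ⟨c, rfl⟩ := Ideal.mem_span_singleton'.1 hj
    refine IsUnit.of_mul_eq_one_right (Ideal.Quotient.mk I c) ?_
    rw [← map_mul, ← map_one (Ideal.Quotient.mk I), ← e, map_add,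
      Ideal.Quotient.eq_zero_iff_mem.2 hi, zero_add]
  have hu : IsUnit (Ideal.Quotient.mk I (q * BB K : ℕ)) := by
    rw [Nat.cast_mul, map_mul]
    exact hq.mul (isUnit_of_dvd_unit (map_dvd _ (Nat.cast_dvd_cast hB)) hq)
  have t := fun c s => typeI_mean hN hI hu (hη c s).1
  have l₁ := typeI_lim G (mul_pos hN m0) (f := F) fun c s => ⟨(t c s).1, (hη c s).2⟩
  have l₂ := typeI_lim G (mul_pos hN m0) (f := fun J => if I ∣ J then F J else 0)
    fun c s => ⟨(t c s).2.1, fun a ha => by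
      rw [(hη c s).2 a ha]
      obtain ⟨h1, -⟩ | ⟨-, -, A, h1, h2⟩ := lift_cases (rep c) (el K a)
      · simp [h1]
      · have cop : IsCoprime I (rep c) := Ideal.isCoprime_iff_sup_eq.2 <| top_le_iff.1 <|
          hc.ge.trans <| sup_le_sup_left ((Ideal.span_singleton_le_iff_mem _).2 <| by
            obtain ⟨d, rfl⟩ := (rep_dvd_BB c).trans hB
            rw [Nat.cast_mul]
            exact Ideal.mul_mem_right _ _ (Ideal.absNorm_mem _)) _
        rw [h2, h2, ← Ideal.dvd_span_singleton, ← h1]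
        exact if_congr ⟨cop.dvd_of_dvd_mul_right, fun h => h.mul_right _⟩ rfl rfl⟩
  have l₃ := (l₁.comp (tendsto_id.atTop_div_const m1)).const_mul (F I / Ideal.absNorm I)
  have e := tendsto_nhds_unique l₂ (l₃.congr' (by
    filter_upwards [eventually_ge_atTop 0] with y hy
    rw [typeI_dvd h.mul hI _ hy]
    simp only [Function.comp, id]
    push_cast
    rw [div_mul_div_comm, ← mul_assoc, mul_div_cancel₀ _ m2]))
  rw [← l₁.limUnder_eq, show limUnder _ _ = kap F from rfl] at e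
  refine mul_right_cancel₀ hk ?_
  rw [one_mul, ← mul_div_cancel₀ (F I) m2, mul_assoc, ← e, show kap F = _ from l₁.limUnder_eq]
  simp only [Geo.kap, mul_sum, ← fun c s => (t c s).2.2]
  exact sum_congr rfl fun c _ => sum_congr rfl fun s _ => by ring

end Pool.Agent.MP_48b1c3_nt.H91

end
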