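import Mathlib
import Pool.Agent.MP_d0fd9b_nt.Sieve

-- part MP_48b1c3_nt.Equi
section

set_option autoImplicit false
set_option linter.unusedSectionVars false

open NumberField Finset Module

namespace Pool.Agent.MP_48b1c3_nt

variable {K : Type*} [Field K] [NumberField K] {ι : Type*} [Fintype ι] [DecidableEq ι]

/-- Explicit data for an order of a number field. -/
structure Dat (ω : ι → 𝓞 K) (B M : ℕ) : Prop where
  hcard : Fintype.card ι = finrank ℚ K
  hli : LinearIndependent ℚ fun i => (ω i : K)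
  hemb : ∀ (σ : K →+* ℂ) (i : ι), ‖σ (ω i : K)‖ ≤ B
  hmul : ∀ i j, ∃ c : ι → ℤ, (∀ k, |c k| ≤ B) ∧ ω i * ω j = ∑ k, c k • ω k
  hM : ∀ y : 𝓞 K, ∃ c : ι → ℤ, (M : 𝓞 K) * y = ∑ i, c i • ω i
  hB : 1 ≤ B
  hM1 : 1 ≤ M

lemma coe_comb (ω : ι → 𝓞 K) (c : ι → ℤ) :
    ((∑ i, c i • ω i : 𝓞 K) : K) = ∑ i, (c i : ℚ) • (ω i : K) := by
  rw [show ((∑ i, c i • ω i : 𝓞 K) : K) = algebraMap (𝓞 K) K (∑ i, c i • ω i) from rfl, map_sum]
  refine sum_congr rfl fun i _ => ?_
  rw [map_zsmul, Int.cast_smul_eq_zsmul]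

lemma Dat.pos {ω : ι → 𝓞 K} {B M : ℕ} (h : Dat ω B M) : 1 ≤ Fintype.card ι := by
  rw [h.hcard]; exact finrank_pos

lemma Dat.small {ω : ι → 𝓞 K} {B M : ℕ} (h : Dat ω B M) {I : Ideal (𝓞 K)} {U : ℕ}
    (h0 : Ideal.absNorm I ≠ 0) (hU : Ideal.absNorm I ≤ U ^ Fintype.card ι) :
    ∃ g : ι → ℤ, (∀ i, |g i| ≤ U) ∧ (∑ i, g i • ω i) ≠ 0 ∧ (∑ i, g i • ω i) ∈ I := by
  have hfin : Finite (𝓞 K ⧸ I) := (Ideal.absNorm_ne_zero_iff I).1 h0
  have := Fintype.ofFinite (𝓞 K ⧸ I)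
  obtain ⟨a, b, hab, he⟩ := Fintype.exists_ne_map_eq_of_card_lt
    (fun a : ι → Fin (U + 1) => Ideal.Quotient.mk I (∑ i, ((a i : ℕ) : ℤ) • ω i)) (by
      rw [Fintype.card_fun, Fintype.card_fin, ← Nat.card_eq_fintype_card,
        ← Submodule.cardQuot_apply, ← Ideal.absNorm_apply]
      exact hU.trans_lt (Nat.pow_lt_pow_left (Nat.lt_succ_self U) (by have := h.pos; omega)))
  have e : (∑ i, (((a i : ℕ) : ℤ) - ((b i : ℕ) : ℤ)) • ω i) =
      ∑ i, ((a i : ℕ) : ℤ) • ω i - ∑ i, ((b i : ℕ) : ℤ) • ω i := by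
    rw [← sum_sub_distrib]; exact sum_congr rfl fun i _ => sub_smul _ _ _
  refine ⟨fun i => ((a i : ℕ) : ℤ) - ((b i : ℕ) : ℤ), fun i => ?_, fun hz => hab ?_, ?_⟩
  · have := (a i).2; have := (b i).2
    beta_reduce
    rw [abs_le]; constructor <;> omega
  · have h1 := coe_comb ω fun i => ((a i : ℕ) : ℤ) - ((b i : ℕ) : ℤ)
    rw [hz] at h1
    have h2 := Fintype.linearIndependent_iff.1 h.hli _ h1.symm
    funext i
    have h3 := h2 i
    have h4 : ((a i : ℕ) : ℤ) - ((b i : ℕ) : ℤ) = 0 := by exact_mod_cast h3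
    exact Fin.ext (by omega)
  · rw [e]; exact Ideal.Quotient.eq.1 he

lemma Dat.cover {ω : ι → 𝓞 K} {B M : ℕ} (h : Dat ω B M) {I : Ideal (𝓞 K)} {U : ℕ}
    (h0 : Ideal.absNorm I ≠ 0) (hU : Ideal.absNorm I ≤ U ^ Fintype.card ι) (c : ι → ℤ) :
    ∃ c' : ι → ℤ, (∀ i, |c' i| ≤ (Fintype.card ι ^ 2 * B * U : ℕ)) ∧
      (∑ i, c i • ω i) - (∑ i, c' i • ω i) ∈ I := by
  obtain ⟨g, hg, hg0, hgI⟩ := h.small h0 hU
  choose cc hcc hmul using h.hmul
  have hne : Nonempty ι := Fintype.card_pos_iff.1 h.pos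
  let b : Basis ι ℚ K := basisOfLinearIndependentOfCardEqFinrank h.hli h.hcard
  have hb : ∀ i, b i = (ω i : K) := fun i => by
    simp [b, coe_basisOfLinearIndependentOfCardEqFinrank]
  set γ : 𝓞 K := ∑ i, g i • ω i with hγ
  set y : 𝓞 K := ∑ i, c i • ω i with hy
  have hγK : (γ : K) ≠ 0 := fun e => hg0 (by exact_mod_cast e)
  let t : ι → ℚ := b.repr ((y : K) / γ)
  have ht : (y : K) = γ * ∑ i, t i • (ω i : K) := by
    have := b.sum_repr ((y : K) / γ)
    simp only [hb] at this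
    rw [this]; field_simp
  have key : ∀ (u : ι → ℚ), (γ : K) * ∑ i, u i • (ω i : K) =
      ∑ k, (∑ j, ∑ i, (g j * u i * cc j i k : ℚ)) • (ω k : K) := fun u => by
    rw [hγ, coe_comb, sum_mul_sum]
    have : ∀ j i, ((g j : ℚ) • (ω j : K)) * (u i • (ω i : K)) =
        ∑ k, (g j * u i * cc j i k : ℚ) • (ω k : K) := fun j i => by
      have e := congrArg (fun z : 𝓞 K => (z : K)) (hmul j i)
      simp only [coe_comb] at e
      rw [smul_mul_smul_comm, show (ω j : K) * (ω i : K) = ((ω j * ω i : 𝓞 K) : K) from rfl, e,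
        smul_sum]
      exact sum_congr rfl fun k _ => by rw [smul_smul]
    simp only [this, sum_smul]
    rw [sum_comm]
    refine (sum_congr rfl fun i _ => sum_comm).trans ?_
    rw [sum_comm]
    exact sum_congr rfl fun k _ => sum_comm
  let c' : ι → ℤ := fun k => c k - ∑ j, ∑ i, g j * ⌊t i⌋ * cc j i k
  have hq : (γ * ∑ i, ⌊t i⌋ • ω i : 𝓞 K) = ∑ k, (∑ j, ∑ i, g j * ⌊t i⌋ * cc j i k) • ω k := by
    apply RingOfIntegers.coe_injective
    have e1 := coe_comb ω fun i => ⌊t i⌋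
    have e2 := coe_comb ω fun k => ∑ j, ∑ i, g j * ⌊t i⌋ * cc j i k
    change (γ : K) * ((∑ i, ⌊t i⌋ • ω i : 𝓞 K) : K) =
      ((∑ k, (∑ j, ∑ i, g j * ⌊t i⌋ * cc j i k) • ω k : 𝓞 K) : K)
    rw [e1, e2, key]
    push_cast; rfl
  have hc : ∀ k, (c k : ℚ) = ∑ j, ∑ i, (g j * t i * cc j i k : ℚ) := by
    have e := ht
    rw [key, hy, coe_comb, ← sub_eq_zero, ← sum_sub_distrib] at e
    simp only [← sub_smul] at e
    intro k
    exact sub_eq_zero.1 (Fintype.linearIndependent_iff.1 h.hli _ e k)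
  refine ⟨c', fun k => ?_, ?_⟩
  · have e : (c' k : ℚ) = ∑ j, ∑ i, (g j * Int.fract (t i) * cc j i k : ℚ) := by
      simp only [c']
      push_cast
      rw [hc, ← sum_sub_distrib]
      refine sum_congr rfl fun j _ => ?_
      rw [← sum_sub_distrib]
      refine sum_congr rfl fun i _ => ?_
      rw [Int.fract]; ring
    have e2 : |(c' k : ℚ)| ≤ ∑ j : ι, ∑ i : ι, (U * 1 * B : ℚ) := by
      rw [e]
      refine (abs_sum_le_sum_abs _ _).trans (sum_le_sum fun j _ =>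
        (abs_sum_le_sum_abs _ _).trans (sum_le_sum fun i _ => ?_))
      rw [abs_mul, abs_mul]
      have a1 : |(g j : ℚ)| ≤ U := by exact_mod_cast hg j
      have a2 : |Int.fract (t i)| ≤ 1 := by
        rw [abs_of_nonneg (Int.fract_nonneg _)]; exact (Int.fract_lt_one _).le
      have a3 : |(cc j i k : ℚ)| ≤ B := by exact_mod_cast hcc j i k
      gcongr
    simp only [sum_const, card_univ, nsmul_eq_mul] at e2
    have e3 : |(c' k : ℚ)| ≤ ((Fintype.card ι ^ 2 * B * U : ℕ) : ℚ) := by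
      push_cast; linarith
    exact_mod_cast e3
  · have : y - ∑ i, c' i • ω i = γ * ∑ i, ⌊t i⌋ • ω i := by
      rw [hq, hy, ← sum_sub_distrib]
      exact sum_congr rfl fun k _ => by rw [← sub_smul]; simp [c']
    rw [this]
    exact I.mul_mem_right _ hgI

lemma norm_one_sub_add {A : Type*} [AddCommGroup A] [Finite A] (ψ : AddChar A ℂ) (a b : A) :
    ‖1 - ψ (a + b)‖ ≤ ‖1 - ψ a‖ + ‖1 - ψ b‖ := by
  have : 1 - ψ (a + b) = (1 - ψ a) + ψ a * (1 - ψ b) := by rw [ψ.map_add_eq_mul]; ring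
  rw [this]
  refine (norm_add_le _ _).trans ?_
  rw [norm_mul, ψ.norm_apply, one_mul]

lemma norm_one_sub_zsmul {A : Type*} [AddCommGroup A] [Finite A] (ψ : AddChar A ℂ) (c : ℤ)
    (a : A) : ‖1 - ψ (c • a)‖ ≤ |(c : ℝ)| * ‖1 - ψ a‖ := by
  have h1 : ∀ (k : ℕ) (a : A), ‖1 - ψ (k • a)‖ ≤ k * ‖1 - ψ a‖ := fun k a => by
    induction k with
    | zero => simp
    | succ k ih =>
      rw [succ_nsmul]
      refine (norm_one_sub_add ψ _ _).trans ?_
      push_cast; linarith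
  have h2 : ∀ a : A, ‖1 - ψ (-a)‖ = ‖1 - ψ a‖ := fun a => by
    have : 1 - ψ (-a) = - ψ (-a) * (1 - ψ a) := by
      have : ψ (-a) * ψ a = 1 := by rw [← ψ.map_add_eq_mul]; simp
      linear_combination -this
    rw [this, norm_mul, norm_neg, ψ.norm_apply, one_mul]
  obtain ⟨k, rfl | rfl⟩ := c.eq_nat_or_neg
  · simpa using h1 k a
  · simpa [h2] using h1 k a

lemma Dat.char {ω : ι → 𝓞 K} {B M : ℕ} (h : Dat ω B M) {I : Ideal (𝓞 K)} {U : ℕ}
    (h0 : Ideal.absNorm I ≠ 0) (hU : Ideal.absNorm I ≤ U ^ Fintype.card ι)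
    (hc : (Ideal.absNorm I).Coprime M) (ψ : AddChar (𝓞 K ⧸ I) ℂ) (hψ : ψ ≠ 0) :
    ∃ i, 1 ≤ (Fintype.card ι ^ 3 * B * U : ℕ) *
      ‖1 - ψ (Ideal.Quotient.mk I ((M : 𝓞 K) * ω i))‖ := by
  have hfin : Finite (𝓞 K ⧸ I) := (Ideal.absNorm_ne_zero_iff I).1 h0
  have := Fintype.ofFinite (𝓞 K ⧸ I)
  have hne : Nonempty ι := Fintype.card_pos_iff.1 h.pos
  by_contra hcon
  push Not at hcon
  have hunit : IsUnit (Ideal.Quotient.mk I (M : 𝓞 K)) := by
    obtain ⟨u, v, huv⟩ := Nat.isCoprime_iff_coprime.2 hc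
    refine IsUnit.of_mul_eq_one (Ideal.Quotient.mk I (v : 𝓞 K)) ?_
    have e : (u : 𝓞 K) * (Ideal.absNorm I : 𝓞 K) + v * M = 1 := by exact_mod_cast congrArg (Int.cast : ℤ → 𝓞 K) huv
    have e2 : Ideal.Quotient.mk I (Ideal.absNorm I : 𝓞 K) = 0 :=
      Ideal.Quotient.eq_zero_iff_mem.2 (Ideal.absNorm_mem I)
    have e3 := congrArg (Ideal.Quotient.mk I) e
    rw [map_add, map_mul, map_mul, e2, mul_zero, zero_add, map_one] at e3
    rw [mul_comm]; exact e3
  have key : ∀ y : 𝓞 K ⧸ I, ‖1 - ψ y‖ < 1 := fun y => by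
    obtain ⟨w, hw⟩ := (hunit.mul hunit).exists_right_inv
    obtain ⟨y', hy'⟩ := Ideal.Quotient.mk_surjective (w * y)
    obtain ⟨c, hc⟩ := h.hM y'
    obtain ⟨c', hc', hI⟩ := h.cover h0 hU c
    have e : y = ∑ i, c' i • Ideal.Quotient.mk I ((M : 𝓞 K) * ω i) := by
      have e1 := Ideal.Quotient.eq.2 hI
      rw [← hc, map_mul, hy'] at e1
      calc y = Ideal.Quotient.mk I (M : 𝓞 K) * (Ideal.Quotient.mk I (M : 𝓞 K) * (w * y)) := by
            linear_combination (-y) * hw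
        _ = _ := by
            rw [e1, ← map_mul, mul_sum, map_sum]
            exact sum_congr rfl fun i _ => by rw [mul_smul_comm, map_zsmul]
    have e2 : ‖1 - ψ y‖ ≤ ∑ i, ‖1 - ψ (c' i • Ideal.Quotient.mk I ((M : 𝓞 K) * ω i))‖ := by
      rw [e]
      exact le_sum_of_subadditive (fun a => ‖1 - ψ a‖) (by simp) (norm_one_sub_add ψ) _ _
    refine e2.trans_lt ?_
    have hn : (0 : ℝ) < Fintype.card ι := by exact_mod_cast h.pos
    calc _ < ∑ _i : ι, (1 / Fintype.card ι : ℝ) := by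
          refine sum_lt_sum_of_nonempty univ_nonempty fun i _ => ?_
          refine (norm_one_sub_zsmul ψ _ _).trans_lt ?_
          have a1 : |(c' i : ℝ)| ≤ (Fintype.card ι ^ 2 * B * U : ℕ) := by exact_mod_cast hc' i
          have a2 := hcon i
          rw [lt_div_iff₀ hn]
          push_cast at a1 a2
          calc _ ≤ ((Fintype.card ι : ℝ) ^ 2 * B * U) *
                ‖1 - ψ (Ideal.Quotient.mk I ((M : 𝓞 K) * ω i))‖ * Fintype.card ι := by gcongr
            _ < 1 := by linarith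
      _ = 1 := by rw [sum_const, card_univ, nsmul_eq_mul]; field_simp
  have h1 : ∑ y, (1 - ψ y) = (Fintype.card (𝓞 K ⧸ I) : ℂ) := by
    rw [sum_sub_distrib, AddChar.sum_eq_zero_iff_ne_zero.2 hψ]; simp
  have h2 : ‖∑ y, (1 - ψ y)‖ < ∑ _y : 𝓞 K ⧸ I, (1 : ℝ) :=
    (norm_sum_le _ _).trans_lt (sum_lt_sum_of_nonempty univ_nonempty fun y _ => key y)
  rw [h1] at h2
  simp at h2

end Pool.Agent.MP_48b1c3_nt

end

-- part MP_48b1c3_nt.Samp
section

set_option autoImplicit false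
set_option linter.unusedSectionVars false

open NumberField Finset Module

namespace Pool.Agent.MP_48b1c3_nt

variable {K : Type*} [Field K] [NumberField K] {ι : Type*} [Fintype ι] [DecidableEq ι]

open Classical in
/-- Indicator of an ideal. -/
noncomputable def ind (I : Ideal (𝓞 K)) (y : 𝓞 K) : ℝ := if y ∈ I then 1 else 0

lemma addChar_sum {A κ : Type*} [AddCommGroup A] (ψ : AddChar A ℂ) (s : Finset κ) (f : κ → A) :
    ψ (∑ i ∈ s, f i) = ∏ i ∈ s, ψ (f i) := by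
  classical
  induction s using Finset.induction_on with
  | empty => simp
  | insert a s ha ih => rw [sum_insert ha, prod_insert ha, ψ.map_add_eq_mul, ih]

lemma Dat.equi {ω : ι → 𝓞 K} {B M : ℕ} (h : Dat ω B M) {I : Ideal (𝓞 K)} {U : ℕ} (hU1 : 1 ≤ U)
    (h0 : Ideal.absNorm I ≠ 0) (hU : Ideal.absNorm I ≤ U ^ Fintype.card ι)
    (hc : (Ideal.absNorm I).Coprime M) (m k : ℕ) (hk : k = 4 * (Fintype.card ι ^ 3 * B * U))
    (a : 𝓞 K) :
    |(∑ f : ι × Fin m → Fin k, ind I (a + ∑ p, (f p : ℕ) • ((M : 𝓞 K) * ω p.1))) /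
      (k : ℝ) ^ Fintype.card (ι × Fin m) - 1 / Ideal.absNorm I| ≤ (1 / 2) ^ m := by
  classical
  have hfin : Finite (𝓞 K ⧸ I) := (Ideal.absNorm_ne_zero_iff I).1 h0
  have := Fintype.ofFinite (𝓞 K ⧸ I)
  have hN : Fintype.card (𝓞 K ⧸ I) = Ideal.absNorm I := by
    rw [← Nat.card_eq_fintype_card, ← Submodule.cardQuot_apply, ← Ideal.absNorm_apply]
  have hk0 : 0 < k := by
    have := h.pos; have := h.hB
    rw [hk]; positivity
  have hkR : (0 : ℝ) < k := by exact_mod_cast hk0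
  have hkC : (k : ℂ) ≠ 0 := by exact_mod_cast hk0.ne'
  have hNC : (Ideal.absNorm I : ℂ) ≠ 0 := by exact_mod_cast h0
  have hNR : (0 : ℝ) < Ideal.absNorm I := by exact_mod_cast Nat.pos_of_ne_zero h0
  let w : AddChar (𝓞 K ⧸ I) ℂ → ι → ℂ := fun ψ i => ψ (Ideal.Quotient.mk I ((M : 𝓞 K) * ω i))
  let T : AddChar (𝓞 K ⧸ I) ℂ → ℂ := fun ψ =>
    ψ (Ideal.Quotient.mk I a) * ∏ p : ι × Fin m, (∑ t : Fin k, w ψ p.1 ^ (t : ℕ)) / k
  have hT : ∀ ψ : AddChar (𝓞 K ⧸ I) ℂ, (∑ f : ι × Fin m → Fin k, ψ (Ideal.Quotient.mk I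
      (a + ∑ p, (f p : ℕ) • ((M : 𝓞 K) * ω p.1)))) / (k : ℂ) ^ Fintype.card (ι × Fin m) = T ψ := by
    intro ψ
    simp only [T]
    rw [prod_div_distrib, prod_const, card_univ, Fintype.prod_sum, ← mul_div_assoc, mul_sum]
    congr 1
    refine sum_congr rfl fun f _ => ?_
    rw [map_add, ψ.map_add_eq_mul, map_sum, addChar_sum]
    congr 1
    exact prod_congr rfl fun p _ => by rw [map_nsmul, ψ.map_nsmul_eq_pow]
  have hT0 : T 0 = 1 := by simp [T, w, hkC]
  have hT1 : ∀ ψ, ψ ≠ 0 → ‖T ψ‖ ≤ (1 / 2) ^ m := fun ψ hψ => by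
    obtain ⟨i, hi⟩ := h.char h0 hU hc ψ hψ
    have hw : ∀ j, ‖w ψ j‖ = 1 := fun j => ψ.norm_apply _
    have b1 : ∀ j, ‖(∑ t : Fin k, w ψ j ^ (t : ℕ)) / k‖ ≤ 1 := fun j => by
      rw [norm_div, Complex.norm_natCast, div_le_one hkR]
      refine (norm_sum_le _ _).trans ?_
      simp [hw]
    have b2 : ‖(∑ t : Fin k, w ψ i ^ (t : ℕ)) / k‖ ≤ 1 / 2 := by
      rw [norm_div, Complex.norm_natCast, div_le_iff₀ hkR, Fin.sum_univ_eq_sum_range]
      have e := congrArg norm (mul_neg_geom_sum (w ψ i) k)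
      rw [norm_mul] at e
      have e2 : ‖1 - w ψ i ^ k‖ ≤ 2 := (norm_sub_le _ _).trans (by simp [hw]; norm_num)
      have e3 : (k : ℝ) = 4 * (Fintype.card ι ^ 3 * B * U : ℕ) := by exact_mod_cast hk
      change 1 ≤ _ * ‖1 - w ψ i‖ at hi
      have e4 := norm_nonneg (∑ t ∈ range k, w ψ i ^ t)
      have e5 : (0 : ℝ) ≤ (Fintype.card ι ^ 3 * B * U : ℕ) := Nat.cast_nonneg _
      rw [e3]
      nlinarith
    simp only [T]
    rw [norm_mul, ψ.norm_apply, one_mul, norm_prod, Fintype.prod_prod_type]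
    calc _ ≤ ∏ j ∈ {i}, ∏ _y : Fin m, ‖(∑ t : Fin k, w ψ j ^ (t : ℕ)) / k‖ :=
          prod_le_prod_of_subset_of_le_one (subset_univ _) (fun _ _ => by positivity)
            fun j _ _ => prod_le_one (fun _ _ => norm_nonneg _) fun _ _ => b1 j
      _ ≤ _ := by
          rw [prod_singleton, prod_const, card_univ, Fintype.card_fin]
          gcongr
  have hind : ∀ y : 𝓞 K, ((ind I y : ℝ) : ℂ) =
      (∑ ψ : AddChar (𝓞 K ⧸ I) ℂ, ψ (Ideal.Quotient.mk I y)) / Ideal.absNorm I := fun y => by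
    rw [AddChar.sum_apply_eq_ite, hN, ind]
    simp only [Ideal.Quotient.eq_zero_iff_mem]
    split_ifs <;> simp [hNC]
  have main : ((((∑ f : ι × Fin m → Fin k, ind I (a + ∑ p, (f p : ℕ) • ((M : 𝓞 K) * ω p.1))) /
      (k : ℝ) ^ Fintype.card (ι × Fin m) - 1 / Ideal.absNorm I : ℝ)) : ℂ) =
      (∑ ψ ∈ univ.erase 0, T ψ) / Ideal.absNorm I := by
    push_cast
    simp only [hind]
    rw [← sum_div, sum_comm, div_right_comm, sum_div]
    simp only [hT]
    rw [← add_sum_erase _ _ (mem_univ 0), hT0]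
    ring
  rw [← Real.norm_eq_abs, ← Complex.norm_real, main, norm_div, Complex.norm_natCast,
    div_le_iff₀ hNR]
  refine (norm_sum_le _ _).trans ((sum_le_card_nsmul _ _ _ fun ψ hψ =>
    hT1 ψ (ne_of_mem_erase hψ)).trans ?_)
  rw [nsmul_eq_mul, mul_comm]
  gcongr
  exact card_erase_le.trans (by rw [card_univ, AddChar.card_eq, hN])

lemma norm_modEq (c M : ℕ) (γ : 𝓞 K) :
    Algebra.norm ℤ ((c : 𝓞 K) + M * γ) ≡ (c ^ finrank ℚ K : ℕ) [ZMOD M] := by
  classical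
  let b := RingOfIntegers.basis K
  rw [Algebra.norm_eq_matrix_det b, ← ZMod.intCast_eq_intCast_iff]
  have e := RingHom.map_det (Int.castRingHom (ZMod M)) (Algebra.leftMulMatrix b ((c : 𝓞 K) + M * γ))
  rw [eq_intCast] at e
  rw [e, map_add, map_mul, map_natCast, map_natCast, map_add, map_mul, map_natCast, map_natCast]
  have : ((M : ℕ) : Matrix (Free.ChooseBasisIndex ℤ (𝓞 K)) (Free.ChooseBasisIndex ℤ (𝓞 K))
      (ZMod M)) = 0 := by
    rw [← map_natCast (algebraMap (ZMod M) _), ZMod.natCast_self, map_zero]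
  rw [this, zero_mul, add_zero, ← map_natCast (algebraMap (ZMod M) _), Algebra.algebraMap_eq_smul_one,
    Matrix.det_smul, Matrix.det_one, ← finrank_eq_card_chooseBasisIndex, RingOfIntegers.rank]
  push_cast; ring

lemma Dat.norm_near {ω : ι → 𝓞 K} {B M : ℕ} (h : Dat ω B M) {m k c V : ℕ} (hm : 1 ≤ m) (hk : 1 ≤ k)
    (hc : c ≤ M) (hV : 4 * Fintype.card ι ^ 2 * m * k * B ≤ V) (f : ι × Fin m → Fin k) :
    |((Algebra.norm ℤ ((c : 𝓞 K) + M * V + ∑ p, (f p : ℕ) • ((M : 𝓞 K) * ω p.1)) : ℤ) : ℝ) -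
      ((M * V : ℕ) : ℝ) ^ Fintype.card ι| ≤ 13 / 20 * ((M * V : ℕ) : ℝ) ^ Fintype.card ι := by
  set α : 𝓞 K := (c : 𝓞 K) + M * V + ∑ p, (f p : ℕ) • ((M : 𝓞 K) * ω p.1) with hα
  have hn := h.pos
  have hB := h.hB
  have hM := h.hM1
  have hV0 : 0 < V := lt_of_lt_of_le (by positivity) hV
  have hVC : (V : ℂ) ≠ 0 := by exact_mod_cast hV0.ne'
  have hMC : (M : ℂ) ≠ 0 := by exact_mod_cast (by omega : M ≠ 0)
  have hVR : (0 : ℝ) < V := by exact_mod_cast hV0
  have hMR : (0 : ℝ) < M := by exact_mod_cast hM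
  let δ : (K →ₐ[ℚ] ℂ) → ℂ := fun σ => ((c : ℂ) / M + ∑ p, (f p : ℕ) * σ (ω p.1 : K)) / V
  have e1 : ∀ σ : K →ₐ[ℚ] ℂ, σ (α : K) = (M * V : ℕ) * (1 + δ σ) := fun σ => by
    have : (α : K) = c + M * V + ∑ p, ((f p : ℕ) : K) * (M * (ω p.1 : K)) := by
      rw [show (α : K) = algebraMap (𝓞 K) K α from rfl, hα]
      simp only [map_add, map_mul, map_natCast, map_sum, nsmul_eq_mul]
    rw [this]
    simp only [map_add, map_mul, map_natCast, map_sum, δ]
    have : ∀ p : ι × Fin m, ((f p : ℕ) : ℂ) * (M * σ (ω p.1 : K)) =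
      M * (((f p : ℕ) : ℂ) * σ (ω p.1 : K)) := fun p => by ring
    simp only [this, ← mul_sum]
    push_cast
    field_simp
    ring
  have e2 : ∀ σ, ‖δ σ‖ ≤ 1 / (2 * Fintype.card ι) := fun σ => by
    have a1 : ‖(c : ℂ) / M‖ ≤ 1 := by
      rw [norm_div, Complex.norm_natCast, Complex.norm_natCast, div_le_one hMR]
      exact_mod_cast hc
    have a2 : ‖∑ p : ι × Fin m, ((f p : ℕ) : ℂ) * σ (ω p.1 : K)‖ ≤
        (Fintype.card ι * m * k * B : ℕ) := by
      refine (norm_sum_le _ _).trans ((sum_le_card_nsmul _ _ ((k : ℝ) * B) fun p _ => ?_).trans ?_)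
      · rw [norm_mul, Complex.norm_natCast]
        have b1 : ((f p : ℕ) : ℝ) ≤ k := by exact_mod_cast (f p).2.le
        have b2 : ‖σ (ω p.1 : K)‖ ≤ B := h.hemb σ.toRingHom p.1
        gcongr
      · simp [mul_assoc]
    have a3 : (1 : ℝ) ≤ (Fintype.card ι * m * k * B : ℕ) := by
      exact_mod_cast Nat.succ_le_of_lt (by positivity)
    have a4 : ((4 * Fintype.card ι ^ 2 * m * k * B : ℕ) : ℝ) ≤ V := by exact_mod_cast hV
    have hnR : (0 : ℝ) < Fintype.card ι := by exact_mod_cast hn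
    simp only [δ]
    rw [norm_div, Complex.norm_natCast, div_le_div_iff₀ hVR (by positivity)]
    have a5 := (norm_add_le _ _).trans (add_le_add a1 a2)
    push_cast at a3 a4 a5
    calc _ ≤ (2 * ((Fintype.card ι : ℝ) * m * k * B)) * (2 * Fintype.card ι) := by
          gcongr; linarith
      _ ≤ _ := by nlinarith
  have hcard : Fintype.card (K →ₐ[ℚ] ℂ) = Fintype.card ι := by rw [AlgHom.card, h.hcard]
  have e3 : (((Algebra.norm ℤ α : ℤ) : ℝ) : ℂ) =
      ((M * V : ℕ) : ℂ) ^ Fintype.card ι * ∏ σ, (1 + δ σ) := by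
    have := Algebra.norm_eq_prod_embeddings ℚ ℂ (α : K)
    rw [← Algebra.coe_norm_int] at this
    simp only [e1] at this
    rw [prod_mul_distrib, prod_const, card_univ, hcard] at this
    rw [← this]; simp
  have e4 : ‖∏ σ, (1 + δ σ) - 1‖ ≤ 13 / 20 := by
    refine (Finset.norm_prod_one_add_sub_one_le _ _).trans ?_
    have a1 : ∑ σ, ‖δ σ‖ ≤ 1 / 2 := by
      refine (sum_le_card_nsmul _ _ _ fun σ _ => e2 σ).trans (le_of_eq ?_)
      have hnR : (Fintype.card ι : ℝ) ≠ 0 := by exact_mod_cast (by omega : Fintype.card ι ≠ 0)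
      rw [card_univ, hcard, nsmul_eq_mul]; field_simp
    have a2 : Real.exp (1 / 2) ≤ 33 / 20 := by
      have b1 : Real.exp (1 / 2) * Real.exp (1 / 2) = Real.exp 1 := by
        rw [← Real.exp_add]; norm_num
      nlinarith [Real.exp_one_lt_d9, Real.exp_pos (1 / 2)]
    linarith [Real.exp_le_exp.2 a1]
  rw [← Real.norm_eq_abs, ← Complex.norm_real, Complex.ofReal_sub, e3, Complex.ofReal_pow,
    Complex.ofReal_natCast, ← mul_sub_one, norm_mul, norm_pow, Complex.norm_natCast, mul_comm]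
  gcongr

/-- Norm of the principal ideal. -/
noncomputable abbrev nrm (y : 𝓞 K) : ℕ := Ideal.absNorm (Ideal.span {y})

/-- Elements of norm about `S` in the class `r` modulo `M`. -/
def Good (M S r : ℕ) (y : 𝓞 K) : Prop := S ≤ 6 * nrm y ∧ nrm y ≤ 2 * S ∧ nrm y ≡ r [MOD M]

variable (K) in
/-- An averaging functional on good elements, equidistributed modulo small ideals. -/
def Samp (M Y S r : ℕ) (ε : ℝ) : Prop :=
  ∃ E : (𝓞 K → ℝ) →ₗ[ℝ] ℝ, (∀ F : 𝓞 K → ℝ, (∀ y, Good M S r y → 0 ≤ F y) → 0 ≤ E F) ∧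
    ∀ I : Ideal (𝓞 K), Ideal.absNorm I ≠ 0 → (Ideal.absNorm I).Coprime M →
      Ideal.absNorm I * Y ≤ S → |E (ind I) - 1 / Ideal.absNorm I| ≤ ε

lemma succ_pow_le {V n : ℕ} (h : 2 * n ≤ V) (hV : 0 < V) : (V + 1) ^ n ≤ 2 * V ^ n := by
  have hVR : (0 : ℝ) < V := by exact_mod_cast hV
  have h1 : ((V : ℝ) + 1) ^ n ≤ (V * Real.exp (1 / V)) ^ n := by
    gcongr
    have := Real.add_one_le_exp (1 / V : ℝ)
    calc (V : ℝ) + 1 = V * (1 / V + 1) := by field_simp; ring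
      _ ≤ _ := by gcongr
  have h2 : Real.exp (1 / V) ^ n ≤ 2 := by
    rw [← Real.exp_nat_mul]
    have a1 : (n : ℝ) * (1 / V) ≤ 1 / 2 := by
      have : ((2 * n : ℕ) : ℝ) ≤ V := by exact_mod_cast h
      push_cast at this
      rw [mul_one_div, div_le_div_iff₀ hVR two_pos]; linarith
    have b1 : Real.exp (1 / 2) * Real.exp (1 / 2) = Real.exp 1 := by
      rw [← Real.exp_add]; norm_num
    have := Real.exp_le_exp.2 a1
    nlinarith [Real.exp_one_lt_d9, Real.exp_pos (1 / 2)]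
  have h3 : ((V : ℝ) + 1) ^ n ≤ 2 * V ^ n := by
    rw [mul_pow] at h1
    calc _ ≤ _ := h1
      _ ≤ (V : ℝ) ^ n * 2 := by gcongr
      _ = _ := by ring
  exact_mod_cast h3

lemma Dat.samp {ω : ι → 𝓞 K} {B M : ℕ} (h : Dat ω B M) {m S c : ℕ} (hm : 1 ≤ m) (hc : c ≤ M)
    (hS : 2 * (32 * M * finrank ℚ K ^ 5 * m * B ^ 2) ^ finrank ℚ K ≤ S) :
    Samp K M (2 * (32 * M * finrank ℚ K ^ 5 * m * B ^ 2) ^ finrank ℚ K) S (c ^ finrank ℚ K)
      ((1 / 2) ^ m) := by
  classical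
  have hn := h.pos
  have hB := h.hB
  have hM := h.hM1
  rw [← h.hcard] at hS ⊢
  set n := Fintype.card ι with hn'
  set D := 16 * n ^ 5 * m * B ^ 2 with hD
  have hD0 : 0 < D := by positivity
  have hD' : 32 * M * n ^ 5 * m * B ^ 2 = M * (2 * D) := by rw [hD]; ring
  rw [hD'] at hS ⊢
  obtain ⟨V, hV1, hV2⟩ : ∃ V, (M * V) ^ n ≤ S ∧ S < (M * (V + 1)) ^ n := by
    have ex : ∃ V, S < (M * (V + 1)) ^ n := ⟨S, lt_of_lt_of_le (by nlinarith)
      (Nat.le_self_pow (by omega) _)⟩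
    refine ⟨Nat.find ex, ?_, Nat.find_spec ex⟩
    rcases h0 : Nat.find ex with _ | v
    · simp [show n ≠ 0 by omega]
    · exact not_lt.1 (Nat.find_min ex (by omega))
  have hV3 : 2 * D ≤ V := by
    have : (M * (2 * D)) ^ n < (M * (V + 1)) ^ n := by omega
    have := lt_of_pow_lt_pow_left₀ _ (Nat.zero_le _) this
    have := Nat.lt_of_mul_lt_mul_left this
    omega
  have hnD : n ≤ D := by
    calc n = 1 * n ^ 1 * 1 * 1 ^ 2 := by ring
      _ ≤ _ := by rw [hD]; gcongr <;> omega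
  have hV4 : S ≤ 2 * (M * V) ^ n := by
    have := succ_pow_le (V := V) (n := n) (by omega) (by omega)
    rw [mul_pow] at hV2 ⊢
    nlinarith [Nat.mul_le_mul_left (M ^ n) this]
  set U := V / D with hU
  have hU1 : V ≤ 2 * D * U := by
    have a1 := Nat.lt_mul_div_succ V hD0
    have a2 : 1 ≤ U := (Nat.le_div_iff_mul_le hD0).2 (by omega)
    rw [← hU] at a1
    nlinarith
  have hU2 : 1 ≤ U := (Nat.le_div_iff_mul_le hD0).2 (by omega)
  obtain ⟨k, hk⟩ : ∃ k, k = 4 * (n ^ 3 * B * U) := ⟨_, rfl⟩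
  have hk1 : 1 ≤ k := by rw [hk]; exact Nat.succ_le_of_lt (by positivity)
  have hkV : 4 * n ^ 2 * m * k * B ≤ V :=
    (le_of_eq (by rw [hk, hD]; ring)).trans (Nat.mul_div_le V D)
  let α : (ι × Fin m → Fin k) → 𝓞 K := fun f =>
    (c : 𝓞 K) + M * V + ∑ p, (f p : ℕ) • ((M : 𝓞 K) * ω p.1)
  have good : ∀ f, Good M S (c ^ n) (α f) := fun f => by
    have a1 := h.norm_near hm hk1 hc hkV f
    change |((Algebra.norm ℤ (α f) : ℤ) : ℝ) - _| ≤ _ at a1
    have a2 : (0 : ℝ) ≤ ((M * V : ℕ) : ℝ) ^ n := by positivity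
    rw [abs_le, ← hn'] at a1
    have a3 : 0 ≤ Algebra.norm ℤ (α f) := by
      have : (0 : ℝ) ≤ ((Algebra.norm ℤ (α f) : ℤ) : ℝ) := by linarith [a1.1]
      exact_mod_cast this
    have a4 : (nrm (α f) : ℤ) = Algebra.norm ℤ (α f) := by
      rw [nrm, Ideal.absNorm_span_singleton, Int.natAbs_of_nonneg a3]
    have a5 : (nrm (α f) : ℝ) = ((Algebra.norm ℤ (α f) : ℤ) : ℝ) := by exact_mod_cast a4
    have a6 : ((M * V : ℕ) : ℝ) ^ n ≤ S := by exact_mod_cast hV1
    have a7 : (S : ℝ) ≤ 2 * ((M * V : ℕ) : ℝ) ^ n := by exact_mod_cast hV4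
    refine ⟨?_, ?_, ?_⟩
    · have : (S : ℝ) ≤ 6 * nrm (α f) := by linarith [a1.1]
      exact_mod_cast this
    · have : (nrm (α f) : ℝ) ≤ 2 * S := by linarith [a1.2]
      exact_mod_cast this
    · rw [← Int.natCast_modEq_iff, a4, hn', h.hcard]
      have : α f = c + M * (V + ∑ p, (f p : ℕ) • ω p.1) := by
        simp only [α, mul_add, mul_sum, mul_smul_comm, add_assoc]
      rw [this]
      exact norm_modEq c M _
  refine ⟨((k : ℝ) ^ Fintype.card (ι × Fin m))⁻¹ • ∑ f, LinearMap.proj (α f), fun F hF => ?_,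
    fun I h0 hI hIS => ?_⟩
  · simp only [LinearMap.smul_apply, LinearMap.sum_apply, LinearMap.proj_apply, smul_eq_mul]
    exact mul_nonneg (by positivity) (sum_nonneg fun f _ => hF _ (good f))
  · simp only [LinearMap.smul_apply, LinearMap.sum_apply, LinearMap.proj_apply, smul_eq_mul]
    rw [← div_eq_inv_mul]
    refine h.equi hU2 h0 ?_ hI m k hk _
    have a1 : Ideal.absNorm I * (2 * (M * (2 * D)) ^ n) ≤ U ^ n * (2 * (M * (2 * D)) ^ n) := by
      calc _ ≤ 2 * (M * V) ^ n := hIS.trans hV4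
        _ ≤ 2 * (M * (2 * D * U)) ^ n := by gcongr
        _ = _ := by rw [← mul_assoc M, mul_pow]; ring
    exact Nat.le_of_mul_le_mul_right a1 (by positivity)

end Pool.Agent.MP_48b1c3_nt

end

-- part MP_48b1c3_nt.Sieve
section

set_option autoImplicit false
set_option linter.unusedSectionVars false

open NumberField Finset Module UniqueFactorizationMonoid

namespace Pool.Agent.MP_48b1c3_nt

variable {K : Type*} [Field K] [NumberField K]

open Ideal (absNorm)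

lemma ind_nonneg (I : Ideal (𝓞 K)) (y : 𝓞 K) : 0 ≤ ind I y := by
  unfold ind; split_ifs <;> norm_num

lemma ind_of_mem {I : Ideal (𝓞 K)} {y : 𝓞 K} (h : y ∈ I) : ind I y = 1 := if_pos h

lemma ind_of_notMem {I : Ideal (𝓞 K)} {y : 𝓞 K} (h : y ∉ I) : ind I y = 0 := if_neg h

lemma ind_mul_self (I : Ideal (𝓞 K)) (y : 𝓞 K) : ind I y * ind I y = ind I y := by
  unfold ind; split_ifs <;> norm_num

lemma two_le_norm {q : Ideal (𝓞 K)} (hq : Prime q) : 2 ≤ absNorm q := by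
  have h0 : absNorm q ≠ 0 := fun h => hq.ne_zero (Ideal.absNorm_eq_zero_iff.1 h)
  have h1 : absNorm q ≠ 1 := fun h => hq.not_isUnit (by
    rw [Ideal.absNorm_eq_one_iff.1 h]; exact Ideal.isUnit_iff.2 rfl)
  omega

lemma card_dvd_le (I : Ideal (𝓞 K)) : absNorm I ≠ 0 → ∀ A : Finset (Ideal (𝓞 K)),
    (∀ a ∈ A, a ∣ I) → A.card ≤ absNorm I := by
  classical
  induction I using UniqueFactorizationMonoid.induction_on_prime with
  | h₁ => simp
  | h₂ x hx =>
    intro h0 A hA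
    refine le_trans (card_le_one.2 fun a ha b hb => ?_) (Nat.pos_of_ne_zero h0)
    rw [Ideal.isUnit_iff.1 (isUnit_of_dvd_unit (hA a ha) hx),
      Ideal.isUnit_iff.1 (isUnit_of_dvd_unit (hA b hb) hx)]
  | h₃ a p ha hp ih =>
    intro h0 A hA
    rw [map_mul] at h0 ⊢
    have h1 := ih (right_ne_zero_of_mul h0)
    have inj : Function.Injective fun b : Ideal (𝓞 K) => p * b := mul_right_injective₀ hp.ne_zero
    have h2 := h1 (A.filter (· ∣ a)) fun b hb => (mem_filter.1 hb).2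
    have h3 := h1 (A.preimage (p * ·) inj.injOn) fun b hb =>
      (mul_dvd_mul_iff_left hp.ne_zero).1 (hA _ (mem_preimage.1 hb))
    have h4 : A ⊆ A.filter (· ∣ a) ∪ (A.preimage (p * ·) inj.injOn).image (p * ·) := fun b hb => by
      rcases hp.left_dvd_or_dvd_right_of_dvd_mul (hA b hb) with ⟨c, rfl⟩ | h
      · exact mem_union_right _ (mem_image_of_mem _ (mem_preimage.2 hb))
      · exact mem_union_left _ (mem_filter.2 ⟨hb, h⟩)
    have h5 := (card_le_card h4).trans (card_union_le _ _)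
    have h6 := card_image_le (s := A.preimage (p * ·) inj.injOn) (f := (p * ·))
    nlinarith [two_le_norm hp]

lemma sum_ind_le {A C : Finset (Ideal (𝓞 K))} {y : 𝓞 K} (hy : nrm y ≠ 0) (g : Ideal (𝓞 K) → ℝ)
    (hg : ∀ b ∈ C, 0 ≤ g b) (h : ∀ a ∈ A, ∀ b, a * b = Ideal.span {y} → b ∈ C ∧ 1 ≤ g b) :
    ∑ a ∈ A, ind a y ≤ ∑ b ∈ C, g b := by
  classical
  have h1 : ∑ a ∈ A, ind a y = (A.filter (y ∈ ·)).card := by
    rw [card_filter]; push_cast; exact sum_congr rfl fun a _ => by unfold ind; congr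
  have h2 : (A.filter (y ∈ ·)).card ≤ (C.filter (1 ≤ g ·)).card := by
    refine card_le_card_of_forall_subsingleton (fun a b => a * b = Ideal.span {y}) (fun a ha => ?_)
      fun b _ a ha a' ha' => ?_
    · obtain ⟨b, hb⟩ := Ideal.dvd_span_singleton.2 (mem_filter.1 ha).2
      exact ⟨b, mem_filter.2 (h a (mem_filter.1 ha).1 b hb.symm), hb.symm⟩
    · have hb : b ≠ 0 := by
        rintro rfl
        apply hy
        rw [nrm, ← ha.2]; simp
      exact mul_right_cancel₀ hb (ha.2.trans ha'.2.symm)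
  rw [h1]
  calc _ ≤ ((C.filter (1 ≤ g ·)).card : ℝ) := by exact_mod_cast h2
    _ ≤ ∑ b ∈ C.filter (1 ≤ g ·), g b := by
        rw [← nsmul_one]; exact card_nsmul_le_sum _ _ _ fun b hb => (mem_filter.1 hb).2
    _ ≤ _ := sum_le_sum_of_subset_of_nonneg (filter_subset _ _) fun b hb _ => hg b hb

variable (K) in
/-- Nonzero ideals of norm at most `t` and prime to `M`. -/
noncomputable def idl (M t : ℕ) : Finset (Ideal (𝓞 K)) :=
  (Ideal.finite_setOfPred_absNorm_le t).toFinset.filter fun I =>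
    absNorm I ≠ 0 ∧ (absNorm I).Coprime M

lemma mem_idl {M t : ℕ} {I : Ideal (𝓞 K)} :
    I ∈ idl K M t ↔ absNorm I ≤ t ∧ absNorm I ≠ 0 ∧ (absNorm I).Coprime M := by
  simp [idl]

lemma Samp.cmp {M Y S r : ℕ} {ε t : ℝ} (h : Samp K M Y S r ε) {A C : Finset (Ideal (𝓞 K))}
    {s : ℕ} (hs : s * Y ≤ S) (hA : A ⊆ idl K M s) (hC : C ⊆ idl K M s) (ht : 0 ≤ t)
    (hle : ∀ y, Good M S r y → ∑ a ∈ A, ind a y ≤ t * ∑ b ∈ C, ind b y) :
    ∑ a ∈ A, (1 / absNorm a : ℝ) - ε * A.card ≤ t * (∑ b ∈ C, (1 / absNorm b : ℝ) + ε * C.card) := by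
  obtain ⟨E, hpos, hE⟩ := h
  have h1 := hpos (t • ∑ b ∈ C, ind b - ∑ a ∈ A, ind a) fun y hy => by
    simpa using hle y hy
  have h2 : ∀ a ∈ idl K M s, |E (ind a) - 1 / absNorm a| ≤ ε := fun a ha => by
    rw [mem_idl] at ha
    exact hE a ha.2.1 ha.2.2 ((Nat.mul_le_mul_right _ ha.1).trans hs)
  rw [map_sub, map_smul, map_sum, map_sum, smul_eq_mul] at h1
  have h3 : ∑ a ∈ A, ((1 / absNorm a : ℝ) - ε) ≤ ∑ a ∈ A, E (ind a) :=
    sum_le_sum fun a ha => by linarith [(abs_le.1 (h2 a (hA ha))).1]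
  have h4 : ∑ a ∈ C, E (ind a) ≤ ∑ a ∈ C, ((1 / absNorm a : ℝ) + ε) :=
    sum_le_sum fun a ha => by linarith [(abs_le.1 (h2 a (hC ha))).2]
  rw [sum_sub_distrib, sum_const, nsmul_eq_mul] at h3
  rw [sum_add_distrib, sum_const, nsmul_eq_mul] at h4
  nlinarith [mul_le_mul_of_nonneg_left h4 ht]

lemma top_mem_idl {M t : ℕ} (ht : 1 ≤ t) : (⊤ : Ideal (𝓞 K)) ∈ idl K M t := by
  rw [mem_idl, Ideal.absNorm_top]; simpa using ht

lemma Samp.card_idl {M Y t r : ℕ} {ε : ℝ} (h : Samp K M Y (t * Y) r ε) (ht : 1 ≤ t) (hY : 1 ≤ Y)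
    (hε : 4 * t * ε ≤ 1) : (idl K M t).card ≤ 4 * t ^ 2 * Y := by
  have h1 := h.cmp (t := 2 * (t * Y)) le_rfl (Subset.refl _)
    (singleton_subset_iff.2 (top_mem_idl ht)) (by positivity) fun y hy => by
      classical
      have a0 : nrm y ≠ 0 := by have := hy.1; have := Nat.mul_pos ht hY; omega
      have a1 : ∑ a ∈ idl K M t, ind a y = ((idl K M t).filter (y ∈ ·)).card := by
        rw [card_filter]; push_cast; exact sum_congr rfl fun a _ => by unfold ind; congr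
      have a2 := card_dvd_le _ a0 ((idl K M t).filter (y ∈ ·)) fun a ha =>
        Ideal.dvd_span_singleton.2 (mem_filter.1 ha).2
      rw [a1, sum_singleton, ind_of_mem Submodule.mem_top, mul_one]
      exact_mod_cast a2.trans hy.2.1
  have htR : (1 : ℝ) ≤ t := by exact_mod_cast ht
  have hYR : (1 : ℝ) ≤ Y := by exact_mod_cast hY
  have h2 : (idl K M t).card • (1 / t : ℝ) ≤ ∑ a ∈ idl K M t, (1 / absNorm a : ℝ) :=
    card_nsmul_le_sum _ _ _ fun a ha => by
      rw [mem_idl] at ha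
      have : (0 : ℝ) < absNorm a := by exact_mod_cast Nat.pos_of_ne_zero ha.2.1
      have : (absNorm a : ℝ) ≤ t := by exact_mod_cast ha.1
      gcongr
  rw [sum_singleton, Ideal.absNorm_top, card_singleton] at h1
  rw [nsmul_eq_mul, mul_one_div, div_le_iff₀ (by positivity)] at h2
  have h3 : (0 : ℝ) ≤ (idl K M t).card := Nat.cast_nonneg _
  have h4 : ε ≤ 1 / 4 := by
    by_contra hh
    nlinarith
  have h5 : ((idl K M t).card : ℝ) ≤ 4 * t ^ 2 * Y := by
    have a1 := mul_le_mul_of_nonneg_right h1 (by positivity : (0 : ℝ) ≤ t)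
    have a2 := mul_le_mul_of_nonneg_right hε h3
    have a3 : (0 : ℝ) ≤ t * Y * t := by positivity
    have a4 := mul_le_mul_of_nonneg_right h4 a3
    push_cast at a1
    nlinarith
  exact_mod_cast h5

lemma ind_mul_prod {b : Ideal (𝓞 K)} (hb : b ≠ 0) {A : Finset (Ideal (𝓞 K))}
    (hA : ∀ q ∈ A, Prime q) (y : 𝓞 K) :
    ind b y * ∏ q ∈ A, ind (b * q) y = ind (b * ∏ q ∈ A, q) y := by
  by_cases hy : y ∈ b * ∏ q ∈ A, q
  · rw [ind_of_mem hy, ind_of_mem (Ideal.mul_le_left hy), one_mul]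
    exact prod_eq_one fun q hq => ind_of_mem
      (Ideal.le_of_dvd (mul_dvd_mul_left b (dvd_prod_of_mem (fun q => q) hq)) hy)
  · rw [ind_of_notMem hy]
    by_contra hne
    obtain ⟨h1, h2⟩ := mul_ne_zero_iff.1 hne
    have h3 : y ∈ b := by_contra fun h => h1 (ind_of_notMem h)
    obtain ⟨c, hc⟩ := Ideal.dvd_span_singleton.2 h3
    refine hy (Ideal.dvd_span_singleton.1 ?_)
    rw [hc]
    refine mul_dvd_mul_left b (prod_primes_dvd _ hA fun q hq => ?_)
    have h4 : y ∈ b * q := by_contra fun h => h2 (prod_eq_zero hq (ind_of_notMem h))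
    rw [← Ideal.dvd_span_singleton, hc] at h4
    exact (mul_dvd_mul_iff_left hb).1 h4

lemma expand {M Y S : ℕ} {ε : ℝ} {E : (𝓞 K → ℝ) →ₗ[ℝ] ℝ}
    (hE : ∀ I : Ideal (𝓞 K), absNorm I ≠ 0 → (absNorm I).Coprime M →
      absNorm I * Y ≤ S → |E (ind I) - 1 / absNorm I| ≤ ε)
    {b : Ideal (𝓞 K)} (hb : absNorm b ≠ 0) (hbM : (absNorm b).Coprime M)
    {T : Finset (Ideal (𝓞 K))} (hT : ∀ q ∈ T, Prime q ∧ (absNorm q).Coprime M)
    (hS : absNorm b * (∏ q ∈ T, absNorm q) * Y ≤ S) (β : Ideal (𝓞 K) → ℝ) :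
    E (fun y => ind b y * ∏ q ∈ T, (1 + β q * ind (b * q) y)) ≤
      1 / absNorm b * ∏ q ∈ T, (1 + β q / absNorm q) + ε * ∏ q ∈ T, (1 + |β q|) := by
  have hb0 : b ≠ 0 := fun h => hb (by simp [h])
  have e : (fun y => ind b y * ∏ q ∈ T, (1 + β q * ind (b * q) y)) =
      ∑ A ∈ T.powerset, (∏ q ∈ A, β q) • ind (b * ∏ q ∈ A, q) := by
    funext y
    rw [prod_one_add, mul_sum, Finset.sum_apply]
    refine sum_congr rfl fun A hA => ?_
    rw [prod_mul_distrib, Pi.smul_apply, smul_eq_mul,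
      ← ind_mul_prod hb0 fun q hq => (hT q (mem_powerset.1 hA hq)).1]
    ring
  rw [e, map_sum, prod_one_add, prod_one_add, mul_sum, mul_sum, ← sum_add_distrib]
  refine sum_le_sum fun A hA => ?_
  have hA' := mem_powerset.1 hA
  have h1 : ∏ q ∈ A, absNorm q ≤ ∏ q ∈ T, absNorm q :=
    prod_le_prod_of_subset_of_one_le' hA' fun q hq _ => one_le_two.trans (two_le_norm (hT q hq).1)
  have h2 := hE (b * ∏ q ∈ A, q) (by
    rw [map_mul, map_prod]
    exact mul_ne_zero hb (prod_ne_zero_iff.2 fun q hq => by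
      have := two_le_norm (hT q (hA' hq)).1; omega)) (by
    rw [map_mul, map_prod]
    exact Nat.Coprime.mul_left hbM (Nat.Coprime.prod_left fun q hq => (hT q (hA' hq)).2)) (by
    rw [map_mul, map_prod]
    exact le_trans (by gcongr) hS)
  rw [map_mul, map_prod] at h2
  push_cast at h2
  rw [map_smul, smul_eq_mul, prod_div_distrib, ← abs_prod]
  have h3 := le_abs_self ((∏ q ∈ A, β q) *
    (E (ind (b * ∏ q ∈ A, q)) - 1 / (absNorm b * ∏ q ∈ A, (absNorm q : ℝ))))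
  rw [abs_mul] at h3
  have h4 := mul_le_mul_of_nonneg_left h2 (abs_nonneg (∏ q ∈ A, β q))
  have h5 : (1 : ℝ) / absNorm b * ((∏ q ∈ A, β q) / ∏ q ∈ A, (absNorm q : ℝ)) =
    (∏ q ∈ A, β q) * (1 / (absNorm b * ∏ q ∈ A, (absNorm q : ℝ))) := by ring
  rw [h5]
  linarith

open Classical in
/-- The set of prime factors. -/
noncomputable def sp (a : Ideal (𝓞 K)) : Finset (Ideal (𝓞 K)) := (normalizedFactors a).toFinset

lemma sp_spec {M z : ℕ} {a : Ideal (𝓞 K)} (ha : a ∈ idl K M z) :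
    (∀ q ∈ sp a, Prime q ∧ (absNorm q).Coprime M ∧ absNorm q ≤ z) ∧
      ∏ q ∈ sp a, absNorm q ≤ z := by
  classical
  rw [mem_idl] at ha
  have h1 : ∀ q ∈ sp a, Prime q ∧ q ∣ a := fun q hq => by
    rw [sp, Multiset.mem_toFinset] at hq
    exact ⟨prime_of_normalized_factor q hq, dvd_of_mem_normalizedFactors hq⟩
  refine ⟨fun q hq => ⟨(h1 q hq).1, ha.2.2.coprime_dvd_left (map_dvd _ (h1 q hq).2),
    (Nat.le_of_dvd (Nat.pos_of_ne_zero ha.2.1) (map_dvd _ (h1 q hq).2)).trans ha.1⟩, ?_⟩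
  rw [← map_prod]
  exact (Nat.le_of_dvd (Nat.pos_of_ne_zero ha.2.1) (map_dvd _
    (prod_primes_dvd _ (fun q hq => (h1 q hq).1) fun q hq => (h1 q hq).2))).trans ha.1

lemma geom_le {N : ℝ} (hN : 2 ≤ N) (L : ℕ) : (∑ k ∈ Icc 1 L, (1 / N) ^ k) * (N - 1) ≤ 1 := by
  have : (∑ k ∈ Icc 1 L, (1 / N) ^ k) * (N - 1) = 1 - (1 / N) ^ L := by
    induction L with
    | zero => simp
    | succ L ih =>
      rw [sum_Icc_succ_top (by omega), add_mul, ih]
      have : 1 / N * N = 1 := by field_simp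
      linear_combination (1 / N) ^ L * this
  rw [this]
  have : 0 ≤ (1 / N) ^ L := by positivity
  linarith

lemma rad_le {A E : Finset (Ideal (𝓞 K))} (hE : ∀ q ∈ E, Prime q)
    (hA : ∀ a ∈ A, absNorm a ≠ 0 ∧ sp a = E) :
    (∑ a ∈ A, (1 / absNorm a : ℝ)) * ∏ q ∈ E, ((absNorm q : ℝ) - 1) ≤ 1 := by
  classical
  let g : Ideal (𝓞 K) → E → ℕ := fun a q => (normalizedFactors a).count q.1
  let L := A.sup fun a => (normalizedFactors a).card
  have h1 : ∀ a ∈ A, a = ∏ q : E, q.1 ^ g a q := fun a ha => by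
    have h0 : a ≠ ⊥ := fun h => (hA a ha).1 (by simp [h])
    rw [prod_coe_sort E fun q => q ^ (normalizedFactors a).count q, ← (hA a ha).2]
    conv_lhs => rw [← Ideal.prod_normalizedFactors_eq_self h0]
    convert prod_multiset_count _
    ext; simp [sp]
  have h2 : ∑ a ∈ A, (1 / absNorm a : ℝ) ≤ ∏ q : E, ∑ k ∈ Icc 1 L, (1 / absNorm q.1 : ℝ) ^ k := by
    rw [prod_univ_sum]
    calc _ = ∑ a ∈ A, ∏ q : E, (1 / absNorm q.1 : ℝ) ^ g a q := by
          refine sum_congr rfl fun a ha => ?_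
          conv_lhs => rw [h1 a ha]
          simp
      _ = ∑ e ∈ A.image g, ∏ q : E, (1 / absNorm q.1 : ℝ) ^ e q :=
          (sum_image (f := fun e : E → ℕ => ∏ q : E, (1 / absNorm q.1 : ℝ) ^ e q)
            fun a ha a' ha' h => by rw [h1 a ha, h1 a' ha', h]).symm
      _ ≤ _ := by
          refine sum_le_sum_of_subset_of_nonneg (image_subset_iff.2 fun a ha => ?_)
            fun _ _ _ => by positivity
          refine Fintype.mem_piFinset.2 fun q => mem_Icc.2 ⟨Multiset.count_pos.2 ?_,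
            (Multiset.count_le_card _ _).trans
              (le_sup (f := fun a => (normalizedFactors a).card) ha)⟩
          have := (hA a ha).2.ge q.2
          rwa [sp, Multiset.mem_toFinset] at this
  have h3 : ∀ q ∈ E, (2 : ℝ) ≤ absNorm q := fun q hq => by exact_mod_cast two_le_norm (hE q hq)
  refine (mul_le_mul_of_nonneg_right h2 (prod_nonneg fun q hq => by linarith [h3 q hq])).trans ?_
  rw [← prod_coe_sort E, ← prod_mul_distrib]
  exact prod_le_one (fun q _ => mul_nonneg (by positivity) (by linarith [h3 q q.2]))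
    fun q _ => geom_le (h3 q q.2) L

lemma orth {M Y S z : ℕ} {ε : ℝ} {E : (𝓞 K → ℝ) →ₗ[ℝ] ℝ}
    (hE : ∀ I : Ideal (𝓞 K), absNorm I ≠ 0 → (absNorm I).Coprime M →
      absNorm I * Y ≤ S → |E (ind I) - 1 / absNorm I| ≤ ε) (hε : 0 ≤ ε)
    {b : Ideal (𝓞 K)} (hb : absNorm b ≠ 0) (hbM : (absNorm b).Coprime M)
    (hS : absNorm b * z ^ 2 * Y ≤ S) {a a' : Ideal (𝓞 K)} (ha : a ∈ idl K M z)
    (ha' : a' ∈ idl K M z) [Decidable (sp a' = sp a)] :
    E (fun y => ind b y * ((∏ q ∈ sp a, (1 - absNorm q * ind (b * q) y)) *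
      ∏ q ∈ sp a', (1 - absNorm q * ind (b * q) y))) ≤
      1 / absNorm b * (if sp a' = sp a then ∏ q ∈ sp a, ((absNorm q : ℝ) - 1) else 0) +
        ε * z ^ 4 := by
  classical
  obtain ⟨h1, h2⟩ := sp_spec ha
  obtain ⟨h3, h4⟩ := sp_spec ha'
  let β : Ideal (𝓞 K) → ℝ := fun q =>
    if q ∈ sp a ∩ sp a' then (absNorm q : ℝ) ^ 2 - 2 * absNorm q else - absNorm q
  have hT : ∀ q ∈ sp a ∪ sp a', Prime q ∧ (absNorm q).Coprime M := fun q hq => by
    rcases mem_union.1 hq with h | h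
    exacts [⟨(h1 q h).1, (h1 q h).2.1⟩, ⟨(h3 q h).1, (h3 q h).2.1⟩]
  have hN : ∀ q ∈ sp a ∪ sp a', (2 : ℝ) ≤ absNorm q := fun q hq => by
    exact_mod_cast two_le_norm (hT q hq).1
  have h5 : ∏ q ∈ sp a ∪ sp a', absNorm q ≤ z ^ 2 := by
    have a1 := prod_union_inter (s₁ := sp a) (s₂ := sp a') (f := fun q => absNorm q)
    have a2 : 1 ≤ ∏ q ∈ sp a ∩ sp a', absNorm q := one_le_prod' fun q hq =>
      one_le_two.trans (two_le_norm (h1 q (mem_inter.1 hq).1).1)
    nlinarith [Nat.mul_le_mul h2 h4, Nat.mul_le_mul_left (∏ q ∈ sp a ∪ sp a', absNorm q) a2]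
  have e : ∀ y, (∏ q ∈ sp a, (1 - absNorm q * ind (b * q) y)) *
      ∏ q ∈ sp a', (1 - absNorm q * ind (b * q) y) =
      ∏ q ∈ sp a ∪ sp a', (1 + β q * ind (b * q) y) := fun y => by
    rw [← prod_union_inter, ← inter_eq_right.2 (inter_subset_union (s := sp a) (t := sp a')),
      ← prod_ite_mem, ← prod_mul_distrib]
    refine prod_congr rfl fun q _ => ?_
    simp only [β]
    split_ifs
    · linear_combination (absNorm q : ℝ) ^ 2 * ind_mul_self (b * q) y
    · ring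
  simp only [e]
  refine (expand hE hb hbM hT (le_trans (by gcongr) hS) β).trans (add_le_add (le_of_eq ?_) ?_)
  · congr 1
    split_ifs with h
    · rw [h, union_self]
      refine prod_congr rfl fun q hq => ?_
      have := hN q (mem_union_left _ hq)
      simp only [β, h, inter_self, hq, if_true]
      field_simp; ring
    · obtain ⟨q, hq, hq'⟩ : ∃ q ∈ sp a ∪ sp a', q ∉ sp a ∩ sp a' := by
        by_contra hh
        push Not at hh
        exact h (Subset.antisymm (fun q hq => (mem_inter.1 (hh q (mem_union_right _ hq))).1)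
          fun q hq => (mem_inter.1 (hh q (mem_union_left _ hq))).2)
      refine prod_eq_zero hq ?_
      have := hN q hq
      simp only [β, hq', if_false]
      field_simp; ring
  · refine mul_le_mul_of_nonneg_left ?_ hε
    calc _ ≤ ∏ q ∈ sp a ∪ sp a', (absNorm q : ℝ) ^ 2 := by
          refine prod_le_prod (fun _ _ => by positivity) fun q hq => ?_
          have := hN q hq
          simp only [β]
          split_ifs
          · rw [abs_of_nonneg (by nlinarith)]; linarith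
          · rw [abs_neg, abs_of_nonneg (by linarith)]; nlinarith
      _ = ((∏ q ∈ sp a ∪ sp a', absNorm q : ℕ) : ℝ) ^ 2 := by rw [prod_pow, Nat.cast_prod]
      _ ≤ ((z ^ 2 : ℕ) : ℝ) ^ 2 := pow_le_pow_left₀ (Nat.cast_nonneg _) (Nat.cast_le.2 h5) 2
      _ = _ := by push_cast; ring

/-- The Selberg weight. -/
noncomputable def wt (M z : ℕ) (b : Ideal (𝓞 K)) (y : 𝓞 K) : ℝ :=
  ∑ a ∈ idl K M z, (1 / absNorm a : ℝ) * ∏ q ∈ sp a, (1 - absNorm q * ind (b * q) y)

lemma selberg {M Y S z : ℕ} {ε : ℝ} {E : (𝓞 K → ℝ) →ₗ[ℝ] ℝ}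
    (hE : ∀ I : Ideal (𝓞 K), absNorm I ≠ 0 → (absNorm I).Coprime M →
      absNorm I * Y ≤ S → |E (ind I) - 1 / absNorm I| ≤ ε) (hε : 0 ≤ ε)
    {b : Ideal (𝓞 K)} (hb : absNorm b ≠ 0) (hbM : (absNorm b).Coprime M)
    (hS : absNorm b * z ^ 2 * Y ≤ S) :
    E (fun y => ind b y * wt M z b y ^ 2) ≤
      1 / absNorm b * (∑ a ∈ idl K M z, (1 / absNorm a : ℝ)) +
        ε * z ^ 4 * (∑ a ∈ idl K M z, (1 / absNorm a : ℝ)) ^ 2 := by
  classical
  have e : (fun y => ind b y * wt M z b y ^ 2) = ∑ a ∈ idl K M z, ∑ a' ∈ idl K M z,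
      ((1 / absNorm a : ℝ) * (1 / absNorm a' : ℝ)) • fun y => ind b y *
        ((∏ q ∈ sp a, (1 - absNorm q * ind (b * q) y)) *
          ∏ q ∈ sp a', (1 - absNorm q * ind (b * q) y)) := by
    funext y
    simp only [Finset.sum_apply, Pi.smul_apply, smul_eq_mul]
    rw [wt, sq, sum_mul_sum, mul_sum]
    refine sum_congr rfl fun a _ => ?_
    rw [mul_sum]
    exact sum_congr rfl fun a' _ => by ring
  rw [e, map_sum, sq, sum_mul_sum, mul_sum, mul_sum, ← sum_add_distrib]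
  refine sum_le_sum fun a ha => ?_
  rw [map_sum]
  refine (sum_le_sum fun a' ha' => (map_smul _ _ _).trans_le (mul_le_mul_of_nonneg_left
    (orth hE hε hb hbM hS ha ha') (by positivity))).trans ?_
  simp only [mul_add]
  rw [sum_add_distrib, mul_sum]
  refine add_le_add ?_ (le_of_eq (sum_congr rfl fun a' _ => by ring))
  have h1 := rad_le (A := (idl K M z).filter fun a' => sp a' = sp a) (E := sp a)
    (fun q hq => ((sp_spec ha).1 q hq).1) fun a' ha' =>
      ⟨(mem_idl.1 (mem_filter.1 ha').1).2.1, (mem_filter.1 ha').2⟩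
  rw [sum_mul, sum_filter] at h1
  refine le_trans (le_of_eq ?_) ((mul_le_mul_of_nonneg_left h1
    (by positivity : (0 : ℝ) ≤ 1 / absNorm b * (1 / absNorm a))).trans_eq (mul_one _))
  rw [mul_sum]
  exact sum_congr rfl fun a' _ => by split_ifs <;> ring

lemma Samp.sieve {M Y Y' x r q z : ℕ} {ε : ℝ} (h : Samp K M Y (Y' * x) r ε) (hε : 0 ≤ ε)
    (hq : q ∣ M) (hr : r.Coprime M) (hY : 1 ≤ Y) (hY' : 2 * Y ≤ Y') (hz1 : 1 ≤ z) (hz : z ≤ x)
    (hz2 : 2 * Y * z ^ 2 ≤ x) {P : Finset (Ideal (𝓞 K))}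
    (hP : ∀ p ∈ P, Prime p ∧ x < absNorm p ∧ absNorm p ≤ 2 * x ∧ absNorm p ≡ 1 [MOD q] ∧
      (absNorm p).Coprime M) :
    P.card * (1 / (2 * x) - ε) ≤
      ∑ b ∈ (idl K M (2 * Y')).filter fun b => Y' ≤ 12 * absNorm b ∧ absNorm b ≡ r [MOD q],
        (1 / absNorm b * (∑ a ∈ idl K M z, (1 / absNorm a : ℝ))⁻¹ + ε * z ^ 4) := by
  classical
  obtain ⟨E, hpos, hE⟩ := h
  obtain ⟨H, hH⟩ : ∃ H : ℝ, H = ∑ a ∈ idl K M z, (1 / absNorm a : ℝ) := ⟨_, rfl⟩
  have hx : 0 < x := by omega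
  have hH0 : 0 < H := hH ▸ sum_pos (fun a ha => by
    have := Nat.pos_of_ne_zero (mem_idl.1 ha).2.1; positivity) ⟨_, top_mem_idl hz1⟩
  rw [← hH]
  have h1 := hpos (∑ b ∈ (idl K M (2 * Y')).filter fun b => Y' ≤ 12 * absNorm b ∧
      absNorm b ≡ r [MOD q], (H ^ 2)⁻¹ • (fun y => ind b y * wt M z b y ^ 2) - ∑ p ∈ P, ind p)
    fun y hy => by
      simp only [Pi.sub_apply, Finset.sum_apply, Pi.smul_apply, smul_eq_mul, sub_nonneg]
      have hy0 : nrm y ≠ 0 := by have := hy.1; have := Nat.mul_pos (by omega : 0 < Y') hx; omega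
      refine sum_ind_le hy0 _ (fun b _ => mul_nonneg (by positivity)
        (mul_nonneg (ind_nonneg _ _) (sq_nonneg _))) fun p hp b hb => ?_
      obtain ⟨p1, p2, p3, p4, p5⟩ := hP p hp
      obtain ⟨y1, y2, y3⟩ := hy
      have e : absNorm p * absNorm b = nrm y := by rw [← map_mul, hb]
      have hb0 : absNorm b ≠ 0 := fun h => hy0 (by rw [← e, h, mul_zero])
      have hb1 : b ≠ 0 := fun h => hb0 (by simp [h])
      refine ⟨mem_filter.2 ⟨mem_idl.2 ⟨?_, hb0, ?_⟩, ?_, ?_⟩, ?_⟩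
      · by_contra hh
        nlinarith
      · have : (nrm y).Coprime M := by rw [Nat.Coprime, y3.gcd_eq]; exact hr
        exact this.coprime_dvd_left (Dvd.intro_left _ e)
      · by_contra hh
        nlinarith
      · have a1 := p4.mul_right (absNorm b)
        rw [one_mul, e] at a1
        exact a1.symm.trans (y3.of_dvd hq)
      · have a1 : wt M z b y = H := by
          rw [hH]
          refine sum_congr rfl fun a ha => ?_
          rw [prod_eq_one fun s hs => ?_, mul_one]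
          obtain ⟨s1, -, s2⟩ := (sp_spec ha).1 s hs
          rw [ind_of_notMem fun hh => ?_, mul_zero, sub_zero]
          rw [← Ideal.dvd_span_singleton, ← hb, mul_comm p, mul_dvd_mul_iff_left hb1] at hh
          have := associated_iff_eq.1 ((s1.dvd_prime_iff_associated p1).1 hh)
          subst this
          omega
        rw [a1, ind_of_mem (Ideal.dvd_span_singleton.1 (Dvd.intro_left _ hb)), one_mul,
          inv_mul_cancel₀ (by positivity)]
  rw [map_sub, map_sum, map_sum, sub_nonneg] at h1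
  calc _ ≤ ∑ p ∈ P, E (ind p) := by
        rw [← nsmul_eq_mul]
        refine card_nsmul_le_sum _ _ _ fun p hp => ?_
        obtain ⟨p1, p2, p3, p4, p5⟩ := hP p hp
        have a1 := (abs_le.1 (hE p (by omega) p5 (by nlinarith))).1
        have a2 : (absNorm p : ℝ) ≤ 2 * x := by exact_mod_cast p3
        have a3 : (0 : ℝ) < absNorm p := by exact_mod_cast hx.trans p2
        have a4 : (1 : ℝ) / (2 * x) ≤ 1 / absNorm p := by gcongr
        linarith
    _ ≤ _ := h1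
    _ ≤ _ := by
        refine sum_le_sum fun b hb => ?_
        obtain ⟨b1, b2, b3⟩ := mem_idl.1 (mem_filter.1 hb).1
        have a1 := selberg (z := z) hE hε b2 b3 (by
          calc _ ≤ 2 * Y' * z ^ 2 * Y := by gcongr
            _ = Y' * (2 * Y * z ^ 2) := by ring
            _ ≤ _ := by gcongr)
        rw [map_smul, smul_eq_mul]
        refine (mul_le_mul_of_nonneg_left a1 (by positivity)).trans (le_of_eq ?_)
        rw [← hH]
        field_simp

end Pool.Agent.MP_48b1c3_nt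

end

-- part MP_48b1c3_nt.BT
section

set_option autoImplicit false
set_option linter.unusedSectionVars false

open NumberField Finset Module

namespace Pool.Agent.MP_48b1c3_nt

variable {K : Type*} [Field K] [NumberField K]

open Ideal (absNorm)

lemma idl_mono {M s t : ℕ} (h : s ≤ t) : idl K M s ⊆ idl K M t := fun a ha => by
  rw [mem_idl] at ha ⊢; exact ⟨ha.1.trans h, ha.2⟩

lemma windows {M Y J x : ℕ} {ε : ℝ} (hs1 : ∀ S, Y ≤ S → Samp K M Y S 1 ε) (hY : 1 ≤ Y)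
    (hε : 0 ≤ ε) (hx : (idl K M (48 * Y * 512 ^ J)).card ≤ x) :
    J * ∑ a ∈ (idl K M (2 * (24 * Y))).filter fun b => 24 * Y ≤ 12 * absNorm b,
      (1 / absNorm a : ℝ) ≤ ∑ a ∈ idl K M (48 * Y * 512 ^ J), (1 / absNorm a : ℝ) +
        J * (2 * ε * x) := by
  classical
  let W : ℕ → Finset (Ideal (𝓞 K)) := fun j =>
    (idl K M (48 * Y * 512 ^ j)).filter fun b => 2 * Y * 512 ^ j ≤ 12 * absNorm b
  have hW : ∀ j ∈ range J, idl K M (48 * Y * 512 ^ j) ⊆ idl K M (48 * Y * 512 ^ J) := fun j hj =>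
    idl_mono (by have := (mem_range.1 hj).le; gcongr; norm_num)
  have h1 : ∀ j ∈ range J, ∑ a ∈ (idl K M (2 * (24 * Y))).filter fun b => 24 * Y ≤ 12 * absNorm b,
      (1 / absNorm a : ℝ) ≤ ∑ a ∈ W j, (1 / absNorm a : ℝ) + 2 * ε * x := fun j hj => by
    have p1 : 1 ≤ 512 ^ j := Nat.one_le_pow _ _ (by norm_num)
    have sub : ((idl K M (2 * (24 * Y))).filter fun b => 24 * Y ≤ 12 * absNorm b) ⊆
        idl K M (48 * Y * 512 ^ j) := (filter_subset _ _).trans (idl_mono (by nlinarith))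
    have a1 := (hs1 (48 * Y * 512 ^ j * Y) (by nlinarith [Nat.mul_le_mul hY p1])).cmp (t := 1)
      (C := W j) le_rfl sub (filter_subset _ _) zero_le_one fun y hy => by
        obtain ⟨y1, y2, y3⟩ := hy
        have hy0 : nrm y ≠ 0 := by
          have : 0 < 48 * Y * 512 ^ j * Y := by positivity
          omega
        rw [one_mul]
        refine sum_ind_le hy0 _ (fun b _ => ind_nonneg _ _) fun a ha b hb => ?_
        obtain ⟨ha1, ha2⟩ := mem_filter.1 ha
        obtain ⟨ha3, -, -⟩ := mem_idl.1 ha1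
        have e : absNorm a * absNorm b = nrm y := by rw [← map_mul, hb]
        have hb0 : absNorm b ≠ 0 := fun h => hy0 (by rw [← e, h, mul_zero])
        rw [← e] at y1 y2
        refine ⟨mem_filter.2 ⟨mem_idl.2 ⟨?_, hb0, ?_⟩, ?_⟩,
          (ind_of_mem (Ideal.dvd_span_singleton.1 (Dvd.intro_left _ hb))).ge⟩
        · refine Nat.le_of_mul_le_mul_left (c := 2 * Y) ?_ (by omega)
          nlinarith [Nat.mul_le_mul_right (absNorm b) ha2]
        · have : (nrm y).Coprime M := by rw [Nat.Coprime, y3.gcd_eq]; simp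
          exact this.coprime_dvd_left (Dvd.intro_left _ e)
        · refine Nat.le_of_mul_le_mul_left (c := 24 * Y) ?_ (by omega)
          nlinarith [Nat.mul_le_mul_right (absNorm b) ha3]
    have a2 : (((idl K M (2 * (24 * Y))).filter fun b => 24 * Y ≤ 12 * absNorm b).card : ℝ) ≤ x := by
      exact_mod_cast (card_le_card (sub.trans (hW j hj))).trans hx
    have a3 : ((W j).card : ℝ) ≤ x := by
      exact_mod_cast (card_le_card ((filter_subset _ _).trans (hW j hj))).trans hx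
    nlinarith [mul_le_mul_of_nonneg_left a2 hε, mul_le_mul_of_nonneg_left a3 hε]
  have h2 := sum_le_sum h1
  rw [sum_const, card_range, nsmul_eq_mul, sum_add_distrib, sum_const, card_range,
    nsmul_eq_mul] at h2
  refine h2.trans (add_le_add ?_ le_rfl)
  have key : ∀ i j, i < j → Disjoint (W i) (W j) := fun i j hij => by
    rw [disjoint_left]
    intro b hi hj
    have a1 := (mem_idl.1 (mem_filter.1 hi).1).1
    have a2 := (mem_filter.1 hj).2
    have a3 : 512 ^ (i + 1) ≤ 512 ^ j := Nat.pow_le_pow_right (by norm_num) hij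
    have p1 : 1 ≤ 512 ^ i := Nat.one_le_pow _ _ (by norm_num)
    rw [pow_succ] at a3
    nlinarith [Nat.mul_le_mul_left Y a3, Nat.mul_le_mul hY p1]
  rw [← sum_biUnion fun i _ j _ hij => by
    rcases lt_or_gt_of_ne hij with h | h
    exacts [key i j h, (key j i h).symm]]
  exact sum_le_sum_of_subset_of_nonneg (biUnion_subset.2 fun j hj =>
    (filter_subset _ _).trans (hW j hj)) fun _ _ _ => by positivity

theorem bt {M Y q x J : ℕ} {ε : ℝ} (hq : q ∣ M) {C : Finset ℕ} {ρ : ℕ → ℕ}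
    (hρ : ∀ c ∈ C, (ρ c).Coprime M) (hinj : ∀ c ∈ C, ∀ c' ∈ C, ρ c ≡ ρ c' [MOD q] → c = c')
    (hs1 : ∀ S, Y ≤ S → Samp K M Y S 1 ε) (hs : ∀ c ∈ C, ∀ S, Y ≤ S → Samp K M Y S (ρ c) ε)
    (hY : 1 ≤ Y) (hz : (48 * Y * 512 ^ J) ^ 3 ≤ x) (hε0 : 0 ≤ ε) (hε : 3 * (x : ℝ) ^ 4 * ε ≤ 1)
    {P : Finset (Ideal (𝓞 K))}
    (hP : ∀ p ∈ P, Prime p ∧ x < absNorm p ∧ absNorm p ≤ 2 * x ∧ absNorm p ≡ 1 [MOD q] ∧
      (absNorm p).Coprime M) : C.card * P.card * J ≤ 8 * x := by
  classical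
  have hw := fun x => windows (K := K) (J := J) (x := x) hs1 hY hε0
  have hJ : J < 512 ^ J := Nat.lt_pow_self (by norm_num)
  obtain ⟨z, hz'⟩ : ∃ z, z = 48 * Y * 512 ^ J := ⟨_, rfl⟩
  rw [← hz'] at hz hw
  have z1 : 48 * Y ≤ z := by rw [hz']; exact Nat.le_mul_of_pos_right _ (by positivity)
  have z2 : J ≤ z := by rw [hz']; nlinarith
  have z3 : 4 * z ^ 2 * Y ≤ x := by nlinarith [Nat.mul_le_mul_left (z ^ 2) z1]
  have z4 : 4 * z ≤ x := by nlinarith [Nat.mul_le_mul_left (4 * z) (Nat.mul_le_mul (by omega : 1 ≤ z) hY)]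
  have xR : (2 : ℝ) ≤ x := by exact_mod_cast (by omega : 2 ≤ x)
  have zR : (4 : ℝ) * z ≤ x := by exact_mod_cast z4
  have JR : (J : ℝ) ≤ x := by exact_mod_cast (by omega : J ≤ x)
  have x3 : (8 : ℝ) ≤ x ^ 3 := by nlinarith [pow_le_pow_left₀ (by norm_num) xR 3]
  have e1 : 24 * x * ε ≤ 1 := by nlinarith [mul_le_mul_of_nonneg_right x3 (by positivity : 0 ≤ x * ε)]
  have e2 : 3 * x ^ 2 * ε ≤ 1 := by
    nlinarith [mul_le_mul_of_nonneg_right (by nlinarith : (1 : ℝ) ≤ x ^ 2)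
      (by positivity : 0 ≤ x ^ 2 * ε)]
  have hc : (idl K M z).card ≤ x := ((hs1 _ (by nlinarith)).card_idl (by omega) hY
    (by nlinarith [mul_le_mul_of_nonneg_right zR hε0])).trans z3
  have hw' := hw x hc
  obtain ⟨H, hH⟩ : ∃ H : ℝ, H = ∑ a ∈ idl K M z, (1 / absNorm a : ℝ) := ⟨_, rfl⟩
  have hH1 : 1 ≤ H := by
    have := single_le_sum (f := fun a : Ideal (𝓞 K) => (1 / absNorm a : ℝ))
      (fun _ _ => by positivity) (top_mem_idl (K := K) (M := M) (by omega : 1 ≤ z))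
    rwa [Ideal.absNorm_top, Nat.cast_one, div_one, ← hH] at this
  have h1 := sum_le_sum fun c (hc : c ∈ C) => (hs c hc (24 * Y * x) (by nlinarith)).sieve hε0 hq
    (hρ c hc) hY (by omega) (by omega : 1 ≤ z) (by omega) (by nlinarith) hP
  rw [← hH] at h1 hw'
  rw [sum_const, nsmul_eq_mul, ← sum_biUnion fun c hc c' hc' hne => disjoint_left.2 fun b hb hb' =>
    hne (hinj c hc c' hc' ((mem_filter.1 hb).2.2.symm.trans (mem_filter.1 hb').2.2))] at h1
  have h2 := h1.trans (sum_le_sum_of_subset_of_nonneg (t := (idl K M (2 * (24 * Y))).filter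
    fun b => 24 * Y ≤ 12 * absNorm b) (biUnion_subset.2 fun c _ b hb =>
      mem_filter.2 ⟨(mem_filter.1 hb).1, (mem_filter.1 hb).2.1⟩) fun _ _ _ => by positivity)
  rw [sum_add_distrib, ← sum_mul, sum_const, nsmul_eq_mul] at h2
  have a2 : (((idl K M (2 * (24 * Y))).filter fun b => 24 * Y ≤ 12 * absNorm b).card : ℝ) ≤ x := by
    exact_mod_cast (card_le_card ((filter_subset _ _).trans (idl_mono (by omega)))).trans hc
  generalize ∑ a ∈ (idl K M (2 * (24 * Y))).filter fun b => 24 * Y ≤ 12 * absNorm b,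
      (1 / absNorm a : ℝ) = W at h2 hw'
  have a3 : (z : ℝ) ^ 4 ≤ x ^ 2 := by
    have : z ^ 4 ≤ x ^ 2 := by
      calc z ^ 4 = z ^ 3 * z := by ring
        _ ≤ x * x := Nat.mul_le_mul hz (by omega)
        _ = _ := by ring
    exact_mod_cast this
  have a4 : J * (W * H⁻¹) ≤ 5 / 3 := by
    rw [← mul_assoc, ← div_eq_mul_inv, div_le_iff₀ (by positivity)]
    nlinarith [mul_le_mul_of_nonneg_right JR (by positivity : 0 ≤ 2 * ε * x)]
  have a5 : (J : ℝ) * ((((idl K M (2 * (24 * Y))).filter fun b =>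
      24 * Y ≤ 12 * absNorm b).card : ℝ) * (ε * z ^ 4)) ≤ 1 / 3 := by
    calc _ ≤ (x : ℝ) * (x * (ε * x ^ 2)) := by gcongr
      _ ≤ _ := by linarith
  have a6 : 1 / (4 * x) ≤ 1 / (2 * x) - ε := by
    rw [le_sub_iff_add_le, div_add' _ _ _ (by positivity), div_le_div_iff₀ (by positivity)
      (by positivity)]
    nlinarith
  have a7 := mul_le_mul_of_nonneg_left h2 (Nat.cast_nonneg J)
  have a8 : (J : ℝ) * (C.card * (P.card * (1 / (4 * x)))) ≤ 2 := by
    calc _ ≤ (J : ℝ) * (C.card * (P.card * (1 / (2 * x) - ε))) := by gcongr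
      _ ≤ _ := by linarith
  have a9 : (C.card * P.card * J : ℝ) ≤ 8 * x := by
    have : (C.card * P.card * J : ℝ) = J * (C.card * (P.card * (1 / (4 * x)))) * (4 * x) := by
      field_simp
    rw [this]; nlinarith
  exact_mod_cast a9

end Pool.Agent.MP_48b1c3_nt

end

-- part MP_48b1c3_nt.Split
section

set_option autoImplicit false
set_option linter.unusedSectionVars false

open NumberField Finset Module UniqueFactorizationMonoid Polynomial

namespace Pool.Agent.MP_48b1c3_nt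

variable {K : Type*} [Field K] [NumberField K] {ι : Type*} [Fintype ι] [DecidableEq ι]

open Ideal (absNorm)

lemma split {p : ℕ} (hp : p.Prime) (h : ∀ y : 𝓞 K, (p : 𝓞 K) ∣ y ^ p - y) :
    ∃ P : Finset (Ideal (𝓞 K)), P.card = finrank ℚ K ∧ ∀ q ∈ P, Prime q ∧ absNorm q = p := by
  classical
  obtain ⟨I, hI⟩ : ∃ I : Ideal (𝓞 K), I = Ideal.span {(p : 𝓞 K)} := ⟨_, rfl⟩
  have hN : absNorm I = p ^ finrank ℚ K := by
    rw [hI, Ideal.absNorm_span_natCast, RingOfIntegers.rank]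
  have h0 : I ≠ 0 := fun h => by
    rw [h, map_zero] at hN; exact pow_ne_zero _ hp.ne_zero hN.symm
  have hm : ∀ y : 𝓞 K, y ^ p - y ∈ I := fun y => hI ▸ Ideal.mem_span_singleton.2 (h y)
  have hsq : Squarefree I := by
    refine IsRadical.squarefree h0 ((isRadical_iff_pow_one_lt p hp.one_lt).2 fun J hJ => ?_)
    refine Ideal.dvd_iff_le.2 fun a ha => ?_
    have := I.sub_mem (Ideal.dvd_iff_le.1 hJ (Ideal.pow_mem_pow ha p)) (hm a)
    simpa using this
  have hq : ∀ q ∈ normalizedFactors I, Prime q ∧ absNorm q = p := fun q hq => by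
    have q1 := prime_of_normalized_factor q hq
    have q2 := dvd_of_mem_normalizedFactors hq
    have q3 := two_le_norm q1
    refine ⟨q1, le_antisymm ?_ ?_⟩
    · have : q.IsMaximal := (Ideal.isPrime_of_prime q1).isMaximal q1.ne_zero
      let := Ideal.Quotient.field q
      have : Finite (𝓞 K ⧸ q) := (Ideal.absNorm_ne_zero_iff q).1 (by omega)
      have := Fintype.ofFinite (𝓞 K ⧸ q)
      rw [Ideal.absNorm_apply, Submodule.cardQuot_apply, Nat.card_eq_fintype_card, ← card_univ,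
        ← FiniteField.X_pow_card_sub_X_natDegree_eq (𝓞 K ⧸ q) hp.one_lt]
      refine card_le_degree_of_subset_roots fun z _ => ?_
      obtain ⟨y, rfl⟩ := Ideal.Quotient.mk_surjective z
      rw [mem_roots (FiniteField.X_pow_card_sub_X_ne_zero _ hp.one_lt), IsRoot, eval_sub, eval_pow,
        eval_X, ← map_pow, ← map_sub, Ideal.Quotient.eq_zero_iff_mem]
      exact Ideal.dvd_iff_le.1 q2 (hm y)
    · have a1 : absNorm q ∣ p ^ finrank ℚ K := hN ▸ map_dvd _ q2
      obtain ⟨k, -, hk⟩ := (Nat.dvd_prime_pow hp).1 a1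
      rw [hk] at q3 ⊢
      exact Nat.le_self_pow (by rintro rfl; simp at q3) p
  refine ⟨(normalizedFactors I).toFinset, ?_, fun q h => hq q (Multiset.mem_toFinset.1 h)⟩
  rw [Multiset.toFinset_card_of_nodup ((squarefree_iff_nodup_normalizedFactors h0).1 hsq)]
  refine Nat.pow_right_injective hp.two_le ?_
  beta_reduce
  rw [← hN]
  conv_rhs => rw [← Ideal.prod_normalizedFactors_eq_self h0, map_multiset_prod,
    Multiset.map_congr rfl fun q h => (hq q h).2]
  simp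

lemma frob {p d : ℕ} (hp : p.Prime) (hd : p.Coprime d) {G : Set (𝓞 K)}
    (hG : ∀ ρ ∈ G, (p : 𝓞 K) ∣ ρ ^ p - ρ) (h : ∀ y : 𝓞 K, (d : 𝓞 K) * y ∈ Algebra.adjoin ℤ G)
    (y : 𝓞 K) : (p : 𝓞 K) ∣ y ^ p - y := by
  have h0 : ∀ r : ℤ, (p : 𝓞 K) ∣ (r : 𝓞 K) ^ p - r := fun r => by
    simpa using map_dvd (Int.castRingHom (𝓞 K)) (Int.prime_dvd_pow_self_sub hp r)
  have h1 : ∀ z ∈ Algebra.adjoin ℤ G, (p : 𝓞 K) ∣ z ^ p - z := fun z hz => by
    induction hz using Algebra.adjoin_induction with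
    | mem z hz => exact hG z hz
    | algebraMap r => exact h0 r
    | add a b _ _ ha hb =>
      obtain ⟨r, hr⟩ := exists_add_pow_prime_eq hp a b
      have : (a + b) ^ p - (a + b) = (a ^ p - a) + (b ^ p - b) + p * (a * b * r) := by
        rw [hr]; ring
      rw [this]
      exact (ha.add hb).add (dvd_mul_right _ _)
    | mul a b _ _ ha hb =>
      have : (a * b) ^ p - a * b = (a ^ p - a) * b ^ p + a * (b ^ p - b) := by ring
      rw [this]
      exact (ha.mul_right _).add (hb.mul_left _)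
  refine (Nat.Coprime.cast hd).dvd_of_dvd_mul_left ?_
  have : (d : 𝓞 K) * (y ^ p - y) = ((d * y) ^ p - d * y) - (((d : ℤ) : 𝓞 K) ^ p - (d : ℤ)) * y ^ p := by
    push_cast; ring
  rw [this]
  exact (h1 _ (h y)).sub ((h0 d).mul_right _)

/-- `a` is an `l`-th power residue modulo the prime `p`, and `l` divides `p - 1`. -/
def Res (p l a : ℕ) : Prop := l ∣ p - 1 ∧ a ^ ((p - 1) / l) ≡ 1 [MOD p]

lemma Res.root {p l a : ℕ} (h : Res p l a) (hp : p.Prime) {ρ : 𝓞 K} (hρ : ρ ^ l = a) :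
    (p : 𝓞 K) ∣ ρ ^ p - ρ := by
  have e : ρ ^ p - ρ = -ρ * (1 - (a : 𝓞 K) ^ ((p - 1) / l)) := by
    rw [← hρ, ← pow_mul, Nat.mul_div_cancel' h.1]
    conv_lhs => rw [← Nat.sub_add_cancel hp.one_le, pow_succ]
    ring
  rw [e]
  refine Dvd.dvd.mul_left ?_ _
  simpa using map_dvd (Int.castRingHom (𝓞 K)) h.2.dvd

theorem Dat.count {ω : ι → 𝓞 K} {B M : ℕ} (h : Dat ω B M) {q x d : ℕ} (hq : q ∣ M) {C : Finset ℕ}
    (hC : ∀ c ∈ C, c ≤ M ∧ c.Coprime M)
    (hinj : ∀ c ∈ C, ∀ c' ∈ C, c ^ finrank ℚ K ≡ c' ^ finrank ℚ K [MOD q] → c = c')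
    (hx : (96 * (32 * M * finrank ℚ K ^ 5 * (4 * Nat.log 2 x + 6) * B ^ 2) ^ finrank ℚ K) ^ 6 ≤ x)
    (hx2 : 512 ^ 6 ≤ x) (hd0 : d ≠ 0) (hdx : d ≤ x) (hMx : M ≤ x) {G : Set (𝓞 K)}
    (hd : ∀ y : 𝓞 K, (d : 𝓞 K) * y ∈ Algebra.adjoin ℤ G) {E : Finset ℕ}
    (hE : ∀ p ∈ E, p.Prime ∧ x < p ∧ p ≤ 2 * x ∧ p ≡ 1 [MOD q] ∧
      ∀ ρ ∈ G, (p : 𝓞 K) ∣ ρ ^ p - ρ) :
    C.card * finrank ℚ K * E.card * Real.log x ≤ 600 * x := by
  classical
  have hM := h.hM1
  have hB := h.hB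
  have hn : 0 < finrank ℚ K := finrank_pos
  have hx0 : x ≠ 0 := by omega
  have cop : ∀ p ∈ E, ∀ t, t ≠ 0 → t ≤ x → p.Coprime t := fun p hp t ht htx =>
    Nat.coprime_of_lt_prime ht (htx.trans_lt (hE p hp).2.1) (hE p hp).1
  have hs : ∀ p ∈ E, ∃ P : Finset (Ideal (𝓞 K)), P.card = finrank ℚ K ∧
      ∀ q ∈ P, Prime q ∧ absNorm q = p := fun p hp =>
    split (hE p hp).1 (frob (hE p hp).1 (cop p hp d hd0 hdx) (hE p hp).2.2.2.2 hd)
  choose! P hP1 hP2 using hs
  have hP : (E.biUnion P).card = E.card * finrank ℚ K := by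
    rw [card_biUnion fun p hp p' hp' hne => disjoint_left.2 fun q h1 h2 =>
      hne ((hP2 p hp q h1).2.symm.trans (hP2 p' hp' q h2).2), sum_congr rfl hP1, sum_const,
      smul_eq_mul]
  have hJ1 := Nat.pow_log_le_self (512 ^ 6) hx0
  have hJ2 := Nat.lt_pow_succ_log_self (b := 512 ^ 6) (by norm_num) x
  have hJ3 : 0 < Nat.log (512 ^ 6) x := Nat.log_pos (by norm_num) hx2
  generalize Nat.log (512 ^ 6) x = J at hJ1 hJ2 hJ3
  have hl := Nat.lt_pow_succ_log_self (b := 2) (by norm_num) x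
  have key := bt (K := K) (J := J) (x := x) (ρ := fun c => c ^ finrank ℚ K) (P := E.biUnion P) hq
    (fun c hc => (hC c hc).2.pow_left _) hinj
    (fun S hS => by simpa using h.samp (c := 1) (m := 4 * Nat.log 2 x + 6) (by omega) hM hS)
    (fun c hc S hS => h.samp (m := 4 * Nat.log 2 x + 6) (by omega) (hC c hc).1 hS)
    (Nat.succ_le_of_lt (by positivity)) (by
      refine le_of_pow_le_pow_left₀ two_ne_zero (Nat.zero_le _) ?_
      rw [← pow_mul, mul_pow, ← mul_assoc, sq x]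
      refine Nat.mul_le_mul hx ?_
      rwa [← pow_mul, mul_comm, pow_mul]) (by positivity) (by
      have a1 : (x : ℝ) ≤ 2 ^ (Nat.log 2 x + 1) := by exact_mod_cast hl.le
      calc _ ≤ 4 * (2 ^ (Nat.log 2 x + 1)) ^ 4 * (1 / 2 : ℝ) ^ (4 * Nat.log 2 x + 6) := by
            gcongr; norm_num
        _ = 1 := by rw [one_div, inv_pow]; field_simp; ring)
    fun s hs => by
      obtain ⟨p, hp, hs⟩ := mem_biUnion.1 hs
      obtain ⟨s1, s2⟩ := hP2 p hp s hs
      rw [s2]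
      exact ⟨s1, (hE p hp).2.1, (hE p hp).2.2.1, (hE p hp).2.2.2.1, cop p hp M (by omega) hMx⟩
  rw [hP] at key
  have a1 : Real.log x ≤ 75 * J := by
    have b1 : (x : ℝ) ≤ 2 ^ (54 * (J + 1)) := by
      rw [pow_mul]; exact_mod_cast hJ2.le
    have b2 := Real.log_le_log (by positivity) b1
    rw [Real.log_pow] at b2
    have b3 : (1 : ℝ) ≤ J := by exact_mod_cast hJ3
    push_cast at b2
    nlinarith [Real.log_two_lt_d9]
  have a2 : (C.card * (E.card * finrank ℚ K) * J : ℝ) ≤ 8 * x := by exact_mod_cast key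
  calc _ ≤ (C.card * finrank ℚ K * E.card : ℝ) * (75 * J) := by gcongr
    _ ≤ _ := by linarith

lemma trace_root {l r : ℕ} (hl : l.Prime) (hr : r.Prime) {c : ℚ} (hc : ¬ (l : ℤ) ∣ padicValRat r c)
    {θ : K} (h : θ ^ l = c) : Algebra.trace ℚ K θ = 0 := by
  have := Fact.mk hr
  have h1 : Irreducible (X ^ l - C c) := X_pow_sub_C_irreducible_of_prime hl fun b hb => hc (by
    rw [← hb, padicValRat.pow]; exact dvd_mul_right _ _)
  have h2 : X ^ l - C c = minpoly ℚ θ :=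
    minpoly.eq_of_irreducible_of_monic h1 (by simp [h]) (monic_X_pow_sub_C c hl.ne_zero)
  have h3 := hl.two_le
  rw [trace_eq_finrank_mul_minpoly_nextCoeff, ← h2, nextCoeff_of_natDegree_pos (by
    rw [natDegree_X_pow_sub_C]; omega), natDegree_X_pow_sub_C, coeff_sub, coeff_X_pow, coeff_C,
    if_neg (by omega), if_neg (by omega)]
  simp

end Pool.Agent.MP_48b1c3_nt

end

-- part MP_48b1c3_nt.Fields
section

set_option autoImplicit false
set_option linter.unusedSectionVars false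

open NumberField Finset Module Polynomial Filter

namespace Pool.Agent.MP_48b1c3_nt

section
variable {K : Type*} [Field K] [NumberField K] {ι : Type*} [Fintype ι] [DecidableEq ι]

lemma trace_div {l : ℕ} (hl : l.Prime) {ρ : ι → K} {c : ι → ℚ} (hc : ∀ i, c i ≠ 0)
    (hρ : ∀ i, ρ i ^ l = c i)
    (hv : ∀ i j, i ≠ j → ∃ r : ℕ, r.Prime ∧ ¬ (l : ℤ) ∣ padicValRat r (c i) - padicValRat r (c j))
    (t : ι → ℚ) (j : ι) : Algebra.trace ℚ K ((∑ i, t i • ρ i) / ρ j) = finrank ℚ K * t j := by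
  have h0 : ρ j ≠ 0 := fun h => hc j (by
    have := hρ j
    rw [h, zero_pow hl.ne_zero] at this
    exact_mod_cast this.symm)
  rw [sum_div, map_sum, sum_eq_single j (fun i _ hij => ?_) (by simp)]
  · rw [smul_div_assoc, div_self h0, map_smul, ← map_one (algebraMap ℚ K), Algebra.trace_algebraMap]
    simp [mul_comm]
  · obtain ⟨r, hr, h⟩ := hv i j hij
    have := Fact.mk hr
    rw [smul_div_assoc, map_smul, trace_root (c := c i / c j) hl hr
      (by rwa [padicValRat.div (hc i) (hc j)]) (by rw [div_pow, hρ, hρ]; simp), smul_zero]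

lemma li_roots {l : ℕ} (hl : l.Prime) {ρ : ι → K} {c : ι → ℚ} (hc : ∀ i, c i ≠ 0)
    (hρ : ∀ i, ρ i ^ l = c i)
    (hv : ∀ i j, i ≠ j → ∃ r : ℕ, r.Prime ∧ ¬ (l : ℤ) ∣ padicValRat r (c i) - padicValRat r (c j)) :
    LinearIndependent ℚ ρ := Fintype.linearIndependent_iff.2 fun t ht j => by
  have := trace_div hl hc hρ hv t j
  rw [ht, zero_div, map_zero] at this
  exact (mul_eq_zero.1 this.symm).resolve_left (Nat.cast_ne_zero.2 finrank_pos.ne')

lemma int_root {z : K} {l a : ℕ} (hl : 0 < l) (h : z ^ l = a) :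
    ∃ θ : 𝓞 K, algebraMap (𝓞 K) K θ = z ∧ θ ^ l = a := by
  obtain ⟨θ, rfl⟩ := (IsIntegralClosure.isIntegral_iff (A := 𝓞 K) (R := ℤ)).1
    (IsIntegral.of_pow hl (by rw [h]; exact isIntegral_natCast a))
  exact ⟨θ, rfl, RingOfIntegers.coe_injective (by rw [map_pow, map_natCast]; exact h)⟩

lemma le_big {M n m B : ℕ} (hn : 0 < n) (hm : 0 < m) (hB : 0 < B) :
    M ≤ (96 * (32 * M * n ^ 5 * m * B ^ 2) ^ n) ^ 6 := by
  calc M = 1 * (1 * M * 1 ^ 5 * 1 * 1 ^ 2) := by ring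
    _ ≤ 96 * (32 * M * n ^ 5 * m * B ^ 2) := by gcongr <;> omega
    _ ≤ 96 * (32 * M * n ^ 5 * m * B ^ 2) ^ n := Nat.mul_le_mul_left _ (Nat.le_self_pow hn.ne' _)
    _ ≤ _ := Nat.le_self_pow (by norm_num) _

lemma pure_dat {l r : ℕ} (hl : l.Prime) (hr : r.Prime) (hn : finrank ℚ K = l) {θ : 𝓞 K}
    (hθ : θ ^ l = r) : Dat (fun i : Fin l => θ ^ (i : ℕ)) r (l * r) := by
  have := Fact.mk hr
  have hθK : (θ : K) ^ l = r := by exact_mod_cast congrArg (fun z : 𝓞 K => (z : K)) hθ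
  have hc : ∀ i : Fin l, (r : ℚ) ^ (i : ℕ) ≠ 0 := fun i => pow_ne_zero _ (Nat.cast_ne_zero.2 hr.ne_zero)
  have hρ : ∀ i : Fin l, ((θ ^ (i : ℕ) : 𝓞 K) : K) ^ l = ((r : ℚ) ^ (i : ℕ) : ℚ) := fun i => by
    push_cast; rw [← pow_mul, mul_comm, pow_mul, hθK]
  have hv : ∀ i j : Fin l, i ≠ j → ∃ s : ℕ, s.Prime ∧ ¬ (l : ℤ) ∣
      padicValRat s ((r : ℚ) ^ (i : ℕ)) - padicValRat s ((r : ℚ) ^ (j : ℕ)) := fun i j hij => by
    refine ⟨r, hr, fun h => hij (Fin.ext ?_)⟩
    rw [padicValRat.pow, padicValRat.pow, padicValRat.self hr.one_lt, mul_one, mul_one] at h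
    have := Int.eq_zero_of_abs_lt_dvd h (by
      have := i.2; have := j.2; rw [abs_lt]; constructor <;> omega)
    omega
  have hli := li_roots hl hc hρ hv
  have hcard : Fintype.card (Fin l) = finrank ℚ K := by simp [hn]
  refine ⟨hcard, hli, fun σ i => ?_, fun i j => ?_, fun y => ?_, hr.one_le,
    Nat.mul_pos hl.pos hr.pos⟩
  · have h1 : ‖σ (θ : K)‖ ^ l = r := by rw [← norm_pow, ← map_pow, hθK]; simp
    have h2 : 1 ≤ ‖σ (θ : K)‖ := by
      refine le_of_pow_le_pow_left₀ hl.ne_zero (norm_nonneg _) ?_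
      rw [h1, one_pow]; exact_mod_cast hr.one_le
    push_cast
    rw [map_pow, norm_pow, ← h1]
    exact pow_le_pow_right₀ h2 i.2.le
  · have := i.2; have := j.2
    have r1 : (1 : ℤ) ≤ r := by exact_mod_cast hr.one_le
    by_cases h : (i : ℕ) + j < l
    · refine ⟨Pi.single ⟨i + j, h⟩ 1, fun k => ?_, ?_⟩
      · rw [Pi.single_apply]; split_ifs <;> simp [r1]
      · simp [Pi.single_apply, pow_add]
    · refine ⟨Pi.single ⟨i + j - l, by omega⟩ r, fun k => ?_, ?_⟩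
      · rw [Pi.single_apply]; split_ifs <;> simp
      · simp only [Pi.single_apply, ite_smul, zero_smul, sum_ite_eq', mem_univ, if_true,
          zsmul_eq_mul, Int.cast_natCast]
        rw [← hθ, ← pow_add, ← pow_add]; congr 1; omega
  · have hne : Nonempty (Fin l) := ⟨⟨0, hl.pos⟩⟩
    let b : Basis (Fin l) ℚ K := basisOfLinearIndependentOfCardEqFinrank hli hcard
    have hb := b.sum_repr (y : K)
    simp only [b, coe_basisOfLinearIndependentOfCardEqFinrank] at hb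
    generalize (basisOfLinearIndependentOfCardEqFinrank hli hcard).repr (y : K) = t at hb
    refine ⟨fun j => Algebra.trace ℤ (𝓞 K) (y * θ ^ (l - j)), RingOfIntegers.coe_injective ?_⟩
    refine Eq.trans ?_ (coe_comb _ _).symm
    have h0 : (θ : K) ≠ 0 := fun h => by
      rw [h, zero_pow hl.ne_zero] at hθK; exact hr.ne_zero (by exact_mod_cast hθK.symm)
    have e : ∀ j : Fin l, ((Algebra.trace ℤ (𝓞 K) (y * θ ^ (l - j)) : ℤ) : ℚ) = (l * r) * t j := by
      intro j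
      have a1 := trace_div hl hc hρ hv t j
      have a2 : ((y * θ ^ (l - j) : 𝓞 K) : K) = (r : ℚ) • ((y : K) / ((θ ^ (j : ℕ) : 𝓞 K) : K)) := by
        push_cast
        rw [pow_sub₀ _ h0 j.2.le, hθK, Nat.cast_smul_eq_nsmul, nsmul_eq_mul]; ring
      rw [Algebra.coe_trace_int, a2, map_smul, ← hb, a1, hn, smul_eq_mul]; ring
    simp only [e, mul_smul, ← smul_sum]
    rw [hb, map_mul, map_natCast, Nat.cast_smul_eq_nsmul, Nat.cast_smul_eq_nsmul, nsmul_eq_mul,
      nsmul_eq_mul, Nat.cast_mul, mul_assoc]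

end

theorem partB {l r x : ℕ} (hl : l.Prime) (hr : r.Prime) (hlr : l ≠ r)
    (hx : (96 * (32 * (l * r) * l ^ 5 * (4 * Nat.log 2 x + 6) * r ^ 2) ^ l) ^ 6 ≤ x)
    (hx2 : 512 ^ 6 ≤ x) {E : Finset ℕ} (hE : ∀ p ∈ E, p.Prime ∧ x < p ∧ p ≤ 2 * x ∧ Res p l r) :
    ((l : ℝ) - 1) * l * E.card * Real.log x ≤ 600 * x := by
  have := Fact.mk hr
  have := Fact.mk hl
  have hirr : Fact (Irreducible (X ^ l - C (r : ℚ))) :=
    ⟨X_pow_sub_C_irreducible_of_prime hl fun b hb => by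
      have := congrArg (padicValRat r) hb
      rw [padicValRat.pow, padicValRat.self hr.one_lt] at this
      exact hl.one_lt.ne' (by exact_mod_cast Int.eq_one_of_mul_eq_one_right (by positivity) this)⟩
  let K := AdjoinRoot (X ^ l - C (r : ℚ))
  have hn : finrank ℚ K = l := by
    rw [(AdjoinRoot.powerBasis hirr.out.ne_zero).finrank, AdjoinRoot.powerBasis_dim,
      natDegree_X_pow_sub_C]
  have h1 : (AdjoinRoot.root _ : K) ^ l = r := by
    rw [root_X_pow_sub_C_pow]; simp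
  obtain ⟨θ, -, h3⟩ := int_root hl.pos h1
  have hD := pure_dat hl hr hn h3
  have hM : l * r ≤ x := (le_big hl.pos (by omega) hr.pos).trans hx
  have hcop : r.Coprime l := (Nat.coprime_primes hr hl).2 hlr.symm
  let F : ℕ → ℕ := fun k => 1 + r * k
  have hF : ∀ k < l, ∀ k' < l, F k ≡ F k' [MOD l] → k = k' := fun k hk k' hk' h =>
    Nat.ModEq.eq_of_lt_of_lt (Nat.ModEq.cancel_left_of_coprime hcop.symm
      (Nat.ModEq.add_left_cancel' 1 h)) hk hk'
  have key := hD.count (q := l) (x := x) (C := ((range l).filter fun k => ¬ l ∣ F k).image F)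
    (G := {θ}) (E := E) (dvd_mul_right _ _) (fun c hc => ?_) (fun c hc c' hc' h => ?_)
    (by rwa [hn]) hx2 (Nat.mul_pos hl.pos hr.pos).ne' hM hM (fun y => ?_) fun p hp => ?_
  · have c1 : ((range l).filter fun k => l ∣ F k).card ≤ 1 := card_le_one.2 fun k hk k' hk' => by
      rw [mem_filter, mem_range] at hk hk'
      exact hF k hk.1 k' hk'.1 (((Nat.modEq_zero_iff_dvd).2 hk.2).trans
        ((Nat.modEq_zero_iff_dvd).2 hk'.2).symm)
    have c2 := card_filter_add_card_filter_not (s := range l) fun k => l ∣ F k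
    rw [card_image_of_injOn fun k _ k' _ h => Nat.eq_of_mul_eq_mul_left hr.pos
      (Nat.add_left_cancel h), hn] at key
    rw [card_range] at c2
    have c3 : (l : ℝ) - 1 ≤ ((range l).filter fun k => ¬ l ∣ F k).card := by
      rw [sub_le_iff_le_add]; exact_mod_cast (by omega)
    have := Real.log_natCast_nonneg x
    exact le_trans (by gcongr) key
  · obtain ⟨k, hk, rfl⟩ := mem_image.1 hc
    rw [mem_filter, mem_range] at hk
    refine ⟨by simp only [F]; nlinarith [hr.one_le, hk.1], Nat.Coprime.mul_right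
      ((Nat.Prime.coprime_iff_not_dvd hl).2 hk.2).symm ?_⟩
    simp [F]
  · obtain ⟨k, hk, rfl⟩ := mem_image.1 hc
    obtain ⟨k', hk', rfl⟩ := mem_image.1 hc'
    rw [mem_filter, mem_range] at hk hk'
    rw [hn, ← ZMod.natCast_eq_natCast_iff, Nat.cast_pow, Nat.cast_pow, ZMod.pow_card,
      ZMod.pow_card, ZMod.natCast_eq_natCast_iff] at h
    rw [hF k hk.1 k' hk'.1 h]
  · obtain ⟨c, hc⟩ := hD.hM y
    rw [hc]
    exact sum_mem fun i _ => zsmul_mem (pow_mem (Algebra.self_mem_adjoin_singleton ℤ θ) _) _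
  · obtain ⟨p1, p2, p3, p4⟩ := hE p hp
    refine ⟨p1, p2, p3, ((Nat.modEq_iff_dvd' p1.one_le).2 p4.1).symm, ?_⟩
    rintro _ rfl
    exact p4.root p1 h3

lemma tendsto_log_two : Tendsto (Nat.log 2) atTop atTop :=
  tendsto_atTop_atTop.2 fun b => ⟨2 ^ b, fun _ hx => Nat.le_log_of_pow_le one_lt_two hx⟩

lemma poly_le_pow (c k : ℕ) : ∀ᶠ t : ℕ in atTop, c * t ^ k ≤ 2 ^ t := by
  have h := (tendsto_pow_const_div_const_pow_of_one_lt k (r := 2) one_lt_two).const_mul (c : ℝ)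
  rw [mul_zero] at h
  filter_upwards [h.eventually (gt_mem_nhds zero_lt_one)] with t ht
  rw [← mul_div_assoc, div_lt_one (by positivity)] at ht
  exact_mod_cast ht.le

lemma partA_aux {K : Type*} [Field K] [NumberField K] {l s : ℕ} (hl : l.Prime) {a : ℕ → ℕ}
    (ha : ∀ i, (a i).Prime) (hinj : Function.Injective a)
    [IsSplittingField ℚ K (∏ i ∈ range s, (X ^ l - C (a i : ℚ)))] :
    ∀ᶠ x : ℕ in atTop, ∀ E : Finset ℕ,
      (∀ p ∈ E, p.Prime ∧ x < p ∧ p ≤ 2 * x ∧ ∀ i < s, Res p l (a i)) →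
        s * E.card * Real.log x ≤ 600 * x := by
  classical
  have hf : (∏ i ∈ range s, (X ^ l - C (a i : ℚ))) ≠ 0 :=
    (monic_prod_of_monic _ _ fun i _ => monic_X_pow_sub_C _ hl.ne_zero).ne_zero
  have hs : s ≤ finrank ℚ K := by
    have h1 : ∀ i : Fin s, ∃ ρ : K, ρ ^ l = ((a i : ℚ) : K) := fun i => by
      obtain ⟨ρ, h⟩ := ((IsSplittingField.splits K _).of_dvd (Polynomial.map_ne_zero hf)
        (Polynomial.map_dvd _ (dvd_prod_of_mem _ (mem_range.2 i.2)))).exists_eval_eq_zero (by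
          rw [degree_map, degree_X_pow_sub_C hl.pos]; exact_mod_cast hl.ne_zero)
      exact ⟨ρ, by simpa [sub_eq_zero] using h⟩
    choose ρ hρ using h1
    simpa using (li_roots hl (fun i : Fin s => Nat.cast_ne_zero.2 (ha i).ne_zero) hρ fun i j hij => by
      have := Fact.mk (ha i)
      have := Fact.mk (ha j)
      refine ⟨a i, ha i, ?_⟩
      rw [padicValRat.self (ha i).one_lt, padicValRat.of_nat,
        padicValNat_primes fun h => hij (Fin.ext (hinj h))]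
      exact fun h => hl.one_lt.ne' (Nat.dvd_one.1 (by exact_mod_cast h.trans (by simp : _ ∣ (1 : ℤ))))).fintype_card_le_finrank
  let G : Set (𝓞 K) := {y | ∃ i < s, y ^ l = a i}
  have hG : ∀ z : K, ∃ t : ℕ, t ≠ 0 ∧ ∃ w ∈ Algebra.adjoin ℤ G,
      algebraMap (𝓞 K) K w = t * z := fun z => by
    have hz : z ∈ Algebra.adjoin ℚ ((∏ i ∈ range s, (X ^ l - C (a i : ℚ))).rootSet K) := by
      rw [IsSplittingField.adjoin_rootSet]; trivial
    induction hz using Algebra.adjoin_induction with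
    | mem z hz =>
      have h1 := (mem_rootSet.1 hz).2
      rw [map_prod, prod_eq_zero_iff] at h1
      obtain ⟨i, hi, h1⟩ := h1
      have h2 : z ^ l = a i := by simpa [sub_eq_zero] using h1
      obtain ⟨θ, h3, h4⟩ := int_root hl.pos h2
      exact ⟨1, one_ne_zero, θ, Algebra.subset_adjoin ⟨i, mem_range.1 hi, h4⟩, by simpa using h3⟩
    | algebraMap r =>
      refine ⟨r.den, r.den_nz, r.num, intCast_mem _ _, ?_⟩
      rw [← map_natCast (algebraMap ℚ K), ← map_mul, Rat.den_mul_eq_num]; simp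
    | add y z _ _ hy hz =>
      obtain ⟨t, ht, w, hw, e⟩ := hy
      obtain ⟨t', ht', w', hw', e'⟩ := hz
      refine ⟨t * t', mul_ne_zero ht ht', t' * w + t * w', add_mem (mul_mem (natCast_mem _ _) hw)
        (mul_mem (natCast_mem _ _) hw'), ?_⟩
      simp only [map_add, map_mul, map_natCast, e, e', Nat.cast_mul]; ring
    | mul y z _ _ hy hz =>
      obtain ⟨t, ht, w, hw, e⟩ := hy
      obtain ⟨t', ht', w', hw', e'⟩ := hz
      refine ⟨t * t', mul_ne_zero ht ht', w * w', mul_mem hw hw', ?_⟩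
      simp only [map_mul, e, e', Nat.cast_mul]; ring
  let b := RingOfIntegers.basis K
  choose t ht w hw e using fun j => hG (b j : K)
  have hd : ∀ y : 𝓞 K, ((∏ j, t j : ℕ) : 𝓞 K) * y ∈ Algebra.adjoin ℤ G := fun y => by
    rw [← b.sum_repr y, mul_sum]
    refine sum_mem fun j _ => ?_
    obtain ⟨u, hu⟩ := dvd_prod_of_mem t (mem_univ j)
    have : (t j : 𝓞 K) * b j = w j := RingOfIntegers.coe_injective (by
      rw [map_mul, map_natCast]; exact (e j).symm)
    rw [mul_smul_comm, hu, Nat.cast_mul, mul_right_comm, this]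
    exact zsmul_mem (mul_mem (hw j) (natCast_mem _ _)) _
  obtain ⟨B₁, hB₁⟩ := (Set.finite_range fun p : (K →+* ℂ) × _ => ‖p.1 (b p.2 : K)‖).bddAbove
  obtain ⟨B₂, hB₂⟩ := (Set.finite_range fun p : _ × _ × _ =>
    (b.repr (b p.1 * b p.2.1) p.2.2).natAbs).bddAbove
  obtain ⟨B, hB⟩ : ∃ B : ℕ, B = ⌈B₁⌉₊ + B₂ + 1 := ⟨_, rfl⟩
  have hD : Dat b B 1 := by
    refine ⟨by rw [← finrank_eq_card_chooseBasisIndex, RingOfIntegers.rank], ?_, fun σ i => ?_,
      fun i j => ⟨b.repr (b i * b j), fun k => ?_, (b.sum_repr _).symm⟩,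
      fun y => ⟨b.repr y, by rw [b.sum_repr]; simp⟩, by omega, le_rfl⟩
    · convert (integralBasis K).linearIndependent using 2
      exact (integralBasis_apply K _).symm
    · have := hB₁ ⟨(σ, i), rfl⟩
      have := Nat.le_ceil B₁
      have : (0 : ℝ) ≤ B₂ := Nat.cast_nonneg _
      rw [hB]; push_cast; linarith
    · have : (b.repr (b i * b j) k).natAbs ≤ B₂ := hB₂ ⟨(i, j, k), rfl⟩
      rw [Int.abs_eq_natAbs]; omega
  filter_upwards [tendsto_log_two.eventually (poly_le_pow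
    ((96 * (32 * 1 * finrank ℚ K ^ 5 * 10 * B ^ 2) ^ finrank ℚ K) ^ 6) (finrank ℚ K * 6)),
    eventually_ge_atTop (512 ^ 6), eventually_ge_atTop (∏ j, t j)] with x h1 h2 h3 E hE
  have h4 : 1 ≤ Nat.log 2 x := Nat.log_pos one_lt_two (by omega)
  have key := hD.count (q := 1) (x := x) (C := {0}) (E := E) (G := G) dvd_rfl (by simp) (by simp)
    (by
      refine le_trans ?_ (h1.trans (Nat.pow_log_le_self 2 (by omega)))
      rw [pow_mul, ← mul_pow, mul_assoc 96, ← mul_pow]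
      gcongr (96 * ?_ ^ _) ^ _
      calc _ ≤ 32 * 1 * finrank ℚ K ^ 5 * (10 * Nat.log 2 x) * B ^ 2 := by gcongr; omega
        _ = _ := by ring) h2 (prod_ne_zero_iff.2 fun j _ => ht j) h3 (by omega) hd fun p hp => by
      obtain ⟨p1, p2, p3, p4⟩ := hE p hp
      refine ⟨p1, p2, p3, Nat.modEq_one, ?_⟩
      rintro ρ ⟨i, hi, h⟩
      exact (p4 i hi).root p1 h
  have := Real.log_natCast_nonneg x
  rw [card_singleton, Nat.cast_one, one_mul] at key
  exact le_trans (by gcongr) key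

lemma exists_split (f : ℚ[X]) :
    ∃ (K : Type) (_ : Field K) (_ : NumberField K), IsSplittingField ℚ K f :=
  ⟨f.SplittingField, inferInstance, {}, IsSplittingField.splittingField f⟩

theorem partA {l s : ℕ} (hl : l.Prime) {a : ℕ → ℕ} (ha : ∀ i, (a i).Prime)
    (hinj : Function.Injective a) : ∀ᶠ x : ℕ in atTop, ∀ E : Finset ℕ,
      (∀ p ∈ E, p.Prime ∧ x < p ∧ p ≤ 2 * x ∧ ∀ i < s, Res p l (a i)) →
        s * E.card * Real.log x ≤ 600 * x := by
  obtain ⟨K, _, _, _⟩ := exists_split (∏ i ∈ range s, (X ^ l - C (a i : ℚ)))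
  exact partA_aux (K := K) hl ha hinj

end Pool.Agent.MP_48b1c3_nt

end

-- part MP_48b1c3_nt.Larger
section

set_option autoImplicit false

open Finset

namespace Pool.Agent.MP_48b1c3_nt

lemma card_mul_log_le {P : Finset ℕ} {x N b c : ℕ} (hx : 1 ≤ x) (hP : ∀ p ∈ P, p.Prime ∧ x ≤ p)
    (hb : b ≤ N) (hc : c ≤ N) (hbc : c ≠ b) :
    (P.filter fun p => c % p = b % p).card * Real.log x ≤ Real.log N := by
  have h1 : ∏ p ∈ P.filter fun p => c % p = b % p, p ∣ ((b : ℤ) - c).natAbs :=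
    prod_primes_dvd _ (fun p hp => (hP p (mem_filter.1 hp).1).1.prime) fun p hp =>
      Int.natCast_dvd.1 (Nat.ModEq.dvd (mem_filter.1 hp).2)
  have h2 : x ^ (P.filter fun p => c % p = b % p).card ≤ N :=
    ((pow_card_le_prod _ _ _ fun p hp => (hP p (mem_filter.1 hp).1).2).trans
      (Nat.le_of_dvd (by omega) h1)).trans (by omega)
  rw [← Real.log_pow]
  exact Real.log_le_log (by positivity) (by exact_mod_cast h2)

/-- Gallagher's larger sieve. -/
lemma larger {B P : Finset ℕ} {x N m : ℕ} (hx : 1 ≤ x) (hB : ∀ b ∈ B, b ≤ N) (hB0 : 0 < B.card)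
    (hm : 2 * m ≤ B.card) (hP : ∀ p ∈ P, p.Prime ∧ x ≤ p)
    (hI : ∀ p ∈ P, (B.image (· % p)).card ≤ m) : P.card * Real.log x ≤ 2 * m * Real.log N := by
  have h1 : ∀ p ∈ P, B.card ^ 2 ≤
      2 * m * ∑ b ∈ B, ((B.erase b).filter fun c => c % p = b % p).card := fun p hp => by
    have a1 := sq_sum_le_card_mul_sum_sq (s := B.image (· % p))
      (f := fun r => (B.filter fun c => c % p = r).card)
    rw [← card_eq_sum_card_image] at a1
    have a2 := sum_comp (s := B) (fun r => (B.filter fun c => c % p = r).card) (· % p)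
    simp only [smul_eq_mul, ← sq] at a2
    have a3 : ∑ b ∈ B, (B.filter fun c => c % p = b % p).card ≤
        ∑ b ∈ B, (((B.erase b).filter fun c => c % p = b % p).card + 1) :=
      sum_le_sum fun b _ => by rw [filter_erase]; exact Nat.le_add_of_sub_le pred_card_le_card_erase
    rw [sum_add_distrib, sum_const, smul_eq_mul, mul_one, a2] at a3
    nlinarith [Nat.mul_le_mul (hI p hp) a3, Nat.mul_le_mul_right B.card hm]
  have hl := Real.log_natCast_nonneg x
  have hN := Real.log_natCast_nonneg N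
  have h2 : ∑ p ∈ P, ∑ b ∈ B, ((B.erase b).filter fun c => c % p = b % p).card =
      ∑ b ∈ B, ∑ c ∈ B.erase b, (P.filter fun p => c % p = b % p).card := by
    rw [sum_comm]
    refine sum_congr rfl fun b _ => ?_
    simp only [card_filter]
    exact sum_comm
  have h3 := sum_le_sum h1
  rw [sum_const, smul_eq_mul, ← mul_sum, h2] at h3
  have h4 : (P.card * B.card ^ 2 : ℝ) ≤
      2 * m * ∑ b ∈ B, ∑ c ∈ B.erase b, ((P.filter fun p => c % p = b % p).card : ℝ) := by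
    exact_mod_cast h3
  have h5 : (∑ b ∈ B, ∑ c ∈ B.erase b, ((P.filter fun p => c % p = b % p).card : ℝ)) *
      Real.log x ≤ B.card * (B.card * Real.log N) := by
    rw [sum_mul, ← nsmul_eq_mul]
    refine sum_le_card_nsmul _ _ _ fun b hb => ?_
    rw [sum_mul]
    refine (sum_le_card_nsmul _ _ _ fun c hc => card_mul_log_le hx hP (hB b hb)
      (hB c (mem_of_mem_erase hc)) (ne_of_mem_erase hc)).trans ?_
    rw [nsmul_eq_mul]
    gcongr
    exact erase_subset _ _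
  have h6 : (0 : ℝ) < B.card ^ 2 := by positivity
  refine le_of_mul_le_mul_right ?_ h6
  nlinarith [mul_le_mul_of_nonneg_right h4 hl,
    mul_le_mul_of_nonneg_left h5 (by positivity : (0 : ℝ) ≤ 2 * m)]

theorem partD {a : ℕ → ℕ} (ha : ∀ i, (a i).Prime) (hinj : Function.Injective a) {x R e L : ℕ}
    (hx : 1 ≤ x) (hR : 4 * x ≤ e ^ R) (hL : 1 ≤ L) {E : Finset ℕ}
    (hE : ∀ p ∈ E, p.Prime ∧ x < p ∧ p ≤ 2 * x ∧ ∃ l, L ≤ l ∧ ∀ i < R, Res p l (a i)) :
    L * E.card * Real.log x ≤ 4 * x * (e * ∑ i ∈ range R, Real.log (a i)) := by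
  classical
  have hR0 : 0 < R := Nat.pos_of_ne_zero fun h => by rw [h, pow_zero] at hR; omega
  let F : (Fin R → Fin e) → ℕ := fun f => ∏ i : Fin R, a i ^ (f i : ℕ)
  have hF : Function.Injective F := fun f g h => by
    have : ∀ (f : Fin R → Fin e) (j : Fin R), (F f).factorization (a j) = f j := fun f j => by
      simp only [F]
      rw [Nat.factorization_prod fun (i : Fin R) _ => pow_ne_zero _ (ha i).ne_zero, Finsupp.finsetSum_apply,
        sum_eq_single j (fun i _ hij => ?_) (by simp), (ha j).factorization_pow,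
        Finsupp.single_eq_same]
      rw [(ha i).factorization_pow, Finsupp.single_eq_of_ne fun h => hij (Fin.ext (hinj h)).symm]
    funext j
    exact Fin.ext (by rw [← this f j, h, this])
  have hc : (univ.image F).card = e ^ R := by simp [card_image_of_injective _ hF]
  have key := larger (B := univ.image F) (P := E) (N := ∏ i : Fin R, a i ^ e) (m := 2 * x / L) hx
    (fun b hb => ?_) (by omega) (by have := Nat.div_le_self (2 * x) L; omega)
    (fun p hp => ⟨(hE p hp).1, (hE p hp).2.1.le⟩) fun p hp => ?_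
  · have a1 : Real.log (∏ i : Fin R, a i ^ e : ℕ) = e * ∑ i ∈ range R, Real.log (a i) := by
      push_cast
      rw [Real.log_prod fun (i : Fin R) _ => pow_ne_zero _ (Nat.cast_ne_zero.2 (ha i).ne_zero), mul_sum,
        ← Fin.sum_univ_eq_sum_range fun i => e * Real.log (a i)]
      simp
    have a2 : (L * (2 * x / L : ℕ) : ℝ) ≤ 2 * x := by exact_mod_cast Nat.mul_div_le _ _
    have a3 := Real.log_natCast_nonneg (∏ i : Fin R, a i ^ e)
    rw [← a1]
    nlinarith [mul_le_mul_of_nonneg_left key (Nat.cast_nonneg L), mul_le_mul_of_nonneg_right a2 a3]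
  · obtain ⟨f, -, rfl⟩ := mem_image.1 hb
    exact prod_le_prod' fun i _ => Nat.pow_le_pow_right (ha i).pos (f i).2.le
  · obtain ⟨p1, p2, p3, l, hl, h⟩ := hE p hp
    have := Fact.mk p1
    have k0 : 0 < (p - 1) / l :=
      Nat.div_pos (Nat.le_of_dvd (by omega) (h 0 hR0).1) (by omega)
    calc _ ≤ (Polynomial.nthRootsFinset ((p - 1) / l) (1 : ZMod p)).card := by
          refine card_le_card_of_injOn (fun c => (c : ZMod p)) (fun c hc => ?_) fun c hc c' hc' h => ?_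
          · obtain ⟨b, hb, rfl⟩ := mem_image.1 hc
            obtain ⟨f, -, rfl⟩ := mem_image.1 hb
            refine (Polynomial.mem_nthRootsFinset k0 _).2 ?_
            simp only [F, ZMod.natCast_mod, Nat.cast_prod, Nat.cast_pow, ← prod_pow]
            refine prod_eq_one fun i _ => ?_
            rw [← pow_mul, mul_comm, pow_mul, ← Nat.cast_pow,
              (ZMod.natCast_eq_natCast_iff _ _ _).2 (h i i.2).2, Nat.cast_one, one_pow]
          · obtain ⟨b, -, rfl⟩ := mem_image.1 hc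
            obtain ⟨b', -, rfl⟩ := mem_image.1 hc'
            simpa [ZMod.natCast_eq_natCast_iff'] using h
      _ ≤ (p - 1) / l := by
          rw [Polynomial.nthRootsFinset_def]
          exact (Multiset.toFinset_card_le _).trans (Polynomial.card_nthRoots _ _)
      _ ≤ _ := Nat.div_le_div (by omega) hl (by omega)

theorem partC {l x : ℕ} (hl : l.Prime) (h8 : 8 ≤ Nat.log 2 x) (hx : 64 * Nat.log 2 x ^ 6 ≤ x)
    (hlx : l ≤ Nat.log 2 x ^ 2) {E : Finset ℕ} (hE : ∀ p ∈ E, p.Prime ∧ p ≤ 2 * x ∧ l ∣ p - 1) :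
    l * E.card * Real.log x ≤ 200 * x := by
  have x0 : x ≠ 0 := by rintro rfl; simp at h8
  have h1 := Nat.pow_log_le_self 2 x0
  have h2 := Nat.lt_pow_succ_log_self (b := 2) one_lt_two x
  generalize Nat.log 2 x = t at *
  obtain ⟨k, k1, k2, k3⟩ : ∃ k, 1 ≤ k ∧ 8 * k ≤ t ∧ t + 1 ≤ 16 * k :=
    ⟨t / 8, by omega, by omega, by omega⟩
  have key := MP_d0fd9b_nt.brun_titchmarsh (z := 2 ^ k) hl.ne_zero
    (Nat.le_self_pow (by omega) 2) 1 (2 * x)
  have c1 : (E.card : ℝ) ≤ ((Icc 1 (2 * x)).filter fun p => p.Prime ∧ p ≡ 1 [MOD l]).card :=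
    Nat.cast_le.2 <| card_le_card fun p hp => mem_filter.2 ⟨mem_Icc.2 ⟨(hE p hp).1.one_le,
      (hE p hp).2.1⟩, (hE p hp).1, ((Nat.modEq_iff_dvd' (hE p hp).1.one_le).2 (hE p hp).2.2).symm⟩
  rw [Nat.totient_prime hl, Nat.cast_sub hl.one_le, Nat.cast_one] at key
  have l2 : (2 : ℝ) ≤ l := by exact_mod_cast hl.two_le
  have lg := Real.log_two_gt_d9
  have lg' := Real.log_two_lt_d9
  have a1 : Real.log x ≤ (t + 1) * Real.log 2 := by
    have := Real.log_le_log (by positivity : (0 : ℝ) < x) (by exact_mod_cast h2.le : _ ≤ (2 : ℝ) ^ (t + 1))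
    rwa [Real.log_pow, Nat.cast_succ] at this
  have a2 : (t + 1 : ℝ) ≤ 16 * k := by exact_mod_cast k3
  have a3 : 8 * t ^ 3 * (2 ^ k) ^ 4 ≤ x := by
    refine le_of_pow_le_pow_left₀ two_ne_zero (Nat.zero_le _) ?_
    calc _ = (64 * t ^ 6) * 2 ^ (8 * k) := by ring
      _ ≤ x * x := Nat.mul_le_mul hx ((Nat.pow_le_pow_right two_pos k2).trans h1)
      _ = _ := by ring
  have a4 : l * ((2 ^ k) ^ 4 + 2 ^ k) * (2 * (t + 1)) ≤ x := by
    have : 2 ^ k ≤ (2 ^ k) ^ 4 := Nat.le_self_pow (by norm_num) _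
    calc _ ≤ t ^ 2 * (2 * (2 ^ k) ^ 4) * (2 * (2 * t)) := by gcongr <;> omega
      _ = 8 * t ^ 3 * (2 ^ k) ^ 4 := by ring
      _ ≤ _ := a3
  have a5 : (l : ℝ) * (((2 ^ k : ℕ) : ℝ) ^ 4 + (2 ^ k : ℕ)) * (2 * (t + 1)) ≤ x := by
    exact_mod_cast a4
  have a6 : (l : ℝ) ≤ x := by
    have : t ^ 2 ≤ t ^ 6 := Nat.pow_le_pow_right (by omega) (by norm_num)
    exact_mod_cast (by omega)
  have k0 : (1 : ℝ) ≤ k := by exact_mod_cast k1
  have a7 : 2 * (((2 * x : ℕ) : ℝ) + l) / Real.log (2 ^ k : ℕ) * Real.log x ≤ 96 * x := by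
    push_cast
    rw [Real.log_pow, div_mul_eq_mul_div, div_le_iff₀ (by positivity)]
    calc _ ≤ 2 * (2 * x + x) * (16 * k * Real.log 2) := by
          gcongr
          exact a1.trans (by gcongr)
      _ = _ := by ring
  have a8 := Real.log_natCast_nonneg x
  have a9 : Real.log x ≤ t + 1 := by nlinarith
  have b1 : (l : ℝ) * E.card ≤ 2 * ((l - 1) *
      ((Icc 1 (2 * x)).filter fun p => p.Prime ∧ p ≡ 1 [MOD l]).card) := by
    rw [← mul_assoc]
    exact mul_le_mul (by linarith) c1 (by positivity) (by linarith)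
  have b2 := mul_le_mul_of_nonneg_right (b1.trans (mul_le_mul_of_nonneg_left key zero_le_two)) a8
  have b3 : (0 : ℝ) ≤ l * (((2 ^ k : ℕ) : ℝ) ^ 4 + (2 ^ k : ℕ)) := by positivity
  nlinarith [mul_le_mul_of_nonneg_left a9 b3]

lemma sum_inv_primes {u : ℕ} (hu : 1 ≤ u) (k : ℕ) :
    ∑ l ∈ (Ioc (2 ^ u) (2 ^ (u + k))).filter Nat.Prime, (1 / l : ℝ) ≤ 4 * k / u := by
  have u0 : (0 : ℝ) < u := by exact_mod_cast hu
  induction k with
  | zero => simp
  | succ k ih =>
    rw [← Ioc_union_Ioc_eq_Ioc (b := 2 ^ (u + k)) (Nat.pow_le_pow_right two_pos (by omega))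
      (Nat.pow_le_pow_right two_pos (by omega)), filter_union,
      sum_union (disjoint_filter_filter (Ioc_disjoint_Ioc_of_le le_rfl))]
    have lg := Real.log_two_gt_d9
    have h1 := Chebyshev.theta_le_log4_mul_x (x := (2 ^ (u + (k + 1)) : ℕ)) (by positivity)
    rw [Chebyshev.theta, Nat.floor_natCast] at h1
    have h2 : ∑ l ∈ (Ioc (2 ^ (u + k)) (2 ^ (u + (k + 1)))).filter Nat.Prime, (1 / l : ℝ) ≤
        (∑ l ∈ (Ioc 0 (2 ^ (u + (k + 1)))).filter Nat.Prime, Real.log l) /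
          (2 ^ (u + k) * (u * Real.log 2)) := by
      rw [sum_div]
      refine (sum_le_sum fun l hl => ?_).trans (sum_le_sum_of_subset_of_nonneg
        (filter_subset_filter _ (Ioc_subset_Ioc_left (Nat.zero_le _))) fun l _ _ => by
          have := Real.log_natCast_nonneg l; positivity)
      have a1 : (2 : ℝ) ^ (u + k) ≤ l := by exact_mod_cast (mem_Ioc.1 (mem_filter.1 hl).1).1.le
      have a2 := Real.log_le_log (by positivity) ((pow_le_pow_right₀ one_le_two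
        (by omega : u ≤ u + k)).trans a1)
      rw [Real.log_pow] at a2
      rw [div_le_div_iff₀ (lt_of_lt_of_le (by positivity) a1) (by positivity), one_mul, mul_comm]
      gcongr
    have h3 : Real.log 4 = 2 * Real.log 2 := by
      rw [show (4 : ℝ) = 2 ^ 2 by norm_num, Real.log_pow]; norm_num
    refine (add_le_add ih (h2.trans (div_le_div_of_nonneg_right h1 (by positivity)))).trans
      (le_of_eq ?_)
    rw [h3]; push_cast; field_simp; ring

end Pool.Agent.MP_48b1c3_nt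

end
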